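import Mathlib

namespace Pool.Agent.H29.Abel

open Filter Topology Finset

/-- The weighted means `M_n`. -/
noncomputable def mean (l s : ℕ → ℝ) (n : ℕ) : ℝ :=
  (∑ i ∈ range n, l i * s i) / ∑ i ∈ range n, l i

/-- `l` is admissible for `s`, and the weighted means tend to `c`. -/
def Adm (l s : ℕ → ℝ) (c : ℝ) : Prop :=
  (∀ n, 0 < l n) ∧ Tendsto (fun n => ∑ i ∈ range n, l i) atTop atTop ∧
    Tendsto (mean l s) atTop (𝓝 c)

/-- The iterated differences `Δ^k_n`. -/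
def diff (l : ℕ → ℝ) : ℕ → ℕ → ℝ
  | 0, n => l n
  | k + 1, n => diff l k n - diff l k (n + 1)

/-- `l` is fully monotonic. -/
def FullyMono (l : ℕ → ℝ) : Prop := ∀ k n, 1 ≤ k → 0 ≤ diff l k n

noncomputable def ab (s : ℕ → ℝ) (t : ℝ) : ℝ := ∑' i, (1 - t) * t ^ i * s i

section one
variable {t B : ℝ} {u : ℕ → ℝ}

lemma geo (t : ℝ) (n : ℕ) : ∑ i ∈ range n, (1 - t) * t ^ i = 1 - t ^ n := by
  rw [← mul_sum, mul_comm, geom_sum_mul_neg]

lemma hs (h0 : 0 < t) (h1 : t < 1) (n : ℕ) : HasSum (fun i => (1 - t) * t ^ (i + n)) (t ^ n) := by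
  have := (hasSum_geometric_of_lt_one h0.le h1).mul_left ((1 - t) * t ^ n)
  have h2 : (1 - t) ≠ 0 := by linarith
  have e1 : (fun i => (1 - t) * t ^ (i + n)) = fun i => (1 - t) * t ^ n * t ^ i := by
    funext i; ring
  have e2 : t ^ n = (1 - t) * t ^ n * (1 - t)⁻¹ := by field_simp
  rw [← e2] at this
  rw [e1]
  exact this

lemma term_le (h0 : 0 < t) (h1 : t < 1) (hu : ∀ i, |u i| ≤ B) (i : ℕ) :
    ‖(1 - t) * t ^ i * u i‖ ≤ (1 - t) * t ^ i * B := by
  have : 0 ≤ (1 - t) * t ^ i := mul_nonneg (by linarith) (by positivity)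
  rw [Real.norm_eq_abs, abs_mul, abs_of_nonneg this]
  exact mul_le_mul_of_nonneg_left (hu i) this

lemma summ (h0 : 0 < t) (h1 : t < 1) (hu : ∀ i, |u i| ≤ B) :
    Summable fun i => (1 - t) * t ^ i * u i :=
  Summable.of_norm_bounded ((hs h0 h1 0).summable.mul_right B) (term_le h0 h1 hu)

lemma head_le (h0 : 0 < t) (h1 : t < 1) {n : ℕ} (hu : ∀ i, |u i| ≤ B) :
    |∑ i ∈ range n, (1 - t) * t ^ i * u i| ≤ (1 - t ^ n) * B := by
  rw [← geo, sum_mul]
  exact norm_sum_le_of_le _ fun i _ => term_le h0 h1 hu i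

lemma tail_le (h0 : 0 < t) (h1 : t < 1) (hu : ∀ i, |u i| ≤ B) (n : ℕ) :
    |ab u t - ∑ i ∈ range n, (1 - t) * t ^ i * u i| ≤ t ^ n * B := by
  rw [ab, ← (summ h0 h1 hu).sum_add_tsum_nat_add n, add_sub_cancel_left]
  exact tsum_of_norm_bounded ((hs h0 h1 n).mul_right B) fun i => term_le h0 h1 hu _

lemma ab_sub (h0 : 0 < t) (h1 : t < 1) (hu : ∀ i, |u i| ≤ B) (c : ℝ) :
    ab (fun i => u i - c) t = ab u t - c := by
  have h2 := (hs h0 h1 0).mul_right c
  simp only [add_zero, pow_zero, one_mul] at h2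
  unfold ab
  simp only [mul_sub]
  simp only [← mul_sub]
  rw [← h2.tsum_eq, ← (summ h0 h1 hu).tsum_sub h2.summable, h2.tsum_eq]
  exact tsum_congr fun i => by ring

lemma ab_le (h0 : 0 < t) (h1 : t < 1) (hu : ∀ i, |u i| ≤ B) : |ab u t| ≤ B := by
  simpa using tail_le h0 h1 hu 0

lemma mix_le (h0 : 0 < t) (h1 : t < 1) (hu : ∀ i, |u i| ≤ B) (n : ℕ) :
    |∑ i ∈ range n, (1 - t) * t ^ i * u i| ≤
      (1 - t ^ n) * |ab u t| + 2 * B * (t ^ n * (1 - t ^ n)) := by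
  have a := head_le (n := n) h0 h1 hu
  have b := tail_le h0 h1 hu n
  have c := abs_sub_abs_le_abs_sub (∑ i ∈ range n, (1 - t) * t ^ i * u i) (ab u t)
  rw [abs_sub_comm] at c
  have x0 : 0 ≤ t ^ n := by positivity
  have x1 : 0 ≤ 1 - t ^ n := sub_nonneg.2 (pow_le_one₀ h0.le h1.le)
  have d := mul_le_mul_of_nonneg_left a x0
  have e := mul_le_mul_of_nonneg_left (c.trans b) x1
  nlinarith

end one

noncomputable def tau (m : ℕ) : ℝ := Real.exp (-(1 / 2 ^ m))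

lemma tau_pos (m : ℕ) : 0 < tau m := Real.exp_pos _

lemma tau_lt (m : ℕ) : tau m < 1 := Real.exp_lt_one_iff.2 (by simp)

lemma one_sub_tau (m : ℕ) : 1 - tau m ≤ (1 / 2) ^ m := by
  have := Real.add_one_le_exp (-(1 / 2 ^ m))
  rw [one_div_pow]
  unfold tau
  linarith

lemma tau_sq {m k : ℕ} (h : m < k) : tau m ≤ tau k ^ 2 := by
  rw [tau, tau, ← Real.exp_nat_mul]
  refine Real.exp_le_exp.2 ?_
  have : (2 : ℝ) ^ (m + 1) ≤ 2 ^ k := pow_le_pow_right₀ one_le_two h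
  have h2 : (1 : ℝ) / 2 ^ k ≤ 1 / 2 ^ (m + 1) := one_div_le_one_div_of_le (by positivity) this
  have h3 : (1 : ℝ) / 2 ^ m = 2 * (1 / 2 ^ (m + 1)) := by field_simp; ring
  push_cast
  linarith

section main
variable {φ : ℕ → ℕ}

noncomputable def wt (φ : ℕ → ℕ) (n : ℕ) : ℝ := ∑' k, (1 - tau (φ k)) * tau (φ k) ^ n

lemma sum0 (hφ : StrictMono φ) : Summable fun k => 1 - tau (φ k) :=
  Summable.of_nonneg_of_le (fun k => by linarith [tau_lt (φ k)])
    (fun k => (one_sub_tau _).trans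
      (pow_le_pow_of_le_one (by norm_num) (by norm_num) (hφ.id_le k))) summable_geometric_two

lemma sum1 (hφ : StrictMono φ) (j n : ℕ) :
    Summable fun k => (1 - tau (φ k)) ^ (j + 1) * tau (φ k) ^ n := by
  refine Summable.of_nonneg_of_le (fun k => ?_) (fun k => ?_) (sum0 hφ)
  · have := tau_lt (φ k)
    have := tau_pos (φ k)
    exact mul_nonneg (pow_nonneg (by linarith) _) (by positivity)
  · have a := tau_lt (φ k)
    have b := tau_pos (φ k)
    have c : (1 - tau (φ k)) ^ j ≤ 1 := pow_le_one₀ (by linarith) (by linarith)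
    have d : tau (φ k) ^ n ≤ 1 := pow_le_one₀ b.le a.le
    have e : (1 - tau (φ k)) ^ j * tau (φ k) ^ n ≤ 1 := mul_le_one₀ c (by positivity) d
    calc _ = (1 - tau (φ k)) * ((1 - tau (φ k)) ^ j * tau (φ k) ^ n) := by ring
      _ ≤ _ := mul_le_of_le_one_right (by linarith) e

lemma sum2 (hφ : StrictMono φ) (n : ℕ) : Summable fun k => (1 - tau (φ k)) * tau (φ k) ^ n := by
  simpa using sum1 hφ 0 n

lemma diff_wt (hφ : StrictMono φ) (j n : ℕ) :
    diff (wt φ) j n = ∑' k, (1 - tau (φ k)) ^ (j + 1) * tau (φ k) ^ n := by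
  induction j generalizing n with
  | zero => simp [diff, wt]
  | succ j ih =>
    rw [diff, ih, ih, ← (sum1 hφ j n).tsum_sub (sum1 hφ j (n + 1))]
    exact tsum_congr fun k => by ring

lemma fully (hφ : StrictMono φ) : FullyMono (wt φ) := fun j n _ => by
  rw [diff_wt hφ]
  refine tsum_nonneg fun k => ?_
  have := tau_lt (φ k)
  have := tau_pos (φ k)
  exact mul_nonneg (pow_nonneg (by linarith) _) (by positivity)

lemma wt_pos (hφ : StrictMono φ) (n : ℕ) : 0 < wt φ n := by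
  have h : ∀ k, 0 < (1 - tau (φ k)) * tau (φ k) ^ n := fun k =>
    mul_pos (by linarith [tau_lt (φ k)]) (pow_pos (tau_pos _) _)
  exact (sum2 hφ n).tsum_pos (fun k => (h k).le) 0 (h 0)

lemma hs_mul (hφ : StrictMono φ) (u : ℕ → ℝ) (n : ℕ) :
    HasSum (fun k => ∑ i ∈ range n, (1 - tau (φ k)) * tau (φ k) ^ i * u i)
      (∑ i ∈ range n, wt φ i * u i) :=
  hasSum_sum fun i _ => (sum2 hφ i).hasSum.mul_right (u i)

lemma hs_one (hφ : StrictMono φ) (n : ℕ) :
    HasSum (fun k => 1 - tau (φ k) ^ n) (∑ i ∈ range n, wt φ i) := by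
  simpa [geo] using hs_mul hφ (fun _ => 1) n

lemma x1 (m n : ℕ) : 0 ≤ 1 - tau m ^ n := sub_nonneg.2 (pow_le_one₀ (tau_pos _).le (tau_lt _).le)

lemma div_wt (hφ : StrictMono φ) : Tendsto (fun n => ∑ i ∈ range n, wt φ i) atTop atTop := by
  refine tendsto_atTop.2 fun b => ?_
  obtain ⟨K, hK⟩ := exists_nat_gt b
  have h : Tendsto (fun n => ∑ k ∈ range K, (1 - tau (φ k) ^ n)) atTop
      (𝓝 (∑ k ∈ range K, (1 - 0))) :=
    tendsto_finset_sum _ fun k _ => tendsto_const_nhds.sub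
      (tendsto_pow_atTop_nhds_zero_of_lt_one (tau_pos _).le (tau_lt _))
  simp only [sub_zero, sum_const, card_range, nsmul_eq_mul, mul_one] at h
  filter_upwards [h.eventually (lt_mem_nhds hK)] with n hn
  exact hn.le.trans (sum_le_hasSum _ (fun k _ => x1 _ _) (hs_one hφ n))

lemma tele (hφ : StrictMono φ) (n K : ℕ) :
    ∑ k ∈ range K, tau (φ k) ^ n * (1 - tau (φ k) ^ n) ≤ 2 := by
  have h : ∀ k ∈ range K, tau (φ k) ^ n * (1 - tau (φ k) ^ n) ≤
      2 * (tau (φ (k + 1)) ^ n - tau (φ k) ^ n) := by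
    intro k _
    have a : tau (φ k) ^ n ≤ (tau (φ (k + 1)) ^ n) ^ 2 := by
      rw [← pow_mul, mul_comm, pow_mul]
      exact pow_le_pow_left₀ (tau_pos _).le (tau_sq (hφ (Nat.lt_succ_self k))) n
    have b := x1 (φ k) n
    have c := x1 (φ (k + 1)) n
    have d := pow_pos (tau_pos (φ k)) n
    have e := pow_pos (tau_pos (φ (k + 1))) n
    set x := tau (φ k) ^ n
    set y := tau (φ (k + 1)) ^ n
    have f : x ≤ y := by nlinarith
    nlinarith [mul_nonneg d.le c, mul_nonneg (sub_nonneg.2 a) c, mul_nonneg (sub_nonneg.2 f) c]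
  refine (sum_le_sum h).trans ?_
  rw [← mul_sum, sum_range_sub fun k => tau (φ k) ^ n]
  linarith [x1 (φ K) n, pow_pos (tau_pos (φ 0)) n]

lemma bound (hφ : StrictMono φ) {u : ℕ → ℝ} {B ε : ℝ} (hu : ∀ i, |u i| ≤ B) (hε : 0 ≤ ε) {K : ℕ}
    (hK : ∀ k, K ≤ k → |ab u (tau (φ k))| ≤ ε) (n : ℕ) :
    |∑ i ∈ range n, wt φ i * u i| ≤ ε * ∑ i ∈ range n, wt φ i + (K * B + 4 * B) := by
  have hB : 0 ≤ B := (abs_nonneg _).trans (hu 0)
  refine le_of_tendsto' (hs_mul hφ u n).tendsto_sum_nat.abs fun J => ?_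
  refine (abs_sum_le_sum_abs _ _).trans ?_
  have h : ∀ k ∈ range J, |∑ i ∈ range n, (1 - tau (φ k)) * tau (φ k) ^ i * u i| ≤
      ε * (1 - tau (φ k) ^ n) + (if k ∈ range K then B else 0) +
        2 * B * (tau (φ k) ^ n * (1 - tau (φ k) ^ n)) := by
    intro k _
    refine (mix_le (tau_pos _) (tau_lt _) hu n).trans (add_le_add_left ?_ _)
    have a := x1 (φ k) n
    have b := pow_pos (tau_pos (φ k)) n
    split_ifs with hk
    · have c := ab_le (tau_pos (φ k)) (tau_lt _) hu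
      nlinarith [abs_nonneg (ab u (tau (φ k))), mul_nonneg hε a]
    · have c := hK k (by simpa using hk)
      nlinarith
  refine (sum_le_sum h).trans ?_
  rw [sum_add_distrib, sum_add_distrib, ← mul_sum, ← mul_sum, sum_ite_mem, sum_const,
    nsmul_eq_mul]
  have a := sum_le_hasSum (range J) (fun k _ => x1 (φ k) n) (hs_one hφ n)
  have b : ((range J ∩ range K).card : ℝ) ≤ K := by
    exact_mod_cast (card_le_card inter_subset_right).trans (card_range K).le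
  have c := tele hφ n J
  nlinarith [mul_le_mul_of_nonneg_left a hε, mul_le_mul_of_nonneg_right b hB,
    mul_le_mul_of_nonneg_left c hB]

lemma adm (hφ : StrictMono φ) {s : ℕ → ℝ} {B c : ℝ} (hs : ∀ i, |s i| ≤ B)
    (hc : Tendsto (fun k => ab s (tau (φ k))) atTop (𝓝 c)) : Adm (wt φ) s c := by
  refine ⟨wt_pos hφ, div_wt hφ, Metric.tendsto_atTop.2 fun ε hε => ?_⟩
  obtain ⟨K, hK⟩ := Metric.tendsto_atTop.1 hc (ε / 2) (by positivity)
  have hu : ∀ i, |s i - c| ≤ B + |c| := fun i => (abs_sub _ _).trans (by linarith [hs i])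
  have hK' : ∀ k, K ≤ k → |ab (fun i => s i - c) (tau (φ k))| ≤ ε / 2 := fun k hk => by
    rw [ab_sub (tau_pos _) (tau_lt _) hs]
    exact (hK k hk).le
  set C := K * (B + |c|) + 4 * (B + |c|)
  obtain ⟨N, hN⟩ := eventually_atTop.1 ((div_wt hφ).eventually_gt_atTop (max 0 (2 * C / ε)))
  refine ⟨N, fun n hn => ?_⟩
  have h := bound hφ hu (by positivity) hK' n
  have h1 := (le_max_left _ _).trans_lt (hN n hn)
  have h2 := (le_max_right _ _).trans_lt (hN n hn)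
  rw [div_lt_iff₀ hε] at h2
  have e : mean (wt φ) s n - c = (∑ i ∈ range n, wt φ i * (s i - c)) / ∑ i ∈ range n, wt φ i := by
    simp only [mean, mul_sub, sum_sub_distrib, ← sum_mul]
    field_simp
  rw [Real.dist_eq, e, abs_div, abs_of_pos h1, div_lt_iff₀ h1]
  linarith

lemma exists_adm {s : ℕ → ℝ} {B a b : ℝ} (hs : ∀ i, |s i| ≤ B) {ψ : ℕ → ℕ} (hψ : StrictMono ψ)
    (h : ∀ k, ab s (tau (ψ k)) ∈ Set.Icc a b) :
    ∃ l, ∃ c ∈ Set.Icc a b, Adm l s c ∧ FullyMono l := by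
  obtain ⟨c, hc, φ, hφ, hl⟩ := isCompact_Icc.tendsto_subseq h
  exact ⟨wt (ψ ∘ φ), c, hc, adm (hψ.comp hφ) hs hl, fully (hψ.comp hφ)⟩

end main

end Pool.Agent.H29.Abel
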