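import Mathlib

set_option autoImplicit false
open Filter Topology Set Asymptotics

namespace Pool.Agent.H29.Flat

noncomputable def Ser (f : ℝ → ℝ) (x : ℝ) : FormalMultilinearSeries ℝ ℝ ℝ :=
  FormalMultilinearSeries.ofScalars ℝ (fun n => iteratedDeriv n f x / (n.factorial : ℝ))

def Ana (f : ℝ → ℝ) (x : ℝ) : Prop :=
  ∃ A : ℝ → ℝ, AnalyticAt ℝ A x ∧ ∀ n : ℕ, (fun t => f t - A t) =o[𝓝 x] fun t => (t - x) ^ n

theorem taylor (f : ℝ → ℝ) (x : ℝ) (n : ℕ) (hf : ContDiffAt ℝ n f x) :
    (fun t => f t - ∑ k ∈ Finset.range (n + 1), ((k.factorial : ℝ)⁻¹ * (t - x) ^ k) *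
      iteratedDeriv k f x) =o[𝓝 x] fun t => (t - x) ^ n := by
  obtain ⟨u, hu, hfu⟩ := hf.contDiffOn le_rfl (by simp)
  obtain ⟨ε, hε, hb⟩ := Metric.mem_nhds_iff.1 hu
  have h1 := taylor_isLittleO (convex_ball x ε) (Metric.mem_ball_self hε) (hfu.mono hb)
  rw [nhdsWithin_eq_nhds.2 (Metric.ball_mem_nhds x hε)] at h1
  refine h1.congr_left fun t => ?_
  rw [taylor_within_apply]
  congr 1
  refine Finset.sum_congr rfl fun k _ => ?_
  rw [iteratedDerivWithin_of_isOpen Metric.isOpen_ball (Metric.mem_ball_self hε), smul_eq_mul]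

theorem ana_iff (f : ℝ → ℝ) (hf : ContDiff ℝ (⊤ : ℕ∞) f) (x : ℝ) :
    Ana f x ↔ (Ser f x).radius ≠ 0 := by
  have hf' : ∀ n : ℕ, ContDiffAt ℝ n f x := fun n => hf.contDiffAt.of_le (by exact_mod_cast le_top)
  constructor
  · rintro ⟨A, hA, h⟩
    have key : ∀ n, iteratedDeriv n f x = iteratedDeriv n A x := by
      intro n
      induction n using Nat.strong_induction_on with
      | _ n ih =>
        have h1 := ((taylor A x n hA.contDiffAt).sub (taylor f x n (hf' n))).add (h n)
        have h2 : (fun t => ((n.factorial : ℝ)⁻¹ * (iteratedDeriv n f x - iteratedDeriv n A x))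
            * (t - x) ^ n) =o[𝓝 x] fun t => (t - x) ^ n := by
          refine h1.congr_left fun t => ?_
          rw [Finset.sum_range_succ, Finset.sum_range_succ,
            Finset.sum_congr rfl (fun k hk => by rw [ih k (Finset.mem_range.1 hk)] :
              ∀ k ∈ Finset.range n, ((k.factorial : ℝ)⁻¹ * (t - x) ^ k) * iteratedDeriv k f x
                = ((k.factorial : ℝ)⁻¹ * (t - x) ^ k) * iteratedDeriv k A x)]
          ring
        by_contra hne
        have h3 : (n.factorial : ℝ)⁻¹ * (iteratedDeriv n f x - iteratedDeriv n A x) ≠ 0 :=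
          mul_ne_zero (by positivity) (sub_ne_zero.2 hne)
        rw [isLittleO_const_mul_left_iff h3] at h2
        refine isLittleO_irrefl ?_ h2
        refine Frequently.filter_mono (f := 𝓝[≠] x) (Eventually.frequently ?_) nhdsWithin_le_nhds
        filter_upwards [self_mem_nhdsWithin] with t ht
        exact pow_ne_zero _ (sub_ne_zero.2 ht)
    have := hA.hasFPowerSeriesAt.radius_pos
    simp only [Ser, key]
    exact this.ne'
  · intro h
    have h1 := ((Ser f x).hasFPowerSeriesOnBall (pos_iff_ne_zero.2 h)).hasFPowerSeriesAt.comp_sub x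
    rw [zero_add] at h1
    have h2 := h1.eq_formalMultilinearSeries h1.analyticAt.hasFPowerSeriesAt
    have h3 := FormalMultilinearSeries.ofScalars_series_injective ℝ ℝ h2
    refine ⟨_, h1.analyticAt, fun n => ?_⟩
    refine ((taylor f x n (hf' n)).sub (taylor _ x n h1.analyticAt.contDiffAt)).congr_left fun t => ?_
    have h4 : ∀ k, iteratedDeriv k f x = iteratedDeriv k (fun z => (Ser f x).sum (z - x)) x := by
      intro k
      have := congrFun h3 k
      field_simp at this
      exact this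
    simp only [← h4]; ring

theorem divide (x : ℝ) (m : ℕ) (A : ℝ → ℝ) (hA : AnalyticAt ℝ A x)
    (h : A =O[𝓝[≠] x] fun t => (t - x) ^ m) :
    ∃ a, AnalyticAt ℝ a x ∧ ∀ᶠ t in 𝓝 x, A t = (t - x) ^ m * a t := by
  induction m with
  | zero => exact ⟨A, hA, by simp⟩
  | succ m ih =>
    have ht : Tendsto (fun t => t - x) (𝓝[≠] x) (𝓝 0) := by
      have : Tendsto (fun t => t - x) (𝓝 x) (𝓝 (x - x)) := by
        exact (continuous_id.sub continuous_const).tendsto x
      simpa using this.mono_left nhdsWithin_le_nhds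
    have h0 : (fun t => (t - x) ^ (m + 1)) =o[𝓝[≠] x] fun t => (t - x) ^ m :=
      (isLittleO_pow_pow (Nat.lt_succ_self m)).comp_tendsto ht
    obtain ⟨a, ha, he⟩ := ih (h.trans h0.isBigO)
    have h1 := (h.trans_isLittleO h0).tendsto_div_nhds_zero
    have h2 : Tendsto a (𝓝[≠] x) (𝓝 0) := by
      refine h1.congr' ?_
      filter_upwards [self_mem_nhdsWithin, nhdsWithin_le_nhds he] with t ht he
      rw [he, mul_div_cancel_left₀ _ (pow_ne_zero _ (sub_ne_zero.2 ht))]
    have h3 : a x = 0 := tendsto_nhds_unique (ha.continuousAt.tendsto.mono_left nhdsWithin_le_nhds) h2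
    obtain ⟨p, hp⟩ := ha
    refine ⟨dslope a x, hp.has_fpower_series_dslope_fslope.analyticAt, ?_⟩
    filter_upwards [he] with t he
    have := sub_smul_dslope a x t
    rw [h3, sub_zero, smul_eq_mul] at this
    rw [he, ← this]; ring

theorem pow_sep (c a b : ℝ) (hc : 0 < c) (ha : c ≤ a) (hb : c ≤ b) (m : ℕ) :
    c ^ m * |a - b| ≤ |a ^ (m + 1) - b ^ (m + 1)| := by
  wlog h : b ≤ a generalizing a b
  · rw [abs_sub_comm, abs_sub_comm (a ^ _)]
    exact this b a hb ha (le_of_not_ge h)
  have h1 : b ^ m ≤ a ^ m := pow_le_pow_left₀ (by linarith) h m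
  have h2 : c ^ m ≤ b ^ m := pow_le_pow_left₀ hc.le hb m
  rw [abs_of_nonneg (sub_nonneg.2 h)]
  refine le_trans ?_ (le_abs_self _)
  rw [pow_succ, pow_succ]
  nlinarith [mul_le_mul_of_nonneg_right h2 (sub_nonneg.2 h),
    mul_le_mul_of_nonneg_right h1 (show 0 ≤ a by linarith)]

theorem root (h : ℝ → ℝ) (x κ : ℝ) (m : ℕ) (hκ : 0 < κ) (hd : HasDerivAt h κ x) (h0 : h x = 0)
    (ha : Ana (fun t => h t ^ (m + 1)) x) : Ana h x := by
  obtain ⟨A, hA, hf⟩ := ha
  have hv : Tendsto (fun t => h t / (t - x)) (𝓝[≠] x) (𝓝 κ) := by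
    refine (hasDerivAt_iff_tendsto_slope.1 hd).congr fun t => ?_
    rw [slope_def_field, h0, sub_zero]
  have hA1 : Tendsto (fun t => A t / (t - x) ^ (m + 1)) (𝓝[≠] x) (𝓝 (κ ^ (m + 1))) := by
    have := (hv.pow (m + 1)).sub ((hf (m + 1)).mono nhdsWithin_le_nhds).tendsto_div_nhds_zero
    rw [sub_zero] at this
    refine this.congr fun t => ?_
    rw [div_pow]; ring
  obtain ⟨a, ha, he⟩ := divide x (m + 1) A hA (by
    refine isBigO_of_div_tendsto_nhds ?_ _ hA1
    filter_upwards [self_mem_nhdsWithin] with t ht h1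
    exact absurd h1 (pow_ne_zero _ (sub_ne_zero.2 ht)))
  have ha0 : a x = κ ^ (m + 1) := by
    refine tendsto_nhds_unique (ha.continuousAt.tendsto.mono_left (nhdsWithin_le_nhds (s := {x}ᶜ)))
      (hA1.congr' ?_)
    filter_upwards [self_mem_nhdsWithin, nhdsWithin_le_nhds he] with t ht he
    rw [he, mul_div_cancel_left₀ _ (pow_ne_zero _ (sub_ne_zero.2 ht))]
  have hpos : 0 < a x := by rw [ha0]; positivity
  have hw : AnalyticAt ℝ (fun t => Real.exp (Real.log (a t) / (m + 1))) x :=
    ((ha.log hpos).div_const).rexp'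
  have hwx : Real.exp (Real.log (a x) / (m + 1)) = κ := by
    rw [ha0, Real.log_pow]
    push_cast
    rw [mul_div_cancel_left₀ _ (by positivity), Real.exp_log hκ]
  refine ⟨fun t => (t - x) * Real.exp (Real.log (a t) / (m + 1)),
    (analyticAt_id.sub analyticAt_const).mul hw, fun n => ?_⟩
  have hb : (fun t => h t - (t - x) * Real.exp (Real.log (a t) / (m + 1))) =O[𝓝[≠] x]
      fun t => (h t ^ (m + 1) - A t) / (t - x) ^ m := by
    refine IsBigO.of_bound ((κ / 2) ^ m)⁻¹ ?_
    have e1 := hv.eventually (lt_mem_nhds (half_lt_self hκ))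
    have e2 := hw.continuousAt.eventually (p := fun y => κ / 2 < y)
      (by simp only [hwx]; exact lt_mem_nhds (half_lt_self hκ))
    have e3 := ha.continuousAt.eventually (lt_mem_nhds hpos)
    filter_upwards [self_mem_nhdsWithin, nhdsWithin_le_nhds he, e1, nhdsWithin_le_nhds e2,
      nhdsWithin_le_nhds e3] with t ht he e1 e2 e3
    have ht : t - x ≠ 0 := sub_ne_zero.2 ht
    have h1 := pow_sep (κ / 2) _ _ (half_pos hκ) e1.le e2.le m
    have h2 : Real.exp (Real.log (a t) / (m + 1)) ^ (m + 1) = a t := by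
      rw [← Real.exp_nat_mul]
      push_cast
      rw [mul_div_cancel₀ _ (by positivity), Real.exp_log e3]
    rw [h2] at h1
    set w := Real.exp (Real.log (a t) / (m + 1))
    have h3 : h t - (t - x) * w = (t - x) * (h t / (t - x) - w) := by field_simp
    have h4 : (h t ^ (m + 1) - A t) / (t - x) ^ m = (t - x) * ((h t / (t - x)) ^ (m + 1) - a t) := by
      rw [he, div_pow]; field_simp; ring
    rw [h3, h4, Real.norm_eq_abs, Real.norm_eq_abs, abs_mul, abs_mul, le_inv_mul_iff₀ (by positivity)]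
    nlinarith [mul_le_mul_of_nonneg_left h1 (abs_nonneg (t - x))]
  have hc : (fun t => (h t ^ (m + 1) - A t) / (t - x) ^ m) =o[𝓝[≠] x] fun t => (t - x) ^ n := by
    have := ((hf (n + m)).mono (nhdsWithin_le_nhds (s := {x}ᶜ))).mul_isBigO
      (isBigO_refl (fun t => ((t - x) ^ m)⁻¹) _)
    refine this.congr' (Eventually.of_forall fun t => by simp [div_eq_mul_inv]) ?_
    filter_upwards [self_mem_nhdsWithin] with t ht
    have ht : t - x ≠ 0 := sub_ne_zero.2 ht
    field_simp
    ring
  have hd := hb.trans_isLittleO hc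
  rw [← nhdsNE_sup_pure x, isLittleO_sup]
  refine ⟨hd, ?_⟩
  rw [isLittleO_pure]
  simp [h0]

theorem comp (g φ : ℝ → ℝ) (x κ : ℝ) (hκ : 0 < κ) (hd : HasDerivAt g κ x)
    (hφ : AnalyticAt ℝ φ (g x)) (hn : ¬ ∀ᶠ s in 𝓝 (g x), φ s = φ (g x))
    (ha : Ana (fun t => φ (g t)) x) : Ana g x := by
  obtain ⟨k, u, hu, hu0, he⟩ :=
    (hφ.sub (analyticAt_const (v := φ (g x)))).exists_eventuallyEq_pow_smul_nonzero_iff.2
      (by simpa [sub_eq_zero] using hn)
  obtain ⟨m, rfl⟩ : ∃ m, k = m + 1 := by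
    rcases k with _ | k
    · have := he.self_of_nhds
      simp at this
      exact absurd this.symm hu0
    · exact ⟨k, rfl⟩
  have hpos : 0 < u (g x) * u (g x) := mul_self_pos.2 hu0
  have hu2 : AnalyticAt ℝ (fun s => u (g x) * u s) (g x) := analyticAt_const.mul hu
  have hw : AnalyticAt ℝ (fun s => Real.exp (Real.log (u (g x) * u s) / (m + 1))) (g x) :=
    ((hu2.log hpos).div_const).rexp'
  set w := fun s => Real.exp (Real.log (u (g x) * u s) / (m + 1)) with hwd
  have hψ : AnalyticAt ℝ (fun s => (s - g x) * w s) (g x) :=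
    (analyticAt_id.sub analyticAt_const).mul hw
  have hψd : HasDerivAt (fun s => (s - g x) * w s) (w (g x)) (g x) := by
    have := ((hasDerivAt_id (g x)).sub_const (g x)).mul hw.differentiableAt.hasDerivAt
    refine this.congr_deriv ?_
    simp
  have hwp : 0 < w (g x) := Real.exp_pos _
  have h1 : Ana (fun t => (g t - g x) * w (g t)) x := by
    refine root _ x (w (g x) * κ) m (by positivity) (hψd.comp x hd) (by simp) ?_
    obtain ⟨A, hA, hf⟩ := ha
    refine ⟨fun t => u (g x) * (A t - φ (g x)), analyticAt_const.mul (hA.sub analyticAt_const),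
      fun n => ((hf n).const_mul_left (u (g x))).congr' ?_ (EventuallyEq.refl _ _)⟩
    have e3 := hu2.continuousAt.eventually (lt_mem_nhds hpos)
    filter_upwards [hd.continuousAt.eventually he, hd.continuousAt.eventually e3] with t he e3
    have h2 : w (g t) ^ (m + 1) = u (g x) * u (g t) := by
      rw [hwd, ← Real.exp_nat_mul]
      push_cast
      rw [mul_div_cancel₀ _ (by positivity), Real.exp_log e3]
    simp only [Pi.sub_apply, smul_eq_mul] at he
    rw [mul_pow, h2]
    linear_combination (u (g x)) * he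
  obtain ⟨B, hB, hf⟩ := h1
  have hne : deriv (fun s => (s - g x) * w s) (g x) ≠ 0 := by rw [hψd.deriv]; exact hwp.ne'
  have hr := hψ.analyticAt_localInverse hne
  have hl := hψ.hasStrictDerivAt.eventually_left_inverse hne
  set r := hψ.hasStrictDerivAt.localInverse _ _ _ hne
  have hB0 : B x = (g x - g x) * w (g x) := by
    have := (hf 1).isBigO.eq_zero_imp.self_of_nhds (by simp)
    linarith
  refine ⟨fun t => r (B t), AnalyticAt.comp (by rw [hB0]; exact hr) hB, fun n => ?_⟩
  have h5 := hr.hasStrictFDerivAt.isBigO_sub.comp_tendsto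
    (k := fun t => ((g t - g x) * w (g t), B t)) (l' := 𝓝 x) (by
      refine Tendsto.prodMk_nhds (hψd.comp x hd).continuousAt.tendsto ?_
      rw [← hB0]; exact hB.continuousAt.tendsto)
  refine (h5.trans_isLittleO (hf n)).congr' ?_ (EventuallyEq.refl _ _)
  filter_upwards [hd.continuousAt.eventually hl] with t ht
  simp only [Function.comp]
  rw [ht]

end Pool.Agent.H29.Flat
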