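import Pool.Agent.H29.Space
import Pool.Agent.H29.Flat

set_option autoImplicit false
open Filter Topology Set
open Pool.Agent.H29.Lac Pool.Agent.H29.Flat

namespace Pool.Agent.H29.Alg

noncomputable def MM (n : ℕ) : ℝ := (n.factorial : ℝ) * (n : ℝ) ^ n

noncomputable def c0 : ℝ := 1 + ∑' j, w MM 1 j

noncomputable def g (x : ℝ) : ℝ := c0 * x + T MM (fun _ => 1) 0 x

theorem one_bd : ∀ _ : ℕ, |(1 : ℝ)| ≤ 1 := fun _ => by simp

theorem g_deriv (x : ℝ) : HasDerivAt g (c0 + T MM (fun _ => 1) 1 x) x := by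
  have := ((hasDerivAt_id x).const_mul c0).add (T_deriv MM (fun _ => 1) 1 one_bd 0 x)
  refine this.congr_deriv ?_
  simp

theorem g_pos (x : ℝ) : 0 < c0 + T MM (fun _ => 1) 1 x := by
  have := (abs_le.1 (T_bd MM (fun _ => 1) 1 one_bd 1 x)).1
  unfold c0; linarith

theorem g_smooth : ContDiff ℝ (⊤ : ℕ∞) g :=
  (contDiff_const.mul contDiff_id).add (T_smooth MM _ 1 one_bd)

theorem g_iter (n : ℕ) : iteratedDeriv (n + 2) g = T MM (fun _ => 1) (n + 2) := by
  induction n with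
  | zero =>
    have h1 : deriv g = fun x => c0 + T MM (fun _ => 1) 1 x := funext fun x => (g_deriv x).deriv
    rw [iteratedDeriv_succ, iteratedDeriv_one, h1]
    ext x
    exact ((T_deriv MM (fun _ => 1) 1 one_bd 1 x).const_add c0).deriv
  | succ n ih =>
    rw [iteratedDeriv_succ, ih]
    ext x
    exact (T_deriv MM (fun _ => 1) 1 one_bd _ x).deriv

theorem g_rad (x : ℝ) : (Ser g x).radius = 0 := by
  apply Space.radius_zero
  intro N
  obtain ⟨n, hn, hb⟩ := big MM (fun _ => 1) 1 one_bd (N + 2) x (by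
    push_cast; simp only [abs_one, one_mul]; linarith [Nat.cast_nonneg (α := ℝ) N])
  obtain ⟨k, rfl⟩ : ∃ k, n = k + 2 := ⟨n - 2, by omega⟩
  refine ⟨k + 2, by omega, ?_⟩
  rw [g_iter, Real.norm_eq_abs]
  have : 0 ≤ MM (k + 2) := by unfold MM; positivity
  rw [abs_of_nonneg this] at hb
  show MM (k + 2) ≤ _
  linarith

theorem comp_rad (φ : ℝ → ℝ) (hφ : ∀ s, AnalyticAt ℝ φ s) (hn : ∃ s, φ s ≠ φ 0) (x : ℝ) :
    (Ser (fun t => φ (g t)) x).radius = 0 := by
  by_contra h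
  have hs : ContDiff ℝ (⊤ : ℕ∞) φ := contDiff_iff_contDiffAt.2 fun s => (hφ s).contDiffAt
  have h1 := (ana_iff _ (hs.comp g_smooth) x).2 h
  refine (ana_iff g g_smooth x).1 (comp g φ x _ (g_pos x) (g_deriv x) (hφ _) ?_ h1) (g_rad x)
  intro he
  have := AnalyticOnNhd.eq_of_eventuallyEq (f := φ) (g := fun _ => φ (g x)) (fun s _ => hφ s)
    (fun _ _ => analyticAt_const) he
  obtain ⟨s, hs⟩ := hn
  exact hs ((congrFun this s).trans (congrFun this 0).symm)

variable (𝕜 : Type) [RCLike 𝕜]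

noncomputable def E (l : ℝ) (s : ℝ) : 𝕜 := (Real.exp (l * s) : ℝ)

theorem E_add (a b : ℝ) : E 𝕜 (a + b) = E 𝕜 a * E 𝕜 b := by
  ext s; simp only [E, Pi.mul_apply, add_mul, Real.exp_add]; push_cast; rfl

theorem E_ind : LinearIndependent 𝕜 (E 𝕜) := by
  let χ : ℝ → (Multiplicative ℝ →* 𝕜) := fun l =>
    { toFun := fun s => E 𝕜 l s.toAdd
      map_one' := by simp [E]
      map_mul' := fun a b => by simp only [E, toAdd_mul, mul_add, Real.exp_add]; push_cast; rfl }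
  refine (linearIndependent_monoidHom (Multiplicative ℝ) 𝕜).comp χ fun a b h => ?_
  have := DFunLike.congr_fun h (Multiplicative.ofAdd 1)
  simpa [χ, E] using this

theorem E_ana (l s : ℝ) : AnalyticAt ℝ (E 𝕜 l) s := by
  have h : AnalyticAt ℝ (fun s => Real.exp (l * s)) s := (analyticAt_const.mul analyticAt_id).rexp'
  have := h.smul (analyticAt_const (v := (1 : 𝕜)))
  refine this.congr (Eventually.of_forall fun t => ?_)
  simp [E, RCLike.real_smul_eq_coe_mul]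

theorem span_ana (L : Set ℝ) (Φ : ℝ → 𝕜) (h : Φ ∈ Submodule.span 𝕜 (E 𝕜 '' L)) (s : ℝ) :
    AnalyticAt ℝ Φ s := by
  induction h using Submodule.span_induction with
  | mem x hx => obtain ⟨l, -, rfl⟩ := hx; exact E_ana 𝕜 l s
  | zero => exact analyticAt_const
  | add x y _ _ h1 h2 => exact h1.add h2
  | smul a x _ h1 => exact (analyticAt_const (v := a)).mul h1

theorem vanish (Φ : ℝ → 𝕜) (h : ∀ s, AnalyticAt ℝ Φ s) (h0 : ∀ x ∈ Icc (0 : ℝ) 1, Φ (g x) = 0) :
    Φ = 0 := by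
  have hm : StrictMono g := strictMono_of_deriv_pos fun x => by rw [(g_deriv x).deriv]; exact g_pos x
  have h1 := intermediate_value_Icc zero_le_one g_smooth.continuous.continuousOn
  refine AnalyticOnNhd.eq_of_eventuallyEq (fun s _ => h s) (fun _ _ => analyticAt_const)
    (z₀ := g (1 / 2)) ?_
  filter_upwards [Icc_mem_nhds (hm (by norm_num : (0 : ℝ) < 1 / 2)) (hm (by norm_num : (1 / 2 : ℝ) < 1))]
    with s hs
  obtain ⟨x, hx, rfl⟩ := h1 hs
  exact h0 x hx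

noncomputable def gen (l : ℝ) : C(Icc (0 : ℝ) 1, 𝕜) :=
  ⟨fun x => E 𝕜 l (g x), by
    have : Continuous (E 𝕜 l) := continuous_iff_continuousAt.2 fun s => (E_ana 𝕜 l s).continuousAt
    exact this.comp (g_smooth.continuous.comp continuous_subtype_val)⟩

theorem gen_inj : Function.Injective (gen 𝕜) := by
  intro a b h
  apply (E_ind 𝕜).injective
  rw [← sub_eq_zero]
  refine vanish 𝕜 _ (fun s => (E_ana 𝕜 a s).sub (E_ana 𝕜 b s)) fun x hx => ?_
  exact sub_eq_zero.2 (DFunLike.congr_fun h ⟨x, hx⟩)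

theorem rep (L : Set ℝ) (hL : ∀ a ∈ L, ∀ b ∈ L, a + b ∈ L) (S : Set C(Icc (0 : ℝ) 1, 𝕜))
    (hS : S ⊆ gen 𝕜 '' L) (b : C(Icc (0 : ℝ) 1, 𝕜)) (hb : b ∈ NonUnitalAlgebra.adjoin 𝕜 S) :
    ∃ Φ ∈ Submodule.span 𝕜 (E 𝕜 '' L), ∀ x, b x = Φ (g x) := by
  induction hb using NonUnitalAlgebra.adjoin_induction with
  | mem x hx =>
    obtain ⟨l, hl, rfl⟩ := hS hx
    exact ⟨_, Submodule.subset_span ⟨l, hl, rfl⟩, fun _ => rfl⟩
  | add x y _ _ h1 h2 =>
    obtain ⟨Φ, h3, h4⟩ := h1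
    obtain ⟨Ψ, h5, h6⟩ := h2
    exact ⟨Φ + Ψ, add_mem h3 h5, fun z => by simp [h4, h6]⟩
  | zero => exact ⟨0, zero_mem _, fun _ => rfl⟩
  | mul x y _ _ h1 h2 =>
    obtain ⟨Φ, h3, h4⟩ := h1
    obtain ⟨Ψ, h5, h6⟩ := h2
    refine ⟨Φ * Ψ, ?_, fun z => by simp [h4, h6]⟩
    have := Submodule.mul_mem_mul h3 h5
    rw [Submodule.span_mul_span] at this
    refine Submodule.span_mono ?_ this
    rintro _ ⟨_, ⟨a, ha, rfl⟩, _, ⟨b, hb, rfl⟩, rfl⟩
    exact ⟨a + b, hL a ha b hb, E_add 𝕜 a b⟩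
  | smul r x _ h1 =>
    obtain ⟨Φ, h3, h4⟩ := h1
    exact ⟨r • Φ, Submodule.smul_mem _ _ h3, fun z => by simp [h4]⟩

theorem alg_ind (N : ℕ) (β : Fin N → ℝ) (hβ : LinearIndependent ℚ β) (P : MvPolynomial (Fin N) 𝕜)
    (hP : MvPolynomial.aeval (fun i => gen 𝕜 (β i)) P = 0) : P = 0 := by
  let σ : (Fin N →₀ ℕ) → ℝ := fun m => ∑ i, (m i : ℝ) * β i
  have hσ : Function.Injective σ := by
    intro m m' h
    have h1 := Fintype.linearIndependent_iff.1 hβ (fun i => (m i : ℚ) - m' i) (by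
      simp only [sub_smul, Finset.sum_sub_distrib, Rat.smul_def, Rat.cast_natCast]
      exact sub_eq_zero.2 h)
    ext i
    exact_mod_cast sub_eq_zero.1 (h1 i)
  have h1 : ∑ m ∈ P.support, P.coeff m • E 𝕜 (σ m) = 0 := by
    refine vanish 𝕜 _ (span_ana 𝕜 univ _ (Submodule.sum_mem _ fun m _ =>
      Submodule.smul_mem _ _ (Submodule.subset_span ⟨_, trivial, rfl⟩))) fun x hx => ?_
    have h2 := DFunLike.congr_fun hP ⟨x, hx⟩
    rw [MvPolynomial.aeval_def, MvPolynomial.eval₂_eq'] at h2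
    simp only [ContinuousMap.coe_sum, Finset.sum_apply, ContinuousMap.mul_apply,
      ContinuousMap.coe_prod, Finset.prod_apply, ContinuousMap.pow_apply,
      ContinuousMap.zero_apply] at h2
    rw [← h2, Finset.sum_apply]
    refine Finset.sum_congr rfl fun m _ => ?_
    simp only [Pi.smul_apply, smul_eq_mul, gen, E, σ, ContinuousMap.coe_mk, Finset.sum_mul,
      Real.exp_sum, mul_assoc, Real.exp_nat_mul]
    push_cast
    simp [Algebra.algebraMap_eq_smul_one]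
  have h3 := linearIndependent_iff'.1 ((E_ind 𝕜).comp σ hσ) P.support P.coeff h1
  ext m
  by_cases hm : m ∈ P.support
  · simpa using h3 m hm
  · simpa using hm

theorem rad_zero (Φ : ℝ → 𝕜) (h : ∀ s, AnalyticAt ℝ Φ s) (hn : ∃ s, Φ s ≠ Φ 0) (x : ℝ) :
    (FormalMultilinearSeries.ofScalars 𝕜
      (fun n => iteratedDeriv n (fun t => Φ (g t)) x / (n.factorial : 𝕜))).radius = 0 := by
  have hs : ContDiff ℝ (⊤ : ℕ∞) Φ := contDiff_iff_contDiffAt.2 fun s => (h s).contDiffAt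
  have key : ∀ L : 𝕜 →L[ℝ] ℝ, (∀ z, |L z| ≤ ‖z‖) → (∃ s, L (Φ s) ≠ L (Φ 0)) →
      (FormalMultilinearSeries.ofScalars 𝕜
        (fun n => iteratedDeriv n (fun t => Φ (g t)) x / (n.factorial : 𝕜))).radius = 0 := by
    intro L hL hne
    by_contra h0
    obtain ⟨r, hr0, hr⟩ := ENNReal.lt_iff_exists_nnreal_btwn.1 (pos_iff_ne_zero.2 h0)
    obtain ⟨C, -, hC⟩ := FormalMultilinearSeries.norm_mul_pow_le_of_lt_radius _ hr
    have h1 := comp_rad (fun s => L (Φ s)) (fun s => (L.analyticAt _).comp (h s)) hne x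
    have h2 := (Ser (fun t => L (Φ (g t))) x).le_radius_of_bound C (r := r) fun n => by
      refine le_trans ?_ (hC n)
      rw [Ser, FormalMultilinearSeries.ofScalars_norm, FormalMultilinearSeries.ofScalars_norm,
        norm_div, norm_div, RCLike.norm_natCast, RCLike.norm_natCast]
      gcongr
      have := L.iteratedFDeriv_comp_left (f := fun t => Φ (g t)) (x := x) (i := n)
        (hs.comp g_smooth).contDiffAt (by exact_mod_cast le_top)
      rw [iteratedDeriv, show (fun t => L (Φ (g t))) = L ∘ fun t => Φ (g t) from rfl, this]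
      exact hL _
    rw [h1] at h2
    exact absurd hr0 (not_lt.2 h2)
  obtain ⟨s, hs⟩ := hn
  by_cases h1 : RCLike.re (Φ s) = RCLike.re (Φ 0)
  · exact key RCLike.imCLM (fun z => RCLike.abs_im_le_norm z) ⟨s, fun h2 => hs (RCLike.ext h1 h2)⟩
  · exact key RCLike.reCLM (fun z => RCLike.abs_re_le_norm z) ⟨s, h1⟩

end Pool.Agent.H29.Alg
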