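import Mathlib

namespace Pool.Agent.H29.AvgSh
open Filter Topology Finset

lemma lin_bound {X Y : Type*} [MetricSpace X] [CompactSpace X] [MetricSpace Y] (p : X → Y)
    (hp : Continuous p) (η : ℝ) (hη : 0 < η) :
    ∃ C : ℝ, 0 ≤ C ∧ ∀ a b, dist (p a) (p b) ≤ η + C * dist a b := by
  obtain ⟨ρ, hρ, h⟩ := Metric.uniformContinuous_iff.1
    (CompactSpace.uniformContinuous_of_continuous hp) η hη
  obtain ⟨D, hD⟩ := Metric.isBounded_iff.1 (isCompact_range hp).isBounded
  refine ⟨max D 0 / ρ, by positivity, fun a b => ?_⟩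
  have h0 : 0 ≤ max D 0 / ρ * dist a b := by positivity
  by_cases hab : dist a b < ρ
  · linarith [h hab]
  · have h1 : dist (p a) (p b) ≤ max D 0 :=
      (hD ⟨a, rfl⟩ ⟨b, rfl⟩).trans (le_max_left _ _)
    have h2 : max D 0 / ρ * ρ ≤ max D 0 / ρ * dist a b :=
      mul_le_mul_of_nonneg_left (not_lt.1 hab) (by positivity)
    rw [div_mul_cancel₀ _ hρ.ne'] at h2
    linarith

lemma diam_bound (X : Type*) [MetricSpace X] [CompactSpace X] :
    ∃ D : ℝ, 0 < D ∧ ∀ a b : X, dist a b ≤ D := by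
  obtain ⟨D, hD⟩ := Metric.isBounded_iff.1 (isCompact_univ (X := X)).isBounded
  exact ⟨max D 1, by positivity, fun a b =>
    (hD (Set.mem_univ a) (Set.mem_univ b)).trans (le_max_left _ _)⟩

lemma block {Y : Type*} [MetricSpace Y] [CompactSpace Y] (g : Y → Y) (hg : Continuous g) (L : ℕ) :
    ∀ η : ℝ, 0 < η → ∃ C : ℝ, 0 ≤ C ∧ ∀ (y : ℕ → Y) (m j : ℕ), j ≤ L →
      dist (g^[j] (y m)) (y (m + j)) ≤
        η + C * ∑ t ∈ range j, dist (g (y (m + t))) (y (m + t + 1)) := by
  induction L with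
  | zero =>
    intro η hη
    refine ⟨0, le_rfl, fun y m j hj => ?_⟩
    obtain rfl : j = 0 := by omega
    simp [hη.le]
  | succ L ih =>
    intro η hη
    obtain ⟨A, hA, hgA⟩ := lin_bound g hg (η / 2) (by positivity)
    obtain ⟨C, hC, h⟩ := ih (η / 2 / (A + 1)) (by positivity)
    have hle : A * (η / 2 / (A + 1)) ≤ η / 2 := by
      rw [← mul_div_assoc, div_le_iff₀ (by positivity)]; nlinarith
    have hle2 : η / 2 / (A + 1) ≤ η := by
      rw [div_le_iff₀ (by positivity)]; nlinarith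
    refine ⟨(A + 1) * C + 1, by positivity, fun y m j hj => ?_⟩
    rcases Nat.lt_or_ge j (L + 1) with hj' | hj'
    · have h1 := h y m j (by omega)
      have hS : 0 ≤ ∑ t ∈ range j, dist (g (y (m + t))) (y (m + t + 1)) :=
        sum_nonneg fun _ _ => dist_nonneg
      have h3 : 0 ≤ A * C := by positivity
      nlinarith [mul_nonneg h3 hS]
    · obtain rfl : j = L + 1 := by omega
      have h1 := h y m L le_rfl
      have hS : 0 ≤ ∑ t ∈ range L, dist (g (y (m + t))) (y (m + t + 1)) :=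
        sum_nonneg fun _ _ => dist_nonneg
      rw [Function.iterate_succ_apply', sum_range_succ]
      have h2 := dist_triangle (g (g^[L] (y m))) (g (y (m + L))) (y (m + (L + 1)))
      have h3 := hgA (g^[L] (y m)) (y (m + L))
      have h4 := mul_le_mul_of_nonneg_left h1 hA
      have h5 : 0 ≤ dist (g (y (m + L))) (y (m + L + 1)) := dist_nonneg
      have h6 : y (m + (L + 1)) = y (m + L + 1) := rfl
      rw [h6] at h2 ⊢
      have h7 : 0 ≤ (A + 1) * C := by positivity
      nlinarith [mul_nonneg h7 h5, mul_nonneg hC hS]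

lemma E_mono (e : ℕ → ℝ) (he : ∀ i, 0 ≤ e i) {a b : ℕ} (h : a ≤ b) :
    ∑ s ∈ range a, e s ≤ ∑ s ∈ range b, e s :=
  sum_le_sum_of_subset_of_nonneg (range_mono h) fun _ _ _ => he _

lemma window (e : ℕ → ℝ) (he : ∀ i, 0 ≤ e i) (L n : ℕ) :
    ∑ i ∈ range n, (∑ s ∈ range i, e s - ∑ s ∈ range (i - L), e s) ≤
      L * ∑ s ∈ range n, e s := by
  have h1 := sum_range_add (fun i => ∑ s ∈ range (i - L), e s) L n
  have h2 := sum_range_add (fun i => ∑ s ∈ range (i - L), e s) n L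
  simp only [Nat.add_sub_cancel_left] at h1
  have h3 : 0 ≤ ∑ i ∈ range L, ∑ s ∈ range (i - L), e s :=
    sum_nonneg fun _ _ => sum_nonneg fun _ _ => he _
  have h4 : ∑ x ∈ range L, ∑ s ∈ range (n + x - L), e s ≤ ∑ x ∈ range L, ∑ s ∈ range n, e s :=
    sum_le_sum fun x hx => E_mono e he (by have := mem_range.1 hx; omega)
  rw [sum_const, card_range, nsmul_eq_mul] at h4
  rw [add_comm L n] at h1
  rw [sum_sub_distrib]
  linarith

lemma lift {X Y : Type*} (f : X → X) (g : Y → Y) (p : X → Y) (hs : Function.Surjective p)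
    (hc : ∀ a, p (f a) = g (p a)) (y : ℕ → Y) (S : ℕ → Prop) :
    ∃ x : ℕ → X, (∀ i, ¬ S (i + 1) → x (i + 1) = f (x i)) ∧
      ∀ i, ∃ s ≤ i, (∀ t ≤ i, S t → t ≤ s) ∧ p (x i) = g^[i - s] (y s) := by
  classical
  choose q hq using hs
  let x : ℕ → X := fun n => Nat.rec (q (y 0))
    (fun i a => if S (i + 1) then q (y (i + 1)) else f a) n
  have hx : ∀ i, x (i + 1) = if S (i + 1) then q (y (i + 1)) else f (x i) := fun i => rfl
  refine ⟨x, fun i hi => by rw [hx, if_neg hi], fun i => ?_⟩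
  induction i with
  | zero => exact ⟨0, le_rfl, fun t ht _ => ht, by simp [x, hq]⟩
  | succ i ih =>
    obtain ⟨s, hs1, hs2, hs3⟩ := ih
    by_cases hS : S (i + 1)
    · exact ⟨i + 1, le_rfl, fun t ht _ => ht, by rw [hx, if_pos hS, hq]; simp⟩
    · refine ⟨s, by omega, fun t ht hSt => ?_, ?_⟩
      · rcases Nat.lt_or_ge t (i + 1) with h | h
        · exact hs2 t (by omega) hSt
        · obtain rfl : t = i + 1 := by omega
          exact absurd hSt hS
      · rw [hx, if_neg hS, hc, hs3, show i + 1 - s = (i - s) + 1 by omega,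
          Function.iterate_succ_apply']

lemma count (L : ℕ) (hL : 0 < L) (k n : ℕ) :
    ∑ i ∈ range n, (if L ∣ i + k + 1 then (1 : ℝ) else 0) ≤ n / L + 1 := by
  have h : ∀ n : ℕ, ∑ i ∈ range n, (if L ∣ i + k + 1 then (1 : ℝ) else 0) =
      (((n + k) / L : ℕ) : ℝ) - ((k / L : ℕ) : ℝ) := by
    intro n
    induction n with
    | zero => simp
    | succ n ih =>
      rw [sum_range_succ, ih, show n + 1 + k = (n + k) + 1 by ring, Nat.succ_div]
      split_ifs <;> push_cast <;> ring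
  rw [h]
  have hL' : (0 : ℝ) < L := by exact_mod_cast hL
  have h1 : (((n + k) / L : ℕ) : ℝ) ≤ ((n + k : ℕ) : ℝ) / L := Nat.cast_div_le
  have h2 : (k : ℝ) / L < ((k / L : ℕ) : ℝ) + 1 := by
    rw [div_lt_iff₀ hL']
    have := Nat.lt_mul_div_succ k hL
    have h3 : (k : ℝ) < L * ((k / L : ℕ) + 1) := by exact_mod_cast this
    linarith
  push_cast at h1
  rw [add_div] at h1
  linarith

lemma approx {Y : Type*} [MetricSpace Y] (g : Y → Y) (y : ℕ → Y) (η C : ℝ) (hC : 0 ≤ C) (L : ℕ)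
    (h : ∀ m j : ℕ, j ≤ L → dist (g^[j] (y m)) (y (m + j)) ≤
        η + C * ∑ t ∈ range j, dist (g (y (m + t))) (y (m + t + 1)))
    (i s : ℕ) (h1 : s ≤ i) (h2 : i - L ≤ s) :
    dist (g^[i - s] (y s)) (y i) ≤ η + C * (∑ t ∈ range i, dist (g (y t)) (y (t + 1)) -
      ∑ t ∈ range (i - L), dist (g (y t)) (y (t + 1))) := by
  have h3 := h s (i - s) (by omega)
  have h4 := sum_range_add (fun t => dist (g (y t)) (y (t + 1))) s (i - s)
  have h5 := E_mono (fun t => dist (g (y t)) (y (t + 1))) (fun _ => dist_nonneg) h2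
  rw [show s + (i - s) = i by omega] at h3 h4
  refine h3.trans ?_
  gcongr
  linarith

lemma semiconj_iter {X Y : Type*} (f : X → X) (g : Y → Y) (p : X → Y)
    (hc : ∀ a, p (f a) = g (p a)) (i : ℕ) (z : X) : g^[i] (p z) = p (f^[i] z) := by
  induction i with
  | zero => rfl
  | succ i ih => rw [Function.iterate_succ_apply', Function.iterate_succ_apply', hc, ih]

/-- averaged triangle inequality through the factor map -/
lemma final {X Y : Type*} [MetricSpace X] [MetricSpace Y] (f : X → X) (g : Y → Y) (p : X → Y)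
    (hc : ∀ a, p (f a) = g (p a)) (η A : ℝ) (hA : ∀ a b, dist (p a) (p b) ≤ η + A * dist a b)
    (x : ℕ → X) (y : ℕ → Y) (z : X) (n : ℕ) (hn : 0 < n) :
    (1 / (n : ℝ)) * ∑ i ∈ range n, dist (g^[i] (p z)) (y i) ≤
      η + A * ((1 / (n : ℝ)) * ∑ i ∈ range n, dist (f^[i] z) (x i)) +
        (1 / (n : ℝ)) * ∑ i ∈ range n, dist (p (x i)) (y i) := by
  have hn' : (0 : ℝ) < n := by exact_mod_cast hn
  have h1 : ∑ i ∈ range n, dist (g^[i] (p z)) (y i) ≤
      ∑ i ∈ range n, (η + A * dist (f^[i] z) (x i) + dist (p (x i)) (y i)) := by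
    refine sum_le_sum fun i _ => ?_
    rw [semiconj_iter f g p hc]
    linarith [dist_triangle (p (f^[i] z)) (p (x i)) (y i), hA (f^[i] z) (x i)]
  rw [sum_add_distrib, sum_add_distrib, sum_const, card_range, nsmul_eq_mul, ← mul_sum] at h1
  have h2 := mul_le_mul_of_nonneg_left h1 (show (0 : ℝ) ≤ 1 / n by positivity)
  have h3 : (1 / (n : ℝ)) * (n * η) = η := by field_simp
  rw [mul_add, mul_add, h3] at h2
  linarith

end Pool.Agent.H29.AvgSh
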