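import Mathlib

open Set Filter Topology

namespace Pool.Agent.H29.BR

variable {Z : Type} [NormedAddCommGroup Z] [NormedSpace ℝ Z]

lemma zero_of_le {a b : ℝ} (h : ∀ t : ℝ, t * a ≤ b) : a = 0 := by
  by_contra ha
  have := h ((b + 1) / a)
  rw [div_mul_cancel₀ _ ha] at this
  linarith

lemma span_val (Φ : (Z →L[ℝ] ℝ) →L[ℝ] ℝ) (G : Finset (Z →L[ℝ] ℝ)) {z : Z}
    (h : ∀ g ∈ G, g z = Φ g) {f : Z →L[ℝ] ℝ} (hf : ∀ w, (∀ g ∈ G, g w = 0) → f w = 0) :
    f z = Φ f := by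
  obtain ⟨c, hc⟩ := (Submodule.mem_span_range_iff_exists_fun ℝ).1
    (mem_span_of_iInf_ker_le_ker (L := fun g : G => g.1.toLinearMap) (K := f.toLinearMap)
      fun w hw => hf w fun g hg => (Submodule.mem_iInf _).1 hw ⟨g, hg⟩)
  have : f = ∑ g : G, c g • g.1 := ContinuousLinearMap.ext fun w => by
    simpa using (LinearMap.congr_fun hc w).symm
  rw [this, map_sum, ContinuousLinearMap.sum_apply]
  exact Finset.sum_congr rfl fun g _ => by
    rw [map_smul, ContinuousLinearMap.smul_apply, h g.1 g.2]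

lemma helly (Φ : (Z →L[ℝ] ℝ) →L[ℝ] ℝ) (G : Finset (Z →L[ℝ] ℝ)) :
    ∃ z, ‖z‖ < ‖Φ‖ + 1 ∧ ∀ g ∈ G, g z = Φ g := by
  classical
  obtain ⟨z, hz⟩ : ∃ z, ∀ g ∈ G, g z = Φ g := by
    induction G using Finset.induction_on with
    | empty => exact ⟨0, by simp⟩
    | insert f G _ ih =>
      obtain ⟨z, hz⟩ := ih
      by_cases h : ∀ w, (∀ g ∈ G, g w = 0) → f w = 0
      · exact ⟨z, Finset.forall_mem_insert _ _ _ |>.2 ⟨span_val Φ G hz h, hz⟩⟩
      push Not at h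
      obtain ⟨w, h1, h2⟩ := h
      refine ⟨z + ((Φ f - f z) / f w) • w, Finset.forall_mem_insert _ _ _ |>.2 ⟨?_, fun g hg => ?_⟩⟩
      · rw [map_add, map_smul, smul_eq_mul, div_mul_cancel₀ _ h2]; ring
      · rw [map_add, map_smul, h1 g hg, smul_zero, add_zero, hz g hg]
  by_contra h
  push Not at h
  have cv : Convex ℝ {z | ∀ g ∈ G, g z = Φ g} := fun a ha b hb s t _ _ e g hg => by
    rw [map_add, map_smul, map_smul, ha g hg, hb g hg, ← add_smul, e, one_smul]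
  obtain ⟨f, u, h1, h2⟩ := geometric_hahn_banach_open (convex_ball (0 : Z) (‖Φ‖ + 1))
    Metric.isOpen_ball cv (disjoint_left.2 fun a ha hb => by
      obtain ⟨g, hg, e⟩ := h a (mem_ball_zero_iff.1 ha)
      exact e (hb g hg))
  have e := span_val Φ G hz (f := f) fun w hw => zero_of_le (b := f z - u) fun t => by
    have := h2 (z - t • w) fun g hg => by
      rw [map_sub, map_smul, hw g hg, smul_zero, sub_zero, hz g hg]
    rw [map_sub, map_smul, smul_eq_mul] at this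
    linarith
  have u0 : 0 < u := by simpa using h1 0 (Metric.mem_ball_self (by positivity))
  have b : ‖f‖ ≤ u / (‖Φ‖ + 1 / 2) := ContinuousLinearMap.opNorm_le_of_unit_norm (by positivity)
    fun x hx => by
      have n : ∀ s : ℝ, |s| = ‖Φ‖ + 1 / 2 → s * f x < u := fun s hs => by
        have := h1 (s • x) (mem_ball_zero_iff.2 (by
          rw [norm_smul, hx, mul_one, Real.norm_eq_abs, hs]; linarith))
        rwa [map_smul] at this
      have p : 0 < ‖Φ‖ + 1 / 2 := by positivity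
      have n1 := n _ (abs_of_pos p)
      have n2 := n (-(‖Φ‖ + 1 / 2)) (by rw [abs_neg, abs_of_pos p])
      rw [le_div_iff₀ p, Real.norm_eq_abs]
      rcases abs_cases (f x) with ⟨h, -⟩ | ⟨h, -⟩ <;> rw [h] <;> linarith
  have h3 := h2 z hz
  have h4 := (le_abs_self _).trans (Φ.le_opNorm f)
  rw [le_div_iff₀ (by positivity)] at b
  have h5 : ‖f‖ ≤ 0 := by nlinarith
  nlinarith [norm_nonneg f, norm_nonneg Φ]

lemma helly' (Φ : (Z →L[ℝ] ℝ) →L[ℝ] ℝ) : ∃ c, 1 ≤ c ∧ ∀ G : Finset (Z →L[ℝ] ℝ),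
    ∃ z, ‖z‖ < c ∧ ∀ g ∈ G, g z = Φ g :=
  ⟨‖Φ‖ + 1, le_add_of_nonneg_left (norm_nonneg Φ), helly Φ⟩

lemma norming (s : Finset Z) : ∃ G : Finset (Z →L[ℝ] ℝ), (∀ g ∈ G, ‖g‖ ≤ 1) ∧
    ∀ u ∈ Submodule.span ℝ (s : Set Z), ∀ b, 0 ≤ b → (∀ g ∈ G, g u ≤ b) → ‖u‖ ≤ 2 * b := by
  classical
  choose d d1 d2 using fun x : Z => exists_dual_vector'' ℝ x
  obtain ⟨t, -, tf, ht⟩ := ((isCompact_sphere (0 : Submodule.span ℝ (s : Set Z)) 1).image
    continuous_subtype_val).finite_cover_balls (e := 1 / 4) (by norm_num)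
  refine ⟨tf.toFinset.image d, fun g hg => ?_, fun u hu b hb h => ?_⟩
  · obtain ⟨x, -, rfl⟩ := Finset.mem_image.1 hg
    exact d1 x
  rcases eq_or_ne u 0 with rfl | h0
  · rw [norm_zero]; positivity
  have p := norm_pos_iff.2 h0
  have n : ‖‖u‖⁻¹ • u‖ = 1 := norm_smul_inv_norm h0
  obtain ⟨x, hx, hb⟩ := mem_iUnion₂.1 (ht ⟨⟨‖u‖⁻¹ • u, Submodule.smul_mem _ _ hu⟩,
    mem_sphere_zero_iff_norm.2 n, rfl⟩)
  have h1 : ‖‖u‖⁻¹ • u - x‖ < 1 / 4 := mem_ball_iff_norm.1 hb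
  have h2 := h _ (Finset.mem_image_of_mem d (tf.mem_toFinset.2 hx))
  have h3 := neg_le_of_abs_le ((d x).le_of_opNorm_le_of_le (d1 x) h1.le)
  have h4 := norm_sub_norm_le (‖u‖⁻¹ • u) x
  have h5 : d x x = ‖x‖ := d2 x
  rw [map_sub, map_smul, smul_eq_mul, inv_mul_eq_div] at h3
  have h6 : 1 / 2 ≤ d x u / ‖u‖ := by linarith
  rw [le_div_iff₀ p] at h6
  linarith

theorem james [CompleteSpace Z] (φ : (Z →L[ℝ] ℝ) →L[ℝ] ℝ) (hφ : ∀ x : Z, ∃ f, φ f ≠ f x) :
    ∃ (u : ℕ → Z) (f : ℕ → Z →L[ℝ] ℝ) (C : ℝ), 0 < C ∧ (∀ n, ‖u n‖ ≤ C) ∧ (∀ n, ‖f n‖ ≤ C) ∧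
      u 0 = 0 ∧ (∀ m n, f m (u n) = if m < n then 1 else 0) ∧
      ∀ N, ∀ x ∈ Submodule.span ℝ (range u),
        ‖∑ m ∈ Finset.range N, f m x • (u (m + 1) - u m)‖ ≤ C * ‖x‖ := by
  classical
  let J := NormedSpace.inclusionInDoubleDualLi ℝ (E := Z)
  obtain ⟨Φ, r, h1, h2⟩ := geometric_hahn_banach_closed_point (s := range J) (x := φ)
    (LinearMap.range J.toLinearMap).convex J.isometry.isClosedEmbedding.isClosed_range (by
      rintro ⟨x, rfl⟩
      obtain ⟨f, hf⟩ := hφ x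
      exact hf rfl)
  have k : ∀ x, Φ (J x) = 0 := fun x => zero_of_le (b := r) fun t => by
    have := h1 _ ⟨t • x, rfl⟩
    rw [map_smul, map_smul] at this
    exact this.le
  have p : 0 < Φ φ := by
    have := h1 _ ⟨0, rfl⟩
    rw [k] at this
    linarith
  obtain ⟨c, c1, hc⟩ := helly' (Z := Z →L[ℝ] ℝ) ((Φ φ)⁻¹ • Φ)
  have hF : ∀ s : Finset Z, ∃ f : Z →L[ℝ] ℝ, ‖f‖ < c ∧ φ f = 1 ∧
      ∀ x ∈ s, f x = 0 := fun s => by
    obtain ⟨f, a, b⟩ := hc (insert φ (s.image J))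
    refine ⟨f, a, ?_, fun x hx => ?_⟩
    · rw [b φ (Finset.mem_insert_self _ _)]; exact inv_mul_cancel₀ p.ne'
    · have := b _ (Finset.mem_insert_of_mem (Finset.mem_image_of_mem J hx))
      rw [ContinuousLinearMap.smul_apply, k, smul_zero] at this
      exact this
  choose F F1 F2 F3 using hF
  choose G G1 G2 using norming (Z := Z)
  choose X X1 X2 using helly φ
  obtain ⟨S, S0, S1⟩ : ∃ S : ℕ → Finset Z × Finset (Z →L[ℝ] ℝ) × Z, (S 0).2.2 = 0 ∧ ∀ n,
      S (n + 1) = (insert (S n).2.2 (S n).1, insert (F (insert (S n).2.2 (S n).1))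
        ((S n).2.1 ∪ G (insert (S n).2.2 (S n).1)), X (insert (F (insert (S n).2.2 (S n).1))
        ((S n).2.1 ∪ G (insert (S n).2.2 (S n).1)))) :=
    ⟨fun n => Nat.rec (∅, ∅, 0) (fun _ p => (insert p.2.2 p.1, insert (F (insert p.2.2 p.1))
      (p.2.1 ∪ G (insert p.2.2 p.1)), X (insert (F (insert p.2.2 p.1))
      (p.2.1 ∪ G (insert p.2.2 p.1))))) n, rfl, fun _ => rfl⟩
  obtain ⟨u, hu⟩ : ∃ u : ℕ → Z, ∀ n, u n = (S n).2.2 := ⟨_, fun _ => rfl⟩
  obtain ⟨s, hs⟩ : ∃ s : ℕ → Finset Z, ∀ n, s n = (S (n + 1)).1 := ⟨_, fun _ => rfl⟩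
  obtain ⟨T, hT⟩ : ∃ T : ℕ → Finset (Z →L[ℝ] ℝ), ∀ n, T n = (S (n + 1)).2.1 := ⟨_, fun _ => rfl⟩
  have m1 : Monotone s := monotone_nat_of_le_succ fun n => by
    rw [hs, hs, S1 (n + 1)]; exact Finset.subset_insert _ _
  have m2 : Monotone T := monotone_nat_of_le_succ fun n => by
    rw [hT, hT, S1 (n + 1)]; exact Finset.subset_union_left.trans (Finset.subset_insert _ _)
  have a1 : ∀ n, u n ∈ s n := fun n => by rw [hu, hs, S1]; exact Finset.mem_insert_self _ _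
  have a2 : ∀ n, F (s n) ∈ T n := fun n => by rw [hs, hT, S1]; exact Finset.mem_insert_self _ _
  have a3 : ∀ n, G (s n) ⊆ T n := fun n => by
    rw [hs, hT, S1]; exact Finset.subset_union_right.trans (Finset.subset_insert _ _)
  have a4 : ∀ n, u (n + 1) = X (T n) := fun n => by rw [hu, hT, S1]
  have u0 : u 0 = 0 := (hu 0).trans S0
  have a5 : ∀ m n, m < n → ∀ g ∈ T m, g (u n) = φ g := fun m n h g hg => by
    obtain ⟨k, rfl⟩ := Nat.exists_eq_add_one_of_ne_zero (Nat.ne_zero_of_lt h)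
    rw [a4]; exact X2 _ g (m2 (Nat.lt_succ_iff.1 h) hg)
  have fu : ∀ m n, F (s m) (u n) = if m < n then 1 else 0 := fun m n => by
    split_ifs with h
    · rw [a5 m n h _ (a2 m), F2]
    · exact F3 _ _ (m1 (not_lt.1 h) (a1 n))
  have nu : ∀ n, ‖u n‖ ≤ ‖φ‖ + 1 := fun n => by
    cases n with
    | zero => rw [u0, norm_zero]; positivity
    | succ n => rw [a4]; exact (X1 _).le
  have n0 := norm_nonneg φ
  refine ⟨u, fun m => F (s m), 2 * (1 + c * (2 * ‖φ‖ + 1)), by positivity,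
    fun n => (nu n).trans (by nlinarith), fun n => (F1 _).le.trans (by nlinarith), u0, fu,
    fun N x hx => ?_⟩
  rw [mul_assoc]
  refine G2 (s N) _ (Submodule.sum_mem _ fun m hm => Submodule.smul_mem _ _ (Submodule.sub_mem _
    (Submodule.subset_span (m1 (Finset.mem_range.1 hm) (a1 _)))
    (Submodule.subset_span (m1 (Finset.mem_range.1 hm).le (a1 _))))) _ (by positivity)
    fun g hg => ?_
  have e : g (∑ m ∈ Finset.range N, F (s m) x • (u (m + 1) - u m)) =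
      g x - F (s N) x * (φ g - g (u N)) := by
    induction hx using Submodule.span_induction with
    | mem x hx =>
      obtain ⟨n, rfl⟩ := hx
      have t : ∀ M, ∑ m ∈ Finset.range M, F (s m) (u n) • (u (m + 1) - u m) = u (min M n) :=
        fun M => by
          induction M with
          | zero => simp [u0]
          | succ M ih =>
            rw [Finset.sum_range_succ, ih, fu]
            split_ifs with h
            · rw [min_eq_left h.le, min_eq_left h]; simp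
            · rw [min_eq_right (not_lt.1 h), min_eq_right ((not_lt.1 h).trans M.le_succ)]; simp
      rw [t, fu]
      split_ifs with h
      · rw [min_eq_left h.le, a5 N n h g (a3 N hg)]; ring
      · rw [min_eq_right (not_lt.1 h)]; ring
    | zero => simp
    | add x y _ _ h1 h2 =>
      simp only [map_add, add_smul, Finset.sum_add_distrib, h1, h2]; ring
    | smul a x _ h =>
      simp only [map_smul, smul_eq_mul, mul_smul, ← Finset.smul_sum, h]; ring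
  have b1 := (le_abs_self _).trans (g.le_of_opNorm_le (G1 _ g hg) x)
  have b2 : |F (s N) x| ≤ c * ‖x‖ := (F (s N)).le_of_opNorm_le (F1 _).le x
  have b3 : |φ g - g (u N)| ≤ 2 * ‖φ‖ + 1 := by
    have d1 : |φ g| ≤ ‖φ‖ * 1 := φ.le_of_opNorm_le_of_le le_rfl (G1 _ g hg)
    have d2 : |g (u N)| ≤ 1 * (‖φ‖ + 1) := g.le_of_opNorm_le_of_le (G1 _ g hg) (nu N)
    linarith [abs_sub (φ g) (g (u N))]
  have b4 := neg_le_of_abs_le ((abs_mul _ _).trans_le (mul_le_mul b2 b3 (abs_nonneg _)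
    (by positivity)))
  rw [e]
  linarith

end Pool.Agent.H29.BR
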