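import Mathlib
import Pool.Agent.H1.ShC

open Matrix Pool.Agent.H1.Sh Filter Topology
open scoped InnerProductSpace ComplexConjugate ComplexOrder

namespace Pool.Agent.H29.CPm

variable {X : Type} {N : ℕ}

lemma form_nonneg {M : Matrix X X ℂ} (hM : M.PosSemidef) (Y : Finset X) (c : X → EV N) :
    0 ≤ (∑ x ∈ Y, ∑ y ∈ Y, M x y * ⟪c x, c y⟫_ℂ).re := by
  obtain ⟨H, _, _, _, _, h⟩ := exists_rkhs M hM N
  have := (gram_of h).normsq Y (fun x => x) c
  rw [← this]; positivity

lemma kz_psd {k : Matrix X X ℂ} (hk : k.PosSemidef) (z : X) : (kz k z).PosSemidef := by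
  refine psd_of_re _ (kz_herm hk.1 z) fun α => ?_
  obtain ⟨H, _, _, _, _, h⟩ := exists_rkhs k hk 1
  obtain ⟨u, hu⟩ := ((gram_of h).compress hk α.support
    (fun x => WithLp.toLp 2 fun _ => α x) z).2
  rw [qf_eq _ _ _ le_rfl]
  refine le_of_le_of_eq (sq_nonneg _) (hu.symm.trans ?_)
  congr 1
  refine Finset.sum_congr rfl fun x _ => Finset.sum_congr rfl fun y _ => ?_
  rw [inner_EV]; simp; ring

lemma rank_one (v : X → ℂ) : (Matrix.of fun x y => conj (v x) * v y).PosSemidef := by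
  refine psd_of_re _ (by ext x y; simp [mul_comm]) fun α => ?_
  rw [qf_eq _ _ _ le_rfl]
  have : ∑ x ∈ α.support, ∑ y ∈ α.support, conj (α x) * (Matrix.of fun x y =>
      conj (v x) * v y) x y * α y = conj (∑ x ∈ α.support, v x * α x) *
      ∑ x ∈ α.support, v x * α x := by
    rw [map_sum, Finset.sum_mul_sum]
    exact Finset.sum_congr rfl fun x _ => Finset.sum_congr rfl fun y _ => by
      simp only [of_apply, map_mul]; ring
  rw [this, Complex.conj_mul']
  norm_cast; positivity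

lemma cert_mul {k l h : Matrix X X ℂ} (hl : l.PosSemidef) (hh : h.PosSemidef)
    (l0 : ∀ x, l x x ≠ 0) (h0 : ∀ x, h x x ≠ 0) (hc : HasCert k l) : HasCert k (l ⊙ h) := by
  obtain ⟨p, hp⟩ := hc
  refine ⟨p, fun z => ⟨(hp z).1, ?_, (hp z).2.2⟩⟩
  have a1 := (hp z).2.1.hadamard hh
  have a2 := ((rank_one fun y => l z y).smul (inv_nonneg.2 (hl.diag_nonneg (i := z)))).hadamard
    (kz_psd hh z)
  refine (congrArg Matrix.PosSemidef ?_).mp (a1.add a2)
  ext x y
  have e : conj (l z x) = l x z := hl.1.apply x z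
  have := l0 z
  have := h0 z
  simp only [kz, Matrix.sub_apply, Matrix.add_apply, hadamard_apply, of_apply, Matrix.smul_apply,
    mul_eq_zero, l0 z, h0 z, or_self, if_false, e, smul_eq_mul]
  field_simp
  ring

variable {H₁ H₂ : Type} [NormedAddCommGroup H₁] [InnerProductSpace ℂ H₁]
  [NormedAddCommGroup H₂] [InnerProductSpace ℂ H₂]

lemma cert_quot {k l : Matrix X X ℂ} (hk : k.PosSemidef) (hl : l.PosSemidef) (hc : HasCert k l)
    {K : X → EV N →ₗ[ℂ] H₁} {L : X → EV N →ₗ[ℂ] H₂} (hK : Gram k K) (hL : Gram l L)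
    (Y : Finset X) (W : X → EV N →ₗ[ℂ] EV N) (hW : Contr K L Y (fun _ => ⊤) W)
    (c : X → EV N) (z : X) (v : EV N) :
    ∃ w, ‖∑ x ∈ Y, K x (W x (c x)) + K z w‖ ≤ ‖∑ x ∈ Y, L x (c x) + L z v‖ := by
  classical
  obtain ⟨p, hp⟩ := hc
  obtain ⟨p1, p2, p3⟩ := hp z
  obtain ⟨w, hw⟩ := (hK.compress hk Y (fun x => W x (c x)) z).2
  have a1 := (hL.compress hl Y c z).1 v
  have a2 := form_nonneg p2 Y c
  have a3 := form_nonneg p3 Y fun x => W x (c x)
  set Q : Matrix Y Y ℂ := Matrix.of fun x y =>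
    l x y * ⟪c x, c y⟫_ℂ - k x y * ⟪W x (c x), W y (c y)⟫_ℂ with hQ
  have hQp : Q.PosSemidef := by
    refine psd_of_re _ ?_ fun α => ?_
    · ext x y
      have e1 : conj (l y x) = l x y := hl.1.apply x y
      have e2 : conj (k y x) = k x y := hk.1.apply x y
      simp [hQ, e1, e2]
    · have := hW (fun x => (if h : x ∈ Y then α ⟨x, h⟩ else 0) • c x) fun _ => trivial
      have b := pow_le_pow_left₀ (norm_nonneg _) this 2
      rw [← Finset.sum_coe_sort Y, ← Finset.sum_coe_sort Y,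
        hK.normsq Finset.univ (fun x : Y => (x : X)), hL.normsq Finset.univ (fun x : Y => (x : X)),
        ← sub_nonneg, ← Complex.sub_re] at b
      rw [qf_eq _ _ _ (Finset.subset_univ _)]
      refine b.trans_eq ?_
      congr 1
      simp only [← Finset.sum_sub_distrib]
      refine Finset.sum_congr rfl fun x _ => Finset.sum_congr rfl fun y _ => ?_
      simp only [hQ, of_apply, dif_pos x.2, dif_pos y.2, map_smul, inner_smul_left,
        inner_smul_right]
      ring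
  have a4 := form_nonneg (N := 1) ((p1.submatrix (fun x : Y => (x : X))).hadamard hQp) Finset.univ
    (fun _ => WithLp.toLp 2 fun _ => 1)
  have e4 : (∑ x : Y, ∑ y : Y, ((p z).submatrix (fun x : Y => (x : X)) (fun x : Y => (x : X)) ⊙ Q) x y *
      ⟪(WithLp.toLp 2 fun _ => 1 : EV 1), (WithLp.toLp 2 fun _ => 1 : EV 1)⟫_ℂ) =
      ∑ x ∈ Y, ∑ y ∈ Y, p z x y * (l x y * ⟪c x, c y⟫_ℂ - k x y * ⟪W x (c x), W y (c y)⟫_ℂ) := by
    rw [← Finset.sum_coe_sort Y]
    refine Finset.sum_congr rfl fun x _ => ?_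
    rw [← Finset.sum_coe_sort Y]
    refine Finset.sum_congr rfl fun y _ => ?_
    rw [inner_EV]; simp [hQ]
  rw [e4] at a4
  have e5 : (∑ x ∈ Y, ∑ y ∈ Y, kz l z x y * ⟪c x, c y⟫_ℂ) -
      (∑ x ∈ Y, ∑ y ∈ Y, kz k z x y * ⟪W x (c x), W y (c y)⟫_ℂ) =
      (∑ x ∈ Y, ∑ y ∈ Y, (kz l z - p z ⊙ l) x y * ⟪c x, c y⟫_ℂ) +
      (∑ x ∈ Y, ∑ y ∈ Y, (p z ⊙ k - kz k z) x y * ⟪W x (c x), W y (c y)⟫_ℂ) +
      ∑ x ∈ Y, ∑ y ∈ Y, p z x y * (l x y * ⟪c x, c y⟫_ℂ - k x y * ⟪W x (c x), W y (c y)⟫_ℂ) := by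
    simp only [← Finset.sum_sub_distrib, ← Finset.sum_add_distrib]
    refine Finset.sum_congr rfl fun x _ => Finset.sum_congr rfl fun y _ => ?_
    simp only [Matrix.sub_apply, hadamard_apply]; ring
  have e6 := congrArg Complex.re e5
  simp only [Complex.sub_re, Complex.add_re] at e6
  exact ⟨w, (abs_le_of_sq_le_sq' (by linarith) (norm_nonneg _)).2⟩

lemma add_point {U : Type} [AddCommGroup U] [Module ℂ U] (A : U →ₗ[ℂ] H₂) (B : U →ₗ[ℂ] H₁)
    (Ka : EV N →ₗ[ℂ] H₁) (La : EV N →ₗ[ℂ] H₂) (h1 : ∀ u, ‖B u‖ ≤ ‖A u‖)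
    (hq : ∀ u v, ∃ w, ‖B u + Ka w‖ ≤ ‖A u + La v‖) :
    ∃ T : EV N →ₗ[ℂ] EV N, ∀ u v, ‖B u + Ka (T v)‖ ≤ ‖A u + La v‖ := by
  have key : ∀ (m : ℕ) (e : Fin m → EV N), ∃ w : Fin m → EV N, ∀ u (α : Fin m → ℂ),
      ‖B u + Ka (∑ i, α i • w i)‖ ≤ ‖A u + La (∑ i, α i • e i)‖ := by
    intro m
    induction m with
    | zero => exact fun e => ⟨e, fun u α => by simpa using h1 u⟩
    | succ m ih =>
      intro e
      obtain ⟨w, hw⟩ := ih (Fin.tail e)
      have : CompleteSpace (LinearMap.range Ka) := FiniteDimensional.complete ℂ _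
      obtain ⟨_, ⟨w0, rfl⟩, h⟩ := parrott
        (A.coprod (La ∘ₗ Fintype.linearCombination ℂ (Fin.tail e)))
        (B.coprod (Ka ∘ₗ Fintype.linearCombination ℂ w)) (LinearMap.range Ka) (La (e 0))
        (fun u => by simpa [Fintype.linearCombination_apply] using hw u.1 u.2) fun u β => by
          obtain ⟨w', hw'⟩ := hq u.1 (∑ i, u.2 i • Fin.tail e i + β • e 0)
          refine ⟨Ka (w' - ∑ i, u.2 i • w i), LinearMap.mem_range_self _ _, ?_⟩
          simp only [LinearMap.coprod_apply, LinearMap.comp_apply, Fintype.linearCombination_apply]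
          convert hw' using 2
          · rw [map_sub]; abel
          · rw [map_add, map_smul]; abel
      refine ⟨Fin.cons w0 w, fun u α => ?_⟩
      have := h (u, Fin.tail α) (α 0)
      simp only [LinearMap.coprod_apply, LinearMap.comp_apply,
        Fintype.linearCombination_apply] at this
      rw [Fin.sum_univ_succ, Fin.sum_univ_succ]
      convert this using 2
      · simp only [Fin.cons_zero, Fin.cons_succ, map_add, map_smul, Fin.tail]; abel
      · simp only [map_add, map_smul, Fin.tail]; abel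
  set b := (EuclideanSpace.basisFun (Fin N) ℂ).toBasis
  obtain ⟨w, hw⟩ := key N b
  refine ⟨b.constr ℂ w, fun u v => ?_⟩
  have := hw u (b.repr v)
  rw [b.sum_repr] at this
  rw [b.constr_apply_fintype ℂ w v]
  exact this

lemma fin_ext {k l : Matrix X X ℂ} (hk : k.PosSemidef) (hl : l.PosSemidef) (hc : HasCert k l)
    {K : X → EV N →ₗ[ℂ] H₁} {L : X → EV N →ₗ[ℂ] H₂} (hK : Gram k K) (hL : Gram l L)
    [DecidableEq X] (Y : Finset X) (W : X → EV N →ₗ[ℂ] EV N) (hW : Contr K L Y (fun _ => ⊤) W)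
    (Z : Finset X) : ∃ Ψ, (∀ x ∈ Y, Ψ x = W x) ∧ Contr K L (Y ∪ Z) (fun _ => ⊤) Ψ := by
  induction Z using Finset.induction_on with
  | empty => exact ⟨W, fun _ _ => rfl, by simpa using hW⟩
  | insert z Z _ ih =>
    obtain ⟨Ψ, h1, h2⟩ := ih
    by_cases hz : z ∈ Y ∪ Z
    · exact ⟨Ψ, h1, by rwa [Finset.union_insert, Finset.insert_eq_of_mem hz]⟩
    obtain ⟨T, hT⟩ := add_point (U := X → EV N) (∑ x ∈ Y ∪ Z, L x ∘ₗ LinearMap.proj x)
      (∑ x ∈ Y ∪ Z, K x ∘ₗ Ψ x ∘ₗ LinearMap.proj x) (K z) (L z)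
      (fun u => by simpa using h2 u fun _ => trivial)
      fun u v => by simpa using cert_quot hk hl hc hK hL _ Ψ h2 u z v
    refine ⟨Function.update Ψ z T, fun x hx => ?_, fun c _ => ?_⟩
    · rw [Function.update_of_ne (by rintro rfl; exact hz (Finset.mem_union_left _ hx)), h1 x hx]
    · rw [Finset.union_insert, Finset.sum_insert hz, Finset.sum_insert hz, Function.update_self,
        Finset.sum_congr rfl fun x hx => by rw [Function.update_of_ne (by rintro rfl; exact hz hx)],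
        add_comm, add_comm (L z _)]
      simpa using hT c (c z)

lemma contr_mono {K : X → EV N →ₗ[ℂ] H₁} {L : X → EV N →ₗ[ℂ] H₂} {Y Y' : Finset X}
    {W : X → EV N →ₗ[ℂ] EV N} (hW : Contr K L Y (fun _ => ⊤) W) (h : Y' ⊆ Y) (c : X → EV N) :
    ‖∑ x ∈ Y', K x (W x (c x))‖ ≤ ‖∑ x ∈ Y', L x (c x)‖ := by
  classical
  have := hW (fun x => if x ∈ Y' then c x else 0) fun _ => trivial
  rwa [← Finset.sum_subset h (fun x _ hx => by simp [hx]),
    ← Finset.sum_subset h (fun x _ hx => by simp [hx]),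
    Finset.sum_congr rfl fun x hx => by rw [if_pos hx],
    Finset.sum_congr rfl (s₁ := Y') (f := fun x => L x _) fun x hx => by rw [if_pos hx]] at this

lemma K_norm {k : Matrix X X ℂ} {K : X → EV N →ₗ[ℂ] H₁} (hK : Gram k K) (x : X) (v : EV N) :
    ‖K x v‖ ^ 2 = (k x x).re * ‖v‖ ^ 2 := by
  rw [← inner_self_eq_norm_sq (𝕜 := ℂ), hK, inner_self_eq_norm_sq_to_K]
  simp only [RCLike.re_to_complex, Complex.coe_algebraMap, ← Complex.ofReal_pow,
    Complex.re_mul_ofReal]

lemma diag_pos {k : Matrix X X ℂ} (hk : k.PosSemidef) {x : X} (h : k x x ≠ 0) : 0 < (k x x).re := by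
  have := Complex.nonneg_iff.1 (hk.diag_nonneg (i := x))
  exact lt_of_le_of_ne this.1 fun e => h (Complex.ext e.symm this.2.symm)

lemma glob_ext {k l : Matrix X X ℂ} (hk : k.PosSemidef) (hl : l.PosSemidef) (hc : HasCert k l)
    (k0 : ∀ x, k x x ≠ 0)
    {K : X → EV N →ₗ[ℂ] H₁} {L : X → EV N →ₗ[ℂ] H₂} (hK : Gram k K) (hL : Gram l L)
    (Y : Finset X) (W : X → EV N →ₗ[ℂ] EV N) (hW : Contr K L Y (fun _ => ⊤) W) :
    ∃ Ψ, Glob K L Ψ ∧ ∀ x ∈ Y, Ψ x = W x := by
  classical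
  choose Ψ h1 h2 using fin_ext hk hl hc hK hL Y W hW
  set 𝒰 : Ultrafilter (Finset X) := Ultrafilter.of atTop
  have hU : (𝒰 : Filter (Finset X)) ≤ atTop := Ultrafilter.of_le _
  have hev : ∀ Y' : Finset X, ∀ᶠ Z in (𝒰 : Filter (Finset X)), Y' ⊆ Y ∪ Z := fun Y' =>
    hU ((eventually_ge_atTop Y').mono fun Z hZ => hZ.trans Finset.subset_union_right)
  have hlim : ∀ x v, ∃ w, Tendsto (fun Z => Ψ Z x v) 𝒰 (𝓝 w) := by
    intro x v
    obtain ⟨w, -, hw⟩ := (isCompact_closedBall (0 : EV N) (‖L x v‖ / √(k x x).re)).ultrafilter_le_nhds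
      (𝒰.map fun Z => Ψ Z x v) (by
        rw [Ultrafilter.coe_map, le_principal_iff, mem_map]
        filter_upwards [hev {x}] with Z hZ
        have := contr_mono (h2 Z) hZ fun _ => v
        simp only [Finset.sum_singleton] at this
        have hp := diag_pos hk (k0 x)
        have e : ‖K x (Ψ Z x v)‖ = √(k x x).re * ‖Ψ Z x v‖ := by
          rw [← sq_eq_sq₀ (norm_nonneg _) (by positivity), K_norm hK, mul_pow, Real.sq_sqrt hp.le]
        simp only [Set.mem_preimage, mem_closedBall_zero_iff]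
        rw [le_div_iff₀ (Real.sqrt_pos.2 hp)]
        linarith)
    exact ⟨w, hw⟩
  choose F hF using hlim
  refine ⟨fun x => linearMapOfTendsto (F x) (fun Z => Ψ Z x) (tendsto_pi_nhds.2 (hF x)),
    fun Y' c _ => ?_, fun x hx => ?_⟩
  · have ht : Tendsto (fun Z => ‖∑ x ∈ Y', K x (Ψ Z x (c x))‖) 𝒰
        (𝓝 ‖∑ x ∈ Y', K x (F x (c x))‖) :=
      (tendsto_finset_sum _ fun x _ =>
        ((K x).continuous_of_finiteDimensional.tendsto _).comp (hF x (c x))).norm
    exact le_of_tendsto ht ((hev Y').mono fun Z hZ => contr_mono (h2 Z) hZ c)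
  · ext1 v
    have := hF x v
    simp only [h1 _ x hx] at this
    exact tendsto_nhds_unique this tendsto_const_nhds

theorem cp_of_cert {k l : Matrix X X ℂ} (hk : k.PosSemidef) (hl : l.PosSemidef)
    (k0 : ∀ x, k x x ≠ 0) (hc : HasCert k l) : IsCP k l := by
  intro n N hn _ H₁ H₂ _ _ _ _ _ _ _ _ h1 h2 z W hP
  classical
  have g1 := gram_of h1
  have g2 := gram_of h2
  rw [pick_iff g1 g2 hk.1 hl.1] at hP
  set A : Fin n → EV N →ₗ[ℂ] EV N := fun i => toEuclideanLin (W i)ᴴ with hA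
  have two : ∀ i j u v, ‖kf H₁ (z i) (A i u) + kf H₁ (z j) (A j v)‖ ≤
      ‖kf H₂ (z i) u + kf H₂ (z j) v‖ := fun i j u v => by
    have := hP (Pi.single i u + Pi.single j v)
    simp only [Pi.add_apply, map_add, Finset.sum_add_distrib, Pi.single_apply, apply_ite (kf _ _),
      apply_ite (toEuclideanLin _), map_zero, Finset.sum_ite_eq', Finset.mem_univ, if_true] at this
    exact this
  have same : ∀ i j, z i = z j → W i = W j := fun i j e =>
    conjTranspose_injective (toEuclideanLin.injective (LinearMap.ext fun u => by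
      have := two i j u (-u)
      rw [← e, ← map_add, ← map_add, add_neg_cancel, map_zero, norm_zero] at this
      have h3 := K_norm g1 (z i) (A i u + A j (-u))
      rw [le_antisymm this (norm_nonneg _)] at h3
      have h4 : (k (z i) (z i)).re * ‖A i u + A j (-u)‖ ^ 2 = 0 := by rw [← h3]; norm_num
      have h5 := (mul_eq_zero.1 h4).resolve_left (diag_pos hk (k0 _)).ne'
      simpa [hA, ← sub_eq_add_neg, sub_eq_zero] using h5))
  let σ : X → Fin n := fun x => if hx : ∃ i, z i = x then hx.choose else ⟨0, hn⟩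
  have hσ : ∀ i, z (σ (z i)) = z i := fun i => by
    have hx : ∃ j, z j = z i := ⟨i, rfl⟩
    simp only [σ, dif_pos hx]; exact hx.choose_spec
  obtain ⟨Ψ, h3, h4⟩ := glob_ext hk hl hc k0 g1 g2 (Finset.univ.image z) (fun x => A (σ x))
    fun c _ => by
      have := hP (∑ x ∈ Finset.univ.image z, Pi.single (σ x) (c x))
      simp only [Finset.sum_apply, map_sum] at this
      rw [Finset.sum_comm, Finset.sum_comm (s := Finset.univ)] at this
      simp only [Pi.single_apply, apply_ite (kf _ _), apply_ite (toEuclideanLin _), map_zero,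
        Finset.sum_ite_eq', Finset.mem_univ, if_true] at this
      have e : ∀ x ∈ Finset.univ.image z, z (σ x) = x := fun x hx => by
        obtain ⟨i, -, rfl⟩ := Finset.mem_image.1 hx
        exact hσ i
      rwa [Finset.sum_congr rfl fun x hx => by rw [e x hx],
        Finset.sum_congr rfl (f := fun x => kf H₂ _ _) fun x hx => by rw [e x hx]] at this
  refine ⟨fun x => (toEuclideanLin.symm (Ψ x))ᴴ, (mult_iff _).2 (by simpa using h3), fun i => ?_⟩
  simp only [h4 _ (Finset.mem_image_of_mem _ (Finset.mem_univ i))]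
  simp [hA, same _ _ (hσ i)]

end Pool.Agent.H29.CPm
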