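import Mathlib
import Pool.Agent.H29.CPm

open Matrix Pool.Agent.H1.Sh Filter Topology
open scoped InnerProductSpace ComplexConjugate ComplexOrder

namespace Pool.Agent.H29.Ker

variable {X : Type}

/-- positive semidefinite function -/
def K (f : X → X → ℂ) : Prop := (Matrix.of f).PosSemidef

lemma K.congr {f g : X → X → ℂ} (h : K f) (e : ∀ x y, f x y = g x y) : K g := by
  have : f = g := funext fun x => funext (e x)
  exact this ▸ h

lemma K.add {f g : X → X → ℂ} (hf : K f) (hg : K g) : K fun x y => f x y + g x y :=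
  Matrix.PosSemidef.add hf hg

lemma K.mul {f g : X → X → ℂ} (hf : K f) (hg : K g) : K fun x y => f x y * g x y :=
  Matrix.PosSemidef.hadamard hf hg

lemma dyad (a : X → ℂ) : K fun x y => a x * conj (a y) :=
  K.congr (CPm.rank_one fun x => conj (a x)) fun x y => by simp

lemma const {t : ℝ} (ht : 0 ≤ t) : K fun _ _ : X => (t : ℂ) :=
  (dyad fun _ => (√t : ℂ)).congr fun _ _ => by
    rw [Complex.conj_ofReal]; exact_mod_cast Real.mul_self_sqrt ht

lemma K.pow {f : X → X → ℂ} (hf : K f) (n : ℕ) : K fun x y => f x y ^ n := by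
  induction n with
  | zero => exact (const zero_le_one).congr fun _ _ => by simp
  | succ n ih => exact (ih.mul hf).congr fun _ _ => by rw [pow_succ]

lemma sum {ι : Type} (s : Finset ι) {f : ι → X → X → ℂ} (h : ∀ i ∈ s, K (f i)) :
    K fun x y => ∑ i ∈ s, f i x y := by
  classical
  induction s using Finset.induction_on with
  | empty => exact (const le_rfl).congr fun _ _ => by simp
  | insert a s ha ih =>
    exact ((h a (Finset.mem_insert_self _ _)).add
      (ih fun i hi => h i (Finset.mem_insert_of_mem hi))).congr fun _ _ => by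
        rw [Finset.sum_insert ha]

lemma K.herm {f : X → X → ℂ} (hf : K f) (x y : X) : conj (f x y) = f y x :=
  Matrix.IsHermitian.apply hf.1 y x

lemma lim {ι : Type} {l : Filter ι} [l.NeBot] {f : ι → X → X → ℂ} {g : X → X → ℂ}
    (h : ∀ i, K (f i)) (ht : ∀ x y, Tendsto (fun i => f i x y) l (𝓝 (g x y))) : K g := by
  refine psd_of_re _ ?_ fun α => ?_
  · ext x y
    have h1 := (Complex.continuous_conj.tendsto _).comp (ht y x)
    have h2 : (starRingEnd ℂ ∘ fun i => f i y x) = fun i => f i x y :=
      funext fun i => (h i).herm y x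
    rw [h2] at h1
    exact tendsto_nhds_unique h1 (ht x y)
  · rw [qf_eq _ _ _ le_rfl]
    have : Tendsto (fun i => (∑ x ∈ α.support, ∑ y ∈ α.support,
        conj (α x) * f i x y * α y).re) l (𝓝 (∑ x ∈ α.support, ∑ y ∈ α.support,
        conj (α x) * g x y * α y).re) :=
      (Complex.continuous_re.tendsto _).comp (tendsto_finsetSum _ fun x _ =>
        tendsto_finsetSum _ fun y _ => ((ht x y).const_mul _).mul_const _)
    refine ge_of_tendsto' this fun i => ?_
    have h3 : 0 ≤ qf (Matrix.of (f i)) α := (h i).2 α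
    rw [qf_eq _ _ _ le_rfl] at h3
    exact (Complex.nonneg_iff.1 h3).1

lemma K.geom {f : X → X → ℂ} (hf : K f) (h : ∀ x y, ‖f x y‖ < 1) : K fun x y => (1 - f x y)⁻¹ :=
  lim (l := atTop) (f := fun n x y => ∑ i ∈ Finset.range n, f x y ^ i)
    (fun _ => sum _ fun i _ => hf.pow i)
    fun x y => (hasSum_geometric_of_norm_lt_one (h x y)).tendsto_sum_nat

end Pool.Agent.H29.Ker
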