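import Mathlib
import Pool.Agent.H29.Ker

open Finset Pool.Agent.H1.Sh Filter Topology
open scoped InnerProductSpace ComplexConjugate ComplexOrder

namespace Pool.Agent.H29.Berg

lemma orth {N : ℕ} {ω : ℂ} (hω : IsPrimitiveRoot ω N) (h1 : ω * conj ω = 1) {a b : ℕ}
    (ha : a < N) (hb : b < N) :
    ∑ j ∈ range N, (ω ^ a * conj ω ^ b) ^ j = if a = b then (N : ℂ) else 0 := by
  split_ifs with h
  · subst h; simp [← mul_pow, h1]
  · have hN : (ω ^ a * conj ω ^ b) ^ N = 1 := by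
      rw [mul_pow, ← pow_mul, ← pow_mul, mul_comm a, mul_comm b, pow_mul, pow_mul, ← map_pow,
        hω.pow_eq_one]; simp
    have hne : ω ^ a * conj ω ^ b ≠ 1 := fun e => h (hω.pow_inj ha hb (by
      have : (ω * conj ω) ^ b = 1 := by rw [h1, one_pow]
      rw [mul_pow] at this
      linear_combination ω ^ b * e - ω ^ a * this))
    rw [geom_sum_eq hne, hN]; simp

lemma bN (x : ℂ) (N : ℕ) : (1 - x) ^ 2 * ∑ n ∈ range N, ((n : ℂ) + 1) * x ^ n =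
    1 - (N + 1) * x ^ N + N * x ^ (N + 1) := by
  induction N with
  | zero => simp
  | succ N ih => rw [sum_range_succ, mul_add, ih]; push_cast; ring

lemma tail {x : ℂ} (hx : ‖x‖ ≤ 1 / 2) (N : ℕ) :
    ‖((1 - x) ^ 2)⁻¹ - ∑ n ∈ range N, ((n : ℂ) + 1) * x ^ n‖ ≤ 4 * (2 * N + 1) * (1 / 2) ^ N := by
  have h1 : 1 / 2 ≤ ‖1 - x‖ := by
    have := norm_sub_norm_le (1 : ℂ) x
    rw [norm_one] at this; linarith
  have h0 : (1 - x) ≠ 0 := fun e => by rw [e] at h1; norm_num at h1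
  have e : ((1 - x) ^ 2)⁻¹ - ∑ n ∈ range N, ((n : ℂ) + 1) * x ^ n =
      x ^ N * ((N + 1) - N * x) / (1 - x) ^ 2 := by
    rw [eq_div_iff (pow_ne_zero _ h0), sub_mul, inv_mul_cancel₀ (pow_ne_zero _ h0), mul_comm, bN]
    ring
  have h2 : ‖((N : ℂ) + 1) - N * x‖ ≤ 2 * N + 1 := by
    refine (norm_sub_le _ _).trans ?_
    have : ‖(N : ℂ) + 1‖ = N + 1 := by exact_mod_cast Complex.norm_natCast (N + 1)
    rw [this, norm_mul, Complex.norm_natCast]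
    nlinarith [Nat.cast_nonneg (α := ℝ) N]
  rw [e, norm_div, norm_mul, norm_pow, norm_pow, div_le_iff₀ (by positivity)]
  have h3 : ‖x‖ ^ N ≤ (1 / 2) ^ N := pow_le_pow_left₀ (norm_nonneg _) hx N
  have h4 : 1 / 4 ≤ ‖1 - x‖ ^ 2 := by nlinarith
  calc ‖x‖ ^ N * ‖((N : ℂ) + 1) - N * x‖ ≤ (1 / 2) ^ N * (2 * N + 1) := by gcongr
    _ = 4 * (2 * N + 1) * (1 / 2) ^ N * (1 / 4) := by ring
    _ ≤ _ := by gcongr

lemma sum4 (N : ℕ) : ∑ n ∈ range N, ((n : ℝ) + 1) * (1 / 2) ^ n ≤ 4 := by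
  have : ∑ n ∈ range N, ((n : ℝ) + 1) * (1 / 2) ^ n = 4 - (2 * N + 4) * (1 / 2) ^ N := by
    induction N with
    | zero => simp
    | succ N ih => rw [sum_range_succ, ih]; push_cast; ring
  rw [this]
  have : 0 ≤ (2 * (N : ℝ) + 4) * (1 / 2) ^ N := by positivity
  linarith

lemma q34 (n : ℕ) : (((n + 2 : ℕ) : ℝ) + 1) * (1 / 2) ^ (n + 2) ≤ 3 / 4 := by
  induction n with
  | zero => norm_num
  | succ n ih =>
    have : (0 : ℝ) ≤ (1 / 2) ^ (n + 2) := by positivity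
    rw [show n + 1 + 2 = n + 2 + 1 by ring, pow_succ]
    push_cast at ih ⊢
    nlinarith [Nat.cast_nonneg (α := ℝ) n]

lemma avg_le {E : Type} [SeminormedAddCommGroup E] [NormedSpace ℂ E] {N : ℕ} (hN : 0 < N)
    (c : ℕ → ℂ) (hc : ∀ j, ‖c j‖ = 1) (v : ℕ → E) {B : ℝ} (hv : ∀ j, ‖v j‖ ≤ B) :
    ‖(N : ℂ)⁻¹ • ∑ j ∈ range N, c j • v j‖ ≤ B := by
  have hN' : (0 : ℝ) < N := by exact_mod_cast hN
  have : ‖∑ j ∈ range N, c j • v j‖ ≤ N * B := by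
    refine (norm_sum_le _ _).trans ?_
    simpa [norm_smul, hc] using sum_le_card_nsmul (range N) (fun j => ‖v j‖) B fun j _ => hv j
  rw [norm_smul, norm_inv, Complex.norm_natCast, inv_mul_le_iff₀ hN']
  exact this

variable {H : Type} [NormedAddCommGroup H] [InnerProductSpace ℂ H]

noncomputable def U (N : ℕ) (ω : ℂ) (g : ℕ → H) (n : ℕ) : H :=
  (N : ℂ)⁻¹ • ∑ j ∈ range N, (ω * conj ω ^ n) ^ j • g j

lemma parseval {N : ℕ} (hN : 0 < N) {ω : ℂ} (hω : IsPrimitiveRoot ω N) (h1 : ω * conj ω = 1)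
    (g : ℕ → H) (hg : ∀ j, ‖g j‖ ≤ 1) : ∑ n ∈ range N, ‖U N ω g n‖ ^ 2 ≤ 1 := by
  have hN' : (N : ℂ) ≠ 0 := by exact_mod_cast hN.ne'
  have e : ∑ n ∈ range N, ⟪U N ω g n, U N ω g n⟫_ℂ = (N : ℂ)⁻¹ * ∑ j ∈ range N, ⟪g j, g j⟫_ℂ := by
    simp only [U, inner_smul_left, inner_smul_right, sum_inner, inner_sum, mul_sum]
    rw [sum_comm]
    refine sum_congr rfl fun j hj => ?_
    rw [sum_comm]
    have : ∀ i ∈ range N, ∑ n ∈ range N, (N : ℂ)⁻¹ * ((ω * conj ω ^ n) ^ j *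
        (conj (N : ℂ)⁻¹ * (conj ((ω * conj ω ^ n) ^ i) * ⟪g i, g j⟫_ℂ))) =
        if i = j then (N : ℂ)⁻¹ * ⟪g j, g j⟫_ℂ else 0 := by
      intro i hi
      have o := orth hω h1 (mem_range.1 hi) (mem_range.1 hj)
      have e2 : ∀ n : ℕ, (N : ℂ)⁻¹ * ((ω * conj ω ^ n) ^ j *
        (conj (N : ℂ)⁻¹ * (conj ((ω * conj ω ^ n) ^ i) * ⟪g i, g j⟫_ℂ))) =
        ((N : ℂ)⁻¹ * (N : ℂ)⁻¹ * (ω ^ j * conj ω ^ i) * ⟪g i, g j⟫_ℂ) * (ω ^ i * conj ω ^ j) ^ n := by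
        intro n
        simp only [map_pow, map_mul, Complex.conj_conj, map_inv₀, map_natCast]
        ring
      simp only [e2]
      rw [← mul_sum, o]
      split_ifs with h
      · subst h; rw [← mul_pow, h1, one_pow]; field_simp
      · simp
    rw [sum_congr rfl this, sum_ite_eq' (range N) j, if_pos hj]
  simp only [inner_self_eq_norm_sq_to_K, Complex.coe_algebraMap] at e
  have e' : ∑ n ∈ range N, ‖U N ω g n‖ ^ 2 = (N : ℝ)⁻¹ * ∑ j ∈ range N, ‖g j‖ ^ 2 := by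
    apply Complex.ofReal_injective
    push_cast
    exact e
  have hN'' : (0 : ℝ) < N := by exact_mod_cast hN
  rw [e', inv_mul_le_iff₀ hN'']
  simpa using sum_le_card_nsmul (range N) (fun j => ‖g j‖ ^ 2) 1 fun j _ =>
    pow_le_one₀ (norm_nonneg _) (hg j)

lemma core {X H' : Type} [NormedAddCommGroup H'] [InnerProductSpace ℂ H'] (ι : X → ℂ)
    (hι : ∀ x, ‖ι x‖ ^ 2 ≤ 1 / 2) (f : X → H) (hf : ∀ x, ‖f x‖ ≤ 1) (κ : X → H')
    (hκ : ∀ x, ‖κ x‖ ≤ 1)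
    (hK : ∀ x y, ⟪κ x, κ y⟫_ℂ = 1 - ((1 - ι x * conj (ι y)) ^ 2)⁻¹ * (1 - ⟪f x, f y⟫_ℂ))
    (M : ℕ) {ω : ℂ} (hω : IsPrimitiveRoot ω (M + 3)) (h1 : ω * conj ω = 1) {r : ℝ} (hr : 0 ≤ r)
    (y : ℕ → X) (hy : ∀ j, ι (y j) = r * ω ^ j) {η τ : ℝ} (hτ : 0 ≤ τ)
    (hη : 4 * (2 * ((M + 3 : ℕ) : ℝ) + 1) * (1 / 2) ^ (M + 3) ≤ η)
    (hτ2 : 1 - 2 * r ^ 2 + 2 * η ≤ τ ^ 2) :
    ∃ p q : H, ‖p‖ ^ 2 + ‖q‖ ^ 2 ≤ 1 ∧ ‖⟪p, q⟫_ℂ‖ ≤ 11 * τ + 2 * η ∧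
      ∀ x, ‖⟪f x, q⟫_ℂ + 2 * (ι x * r) * ⟪f x, p⟫_ℂ - 2 * (ι x * r)‖ ≤ 9 * τ + 2 * η := by
  set N := M + 3 with hN
  have hN0 : 0 < N := by omega
  have hN' : (N : ℂ) ≠ 0 := by exact_mod_cast hN0.ne'
  have nω : ‖ω‖ = 1 := hω.norm'_eq_one hN0.ne'
  have hr2 : r ^ 2 ≤ 1 / 2 := by
    have := hι (y 0); rw [hy] at this; simpa using this
  have hxr : ∀ x, ‖ι x * r‖ ≤ 1 / 2 := fun x => by
    rw [norm_mul, Complex.norm_real, Real.norm_of_nonneg hr]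
    nlinarith [hι x, sq_nonneg (‖ι x‖ - r)]
  set u : ℕ → H := U N ω (fun j => f (y j)) with hu
  have hu1 : ∀ n, ‖u n‖ ≤ 1 := fun n =>
    avg_le hN0 _ (fun j => by simp [nω]) _ fun j => hf _
  have hpar := parseval hN0 hω h1 (fun j => f (y j)) fun j => hf _
  rw [← hu, hN, sum_range_succ', sum_range_succ'] at hpar
  simp only [add_assoc, Nat.reduceAdd, zero_add] at hpar
  set R := ∑ n ∈ range (M + 1), ‖u (n + 2)‖ ^ 2 with hR
  have hR0 : 0 ≤ R := sum_nonneg fun _ _ => sq_nonneg _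
  set μ : ℕ → H' := fun s => (N : ℂ)⁻¹ • ∑ j ∈ range N, (ω ^ s) ^ j • κ (y j) with hμ
  have hμ1 : ∀ s, ‖μ s‖ ≤ 1 := fun s => avg_le hN0 _ (fun j => by simp [nω]) _ fun j => hκ _
  set A : X → ℂ := fun x => -2 * (ι x * r) +
    ∑ n ∈ range N, ((n : ℂ) + 1) * (ι x * r) ^ n * ⟪f x, u n⟫_ℂ with hA
  have hE : ∀ x, ‖⟪κ x, μ 1⟫_ℂ - A x‖ ≤ 2 * η := by
    intro x
    have e : ⟪κ x, μ 1⟫_ℂ - A x = (N : ℂ)⁻¹ • ∑ j ∈ range N, (ω ^ j) •
        (-(((1 - ι x * conj (ι (y j))) ^ 2)⁻¹ - ∑ n ∈ range N, ((n : ℂ) + 1) *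
          (ι x * conj (ι (y j))) ^ n) * (1 - ⟪f x, f (y j)⟫_ℂ)) := by
      have o0 : ∑ j ∈ range N, ω ^ j = 0 := by
        simpa using orth hω h1 (a := 1) (b := 0) (by omega) hN0
      have o1 : ∑ j ∈ range N, ω ^ j * ∑ n ∈ range N, ((n : ℂ) + 1) *
          (ι x * conj (ι (y j))) ^ n = N * (2 * (ι x * r)) := by
        simp only [mul_sum]
        rw [sum_comm]
        have : ∀ n ∈ range N, ∑ j ∈ range N, ω ^ j * (((n : ℂ) + 1) *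
            (ι x * conj (ι (y j))) ^ n) = if 1 = n then ((n : ℂ) + 1) * (ι x * r) ^ n * N else 0 := by
          intro n hn
          have o := orth hω h1 (a := 1) (by omega) (mem_range.1 hn)
          rw [← mul_ite_zero, ← o, mul_sum]
          refine sum_congr rfl fun j _ => ?_
          simp only [hy, map_mul, map_pow, Complex.conj_ofReal]
          ring
        rw [sum_congr rfl this, sum_ite_eq, if_pos (mem_range.2 (by omega))]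
        push_cast; ring
      have o2 : ∑ n ∈ range N, ((n : ℂ) + 1) * (ι x * r) ^ n * ⟪f x, u n⟫_ℂ =
          (N : ℂ)⁻¹ * ∑ j ∈ range N, ω ^ j * ((∑ n ∈ range N, ((n : ℂ) + 1) *
            (ι x * conj (ι (y j))) ^ n) * ⟪f x, f (y j)⟫_ℂ) := by
        simp only [hu, U, inner_smul_right, inner_sum, mul_sum, sum_mul]
        rw [sum_comm]
        refine sum_congr rfl fun j _ => sum_congr rfl fun n _ => ?_
        simp only [hy, map_mul, map_pow, Complex.conj_ofReal]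
        ring
      simp only [hμ, hA, inner_smul_right, inner_sum, hK, pow_one, smul_eq_mul]
      rw [o2]
      have o3 : -2 * (ι x * r) = (N : ℂ)⁻¹ * (∑ j ∈ range N, ω ^ j - ∑ j ∈ range N, ω ^ j *
          ∑ n ∈ range N, ((n : ℂ) + 1) * (ι x * conj (ι (y j))) ^ n) := by
        rw [o0, o1]; field_simp; ring
      rw [o3, ← mul_add, ← mul_sub, ← sum_sub_distrib, ← sum_add_distrib, ← sum_sub_distrib]
      congr 1
      exact sum_congr rfl fun j _ => by ring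
    rw [e]
    refine avg_le hN0 _ (fun j => by simp [nω]) _ fun j => ?_
    have a1 : ‖ι x * conj (ι (y j))‖ ≤ 1 / 2 := by
      rw [norm_mul, Complex.norm_conj]
      nlinarith [hι x, hι (y j), sq_nonneg (‖ι x‖ - ‖ι (y j)‖)]
    have a2 := (tail a1 N).trans hη
    have a3 : ‖1 - ⟪f x, f (y j)⟫_ℂ‖ ≤ 2 := by
      refine (norm_sub_le _ _).trans ?_
      have := norm_inner_le_norm (𝕜 := ℂ) (f x) (f (y j))
      rw [norm_one]
      nlinarith [hf x, hf (y j), norm_nonneg (f x), norm_nonneg (f (y j))]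
    rw [norm_mul, norm_neg, mul_comm]
    exact mul_le_mul a3 a2 (norm_nonneg _) (by norm_num)
  have hE2 : ∀ s, s ≤ 1 → ‖⟪μ s, μ 1⟫_ℂ - (-2 * (r : ℂ) ^ 2 * (if 1 = s then 1 else 0) +
      ∑ n ∈ range N, ((n : ℂ) + 1) * ((r : ℂ) ^ 2) ^ n * ⟪u (n + 1 - s), u n⟫_ℂ)‖ ≤ 2 * η := by
    intro s hs
    have e : ⟪μ s, μ 1⟫_ℂ - (-2 * (r : ℂ) ^ 2 * (if 1 = s then 1 else 0) +
        ∑ n ∈ range N, ((n : ℂ) + 1) * ((r : ℂ) ^ 2) ^ n * ⟪u (n + 1 - s), u n⟫_ℂ) =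
        (N : ℂ)⁻¹ • ∑ j ∈ range N, (conj ω ^ s) ^ j • (⟪κ (y j), μ 1⟫_ℂ - A (y j)) := by
      have o := orth hω h1 (a := 1) (b := s) (by omega) (by omega)
      have o1 : -2 * (r : ℂ) ^ 2 * (if 1 = s then 1 else 0) =
          (N : ℂ)⁻¹ * ∑ j ∈ range N, (conj ω ^ s) ^ j * (-2 * (ι (y j) * r)) := by
        have : ∑ j ∈ range N, (conj ω ^ s) ^ j * (-2 * (ι (y j) * r)) =
            -2 * (r : ℂ) ^ 2 * ∑ j ∈ range N, (ω ^ 1 * conj ω ^ s) ^ j := by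
          rw [mul_sum]; exact sum_congr rfl fun j _ => by rw [hy]; ring
        rw [this, o]
        split_ifs
        · field_simp
        · simp
      have o2 : ∑ n ∈ range N, ((n : ℂ) + 1) * ((r : ℂ) ^ 2) ^ n * ⟪u (n + 1 - s), u n⟫_ℂ =
          (N : ℂ)⁻¹ * ∑ j ∈ range N, (conj ω ^ s) ^ j *
            ∑ n ∈ range N, ((n : ℂ) + 1) * (ι (y j) * r) ^ n * ⟪f (y j), u n⟫_ℂ := by
        have : ∀ n, u (n + 1 - s) = U N ω (fun j => f (y j)) (n + 1 - s) := fun _ => rfl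
        simp only [this, U, inner_smul_left, sum_inner, mul_sum]
        rw [sum_comm]
        refine sum_congr rfl fun j _ => sum_congr rfl fun n _ => ?_
        have o4 : (conj ω * ω ^ (n + 1 - s)) = conj ω ^ s * ω ^ n := by
          rcases Nat.le_one_iff_eq_zero_or_eq_one.1 hs with rfl | rfl
          · simp only [Nat.sub_zero, pow_succ, pow_zero]; linear_combination ω ^ n * h1
          · simp
        simp only [hy, map_mul, map_pow, Complex.conj_conj, map_inv₀, map_natCast, o4]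
        ring
      have o3 : ⟪μ s, μ 1⟫_ℂ = (N : ℂ)⁻¹ * ∑ j ∈ range N, (conj ω ^ s) ^ j * ⟪κ (y j), μ 1⟫_ℂ := by
        have : μ s = (N : ℂ)⁻¹ • ∑ j ∈ range N, (ω ^ s) ^ j • κ (y j) := rfl
        rw [this]
        simp only [inner_smul_left, sum_inner, map_pow, map_inv₀, map_natCast]
      rw [o1, o2, o3, ← mul_add, ← mul_sub, ← sum_add_distrib, ← sum_sub_distrib, smul_eq_mul]
      congr 1
      exact sum_congr rfl fun j _ => by simp only [hA, smul_eq_mul]; ring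
    rw [e]
    exact avg_le hN0 _ (fun j => by simp [nω]) _ fun j => hE _
  have hw : ∀ n : ℕ, (((n + 2 : ℕ) : ℝ) + 1) * (r ^ 2) ^ (n + 2) ≤ 3 / 4 := fun n =>
    le_trans (by gcongr) (q34 n)
  have h11 : ‖μ 1‖ ^ 2 ≤ τ ^ 2 - R / 4 := by
    have a := hE2 1 le_rfl
    simp only [if_true, Nat.add_sub_cancel, inner_self_eq_norm_sq_to_K,
      Complex.coe_algebraMap] at a
    have a' : ‖μ 1‖ ^ 2 - (-2 * r ^ 2 * 1 + ∑ n ∈ range N, ((n : ℝ) + 1) * (r ^ 2) ^ n * ‖u n‖ ^ 2)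
        ≤ 2 * η := by
      refine le_trans (le_abs_self _) (le_trans (le_of_eq ?_) a)
      rw [← Real.norm_eq_abs, ← Complex.norm_real]; push_cast; rfl
    rw [hN, sum_range_succ', sum_range_succ'] at a'
    have b : ∑ n ∈ range (M + 1), (((n + 1 + 1 : ℕ) : ℝ) + 1) * (r ^ 2) ^ (n + 1 + 1) *
        ‖u (n + 1 + 1)‖ ^ 2 ≤ 3 / 4 * R := by
      rw [hR, mul_sum]
      exact sum_le_sum fun n _ => mul_le_mul_of_nonneg_right (hw n) (sq_nonneg _)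
    norm_num at a' b
    nlinarith [sq_nonneg ‖u 1‖, mul_le_mul_of_nonneg_right hr2 (sq_nonneg ‖u 1‖)]
  have hμτ : ‖μ 1‖ ≤ τ := (abs_le_of_sq_le_sq' (by linarith) hτ).2
  have hun : ∀ n ∈ range (M + 1), ‖u (n + 2)‖ ≤ 2 * τ := fun n hn => by
    have : ‖u (n + 2)‖ ^ 2 ≤ R :=
      single_le_sum (f := fun n => ‖u (n + 2)‖ ^ 2) (fun _ _ => sq_nonneg _) hn
    exact (abs_le_of_sq_le_sq' (by nlinarith [sq_nonneg ‖μ 1‖]) (by linarith)).2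
  have htail : ∀ (t : ℂ) (w : ℕ → H), ‖t‖ ≤ 1 / 2 → (∀ n, ‖w n‖ ≤ 1) →
      ‖∑ n ∈ range (M + 1), (((n + 1 + 1 : ℕ) : ℂ) + 1) * t ^ (n + 1 + 1) *
        ⟪w n, u (n + 1 + 1)⟫_ℂ‖ ≤ 8 * τ := by
    intro t w ht hw1
    have s4 := sum4 (M + 3)
    rw [sum_range_succ', sum_range_succ'] at s4
    refine (norm_sum_le _ _).trans ?_
    have : ∑ n ∈ range (M + 1), ‖(((n + 1 + 1 : ℕ) : ℂ) + 1) * t ^ (n + 1 + 1) *
        ⟪w n, u (n + 1 + 1)⟫_ℂ‖ ≤ ∑ n ∈ range (M + 1),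
          (((n + 1 + 1 : ℕ) : ℝ) + 1) * (1 / 2) ^ (n + 1 + 1) * (2 * τ) := by
      refine sum_le_sum fun n hn => ?_
      have e : ‖((n + 1 + 1 : ℕ) : ℂ) + 1‖ = ((n + 1 + 1 : ℕ) : ℝ) + 1 := by
        exact_mod_cast Complex.norm_natCast (n + 1 + 1 + 1)
      have i1 : ‖⟪w n, u (n + 1 + 1)⟫_ℂ‖ ≤ 2 * τ :=
        (norm_inner_le_norm _ _).trans (by
          nlinarith [hw1 n, hun n hn, norm_nonneg (w n), norm_nonneg (u (n + 2))])
      rw [norm_mul, norm_mul, e, norm_pow]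
      gcongr
    rw [← sum_mul] at this
    norm_num at s4 this ⊢
    nlinarith
  refine ⟨u 1, u 0, by linarith, ?_, fun x => ?_⟩
  · have a := hE2 0 (by norm_num)
    rw [hN, sum_range_succ', sum_range_succ'] at a
    have b := htail ((r : ℂ) ^ 2) (fun n => u (n + 1 + 1 + 1 - 0)) (by simpa using hr2)
      fun n => hu1 _
    have c : ‖⟪μ 0, μ 1⟫_ℂ‖ ≤ τ := (norm_inner_le_norm _ _).trans (by
      nlinarith [hμ1 0, norm_nonneg (μ 0), norm_nonneg (μ 1)])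
    have d : ‖2 * (r : ℂ) ^ 2 * ⟪u 2, u 1⟫_ℂ‖ ≤ 2 * τ := by
      have i1 : ‖⟪u 2, u 1⟫_ℂ‖ ≤ 2 * τ := (norm_inner_le_norm _ _).trans (by
          nlinarith [hu1 1, hun 0 (by simp), norm_nonneg (u 1), norm_nonneg (u (0 + 2))])
      rw [norm_mul, norm_mul, Complex.norm_ofNat, norm_pow, Complex.norm_real, Real.norm_eq_abs,
        sq_abs]
      nlinarith [norm_nonneg ⟪u 2, u 1⟫_ℂ, sq_nonneg r]
    generalize (∑ n ∈ range (M + 1), (((n + 1 + 1 : ℕ) : ℂ) + 1) * ((r : ℂ) ^ 2) ^ (n + 1 + 1) *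
      ⟪u (n + 1 + 1 + 1 - 0), u (n + 1 + 1)⟫_ℂ) = S at a b
    norm_num at a
    have e : ⟪u 1, u 0⟫_ℂ = ⟪μ 0, μ 1⟫_ℂ - S - 2 * (r : ℂ) ^ 2 * ⟪u 2, u 1⟫_ℂ -
      (⟪μ 0, μ 1⟫_ℂ - (S + 2 * (r : ℂ) ^ 2 * ⟪u 2, u 1⟫_ℂ + ⟪u 1, u 0⟫_ℂ)) := by ring
    rw [e]
    refine (norm_sub_le _ _).trans (add_le_add ((norm_sub_le _ _).trans
      ((add_le_add_left (norm_sub_le _ _) _).trans (by linarith))) a)
  · have a := hE x
    simp only [hA] at a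
    rw [hN, sum_range_succ', sum_range_succ'] at a
    have b := htail (ι x * r) (fun _ => f x) (hxr x) fun _ => hf x
    have c : ‖⟪κ x, μ 1⟫_ℂ‖ ≤ τ := (norm_inner_le_norm _ _).trans (by
      nlinarith [hκ x, norm_nonneg (κ x), norm_nonneg (μ 1)])
    generalize (∑ n ∈ range (M + 1), (((n + 1 + 1 : ℕ) : ℂ) + 1) * (ι x * r) ^ (n + 1 + 1) *
      ⟪f x, u (n + 1 + 1)⟫_ℂ) = S at a b
    have e : ⟪f x, u 0⟫_ℂ + 2 * (ι x * r) * ⟪f x, u 1⟫_ℂ - 2 * (ι x * r) = ⟪κ x, μ 1⟫_ℂ - S -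
      (⟪κ x, μ 1⟫_ℂ - (-2 * (ι x * r) + (S + (((0 + 1 : ℕ) : ℂ) + 1) * (ι x * r) ^ (0 + 1) *
        ⟪f x, u (0 + 1)⟫_ℂ + (((0 : ℕ) : ℂ) + 1) * (ι x * r) ^ 0 * ⟪f x, u 0⟫_ℂ))) := by
      push_cast; ring
    rw [e]
    exact (norm_sub_le _ _).trans (add_le_add ((norm_sub_le _ _).trans (by linarith)) a)

end Pool.Agent.H29.Berg
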