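import Mathlib
import Pool.Agent.H29.Berg1

open Finset Pool.Agent.H1.Sh Filter Topology Pool.Agent.H29.Ker
open scoped InnerProductSpace ComplexConjugate ComplexOrder

namespace Pool.Agent.H29.Berg

variable {X : Type}

lemma realize {F : X → X → ℂ} (hF : K F) : ∃ (H : Type) (_ : NormedAddCommGroup H)
    (_ : InnerProductSpace ℂ H) (f : X → H), ∀ x y, ⟪f x, f y⟫_ℂ = F x y := by
  obtain ⟨H, _, _, _, _, h⟩ := exists_rkhs (Matrix.of F) hF 1
  refine ⟨H, inferInstance, inferInstance, fun x => kf H x (WithLp.toLp 2 fun _ => 1),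
    fun x y => ?_⟩
  rw [gram_of h, inner_EV]; simp

variable {H : Type} [NormedAddCommGroup H] [InnerProductSpace ℂ H]

lemma gramK (g : X → H) : K fun x y => ⟪g x, g y⟫_ℂ := by
  refine psd_of_re _ (by ext x y; simp) fun α => ?_
  rw [qf_eq _ _ _ le_rfl]
  have : ∑ x ∈ α.support, ∑ y ∈ α.support, conj (α x) * (Matrix.of fun x y => ⟪g x, g y⟫_ℂ) x y *
      α y = ⟪∑ x ∈ α.support, α x • g x, ∑ x ∈ α.support, α x • g x⟫_ℂ := by
    rw [sum_inner]
    refine sum_congr rfl fun x _ => ?_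
    rw [inner_sum]
    refine sum_congr rfl fun y _ => ?_
    simp only [Matrix.of_apply, inner_smul_left, inner_smul_right]; ring
  rw [this]
  exact inner_self_nonneg (𝕜 := ℂ)

lemma nsq (q : H) : ⟪q, q⟫_ℂ = ((‖q‖ ^ 2 : ℝ) : ℂ) := by
  rw [inner_self_eq_norm_sq_to_K]; simp

lemma cs_ker (g : X → H) (q : H) :
    K fun x y => ((‖q‖ ^ 2 : ℝ) : ℂ) * ⟪g x, g y⟫_ℂ - ⟪g x, q⟫_ℂ * conj ⟪g y, q⟫_ℂ := by
  by_cases h : q = 0
  · exact (const le_rfl).congr fun _ _ => by simp [h]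
  have h0 : ((‖q‖ ^ 2 : ℝ) : ℂ) ≠ 0 := by simpa using h
  refine ((const (t := (‖q‖ ^ 2)⁻¹) (by positivity)).mul
    (gramK fun x => ((‖q‖ ^ 2 : ℝ) : ℂ) • g x - ⟪q, g x⟫_ℂ • q)).congr fun x y => ?_
  simp only [inner_sub_left, inner_sub_right, inner_smul_left, inner_smul_right, nsq,
    Complex.conj_ofReal, inner_conj_symm, Complex.ofReal_inv]
  field_simp
  ring

lemma ident (g : X → H) (p q : H) (h : ‖p‖ ^ 2 + ‖q‖ ^ 2 ≤ 1) :
    K fun x y => (1 - ⟪g x, p⟫_ℂ) * conj (1 - ⟪g y, p⟫_ℂ) - ⟪g x - p, q⟫_ℂ * conj ⟪g y - p, q⟫_ℂ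
      - ((1 - ‖p‖ ^ 2 : ℝ) : ℂ) * (1 - ⟪g x, g y⟫_ℂ) := by
  refine ((((const (t := 1 - ‖p‖ ^ 2 - ‖q‖ ^ 2) (by linarith)).mul (gramK fun x => g x - p)).add
    (dyad fun x => ⟪g x - p, p⟫_ℂ)).add (cs_ker (fun x => g x - p) q)).congr fun x y => ?_
  simp only [inner_sub_left (g _) p p, inner_sub_left (g _) p (g _ - p), inner_sub_right, nsq,
    map_sub, map_one, inner_conj_symm, Complex.conj_ofReal]
  push_cast
  ring

lemma inner_lt {a b : H} (ha : ‖a‖ < 1) (hb : ‖b‖ ≤ 1) : ‖⟪a, b⟫_ℂ‖ < 1 :=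
  (norm_inner_le_norm _ _).trans_lt (by nlinarith [norm_nonneg a, norm_nonneg b])

lemma ne1 {a : ℂ} (h : ‖a‖ < 1) : 1 - a ≠ 0 := fun e => by
  rw [← sub_eq_zero.1 e] at h; simp at h

lemma norm_lt {F : X → X → ℂ} {f : X → H} (hf : ∀ x y, ⟪f x, f y⟫_ℂ = F x y)
    (h : ∀ x, (F x x).re < 1) (x : X) : ‖f x‖ < 1 := by
  have := h x
  rw [← hf, nsq, Complex.ofReal_re] at this
  nlinarith [norm_nonneg (f x)]

theorem main (ι : X → ℂ) (hι : ∀ x, ‖ι x‖ ^ 2 < 1 / 2) (hs : ∀ z : ℂ, ‖z‖ ^ 2 < 1 / 2 → ∃ x, ι x = z)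
    {F : X → X → ℂ} (hF : K F) (h1 : ∀ x, (F x x).re < 1)
    (hK : K fun x y => 1 - ((1 - ι x * conj (ι y)) ^ 2)⁻¹ * (1 - F x y)) :
    K fun x y => (1 - 2 * (ι x * conj (ι y))) * (1 - F x y)⁻¹ := by
  obtain ⟨H, _, _, f, hf⟩ := realize hF
  obtain ⟨H', _, _, κ, hκ⟩ := realize hK
  have nf := norm_lt hf h1
  have nκ : ∀ x, ‖κ x‖ ≤ 1 := fun x => by
    have e := hκ x x
    rw [nsq, ← hf, nsq, Complex.mul_conj, Complex.normSq_eq_norm_sq] at e
    have e' : ‖κ x‖ ^ 2 = 1 - ((1 - ‖ι x‖ ^ 2) ^ 2)⁻¹ * (1 - ‖f x‖ ^ 2) := by exact_mod_cast e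
    have : 0 ≤ ((1 - ‖ι x‖ ^ 2) ^ 2)⁻¹ * (1 - ‖f x‖ ^ 2) :=
      mul_nonneg (by positivity) (by nlinarith [nf x, norm_nonneg (f x)])
    nlinarith [norm_nonneg (κ x)]
  set r : ℕ → ℝ := fun M => √(1 / 2) * (1 - 1 / ((M : ℝ) + 1)) with hr
  set η : ℕ → ℝ := fun M => 4 * (2 * ((M + 3 : ℕ) : ℝ) + 1) * (1 / 2) ^ (M + 3) with hη
  set τ : ℕ → ℝ := fun M => √(1 - 2 * r M ^ 2 + 2 * η M) with hτ
  have s2 : √(1 / 2) ^ 2 = (1 / 2 : ℝ) := Real.sq_sqrt (by norm_num)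
  have hr0 : ∀ M : ℕ, 0 ≤ 1 - 1 / ((M : ℝ) + 1) ∧ 1 - 1 / ((M : ℝ) + 1) < 1 := fun M => by
    have : 0 < 1 / ((M : ℝ) + 1) := by positivity
    have : 1 / ((M : ℝ) + 1) ≤ 1 := by
      rw [div_le_one (by positivity)]; linarith [Nat.cast_nonneg (α := ℝ) M]
    constructor <;> linarith
  have hr1 : ∀ M, r M ^ 2 < 1 / 2 := fun M => by
    simp only [hr, mul_pow, s2]; nlinarith [hr0 M]
  have key : ∀ M : ℕ, ∃ p q : H, ‖p‖ ^ 2 + ‖q‖ ^ 2 ≤ 1 ∧ ‖⟪p, q⟫_ℂ‖ ≤ 11 * τ M + 2 * η M ∧ ∀ x,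
      ‖⟪f x, q⟫_ℂ + 2 * (ι x * r M) * ⟪f x, p⟫_ℂ - 2 * (ι x * r M)‖ ≤ 9 * τ M + 2 * η M := by
    intro M
    have hω := Complex.isPrimitiveRoot_exp (M + 3) (by omega)
    set ω := Complex.exp (2 * Real.pi * Complex.I / (M + 3 : ℕ))
    have nω : ‖ω‖ = 1 := hω.norm'_eq_one (by omega)
    have r0 : 0 ≤ r M := mul_nonneg (Real.sqrt_nonneg _) (hr0 M).1
    choose y hy using fun j : ℕ => hs (r M * ω ^ j) (by simpa [nω] using hr1 M)
    refine core ι (fun x => (hι x).le) f (fun x => (nf x).le) κ nκ (fun x y => by rw [hκ, hf]) M hω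
      (by rw [Complex.mul_conj, Complex.normSq_eq_norm_sq, nω]; simp) r0 y hy (Real.sqrt_nonneg _)
      le_rfl (Real.sq_sqrt ?_).ge
    have : 0 ≤ η M := by simp only [hη]; positivity
    linarith [hr1 M]
  choose p q k1 k2 k3 using key
  have tr : Tendsto r atTop (𝓝 √(1 / 2)) := by
    have := (tendsto_one_div_add_atTop_nhds_zero_nat (𝕜 := ℝ)).const_sub 1 |>.const_mul √(1 / 2)
    rwa [sub_zero, mul_one] at this
  have tη : Tendsto η atTop (𝓝 0) := by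
    have a := tendsto_self_mul_const_pow_of_lt_one (r := 1 / 2) (by norm_num) (by norm_num)
    have b := tendsto_pow_atTop_nhds_zero_of_lt_one (r := (1 / 2 : ℝ)) (by norm_num) (by norm_num)
    have c := ((a.const_mul 8).add (b.const_mul 4)).comp (tendsto_add_atTop_nat 3)
    simp only [mul_zero, add_zero] at c
    exact c.congr fun M => by simp only [hη, Function.comp]; ring
  have tτ : Tendsto τ atTop (𝓝 0) := by
    have := (((tr.pow 2).const_mul 2).const_sub 1 |>.add (tη.const_mul 2)).sqrt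
    rw [s2] at this
    simpa using this
  have np : ∀ M, ‖p M‖ ≤ 1 := fun M => by nlinarith [k1 M, norm_nonneg (p M), sq_nonneg ‖q M‖]
  set ψ : ℕ → X → ℂ := fun M x => ⟪f x - p M, q M⟫_ℂ / (1 - ⟪f x, p M⟫_ℂ) with hψ
  have tψ : ∀ x, Tendsto (fun M => ψ M x) atTop (𝓝 (2 * (ι x * √(1 / 2)))) := by
    intro x
    have t1 : Tendsto (fun M => 2 * (ι x * r M)) atTop (𝓝 (2 * (ι x * √(1 / 2)))) :=
      (((Complex.continuous_ofReal.tendsto _).comp tr).const_mul _).const_mul _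
    have t2 : Tendsto (fun M => ψ M x - 2 * (ι x * r M)) atTop (𝓝 0) := by
      have t3 := (((tτ.const_mul 20).add (tη.const_mul 4)).div_const (1 - ‖f x‖))
      simp only [mul_zero, add_zero, zero_div] at t3
      refine squeeze_zero_norm (fun M => ?_) t3
      have a0 := ne1 (inner_lt (nf x) (np M))
      have e : ψ M x - 2 * (ι x * r M) = ((⟪f x, q M⟫_ℂ + 2 * (ι x * r M) * ⟪f x, p M⟫_ℂ -
          2 * (ι x * r M)) - ⟪p M, q M⟫_ℂ) / (1 - ⟪f x, p M⟫_ℂ) := by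
        simp only [hψ, inner_sub_left]; field_simp; ring
      have a1 : 1 - ‖f x‖ ≤ ‖1 - ⟪f x, p M⟫_ℂ‖ := by
        have := norm_sub_norm_le (1 : ℂ) ⟪f x, p M⟫_ℂ
        have b := norm_inner_le_norm (𝕜 := ℂ) (f x) (p M)
        rw [norm_one] at this
        nlinarith [np M, norm_nonneg (f x)]
      have a2 := (norm_sub_le _ _).trans (add_le_add (k3 M x) (k2 M))
      rw [e, norm_div]
      exact div_le_div₀ ((norm_nonneg _).trans (a2.trans (by linarith))) (by linarith)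
        (by linarith [nf x]) a1
    simpa using t2.add t1
  have gF : K fun x y => (1 - F x y)⁻¹ :=
    hF.geom fun x y => by rw [← hf]; exact inner_lt (nf x) (nf y).le
  refine lim (l := atTop) (f := fun M x y => (1 - ψ M x * conj (ψ M y)) * (1 - F x y)⁻¹)
    (fun M => ?_) fun x y => ?_
  · refine ((((ident f (p M) (q M) (k1 M)).mul gF).add (const (t := 1 - ‖p M‖ ^ 2)
      (by nlinarith [k1 M, sq_nonneg ‖q M‖]))).mul
      (dyad fun x => (1 - ⟪f x, p M⟫_ℂ)⁻¹)).congr fun x y => ?_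
    have a0 := ne1 (inner_lt (nf x) (np M))
    have a1 : conj (1 - ⟪f y, p M⟫_ℂ) ≠ 0 := (map_ne_zero _).2 (ne1 (inner_lt (nf y) (np M)))
    have a2 : 1 - F x y ≠ 0 := ne1 (by rw [← hf]; exact inner_lt (nf x) (nf y).le)
    simp only [hψ, map_div₀, map_inv₀, hf]
    field_simp
    ring
  · have := (((tψ x).mul ((Complex.continuous_conj.tendsto _).comp (tψ y))).const_sub 1).mul_const
      (1 - F x y)⁻¹
    have s3 : ((√(1 / 2) : ℝ) : ℂ) ^ 2 = 1 / 2 := by rw [← Complex.ofReal_pow, s2]; simp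
    have e : 2 * (ι x * conj (ι y)) = 2 * (ι x * √(1 / 2)) * conj (2 * (ι y * √(1 / 2))) := by
      simp only [map_mul, map_ofNat, Complex.conj_ofReal]
      linear_combination (-4 * ι x * conj (ι y)) * s3
    rw [e]
    exact this

lemma shift {k : X → X → ℂ} (hk : K k) (o : X) (l : X → ℂ) :
    K fun x y => k x y - l x * k o y - k x o * conj (l y) + l x * k o o * conj (l y) := by
  obtain ⟨H, _, _, g, hg⟩ := realize hk
  refine (gramK fun x => g x - conj (l x) • g o).congr fun x y => ?_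
  simp only [inner_sub_left, inner_sub_right, inner_smul_left, inner_smul_right, hg,
    Complex.conj_conj]
  ring

theorem main2 (ι : X → ℂ) (hι : ∀ x, ‖ι x‖ ^ 2 < 1 / 2)
    (hs : ∀ z : ℂ, ‖z‖ ^ 2 < 1 / 2 → ∃ x, ι x = z)
    {F : X → X → ℂ} (hF : K F) (h1 : ∀ x, (F x x).re < 1) (δ : X → ℂ) (hδ : ∀ x, δ x ≠ 0)
    (hK : K fun x y => δ x * conj (δ y) - ((1 - ι x * conj (ι y)) ^ 2)⁻¹ * (1 - F x y)) :
    K fun x y => (1 - 2 * (ι x * conj (ι y))) * (1 - F x y)⁻¹ := by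
  obtain ⟨H, _, _, f, hf⟩ := realize hF
  obtain ⟨o, ho⟩ := hs 0 (by norm_num)
  have nf := norm_lt hf h1
  set t : ℝ := 1 - ‖f o‖ ^ 2 with ht
  have t0 : 0 < t := by nlinarith [nf o, norm_nonneg (f o)]
  have t1 : (t : ℂ) ≠ 0 := by exact_mod_cast t0.ne'
  have e0 : F o o = 1 - t := by rw [← hf, nsq, ht]; push_cast; ring
  have a0 : ∀ x y, 1 - F x y ≠ 0 := fun x y => ne1 (by rw [← hf]; exact inner_lt (nf x) (nf y).le)
  have ec : ∀ x, conj (1 - F x o) = 1 - F o x := fun x => by rw [map_sub, map_one, hF.herm]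
  set G : X → X → ℂ := fun x y => 1 - t * (1 - F x y) / ((1 - F x o) * (1 - F o y)) with hG
  have hGK : K G := by
    refine ((ident f (f o) 0 (by rw [norm_zero]; linarith)).mul
      (dyad fun x => (1 - F x o)⁻¹)).congr fun x y => ?_
    have := a0 x o
    have := a0 o y
    simp only [hG, hf, map_inv₀, ec, inner_zero_right, zero_mul, sub_zero, ← ht]
    field_simp
  have hG1 : ∀ x, (G x x).re < 1 := fun x => by
    have e : G x x = ((1 - t * (1 - ‖f x‖ ^ 2) / Complex.normSq (1 - F x o) : ℝ) : ℂ) := by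
      simp only [hG]
      rw [← ec, Complex.mul_conj, ← hf x x, nsq]; push_cast; ring
    have : 0 < t * (1 - ‖f x‖ ^ 2) / Complex.normSq (1 - F x o) :=
      div_pos (mul_pos t0 (by nlinarith [nf x, norm_nonneg (f x)])) (Complex.normSq_pos.2 (a0 x o))
    rw [e, Complex.ofReal_re]; linarith
  have hG2 : K fun x y => 1 - ((1 - ι x * conj (ι y)) ^ 2)⁻¹ * (1 - G x y) := by
    refine ((((const t0.le).mul (shift hK o fun x => δ x / δ o)).add
      (dyad fun x => δ x / δ o * t - (1 - F x o))).mul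
      (dyad fun x => (1 - F x o)⁻¹)).congr fun x y => ?_
    have := a0 x o
    have := a0 o y
    have := hδ o
    have : conj (δ o) ≠ 0 := (map_ne_zero _).2 (hδ o)
    simp only [hG, ho, e0, map_inv₀, map_sub (starRingEnd ℂ) (_ * _), map_mul, map_div₀, ec,
      Complex.conj_ofReal, map_zero, mul_zero, zero_mul, sub_zero, one_pow, inv_one, one_mul]
    generalize ((1 - ι x * conj (ι y)) ^ 2)⁻¹ = b
    field_simp
    ring
  refine (((main ι hι hs hGK hG1 hG2).mul (const t0.le)).mul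
    (dyad fun x => (1 - F x o)⁻¹)).congr fun x y => ?_
  have := a0 x o
  have := a0 o y
  have := a0 x y
  simp only [hG, map_inv₀, ec, sub_sub_cancel]
  field_simp

end Pool.Agent.H29.Berg
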