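import Pool.Agent.H29.Generic

set_option autoImplicit false

namespace Pool.Agent.H29.BorelCenter

open Set Filter Topology Pool.Agent.H29.Generic

variable (f : ℝ → ℝ)

theorem ev_sub (l m l' m' : ℝ →₀ ℚ) : ev f (l - l') (m - m') = ev f l m - ev f l' m' := by
  simp only [ev, map_sub]
  ring

theorem ev_mid (l m l' m' : ℝ →₀ ℚ) :
    ev f ((1 / 2 : ℚ) • (l + l')) ((1 / 2 : ℚ) • (m + m')) = (ev f l m + ev f l' m') / 2 := by
  simp only [ev, map_smul, map_add, Rat.smul_def]
  push_cast
  ring

theorem ev_single (p : ℝ) (a b : ℚ) :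
    ev f (Finsupp.single p a) (Finsupp.single p b) = a * f p + b * p := by
  simp [ev, Rat.smul_def]

/-- the inner combinations -/
def W (D : Set ℝ) : Set ℝ :=
  {y | ∃ l m : ℝ →₀ ℚ, m.support ⊆ l.support ∧ (↑l.support : Set ℝ) ⊆ D ∧ 2 ≤ l.support.card ∧
    (∀ q, 0 ≤ l q ∧ l q < 1) ∧ y = ev f l m}

theorem W_meas (hf : Measurable f)
    (hind : ∀ l m : ℝ →₀ ℚ, l ≠ 0 → m.support ⊆ l.support → ev f l m ≠ 0)
    (D : Set ℝ) (hD : MeasurableSet D) : MeasurableSet (W f D) := by
  classical
  let X : ℕ → (ℤ →₀ ℚ) → Set (ℤ → ℝ) := fun k L =>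
    {x | ∀ j, (j ∈ L.support → x j ∈ D ∧ cell k (x j) = j) ∧ (j ∉ L.support → x j = 0)}
  let φ : (ℤ →₀ ℚ) → (ℤ →₀ ℚ) → (ℤ → ℝ) → ℝ := fun L M x =>
    ev f (L.mapDomain x) (M.mapDomain x)
  have hXinj : ∀ k L, ∀ x ∈ X k L, InjOn x L.support := by
    intro k L x hx a ha b hb hab
    rw [← ((hx a).1 ha).2, ← ((hx b).1 hb).2, hab]
  have hval : ∀ k L, ∀ x ∈ X k L, ∀ M : ℤ →₀ ℚ, M.support ⊆ L.support → ∀ q,
      M.mapDomain x q = if x (cell k q) = q then M (cell k q) else 0 := by
    intro k L x hx M hM q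
    by_cases h : ∃ j ∈ M.support, x j = q
    · obtain ⟨j, hj, rfl⟩ := h
      have h1 := ((hx j).1 (hM hj)).2
      rw [h1, if_pos rfl]
      exact Finsupp.mapDomain_apply' _ M (by exact_mod_cast hM) (hXinj k L x hx) (hM hj)
    · have h2 : M.mapDomain x q = 0 := by
        by_contra h3
        have := Finsupp.mapDomain_support (Finsupp.mem_support_iff.mpr h3)
        simp only [Finset.mem_image] at this
        exact h this
      rw [h2]
      split_ifs with h4
      · by_contra h5
        exact h ⟨cell k q, Finsupp.mem_support_iff.mpr (Ne.symm h5), h4⟩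
      · rfl
  have hW : W f D = ⋃ (t : ℕ × (ℤ →₀ ℚ) × (ℤ →₀ ℚ)) (_ : t.2.2.support ⊆ t.2.1.support ∧
      2 ≤ t.2.1.support.card ∧ ∀ j, 0 ≤ t.2.1 j ∧ t.2.1 j < 1), φ t.2.1 t.2.2 '' X t.1 t.2.1 := by
    ext y
    simp only [mem_iUnion, mem_image]
    constructor
    · rintro ⟨l, m, hm, hl, hc, hv, rfl⟩
      obtain ⟨k, hk⟩ := exists_cell_inj l.support
      have hs : (l.mapDomain (cell k)).support = l.support.image (cell k) :=
        Finsupp.mapDomain_support_of_injOn l hk
      let x : ℤ → ℝ := fun j => if h : ∃ q ∈ l.support, cell k q = j then h.choose else 0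
      have hx : ∀ q ∈ l.support, x (cell k q) = q := by
        intro q hq
        have h : ∃ q' ∈ l.support, cell k q' = cell k q := ⟨q, hq, rfl⟩
        simp only [x, dif_pos h]
        exact hk h.choose_spec.1 hq h.choose_spec.2
      refine ⟨(k, l.mapDomain (cell k), m.mapDomain (cell k)), ⟨?_, ?_, ?_⟩, x, ?_, ?_⟩
      · simp only [hs]
        exact Finsupp.mapDomain_support.trans (Finset.image_subset_image hm)
      · simp only [hs]
        rwa [Finset.card_image_of_injOn hk]
      · intro j
        simp only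
        by_cases hj : j ∈ (l.mapDomain (cell k)).support
        · rw [hs, Finset.mem_image] at hj
          obtain ⟨q, hq, rfl⟩ := hj
          rw [Finsupp.mapDomain_apply' _ l subset_rfl hk hq]
          exact hv q
        · rw [Finsupp.notMem_support_iff.mp hj]
          norm_num
      · intro j
        simp only [hs, Finset.mem_image]
        constructor
        · rintro ⟨q, hq, rfl⟩
          rw [hx q hq]
          exact ⟨hl hq, rfl⟩
        · intro h
          simp only [x, dif_neg h]
      · simp only [φ]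
        rw [← Finsupp.mapDomain_comp, ← Finsupp.mapDomain_comp,
          Finsupp.mapDomain_congr (f := x ∘ cell k) (g := id) (fun q hq => hx q hq),
          Finsupp.mapDomain_congr (f := x ∘ cell k) (g := id) (fun q hq => hx q (hm hq)),
          Finsupp.mapDomain_id, Finsupp.mapDomain_id]
    · rintro ⟨⟨k, L, M⟩, ⟨hM, hc, hv⟩, x, hx, rfl⟩
      simp only at hM hc hv hx
      have hs : (L.mapDomain x).support = L.support.image x :=
        Finsupp.mapDomain_support_of_injOn L (hXinj k L x hx)
      refine ⟨L.mapDomain x, M.mapDomain x, ?_, ?_, ?_, ?_, rfl⟩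
      · rw [hs]
        exact Finsupp.mapDomain_support.trans (Finset.image_subset_image hM)
      · rw [hs]
        intro q hq
        simp only [Finset.coe_image, mem_image, Finset.mem_coe] at hq
        obtain ⟨j, hj, rfl⟩ := hq
        exact ((hx j).1 hj).1
      · rwa [hs, Finset.card_image_of_injOn (hXinj k L x hx)]
      · intro q
        rw [hval k L x hx L subset_rfl q]
        split_ifs
        · exact hv _
        · norm_num
  rw [hW]
  refine MeasurableSet.iUnion fun t => MeasurableSet.iUnion fun ht => ?_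
  obtain ⟨k, L, M⟩ := t
  simp only at ht ⊢
  apply MeasurableSet.image_of_measurable_injOn
  · simp only [X, ofPred_forall]
    refine MeasurableSet.iInter fun j => ?_
    by_cases hj : j ∈ L.support
    · simp only [hj, true_implies, not_true, false_implies, and_true]
      exact (hD.preimage (measurable_pi_apply j)).inter
        ((measurableSet_singleton j).preimage ((cell_meas k).comp (measurable_pi_apply j)))
    · simp only [hj, true_implies, not_false_iff, false_implies, true_and]
      exact (measurableSet_singleton 0).preimage (measurable_pi_apply j)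
  · simp only [φ, ev, Finsupp.linearCombination_mapDomain]
    simp only [Finsupp.linearCombination_apply, Finsupp.sum, Function.comp, Rat.smul_def]
    refine Measurable.add (Finset.measurable_sum _ fun j _ => ?_)
      (Finset.measurable_sum _ fun j _ => ?_)
    · exact (hf.comp (measurable_pi_apply j)).const_mul _
    · exact (measurable_pi_apply j).const_mul _
  · intro x hx y hy hxy
    have h0 : L.mapDomain x - L.mapDomain y = 0 := by
      by_contra hne
      apply hind _ (M.mapDomain x - M.mapDomain y) hne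
      · intro q hq
        rw [Finsupp.mem_support_iff, Finsupp.sub_apply] at hq ⊢
        rw [hval k L x hx M ht.1, hval k L y hy M ht.1] at hq
        rw [hval k L x hx L subset_rfl, hval k L y hy L subset_rfl]
        have hL : M (cell k q) ≠ 0 → L (cell k q) ≠ 0 := fun h =>
          Finsupp.mem_support_iff.mp (ht.1 (Finsupp.mem_support_iff.mpr h))
        split_ifs at hq ⊢ <;> simp_all
      · rw [ev_sub]
        exact sub_eq_zero.mpr hxy
    funext j
    by_cases hj : j ∈ L.support
    · have h1 := DFunLike.congr_fun h0 (x j)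
      rw [Finsupp.sub_apply, hval k L x hx L subset_rfl, hval k L y hy L subset_rfl,
        ((hx j).1 hj).2, if_pos rfl] at h1
      by_contra hne
      rw [if_neg (Ne.symm hne)] at h1
      simp only [sub_zero, Finsupp.coe_zero, Pi.zero_apply] at h1
      exact Finsupp.mem_support_iff.mp hj h1
    · rw [(hx j).2 hj, (hy j).2 hj]

theorem mid_mem (D : Set ℝ) (l m l' m' : ℝ →₀ ℚ) (hm : m.support ⊆ l.support)
    (hm' : m'.support ⊆ l'.support) (hl : (↑l.support : Set ℝ) ⊆ D)
    (hl' : (↑l'.support : Set ℝ) ⊆ D) (h0 : ∀ q, 0 ≤ l q) (h0' : ∀ q, 0 ≤ l' q)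
    (h2 : ∀ q, l q + l' q < 2) (hc : ∃ a b, a ≠ b ∧ (a ∈ l.support ∨ a ∈ l'.support) ∧
      (b ∈ l.support ∨ b ∈ l'.support)) :
    (ev f l m + ev f l' m') / 2 ∈ W f D := by
  have hs : ∀ q, q ∈ ((1 / 2 : ℚ) • (l + l')).support ↔ q ∈ l.support ∨ q ∈ l'.support := by
    intro q
    simp only [Finsupp.mem_support_iff, Finsupp.smul_apply, Finsupp.add_apply, smul_eq_mul]
    have a := h0 q
    have b := h0' q
    constructor
    · intro h
      by_contra h3
      push Not at h3
      simp [h3.1, h3.2] at h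
    · rintro (h | h)
      · have := lt_of_le_of_ne a (Ne.symm h)
        positivity
      · have := lt_of_le_of_ne b (Ne.symm h)
        positivity
  refine ⟨_, _, ?_, ?_, ?_, ?_, (ev_mid f l m l' m').symm⟩
  · intro q hq
    rw [hs]
    simp only [Finsupp.mem_support_iff, Finsupp.smul_apply, Finsupp.add_apply, smul_eq_mul] at hq
    by_contra h3
    push Not at h3
    have a : m q = 0 := Finsupp.notMem_support_iff.mp fun h => h3.1 (hm h)
    have b : m' q = 0 := Finsupp.notMem_support_iff.mp fun h => h3.2 (hm' h)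
    simp [a, b] at hq
  · intro q hq
    rcases (hs q).mp hq with h | h
    · exact hl h
    · exact hl' h
  · obtain ⟨a, b, hab, ha, hb⟩ := hc
    exact Finset.one_lt_card.mpr ⟨a, (hs a).mpr ha, b, (hs b).mpr hb, hab⟩
  · intro q
    simp only [Finsupp.smul_apply, Finsupp.add_apply, smul_eq_mul]
    constructor <;> linarith [h0 q, h0' q, h2 q]

theorem not_ev (hind : ∀ l m : ℝ →₀ ℚ, l ≠ 0 → m.support ⊆ l.support → ev f l m ≠ 0)
    (p : ℝ) (l m : ℝ →₀ ℚ) (hm : m.support ⊆ l.support) (hp : l p ≠ 1) : f p ≠ ev f l m := by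
  classical
  intro h
  apply hind (l - Finsupp.single p 1) (m - Finsupp.single p 0)
  · intro h0
    have := DFunLike.congr_fun h0 p
    simp only [Finsupp.coe_sub, Pi.sub_apply, Finsupp.single_eq_same, Finsupp.coe_zero,
      Pi.zero_apply] at this
    exact hp (by linarith)
  · intro q hq
    simp only [Finsupp.single_zero, sub_zero] at hq
    have := Finsupp.mem_support_iff.mp (hm hq)
    rw [Finsupp.mem_support_iff, Finsupp.sub_apply, Finsupp.single_apply]
    split_ifs with h1
    · subst h1
      exact sub_ne_zero.mpr hp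
    · simpa using this
  · rw [ev_sub, ev_single, ← h]
    simp

theorem main (A : Set ℝ) (hA : MeasurableSet A) (h0 : (0 : ℝ) ∈ A) (hsub : A ⊆ Ici 0) :
    ∃ B : Set ℝ, MeasurableSet B ∧
      {α : ℝ | 0 ≤ α ∧ ∀ x ∈ B, ∃ y ∈ B, |x - y| = α} = A := by
  classical
  obtain ⟨f, hf, hind⟩ := exists_indep
  let D : Set ℝ := Ici 0 \ A
  have hD : MeasurableSet D := measurableSet_Ici.diff hA
  have hDpos : ∀ p ∈ D, 0 < p := fun p hp =>
    lt_of_le_of_ne hp.1 fun h => hp.2 (h ▸ h0)
  have hsupp : ∀ (p : ℝ) (b : ℚ), (Finsupp.single p b).support ⊆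
      (Finsupp.single p (1 : ℚ)).support := by
    intro p b
    rw [Finsupp.support_single _ one_ne_zero]
    exact Finsupp.support_single_subset
  have hV : ∀ b : ℚ, MeasurableSet ((fun p => f p + b * p) '' D) := by
    intro b
    refine hD.image_of_measurable_injOn (hf.add (measurable_id.const_mul _)) ?_
    intro p _ q _ hpq
    by_contra hne
    apply hind (Finsupp.single p 1 - Finsupp.single q 1) (Finsupp.single p b - Finsupp.single q b)
    · intro h
      have := DFunLike.congr_fun h p
      simp [Finsupp.single_apply, Ne.symm hne] at this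
    · intro r hr
      simp only [Finsupp.mem_support_iff, Finsupp.sub_apply, Finsupp.single_apply] at hr ⊢
      split_ifs at hr ⊢ <;> simp_all
    · rw [ev_sub, ev_single, ev_single]
      simp only at hpq
      push_cast
      linarith
  let V : Set ℝ := {y | ∃ p ∈ D, ∃ b : ℚ, (b = 1 ∨ b = -1) ∧ y = f p + b * p}
  have hVm : MeasurableSet V := by
    have : V = ((fun p => f p + (1 : ℚ) * p) '' D) ∪ ((fun p => f p + (-1 : ℚ) * p) '' D) := by
      ext y
      simp only [V, mem_ofPred_eq, mem_union, mem_image]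
      constructor
      · rintro ⟨p, hp, b, rfl | rfl, rfl⟩
        · exact Or.inl ⟨p, hp, rfl⟩
        · exact Or.inr ⟨p, hp, rfl⟩
      · rintro (⟨p, hp, rfl⟩ | ⟨p, hp, rfl⟩)
        · exact ⟨p, hp, 1, Or.inl rfl, rfl⟩
        · exact ⟨p, hp, -1, Or.inr rfl, rfl⟩
    rw [this]
    exact (hV 1).union (hV (-1))
  have hevV : ∀ (p : ℝ) (b : ℚ), f p + b * p =
      ev f (Finsupp.single p 1) (Finsupp.single p b) := by
    intro p b
    rw [ev_single]
    simp
  have hsD : ∀ p ∈ D, (↑(Finsupp.single p (1 : ℚ)).support : Set ℝ) ⊆ D := by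
    intro p hp
    rw [Finsupp.support_single _ one_ne_zero]
    simpa using hp
  have hs01 : ∀ p q : ℝ, 0 ≤ Finsupp.single p (1 : ℚ) q ∧ Finsupp.single p (1 : ℚ) q ≤ 1 := by
    intro p q
    rw [Finsupp.single_apply]
    split_ifs <;> norm_num
  have hVW : ∀ u ∈ V, ∀ v ∈ W f D, (u + v) / 2 ∈ W f D := by
    rintro _ ⟨p, hp, b, _, rfl⟩ _ ⟨l, m, hm, hl, hc, hv, rfl⟩
    rw [hevV]
    refine mid_mem f D _ _ _ _ (hsupp p b) hm (hsD p hp) hl (fun q => (hs01 p q).1)
      (fun q => (hv q).1) (fun q => by linarith [(hs01 p q).2, (hv q).2]) ?_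
    obtain ⟨a, ha, c, hc, hac⟩ := Finset.one_lt_card.mp hc
    exact ⟨a, c, hac, Or.inr ha, Or.inr hc⟩
  have hmid : ∀ u ∈ V ∪ W f D, ∀ v ∈ V ∪ W f D,
      (u + v) / 2 ∈ V ∪ W f D ∨ ∃ p ∈ D, |u - v| = 2 * p := by
    rintro u (hu | hu) v (hv | hv)
    · obtain ⟨p, hp, b, hb, rfl⟩ := hu
      obtain ⟨p', hp', b', hb', rfl⟩ := hv
      by_cases hpp : p = p'
      · subst hpp
        by_cases hbb : b = b'
        · subst hbb
          exact Or.inl (Or.inl ⟨p, hp, b, hb, by ring⟩)
        · refine Or.inr ⟨p, hp, ?_⟩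
          have := hDpos p hp
          rcases hb with rfl | rfl <;> rcases hb' with rfl | rfl
          · exact absurd rfl hbb
          · push_cast
            rw [abs_of_pos (by linarith)]
            ring
          · push_cast
            rw [abs_of_neg (by linarith)]
            ring
          · exact absurd rfl hbb
      · refine Or.inl (Or.inr ?_)
        rw [hevV, hevV]
        refine mid_mem f D _ _ _ _ (hsupp p b) (hsupp p' b') (hsD p hp) (hsD p' hp')
          (fun q => (hs01 p q).1) (fun q => (hs01 p' q).1) (fun q => ?_)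
          ⟨p, p', hpp, Or.inl (by simp), Or.inr (by simp)⟩
        rw [Finsupp.single_apply, Finsupp.single_apply]
        split_ifs with h1 h2 h2
        · exact absurd (h1.trans h2.symm) hpp
        all_goals norm_num
    · exact Or.inl (Or.inr (hVW u hu v hv))
    · rw [add_comm]
      exact Or.inl (Or.inr (hVW v hv u hu))
    · obtain ⟨l, m, hm, hl, hc, hv1, rfl⟩ := hu
      obtain ⟨l', m', hm', hl', hc', hv', rfl⟩ := hv
      refine Or.inl (Or.inr (mid_mem f D _ _ _ _ hm hm' hl hl' (fun q => (hv1 q).1)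
        (fun q => (hv' q).1) (fun q => by linarith [(hv1 q).2, (hv' q).2]) ?_))
      obtain ⟨a, ha, c, hc, hac⟩ := Finset.one_lt_card.mp hc
      exact ⟨a, c, hac, Or.inl ha, Or.inl hc⟩
  have hnot : ∀ p ∈ D, f p ∉ V ∪ W f D := by
    rintro p hp (⟨q, hq, b, hb, h⟩ | ⟨l, m, hm, hl, hc, hv, h⟩)
    · by_cases hpq : q = p
      · subst hpq
        have := hDpos q hq
        rcases hb with rfl | rfl <;> push_cast at h <;> linarith
      · rw [hevV] at h
        exact not_ev f hind p _ _ (hsupp q b) (by simp [Finsupp.single_apply, hpq]) h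
    · exact not_ev f hind p l m hm (hv p).2.ne h
  refine ⟨(V ∪ W f D)ᶜ, (hVm.union (W_meas f hf hind D hD)).compl, ?_⟩
  ext α
  simp only [mem_ofPred_eq]
  constructor
  · rintro ⟨h1, h2⟩
    by_contra hα
    have hαD : α ∈ D := ⟨h1, hα⟩
    obtain ⟨y, hy, hxy⟩ := h2 (f α) (hnot α hαD)
    apply hy
    left
    rcases (abs_eq h1).mp hxy with h | h
    · exact ⟨α, hαD, -1, Or.inr rfl, by push_cast; linarith⟩
    · exact ⟨α, hαD, 1, Or.inl rfl, by push_cast; linarith⟩
  · intro hα
    have h1 : 0 ≤ α := hsub hα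
    refine ⟨h1, fun x hx => ?_⟩
    by_contra hcon
    push Not at hcon
    have a1 : x + α ∈ V ∪ W f D := by
      by_contra h
      exact hcon _ h (by simpa using h1)
    have a2 : x - α ∈ V ∪ W f D := by
      by_contra h
      exact hcon _ h (by simpa using h1)
    rcases hmid _ a1 _ a2 with h | ⟨p, hp, h⟩
    · apply hx
      convert h using 1
      ring
    · rw [abs_of_nonneg (by linarith)] at h
      have : α = p := by linarith
      exact hp.2 (this ▸ hα)

end Pool.Agent.H29.BorelCenter
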