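import Mathlib

set_option autoImplicit false

namespace Pool.Agent.H29.Cap

open MeasureTheory Finset ENNReal

noncomputable def V {k : ℕ} (z : Fin k → ℂ) : ℝ :=
  ∏ i, ∏ j, if i = j then (1 : ℝ) else ‖z i - z j‖

noncomputable def X {k : ℕ} (w : ℂ) (z : Fin k → ℂ) : ℝ := ∏ i, ‖w - z i‖ ^ 2

lemma V_nonneg {k : ℕ} (z : Fin k → ℂ) : 0 ≤ V z := by
  unfold V
  refine prod_nonneg fun i _ => prod_nonneg fun j _ => ?_
  split_ifs <;> positivity

lemma X_nonneg {k : ℕ} (w : ℂ) (z : Fin k → ℂ) : 0 ≤ X w z := by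
  unfold X
  exact prod_nonneg fun i _ => by positivity

lemma V_cont {k : ℕ} : Continuous (V : (Fin k → ℂ) → ℝ) := by
  unfold V
  refine continuous_finset_prod _ fun i _ => continuous_finset_prod _ fun j _ => ?_
  split_ifs
  · exact continuous_const
  · fun_prop

lemma X_cont {k : ℕ} : Continuous (fun p : ℂ × (Fin k → ℂ) => X p.1 p.2) := by
  unfold X
  fun_prop

lemma X_cont' {k : ℕ} (w : ℂ) : Continuous (fun z : (Fin k → ℂ) => X w z) := by
  unfold X
  fun_prop

lemma V_split {k : ℕ} (z : Fin (k + 1) → ℂ) (j : Fin (k + 1)) :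
    V z = V (fun i => z (j.succAbove i)) * X (z j) (fun i => z (j.succAbove i)) := by
  unfold V X
  rw [Fin.prod_univ_succAbove _ j, Fin.prod_univ_succAbove _ j]
  simp only [if_true, one_mul]
  have h1 : ∀ i : Fin k, (if j = j.succAbove i then (1 : ℝ) else ‖z j - z (j.succAbove i)‖)
      = ‖z j - z (j.succAbove i)‖ := fun i => if_neg (Fin.succAbove_ne j i).symm
  have h2 : ∀ i : Fin k, (∏ l, if j.succAbove i = l then (1 : ℝ) else ‖z (j.succAbove i) - z l‖)
      = ‖z j - z (j.succAbove i)‖ * ∏ l : Fin k, if i = l then (1 : ℝ) else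
        ‖z (j.succAbove i) - z (j.succAbove l)‖ := by
    intro i
    rw [Fin.prod_univ_succAbove _ j, if_neg (Fin.succAbove_ne j i), norm_sub_rev]
    simp only [Fin.succAbove_right_inj]
  simp only [h1, h2, prod_mul_distrib, sq]
  ring

lemma X_split {k : ℕ} (w : ℂ) (z : Fin (k + 1) → ℂ) (j : Fin (k + 1)) :
    X w z = ‖w - z j‖ ^ 2 * X w (fun i => z (j.succAbove i)) := by
  unfold X
  rw [Fin.prod_univ_succAbove _ j]

lemma lagr {k : ℕ} (w : ℂ) (z : Fin (k + 1) → ℂ) :
    ∃ j : Fin (k + 1), V z ≤ ((k : ℝ) + 1) ^ 2 * (V (fun i => z (j.succAbove i)) *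
      X w (fun i => z (j.succAbove i))) := by
  by_cases hinj : Function.Injective z
  · have hs := Lagrange.sum_basis (s := (univ : Finset (Fin (k + 1)))) (v := z)
      hinj.injOn univ_nonempty
    have h1 : ∑ j : Fin (k + 1), (Lagrange.basis univ z j).eval w = 1 := by
      rw [← Polynomial.eval_finset_sum, hs]; simp
    have h2 : ∃ j : Fin (k + 1), 1 / ((k : ℝ) + 1) ≤ ‖(Lagrange.basis univ z j).eval w‖ := by
      by_contra hc
      push Not at hc
      have h3 : (1 : ℝ) ≤ ∑ j : Fin (k + 1), ‖(Lagrange.basis univ z j).eval w‖ := by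
        have := norm_sum_le univ (fun j : Fin (k + 1) => (Lagrange.basis univ z j).eval w)
        rw [h1] at this; simpa using this
      have h4 : ∑ j : Fin (k + 1), ‖(Lagrange.basis univ z j).eval w‖
          < ∑ j : Fin (k + 1), 1 / ((k : ℝ) + 1) :=
        sum_lt_sum_of_nonempty univ_nonempty fun j _ => hc j
      simp only [sum_const, card_univ, Fintype.card_fin, nsmul_eq_mul] at h4
      push_cast at h4
      rw [mul_one_div_cancel (by positivity)] at h4
      linarith
    obtain ⟨j, hj⟩ := h2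
    refine ⟨j, ?_⟩
    have h5 : (Lagrange.basis univ z j).eval w
        = ∏ i : Fin k, (z j - z (j.succAbove i))⁻¹ * (w - z (j.succAbove i)) := by
      rw [Lagrange.basis, Polynomial.eval_prod]
      have : (univ : Finset (Fin (k + 1))).erase j = univ.map (Fin.succAboveEmb j) := by
        ext a
        simp only [mem_erase, mem_univ, and_true, mem_map, true_and]
        constructor
        · intro ha
          obtain ⟨b, hb⟩ := Fin.exists_succAbove_eq ha
          exact ⟨b, hb⟩
        · rintro ⟨b, rfl⟩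
          exact Fin.succAbove_ne j b
      rw [this, prod_map]
      refine prod_congr rfl fun i _ => ?_
      simp [Lagrange.basisDivisor]
    have h6 : ‖(Lagrange.basis univ z j).eval w‖ ^ 2 * X (z j) (fun i => z (j.succAbove i))
        = X w (fun i => z (j.succAbove i)) := by
      rw [h5, norm_prod, ← prod_pow]
      unfold X
      rw [← prod_mul_distrib]
      refine prod_congr rfl fun i _ => ?_
      have : z j - z (j.succAbove i) ≠ 0 := by
        intro h
        exact Fin.succAbove_ne j i (hinj (sub_eq_zero.mp h)).symm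
      have h7 : ‖z j - z (j.succAbove i)‖ ≠ 0 := norm_ne_zero_iff.mpr this
      rw [norm_mul, norm_inv]
      field_simp
    rw [V_split z j, ← h6]
    have h8 : 1 ≤ ((k : ℝ) + 1) * ‖(Lagrange.basis univ z j).eval w‖ := by
      rw [div_le_iff₀ (by positivity)] at hj; linarith
    have h9 : 1 ≤ (((k : ℝ) + 1) * ‖(Lagrange.basis univ z j).eval w‖) ^ 2 := one_le_pow₀ h8
    have h10 := mul_nonneg (V_nonneg (fun i => z (j.succAbove i)))
      (X_nonneg (z j) (fun i => z (j.succAbove i)))
    nlinarith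
  · refine ⟨0, ?_⟩
    have : V z = 0 := by
      unfold Function.Injective at hinj
      push Not at hinj
      obtain ⟨a, b, hab, hne⟩ := hinj
      unfold V
      refine prod_eq_zero (mem_univ a) (prod_eq_zero (mem_univ b) ?_)
      rw [if_neg hne, hab]; simp
    rw [this]
    exact mul_nonneg (by positivity) (mul_nonneg (V_nonneg _) (X_nonneg _ _))

noncomputable def D (μ : Measure ℂ) (k : ℕ) : ℝ≥0∞ :=
  ∫⁻ z, ENNReal.ofReal (V z) ∂(Measure.pi fun _ : Fin k => μ)

lemma split_int (μ : Measure ℂ) [IsFiniteMeasure μ] {k : ℕ} (j : Fin (k + 1))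
    (F : ℂ × (Fin k → ℂ) → ℝ≥0∞) (hF : Measurable F) :
    ∫⁻ z, F (z j, fun i => z (j.succAbove i)) ∂(Measure.pi fun _ : Fin (k + 1) => μ)
      = ∫⁻ y, ∫⁻ x, F (x, y) ∂μ ∂(Measure.pi fun _ : Fin k => μ) := by
  have h := (measurePreserving_piFinSuccAbove (fun _ : Fin (k + 1) => μ) j).lintegral_comp hF
  rw [← lintegral_prod_symm' _ hF, ← h]
  rfl

lemma D_succ (μ : Measure ℂ) [IsFiniteMeasure μ] (k : ℕ) :
    D μ (k + 1) = ∫⁻ y, ENNReal.ofReal (V y) * ∫⁻ x, ENNReal.ofReal (X x y) ∂μ
      ∂(Measure.pi fun _ : Fin k => μ) := by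
  have hm : Measurable (fun p : ℂ × (Fin k → ℂ) => ENNReal.ofReal (V p.2) *
      ENNReal.ofReal (X p.1 p.2)) :=
    ((V_cont.comp continuous_snd).measurable.ennreal_ofReal).mul X_cont.measurable.ennreal_ofReal
  have := split_int μ (0 : Fin (k + 1)) _ hm
  unfold D
  have h2 : ∀ z : Fin (k + 1) → ℂ, ENNReal.ofReal (V z) =
      ENNReal.ofReal (V fun i => z ((0 : Fin (k + 1)).succAbove i)) *
        ENNReal.ofReal (X (z 0) fun i => z ((0 : Fin (k + 1)).succAbove i)) := by
    intro z
    rw [V_split z 0, ENNReal.ofReal_mul (V_nonneg _)]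
  simp only [h2]
  rw [this]
  refine lintegral_congr fun y => ?_
  exact lintegral_const_mul (ENNReal.ofReal (V y))
    (X_cont.comp (Continuous.prodMk_left y)).measurable.ennreal_ofReal

lemma D_ge (μ : Measure ℂ) [IsFiniteMeasure μ] (k : ℕ) (h : ℝ≥0∞)
    (hh : ∀ y : Fin k → ℂ, h ≤ ∫⁻ x, ENNReal.ofReal (X x y) ∂μ) : h * D μ k ≤ D μ (k + 1) := by
  rw [D_succ]
  unfold D
  rw [← lintegral_const_mul _ V_cont.measurable.ennreal_ofReal]
  refine lintegral_mono fun y => ?_
  rw [mul_comm]
  exact mul_le_mul_right (hh y) _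

lemma D_pos (μ : Measure ℂ) [IsFiniteMeasure μ] [NullSingletonClass μ] (hμ : μ Set.univ ≠ 0) (k : ℕ) :
    D μ k ≠ 0 := by
  induction k with
  | zero => simp [D, V]
  | succ k ih =>
    intro h0
    apply ih
    rw [D_succ] at h0
    have hm : Measurable (fun y : Fin k → ℂ => ∫⁻ x, ENNReal.ofReal (X x y) ∂μ) :=
      Measurable.lintegral_prod_left' (f := fun p : ℂ × (Fin k → ℂ) => ENNReal.ofReal (X p.1 p.2))
        X_cont.measurable.ennreal_ofReal
    replace h0 := (lintegral_eq_zero_iff (V_cont.measurable.ennreal_ofReal.mul hm)).mp h0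
    unfold D
    rw [lintegral_eq_zero_iff V_cont.measurable.ennreal_ofReal]
    filter_upwards [h0] with y hy
    have hI : ∫⁻ x, ENNReal.ofReal (X x y) ∂μ ≠ 0 := by
      intro hI
      replace hI := (lintegral_eq_zero_iff
        (X_cont.comp (Continuous.prodMk_left y)).measurable.ennreal_ofReal).mp hI
      have h1 : ∀ᵐ x ∂μ, x ∉ Set.range y := by
        rw [ae_iff]
        simp only [not_not]
        exact (Set.finite_range y).measure_zero μ
      have h2 : ∀ᵐ x ∂μ, False := by
        filter_upwards [hI, h1] with x hx hx1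
        have : X x y ≤ 0 := by simpa using hx
        have hpos : 0 < X x y := by
          unfold X
          refine prod_pos fun i _ => ?_
          have : x - y i ≠ 0 := fun h => hx1 ⟨i, (sub_eq_zero.mp h).symm⟩
          positivity
        linarith
      apply hμ
      simpa [ae_iff] using h2
    simpa [hI] using hy

lemma weak (μ : Measure ℂ) [IsFiniteMeasure μ] (hμ : μ ≤ volume) (k : ℕ) (w : ℂ) (t : ℝ)
    (ht : 0 < t) :
    ∫⁻ z, ENNReal.ofReal (V z) * (if X w z < t then 1 else 0)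
      ∂(Measure.pi fun _ : Fin (k + 1) => μ)
      ≤ ENNReal.ofReal (((k : ℝ) + 1) ^ 3 * Real.pi * t) * D μ k := by
  set F : ℂ × (Fin k → ℂ) → ℝ≥0∞ := fun p => ENNReal.ofReal (((k : ℝ) + 1) ^ 2 *
    (V p.2 * X w p.2)) * (if ‖w - p.1‖ ^ 2 * X w p.2 < t then 1 else 0) with hF
  have hFm : Measurable F := by
    refine Measurable.mul ?_ ?_
    · exact (continuous_const.mul ((V_cont.comp continuous_snd).mul
        ((X_cont' w).comp continuous_snd))).measurable.ennreal_ofReal
    · refine Measurable.ite ?_ measurable_const measurable_const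
      refine measurableSet_lt ?_ measurable_const
      exact (Continuous.mul (by fun_prop) ((X_cont' w).comp continuous_snd)).measurable
  have h1 : ∀ z : Fin (k + 1) → ℂ, ENNReal.ofReal (V z) * (if X w z < t then 1 else 0)
      ≤ ∑ j : Fin (k + 1), F (z j, fun i => z (j.succAbove i)) := by
    intro z
    obtain ⟨j, hj⟩ := lagr w z
    refine le_trans ?_ (single_le_sum (f := fun j : Fin (k + 1) =>
      F (z j, fun i => z (j.succAbove i))) (fun _ _ => zero_le) (mem_univ j))
    simp only [hF]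
    rw [← X_split w z j]
    exact mul_le_mul_left (ENNReal.ofReal_le_ofReal hj) _
  have h2 : ∀ y : Fin k → ℂ, ∫⁻ x, F (x, y) ∂μ ≤
      ENNReal.ofReal (((k : ℝ) + 1) ^ 2 * Real.pi * t) * ENNReal.ofReal (V y) := by
    intro y
    rcases (X_nonneg w y).eq_or_lt with h0 | hpos
    · simp [hF, ← h0]
    · have h3 : ∀ x, F (x, y) = ENNReal.ofReal (((k : ℝ) + 1) ^ 2 * (V y * X w y)) *
          (Metric.ball w (Real.sqrt (t / X w y))).indicator 1 x := by
        intro x
        simp only [hF, Set.indicator, Metric.mem_ball, Pi.one_apply]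
        congr 1
        have : ‖w - x‖ ^ 2 * X w y < t ↔ dist x w < Real.sqrt (t / X w y) := by
          rw [dist_eq_norm, norm_sub_rev x w, Real.lt_sqrt (norm_nonneg _), lt_div_iff₀ hpos]
        simp only [this]
      simp only [h3]
      rw [lintegral_const_mul _ (measurable_one.indicator Metric.isOpen_ball.measurableSet),
        lintegral_indicator_one Metric.isOpen_ball.measurableSet]
      have h4 : μ (Metric.ball w (Real.sqrt (t / X w y))) ≤
          ENNReal.ofReal (Real.pi * (t / X w y)) := by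
        refine le_trans (hμ _) ?_
        rw [Complex.volume_ball, ← ENNReal.ofReal_pow (Real.sqrt_nonneg _),
          Real.sq_sqrt (by positivity), mul_comm Real.pi,
          ENNReal.ofReal_mul (by positivity)]
        refine le_of_eq ?_
        congr 1
        rw [← NNReal.coe_real_pi, ENNReal.ofReal_coe_nnreal]
      refine le_trans (mul_le_mul_right h4 _) (le_of_eq ?_)
      have hV := V_nonneg y
      rw [← ENNReal.ofReal_mul (by positivity), ← ENNReal.ofReal_mul (by positivity)]
      congr 1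
      field_simp
  calc _ ≤ ∫⁻ z, ∑ j : Fin (k + 1), F (z j, fun i => z (j.succAbove i))
        ∂(Measure.pi fun _ : Fin (k + 1) => μ) := lintegral_mono h1
    _ = ∑ j : Fin (k + 1), ∫⁻ z, F (z j, fun i => z (j.succAbove i))
        ∂(Measure.pi fun _ : Fin (k + 1) => μ) := by
        refine lintegral_finset_sum _ fun j _ => hFm.comp ?_
        fun_prop
    _ ≤ ∑ j : Fin (k + 1), ENNReal.ofReal (((k : ℝ) + 1) ^ 2 * Real.pi * t) * D μ k := by
        refine sum_le_sum fun j _ => ?_
        rw [split_int μ j F hFm]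
        unfold D
        rw [← lintegral_const_mul _ V_cont.measurable.ennreal_ofReal]
        exact lintegral_mono h2
    _ = _ := by
        rw [sum_const, card_univ, Fintype.card_fin, nsmul_eq_mul, ← mul_assoc]
        congr 1
        rw [← ENNReal.ofReal_natCast, ← ENNReal.ofReal_mul (by positivity)]
        congr 1
        push_cast
        ring

noncomputable def Y (t x : ℝ) : ℝ≥0∞ := ∑' l : ℕ, if x < t / 2 ^ l then 1 else 0

lemma Y_alt (t x : ℝ) (ht : 0 < t) : Y t x = ⊤ ∨ ∃ m : ℕ, t / 2 ^ m ≤ x ∧ (m : ℝ≥0∞) ≤ Y t x := by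
  classical
  by_cases h : ∃ m : ℕ, t / 2 ^ m ≤ x
  · right
    refine ⟨Nat.find h, Nat.find_spec h, ?_⟩
    unfold Y
    refine le_trans (le_of_eq ?_) (ENNReal.sum_le_tsum (range (Nat.find h)))
    rw [sum_congr rfl (g := fun _ => (1 : ℝ≥0∞))]
    · simp
    · intro l hl
      rw [if_pos]
      exact not_le.mp (Nat.find_min h (mem_range.mp hl))
  · left
    push Not at h
    unfold Y
    simp [h]

lemma Y_sum {ι : Type} (s : Finset ι) (t : ℝ) (ht : 0 < t) (x : ι → ℝ)
    (hx : ∏ i ∈ s, x i ≤ (t / 16) ^ s.card) : (4 * s.card : ℕ) ≤ ∑ i ∈ s, Y t (x i) := by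
  by_cases h : ∃ i ∈ s, Y t (x i) = ⊤
  · rw [ENNReal.sum_eq_top.mpr h]; exact le_top
  · push Not at h
    have h1 : ∀ i, ∃ m : ℕ, i ∈ s → (t / 2 ^ m ≤ x i ∧ (m : ℝ≥0∞) ≤ Y t (x i)) := by
      intro i
      by_cases hi : i ∈ s
      · rcases Y_alt t (x i) ht with h2 | ⟨m, hm⟩
        · exact absurd h2 (h i hi)
        · exact ⟨m, fun _ => hm⟩
      · exact ⟨0, fun h => absurd h hi⟩
    choose m hm using h1
    have h2 : ∏ i ∈ s, (t / 2 ^ m i) ≤ ∏ i ∈ s, x i :=
      prod_le_prod (fun i _ => by positivity) fun i hi => (hm i hi).1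
    rw [Finset.prod_div_distrib, prod_const, prod_pow_eq_pow_sum] at h2
    have h3 := h2.trans hx
    rw [div_pow, div_le_div_iff_of_pos_left (by positivity) (by positivity) (by positivity),
      show (16 : ℝ) = 2 ^ 4 by norm_num, ← pow_mul] at h3
    have h4 : 4 * s.card ≤ ∑ i ∈ s, m i := (pow_le_pow_iff_right₀ (by norm_num)).mp h3
    calc ((4 * s.card : ℕ) : ℝ≥0∞) ≤ ((∑ i ∈ s, m i : ℕ) : ℝ≥0∞) := by exact_mod_cast h4
      _ = ∑ i ∈ s, (m i : ℝ≥0∞) := by push_cast; rfl
      _ ≤ _ := sum_le_sum fun i hi => (hm i hi).2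

lemma Y_int (μ : Measure ℂ) [IsFiniteMeasure μ] (hμ : μ ≤ volume) (k : ℕ) (w : ℂ) (t : ℝ)
    (ht : 0 < t) :
    ∫⁻ z, ENNReal.ofReal (V z) * Y t (X w z) ∂(Measure.pi fun _ : Fin (k + 1) => μ)
      ≤ 2 * (ENNReal.ofReal (((k : ℝ) + 1) ^ 3 * Real.pi * t) * D μ k) := by
  unfold Y
  simp only [← ENNReal.tsum_mul_left]
  rw [lintegral_tsum]
  · refine le_trans (ENNReal.tsum_le_tsum fun l => weak μ hμ k w (t / 2 ^ l) (by positivity))
      (le_of_eq ?_)
    have : ∀ l : ℕ, ENNReal.ofReal (((k : ℝ) + 1) ^ 3 * Real.pi * (t / 2 ^ l)) * D μ k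
        = (2⁻¹ : ℝ≥0∞) ^ l * (ENNReal.ofReal (((k : ℝ) + 1) ^ 3 * Real.pi * t) * D μ k) := by
      intro l
      rw [← mul_assoc]
      congr 1
      rw [show ((k : ℝ) + 1) ^ 3 * Real.pi * (t / 2 ^ l)
        = (2⁻¹ : ℝ) ^ l * (((k : ℝ) + 1) ^ 3 * Real.pi * t) by rw [inv_pow]; field_simp,
        ENNReal.ofReal_mul (by positivity), ENNReal.ofReal_pow (by positivity),
        ENNReal.ofReal_inv_of_pos (by norm_num)]
      simp
    simp only [this]
    rw [ENNReal.tsum_mul_right, ENNReal.tsum_geometric]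
    simp
  · intro l
    refine (V_cont.measurable.ennreal_ofReal.mul ?_).aemeasurable
    refine Measurable.ite ?_ measurable_const measurable_const
    exact measurableSet_lt (X_cont' w).measurable measurable_const

lemma Y_meas (t : ℝ) : Measurable (Y t) := by
  unfold Y
  refine Measurable.ennreal_tsum fun l => ?_
  exact Measurable.ite (measurableSet_lt measurable_id measurable_const) measurable_const
    measurable_const

lemma core (K : Set ℂ) (hK : IsCompact K) (k : ℕ) (h : ℝ) (hpos : 0 < h)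
    (hh : ∀ y : Fin k → ℂ, ENNReal.ofReal h ≤ ∫⁻ x in K, ENNReal.ofReal (X x y))
    (N : ℕ) (hN : 0 < N) (w : Fin N → ℂ) (T : ℝ)
    (hT : ∀ z : Fin (k + 1) → ℂ, (∀ i, z i ∈ K) → ∏ i, X (w i) z ≤ T ^ N) :
    ¬ T ≤ h / (((k : ℝ) + 1) ^ 3 * Real.pi) / 16 ∨ T < 0 := by
  by_contra hc
  push Not at hc
  obtain ⟨hc, hT0⟩ := hc
  set μ : Measure ℂ := volume.restrict K with hμ
  haveI : IsFiniteMeasure μ := isFiniteMeasure_restrict.mpr hK.measure_lt_top.ne
  set t := h / (((k : ℝ) + 1) ^ 3 * Real.pi) with ht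
  have htpos : 0 < t := by positivity
  have hae : ∀ᵐ z ∂(Measure.pi fun _ : Fin (k + 1) => μ), ∀ i, z i ∈ K := by
    have := Measure.ae_pi_le_pi (μ := fun _ : Fin (k + 1) => μ)
    refine this ?_
    refine Filter.eventually_pi fun i => ?_
    exact ae_restrict_mem hK.measurableSet
  have hDfin : D μ (k + 1) ≠ ⊤ := by
    obtain ⟨B, hB⟩ : ∃ B, ∀ z ∈ Set.univ.pi (fun _ : Fin (k + 1) => K), V z ≤ B := by
      have hc : IsCompact (Set.univ.pi (fun _ : Fin (k + 1) => K)) := isCompact_univ_pi fun _ => hK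
      obtain ⟨B, hB⟩ := (hc.image V_cont).bddAbove
      exact ⟨B, fun z hz => hB ⟨z, hz, rfl⟩⟩
    refine ne_top_of_le_ne_top (b := ∫⁻ _, ENNReal.ofReal B
      ∂(Measure.pi fun _ : Fin (k + 1) => μ)) ?_ ?_
    · rw [lintegral_const]
      exact ENNReal.mul_ne_top ENNReal.ofReal_ne_top (measure_ne_top _ _)
    · refine lintegral_mono_ae ?_
      filter_upwards [hae] with z hz
      exact ENNReal.ofReal_le_ofReal (hB z fun i _ => hz i)
  have hμ0 : μ Set.univ ≠ 0 := by
    intro h0
    have h1 : μ = 0 := Measure.measure_univ_eq_zero.mp h0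
    have h2 := hh fun _ => 0
    rw [h1] at h2
    simp at h2
    linarith
  have hD0 := D_pos μ hμ0 (k + 1)
  have h1 : ((4 * N : ℕ) : ℝ≥0∞) * D μ (k + 1) ≤ N * (2 * D μ (k + 1)) := by
    calc ((4 * N : ℕ) : ℝ≥0∞) * D μ (k + 1)
        = ∫⁻ z, ((4 * N : ℕ) : ℝ≥0∞) * ENNReal.ofReal (V z)
          ∂(Measure.pi fun _ : Fin (k + 1) => μ) := by
          unfold D
          rw [lintegral_const_mul _ V_cont.measurable.ennreal_ofReal]
      _ ≤ ∫⁻ z, ∑ i : Fin N, ENNReal.ofReal (V z) * Y t (X (w i) z)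
          ∂(Measure.pi fun _ : Fin (k + 1) => μ) := by
          refine lintegral_mono_ae ?_
          filter_upwards [hae] with z hz
          rw [← mul_sum, mul_comm]
          refine mul_le_mul_right ?_ _
          have := Y_sum univ t htpos (fun i => X (w i) z) (by
            rw [card_univ, Fintype.card_fin]
            exact (hT z hz).trans (pow_le_pow_left₀ hT0 hc N))
          rwa [card_univ, Fintype.card_fin] at this
      _ = ∑ i : Fin N, ∫⁻ z, ENNReal.ofReal (V z) * Y t (X (w i) z)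
          ∂(Measure.pi fun _ : Fin (k + 1) => μ) := by
          refine lintegral_finset_sum _ fun i _ => ?_
          exact V_cont.measurable.ennreal_ofReal.mul ((Y_meas t).comp (X_cont' _).measurable)
      _ ≤ ∑ i : Fin N, 2 * D μ (k + 1) := by
          refine sum_le_sum fun i _ => ?_
          refine (Y_int μ Measure.restrict_le_self k (w i) t htpos).trans ?_
          refine mul_le_mul_right ?_ _
          rw [show ((k : ℝ) + 1) ^ 3 * Real.pi * t = h by rw [ht]; field_simp]
          exact D_ge μ k _ hh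
      _ = _ := by simp
  rw [← mul_assoc, ENNReal.mul_le_mul_iff_left hD0 hDfin] at h1
  have h2 : 4 * N ≤ N * 2 := by exact_mod_cast h1
  omega

lemma exists_anti (k : ℕ) (y : Fin k → ℂ) : ∃ p : Polynomial ℂ, p.Monic ∧ p.natDegree = k + 1 ∧
    ∀ x, ‖(Polynomial.derivative p).eval x‖ ^ 2 = ((k : ℝ) + 1) ^ 2 * X x y := by
  set r : Polynomial ℂ := ∏ i, (Polynomial.X - Polynomial.C (y i)) with hr
  have hm : r.Monic := Polynomial.monic_prod_of_monic _ _ fun i _ => Polynomial.monic_X_sub_C _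
  have hd : r.natDegree = k := by
    rw [hr, Polynomial.natDegree_prod_of_monic _ _ fun i _ => Polynomial.monic_X_sub_C _]
    simp
  set p : Polynomial ℂ := ∑ j ∈ range (k + 1),
    Polynomial.monomial (j + 1) (((k : ℂ) + 1) * r.coeff j / ((j : ℂ) + 1)) with hp
  have hc : ∀ j, p.coeff (j + 1) = if j < k + 1 then ((k : ℂ) + 1) * r.coeff j / ((j : ℂ) + 1)
      else 0 := by
    intro j
    rw [hp, Polynomial.finset_sum_coeff]
    simp only [Polynomial.coeff_monomial, Nat.add_right_cancel_iff]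
    rw [sum_ite_eq']
    simp
  have hk : ((k : ℂ) + 1) ≠ 0 := by exact_mod_cast Nat.succ_ne_zero k
  have htop : p.coeff (k + 1) = 1 := by
    rw [hc, if_pos (by omega)]
    have : r.coeff k = 1 := by rw [← hd]; exact hm
    rw [this]; field_simp
  have hle : p.natDegree ≤ k + 1 := by
    rw [Polynomial.natDegree_le_iff_coeff_eq_zero]
    intro N hN
    obtain ⟨j, rfl⟩ : ∃ j, N = j + 1 := ⟨N - 1, by omega⟩
    rw [hc, if_neg (by omega)]
  have hdeg : p.natDegree = k + 1 :=
    Polynomial.natDegree_eq_of_le_of_coeff_ne_zero hle (by rw [htop]; exact one_ne_zero)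
  have hder : Polynomial.derivative p = Polynomial.C ((k : ℂ) + 1) * r := by
    ext j
    rw [Polynomial.coeff_derivative, hc, Polynomial.coeff_C_mul]
    have hj : ((j : ℂ) + 1) ≠ 0 := by exact_mod_cast Nat.succ_ne_zero j
    split_ifs with h
    · field_simp
    · rw [Polynomial.coeff_eq_zero_of_natDegree_lt (by omega)]; simp
  refine ⟨p, ?_, hdeg, fun x => ?_⟩
  · rw [Polynomial.Monic, Polynomial.leadingCoeff, hdeg, htop]
  · rw [hder, Polynomial.eval_mul, Polynomial.eval_C, norm_mul, mul_pow, hr, Polynomial.eval_prod,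
      norm_prod, ← prod_pow]
    unfold X
    congr 1
    · congr 1
      exact_mod_cast Complex.norm_natCast (k + 1)
    · simp

lemma roots_fin (q : Polynomial ℂ) (hq : q.Monic) : ∃ w : Fin q.natDegree → ℂ,
    ∀ x, q.eval x = ∏ i, (x - w i) := by
  have hs : q.Splits := IsAlgClosed.splits q
  have h1 : q.roots.toList.length = q.natDegree := by
    rw [Multiset.length_toList]; exact hs.natDegree_eq_card_roots.symm
  refine ⟨fun i => q.roots.toList.get (i.cast h1.symm), fun x => ?_⟩
  have h2 : q.eval x = (q.roots.toList.map fun a => x - a).prod := by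
    conv_lhs => rw [hs.eq_prod_roots_of_monic hq]
    rw [Polynomial.eval_multiset_prod, Multiset.map_map, ← Multiset.prod_coe, ← Multiset.map_coe,
      Multiset.coe_toList]
    simp
  rw [h2, ← Fin.prod_univ_fun_getElem]
  exact (Fin.prod_congr' (fun i : Fin q.roots.toList.length => x - q.roots.toList[i.1]) h1.symm).symm

theorem main : ∀ n : ℕ, 1 ≤ n → ∃ C : ℝ, 0 < C ∧ ∀ K : Set ℂ, IsCompact K → K.Nonempty →
      C * (⨅ p : {p : Polynomial ℂ // p.Monic ∧ p.natDegree = n},
            Real.sqrt (∫ z in K, ‖(Polynomial.derivative p.1).eval z‖ ^ 2)) ≤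
        (⨅ m : ℕ,
            (⨅ q : {q : Polynomial ℂ // q.Monic ∧ q.natDegree = m + 1},
                sSup ((fun z => ‖q.1.eval z‖) '' K)) ^ ((1 : ℝ) / ((m : ℝ) + 1))) ^ n := by
  intro n hn
  obtain ⟨k, rfl⟩ : ∃ k, n = k + 1 := ⟨n - 1, by omega⟩
  refine ⟨1 / (8 * ((k : ℝ) + 1) ^ 3), by positivity, fun K hK hne => ?_⟩
  set I := ⨅ p : {p : Polynomial ℂ // p.Monic ∧ p.natDegree = k + 1},
            Real.sqrt (∫ z in K, ‖(Polynomial.derivative p.1).eval z‖ ^ 2) with hI
  have hI0 : 0 ≤ I := Real.iInf_nonneg fun _ => Real.sqrt_nonneg _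
  set a := 1 / (8 * ((k : ℝ) + 1) ^ 3) * I with ha
  have ha0 : 0 ≤ a := by positivity
  set c := a ^ ((1 : ℝ) / ((k : ℝ) + 1)) with hc
  have hc0 : 0 ≤ c := by positivity
  have hcn : c ^ (k + 1) = a := by
    rw [hc, ← Real.rpow_natCast, ← Real.rpow_mul ha0]
    push_cast
    rw [one_div_mul_cancel (by positivity), Real.rpow_one]
  rw [← hcn]
  refine pow_le_pow_left₀ hc0 (le_ciInf fun m => ?_) _
  have key : c ^ (m + 1) ≤ ⨅ q : {q : Polynomial ℂ // q.Monic ∧ q.natDegree = m + 1},
      sSup ((fun z => ‖q.1.eval z‖) '' K) := by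
    haveI : Nonempty {q : Polynomial ℂ // q.Monic ∧ q.natDegree = m + 1} :=
      ⟨⟨Polynomial.X ^ (m + 1), Polynomial.monic_X_pow _, by simp⟩⟩
    refine le_ciInf fun q => ?_
    obtain ⟨q, hq, hqd⟩ := q
    have hbdd : BddAbove ((fun z => ‖q.eval z‖) '' K) :=
      (hK.image (by fun_prop)).bddAbove
    have hM : ∀ z ∈ K, ‖q.eval z‖ ≤ sSup ((fun z => ‖q.eval z‖) '' K) :=
      fun z hz => le_csSup hbdd ⟨z, hz, rfl⟩
    have hM0 : 0 ≤ sSup ((fun z => ‖q.eval z‖) '' K) := by
      obtain ⟨z, hz⟩ := hne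
      exact (norm_nonneg _).trans (hM z hz)
    rcases hI0.eq_or_lt with h0 | hIpos
    · have : c = 0 := by
        have : c ^ (k + 1) = 0 := by rw [hcn, ha, ← h0, mul_zero]
        exact pow_eq_zero_iff (by omega) |>.mp this
      rw [this, zero_pow (by omega)]
      exact hM0
    by_contra hlt
    push Not at hlt
    obtain ⟨w, hw⟩ := roots_fin q hq
    have hh : ∀ y : Fin k → ℂ, ENNReal.ofReal ((I / ((k : ℝ) + 1)) ^ 2) ≤
        ∫⁻ x in K, ENNReal.ofReal (X x y) := by
      intro y
      obtain ⟨p, hp, hpd, hpx⟩ := exists_anti k y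
      have h1 : I ≤ Real.sqrt (∫ z in K, ‖(Polynomial.derivative p).eval z‖ ^ 2) :=
        ciInf_le (f := fun p : {p : Polynomial ℂ // p.Monic ∧ p.natDegree = k + 1} =>
          Real.sqrt (∫ z in K, ‖(Polynomial.derivative p.1).eval z‖ ^ 2))
          ⟨0, by rintro _ ⟨_, rfl⟩; exact Real.sqrt_nonneg _⟩ ⟨p, hp, hpd⟩
      simp only [hpx] at h1
      rw [integral_const_mul] at h1
      have hnn : 0 ≤ ∫ z in K, X z y := integral_nonneg fun z => X_nonneg _ _
      have h2 : I ^ 2 ≤ ((k : ℝ) + 1) ^ 2 * ∫ z in K, X z y := by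
        rw [← Real.sq_sqrt (x := ((k : ℝ) + 1) ^ 2 * ∫ z in K, X z y) (by positivity)]
        exact pow_le_pow_left₀ hI0 h1 2
      have hint : IntegrableOn (fun z => X z y) K :=
        (X_cont.comp (Continuous.prodMk_left y)).continuousOn.integrableOn_compact hK
      rw [← ofReal_integral_eq_lintegral_ofReal hint (Filter.Eventually.of_forall fun z => X_nonneg _ _)]
      refine ENNReal.ofReal_le_ofReal ?_
      rw [div_pow, div_le_iff₀ (by positivity)]
      linarith
    have hcore := core K hK k _ (by positivity) hh q.natDegree (by omega) w (a ^ 2) (by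
      intro z hz
      have h1 : ∏ i, X (w i) z = ∏ j, ‖q.eval (z j)‖ ^ 2 := by
        unfold X
        rw [prod_comm]
        refine prod_congr rfl fun j _ => ?_
        rw [hw, norm_prod, ← prod_pow]
        exact prod_congr rfl fun i _ => by rw [norm_sub_rev]
      rw [h1]
      calc ∏ j, ‖q.eval (z j)‖ ^ 2 ≤ ∏ _j : Fin (k + 1), (c ^ (m + 1)) ^ 2 :=
            prod_le_prod (fun _ _ => by positivity) fun j _ =>
              pow_le_pow_left₀ (norm_nonneg _) ((hM _ (hz j)).trans hlt.le) 2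
        _ = _ := by
            rw [prod_const, card_univ, Fintype.card_fin, ← hcn, hqd]
            ring)
    rcases hcore with h1 | h1
    · apply h1
      rw [ha]
      have hk1 : (1 : ℝ) ≤ (k : ℝ) + 1 := by have := Nat.cast_nonneg (α := ℝ) k; linarith
      have hpi := Real.pi_lt_four
      have hpi0 := Real.pi_pos
      rw [show (1 / (8 * ((k : ℝ) + 1) ^ 3) * I) ^ 2 = I ^ 2 / (64 * ((k : ℝ) + 1) ^ 6) by
          field_simp; norm_num,
        show (I / ((k : ℝ) + 1)) ^ 2 / (((k : ℝ) + 1) ^ 3 * Real.pi) / 16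
          = I ^ 2 / (16 * Real.pi * ((k : ℝ) + 1) ^ 5) by field_simp]
      refine div_le_div_of_nonneg_left (by positivity) (by positivity) ?_
      have h5 : 0 < ((k : ℝ) + 1) ^ 5 := by positivity
      nlinarith
    · exact absurd h1 (not_lt.mpr (by positivity))
  have h3 := Real.rpow_le_rpow (by positivity) key
    (show (0 : ℝ) ≤ (1 : ℝ) / ((m : ℝ) + 1) by positivity)
  rw [← Real.rpow_natCast, ← Real.rpow_mul hc0] at h3
  push_cast at h3
  rwa [mul_one_div_cancel (by positivity), Real.rpow_one] at h3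

end Pool.Agent.H29.Cap
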