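import Mathlib

set_option autoImplicit false

namespace Pool.Agent.H29.Center

open Set Filter Topology

theorem conv_aux (K : Set ℝ) (hmid : ∀ u v, u ∉ K → v ∉ K → |u - v| ≤ 2 → (u + v) / 2 ∉ K)
    (ε : ℝ) (hε : 0 < ε) (n : ℕ) :
    ∀ u v : ℝ, (∀ s, |s| < ε → u + s ∉ K) → (∀ s, |s| < ε → v + s ∉ K) → v - u ≤ 2 →
      v - u ≤ 2 ^ n * ε → ∀ w, u ≤ w → w ≤ v → w ∉ K := by
  induction n with
  | zero =>
    intro u v hu hv _ h2 w h3 h4
    rcases h4.eq_or_lt with h | h
    · have := hv 0 (by simpa using hε)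
      simpa [h] using this
    · have := hu (w - u) (by rw [abs_of_nonneg (by linarith)]; simp at h2; linarith)
      simpa using this
  | succ n ih =>
    intro u v hu hv h1 h2 w h3 h4
    have hm : ∀ s, |s| < ε → (u + v) / 2 + s ∉ K := by
      intro s hs
      have := hmid (u + s) (v + s) (hu s hs) (hv s hs) (by
        rw [abs_le]; constructor <;> linarith)
      convert this using 2
      ring
    rw [pow_succ] at h2
    rcases le_total w ((u + v) / 2) with h | h
    · exact ih u _ hu hm (by linarith) (by linarith) w h3 h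
    · exact ih _ v hm hv (by linarith) (by linarith) w h h4

theorem conv (K : Set ℝ) (hK : IsClosed K)
    (hmid : ∀ u v, u ∉ K → v ∉ K → |u - v| ≤ 2 → (u + v) / 2 ∉ K)
    (u v w : ℝ) (hu : u ∉ K) (hv : v ∉ K) (h : v - u ≤ 2) (h1 : u ≤ w) (h2 : w ≤ v) : w ∉ K := by
  obtain ⟨e1, he1, h3⟩ := Metric.isOpen_iff.mp hK.isOpen_compl u hu
  obtain ⟨e2, he2, h4⟩ := Metric.isOpen_iff.mp hK.isOpen_compl v hv
  have hε : 0 < min e1 e2 := lt_min he1 he2
  obtain ⟨n, hn⟩ := pow_unbounded_of_one_lt (2 / min e1 e2) (by norm_num : (1 : ℝ) < 2)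
  rw [div_lt_iff₀ hε] at hn
  refine conv_aux K hmid _ hε n u v ?_ ?_ h (by linarith) w h1 h2
  · intro s hs
    apply h3
    simp only [Metric.mem_ball, dist_self_add_left, Real.norm_eq_abs]
    exact hs.trans_le (min_le_left _ _)
  · intro s hs
    apply h4
    simp only [Metric.mem_ball, dist_self_add_left, Real.norm_eq_abs]
    exact hs.trans_le (min_le_right _ _)

theorem conv' (K : Set ℝ) (hK : IsClosed K)
    (hmid : ∀ u v, u ∉ K → v ∉ K → |u - v| ≤ 2 → (u + v) / 2 ∉ K)
    (u v t : ℝ) (hu : u ∉ K) (hv : v ∉ K) (h : |u - v| ≤ 2) (h1 : 0 ≤ t) (h2 : t ≤ 1) :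
    u + t * (v - u) ∉ K := by
  rw [abs_le] at h
  rcases le_total u v with h3 | h3
  · exact conv K hK hmid u v _ hu hv (by linarith) (by nlinarith) (by nlinarith)
  · exact conv K hK hmid v u _ hv hu (by linarith) (by nlinarith) (by nlinarith)

/-- the compact set that is not a center of distances -/
def C0 : Set ℝ := Icc 0 1 ∪ insert 2 (range fun n : ℕ => (2 : ℝ) + 1 / ((n : ℝ) + 1))

theorem C0_compact : IsCompact C0 := by
  refine isCompact_Icc.union ?_
  apply Filter.Tendsto.isCompact_insert_range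
  have := tendsto_one_div_add_atTop_nhds_zero_nat (𝕜 := ℝ)
  simpa using this.const_add 2

theorem not_center (K : Set ℝ) (hK : IsCompact K) :
    {α : ℝ | 0 ≤ α ∧ ∀ x ∈ K, ∃ y ∈ K, |x - y| = α} ≠ C0 := by
  intro hC
  have hin : ∀ c ∈ C0, ∀ x, x + c ∉ K → x - c ∉ K → x ∉ K := by
    intro c hc x h1 h2 hx
    rw [← hC] at hc
    obtain ⟨y, hy, hxy⟩ := hc.2 x hx
    rcases abs_eq hc.1 |>.mp hxy with h | h
    · exact h2 (by rw [← h]; simpa using hy)
    · exact h1 (by
        have : x + c = y := by linarith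
        rwa [this])
  have hmid : ∀ u v, u ∉ K → v ∉ K → |u - v| ≤ 2 → (u + v) / 2 ∉ K := by
    intro u v hu hv h
    rw [abs_le] at h
    rcases le_total u v with h3 | h3
    · refine hin ((v - u) / 2) (Or.inl ⟨by linarith, by linarith⟩) _ ?_ ?_
      · convert hv using 2; ring
      · convert hu using 2; ring
    · refine hin ((u - v) / 2) (Or.inl ⟨by linarith, by linarith⟩) _ ?_ ?_
      · convert hu using 2; ring
      · convert hv using 2; ring
  let d : ℕ → ℝ := fun n => 2 + 1 / ((n : ℝ) + 3 / 2)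
  have hd2 : ∀ n, 2 < d n := fun n => by
    have : 0 < 1 / ((n : ℝ) + 3 / 2) := by positivity
    simp only [d]; linarith
  have hd3 : ∀ n, d n < 3 := fun n => by
    have : 1 / ((n : ℝ) + 3 / 2) < 1 := by
      rw [div_lt_one (by positivity)]
      have : (0 : ℝ) ≤ n := Nat.cast_nonneg n
      linarith
    simp only [d]; linarith
  have hdC : ∀ n, d n ∉ C0 := by
    intro n hn
    rcases hn with hn | hn | ⟨m, hm⟩
    · linarith [hn.2, hd2 n]
    · linarith [hd2 n]
    · simp only [d, add_right_inj] at hm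
      rw [one_div, one_div, inv_inj] at hm
      have : ((2 * m : ℕ) : ℝ) = ((2 * n + 1 : ℕ) : ℝ) := by push_cast; linarith
      have := Nat.cast_injective this
      omega
  have hx : ∀ n, ∃ x ∈ K, x + d n ∉ K ∧ x - d n ∉ K := by
    intro n
    have := hdC n
    rw [← hC] at this
    simp only [mem_ofPred_eq, not_and, not_forall] at this
    obtain ⟨x, hx, h⟩ := this (by linarith [hd2 n])
    refine ⟨x, hx, fun h1 => h ⟨_, h1, ?_⟩, fun h1 => h ⟨_, h1, ?_⟩⟩
    · simp; linarith [hd2 n]
    · simp; linarith [hd2 n]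
  choose x hxK hx1 hx2 using hx
  have hbetween : ∀ n m, n < m → |x n - x m| ≤ 1 / 2 →
      ∃ u ∉ K, min (x n) (x m) ≤ u ∧ u ≤ max (x n) (x m) := by
    intro n m hnm hdist
    let c : ℝ := 2 + 1 / (((n + 1 : ℕ) : ℝ) + 1)
    have hc : c ∈ C0 := Or.inr (Or.inr ⟨n + 1, rfl⟩)
    have hnm' : (n : ℝ) + 1 ≤ m := by exact_mod_cast hnm
    have hn0 : (0 : ℝ) ≤ n := Nat.cast_nonneg n
    have h1 : d m < c := by
      simp only [d, c, add_lt_add_iff_left]
      apply one_div_lt_one_div_of_lt (by positivity)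
      push_cast; linarith
    have h2 : c < d n := by
      simp only [d, c, add_lt_add_iff_left]
      apply one_div_lt_one_div_of_lt (by positivity)
      push_cast; linarith
    let t : ℝ := (c - d m) / (d n - d m)
    have ht0 : 0 ≤ t := div_nonneg (by linarith) (by linarith)
    have ht1 : t ≤ 1 := by
      rw [div_le_one (by linarith)]; linarith
    have htc : t * (d n - d m) = c - d m := div_mul_cancel₀ _ (by linarith)
    rw [abs_le] at hdist
    have a1 := hd2 n
    have a2 := hd3 n
    have a3 := hd2 m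
    have a4 := hd3 m
    refine ⟨x m + t * (x n - x m), hin c hc _ ?_ ?_, ?_, ?_⟩
    · have := conv' K hK.isClosed hmid _ _ t (hx1 m) (hx1 n)
        (by rw [abs_le]; constructor <;> linarith) ht0 ht1
      convert this using 2
      linarith
    · have := conv' K hK.isClosed hmid _ _ t (hx2 m) (hx2 n)
        (by rw [abs_le]; constructor <;> linarith) ht0 ht1
      convert this using 2
      linarith
    · rcases le_total (x n) (x m) with h | h
      · rw [min_eq_left h]; nlinarith
      · rw [min_eq_right h]; nlinarith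
    · rcases le_total (x n) (x m) with h | h
      · rw [max_eq_right h]; nlinarith
      · rw [max_eq_left h]; nlinarith
  obtain ⟨x0, _, φ, hφ, hlim⟩ := hK.tendsto_subseq hxK
  obtain ⟨N, hN⟩ := Metric.tendsto_atTop.mp hlim (1 / 4) (by norm_num)
  have hb : ∀ i, N ≤ i → x0 - 1 / 4 < x (φ i) ∧ x (φ i) < x0 + 1 / 4 := by
    intro i hi
    have := hN i hi
    rw [Real.dist_eq, abs_lt] at this
    simp only [Function.comp] at this
    constructor <;> linarith [this.1, this.2]
  have b0 := hb N le_rfl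
  have b1 := hb (N + 1) (by omega)
  have b2 := hb (N + 2) (by omega)
  obtain ⟨u01, k01, l01, r01⟩ := hbetween (φ N) (φ (N + 1)) (hφ (by omega))
    (by rw [abs_le]; constructor <;> linarith [b0.1, b0.2, b1.1, b1.2])
  obtain ⟨u02, k02, l02, r02⟩ := hbetween (φ N) (φ (N + 2)) (hφ (by omega))
    (by rw [abs_le]; constructor <;> linarith [b0.1, b0.2, b2.1, b2.2])
  obtain ⟨u12, k12, l12, r12⟩ := hbetween (φ (N + 1)) (φ (N + 2)) (hφ (by omega))
    (by rw [abs_le]; constructor <;> linarith [b1.1, b1.2, b2.1, b2.2])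
  have m0 := hxK (φ N)
  have m1 := hxK (φ (N + 1))
  have m2 := hxK (φ (N + 2))
  generalize x (φ N) = p at *
  generalize x (φ (N + 1)) = q at *
  generalize x (φ (N + 2)) = r at *
  have cv := conv K hK.isClosed hmid
  rcases le_total p q with h1 | h1 <;> rcases le_total q r with h2 | h2 <;>
    rcases le_total p r with h3 | h3 <;>
    simp only [min_eq_left, min_eq_right, max_eq_left, max_eq_right, h1, h2, h3] at l01 r01 l02 r02 l12 r12
  · exact cv u01 u12 q k01 k12 (by linarith) r01 l12 m1
  · exact cv u01 u12 q k01 k12 (by linarith) (by linarith) (by linarith) m1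
  · exact cv u02 u12 r k02 k12 (by linarith) (by linarith) (by linarith) m2
  · exact cv u02 u01 p k02 k01 (by linarith) (by linarith) (by linarith) m0
  · exact cv u01 u02 p k01 k02 (by linarith) (by linarith) (by linarith) m0
  · exact cv u12 u02 r k12 k02 (by linarith) (by linarith) (by linarith) m2
  · exact cv u12 u01 q k12 k01 (by linarith) (by linarith) (by linarith) m1
  · exact cv u12 u01 q k12 k01 (by linarith) (by linarith) (by linarith) m1

end Pool.Agent.H29.Center
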