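import Mathlib

open Real Set Filter Topology
open scoped ContDiff

namespace Pool.Agent.H29.Circ

lemma per_int {f : ℝ → ℝ} (hp : ∀ x, f (x + 1) = f x + 1) (x : ℝ) (n : ℤ) :
    f (x + n) = f x + n := by
  have h : Function.Periodic (fun x => f x - x) 1 := fun x => by simp only [hp]; ring
  have := h.int_mul n x
  simp only [mul_one] at this
  linarith

lemma surj {f : ℝ → ℝ} (hc : Continuous f) (hp : ∀ x, f (x + 1) = f x + 1) :
    Function.Surjective f := fun p => by
  have h1 := per_int hp 0 ⌊p - f 0⌋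
  have h2 := per_int hp 0 (⌊p - f 0⌋ + 1)
  refine intermediate_value_univ ((0:ℝ) + (⌊p - f 0⌋ : ℤ)) ((0:ℝ) + ((⌊p - f 0⌋ + 1 : ℤ) : ℝ)) hc ⟨?_, ?_⟩
  · linarith [Int.floor_le (p - f 0)]
  · rw [h2]; push_cast; linarith [Int.lt_floor_add_one (p - f 0)]

/-- a two-step obstruction to smooth invariant graphs -/
lemma conv {W R : ℝ → ℝ} (hW : ContDiff ℝ 1 W) (hR : ContDiff ℝ 1 R)
    (pW : ∀ x, W (x + 1) = W x) (pR : ∀ x, R (x + 1) = R x)
    (hi : ∀ x, R (x + (R x + W x)) = R x + W x) (p : ℝ) :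
    0 < 2 + deriv W p ∧ ∃ y z, y + z = 2 * p + W p ∧ 1 < (2 + deriv W y) * (2 + deriv W p) ∧
      1 < (2 + deriv W z) * (2 + deriv W p) := by
  have dW : ∀ x, HasDerivAt W (deriv W x) x := fun x =>
    (hW.differentiable one_ne_zero x).hasDerivAt
  have dR : ∀ x, HasDerivAt R (deriv R x) x := fun x =>
    (hR.differentiable one_ne_zero x).hasDerivAt
  let g : ℝ → ℝ := fun x => x + (R x + W x)
  have dg : ∀ x, HasDerivAt g (1 + (deriv R x + deriv W x)) x := fun x =>
    (hasDerivAt_id x).add ((dR x).add (dW x))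
  have ch : ∀ x, (1 - deriv R (g x)) * (1 + (deriv R x + deriv W x)) = 1 := by
    intro x
    have h1 := ((hasDerivAt_id (g x)).sub (dR (g x))).comp x (dg x)
    have h2 : ((id - R) ∘ g) = id := funext fun x => by simp [g, hi]
    rw [h2] at h1
    exact h1.unique (hasDerivAt_id x)
  have cg : Continuous fun x => 1 + (deriv R x + deriv W x) :=
    continuous_const.add ((hR.continuous_deriv le_rfl).add (hW.continuous_deriv le_rfl))
  have gp : ∀ x, g (x + 1) = g x + 1 := fun x => by simp only [g, pW, pR]; ring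
  have gc : Continuous g := continuous_iff_continuousAt.2 fun x => (dg x).continuousAt
  have pos : ∀ x, 0 < 1 + (deriv R x + deriv W x) := by
    obtain ⟨ξ, -, hξ⟩ := exists_hasDerivAt_eq_slope g _ zero_lt_one gc.continuousOn
      fun x _ => dg x
    have := gp 0
    rw [zero_add] at this
    rw [this] at hξ
    intro x
    by_contra hx
    obtain ⟨t, ht⟩ := intermediate_value_univ x ξ cg (show (0:ℝ) ∈ Icc _ _ from
      ⟨not_lt.1 hx, by simp only [hξ]; norm_num⟩)
    have := ch t
    simp only at ht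
    rw [ht] at this
    simp at this
  have kp : ∀ x, 0 < 1 - deriv R x := fun x => by
    obtain ⟨t, rfl⟩ := surj gc gp x
    exact pos_of_mul_pos_left (by rw [ch]; exact one_pos) (pos t).le
  obtain ⟨z, hz⟩ := surj gc gp p
  refine ⟨by linarith [pos p, kp p], g p, z, ?_, ?_, ?_⟩
  · have := hi z
    simp only [g] at hz ⊢
    rw [hz] at this
    linarith
  · nlinarith [ch p, mul_pos (pos p) (pos (g p)), mul_pos (kp p) (kp (g p)),
      mul_pos (kp p) (pos (g p))]
  · have := ch z
    rw [hz] at this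
    nlinarith [mul_pos (pos p) (pos z), mul_pos (kp z) (kp p), mul_pos (pos p) (kp z)]

lemma exH : ∃ h φ : ℝ → ℝ, ContDiff ℝ ω h ∧ (∀ x, HasDerivAt h (φ x) x) ∧
    (∀ x, h (-x) = -h x) ∧ (∀ x, h (x + 1) = h x + 1) ∧ (∀ x, |h x - x| ≤ 1 / 20) ∧
    (∀ x, 9 / 10 ≤ φ x) ∧ (∀ x : ℝ, (∀ n : ℤ, 1 / 1000 ≤ |x - n|) → φ x ≤ 1) ∧
    ∃ a, 0 ≤ a ∧ a ≤ 1 / 1000 ∧ 8 ≤ φ a ∧ h a = a + 1 / 40 := by
  have p3 := pi_gt_three
  have p4 := pi_le_four
  set t : ℝ := 2 * π * (1 / 1000000) with ht
  have t0 : 0 < t := by positivity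
  have t1 : t ≤ 8 / 1000000 := by linarith
  have s0 : 0 < sin t := sin_pos_of_pos_of_lt_pi t0 (by linarith)
  have s1 : sin t ≤ t := sin_le t0.le
  have k0 : 1 - t ^ 2 / 2 ≤ cos t := one_sub_sq_div_two_le_cos
  have k1 : 1 / 2 ≤ cos t := by nlinarith
  have sk := sin_sq_add_cos_sq t
  have k2 := cos_le_one t
  have g1 : 1 < sin t + cos t := by nlinarith
  set r := (sin t + cos t)⁻¹ with hr
  have r0 : 0 < r := by positivity
  have r1 : r < 1 := inv_lt_one_of_one_lt₀ g1
  have r2 : r * (sin t + cos t) = 1 := inv_mul_cancel₀ (by linarith)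
  have r3 : 1 - t ≤ r := by nlinarith
  clear_value r
  have hD : ∀ s, 0 < 1 - r * cos s := fun s => by nlinarith [cos_le_one s]
  have hQ : ∀ s, 0 < 1 - 2 * r * cos s + r ^ 2 := fun s => by nlinarith [cos_le_one s]
  refine ⟨fun x => x + 1 / (10 * π) * arctan (r * sin (2 * π * x) / (1 - r * cos (2 * π * x))),
    fun x => 1 + 1 / 5 * ((r * cos (2 * π * x) - r ^ 2) / (1 - 2 * r * cos (2 * π * x) + r ^ 2)),
    ?_, fun x => ?_, fun x => ?_, fun x => ?_, fun x => ?_, fun x => ?_, fun x hx => ?_,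
    1 / 1000000, by norm_num, by norm_num, ?_, ?_⟩
  · refine contDiff_id.add (contDiff_const.mul (contDiff_arctan.comp (ContDiff.div ?_ ?_ fun x =>
      (hD _).ne')))
    · fun_prop
    · fun_prop
  · have d0 : HasDerivAt (fun x => 2 * π * x) (2 * π) x := by
      simpa using (hasDerivAt_id x).const_mul (2 * π)
    have d2 := (hasDerivAt_id x).add (((d0.sin.const_mul r).fun_div ((d0.cos.const_mul r).const_sub 1)
      (hD _).ne').arctan.const_mul (1 / (10 * π)))
    refine d2.congr_deriv ?_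
    have e := sin_sq_add_cos_sq (2 * π * x)
    have q1 := (hD (2 * π * x)).ne'
    have q2 := (hQ (2 * π * x)).ne'
    beta_reduce
    clear d2
    generalize sin (2 * π * x) = S at *
    generalize cos (2 * π * x) = K at *
    have q3 : (1 - r * K) ^ 2 + (r * S) ^ 2 = 1 - 2 * r * K + r ^ 2 := by
      linear_combination r ^ 2 * e
    have q4 : 1 + (r * S / (1 - r * K)) ^ 2 = (1 - 2 * r * K + r ^ 2) / (1 - r * K) ^ 2 := by
      rw [← q3]; field_simp
    have q5 : r * (K * (2 * π)) * (1 - r * K) - r * S * -(r * (-S * (2 * π))) =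
        2 * π * (r * K - r ^ 2) := by linear_combination (-2 * π * r ^ 2) * e
    rw [q4, q5]
    generalize 1 - 2 * r * K + r ^ 2 = Q at *
    generalize 1 - r * K = D at *
    field_simp
    ring
  · simp only [mul_neg, sin_neg, cos_neg, neg_div, arctan_neg]; ring
  · simp only [mul_add, mul_one, sin_add_two_pi, cos_add_two_pi]; ring
  · have a1 := arctan_lt_pi_div_two (r * sin (2 * π * x) / (1 - r * cos (2 * π * x)))
    have a2 := neg_pi_div_two_lt_arctan (r * sin (2 * π * x) / (1 - r * cos (2 * π * x)))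
    simp only [add_sub_cancel_left]
    rw [one_div_mul_eq_div, abs_le, le_div_iff₀ (by positivity), div_le_iff₀ (by positivity)]
    constructor <;> linarith
  · have : -(1 / 2) ≤ (r * cos (2 * π * x) - r ^ 2) / (1 - 2 * r * cos (2 * π * x) + r ^ 2) := by
      rw [le_div_iff₀ (hQ _)]; nlinarith
    simp only; linarith
  · have h1 := hx (round x)
    have h2 := abs_sub_round x
    have h3 : cos (2 * π * x) = cos (2 * π * (x - round x)) := by
      rw [← cos_sub_int_mul_two_pi _ (round x)]; congr 1; ring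
    have h4 := cos_le_one_sub_mul_cos_sq (x := 2 * π * (x - round x)) (by
      rw [abs_mul, abs_of_pos (by positivity : 0 < 2 * π)]; nlinarith)
    have h5 : 2 / π ^ 2 * (2 * π * (x - round x)) ^ 2 = 8 * |x - round x| ^ 2 := by
      rw [sq_abs]; field_simp; ring
    have h6 : cos (2 * π * x) ≤ r := by nlinarith
    have : (r * cos (2 * π * x) - r ^ 2) / (1 - 2 * r * cos (2 * π * x) + r ^ 2) ≤ 0 :=
      div_nonpos_of_nonpos_of_nonneg (by nlinarith) (hQ _).le
    simp only; linarith
  · have : 35 ≤ (r * cos t - r ^ 2) / (1 - 2 * r * cos t + r ^ 2) := by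
      have e1 : 1 - 2 * r * cos t + r ^ 2 = 2 * (r * sin t) ^ 2 := by
        have : r * sin t = 1 - r * cos t := by linarith
        have h2 : (r * sin t) ^ 2 + (r * cos t) ^ 2 = r ^ 2 := by linear_combination r ^ 2 * sk
        rw [this] at h2 ⊢
        linarith
      have e2 : r * cos t - r ^ 2 = r ^ 2 * sin t * (cos t - sin t) := by
        have : r * cos t = r * cos t * (r * (sin t + cos t)) := by rw [r2, mul_one]
        rw [this]
        linear_combination r ^ 2 * sk
      rw [le_div_iff₀ (hQ _), e1, e2]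
      have : 0 < r ^ 2 * sin t := by positivity
      nlinarith
    simp only [← ht]; linarith
  · simp only [← ht]
    rw [show 1 - r * cos t = r * sin t by linarith, div_self (by positivity), arctan_one]
    field_simp; norm_num

end Pool.Agent.H29.Circ
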