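import Mathlib

set_option autoImplicit false

namespace Pool.Agent.H29.Comp

open Function Set Filter Topology

abbrev Om := ℤ → ℕ

def sh (k : ℤ) (x : Om) : Om := fun i => x (i + k)

lemma sh_cont (k : ℤ) : Continuous (sh k) := by unfold sh; fun_prop

lemma sh_sh (s t : ℤ) (x : Om) : sh s (sh t x) = sh (s + t) x := by
  funext i
  simp only [sh, add_assoc]

lemma sh_zero (x : Om) : sh 0 x = x := by funext i; simp [sh]

lemma iter_eq (j : ℕ) (x : Om) : (fun (z : Om) (m : ℤ) => z (m + 1))^[j] x = sh j x := by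
  induction j with
  | zero => simp [sh_zero]
  | succ j ih =>
    rw [Function.iterate_succ_apply', ih]
    funext i
    simp only [sh]
    push_cast
    rw [add_assoc, add_comm 1]

def per (l : List Bool) : Om := fun i => if l.getD (i % l.length).toNat false then 1 else 0

def en (p : ℕ) : List Bool := (Encodable.decode (α := List Bool) p.unpair.1).getD []

lemma en_inf (l : List Bool) (N : ℕ) : ∃ p ≥ N, en p = l :=
  ⟨Nat.pair (Encodable.encode l) N, Nat.right_le_pair _ _, by simp [en]⟩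

lemma per_lt (l : List Bool) (i : ℤ) : per l i < 2 := by unfold per; split_ifs <;> norm_num

def xp (p : ℕ) : Om := fun i => if (p : ℤ) ∣ i then 2 else per (en p) (i % p)

lemma xp_two {p : ℕ} {i : ℤ} : xp p i = 2 ↔ (p : ℤ) ∣ i := by
  have := per_lt (en p) (i % p)
  unfold xp
  split_ifs with h <;> simp [h]
  omega

lemma xp_per (p : ℕ) (i t : ℤ) : xp p (i + p * t) = xp p i := by
  simp only [xp, Int.add_mul_emod_self_left, dvd_add_left (dvd_mul_right (p : ℤ) t)]

def O (p : ℕ) : Set Om := range fun j => sh j (xp p)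

lemma O_fin {p : ℕ} (hp : 0 < p) : O p ⊆ (fun j : ℕ => sh j (xp p)) '' (Finset.range p : Set ℕ) := by
  rintro _ ⟨j, rfl⟩
  have h0 : (0 : ℤ) < p := by exact_mod_cast hp
  have a1 := Int.emod_nonneg j h0.ne'
  have a2 := Int.emod_lt_of_pos j h0
  refine ⟨(j % p).toNat, by simp only [Finset.coe_range, mem_Iio]; omega, funext fun i => ?_⟩
  simp only [sh]
  rw [Int.toNat_of_nonneg a1, ← xp_per p _ (j / p), add_assoc, Int.emod_add_mul_ediv]

def D : Set Om := {x | ∀ i, x i < 2} ∪ ⋃ p > 0, O p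

def pi (x : Om) : Om := fun i => if x i = 2 then 1 else 0

lemma pi_cont : Continuous pi := continuous_pi fun i =>
  (continuous_of_discreteTopology (f := fun a : ℕ => if a = 2 then 1 else 0)).comp
    (continuous_apply i)

def XX : Set Om := closure D

lemma sh_mem (t : ℤ) {x : Om} (hx : x ∈ XX) : sh t x ∈ XX := by
  refine map_mem_closure (sh_cont t) hx ?_
  rintro y (hy | hy)
  · exact Or.inl fun i => hy _
  · simp only [mem_iUnion] at hy
    obtain ⟨p, hp, j, rfl⟩ := hy
    exact Or.inr (mem_iUnion₂.2 ⟨p, hp, t + j, (sh_sh _ _ _).symm⟩)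

lemma X_lt {x : Om} (hx : x ∈ XX) (i : ℤ) : x i < 3 := by
  refine closure_minimal (t := {x : Om | x i < 3}) ?_
    ((isClosed_discrete {a : ℕ | a < 3}).preimage (f := fun x : Om => x i) (by fun_prop)) hx
  rintro y (hy | hy)
  · exact (hy i).trans (by norm_num)
  · simp only [mem_iUnion] at hy
    obtain ⟨p, hp, j, rfl⟩ := hy
    have := per_lt (en p) ((i + j) % p)
    simp only [mem_setOf_eq, sh, xp]
    split_ifs <;> omega

lemma X_compact : IsCompact XX :=
  (isCompact_univ_pi fun _ : ℤ => (Set.finite_Iio 3).isCompact).of_isClosed_subset isClosed_closure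
    fun _ hx i _ => X_lt hx i

lemma O_sub {p : ℕ} (hp : 0 < p) : O p ⊆ XX := fun _ hx =>
  subset_closure (Or.inr (mem_iUnion₂.2 ⟨p, hp, hx⟩))

def V (p : ℕ) : Set Om := {y | ∃ i : ℤ, y i = 1 ∧ y (i + p) = 1 ∧ ∀ j : Fin p, 0 < j.1 → y (i + j) = 0}

lemma V_open (p : ℕ) : IsOpen (V p) := by
  simp only [V, setOf_exists]
  refine isOpen_iUnion fun i => ?_
  exact (isOpen_discrete {q : ℕ × ℕ × (Fin p → ℕ) | q.1 = 1 ∧ q.2.1 = 1 ∧
    ∀ j : Fin p, 0 < j.1 → q.2.2 j = 0}).preimage
    (f := fun y : Om => (y i, y (i + p), fun j : Fin p => y (i + j))) (by fun_prop)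

lemma V_iff {p : ℕ} (hp : 0 < p) {x : Om} (hx : x ∈ XX) : pi x ∈ V p ↔ x ∈ O p := by
  constructor
  · intro h
    have hF : D ∩ pi ⁻¹' V p ⊆ O p := by
      rintro y ⟨hy | hy, i, a1, a2, a3⟩
      · have := hy i
        simp only [pi] at a1
        split_ifs at a1
        omega
      · simp only [mem_iUnion] at hy
        obtain ⟨q, hq, j, rfl⟩ := hy
        simp only [pi, sh, xp_two, ite_eq_left_iff, zero_ne_one, imp_false, not_not,
          ite_eq_right_iff, one_ne_zero] at a1 a2 a3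
        have h1 : (q : ℤ) ∣ p := by
          have := dvd_sub a2 a1
          rwa [show i + p + j - (i + j) = p by ring] at this
        have h2 : q ≤ p := Nat.le_of_dvd hp (by exact_mod_cast h1)
        have h3 : q = p := by
          by_contra hne
          refine a3 ⟨q, by omega⟩ hq ?_
          have := dvd_add a1 (dvd_refl (q : ℤ))
          rwa [add_right_comm] at this
        exact ⟨j, by rw [h3]⟩
    have hfin : (O p).Finite := ((Finset.finite_toSet _).image _).subset (O_fin hp)
    have := ((V_open p).preimage pi_cont).closure_inter (s := D) ⟨hx, h⟩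
    exact closure_minimal hF hfin.isClosed this
  · rintro ⟨j, rfl⟩
    refine ⟨-j, by simp [pi, sh, xp_two], by simp [pi, sh, xp_two], fun t ht => ?_⟩
    simp only [pi, sh, xp_two, ite_eq_right_iff, one_ne_zero, imp_false]
    rw [show -j + (t : ℕ) + j = (t : ℕ) by ring]
    intro h
    exact absurd (Nat.le_of_dvd ht (by exact_mod_cast h)) (not_le.2 t.2)

lemma loc {F : Om → ℝ} (hF : ContinuousOn F XX) {ε : ℝ} (hε : 0 < ε) :
    ∃ r : ℕ, ∀ x ∈ XX, ∀ y ∈ XX, (∀ t : ℤ, |t| ≤ r → x t = y t) → F x ≤ F y + ε := by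
  have hc : ContinuousOn (fun p : Om × Om => F p.1 - F p.2) (XX ×ˢ XX) :=
    (hF.comp continuousOn_fst fun p hp => hp.1).sub (hF.comp continuousOn_snd fun p hp => hp.2)
  have hK := (X_compact.prod X_compact).of_isClosed_subset
    (hc.preimage_isClosed_of_isClosed (isClosed_closure.prod isClosed_closure)
      (isClosed_Ici (a := ε))) inter_subset_left
  obtain ⟨r, hr⟩ := hK.elim_directed_cover
    (fun r : ℕ => {p : Om × Om | ∃ t : ℤ, |t| ≤ r ∧ p.1 t ≠ p.2 t}) (fun r => by
      simp only [setOf_exists]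
      refine isOpen_iUnion fun t => IsOpen.and isOpen_const ?_
      exact isOpen_ne_fun (by fun_prop) (by fun_prop)) (by
      rintro ⟨x, y⟩ ⟨-, h⟩
      have : x ≠ y := by
        rintro rfl
        simp only [mem_preimage, sub_self, mem_Ici] at h
        linarith
      obtain ⟨t, ht⟩ := Function.ne_iff.1 this
      exact mem_iUnion.2 ⟨t.natAbs, t, by simp, ht⟩)
    (Monotone.directed_le fun a b hab p ⟨t, h1, h2⟩ =>
      ⟨t, h1.trans (by exact_mod_cast hab), h2⟩)
  refine ⟨r, fun x hx y hy h => ?_⟩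
  by_contra hne
  obtain ⟨t, h1, h2⟩ := @hr (x, y) ⟨⟨hx, hy⟩, by
    simp only [mem_preimage, mem_Ici]; linarith⟩
  exact h2 (h t h1)

lemma sum_shift {f : ℤ → ℝ} {p : ℕ} (hf : ∀ i, f (i + p) = f i) (j : ℕ) :
    ∑ i ∈ Finset.range p, f (i + j) = ∑ i ∈ Finset.range p, f i := by
  induction j with
  | zero => simp
  | succ j ih =>
    rw [← ih]
    have h1 := Finset.sum_range_succ (fun i : ℕ => f (i + j)) p
    have h2 := Finset.sum_range_succ' (fun i : ℕ => f (i + j)) p
    have h3 := hf j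
    push_cast at *
    simp only [zero_add, add_comm (p : ℤ)] at h1 h2
    simp only [← add_assoc, add_right_comm _ (j : ℤ) 1]
    linarith

lemma sum_mul {f : ℤ → ℝ} {p : ℕ} (hf : ∀ i, f (i + p) = f i) (j t : ℕ) :
    ∑ i ∈ Finset.range (p * t), f (i + j) = t * ∑ i ∈ Finset.range p, f i := by
  induction t with
  | zero => simp
  | succ t ih =>
    rw [Nat.mul_succ, Finset.sum_range_add, ih, ← sum_shift hf (p * t + j)]
    push_cast
    simp only [add_mul, one_mul, add_left_comm _ _ (j : ℤ), add_assoc, add_comm (j : ℤ)]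

noncomputable def Z (S : Set Om) (f : Om → ℝ) (n : ℕ) : ℝ := ∑ w : Fin n → Fin 3,
  sSup ((fun x : Om => Real.exp (∑ j ∈ Finset.range n, f (sh j x))) ''
    {x : Om | x ∈ S ∧ ∀ i : Fin n, x ((i : ℕ) : ℤ) = ((w i : ℕ))})

lemma term_nonneg (T : Set Om) (g : Om → ℝ) : 0 ≤ sSup ((fun x : Om => Real.exp (g x)) '' T) :=
  Real.sSup_nonneg (by rintro _ ⟨x, -, rfl⟩; exact (Real.exp_pos _).le)

lemma le_term {S : Set Om} {f : Om → ℝ} {B : ℝ} (hB : ∀ x ∈ S, ∀ j : ℕ, f (sh j x) ≤ B) (n : ℕ)
    {P : Om → Prop} {x : Om} (hx : x ∈ S) (hP : P x) :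
    Real.exp (∑ j ∈ Finset.range n, f (sh j x)) ≤
      sSup ((fun x : Om => Real.exp (∑ j ∈ Finset.range n, f (sh j x))) '' {x | x ∈ S ∧ P x}) := by
  refine le_csSup ⟨Real.exp (∑ _j ∈ Finset.range n, B), ?_⟩ ⟨x, ⟨hx, hP⟩, rfl⟩
  rintro _ ⟨y, hy, rfl⟩
  exact Real.exp_le_exp.2 (Finset.sum_le_sum fun j _ => hB y hy.1 j)

lemma stepA {F : Om → ℝ} {B : ℝ} (hB : ∀ x ∈ XX, |F x| ≤ B) {p : ℕ} (hp : 0 < p)
    (h : ∀ φ : Om → ℝ, ContinuousOn φ (pi '' XX) → ∃ L : ℝ,
      Tendsto (fun n : ℕ => Real.log (Z (pi '' XX) φ n) / n) atTop (𝓝 L) ∧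
      Tendsto (fun n : ℕ => Real.log (Z XX (fun x => φ (pi x) + F x) n) / n) atTop (𝓝 L)) :
    0 ≤ ∑ i ∈ Finset.range p, F (sh i (xp p)) := by
  classical
  by_contra hneg
  push Not at hneg
  set A := ∑ i ∈ Finset.range p, F (sh i (xp p)) with hA
  have hx0 : xp p ∈ O p := ⟨0, sh_zero _⟩
  have hB0 : 0 ≤ B := (abs_nonneg _).trans (hB _ (O_sub hp hx0))
  have hp' : (0 : ℝ) < p := by exact_mod_cast hp
  have hl3 : 0 < Real.log 3 := Real.log_pos (by norm_num)
  set M := B + Real.log 3 - A / p with hM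
  have hAp : A / p < 0 := div_neg_of_neg_of_pos hneg hp'
  let φ : Om → ℝ := fun y => if y ∈ V p then 0 else -M
  have hφ : ContinuousOn φ (pi '' XX) := by
    have e : pi '' XX = pi '' O p ∪ (pi '' XX \ V p) := by
      apply Subset.antisymm
      · rintro _ ⟨x, hx, rfl⟩
        by_cases c : pi x ∈ V p
        · exact Or.inl ⟨x, (V_iff hp hx).1 c, rfl⟩
        · exact Or.inr ⟨⟨x, hx, rfl⟩, c⟩
      · exact union_subset (image_mono (O_sub hp)) diff_subset
    rw [e]
    have hfin : (O p).Finite := ((Finset.finite_toSet _).image _).subset (O_fin hp)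
    refine ContinuousOn.union_of_isClosed ((hfin.image _).continuousOn _)
      (continuousOn_const.congr fun y hy => if_neg hy.2) (hfin.image _).isClosed
      ((X_compact.image pi_cont).isClosed.sdiff (V_open p))
  obtain ⟨L, h1, h2⟩ := h φ hφ
  have hL0 : 0 ≤ L := by
    refine ge_of_tendsto' h1 fun n => div_nonneg (Real.log_nonneg ?_) (Nat.cast_nonneg _)
    let w : Fin n → Fin 3 := fun i => ⟨pi (xp p) (i : ℕ), by unfold pi; split_ifs <;> norm_num⟩
    refine le_trans ?_ (Finset.single_le_sum (fun w _ => term_nonneg _ _) (Finset.mem_univ w))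
    refine le_trans ?_ (le_term (B := 0) (x := pi (xp p)) (fun y _ j => ?_) n
      ⟨_, O_sub hp hx0, rfl⟩ fun i => rfl)
    · rw [Finset.sum_eq_zero, Real.exp_zero]
      intro j _
      exact if_pos ((V_iff hp (O_sub hp ⟨j, rfl⟩)).2 ⟨j, rfl⟩)
    · simp only [φ]
      split_ifs <;> linarith
  have hf : ∀ i : ℤ, F (sh (i + p) (xp p)) = F (sh i (xp p)) := by
    intro i
    congr 1
    funext t
    simpa [sh, add_assoc] using xp_per p (t + i) 1
  have hZ : ∀ t : ℕ, Z XX (fun x => φ (pi x) + F x) (p * t) ≤ (1 + p) * Real.exp (t * A) := by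
    intro t
    have hw : ∀ w : Fin (p * t) → Fin 3, sSup ((fun x : Om => Real.exp (∑ j ∈ Finset.range (p * t),
        (φ (pi (sh j x)) + F (sh j x)))) '' {x : Om | x ∈ XX ∧ ∀ i : Fin (p * t),
          x ((i : ℕ) : ℤ) = ((w i : ℕ))}) ≤ Real.exp (t * A) / 3 ^ (p * t) +
          ∑ j ∈ Finset.range p, if ∀ i : Fin (p * t), sh j (xp p) ((i : ℕ) : ℤ) = ((w i : ℕ))
            then Real.exp (t * A) else 0 := by
      intro w
      have n1 : 0 ≤ Real.exp (t * A) / 3 ^ (p * t) := by positivity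
      have n2 : ∀ j ∈ Finset.range p, 0 ≤ (if ∀ i : Fin (p * t),
          sh j (xp p) ((i : ℕ) : ℤ) = ((w i : ℕ)) then Real.exp (t * A) else 0) := by
        intro j _
        split_ifs <;> positivity
      refine Real.sSup_le ?_ (add_nonneg n1 (Finset.sum_nonneg n2))
      rintro _ ⟨x, ⟨hx, hxw⟩, rfl⟩
      by_cases c : x ∈ O p
      · obtain ⟨j, hj, rfl⟩ := O_fin hp c
        refine le_add_of_nonneg_of_le n1 (le_trans ?_ (Finset.single_le_sum n2 hj))
        rw [if_pos hxw, hA, ← sum_mul (f := fun i => F (sh i (xp p))) hf j t]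
        refine le_of_eq (congrArg _ (Finset.sum_congr rfl fun i _ => ?_))
        rw [sh_sh]
        simp only [φ]
        rw [if_pos ((V_iff hp (O_sub hp ⟨_, rfl⟩)).2 ⟨_, rfl⟩), zero_add]
      · refine le_add_of_le_of_nonneg ?_ (Finset.sum_nonneg n2)
        have e : Real.exp (t * A) / 3 ^ (p * t) =
            Real.exp (∑ _j ∈ Finset.range (p * t), (A / p - Real.log 3)) := by
          rw [Finset.sum_const, Finset.card_range, nsmul_eq_mul, mul_sub, Real.exp_sub,
            Real.exp_nat_mul (Real.log 3), Real.exp_log (by norm_num)]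
          congr 2
          push_cast
          field_simp
        rw [e]
        refine Real.exp_le_exp.2 (Finset.sum_le_sum fun j _ => ?_)
        simp only [φ]
        rw [if_neg]
        · linarith [(abs_le.1 (hB _ (sh_mem j hx))).2]
        · rw [V_iff hp (sh_mem j hx)]
          rintro ⟨k, hk⟩
          exact c ⟨-j + k, by simp only at hk ⊢; rw [← sh_sh, hk, sh_sh, neg_add_cancel, sh_zero]⟩
    refine (Finset.sum_le_sum fun w _ => hw w).trans ?_
    rw [Finset.sum_add_distrib, Finset.sum_comm, add_mul]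
    refine add_le_add (le_of_eq ?_) ?_
    · simp only [Finset.sum_const, Finset.card_univ, Fintype.card_fun, Fintype.card_fin,
        nsmul_eq_mul]
      push_cast
      field_simp
    · refine (Finset.sum_le_card_nsmul _ _ (Real.exp (t * A)) fun j _ => ?_).trans (by simp)
      rw [← Finset.sum_filter, Finset.sum_const, nsmul_eq_mul]
      refine mul_le_of_le_one_left (Real.exp_pos _).le ?_
      norm_cast
      refine Finset.card_le_one.2 fun a ha b hb => funext fun i => Fin.ext ?_
      rw [← (Finset.mem_filter.1 ha).2 i, ← (Finset.mem_filter.1 hb).2 i]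
  have hZ0 : ∀ n, 0 < Z XX (fun x => φ (pi x) + F x) n := by
    intro n
    let w : Fin n → Fin 3 := fun i => ⟨xp p (i : ℕ), X_lt (O_sub hp hx0) _⟩
    refine lt_of_lt_of_le ?_ (Finset.single_le_sum (fun w _ => term_nonneg _ _) (Finset.mem_univ w))
    refine lt_of_lt_of_le (Real.exp_pos _) (le_term (f := fun x => φ (pi x) + F x)
      (B := B) (x := xp p) (fun y hy j => ?_) n
      (O_sub hp hx0) fun i => rfl)
    have := (abs_le.1 (hB _ (sh_mem j hy))).2
    simp only [φ]
    split_ifs <;> linarith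
  have h3 := h2.comp (tendsto_id.const_mul_atTop' hp : Tendsto (fun t : ℕ => p * t) atTop atTop)
  have h4 : Tendsto (fun t : ℕ => Real.log (1 + p) / p / t + A / p) atTop (𝓝 (0 + A / p)) :=
    (tendsto_const_div_atTop_nhds_zero_nat _).add_const _
  have := le_of_tendsto_of_tendsto h3 h4 (by
    filter_upwards [eventually_gt_atTop 0] with t ht
    have ht' : (0 : ℝ) < t := by exact_mod_cast ht
    have := Real.log_le_log (hZ0 _) (hZ t)
    rw [Real.log_mul (by positivity) (Real.exp_pos _).ne', Real.log_exp] at this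
    simp only [Function.comp]
    rw [div_le_iff₀ (by push_cast; positivity)]
    refine this.trans (le_of_eq ?_)
    push_cast
    field_simp)
  linarith

lemma per_mem (l : List Bool) : per l ∈ XX := subset_closure (Or.inl (per_lt l))

lemma stepB {F : Om → ℝ} (hF : ContinuousOn F XX) {B : ℝ} (hB : ∀ x ∈ XX, |F x| ≤ B)
    (h : ∀ p > 0, 0 ≤ ∑ i ∈ Finset.range p, F (sh i (xp p))) (l : List Bool) (hl : 0 < l.length) :
    0 ≤ ∑ i ∈ Finset.range l.length, F (sh i (per l)) := by
  by_contra hneg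
  push Not at hneg
  set r := l.length with hr
  set A := ∑ i ∈ Finset.range r, F (sh i (per l)) with hA
  have hr' : (0 : ℝ) < r := by exact_mod_cast hl
  have hB0 : 0 ≤ B := (abs_nonneg _).trans (hB _ (per_mem l))
  obtain ⟨R, hR⟩ := loc hF (ε := -A / (2 * r)) (by apply div_pos <;> linarith)
  obtain ⟨T, hT⟩ := exists_nat_gt ((r * B + (2 * R + 1) * (2 * B) - A) / (-A / 2))
  rw [div_lt_iff₀ (by linarith)] at hT
  obtain ⟨p, hp, he⟩ := en_inf l (r * T + 1)
  have hp0 : 0 < p := by omega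
  have hf : ∀ i : ℤ, F (sh (i + r) (per l)) = F (sh i (per l)) := by
    intro i
    congr 1
    funext t
    simp only [sh, per, ← add_assoc, ← hr, Int.add_emod_right]
  have h1 : ∑ i ∈ Finset.range p, F (sh i (per l)) ≤ (p / r : ℕ) * A + r * B := by
    conv_lhs => rw [← Nat.div_add_mod p r]
    have := sum_mul (f := fun i => F (sh i (per l))) hf 0 (p / r)
    simp only [Nat.cast_zero, add_zero] at this
    rw [Finset.sum_range_add, this]
    refine add_le_add le_rfl ((Finset.sum_le_card_nsmul _ _ B fun i _ =>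
      (abs_le.1 (hB _ (sh_mem _ (per_mem l)))).2).trans ?_)
    rw [Finset.card_range, nsmul_eq_mul]
    exact mul_le_mul_of_nonneg_right (by exact_mod_cast (Nat.mod_lt _ hl).le) hB0
  have h2 : ∀ i ∈ Finset.range p, F (sh i (xp p)) ≤ F (sh i (per l)) + -A / (2 * r) +
      if i ∈ Finset.range (R + 1) ∪ Finset.Ico (p - R) p then 2 * B else 0 := by
    intro i hi
    have m1 := O_sub hp0 ⟨i, rfl⟩
    have m2 := sh_mem i (per_mem l)
    have : 0 < -A / (2 * r) := by apply div_pos <;> linarith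
    split_ifs with c
    · linarith [(abs_le.1 (hB _ m1)).2, (abs_le.1 (hB _ m2)).1]
    · rw [add_zero]
      refine hR _ m1 _ m2 fun t ht => ?_
      simp only [Finset.mem_union, Finset.mem_range, Finset.mem_Ico] at c hi
      rw [abs_le] at ht
      simp only [sh, xp]
      rw [if_neg, he, Int.emod_eq_of_lt (by omega) (by omega)]
      intro hd
      have := Int.le_of_dvd (by omega) hd
      omega
  have h3 := (h p hp0).trans (Finset.sum_le_sum h2)
  rw [Finset.sum_add_distrib, Finset.sum_add_distrib, Finset.sum_const, Finset.card_range,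
    ← Finset.sum_filter, Finset.sum_const, nsmul_eq_mul, nsmul_eq_mul] at h3
  have h4 : (((Finset.range p).filter
      (· ∈ Finset.range (R + 1) ∪ Finset.Ico (p - R) p)).card : ℝ) ≤ 2 * R + 1 := by
    have : ((Finset.range p).filter
        (· ∈ Finset.range (R + 1) ∪ Finset.Ico (p - R) p)).card ≤ 2 * R + 1 := by
      refine (Finset.card_le_card fun i hi => (Finset.mem_filter.1 hi).2).trans
        ((Finset.card_union_le _ _).trans ?_)
      simp only [Finset.card_range, Nat.card_Ico]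
      omega
    exact_mod_cast this
  have h5 : (T : ℝ) ≤ (p / r : ℕ) := by
    exact_mod_cast (Nat.le_div_iff_mul_le hl).2 (by rw [mul_comm]; omega)
  have h6 : (p : ℝ) ≤ r * ((p / r : ℕ) + 1) := by
    have := Nat.div_add_mod p r
    have := Nat.mod_lt p hl
    have : p ≤ r * (p / r + 1) := by rw [mul_add]; omega
    exact_mod_cast this
  have h7 : p * (-A / (2 * r)) ≤ ((p / r : ℕ) + 1) * (-A / 2) := by
    refine (mul_le_mul_of_nonneg_right h6 (by apply div_nonneg <;> linarith)).trans (le_of_eq ?_)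
    field_simp
  have h8 := mul_le_mul_of_nonneg_right h4 (by linarith : 0 ≤ 2 * B)
  nlinarith

lemma words (n : ℕ) {y : Om} (hy : y ∈ pi '' XX) : ∃ q ∈ Finset.range (n + 2) ×ˢ Finset.range (n + 2),
    ∀ i : Fin n, y (i : ℕ) = if (q.1 : ℤ) ∣ (i : ℕ) - q.2 then 1 else 0 := by
  obtain ⟨x, hx, rfl⟩ := hy
  obtain ⟨z, h1, h2⟩ := mem_closure_iff.1 hx {z | ∀ i : Fin n, z (i : ℕ) = x (i : ℕ)}
    ((isOpen_discrete {q : Fin n → ℕ | ∀ i, q i = x (i : ℕ)}).preimage
      (f := fun (z : Om) (i : Fin n) => z (i : ℕ)) (by fun_prop)) (fun _ => rfl)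
  have h3 : ∀ i : Fin n, pi x (i : ℕ) = pi z (i : ℕ) := fun i => by simp only [pi, h1 i]
  simp only [h3]
  by_cases c : ∃ i : Fin n, z (i : ℕ) = 2
  · obtain ⟨i0, hi0⟩ := c
    rcases h2 with h2 | h2
    · have := h2 (i0 : ℕ)
      omega
    simp only [mem_iUnion] at h2
    obtain ⟨p, hp, j, rfl⟩ := h2
    simp only [sh, xp_two, pi] at hi0 ⊢
    have e : ∀ i : Fin n, (p : ℤ) ∣ (i : ℕ) + j ↔ (p : ℤ) ∣ (i : ℕ) - (i0 : ℕ) := fun i => by
      rw [← dvd_sub_left hi0, add_sub_add_right_eq_sub]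
    simp only [e]
    have := i0.2
    by_cases c2 : p ≤ n
    · exact ⟨(p, i0), by simp; omega, fun i => rfl⟩
    · refine ⟨(0, i0), by simp; omega, fun i => ?_⟩
      have := i.2
      congr 1
      simp only [Nat.cast_zero, zero_dvd_iff, eq_iff_iff]
      exact ⟨fun h => Int.eq_zero_of_abs_lt_dvd h (by rw [abs_lt]; omega), fun h => h ▸ dvd_zero _⟩
  · refine ⟨(0, n), by simp, fun i => ?_⟩
    have := i.2
    rw [pi, if_neg (fun h => c ⟨i, h⟩), if_neg]
    simp only [Nat.cast_zero, zero_dvd_iff]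
    omega

lemma sq_le (n : ℕ) : ((n + 20 + 2 : ℕ) : ℝ) ^ 2 ≤ (3 / 2) ^ (n + 20) := by
  induction n with
  | zero => norm_num
  | succ n ih =>
    rw [add_right_comm n 1 20, pow_succ (3 / 2 : ℝ)]
    push_cast at *
    nlinarith [Nat.cast_nonneg (α := ℝ) n]

theorem main : ¬ ∃ F : Om → ℝ, ContinuousOn F XX ∧
    ∀ φ : Om → ℝ, ContinuousOn φ (pi '' XX) → ∃ L : ℝ,
      Tendsto (fun n : ℕ => Real.log (Z (pi '' XX) φ n) / n) atTop (𝓝 L) ∧
      Tendsto (fun n : ℕ => Real.log (Z XX (fun x => φ (pi x) + F x) n) / n) atTop (𝓝 L) := by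
  classical
  rintro ⟨F, hF, h⟩
  obtain ⟨B, hB⟩ := X_compact.exists_bound_of_continuousOn hF
  have hb := stepB hF hB fun p hp => stepA hB hp h
  obtain ⟨L, h1, h2⟩ := h (fun _ => 0) continuousOn_const
  have a1 : Real.log 2 ≤ L := by
    refine ge_of_tendsto h2 ?_
    filter_upwards [eventually_gt_atTop 0] with n hn
    rw [le_div_iff₀ (by exact_mod_cast hn), mul_comm, ← Real.log_pow]
    refine Real.log_le_log (by positivity) ?_
    let e : (Fin n → Bool) ↪ (Fin n → Fin 3) := ⟨fun u i => if u i then 1 else 0, fun u v huv => by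
      funext i
      have := congrFun huv i
      cases hu : u i <;> cases hv : v i <;> simp_all⟩
    refine le_trans ?_ (Finset.sum_le_sum_of_subset_of_nonneg
      (Finset.subset_univ (Finset.univ.map e)) fun w _ _ => term_nonneg _ _)
    rw [Finset.sum_map]
    refine le_trans (by simp) (Finset.card_nsmul_le_sum _ _ 1 fun u _ => ?_)
    refine le_trans ?_ (le_term (f := fun x => 0 + F x) (B := B) (x := per (List.ofFn u))
      (fun y hy j => ?_) n
      (per_mem _) fun i => ?_)
    · have := hb (List.ofFn u) (by simpa using hn)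
      simpa using this
    · simpa using (abs_le.1 (hB _ (sh_mem j hy))).2
    · have : ((i : ℕ) : ℤ) % n = (i : ℕ) := Int.emod_eq_of_lt (by positivity) (by exact_mod_cast i.2)
      simp only [per, List.length_ofFn, this, Int.toNat_natCast, e, Embedding.coeFn_mk]
      cases hu : u i <;> simp [hu]
  have a2 : L ≤ Real.log (3 / 2) := by
    refine le_of_tendsto h1 ?_
    filter_upwards [eventually_ge_atTop 20] with n hn
    obtain ⟨m, rfl⟩ : ∃ m, n = m + 20 := ⟨n - 20, by omega⟩
    set n := m + 20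
    rw [div_le_iff₀ (by positivity), mul_comm, ← Real.log_pow]
    have hZ : Z (pi '' XX) (fun _ => 0) n ≤ (3 / 2) ^ n := by
      let S : Finset (Fin n → Fin 3) := (Finset.range (n + 2) ×ˢ Finset.range (n + 2)).image
        fun q i => if (q.1 : ℤ) ∣ (i : ℕ) - q.2 then 1 else 0
      refine le_trans (Finset.sum_le_sum (g := fun w => if w ∈ S then 1 else 0) fun w _ => ?_) ?_
      · refine Real.sSup_le ?_ (by split_ifs <;> norm_num)
        rintro _ ⟨y, ⟨hy, hw⟩, rfl⟩
        obtain ⟨q, hq, e⟩ := words n hy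
        rw [if_pos]
        · simp
        · refine Finset.mem_image.2 ⟨q, hq, funext fun i => Fin.ext ?_⟩
          rw [← hw i, e i]
          split_ifs <;> rfl
      · refine le_trans ?_ (sq_le m)
        simp only [Finset.sum_ite_mem, Finset.univ_inter, Finset.sum_const, nsmul_eq_mul, mul_one]
        have : S.card ≤ (n + 2) ^ 2 := Finset.card_image_le.trans (by simp [sq])
        exact_mod_cast this
    have hZ0 : 0 ≤ Z (pi '' XX) (fun _ => 0) n := Finset.sum_nonneg fun w _ => term_nonneg _ _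
    rcases hZ0.eq_or_lt with c | c
    · rw [← c, Real.log_zero]
      exact Real.log_nonneg (one_le_pow₀ (by norm_num))
    · exact Real.log_le_log c hZ
  have := Real.log_lt_log (by norm_num : (0 : ℝ) < 3 / 2) (by norm_num : (3 / 2 : ℝ) < 2)
  linarith

lemma pi_sh (t : ℤ) (x : Om) : pi (sh t x) = sh t (pi x) := rfl

end Pool.Agent.H29.Comp
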