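import Pool.Agent.H29.LipR

namespace H29.DL

open H29.LipR

/-- Bounded linear maps from `Lip₀(X)` to the dual of `X`. -/
abbrev Ops (X : Type*) [NormedAddCommGroup X] [NormedSpace ℝ X] :=
  L0 (0 : X) →L[ℝ] StrongDual ℝ X

/-- `P` is the identity on the dual, seen inside `Lip₀(X)`. -/
def IsProj {X : Type*} [NormedAddCommGroup X] [NormedSpace ℝ X] (P : Ops X) : Prop :=
  ∀ (f : L0 (0 : X)) (φ : StrongDual ℝ X), (∀ x, fn f x = φ x) → P f = φ

/-- `P (f ∘ g) = (P f) ∘ g` for all `f`. -/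
def Commutes {X : Type*} [NormedAddCommGroup X] [NormedSpace ℝ X] (P : Ops X) (g : X → X) :
    Prop :=
  ∀ f f' : L0 (0 : X), (∀ x, fn f' x = fn f (g x)) → ∀ x, P f' x = P f (g x)

/-- The equivariant dual lifting property for the group of all surjective linear isometries:
a bounded linear projection of `Lip₀(X)` onto the dual commuting with composition. -/
def IsomDualLifting (X : Type*) [NormedAddCommGroup X] [NormedSpace ℝ X] : Prop :=
  ∃ P : Ops X, IsProj P ∧ ∀ g : X ≃ₗᵢ[ℝ] X, Commutes P g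

variable {X : Type*} [NormedAddCommGroup X] [NormedSpace ℝ X]

def Lc (c : ℝ) (F : X → ℝ) : Prop := F 0 = 0 ∧ ∀ x y, |F x - F y| ≤ c * ‖x - y‖

def DL (X : Type*) [NormedAddCommGroup X] [NormedSpace ℝ X] : Prop :=
  ∃ (R : (X → ℝ) → X →L[ℝ] ℝ) (C : ℝ), 0 ≤ C ∧
    (∀ c d F G, 0 ≤ c → 0 ≤ d → Lc c F → Lc d G → R (F + G) = R F + R G) ∧
    (∀ c F x, 0 ≤ c → Lc c F → |R F x| ≤ C * c * ‖x‖) ∧
    (∀ φ : X →L[ℝ] ℝ, R φ = φ) ∧
    ∀ (g : X ≃ₗᵢ[ℝ] X) c F x, 0 ≤ c → Lc c F → R (F ∘ g) x = R F (g x)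

lemma Lc.mem {c : ℝ} {F : X → ℝ} (hc : 0 ≤ c) (h : Lc c F) : F ∈ lipSub (0 : X) :=
  ⟨h.1, c, hc, fun x y => by rw [dist_eq_norm]; exact h.2 x y⟩

lemma Lc.comp {Y : Type*} [NormedAddCommGroup Y] [NormedSpace ℝ Y] {c : ℝ} {F : X → ℝ}
    (h : Lc c F) (g : Y ≃ₗᵢ[ℝ] X) : Lc c (F ∘ g) :=
  ⟨by simp [h.1], fun x y => by
    have := h.2 (g x) (g y)
    rwa [← map_sub, g.norm_map] at this⟩

lemma Lc.add {c d : ℝ} {F G : X → ℝ} (h : Lc c F) (h' : Lc d G) : Lc (c + d) (F + G) :=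
  ⟨by simp [h.1, h'.1], fun x y => by
    have e : (F + G) x - (F + G) y = (F x - F y) + (G x - G y) := by simp; ring
    rw [e]
    have := abs_add_le (F x - F y) (G x - G y)
    have := h.2 x y
    have := h'.2 x y
    linarith⟩

lemma lc_lin (φ : X →L[ℝ] ℝ) : Lc ‖φ‖ φ :=
  ⟨map_zero φ, fun x y => by rw [← map_sub]; exact φ.le_opNorm _⟩

lemma dl_of (h : IsomDualLifting X) : DL X := by
  classical
  obtain ⟨P, h1, h2⟩ := h
  let e : (X → ℝ) → L0 (0 : X) := fun F =>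
    if h : F ∈ lipSub (0 : X) then (⟨F, h⟩ : lipSub (0 : X)) else 0
  have he : ∀ F, F ∈ lipSub (0 : X) → fn (e F) = F := fun F h => by
    simp only [e, dif_pos h]; rfl
  refine ⟨fun F => P (e F), ‖P‖, ContinuousLinearMap.opNorm_nonneg P, fun c d F G hc hd hF hG => ?_,
    fun c F x hc hF => ?_, fun φ => ?_, fun g c F x hc hF => ?_⟩
  · have : e (F + G) = e F + e G := fn_ext (by
      rw [fn_add, he _ (hF.mem hc), he _ (hG.mem hd), he _ ((hF.add hG).mem (by positivity))])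
    simp only [this, map_add]
  · have a : ‖e F‖ ≤ c := norm_le _ hc fun x y => by
      rw [he _ (hF.mem hc), dist_eq_norm]; exact hF.2 x y
    refine ((P (e F)).le_opNorm x).trans (mul_le_mul_of_nonneg_right ?_ (norm_nonneg _))
    exact (P.le_opNorm _).trans (mul_le_mul_of_nonneg_left a (norm_nonneg _))
  · exact h1 _ φ fun x => by rw [he _ ((lc_lin φ).mem (norm_nonneg _))]
  · exact h2 g _ _ (fun x => by rw [he _ (hF.mem hc), he _ ((hF.comp g).mem hc)]; rfl) x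

lemma DL.transfer {Y : Type*} [NormedAddCommGroup Y] [NormedSpace ℝ Y] (h : DL X)
    (U : X ≃ₗᵢ[ℝ] Y) : DL Y := by
  obtain ⟨R, C, hC, h1, h2, h3, h4⟩ := h
  refine ⟨fun F => (R (F ∘ U)).comp (U.symm : Y →L[ℝ] X), C, hC, fun c d F G hc hd hF hG => ?_,
    fun c F x hc hF => ?_, fun φ => ?_, fun g c F x hc hF => ?_⟩
  · have : (F + G) ∘ U = F ∘ U + G ∘ U := rfl
    simp only [this, h1 c d _ _ hc hd (hF.comp U) (hG.comp U), ContinuousLinearMap.add_comp]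
  · have := h2 c _ (U.symm x) hc (hF.comp U)
    rwa [U.symm.norm_map] at this
  · have := h3 (φ.comp (U : X →L[ℝ] Y))
    ext y
    change R (φ ∘ U) (U.symm y) = φ y
    have e : (φ ∘ U : X → ℝ) = (φ.comp (U : X →L[ℝ] Y)) := rfl
    rw [e, this]; simp
  · have := h4 ((U.trans g).trans U.symm) c _ (U.symm x) hc (hF.comp U)
    change R ((F ∘ g) ∘ U) (U.symm x) = R (F ∘ U) (U.symm (g x))
    have e : (F ∘ U) ∘ ((U.trans g).trans U.symm) = (F ∘ g) ∘ U := by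
      funext y; simp
    rw [e] at this
    rw [this]; simp

lemma rpow_sub_le {p a b : ℝ} (hp : 1 ≤ p) (hb : 0 ≤ b) (hab : b ≤ a) :
    a ^ p - b ^ p ≤ p * (a ^ (p - 1) * (a - b)) := by
  rcases (hb.trans hab).eq_or_lt with rfl | ha
  · have : b = 0 := le_antisymm hab hb
    subst this; simp
  have h := one_add_mul_self_le_rpow_one_add (s := b / a - 1)
    (by have := div_nonneg hb ha.le; linarith) hp
  rw [add_sub_cancel, Real.div_rpow hb ha.le, le_div_iff₀ (Real.rpow_pos_of_pos ha p)] at h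
  have e : a ^ p = a ^ (p - 1) * a := by
    rw [Real.rpow_sub_one ha.ne']; field_simp
  have e2 : (1 + p * (b / a - 1)) * a ^ p = a ^ p - p * (a ^ (p - 1) * (a - b)) := by
    conv_lhs => rw [add_mul, one_mul, e]
    rw [← e]; field_simp; rw [e]; ring
  linarith

lemma young {p m e : ℝ} (hp : 1 ≤ p) (hm : 0 ≤ m) (he : 0 ≤ e) :
    m ^ (p - 1) * e ≤ m ^ p + e ^ p := by
  have h1 := Real.rpow_nonneg hm p
  have h2 := Real.rpow_nonneg he p
  rcases le_total e m with h | h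
  · have : m ^ (p - 1) * e ≤ m ^ (p - 1) * m :=
      mul_le_mul_of_nonneg_left h (Real.rpow_nonneg hm _)
    have e1 : m ^ (p - 1) * m = m ^ p := by
      rw [← Real.rpow_add_one' hm (by linarith)]; simp
    linarith
  · have : m ^ (p - 1) * e ≤ e ^ (p - 1) * e :=
      mul_le_mul_of_nonneg_right (Real.rpow_le_rpow hm h (by linarith)) he
    have e1 : e ^ (p - 1) * e = e ^ p := by
      rw [← Real.rpow_add_one' he (by linarith)]; simp
    linarith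

lemma abs_rpow_sub {p a b d δ : ℝ} (hp : 1 ≤ p) (ha : 0 ≤ a) (hb : 0 ≤ b) (hδ : 0 < δ)
    (hd : |a - b| ≤ d) : |a ^ p - b ^ p| ≤ p * δ * (a ^ p + b ^ p + d ^ p / δ ^ p) := by
  have hd0 : 0 ≤ d := (abs_nonneg _).trans hd
  have key : ∀ a b : ℝ, 0 ≤ b → b ≤ a → a - b ≤ d →
      a ^ p - b ^ p ≤ p * δ * (a ^ p + d ^ p / δ ^ p) := by
    intro a b hb hab h
    have ha := hb.trans hab
    have h1 := rpow_sub_le hp hb hab
    have h2 := young hp ha (div_nonneg hd0 hδ.le)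
    rw [Real.div_rpow hd0 hδ.le] at h2
    have h3 : a ^ (p - 1) * (a - b) ≤ δ * (a ^ (p - 1) * (d / δ)) := by
      have : δ * (a ^ (p - 1) * (d / δ)) = a ^ (p - 1) * d := by field_simp
      rw [this]; exact mul_le_mul_of_nonneg_left h (Real.rpow_nonneg ha _)
    have h4 := mul_le_mul_of_nonneg_left h2 hδ.le
    have h5 := mul_le_mul_of_nonneg_left (h3.trans h4) (by linarith : 0 ≤ p)
    linarith
  have hpδ : 0 ≤ p * δ := by positivity
  have h1 := mul_nonneg hpδ (Real.rpow_nonneg ha p)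
  have h2 := mul_nonneg hpδ (Real.rpow_nonneg hb p)
  rw [abs_le] at hd
  rcases le_total b a with h | h
  · rw [abs_of_nonneg (sub_nonneg.2 (Real.rpow_le_rpow hb h (by linarith)))]
    have := key a b hb h hd.2
    linarith
  · rw [abs_of_nonpos (sub_nonpos.2 (Real.rpow_le_rpow ha h (by linarith)))]
    have := key b a ha h (by linarith [hd.1])
    linarith

lemma unit_sub {x y : X} (hx : x ≠ 0) (hy : y ≠ 0) :
    ‖‖x‖⁻¹ • x - ‖y‖⁻¹ • y‖ * ‖y‖ ≤ 2 * ‖x - y‖ := by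
  have hx' := norm_pos_iff.2 hx
  have hy' := norm_pos_iff.2 hy
  have e : ‖x‖⁻¹ • x - ‖y‖⁻¹ • y = ‖y‖⁻¹ • (((‖y‖ - ‖x‖) * ‖x‖⁻¹) • x + (x - y)) := by
    rw [smul_add, smul_smul, smul_sub]
    have : ‖y‖⁻¹ * ((‖y‖ - ‖x‖) * ‖x‖⁻¹) = ‖x‖⁻¹ - ‖y‖⁻¹ := by field_simp
    rw [this, sub_smul]; abel
  rw [e, norm_smul, norm_inv, norm_norm, mul_comm, ← mul_assoc, mul_inv_cancel₀ hy'.ne', one_mul]
  refine (norm_add_le _ _).trans ?_
  rw [norm_smul, Real.norm_eq_abs, abs_mul, abs_inv, abs_norm, mul_assoc, inv_mul_cancel₀ hx'.ne',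
    mul_one, abs_sub_comm]
  have := abs_norm_sub_norm_le x y
  linarith

lemma lip_sum {ι : Type*} {p : ℝ} (hp : 1 ≤ p) (s : Finset ι) (N : ι → Seminorm ℝ X)
    (hs : ∀ x, ∑ i ∈ s, N i x ^ p ≤ ‖x‖ ^ p) (l : ι → X →L[ℝ] ℝ) (hl : ∀ i x, |l i x| ≤ ‖x‖) :
    Lc (1 + 6 * p) fun x => ∑ i ∈ s, (N i x / ‖x‖) ^ p * l i x := by
  have hu : ∀ i x, N i x / ‖x‖ = N i (‖x‖⁻¹ • x) := fun i x => by
    rw [map_smul_eq_mul, norm_inv, norm_norm, div_eq_inv_mul]
  have h1 : ∀ x, ∑ i ∈ s, (N i x / ‖x‖) ^ p ≤ 1 := fun x => by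
    simp only [hu]
    refine (hs _).trans (Real.rpow_le_one (norm_nonneg _) ?_ (by linarith))
    rw [norm_smul, norm_inv, norm_norm]
    exact inv_mul_le_one_of_le₀ le_rfl (norm_nonneg _)
  have h0 : ∀ i x, 0 ≤ (N i x / ‖x‖) ^ p := fun i x =>
    Real.rpow_nonneg (div_nonneg (apply_nonneg _ _) (norm_nonneg _)) _
  have h2 : ∀ x z, |∑ i ∈ s, (N i x / ‖x‖) ^ p * l i z| ≤ ‖z‖ := fun x z => by
    refine (Finset.abs_sum_le_sum_abs _ _).trans ?_
    have : ∑ i ∈ s, |(N i x / ‖x‖) ^ p * l i z| ≤ ∑ i ∈ s, (N i x / ‖x‖) ^ p * ‖z‖ :=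
      Finset.sum_le_sum fun i _ => by
        rw [abs_mul, abs_of_nonneg (h0 i x)]
        exact mul_le_mul_of_nonneg_left (hl i z) (h0 i x)
    rw [← Finset.sum_mul] at this
    exact this.trans (mul_le_of_le_one_left (norm_nonneg _) (h1 x))
  refine ⟨by simp, fun x y => ?_⟩
  have hn := norm_nonneg (x - y)
  by_cases hx : x = 0
  · subst hx
    simp only [map_zero, mul_zero, Finset.sum_const_zero, zero_sub, abs_neg, norm_neg]
    have := h2 y y
    have := norm_nonneg y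
    nlinarith
  by_cases hy : y = 0
  · subst hy
    simp only [map_zero, mul_zero, Finset.sum_const_zero, sub_zero]
    have := h2 x x
    have := norm_nonneg x
    nlinarith
  have e : ∑ i ∈ s, (N i x / ‖x‖) ^ p * l i x - ∑ i ∈ s, (N i y / ‖y‖) ^ p * l i y
      = ∑ i ∈ s, (N i x / ‖x‖) ^ p * l i (x - y)
        + ∑ i ∈ s, ((N i x / ‖x‖) ^ p - (N i y / ‖y‖) ^ p) * l i y := by
    rw [← Finset.sum_sub_distrib, ← Finset.sum_add_distrib]
    exact Finset.sum_congr rfl fun i _ => by rw [map_sub]; ring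
  rw [e]
  refine (abs_add_le _ _).trans ?_
  have a1 := h2 x (x - y)
  obtain ⟨u, hu'⟩ : ∃ u, u = ‖x‖⁻¹ • x := ⟨_, rfl⟩
  obtain ⟨v, hv'⟩ : ∃ v, v = ‖y‖⁻¹ • y := ⟨_, rfl⟩
  have a2 : ∑ i ∈ s, |(N i x / ‖x‖) ^ p - (N i y / ‖y‖) ^ p| ≤ 3 * p * ‖u - v‖ := by
    by_cases huv : u = v
    · simp only [hu, ← hu', ← hv', huv, sub_self, abs_zero, Finset.sum_const_zero, norm_zero,
        mul_zero, le_refl]
    have hδ : 0 < ‖u - v‖ := norm_pos_iff.2 (sub_ne_zero.2 huv)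
    have b1 : ∑ i ∈ s, |(N i x / ‖x‖) ^ p - (N i y / ‖y‖) ^ p| ≤ ∑ i ∈ s, p * ‖u - v‖ *
        ((N i x / ‖x‖) ^ p + (N i y / ‖y‖) ^ p + N i (u - v) ^ p / ‖u - v‖ ^ p) :=
      Finset.sum_le_sum fun i _ => abs_rpow_sub hp (div_nonneg (apply_nonneg _ _) (norm_nonneg _))
        (div_nonneg (apply_nonneg _ _) (norm_nonneg _)) hδ (by
          rw [hu, hu, ← hu', ← hv']; exact abs_sub_map_le_sub (N i) u v)
    rw [← Finset.mul_sum, Finset.sum_add_distrib, Finset.sum_add_distrib, ← Finset.sum_div] at b1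
    have b2 : (∑ i ∈ s, N i (u - v) ^ p) / ‖u - v‖ ^ p ≤ 1 :=
      (div_le_one (Real.rpow_pos_of_pos hδ p)).2 (hs _)
    have b3 : 0 ≤ p * ‖u - v‖ := by positivity
    have b4 := mul_le_mul_of_nonneg_left (add_le_add (add_le_add (h1 x) (h1 y)) b2) b3
    linarith
  have a3 : |∑ i ∈ s, ((N i x / ‖x‖) ^ p - (N i y / ‖y‖) ^ p) * l i y|
      ≤ (∑ i ∈ s, |(N i x / ‖x‖) ^ p - (N i y / ‖y‖) ^ p|) * ‖y‖ := by
    refine (Finset.abs_sum_le_sum_abs _ _).trans ?_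
    rw [Finset.sum_mul]
    exact Finset.sum_le_sum fun i _ => by
      rw [abs_mul]; exact mul_le_mul_of_nonneg_left (hl i y) (abs_nonneg _)
  have a4 := mul_le_mul_of_nonneg_right a2 (norm_nonneg y)
  have a5 := unit_sub hx hy
  rw [← hu', ← hv'] at a5
  have a6 := mul_le_mul_of_nonneg_left a5 (show 0 ≤ 3 * p by linarith)
  nlinarith

end H29.DL
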