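import Pool.Agent.H29.DL1

namespace H29.DL

variable {X : Type*} [NormedAddCommGroup X] [NormedSpace ℝ X]

lemma perm_ex {A B : Set ℕ} (hA0 : 0 ∉ A) (hB0 : 0 ∉ B) (hA : A.Infinite) (hB : B.Infinite)
    (hA' : Aᶜ.Infinite) (hB' : Bᶜ.Infinite) : ∃ π : Equiv.Perm ℕ, π 0 = 0 ∧ π '' A = B := by
  classical
  haveI := hA.to_subtype
  haveI := hB.to_subtype
  haveI := hA'.to_subtype
  haveI := hB'.to_subtype
  obtain ⟨e1⟩ : Nonempty (A ≃ B) := nonempty_equiv_of_countable
  obtain ⟨e2⟩ : Nonempty ((Aᶜ : Set ℕ) ≃ (Bᶜ : Set ℕ)) := nonempty_equiv_of_countable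
  set σ : Equiv.Perm ℕ := (Equiv.Set.sumCompl A).symm.trans
    ((e1.sumCongr e2).trans (Equiv.Set.sumCompl B)) with hσ
  have h1 : ∀ n, σ n ∈ B ↔ n ∈ A := by
    intro n
    by_cases hn : n ∈ A
    · simp [hσ, Equiv.Set.sumCompl_symm_apply_of_mem hn, hn]
    · have := (e2 ⟨n, hn⟩).2
      simp only [hσ, Equiv.trans_apply, Equiv.Set.sumCompl_symm_apply_of_notMem hn, hn,
        Equiv.sumCongr_apply, Sum.map_inr, Equiv.Set.sumCompl_apply_inr, iff_false]
      exact this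
  have h0 : σ 0 ∉ B := fun h => hA0 ((h1 0).1 h)
  have h2 : ∀ m, Equiv.swap (σ 0) 0 m ∈ B ↔ m ∈ B := by
    intro m
    rw [Equiv.swap_apply_def]
    split_ifs with a b
    · subst a; simp [h0, hB0]
    · subst b; simp [h0, hB0]
    · rfl
  refine ⟨σ.trans (Equiv.swap (σ 0) 0), by simp, ?_⟩
  rw [Equiv.image_eq_preimage_symm]
  ext m
  rw [Set.mem_preimage, ← h1, ← h2]
  simp

lemma inf_mod (r : ℕ) (hr : r < 3) {A : Set ℕ} (h : ∀ n, 0 < n → n % 3 = r → n ∈ A) :
    A.Infinite := by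
  refine Set.infinite_of_forall_exists_gt fun a => ⟨3 * (a + 1) + r, h _ (by omega) (by omega), by omega⟩

theorem not_dl {p : ℝ} (hp : 1 < p) (N : Set ℕ → Seminorm ℝ X)
    (hadd : ∀ A B x, Disjoint A B → N (A ∪ B) x ^ p = N A x ^ p + N B x ^ p)
    (huniv : ∀ x, N Set.univ x = ‖x‖)
    (g : Equiv.Perm ℕ → X ≃ₗᵢ[ℝ] X) (hgN : ∀ π A x, N A (g π x) = N (π '' A) x)
    (sg : ℕ → X ≃ₗᵢ[ℝ] X) (hsN : ∀ m A x, N A (sg m x) = N A x)
    (e : ℕ → X) (l : ℕ → X →L[ℝ] ℝ) (hl : ∀ i x, |l i x| ≤ ‖x‖) (hle : l 0 (e 0) = 1)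
    (hgl : ∀ π k x, l k (g π x) = l (π k) x) (hge : ∀ π k, g π (e (π k)) = e k)
    (hse : ∀ m, sg m (e m) = -e m) (hsl : ∀ m k x, k ≠ m → l k (sg m x) = l k x)
    (hn : ∀ n : ℕ, ‖∑ k ∈ Finset.range n, e k‖ ^ p ≤ n) : ¬ DL X := by
  classical
  rintro ⟨R, C, hC, h1, h2, h3, h4⟩
  have hL : 0 ≤ 1 + 6 * p := by linarith
  have hle' : ∀ A x, N A x ^ p ≤ ‖x‖ ^ p := fun A x => by
    have := hadd A Aᶜ x disjoint_compl_right
    rw [Set.union_compl_self, huniv] at this
    have := Real.rpow_nonneg (apply_nonneg (N Aᶜ) x) p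
    linarith
  obtain ⟨f, hf⟩ : ∃ f : Set ℕ → ℕ → X → ℝ, ∀ A k x, f A k x = (N A x / ‖x‖) ^ p * l k x :=
    ⟨fun A k x => _, fun _ _ _ => rfl⟩
  have hfL : ∀ A k, Lc (1 + 6 * p) (f A k) := fun A k => by
    have := lip_sum hp.le ({()} : Finset Unit) (fun _ => N A) (by simpa using hle' A)
      (fun _ => l k) (fun _ => hl k)
    simp only [Finset.sum_singleton] at this
    rwa [show f A k = _ from funext (hf A k)]
  have hfa : ∀ A B k, Disjoint A B → f (A ∪ B) k = f A k + f B k := fun A B k h => by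
    funext x
    simp only [Pi.add_apply, hf, Real.div_rpow (apply_nonneg _ _) (norm_nonneg x), hadd A B x h]
    ring
  have hRa : ∀ A B k, Disjoint A B → R (f (A ∪ B) k) = R (f A k) + R (f B k) := fun A B k h => by
    rw [hfa A B k h]; exact h1 _ _ _ _ hL hL (hfL A k) (hfL B k)
  have hfu : R (f Set.univ 0) = l 0 := by
    have : f Set.univ 0 = l 0 := by
      funext x
      rw [hf, huniv]
      by_cases hx : x = 0
      · simp [hx]
      · rw [div_self (norm_ne_zero_iff.2 hx), Real.one_rpow, one_mul]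
    rw [this, h3]
  have hfg : ∀ (π : Equiv.Perm ℕ) A k, R (f (π '' A) (π k)) (e (π k)) = R (f A k) (e k) := fun π A k => by
    have : f A k ∘ g π = f (π '' A) (π k) := by
      funext x; simp only [Function.comp, hf, hgN, hgl, LinearIsometryEquiv.norm_map]
    rw [← this, h4 _ _ _ _ hL (hfL A k), hge]
  have hinv : ∀ A B : Set ℕ, 0 ∉ A → 0 ∉ B → A.Infinite → B.Infinite → Aᶜ.Infinite →
      Bᶜ.Infinite → R (f B 0) (e 0) = R (f A 0) (e 0) := by
    intro A B a1 a2 a3 a4 a5 a6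
    obtain ⟨π, h0, hπ⟩ := perm_ex a1 a2 a3 a4 a5 a6
    have := hfg π A 0
    rwa [h0, hπ] at this
  set A1 : Set ℕ := {n | n % 3 = 1}
  set A2 : Set ℕ := {n | n % 3 = 2}
  set A0 : Set ℕ := {n | n % 3 = 0 ∧ n ≠ 0}
  have i1 : A1.Infinite := inf_mod 1 (by norm_num) fun n _ h => h
  have i1' : A1ᶜ.Infinite := inf_mod 0 (by norm_num) fun n _ h => by simp [A1, h]
  have b2 := hinv A1 A2 (by simp [A1]) (by simp [A2]) i1 (inf_mod 2 (by norm_num) fun n _ h => h)
    i1' (inf_mod 0 (by norm_num) fun n _ h => by simp [A2, h])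
  have b0 := hinv A1 A0 (by simp [A1]) (by simp [A0]) i1
    (inf_mod 0 (by norm_num) fun n hn h => ⟨h, hn.ne'⟩)
    i1' (inf_mod 1 (by norm_num) fun n _ h => by simp [A0, h])
  have b12 := hinv A1 (A1 ∪ A2) (by simp [A1]) (by simp [A1, A2]) i1 (i1.mono Set.subset_union_left)
    i1' (inf_mod 0 (by norm_num) fun n _ h => by simp [A1, A2, h])
  have d12 : Disjoint A1 A2 := Set.disjoint_left.2 fun n a b => by simp [A1, A2] at a b; omega
  have c12 := b12
  rw [hRa _ _ _ d12, ContinuousLinearMap.add_apply, b2] at c12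
  have z1 : R (f A1 0) (e 0) = 0 := by linarith
  have hun : (Set.univ : Set ℕ) = {0} ∪ (A0 ∪ (A1 ∪ A2)) := by
    ext n; simp [A0, A1, A2]; omega
  have hc : R (f {0} 0) (e 0) = 1 := by
    have := congrArg (fun φ => φ (e 0)) hfu
    simp only [hle] at this
    rw [hun, hRa _ _ _ (Set.disjoint_left.2 fun n a b => by simp [A0, A1, A2] at a b; omega),
      hRa _ _ _ (Set.disjoint_left.2 fun n a b => by simp [A0, A1, A2] at a b; omega),
      ContinuousLinearMap.add_apply, ContinuousLinearMap.add_apply, b0, b12, z1] at this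
    linarith
  have hck : ∀ k, R (f {k} k) (e k) = 1 := fun k => by
    have := hfg (Equiv.swap 0 k) {0} 0
    rw [Set.image_singleton, Equiv.swap_apply_left] at this
    rw [this, hc]
  have hoff : ∀ k m, k ≠ m → R (f {k} k) (e m) = 0 := fun k m hkm => by
    have a : f {k} k ∘ sg m = f {k} k := by
      funext x; simp only [Function.comp, hf, hsN, hsl m k x hkm, LinearIsometryEquiv.norm_map]
    have := h4 (sg m) _ _ (e m) hL (hfL {k} k)
    rw [a, hse, map_neg] at this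
    linarith
  have hS : ∀ (s : Finset ℕ) x, ∑ k ∈ s, N {k} x ^ p = N s x ^ p := by
    intro s x
    induction s using Finset.induction_on with
    | empty =>
      have := hadd ∅ ∅ x (by simp)
      simp only [Set.union_self] at this
      simp only [Finset.sum_empty, Finset.coe_empty]
      linarith
    | insert a s ha ih =>
      rw [Finset.sum_insert ha, ih, Finset.coe_insert, Set.insert_eq, hadd _ _ _ (by simpa using ha)]
  have hFL : ∀ s : Finset ℕ, Lc (1 + 6 * p) (∑ k ∈ s, f {k} k) := fun s => by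
    have := lip_sum hp.le s (fun k => N {k}) (fun x => by rw [hS]; exact hle' _ x) l hl
    rwa [show (∑ k ∈ s, f {k} k) = _ from funext fun x => by simp only [Finset.sum_apply, hf]; rfl]
  have hR0 : R 0 = 0 := h3 0
  have hRs : ∀ s : Finset ℕ, R (∑ k ∈ s, f {k} k) = ∑ k ∈ s, R (f {k} k) := by
    intro s
    induction s using Finset.induction_on with
    | empty => simpa using hR0
    | insert a s ha ih =>
      rw [Finset.sum_insert ha, Finset.sum_insert ha, h1 _ _ _ _ hL hL (hfL _ _) (hFL s), ih]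
  have hbd : ∀ n : ℕ, (n : ℝ) ≤ C * (1 + 6 * p) * ‖∑ k ∈ Finset.range n, e k‖ := fun n => by
    have := h2 _ _ (∑ k ∈ Finset.range n, e k) hL (hFL (Finset.range n))
    rw [hRs, ContinuousLinearMap.sum_apply] at this
    have e1 : ∑ k ∈ Finset.range n, R (f {k} k) (∑ k ∈ Finset.range n, e k) = n := by
      rw [Finset.sum_congr rfl (g := fun _ => (1:ℝ)) fun k hk => by
        rw [map_sum, Finset.sum_eq_single k (fun m _ hm => hoff k m (Ne.symm hm))
          (fun h => absurd hk h), hck]]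
      simp
    rw [e1] at this
    exact (le_abs_self _).trans this
  obtain ⟨D, hD⟩ : ∃ D, D = C * (1 + 6 * p) := ⟨_, rfl⟩
  have hD0 : 0 ≤ D := by rw [hD]; positivity
  have ht : Filter.Tendsto (fun n : ℕ => (n : ℝ) ^ (p - 1)) Filter.atTop Filter.atTop :=
    (tendsto_rpow_atTop (by linarith)).comp tendsto_natCast_atTop_atTop
  obtain ⟨n, hn1, hn2⟩ := ((ht.eventually_gt_atTop (D ^ p)).and (Filter.eventually_gt_atTop 0)).exists
  have hn0 : (0:ℝ) < n := by exact_mod_cast hn2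
  have a1 := Real.rpow_le_rpow hn0.le (hbd n) (by linarith : 0 ≤ p)
  rw [← hD, Real.mul_rpow hD0 (norm_nonneg _)] at a1
  have a2 := mul_le_mul_of_nonneg_left (hn n) (Real.rpow_nonneg hD0 p)
  have a3 : (n:ℝ) ^ p = (n:ℝ) ^ (p - 1) * n := by
    rw [Real.rpow_sub_one hn0.ne']; field_simp
  nlinarith

end H29.DL
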