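import Pool.Agent.H29.DL2

namespace H29.DL

open scoped ENNReal
open H29.LipR

variable {p : ℝ≥0∞} [Fact (1 ≤ p)]

abbrev lR (p : ℝ≥0∞) := lp (fun _ : ℕ => ℝ) p

lemma pos_toReal (hp : p ≠ ∞) : 0 < p.toReal :=
  ENNReal.toReal_pos (by have : (1:ℝ≥0∞) ≤ p := Fact.out; exact (zero_lt_one.trans_le this).ne') hp

noncomputable def wc (hp : p ≠ ∞) (w : ℕ → ℝ) (hw : ∀ k, |w k| ≤ 1) (π : Equiv.Perm ℕ) :
    lR p →ₗ[ℝ] lR p where
  toFun x := ⟨fun k => w k * x (π k), memℓp_gen (by
    have h := (π.summable_iff (f := fun k => ‖x k‖ ^ p.toReal)).2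
      ((lp.memℓp x).summable (pos_toReal hp))
    refine Summable.of_nonneg_of_le (fun k => by positivity) (fun k => ?_) h
    refine Real.rpow_le_rpow (norm_nonneg _) ?_ (pos_toReal hp).le
    rw [norm_mul]
    exact mul_le_of_le_one_left (norm_nonneg _) (hw k))⟩
  map_add' x y := by ext k; change w k * (x (π k) + y (π k)) = w k * x (π k) + w k * y (π k); ring
  map_smul' c x := by ext k; change w k * (c * x (π k)) = c * (w k * x (π k)); ring

lemma wc_apply (hp : p ≠ ∞) (w : ℕ → ℝ) (hw : ∀ k, |w k| ≤ 1) (π : Equiv.Perm ℕ) (x : lR p)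
    (k : ℕ) : wc hp w hw π x k = w k * x (π k) := rfl

lemma norm_eq_of (hp : p ≠ ∞) {x y : lR p} (π : Equiv.Perm ℕ) (h : ∀ k, ‖x k‖ = ‖y (π k)‖) :
    ‖x‖ = ‖y‖ := by
  rw [lp.norm_eq_tsum_rpow (pos_toReal hp), lp.norm_eq_tsum_rpow (pos_toReal hp)]
  simp only [h]
  rw [π.tsum_eq (fun k => ‖y k‖ ^ p.toReal)]

noncomputable def wi (hp : p ≠ ∞) (w : ℕ → ℝ) (hw : ∀ k, |w k| = 1) (π : Equiv.Perm ℕ) :
    lR p ≃ₗᵢ[ℝ] lR p :=
  LinearIsometryEquiv.ofSurjective
    ⟨wc hp w (fun k => (hw k).le) π, fun x => norm_eq_of hp π fun k => by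
      rw [wc_apply, norm_mul, Real.norm_eq_abs, hw, one_mul]⟩
    (fun y => ⟨wc hp (fun k => w (π.symm k)) (fun k => (hw _).le) π.symm y, by
      ext k
      change w k * (w (π.symm (π k)) * y (π.symm (π k))) = y k
      rw [Equiv.symm_apply_apply, ← mul_assoc, ← abs_mul_abs_self, hw]; simp⟩)

lemma wi_apply (hp : p ≠ ∞) (w : ℕ → ℝ) (hw : ∀ k, |w k| = 1) (π : Equiv.Perm ℕ) (x : lR p)
    (k : ℕ) : wi hp w hw π x k = w k * x (π k) := rfl

lemma ind_le (A : Set ℕ) (k : ℕ) : |A.indicator (fun _ => (1:ℝ)) k| ≤ 1 := by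
  by_cases h : k ∈ A <;> simp [h]

lemma p_ne : p ≠ 0 := (zero_lt_one.trans_le (Fact.out : (1:ℝ≥0∞) ≤ p)).ne'

noncomputable def ev (k : ℕ) : lR p →L[ℝ] ℝ :=
  LinearMap.mkContinuous
    { toFun := fun x => x k
      map_add' := fun _ _ => rfl
      map_smul' := fun _ _ => rfl } 1 (fun x => by
      rw [one_mul]; exact lp.norm_apply_le_norm p_ne x k)

theorem lp_not_dl (hp : p ≠ ∞) (hp1 : p ≠ 1) : ¬ DL (lR p) := by
  classical
  have h0 := pos_toReal hp
  have h1 : 1 < p.toReal := by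
    have a : (1:ℝ≥0∞) < p := lt_of_le_of_ne Fact.out (Ne.symm hp1)
    simpa using (ENNReal.toReal_lt_toReal (by simp) hp).2 a
  have hsg : ∀ m k : ℕ, |(if k = m then (-1:ℝ) else 1)| = 1 := fun m k => by split_ifs <;> simp
  refine not_dl h1
    (fun A => (normSeminorm ℝ (lR p)).comp (wc hp (A.indicator fun _ => 1) (ind_le A) (Equiv.refl _)))
    (fun A B x h => ?_) (fun x => ?_) (fun π => wi hp (fun _ => 1) (fun _ => abs_one) π)
    (fun π A x => ?_) (fun m => wi hp (fun k => if k = m then -1 else 1) (hsg m) (Equiv.refl _))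
    (fun m A x => ?_) (fun k => lp.single p k 1) ev
    (fun k x => lp.norm_apply_le_norm p_ne x k)
    (lp.single_apply_self (E := fun _ : ℕ => ℝ) p 0 1) (fun π k x => ?_) (fun π k => ?_) (fun m => ?_) (fun m k x h => ?_) (fun n => ?_)
  · simp only [Seminorm.comp_apply, coe_normSeminorm]
    refine (lp.hasSum_norm h0 _).unique ?_
    convert (lp.hasSum_norm h0 (wc hp (A.indicator fun _ => 1) (ind_le A) (Equiv.refl _) x)).add
      (lp.hasSum_norm h0 (wc hp (B.indicator fun _ => 1) (ind_le B) (Equiv.refl _) x)) using 2 with k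
    simp only [wc_apply]
    by_cases a : k ∈ A
    · have b : k ∉ B := Set.disjoint_left.1 h a
      simp [a, b, h0.ne']
    · by_cases b : k ∈ B <;> simp [a, b, h0.ne']
  · exact norm_eq_of hp (Equiv.refl _) fun k => by simp [wc_apply]
  · refine norm_eq_of hp π fun k => ?_
    simp only [wc_apply, wi_apply, Equiv.refl_apply, one_mul]
    by_cases a : k ∈ A
    · simp [a]
    · simp [a]
  · refine norm_eq_of hp (Equiv.refl _) fun k => ?_
    simp only [wc_apply, wi_apply, Equiv.refl_apply, norm_mul, Real.norm_eq_abs, hsg, one_mul]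
  · exact one_mul _
  · ext j
    rw [wi_apply, one_mul, lp.single_apply, lp.single_apply]
    simp [Pi.single_apply]
  · ext j
    rw [wi_apply, lp.coeFn_neg, Pi.neg_apply, Equiv.refl_apply, lp.single_apply]
    by_cases a : j = m <;> simp [a]
  · change (if k = m then (-1:ℝ) else 1) * x k = x k
    simp [h]
  · rw [lp.norm_sum_single h0 (fun _ => (1:ℝ))]; simp

lemma l1_add (x : lR 1) (k : ℕ) : ‖x‖ = |x k| + ‖x - lp.single 1 k (x k)‖ := by
  have := lp.norm_sub_norm_compl_sub_single (p := 1) (by simp) x {k}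
  simp only [ENNReal.toReal_one, Real.rpow_one, Finset.sum_singleton, Real.norm_eq_abs] at this
  linarith

lemma l1_isom (g : lR 1 ≃ₗᵢ[ℝ] lR 1) (j : ℕ) :
    ∃ k, ∃ s : ℝ, (s = 1 ∨ s = -1) ∧ g (lp.single 1 j 1) = s • lp.single 1 k 1 := by
  obtain ⟨y, hy⟩ : ∃ y, y = g (lp.single 1 j 1) := ⟨_, rfl⟩
  have hy1 : ‖y‖ = 1 := by rw [hy, g.norm_map, lp.norm_single (by simp)]; simp
  obtain ⟨k, hk⟩ : ∃ k, y k ≠ 0 := by
    by_contra h
    push Not at h
    have : y = 0 := by ext k; exact h k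
    simp [this] at hy1
  obtain ⟨u, hu⟩ : ∃ u, u = g.symm (lp.single 1 k (y k)) := ⟨_, rfl⟩
  obtain ⟨v, hv⟩ : ∃ v, v = g.symm (y - lp.single 1 k (y k)) := ⟨_, rfl⟩
  have huv : u + v = lp.single 1 j 1 := by
    rw [hu, hv, ← map_add, add_sub_cancel, hy, g.symm_apply_apply]
  have hn : ‖u‖ + ‖v‖ = 1 := by
    rw [hu, hv, g.symm.norm_map, g.symm.norm_map, lp.norm_single (by simp), Real.norm_eq_abs,
      ← l1_add, hy1]
  have hj : u j + v j = 1 := by
    have := congrArg (fun z : lR 1 => z j) huv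
    simpa using this
  have a1 := l1_add u j
  have a2 : |v j| ≤ ‖v‖ := lp.norm_apply_le_norm (by simp) v j
  have a3 : ‖u - lp.single 1 j (u j)‖ = 0 := by
    have := le_abs_self (u j)
    have := le_abs_self (v j)
    have := norm_nonneg (u - lp.single 1 j (u j))
    linarith
  rw [norm_eq_zero, sub_eq_zero] at a3
  have a4 : lp.single 1 k (y k) = u j • y := by
    have : g u = lp.single 1 k (y k) := by rw [hu]; simp
    rw [← this, hy, ← map_smul, ← lp.single_smul, smul_eq_mul, mul_one, ← a3]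
  have a5 : u j = 1 := by
    have := congrArg (fun z : lR 1 => z k) a4
    simp only [lp.single_apply_self, lp.coeFn_smul, Pi.smul_apply, smul_eq_mul] at this
    exact mul_right_cancel₀ hk (by rw [← this, one_mul])
  rw [a5, one_smul] at a4
  have a6 : |y k| = 1 := by
    rw [← hy1]; conv_rhs => rw [← a4]
    rw [lp.norm_single (by simp), Real.norm_eq_abs]
  refine ⟨k, y k, abs_eq (by norm_num) |>.1 a6, ?_⟩
  rw [← hy, ← lp.single_smul, smul_eq_mul, mul_one, a4]

noncomputable def cj (f : L0 (0 : lR 1)) (j : ℕ) : ℝ :=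
  (fn f (lp.single 1 j 1) - fn f (-lp.single 1 j 1)) / 2

lemma cj_le (f : L0 (0 : lR 1)) (j : ℕ) : |cj f j| ≤ ‖f‖ := by
  have := le_norm f (lp.single 1 j 1) (-lp.single 1 j 1)
  rw [dist_eq_norm, sub_neg_eq_add, ← two_smul ℝ, norm_smul, lp.norm_single (by simp)] at this
  rw [cj, abs_div, abs_two, div_le_iff₀ (by norm_num)]
  simpa using this

lemma sum1 (x : lR 1) : HasSum (fun j => |x j|) ‖x‖ := by
  simpa using lp.hasSum_norm (p := 1) (by simp) x

lemma cj_summable (f : L0 (0 : lR 1)) (x : lR 1) : Summable fun j => ‖cj f j * x j‖ :=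
  Summable.of_nonneg_of_le (fun _ => norm_nonneg _) (fun j => by
    rw [norm_mul]; exact mul_le_mul_of_nonneg_right (cj_le f j) (norm_nonneg _))
    ((sum1 x).summable.mul_left ‖f‖)

noncomputable def P1 : L0 (0 : lR 1) →L[ℝ] StrongDual ℝ (lR 1) :=
  LinearMap.mkContinuous₂ (LinearMap.mk₂ ℝ (fun f x => ∑' j, cj f j * x j)
    (fun f g x => by
      rw [← (cj_summable f x).of_norm.tsum_add (cj_summable g x).of_norm]
      refine tsum_congr fun j => ?_
      simp only [cj, fn_add, Pi.add_apply]; ring)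
    (fun c f x => by
      rw [smul_eq_mul, ← tsum_mul_left]
      refine tsum_congr fun j => ?_
      simp only [cj, fn_smul, Pi.smul_apply, smul_eq_mul]; ring)
    (fun f x y => by
      rw [← (cj_summable f x).of_norm.tsum_add (cj_summable f y).of_norm]
      refine tsum_congr fun j => ?_
      simp only [lp.coeFn_add, Pi.add_apply]; ring)
    (fun c f x => by
      rw [smul_eq_mul, ← tsum_mul_left]
      refine tsum_congr fun j => ?_
      simp only [lp.coeFn_smul, Pi.smul_apply, smul_eq_mul]; ring)) 1 (fun f x => by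
    rw [one_mul]
    refine tsum_of_norm_bounded ((sum1 x).mul_left ‖f‖) fun j => ?_
    rw [norm_mul]; exact mul_le_mul_of_nonneg_right (cj_le f j) (norm_nonneg _))

lemma P1_single (f : L0 (0 : lR 1)) (j : ℕ) : P1 f (lp.single 1 j 1) = cj f j := by
  change ∑' k, cj f k * (lp.single 1 j (1:ℝ) : lR 1) k = _
  rw [tsum_eq_single j fun k hk => by rw [lp.single_apply_ne _ _ _ hk, mul_zero]]
  simp

lemma ext1 {φ ψ : lR 1 →L[ℝ] ℝ} (h : ∀ j, φ (lp.single 1 j 1) = ψ (lp.single 1 j 1)) : φ = ψ := by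
  refine lp.ext_continuousLinearMap (by simp) fun j => ?_
  ext
  simpa using h j

theorem l1_dl : IsomDualLifting (lR 1) := by
  refine ⟨P1, fun f φ h => ext1 fun j => ?_, fun g f f' h x => ?_⟩
  · rw [P1_single, cj, h, h, map_neg]; ring
  · have : P1 f' = (P1 f).comp (g : lR 1 →L[ℝ] lR 1) := ext1 fun j => by
      obtain ⟨k, s, hs, e⟩ := l1_isom g j
      change _ = P1 f (g _)
      rw [P1_single, cj, h, h, map_neg, e, map_smul, P1_single, cj]
      rcases hs with rfl | rfl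
      · simp
      · simp; ring
    rw [this]; rfl

end H29.DL
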