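import Mathlib

namespace H29.DL

open MeasureTheory Filter Topology Set ProbabilityTheory
open scoped ENNReal NNReal

variable {α β : Type*} [MeasurableSpace α] [MeasurableSpace β] {μ : Measure α} {ν : Measure β}
  {p : ℝ≥0∞} [Fact (1 ≤ p)]

lemma p_ne0 : p ≠ 0 := (zero_lt_one.trans_le (Fact.out : (1:ℝ≥0∞) ≤ p)).ne'

theorem wiso (hp : p ≠ ∞) {σ : β → α} {τ : α → β} {w : β → ℝ} (hσ : Measurable σ)
    (hτ : Measurable τ) (hw : Measurable w) (hw0 : ∀ t, w t ≠ 0)
    (hint : ∀ F : α → ℝ≥0∞, Measurable F →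
      ∫⁻ t, ‖w t‖ₑ ^ p.toReal * F (σ t) ∂ν = ∫⁻ a, F a ∂μ)
    (hτσ : ∀ᵐ t ∂ν, τ (σ t) = t) :
    ∃ U : Lp ℝ p μ ≃ₗᵢ[ℝ] Lp ℝ p ν, ∀ x, U x =ᵐ[ν] fun t => w t * x (σ t) := by
  have h0 : 0 < p.toReal := ENNReal.toReal_pos p_ne0 hp
  have qmp : Measure.QuasiMeasurePreserving σ ν μ := by
    refine ⟨hσ, Measure.AbsolutelyContinuous.mk fun s hs h => ?_⟩
    have a := hint (s.indicator 1) (measurable_one.indicator hs)
    rw [lintegral_indicator_one hs, h] at a
    replace a := (lintegral_eq_zero_iff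
      ((hw.enorm.pow_const _).mul ((measurable_one.indicator hs).comp hσ))).1 a
    rw [Measure.map_apply hσ hs]
    refine measure_mono_null (fun t ht => ?_) (ae_iff.1 a)
    have : ‖w t‖ₑ ^ p.toReal ≠ 0 := by simp [hw0 t, h0.not_gt]
    change ¬ (‖w t‖ₑ ^ p.toReal * s.indicator 1 (σ t) = 0)
    rw [indicator_of_mem (show σ t ∈ s from ht), Pi.one_apply, mul_one]
    exact this
  have hn : ∀ f : α → ℝ, Measurable f →
      eLpNorm (fun t => w t * f (σ t)) p ν = eLpNorm f p μ := by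
    intro f hf
    rw [eLpNorm_eq_lintegral_rpow_enorm_toReal p_ne0 hp,
      eLpNorm_eq_lintegral_rpow_enorm_toReal p_ne0 hp, ← hint _ (hf.enorm.pow_const _)]
    simp only [enorm_mul, ENNReal.mul_rpow_of_nonneg _ _ h0.le]
  have hm : ∀ x : Lp ℝ p μ, MemLp (fun t => w t * x (σ t)) p ν := fun x =>
    ⟨(hw.mul ((Lp.stronglyMeasurable x).measurable.comp hσ)).aestronglyMeasurable, by
      rw [hn _ (Lp.stronglyMeasurable x).measurable]; exact Lp.eLpNorm_lt_top x⟩
  let L : Lp ℝ p μ →ₗᵢ[ℝ] Lp ℝ p ν :=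
    { toFun := fun x => (hm x).toLp _
      map_add' := fun x y => Lp.ext (by
        filter_upwards [(hm (x + y)).coeFn_toLp, Lp.coeFn_add ((hm x).toLp _) ((hm y).toLp _),
          (hm x).coeFn_toLp, (hm y).coeFn_toLp, qmp.ae (Lp.coeFn_add x y)] with t a b c d e
        rw [a, b, Pi.add_apply, c, d, e, Pi.add_apply]; ring)
      map_smul' := fun c x => Lp.ext (by
        filter_upwards [(hm (c • x)).coeFn_toLp, Lp.coeFn_smul c ((hm x).toLp _),
          (hm x).coeFn_toLp, qmp.ae (Lp.coeFn_smul c x)] with t a b d e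
        rw [a, RingHom.id_apply, b, Pi.smul_apply, d, e, Pi.smul_apply, smul_eq_mul, smul_eq_mul]
        ring)
      norm_map' := fun x => by
        change ‖(hm x).toLp _‖ = _
        rw [Lp.norm_toLp, hn _ (Lp.stronglyMeasurable x).measurable, Lp.norm_def] }
  have hL : ∀ x, L x =ᵐ[ν] fun t => w t * x (σ t) := fun x => (hm x).coeFn_toLp
  refine ⟨LinearIsometryEquiv.ofSurjective L fun y => ?_, hL⟩
  have hf : Measurable fun a => y (τ a) / w (τ a) :=
    ((Lp.stronglyMeasurable y).measurable.comp hτ).div (hw.comp hτ)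
  have he : (fun t => w t * (y (τ (σ t)) / w (τ (σ t)))) =ᵐ[ν] y := by
    filter_upwards [hτσ] with t ht
    rw [ht, mul_div_cancel₀ _ (hw0 t)]
  have hmem : MemLp (fun a => y (τ a) / w (τ a)) p μ :=
    ⟨hf.aestronglyMeasurable, by
      rw [← hn _ hf, eLpNorm_congr_ae he]; exact Lp.eLpNorm_lt_top y⟩
  refine ⟨hmem.toLp _, Lp.ext ?_⟩
  filter_upwards [hL (hmem.toLp _), qmp.ae hmem.coeFn_toLp, he] with t a b c
  rw [a, b, c]

theorem real_iso (m : Measure ℝ) [IsProbabilityMeasure m] [NullSingletonClass m] :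
    ∃ F q : ℝ → ℝ, Measurable F ∧ Measurable q ∧ m.map F = volume.restrict (Icc 0 1) ∧
      ∀ᵐ y ∂m, q (F y) = y := by
  have hmono := (cdf m).mono
  have hc : Continuous (cdf m) := by
    refine continuous_iff_continuousAt.2 fun x => hmono.continuousAt_iff_leftLim_eq_rightLim.2 ?_
    rw [(cdf m).rightLim_eq]
    have a := (cdf m).measure_singleton x
    rw [measure_cdf, measure_singleton, eq_comm, ENNReal.ofReal_eq_zero] at a
    exact le_antisymm (hmono.leftLim_le le_rfl) (by linarith)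
  set q : ℝ → ℝ := fun u => sInf {x | u ≤ cdf m x} with hq
  have hne : ∀ u ∈ Ioo (0:ℝ) 1, {x | u ≤ cdf m x}.Nonempty := fun u hu =>
    ((tendsto_cdf_atTop m).eventually (eventually_ge_nhds hu.2)).exists
  have hbd : ∀ u ∈ Ioo (0:ℝ) 1, BddBelow {x | u ≤ cdf m x} := fun u hu => by
    obtain ⟨a, ha⟩ := ((tendsto_cdf_atBot m).eventually (eventually_lt_nhds hu.1)).exists
    exact ⟨a, fun x hx => by
      by_contra h
      exact (ha.trans_le hx).not_ge (hmono (not_le.1 h).le)⟩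
  have hmem : ∀ u ∈ Ioo (0:ℝ) 1, u ≤ cdf m (q u) := fun u hu =>
    (isClosed_le continuous_const hc).csInf_mem (hne u hu) (hbd u hu)
  have hiff : ∀ u ∈ Ioo (0:ℝ) 1, ∀ x, q u ≤ x ↔ u ≤ cdf m x := fun u hu x =>
    ⟨fun h => (hmem u hu).trans (hmono h), fun h => csInf_le (hbd u hu) h⟩
  have hFq : ∀ u ∈ Ioo (0:ℝ) 1, cdf m (q u) = u := fun u hu => by
    refine le_antisymm ?_ (hmem u hu)
    have a : Tendsto (cdf m) (𝓝[<] q u) (𝓝 (cdf m (q u))) :=
      (hc.tendsto _).mono_left nhdsWithin_le_nhds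
    refine le_of_tendsto a ?_
    filter_upwards [self_mem_nhdsWithin] with x hx
    by_contra h
    exact (show x < q u from hx).not_ge ((hiff u hu x).2 (not_le.1 h).le)
  have hqm : AEMeasurable q (volume.restrict (Ioo 0 1)) :=
    aemeasurable_restrict_of_monotoneOn measurableSet_Ioo fun u hu v hv huv =>
      (hiff u hu _).2 (huv.trans (hmem v hv))
  have hq' : ∀ᵐ u ∂(volume.restrict (Ioo (0:ℝ) 1)), hqm.mk q u = q u ∧ u ∈ Ioo (0:ℝ) 1 :=
    hqm.ae_eq_mk.symm.and (ae_restrict_mem measurableSet_Ioo)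
  have hmap : (volume.restrict (Ioo (0:ℝ) 1)).map (hqm.mk q) = m := by
    refine Measure.ext_of_Iic _ _ fun x => ?_
    rw [Measure.map_apply hqm.measurable_mk measurableSet_Iic, ← ofReal_cdf]
    have : (hqm.mk q ⁻¹' Iic x : Set ℝ) =ᵐ[volume.restrict (Ioo (0:ℝ) 1)] Iic (cdf m x) := by
      filter_upwards [hq'] with u hu
      change (hqm.mk q u ≤ x) = (u ≤ cdf m x)
      rw [hu.1, hiff u hu.2]
    rw [measure_congr this, Measure.restrict_apply measurableSet_Iic]
    rcases (cdf_le_one m x).eq_or_lt with h | h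
    · have : Iic (cdf m x) ∩ Ioo 0 1 = Ioo 0 1 :=
        inter_eq_right.2 fun u hu => by rw [h]; exact hu.2.le
      rw [this, h]; simp
    · have : Iic (cdf m x) ∩ Ioo 0 1 = Ioc 0 (cdf m x) := by
        ext u; simp only [mem_inter_iff, mem_Iic, mem_Ioo, mem_Ioc]
        exact ⟨fun a => ⟨a.2.1, a.1⟩, fun a => ⟨a.2, a.1, a.2.trans_lt h⟩⟩
      rw [this]; simp
  refine ⟨cdf m, hqm.mk q, hc.measurable, hqm.measurable_mk, ?_, ?_⟩
  · rw [← Measure.restrict_congr_set Ioo_ae_eq_Icc]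
    refine (congrArg (Measure.map (cdf m)) hmap.symm).trans ?_
    rw [Measure.map_map hc.measurable hqm.measurable_mk]
    conv_rhs => rw [← Measure.map_id (μ := volume.restrict (Ioo (0:ℝ) 1))]
    refine Measure.map_congr ?_
    filter_upwards [hq'] with u hu
    simp only [Function.comp, hu.1, hFq u hu.2, id]
  · have : ∀ᵐ y ∂((volume.restrict (Ioo (0:ℝ) 1)).map (hqm.mk q)), hqm.mk q (cdf m y) = y := by
      refine (ae_map_iff hqm.measurable_mk.aemeasurable
        (measurableSet_eq_fun (hqm.measurable_mk.comp hc.measurable) measurable_id)).2 ?_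
      filter_upwards [hq'] with u hu
      change hqm.mk q (cdf m (hqm.mk q u)) = hqm.mk q u
      rw [show cdf m (hqm.mk q u) = u by rw [hu.1, hFq u hu.2]]
    rwa [hmap] at this

theorem Lp_iso (hp : p ≠ ∞) [StandardBorelSpace β] (ν : Measure β) [SigmaFinite ν] [NullSingletonClass ν]
    (hν : ν ≠ 0) : Nonempty (Lp ℝ p (volume.restrict (Icc (0:ℝ) 1)) ≃ₗᵢ[ℝ] Lp ℝ p ν) := by
  have h0 : 0 < p.toReal := ENNReal.toReal_pos p_ne0 hp
  haveI : Nonempty β := by
    by_contra h
    rw [not_nonempty_iff] at h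
    exact hν (Measure.eq_zero_of_isEmpty ν)
  obtain ⟨g, hg0, hg, hg1⟩ := exists_pos_lintegral_lt_of_sigmaFinite ν one_ne_zero
  have hc0 : ∫⁻ t, (g t : ℝ≥0∞) ∂ν ≠ 0 := by
    rw [Ne, lintegral_eq_zero_iff hg.coe_nnreal_ennreal]
    intro h
    apply hν
    rw [← Measure.measure_univ_eq_zero]
    refine measure_mono_null (fun t _ => ?_) (ae_iff.1 h)
    simp [(hg0 t).ne']
  obtain ⟨c, hc⟩ : ∃ c : ℝ≥0, ∫⁻ t, (g t : ℝ≥0∞) ∂ν = c :=
    ⟨_, (ENNReal.coe_toNNReal (hg1.trans ENNReal.one_lt_top).ne).symm⟩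
  have hcp : c ≠ 0 := by rintro rfl; exact hc0 hc
  set ρ : β → ℝ≥0 := fun t => c⁻¹ * g t with hρ
  have hρm : Measurable ρ := hg.const_mul _
  have hρ0 : ∀ t, ρ t ≠ 0 := fun t => mul_ne_zero (inv_ne_zero hcp) (hg0 t).ne'
  set κ := ν.withDensity fun t => (ρ t : ℝ≥0∞) with hκ
  haveI : IsProbabilityMeasure κ := ⟨by
    rw [hκ, withDensity_apply _ MeasurableSet.univ, Measure.restrict_univ]
    simp only [hρ, ENNReal.coe_mul]
    rw [lintegral_const_mul _ hg.coe_nnreal_ennreal, hc, ← ENNReal.coe_mul, inv_mul_cancel₀ hcp]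
    simp⟩
  have hψ := measurableEmbedding_embeddingReal β
  haveI : IsProbabilityMeasure (κ.map (embeddingReal β)) :=
    Measure.isProbabilityMeasure_map hψ.measurable.aemeasurable
  haveI : NullSingletonClass (κ.map (embeddingReal β)) := ⟨fun x => by
    rw [hψ.map_apply]
    exact withDensity_absolutelyContinuous ν _
      ((subsingleton_singleton.preimage hψ.injective).measure_zero ν)⟩
  obtain ⟨F, q, hF, hq, hmap, hqF⟩ := real_iso (κ.map (embeddingReal β))
  obtain ⟨U, -⟩ := wiso (μ := volume.restrict (Icc (0:ℝ) 1)) (ν := ν) hp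
    (σ := fun t => F (embeddingReal β t)) (τ := fun a => hψ.invFun (q a))
    (w := fun t => (ρ t : ℝ) ^ (1 / p.toReal)) (hF.comp hψ.measurable)
    (hψ.measurable_invFun.comp hq) (hρm.coe_nnreal_real.pow_const _)
    (fun t => (Real.rpow_pos_of_pos (NNReal.coe_pos.2 (pos_iff_ne_zero.2 (hρ0 t))) _).ne')
    (fun G hG => by
      rw [← hmap, lintegral_map hG hF, lintegral_map (f := fun a => G (F a)) (hG.comp hF) hψ.measurable, hκ,
        lintegral_withDensity_eq_lintegral_mul _ hρm.coe_nnreal_ennreal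
          (g := fun a => G (F (embeddingReal β a))) ((hG.comp hF).comp hψ.measurable)]
      refine lintegral_congr fun t => ?_
      congr 1
      rw [Real.enorm_rpow_of_nonneg (NNReal.coe_nonneg _) (by positivity), ← ENNReal.rpow_mul,
        one_div, inv_mul_cancel₀ h0.ne', ENNReal.rpow_one]
      simp)
    (by
      have a := (withDensity_absolutelyContinuous' (μ := ν) hρm.coe_nnreal_ennreal.aemeasurable
        (Eventually.of_forall fun t => by simpa using hρ0 t)).ae_le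
        (ae_of_ae_map hψ.measurable.aemeasurable hqF)
      filter_upwards [a] with t ht
      rw [show q (F (embeddingReal β t)) = embeddingReal β t from ht, hψ.leftInverse_invFun t])
  exact ⟨U⟩

end H29.DL
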