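import Pool.Agent.H29.DL2
import Pool.Agent.H29.DL4

namespace H29.DL

open MeasureTheory Filter Topology Set
open scoped ENNReal NNReal

variable {p : ℝ≥0∞} [Fact (1 ≤ p)]

noncomputable abbrev nuN : Measure (ℕ × ℝ) := (Measure.count : Measure ℕ).prod volume

lemma mp_perm (π : Equiv.Perm ℕ) : MeasurePreserving (Prod.map π id) nuN nuN := by
  refine MeasurePreserving.prod ⟨measurable_from_nat, ?_⟩ (MeasurePreserving.id _)
  ext s hs
  rw [Measure.map_apply measurable_from_nat hs, ← Measure.count_injective_image π.injective,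
    image_preimage_eq _ π.surjective]

def blk (k : ℕ) : Set (ℕ × ℝ) := {k} ×ˢ Ioc 0 1

lemma blk_meas (k : ℕ) : MeasurableSet (blk k) := (measurableSet_singleton k).prod measurableSet_Ioc
lemma blk_vol (k : ℕ) : nuN (blk k) = 1 := by simp [blk, Measure.prod_prod]

lemma blk_int (k : ℕ) (x : Lp ℝ p nuN) : Integrable x (nuN.restrict (blk k)) := by
  haveI : IsFiniteMeasure (nuN.restrict (blk k)) := ⟨by simp [blk_vol]⟩
  exact ((Lp.memLp x).restrict _).integrable Fact.out

noncomputable def lk (k : ℕ) : Lp ℝ p nuN →L[ℝ] ℝ :=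
  LinearMap.mkContinuous
    { toFun := fun x => ∫ t in blk k, x t ∂nuN
      map_add' := fun x y => by
        rw [← integral_add (blk_int k x) (blk_int k y)]
        exact integral_congr_ae (ae_restrict_of_ae (Lp.coeFn_add x y))
      map_smul' := fun c x => by
        rw [RingHom.id_apply, ← integral_smul]
        exact integral_congr_ae (ae_restrict_of_ae (Lp.coeFn_smul c x)) } 1 (fun x => by
      haveI : IsProbabilityMeasure (nuN.restrict (blk k)) := ⟨by simp [blk_vol]⟩
      rw [one_mul, Lp.norm_def]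
      refine (norm_integral_le_lintegral_norm _).trans
        (ENNReal.toReal_mono (Lp.eLpNorm_ne_top x) ?_)
      simp only [ofReal_norm]
      rw [← eLpNorm_one_eq_lintegral_enorm]
      exact (eLpNorm_le_eLpNorm_of_exponent_le Fact.out
        (Lp.aestronglyMeasurable x).restrict).trans (eLpNorm_restrict_le _ _ _ _))

lemma lk_apply (k : ℕ) (x : Lp ℝ p nuN) : lk k x = ∫ t in blk k, x t ∂nuN := rfl

noncomputable def NA (p : ℝ≥0∞) [Fact (1 ≤ p)] (A : Set ℕ) : Seminorm ℝ (Lp ℝ p nuN) :=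
  (normSeminorm ℝ _).comp (LpToLpRestrictCLM (ℕ × ℝ) ℝ ℝ nuN p (A ×ˢ univ)).toLinearMap

lemma NA_eq (hp : p ≠ ∞) (A : Set ℕ) (x : Lp ℝ p nuN) :
    NA p A x = ((∫⁻ t in A ×ˢ univ, ‖x t‖ₑ ^ p.toReal ∂nuN) ^ (1 / p.toReal)).toReal := by
  change ‖LpToLpRestrictCLM (ℕ × ℝ) ℝ ℝ nuN p (A ×ˢ univ) x‖ = _
  rw [Lp.norm_def, eLpNorm_congr_ae (LpToLpRestrictCLM_coeFn ℝ _ x),
    eLpNorm_eq_lintegral_rpow_enorm_toReal p_ne0 hp]

theorem LpN_not_dl (hp : p ≠ ∞) (hp1 : p ≠ 1) : ¬ DL (Lp ℝ p nuN) := by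
  classical
  have h0 : 0 < p.toReal := ENNReal.toReal_pos p_ne0 hp
  have h1 : 1 < p.toReal := by
    have a : (1:ℝ≥0∞) < p := lt_of_le_of_ne Fact.out (Ne.symm hp1)
    simpa using (ENNReal.toReal_lt_toReal (by simp) hp).2 a
  have hg : ∀ π : Equiv.Perm ℕ, ∃ U : Lp ℝ p nuN ≃ₗᵢ[ℝ] Lp ℝ p nuN,
      ∀ x, U x =ᵐ[nuN] fun t => 1 * x (Prod.map π id t) := fun π =>
    wiso hp (τ := Prod.map π.symm id) (mp_perm π).measurable (mp_perm π.symm).measurable
      measurable_const (fun _ => one_ne_zero)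
      (fun F hF => by simpa using (mp_perm π).lintegral_comp hF)
      (Eventually.of_forall fun t => Prod.ext (π.symm_apply_apply _) rfl)
  choose g hg using hg
  simp only [one_mul] at hg
  have hwm : ∀ m : ℕ, Measurable fun t : ℕ × ℝ => if t.1 = m then (-1:ℝ) else 1 := fun m =>
    (measurable_from_nat (f := fun k => if k = m then (-1:ℝ) else 1)).comp measurable_fst
  have hwn : ∀ (m : ℕ) (t : ℕ × ℝ), ‖if t.1 = m then (-1:ℝ) else 1‖ₑ = 1 := fun m t => by
    split_ifs <;> simp
  have hs : ∀ m : ℕ, ∃ U : Lp ℝ p nuN ≃ₗᵢ[ℝ] Lp ℝ p nuN,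
      ∀ x, U x =ᵐ[nuN] fun t => (if t.1 = m then (-1:ℝ) else 1) * x (id t) := fun m =>
    wiso hp (τ := id) measurable_id measurable_id (hwm m) (fun t => by split_ifs <;> simp)
      (fun F hF => by simp [hwn]) (Eventually.of_forall fun t => rfl)
  choose sg hs using hs
  have hfin : ∀ (S : Set (ℕ × ℝ)) (x : Lp ℝ p nuN), ∫⁻ t in S, ‖x t‖ₑ ^ p.toReal ∂nuN ≠ ∞ :=
    fun S x => (lintegral_rpow_enorm_lt_top_of_eLpNorm_lt_top p_ne0 hp
      ((Lp.memLp x).restrict S).2).ne
  have hpow : ∀ A (x : Lp ℝ p nuN), NA p A x ^ p.toReal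
      = (∫⁻ t in A ×ˢ univ, ‖x t‖ₑ ^ p.toReal ∂nuN).toReal := fun A x => by
    rw [NA_eq hp, ENNReal.toReal_rpow, ← ENNReal.rpow_mul, one_div, inv_mul_cancel₀ h0.ne',
      ENNReal.rpow_one]
  have hAm : ∀ A : Set ℕ, MeasurableSet (A ×ˢ (univ : Set ℝ)) := fun A =>
    MeasurableSet.of_discrete.prod MeasurableSet.univ
  set e : ℕ → Lp ℝ p nuN := fun k =>
    indicatorConstLp p (blk_meas k) (by simp [blk_vol]) (1:ℝ) with he
  have hec : ∀ k, e k =ᵐ[nuN] (blk k).indicator fun _ => (1:ℝ) := fun k => indicatorConstLp_coeFn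
  have hpre : ∀ (π : Equiv.Perm ℕ) k, Prod.map π id ⁻¹' blk (π k) = blk k := fun π k => by
    ext t; simp [blk]
  refine not_dl h1 (NA p) (fun A B x h => ?_) (fun x => ?_) g (fun π A x => ?_) sg
    (fun m A x => ?_) e lk (fun k x => ?_) ?_ (fun π k x => ?_) (fun π k => ?_) (fun m => ?_)
    (fun m k x h => ?_) (fun n => ?_)
  · rw [hpow, hpow, hpow, union_prod, lintegral_union (hAm B) (h.set_prod_left _ _),
      ENNReal.toReal_add (hfin _ x) (hfin _ x)]
  · rw [NA_eq hp, univ_prod_univ, Measure.restrict_univ, Lp.norm_def,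
      eLpNorm_eq_lintegral_rpow_enorm_toReal p_ne0 hp]
  · rw [NA_eq hp, NA_eq hp, ← (mp_perm π).setLIntegral_comp_preimage (hAm _)
      ((Lp.stronglyMeasurable x).measurable.enorm.pow_const _)]
    have : Prod.map π id ⁻¹' ((π '' A) ×ˢ (univ : Set ℝ)) = A ×ˢ univ := by
      ext t; simp
    rw [this]
    congr 2
    refine lintegral_congr_ae (ae_restrict_of_ae ?_)
    filter_upwards [hg π x] with t ht
    rw [ht]
  · rw [NA_eq hp, NA_eq hp]
    congr 2
    refine lintegral_congr_ae (ae_restrict_of_ae ?_)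
    filter_upwards [hs m x] with t ht
    rw [ht, enorm_mul, hwn, one_mul, id]
  · have := (lk k).le_of_opNorm_le (LinearMap.mkContinuous_norm_le _ zero_le_one _) x
    rwa [one_mul] at this
  · rw [lk_apply, integral_congr_ae (ae_restrict_of_ae (hec 0)),
      setIntegral_indicator (blk_meas 0)]
    simp [Measure.real, blk_vol]
  · rw [lk_apply, lk_apply, integral_congr_ae (ae_restrict_of_ae (hg π x)),
      ← ((mp_perm π).restrict_preimage (blk_meas (π k))).map_eq,
      integral_map (mp_perm π).measurable.aemeasurable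
        (Lp.stronglyMeasurable x).aestronglyMeasurable, hpre]
  · refine Lp.ext ?_
    filter_upwards [hg π (e (π k)), (mp_perm π).quasiMeasurePreserving.ae (hec (π k)), hec k]
      with t a b c
    rw [a, b, c, ← hpre π k]
    rfl
  · refine Lp.ext ?_
    filter_upwards [hs m (e m), hec m, Lp.coeFn_neg (e m)] with t a b c
    rw [a, c, Pi.neg_apply, id, b]
    by_cases ht : t.1 = m
    · simp [ht]
    · have : t ∉ blk m := fun h => ht h.1
      simp [this]
  · rw [lk_apply, lk_apply]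
    refine integral_congr_ae ?_
    filter_upwards [ae_restrict_of_ae (hs m x), ae_restrict_mem (blk_meas k)] with t a b
    have : t.1 ≠ m := fun h' => h ((show t.1 = k from b.1).symm.trans h')
    rw [a, if_neg this, one_mul, id]
  · have a : ((∑ k ∈ Finset.range n, e k : Lp ℝ p nuN) : ℕ × ℝ → ℝ)
        =ᵐ[nuN] (((Finset.range n : Set ℕ)) ×ˢ Ioc (0:ℝ) 1).indicator fun _ => (1:ℝ) := by
      induction n with
      | zero =>
        simp only [Finset.range_zero, Finset.sum_empty, Finset.coe_empty, empty_prod, indicator_empty]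
        exact Lp.coeFn_zero ℝ p nuN
      | succ n ih =>
        rw [Finset.sum_range_succ]
        filter_upwards [Lp.coeFn_add (∑ k ∈ Finset.range n, e k) (e n), ih, hec n] with t a b c
        rw [a, Pi.add_apply, b, c]
        simp only [indicator, blk, mem_prod, Finset.coe_range, mem_Iio, mem_singleton_iff]
        by_cases h2 : t.2 ∈ Ioc (0:ℝ) 1
        · rcases lt_trichotomy t.1 n with h | h | h
          · simp [h2, h, h.ne, h.le]
          · simp [h2, h]
          · simp [h2, h.ne', h.not_gt, h]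
        · simp [h2]
    rw [Lp.norm_def, eLpNorm_congr_ae a, eLpNorm_indicator_const
      (MeasurableSet.of_discrete.prod measurableSet_Ioc) p_ne0 hp, Measure.prod_prod,
      Measure.count_apply_finset, enorm_one, one_mul, ENNReal.toReal_rpow, ← ENNReal.rpow_mul, one_div,
      inv_mul_cancel₀ h0.ne']
    simp

end H29.DL
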