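import Pool.Agent.H29.DL1
import Pool.Agent.H29.DL4

namespace H29.DL

open MeasureTheory Filter Topology Set
open scoped ENNReal NNReal

lemma lip_bil {X : Type*} [NormedAddCommGroup X] [NormedSpace ℝ X] (B : X →ₗ[ℝ] X →ₗ[ℝ] ℝ)
    (hB : ∀ a b, |B a b| ≤ ‖a‖ * ‖b‖) (A : X → X) (hA : ∀ x y, ‖A x - A y‖ ≤ ‖x - y‖)
    (hA' : ∀ x, ‖A x‖ = ‖x‖) : Lc 3 fun x => B (A x) x / ‖x‖ := by
  have key : ∀ x y : X, ‖y‖ ≤ ‖x‖ → |B (A x) x / ‖x‖ - B (A y) y / ‖y‖| ≤ 3 * ‖x - y‖ := by
    intro x y h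
    by_cases hy : y = 0
    · subst hy
      simp only [map_zero, zero_div, sub_zero]
      rw [abs_div, abs_norm]
      refine div_le_of_le_mul₀ (norm_nonneg _) (by positivity) ((hB _ _).trans ?_)
      rw [hA']; nlinarith [norm_nonneg x]
    have hy' := norm_pos_iff.2 hy
    have hx' := hy'.trans_le h
    have e : B (A x) x / ‖x‖ - B (A y) y / ‖y‖ = (B (A x) (x - y) + B (A x - A y) y
        + B (A y) y / ‖y‖ * (‖y‖ - ‖x‖)) / ‖x‖ := by
      simp only [map_sub, LinearMap.sub_apply]; field_simp; ring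
    rw [e, abs_div, abs_norm, div_le_iff₀ hx']
    have a1 := hB (A x) (x - y)
    have a2 := (hB (A x - A y) y).trans (mul_le_mul (hA x y) h hy'.le (norm_nonneg _))
    have a3 : |B (A y) y / ‖y‖| ≤ ‖x‖ := by
      rw [abs_div, abs_norm, div_le_iff₀ hy']
      refine (hB _ _).trans ?_
      rw [hA']; nlinarith
    have a4 : |‖y‖ - ‖x‖| ≤ ‖x - y‖ := by rw [abs_sub_comm]; exact abs_norm_sub_norm_le x y
    have a5 := mul_le_mul a3 a4 (abs_nonneg _) hx'.le
    rw [← abs_mul] at a5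
    rw [hA'] at a1
    have := abs_add_three (B (A x) (x - y)) (B (A x - A y) y) (B (A y) y / ‖y‖ * (‖y‖ - ‖x‖))
    linarith
  refine ⟨by simp, fun x y => ?_⟩
  rcases le_total ‖y‖ ‖x‖ with h | h
  · exact key x y h
  · rw [abs_sub_comm, norm_sub_rev]; exact key y x h

noncomputable abbrev mu2 : Measure (ℝ × ℝ) := (volume : Measure ℝ).prod volume
noncomputable abbrev X1 := Lp ℝ 1 mu2

def DS (S : Set (ℝ × ℝ)) : Set ((ℝ × ℝ) × (ℝ × ℝ)) := {z | z.2 - z.1 ∈ S}

lemma DS_meas {S : Set (ℝ × ℝ)} (hS : MeasurableSet S) : MeasurableSet (DS S) :=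
  (measurable_snd.sub measurable_fst) hS

lemma int2 (a b : X1) : Integrable (fun z : (ℝ × ℝ) × (ℝ × ℝ) => a z.1 * b z.2) (mu2.prod mu2) :=
  (L1.integrable_coeFn a).mul_prod (L1.integrable_coeFn b)

lemma ae1 {P : ℝ × ℝ → Prop} (h : ∀ᵐ t ∂mu2, P t) : ∀ᵐ z ∂(mu2.prod mu2), P z.1 :=
  Measure.quasiMeasurePreserving_fst.ae h
lemma ae2 {P : ℝ × ℝ → Prop} (h : ∀ᵐ t ∂mu2, P t) : ∀ᵐ z ∂(mu2.prod mu2), P z.2 :=
  Measure.quasiMeasurePreserving_snd.ae h

noncomputable def BS (S : Set (ℝ × ℝ)) : X1 →ₗ[ℝ] X1 →ₗ[ℝ] ℝ :=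
  LinearMap.mk₂ ℝ (fun a b => ∫ z in DS S, a z.1 * b z.2 ∂(mu2.prod mu2))
    (fun a a' b => by
      rw [← integral_add (int2 a b).restrict (int2 a' b).restrict]
      refine integral_congr_ae (ae_restrict_of_ae ?_)
      filter_upwards [ae1 (Lp.coeFn_add a a')] with z hz
      rw [hz, Pi.add_apply]; ring)
    (fun c a b => by
      rw [← integral_smul]
      refine integral_congr_ae (ae_restrict_of_ae ?_)
      filter_upwards [ae1 (Lp.coeFn_smul c a)] with z hz
      rw [hz, Pi.smul_apply, smul_eq_mul, smul_eq_mul]; ring)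
    (fun a b b' => by
      rw [← integral_add (int2 a b).restrict (int2 a b').restrict]
      refine integral_congr_ae (ae_restrict_of_ae ?_)
      filter_upwards [ae2 (Lp.coeFn_add b b')] with z hz
      rw [hz, Pi.add_apply]; ring)
    (fun c a b => by
      rw [← integral_smul]
      refine integral_congr_ae (ae_restrict_of_ae ?_)
      filter_upwards [ae2 (Lp.coeFn_smul c b)] with z hz
      rw [hz, Pi.smul_apply, smul_eq_mul, smul_eq_mul]; ring)

lemma BS_apply (S : Set (ℝ × ℝ)) (a b : X1) :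
    BS S a b = ∫ z in DS S, a z.1 * b z.2 ∂(mu2.prod mu2) := rfl

lemma BS_le (S : Set (ℝ × ℝ)) (a b : X1) : |BS S a b| ≤ ‖a‖ * ‖b‖ := by
  rw [BS_apply, L1.norm_eq_integral_norm, L1.norm_eq_integral_norm, ← integral_prod_mul]
  rw [← Real.norm_eq_abs]
  refine (norm_integral_le_integral_norm _).trans ?_
  simp only [← norm_mul]
  exact setIntegral_le_integral (int2 a b).norm (Eventually.of_forall fun _ => norm_nonneg _)

noncomputable def fS (S : Set (ℝ × ℝ)) (x : X1) : ℝ := BS S |x| x / ‖x‖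

lemma fS_lip (S : Set (ℝ × ℝ)) : Lc 3 (fS S) :=
  lip_bil (BS S) (BS_le S) (fun x => |x|) norm_abs_sub_abs norm_abs_eq_norm

lemma fS_comp {T : ℝ × ℝ → ℝ × ℝ} (hT : MeasurePreserving T mu2 mu2) {g : X1 ≃ₗᵢ[ℝ] X1}
    (hg : ∀ x, g x =ᵐ[mu2] fun t => x (T t)) {S S' : Set (ℝ × ℝ)} (hS' : MeasurableSet S')
    (h : DS S = Prod.map T T ⁻¹' DS S') : fS S ∘ g = fS S' := by
  funext x
  simp only [Function.comp, fS, g.norm_map, BS_apply]
  congr 1
  rw [← ((hT.prod hT).restrict_preimage (DS_meas hS')).map_eq, integral_map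
    (f := fun z : (ℝ × ℝ) × (ℝ × ℝ) => (|x| : X1) z.1 * x z.2) (hT.prod hT).measurable.aemeasurable
    (((Lp.stronglyMeasurable |x|).measurable.comp measurable_fst).mul
      ((Lp.stronglyMeasurable x).measurable.comp measurable_snd)).aestronglyMeasurable, h]
  refine integral_congr_ae (ae_restrict_of_ae ?_)
  filter_upwards [ae1 (Lp.coeFn_abs (g x)), ae1 (hg x), ae2 (hg x),
    ae1 (hT.quasiMeasurePreserving.ae (Lp.coeFn_abs x))] with z a b c d
  simp only [Function.comp, Prod.map_fst, Prod.map_snd]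
  rw [a, b, c, d]

lemma ex_g {T τ : ℝ × ℝ → ℝ × ℝ} (hT : MeasurePreserving T mu2 mu2) (hτ : Measurable τ)
    (h : ∀ t, τ (T t) = t) : ∃ g : X1 ≃ₗᵢ[ℝ] X1, ∀ x, g x =ᵐ[mu2] fun t => x (T t) := by
  obtain ⟨g, hg⟩ := wiso (p := 1) (μ := mu2) (ν := mu2) (w := fun _ => 1) (by simp) hT.measurable hτ
    measurable_const (fun _ => one_ne_zero) (fun F hF => by simpa using hT.lintegral_comp hF)
    (Eventually.of_forall h)
  exact ⟨g, by simpa using hg⟩

theorem L1_not_dl : ¬ DL X1 := by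
  classical
  rintro ⟨R, C, hC, h1, h2, h3, h4⟩
  have h30 : (0:ℝ) ≤ 3 := by norm_num
  have mγ : MeasurePreserving (fun z : ℝ × ℝ => (z.1, z.1 + z.2)) mu2 mu2 :=
    measurePreserving_prod_add volume volume
  have mT : MeasurePreserving (fun z : ℝ × ℝ => (z.1, z.2 + 1)) mu2 mu2 :=
    (MeasurePreserving.id volume).prod (measurePreserving_add_right volume 1)
  have mw : MeasurePreserving Prod.swap mu2 mu2 := Measure.measurePreserving_swap
  obtain ⟨gγ, hγ⟩ := ex_g (τ := fun z => (z.1, z.2 - z.1)) mγ (by fun_prop) fun t => by simp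
  obtain ⟨gT, hT⟩ := ex_g (τ := fun z => (z.1, z.2 - 1)) mT (by fun_prop) fun t => by simp
  obtain ⟨gw, hw⟩ := ex_g (τ := Prod.swap) mw measurable_swap fun t => rfl
  set Q : Set (ℝ × ℝ) := Ico 0 1 ×ˢ Ico 0 1 with hQ
  set P : Set (ℝ × ℝ) := Q ∩ {z | z.1 + z.2 < 1} with hP
  have hQm : MeasurableSet Q := measurableSet_Ico.prod measurableSet_Ico
  have hPm : MeasurableSet P :=
    hQm.inter (measurableSet_lt (measurable_fst.add measurable_snd) measurable_const)
  have hQv : mu2 Q = 1 := by simp [hQ, Measure.prod_prod]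
  obtain ⟨u, hu⟩ : ∃ u : X1, u =ᵐ[mu2] Q.indicator fun _ => (1:ℝ) :=
    ⟨indicatorConstLp 1 hQm (by simp [hQv]) (1:ℝ), indicatorConstLp_coeFn⟩
  obtain ⟨v, hv⟩ : ∃ v : X1, v =ᵐ[mu2] P.indicator fun _ => (1:ℝ) :=
    ⟨indicatorConstLp 1 hPm (ne_top_of_le_ne_top (by simp [hQv]) (measure_mono inter_subset_left))
      (1:ℝ), indicatorConstLp_coeFn⟩
  have huγ : gγ u = v + (gT u - gT v) := by
    refine Lp.ext ?_
    filter_upwards [hγ u, hT u, hT v, Lp.coeFn_add v (gT u - gT v), Lp.coeFn_sub (gT u) (gT v),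
      mγ.quasiMeasurePreserving.ae hu, mT.quasiMeasurePreserving.ae hu,
      mT.quasiMeasurePreserving.ae hv, hv] with t a1 a2 a3 a4 a5 a6 a7 a8 a9
    rw [a1, a4, Pi.add_apply, a5, Pi.sub_apply, a2, a3, a6, a7, a8, a9]
    simp only [indicator, hP, hQ, mem_inter_iff, mem_prod, mem_Ico, mem_ofPred_eq]
    split_ifs <;> first | (norm_num; done) | (exfalso; grind)
  have huw : gw u = u := by
    refine Lp.ext ?_
    filter_upwards [hw u, mw.quasiMeasurePreserving.ae hu, hu] with t a1 a2 a3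
    rw [a1, a2, a3]
    simp only [indicator, hQ, mem_prod, Prod.fst_swap, Prod.snd_swap, and_comm]
  have htr : ∀ S, MeasurableSet S → ∀ x, R (fS S) (gT x) = R (fS S) x := fun S hS x => by
    rw [← h4 gT _ _ x h30 (fS_lip S), fS_comp mT hT hS (by ext z; simp [DS, Prod.sub_def])]
  obtain ⟨c, hc⟩ : ∃ c : Set (ℝ × ℝ) → ℝ, ∀ S, c S = R (fS S) u := ⟨_, fun _ => rfl⟩
  have cγ : ∀ S, MeasurableSet S → c ((fun z : ℝ × ℝ => (z.1, z.1 + z.2)) ⁻¹' S) = c S := by
    intro S hS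
    have := h4 gγ _ _ u h30 (fS_lip ((fun z : ℝ × ℝ => (z.1, z.1 + z.2)) ⁻¹' S))
    rw [fS_comp mγ hγ hS (by
      ext z; simp only [DS, mem_preimage, mem_ofPred_eq, Prod.map_fst, Prod.map_snd, Prod.sub_def]
      rw [show z.2.1 - z.1.1 + (z.2.2 - z.1.2) = z.2.1 + z.2.2 - (z.1.1 + z.1.2) by ring]), huγ,
      map_add, map_sub, htr _ (mγ.measurable hS), htr _ (mγ.measurable hS)] at this
    rw [hc, hc, this]; ring
  have cw : ∀ S, MeasurableSet S → c (Prod.swap ⁻¹' S) = c S := by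
    intro S hS
    have := h4 gw _ _ u h30 (fS_lip (Prod.swap ⁻¹' S))
    rw [fS_comp mw hw hS (by ext z; simp [DS, Prod.sub_def]), huw] at this
    rw [hc, hc, this]
  have cadd : ∀ S S', MeasurableSet S' → Disjoint S S' → c (S ∪ S') = c S + c S' := by
    intro S S' hS' h
    have : fS (S ∪ S') = fS S + fS S' := by
      funext x
      simp only [Pi.add_apply, fS, BS_apply]
      rw [← add_div, ← setIntegral_union (s := DS S) (t := DS S') (h.preimage _) (DS_meas hS') (int2 _ _).integrableOn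
        (int2 _ _).integrableOn]
      rfl
    rw [hc, hc, hc, this, h1 _ _ _ _ h30 h30 (fS_lip S) (fS_lip S')]; rfl
  have cbd : ∀ S, |c S| ≤ C * 3 * ‖u‖ := fun S => by rw [hc]; exact h2 _ _ _ h30 (fS_lip S)
  have cnull : ∀ S, (mu2.prod mu2) (DS S) = 0 → c S = 0 := fun S hS => by
    have : fS S = (0 : X1 →L[ℝ] ℝ) := by
      funext x
      simp [fS, BS_apply, Measure.restrict_eq_zero.2 hS]
    rw [hc, this, h3]; rfl
  have cuniv : c univ = 1 := by
    have : fS univ = (L1.integralCLM : X1 →L[ℝ] ℝ) := by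
      funext x
      have e : DS univ = univ := by ext; simp [DS]
      rw [fS, BS_apply, e, Measure.restrict_univ, integral_prod_mul, ← L1.integral_eq,
        L1.integral_eq_integral]
      have : ∫ t, (|x| : X1) t ∂mu2 = ‖x‖ := by
        rw [L1.norm_eq_integral_norm]; exact integral_congr_ae (Lp.coeFn_abs x)
      rw [this]
      by_cases hx : x = 0
      · subst hx; simp
      · exact mul_div_cancel_left₀ _ (norm_ne_zero_iff.2 hx)
    rw [hc, this, h3, ← L1.integral_eq, L1.integral_eq_integral, integral_congr_ae hu,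
      integral_indicator hQm]
    simp [Measure.real, hQv]
  have czero : c {0} = 0 := cnull _ (by
    rw [Measure.measure_prod_null (DS_meas (measurableSet_singleton _))]
    refine Eventually.of_forall fun s => ?_
    have : Prod.mk s ⁻¹' DS {0} = {s} := by ext t; simp [DS, sub_eq_zero]
    simp [this])
  have wand : ∀ S, MeasurableSet S → (∀ z ∈ S, z.1 ≠ 0 ∧ |z.2| ≤ |z.1|) → c S = 0 := by
    intro S hS hE
    obtain ⟨W, hW⟩ : ∃ W : ℕ → Set (ℝ × ℝ), ∀ k : ℕ, W k = {z | (z.1, (k : ℝ) * z.1 + z.2) ∈ S} :=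
      ⟨_, fun _ => rfl⟩
    have hWm : ∀ k, MeasurableSet (W k) := fun k => by
      rw [hW]; exact (show Measurable fun z : ℝ × ℝ => (z.1, (k : ℝ) * z.1 + z.2) by fun_prop) hS
    have hWc : ∀ k, c (W k) = c S := by
      intro k
      induction k with
      | zero => simp [hW]
      | succ k ih =>
        rw [← ih, ← cγ _ (hWm k)]
        congr 1
        ext z
        simp only [hW, mem_preimage, mem_ofPred_eq]
        rw [show ((k + 1 : ℕ) : ℝ) * z.1 + z.2 = k * z.1 + (z.1 + z.2) by push_cast; ring]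
    have hU : ∀ n : ℕ, c {z | ∃ k < n, z ∈ W (3 * k)} = n * c S := by
      intro n
      induction n with
      | zero => simpa using cnull ∅ (by simp [DS])
      | succ n ih =>
        have e : {z | ∃ k < n + 1, z ∈ W (3 * k)} = {z | ∃ k < n, z ∈ W (3 * k)} ∪ W (3 * n) := by
          ext z
          simp only [mem_ofPred_eq, mem_union, Nat.lt_succ_iff_lt_or_eq]
          exact ⟨fun ⟨k, hk, h⟩ => hk.elim (fun a => Or.inl ⟨k, a, h⟩) fun a => Or.inr (a ▸ h),
            fun h => h.elim (fun ⟨k, a, b⟩ => ⟨k, Or.inl a, b⟩) fun a => ⟨n, Or.inr rfl, a⟩⟩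
        rw [e, cadd _ _ (hWm _) ?_, ih, hWc]
        · push_cast; ring
        · refine disjoint_left.2 ?_
          rintro z ⟨k, hk, a⟩ b
          rw [hW] at a b
          obtain ⟨a1, a2⟩ := hE _ a
          obtain ⟨-, b2⟩ := hE _ b
          simp only at a1 a2 b2
          have hk' : (k:ℝ) + 1 ≤ n := by exact_mod_cast hk
          have e2 : ((3 * n : ℕ) : ℝ) * z.1 + z.2 - (((3 * k : ℕ) : ℝ) * z.1 + z.2)
              = 3 * (n - k) * z.1 := by push_cast; ring
          have e3 := abs_sub (((3 * n : ℕ) : ℝ) * z.1 + z.2) (((3 * k : ℕ) : ℝ) * z.1 + z.2)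
          rw [e2, abs_mul, abs_of_pos (by linarith : (0:ℝ) < 3 * (n - k))] at e3
          have := abs_pos.2 a1
          nlinarith
    by_contra hne
    obtain ⟨n, hn⟩ := exists_nat_gt (C * 3 * ‖u‖ / |c S|)
    have := cbd {z | ∃ k < n, z ∈ W (3 * k)}
    rw [hU, abs_mul, Nat.abs_cast] at this
    rw [div_lt_iff₀ (abs_pos.2 hne)] at hn
    linarith
  have mE : MeasurableSet {z : ℝ × ℝ | z.1 ≠ 0 ∧ |z.2| ≤ |z.1|} :=
    (measurable_fst (measurableSet_singleton (0:ℝ)).compl).inter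
      (measurableSet_le measurable_snd.abs measurable_fst.abs)
  have mR : MeasurableSet {z : ℝ × ℝ | |z.1| < |z.2|} := measurableSet_lt (by fun_prop) (by fun_prop)
  have z1 := wand _ mE fun z hz => hz
  have z2 := wand _ (measurable_swap mR) fun z hz =>
    ⟨abs_pos.1 ((abs_nonneg _).trans_lt hz), le_of_lt hz⟩
  rw [cw _ mR] at z2
  have e : (univ : Set (ℝ × ℝ))
      = ({0} ∪ {z : ℝ × ℝ | z.1 ≠ 0 ∧ |z.2| ≤ |z.1|}) ∪ {z : ℝ × ℝ | |z.1| < |z.2|} := by
    ext z
    simp only [mem_univ, mem_union, mem_singleton_iff, mem_ofPred_eq, true_iff]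
    by_cases a : |z.1| < |z.2|
    · exact Or.inr a
    · left
      by_cases b : z.1 = 0
      · left
        rw [b, abs_zero, not_lt, abs_nonpos_iff] at a
        exact Prod.ext b a
      · exact Or.inr ⟨b, not_lt.1 a⟩
  rw [e, cadd _ _ mR (disjoint_left.2 ?_), cadd _ _ mE (disjoint_left.2 ?_), czero, z1, z2] at cuniv
  · norm_num at cuniv
  · rintro z rfl h; exact h.1 rfl
  · rintro z (rfl | h) h'
    · simp at h'
    · exact (show |z.1| < |z.2| from h').not_ge h.2

end H29.DL
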