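import Mathlib

open Matrix Polynomial

namespace Pool.Agent.H29.Flo

/-- The Floquet matrix `L_V(z)` (indices `0, …, q-1`): diagonal `V`, entries `1` on the sub- and
superdiagonal, `z⁻¹` in the top right corner, `z` in the bottom left corner, zeros elsewhere. -/
noncomputable def floquet (q : ℕ) (V : Fin q → ℂ) (z : ℂ) : Matrix (Fin q) (Fin q) ℂ :=
  fun i j =>
    if i = j then V i
    else if (i : ℕ) + 1 = j ∨ (j : ℕ) + 1 = i then 1
    else if (i : ℕ) = 0 ∧ (j : ℕ) + 1 = q then z⁻¹
    else if (i : ℕ) + 1 = q ∧ (j : ℕ) = 0 then z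
    else 0

section generic
variable {S T : Type*} [CommRing S] [CommRing T]

def am (t : S) : Matrix (Fin 2) (Fin 2) S := !![t, -1; 1, 0]

def tm (x : ℕ → S) : ℕ → Matrix (Fin 2) (Fin 2) S
  | 0 => 1
  | n + 1 => am (x n) * tm x n

lemma tm_congr {x y : ℕ → S} (n : ℕ) (h : ∀ i < n, x i = y i) : tm x n = tm y n := by
  induction n with
  | zero => rfl
  | succ n ih =>
    simp only [tm]
    rw [h n (by omega), ih (fun i hi => h i (by omega))]

lemma tm_succ' (x : ℕ → S) (n : ℕ) : tm x (n + 1) = tm (fun i => x (i + 1)) n * am (x 0) := by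
  induction n with
  | zero => simp [tm]
  | succ n ih => rw [tm, ih, tm, mul_assoc]

lemma am_neg (t : S) : am (-t) = - (am t)ᵀ := by
  ext i j; fin_cases i <;> fin_cases j <;> simp [am]

lemma tm_rev (n : ℕ) (x : ℕ → S) :
    tm (fun i => - x (n - 1 - i)) n = (-1 : S) ^ n • (tm x n)ᵀ := by
  induction n with
  | zero => simp [tm]
  | succ n ih =>
    rw [tm_succ']
    have h1 : tm (fun i => - x (n + 1 - 1 - (i + 1))) n = tm (fun i => - x (n - 1 - i)) n :=
      tm_congr n (fun i _ => by congr 2; omega)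
    rw [h1, ih, am_neg, tm, transpose_mul]
    simp [pow_succ]

lemma am_map (f : S →+* T) (t : S) : (am t).map f = am (f t) := by
  ext i j; fin_cases i <;> fin_cases j <;> simp [am]

lemma tm_map (f : S →+* T) (x : ℕ → S) (n : ℕ) : (tm x n).map f = tm (fun i => f (x i)) n := by
  induction n with
  | zero => simp [tm]
  | succ n ih => rw [tm, tm, Matrix.map_mul, ih, am_map]

lemma det_tm (x : ℕ → S) (n : ℕ) : (tm x n).det = 1 := by
  induction n with
  | zero => simp [tm]
  | succ n ih => rw [tm, det_mul, ih]; simp [am, det_fin_two]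

def disc (x : ℕ → S) (n : ℕ) : S := (tm x n).trace

lemma disc_map (f : S →+* T) (x : ℕ → S) (n : ℕ) : f (disc x n) = disc (fun i => f (x i)) n := by
  unfold disc
  rw [← tm_map, trace_fin_two, trace_fin_two]
  simp

lemma disc_congr {x y : ℕ → S} (n : ℕ) (h : ∀ i < n, x i = y i) : disc x n = disc y n := by
  unfold disc; rw [tm_congr n h]

lemma disc_rev (n : ℕ) (x : ℕ → S) :
    disc (fun i => - x (n - 1 - i)) n = (-1 : S) ^ n * disc x n := by
  unfold disc; rw [tm_rev, trace_smul, trace_transpose, smul_eq_mul]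

lemma tm_entries (x : ℕ → S) (n : ℕ) :
    tm x (n + 1) 0 0 = x n * tm x n 0 0 - tm x n 1 0 ∧
    tm x (n + 1) 0 1 = x n * tm x n 0 1 - tm x n 1 1 ∧
    tm x (n + 1) 1 0 = tm x n 0 0 ∧ tm x (n + 1) 1 1 = tm x n 0 1 := by
  simp [tm, am, Matrix.mul_apply, Fin.sum_univ_two, sub_eq_add_neg]

end generic

lemma floquet_eq (q : ℕ) (hq : 3 ≤ q) (V : Fin q → ℂ) (z : ℂ) (i j : Fin q) :
    floquet q V z i j = (if (j : ℕ) = i then V i else 0) + (if (j : ℕ) = i + 1 then 1 else 0)
      + (if 1 ≤ (i : ℕ) then (if (j : ℕ) = i - 1 then 1 else 0) else 0)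
      + (if (i : ℕ) = 0 then (if (j : ℕ) = q - 1 then z⁻¹ else 0) else 0)
      + (if (i : ℕ) + 1 = q then (if (j : ℕ) = 0 then z else 0) else 0) := by
  have hi := i.2
  have hj := j.2
  unfold floquet
  simp only [Fin.ext_iff]
  split_ifs <;> first | omega | simp

lemma sum_ite_nat (q : ℕ) (g : ℕ → ℂ) (a : ℕ) (c : ℂ) :
    ∑ j : Fin q, (if (j : ℕ) = a then c else 0) * g j = if a < q then c * g a else 0 := by
  rw [Fin.sum_univ_eq_sum_range (fun j => (if j = a then c else 0) * g j) q]
  simp only [ite_mul, zero_mul]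
  rw [Finset.sum_ite_eq']
  simp

lemma root_charpoly (q : ℕ) (hq : 3 ≤ q) (V : Fin q → ℂ) (v : ℕ → ℂ) (hv : ∀ i : Fin q, v i = V i)
    (z : ℂ) (hz : z ≠ 0) (t : ℂ) (ht : disc (fun i => t - v i) q = z + z⁻¹) :
    (floquet q V z).charpoly.eval t = 0 := by
  set x : ℕ → ℂ := fun i => t - v i with hx
  have hdet : (tm x q - Matrix.scalar (Fin 2) z).det = 0 := by
    have h1 := det_tm x q
    unfold disc at ht
    rw [det_fin_two] at h1 ⊢
    rw [trace_fin_two] at ht
    simp only [Matrix.sub_apply, scalar_apply, diagonal_apply_eq, ne_eq, zero_ne_one,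
      not_false_eq_true, diagonal_apply_ne, sub_zero, one_ne_zero]
    have : z * z⁻¹ = 1 := mul_inv_cancel₀ hz
    linear_combination h1 - z * ht - this
  obtain ⟨u, hu, hu2⟩ := Matrix.exists_mulVec_eq_zero_iff.2 hdet
  have hu3 : tm x q *ᵥ u = z • u := by
    rw [sub_mulVec, sub_eq_zero] at hu2
    rw [hu2]; ext i; simp [scalar_apply, mulVec_diagonal]
  set w : ℕ → Fin 2 → ℂ := fun n => tm x n *ᵥ u with hw
  have hw0 : w 0 = u := by simp only [hw, tm, one_mulVec]
  have hwq : w q = z • u := hu3
  have hs0 : ∀ n, w (n + 1) 0 = x n * w n 0 - w n 1 := by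
    intro n
    simp only [hw, tm, ← mulVec_mulVec]
    simp [am, mulVec, dotProduct, Fin.sum_univ_two, sub_eq_add_neg]
  have hs1 : ∀ n, w (n + 1) 1 = w n 0 := by
    intro n
    simp only [hw, tm, ← mulVec_mulVec]
    simp [am, mulVec, dotProduct, Fin.sum_univ_two]
  rw [Matrix.eval_charpoly, ← Matrix.exists_mulVec_eq_zero_iff]
  obtain ⟨p, rfl⟩ : ∃ p, q = p + 1 := ⟨q - 1, by omega⟩
  have hp1 : w p 0 = z * u 1 := by rw [← hs1, hwq]; simp
  have hq0 : w (p + 1) 0 = z * u 0 := by rw [hwq]; simp
  refine ⟨fun i => w i 0, ?_, ?_⟩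
  · intro h
    apply hu
    have h0 := congrFun h 0
    have h1 := congrFun h (Fin.last p)
    simp only [Fin.val_zero, hw0, Pi.zero_apply, Fin.val_last, hp1, mul_eq_zero, hz,
      false_or] at h0 h1
    ext i; fin_cases i
    · exact h0
    · exact h1
  · ext i
    rw [sub_mulVec]
    have e1 : (Matrix.scalar (Fin (p + 1)) t *ᵥ fun i => w i 0) i = t * w i 0 := by
      simp [scalar_apply, mulVec_diagonal]
    have e2 : (floquet (p + 1) V z *ᵥ fun i => w i 0) i = t * w i 0 := by
      simp only [mulVec, dotProduct, floquet_eq _ hq, add_mul, Finset.sum_add_distrib]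
      have hi := i.2
      have hr := hs0 i
      simp only [hx, hv] at hr
      rw [sum_ite_nat (p + 1) (fun j => w j 0), sum_ite_nat (p + 1) (fun j => w j 0)]
      by_cases h0 : (i : ℕ) = 0
      · have h1 : ¬ 1 ≤ (i : ℕ) := by omega
        have h2 : ¬ (i : ℕ) + 1 = p + 1 := by omega
        simp only [if_pos h0, if_neg h1, if_neg h2, zero_mul, Finset.sum_const_zero]
        rw [sum_ite_nat (p + 1) (fun j => w j 0), if_pos hi, if_pos (by omega), if_pos (by omega)]
        simp only [Nat.add_sub_cancel, hp1]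
        rw [hr, h0, hw0]
        field_simp
        ring
      · have h1 : 1 ≤ (i : ℕ) := by omega
        obtain ⟨k, hk⟩ : ∃ k, (i : ℕ) = k + 1 := ⟨i - 1, by omega⟩
        have hk1 : w i 1 = w (i - 1) 0 := by rw [hk, hs1]; simp
        by_cases h2 : (i : ℕ) + 1 = p + 1
        · simp only [if_neg h0, if_pos h1, if_pos h2, zero_mul, Finset.sum_const_zero]
          rw [sum_ite_nat (p + 1) (fun j => w j 0), sum_ite_nat (p + 1) (fun j => w j 0),
            if_pos hi, if_neg (by omega), if_pos (by omega), if_pos (by omega), ← hk1, hw0, ← hq0]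
          rw [h2] at hr
          rw [hr]
          ring
        · simp only [if_neg h0, if_pos h1, if_neg h2, zero_mul, Finset.sum_const_zero]
          rw [sum_ite_nat (p + 1) (fun j => w j 0),
            if_pos hi, if_pos (by omega), if_pos (by omega), ← hk1, hr]
          ring
    simp [e1, e2]

lemma eq_of_roots (p r : ℂ[X]) (hp : p.Monic) (hr : r.Monic) (hd : p.natDegree ≤ r.natDegree)
    (hsep : ∀ t, r.eval t = 0 → (derivative r).eval t ≠ 0) (hroot : ∀ t, r.eval t = 0 → p.eval t = 0) :
    p = r := by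
  classical
  have hn : r.roots.Nodup := by
    rw [Multiset.nodup_iff_count_le_one]
    intro a
    rw [count_roots]
    by_contra h
    push Not at h
    rw [one_lt_rootMultiplicity_iff_isRoot hr.ne_zero] at h
    exact hsep a h.1 h.2
  have hle : r.roots ≤ p.roots := by
    rw [Multiset.le_iff_subset hn]
    intro a ha
    rw [mem_roots hr.ne_zero] at ha
    rw [mem_roots hp.ne_zero]
    exact hroot a ha
  rw [← Multiset.prod_X_sub_C_dvd_iff_le_roots hp.ne_zero,
    ← (IsAlgClosed.splits r).eq_prod_roots_of_monic hr] at hle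
  exact eq_of_monic_of_dvd_of_natDegree_le hr hp hle hd

lemma cont_floquet (q : ℕ) (V : Fin q → ℂ) (t z : ℂ) (hz : z ≠ 0) :
    ContinuousAt (fun z => (floquet q V z).charpoly.eval t) z := by
  simp only [Matrix.eval_charpoly]
  have h1 : ContinuousAt (fun z => Matrix.scalar (Fin q) t - floquet q V z) z := by
    apply ContinuousAt.sub continuousAt_const
    refine continuousAt_pi.2 fun i => continuousAt_pi.2 fun j => ?_
    unfold floquet
    split_ifs
    · exact continuousAt_const
    · exact continuousAt_const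
    · exact continuousAt_inv₀ hz
    · exact continuousAt_id
    · exact continuousAt_const
  exact (Continuous.matrix_det continuous_id).continuousAt.comp h1

theorem charpoly_floquet (q : ℕ) (hq : 3 ≤ q) (V : Fin q → ℂ) (v : ℕ → ℂ)
    (hv : ∀ i : Fin q, v i = V i) (D : ℂ[X]) (hD : D = disc (fun i => X - C (v i)) q)
    (hm : D.Monic) (hdeg : D.natDegree = q) (z : ℂ) (hz : z ≠ 0) :
    (floquet q V z).charpoly = D - C (z + z⁻¹) := by
  classical
  have hev : ∀ t, D.eval t = disc (fun i => t - v i) q := by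
    intro t
    have := disc_map (evalRingHom t) (fun i => X - C (v i)) q
    simpa [hD] using this
  have hD' : derivative D ≠ 0 := by
    intro h
    have := natDegree_eq_zero_of_derivative_eq_zero h
    omega
  -- bad set
  set B : Set ℂ := ⋃ t ∈ (derivative D).roots.toFinset,
    ((X ^ 2 - C (D.eval t) * X + 1 : ℂ[X]).roots.toFinset : Set ℂ) with hB
  have hBf : B.Finite := Set.Finite.biUnion (Finset.finite_toSet _) (fun _ _ => Finset.finite_toSet _)
  have hgood : ∀ z, z ≠ 0 → z ∉ B → (floquet q V z).charpoly = D - C (z + z⁻¹) := by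
    intro z hz hzB
    have hlt : (C (z + z⁻¹)).degree < D.degree := by
      refine lt_of_le_of_lt degree_C_le ?_
      rw [degree_eq_natDegree hm.ne_zero, hdeg]; exact_mod_cast (by omega : 0 < q)
    apply eq_of_roots _ _ (Matrix.charpoly_monic _) (hm.sub_of_left hlt)
    · rw [Matrix.charpoly_natDegree_eq_dim, natDegree_sub_C, hdeg]; simp
    · intro t ht ht'
      apply hzB
      simp only [derivative_sub, derivative_C, sub_zero] at ht'
      simp only [eval_sub, eval_C, sub_eq_zero] at ht
      simp only [hB, Set.mem_iUnion, Multiset.mem_toFinset, Finset.mem_coe]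
      refine ⟨t, (mem_roots hD').2 ht', ?_⟩
      rw [mem_roots]
      · simp only [IsRoot, eval_add, eval_sub, eval_pow, eval_X, eval_mul, eval_C, eval_one, ht]
        field_simp
        ring
      · intro h
        have := congrArg (eval 0) h
        simp at this
    · intro t ht
      apply root_charpoly q hq V v hv z hz t
      rw [← hev]
      simpa [sub_eq_zero] using ht
  apply Polynomial.funext
  intro t
  have c1 := cont_floquet q V t z hz
  have c2 : ContinuousAt (fun z : ℂ => (D - C (z + z⁻¹)).eval t) z := by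
    simp only [eval_sub, eval_C]
    exact continuousAt_const.sub (continuousAt_id.add (continuousAt_inv₀ hz))
  have hev2 : ∀ᶠ y in nhdsWithin z {z}ᶜ,
      (floquet q V y).charpoly.eval t = (D - C (y + y⁻¹)).eval t := by
    have h1 : ((B ∪ {0}) \ {z})ᶜ ∈ nhds z := by
      apply IsOpen.mem_nhds
      · exact (((hBf.union (Set.finite_singleton 0)).subset Set.diff_subset).isClosed).isOpen_compl
      · simp
    filter_upwards [mem_nhdsWithin_of_mem_nhds h1, self_mem_nhdsWithin] with y hy hy2
    have h3 : y ∉ B ∪ {0} := fun h => hy ⟨h, hy2⟩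
    rw [hgood y (fun h => h3 (Or.inr h)) (fun h => h3 (Or.inl h))]
  exact tendsto_nhds_unique_of_eventuallyEq (c1.tendsto.mono_left nhdsWithin_le_nhds)
    (c2.tendsto.mono_left nhdsWithin_le_nhds) hev2

end Pool.Agent.H29.Flo
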