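import Mathlib

open MvPolynomial Finsupp

namespace Pool.Agent.H29.Flo

section lead
variable {σ : Type*} [Fintype σ] [DecidableEq σ]

def Bd (w : σ → ℕ) (d : ℕ) (f : MvPolynomial σ ℂ) : Prop := ∀ δ ∈ f.support, weight w δ < d

def Lead (w : σ → ℕ) (γ : σ →₀ ℕ) (f : MvPolynomial σ ℂ) : Prop :=
  Bd w (weight w γ) (f - monomial γ 1)

variable {w : σ → ℕ}

omit [Fintype σ] in
lemma supp_mul {f g : MvPolynomial σ ℂ} {δ : σ →₀ ℕ} (h : δ ∈ (f * g).support) :
    ∃ a ∈ f.support, ∃ b ∈ g.support, δ = a + b := by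
  have := MvPolynomial.support_mul f g h
  rw [Finset.mem_add] at this
  obtain ⟨a, ha, b, hb, rfl⟩ := this
  exact ⟨a, ha, b, hb, rfl⟩

omit [Fintype σ] in
lemma supp_sum {ι : Type*} {s : Finset ι} {f : ι → MvPolynomial σ ℂ} {δ : σ →₀ ℕ}
    (h : δ ∈ (∑ i ∈ s, f i).support) : ∃ i ∈ s, δ ∈ (f i).support := by
  have := MvPolynomial.support_sum h
  simpa using this

omit [Fintype σ] in
lemma supp_mono {γ δ : σ →₀ ℕ} {c : ℂ} (h : δ ∈ (monomial γ c).support) : δ = γ := by
  have := MvPolynomial.support_monomial_subset h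
  simpa using this

omit [Fintype σ] in
lemma Bd.add {d : ℕ} {f g : MvPolynomial σ ℂ} (hf : Bd w d f) (hg : Bd w d g) : Bd w d (f + g) := by
  intro δ h
  rcases Finset.mem_union.1 (MvPolynomial.support_add h) with h | h
  · exact hf δ h
  · exact hg δ h

omit [Fintype σ] [DecidableEq σ] in
lemma Bd.mono {d e : ℕ} {f : MvPolynomial σ ℂ} (hf : Bd w d f) (h : d ≤ e) : Bd w e f :=
  fun δ hδ => lt_of_lt_of_le (hf δ hδ) h

omit [Fintype σ] in
lemma Bd.mul {a b c : ℕ} {f g : MvPolynomial σ ℂ} (hf : Bd w a f) (hg : Bd w b g)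
    (h : a + b ≤ c + 1) : Bd w c (f * g) := by
  intro δ hδ
  obtain ⟨x, hx, y, hy, rfl⟩ := supp_mul hδ
  have := hf x hx
  have := hg y hy
  rw [map_add]; omega

omit [Fintype σ] in
lemma Bd_mono (γ : σ →₀ ℕ) (c : ℂ) : Bd w (weight w γ + 1) (monomial γ c) := by
  intro δ h
  rw [supp_mono h]; omega

omit [Fintype σ] [DecidableEq σ] in
lemma Lead_mono (γ : σ →₀ ℕ) : Lead w γ (monomial γ 1) := by
  intro δ h; simp at h

omit [Fintype σ] in
lemma Lead.mul {γ η : σ →₀ ℕ} {f g : MvPolynomial σ ℂ} (hf : Lead w γ f) (hg : Lead w η g) :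
    Lead w (γ + η) (f * g) := by
  have e : f * g - monomial (γ + η) 1 = monomial γ 1 * (g - monomial η 1)
      + (f - monomial γ 1) * monomial η 1 + (f - monomial γ 1) * (g - monomial η 1) := by
    have : (monomial (γ + η) 1 : MvPolynomial σ ℂ) = monomial γ 1 * monomial η 1 := by
      rw [monomial_mul, one_mul]
    rw [this]; ring
  unfold Lead at *
  rw [e, map_add]
  exact (((Bd_mono γ 1).mul hg (by omega)).add (hf.mul (Bd_mono η 1) (by omega))).add
    (hf.mul hg (by omega))

omit [Fintype σ] in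
lemma Lead.pow {γ : σ →₀ ℕ} {f : MvPolynomial σ ℂ} (hf : Lead w γ f) (n : ℕ) :
    Lead w (n • γ) (f ^ n) := by
  induction n with
  | zero => simpa using Lead_mono (w := w) 0
  | succ n ih => rw [pow_succ, succ_nsmul]; exact ih.mul hf

omit [Fintype σ] in
lemma Lead.prod {ι : Type*} (s : Finset ι) {γ : ι → σ →₀ ℕ} {f : ι → MvPolynomial σ ℂ}
    (hf : ∀ i, Lead w (γ i) (f i)) : Lead w (∑ i ∈ s, γ i) (∏ i ∈ s, f i) := by
  classical
  induction s using Finset.induction_on with
  | empty => simpa using Lead_mono (w := w) 0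
  | insert a s ha ih => rw [Finset.sum_insert ha, Finset.prod_insert ha]; exact (hf a).mul ih

noncomputable def bas (H : σ → MvPolynomial σ ℂ) (d : σ → ℕ) (γ : σ →₀ ℕ) : MvPolynomial σ ℂ :=
  monomial (equivFunOnFinite.symm fun i => γ i % d i) 1 * ∏ i, H i ^ (γ i / d i)

lemma lead_bas {H : σ → MvPolynomial σ ℂ} {d : σ → ℕ}
    (hH : ∀ i, Lead w (single i (d i)) (H i)) (γ : σ →₀ ℕ) : Lead w γ (bas H d γ) := by
  have h := (Lead_mono (w := w) (equivFunOnFinite.symm fun i => γ i % d i)).mul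
    (Lead.prod Finset.univ (fun i => (hH i).pow (γ i / d i)))
  have e : (equivFunOnFinite.symm fun i => γ i % d i)
      + ∑ i, (γ i / d i) • single i (d i) = γ := by
    ext j
    simp only [Finsupp.add_apply, equivFunOnFinite_symm_apply_apply, Finsupp.finsetSum_apply,
      Finsupp.smul_apply, single_apply, smul_eq_mul, mul_ite, mul_zero, Finset.sum_ite_eq',
      Finset.mem_univ, if_true]
    exact Nat.mod_add_div' _ _
  rw [e] at h
  exact h

lemma bas_mul {H : σ → MvPolynomial σ ℂ} {d : σ → ℕ} (hd : ∀ i, 0 < d i) (γ : σ →₀ ℕ) (k : σ) :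
    bas H d γ * H k = bas H d (γ + single k (d k)) := by
  unfold bas
  have e1 : (fun i => (γ + single k (d k) : σ →₀ ℕ) i % d i) = fun i => γ i % d i := by
    funext i
    simp only [Finsupp.add_apply, single_apply]
    split_ifs with h
    · subst h; simp
    · simp
  have e2 : ∀ i, H i ^ ((γ + single k (d k) : σ →₀ ℕ) i / d i)
      = H i ^ (γ i / d i) * (if k = i then H i else 1) := by
    intro i
    simp only [Finsupp.add_apply, single_apply]
    split_ifs with h
    · subst h; rw [Nat.add_div_right _ (hd k), pow_succ]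
    · simp
  rw [e1, Finset.prod_congr rfl (fun i _ => e2 i), Finset.prod_mul_distrib, Finset.prod_ite_eq]
  simp [mul_assoc]

lemma span_bas {H : σ → MvPolynomial σ ℂ} {d : σ → ℕ}
    (hH : ∀ i, Lead w (single i (d i)) (H i)) (n : ℕ) :
    ∀ f, Bd w n f → f ∈ Submodule.span ℂ (Set.range (bas H d)) := by
  induction n with
  | zero =>
    intro f hf
    have : f = 0 := by
      rw [← MvPolynomial.support_eq_empty, Finset.eq_empty_iff_forall_notMem]
      intro δ h; exact absurd (hf δ h) (by omega)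
    rw [this]; exact Submodule.zero_mem _
  | succ n ih =>
    intro f hf
    rw [MvPolynomial.as_sum f]
    apply Submodule.sum_mem
    intro δ hδ
    have e : (monomial δ (coeff δ f) : MvPolynomial σ ℂ)
        = coeff δ f • (bas H d δ - (bas H d δ - monomial δ 1)) := by
      simp [smul_monomial]
    rw [e]
    apply Submodule.smul_mem
    apply Submodule.sub_mem _ (Submodule.subset_span (Set.mem_range_self δ))
    exact ih _ (Bd.mono (lead_bas hH δ) (by have := hf δ hδ; omega))

theorem not_mem_span {H : σ → MvPolynomial σ ℂ} {d : σ → ℕ} (hd : ∀ i, 0 < d i)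
    (hH : ∀ i, Lead w (single i (d i)) (H i)) (α : σ →₀ ℕ) (hα : ∀ i, α i < d i) :
    (monomial α 1 : MvPolynomial σ ℂ) ∉ Ideal.span (Set.range H) := by
  intro h
  have hall : ∀ f, f ∈ Submodule.span ℂ (Set.range (bas H d)) := by
    intro f
    apply span_bas hH (f.support.sup (weight w) + 1)
    intro δ hδ
    exact Nat.lt_succ_of_le (Finset.le_sup (f := weight w) hδ)
  set U := Submodule.span ℂ (bas H d '' {γ | ∃ k, d k ≤ γ k}) with hU
  have hm : ∀ g k, g * H k ∈ U := by
    intro g k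
    induction hall g using Submodule.span_induction with
    | mem x hx =>
      obtain ⟨γ, rfl⟩ := hx
      rw [bas_mul hd]
      exact Submodule.subset_span ⟨_, ⟨k, by simp⟩, rfl⟩
    | zero => simp
    | add x y _ _ hx hy => rw [add_mul]; exact U.add_mem hx hy
    | smul a x _ hx => rw [smul_mul_assoc]; exact U.smul_mem a hx
  obtain ⟨c, hc⟩ := Ideal.mem_span_range_iff_exists_fun.1 h
  have hmem : (monomial α 1 : MvPolynomial σ ℂ) ∈ U := by
    rw [← hc]; exact U.sum_mem fun k _ => hm _ k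
  obtain ⟨l, hl, hl2⟩ := (Finsupp.mem_span_image_iff_linearCombination ℂ).1 hmem
  by_cases h0 : l = 0
  · rw [h0, map_zero] at hl2
    exact absurd hl2.symm (by simp)
  obtain ⟨γ, hγ, hmax⟩ := Finset.exists_max_image l.support (weight w)
    (Finsupp.support_nonempty_iff.2 h0)
  have hc2 := congrArg (coeff γ) hl2
  have hne : α ≠ γ := by
    rintro rfl
    obtain ⟨k, hk⟩ := (Finsupp.mem_supported ℂ l).1 hl hγ
    exact absurd (hα k) (by omega)
  rw [coeff_monomial, if_neg hne, Finsupp.linearCombination_apply, Finsupp.sum, coeff_sum,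
    Finset.sum_eq_single γ] at hc2
  · have : coeff γ (bas H d γ - monomial γ 1) = 0 := by
      by_contra h
      exact absurd (lead_bas hH γ γ (MvPolynomial.mem_support_iff.2 h)) (by omega)
    rw [coeff_sub, coeff_monomial, if_pos rfl, sub_eq_zero] at this
    rw [coeff_smul, this, smul_eq_mul, mul_one] at hc2
    exact Finsupp.mem_support_iff.1 hγ hc2
  · intro b hb hbγ
    have : coeff γ (bas H d b - monomial b 1) = 0 := by
      by_contra h
      have h1 := lead_bas hH b γ (MvPolynomial.mem_support_iff.2 h)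
      have h2 := hmax b hb
      omega
    rw [coeff_sub, coeff_monomial, if_neg hbγ, sub_zero] at this
    rw [coeff_smul, this, smul_zero]
  · intro h; exact absurd hγ h

def Wp (w : σ → ℕ) (c d : ℕ) (p : Polynomial (MvPolynomial σ ℂ)) : Prop :=
  ∀ j, ∀ δ ∈ (p.coeff j).support, weight w δ + c * j ≤ d

omit [Fintype σ] in
lemma step {E : Polynomial (MvPolynomial σ ℂ)} {t c c' : ℕ} {η : σ →₀ ℕ} (hE : E.Monic)
    (hd : E.natDegree = t + 1) (hc : c < c') (hη : weight w η = c') (hW : Wp w c (c * (t + 1)) E) :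
    (E /ₘ (Polynomial.X - Polynomial.C (monomial η 1))).Monic ∧
    (E /ₘ (Polynomial.X - Polynomial.C (monomial η 1))).natDegree = t ∧
    Wp w c' (c' * t) (E /ₘ (Polynomial.X - Polynomial.C (monomial η 1))) ∧
    Lead w ((t + 1) • η) (E.eval (monomial η 1)) := by
  have hmon := Polynomial.monic_X_sub_C (monomial η 1 : MvPolynomial σ ℂ)
  refine ⟨?_, ?_, ?_, ?_⟩
  · unfold Polynomial.Monic
    rw [Polynomial.leadingCoeff_divByMonic_of_monic hmon, hE]
    rw [Polynomial.degree_X_sub_C, Polynomial.degree_eq_natDegree hE.ne_zero, hd]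
    exact_mod_cast (by omega : 1 ≤ t + 1)
  · rw [Polynomial.natDegree_divByMonic _ hmon, hd, Polynomial.natDegree_X_sub_C]; simp
  · intro j δ hδ
    rw [Polynomial.coeff_divByMonic_X_sub_C] at hδ
    obtain ⟨i, hi, hδ⟩ := supp_sum hδ
    obtain ⟨a, ha, b, hb, rfl⟩ := supp_mul hδ
    rw [monomial_pow] at ha
    have h1 := hW i b hb
    rw [Finset.mem_Icc, hd] at hi
    obtain ⟨s, rfl⟩ : ∃ s, i = j + 1 + s := ⟨i - (j + 1), by omega⟩
    obtain ⟨e, rfl⟩ : ∃ e, t = j + s + e := ⟨t - (j + s), by omega⟩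
    rw [supp_mono ha, map_add, map_nsmul, hη, Nat.add_sub_cancel_left, smul_eq_mul]
    have : c * e ≤ c' * e := Nat.mul_le_mul_right _ hc.le
    nlinarith
  · unfold Lead
    rw [Polynomial.eval_eq_sum_range, hd, Finset.sum_range_succ]
    have : E.coeff (t + 1) = 1 := by rw [← hd]; exact hE
    rw [this, one_mul, monomial_pow, one_pow, add_sub_cancel_right]
    intro δ hδ
    obtain ⟨i, hi, hδ⟩ := supp_sum hδ
    obtain ⟨a, ha, b, hb, rfl⟩ := supp_mul hδ
    rw [monomial_pow] at hb
    have h1 := hW i a ha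
    rw [Finset.mem_range] at hi
    obtain ⟨e, rfl⟩ : ∃ e, t = i + e := ⟨t - i, by omega⟩
    rw [supp_mono hb, map_add, map_nsmul, map_nsmul, hη, smul_eq_mul, smul_eq_mul]
    have : c * (e + 1) < c' * (e + 1) := Nat.mul_lt_mul_of_pos_right hc (by omega)
    nlinarith

end lead

section naka
variable {A : Type*} [CommRing A] {ι : Type*} [Fintype ι] [DecidableEq ι]

lemma naka_step (I : Ideal A) (x : ι → A) (M : Ideal A) (hM : M = Ideal.span (Set.range x))
    (hx : ∀ k, x k ^ 2 ∈ I ⊔ M ^ 3) (j : ℕ) :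
    M ^ j ≤ Ideal.span {f | ∃ S : Finset ι, S.card = j ∧ f = ∏ i ∈ S, x i} ⊔ (I ⊔ M ^ (j + 1)) := by
  have hxM : ∀ k, x k ∈ M := fun k => hM ▸ Ideal.subset_span ⟨k, rfl⟩
  have hP : ∀ S : Finset ι, ∏ i ∈ S, x i ∈ M ^ S.card := by
    intro S
    rw [← Finset.prod_const]
    exact Ideal.prod_mem_prod fun i _ => hxM i
  induction j with
  | zero =>
    refine le_trans ?_ le_sup_left
    rw [pow_zero, Ideal.one_eq_top, top_le_iff, Ideal.eq_top_iff_one]
    exact Ideal.subset_span ⟨∅, rfl, by simp⟩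
  | succ j ih =>
    rw [pow_succ']
    refine le_trans (Ideal.mul_mono_right ih) ?_
    rw [Ideal.mul_sup, Ideal.mul_sup, ← pow_succ']
    refine sup_le ?_ (le_sup_of_le_right (sup_le_sup_right Ideal.mul_le_right _))
    conv_lhs => rw [hM]
    rw [Ideal.span_mul_span', Ideal.span_le]
    rintro _ ⟨_, ⟨k, rfl⟩, _, ⟨S, hS, rfl⟩, rfl⟩
    by_cases hk : k ∈ S
    · apply Ideal.mem_sup_right
      have e : x k * ∏ i ∈ S, x i = x k ^ 2 * ∏ i ∈ S.erase k, x i := by
        rw [← Finset.mul_prod_erase S x hk]; ring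
      obtain ⟨a, ha, b, hb, hab⟩ := Submodule.mem_sup.1 (hx k)
      have h1 := hP (S.erase k)
      have h2 : 3 + (S.erase k).card = j + 1 + 1 := by
        have := Finset.card_erase_add_one hk
        omega
      show x k * ∏ i ∈ S, x i ∈ _
      rw [e, ← hab, add_mul, ← h2, pow_add]
      exact Submodule.add_mem_sup (I.mul_mem_right _ ha) (Ideal.mul_mem_mul hb h1)
    · apply Ideal.mem_sup_left
      exact Ideal.subset_span ⟨insert k S, by rw [Finset.card_insert_of_notMem hk, hS],
        by rw [Finset.prod_insert hk]⟩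

theorem naka (I : Ideal A) (x : ι → A) (M : Ideal A) (hM : M = Ideal.span (Set.range x))
    (hx : ∀ k, x k ^ 2 ∈ I ⊔ M ^ 3) (N : ℕ) (hN : M ^ N ≤ I) :
    M ^ (Fintype.card ι + 1) ≤ I := by
  have h1 : ∀ j, Fintype.card ι < j → M ^ j ≤ I ⊔ M ^ (j + 1) := by
    intro j hj
    refine le_trans (naka_step I x M hM hx j) (sup_le ?_ le_rfl)
    rw [Ideal.span_le]
    rintro _ ⟨S, hS, rfl⟩
    have := Finset.card_le_univ S
    omega
  have h2 : ∀ s, M ^ (Fintype.card ι + 1) ≤ I ⊔ M ^ (Fintype.card ι + 1 + s) := by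
    intro s
    induction s with
    | zero => exact le_sup_right
    | succ s ih => exact le_trans ih (sup_le le_sup_left (h1 _ (by omega)))
  exact le_trans (h2 N) (sup_le le_rfl (le_trans (Ideal.pow_le_pow_right (by omega)) hN))

end naka

noncomputable def yv (m : ℕ) (k : ℕ) : MvPolynomial (Fin m) ℂ :=
  if h : k < m then X ⟨k, h⟩ ^ 2 else 0

noncomputable def tower (m : ℕ) (E : Polynomial (MvPolynomial (Fin m) ℂ)) :
    ℕ → Polynomial (MvPolynomial (Fin m) ℂ)
  | 0 => E
  | k + 1 => tower m E k /ₘ (Polynomial.X - Polynomial.C (yv m k))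

def wt (m L : ℕ) (i : Fin m) : ℕ := L + i + 1

theorem key (m L : ℕ) (hm : 0 < m) (E : Polynomial (MvPolynomial (Fin m) ℂ)) (hE : E.Monic)
    (hd : E.natDegree = m) (hW : Wp (wt m L) (2 * L) (2 * L * m) E) :
    (X ⟨0, hm⟩ ^ (2 * m - 1) : MvPolynomial (Fin m) ℂ) ∉ Ideal.span (Set.range
      (∏ i ∈ Finset.range m, (Polynomial.X - Polynomial.C (yv m i)) - E).coeff) := by
  have hy : ∀ k (h : k < m), yv m k = monomial (single ⟨k, h⟩ 2) 1 := by
    intro k h; rw [yv, dif_pos h, X_pow_eq_monomial]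
  have hwη : ∀ k (h : k < m), weight (wt m L) (single ⟨k, h⟩ 2) = 2 * (L + (k + 1)) := by
    intro k h; rw [weight_single]; simp [wt, add_assoc]
  have inv : ∀ k t, k + t = m → (tower m E k).Monic ∧ (tower m E k).natDegree = t ∧
      Wp (wt m L) (2 * (L + k)) (2 * (L + k) * t) (tower m E k) := by
    intro k
    induction k with
    | zero => intro t ht; obtain rfl : t = m := by omega
              exact ⟨hE, hd, hW⟩
    | succ k ih =>
      intro t ht
      obtain ⟨h1, h2, h3⟩ := ih (t + 1) (by omega)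
      have hk : k < m := by omega
      have := step h1 h2 (by omega) (hwη k hk) h3
      rw [tower, hy k hk]
      exact ⟨this.1, this.2.1, this.2.2.1⟩
  set H : Fin m → MvPolynomial (Fin m) ℂ := fun i => (tower m E i).eval (yv m i) with hH
  have hL : ∀ i : Fin m, Lead (wt m L) (single i (2 * (m - i))) (H i) := by
    intro i
    have hi := i.2
    obtain ⟨h1, h2, h3⟩ := inv i (m - i - 1 + 1) (by omega)
    have := (step h1 h2 (by omega) (hwη i hi) h3).2.2.2
    rw [smul_single, smul_eq_mul, show (m - i - 1 + 1) * 2 = 2 * (m - i) by omega,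
      ← hy i hi] at this
    exact this
  have hn := not_mem_span (d := fun i : Fin m => 2 * (m - i)) (fun i => by have := i.2; omega) hL
    (single ⟨0, hm⟩ (2 * m - 1)) (fun i => by
      have := i.2
      rw [single_apply]
      split_ifs with h
      · subst h; simp; omega
      · omega)
  rw [← X_pow_eq_monomial] at hn
  intro hmem
  apply hn
  refine Ideal.span_le.2 ?_ hmem
  set J := Ideal.span (Set.range H)
  have hJ : ∀ k ≤ m, E - (∏ i ∈ Finset.range k, (Polynomial.X - Polynomial.C (yv m i)))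
      * tower m E k ∈ Ideal.map Polynomial.C J := by
    intro k
    induction k with
    | zero => intro _; simp [tower]
    | succ k ih =>
      intro hk
      have h1 := Polynomial.modByMonic_add_div (tower m E k)
        (Polynomial.X - Polynomial.C (yv m k))
      rw [Polynomial.modByMonic_X_sub_C_eq_C_eval] at h1
      have h2 : Polynomial.C ((tower m E k).eval (yv m k)) ∈ Ideal.map Polynomial.C J :=
        Ideal.mem_map_of_mem _ (Ideal.subset_span ⟨⟨k, by omega⟩, rfl⟩)
      have h3 := Ideal.add_mem _ (ih (by omega)) (Ideal.mul_mem_left _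
        (∏ i ∈ Finset.range k, (Polynomial.X - Polynomial.C (yv m i))) h2)
      convert h3 using 1
      rw [Finset.prod_range_succ, tower]
      linear_combination (-∏ i ∈ Finset.range k, (Polynomial.X - Polynomial.C (yv m i))) * h1
  have h4 := hJ m le_rfl
  obtain ⟨h5, h6, -⟩ := inv m 0 rfl
  rw [(Polynomial.Monic.natDegree_eq_zero h5).1 h6, mul_one] at h4
  rintro _ ⟨j, rfl⟩
  have := Ideal.mem_map_C_iff.1 (Submodule.neg_mem _ h4) j
  rw [neg_sub] at this
  exact this

end Pool.Agent.H29.Flo
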