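import Pool.Agent.H29.FloA
import Pool.Agent.H29.FloB

open Matrix Finset

namespace Pool.Agent.H29.Flo

section second
variable {A : Type*} [CommRing A]

def bm (ω η u : A) : Matrix (Fin 2) (Fin 2) A := !![ω * (1 - u), -(η * u); ω * u, η * (1 + u)]

def tb (ω η : A) (u : ℕ → A) : ℕ → Matrix (Fin 2) (Fin 2) A
  | 0 => 1
  | n + 1 => bm ω η (u n) * tb ω η u n

lemma tb_conj {ω η : A} (h : ω * η = 1) (x u : ℕ → A) (hx : ∀ i, x i = ω + η - (ω - η) * u i)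
    (n : ℕ) : tm x n * !![ω, η; 1, 1] = !![ω, η; 1, 1] * tb ω η u n := by
  induction n with
  | zero => simp [tm, tb]
  | succ n ih =>
    have : am (x n) * !![ω, η; 1, 1] = !![ω, η; 1, 1] * bm ω η (u n) := by
      rw [hx]
      ext i j; fin_cases i <;> fin_cases j <;> simp [am, bm, Matrix.mul_apply, Fin.sum_univ_two]
      · linear_combination (1 + u n - u n) * h
      · linear_combination (1 + u n - u n) * h
      · ring
      · ring
    rw [tm, tb, mul_assoc, ih, ← mul_assoc, this, mul_assoc]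

lemma disc_eq_tb {ω η κ : A} (h : ω * η = 1) (hκ : (ω - η) * κ = 1) (x u : ℕ → A)
    (hx : ∀ i, x i = ω + η - (ω - η) * u i) (n : ℕ) :
    disc x n = tb ω η u n 0 0 + tb ω η u n 1 1 := by
  have h1 : (!![ω, η; 1, 1] : Matrix (Fin 2) (Fin 2) A) * !![κ, -(η * κ); -κ, ω * κ] = 1 := by
    ext i j; fin_cases i <;> fin_cases j <;> simp [Matrix.mul_apply, Fin.sum_univ_two]
    · linear_combination hκ
    · ring
    · linear_combination hκ
  have h2 : (!![κ, -(η * κ); -κ, ω * κ] : Matrix (Fin 2) (Fin 2) A) * !![ω, η; 1, 1] = 1 :=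
    mul_eq_one_comm.1 h1
  unfold disc
  rw [← mul_one (tm x n), ← h1, ← mul_assoc, tb_conj h x u hx, trace_mul_comm, ← mul_assoc, h2,
    one_mul, trace_fin_two]

lemma det_tb {ω η : A} (h : ω * η = 1) (u : ℕ → A) (n : ℕ) : (tb ω η u n).det = 1 := by
  induction n with
  | zero => simp [tb]
  | succ n ih =>
    rw [tb, det_mul, ih]; simp only [bm, det_fin_two_of]
    linear_combination h

lemma tb_mod {ω η : A} (h : ω * η = 1) (u : ℕ → A) (M : Ideal A) (hu : ∀ i, u i ∈ M) (n : ℕ) :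
    tb ω η u n 0 0 - ω ^ n * (1 - ∑ j ∈ range n, u j) ∈ M * M ∧
    tb ω η u n 0 1 + ω ^ n * η ^ 2 * ∑ j ∈ range n, (η ^ 2) ^ j * u j ∈ M * M ∧
    tb ω η u n 1 0 - η ^ n * ω ^ 2 * ∑ j ∈ range n, (ω ^ 2) ^ j * u j ∈ M * M ∧
    tb ω η u n 1 1 - η ^ n * (1 + ∑ j ∈ range n, u j) ∈ M * M := by
  induction n with
  | zero => simp [tb]
  | succ n ih =>
    obtain ⟨ha, hb, hc, hd⟩ := ih
    have hs : u n * ∑ j ∈ range n, u j ∈ M * M :=
      Ideal.mul_mem_mul (hu n) (M.sum_mem fun j _ => hu j)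
    have hp : u n * ∑ j ∈ range n, (η ^ 2) ^ j * u j ∈ M * M :=
      Ideal.mul_mem_mul (hu n) (M.sum_mem fun j _ => M.mul_mem_left _ (hu j))
    have hr : u n * ∑ j ∈ range n, (ω ^ 2) ^ j * u j ∈ M * M :=
      Ideal.mul_mem_mul (hu n) (M.sum_mem fun j _ => M.mul_mem_left _ (hu j))
    have hn : ω ^ (n + 1) * η ^ (n + 1) = 1 := by rw [← mul_pow, h, one_pow]
    simp only [tb, bm, Matrix.mul_apply, Fin.sum_univ_two, sum_range_succ, of_apply, cons_val',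
      cons_val_zero, cons_val_one, cons_val_fin_one]
    have key : ∀ (a b c d : A) {f g k l : A}, f ∈ M * M → g ∈ M * M → k ∈ M * M → l ∈ M * M →
        a * f + b * g + c * k + d * l ∈ M * M := fun a b c d _ _ _ _ h1 h2 h3 h4 =>
      Ideal.add_mem _ (Ideal.add_mem _ (Ideal.add_mem _ (Ideal.mul_mem_left _ _ h1)
        (Ideal.mul_mem_left _ _ h2)) (Ideal.mul_mem_left _ _ h3)) (Ideal.mul_mem_left _ _ h4)
    refine ⟨?_, ?_, ?_, ?_⟩
    · convert key (ω * (1 - u n)) (-(η * u n)) (ω ^ (n + 1)) (-(η ^ (n + 1) * ω ^ 2)) ha hc hs hr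
        using 1
      ring
    · convert key (ω * (1 - u n)) (-(η * u n)) (-η ^ (n + 1)) (ω ^ (n + 1) * η ^ 2) hb hd hs hp
        using 1
      linear_combination (η ^ (n + 1) * u n) * hn
    · convert key (ω * u n) (η * (1 + u n)) (-ω ^ (n + 1)) (η ^ (n + 1) * ω ^ 2) ha hc hs hr
        using 1
      linear_combination (-(ω ^ (n + 1) * u n)) * hn
    · convert key (ω * u n) (η * (1 + u n)) (η ^ (n + 1)) (-(ω ^ (n + 1) * η ^ 2)) hb hd hs hp
        using 1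
      ring

lemma second {ω η : A} (h : ω * η = 1) (u : ℕ → A) (M I : Ideal A) (hu : ∀ i, u i ∈ M) (q : ℕ)
    (hq : ω ^ q = η ^ q) (hs : ∑ j ∈ range q, u j = 0)
    (hI : tb ω η u q 0 0 + tb ω η u q 1 1 - (ω ^ q + η ^ q) ∈ I) :
    (∑ j ∈ range q, (η ^ 2) ^ j * u j) * (∑ j ∈ range q, (ω ^ 2) ^ j * u j) ∈ I ⊔ M ^ 3 := by
  obtain ⟨ha, hb, hc, hd⟩ := tb_mod h u M hu q
  have hdet := det_tb h u q
  rw [det_fin_two] at hdet
  rw [hs] at ha hd
  set p := ∑ j ∈ range q, (η ^ 2) ^ j * u j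
  set r := ∑ j ∈ range q, (ω ^ 2) ^ j * u j
  have hp : p ∈ M := M.sum_mem fun j _ => M.mul_mem_left _ (hu j)
  have hr : r ∈ M := M.sum_mem fun j _ => M.mul_mem_left _ (hu j)
  have hn : ω ^ q * η ^ q = 1 := by rw [← mul_pow, h, one_pow]
  have e3 : M ^ 3 = M * M * M := by ring
  have m1 : ∀ {f g : A}, f ∈ M * M → g ∈ M → f * g ∈ I ⊔ M ^ 3 := fun h1 h2 =>
    Ideal.mem_sup_right (e3 ▸ Ideal.mul_mem_mul h1 h2)
  have le : M * M ≤ M := Ideal.mul_le_left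
  have t1 := m1 ha (le hd)
  have t2 := m1 hb (le hc)
  have t3 := m1 hb (M.mul_mem_left (η ^ q * ω ^ 2) hr)
  have t4 := m1 hc (M.mul_mem_left (ω ^ q * η ^ 2) hp)
  have t5 : η ^ q * (tb ω η u q 0 0 + tb ω η u q 1 1 - (ω ^ q + η ^ q)) ∈ I ⊔ M ^ 3 :=
    Ideal.mem_sup_left (I.mul_mem_left _ hI)
  have := Ideal.sub_mem _ (Ideal.sub_mem _ (Ideal.sub_mem _ (Ideal.add_mem _ t2 t3) t4) t1) t5
  convert this using 1
  have h2 : ω ^ 2 * η ^ 2 = 1 := by rw [← mul_pow, h, one_pow]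
  rw [hq] at hn ⊢
  linear_combination hdet - (p * r * ω ^ 2 * η ^ 2) * hn - (p * r) * h2 - hn

end second

section fourier
variable {A : Type*} [CommRing A] [Algebra ℂ A]

noncomputable def ft (v : ℕ → A) (q : ℕ) (ζ : ℂ) : A := ∑ j ∈ range q, ζ ^ j • v j

lemma ft_inv (v : ℕ → A) (q : ℕ) (hv : ∀ i < q, v (q - 1 - i) = - v i) (ζ : ℂ) (hζ : ζ ^ q = 1) :
    ft v q ζ⁻¹ = (-ζ) • ft v q ζ := by
  unfold ft
  rw [← sum_range_reflect, smul_sum]
  refine sum_congr rfl fun j hj => ?_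
  rw [mem_range] at hj
  rw [hv j hj, smul_smul]
  have : ζ ^ (q - 1 - j) * ζ ^ (j + 1) = 1 := by rw [← pow_add, ← hζ]; congr 1; omega
  rw [inv_pow, inv_eq_of_mul_eq_one_right this, pow_succ']
  simp

lemma ft_one (v : ℕ → A) (q : ℕ) (hv : ∀ i < q, v (q - 1 - i) = - v i) : ft v q 1 = 0 := by
  have h := ft_inv v q hv 1 (one_pow q)
  rw [inv_one] at h
  have : (2 : ℂ) • ft v q 1 = 0 := by
    rw [two_smul]; nth_rewrite 1 [h]; simp
  simpa using this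

lemma ft_inversion (v : ℕ → A) (q : ℕ) (ζ : ℂ) (hζ : IsPrimitiveRoot ζ q) (j : ℕ) (hj : j < q) :
    (q : ℂ) • v j = ∑ k ∈ range q, ((ζ ^ j)⁻¹) ^ k • ft v q (ζ ^ k) := by
  unfold ft
  simp only [smul_sum, smul_smul]
  rw [sum_comm]
  have h0 : ζ ≠ 0 := hζ.ne_zero (by omega)
  have : ∀ i ∈ range q, ∑ k ∈ range q, ((ζ ^ j)⁻¹ ^ k * (ζ ^ k) ^ i) • v i
      = if i = j then (q : ℂ) • v j else 0 := by
    intro i hi
    rw [mem_range] at hi
    rw [← sum_smul]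
    have e : ∀ k, (ζ ^ j)⁻¹ ^ k * (ζ ^ k) ^ i = ((ζ ^ j)⁻¹ * ζ ^ i) ^ k := by
      intro k; rw [mul_pow, ← pow_mul, ← pow_mul, mul_comm k i]
    simp only [e]
    split_ifs with hij
    · subst hij; simp [h0]
    · have h1 : (ζ ^ j)⁻¹ * ζ ^ i ≠ 1 := by
        intro h
        apply hij
        apply hζ.pow_inj hi hj
        field_simp at h
        exact h
      have h2 : ((ζ ^ j)⁻¹ * ζ ^ i) ^ q = 1 := by
        rw [mul_pow, inv_pow, ← pow_mul, ← pow_mul, mul_comm j, mul_comm i, pow_mul, pow_mul,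
          hζ.pow_eq_one]; simp
      rw [geom_sum_eq h1, h2]; simp
  rw [sum_congr rfl this, sum_ite_eq']
  simp [hj]

lemma mem_span_ft (v : ℕ → A) (q : ℕ) (hv : ∀ i < q, v (q - 1 - i) = - v i) (ζ : ℂ)
    (hζ : IsPrimitiveRoot ζ q) (j : ℕ) (hj : j < q) :
    v j ∈ Ideal.span (Set.range fun k : Fin (q / 2) => ft v q (ζ ^ ((k : ℕ) + 1))) := by
  set J := Ideal.span (Set.range fun k : Fin (q / 2) => ft v q (ζ ^ ((k : ℕ) + 1)))
  have g : ∀ k, 1 ≤ k → k ≤ q / 2 → ft v q (ζ ^ k) ∈ J := by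
    intro k h1 h2
    refine Ideal.subset_span ⟨⟨k - 1, by omega⟩, ?_⟩
    simp only
    congr 2; omega
  have hall : ∀ k < q, ft v q (ζ ^ k) ∈ J := by
    intro k hk
    by_cases h0 : k = 0
    · rw [h0, pow_zero, ft_one v q hv]; exact J.zero_mem
    by_cases h1 : k ≤ q / 2
    · exact g k (by omega) h1
    have e : ζ ^ k = (ζ ^ (q - k))⁻¹ := by
      symm
      apply inv_eq_of_mul_eq_one_right
      rw [← pow_add, show q - k + k = q by omega, hζ.pow_eq_one]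
    rw [e, ft_inv v q hv _ (by rw [← pow_mul, mul_comm, pow_mul, hζ.pow_eq_one, one_pow])]
    exact Submodule.smul_of_tower_mem _ _ (g _ (by omega) (by omega))
  have h1 : (q : ℂ) • v j ∈ J := by
    rw [ft_inversion v q ζ hζ j hj]
    exact J.sum_mem fun k hk => Submodule.smul_of_tower_mem _ _ (hall k (mem_range.1 hk))
  have h2 := Submodule.smul_of_tower_mem J (q : ℂ)⁻¹ h1
  rwa [smul_smul, inv_mul_cancel₀ (by exact_mod_cast (by omega : q ≠ 0)), one_smul] at h2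

lemma ft_sq (v : ℕ → A) (q : ℕ) (hq : 0 < q) (hv : ∀ i < q, v (q - 1 - i) = - v i) (M I : Ideal A)
    (hM : ∀ i, v i ∈ M)
    (hI : ∀ t : A, disc (fun i => t - v i) q - disc (fun _ => t) q ∈ I)
    (ζ : ℂ) (hζ : ζ ^ q = 1) (h1 : ζ ≠ 1) : ft v q ζ ^ 2 ∈ I ⊔ M ^ 3 := by
  obtain ⟨ω, rfl⟩ := IsAlgClosed.exists_pow_nat_eq ζ (by norm_num : 0 < 2)
  have h0 : ω ≠ 0 := by
    rintro rfl
    rw [← pow_mul, zero_pow (by omega)] at hζ
    exact zero_ne_one hζ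
  have hδ : ω - ω⁻¹ ≠ 0 := by
    intro h; apply h1
    rw [sub_eq_zero] at h
    rw [pow_two]; nth_rewrite 2 [h]; exact mul_inv_cancel₀ h0
  set a := algebraMap ℂ A
  have e1 : a ω * a ω⁻¹ = 1 := by rw [← map_mul, mul_inv_cancel₀ h0, map_one]
  have e2 : (a ω - a ω⁻¹) * a (ω - ω⁻¹)⁻¹ = 1 := by
    rw [← map_sub, ← map_mul, mul_inv_cancel₀ hδ, map_one]
  have e3 : a ω ^ q = a ω⁻¹ ^ q := by
    rw [← map_pow, ← map_pow, inv_pow]
    congr 1
    symm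
    apply inv_eq_of_mul_eq_one_right
    rw [← hζ]; ring
  set u : ℕ → A := fun i => a (ω - ω⁻¹)⁻¹ * v i with hu
  have d1 := disc_eq_tb e1 e2 (fun i => a ω + a ω⁻¹ - v i) u
    (fun i => by simp only [hu]; linear_combination (v i) * e2) q
  have d2 := disc_eq_tb e1 e2 (fun _ => a ω + a ω⁻¹) (fun _ => 0) (fun i => by ring) q
  obtain ⟨z1, -, -, z2⟩ := tb_mod e1 (fun _ => (0 : A)) ⊥ (fun _ => by simp) q
  simp only [sum_const_zero, sub_zero, mul_one, add_zero, Ideal.mul_bot, Ideal.mem_bot,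
    sub_eq_zero] at z1 z2
  have hf : ∀ ξ : ℂ, ∑ j ∈ range q, (a ξ) ^ j * u j = (ω - ω⁻¹)⁻¹ • ft v q ξ := by
    intro ξ
    unfold ft
    rw [smul_sum]
    refine sum_congr rfl fun j _ => ?_
    simp only [hu, Algebra.smul_def, map_pow]
    ring
  have hs : ∑ j ∈ range q, u j = 0 := by
    have := hf 1
    simpa [ft_one v q hv] using this
  have h3 := second e1 u M I (fun i => M.mul_mem_left _ (hM i)) q e3 hs (by
    have := hI (a ω + a ω⁻¹)
    rwa [d1, d2, z1, z2] at this)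
  rw [← map_pow, ← map_pow, hf, hf, inv_pow, ft_inv v q hv _ hζ, smul_smul, smul_mul_smul_comm,
    ← pow_two (ft v q _)] at h3
  have h4 := Submodule.smul_of_tower_mem _ (((ω - ω⁻¹)⁻¹ * -ω ^ 2 * (ω - ω⁻¹)⁻¹)⁻¹) h3
  rwa [smul_smul, inv_mul_cancel₀, one_smul] at h4
  exact mul_ne_zero (mul_ne_zero (inv_ne_zero hδ) (neg_ne_zero.2 (pow_ne_zero _ h0)))
    (inv_ne_zero hδ)

end fourier

end Pool.Agent.H29.Flo
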