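import Pool.Agent.H29.FloC

open Matrix Finset Polynomial

namespace Pool.Agent.H29.Flo

section top
variable {σ : Type*} [DecidableEq σ] {w : σ → ℕ} {N : ℕ}

def Wz (w : σ → ℕ) (N : ℕ) (d : ℤ) (p : (MvPolynomial σ ℂ)[X]) : Prop :=
  ∀ j, ∀ δ ∈ (p.coeff j).support, (Finsupp.weight w δ : ℤ) + N * j ≤ d

lemma Wz.add {d : ℤ} {p r : (MvPolynomial σ ℂ)[X]} (hp : Wz w N d p) (hr : Wz w N d r) :
    Wz w N d (p + r) := by
  intro j δ h
  rw [coeff_add] at h
  rcases Finset.mem_union.1 (MvPolynomial.support_add h) with h | h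
  · exact hp j δ h
  · exact hr j δ h

omit [DecidableEq σ] in
lemma Wz.neg {d : ℤ} {p : (MvPolynomial σ ℂ)[X]} (hp : Wz w N d p) : Wz w N d (-p) := by
  intro j δ h
  rw [coeff_neg, MvPolynomial.support_neg] at h
  exact hp j δ h

lemma Wz.sub {d : ℤ} {p r : (MvPolynomial σ ℂ)[X]} (hp : Wz w N d p) (hr : Wz w N d r) :
    Wz w N d (p - r) := by
  rw [sub_eq_add_neg]; exact hp.add hr.neg

omit [DecidableEq σ] in
lemma Wz.mono {d e : ℤ} {p : (MvPolynomial σ ℂ)[X]} (hp : Wz w N d p) (h : d ≤ e) : Wz w N e p :=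
  fun j δ hδ => (hp j δ hδ).trans h

lemma Wz.mul {d e : ℤ} {p r : (MvPolynomial σ ℂ)[X]} (hp : Wz w N d p) (hr : Wz w N e r) :
    Wz w N (d + e) (p * r) := by
  intro j δ h
  rw [coeff_mul] at h
  obtain ⟨c, hc, h⟩ := supp_sum h
  obtain ⟨a, ha, b, hb, rfl⟩ := supp_mul h
  have h1 := hp _ a ha
  have h2 := hr _ b hb
  rw [HasAntidiagonal.mem_antidiagonal] at hc
  rw [← hc, map_add]
  push_cast
  linarith

omit [DecidableEq σ] in
lemma Wz_zero (d : ℤ) : Wz w N d 0 := by
  intro j δ h; simp at h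

lemma Wz_one : Wz w N 0 1 := by
  intro j δ h
  rw [coeff_one] at h
  split_ifs at h with hj
  · rw [← MvPolynomial.C_1, MvPolynomial.C_apply] at h
    rw [supp_mono h, hj]; simp
  · simp at h

lemma Wz_lin {v : MvPolynomial σ ℂ} (hv : Bd w (N + 1) v) : Wz w N N (X - C v) := by
  apply Wz.sub
  · intro j δ h
    rw [coeff_X] at h
    split_ifs at h with hj
    · rw [← MvPolynomial.C_1, MvPolynomial.C_apply] at h
      rw [supp_mono h, ← hj]; simp
    · simp at h
  · intro j δ h
    rw [coeff_C] at h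
    split_ifs at h with hj
    · have := hv δ h
      rw [hj]; push_cast; omega
    · simp at h

lemma Wz_prod (x : ℕ → (MvPolynomial σ ℂ)[X]) (hx : ∀ i, Wz w N N (x i)) (n : ℕ) :
    Wz w N (N * n) (∏ i ∈ range n, x i) := by
  induction n with
  | zero => simpa using Wz_one
  | succ n ih =>
    rw [prod_range_succ]
    exact (ih.mul (hx n)).mono (by push_cast; linarith)

lemma Wz_tm (x : ℕ → (MvPolynomial σ ℂ)[X]) (hx : ∀ i, Wz w N N (x i)) (n : ℕ) :
    Wz w N (N * (n - 1)) (tm x (n + 1) 0 0 - ∏ i ∈ range (n + 1), x i) ∧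
    Wz w N (N * n) (tm x (n + 1) 0 1) ∧ Wz w N (N * n) (tm x (n + 1) 1 0) ∧
    Wz w N (N * (n - 1)) (tm x (n + 1) 1 1) := by
  have hN : (0 : ℤ) ≤ N := by positivity
  induction n with
  | zero =>
    obtain ⟨h1, h2, h3, h4⟩ := tm_entries x 0
    rw [h1, h2, h3, h4]
    simp only [tm, one_apply_eq, mul_one, ne_eq, one_ne_zero, not_false_eq_true, one_apply_ne,
      sub_zero, zero_add, range_one, prod_singleton, sub_self, zero_ne_one, mul_zero, zero_sub,
      CharP.cast_eq_zero]
    exact ⟨Wz_zero _, Wz_one.neg, Wz_one, Wz_zero _⟩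
  | succ n ih =>
    obtain ⟨h1, h2, h3, h4⟩ := tm_entries x (n + 1)
    obtain ⟨a, b, c, d⟩ := ih
    rw [h1, h2, h3, h4]
    refine ⟨?_, ?_, ?_, ?_⟩
    · have := (((hx (n + 1)).mul a).mono (e := N * n) (by linarith)).sub c
      convert this using 1
      · push_cast; ring
      · rw [prod_range_succ _ (n + 1)]; ring
    · exact (((hx (n + 1)).mul b).mono (by push_cast; linarith)).sub
        (d.mono (by push_cast; linarith))
    · have := (a.mono (e := N * (n + 1 : ℕ)) (by push_cast; linarith)).add (Wz_prod x hx (n + 1))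
      simpa using this
    · exact b.mono (by push_cast; linarith)

lemma Wz_disc (x : ℕ → (MvPolynomial σ ℂ)[X]) (hx : ∀ i, Wz w N N (x i)) (n : ℕ) (hn : 0 < n) :
    Wz w N (N * (n - 2)) (disc x n - ∏ i ∈ range n, x i) := by
  obtain ⟨k, rfl⟩ : ∃ k, n = k + 1 := ⟨n - 1, by omega⟩
  obtain ⟨a, -, -, d⟩ := Wz_tm x hx k
  convert a.add d using 1
  · push_cast; ring
  · unfold disc; rw [trace_fin_two]; ring

omit [DecidableEq σ] in
lemma Wz.coeff_zero {d : ℤ} {p : (MvPolynomial σ ℂ)[X]} (hp : Wz w N d p) (j : ℕ)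
    (h : d < N * j) : p.coeff j = 0 := by
  rw [← MvPolynomial.support_eq_empty, Finset.eq_empty_iff_forall_notMem]
  intro δ hδ
  have := hp j δ hδ
  have : (0 : ℤ) ≤ Finsupp.weight w δ := by positivity
  linarith

end top

lemma disc_parity {S : Type*} [CommRing S] (v : ℕ → S) (q : ℕ)
    (hv : ∀ i < q, v (q - 1 - i) = - v i) (j : ℕ) :
    (disc (fun i => X - C (v i)) q).coeff j * (-1) ^ j
      = (-1) ^ q * (disc (fun i => X - C (v i)) q).coeff j := by
  have h1 := disc_map (compRingHom (C (-1 : S) * X)) (fun i => X - C (v i)) q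
  have h2 := disc_rev q (fun i => (X - C (v i) : S[X]))
  have h3 : disc (fun i => compRingHom (C (-1 : S) * X) (X - C (v i))) q
      = disc (fun i => - (X - C (v (q - 1 - i)) : S[X])) q := by
    apply disc_congr
    intro i hi
    rw [hv i hi]; simp; ring
  rw [h3, h2, coe_compRingHom_apply] at h1
  have h4 := congrArg (fun p => p.coeff j) h1
  simp only [comp_C_mul_X_coeff] at h4
  rw [h4, show (-1 : S[X]) ^ q = C ((-1) ^ q) by simp, coeff_C_mul]

noncomputable def av (q : ℕ) (i : ℕ) : MvPolynomial (Fin (q / 2)) ℂ :=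
  if h : i < q / 2 then MvPolynomial.X ⟨i, h⟩
  else if h' : q - 1 - i < q / 2 then - MvPolynomial.X ⟨q - 1 - i, h'⟩ else 0

lemma av_anti (q : ℕ) (i : ℕ) (hi : i < q) : av q (q - 1 - i) = - av q i := by
  unfold av
  have e : q - 1 - (q - 1 - i) = i := by omega
  split_ifs <;> first | omega | simp [e]

lemma av_mem (q i : ℕ) : av q i ∈ Ideal.span (Set.range MvPolynomial.X) := by
  unfold av
  split_ifs
  · exact Ideal.subset_span ⟨_, rfl⟩
  · exact Submodule.neg_mem _ (Ideal.subset_span ⟨_, rfl⟩)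
  · exact Submodule.zero_mem _

lemma av_bd (q L i : ℕ) : Bd (wt (q / 2) L) (L + q / 2 + 1) (av q i) := by
  have h : ∀ k : Fin (q / 2), ∀ δ ∈ (MvPolynomial.X k : MvPolynomial _ ℂ).support,
      Finsupp.weight (wt (q / 2) L) δ < L + q / 2 + 1 := by
    intro k δ hδ
    rw [MvPolynomial.X] at hδ
    rw [supp_mono hδ, Finsupp.weight_single]
    have := k.2
    simp only [wt, smul_eq_mul, one_mul]; omega
  unfold av
  split_ifs
  · exact h _
  · intro δ hδ; rw [MvPolynomial.support_neg] at hδ; exact h _ δ hδ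
  · intro δ hδ; simp at hδ

lemma av_prod (q : ℕ) : ∏ i ∈ range q, (X - C (av q i))
    = expand _ 2 (∏ i ∈ range (q / 2), (X - C (yv (q / 2) i))) * X ^ (q % 2) := by
  have e : range q = range (q / 2 + (q % 2 + q / 2)) := by congr 1; omega
  rw [e, prod_range_add, prod_range_add, map_prod]
  have h1 : ∏ i ∈ range (q % 2), (X - C (av q (q / 2 + i))) = X ^ (q % 2) := by
    rw [prod_congr rfl (g := fun _ => X), prod_const, card_range]
    intro i hi
    rw [mem_range] at hi
    unfold av
    rw [dif_neg (by omega), dif_neg (by omega)]; simp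
  have h2 : ∏ i ∈ range (q / 2), (X - C (av q (q / 2 + (q % 2 + i))))
      = ∏ i ∈ range (q / 2), (X + C (av q i)) := by
    rw [← prod_range_reflect]
    refine prod_congr rfl fun i hi => ?_
    rw [mem_range] at hi
    rw [show q / 2 + (q % 2 + (q / 2 - 1 - i)) = q - 1 - i by omega, av_anti q i (by omega)]
    simp
  rw [h1, h2, mul_comm (X ^ (q % 2)), ← mul_assoc, ← prod_mul_distrib]
  congr 1
  refine prod_congr rfl fun i hi => ?_
  rw [mem_range] at hi
  unfold av yv
  rw [dif_pos hi, dif_pos hi]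
  simp only [map_sub, expand_X, expand_C, map_pow]
  ring

noncomputable def DD (q : ℕ) : (MvPolynomial (Fin (q / 2)) ℂ)[X] :=
  disc (fun i => X - C (av q i)) q - disc (fun _ => X - C 0) q

lemma not_mem_DD (q : ℕ) (hq : 0 < q / 2) :
    (MvPolynomial.X ⟨0, hq⟩ ^ (2 * (q / 2) - 1) : MvPolynomial (Fin (q / 2)) ℂ)
      ∉ Ideal.span (Set.range (DD q).coeff) := by
  set m := q / 2 with hm
  set e := q % 2 with he
  have hqm : q = m * 2 + e := by omega
  set L := m * m with hL
  set N := L + m with hN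
  have hN0 : (0 : ℤ) < N := by have : 0 < N := by omega
                               exact_mod_cast this
  set P : (MvPolynomial (Fin m) ℂ)[X] := ∏ i ∈ range m, (X - C (yv m i)) with hP
  have hPm : P.Monic := monic_prod_of_monic _ _ fun i _ => monic_X_sub_C _
  have hPd : P.natDegree = m := by
    rw [hP, natDegree_prod_of_monic _ _ fun i _ => monic_X_sub_C _]; simp
  have hP1 : P.coeff m = 1 := by
    have := hPm.coeff_natDegree
    rwa [hPd] at this
  have w1 := Wz_disc (w := wt m L) (N := N) (fun i => X - C (av q i))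
    (fun i => Wz_lin (av_bd q L i)) q (by omega)
  have w2 := Wz_disc (w := wt m L) (N := N) (fun _ => X - C 0)
    (fun i => Wz_lin (fun δ h => by simp at h)) q (by omega)
  have w3 := w1.sub w2
  set ρ := disc (fun i => X - C (av q i)) q - ∏ i ∈ range q, (X - C (av q i)) -
    (disc (fun _ => X - C 0) q - ∏ i ∈ range q, (X - C (0 : MvPolynomial (Fin m) ℂ))) with hρ
  have hD : DD q = expand _ 2 P * X ^ e - X ^ q + ρ := by
    rw [hρ, av_prod]; simp only [DD, map_zero, sub_zero, prod_const, card_range]; ring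
  have hc : ∀ j, (DD q).coeff (j * 2 + e)
      = P.coeff j - (if j = m then 1 else 0) + ρ.coeff (j * 2 + e) := by
    intro j
    rw [hD, coeff_add, coeff_sub, coeff_mul_X_pow, coeff_expand_mul (by norm_num), coeff_X_pow]
    congr 2
    split_ifs <;> first | rfl | omega
  have hz : ∀ j, m ≤ j → (DD q).coeff (j * 2 + e) = 0 := by
    intro j hj
    rw [hc, w3.coeff_zero]
    · split_ifs with h
      · rw [h, hP1]; simp
      · rw [coeff_eq_zero_of_natDegree_lt (by omega)]; simp
    · apply mul_lt_mul_of_pos_left _ hN0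
      omega
  set G : (MvPolynomial (Fin m) ℂ)[X] :=
    ∑ j ∈ range m, monomial j ((DD q).coeff (j * 2 + e)) with hG
  have hGc : ∀ j, G.coeff j = (DD q).coeff (j * 2 + e) := by
    intro j
    rw [hG, finsetSum_coeff]
    simp only [coeff_monomial, sum_ite_eq', mem_range]
    split_ifs with h
    · rfl
    · exact (hz j (by omega)).symm
  have hGd : G.degree < P.degree := by
    rw [degree_eq_natDegree hPm.ne_zero, hPd, degree_lt_iff_coeff_zero]
    intro j hj
    rw [hGc, hz j hj]
  have hk := key m L hq (P - G) (hPm.sub_of_left hGd)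
    (by rw [natDegree_eq_of_degree_eq (degree_sub_eq_left_of_degree_lt hGd), hPd]) (by
      intro j δ hδ
      rw [coeff_sub, hGc] at hδ
      rcases lt_trichotomy j m with h | h | h
      · rw [hc, if_neg h.ne] at hδ
        simp only [sub_zero, sub_add_cancel_left, MvPolynomial.support_neg] at hδ
        have h1 := w3 _ δ hδ
        obtain ⟨t, ht⟩ : ∃ t, m = j + 1 + t := ⟨m - j - 1, by omega⟩
        have h2 : (q : ℤ) - 2 = ((j * 2 + e : ℕ) : ℤ) + 2 * t := by omega
        rw [h2, mul_add, add_comm] at h1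
        have h3 : (Finsupp.weight (wt m L) δ : ℤ) ≤ N * (2 * t) := by linarith
        have h4 : Finsupp.weight (wt m L) δ ≤ N * (2 * t) := by exact_mod_cast h3
        have h5 : m * t ≤ L := Nat.mul_le_mul_left _ (by omega)
        have h6 : 2 * L * m = 2 * L * j + 2 * L + 2 * L * t := by
          nth_rewrite 1 [ht]; ring
        rw [h6]
        rw [hN] at h4
        nlinarith
      · rw [hz j h.ge, sub_zero, h, hP1, ← MvPolynomial.C_1,
          MvPolynomial.C_apply] at hδ
        rw [supp_mono hδ, h]; simp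
      · rw [hz j h.le, sub_zero, coeff_eq_zero_of_natDegree_lt (by omega)] at hδ
        simp at hδ)
  rw [← hP, sub_sub_cancel] at hk
  intro hmem
  apply hk
  refine Ideal.span_le.2 ?_ hmem
  rintro _ ⟨j, rfl⟩
  by_cases hj : j % 2 = e
  · have : j = j / 2 * 2 + e := by omega
    rw [this, ← hGc]
    exact Ideal.subset_span ⟨_, rfl⟩
  · have p1 := disc_parity (av q) q (av_anti q) j
    have p2 := disc_parity (fun _ => (0 : MvPolynomial (Fin m) ℂ)) q (fun _ _ => by simp) j
    have p3 : (DD q).coeff j * ((-1) ^ j - (-1) ^ q) = 0 := by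
      rw [DD, coeff_sub]; linear_combination p1 - p2
    have p4 : ((-1) ^ j - (-1) ^ q : MvPolynomial (Fin m) ℂ) ≠ 0 := by
      rcases Nat.even_or_odd j with h | h
      · have h' : Odd q := by rw [Nat.even_iff] at h; rw [Nat.odd_iff]; omega
        rw [h.neg_one_pow, h'.neg_one_pow]; norm_num
      · have h' : Even q := by rw [Nat.odd_iff] at h; rw [Nat.even_iff]; omega
        rw [h.neg_one_pow, h'.neg_one_pow]; norm_num
    rw [(mul_eq_zero.1 p3).resolve_right p4]
    exact Submodule.zero_mem _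

lemma exists_zero (q : ℕ) (hq : 3 < q) :
    ∃ a : Fin (q / 2) → ℂ, a ≠ 0 ∧ ∀ j, MvPolynomial.eval a ((DD q).coeff j) = 0 := by
  by_contra hcon
  push Not at hcon
  set I := Ideal.span (Set.range (DD q).coeff) with hI
  set M : Ideal (MvPolynomial (Fin (q / 2)) ℂ) := Ideal.span (Set.range MvPolynomial.X) with hM
  have h1 : M ≤ I.radical := by
    rw [← MvPolynomial.vanishingIdeal_zeroLocus_eq_radical (K := ℂ), hM, Ideal.span_le]
    rintro _ ⟨i, rfl⟩ a ha
    by_contra h
    obtain ⟨j, hj⟩ := hcon a (by rintro rfl; simp at h)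
    apply hj
    have := ha _ (Ideal.subset_span ⟨j, rfl⟩)
    rwa [MvPolynomial.aeval_eq_eval] at this
  obtain ⟨N, hN⟩ := Ideal.exists_pow_le_of_le_radical_of_fg h1 (IsNoetherian.noetherian _)
  have hζ := Complex.isPrimitiveRoot_exp q (by omega)
  set ζ := Complex.exp (2 * Real.pi * Complex.I / q)
  have h2 : M = Ideal.span (Set.range fun k : Fin (q / 2) => ft (av q) q (ζ ^ ((k : ℕ) + 1))) := by
    apply le_antisymm
    · rw [hM, Ideal.span_le]
      rintro _ ⟨i, rfl⟩
      have := mem_span_ft (av q) q (av_anti q) ζ hζ i (by have := i.2; omega)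
      rwa [av, dif_pos i.2] at this
    · rw [Ideal.span_le]
      rintro _ ⟨k, rfl⟩
      exact M.sum_mem fun j _ => Submodule.smul_of_tower_mem _ _ (av_mem q j)
  have h3 := naka I _ M h2 (fun k => ft_sq (av q) q (by omega) (av_anti q) M I (av_mem q) (by
      intro t
      have e1 := disc_map (evalRingHom t) (fun i => X - C (av q i)) q
      have e2 := disc_map (evalRingHom t) (fun _ => X - C 0) q
      simp only [coe_evalRingHom, eval_sub, eval_X, eval_C, sub_zero] at e1 e2
      rw [← e1, ← e2, ← eval_sub, ← DD, eval_eq_sum_range]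
      exact I.sum_mem fun j _ => I.mul_mem_right _ (Ideal.subset_span ⟨j, rfl⟩)) _
    (by rw [← pow_mul, mul_comm, pow_mul, hζ.pow_eq_one, one_pow])
    (hζ.pow_ne_one_of_pos_of_lt (by omega) (by have := k.2; omega))) N hN
  apply not_mem_DD q (by omega)
  apply h3
  rw [Fintype.card_fin]
  exact Ideal.pow_le_pow_right (by omega) (Ideal.pow_mem_pow (Ideal.subset_span (Set.mem_range_self _)) _)

theorem main (q : ℕ) (hq : 3 < q) : ∃ V : Fin q → ℂ, V ≠ 0 ∧ (∀ j, V j = - V j.rev) ∧
    ∀ z : ℂ, z ≠ 0 → (floquet q V z).charpoly = (floquet q 0 z).charpoly := by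
  obtain ⟨a, ha, hz⟩ := exists_zero q hq
  set φ := MvPolynomial.eval a
  refine ⟨fun i => φ (av q i), ?_, ?_, ?_⟩
  · intro h
    apply ha
    funext i
    have := congrFun h ⟨i, by have := i.2; omega⟩
    simpa [av, φ] using this
  · intro j
    have := av_anti q j j.2
    simp only []
    rw [Fin.val_rev, show q - (j + 1) = q - 1 - j by omega, this]; simp
  · intro z hz0
    have e1 := disc_map (mapRingHom φ) (fun i => X - C (av q i)) q
    have e2 := disc_map (mapRingHom φ) (fun _ => X - C 0) q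
    simp only [coe_mapRingHom, Polynomial.map_sub, map_X, map_C] at e1 e2
    have e3 : (DD q).map φ = 0 := by ext j; simp [hz j]
    rw [DD, Polynomial.map_sub, e1, e2, sub_eq_zero] at e3
    have w2 := Wz_disc (w := wt (q / 2) 0) (N := 1) (fun _ => X - C 0)
      (fun i => Wz_lin (fun δ h => by simp at h)) q (by omega)
    set D := disc (fun _ => (X - C (φ 0) : ℂ[X])) q with hD
    have hd : (D - X ^ q).degree < (X ^ q : ℂ[X]).degree := by
      rw [degree_X_pow, degree_lt_iff_coeff_zero]
      intro j hj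
      have := congrArg φ (w2.coeff_zero j (by push_cast; omega))
      rw [← coeff_map, Polynomial.map_sub, e2] at this
      simpa using this
    have hm : D.Monic := by simpa using (monic_X_pow q).add_of_left hd
    have hdeg : D.natDegree = q := by
      have := natDegree_add_eq_left_of_degree_lt hd
      simpa using this
    rw [charpoly_floquet q (by omega) _ (fun i => φ (av q i)) (fun _ => rfl) D e3.symm hm hdeg z hz0,
      charpoly_floquet q (by omega) 0 (fun _ => φ 0) (fun _ => by simp) D hD hm hdeg z hz0]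

end Pool.Agent.H29.Flo
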