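import Mathlib

open Set Metric Complex MeasureTheory Filter Topology
open scoped Real ComplexConjugate InnerProductSpace

namespace Pool.Agent.H29.Fock

/-- The Gaussian measure with density `exp (-|z|^2)` on `ℂ^n`. -/
noncomputable def gauss (n : ℕ) : Measure (Fin n → ℂ) :=
  volume.withDensity fun z => ENNReal.ofReal (Real.exp (-∑ i, ‖z i‖ ^ 2))

/-- The classes in `L²(μ)` that have an entire representative. -/
def entire {E : Type*} [NormedAddCommGroup E] [NormedSpace ℂ E] [MeasurableSpace E]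
    (μ : Measure E) : Submodule ℂ (Lp ℂ 2 μ) where
  carrier := {f | ∃ F : E → ℂ, Differentiable ℂ F ∧ f =ᵐ[μ] F}
  add_mem' := fun {f g} ⟨F, hF, h⟩ ⟨G, hG, k⟩ =>
    ⟨F + G, hF.add hG, (Lp.coeFn_add f g).trans (h.add k)⟩
  zero_mem' := ⟨0, differentiable_const 0, Lp.coeFn_zero ℂ 2 μ⟩
  smul_mem' := fun c f ⟨F, hF, h⟩ =>
    ⟨c • F, hF.const_smul c, (Lp.coeFn_smul c f).trans (h.const_smul c)⟩

/-- The graph of the Toeplitz operator with symbol `φ` on the subspace `K` of `L²(μ)`:
pairs `(f, g)` with `φ f ∈ L²(μ)` and `φ f - g` orthogonal to `K`, that is `g = P (φ f)`. -/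
def toepGraph {E : Type*} [MeasurableSpace E] {μ : Measure E} (K : Submodule ℂ (Lp ℂ 2 μ))
    (φ : E → ℂ) : Set (K × K) :=
  {x | ∃ h : Lp ℂ 2 μ, (h =ᵐ[μ] fun z => φ z * (x.1 : Lp ℂ 2 μ) z) ∧
    ∀ k ∈ K, inner ℂ k (h - (x.2 : Lp ℂ 2 μ)) = 0}

/-- The operator with graph `Γ` has compact resolvent: for some `l`, `l - A` has a bounded
everywhere defined two-sided inverse `R`, and `R` is compact. -/
def CompactRes {H : Type*} [NormedAddCommGroup H] [NormedSpace ℂ H] (Γ : Set (H × H)) : Prop :=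
  ∃ (l : ℂ) (R : H →L[ℂ] H), IsCompactOperator R ∧ (∀ x ∈ Γ, R (l • x.1 - x.2) = x.1) ∧
    ∀ h, (R h, l • R h - h) ∈ Γ

/-- The function `z ↦ p(z, conj z)` of a polynomial in `z` and `conj z`. -/
noncomputable def symb {n : ℕ} (p : MvPolynomial (Fin n ⊕ Fin n) ℂ) (z : Fin n → ℂ) : ℂ :=
  MvPolynomial.eval (Sum.elim z fun i => starRingEnd ℂ (z i)) p

section diag
variable {H ι : Type*} [NormedAddCommGroup H] [InnerProductSpace ℂ H] [CompleteSpace H]

lemma diagA (b : HilbertBasis ι ℂ H) (Γ : Set (H × H)) (lam : ι → ℂ)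
    (h1 : ∀ x ∈ Γ, ∀ α, ⟪b α, x.2⟫_ℂ = lam α * ⟪b α, x.1⟫_ℂ)
    (h2 : ∀ (s : Finset ι) (a : ι → ℂ), (∑ α ∈ s, a α • b α, ∑ α ∈ s, (lam α * a α) • b α) ∈ Γ)
    (h0 : ∀ α, lam α ≠ 0) (hs : Summable fun α => ‖(lam α)⁻¹‖) : CompactRes (closure Γ) := by
  classical
  let t : ι → H →L[ℂ] H := fun α => (-(lam α)⁻¹) • InnerProductSpace.rankOne ℂ (b α) (b α)
  have ht : Summable t := Summable.of_norm (by
    simpa [t, norm_smul, b.orthonormal.1] using hs)
  have hc : ∀ β h, ⟪b β, (∑' α, t α) h⟫_ℂ = -(lam β)⁻¹ * ⟪b β, h⟫_ℂ := by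
    intro β h
    have := ((innerSL ℂ (b β)).comp (ContinuousLinearMap.apply ℂ H h)).hasSum ht.hasSum
    refine this.unique ?_
    refine Eq.mpr (congrArg (fun f => HasSum f _) (funext fun α => ?_))
      (hasSum_ite_eq β (-(lam β)⁻¹ * ⟪b β, h⟫_ℂ))
    have := orthonormal_iff_ite.1 b.orthonormal β α
    by_cases e : α = β
    · subst e; simp [t, inner_smul_right, b.orthonormal.1]
    · simp [t, inner_smul_right, this, e, Ne.symm e]
  refine ⟨0, ∑' α, t α, ?_, fun x hx => ?_, fun h => ?_⟩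
  · refine isCompactOperator_of_tendsto ht.hasSum (Eventually.of_forall fun s => ?_)
    induction s using Finset.induction_on with
    | empty => simpa using isCompactOperator_zero
    | insert α s hα ih =>
      rw [Finset.sum_insert hα]
      refine IsCompactOperator.add (IsCompactOperator.smul ?_ _) ih
      exact (isCompactOperator_of_locallyCompactSpace_dom (innerSL ℂ (b α))).clm_comp
        (ContinuousLinearMap.toSpanSingleton ℂ (b α))
  · have hcl : IsClosed {x : H × H | ∀ α, ⟪b α, x.2⟫_ℂ = lam α * ⟪b α, x.1⟫_ℂ} := by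
      rw [Set.setOf_forall]
      exact isClosed_iInter fun α => isClosed_eq (by fun_prop) (by fun_prop)
    have h3 := closure_minimal h1 hcl hx
    refine b.repr.injective (lp.ext (funext fun β => ?_))
    rw [b.repr_apply_apply, b.repr_apply_apply, hc, zero_smul, zero_sub, inner_neg_right, h3 β]
    have := h0 β
    field_simp
  · have k1 := b.hasSum_repr ((∑' α, t α) h)
    have k2 := (b.hasSum_repr h).neg
    refine mem_closure_of_tendsto (b := atTop) ?_
      (Eventually.of_forall fun s => h2 s fun α => b.repr ((∑' α, t α) h) α)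
    refine Tendsto.prodMk_nhds k1 ?_
    rw [zero_smul, zero_sub]
    refine Tendsto.congr (fun s => Finset.sum_congr rfl fun α _ => ?_) k2
    simp only [b.repr_apply_apply, hc, ← neg_smul]
    have := h0 α
    congr 1; field_simp

omit [CompleteSpace H] in
lemma diagB {u : ℕ → H} (hu : Orthonormal ℂ u) (Γ : Set (H × H)) (h : ∀ n, (u n, 0) ∈ Γ) :
    ¬ CompactRes (closure Γ) := by
  rintro ⟨l, R, hR, h1, -⟩
  have hR' : IsCompactOperator (l • R : H →L[ℂ] H) := hR.smul l
  have hK := hR'.isCompact_closure_image_closedBall (f := (l • R : H →L[ℂ] H).toLinearMap) 1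
  have hm : ∀ n, u n ∈ closure ((l • R : H →L[ℂ] H).toLinearMap '' closedBall 0 1) := by
    intro n
    refine subset_closure ⟨u n, by simp [hu.1], ?_⟩
    simpa using h1 _ (subset_closure (h n))
  obtain ⟨a, -, φ, hφ, hl⟩ := hK.tendsto_subseq hm
  obtain ⟨N, hN⟩ := Metric.cauchySeq_iff'.1 hl.cauchySeq 1 one_pos
  have h2 := hN (N + 1) (by omega)
  simp only [Function.comp_apply, dist_eq_norm] at h2
  have h3 := norm_sub_sq (𝕜 := ℂ) (u (φ (N + 1))) (u (φ N))
  rw [hu.2 (hφ (Nat.lt_succ_self N)).ne', hu.1, hu.1] at h3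
  simp only [map_zero] at h3
  nlinarith [norm_nonneg (u (φ (N + 1)) - u (φ N))]
end diag

/-- Fourier coefficient on the unit circle. -/
noncomputable def AA (j : ℕ) (g : ℂ → ℂ) : ℂ :=
  ∫ θ in (0:ℝ)..2 * π, conj (circleMap 0 1 θ) ^ j * g (circleMap 0 1 θ)

lemma cm_conj (θ : ℝ) : conj (circleMap 0 1 θ) * circleMap 0 1 θ = 1 := by
  rw [Complex.conj_mul']; simp

lemma AA_eq (j : ℕ) {g : ℂ → ℂ} (hg : Differentiable ℂ g) :
    AA j g = 2 * π / j.factorial * iteratedDeriv j g 0 := by
  have h := (hg.differentiableOn (s := closedBall 0 1)).circleIntegral_one_div_sub_center_pow_smul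
    one_pos j
  have e : ∮ z in C(0, 1), (1 / (z - 0) ^ (j + 1)) • g z = I * AA j g := by
    rw [AA, circleIntegral, ← intervalIntegral.integral_const_mul]
    refine intervalIntegral.integral_congr fun θ _ => ?_
    have h1 := cm_conj θ
    have h2 : circleMap 0 1 θ ≠ 0 := circleMap_ne_center one_ne_zero
    rw [eq_inv_of_mul_eq_one_left h1]
    simp only [deriv_circleMap, smul_eq_mul, sub_zero, inv_pow]
    field_simp
    ring
  rw [e, smul_eq_mul] at h
  apply mul_left_cancel₀ I_ne_zero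
  rw [h]; ring

lemma AA_scale (j : ℕ) {g : ℂ → ℂ} (hg : Differentiable ℂ g) (z : ℂ) :
    AA j (fun w => g (z * w)) = z ^ j * AA j g := by
  rw [AA_eq j hg, AA_eq j (by fun_prop), iteratedDeriv_comp_const_mul hg.contDiff]
  simp only [mul_zero]; ring

lemma AA_zero {g : ℂ → ℂ} (hg : Differentiable ℂ g) (h : ∀ j, AA j g = 0) (z : ℂ) : g z = 0 := by
  have h1 : ∀ j, iteratedDeriv j g 0 = 0 := by
    intro j
    have := h j
    rw [AA_eq j hg] at this
    refine (mul_eq_zero.1 this).resolve_left (div_ne_zero (mul_ne_zero two_ne_zero ?_) ?_)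
    · exact_mod_cast Real.pi_ne_zero
    · exact_mod_cast j.factorial_ne_zero
  rw [← Complex.taylorSeries_eq_of_entire' hg (c := 0) (z := z)]
  simp [h1]

lemma AA_pow (j p : ℕ) (c : ℂ) (h : j ≠ p) : AA j (fun w => w ^ p * c) = 0 := by
  rw [AA_eq j (by fun_prop), iteratedDeriv_mul_const_field, iteratedDeriv_fun_pow_zero]
  simp [h]

lemma param {F : ℝ → ℂ → ℂ} (hc : Continuous F.uncurry) (hd : ∀ θ, Differentiable ℂ (F θ)) :
    Differentiable ℂ fun z => ∫ θ in (0:ℝ)..2 * π, F θ z := by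
  intro z
  obtain ⟨M, hM⟩ := (isCompact_uIcc.prod (isCompact_closedBall z 2)).exists_bound_of_continuousOn
    (f := F.uncurry) (s := uIcc 0 (2 * π) ×ˢ closedBall z 2) hc.continuousOn
  have c1 : ∀ x, Continuous fun θ => F θ x := fun x => hc.comp (Continuous.prodMk_left x)
  refine (intervalIntegral.hasDerivAt_integral_of_dominated_loc_of_deriv_le
    (μ := volume) (F := fun x θ => F θ x) (F' := fun x θ => deriv (F θ) x) (bound := fun _ => M / 1)
    (ball_mem_nhds z one_pos) (Eventually.of_forall fun x => (c1 x).aestronglyMeasurable)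
    ((c1 z).intervalIntegrable _ _) ?_ (ae_of_all _ fun θ hθ x hx => ?_)
    intervalIntegrable_const (ae_of_all _ fun θ _ x _ => (hd θ x).hasDerivAt)).2.differentiableAt
  · exact ((measurable_deriv_with_param hc).comp measurable_prodMk_right).aestronglyMeasurable
  · refine Complex.norm_deriv_le_of_forall_mem_sphere_norm_le one_pos (hd θ).diffContOnCl
      fun w hw => hM (θ, w) ⟨uIoc_subset_uIcc hθ, ?_⟩
    rw [mem_closedBall]
    have := dist_triangle w x z
    rw [mem_sphere] at hw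
    rw [mem_ball] at hx
    linarith

lemma avg {E : Type*} [TopologicalSpace E] [MeasurableSpace E] [BorelSpace E]
    [SecondCountableTopology E] {μ : Measure E} [SFinite μ] {G : E → ℂ} (hG : Continuous G)
    (hi : Integrable G μ) {r : ℝ → E → E} (hr : Continuous r.uncurry)
    (hm : ∀ θ, MeasurePreserving (r θ) μ μ) :
    Integrable (fun z => ∫ θ in (0:ℝ)..2 * π, G (r θ z)) μ ∧
      ∫ z, (∫ θ in (0:ℝ)..2 * π, G (r θ z)) ∂μ = 2 * π * ∫ z, G z ∂μ := by
  have k : ∀ {V : Type} [NormedAddCommGroup V] [NormedSpace ℝ V] (g : E → V), Continuous g →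
      ∀ θ, ∫ z, g (r θ z) ∂μ = ∫ z, g z ∂μ := by
    intro V _ _ g hg θ
    rw [← integral_map (hm θ).aemeasurable hg.aestronglyMeasurable, (hm θ).map_eq]
  have hI : Integrable (Function.uncurry fun θ z => G (r θ z))
      ((volume.restrict (uIoc 0 (2 * π))).prod μ) := by
    refine (integrable_prod_iff (hG.comp hr).aestronglyMeasurable).2
      ⟨ae_of_all _ fun θ => (hm θ).integrable_comp_of_integrable hi, ?_⟩
    have := k (fun z => ‖G z‖) hG.norm
    show Integrable (fun θ => ∫ z, ‖G (r θ z)‖ ∂μ) _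
    simp only [this]
    exact integrableOn_const (by simp [ENNReal.mul_eq_top])
  constructor
  · have := hI.integral_prod_right
    rw [uIoc_of_le (by positivity)] at this
    simp only [intervalIntegral.integral_of_le (show (0:ℝ) ≤ 2 * π by positivity)]
    exact this
  · rw [← intervalIntegral_integral_swap hI]
    simp [k G hG]

end Pool.Agent.H29.Fock
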