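import Mathlib
import Pool.Agent.H29.Fock1

open Set Metric Complex MeasureTheory Filter Topology
open scoped Real ComplexConjugate InnerProductSpace

namespace Pool.Agent.H29.Fock

instance : SFinite (gauss 2) := by unfold gauss; infer_instance

lemma dens_meas : Measurable fun z : Fin 2 → ℂ => ENNReal.ofReal (Real.exp (-∑ i, ‖z i‖ ^ 2)) := by
  fun_prop

lemma rot_mp (c : Fin 2 → ℂ) (hc : ∀ i, ‖c i‖ = 1) :
    MeasurePreserving (fun (z : Fin 2 → ℂ) i => c i * z i) (gauss 2) (gauss 2) := by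
  have h1 : MeasurePreserving (fun (z : Fin 2 → ℂ) i => c i * z i) volume volume :=
    measurePreserving_pi (fun _ => volume) (fun _ => volume) (f := fun i w => c i * w) fun i =>
      (rotation ⟨c i, by simpa [Submonoid.unitSphere] using hc i⟩).measurePreserving
  refine ⟨h1.measurable, Measure.ext fun s hs => ?_⟩
  rw [Measure.map_apply h1.measurable hs, gauss, withDensity_apply _ (h1.measurable hs),
    withDensity_apply _ hs, ← h1.setLIntegral_comp_preimage hs dens_meas]
  simp [hc]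

/-- squared norms of monomials -/
noncomputable def NN (α : ℕ × ℕ) : ℝ := π ^ 2 * α.1.factorial * α.2.factorial

lemma NN_pos (α : ℕ × ℕ) : 0 < NN α := by unfold NN; have := Real.pi_pos; positivity

lemma int_mon (α : ℕ × ℕ) : ∫ z, ‖z 0‖ ^ (2 * α.1) * ‖z 1‖ ^ (2 * α.2) ∂gauss 2 = NN α := by
  have one : ∀ p : ℕ, ∫ x : ℂ, ‖x‖ ^ (2 * p) * Real.exp (-‖x‖ ^ 2) = π * p.factorial := by
    intro p
    have := Complex.integral_rpow_mul_exp_neg_rpow (p := 2) (q := ((2 * p : ℕ) : ℝ)) one_le_two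
      (by have : (0:ℝ) ≤ (2 * p : ℕ) := by positivity
          linarith)
    simp only [Real.rpow_natCast, Real.rpow_two] at this
    rw [this, show (((2 * p : ℕ) : ℝ) + 2) / 2 = p + 1 by push_cast; ring,
      Real.Gamma_nat_eq_factorial]
    ring
  rw [gauss, integral_withDensity_eq_integral_toReal_smul dens_meas (by simp)]
  have := integral_fintype_prod_volume_eq_prod (E := fun _ : Fin 2 => ℂ)
    fun i x => ‖x‖ ^ (2 * ![α.1, α.2] i) * Real.exp (-‖x‖ ^ 2)
  simp only [Fin.prod_univ_two, Matrix.cons_val_zero, Matrix.cons_val_one, one] at this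
  rw [show NN α = π * α.1.factorial * (π * α.2.factorial) by unfold NN; ring, ← this]
  congr 1; funext z
  rw [ENNReal.toReal_ofReal (Real.exp_pos _).le, Fin.sum_univ_two, neg_add, Real.exp_add,
    smul_eq_mul]
  ring

/-- holomorphic monomials -/
def mon (α : ℕ × ℕ) (z : Fin 2 → ℂ) : ℂ := z 0 ^ α.1 * z 1 ^ α.2

/-- radial monomials -/
def rad (β : ℕ × ℕ) (z : Fin 2 → ℂ) : ℂ := mon β z * conj (mon β z)

lemma mon_diff (α : ℕ × ℕ) : Differentiable ℂ (mon α) := by unfold mon; fun_prop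

lemma rad_cont (β : ℕ × ℕ) : Continuous (rad β) :=
  (mon_diff β).continuous.mul (Complex.continuous_conj.comp (mon_diff β).continuous)

lemma memLp (β α : ℕ × ℕ) : MemLp (fun z => rad β z * mon α z) 2 (gauss 2) := by
  refine (memLp_two_iff_integrable_sq_norm
    ((rad_cont β).mul (mon_diff α).continuous).aestronglyMeasurable).2 ?_
  have := Integrable.of_integral_ne_zero ((int_mon (β + β + α)).trans_ne (NN_pos _).ne')
  convert this using 2 with z
  simp only [Pi.mul_apply, rad, mon, norm_mul, norm_pow, Complex.norm_conj, Prod.fst_add,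
    Prod.snd_add]
  ring

lemma int_rad (β α : ℕ × ℕ) :
    ∫ z, conj (mon α z) * rad β z * mon α z ∂gauss 2 = NN (α + β) := by
  rw [← int_mon, ← integral_complex_ofReal]
  congr 1; funext z
  have h0 := Complex.mul_conj' (z 0)
  have h1 := Complex.mul_conj' (z 1)
  simp only [rad, mon, map_mul, map_pow, Prod.fst_add, Prod.snd_add, coe_algebraMap]
  push_cast
  rw [pow_mul, pow_mul, ← h0, ← h1]
  ring

/-- Taylor coefficients through the torus -/
noncomputable def cc (α : ℕ × ℕ) (F : (Fin 2 → ℂ) → ℂ) : ℂ :=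
  AA α.2 fun w => AA α.1 fun v => F ![v, w]

lemma inner_diff (j : ℕ) {F : (Fin 2 → ℂ) → ℂ} (hF : Differentiable ℂ F) :
    Differentiable ℂ fun w => AA j fun v => F ![v, w] := by
  have c := hF.continuous
  have c1 := continuous_circleMap 0 1
  refine param (F := fun θ w => conj (circleMap 0 1 θ) ^ j * F ![circleMap 0 1 θ, w]) ?_ fun θ => ?_
  · refine ((Complex.continuous_conj.comp (c1.comp continuous_fst)).pow j).mul (c.comp ?_)
    fun_prop
  · refine (differentiable_const _).mul (hF.comp (differentiable_pi.2 fun i => ?_))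
    fin_cases i <;> simp

lemma left_diff {F : (Fin 2 → ℂ) → ℂ} (hF : Differentiable ℂ F) (w : ℂ) :
    Differentiable ℂ fun v => F ![v, w] := by
  refine hF.comp (differentiable_pi.2 fun i => ?_)
  fin_cases i <;> simp

lemma total {F : (Fin 2 → ℂ) → ℂ} (hF : Differentiable ℂ F) (h : ∀ α, cc α F = 0) : F = 0 := by
  funext z
  have := AA_zero (left_diff hF (z 1))
    (fun j => AA_zero (inner_diff j hF) (fun k => h (j, k)) (z 1)) (z 0)
  rwa [show ![z 0, z 1] = z by funext i; fin_cases i <;> rfl] at this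

lemma rad_rot (β : ℕ × ℕ) (c : Fin 2 → ℂ) (hc : ∀ i, conj (c i) * c i = 1) (z : Fin 2 → ℂ) :
    rad β (fun i => c i * z i) = rad β z := by
  have h0 : (conj (c 0) * c 0) ^ β.1 = 1 := by rw [hc, one_pow]
  have h1 : (conj (c 1) * c 1) ^ β.2 = 1 := by rw [hc, one_pow]
  have : rad β (fun i => c i * z i)
      = (conj (c 0) * c 0) ^ β.1 * (conj (c 1) * c 1) ^ β.2 * rad β z := by
    simp only [rad, mon, map_mul, map_pow, mul_pow]; ring
  rw [this, h0, h1]; ring

lemma key (β α : ℕ × ℕ) {F : (Fin 2 → ℂ) → ℂ} (hF : Differentiable ℂ F)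
    (hi : Integrable (fun z => conj (mon α z) * rad β z * F z) (gauss 2)) :
    2 * π * (2 * π * ∫ z, conj (mon α z) * rad β z * F z ∂gauss 2) = cc α F * NN (α + β) := by
  have c1 := continuous_circleMap 0 1
  have cm : Continuous fun z => conj (mon α z) * rad β z :=
    (Complex.continuous_conj.comp (mon_diff α).continuous).mul (rad_cont β)
  obtain ⟨i1, e1⟩ := avg (cm.mul hF.continuous) hi
    (r := fun θ z i => ![circleMap 0 1 θ, 1] i * z i)
    (continuous_pi fun i => by fin_cases i <;> simp <;> fun_prop)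
    fun θ => rot_mp _ fun i => by fin_cases i <;> simp
  have s1 : ∀ z : Fin 2 → ℂ, (∫ θ in (0:ℝ)..2 * π, ((fun z => conj (mon α z) * rad β z) * F)
      fun i => ![circleMap 0 1 θ, 1] i * z i)
      = conj (mon α z) * rad β z * (z 0 ^ α.1 * AA α.1 fun v => F ![v, z 1]) := by
    intro z
    rw [← AA_scale _ (left_diff hF (z 1)), AA, ← intervalIntegral.integral_const_mul]
    refine intervalIntegral.integral_congr fun θ _ => ?_
    simp only [Pi.mul_apply]
    rw [rad_rot _ _ fun i => by fin_cases i <;> simp [cm_conj],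
      show (fun i => ![circleMap 0 1 θ, 1] i * z i) = ![z 0 * circleMap 0 1 θ, z 1] by
        funext i; fin_cases i <;> simp [mul_comm]]
    simp only [mon, Matrix.cons_val_zero, Matrix.cons_val_one, map_mul, map_pow, mul_pow]
    ring
  simp only [s1] at i1 e1
  have hd := inner_diff α.1 hF
  obtain ⟨-, e2⟩ := avg (cm.mul (((continuous_apply 0).pow α.1).mul
    (hd.continuous.comp (continuous_apply 1)))) i1
    (r := fun θ z i => ![1, circleMap 0 1 θ] i * z i)
    (continuous_pi fun i => by fin_cases i <;> simp <;> fun_prop)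
    fun θ => rot_mp _ fun i => by fin_cases i <;> simp
  have e3 : ∫ z, conj (mon α z) * rad β z * F z ∂gauss 2
      = ∫ z, ((fun z => conj (mon α z) * rad β z) * F) z ∂gauss 2 := rfl
  rw [e3, ← e1]
  refine Eq.trans e2.symm ?_
  rw [← int_rad, ← integral_const_mul]
  congr 1; funext z
  have := AA_scale α.2 hd (z 1)
  rw [show cc α F * (conj (mon α z) * rad β z * mon α z) = conj (mon α z) * rad β z * z 0 ^ α.1 *
    (z 1 ^ α.2 * cc α F) by simp only [mon]; ring, cc, ← this, AA,
    ← intervalIntegral.integral_const_mul]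
  refine intervalIntegral.integral_congr fun θ _ => ?_
  simp only [Pi.mul_apply, Function.comp_apply, Pi.pow_apply]
  rw [rad_rot _ _ fun i => by fin_cases i <;> simp [cm_conj]]
  simp only [mon, Matrix.cons_val_zero, Matrix.cons_val_one, map_mul, map_pow, mul_pow, one_mul,
    mul_comm (z 1)]
  ring

lemma cc_mon {α γ : ℕ × ℕ} (h : α ≠ γ) : cc α (mon γ) = 0 := by
  by_cases h1 : α.1 = γ.1
  · have h2 : α.2 ≠ γ.2 := fun h2 => h (Prod.ext h1 h2)
    rw [← AA_pow _ _ (AA α.1 fun v => v ^ γ.1) h2, cc]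
    congr 1; funext w
    simp only [AA, mon, Matrix.cons_val_zero, Matrix.cons_val_one]
    rw [← intervalIntegral.integral_const_mul]
    exact intervalIntegral.integral_congr fun θ _ => by ring
  · simp only [cc, mon, Matrix.cons_val_zero, Matrix.cons_val_one, AA_pow _ _ _ h1]
    simp [AA]

lemma sumv (x : ℝ) (hx : 0 ≤ x) : Summable fun j : ℕ => x ^ j * (√(j.factorial : ℝ))⁻¹ := by
  refine Summable.of_nonneg_of_le (fun j => by positivity) (fun j => ?_)
    ((Real.summable_pow_div_factorial (2 * x ^ 2)).add summable_geometric_two)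
  have hf : (0:ℝ) < j.factorial := by exact_mod_cast j.factorial_pos
  have h1 : (√(j.factorial : ℝ))⁻¹ ^ 2 = (j.factorial : ℝ)⁻¹ := by
    rw [inv_pow, Real.sq_sqrt hf.le]
  have h2 : (2:ℝ) ^ j * (1 / 2) ^ j = 1 := by rw [← mul_pow]; simp
  have h3 : (2 * x ^ 2) ^ j / j.factorial = 2 ^ j * (x ^ j * (√(j.factorial : ℝ))⁻¹) ^ 2 := by
    rw [mul_pow, mul_pow, h1, ← pow_mul, ← pow_mul, mul_comm 2 j]; ring
  rw [h3]
  have h4 : (0:ℝ) < 2 ^ j := by positivity
  have h5 : (0:ℝ) ≤ x ^ j * (√(j.factorial : ℝ))⁻¹ := by positivity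
  generalize x ^ j * (√(j.factorial : ℝ))⁻¹ = y at *
  generalize (2:ℝ) ^ j = s at *
  generalize (1 / 2 : ℝ) ^ j = t at *
  apply le_of_mul_le_mul_left _ h4
  nlinarith [sq_nonneg (s * y - 1)]

lemma series (a : ℕ × ℕ → ℂ) {M : ℝ} (hM : ∀ α, ‖a α‖ ≤ M * (√(NN α))⁻¹) :
    (∀ z, Summable fun α => a α * mon α z) ∧ Differentiable ℂ fun z => ∑' α, a α * mon α z := by
  have M0 : 0 ≤ M := by
    have := (norm_nonneg _).trans (hM 0)
    exact nonneg_of_mul_nonneg_left this (inv_pos.2 (Real.sqrt_pos.2 (NN_pos 0)))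
  have hu : ∀ R : ℝ, 1 ≤ R → Summable fun α : ℕ × ℕ => ‖a α‖ * (2 * R) ^ (α.1 + α.2) := by
    intro R hR
    have h := ((sumv (2 * R) (by linarith)).mul_of_nonneg (sumv (2 * R) (by linarith))
      (fun j => by positivity) (fun j => by positivity)).mul_left M
    refine Summable.of_nonneg_of_le (fun α => by positivity) (fun α => ?_) h
    have h1 : (√(NN α))⁻¹ ≤ (√(α.1.factorial : ℝ))⁻¹ * (√(α.2.factorial : ℝ))⁻¹ := by
      rw [← mul_inv, ← Real.sqrt_mul (by positivity)]
      refine inv_anti₀ (by positivity) (Real.sqrt_le_sqrt ?_)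
      have : (1:ℝ) ≤ π ^ 2 := by nlinarith [Real.pi_gt_three]
      rw [NN, mul_assoc]
      exact le_mul_of_one_le_left (by positivity) this
    refine (mul_le_mul_of_nonneg_right ((hM α).trans (mul_le_mul_of_nonneg_left h1 M0))
      (by positivity)).trans (le_of_eq ?_)
    ring
  have hs : ∀ z, Summable fun α => a α * mon α z := by
    intro z
    have hR : 1 ≤ ‖z‖ + 1 := by linarith [norm_nonneg z]
    refine Summable.of_norm_bounded (hu _ hR) fun α => ?_
    have h0 : ∀ i, ‖z i‖ ≤ 2 * (‖z‖ + 1) := fun i => by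
      linarith [norm_le_pi_norm z i, norm_nonneg z]
    simp only [mon, norm_mul, norm_pow, pow_add]
    gcongr <;> exact h0 _
  refine ⟨hs, fun z => ?_⟩
  have hR : 1 ≤ ‖z‖ + 1 := by linarith [norm_nonneg z]
  generalize hRR : ‖z‖ + 1 = R at hR
  let P : Fin 2 → (Fin 2 → ℂ) →L[ℂ] ℂ := fun i => ContinuousLinearMap.proj i
  have hP : ∀ i, ‖P i‖ ≤ 1 := fun i => ContinuousLinearMap.opNorm_le_bound _ zero_le_one
    fun x => by simpa [P] using norm_le_pi_norm x i
  refine (hasFDerivAt_tsum_of_isPreconnected (hu R hR) isOpen_ball (convex_ball 0 R).isPreconnected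
    (f' := fun α x => a α • (x 0 ^ α.1 • ((α.2 • x 1 ^ (α.2 - 1)) • P 1) +
      x 1 ^ α.2 • ((α.1 • x 0 ^ (α.1 - 1)) • P 0)))
    (fun α x _ => (((P 0).hasFDerivAt.pow α.1).mul ((P 1).hasFDerivAt.pow α.2)).const_mul (a α))
    (fun α x hx => ?_) (x₀ := z) (by simp [← hRR]) (hs z) (by simp [← hRR])).differentiableAt
  have h0 : ∀ i, ‖x i‖ ≤ R := fun i => (norm_le_pi_norm x i).trans (mem_ball_zero_iff.1 hx).le
  have h1 : ∀ (i : Fin 2) (n : ℕ), ‖x i‖ ^ (n - 1) ≤ R ^ n := fun i n =>
    (pow_le_pow_left₀ (norm_nonneg _) (h0 i) _).trans (pow_le_pow_right₀ hR (by omega))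
  rw [norm_smul]
  refine mul_le_mul_of_nonneg_left ((norm_add_le _ _).trans ?_) (norm_nonneg _)
  simp only [norm_smul, norm_pow, nsmul_eq_mul, norm_mul, Complex.norm_natCast]
  have h2 : ((α.1:ℝ) + α.2) ≤ 2 ^ (α.1 + α.2) := by
    exact_mod_cast (Nat.lt_two_pow_self (n := α.1 + α.2)).le
  calc _ ≤ R ^ α.1 * (α.2 * R ^ α.2 * 1) + R ^ α.2 * (α.1 * R ^ α.1 * 1) := by
        gcongr
        exacts [h0 0, h1 1 _, hP 1, h0 1, h1 0 _, hP 0]
    _ = (α.1 + α.2) * R ^ (α.1 + α.2) := by ring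
    _ ≤ _ := by rw [mul_pow]; gcongr

end Pool.Agent.H29.Fock
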