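import Mathlib
import Pool.Agent.H29.Fock2

open Set Metric Complex MeasureTheory Filter Topology
open scoped Real ComplexConjugate InnerProductSpace

namespace Pool.Agent.H29.Fock

/-- classes of radial times holomorphic monomials -/
noncomputable def hh (β α : ℕ × ℕ) : Lp ℂ 2 (gauss 2) := (memLp β α).toLp _

lemma hh_ae (β α : ℕ × ℕ) : hh β α =ᵐ[gauss 2] fun z => rad β z * mon α z := MemLp.coeFn_toLp _

lemma rad_conj (β : ℕ × ℕ) (z : Fin 2 → ℂ) : conj (rad β z) = rad β z := by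
  simp [rad, mul_comm]

lemma rad_zero (z : Fin 2 → ℂ) : rad 0 z = 1 := by simp [rad, mon]

lemma inner_ae (β α : ℕ × ℕ) {f : Lp ℂ 2 (gauss 2)} {F : (Fin 2 → ℂ) → ℂ} (h : f =ᵐ[gauss 2] F) :
    (fun z => ⟪hh β α z, f z⟫_ℂ) =ᵐ[gauss 2] fun z => conj (mon α z) * rad β z * F z := by
  filter_upwards [hh_ae β α, h] with z h1 h2
  rw [h1, h2, RCLike.inner_apply, map_mul, rad_conj]; ring

lemma inner_hh (β α : ℕ × ℕ) {f : Lp ℂ 2 (gauss 2)} {F : (Fin 2 → ℂ) → ℂ}
    (hF : Differentiable ℂ F) (h : f =ᵐ[gauss 2] F) :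
    2 * π * (2 * π * ⟪hh β α, f⟫_ℂ) = cc α F * NN (α + β) := by
  rw [L2.inner_def, integral_congr_ae (inner_ae β α h)]
  exact key β α hF ((L2.integrable_inner _ _).congr (inner_ae β α h))

lemma hh0 (α : ℕ × ℕ) : hh 0 α =ᵐ[gauss 2] mon α := by
  simpa [rad_zero] using hh_ae 0 α

lemma tp : (2 * π : ℂ) ≠ 0 := mul_ne_zero two_ne_zero (by exact_mod_cast Real.pi_ne_zero)

lemma NN_ne (α : ℕ × ℕ) : (NN α : ℂ) ≠ 0 := by exact_mod_cast (NN_pos α).ne'

lemma inner_rel (β α : ℕ × ℕ) {f : Lp ℂ 2 (gauss 2)} (hf : f ∈ entire (gauss 2)) :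
    ⟪hh β α, f⟫_ℂ = NN (α + β) / NN α * ⟪hh 0 α, f⟫_ℂ := by
  obtain ⟨F, hF, h⟩ := hf
  have h1 := inner_hh β α hF h
  have h2 := inner_hh 0 α hF h
  rw [add_zero] at h2
  have := NN_ne α
  apply mul_left_cancel₀ tp
  apply mul_left_cancel₀ tp
  rw [h1]
  field_simp
  linear_combination -(NN (α + β) : ℂ) * h2

/-- normalised monomials -/
noncomputable def ee (α : ℕ × ℕ) : Lp ℂ 2 (gauss 2) := (((√(NN α))⁻¹ : ℝ) : ℂ) • hh 0 α

lemma ee_mem (α : ℕ × ℕ) : ee α ∈ entire (gauss 2) :=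
  Submodule.smul_mem _ _ ⟨_, mon_diff α, hh0 α⟩

lemma ee_on : Orthonormal ℂ ee := by
  classical
  rw [orthonormal_iff_ite]
  intro α γ
  simp only [ee, inner_smul_left, inner_smul_right, Complex.conj_ofReal]
  split_ifs with h
  · subst h
    rw [L2.inner_def, integral_congr_ae (inner_ae 0 α (hh0 α)), int_rad, add_zero]
    have := Real.mul_self_sqrt (NN_pos α).le
    have h2 := (Real.sqrt_pos.2 (NN_pos α)).ne'
    norm_cast
    field_simp
    rw [Real.sq_sqrt (NN_pos α).le]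
  · have := inner_hh 0 α (mon_diff γ) (hh0 γ)
    rw [cc_mon h, zero_mul] at this
    rw [(mul_eq_zero.1 ((mul_eq_zero.1 this).resolve_left tp)).resolve_left tp]; simp

lemma zero_of_orth {f : Lp ℂ 2 (gauss 2)} (hf : f ∈ entire (gauss 2))
    (h : ∀ α, ⟪ee α, f⟫_ℂ = 0) : f = 0 := by
  obtain ⟨F, hF, hfF⟩ := hf
  have : F = 0 := total hF fun α => by
    have h1 := inner_hh 0 α hF hfF
    have h2 := h α
    rw [ee, inner_smul_left, Complex.conj_ofReal] at h2
    have h3 : (((√(NN α))⁻¹ : ℝ) : ℂ) ≠ 0 := by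
      exact_mod_cast (inv_pos.2 (Real.sqrt_pos.2 (NN_pos α))).ne'
    rw [(mul_eq_zero.1 h2).resolve_left h3, mul_zero, mul_zero] at h1
    exact (mul_eq_zero.1 h1.symm).resolve_right (NN_ne _)
  rw [this] at hfF
  exact Lp.eq_zero_iff_ae_eq_zero.2 hfF

lemma mem_of_hasSum {a : ℕ × ℕ → ℂ} {M : ℝ} (hM : ∀ α, ‖a α‖ ≤ M) {f : Lp ℂ 2 (gauss 2)}
    (h : HasSum (fun α => a α • ee α) f) : f ∈ entire (gauss 2) := by
  obtain ⟨h1, h2⟩ := series (fun α => a α * (((√(NN α))⁻¹ : ℝ) : ℂ)) (M := M) fun α => by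
    rw [norm_mul, Complex.norm_real, Real.norm_of_nonneg (by positivity)]
    exact mul_le_mul_of_nonneg_right (hM α) (by positivity)
  refine ⟨_, h2, ?_⟩
  obtain ⟨ns, hns, hae⟩ := (tendstoInMeasure_of_tendsto_Lp (l := atTop) h).exists_seq_tendsto_ae'
  have hs : ∀ s : Finset (ℕ × ℕ), (∑ α ∈ s, a α • ee α : Lp ℂ 2 (gauss 2)) =ᵐ[gauss 2]
      fun z => ∑ α ∈ s, a α * (((√(NN α))⁻¹ : ℝ) : ℂ) * mon α z := by
    intro s
    induction s using Finset.induction_on with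
    | empty => exact Lp.coeFn_zero ℂ 2 (gauss 2)
    | insert α s hα ih =>
      rw [Finset.sum_insert hα]
      filter_upwards [Lp.coeFn_add (a α • ee α) (∑ α ∈ s, a α • ee α), ih,
        Lp.coeFn_smul (a α) (ee α), Lp.coeFn_smul (((√(NN α))⁻¹ : ℝ) : ℂ) (hh 0 α), hh0 α]
        with z k1 k2 k3 k4 k5
      rw [k1, Pi.add_apply, k2, k3, Finset.sum_insert hα, Pi.smul_apply, ee, k4, Pi.smul_apply, k5]
      simp [mul_assoc]
  filter_upwards [hae, ae_all_iff.2 fun i => hs (ns i)] with z k1 k2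
  simp only [k2] at k1
  have k3 : Tendsto (fun s : Finset (ℕ × ℕ) => ∑ α ∈ s, a α * (((√(NN α))⁻¹ : ℝ) : ℂ) * mon α z)
    atTop _ := (h1 z).hasSum
  exact tendsto_nhds_unique k1 (k3.comp hns)

instance : CompleteSpace (entire (gauss 2)) := by
  classical
  let V := ee_on.orthogonalFamily.linearIsometry
  have hV : ∀ c, V c ∈ entire (gauss 2) := fun c =>
    mem_of_hasSum (a := c) (fun α => lp.norm_apply_le_norm two_ne_zero c α)
      (ee_on.orthogonalFamily.hasSum_linearIsometry c)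
  have hc : IsClosed (range V) := V.isometry.isClosedEmbedding.isClosed_range
  have : CompleteSpace (LinearMap.range V.toLinearMap) := hc.completeSpace_coe
  have e : (entire (gauss 2) : Set (Lp ℂ 2 (gauss 2))) = range V := by
    refine Subset.antisymm (fun f hf => ?_) (by rintro _ ⟨c, rfl⟩; exact hV c)
    obtain ⟨c, hc⟩ := (LinearMap.range V.toLinearMap).starProjection_apply_mem f
    refine ⟨c, (sub_eq_zero.1 (zero_of_orth (Submodule.sub_mem _ hf (hV c)) fun α => ?_)).symm⟩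
    have h1 := (LinearMap.range V.toLinearMap).sub_starProjection_mem_orthogonal f
    rw [← hc] at h1
    refine (Submodule.mem_orthogonal _ _).1 h1 _ ⟨lp.single 2 α 1, ?_⟩
    exact (ee_on.orthogonalFamily.linearIsometry_apply_single (i := α) 1).trans (by simp)
  exact (e ▸ hc).completeSpace_coe

lemma basis : ∃ b : HilbertBasis (ℕ × ℕ) ℂ (entire (gauss 2)), ∀ α, (b α : Lp ℂ 2 _) = ee α := by
  have h : Orthonormal ℂ fun α => (⟨ee α, ee_mem α⟩ : entire (gauss 2)) := ee_on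
  refine ⟨HilbertBasis.mkOfOrthogonalEqBot h ?_, fun α => by
    rw [HilbertBasis.coe_mkOfOrthogonalEqBot]⟩
  refine (Submodule.eq_bot_iff _).2 fun f hf => Subtype.ext (zero_of_orth f.2 fun α => ?_)
  exact (Submodule.mem_orthogonal _ _).1 hf _ (Submodule.subset_span ⟨α, rfl⟩)

lemma graph_sum {E ι : Type*} [MeasurableSpace E] {μ : Measure E} (K : Submodule ℂ (Lp ℂ 2 μ))
    (φ : E → ℂ) (u : ι → K) (lam : ι → ℂ) (h : ∀ α, (u α, lam α • u α) ∈ toepGraph K φ)
    (s : Finset ι) (a : ι → ℂ) :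
    (∑ α ∈ s, a α • u α, ∑ α ∈ s, (lam α * a α) • u α) ∈ toepGraph K φ := by
  classical
  induction s using Finset.induction_on with
  | empty =>
    refine ⟨0, ?_, by simp⟩
    filter_upwards [Lp.coeFn_zero ℂ 2 μ] with z hz
    show (0 : Lp ℂ 2 μ) z = φ z * (0 : Lp ℂ 2 μ) z
    rw [hz]; simp
  | insert α s hα ih =>
    obtain ⟨h1, k1, l1⟩ := h α
    obtain ⟨h2, k2, l2⟩ := ih
    rw [Finset.sum_insert hα, Finset.sum_insert hα]
    refine ⟨a α • h1 + h2, ?_, fun k hk => ?_⟩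
    · filter_upwards [Lp.coeFn_add (a α • h1) h2, Lp.coeFn_smul (a α) h1, k1, k2,
        Lp.coeFn_add (a α • (u α : Lp ℂ 2 μ)) (∑ α ∈ s, a α • u α : K),
        Lp.coeFn_smul (a α) (u α : Lp ℂ 2 μ)] with z m1 m2 m3 m4 m5 m6
      rw [m1, Pi.add_apply, m2, Pi.smul_apply, m3, m4, Submodule.coe_add, Submodule.coe_smul, m5,
        Pi.add_apply, m6, Pi.smul_apply]
      simp only [smul_eq_mul]; ring
    · have := l1 k hk
      have := l2 k hk
      simp only [Submodule.coe_add, Submodule.coe_smul, inner_sub_right, inner_add_right,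
        inner_smul_right] at *
      grind

lemma toep (b : HilbertBasis (ℕ × ℕ) ℂ (entire (gauss 2))) (hb : ∀ α, (b α : Lp ℂ 2 _) = ee α)
    (β γ : ℕ × ℕ) (s : ℝ) (lam : ℕ × ℕ → ℝ) (hl : ∀ α, lam α = (NN (α + β) + s * NN (α + γ)) / NN α) :
    (∀ x ∈ toepGraph (entire (gauss 2)) fun z => rad β z + s * rad γ z,
      ∀ α, ⟪b α, x.2⟫_ℂ = lam α * ⟪b α, x.1⟫_ℂ) ∧
    ∀ α, (b α, (lam α : ℂ) • b α) ∈ toepGraph (entire (gauss 2)) fun z => rad β z + s * rad γ z := by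
  let H : ℕ × ℕ → Lp ℂ 2 (gauss 2) := fun α =>
    (((√(NN α))⁻¹ : ℝ) : ℂ) • (hh β α + (s:ℂ) • hh γ α)
  have H1 : ∀ α, H α =ᵐ[gauss 2] fun z => (rad β z + s * rad γ z) * ee α z := by
    intro α
    filter_upwards [Lp.coeFn_smul (((√(NN α))⁻¹ : ℝ) : ℂ) (hh β α + (s:ℂ) • hh γ α),
      Lp.coeFn_add (hh β α) ((s:ℂ) • hh γ α), Lp.coeFn_smul (s:ℂ) (hh γ α), hh_ae β α, hh_ae γ α,
      Lp.coeFn_smul (((√(NN α))⁻¹ : ℝ) : ℂ) (hh 0 α), hh0 α] with z m1 m2 m3 m4 m5 m6 m7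
    rw [m1, Pi.smul_apply, m2, Pi.add_apply, m3, Pi.smul_apply, m4, m5, ee, m6, Pi.smul_apply, m7]
    simp only [smul_eq_mul]; ring
  have H2 : ∀ α, ∀ k ∈ entire (gauss 2), ⟪H α, k⟫_ℂ = lam α * ⟪ee α, k⟫_ℂ := by
    intro α k hk
    simp only [H, ee, inner_smul_left, inner_add_left, Complex.conj_ofReal, hl]
    rw [inner_rel β α hk, inner_rel γ α hk]
    push_cast; ring
  constructor
  · rintro x ⟨h, k1, k2⟩ α
    have h1 := k2 _ (ee_mem α)
    rw [inner_sub_right, sub_eq_zero] at h1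
    rw [Submodule.coe_inner, Submodule.coe_inner, hb, ← h1, ← H2 α _ x.1.2, L2.inner_def,
      L2.inner_def]
    refine integral_congr_ae ?_
    filter_upwards [k1, H1 α] with z m1 m2
    rw [m1, m2]
    simp only [RCLike.inner_apply, map_mul, map_add, rad_conj, Complex.conj_ofReal]
    ring
  · intro α
    refine ⟨H α, by simpa only [hb] using H1 α, fun k hk => ?_⟩
    rw [← inner_conj_symm, Submodule.coe_smul, hb, inner_sub_left, H2 α k hk, inner_smul_left]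
    simp

lemma s1 : Summable fun j : ℕ => (((j:ℝ) + 1) * (j + 2))⁻¹ := by
  refine Summable.of_nonneg_of_le (fun j => by positivity) (fun j => ?_)
    ((summable_nat_add_iff 1).2 (Real.summable_nat_pow_inv.2 one_lt_two))
  push_cast
  exact inv_anti₀ (by positivity) (by nlinarith)

/-- eigenvalues -/
def lamb (α : ℕ × ℕ) : ℝ := ((α.1 + 1) * (α.1 + 2)) * ((α.2 + 1) * (α.2 + 2))

lemma s2 : Summable fun α : ℕ × ℕ => ‖((lamb α : ℝ) : ℂ)⁻¹‖ := by
  have h : Summable fun α : ℕ × ℕ => (((α.1:ℝ) + 1) * (α.1 + 2))⁻¹ * (((α.2:ℝ) + 1) * (α.2 + 2))⁻¹ :=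
    s1.mul_of_nonneg s1 (fun j => by positivity) (fun j => by positivity)
  refine h.congr fun α => ?_
  rw [norm_inv, Complex.norm_real, lamb, Real.norm_of_nonneg (by positivity), ← mul_inv]

lemma partA : CompactRes (closure (toepGraph (entire (gauss 2))
    fun z => rad (2, 2) z + (0:ℝ) * rad (0, 2) z)) := by
  obtain ⟨b, hb⟩ := basis
  have hπ : Real.pi ^ 2 ≠ 0 := by have := Real.pi_pos; positivity
  obtain ⟨h1, h2⟩ := toep b hb (2, 2) (0, 2) 0 lamb fun α => by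
    simp only [lamb, NN, Prod.fst_add, Prod.snd_add, Nat.factorial_succ]
    push_cast
    field_simp
    ring
  refine diagA b _ (fun α => (lamb α : ℂ)) h1 (graph_sum _ _ _ _ h2) (fun α => ?_) s2
  have : lamb α ≠ 0 := by unfold lamb; positivity
  exact_mod_cast this

lemma partB : ¬ CompactRes (closure (toepGraph (entire (gauss 2))
    fun z => rad (2, 2) z + (-2:ℝ) * rad (0, 2) z)) := by
  obtain ⟨b, hb⟩ := basis
  obtain ⟨-, h2⟩ := toep b hb (2, 2) (0, 2) (-2)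
    (fun α => (NN (α + (2, 2)) + -2 * NN (α + (0, 2))) / NN α) fun α => rfl
  refine diagB (b.orthonormal.comp (fun k : ℕ => ((0:ℕ), k)) (Prod.mk_right_injective 0)) _
    fun k => ?_
  have := h2 (0, k)
  have z : NN ((0, k) + (2, 2)) + -2 * NN ((0, k) + (0, 2)) = 0 := by
    simp only [NN, Prod.fst_add, Prod.snd_add]
    norm_num [Nat.factorial]
    ring
  simp only [z, zero_div, Complex.ofReal_zero, zero_smul] at this
  exact this

end Pool.Agent.H29.Fock
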