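import Mathlib

namespace Pool.Agent.H29.Funtf

open Finset Module

variable {𝕜 : Type} [RCLike 𝕜]

lemma re_sum_le {ι : Type} [Fintype ι] (α : ι → 𝕜)
    (h : ∀ t : ℝ, 0 < t → t ≤ 1 → ‖∏ a, (1 + (t : 𝕜) * α a)‖ ≤ 1) : RCLike.re (∑ a, α a) ≤ 0 := by
  classical
  have h1 : ∀ a, HasDerivAt (fun t : ℝ => 1 + (t : 𝕜) * α a) (α a) 0 := by
    intro a
    have := ((RCLike.ofRealCLM (K := 𝕜)).hasDerivAt (x := (0 : ℝ))).mul_const (α a)
    simpa using this.const_add 1
  have h2 := HasDerivAt.fun_finsetProd (u := univ) (fun a _ => h1 a)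
  simp only [RCLike.ofReal_zero, zero_mul, add_zero, prod_const_one, one_smul] at h2
  have h3 := (RCLike.reCLM (K := 𝕜)).hasFDerivAt.comp_hasDerivAt (0 : ℝ) h2
  have h4 := h3.tendsto_slope_zero_right
  refine le_of_tendsto h4 ?_
  filter_upwards [Ioc_mem_nhdsGT (show (0:ℝ) < 1 by norm_num)] with t ht
  have h5 := (RCLike.re_le_norm _).trans (h t ht.1 ht.2)
  simp only [zero_add, Function.comp, RCLike.reCLM_apply, RCLike.ofReal_zero, zero_mul, add_zero,
    prod_const_one, RCLike.one_re, smul_eq_mul]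
  exact mul_nonpos_of_nonneg_of_nonpos (inv_nonneg.2 ht.1.le) (by linarith)

variable {X : Type} [NormedAddCommGroup X] [NormedSpace 𝕜 X]

lemma det_cont {n : ℕ} [FiniteDimensional 𝕜 X] (b : Basis (Fin n) 𝕜 X) :
    Continuous (fun v : Fin n → X => b.det v) := by
  simp only [Basis.det_apply]
  apply Continuous.matrix_det
  apply continuous_matrix
  intro i j
  simp only [Basis.toMatrix_apply]
  exact (b.coord i).continuous_of_finiteDimensional.comp (continuous_apply j)

lemma exists_start {n N : ℕ} (b : Basis (Fin n) 𝕜 X) :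
    ∃ x : Fin N → X, (∀ i, ‖x i‖ ≤ 1) ∧
      ∀ s : Fin n → Fin N, Function.Injective s → b.det (x ∘ s) ≠ 0 := by
  let v : Fin N → X := fun j => ∑ m : Fin n, (((j : ℕ) : 𝕜) ^ (m : ℕ)) • b m
  let c : Fin N → 𝕜 := fun j => (((‖v j‖ + 1)⁻¹ : ℝ) : 𝕜)
  refine ⟨fun j => c j • v j, fun j => ?_, fun s hs => ?_⟩
  · have := norm_nonneg (v j)
    rw [norm_smul, RCLike.norm_ofReal, abs_of_pos (by positivity), inv_mul_le_iff₀ (by positivity)]
    linarith
  · have h1 : b.det ((fun j => c j • v j) ∘ s) = (∏ k, c (s k)) • b.det (v ∘ s) :=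
      b.det.toMultilinearMap.map_smul_univ (fun k => c (s k)) (v ∘ s)
    rw [h1, smul_eq_mul]
    apply mul_ne_zero
    · rw [prod_ne_zero_iff]
      intro k _
      have := norm_nonneg (v (s k))
      exact RCLike.ofReal_ne_zero.2 (by positivity)
    · have h2 : b.toMatrix (v ∘ s) = (Matrix.vandermonde fun k => ((s k : ℕ) : 𝕜)).transpose := by
        ext i j
        simp [Basis.toMatrix_apply, v, Finsupp.single_apply, Matrix.vandermonde_apply]
      rw [Basis.det_apply, h2, Matrix.det_transpose, Matrix.det_vandermonde_ne_zero_iff]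
      intro i j hij
      apply hs
      exact Fin.ext (Nat.cast_injective (R := 𝕜) hij)

theorem exists_funtf [FiniteDimensional 𝕜 X] {n N : ℕ} (hn : finrank 𝕜 X = n) (h1 : 1 ≤ n)
    (hN : n ≤ N) : ∃ (x : Fin N → X) (f : Fin N → (X →L[𝕜] 𝕜)),
      (∀ i, ‖x i‖ = 1 ∧ ‖f i‖ = 1 ∧ f i (x i) = 1) ∧
      ∀ y, ∑ i, f i y • x i = ((N : 𝕜) / n) • y := by
  classical
  haveI : NeZero N := ⟨by omega⟩
  haveI : ProperSpace X := FiniteDimensional.proper_rclike 𝕜 X
  let b : Basis (Fin n) 𝕜 X := finBasisOfFinrankEq 𝕜 X hn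
  let s : Fin N → Fin n → Fin N := fun a k => a + Fin.castLE hN k
  have hs : ∀ a, Function.Injective (s a) := fun a k l h =>
    Fin.castLE_injective hN (add_left_cancel h)
  let F : (Fin N → X) → ℝ := fun x => ‖∏ a, b.det (x ∘ s a)‖
  have hF : Continuous F := by
    apply Continuous.norm
    apply continuous_finset_prod
    intro a _
    exact (det_cont b).comp (continuous_pi fun k => continuous_apply _)
  have hK : IsCompact (Set.pi Set.univ (fun _ : Fin N => Metric.closedBall (0 : X) 1)) :=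
    isCompact_univ_pi fun _ => isCompact_closedBall _ _
  obtain ⟨x0, hx0, hx0'⟩ := exists_start (N := N) b
  have mem : ∀ x : Fin N → X, x ∈ Set.pi Set.univ (fun _ : Fin N => Metric.closedBall (0 : X) 1)
      ↔ ∀ i, ‖x i‖ ≤ 1 := fun x => by simp
  obtain ⟨x, hx, hmax⟩ := hK.exists_isMaxOn ⟨x0, (mem x0).2 hx0⟩ hF.continuousOn
  rw [mem] at hx
  have hpos : 0 < F x := lt_of_lt_of_le
    (norm_pos_iff.2 (prod_ne_zero_iff.2 fun a _ => hx0' _ (hs a))) (hmax ((mem x0).2 hx0))
  have hdet : ∀ a, b.det (x ∘ s a) ≠ 0 := fun a =>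
    prod_ne_zero_iff.1 (norm_pos_iff.1 hpos) a (mem_univ a)
  have hb : ∀ a, LinearIndependent 𝕜 (x ∘ s a) ∧ Submodule.span 𝕜 (Set.range (x ∘ s a)) = ⊤ :=
    fun a => b.is_basis_iff_det.2 (IsUnit.mk0 _ (hdet a))
  let c : Fin N → Basis (Fin n) 𝕜 X := fun a => Basis.mk (hb a).1 (hb a).2.ge
  have hc : ∀ a k, c a k = x (s a k) := fun a k => by simp [c]
  have hupd : ∀ a k y, b.det (Function.update (x ∘ s a) k y) =
      b.det (x ∘ s a) * (c a).coord k y := by
    intro a k y
    have := LinearMap.congr_fun (b.det_smul_mk_coord_eq_det_update (hb a).1 (hb a).2.ge k) y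
    simpa [c] using this.symm
  let al : Fin N → Fin N → X →ₗ[𝕜] 𝕜 := fun i a => ∑ k, if s a k = i then (c a).coord k else 0
  have hal : ∀ i a (w : X) (t : 𝕜), b.det (Function.update x i (x i + t • w) ∘ s a) =
      b.det (x ∘ s a) * (1 + t * al i a w) := by
    intro i a w t
    by_cases h : ∃ k, s a k = i
    · obtain ⟨k, rfl⟩ := h
      rw [Function.update_comp_eq_of_injective x (hs a), hupd]
      congr 1
      have e : al (s a k) a = (c a).coord k := by
        simp only [al, (hs a).eq_iff]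
        simp
      rw [e, map_add, map_smul, ← hc]
      simp
    · push Not at h
      rw [Function.update_comp_eq_of_forall_ne x _ h]
      simp [al, h]
  let ph : Fin N → X →ₗ[𝕜] 𝕜 := fun i => ∑ a, al i a
  have ph1 : ∀ i, ph i (x i) = n := by
    intro i
    have e : ∀ a k, (if s a k = i then (c a).coord k else 0) (x i) =
        if a = i - Fin.castLE hN k then (1 : 𝕜) else 0 := by
      intro a k
      have e2 : s a k = i ↔ a = i - Fin.castLE hN k := eq_sub_iff_add_eq.symm
      by_cases h : s a k = i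
      · rw [if_pos h, if_pos (e2.1 h), ← h, ← hc]; simp
      · rw [if_neg h, if_neg (fun h' => h (e2.2 h'))]; simp
    simp only [ph, al, LinearMap.sum_apply, e]
    rw [sum_comm]
    simp
  have ph2 : ∀ i y, ‖y‖ ≤ 1 → RCLike.re (ph i y) ≤ n := by
    intro i y hy
    have := re_sum_le (fun a => al i a (y - x i)) (fun t ht ht1 => by
      have hm : ∀ j, ‖Function.update x i (x i + (t : 𝕜) • (y - x i)) j‖ ≤ 1 := by
        intro j
        by_cases h : j = i
        · subst h
          rw [Function.update_self]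
          have e : x j + (t : 𝕜) • (y - x j) = ((1 - t : ℝ) : 𝕜) • x j + (t : 𝕜) • y := by
            push_cast; module
          rw [e]
          refine (norm_add_le _ _).trans ?_
          rw [norm_smul, norm_smul, RCLike.norm_ofReal, RCLike.norm_ofReal,
            abs_of_nonneg (by linarith), abs_of_pos ht]
          nlinarith [hx j]
        · rw [Function.update_of_ne h]; exact hx j
      have h2 : F _ ≤ F x := hmax ((mem _).2 hm)
      simp only [F, hal, prod_mul_distrib, norm_mul] at h2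
      exact le_of_mul_le_mul_left (by rw [mul_one]; exact h2) hpos)
    have e : ∑ a, al i a (y - x i) = ph i y - n := by
      rw [← ph1 i, ← map_sub]; simp [ph]
    rw [e, map_sub] at this
    simpa using this
  have ph3 : ∀ i y, ‖ph i y‖ ≤ n * ‖y‖ := by
    intro i y
    by_cases hy : y = 0
    · simp [hy]
    have hy' : 0 < ‖y‖ := norm_pos_iff.2 hy
    obtain ⟨u, hu, hu'⟩ : ∃ u : 𝕜, ‖u‖ ≤ 1 ∧ u * ph i y = ‖ph i y‖ := by
      by_cases h0 : ph i y = 0
      · exact ⟨0, by simp, by simp [h0]⟩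
      · refine ⟨‖ph i y‖ / ph i y, by simp [h0], by field_simp⟩
    have := ph2 i ((u * ((‖y‖⁻¹ : ℝ) : 𝕜)) • y) (by
      rw [norm_smul, norm_mul, RCLike.norm_ofReal, abs_of_pos (by positivity), mul_assoc,
        inv_mul_cancel₀ hy'.ne', mul_one]
      exact hu)
    rw [map_smul, smul_eq_mul, mul_right_comm, hu', ← RCLike.ofReal_mul, RCLike.ofReal_re,
      ← div_eq_mul_inv, div_le_iff₀ hy'] at this
    exact this
  have hn0 : (n : 𝕜) ≠ 0 := Nat.cast_ne_zero.2 (by omega)
  have hn1 : (0 : ℝ) < n := by exact_mod_cast h1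
  let f : Fin N → X →L[𝕜] 𝕜 := fun i => LinearMap.toContinuousLinearMap ((n : 𝕜)⁻¹ • ph i)
  have hf : ∀ i y, f i y = (n : 𝕜)⁻¹ * ph i y := fun i y => rfl
  have f1 : ∀ i, f i (x i) = 1 := fun i => by rw [hf, ph1, inv_mul_cancel₀ hn0]
  have f2 : ∀ i, ‖f i‖ ≤ 1 := fun i => ContinuousLinearMap.opNorm_le_bound _ zero_le_one fun y => by
    rw [hf, norm_mul, norm_inv, RCLike.norm_natCast, inv_mul_le_iff₀ hn1, one_mul]
    exact ph3 i y
  refine ⟨x, f, fun i => ?_, fun y => ?_⟩
  · have h3 := (f i).le_opNorm (x i)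
    rw [f1, norm_one] at h3
    have := norm_nonneg (x i)
    have := norm_nonneg (f i)
    exact ⟨le_antisymm (hx i) (by nlinarith [f2 i, hx i]),
      le_antisymm (f2 i) (by nlinarith [f2 i, hx i]), f1 i⟩
  · have e : ∑ i, ph i y • x i = (N : 𝕜) • y := by
      simp only [ph, al, LinearMap.sum_apply, sum_smul]
      rw [sum_comm]
      have : ∀ a, ∑ i, ∑ k, (if s a k = i then (c a).coord k else 0) y • x i = y := by
        intro a
        rw [sum_comm]
        conv_rhs => rw [← (c a).sum_repr y]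
        apply sum_congr rfl
        intro k _
        rw [sum_eq_single (s a k)]
        · simp [hc]
        · intro i _ hi; simp [hi.symm]
        · simp
      simp only [this, sum_const, card_univ, Fintype.card_fin]
      exact (Nat.cast_smul_eq_nsmul 𝕜 N y).symm
    simp only [hf, mul_smul]
    rw [← smul_sum, e, smul_smul, div_eq_inv_mul]

end Pool.Agent.H29.Funtf
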