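import Mathlib

set_option autoImplicit false

namespace Pool.Agent.H29.Generic

open Set Filter Topology

/-- cell of a real number at scale `k` -/
noncomputable def cell (k : ℕ) (q : ℝ) : ℤ := ⌊(k : ℝ) * q⌋

theorem cell_meas (k : ℕ) : Measurable (cell k) := by
  unfold cell
  exact Int.measurable_floor.comp (by fun_prop)

theorem exists_cell_inj (s : Finset ℝ) : ∃ k : ℕ, InjOn (cell k) s := by
  have h : ∀ p : ℝ × ℝ, ∀ᶠ k : ℕ in atTop, p.1 ≠ p.2 → cell k p.1 ≠ cell k p.2 := by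
    intro p
    by_cases hp : p.1 = p.2
    · exact Eventually.of_forall fun k h => absurd hp h
    · have hpos : 0 < |p.1 - p.2| := abs_pos.mpr (sub_ne_zero.mpr hp)
      obtain ⟨N, hN⟩ := exists_nat_ge (1 / |p.1 - p.2|)
      filter_upwards [eventually_ge_atTop N] with k hk _ hc
      have h1 := Int.abs_sub_lt_one_of_floor_eq_floor hc
      rw [← mul_sub, abs_mul, abs_of_nonneg (Nat.cast_nonneg k)] at h1
      have h2 : (N : ℝ) ≤ k := by exact_mod_cast hk
      rw [div_le_iff₀ hpos] at hN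
      nlinarith
  have h2 : ∀ᶠ k : ℕ in atTop, ∀ p ∈ s ×ˢ s, p.1 ≠ p.2 → cell k p.1 ≠ cell k p.2 :=
    (Filter.eventually_all_finset _).mpr fun p _ => h p
  obtain ⟨k, hk⟩ := h2.exists
  refine ⟨k, fun a ha b hb hab => ?_⟩
  by_contra hne
  exact hk (a, b) (Finset.mem_product.mpr ⟨ha, hb⟩) hne hab

abbrev Task := ℕ × (ℤ →₀ ℚ) × (ℤ →₀ ℚ) × ℤ

def Good (t : Task) (h : ℝ → ℝ) : Prop :=
  ∀ s : Finset ℝ, InjOn (cell t.1) s → (∀ q ∈ s, t.2.1 (cell t.1 q) ≠ 0) →
    (∃ q ∈ s, cell t.1 q = t.2.2.2) →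
    ∑ q ∈ s, ((t.2.1 (cell t.1 q) : ℝ) * h q + (t.2.2.1 (cell t.1 q) : ℝ) * q) ≠ 0

theorem step (t : Task) (g : ℝ → ℝ) (hg : Measurable g) (r : ℝ) (hr : 0 < r) :
    ∃ (g' : ℝ → ℝ) (r' : ℝ), Measurable g' ∧ 0 < r' ∧ r' ≤ r / 2 ∧ (∀ q, |g' q - g q| ≤ r / 2) ∧
      ∀ h : ℝ → ℝ, (∀ q, |h q - g' q| ≤ r') → Good t h := by
  classical
  obtain ⟨k, L, M, j0⟩ := t
  obtain ⟨B, hB1, hB⟩ : ∃ B : ℝ, 1 ≤ B ∧ ∀ j, |(L j : ℝ)| ≤ B ∧ |(L j : ℝ)⁻¹| ≤ B := by
    refine ⟨1 + ∑ j ∈ L.support, (|(L j : ℝ)| + |(L j : ℝ)⁻¹|), ?_, fun j => ?_⟩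
    · have : 0 ≤ ∑ j ∈ L.support, (|(L j : ℝ)| + |(L j : ℝ)⁻¹|) :=
        Finset.sum_nonneg fun j _ => by positivity
      linarith
    · have h0 : 0 ≤ ∑ j ∈ L.support, (|(L j : ℝ)| + |(L j : ℝ)⁻¹|) :=
        Finset.sum_nonneg fun j _ => by positivity
      by_cases hj : j ∈ L.support
      · have := Finset.single_le_sum (f := fun j => |(L j : ℝ)| + |(L j : ℝ)⁻¹|)
          (fun j _ => by positivity) hj
        have h1 := abs_nonneg (L j : ℝ)
        have h2 := abs_nonneg (L j : ℝ)⁻¹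
        constructor <;> linarith
      · rw [Finsupp.notMem_support_iff.mp hj]
        simp only [Rat.cast_zero, abs_zero, inv_zero]
        constructor <;> linarith
  set η : ℝ := r / (2 * B) with hη
  have hηpos : 0 < η := by positivity
  let N : ℝ := L.support.card
  have hN : 0 ≤ N := Nat.cast_nonneg _
  let a : ℝ → ℝ := fun q => (L (cell k q) : ℝ) * g q + (M (cell k q) : ℝ) * q
  let e : ℝ → ℝ := fun q => if cell k q = j0 then 1 / 2 else 0
  have hLm : Measurable fun q => (L (cell k q) : ℝ) :=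
    (measurable_from_top (f := fun j : ℤ => (L j : ℝ))).comp (cell_meas k)
  have hMm : Measurable fun q => (M (cell k q) : ℝ) :=
    (measurable_from_top (f := fun j : ℤ => (M j : ℝ))).comp (cell_meas k)
  have hem : Measurable e :=
    (measurable_from_top (f := fun j : ℤ => if j = j0 then (1 / 2 : ℝ) else 0)).comp (cell_meas k)
  have ham : Measurable a := (hLm.mul hg).add (hMm.mul measurable_id)
  have hfm : Measurable fun q => ((⌊a q / η⌋ : ℤ) : ℝ) :=
    (measurable_from_top (f := fun j : ℤ => (j : ℝ))).comp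
      (Int.measurable_floor.comp (ham.div_const η))
  refine ⟨fun q => g q + (η * (⌊a q / η⌋ + e q) - a q) * (L (cell k q) : ℝ)⁻¹,
    min (r / 2) (η / (4 * (N * B + 1))), ?_, ?_, min_le_left _ _, ?_, ?_⟩
  · exact hg.add ((((hfm.add hem).const_mul η).sub ham).mul hLm.inv)
  · exact lt_min (by positivity) (by positivity)
  · intro q
    rw [add_sub_cancel_left, abs_mul]
    have h1 : |η * (⌊a q / η⌋ + e q) - a q| ≤ η := by
      have h2 := Int.floor_le (a q / η)
      have h3 := Int.lt_floor_add_one (a q / η)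
      rw [le_div_iff₀ hηpos] at h2
      rw [div_lt_iff₀ hηpos] at h3
      have h4 : 0 ≤ e q ∧ e q ≤ 1 := by
        simp only [e]; split_ifs <;> norm_num
      rw [abs_le]
      constructor <;> nlinarith [h4.1, h4.2]
    calc _ ≤ η * B := mul_le_mul h1 (hB _).2 (abs_nonneg _) hηpos.le
      _ = r / 2 := by rw [hη]; field_simp
  · intro h hh s hinj hL ⟨q0, hq0, hc0⟩
    simp only at hinj hL hc0 ⊢
    set δ := η / (4 * (N * B + 1)) with hδ
    have hδpos : 0 < δ := by positivity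
    have hsplit : ∀ q ∈ s, (L (cell k q) : ℝ) * h q + (M (cell k q) : ℝ) * q =
        η * (⌊a q / η⌋ + e q) + (L (cell k q) : ℝ) *
          (h q - (g q + (η * (⌊a q / η⌋ + e q) - a q) * (L (cell k q) : ℝ)⁻¹)) := by
      intro q hq
      have : (L (cell k q) : ℝ) ≠ 0 := by exact_mod_cast hL q hq
      simp only [a]
      field_simp
      ring
    rw [Finset.sum_congr rfl hsplit, Finset.sum_add_distrib, ← Finset.mul_sum,
      Finset.sum_add_distrib]
    have he : ∑ q ∈ s, e q = 1 / 2 := by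
      rw [Finset.sum_eq_single q0]
      · simp [e, hc0]
      · intro q hq hne
        exact if_neg fun hc => hne (hinj hq hq0 (hc.trans hc0.symm))
      · intro h; exact absurd hq0 h
    have hcard : (s.card : ℝ) ≤ N := by
      have : s.card ≤ L.support.card :=
        Finset.card_le_card_of_injOn (cell k) (fun q hq => by
          simpa using hL q hq) hinj
      simp only [N]
      exact_mod_cast this
    have hsm : |∑ q ∈ s, (L (cell k q) : ℝ) *
          (h q - (g q + (η * (⌊a q / η⌋ + e q) - a q) * (L (cell k q) : ℝ)⁻¹))| ≤ N * B * δ := by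
      refine (Finset.abs_sum_le_sum_abs _ _).trans ?_
      refine (Finset.sum_le_card_nsmul _ _ (B * δ) ?_).trans ?_
      · intro q _
        rw [abs_mul]
        exact mul_le_mul (hB _).1 ((hh q).trans (min_le_right _ _)) (abs_nonneg _) (by linarith)
      · rw [nsmul_eq_mul, mul_assoc]
        exact mul_le_mul_of_nonneg_right hcard (by positivity)
    have hsm2 : N * B * δ ≤ η / 4 := by
      have : δ * (4 * (N * B + 1)) = η := by rw [hδ]; field_simp
      nlinarith
    rw [he, ← Int.cast_sum]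
    generalize ∑ q ∈ s, ⌊a q / η⌋ = z
    intro h0
    rw [abs_le] at hsm
    rcases le_or_gt 0 z with hz | hz
    · have : (0 : ℝ) ≤ z := by exact_mod_cast hz
      nlinarith [hsm.1]
    · have : (z : ℝ) ≤ -1 := by exact_mod_cast Int.le_sub_one_of_lt hz
      nlinarith [hsm.2]

theorem exists_good : ∃ f : ℝ → ℝ, Measurable f ∧ ∀ t : Task, Good t f := by
  obtain ⟨τ, hτ⟩ := exists_surjective_nat Task
  choose! G R hG hR hR2 hGd hgood using step
  let u : ℕ → (ℝ → ℝ) × ℝ := fun n =>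
    Nat.rec ((fun _ => 0), 1) (fun n p => (G (τ n) p.1 p.2, R (τ n) p.1 p.2)) n
  have hu : ∀ n, u (n + 1) = (G (τ n) (u n).1 (u n).2, R (τ n) (u n).1 (u n).2) := fun n => rfl
  have hinv : ∀ n, Measurable (u n).1 ∧ 0 < (u n).2 ∧ (u n).2 ≤ (1 / 2) ^ n := by
    intro n
    induction n with
    | zero => exact ⟨measurable_const, one_pos, by simp [u]⟩
    | succ n ih =>
      rw [hu]
      refine ⟨hG _ _ ih.1 _ ih.2.1, hR _ _ ih.1 _ ih.2.1, ?_⟩
      have := hR2 (τ n) _ ih.1 _ ih.2.1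
      rw [pow_succ]
      linarith [ih.2.2]
  have hnest : ∀ n m q, |(u (n + m)).1 q - (u n).1 q| ≤ (u n).2 - (u (n + m)).2 := by
    intro n m q
    induction m with
    | zero => simp
    | succ m ih =>
      have h1 := hGd (τ (n + m)) _ (hinv (n + m)).1 _ (hinv (n + m)).2.1 q
      have h2 := hR2 (τ (n + m)) _ (hinv (n + m)).1 _ (hinv (n + m)).2.1
      rw [← add_assoc, hu]
      have := abs_sub_le (G (τ (n + m)) (u (n + m)).1 (u (n + m)).2 q) ((u (n + m)).1 q)
        ((u n).1 q)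
      simp only
      linarith
  have hb : ∀ n m q, n ≤ m → |(u m).1 q - (u n).1 q| ≤ (u n).2 := by
    intro n m q hnm
    obtain ⟨c, rfl⟩ := Nat.exists_eq_add_of_le hnm
    linarith [hnest n c q, (hinv (n + c)).2.1]
  have hcau : ∀ q, CauchySeq fun n => (u n).1 q := by
    intro q
    refine cauchySeq_of_le_tendsto_0' (fun n => (1 / 2 : ℝ) ^ n) ?_
      (tendsto_pow_atTop_nhds_zero_of_lt_one (by norm_num) (by norm_num))
    intro n m hnm
    rw [dist_comm, Real.dist_eq]
    exact (hb n m q hnm).trans (hinv n).2.2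
  choose f hf using fun q => cauchySeq_tendsto_of_complete (hcau q)
  refine ⟨f, measurable_of_tendsto_metrizable (fun n => (hinv n).1) (tendsto_pi_nhds.mpr hf), ?_⟩
  intro t
  obtain ⟨n, rfl⟩ := hτ t
  apply hgood (τ n) _ (hinv n).1 _ (hinv n).2.1
  intro q
  have h1 : Tendsto (fun m => |(u m).1 q - (u (n + 1)).1 q|) atTop (𝓝 |f q - (u (n + 1)).1 q|) :=
    ((hf q).sub_const _).abs
  exact le_of_tendsto h1 ((eventually_ge_atTop (n + 1)).mono fun m hm => hb _ _ q hm)

/-- value of a formal combination -/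
noncomputable def ev (f : ℝ → ℝ) (l m : ℝ →₀ ℚ) : ℝ :=
  Finsupp.linearCombination ℚ f l + Finsupp.linearCombination ℚ (fun q : ℝ => q) m

theorem exists_indep : ∃ f : ℝ → ℝ, Measurable f ∧
    ∀ l m : ℝ →₀ ℚ, l ≠ 0 → m.support ⊆ l.support → ev f l m ≠ 0 := by
  classical
  obtain ⟨f, hf, hgood⟩ := exists_good
  refine ⟨f, hf, fun l m hl hm => ?_⟩
  obtain ⟨k, hk⟩ := exists_cell_inj l.support
  obtain ⟨q0, hq0⟩ := Finsupp.support_nonempty_iff.mpr hl
  have h1 : ∀ q ∈ l.support, l.mapDomain (cell k) (cell k q) = l q := fun q hq =>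
    Finsupp.mapDomain_apply' _ l subset_rfl hk hq
  have h2 : ∀ q ∈ l.support, m.mapDomain (cell k) (cell k q) = m q := fun q hq =>
    Finsupp.mapDomain_apply' _ m (by exact_mod_cast hm) hk hq
  have := hgood (k, l.mapDomain (cell k), m.mapDomain (cell k), cell k q0) l.support hk
    (fun q hq => by rw [h1 q hq]; simpa using hq) ⟨q0, hq0, rfl⟩
  convert this using 1
  unfold ev
  rw [Finsupp.linearCombination_apply, Finsupp.linearCombination_apply, Finsupp.sum,
    Finsupp.sum_of_support_subset m hm _ (by simp), ← Finset.sum_add_distrib]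
  refine Finset.sum_congr rfl fun q hq => ?_
  simp only [h1 q hq, h2 q hq, Rat.smul_def]

end Pool.Agent.H29.Generic
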