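import Mathlib
import Pool.Agent.Results.MP_554556_an.Definite

namespace Pool.Agent.H29.Gyro

open Matrix Finset Filter Topology NormedSpace Pool.Agent.Results.MP_554556_an.Definite

variable {n : ℕ}

/-- `A k` is hermitian for odd `k` and skewhermitian for even `k`. -/
def SymG (l : ℕ) (A : ℕ → Mt (Fin n)) : Prop :=
  ∀ k ≤ l, (Odd k → (A k)ᴴ = A k) ∧ (Even k → (A k)ᴴ = -A k)

/-- perturbation in degrees `0` and `1` -/
noncomputable def pt (E0 E1 : Mt (Fin n)) : ℕ → Mt (Fin n) :=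
  fun k => if k = 0 then E0 else if k = 1 then E1 else 0

/-- boundedness under small perturbations in degrees `0` and `1` -/
def Rob (l : ℕ) (A : ℕ → Mt (Fin n)) : Prop :=
  ∃ ε > 0, ∀ E0 E1 : Mt (Fin n), E0ᴴ = -E0 → E1ᴴ = E1 → (∀ i j, ‖E0 i j‖ < ε ∧ ‖E1 i j‖ < ε) →
    Bdd l (fun k => A k + pt E0 E1 k)

variable {L : ℕ} {A : ℕ → Mt (Fin n)}

theorem form' {x y : Fin (L + 1) × Fin n → H} {μ ν : H} (hx : comp (L + 1) A *ᵥ x = rm x μ)
    (hy : comp (L + 1) A *ᵥ y = rm y ν) (hν : ν.re = 0) :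
    star y ⬝ᵥ gm (L + 1) A *ᵥ x = ∑ m ∈ range (L + 1), ∑ p ∈ range (m + 1),
      ν ^ p * (star (b0 y) ⬝ᵥ A (m + 1) *ᵥ b0 x) * μ ^ (m - p) := by
  let F : ℕ → ℕ → H := fun p q => ν ^ p * (star (b0 y) ⬝ᵥ A (p + q + 1) *ᵥ b0 x) * μ ^ q
  have e1 : star y ⬝ᵥ gm (L + 1) A *ᵥ x = ∑ p : Fin (L + 1),
      ∑ q : Fin (L + 1), if p.val + q.val + 1 ≤ L + 1 then F p q else 0 := by
    simp only [dotProduct, mulVec, Fintype.sum_prod_type, gm, of_apply, Pi.star_apply, mul_sum]
    refine sum_congr rfl fun p _ => sum_comm.trans (sum_congr rfl fun q _ => ?_)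
    split_ifs
    · simp only [F, dotProduct, mulVec, mul_sum, sum_mul, Pi.star_apply]
      refine sum_congr rfl fun a _ => sum_congr rfl fun b _ => ?_
      rw [eig_blk hy, eig_blk hx, star_mul, star_pow, Quaternion.star_eq_neg.2 hν, neg_pow]
      rcases neg_one_pow_eq_or H p.val with h | h <;> simp [h, mul_assoc]
    · simp
  rw [e1, Fin.sum_univ_eq_sum_range (fun p => ∑ q : Fin (L + 1),
    if p + q.val + 1 ≤ L + 1 then F p q else 0)]
  have e2 : ∀ p ∈ range (L + 1), (∑ q : Fin (L + 1), if p + q.val + 1 ≤ L + 1 then F p q else 0) =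
      ∑ q ∈ range (L + 1 - p), F p q := fun p _ => by
    rw [Fin.sum_univ_eq_sum_range (fun q => if p + q + 1 ≤ L + 1 then F p q else 0), ← sum_filter]
    congr 1
    ext q
    simp only [mem_filter, mem_range]
    omega
  rw [sum_congr rfl e2, ← sum_range_diag_flip]
  refine sum_congr rfl fun m _ => sum_congr rfl fun p hp => ?_
  simp only [F]
  rw [show p + (m - p) + 1 = m + 1 by have := mem_range.1 hp; omega]

theorem dpow' (μ : H) (k : ℕ) :
    HasDerivAt (fun s : ℝ => (s • (1 : H) + μ) ^ (k + 1)) (((k + 1 : ℕ) : ℝ) • μ ^ k) 0 := by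
  have h0 := ((hasDerivAt_id (0 : ℝ)).smul_const (1 : H)).add_const μ
  induction k with
  | zero => simpa using h0
  | succ k ih =>
    have := h0.mul ih
    simp only [pow_succ' _ (k + 1)]
    refine this.congr_deriv ?_
    simp only [id, one_smul, zero_smul, zero_add, one_mul, mul_smul_comm, ← pow_succ']
    simp only [Nat.cast_add, Nat.cast_one, add_smul, one_smul]
    abel

theorem expo {B : ℕ → Mt (Fin n)} (hb : Bdd (L + 1) B) (z : Fin n → H) (hz : z ≠ 0) (ν : H)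
    (h3 : ∑ k ∈ range (L + 1 + 1), B k *ᵥ rm z (ν ^ k) = 0) : ν.re = 0 := by
  obtain ⟨h1, h2⟩ := fam (fun k t => rm (rm z (ν ^ k)) (exp (t • ν))) (fun k t =>
    hasDerivAt_pi.2 fun a => by
      simpa [rm, pow_succ, mul_assoc] using
        (hasDerivAt_exp_smul_const' ν t).const_mul (z a * ν ^ k)) (L + 1)
  obtain ⟨M, hM⟩ := hb _ h1 fun t => by
    ext1 i
    simp only [lhs, h2, mv_rm _ (rm _ _), Finset.sum_apply, ← sum_mul]
    rw [← Finset.sum_apply, h3]; simp
  obtain ⟨i, hi⟩ := Function.ne_iff.1 hz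
  exact (unb (z i) 0 ν M fun t => le_trans (le_of_eq (by simp [rm]))
    ((norm_le_pi_norm _ i).trans (hM t))).1 rfl hi

/-- skewhermitian correction -/
noncomputable def m2 (N : ℝ) (z a : Fin n → H) : Mt (Fin n) := of fun i j =>
  N⁻¹ • (a i * star (z j) - z i * star (a j))

theorem m2_h (N : ℝ) (z a : Fin n → H) : (m2 N z a)ᴴ = -m2 N z a := by
  ext1 i j
  simp only [m2, conjTranspose_apply, of_apply, star_sub, Quaternion.star_smul, star_mul,
    star_star, Matrix.neg_apply, ← smul_neg, neg_sub]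

theorem m2_v {N : ℝ} {z a : Fin n → H} (h0 : N ≠ 0) (hN : star z ⬝ᵥ z = N • (1 : H)) :
    m2 N z a *ᵥ z = fun i => a i - N⁻¹ • (z i * (star a ⬝ᵥ z)) := by
  have zz : ∑ j, star (z j) * z j = N • (1 : H) := hN
  ext1 i
  simp only [m2, mulVec, dotProduct, of_apply, sub_mul, smul_mul_assoc, mul_assoc, sum_sub_distrib,
    ← smul_sum, ← mul_sum, zz, mul_smul_comm, mul_one, smul_sub, smul_smul, inv_mul_cancel₀ h0,
    one_smul, Pi.star_apply]

theorem perturb' (ht : Rob (L + 1) A) (z : Fin n → H) (hz : z ≠ 0) (μ : H)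
    (hμ : μ.re = 0) (he : ∑ k ∈ range (L + 1 + 1), A k *ᵥ rm z (μ ^ k) = 0) :
    ∑ k ∈ range (L + 1), ((k + 1 : ℕ) : ℝ) * ((star z ⬝ᵥ A (k + 1) *ᵥ z) * μ ^ k).re ≠ 0 := by
  intro hq
  obtain ⟨ε, hε, ht⟩ := ht
  obtain ⟨ν, hν⟩ : ∃ ν : ℝ → H, ν = fun s => s • (1 : H) + μ := ⟨_, rfl⟩
  have νre : ∀ s, (ν s).re = s := fun s => by simp [hν, hμ]
  have ν00 : ν 0 = μ := by simp [hν]
  have cν : Continuous ν := by rw [hν]; fun_prop
  obtain ⟨r, hr⟩ : ∃ r : ℝ → Fin n → H,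
    r = fun s => ∑ k ∈ range (L + 1 + 1), A k *ᵥ rm z (ν s ^ k) := ⟨_, rfl⟩
  have r0 : r 0 = 0 := by simpa [hr, ν00] using he
  have cr : ∀ i, Continuous fun s => r s i := fun i => by
    simp only [hr, Finset.sum_apply, mv_rm]; fun_prop
  obtain ⟨g, hg'⟩ : ∃ g : ℝ → ℝ, g = fun s => (star z ⬝ᵥ r s).re := ⟨_, rfl⟩
  have hg : HasDerivAt g 0 0 := by
    have a1 : HasDerivAt (fun s => star z ⬝ᵥ r s) (∑ k ∈ range (L + 1),
        (star z ⬝ᵥ A (k + 1) *ᵥ z) * (((k + 1 : ℕ) : ℝ) • μ ^ k)) 0 := by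
      simp only [hr, dot_sum, hν]
      simp only [sum_range_succ' _ (L + 1), pow_zero]
      exact (HasDerivAt.fun_sum fun k _ =>
        (dpow' μ k).const_mul (star z ⬝ᵥ A (k + 1) *ᵥ z)).add_const _
    rw [hg']
    refine (reL.hasFDerivAt.comp_hasDerivAt 0 a1).congr_deriv ?_
    simp only [mul_smul_comm, map_sum, map_smul]
    exact hq
  have hτ : Tendsto (fun s => s⁻¹ * g s) (𝓝[≠] 0) (𝓝 0) := by
    have : g 0 = 0 := by rw [hg']; simp only [r0, dotProduct_zero]; rfl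
    simpa [this] using hg.tendsto_slope_zero
  obtain ⟨N, hN0, hN⟩ : ∃ N : ℝ, N ≠ 0 ∧ star z ⬝ᵥ z = N • (1 : H) := by
    refine ⟨∑ a, Quaternion.normSq (z a), ?_, ?_⟩
    · obtain ⟨a, ha⟩ := Function.ne_iff.1 hz
      exact (sum_pos' (fun a _ => Quaternion.normSq_nonneg) ⟨a, mem_univ a,
        Quaternion.normSq_nonneg.lt_of_ne' (Quaternion.normSq_ne_zero.2 ha)⟩).ne'
    · simp only [dotProduct, Pi.star_apply, Quaternion.star_mul_self, sum_smul]
      exact sum_congr rfl fun a _ => by ext <;> simp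
  let a : ℝ × ℝ → Fin n → H := fun p => (N⁻¹ * p.2) • rm z (ν p.1) - r p.1
  have ca : ∀ i, Continuous fun p => a p i := fun i => by
    simp only [a, rm, Pi.sub_apply, Pi.smul_apply]; fun_prop
  have a0 : a (0, 0) = 0 := by simp [a, r0]
  let E0 : ℝ × ℝ → Mt (Fin n) := fun p => m2 N z (a p) + m1 N z (star (a p) ⬝ᵥ z)
  let E1 : ℝ × ℝ → Mt (Fin n) := fun p => (-(N⁻¹ * p.2)) • (1 : Mt (Fin n))
  have lim : Tendsto (fun s => (s, s⁻¹ * g s)) (𝓝[≠] 0) (𝓝 (0, 0)) :=
    (tendsto_id.mono_left nhdsWithin_le_nhds).prodMk_nhds hτ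
  have s0 : ∀ᶠ p in 𝓝 ((0 : ℝ), (0 : ℝ)), ∀ i j, ‖E0 p i j‖ < ε ∧ ‖E1 p i j‖ < ε := by
    refine eventually_all.2 fun i => eventually_all.2 fun j => Eventually.and ?_ ?_
    · refine ContinuousAt.eventually_lt (Continuous.continuousAt ?_) continuousAt_const ?_
      · simp only [E0, m1, m2, of_apply, Matrix.add_apply, dotProduct, Pi.star_apply]; fun_prop
      · simpa [E0, m1, m2, a0] using hε
    · refine ContinuousAt.eventually_lt (Continuous.continuousAt ?_) continuousAt_const ?_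
      · simp only [E1, Matrix.smul_apply]; fun_prop
      · simpa [E1] using hε
  obtain ⟨s, hsm, hs0⟩ := ((lim.eventually s0).and self_mem_nhdsWithin).exists
  have hs0 : s ≠ 0 := hs0
  have hre : (star (a (s, s⁻¹ * g s)) ⬝ᵥ z).re = 0 := by
    have e : star (a (s, s⁻¹ * g s)) ⬝ᵥ z = star (star z ⬝ᵥ a (s, s⁻¹ * g s)) := by
      simp [dotProduct]
    have h2 : ∀ c, star z ⬝ᵥ rm z c = (star z ⬝ᵥ z) * c := fun c => by
      simp [dotProduct, rm, sum_mul, mul_assoc]
    rw [e, Quaternion.re_star]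
    simp only [a, dotProduct_sub, dotProduct_smul, h2, hN, smul_mul_assoc, one_mul, smul_smul,
      Quaternion.re_sub, Quaternion.re_smul, νre, smul_eq_mul]
    rw [hg']
    field_simp
    ring
  refine hs0 ((νre s).symm.trans (expo (ht (E0 _) (E1 _) ?_ ?_ hsm) z hz (ν s) ?_))
  · simp only [E0, conjTranspose_add, m2_h, m1_h _ _ _ hre, neg_add]
  · simp only [E1]
    ext1 i j
    simp only [conjTranspose_apply, Matrix.smul_apply, one_apply, eq_comm (a := j)]
    split_ifs <;> simp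
  · simp only [add_mulVec, sum_add_distrib]
    rw [sum_range_succ' (fun k => pt _ _ k *ᵥ rm z (ν s ^ k)),
      sum_range_succ' (fun k => pt _ _ (k + 1) *ᵥ rm z (ν s ^ (k + 1)))]
    have : rm z 1 = z := funext fun i => mul_one _
    simp only [pt, Nat.add_eq_zero_iff, one_ne_zero, and_false, if_false, if_true, zero_add,
      pow_zero, pow_one, this, Nat.add_eq_right, zero_mulVec, sum_const_zero, E0, E1, add_mulVec,
      m2_v hN0 hN, m1_v _ hN0 hN, smul_mulVec, one_mulVec]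
    rw [show ∑ k ∈ range (L + 1 + 1), A k *ᵥ rm z (ν s ^ k) = r s by rw [hr]]
    ext1 i
    simp only [Pi.add_apply, sub_add_cancel]
    simp only [a, Pi.add_apply, Pi.sub_apply, Pi.smul_apply, neg_smul, Pi.neg_apply,
      Pi.zero_apply]
    abel

theorem iso' (hA : IsUnit (A (L + 1))) (ht : Rob (L + 1) A)
    {x : Fin (L + 1) × Fin n → H} {μ : H} (hμ : μ.re = 0)
    (hx : comp (L + 1) A *ᵥ x = rm x μ) (h0 : x ≠ 0) : qf (gm (L + 1) A) x ≠ 0 := by
  have hb : b0 x ≠ 0 := fun h => h0 (funext fun ⟨p, a⟩ => by rw [eig_blk hx, h]; simp)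
  have := perturb' ht _ hb μ hμ (eig_eq hA hx)
  rw [qf, form' hx hx hμ, re_sum]
  refine fun h => this (Eq.trans (sum_congr rfl fun m _ => ?_) h)
  rw [re_sum, sum_congr rfl (g := fun _ => (star (b0 x) ⬝ᵥ A (m + 1) *ᵥ b0 x * μ ^ m).re)]
  · simp only [sum_const, card_range, nsmul_eq_mul]
  · intro p hp
    rw [mul_assoc, re_comm, mul_assoc, ← pow_add,
      show m - p + p = m by have := mem_range.1 hp; omega]

theorem cross' (hs : SymG (L + 1) A) (hA : IsUnit (A (L + 1))) {x y : Fin (L + 1) × Fin n → H}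
    {ν : H} (hν : ν.re = 0) (hν0 : ν ≠ 0) (hx : comp (L + 1) A *ᵥ x = rm x ν)
    (hy : comp (L + 1) A *ᵥ y = rm y (-ν)) :
    (star y ⬝ᵥ gm (L + 1) A *ᵥ x).re = 0 := by
  obtain ⟨c, hc⟩ : ∃ c : ℕ → ℝ,
    c = fun k => (star (b0 y) ⬝ᵥ A k *ᵥ b0 x * ν ^ k * ν⁻¹).re := ⟨_, rfl⟩
  have h1 : ∑ k ∈ range (L + 1 + 1), c k = 0 := by
    rw [hc, ← re_sum, ← sum_mul, ← dot_sum, eig_eq hA hx, dotProduct_zero, zero_mul, r0]
  have h2 : ∑ k ∈ range (L + 1 + 1), (-1) ^ k * c k = 0 := by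
    have := congrArg (fun v => -(ν⁻¹ * star (star (b0 x) ⬝ᵥ v)).re) (eig_eq hA hy)
    simp only [dot_sum, dotProduct_zero, star_zero, mul_zero, r0, star_sum, re_sum, mul_sum,
      neg_zero, ← sum_neg_distrib] at this
    refine Eq.trans (sum_congr rfl fun k hk => ?_) this
    have hk := hs k (Nat.lt_succ_iff.1 (mem_range.1 hk))
    have hcm : ν⁻¹ * ν ^ k = ν ^ k * ν⁻¹ := ((Commute.refl ν).pow_right k).inv_left₀
    rw [star_mul, star_dot, star_pow, star_neg, Quaternion.star_eq_neg.2 hν, neg_neg, ← mul_assoc,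
      re_comm, hcm, ← mul_assoc, hc]
    rcases Nat.even_or_odd k with h | h
    · rw [hk.2 h, h.neg_one_pow, neg_mulVec, dotProduct_neg, neg_mul, neg_mul, one_mul]
      simp only [Quaternion.re_neg, neg_neg]
    · rw [hk.1 h, h.neg_one_pow, neg_mul, one_mul]
  have h3 : ∀ k, 2 * ∑ p ∈ range k, (-1 : ℝ) ^ p = 1 - (-1) ^ k := fun k => by
    induction k with
    | zero => simp
    | succ k ih => rw [sum_range_succ, pow_succ]; linarith
  have h4 : ∀ m, (∑ p ∈ range (m + 1), (-ν) ^ p * (star (b0 y) ⬝ᵥ A (m + 1) *ᵥ b0 x) *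
      ν ^ (m - p)).re = (c (m + 1) - (-1) ^ (m + 1) * c (m + 1)) / 2 := fun m => by
    rw [re_sum, sum_congr rfl (g := fun p => (-1) ^ p * c (m + 1)), ← sum_mul]
    · linear_combination c (m + 1) / 2 * h3 (m + 1)
    · intro p hp
      have : (ν ^ p * (star (b0 y) ⬝ᵥ A (m + 1) *ᵥ b0 x * ν ^ (m - p))).re = c (m + 1) := by
        rw [re_comm, mul_assoc, ← pow_add, hc,
          show m - p + p = m by have := mem_range.1 hp; omega]
        simp only [pow_succ, mul_assoc, mul_inv_cancel₀ hν0, mul_one]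
      rcases Nat.even_or_odd p with h | h
      · rw [h.neg_pow, h.neg_one_pow, one_mul, mul_assoc, this]
      · rw [h.neg_pow, h.neg_one_pow, neg_mul, neg_mul, neg_mul, one_mul, mul_assoc, ← this]; rfl
  rw [form' hx hy (by simpa using hν), re_sum]
  simp only [h4]
  rw [← sum_div, sum_sub_distrib]
  rw [sum_range_succ'] at h1 h2
  simp only [pow_zero, one_mul] at h2
  linarith

theorem dich {ι : Type} [Fintype ι] [DecidableEq ι] (K C : Mt ι) (μ : H)
    (iso : ∀ x, C *ᵥ x = rm x μ → x ≠ 0 → qf K x ≠ 0) :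
    (∀ x, C *ᵥ x = rm x μ → x ≠ 0 → 0 < qf K x) ∨
      ∀ x, C *ᵥ x = rm x μ → x ≠ 0 → qf K x < 0 := by
  by_contra h
  push Not at h
  obtain ⟨⟨x, hx, x0, h1⟩, y, hy, y0, h2⟩ := h
  have h1 := h1.lt_of_ne (iso x hx x0)
  have h2 := h2.lt_of_ne' (iso y hy y0)
  have hc : Continuous fun s : ℝ => qf K ((1 - s) • x + s • y) :=
    Quaternion.continuous_re.comp (by simp only [dotProduct, mulVec]; fun_prop)
  obtain ⟨s, -, h3⟩ := intermediate_value_Icc zero_le_one hc.continuousOn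
    (show (0 : ℝ) ∈ Set.Icc _ _ from ⟨by simpa using h1.le, by simpa using h2.le⟩)
  have h4 : (1 - s) • x + s • y = 0 := by
    by_contra h
    refine iso _ ?_ h h3
    rw [mulVec_add, mulVec_smul, mulVec_smul, hx, hy]
    ext1 i; simp [rm, add_mul]
  have h5 := congrArg (qf K) (eq_neg_of_add_eq_zero_left h4)
  rw [← neg_smul, qf_smul, qf_smul] at h5
  have h6 : (1 - s) ^ 2 = 0 := by nlinarith [sq_nonneg (1 - s), sq_nonneg (-s)]
  have h7 : (-s) ^ 2 = 0 := by nlinarith [sq_nonneg (1 - s), sq_nonneg (-s)]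
  nlinarith [pow_eq_zero_iff (two_ne_zero) |>.1 h6, pow_eq_zero_iff (two_ne_zero) |>.1 h7]

theorem core (hs : SymG (L + 1) A) (hA : IsUnit (A (L + 1))) (ht : Rob (L + 1) A) (a : H)
    (ha : IsEig (comp (L + 1) A) a) : Def (gm (L + 1) A) (Root (comp (L + 1) A) a) := by
  have hb : Bdd (L + 1) A := by
    obtain ⟨ε, hε, h⟩ := ht
    have := h 0 0 (by simp) (by simp) fun _ _ => by simpa using hε
    simpa [pt] using this
  obtain ⟨v0, hv0, he⟩ := ha
  have are : a.re = 0 := (chain hA hb v0 0 a (by rw [add_zero]; exact he)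
    (by ext1 i; simp [rm])).1 rfl hv0
  have iso'' := fun x μ h1 => iso' (x := x) (μ := μ) hA ht h1
  have cr := fun x y ν => cross' (x := x) (y := y) (ν := ν) hs hA
  have ch := chain hA hb
  generalize gm (L + 1) A = K at *
  generalize comp (L + 1) A = C at *
  by_cases a0 : a = 0
  · subst a0
    have rm0 : ∀ v : Fin (L + 1) × Fin n → H, rm v 0 = 0 := fun v => by ext1 i; simp [rm]
    have PN : ∀ N v, (C ^ N) *ᵥ v = 0 → C *ᵥ v = 0 := fun N => by
      induction N with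
      | zero => intro v h; rw [pow_zero, one_mulVec] at h; rw [h, mulVec_zero]
      | succ N ih =>
        intro v h
        rw [pow_succ, ← mulVec_mulVec] at h
        exact (ch v (C *ᵥ v) 0 (by simp [rm0]) (by rw [rm0]; exact ih _ h)).2 rfl
    have hp : pl C 0 = C := by rw [pl, if_pos Quaternion.im_zero, r0, zero_smul, sub_zero]
    refine (dich K C 0 fun x => iso'' x 0 rfl).imp (fun h v hv v0 => h v ?_ v0)
      (fun h v hv v0 => h v ?_ v0) <;>
    · rw [rm0]
      rw [Root, hp] at hv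
      exact PN _ _ hv
  have aim : a.im ≠ 0 := fun h => a0 (by rw [← a.re_add_im, h, are]; simp)
  let μ : H := ⟨0, ‖a‖, 0, 0⟩
  let j : H := ⟨0, 0, 1, 0⟩
  have hn : 0 < Quaternion.normSq μ := by
    have := norm_pos_iff.2 a0
    simp only [μ, Quaternion.normSq_def']
    positivity
  have μ0 : μ ≠ 0 := Quaternion.normSq_ne_zero.1 hn.ne'
  have μ2 : μ * μ = -(Quaternion.normSq a • (1 : H)) := by
    rw [Quaternion.normSq_eq_norm_mul_self]; ext <;> simp [μ]
  have μj : -μ * j = j * μ := by ext <;> simp [μ, j]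
  let T : H → _ → _ := fun ν v => C *ᵥ v - rm v ν
  have TT : ∀ ν, ν * ν = μ * μ → ∀ v, T ν (T (-ν) v) = pl C a *ᵥ v := fun ν hν v => by
    ext1 i
    simp only [T, pl, if_neg aim, are, mul_zero, zero_smul, sub_zero, mulVec_sub, mv_rm,
      add_mulVec, sq, ← mulVec_mulVec, smul_mulVec, one_mulVec, Pi.sub_apply, Pi.add_apply,
      Pi.smul_apply]
    simp only [rm, Pi.sub_apply, sub_mul, mul_neg, neg_mul, mul_assoc, hν, μ2, mul_smul_comm,
      mul_one]
    abel
  have T1 := TT μ rfl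
  have T2 := TT (-μ) (by simp)
  rw [neg_neg] at T2
  have nil : ∀ ν : H, ν.re = 0 → ∀ y, T ν (T ν y) = 0 → T ν y = 0 := fun ν hν y h =>
    (ch y (T ν y) ν (by simp [T]) (sub_eq_zero.1 h)).2 hν
  have P2 : ∀ u, pl C a *ᵥ (pl C a *ᵥ u) = 0 → pl C a *ᵥ u = 0 := fun u h => by
    have h1 : T μ (T (-μ) (T (-μ) u)) = 0 := nil μ rfl _ (by rw [T1 (T (-μ) u), ← T2, T1, T1, h])
    rw [← T2]
    exact nil (-μ) (by simp [μ]) _ (by rw [T2, ← T1, T2, ← T1, h1])
  have PN : ∀ N v, (pl C a ^ N) *ᵥ v = 0 → pl C a *ᵥ v = 0 := fun N => by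
    induction N with
    | zero => intro v h; rw [pow_zero, one_mulVec] at h; rw [h, mulVec_zero]
    | succ N ih => intro v h; rw [pow_succ, ← mulVec_mulVec] at h; exact P2 _ (ih _ h)
  have dec : ∀ v ∈ Root C a, v ≠ 0 → ∃ x y, C *ᵥ x = rm x μ ∧ C *ᵥ y = rm y μ ∧
      (x ≠ 0 ∨ y ≠ 0) ∧ 4 * Quaternion.normSq μ * qf K v = qf K x + qf K y := by
    intro v hv v0
    have hv := PN _ _ hv
    have e1 : C *ᵥ T (-μ) v = rm (T (-μ) v) μ := sub_eq_zero.1 ((T1 v).trans hv)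
    have e2 : C *ᵥ T μ v = rm (T μ v) (-μ) := sub_eq_zero.1 ((T2 v).trans hv)
    have e3 : T (-μ) v - T μ v = (2 : ℝ) • rm v μ := by
      ext1 i; simp only [T, rm, Pi.sub_apply, Pi.smul_apply, mul_neg, two_smul, Pi.add_apply]; abel
    have j1 : Quaternion.normSq j = 1 := by simp [j, Quaternion.normSq_def']
    refine ⟨T (-μ) v, rm (T μ v) j, e1, ?_, ?_, ?_⟩
    · rw [mv_rm, e2]; ext1 i; simp only [rm, mul_assoc, μj]
    · by_contra h
      push Not at h
      have h3 : T μ v = 0 := funext fun i => (mul_eq_zero.1 (congrFun h.2 i)).resolve_right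
        (Quaternion.normSq_ne_zero.1 (by rw [j1]; exact one_ne_zero))
      rw [h.1, h3, sub_zero, eq_comm, smul_eq_zero_iff_right two_ne_zero] at e3
      exact v0 (funext fun i => (mul_eq_zero.1 (congrFun e3 i)).resolve_right μ0)
    · have c1 := cr _ _ μ rfl μ0 e1 e2
      have c2 := cr _ _ (-μ) (by simp [μ]) (neg_ne_zero.2 μ0) e2 (by rw [neg_neg]; exact e1)
      have c3 := congrArg (qf K) e3
      rw [qf_smul, qf_rm, qf, star_sub, mulVec_sub, sub_dotProduct, dotProduct_sub, dotProduct_sub,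
        Quaternion.re_sub, Quaternion.re_sub, Quaternion.re_sub, c1, c2] at c3
      rw [qf_rm, j1, one_mul, qf, qf, qf]
      unfold qf at c3
      linarith
  have q0 : qf K 0 = 0 := by simp [qf]
  have E := dich K C μ fun x => iso'' x μ rfl
  refine E.imp (fun h v hv v0 => ?_) fun h v hv v0 => ?_ <;>
    obtain ⟨x, y, hx, hy, hxy, e⟩ := dec v hv v0
  · have : 0 < qf K x + qf K y := by
      by_cases x0 : x = 0 <;> by_cases y0 : y = 0
      · tauto
      · rw [x0, q0]; linarith [h y hy y0]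
      · rw [y0, q0]; linarith [h x hx x0]
      · linarith [h y hy y0, h x hx x0]
    nlinarith
  · have : qf K x + qf K y < 0 := by
      by_cases x0 : x = 0 <;> by_cases y0 : y = 0
      · tauto
      · rw [x0, q0]; linarith [h y hy y0]
      · rw [y0, q0]; linarith [h x hx x0]
      · linarith [h y hy y0, h x hx x0]
    nlinarith

end Pool.Agent.H29.Gyro
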