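import Mathlib

set_option autoImplicit false

namespace Pool.Agent.H29.Heis

open Function Set

section embed

variable {G V : Type} [Group G] [AddCommGroup V] [TopologicalSpace V] [DiscreteTopology V]

lemma cont_eval {Z W : Type} [TopologicalSpace Z] [TopologicalSpace W] {f : Z → V → W} {w : Z → V}
    (hf : Continuous f) (hw : Continuous w) : Continuous fun z => f z (w z) := by
  have h : Continuous fun p : (V → W) × V => p.1 p.2 :=
    continuous_prod_of_discrete_right.2 fun y => continuous_apply y
  exact h.comp (hf.prodMk hw)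

def YY (B : G → Finset V) : Set ((G → V → V) × (V → Bool)) :=
  {p | (∀ v, p.1 1 v = v) ∧ (∀ g h v, p.1 (g * h) v = p.1 g (p.1 h v)) ∧ ∀ g v, p.1 g v - v ∈ B g}

lemma YY_compact (B : G → Finset V) : IsCompact (YY B) := by
  have hK : IsCompact ((Set.pi univ fun g : G => Set.pi univ fun v : V =>
      {w | w - v ∈ B g}) ×ˢ (univ : Set (V → Bool))) := by
    refine IsCompact.prod (isCompact_univ_pi fun g => isCompact_univ_pi fun v => ?_) isCompact_univ
    refine Set.Finite.isCompact ?_
    refine (((B g).finite_toSet).image (fun w => w + v)).subset ?_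
    intro w hw
    exact ⟨w - v, hw, by simp⟩
  refine hK.of_isClosed_subset ?_ ?_
  · simp only [YY, setOf_and, setOf_forall]
    refine IsClosed.inter (isClosed_iInter fun v => isClosed_eq (by fun_prop) (by fun_prop)) ?_
    refine IsClosed.inter (isClosed_iInter fun g => isClosed_iInter fun h =>
      isClosed_iInter fun v => isClosed_eq (by fun_prop) ?_) ?_
    · exact cont_eval (by fun_prop) (by fun_prop)
    · refine isClosed_iInter fun g => isClosed_iInter fun v => ?_
      exact (isClosed_discrete {w : V | w - v ∈ B g}).preimage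
        (f := fun p : (G → V → V) × (V → Bool) => p.1 g v) (by fun_prop)
  · rintro p ⟨-, -, h⟩
    exact ⟨fun g _ v _ => h g v, trivial⟩

def actF (B : G → Finset V) (g : G) (p : YY B) : YY B :=
  ⟨(p.1.1, fun v => p.1.2 (p.1.1 g⁻¹ v)), p.2⟩

lemma actF_cont (B : G → Finset V) (g : G) : Continuous (actF B g) := by
  refine Continuous.subtype_mk (Continuous.prodMk (by fun_prop) ?_) _
  refine continuous_pi fun v => cont_eval (by fun_prop) (by fun_prop)

omit [TopologicalSpace V] [DiscreteTopology V] in
lemma actF_mul (B : G → Finset V) (g h : G) (p : YY B) :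
    actF B (g * h) p = actF B g (actF B h p) := by
  apply Subtype.ext
  simp only [actF, mul_inv_rev, p.2.2.1]

omit [TopologicalSpace V] [DiscreteTopology V] in
lemma actF_one (B : G → Finset V) (p : YY B) : actF B 1 p = p := by
  apply Subtype.ext
  simp only [actF, inv_one, p.2.1]

def act (B : G → Finset V) (g : G) : YY B ≃ₜ YY B where
  toFun := actF B g
  invFun := actF B g⁻¹
  left_inv p := by rw [← actF_mul, inv_mul_cancel, actF_one]
  right_inv p := by rw [← actF_mul, mul_inv_cancel, actF_one]
  continuous_toFun := actF_cont B g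
  continuous_invFun := actF_cont B g⁻¹

def shY (B : G → Finset V) (u : V) (p : YY B) : YY B :=
  ⟨(fun g v => p.1.1 g (u + v) - u, fun v => p.1.2 (u + v)), by
    refine ⟨fun v => by simp [p.2.1], fun g h v => by simp [p.2.2.1], fun g v => ?_⟩
    have := p.2.2.2 g (u + v)
    simpa [sub_sub] using this⟩

variable {I : Type}

def code (B : G → Finset V) (s : I → G) (p : YY B) (v : V) : (∀ i, B (s i)) × Bool :=
  (fun i => ⟨p.1.1 (s i) v - v, p.2.2.2 _ _⟩, p.1.2 v)

omit [TopologicalSpace V] [DiscreteTopology V] in
lemma code_inj (B : G → Finset V) (s : I → G) (hs : Subgroup.closure (range s) = ⊤) :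
    Injective (code B s) := by
  intro p q hpq
  have h1 : ∀ i v, p.1.1 (s i) v = q.1.1 (s i) v := by
    intro i v
    have := congrArg (fun x => ((x v).1 i : V)) hpq
    simpa [code] using this
  have h2 : p.1.2 = q.1.2 := by
    funext v
    exact congrArg (fun x => (x v).2) hpq
  have h3 : ∀ g, ∀ v, p.1.1 g v = q.1.1 g v := by
    intro g
    have hg : g ∈ Subgroup.closure (range s) := by rw [hs]; trivial
    induction hg using Subgroup.closure_induction with
    | mem x hx => obtain ⟨i, rfl⟩ := hx; exact h1 i
    | one => intro v; rw [p.2.1, q.2.1]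
    | mul x y _ _ hx hy => intro v; rw [p.2.2.1, q.2.2.1, hy, hx]
    | inv x _ hx =>
      intro v
      have e1 : q.1.1 x (q.1.1 x⁻¹ v) = v := by rw [← q.2.2.1, mul_inv_cancel, q.2.1]
      have e2 : p.1.1 x⁻¹ (p.1.1 x (q.1.1 x⁻¹ v)) = q.1.1 x⁻¹ v := by
        rw [← p.2.2.1, inv_mul_cancel, p.2.1]
      rw [hx, e1] at e2
      exact e2
  apply Subtype.ext
  exact Prod.ext (funext fun g => funext (h3 g)) h2

omit [TopologicalSpace V] [DiscreteTopology V] in
lemma code_sh (B : G → Finset V) (s : I → G) (u : V) (p : YY B) :
    code B s (shY B u p) = fun v => code B s p (u + v) := by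
  funext v
  simp only [code, shY, Prod.mk.injEq, and_true]
  funext i
  apply Subtype.ext
  simp [sub_sub]

omit [TopologicalSpace V] [DiscreteTopology V] in
lemma act_sh (B : G → Finset V) (g : G) (u : V) (p : YY B) :
    actF B g (shY B u p) = shY B u (actF B g p) := by
  apply Subtype.ext
  simp [actF, shY]

end embed

theorem embed {G V I : Type} [Group G] [AddCommGroup V] [Finite I] (s : I → G)
    (hs : Subgroup.closure (range s) = ⊤) (ρ : G →* Equiv.Perm V) (hρ : Injective ρ)
    (B : G → Finset V) (hB : ∀ g v, ρ g v - v ∈ B g) :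
    ∃ (A : Type) (_ : Finite A) (_ : TopologicalSpace A) (_ : DiscreteTopology A)
      (X : Set (V → A)), X.Nonempty ∧ IsClosed X ∧
      (∀ u : V, (fun (x : V → A) v => x (u + v)) '' X = X) ∧
      ∃ φ : G →* (X ≃ₜ X), Injective φ ∧ ∀ (g : G) (u : V) (x y : X),
        (y : V → A) = (fun v => (x : V → A) (u + v)) →
        (φ g y : V → A) = fun v => (φ g x : V → A) (u + v) := by
  classical
  letI : TopologicalSpace V := ⊥
  haveI : DiscreteTopology V := ⟨rfl⟩
  haveI : CompactSpace (YY B) := isCompact_iff_compactSpace.1 (YY_compact B)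
  have hc : Continuous (code B s) := by
    refine continuous_pi fun v => Continuous.prodMk (continuous_pi fun i => ?_) (by fun_prop)
    refine Continuous.subtype_mk ?_ _
    exact (continuous_of_discreteTopology (f := fun w : V => w - v)).comp (by fun_prop)
  have hemb := hc.isClosedEmbedding (code_inj B s hs)
  let e : YY B ≃ₜ range (code B s) := hemb.isEmbedding.toHomeomorph
  have he : ∀ p, (e p : V → _) = code B s p := fun p => rfl
  let p0 : (V → Bool) → YY B := fun η => ⟨(fun g v => ρ g v, η), by
    refine ⟨fun v => by simp, fun g h v => by simp, hB⟩⟩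
  let φ : G →* (range (code B s) ≃ₜ range (code B s)) :=
    { toFun := fun g => (e.symm.trans (act B g)).trans e
      map_one' := by
        ext1 x
        simp [act, actF_one]
      map_mul' := by
        intro g h
        ext1 x
        simp [act, actF_mul] }
  have hφ : ∀ g p, φ g (e p) = e (actF B g p) := by
    intro g p
    simp [φ, act]
  refine ⟨(∀ i, B (s i)) × Bool, inferInstance, inferInstance, inferInstance, range (code B s),
    ⟨_, p0 (fun _ => true), rfl⟩, hemb.isClosed_range, ?_, φ, ?_, ?_⟩
  · intro u
    apply Subset.antisymm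
    · rintro _ ⟨_, ⟨p, rfl⟩, rfl⟩
      exact ⟨shY B u p, code_sh B s u p⟩
    · rintro _ ⟨p, rfl⟩
      refine ⟨code B s (shY B (-u) p), ⟨_, rfl⟩, ?_⟩
      rw [code_sh]
      funext v
      simp
  · rw [injective_iff_map_eq_one]
    intro g hg
    apply hρ
    rw [map_one]
    have key : ∀ v, ρ g⁻¹ v = v := by
      intro v
      have h1 := hφ g (p0 fun w => decide (w = v))
      rw [hg] at h1
      have h2 := e.injective h1
      have h3 := congrArg (fun p : YY B => p.1.2 v) h2
      simp only [p0, actF, decide_true] at h3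
      simpa using h3.symm
    have : ρ g⁻¹ = 1 := Equiv.ext key
    rw [map_inv, inv_eq_one] at this
    exact this
  · intro g u x y hxy
    obtain ⟨p, rfl⟩ := e.surjective x
    have : y = e (shY B u p) := by
      apply Subtype.ext
      rw [hxy, he, he, code_sh]
    rw [this, hφ, hφ, he, he, act_sh, code_sh]

end Pool.Agent.H29.Heis
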