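import Mathlib

set_option autoImplicit false

namespace Pool.Agent.H29.Heis

open Function Set

@[ext] structure HH where
  x : ℤ
  y : ℤ
  z : ℤ

instance : Mul HH := ⟨fun a b => ⟨a.x + b.x, a.y + b.y, a.z + b.z + a.x * b.y⟩⟩
instance : One HH := ⟨⟨0, 0, 0⟩⟩
instance : Inv HH := ⟨fun a => ⟨-a.x, -a.y, -a.z + a.x * a.y⟩⟩

@[simp] lemma mul_x (a b : HH) : (a * b).x = a.x + b.x := rfl
@[simp] lemma mul_y (a b : HH) : (a * b).y = a.y + b.y := rfl
@[simp] lemma mul_z (a b : HH) : (a * b).z = a.z + b.z + a.x * b.y := rfl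
@[simp] lemma one_x : (1 : HH).x = 0 := rfl
@[simp] lemma one_y : (1 : HH).y = 0 := rfl
@[simp] lemma one_z : (1 : HH).z = 0 := rfl
@[simp] lemma inv_x (a : HH) : a⁻¹.x = -a.x := rfl
@[simp] lemma inv_y (a : HH) : a⁻¹.y = -a.y := rfl
@[simp] lemma inv_z (a : HH) : a⁻¹.z = -a.z + a.x * a.y := rfl

instance : Group HH := Group.ofLeftAxioms
  (fun a b c => by ext <;> simp <;> ring)
  (fun a => by ext <;> simp)
  (fun a => by ext <;> simp)

noncomputable def N (g : HH) : ℝ :=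
  max (max |(g.x : ℝ)| |(g.y : ℝ)|) √|2 * (g.z : ℝ) - g.x * g.y|

lemma N_nonneg (g : HH) : 0 ≤ N g := le_max_of_le_right (Real.sqrt_nonneg _)

lemma N_le_iff (g : HH) {r : ℝ} (hr : 0 ≤ r) :
    N g ≤ r ↔ |(g.x : ℝ)| ≤ r ∧ |(g.y : ℝ)| ≤ r ∧ |2 * (g.z : ℝ) - g.x * g.y| ≤ r ^ 2 := by
  simp only [N, max_le_iff, and_assoc, Real.sqrt_le_left hr]

lemma N_one : N 1 = 0 := by simp [N]

lemma N_inv (g : HH) : N g⁻¹ = N g := by
  have : 2 * ((g⁻¹.z : ℤ) : ℝ) - (g⁻¹.x : ℤ) * (g⁻¹.y : ℤ) = -(2 * (g.z : ℝ) - g.x * g.y) := by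
    simp only [inv_x, inv_y, inv_z]; push_cast; ring
  unfold N
  rw [this, abs_neg]
  simp

lemma N_mul (g h : HH) : N (g * h) ≤ N g + N h := by
  obtain ⟨a1, a2, a3⟩ := (N_le_iff g (N_nonneg g)).1 le_rfl
  obtain ⟨b1, b2, b3⟩ := (N_le_iff h (N_nonneg h)).1 le_rfl
  have hg := N_nonneg g
  have hh := N_nonneg h
  rw [N_le_iff _ (by positivity)]
  simp only [mul_x, mul_y, mul_z]
  push_cast
  refine ⟨(abs_add_le _ _).trans (add_le_add a1 b1), (abs_add_le _ _).trans (add_le_add a2 b2), ?_⟩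
  have e : 2 * ((g.z : ℝ) + h.z + g.x * h.y) - (g.x + h.x) * (g.y + h.y) =
      (2 * g.z - g.x * g.y) + (2 * h.z - h.x * h.y) + (g.x * h.y - h.x * g.y) := by ring
  have c1 : |(g.x : ℝ) * h.y| ≤ N g * N h := by
    rw [abs_mul]; exact mul_le_mul a1 b2 (abs_nonneg _) hg
  have c2 : |(h.x : ℝ) * g.y| ≤ N h * N g := by
    rw [abs_mul]; exact mul_le_mul b1 a2 (abs_nonneg _) hh
  rw [e]
  have := abs_add_three (2 * (g.z : ℝ) - g.x * g.y) (2 * h.z - h.x * h.y) (g.x * h.y - h.x * g.y)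
  have := abs_sub ((g.x : ℝ) * h.y) (h.x * g.y)
  nlinarith

noncomputable instance : PseudoMetricSpace HH where
  dist g h := N (g⁻¹ * h)
  dist_self g := by simp [N_one]
  dist_comm g h := by rw [← N_inv]; simp
  dist_triangle g h k := by
    have := N_mul (g⁻¹ * h) (h⁻¹ * k)
    simpa [mul_assoc] using this

lemma dist_eq (g h : HH) : dist g h = N (g⁻¹ * h) := rfl

def dl (q : ℤ) (g : HH) : HH := ⟨q * g.x, q * g.y, q ^ 2 * g.z⟩

lemma dl_mul (q : ℤ) (g h : HH) : dl q (g * h) = dl q g * dl q h := by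
  ext <;> simp [dl] <;> ring

lemma dl_inv (q : ℤ) (g : HH) : dl q g⁻¹ = (dl q g)⁻¹ := by
  ext <;> simp [dl] <;> ring

lemma dl_dl (q r : ℤ) (g : HH) : dl q (dl r g) = dl (q * r) g := by
  ext <;> simp [dl] <;> ring

lemma dl_sep {q : ℤ} (hq : 0 < q) {g : HH} (hg : g ≠ 1) : (q : ℝ) ≤ N (dl q g) := by
  have hq' : (0 : ℝ) < q := by exact_mod_cast hq
  by_contra hlt
  push Not at hlt
  obtain ⟨a1, a2, a3⟩ := (N_le_iff _ (N_nonneg (dl q g))).1 le_rfl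
  simp only [dl] at a1 a2 a3
  push_cast at a1 a2 a3
  have h0 : ∀ t : ℤ, |(q : ℝ) * t| < q → t = 0 := by
    intro t ht
    rw [abs_mul, abs_of_pos hq'] at ht
    have : |(t : ℝ)| < 1 := by
      by_contra h
      push Not at h
      nlinarith
    have : |t| < 1 := by exact_mod_cast this
    exact Int.abs_lt_one_iff.1 this
  have hx := h0 _ (a1.trans_lt hlt)
  have hy := h0 _ (a2.trans_lt hlt)
  have hz : g.z = 0 := by
    by_contra hz
    have h1 : (1 : ℝ) ≤ |(g.z : ℝ)| := by exact_mod_cast Int.one_le_abs hz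
    simp only [hx, hy, Int.cast_zero, mul_zero, sub_zero, abs_mul, abs_pow, abs_of_pos hq',
      abs_two] at a3
    have h2 := N_nonneg (dl q g)
    have h3 : N (dl q g) ^ 2 < (q : ℝ) ^ 2 := by nlinarith
    simp only [dl, hx, hy, mul_zero] at h3
    nlinarith
  exact hg (by ext <;> simp [hx, hy, hz])

lemma decomp {q : ℤ} (hq : 0 < q) (g : HH) : ∃ κ c : HH, g = dl q κ * c ∧
    0 ≤ c.x ∧ c.x < q ∧ 0 ≤ c.y ∧ c.y < q ∧ 0 ≤ c.z ∧ c.z < q ^ 2 := by
  have hq2 : 0 < q ^ 2 := by positivity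
  refine ⟨⟨g.x / q, g.y / q, (g.z - q * (g.x / q) * (g.y % q)) / q ^ 2⟩,
    ⟨g.x % q, g.y % q, (g.z - q * (g.x / q) * (g.y % q)) % q ^ 2⟩, ?_,
    Int.emod_nonneg _ hq.ne', Int.emod_lt_of_pos _ hq, Int.emod_nonneg _ hq.ne',
    Int.emod_lt_of_pos _ hq, Int.emod_nonneg _ hq2.ne', Int.emod_lt_of_pos _ hq2⟩
  ext
  · simp [dl, Int.mul_ediv_add_emod]
  · simp [dl, Int.mul_ediv_add_emod]
  · simp [dl, Int.mul_ediv_add_emod]

lemma cover {q : ℤ} (hq : 0 < q) (g : HH) : ∃ κ : HH, dist (dl q κ) g ≤ 2 * q := by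
  obtain ⟨κ, c, rfl, a1, a2, a3, a4, a5, a6⟩ := decomp hq g
  refine ⟨κ, ?_⟩
  have hq' : (0 : ℝ) < q := by exact_mod_cast hq
  rw [dist_eq, inv_mul_cancel_left, N_le_iff _ (by positivity)]
  have b1 : (0 : ℝ) ≤ c.x := by exact_mod_cast a1
  have b2 : (c.x : ℝ) < q := by exact_mod_cast a2
  have b3 : (0 : ℝ) ≤ c.y := by exact_mod_cast a3
  have b4 : (c.y : ℝ) < q := by exact_mod_cast a4
  have b5 : (0 : ℝ) ≤ c.z := by exact_mod_cast a5
  have b6 : (c.z : ℝ) < q ^ 2 := by exact_mod_cast a6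
  refine ⟨by rw [abs_of_nonneg b1]; linarith, by rw [abs_of_nonneg b3]; linarith, ?_⟩
  rw [abs_le]
  constructor <;> nlinarith

abbrev Col : Type := Fin 40 × Fin 40 × Fin 1600

def rep (c : Col) : HH := (⟨c.1, c.2.1, c.2.2⟩ : HH)⁻¹

lemma colour (g : HH) : ∃ (c : Col) (κ : HH), g = rep c * dl 40 κ := by
  obtain ⟨κ, c, h, a1, a2, a3, a4, a5, a6⟩ := decomp (q := 40) (by norm_num) g⁻¹
  refine ⟨(⟨c.x.toNat, by omega⟩, ⟨c.y.toNat, by omega⟩, ⟨c.z.toNat, by omega⟩), κ⁻¹, ?_⟩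
  rw [dl_inv, rep, ← mul_inv_rev, ← inv_inv g, h]
  congr 2
  ext <;> simp <;> omega

def SS (k : ℕ) (c : Col) : Set HH := range fun κ => dl (4 ^ k) (rep c) * dl (4 ^ k * 40) κ

noncomputable def ph (k : ℕ) (c : Col) (g : HH) : ℝ := Metric.infDist g (SS k c)

lemma ph_nonneg (k : ℕ) (c : Col) (g : HH) : 0 ≤ ph k c g := Metric.infDist_nonneg

lemma ph_le (k : ℕ) (c : Col) (g : HH) : ph k c g ≤ 80 * 4 ^ k := by
  obtain ⟨κ, hκ⟩ := cover (q := 4 ^ k * 40) (by positivity) ((dl (4 ^ k) (rep c))⁻¹ * g)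
  refine (Metric.infDist_le_dist_of_mem (mem_range_self κ)).trans ?_
  rw [dist_comm]
  rw [dist_eq] at hκ ⊢
  push_cast at hκ
  rw [mul_inv_rev, mul_assoc]
  linarith

lemma ph_lip (k : ℕ) (c : Col) (g h : HH) : |ph k c g - ph k c h| ≤ dist g h := by
  have := (Metric.lipschitz_infDist_pt (SS k c)).dist_le_mul g h
  simpa [ph, Real.dist_eq] using this

lemma ph_bd (k : ℕ) (c : Col) (g h : HH) : |ph k c g - ph k c h| ≤ 80 * 4 ^ k := by
  have := ph_nonneg k c g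
  have := ph_nonneg k c h
  have := ph_le k c g
  have := ph_le k c h
  rw [abs_le]
  constructor <;> linarith

lemma ph_sep (k : ℕ) (g h : HH) (h1 : 8 * 4 ^ k ≤ dist g h) (h2 : dist g h ≤ 32 * 4 ^ k) :
    ∃ c : Col, 4 * 4 ^ k ≤ ph k c h - ph k c g := by
  obtain ⟨p, hp⟩ := cover (q := 4 ^ k) (by positivity) g
  obtain ⟨c, κ, rfl⟩ := colour p
  push_cast at hp
  rw [dl_mul, dl_dl] at hp
  refine ⟨c, ?_⟩
  have a1 : ph k c g ≤ 2 * 4 ^ k := by
    refine (Metric.infDist_le_dist_of_mem (mem_range_self κ)).trans ?_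
    rwa [dist_comm]
  have a2 : 6 * 4 ^ k ≤ ph k c h := by
    refine (Metric.le_infDist (range_nonempty _)).2 ?_
    rintro _ ⟨κ', rfl⟩
    have t1 := dist_triangle g (dl (4 ^ k) (rep c) * dl (4 ^ k * 40) κ) h
    have t2 := dist_triangle (dl (4 ^ k) (rep c) * dl (4 ^ k * 40) κ) g h
    by_cases e : κ' = κ
    · subst e
      rw [dist_comm g (dl _ _ * _), dist_comm (dl _ _ * _) h] at t1
      beta_reduce
      linarith
    · have s : ((4 ^ k * 40 : ℤ) : ℝ) ≤ dist (dl (4 ^ k) (rep c) * dl (4 ^ k * 40) κ)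
          (dl (4 ^ k) (rep c) * dl (4 ^ k * 40) κ') := by
        rw [dist_eq, mul_inv_rev, mul_assoc, inv_mul_cancel_left, ← dl_inv, ← dl_mul]
        refine dl_sep (by positivity) fun h => e ?_
        rw [inv_mul_eq_one] at h
        exact h.symm
      push_cast at s
      have t3 := dist_triangle (dl (4 ^ k) (rep c) * dl (4 ^ k * 40) κ) h
        (dl (4 ^ k) (rep c) * dl (4 ^ k * 40) κ')
      beta_reduce
      linarith
  linarith

end Pool.Agent.H29.Heis
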