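import Pool.Agent.H29.Heis1
import Pool.Agent.H29.Heis2

set_option autoImplicit false

namespace Pool.Agent.H29.Heis

open Function Set

lemma geo_sum (n : ℕ) : ∑ i ∈ Finset.range n, (64 : ℝ) ^ i ≤ 64 ^ n / 63 := by
  induction n with
  | zero => simp
  | succ n ih => rw [Finset.sum_range_succ, pow_succ]; linarith

lemma geo_hasSum (D : ℝ) : HasSum (fun i : ℕ => D * (1 / 64 : ℝ) ^ i) (D * (64 / 63)) := by
  have := (hasSum_geometric_of_lt_one (r := (1 / 64 : ℝ)) (by norm_num) (by norm_num)).mul_left D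
  have e : (1 - 1 / 64 : ℝ)⁻¹ = 64 / 63 := by norm_num
  rwa [e] at this

lemma tsum_abs_le {a : ℕ → ℝ} {D : ℝ} (h : ∀ i, |a i| ≤ D * (1 / 64) ^ i) :
    Summable a ∧ |∑' i, a i| ≤ D * (64 / 63) :=
  ⟨Summable.of_norm_bounded (geo_hasSum D).summable h,
    tsum_of_norm_bounded (f := a) (geo_hasSum D) h⟩

lemma tsum_ge {a : ℕ → ℝ} {D w : ℝ} (n : ℕ) (hw : 0 < w) (h : ∀ i, |a i| ≤ D / w * (1 / 64) ^ i)
    (h' : ∀ i, |a i| ≤ 80 * w * 64 ^ i) (hD : D ≤ 32 * (w * 64 ^ n) ^ 2)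
    (hn : 4 * (w * 64 ^ n) ≤ a n) : 2 * (w * 64 ^ n) ≤ ∑' i, a i := by
  have hs := (tsum_abs_le h).1
  rw [← hs.sum_add_tsum_nat_add (n + 1), Finset.sum_range_succ]
  have b1 : -(80 * w * (64 ^ n / 63)) ≤ ∑ i ∈ Finset.range n, a i := by
    have e1 : ∑ i ∈ Finset.range n, -(80 * w * 64 ^ i) ≤ ∑ i ∈ Finset.range n, a i :=
      Finset.sum_le_sum fun i _ => (abs_le.1 (h' i)).1
    rw [Finset.sum_neg_distrib, ← Finset.mul_sum] at e1
    have := geo_sum n
    nlinarith
  have b2 : |∑' i, a (i + (n + 1))| ≤ D / w * (1 / 64) ^ (n + 1) * (64 / 63) := by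
    refine (tsum_abs_le fun i => ?_).2
    refine (h _).trans (le_of_eq ?_)
    ring
  have b3 : D / w * (1 / 64) ^ (n + 1) * (64 / 63) ≤ 32 / 63 * (w * 64 ^ n) := by
    have e : D / w * (1 / 64) ^ (n + 1) * (64 / 63) = D / (63 * (w * 64 ^ n)) := by
      field_simp
      rw [pow_succ, one_div, inv_pow]
      field_simp
    rw [e, div_le_iff₀ (by positivity)]
    nlinarith
  have := (abs_le.1 (b2.trans b3)).1
  have hp : 0 < w * 64 ^ n := by positivity
  nlinarith

noncomputable def av (j : ℕ) (c : Col) (g h : HH) (i : ℕ) : ℝ :=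
  (ph (6 * i + j) c g - ph (6 * i + j) c h) / 2 ^ (6 * i + j)

lemma pw (i j : ℕ) : (2 : ℝ) ^ (6 * i + j) = 2 ^ j * 64 ^ i := by
  rw [pow_add, pow_mul]; norm_num [mul_comm]

lemma pw4 (k : ℕ) : (4 : ℝ) ^ k = (2 ^ k) ^ 2 := by
  rw [← pow_mul, mul_comm, pow_mul]; norm_num

lemma av_le (j : ℕ) (c : Col) (g h : HH) (i : ℕ) :
    |av j c g h i| ≤ dist g h / 2 ^ j * (1 / 64) ^ i := by
  rw [av, abs_div, abs_of_pos (by positivity : (0 : ℝ) < 2 ^ (6 * i + j)),
    div_le_iff₀ (by positivity), pw]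
  refine (ph_lip _ c g h).trans (le_of_eq ?_)
  rw [one_div, inv_pow]
  field_simp

lemma av_le' (j : ℕ) (c : Col) (g h : HH) (i : ℕ) :
    |av j c g h i| ≤ 80 * 2 ^ j * 64 ^ i := by
  rw [av, abs_div, abs_of_pos (by positivity : (0 : ℝ) < 2 ^ (6 * i + j)),
    div_le_iff₀ (by positivity)]
  refine (ph_bd _ c g h).trans (le_of_eq ?_)
  rw [pw4, pw]
  ring

noncomputable def Ph (j : ℕ) (c : Col) (g : HH) : ℝ := ∑' i, av j c g 1 i

lemma Ph_sub (j : ℕ) (c : Col) (g h : HH) : Ph j c g - Ph j c h = ∑' i, av j c g h i := by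
  rw [Ph, Ph, ← (tsum_abs_le (av_le j c g 1)).1.tsum_sub (tsum_abs_le (av_le j c h 1)).1]
  congr 1
  funext i
  simp only [av]
  ring

lemma Ph_lip (j : ℕ) (c : Col) (g h : HH) : |Ph j c g - Ph j c h| ≤ 2 * dist g h := by
  rw [Ph_sub]
  refine (tsum_abs_le (av_le j c g h)).2.trans ?_
  have h1 : dist g h / 2 ^ j ≤ dist g h :=
    div_le_self dist_nonneg (one_le_pow₀ (by norm_num))
  have := @dist_nonneg _ _ g h
  linarith

lemma Ph_sep (g h : HH) (hd : 8 ≤ dist g h) : ∃ (j : Fin 6) (c : Col),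
    2 ≤ Ph j c h - Ph j c g := by
  obtain ⟨k, h1, h2⟩ := exists_nat_pow_near (x := dist g h / 8) (y := (4 : ℝ))
    (by rw [le_div_iff₀ (by norm_num)]; linarith) (by norm_num)
  rw [le_div_iff₀ (by norm_num)] at h1
  rw [div_lt_iff₀ (by norm_num), pow_succ] at h2
  obtain ⟨c, hc⟩ := ph_sep k g h (by linarith) (by linarith)
  refine ⟨⟨k % 6, Nat.mod_lt _ (by norm_num)⟩, c, ?_⟩
  rw [Ph_sub]
  have hk : 6 * (k / 6) + k % 6 = k := Nat.div_add_mod k 6
  have e : (2 : ℝ) ^ (k % 6) * 64 ^ (k / 6) = 2 ^ k := by rw [← pw, hk]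
  have := tsum_ge (a := av (k % 6) c h g) (D := dist h g) (w := 2 ^ (k % 6)) (k / 6)
    (by positivity) (av_le _ c h g) (av_le' _ c h g) ?_ ?_
  · rw [e] at this
    have h3 : (1 : ℝ) ≤ 2 ^ k := one_le_pow₀ (by norm_num)
    simp only
    linarith
  · rw [e, ← pw4, dist_comm]; linarith
  · rw [e, av, hk, le_div_iff₀ (by positivity)]
    rw [pw4] at hc
    linarith

noncomputable def col (g : HH) : Col := (colour g).choose

lemma col_sep {g h : HH} (e : col g = col h) (hne : g ≠ h) : 40 ≤ dist g h := by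
  obtain ⟨κ, h1⟩ := (colour g).choose_spec
  obtain ⟨κ', h2⟩ := (colour h).choose_spec
  change g = rep (col g) * _ at h1
  change h = rep (col h) * _ at h2
  rw [← e] at h2
  have : dist g h = N (dl 40 (κ⁻¹ * κ')) := by
    rw [dl_mul, dl_inv, dist_eq]
    generalize col g = c at h1 h2
    rw [h1, h2]
    simp [mul_assoc]
  rw [this]
  refine (dl_sep (q := 40) (by norm_num) fun h0 => hne ?_).trans' (by norm_num)
  rw [inv_mul_eq_one] at h0
  rw [h1, h2, h0]

abbrev Idx : Type := (Fin 6 × Col) ⊕ Fin 3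

noncomputable def io (g : HH) : Idx → ℤ :=
  Sum.elim (fun p => ⌊Ph p.1 p.2 g⌋) ![((col g).1 : ℕ), ((col g).2.1 : ℕ), ((col g).2.2 : ℕ)]

lemma io_inj : Injective io := by
  intro g h e
  by_contra hne
  have e1 : col g = col h := by
    have a := congrFun e (Sum.inr 0)
    have b := congrFun e (Sum.inr 1)
    have c := congrFun e (Sum.inr 2)
    simp [io] at a b c
    exact Prod.ext (Fin.ext a) (Prod.ext (Fin.ext b) (Fin.ext c))
  obtain ⟨j, c, hc⟩ := Ph_sep g h (by linarith [col_sep e1 hne])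
  have a := congrFun e (Sum.inl (j, c))
  simp only [io, Sum.elim_inl] at a
  have b1 := Int.floor_le (Ph j c h)
  have b2 := Int.lt_floor_add_one (Ph j c h)
  have b3 := Int.floor_le (Ph j c g)
  rw [a] at b3
  linarith

lemma io_lip (g h : HH) (t : Idx) : |((io g t - io h t : ℤ) : ℝ)| ≤ 2 * dist g h + 1600 := by
  have hd := @dist_nonneg _ _ g h
  rcases t with ⟨j, c⟩ | t
  · simp only [io, Sum.elim_inl]
    have b1 := Int.floor_le (Ph j c h)
    have b2 := Int.lt_floor_add_one (Ph j c h)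
    have b3 := Int.floor_le (Ph j c g)
    have b4 := Int.lt_floor_add_one (Ph j c g)
    have := abs_le.1 (Ph_lip j c g h)
    push_cast
    rw [abs_le]
    constructor <;> linarith
  · have : |io g (Sum.inr t) - io h (Sum.inr t)| ≤ 1600 := by
      have a1 := (col g).1.2
      have a2 := (col g).2.1.2
      have a3 := (col g).2.2.2
      have b1 := (col h).1.2
      have b2 := (col h).2.1.2
      have b3 := (col h).2.2.2
      fin_cases t <;> simp [io, abs_le] <;> omega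
    have : |((io g (Sum.inr t) - io h (Sum.inr t) : ℤ) : ℝ)| ≤ 1600 := by exact_mod_cast this
    linarith

theorem wobble : ∃ d : ℕ, 2 ≤ d ∧ ∃ ρ : HH →* Equiv.Perm (Fin d → ℤ), Injective ρ ∧
    ∃ B : HH → Finset (Fin d → ℤ), ∀ g v, ρ g v - v ∈ B g := by
  classical
  let e := Fintype.equivFin Idx
  have hd : 2 ≤ Fintype.card Idx := by simp
  let ι : HH ↪ (Fin (Fintype.card Idx) → ℤ) :=
    ⟨fun g t => io g (e.symm t), fun g h hgh => io_inj (by
      funext t
      simpa using congrFun hgh (e t))⟩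
  let r : HH →* Equiv.Perm HH :=
    { toFun := fun g => Equiv.mulRight g⁻¹
      map_one' := by ext1; simp
      map_mul' := by intro g h; ext1; simp [mul_assoc] }
  have hr : Injective r := by
    intro g h e
    have := congrArg (fun f : Equiv.Perm HH => f 1) e
    simpa [r] using this
  refine ⟨_, hd, (Equiv.Perm.viaEmbeddingHom ι).comp r,
    (Equiv.Perm.viaEmbeddingHom_injective ι).comp hr,
    fun g => Fintype.piFinset fun _ => Finset.Icc (-⌈2 * N g + 1600⌉) ⌈2 * N g + 1600⌉, ?_⟩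
  intro g v
  simp only [Fintype.mem_piFinset, Finset.mem_Icc, ← abs_le, MonoidHom.comp_apply,
    Equiv.Perm.viaEmbeddingHom_apply]
  intro t
  have h0 : 0 ≤ 2 * N g + 1600 := by linarith [N_nonneg g]
  by_cases hv : v ∈ range ι
  · obtain ⟨h, rfl⟩ := hv
    rw [Equiv.Perm.viaEmbedding_apply]
    have := io_lip (h * g⁻¹) h (e.symm t)
    rw [dist_eq] at this
    simp only [mul_inv_rev, inv_inv, inv_mul_cancel_right] at this
    have h2 := this.trans (Int.le_ceil _)
    exact_mod_cast h2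
  · rw [Equiv.Perm.viaEmbedding_apply_of_notMem _ _ _ hv]
    simpa using Int.ceil_nonneg h0

def gen : Fin 3 → HH := ![⟨1, 0, 0⟩, ⟨0, 1, 0⟩, ⟨0, 0, 1⟩]

lemma gen_top : Subgroup.closure (range gen) = ⊤ := by
  have key : ∀ f : ℤ → HH, (∀ m n, f (m + n) = f m * f n) → f 1 ∈ range gen →
      ∀ n, f n ∈ Subgroup.closure (range gen) := by
    intro f hf h1 n
    have h0 : f 0 = 1 := by simpa using hf 0 0
    have h1' := Subgroup.subset_closure h1
    induction n using Int.induction_on with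
    | zero => rw [h0]; exact one_mem _
    | succ n ih => rw [hf]; exact mul_mem ih h1'
    | pred n ih =>
      have : f (-n - 1) = f (-n) * (f 1)⁻¹ := by
        rw [eq_mul_inv_iff_mul_eq, ← hf]; simp
      rw [this]
      exact mul_mem ih (inv_mem h1')
  rw [eq_top_iff]
  intro g _
  have a := key (fun n => ⟨n, 0, 0⟩) (fun m n => by ext <;> simp) ⟨0, rfl⟩ g.x
  have b := key (fun n => ⟨0, n, 0⟩) (fun m n => by ext <;> simp) ⟨1, rfl⟩ g.y
  have c := key (fun n => ⟨0, 0, n⟩) (fun m n => by ext <;> simp) ⟨2, rfl⟩ g.z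
  have : g = (⟨0, 0, g.z⟩ : HH) * ⟨0, g.y, 0⟩ * ⟨g.x, 0, 0⟩ := by ext <;> simp
  rw [this]
  exact mul_mem (mul_mem c b) a

end Pool.Agent.H29.Heis
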