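import Mathlib

namespace Pool.Agent.H29.Her
open Set MeasureTheory

abbrev E2 := EuclideanSpace ℝ (Fin 2)
abbrev E3 := EuclideanSpace ℝ (Fin 3)

def T : Set E2 := {y | 0 ≤ y 0 ∧ 0 ≤ y 1 ∧ y 0 + y 1 ≤ 1}
def K : Set E3 := {x | 0 ≤ x 0 ∧ 0 ≤ x 1 ∧ 0 ≤ x 2 ∧ x 0 + x 1 + x 2 ≤ 1}

lemma not_int {E : Type*} [NormedAddCommGroup E] [NormedSpace ℝ E] {S : Set E} {y : E} (v : E)
    (h : ∀ t : ℝ, 0 < t → y + t • v ∉ S) : y ∉ interior S := by
  intro hi
  have hc : Continuous fun t : ℝ => y + t • v := by fun_prop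
  have h1 : (fun t : ℝ => y + t • v) ⁻¹' interior S ∈ nhds (0 : ℝ) :=
    (isOpen_interior.preimage hc).mem_nhds (by simpa using hi)
  obtain ⟨ε, hε, h2⟩ := Metric.mem_nhds_iff.1 h1
  have h3 : ε / 2 ∈ Metric.ball (0 : ℝ) ε := by
    rw [Metric.mem_ball, Real.dist_eq, abs_lt]; constructor <;> linarith
  exact h _ (by linarith) (interior_subset (h2 h3))

lemma T_closed : IsClosed T := by
  simp only [T, ofPred_and]
  refine IsClosed.inter ?_ (IsClosed.inter ?_ ?_) <;> exact isClosed_le (by fun_prop) (by fun_prop)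

lemma K_closed : IsClosed K := by
  simp only [K, ofPred_and]
  refine IsClosed.inter ?_ (IsClosed.inter ?_ (IsClosed.inter ?_ ?_)) <;>
    exact isClosed_le (by fun_prop) (by fun_prop)

lemma T_int {y : E2} (h0 : 0 < y 0) (h1 : 0 < y 1) (h2 : y 0 + y 1 < 1) : y ∈ interior T := by
  have : IsOpen {y : E2 | 0 < y 0 ∧ 0 < y 1 ∧ y 0 + y 1 < 1} := by
    simp only [ofPred_and]
    refine IsOpen.inter ?_ (IsOpen.inter ?_ ?_) <;> exact isOpen_lt (by fun_prop) (by fun_prop)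
  exact interior_maximal (s := T) (t := {y : E2 | 0 < y 0 ∧ 0 < y 1 ∧ y 0 + y 1 < 1})
    (fun z hz => show z ∈ T from ⟨hz.1.le, hz.2.1.le, hz.2.2.le⟩) this ⟨h0, h1, h2⟩

lemma K_int {x : E3} (h0 : 0 < x 0) (h1 : 0 < x 1) (h2 : 0 < x 2) (h3 : x 0 + x 1 + x 2 < 1) :
    x ∈ interior K := by
  have : IsOpen {x : E3 | 0 < x 0 ∧ 0 < x 1 ∧ 0 < x 2 ∧ x 0 + x 1 + x 2 < 1} := by
    simp only [ofPred_and]
    refine IsOpen.inter ?_ (IsOpen.inter ?_ (IsOpen.inter ?_ ?_)) <;>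
      exact isOpen_lt (by fun_prop) (by fun_prop)
  exact interior_maximal (s := K)
    (t := {x : E3 | 0 < x 0 ∧ 0 < x 1 ∧ 0 < x 2 ∧ x 0 + x 1 + x 2 < 1})
    (fun z hz => show z ∈ K from ⟨hz.1.le, hz.2.1.le, hz.2.2.1.le, hz.2.2.2.le⟩) this ⟨h0, h1, h2, h3⟩

lemma K_convex : Convex ℝ K := by
  rintro x ⟨a0, a1, a2, a3⟩ y ⟨b0, b1, b2, b3⟩ a b ha hb hab
  simp only [K, mem_setOf_eq, PiLp.add_apply, PiLp.smul_apply, smul_eq_mul]
  refine ⟨by positivity, by positivity, by positivity, ?_⟩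
  nlinarith [mul_le_mul_of_nonneg_left a3 ha, mul_le_mul_of_nonneg_left b3 hb]

lemma K_compact : IsCompact K := by
  refine Metric.isCompact_of_isClosed_isBounded K_closed
    ((Metric.isBounded_closedBall (x := (0 : E3)) (r := 1)).subset ?_)
  rintro x ⟨a0, a1, a2, a3⟩
  rw [mem_closedBall_zero_iff, EuclideanSpace.norm_eq, Fin.sum_univ_three]
  apply Real.sqrt_le_iff.2
  simp only [Real.norm_eq_abs, sq_abs]
  exact ⟨zero_le_one, by nlinarith [mul_nonneg a0 a1, mul_nonneg a0 a2, mul_nonneg a1 a2]⟩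

noncomputable def a0 : E2 := !₂[1, 0]
noncomputable def a1 : E2 := !₂[0, 1]

lemma seg0 {y : E2} : y ∈ segment ℝ 0 a0 ↔ 0 ≤ y 0 ∧ y 0 ≤ 1 ∧ y 1 = 0 := by
  constructor
  · rintro ⟨a, b, ha, hb, hab, rfl⟩
    simp [a0, hb]; linarith
  · rintro ⟨h0, h1, h2⟩
    refine ⟨1 - y 0, y 0, by linarith, h0, by ring, ?_⟩
    ext i; fin_cases i <;> simp [a0, h2]

lemma seg1 {y : E2} : y ∈ segment ℝ 0 a1 ↔ 0 ≤ y 1 ∧ y 1 ≤ 1 ∧ y 0 = 0 := by
  constructor
  · rintro ⟨a, b, ha, hb, hab, rfl⟩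
    simp [a1, hb]; linarith
  · rintro ⟨h0, h1, h2⟩
    refine ⟨1 - y 1, y 1, by linarith, h0, by ring, ?_⟩
    ext i; fin_cases i <;> simp [a1, h2]

lemma seg2 {y : E2} : y ∈ segment ℝ a0 a1 ↔ 0 ≤ y 0 ∧ 0 ≤ y 1 ∧ y 0 + y 1 = 1 := by
  constructor
  · rintro ⟨a, b, ha, hb, hab, rfl⟩
    simp [a0, a1, ha, hb, hab]
  · rintro ⟨h0, h1, h2⟩
    refine ⟨y 0, y 1, h0, h1, h2, ?_⟩
    ext i; fin_cases i <;> simp [a0, a1]

lemma frT : frontier T = (segment ℝ 0 a0 ∪ segment ℝ 0 a1) ∪ segment ℝ a0 a1 := by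
  ext y
  rw [T_closed.frontier_eq, mem_union, mem_union, seg0, seg1, seg2]
  constructor
  · rintro ⟨⟨h0, h1, h2⟩, hi⟩
    rcases h0.eq_or_lt with k0 | k0
    · exact Or.inl (Or.inr ⟨h1, by linarith, k0.symm⟩)
    rcases h1.eq_or_lt with k1 | k1
    · exact Or.inl (Or.inl ⟨h0, by linarith, k1.symm⟩)
    rcases h2.eq_or_lt with k2 | k2
    · exact Or.inr ⟨h0, h1, k2⟩
    exact absurd (T_int k0 k1 k2) hi
  · rintro ((⟨h0, h1, h2⟩ | ⟨h0, h1, h2⟩) | ⟨h0, h1, h2⟩)
    · refine ⟨⟨h0, h2.ge, by linarith⟩, not_int (-a1) fun t ht hh => ?_⟩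
      have := hh.2.1
      simp [a1, h2] at this
      linarith
    · refine ⟨⟨h2.ge, h0, by linarith⟩, not_int (-a0) fun t ht hh => ?_⟩
      have := hh.1
      simp [a0, h2] at this
      linarith
    · refine ⟨⟨h0, h1, h2.le⟩, not_int a0 fun t ht hh => ?_⟩
      have := hh.2.2
      simp [a0] at this
      linarith

lemma perT : (μH[1] (frontier T)).toReal = 2 + Real.sqrt 2 := by
  haveI := Measure.noAtoms_hausdorff E2 (one_pos : (0 : ℝ) < 1)
  have m : ∀ a b : E2, NullMeasurableSet (segment ℝ a b) μH[1] := fun a b => by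
    rw [segment_eq_image]
    exact (isCompact_Icc.image (by fun_prop)).measurableSet.nullMeasurableSet
  have d1 : AEDisjoint μH[1] (segment ℝ 0 a0) (segment ℝ 0 a1) := by
    refine measure_mono_null (t := {0}) ?_ (measure_singleton _)
    rintro y ⟨h1, h2⟩
    rw [seg0] at h1; rw [seg1] at h2
    ext i; fin_cases i <;> simp [h1.2.2, h2.2.2]
  have d2 : AEDisjoint μH[1] (segment ℝ 0 a0 ∪ segment ℝ 0 a1) (segment ℝ a0 a1) := by
    refine measure_mono_null (t := {a0, a1}) ?_ ((toFinite _).measure_zero _)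
    rintro y ⟨h1 | h1, h2⟩
    · rw [seg0] at h1; rw [seg2] at h2
      left
      have : y 0 = 1 := by linarith [h1.2.2, h2.2.2]
      ext i; fin_cases i <;> simp [a0, h1.2.2, this]
    · rw [seg1] at h1; rw [seg2] at h2
      right
      have : y 1 = 1 := by linarith [h1.2.2, h2.2.2]
      ext i; fin_cases i <;> simp [a1, h1.2.2, this]
  rw [frT, measure_union₀ (m _ _) d2, measure_union₀ (m _ _) d1, hausdorffMeasure_segment,
    hausdorffMeasure_segment, hausdorffMeasure_segment, edist_dist, edist_dist, edist_dist,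
    ← ENNReal.ofReal_add dist_nonneg dist_nonneg,
    ← ENNReal.ofReal_add (by positivity) dist_nonneg, ENNReal.toReal_ofReal (by positivity)]
  simp only [EuclideanSpace.dist_eq, Fin.sum_univ_two, a0, a1, Real.dist_eq, sq_abs]
  norm_num

lemma volT : volume T ≤ ENNReal.ofReal (51 / 100) := by
  have mp : MeasurePreserving (fun y : E2 => (y 0, y 1)) volume volume :=
    (volume_preserving_finTwoArrow ℝ).comp (PiLp.volume_preserving_ofLp (Fin 2))
  have hm : MeasurableSet (regionBetween (fun _ : ℝ => (-1 / 200 : ℝ)) (fun x => 201 / 200 - x)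
      (Icc 0 1)) := measurableSet_regionBetween (by fun_prop) (by fun_prop) measurableSet_Icc
  have sub : T ⊆ (fun y : E2 => (y 0, y 1)) ⁻¹' regionBetween (fun _ : ℝ => (-1 / 200 : ℝ))
      (fun x => 201 / 200 - x) (Icc 0 1) := by
    rintro y ⟨h0, h1, h2⟩
    exact ⟨⟨h0, by linarith⟩, by simp only; linarith, by simp only; linarith⟩
  refine (measure_mono sub).trans ?_
  rw [mp.measure_preimage hm.nullMeasurableSet, Measure.volume_eq_prod,
    volume_regionBetween_eq_integral (Continuous.integrableOn_Icc (by fun_prop))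
      (Continuous.integrableOn_Icc (by fun_prop)) measurableSet_Icc
      (fun x hx => by linarith [hx.2])]
  apply ENNReal.ofReal_le_ofReal
  rw [integral_Icc_eq_integral_Ioc, ← intervalIntegral.integral_of_le zero_le_one]
  simp only [Pi.sub_apply]
  rw [intervalIntegral.integral_sub (Continuous.intervalIntegrable (by fun_prop) _ _) (by simp),
    intervalIntegral.integral_sub (by simp) (by simp)]
  norm_num [integral_id]

noncomputable def L (u v : E3) : E2 →ₗ[ℝ] E3 where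
  toFun y := y 0 • u + y 1 • v
  map_add' x y := by simp only [PiLp.add_apply]; module
  map_smul' c x := by simp only [PiLp.smul_apply, smul_eq_mul, RingHom.id_apply]; module

lemma area (u v : E3) (c : ℝ) (hc : 0 ≤ c)
    (h : inner ℝ u u * inner ℝ v v - inner ℝ u v * inner ℝ v u ≤ c ^ 2) :
    μHE[2] (L u v '' T) ≤ ENNReal.ofReal (c * (51 / 100)) := by
  have k := (L u v).euclideanHausdorffMeasure_image_eq_normDet_mul_volume T
  have g := (L u v).normDet_sq_eq_det_gram (EuclideanSpace.basisFun (Fin 2) ℝ)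
  rw [Matrix.det_fin_two] at g
  simp only [Matrix.gram_apply, L, LinearMap.coe_mk, AddHom.coe_mk] at g
  simp at g
  have hd : (L u v).normDet ≤ c := by
    apply (abs_le_of_sq_le_sq' _ hc).2
    simp only [L]
    rw [g]
    simpa using h
  simp only [finrank_euclideanSpace, Fintype.card_fin] at k
  rw [k, ENNReal.ofReal_mul hc]
  exact mul_le_mul' (ENNReal.ofReal_le_ofReal hd) volT

noncomputable def b0 : E3 := !₂[1, 0, 0]
noncomputable def b1 : E3 := !₂[0, 1, 0]
noncomputable def b2 : E3 := !₂[0, 0, 1]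

lemma frK : frontier K ⊆ ((L b1 b2 '' T ∪ L b0 b2 '' T) ∪ L b0 b1 '' T) ∪
    (fun x => b0 + x) '' (L (b1 - b0) (b2 - b0) '' T) := by
  rw [K_closed.frontier_eq]
  rintro x ⟨⟨h0, h1, h2, h3⟩, hi⟩
  rcases h0.eq_or_lt with k0 | k0
  · refine Or.inl (Or.inl (Or.inl ⟨!₂[x 1, x 2], ⟨by simpa, by simpa, by simp; linarith⟩, ?_⟩))
    ext i; fin_cases i <;> simp [L, b1, b2, ← k0]
  rcases h1.eq_or_lt with k1 | k1
  · refine Or.inl (Or.inl (Or.inr ⟨!₂[x 0, x 2], ⟨by simpa, by simpa, by simp; linarith⟩, ?_⟩))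
    ext i; fin_cases i <;> simp [L, b0, b2, ← k1]
  rcases h2.eq_or_lt with k2 | k2
  · refine Or.inl (Or.inr ⟨!₂[x 0, x 1], ⟨by simpa, by simpa, by simp; linarith⟩, ?_⟩)
    ext i; fin_cases i <;> simp [L, b0, b1, ← k2]
  rcases h3.eq_or_lt with k3 | k3
  · refine Or.inr ⟨_, ⟨!₂[x 1, x 2], ⟨by simpa, by simpa, by simp; linarith⟩, rfl⟩, ?_⟩
    ext i; fin_cases i <;> simp [L, b0, b1, b2]
    linarith
  exact absurd (K_int k0 k1 k2 k3) hi

lemma surfK' : μHE[2] (frontier K) ≤ ENNReal.ofReal (243 / 100) := by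
  have e1 := area b1 b2 1 zero_le_one (by simp [b1, b2, PiLp.inner_apply, Fin.sum_univ_three, -inner_self_eq_norm_sq_to_K])
  have e2 := area b0 b2 1 zero_le_one (by simp [b0, b2, PiLp.inner_apply, Fin.sum_univ_three, -inner_self_eq_norm_sq_to_K])
  have e3 := area b0 b1 1 zero_le_one (by simp [b0, b1, PiLp.inner_apply, Fin.sum_univ_three, -inner_self_eq_norm_sq_to_K])
  have e4 := area (b1 - b0) (b2 - b0) (7 / 4) (by norm_num)
    (by simp [b0, b1, b2, PiLp.inner_apply, Fin.sum_univ_three, -inner_self_eq_norm_sq_to_K]; norm_num)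
  rw [← (isometry_add_left b0).euclideanHausdorffMeasure_image] at e4
  refine (measure_mono frK).trans ((measure_union_le _ _).trans ?_)
  refine (add_le_add ((measure_union_le _ _).trans (add_le_add ((measure_union_le _ _).trans
    (add_le_add e1 e2)) e3)) e4).trans ?_
  rw [← ENNReal.ofReal_add (by norm_num) (by norm_num),
    ← ENNReal.ofReal_add (by norm_num) (by norm_num),
    ← ENNReal.ofReal_add (by norm_num) (by norm_num)]
  exact ENNReal.ofReal_le_ofReal (by norm_num)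

lemma surfK : (μHE[2] (frontier K)).toReal ≤ 243 / 100 :=
  ENNReal.toReal_le_of_le_ofReal (by norm_num) surfK'

end Pool.Agent.H29.Her
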