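import Mathlib

set_option autoImplicit false

namespace Pool.Agent.H29.Herm

open Classical Polynomial

theorem key (α β t : ℝ) (hβ : β ≠ 0) (hn : α ^ 2 + β ^ 2 ≤ 1)
    (h : |t - α| < |t ^ 2 / 2 - (3 * α ^ 2 - β ^ 2) / 6|) :
    ∃ z : Fin 2 → ℂ, (∀ j, ‖z j‖ ≤ 1) ∧ (∀ j, (z j).re = α) ∧
    (∀ w : ℂ, w.im ≠ 0 →
      (Finset.univ.filter (fun j => z j = w)).card =
        (Finset.univ.filter (fun j => z j = starRingEnd ℂ w)).card) ∧
    (∀ w : ℂ, w.im = 0 → Even (Finset.univ.filter (fun j => z j = w)).card) ∧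
    ∃ g : ℂ → ℂ, ∃ p : Polynomial ℂ,
        Differentiable ℂ g ∧
        (∀ w : ℂ, ‖w‖ ≤ 1 → ‖iteratedDeriv 2 g w‖ ≤ 1) ∧
        p.degree < ((2 : ℕ) : WithBot ℕ) ∧
        (∀ j : Fin 2, ∀ i : ℕ, i < (Finset.univ.filter (fun l => z l = z j)).card →
          iteratedDeriv i (fun x => p.eval x) (z j) = iteratedDeriv i g (z j)) ∧
        ‖iteratedDeriv 1 (fun x => (∏ j : Fin 2, (Polynomial.X - Polynomial.C (z j))).eval x) (t : ℂ)‖
          / ((2 : ℕ).factorial : ℝ) <
        ‖iteratedDeriv 1 g t - iteratedDeriv 1 (fun x => p.eval x) t‖ := by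
  let a : ℂ := ⟨α, β⟩
  let b : ℂ := ⟨α, -β⟩
  have hab : a ≠ b := fun e => hβ (by have := congrArg Complex.im e; simp [a, b] at this; linarith)
  have hc : starRingEnd ℂ a = b := rfl
  have hc' : starRingEnd ℂ b = a := by rw [← hc, Complex.conj_conj]
  have na : ‖a‖ ≤ 1 := by
    rw [Complex.norm_eq_sqrt_sq_add_sq]
    exact Real.sqrt_le_one.2 hn
  have hd : deriv (fun x : ℂ => x ^ 3 / 6) = fun x => x ^ 2 / 2 := by
    funext x
    simp
    ring
  have hd2 : deriv (fun x : ℂ => x ^ 2 / 2) = fun x => x := by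
    funext x
    simp
  refine ⟨![a, b], ?_, ?_, fun w hw => ?_, fun w hw => ?_, fun x => x ^ 3 / 6,
    C (((3 * α ^ 2 - β ^ 2) / 6 : ℝ) : ℂ) * X + C ((-(α * (α ^ 2 + β ^ 2)) / 3 : ℝ) : ℂ),
    by fun_prop, fun w hw => ?_, ?_, fun j i hi => ?_, ?_⟩
  · intro j
    fin_cases j
    · exact na
    · simpa [← hc] using na
  · intro j
    fin_cases j <;> rfl
  · simp only [Finset.card_filter, Fin.sum_univ_two, Matrix.cons_val_zero, Matrix.cons_val_one]
    have e1 : a = starRingEnd ℂ w ↔ b = w :=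
      ⟨fun e => by rw [← hc, e, Complex.conj_conj], fun e => by rw [← e, hc']⟩
    have e2 : b = starRingEnd ℂ w ↔ a = w :=
      ⟨fun e => by rw [← hc', e, Complex.conj_conj], fun e => by rw [← e, hc]⟩
    simp only [e1, e2]
    rw [add_comm]
    congr
  · rw [Finset.filter_eq_empty_iff.2]
    · simp
    · intro j _ e
      rw [← e] at hw
      fin_cases j <;> simp [a, b, hβ] at hw
  · rw [iteratedDeriv_succ, iteratedDeriv_one, hd, hd2]
    exact hw
  · exact (degree_linear_le).trans_lt (by norm_num)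
  · have : i = 0 := by
      rw [Finset.card_filter, Fin.sum_univ_two] at hi
      fin_cases j <;> simp [hab, hab.symm] at hi <;> omega
    subst this
    fin_cases j <;> simp [a, b, Complex.ext_iff, pow_succ] <;> constructor <;> ring
  · simp only [iteratedDeriv_one, Polynomial.deriv, hd, Fin.prod_univ_two]
    simp only [Matrix.cons_val_zero, Matrix.cons_val_one, derivative_mul, derivative_sub,
      derivative_X, derivative_C, derivative_add]
    simp only [eval_add, eval_mul, eval_sub, eval_one, eval_zero, eval_X, eval_C]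
    have e1 : (1 - 0) * ((t : ℂ) - b) + (t - a) * (1 - 0) = ((2 * (t - α) : ℝ) : ℂ) := by
      simp [a, b, Complex.ext_iff]
      ring
    have e2 : (t : ℂ) ^ 2 / 2 - (0 * t + (((3 * α ^ 2 - β ^ 2) / 6 : ℝ) : ℂ) * 1 + 0) =
        ((t ^ 2 / 2 - (3 * α ^ 2 - β ^ 2) / 6 : ℝ) : ℂ) := by
      push_cast
      ring
    rw [e1, e2, Complex.norm_real, Complex.norm_real, Real.norm_eq_abs, Real.norm_eq_abs, abs_mul]
    norm_num [Nat.factorial]
    exact h

end Pool.Agent.H29.Herm
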