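import Mathlib

set_option autoImplicit false
open Filter Topology Set Asymptotics

namespace Pool.Agent.H29.Holder

theorem deriv_bdd (u : ℝ → ℝ) (hu : Differentiable ℝ u) :
    ∃ x K, ∀ᶠ y in 𝓝 x, |deriv u y| ≤ K := by
  let F : ℕ → Set ℝ := fun K => {x | ∀ h : ℝ, |h| ≤ 1 / ((K : ℝ) + 1) → |u (x + h) - u x| ≤ K * |h|}
  have hc : ∀ K, IsClosed (F K) := by
    intro K
    simp only [F, setOf_forall]
    refine isClosed_iInter fun h => isClosed_iInter fun _ => isClosed_le ?_ continuous_const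
    have := hu.continuous
    fun_prop
  have hU : ⋃ K, F K = univ := by
    refine eq_univ_of_forall fun x => ?_
    obtain ⟨C, hC⟩ := (hu x).isBigO_sub.bound
    obtain ⟨ε, hε, h⟩ := Metric.eventually_nhds_iff.1 hC
    obtain ⟨K, hK⟩ := exists_nat_gt (max C (1 / ε))
    refine mem_iUnion.2 ⟨K, fun t ht => ?_⟩
    have h1 : 1 / ((K : ℝ) + 1) < ε := by
      rw [div_lt_iff₀ (by positivity)]
      have := (le_max_right _ _).trans_lt hK
      rw [div_lt_iff₀ hε] at this
      nlinarith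
    have h2 := h (y := x + t) (by simpa [Real.dist_eq] using ht.trans_lt h1)
    simp only [add_sub_cancel_left, Real.norm_eq_abs] at h2
    exact h2.trans (mul_le_mul_of_nonneg_right ((le_max_left _ _).trans hK.le) (abs_nonneg _))
  obtain ⟨K, x, hx⟩ := nonempty_interior_of_iUnion_of_closed hc hU
  refine ⟨x, K, ?_⟩
  filter_upwards [mem_interior_iff_mem_nhds.1 hx] with y hy
  have := (hu y).hasDerivAt.le_of_lip' (C := K) (by positivity) (by
    filter_upwards [Metric.ball_mem_nhds y (show 0 < 1 / ((K : ℝ) + 1) by positivity)] with z hz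
    have := hy (z - y) (by simpa [Real.dist_eq] using (Metric.mem_ball.1 hz).le)
    simpa using this)
  simpa using this

def R (p : ℝ → ℝ) (j : ℕ) : Subalgebra ℝ (ℝ → ℝ) :=
  Algebra.adjoin ℝ {q | ∃ i ≤ j, q = iteratedDeriv i p}

theorem R_mono (p : ℝ → ℝ) (j : ℕ) : R p j ≤ R p (j + 1) :=
  Algebra.adjoin_mono fun _ ⟨i, hi, h⟩ => ⟨i, by omega, h⟩

theorem R_deriv (p : ℝ → ℝ) (j : ℕ) (hp : ∀ i ≤ j, Differentiable ℝ (iteratedDeriv i p))
    (G : ℝ → ℝ) (hG : G ∈ R p j) : Differentiable ℝ G ∧ deriv G ∈ R p (j + 1) := by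
  induction hG using Algebra.adjoin_induction with
  | mem x hx =>
    obtain ⟨i, hi, rfl⟩ := hx
    exact ⟨hp i hi, Algebra.subset_adjoin ⟨i + 1, by omega, iteratedDeriv_succ.symm⟩⟩
  | algebraMap r =>
    refine ⟨differentiable_const r, ?_⟩
    have : deriv (algebraMap ℝ (ℝ → ℝ) r) = 0 := by
      ext x; exact deriv_const x r
    rw [this]; exact zero_mem _
  | add x y _ _ h1 h2 =>
    refine ⟨h1.1.add h2.1, ?_⟩
    have : deriv (x + y) = deriv x + deriv y := by
      ext t; exact deriv_add (h1.1 t) (h2.1 t)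
    rw [this]; exact add_mem h1.2 h2.2
  | mul x y hx hy h1 h2 =>
    refine ⟨h1.1.mul h2.1, ?_⟩
    have : deriv (x * y) = deriv x * y + x * deriv y := by
      ext t; exact deriv_mul (h1.1 t) (h2.1 t)
    rw [this]
    exact add_mem (mul_mem h1.2 (R_mono p j hy)) (mul_mem (R_mono p j hx) h2.2)

theorem R_bdd (p : ℝ → ℝ) (j : ℕ) (x : ℝ)
    (hp : ∀ i ≤ j, iteratedDeriv i p =O[𝓝 x] fun _ => (1 : ℝ))
    (G : ℝ → ℝ) (hG : G ∈ R p j) : G =O[𝓝 x] fun _ => (1 : ℝ) := by
  induction hG using Algebra.adjoin_induction with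
  | mem x hx => obtain ⟨i, hi, rfl⟩ := hx; exact hp i hi
  | algebraMap r => exact isBigO_const_const r one_ne_zero _
  | add x y _ _ h1 h2 => exact h1.add h2
  | mul x y _ _ h1 h2 => simpa using h1.mul h2

theorem pow_form (f : ℝ → ℝ) (c : ℝ) (n : ℕ) (hp : ∀ i < n, Differentiable ℝ (iteratedDeriv i f))
    (j k : ℕ) (hj : j ≤ n) : ∃ G ∈ R f j,
      iteratedDeriv j (fun x => (f x - c) ^ (j + k)) = fun x => (f x - c) ^ k * G x := by
  induction j generalizing k with
  | zero => exact ⟨1, one_mem _, by simp⟩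
  | succ j ih =>
    obtain ⟨G, hG, he⟩ := ih (k + 1) (by omega)
    obtain ⟨h1, h2⟩ := R_deriv f j (fun i hi => hp i (by omega)) G hG
    have hf : f ∈ R f (j + 1) := Algebra.subset_adjoin ⟨0, by omega, by simp⟩
    have hf' : deriv f ∈ R f (j + 1) := Algebra.subset_adjoin ⟨1, by omega, by simp⟩
    have hd : Differentiable ℝ f := by simpa using hp 0 (by omega)
    refine ⟨((k : ℝ) + 1) • (deriv f * G) + (f - algebraMap ℝ _ c) * deriv G,
      add_mem (Subalgebra.smul_mem _ (mul_mem hf' (R_mono f j hG)) _)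
        (mul_mem (sub_mem hf (algebraMap_mem _ _)) h2), ?_⟩
    rw [iteratedDeriv_succ, show j + 1 + k = j + (k + 1) by ring, he]
    ext x
    have := ((((hd x).hasDerivAt.sub_const c).pow (k + 1)).mul (h1 x).hasDerivAt).deriv
    refine Eq.trans this ?_
    simp [pow_succ]; ring

theorem main (f : ℝ → ℝ) (n : ℕ) (hn : 1 ≤ n) (hp : ∀ i < n, Differentiable ℝ (iteratedDeriv i f)) :
    ∃ x c : ℝ, (fun y => iteratedDeriv n (fun t => (f t - c) ^ (n + 1) - (-c) ^ (n + 1)) y
      - iteratedDeriv n (fun t => (f t - c) ^ (n + 1) - (-c) ^ (n + 1)) x) =O[𝓝 x] fun y => y - x := by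
  obtain ⟨m, rfl⟩ : ∃ m, n = m + 1 := ⟨n - 1, by omega⟩
  obtain ⟨x, K, hx⟩ := deriv_bdd _ (hp m (by omega))
  refine ⟨x, f x, ?_⟩
  obtain ⟨G, hG, he⟩ := pow_form f (f x) (m + 1) hp (m + 1) 1 le_rfl
  have h1 : iteratedDeriv (m + 1) (fun t => (f t - f x) ^ (m + 1 + 1) - (-f x) ^ (m + 1 + 1))
      = fun y => (f y - f x) ^ 1 * G y := by
    rw [← he, iteratedDeriv_succ', iteratedDeriv_succ']
    congr 1
    ext t; exact deriv_sub_const _
  rw [h1]
  have h2 := R_bdd f (m + 1) x (fun i hi => by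
    rcases hi.lt_or_eq with h | rfl
    · exact (hp i h).continuous.continuousAt.isBigO_one ℝ
    · rw [iteratedDeriv_succ]
      exact IsBigO.of_bound K (by simpa using hx)) G hG
  have hd : Differentiable ℝ f := by simpa using hp 0 (by omega)
  simpa using (hd x).isBigO_sub.mul h2

end Pool.Agent.H29.Holder
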