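import Pool.Agent.H29.Laguerre

set_option autoImplicit false

namespace Pool.Agent.H29.Hurwitz

open Polynomial Pool.Agent.H29.Laguerre

theorem refl_aux (n : ℕ) : ∀ p : ℂ[X], p.natDegree = n →
    (∀ z : ℂ, p.eval z = 0 → z.re < 0) → ∀ x y : ℝ, 0 ≤ x →
    Complex.normSq (p.eval ⟨-x, y⟩) ≤ Complex.normSq (p.eval ⟨x, y⟩) := by
  induction n with
  | zero =>
    intro p hp _ x y _
    rw [eq_C_of_natDegree_eq_zero hp]
    simp
  | succ n ih =>
    intro p hp hr x y hx
    have hp0 : p ≠ 0 := by
      rintro rfl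
      simp at hp
    have hdeg : p.degree ≠ 0 := by
      rw [degree_eq_natDegree hp0, hp]
      exact_mod_cast Nat.succ_ne_zero n
    obtain ⟨z, hz⟩ := IsAlgClosed.exists_root _ hdeg
    have hre := hr z hz
    obtain ⟨q, hq⟩ := dvd_iff_isRoot.mpr hz
    have hq0 : q ≠ 0 := by
      rintro rfl
      simp at hq
      exact hp0 hq
    have hqd : q.natDegree = n := by
      rw [hq, natDegree_mul (X_sub_C_ne_zero _) hq0, natDegree_X_sub_C] at hp
      omega
    have := ih q hqd (fun w hw => hr w (by rw [hq, eval_mul, hw, mul_zero])) x y hx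
    rw [hq]
    simp only [eval_mul, eval_sub, eval_X, eval_C, map_mul]
    apply mul_le_mul _ this (Complex.normSq_nonneg _) (Complex.normSq_nonneg _)
    simp only [Complex.normSq_apply, Complex.sub_re, Complex.sub_im]
    nlinarith

theorem sum_tuple2 {M : Type} [AddCommMonoid M] (n : ℕ) (F : (Fin 2 → ℕ) → M) :
    ∑ k ∈ Finset.Nat.antidiagonalTuple 2 n, F k =
      ∑ a ∈ Finset.range (n + 1), F ![a, n - a] := by
  symm
  refine Finset.sum_nbij' (fun p => ![p, n - p]) (fun k => k 0) ?_ ?_ ?_ ?_ ?_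
  · intro a h
    simp only [Finset.mem_range] at h
    simp only [Finset.Nat.mem_antidiagonalTuple, Fin.sum_univ_two]
    simp
    omega
  · intro k h
    simp only [Finset.Nat.mem_antidiagonalTuple, Fin.sum_univ_two] at h
    simp only [Finset.mem_range]
    omega
  · intro a _
    simp
  · intro k h
    simp only [Finset.Nat.mem_antidiagonalTuple, Fin.sum_univ_two] at h
    funext i
    fin_cases i <;> simp
    omega
  · intro _ _
    rfl

theorem poch_aeval (k : ℕ) (c : ℝ) (z : ℂ) :
    aeval z ((ascPochhammer ℝ k).comp (X + C c)) = ∏ i ∈ Finset.range k, (z + c + i) := by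
  rw [aeval_comp, ← eval_map_algebraMap, ascPochhammer_map, poch_eval]
  simp

/-- the sequence -/
def F (k : ℕ) : ℕ := if k = 0 then 1 else min (99 + k) 107

noncomputable def f (k : ℤ) : ℝ := if 0 ≤ k ∧ k ≤ 16 then (F k.toNat : ℝ) else 0

theorem F_lc' : ∀ i j k : Fin 17, (i.1 < j.1 ∧ i.1 < k.1 ∧ j.1 + k.1 - i.1 ≤ 16) →
    F i.1 * F (j.1 + k.1 - i.1) ≤ F j.1 * F k.1 := by decide +kernel

theorem F_lc : ∀ i < 17, ∀ j < 17, ∀ k < 17, i < j → i < k → j + k - i ≤ 16 →
    F i * F (j + k - i) ≤ F j * F k := fun i hi j hj k hk h1 h2 h3 =>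
  F_lc' ⟨i, hi⟩ ⟨j, hj⟩ ⟨k, hk⟩ ⟨h1, h2, h3⟩

theorem f_nonneg (k : ℤ) : 0 ≤ f k := by
  unfold f
  split_ifs
  · positivity
  · exact le_rfl

theorem f_lc (i j k l : ℤ) (h1 : i < j) (h2 : i < k) (h3 : i + l = j + k) :
    f i * f l ≤ f j * f k := by
  by_cases h : 0 ≤ i ∧ l ≤ 16
  · have := F_lc i.toNat (by omega) j.toNat (by omega) k.toNat (by omega) (by omega) (by omega)
      (by omega)
    have e : j.toNat + k.toNat - i.toNat = l.toNat := by omega
    rw [e] at this
    unfold f
    rw [if_pos (by omega), if_pos (by omega), if_pos (by omega), if_pos (by omega)]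
    exact_mod_cast this
  · have h0 : f i * f l = 0 := by
      unfold f
      by_cases hi : 0 ≤ i
      · rw [if_neg (c := 0 ≤ l ∧ l ≤ 16) (by omega), mul_zero]
      · rw [if_neg (c := 0 ≤ i ∧ i ≤ 16) (by omega), zero_mul]
    rw [h0]
    exact mul_nonneg (f_nonneg _) (f_nonneg _)

theorem f_nat (k : ℕ) (hk : k ≤ 16) : f (k : ℤ) = F k := by
  unfold f
  rw [if_pos (by omega)]
  simp

theorem P16 (z : ℂ) :
    aeval z (∑ k ∈ Finset.Nat.antidiagonalTuple 2 16,
      Polynomial.C ((Nat.multinomial Finset.univ k : ℝ) * ∏ i, f ((k i : ℕ) : ℤ)) *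
      (Matrix.of fun (i j : Fin 2) => (ascPochhammer ℝ (k i)).comp
        (Polynomial.X + Polynomial.C (((j : ℕ) : ℝ) - ((i : ℕ) : ℝ)))).det) =
      51360 * (4315325414400 + 14115857575680 * z + 19735876797120 * z ^ 2 +
        15944521053552 * z ^ 3 + 8459769984848 * z ^ 4 + 3175051695816 * z ^ 5 +
        887943956900 * z ^ 6 + 192709708191 * z ^ 7 + 33431585759 * z ^ 8 +
        4689848163 * z ^ 9 + 524238715 * z ^ 10 + 44692557 * z ^ 11 + 2695693 * z ^ 12 +
        101241 * z ^ 13 + 1765 * z ^ 14) := by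
  rw [sum_tuple2, map_sum]
  have e : ∀ a ∈ Finset.range (16 + 1),
      aeval z (Polynomial.C ((Nat.multinomial Finset.univ ![a, 16 - a] : ℝ) *
        ∏ i, f ((![a, 16 - a] i : ℕ) : ℤ)) *
      (Matrix.of fun (i j : Fin 2) => (ascPochhammer ℝ (![a, 16 - a] i)).comp
        (Polynomial.X + Polynomial.C (((j : ℕ) : ℝ) - ((i : ℕ) : ℝ)))).det) =
      (((a + (16 - a)).factorial / (a.factorial * (16 - a).factorial) * (F a * F (16 - a)) : ℕ) : ℂ)
       * ((∏ i ∈ Finset.range a, (z + i)) * (∏ i ∈ Finset.range (16 - a), (z + i)) -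
         (∏ i ∈ Finset.range a, (z + 1 + i)) * (∏ i ∈ Finset.range (16 - a), (z - 1 + i))) := by
    intro a ha
    rw [Finset.mem_range] at ha
    rw [Matrix.det_fin_two]
    simp only [Nat.multinomial, Fin.sum_univ_two, Fin.prod_univ_two, Matrix.of_apply,
      Matrix.cons_val_zero, Matrix.cons_val_one, map_mul (aeval z : ℝ[X] →ₐ[ℝ] ℂ), map_sub (aeval z : ℝ[X] →ₐ[ℝ] ℂ),
      poch_aeval, aeval_C,
      f_nat a (by omega), f_nat (16 - a) (by omega)]
    simp [sub_eq_add_neg]
  rw [Finset.sum_congr rfl e]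
  simp only [Finset.sum_range_succ, Finset.sum_range_zero, Finset.prod_range_succ,
    Finset.prod_range_zero, Nat.reduceAdd, Nat.reduceSub]
  norm_num [Nat.factorial, F]
  ring

theorem valA (z : ℂ) (hz : z = ⟨4 / 5, 63 / 10⟩) :
    Complex.normSq (51360 * (4315325414400 + 14115857575680 * z + 19735876797120 * z ^ 2 + 15944521053552 * z ^ 3 + 8459769984848 * z ^ 4 + 3175051695816 * z ^ 5 + 887943956900 * z ^ 6 + 192709708191 * z ^ 7 + 33431585759 * z ^ 8 + 4689848163 * z ^ 9 + 524238715 * z ^ 10 + 44692557 * z ^ 11 + 2695693 * z ^ 12 + 101241 * z ^ 13 + 1765 * z ^ 14)) =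
      (68603822229587067163388795836826939431665077168099075312301 / 15625000000000000000000) := by
  have p1 : z ^ 1 = ⟨(4 / 5), (63 / 10)⟩ := by
    rw [pow_one, hz]
  have p2 : z ^ 2 = ⟨(-781 / 20), (252 / 25)⟩ := by
    rw [pow_succ, p1, hz]
    apply Complex.ext <;> simp only [Complex.mul_re, Complex.mul_im] <;> norm_num
  have p3 : z ^ 3 = ⟨(-11843 / 125), (-237951 / 1000)⟩ := by
    rw [pow_succ, p2, hz]
    apply Complex.ext <;> simp only [Complex.mul_re, Complex.mul_im] <;> norm_num
  have p4 : z ^ 4 = ⟨(14232961 / 10000), (-98406 / 125)⟩ := by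
    rw [pow_succ, p3, hz]
    apply Complex.ext <;> simp only [Complex.mul_re, Complex.mul_im] <;> norm_num
  have p5 : z ^ 5 = ⟨(76228741 / 12500), (833696703 / 100000)⟩ := by
    rw [pow_succ, p4, hz]
    apply Complex.ext <;> simp only [Complex.mul_re, Complex.mul_im] <;> norm_num
  have p6 : z ^ 6 = ⟨(-9528850573 / 200000), (2818053693 / 62500)⟩ := by
    rw [pow_succ, p5, hz]
    apply Complex.ext <;> simp only [Complex.mul_re, Complex.mul_im] <;> norm_num
  have p7 : z ^ 7 = ⟨(-402719018183 / 1250000), (-2640877057791 / 10000000)⟩ := by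
    rw [pow_succ, p6, hz]
    apply Complex.ext <;> simp only [Complex.mul_re, Complex.mul_im] <;> norm_num
  have p8 : z ^ 8 = ⟨(140601237477121 / 100000000), (-700304380083 / 312500)⟩ := by
    rw [pow_succ, p7, hz]
    apply Complex.ext <;> simp only [Complex.mul_re, Complex.mul_im] <;> norm_num
  have p9 : z ^ 9 = ⟨(1905368275286281 / 125000000), (7065098748046143 / 1000000000)⟩ := by
    rw [pow_succ, p8, hz]
    apply Complex.ext <;> simp only [Complex.mul_re, Complex.mul_im] <;> norm_num
  have p10 : z ^ 10 = ⟨(-12926306060343401 / 400000000), (63551650045540923 / 625000000)⟩ := by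
    rw [pow_succ, p9, hz]
    apply Complex.ext <;> simp only [Complex.mul_re, Complex.mul_im] <;> norm_num
  have p11 : z ^ 11 = ⟨(-8330665557246741323 / 12500000000), (-12224320839211618431 / 100000000000)⟩ := by
    rw [pow_succ, p10, hz]
    apply Complex.ext <;> simp only [Complex.mul_re, Complex.mul_im] <;> norm_num
  have p12 : z ^ 12 = ⟨(236969617206540516481 / 1000000000000), (-26852812547287816089 / 6250000000)⟩ := by
    rw [pow_succ, p11, hz]
    apply Complex.ext <;> simp only [Complex.mul_re, Complex.mul_im] <;> norm_num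
  have p13 : z ^ 13 = ⟨(34071513426789188788621 / 1250000000000), (-19442514176516352055617 / 10000000000000)⟩ := by
    rw [pow_succ, p12, hz]
    apply Complex.ext <;> simp only [Complex.mul_re, Complex.mul_im] <;> norm_num
  have p14 : z ^ 14 = ⟨(681091050487007652395123 / 20000000000000), (1063531415855601270813753 / 6250000000000)⟩ := by
    rw [pow_succ, p13, hz]
    apply Complex.ext <;> simp only [Complex.mul_re, Complex.mul_im] <;> norm_num
  rw [p2, p3, p4, p5, p6, p7, p8, p9, p10, p11, p12, p13, p14, hz]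
  simp only [Complex.normSq_apply, Complex.mul_re, Complex.mul_im, Complex.add_re, Complex.add_im,
    Complex.re_ofNat, Complex.im_ofNat]
  norm_num

theorem valB (z : ℂ) (hz : z = ⟨-(4 / 5), 63 / 10⟩) :
    Complex.normSq (51360 * (4315325414400 + 14115857575680 * z + 19735876797120 * z ^ 2 + 15944521053552 * z ^ 3 + 8459769984848 * z ^ 4 + 3175051695816 * z ^ 5 + 887943956900 * z ^ 6 + 192709708191 * z ^ 7 + 33431585759 * z ^ 8 + 4689848163 * z ^ 9 + 524238715 * z ^ 10 + 44692557 * z ^ 11 + 2695693 * z ^ 12 + 101241 * z ^ 13 + 1765 * z ^ 14)) =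
      (16768596023955069878457443901980112295498210436206865946401097 / 3125000000000000000000) := by
  have p1 : z ^ 1 = ⟨(-4 / 5), (63 / 10)⟩ := by
    rw [pow_one, hz]
    apply Complex.ext <;> norm_num
  have p2 : z ^ 2 = ⟨(-781 / 20), (-252 / 25)⟩ := by
    rw [pow_succ, p1, hz]
    apply Complex.ext <;> simp only [Complex.mul_re, Complex.mul_im] <;> norm_num
  have p3 : z ^ 3 = ⟨(11843 / 125), (-237951 / 1000)⟩ := by
    rw [pow_succ, p2, hz]
    apply Complex.ext <;> simp only [Complex.mul_re, Complex.mul_im] <;> norm_num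
  have p4 : z ^ 4 = ⟨(14232961 / 10000), (98406 / 125)⟩ := by
    rw [pow_succ, p3, hz]
    apply Complex.ext <;> simp only [Complex.mul_re, Complex.mul_im] <;> norm_num
  have p5 : z ^ 5 = ⟨(-76228741 / 12500), (833696703 / 100000)⟩ := by
    rw [pow_succ, p4, hz]
    apply Complex.ext <;> simp only [Complex.mul_re, Complex.mul_im] <;> norm_num
  have p6 : z ^ 6 = ⟨(-9528850573 / 200000), (-2818053693 / 62500)⟩ := by
    rw [pow_succ, p5, hz]
    apply Complex.ext <;> simp only [Complex.mul_re, Complex.mul_im] <;> norm_num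
  have p7 : z ^ 7 = ⟨(402719018183 / 1250000), (-2640877057791 / 10000000)⟩ := by
    rw [pow_succ, p6, hz]
    apply Complex.ext <;> simp only [Complex.mul_re, Complex.mul_im] <;> norm_num
  have p8 : z ^ 8 = ⟨(140601237477121 / 100000000), (700304380083 / 312500)⟩ := by
    rw [pow_succ, p7, hz]
    apply Complex.ext <;> simp only [Complex.mul_re, Complex.mul_im] <;> norm_num
  have p9 : z ^ 9 = ⟨(-1905368275286281 / 125000000), (7065098748046143 / 1000000000)⟩ := by
    rw [pow_succ, p8, hz]
    apply Complex.ext <;> simp only [Complex.mul_re, Complex.mul_im] <;> norm_num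
  have p10 : z ^ 10 = ⟨(-12926306060343401 / 400000000), (-63551650045540923 / 625000000)⟩ := by
    rw [pow_succ, p9, hz]
    apply Complex.ext <;> simp only [Complex.mul_re, Complex.mul_im] <;> norm_num
  have p11 : z ^ 11 = ⟨(8330665557246741323 / 12500000000), (-12224320839211618431 / 100000000000)⟩ := by
    rw [pow_succ, p10, hz]
    apply Complex.ext <;> simp only [Complex.mul_re, Complex.mul_im] <;> norm_num
  have p12 : z ^ 12 = ⟨(236969617206540516481 / 1000000000000), (26852812547287816089 / 6250000000)⟩ := by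
    rw [pow_succ, p11, hz]
    apply Complex.ext <;> simp only [Complex.mul_re, Complex.mul_im] <;> norm_num
  have p13 : z ^ 13 = ⟨(-34071513426789188788621 / 1250000000000), (-19442514176516352055617 / 10000000000000)⟩ := by
    rw [pow_succ, p12, hz]
    apply Complex.ext <;> simp only [Complex.mul_re, Complex.mul_im] <;> norm_num
  have p14 : z ^ 14 = ⟨(681091050487007652395123 / 20000000000000), (-1063531415855601270813753 / 6250000000000)⟩ := by
    rw [pow_succ, p13, hz]
    apply Complex.ext <;> simp only [Complex.mul_re, Complex.mul_im] <;> norm_num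
  rw [p2, p3, p4, p5, p6, p7, p8, p9, p10, p11, p12, p13, p14, hz]
  simp only [Complex.normSq_apply, Complex.mul_re, Complex.mul_im, Complex.add_re, Complex.add_im,
    Complex.re_ofNat, Complex.im_ofNat]
  norm_num

end Pool.Agent.H29.Hurwitz
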