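import Mathlib

set_option autoImplicit false
open Filter Topology Set Polynomial

namespace Pool.Agent.H29.Hyper

theorem span_pow {K Q : Type} [Field K] [AddCommGroup Q] [Module K Q] (S : Module.End K Q) (v : Q)
    (p : K[X]) (h0 : aeval S p = 0) (d : ℕ) (hd : ∀ q : K[X], (q %ₘ p).natDegree < d) (n : ℕ) :
    (S ^ n) v ∈ Submodule.span K (range fun i : Fin d => (S ^ (i : ℕ)) v) := by
  have h1 : S ^ n = aeval S (X ^ n %ₘ p) := by
    rw [aeval_modByMonic_eq_self_of_root h0, map_pow, aeval_X]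
  rw [h1, aeval_eq_sum_range' (hd _), LinearMap.sum_apply]
  refine Submodule.sum_mem _ fun i hi => ?_
  rw [LinearMap.smul_apply]
  exact Submodule.smul_mem _ _ (Submodule.subset_span ⟨⟨i, Finset.mem_range.1 hi⟩, rfl⟩)

theorem span_top {K Q : Type} [RCLike K] [AddCommGroup Q] [Module K Q] [TopologicalSpace Q]
    [IsTopologicalAddGroup Q] [ContinuousSMul K Q] [T2Space Q] (S : Module.End K Q) (v : Q)
    (p : K[X]) (h0 : aeval S p = 0) (d : ℕ) (hd : ∀ q : K[X], (q %ₘ p).natDegree < d)
    (hv : DenseRange fun n : ℕ => (S ^ n) v) :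
    Submodule.span K (range fun i : Fin d => (S ^ (i : ℕ)) v) = ⊤ := by
  haveI := FiniteDimensional.span_of_finite K (finite_range fun i : Fin d => (S ^ (i : ℕ)) v)
  rw [eq_top_iff]
  intro w _
  exact hv.induction_on (p := fun w => w ∈ Submodule.span K (range fun i : Fin d => (S ^ (i : ℕ)) v))
    w (Submodule.closed_of_finiteDimensional
      (Submodule.span K (range fun i : Fin d => (S ^ (i : ℕ)) v))) (span_pow S v p h0 d hd)

theorem fin_triv {K Q : Type} [RCLike K] [AddCommGroup Q] [Module K Q] [TopologicalSpace Q]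
    [IsTopologicalAddGroup Q] [ContinuousSMul K Q] [T2Space Q] (S : Module.End K Q) (v : Q)
    (p : K[X]) (hp : p.Monic) (h0 : aeval S p = 0) (hv : DenseRange fun n : ℕ => (S ^ n) v) :
    Subsingleton Q := by
  have h1 := span_top S v p h0 (p.natDegree + 1)
    (fun q => Nat.lt_succ_of_le (natDegree_modByMonic_le q hp)) hv
  haveI : FiniteDimensional K Q := by
    have := FiniteDimensional.span_of_finite K
      (finite_range fun i : Fin (p.natDegree + 1) => (S ^ (i : ℕ)) v)
    rw [h1] at this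
    exact Module.Finite.equiv Submodule.topEquiv
  by_contra hne
  haveI : Nontrivial Q := not_subsingleton_iff_nontrivial.1 hne
  have hd : 0 < Module.finrank K Q := Module.finrank_pos
  have h2 := span_top S v S.charpoly S.aeval_self_charpoly (Module.finrank K Q) (fun q => by
    rw [← S.charpoly_natDegree]
    refine natDegree_modByMonic_lt q S.charpoly_monic fun h => ?_
    have := S.charpoly_natDegree
    rw [h, natDegree_one] at this
    omega) hv
  let b := Module.finBasis K Q
  let D : Q → K := fun w => b.det fun i => (S ^ (i : ℕ)) w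
  have hA : D v ≠ 0 := (b.is_basis_iff_det.1
    ⟨linearIndependent_of_top_le_span_of_card_eq_finrank h2.ge (by simp), h2⟩).ne_zero
  have hS : ∀ w, D (S w) = LinearMap.det S * D w := by
    intro w
    rw [← b.det_comp]
    simp only [D]
    congr 1
    ext i
    rw [Function.comp, ← Module.End.mul_apply, ← Module.End.mul_apply, ← pow_succ, ← pow_succ']
  have hn : ∀ n : ℕ, ‖D ((S ^ n) v)‖ = ‖LinearMap.det S‖ ^ n * ‖D v‖ := by
    intro n
    induction n with
    | zero => simp
    | succ n ih => rw [pow_succ', Module.End.mul_apply, hS, norm_mul, ih]; ring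
  have ht : ∀ t : K, D (t • v) = t ^ Module.finrank K Q * D v := by
    intro t
    simp only [D, map_smul]
    rw [AlternatingMap.map_smul_univ]
    simp
  have hc : Continuous fun w => ‖D w‖ := by
    refine Continuous.norm ?_
    simp only [D, Module.Basis.det_apply]
    refine Continuous.matrix_det (continuous_pi fun i => continuous_pi fun j => ?_)
    exact ((b.coord i).comp (S ^ (j : ℕ))).continuous_of_finiteDimensional
  have hpos : 0 < ‖D v‖ := norm_pos_iff.2 hA
  rcases le_total ‖LinearMap.det S‖ 1 with h | h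
  · have h3 := hv.induction_on (p := fun w => ‖D w‖ ≤ ‖D v‖) ((2 : K) • v)
      (isClosed_le hc continuous_const) (fun n => by
        rw [hn]; exact mul_le_of_le_one_left hpos.le (pow_le_one₀ (norm_nonneg _) h))
    rw [ht, norm_mul, norm_pow, RCLike.norm_two] at h3
    have : (1 : ℝ) < 2 ^ Module.finrank K Q := one_lt_pow₀ (by norm_num) hd.ne'
    nlinarith
  · have h3 := hv.induction_on (p := fun w => ‖D v‖ ≤ ‖D w‖) ((0 : K) • v)
      (isClosed_le continuous_const hc) (fun n => by
        rw [hn]; exact le_mul_of_one_le_left hpos.le (one_le_pow₀ h))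
    rw [ht, zero_pow hd.ne', zero_mul, norm_zero] at h3
    linarith

variable {K X : Type} [RCLike K] [AddCommGroup X] [Module K X]

theorem poly_hc [TopologicalSpace X] [IsTopologicalAddGroup X] [ContinuousSMul K X]
    (T : X →L[K] X) (x : X) (hx : DenseRange fun n : ℕ => T^[n] x) (p : K[X]) (hp : p ≠ 0) :
    DenseRange fun n : ℕ => T^[n] (aeval T p x) := by
  have hcomm : ∀ y, T (aeval T p y) = aeval T p (T y) := by
    intro y
    have : T * aeval T p = aeval T p * T := by
      simpa using congrArg (aeval T) (mul_comm Polynomial.X p)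
    exact DFunLike.congr_fun this y
  have hr : DenseRange (aeval T p) := by
    let L := (LinearMap.range (aeval T p).toLinearMap).topologicalClosure
    haveI : IsClosed (L : Set X) := Submodule.isClosed_topologicalClosure _
    have hL : L ≤ L.comap T.toLinearMap := by
      intro y hy
      refine map_mem_closure T.continuous hy ?_
      rintro _ ⟨z, rfl⟩
      exact ⟨T z, (hcomm z).symm⟩
    let S : Module.End K (X ⧸ L) := L.mapQ L T.toLinearMap hL
    have hpow : ∀ (n : ℕ) (y : X), (S ^ n) (L.mkQ y) = L.mkQ ((T ^ n) y) := by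
      intro n
      induction n with
      | zero => intro y; rfl
      | succ n ih => intro y; rw [pow_succ, pow_succ, Module.End.mul_apply]; exact ih (T y)
    have hae : ∀ (q : K[X]) (y : X), aeval S q (L.mkQ y) = L.mkQ (aeval T q y) := by
      intro q y
      induction q using Polynomial.induction_on' with
      | add p q h1 h2 => simp only [map_add, LinearMap.add_apply, ContinuousLinearMap.add_apply, h1, h2]
      | monomial n a =>
        simp only [aeval_monomial, Module.End.mul_apply, hpow, Module.algebraMap_end_apply,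
          ContinuousLinearMap.mul_apply, ContinuousLinearMap.algebraMap_apply, map_smul]
    have h0 : aeval S (p * C p.leadingCoeff⁻¹) = 0 := by
      have : aeval S p = 0 := by
        ext y
        simp only [LinearMap.comp_apply, hae, LinearMap.zero_apply]
        exact (Submodule.Quotient.mk_eq_zero L).2 (subset_closure ⟨y, rfl⟩)
      rw [map_mul, this, zero_mul]
    have hs := fin_triv S (L.mkQ x) _ (monic_mul_leadingCoeff_inv hp) h0 (by
      have := (L.mkQ_surjective.denseRange).comp hx continuous_quot_mk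
      refine this.mono ?_
      rintro _ ⟨n, rfl⟩
      exact ⟨n, by simp only [hpow, Function.comp, ContinuousLinearMap.coe_pow']⟩)
    intro y
    exact (Submodule.Quotient.mk_eq_zero L).1 (Subsingleton.elim _ _)
  refine (hr.comp hx (aeval T p).continuous).mono ?_
  rintro _ ⟨n, rfl⟩
  refine ⟨n, ?_⟩
  simp only [Function.comp]
  exact (Function.Commute.iterate_left (f := T) (g := aeval T p) hcomm n x)

theorem sum_hc [TopologicalSpace X] [IsTopologicalAddGroup X] [ContinuousSMul K X]
    (T : X →L[K] X) (x : X) (hx : DenseRange fun n : ℕ => T^[n] x) (F : Finset ℕ) (a : F → K)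
    (ha : a ≠ 0) : DenseRange fun n : ℕ => T^[n] (∑ m, a m • T^[m] x) := by
  have := poly_hc T x hx (∑ m : F, monomial m (a m)) (fun h => ha (by
    ext m
    have := congrArg (fun q => coeff q m) h
    simp only [finset_sum_coeff, coeff_monomial, coeff_zero, Subtype.val_inj] at this
    simpa using this))
  convert this using 3
  simp [aeval_monomial, ContinuousLinearMap.coe_pow']

section
variable [MetricSpace X] [IsTopologicalAddGroup X] [ContinuousSMul K X]
  (T : X →L[K] X) (x : X) (hx : DenseRange fun n : ℕ => T^[n] x)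

def U (j : ℕ) : Set X := Metric.ball (T^[j.unpair.1] x) (1 / ((j.unpair.2 : ℝ) + 1))

include hx

theorem dense_of (y : X) (h : ∀ j, ∃ N, T^[N] y ∈ U T x j) : DenseRange fun n : ℕ => T^[n] y := by
  rw [Metric.denseRange_iff] at hx ⊢
  intro z r hr
  obtain ⟨i, hi⟩ := hx z (r / 2) (by positivity)
  obtain ⟨k, hk⟩ := exists_nat_one_div_lt (show 0 < r / 2 by positivity)
  obtain ⟨N, hN⟩ := h (Nat.pair i k)
  simp only [U, Nat.unpair_pair, Metric.mem_ball] at hN
  refine ⟨N, ?_⟩
  linarith [dist_triangle_right z (T^[N] y) (T^[i] x), dist_comm (T^[N] y) (T^[i] x)]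

theorem tube (F : Finset ℕ) (n : ℕ) : ∃ δ > 0, ∀ y : F → X, (∀ m, dist (y m) (T^[m] x) ≤ δ) →
    ∀ a : F → K, 1 / ((n : ℝ) + 1) ≤ ‖a‖ → ‖a‖ ≤ n + 1 → ∀ j ≤ n,
      ∃ N, T^[N] (∑ m, a m • y m) ∈ U T x j := by
  have hK : IsCompact (Metric.closedBall (0 : F → K) (n + 1) ∩ {a | 1 / ((n : ℝ) + 1) ≤ ‖a‖}) :=
    (isCompact_closedBall _ _).inter_right (isClosed_le continuous_const continuous_norm)
  have h1 := hK.eventually_forall_of_forall_eventually (x₀ := fun m : F => T^[m] x)
    (P := fun y a => ∀ j ∈ Finset.range (n + 1), ∃ N, T^[N] (∑ m, a m • y m) ∈ U T x j) (by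
      intro a ha
      rw [Filter.eventually_all_finset]
      intro j _
      have ha0 : a ≠ 0 := by
        rintro rfl
        have := ha.2
        simp only [mem_setOf_eq, norm_zero] at this
        exact absurd this (not_le.2 (by positivity))
      obtain ⟨N, hN⟩ := (sum_hc T x hx F a ha0).exists_mem_open (s := U T x j) Metric.isOpen_ball
        ⟨_, Metric.mem_ball_self (by positivity)⟩
      have hc : Continuous fun z : (F → X) × (F → K) => T^[N] (∑ m, z.2 m • z.1 m) :=
        (T.continuous.iterate N).comp (by fun_prop)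
      filter_upwards [hc.continuousAt.eventually (Metric.isOpen_ball.mem_nhds hN)] with z hz
      exact ⟨N, hz⟩)
  obtain ⟨ε, hε, h2⟩ := Metric.eventually_nhds_iff.1 h1
  refine ⟨ε / 2, by positivity, fun y hy a h3 h4 j hj => ?_⟩
  refine h2 (((dist_pi_le_iff (by positivity)).2 hy).trans_lt (by linarith)) a
    ⟨by simpa using h4, h3⟩ j (Finset.mem_range.2 (by omega))

theorem tube' (F : Finset ℕ) (n : ℕ) : ∃ δ > 0, ∀ (κ : Type) (s : Finset κ) (e : κ → ℕ),
    InjOn e s → (∀ k ∈ s, e k ∈ F) → ∀ (v : κ → X) (a : κ → K),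
    (∀ k ∈ s, dist (v k) (T^[e k] x) ≤ δ) → (∀ k ∈ s, ‖a k‖ ≤ n + 1) →
    (∃ k ∈ s, 1 / ((n : ℝ) + 1) ≤ ‖a k‖) → ∀ j ≤ n,
      ∃ N, T^[N] (∑ k ∈ s, a k • v k) ∈ U T x j := by
  obtain ⟨δ, hδ, h⟩ := tube T x hx F n
  refine ⟨δ, hδ, fun κ s e he hF v a hv ha1 ha2 j hj => ?_⟩
  let e' : s → F := fun k => ⟨e k, hF k k.2⟩
  have he' : Function.Injective e' := fun k l h => Subtype.ext (he k.2 l.2 (congrArg Subtype.val h))
  have := h (Function.extend e' (fun k => v k) fun m => T^[m] x) (fun m => by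
      by_cases hm : ∃ k, e' k = m
      · obtain ⟨k, rfl⟩ := hm
        rw [he'.extend_apply]; exact hv k k.2
      · rw [Function.extend_apply' _ _ _ hm]; simpa using hδ.le)
    (Function.extend e' (fun k => a k) 0) (by
      obtain ⟨k, hk, h⟩ := ha2
      refine h.trans (le_trans (le_of_eq ?_) (norm_le_pi_norm _ (e' ⟨k, hk⟩)))
      rw [he'.extend_apply]) (by
      rw [pi_norm_le_iff_of_nonneg (by positivity)]
      intro m
      by_cases hm : ∃ k, e' k = m
      · obtain ⟨k, rfl⟩ := hm
        rw [he'.extend_apply]; exact ha1 k k.2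
      · rw [Function.extend_apply' _ _ _ hm]; simp only [Pi.zero_apply, norm_zero]; positivity) j hj
  rw [← Finset.sum_coe_sort s, Fintype.sum_of_injective e' he' _ (fun m =>
    Function.extend e' (fun k => a k) 0 m • Function.extend e' (fun k => v k) (fun m => T^[m] x) m)]
  · exact this
  · intro m hm
    rw [Function.extend_apply' _ _ _ hm]; simp
  · intro k
    rw [he'.extend_apply, he'.extend_apply]

theorem tail (y : X) (ε : ℝ) (hε : 0 < ε) (n : ℕ) :
    {m | n ≤ m ∧ dist (T^[m] x) y < ε}.Infinite := by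
  refine Set.infinite_of_forall_exists_gt fun k => ?_
  have h := poly_hc T x hx (Polynomial.X ^ (n + k + 1)) (pow_ne_zero _ X_ne_zero)
  obtain ⟨N, hN⟩ := Metric.denseRange_iff.1 h y ε hε
  refine ⟨N + (n + k + 1), ⟨by omega, ?_⟩, by omega⟩
  rw [dist_comm, Function.iterate_add_apply]
  simpa [ContinuousLinearMap.coe_pow'] using hN

theorem step (n : ℕ) (μ : (Fin n → Bool) → ℕ) (ε : ℝ) (hε : 0 < ε) :
    ∃ μ' : (Fin (n + 1) → Bool) → ℕ, Function.Injective μ' ∧ (∀ s, n + 1 ≤ μ' s) ∧
      ∀ s, dist (T^[μ' s] x) (T^[μ (Fin.init s)] x) < ε := by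
  classical
  have h := fun s : Fin (n + 1) → Bool => (tail T x hx (T^[μ (Fin.init s)] x) ε hε
    (n + 1)).exists_subset_card_eq (Fintype.card (Fin (n + 1) → Bool))
  choose t ht hc using h
  obtain ⟨f, hf, hm⟩ := (Finset.all_card_le_biUnion_card_iff_exists_injective t).1 (fun S => by
    rcases S.eq_empty_or_nonempty with rfl | ⟨s, hs⟩
    · simp
    · exact (S.card_le_univ.trans (hc s).ge).trans
        (Finset.card_le_card (Finset.subset_biUnion_of_mem t hs)))
  exact ⟨f, hf, fun s => (ht s (hm s)).1, fun s => (ht s (hm s)).2⟩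

theorem family [CompleteSpace X] : ∃ v : (ℕ → Bool) ⊕ ℕ → X, (∀ i, v (Sum.inr i) = T^[i] x) ∧
    ∀ (s : Finset ((ℕ → Bool) ⊕ ℕ)) (a : (ℕ → Bool) ⊕ ℕ → K), (∃ k ∈ s, a k ≠ 0) →
      DenseRange fun n : ℕ => T^[n] (∑ k ∈ s, a k • v k) := by
  classical
  choose δ hδ hP using tube' T x hx
  choose st h1 h2 h3 using step T x hx
  let Fs : ∀ n, ((Fin n → Bool) → ℕ) → Finset ℕ := fun n μ => Finset.univ.image μ ∪ Finset.range n
  let sq : ∀ n, ((Fin n → Bool) → ℕ) × {ε : ℝ // 0 < ε} := fun n => Nat.rec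
    (motive := fun n => ((Fin n → Bool) → ℕ) × {ε : ℝ // 0 < ε}) (fun _ => 0, ⟨1, one_pos⟩)
    (fun n q => (st n q.1 q.2 q.2.2, ⟨min (q.2 / 2) (δ (Fs _ (st n q.1 q.2 q.2.2)) (n + 1) / 2),
      lt_min (half_pos q.2.2) (half_pos (hδ _ _))⟩)) n
  have e1 : ∀ n, ((sq (n + 1)).2 : ℝ) ≤ (sq n).2 / 2 := fun n => min_le_left _ _
  have e2 : ∀ n, ((sq (n + 1)).2 : ℝ) ≤ δ (Fs _ (sq (n + 1)).1) (n + 1) / 2 := fun n => min_le_right _ _
  have e3 : ∀ n k, ((sq (n + k)).2 : ℝ) ≤ (sq n).2 / 2 ^ k := by
    intro n k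
    induction k with
    | zero => simp
    | succ k ih => rw [pow_succ, ← div_div]; exact (e1 (n + k)).trans (by linarith)
  let z : (ℕ → Bool) → ℕ → X := fun σ n => T^[(sq n).1 fun i => σ i] x
  have hz : ∀ σ n k, dist (z σ (n + k)) (z σ (n + (k + 1))) ≤ 2 * (sq n).2 / 2 / 2 ^ k := by
    intro σ n k
    rw [dist_comm, mul_div_cancel_left₀ _ two_ne_zero]
    exact (h3 (n + k) (sq (n + k)).1 _ (sq (n + k)).2.2 fun i => σ i).le.trans (e3 n k)
  have hl : ∀ σ, ∃ a, Tendsto (z σ) atTop (𝓝 a) := fun σ =>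
    cauchySeq_tendsto_of_complete (cauchySeq_of_le_geometric_two (C := 2 * (sq 0).2) (by
      simpa only [zero_add] using hz σ 0))
  choose w hw using hl
  have hd : ∀ σ n, dist (w σ) (z σ n) ≤ 2 * (sq n).2 := by
    intro σ n
    rw [dist_comm]
    exact dist_le_of_le_geometric_two_of_tendsto₀ (f := fun k => z σ (n + k)) (hz σ n)
      ((hw σ).comp (tendsto_atTop_mono (fun k => Nat.le_add_left k n) tendsto_id))
  refine ⟨Sum.elim w fun i => T^[i] x, fun _ => rfl, fun s a ⟨k0, hk0, ha⟩ => ?_⟩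
  refine dense_of T x hx _ fun j => ?_
  let e : ℕ → (ℕ → Bool) ⊕ ℕ → ℕ := fun n => Sum.elim (fun σ => (sq (n + 1)).1 fun i => σ i) id
  have g1 : ∀ᶠ n in atTop, ∀ k ∈ s, ∀ i, k = Sum.inr i → i < n + 1 := by
    rw [Filter.eventually_all_finset]
    rintro (σ | i) _
    · simp
    · filter_upwards [eventually_ge_atTop i] with n hn j hj
      cases hj; omega
  have g2 : ∀ᶠ n in atTop, ∀ k ∈ s, ∀ l ∈ s, ∀ σ τ, k = Sum.inl σ → l = Sum.inl τ →
      (fun i : Fin (n + 1) => σ i) = (fun i : Fin (n + 1) => τ i) → σ = τ := by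
    simp only [Filter.eventually_all_finset]
    rintro (σ | i) _ (τ | i) _ <;> try simp
    by_cases h : σ = τ
    · simp [h]
    · obtain ⟨i, hi⟩ := Function.ne_iff.1 h
      refine ⟨i, fun n hn h => absurd (congrFun h ⟨i, by omega⟩) hi⟩
  have g3 : ∀ᶠ n : ℕ in atTop, ∀ k ∈ s, ‖a k‖ ≤ ((n + 1 : ℕ) : ℝ) + 1 := by
    rw [Filter.eventually_all_finset]
    intro k _
    filter_upwards [tendsto_natCast_atTop_atTop.eventually_ge_atTop ‖a k‖] with n hn
    push_cast; linarith
  have g4 : ∀ᶠ n : ℕ in atTop, 1 / (((n + 1 : ℕ) : ℝ) + 1) ≤ ‖a k0‖ :=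
    ((tendsto_add_atTop_iff_nat 1).2 tendsto_one_div_add_atTop_nhds_zero_nat).eventually
      (ge_mem_nhds (norm_pos_iff.2 ha))
  obtain ⟨n, g1, g2, g3, g4, g5⟩ :=
    (g1.and (g2.and (g3.and (g4.and (eventually_ge_atTop j))))).exists
  refine hP (Fs _ (sq (n + 1)).1) (n + 1) _ s (e n) ?_ ?_ _ a ?_ g3 ⟨k0, hk0, g4⟩ j (by omega)
  · rintro (σ | i) hk (τ | i') hl h
    · exact congrArg Sum.inl (g2 _ hk _ hl σ τ rfl rfl (h1 _ _ _ _ h))
    · have := h2 n (sq n).1 _ (sq n).2.2 fun i => σ i
      have h4 := g1 _ hl i' rfl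
      have h5 : st n (sq n).1 _ (sq n).2.2 (fun i => σ i) = i' := h
      omega
    · have := h2 n (sq n).1 _ (sq n).2.2 fun i => τ i
      have h4 := g1 _ hk i rfl
      have h5 : i = st n (sq n).1 _ (sq n).2.2 (fun i => τ i) := h
      omega
    · exact congrArg Sum.inr h
  · rintro (σ | i) hk
    · exact Finset.mem_union_left _ (Finset.mem_image_of_mem _ (Finset.mem_univ _))
    · exact Finset.mem_union_right _ (Finset.mem_range.2 (g1 _ hk i rfl))
  · rintro (σ | i) hk
    · exact (hd σ (n + 1)).trans (by linarith [e2 n])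
    · simpa [e] using (hδ _ _).le

theorem main [CompleteSpace X] : ∃ M : Submodule K X, Dense (M : Set X) ∧
    (∀ y ∈ M, y ≠ 0 → Dense (Set.range fun n : ℕ => T^[n] y)) ∧
    Module.rank K M = Module.rank K X := by
  rcases subsingleton_or_nontrivial X with h | h
  · exact ⟨⊤, dense_univ, fun y _ hy => absurd (Subsingleton.elim _ _) hy, rank_top K X⟩
  obtain ⟨v, hv, hs⟩ := family T x hx
  have hli : LinearIndependent K v := by
    rw [linearIndependent_iff']
    intro s a h0 k hk
    by_contra ha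
    have h1 := hs s a ⟨k, hk, ha⟩
    rw [h0] at h1
    obtain ⟨y, hy⟩ := exists_ne (0 : X)
    obtain ⟨n, hn⟩ := h1.exists_mem_open isOpen_compl_singleton ⟨y, hy⟩
    exact hn (Function.iterate_fixed (map_zero T) n)
  refine ⟨Submodule.span K (range v), ?_, ?_, ?_⟩
  · refine Dense.mono ?_ hx
    rintro _ ⟨n, rfl⟩
    exact Submodule.subset_span ⟨Sum.inr n, hv n⟩
  · intro y hy hy0
    obtain ⟨c, rfl⟩ := Finsupp.mem_span_range_iff_exists_finsupp.1 hy
    refine hs c.support c ?_
    by_contra h1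
    push Not at h1
    exact hy0 (Finset.sum_eq_zero fun k hk => by simp [h1 k hk])
  · refine le_antisymm (Submodule.rank_le _) ?_
    rw [rank_span hli, Cardinal.mk_range_eq _ hli.injective]
    have hinj : Function.Injective fun (y : X) (n : ℕ) => dist y (T^[n] x) := by
      intro y z h
      refine eq_of_forall_dist_le fun ε hε => ?_
      obtain ⟨n, hn⟩ := Metric.denseRange_iff.1 hx y (ε / 2) (by positivity)
      have h2 : dist y (T^[n] x) = dist z (T^[n] x) := congrFun h n
      linarith [dist_triangle_right y z (T^[n] x)]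
    refine (rank_le_card K X).trans ((Cardinal.mk_le_of_injective hinj).trans ?_)
    simp [Cardinal.mk_real]

end

end Pool.Agent.H29.Hyper
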