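import Mathlib

set_option autoImplicit false

namespace Pool.Agent.H29.Injunct

open Function Set Filter Topology

abbrev Om := ℤ → Fin 5

def P (k : ℤ) : Prop := ∃ j : ℕ, k = 2 ^ j

lemma aper {t K : ℤ} (h : ∀ k ≥ K, P (k + t) ↔ P k) : t = 0 := by
  wlog ht : 0 < t generalizing t K
  · by_contra h0
    have := this (t := -t) (K := K + t) (fun k hk => by
      have := h (k + -t) (by omega)
      rw [neg_add_cancel_right] at this
      exact this.symm) (by omega)
    omega
  exfalso
  obtain ⟨j, hj⟩ : ∃ j : ℕ, max K t < 2 ^ j :=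
    ⟨(max K t).toNat, by
      have : ((max K t).toNat : ℤ) < 2 ^ (max K t).toNat := by exact_mod_cast Nat.lt_two_pow_self
      omega⟩
  obtain ⟨i, hi⟩ := (h (2 ^ j) (by omega)).2 ⟨j, rfl⟩
  have h1 : j < i := by
    by_contra hc
    have : (2 : ℤ) ^ i ≤ 2 ^ j := pow_le_pow_right₀ (by norm_num) (by omega)
    omega
  have : (2 : ℤ) ^ (j + 1) ≤ 2 ^ i := pow_le_pow_right₀ (by norm_num) h1
  rw [pow_succ] at this
  omega

open Classical in
noncomputable def lf (k : ℤ) : Fin 5 := if P k then 1 else 0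

open Classical in
noncomputable def rg (k : ℤ) : Fin 5 := if P k then 4 else 3

lemma lf_lt (k : ℤ) : lf k < 2 := by unfold lf; split_ifs <;> simp
lemma rg_gt (k : ℤ) : 2 < rg k := by unfold rg; split_ifs <;> simp

lemma lf_eq {a b : ℤ} (h : lf a = lf b) : P a ↔ P b := by
  by_cases c1 : P a <;> by_cases c2 : P b <;> simp_all [lf]

lemma rg_eq {a b : ℤ} (h : rg a = rg b) : P a ↔ P b := by
  by_cases c1 : P a <;> by_cases c2 : P b <;> simp_all [rg]

noncomputable def pt (k : ℤ) (n : ℕ) : Om := fun i =>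
  if i + k < 0 then lf (-(i + k)) else if i + k < n then 2 else rg (i + k - n)

def D : Set Om := {y | ∃ k n, y = pt k n}

def sh (k : ℤ) (x : Om) : Om := fun i => x (i + k)

lemma sh_cont (k : ℤ) : Continuous (sh k) := by unfold sh; fun_prop

lemma sh_pt (t k : ℤ) (n : ℕ) : sh t (pt k n) = pt (t + k) n := by
  funext i
  simp only [sh, pt, add_assoc]

lemma sh_sh (s t : ℤ) (x : Om) : sh s (sh t x) = sh (s + t) x := by
  funext i
  simp only [sh, add_assoc]

lemma sh_zero (x : Om) : sh 0 x = x := by funext i; simp [sh]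

lemma sh_mem (t : ℤ) {x : Om} (hx : x ∈ closure D) : sh t x ∈ closure D :=
  map_mem_closure (sh_cont t) hx (by rintro _ ⟨k, n, rfl⟩; exact ⟨_, _, sh_pt _ _ _⟩)

lemma pt_lt {k i : ℤ} {n : ℕ} : pt k n i < 2 ↔ i + k < 0 := by
  have := lf_lt (-(i + k))
  have := rg_gt (i + k - n)
  unfold pt
  split_ifs <;> omega

lemma pt_gt {k i : ℤ} {n : ℕ} : 2 < pt k n i ↔ n ≤ i + k := by
  have := lf_lt (-(i + k))
  have := rg_gt (i + k - n)
  unfold pt
  split_ifs <;> omega

lemma fin_U (i j : ℤ) : (closure D ∩ {y | y i < 2 ∧ 2 < y j}).Finite ∧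
    closure D ∩ {y | y i < 2 ∧ 2 < y j} ⊆ D := by
  have hU : IsOpen {y : Om | y i < 2 ∧ 2 < y j} :=
    (isOpen_discrete {p : Fin 5 × Fin 5 | p.1 < 2 ∧ 2 < p.2}).preimage
      (f := fun y : Om => (y i, y j)) (by fun_prop)
  have hF : (D ∩ {y : Om | y i < 2 ∧ 2 < y j}).Finite := by
    refine (((Set.finite_Icc (-j) (-i)).prod (Set.finite_Iic (j - i).toNat)).image
      fun p => pt p.1 p.2).subset ?_
    rintro _ ⟨⟨k, n, rfl⟩, h1, h2⟩
    rw [pt_lt] at h1
    rw [pt_gt] at h2
    exact ⟨(k, n), ⟨⟨by simp only; omega, by simp only; omega⟩, by simp only [mem_Iic]; omega⟩, rfl⟩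
  have := hU.closure_inter (s := D)
  rw [hF.isClosed.closure_eq] at this
  exact ⟨hF.subset this, this.trans inter_subset_left⟩

lemma locality {X : Set Om} (hX : IsClosed X) {f : Om → Om} (hf : ContinuousOn f X) :
    ∃ r : ℕ, ∀ x ∈ X, ∀ y ∈ X, (∀ t : ℤ, |t| ≤ r → x t = y t) → f x 0 = f y 0 := by
  have hc : ContinuousOn (fun p : Om × Om => (f p.1 0, f p.2 0)) (X ×ˢ X) :=
    ContinuousOn.prodMk
      ((continuous_apply 0).comp_continuousOn (hf.comp continuousOn_fst fun p hp => hp.1))
      ((continuous_apply 0).comp_continuousOn (hf.comp continuousOn_snd fun p hp => hp.2))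
  have hK := (hc.preimage_isClosed_of_isClosed (hX.prod hX)
    (isClosed_discrete {p : Fin 5 × Fin 5 | p.1 ≠ p.2})).isCompact
  obtain ⟨r, hr⟩ := hK.elim_directed_cover
    (fun r : ℕ => {p : Om × Om | ∃ t : ℤ, |t| ≤ r ∧ p.1 t ≠ p.2 t}) (fun r => by
      simp only [setOf_exists]
      refine isOpen_iUnion fun t => IsOpen.and isOpen_const ?_
      exact isOpen_ne_fun (by fun_prop) (by fun_prop)) (by
      rintro ⟨x, y⟩ ⟨-, h⟩
      have : x ≠ y := by rintro rfl; exact h rfl
      obtain ⟨t, ht⟩ := Function.ne_iff.1 this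
      exact mem_iUnion.2 ⟨t.natAbs, t, by simp, ht⟩)
    (Monotone.directed_le fun a b hab p ⟨t, h1, h2⟩ =>
      ⟨t, h1.trans (by exact_mod_cast hab), h2⟩)
  refine ⟨r, fun x hx y hy h => ?_⟩
  by_contra hne
  obtain ⟨t, h1, h2⟩ := @hr (x, y) ⟨⟨hx, hy⟩, hne⟩
  exact h2 (h t h1)

theorem injunct (f : Om → Om) (h1 : MapsTo f (closure D) (closure D))
    (h2 : ContinuousOn f (closure D)) (h3 : ∀ x ∈ closure D, f (sh 1 x) = sh 1 (f x))
    (h4 : SurjOn f (closure D) (closure D)) : InjOn f (closure D) := by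
  have hD : ∀ k n, pt k n ∈ closure D := fun k n => subset_closure ⟨k, n, rfl⟩
  have hsh : ∀ t : ℤ, ∀ x ∈ closure D, f (sh t x) = sh t (f x) := by
    intro t
    induction t using Int.induction_on with
    | zero => intro x _; simp [sh_zero]
    | succ t ih =>
      intro x hx
      rw [add_comm, ← sh_sh, h3 _ (sh_mem _ hx), ih x hx, sh_sh]
    | pred t ih =>
      intro x hx
      have := h3 _ (sh_mem (-t - 1) hx)
      rw [sh_sh, show (1 : ℤ) + (-t - 1) = -t by ring, ih x hx] at this
      have := congrArg (sh (-1)) this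
      rw [sh_sh, sh_sh, neg_add_cancel, sh_zero] at this
      rw [← this]
      congr 1
      ring
  obtain ⟨r, hr⟩ := locality isClosed_closure h2
  have hloc : ∀ x ∈ closure D, ∀ y ∈ closure D, ∀ i j : ℤ,
      (∀ t : ℤ, |t| ≤ r → x (t + i) = y (t + j)) → f x i = f y j := by
    intro x hx y hy i j h
    have := hr _ (sh_mem i hx) _ (sh_mem j hy) h
    rw [hsh _ _ hx, hsh _ _ hy] at this
    simpa [sh] using this
  obtain ⟨j, m, hm⟩ : ∃ j m, f (pt 0 m) = pt j 0 := by
    obtain ⟨z, hz, e⟩ := h4 (hD 0 0)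
    have hU : IsOpen ({y : Om | y (-1) < 2 ∧ 2 < y 0} \
        ((closure D ∩ {y | y (-1) < 2 ∧ 2 < y 0}) \ {pt 0 0})) :=
      IsOpen.sdiff ((isOpen_discrete {p : Fin 5 × Fin 5 | p.1 < 2 ∧ 2 < p.2}).preimage
        (f := fun y : Om => (y (-1), y 0)) (by fun_prop)) ((fin_U (-1) 0).1.subset diff_subset).isClosed
    have h5 := (h2 z hz).eventually (hU.mem_nhds (by
      rw [e]
      exact ⟨⟨pt_lt.2 (by norm_num), pt_gt.2 (by norm_num)⟩, fun h => h.2 rfl⟩))
    haveI := mem_closure_iff_nhdsWithin_neBot.1 hz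
    obtain ⟨w, ⟨a1, a2⟩, k, n, rfl⟩ :=
      ((h5.filter_mono (nhdsWithin_mono z subset_closure)).and self_mem_nhdsWithin).exists
    have a3 : f (pt k n) = pt 0 0 := by
      by_contra hne
      exact a2 ⟨⟨h1 (hD k n), a1⟩, hne⟩
    refine ⟨-k, n, ?_⟩
    have := hsh (-k) _ (hD k n)
    rw [sh_pt, a3, sh_pt] at this
    simpa using this
  have key : ∀ m' : ℕ, ∃ n' : ℕ, f (pt 0 m') = pt j n' ∧ (n' : ℤ) = m' - m := by
    intro m'
    have l : ∀ i : ℤ, i < -r → f (pt 0 m') i = pt j 0 i := by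
      intro i hi
      rw [← hm]
      refine hloc _ (hD _ _) _ (hD _ _) _ _ fun t ht => ?_
      have : t + i + 0 < 0 := by rw [abs_le] at ht; omega
      simp only [pt, if_pos this]
    have rr : ∀ i : ℤ, m' + r ≤ i → f (pt 0 m') i = pt j 0 (i - m' + m) := by
      intro i hi
      rw [← hm]
      refine hloc _ (hD _ _) _ (hD _ _) _ _ fun t ht => ?_
      rw [abs_le] at ht
      simp only [pt]
      rw [if_neg (by omega), if_neg (by omega), if_neg (c := t + (i - m' + m) + 0 < 0) (by omega),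
        if_neg (c := t + (i - m' + m) + 0 < m) (by omega),
        show t + (i - m' + m) + 0 - m = t + i + 0 - m' by ring]
    obtain ⟨k, n, e⟩ := (fin_U (min (-(r : ℤ)) (-j) - 1) (m' + r + |j|)).2 ⟨h1 (hD 0 m'), by
      rw [l _ (by omega), pt_lt]; omega, by
      have := abs_nonneg j
      have := neg_abs_le j
      rw [rr _ (by omega), pt_gt]; omega⟩
    have e1 : k = j := by
      have := aper (t := j - k) (K := r + |j| + 1) fun s hs => by
        have := abs_nonneg j
        have := neg_abs_le j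
        have := le_abs_self j
        have b1 := l (-s - j) (by omega)
        have b2 : pt k n (-s - j) < 2 := by rw [← e, b1, pt_lt]; omega
        rw [pt_lt] at b2
        rw [e] at b1
        simp only [pt] at b1
        rw [if_pos b2, if_pos (c := -s - j + j < 0) (by omega), show -(-s - j + k) = s + (j - k) by ring,
          show -(-s - j + j) = s by ring] at b1
        exact lf_eq b1
      omega
    subst e1
    refine ⟨n, e, ?_⟩
    have := aper (t := m' - m - n) (K := r + |k| + m) fun s hs => by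
      have := abs_nonneg k
      have := neg_abs_le k
      have := le_abs_self k
      have b1 := rr (s + m' - m - k) (by omega)
      have b2 : 2 < pt k n (s + m' - m - k) := by rw [← e, b1, pt_gt]; omega
      rw [pt_gt] at b2
      rw [e] at b1
      simp only [pt] at b1
      rw [if_neg (by omega), if_neg (by omega),
        if_neg (c := s + m' - m - k - m' + m + k < 0) (by omega),
        if_neg (c := s + m' - m - k - m' + m + k < (0 : ℕ)) (by omega),
        show s + m' - m - k + k - n = s + (m' - m - n) by ring,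
        show s + m' - m - k - m' + m + k - (0 : ℕ) = s by push_cast; ring] at b1
      exact rg_eq b1
    omega
  have m0 : m = 0 := by
    obtain ⟨n, -, h⟩ := key 0
    omega
  have hE : EqOn f (sh j) D := by
    rintro _ ⟨k, n, rfl⟩
    obtain ⟨n', a, b⟩ := key n
    have : n' = n := by omega
    have c := hsh k _ (hD 0 n)
    rw [sh_pt, add_zero, a, this, sh_pt] at c
    rw [c, sh_pt, add_comm]
  have hE' : EqOn f (sh j) (closure D) :=
    hE.of_subset_closure h2 (sh_cont j).continuousOn subset_closure Subset.rfl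
  intro x hx y hy h
  rw [hE' hx, hE' hy] at h
  simpa [sh_sh, sh_zero] using congrArg (sh (-j)) h

def tau (x : Om) : Om := fun i => if 2 < x i then (if 2 < x (i - 1) then x (i - 1) else 2) else x i

def rho (x : Om) : Om := fun i => if 2 ≤ x i ∧ 2 < x (i + 1) then x (i + 1) else x i

lemma tau_cont : Continuous tau := continuous_pi fun i =>
  (continuous_of_discreteTopology (f := fun p : Fin 5 × Fin 5 =>
    if 2 < p.1 then (if 2 < p.2 then p.2 else 2) else p.1)).comp
    (show Continuous fun x : Om => (x i, x (i - 1)) by fun_prop)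

lemma rho_cont : Continuous rho := continuous_pi fun i =>
  (continuous_of_discreteTopology (f := fun p : Fin 5 × Fin 5 =>
    if 2 ≤ p.1 ∧ 2 < p.2 then p.2 else p.1)).comp
    (show Continuous fun x : Om => (x i, x (i + 1)) by fun_prop)

lemma tau_pt (k : ℤ) (n : ℕ) : tau (pt k n) = pt k (n + 1) := by
  funext i
  simp only [tau, pt_gt]
  simp only [pt]
  push_cast
  rw [show i - 1 + k - n = i + k - (n + 1) by ring]
  split_ifs <;> first | rfl | omega

lemma rho_pt (k : ℤ) (n : ℕ) : rho (pt k (n + 1)) = pt k n := by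
  funext i
  simp only [rho, pt_gt, ← not_lt, pt_lt]
  simp only [pt]
  push_cast
  rw [show i + 1 + k - (n + 1) = i + k - n by ring]
  split_ifs <;> first | rfl | omega

theorem main : ∃ n : ℕ, ∃ X : Set (ℤ → Fin n),
      IsClosed X ∧
      (∀ x : ℤ → Fin n, x ∈ X ↔ (fun i => x (i + 1)) ∈ X) ∧
      (∀ f : (ℤ → Fin n) → (ℤ → Fin n),
        MapsTo f X X → ContinuousOn f X →
        (∀ x ∈ X, f (fun i => x (i + 1)) = fun i => f x (i + 1)) →
        SurjOn f X X → InjOn f X) ∧
      ¬ (∀ f : (ℤ → Fin n) → (ℤ → Fin n),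
        MapsTo f X X → ContinuousOn f X →
        (∀ x ∈ X, f (fun i => x (i + 1)) = fun i => f x (i + 1)) →
        InjOn f X → SurjOn f X X) := by
  refine ⟨5, closure D, isClosed_closure, fun x => ⟨sh_mem 1, fun h => ?_⟩, injunct, fun h => ?_⟩
  · have := sh_mem (-1) (x := sh 1 x) h
    simpa [sh_sh, sh_zero] using this
  · have hE : EqOn (rho ∘ tau) id (closure D) :=
      EqOn.closure (by rintro _ ⟨k, n, rfl⟩; simp [tau_pt, rho_pt]) (rho_cont.comp tau_cont)
        continuous_id
    obtain ⟨z, -, e⟩ := h tau (fun x hx => map_mem_closure tau_cont hx (by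
        rintro _ ⟨k, n, rfl⟩; exact ⟨_, _, tau_pt _ _⟩)) tau_cont.continuousOn
      (fun x _ => by funext i; simp [tau]) (LeftInvOn.injOn (f₁' := rho) hE)
      (subset_closure ⟨0, 0, rfl⟩)
    have a1 : tau z (-1) < 2 := by rw [e, pt_lt]; norm_num
    have a2 : 2 < tau z 0 := by rw [e, pt_gt]; norm_num
    simp only [tau, zero_sub] at a1 a2
    split_ifs at a1 a2 <;> omega

end Pool.Agent.H29.Injunct
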