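import Mathlib

namespace Pool.Agent.H29.IsdDef
open MeasureTheory

/-- the quantile function `inf {x | p ≤ F x}` of a law -/
noncomputable def quant (μ : Measure ℝ) (p : ℝ) : ℝ := sInf {x | p ≤ ProbabilityTheory.cdf μ x}

/-- `iter μ n` is `F^{[-(n+1)]}`: the quantile function integrated `n` times from `0` -/
noncomputable def iter (μ : Measure ℝ) : ℕ → ℝ → ℝ
  | 0 => quant μ
  | n + 1 => fun p => ∫ u in (0 : ℝ)..p, iter μ n u

/-- mean of one copy -/
noncomputable def min1 (μ : Measure ℝ) : ℝ := ∫ x, x ∂μ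

/-- mean of the minimum of two independent copies -/
noncomputable def min2 (μ : Measure ℝ) : ℝ := ∫ x, ∫ y, min x y ∂μ ∂μ

/-- mean of the minimum of three independent copies -/
noncomputable def min3 (μ : Measure ℝ) : ℝ := ∫ x, ∫ y, ∫ z, min (min x y) z ∂μ ∂μ ∂μ

end Pool.Agent.H29.IsdDef
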