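import Mathlib
import Pool.Agent.H29.IsdDef

namespace Pool.Agent.H29.IsdA
open MeasureTheory Set Filter Topology ProbabilityTheory IsdDef

variable {μ : Measure ℝ}

lemma quant_le {u t : ℝ} (hu : u ∈ Ioo (0 : ℝ) 1) : quant μ u ≤ t ↔ u ≤ cdf μ t := by
  have ne : {x | u ≤ cdf μ x}.Nonempty :=
    ((tendsto_cdf_atTop μ).eventually (eventually_ge_nhds hu.2)).exists
  have bd : BddBelow {x | u ≤ cdf μ x} := by
    obtain ⟨a, ha⟩ := eventually_atBot.1 ((tendsto_cdf_atBot μ).eventually (eventually_lt_nhds hu.1))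
    exact ⟨a, fun x hx => by
      by_contra hc
      exact absurd (ha x (not_le.1 hc).le) (not_lt.2 hx)⟩
  refine ⟨fun h => ?_, fun h => csInf_le bd h⟩
  have rc : Tendsto (cdf μ) (𝓝[>] t) (𝓝 (cdf μ t)) :=
    ((cdf μ).right_continuous t).mono Ioi_subset_Ici_self
  refine ge_of_tendsto rc ?_
  filter_upwards [self_mem_nhdsWithin] with s hs
  obtain ⟨x, hx, hxs⟩ := exists_lt_of_csInf_lt ne (h.trans_lt hs)
  exact le_trans hx (monotone_cdf μ hxs.le)

lemma quant_mono : MonotoneOn (quant μ) (Ioo 0 1) := fun _ hu _ hv h =>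
  (quant_le hu).2 (h.trans ((quant_le hv).1 le_rfl))

lemma quant_aem : AEMeasurable (quant μ) (volume.restrict (Ioo 0 1)) :=
  aemeasurable_restrict_of_monotoneOn measurableSet_Ioo quant_mono

lemma quant_map [IsProbabilityMeasure μ] : (volume.restrict (Ioo 0 1)).map (quant μ) = μ := by
  haveI : IsFiniteMeasure (volume.restrict (Ioo (0 : ℝ) 1)) := ⟨by simp⟩
  refine Measure.ext_of_Iic _ _ fun t => ?_
  rw [Measure.map_apply_of_aemeasurable quant_aem measurableSet_Iic,
    Measure.restrict_apply' measurableSet_Ioo, ← ofReal_cdf]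
  have h0 := cdf_nonneg μ t
  have h1 := cdf_le_one μ t
  apply le_antisymm
  · refine (measure_mono (t := Ioc 0 (cdf μ t)) ?_).trans (by simp)
    rintro u ⟨hu, hu'⟩
    exact ⟨hu'.1, (quant_le hu').1 hu⟩
  · refine le_trans (by simp) (measure_mono (s := Ioo 0 (cdf μ t)) ?_)
    rintro u ⟨hu, hu'⟩
    have : u ∈ Ioo (0 : ℝ) 1 := ⟨hu, hu'.trans_le h1⟩
    exact ⟨(quant_le this).2 hu'.le, this⟩

lemma int_quant [IsProbabilityMeasure μ] {g : ℝ → ℝ} (hg : Measurable g) :
    ∫ x, g x ∂μ = ∫ u in Ioo 0 1, g (quant μ u) := by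
  conv_lhs => rw [← quant_map (μ := μ)]
  exact integral_map quant_aem hg.aestronglyMeasurable

lemma quant_ii [IsProbabilityMeasure μ] (h : Integrable id μ) :
    IntervalIntegrable (quant μ) volume 0 1 := by
  rw [intervalIntegrable_iff_integrableOn_Ioo_of_le zero_le_one]
  rw [← quant_map (μ := μ)] at h
  exact (integrable_map_measure aestronglyMeasurable_id quant_aem).1 h

noncomputable def I (f : ℝ → ℝ) (u : ℝ) : ℝ := ∫ v in (0 : ℝ)..u, f v

lemma I_cont {f : ℝ → ℝ} (hf : IntervalIntegrable f volume 0 1) : ContinuousOn (I f) (uIcc 0 1) :=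
  (hf.absolutelyContinuousOnInterval_intervalIntegral left_mem_uIcc).continuousOn

lemma ibp {f W w : ℝ → ℝ} (hf : IntervalIntegrable f volume 0 1) (hW : ContDiff ℝ 1 W)
    (hw : ∀ x, HasDerivAt W (-w x) x) (h1 : W 1 = 0) :
    ∫ u in (0 : ℝ)..1, W u * f u = ∫ u in (0 : ℝ)..1, w u * I f u := by
  have k := AbsolutelyContinuousOnInterval.integral_mul_deriv_eq_deriv_mul
    (hW.contDiffOn.absolutelyContinuousOnInterval (a := 0) (b := 1))
    (hf.absolutelyContinuousOnInterval_intervalIntegral left_mem_uIcc)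
  have e1 : ∫ u in (0 : ℝ)..1, W u * deriv (fun x => ∫ v in (0 : ℝ)..x, f v) u =
      ∫ u in (0 : ℝ)..1, W u * f u := by
    apply intervalIntegral.integral_congr_ae
    filter_upwards [hf.ae_hasDerivAt_integral] with x hx hx'
    rw [(hx (uIoc_subset_uIcc hx') 0 left_mem_uIcc).deriv]
  rw [e1, h1] at k
  rw [k]
  simp only [(hw _).deriv, I, neg_mul, intervalIntegral.integral_neg]
  simp

lemma ibp1 {f : ℝ → ℝ} (hf : IntervalIntegrable f volume 0 1) :
    ∫ u in (0 : ℝ)..1, (1 - u) * f u = ∫ u in (0 : ℝ)..1, I f u := by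
  have := ibp (W := fun u => 1 - u) (w := fun _ => 1) hf (by fun_prop)
    (fun x => by simpa using (hasDerivAt_id x).const_sub 1) (by simp)
  simpa using this

lemma ibp2 {f : ℝ → ℝ} (hf : IntervalIntegrable f volume 0 1) :
    ∫ u in (0 : ℝ)..1, (1 - u) * ((1 - u) * f u) = 2 * ∫ u in (0 : ℝ)..1, (1 - u) * I f u := by
  have := ibp (W := fun u => (1 - u) * (1 - u)) (w := fun u => 2 * (1 - u)) hf (by fun_prop)
    (fun x => by
      have h := (hasDerivAt_id x).const_sub 1
      exact (h.mul h).congr_deriv (by simp; ring)) (by simp)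
  simpa only [mul_assoc, intervalIntegral.integral_const_mul] using this

noncomputable def M (f : ℝ → ℝ) (u : ℝ) : ℝ := I f u + (1 - u) * f u

lemma M_ii {f : ℝ → ℝ} (hf : IntervalIntegrable f volume 0 1) :
    IntervalIntegrable (M f) volume 0 1 :=
  (I_cont hf).intervalIntegrable.add (hf.continuousOn_mul (by fun_prop))

lemma M_int {f : ℝ → ℝ} (hf : IntervalIntegrable f volume 0 1) :
    ∫ u in (0 : ℝ)..1, M f u = 2 * ∫ u in (0 : ℝ)..1, I f u := by
  simp only [M]
  rw [intervalIntegral.integral_add (I_cont hf).intervalIntegrable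
    (hf.continuousOn_mul (by fun_prop)), ibp1 hf]
  ring

lemma MM_int {f : ℝ → ℝ} (hf : IntervalIntegrable f volume 0 1) :
    ∫ u in (0 : ℝ)..1, M (M f) u = 6 * ∫ u in (0 : ℝ)..1, I (I f) u := by
  rw [M_int (M_ii hf), ← ibp1 (M_ii hf), ← ibp1 (I_cont hf).intervalIntegrable]
  simp only [M, mul_add]
  rw [intervalIntegral.integral_add
    ((I_cont hf).intervalIntegrable.continuousOn_mul (by fun_prop))
    ((hf.continuousOn_mul (by fun_prop)).continuousOn_mul (by fun_prop)), ibp2 hf]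
  ring

lemma M_eq {f : ℝ → ℝ} (hf : IntervalIntegrable f volume 0 1) {u : ℝ} (hu : u ∈ Ioo (0 : ℝ) 1) :
    ∫ v in Ioo 0 1, f (min u v) = M f u := by
  have h1 : IntervalIntegrable f volume 0 u :=
    hf.mono_set (uIcc_subset_uIcc left_mem_uIcc (by rw [uIcc_of_le zero_le_one]; exact ⟨hu.1.le, hu.2.le⟩))
  have c1 : EqOn (fun v => f (min u v)) f (uIoc 0 u) := fun v hv => by
    rw [uIoc_of_le hu.1.le] at hv
    simp [min_eq_right hv.2]
  have c2 : EqOn (fun v => f (min u v)) (fun _ => f u) (uIoc u 1) := fun v hv => by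
    rw [uIoc_of_le hu.2.le] at hv
    simp [min_eq_left hv.1.le]
  rw [← integral_Ioc_eq_integral_Ioo, ← intervalIntegral.integral_of_le zero_le_one,
    ← intervalIntegral.integral_add_adjacent_intervals (b := u)
      (h1.congr c1.symm) (intervalIntegrable_const.congr c2.symm),
    intervalIntegral.integral_congr_ae (Eventually.of_forall c1),
    intervalIntegral.integral_congr_ae (Eventually.of_forall c2)]
  simp [M, I]

/-- measurable with linear growth -/
def L (g : ℝ → ℝ) : Prop := Measurable g ∧ ∃ c, ∀ w, |g w| ≤ c + |w|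

lemma L.int [IsProbabilityMeasure μ] (h : Integrable id μ) {g : ℝ → ℝ} (hg : L g) :
    Integrable g μ := by
  obtain ⟨m, c, hc⟩ := hg
  exact Integrable.mono' ((integrable_const c).add h.abs) m.aestronglyMeasurable
    (Eventually.of_forall fun w => by simpa using hc w)

lemma L.shift {g : ℝ → ℝ} (hg : L g) (x : ℝ) : L fun z => g (x + z) := by
  obtain ⟨m, c, hc⟩ := hg
  exact ⟨m.comp (by fun_prop), c + |x|, fun w => by linarith [hc (x + w), abs_add_le x w]⟩

lemma abs_min_le (a b : ℝ) : |min a b| ≤ |a| + |b| := by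
  rcases le_total a b with h | h
  · rw [min_eq_left h]; linarith [abs_nonneg b]
  · rw [min_eq_right h]; linarith [abs_nonneg a]

lemma L.min {g : ℝ → ℝ} (hg : L g) (x : ℝ) : L fun z => g (min x z) := by
  obtain ⟨m, c, hc⟩ := hg
  exact ⟨m.comp (by fun_prop), c + |x|, fun w => by linarith [hc (Min.min x w), abs_min_le x w]⟩

lemma L_id : L fun x => x := ⟨measurable_id, 0, fun w => by simp⟩

/-- averaging against the minimum with an independent copy -/
noncomputable def A (μ : Measure ℝ) (g : ℝ → ℝ) (w : ℝ) : ℝ := ∫ z, g (min w z) ∂μ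

lemma L.A [IsProbabilityMeasure μ] (h : Integrable id μ) {g : ℝ → ℝ} (hg : L g) : L (A μ g) := by
  refine ⟨?_, ?_⟩
  · exact (StronglyMeasurable.integral_prod_right (f := fun w z => g (Min.min w z))
      (hg.1.comp (by fun_prop : Measurable fun p : ℝ × ℝ => Min.min p.1 p.2)).stronglyMeasurable).measurable
  · obtain ⟨c, hc⟩ := hg.2
    refine ⟨c + ∫ z, |z| ∂μ, fun w => ?_⟩
    have k : ‖IsdA.A μ g w‖ ≤ ∫ z, (c + |w|) + |z| ∂μ :=
      norm_integral_le_of_norm_le ((integrable_const _).add h.abs)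
        (Eventually.of_forall fun z => by
          rw [Real.norm_eq_abs]; linarith [hc (Min.min w z), abs_min_le w z])
    rw [integral_add (integrable_const _) (by simpa using h.abs)] at k
    simp only [integral_const, probReal_univ, smul_eq_mul, one_mul, Real.norm_eq_abs] at k
    linarith

lemma A_quant [IsProbabilityMeasure μ] {g f : ℝ → ℝ} (hg : L g)
    (hf : IntervalIntegrable f volume 0 1) (e : ∀ u ∈ Ioo (0 : ℝ) 1, g (quant μ u) = f u) :
    ∀ u ∈ Ioo (0 : ℝ) 1, A μ g (quant μ u) = M f u := by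
  intro u hu
  rw [A, int_quant (hg.min _).1, ← M_eq hf hu]
  refine setIntegral_congr_fun measurableSet_Ioo fun v hv => ?_
  rcases le_total u v with k | k
  · rw [min_eq_left k, min_eq_left (quant_mono hu hv k), e u hu]
  · rw [min_eq_right k, min_eq_right (quant_mono hv hu k), e v hv]

lemma min2_eq [IsProbabilityMeasure μ] (h : Integrable id μ) : min2 μ = 2 * iter μ 2 1 := by
  have a := A_quant (μ := μ) L_id (quant_ii h) fun _ _ => rfl
  have : min2 μ = ∫ x, A μ (fun x => x) x ∂μ := rfl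
  rw [this, int_quant (L_id.A h).1, setIntegral_congr_fun measurableSet_Ioo a,
    ← integral_Ioc_eq_integral_Ioo, ← intervalIntegral.integral_of_le zero_le_one,
    M_int (quant_ii h)]
  rfl

lemma min3_eq [IsProbabilityMeasure μ] (h : Integrable id μ) :
    min3 μ = 6 * ∫ p in (0 : ℝ)..1, iter μ 2 p := by
  have a := A_quant (μ := μ) L_id (quant_ii h) fun _ _ => rfl
  have b := A_quant (μ := μ) (L_id.A h) (M_ii (quant_ii h)) a
  have : min3 μ = ∫ x, A μ (A μ fun x => x) x ∂μ := rfl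
  rw [this, int_quant ((L_id.A h).A h).1, setIntegral_congr_fun measurableSet_Ioo b,
    ← integral_Ioc_eq_integral_Ioo, ← intervalIntegral.integral_of_le zero_le_one,
    MM_int (quant_ii h)]
  rfl

lemma dom {μ₁ μ₂ : Measure ℝ} [IsProbabilityMeasure μ₁] [IsProbabilityMeasure μ₂]
    (h1 : Integrable id μ₁) (h2 : Integrable id μ₂)
    (h : ∀ p ∈ Ioo (0 : ℝ) 1, iter μ₁ 2 p ≤ iter μ₂ 2 p) :
    min2 μ₁ ≤ min2 μ₂ ∧ min3 μ₁ ≤ min3 μ₂ := by
  have c1 : ContinuousOn (iter μ₁ 2) (uIcc 0 1) := I_cont (I_cont (quant_ii h1)).intervalIntegrable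
  have c2 : ContinuousOn (iter μ₂ 2) (uIcc 0 1) := I_cont (I_cont (quant_ii h2)).intervalIntegrable
  have h' : ∀ p ∈ Icc (0 : ℝ) 1, iter μ₁ 2 p ≤ iter μ₂ 2 p := by
    rw [uIcc_of_le zero_le_one, ← closure_Ioo zero_ne_one] at c1 c2
    rw [← closure_Ioo zero_ne_one]
    exact fun p hp => le_on_closure h c1 c2 hp
  rw [min2_eq h1, min2_eq h2, min3_eq h1, min3_eq h2]
  have := intervalIntegral.integral_mono_on (μ := volume) zero_le_one c1.intervalIntegrable
    c2.intervalIntegrable h'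
  exact ⟨by linarith [h' 1 ⟨zero_le_one, le_rfl⟩], by linarith⟩

end Pool.Agent.H29.IsdA
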