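import Mathlib
import Pool.Agent.H29.IsdA

namespace Pool.Agent.H29.IsdB
open MeasureTheory Set Filter Topology IsdDef IsdA

/-- two-point law: `a` with weight `s`, `b` with weight `1 - s` -/
noncomputable def two (s a b : ℝ) : Measure ℝ :=
  ENNReal.ofReal s • Measure.dirac a + ENNReal.ofReal (1 - s) • Measure.dirac b

variable {s a b : ℝ} {ν : Measure ℝ}

lemma two_prob (h0 : 0 ≤ s) (h1 : s ≤ 1) : IsProbabilityMeasure (two s a b) := ⟨by
  simp only [two, Measure.add_apply, Measure.smul_apply, measure_univ, smul_eq_mul, mul_one]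
  rw [← ENNReal.ofReal_add h0 (by linarith)]; simp⟩

lemma two_intg (g : ℝ → ℝ) : Integrable g (two s a b) :=
  ((integrable_dirac (by simp)).smul_measure ENNReal.ofReal_ne_top).add_measure
    ((integrable_dirac (by simp)).smul_measure ENNReal.ofReal_ne_top)

lemma two_int (h0 : 0 ≤ s) (h1 : s ≤ 1) (g : ℝ → ℝ) :
    ∫ x, g x ∂(two s a b) = s * g a + (1 - s) * g b := by
  rw [two, integral_add_measure ((integrable_dirac (by simp)).smul_measure ENNReal.ofReal_ne_top)
    ((integrable_dirac (by simp)).smul_measure ENNReal.ofReal_ne_top), integral_smul_measure,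
    integral_smul_measure, integral_dirac, integral_dirac, ENNReal.toReal_ofReal h0,
    ENNReal.toReal_ofReal (by linarith)]
  simp

lemma conv_eq [IsProbabilityMeasure ν] : (two s a b).conv ν =
    ENNReal.ofReal s • ν.map (fun z => a + z) + ENNReal.ofReal (1 - s) • ν.map (fun z => b + z) := by
  haveI : IsFiniteMeasure (ENNReal.ofReal s • Measure.dirac a) := ⟨by simp⟩
  haveI : IsFiniteMeasure (ENNReal.ofReal (1 - s) • Measure.dirac b) := ⟨by simp⟩
  rw [two, Measure.add_conv, Measure.conv_smul_left, Measure.conv_smul_left, Measure.dirac_conv,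
    Measure.dirac_conv]

lemma map_intg [IsProbabilityMeasure ν] (h : Integrable id ν) {g : ℝ → ℝ} (hg : L g) (x : ℝ) :
    Integrable g (ν.map fun z => x + z) :=
  (integrable_map_measure hg.1.aestronglyMeasurable (by fun_prop)).2 ((hg.shift x).int h)

lemma conv_intg [IsProbabilityMeasure ν] (h : Integrable id ν) :
    Integrable id ((two s a b).conv ν) := by
  rw [conv_eq]
  exact ((map_intg h L_id a).smul_measure ENNReal.ofReal_ne_top).add_measure
    ((map_intg h L_id b).smul_measure ENNReal.ofReal_ne_top)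

/-- average over the two atoms -/
def T (s a b : ℝ) (g : ℝ → ℝ) (z : ℝ) : ℝ := s * g (a + z) + (1 - s) * g (b + z)

lemma T_intg [IsProbabilityMeasure ν] (h : Integrable id ν) {g : ℝ → ℝ} (hg : L g) :
    Integrable (T s a b g) ν :=
  (((hg.shift a).int h).const_mul _).add (((hg.shift b).int h).const_mul _)

lemma conv_int [IsProbabilityMeasure ν] (h0 : 0 ≤ s) (h1 : s ≤ 1) (h : Integrable id ν)
    {g : ℝ → ℝ} (hg : L g) : ∫ x, g x ∂((two s a b).conv ν) = ∫ z, T s a b g z ∂ν := by
  rw [conv_eq, integral_add_measure ((map_intg h hg a).smul_measure ENNReal.ofReal_ne_top)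
    ((map_intg h hg b).smul_measure ENNReal.ofReal_ne_top), integral_smul_measure,
    integral_smul_measure, integral_map (by fun_prop) hg.1.aestronglyMeasurable,
    integral_map (by fun_prop) hg.1.aestronglyMeasurable, ENNReal.toReal_ofReal h0,
    ENNReal.toReal_ofReal (by linarith)]
  simp only [T]
  rw [integral_add (((hg.shift a).int h).const_mul _) (((hg.shift b).int h).const_mul _),
    integral_const_mul, integral_const_mul]
  simp

/-- one more independent copy, seen from the points `u`, `v` with the two weights -/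
noncomputable def S (s a b : ℝ) (g : ℝ → ℝ) (u v z : ℝ) : ℝ :=
  s * T s a b (fun w => g (min u w)) z + (1 - s) * T s a b (fun w => g (min v w)) z

lemma S_intg [IsProbabilityMeasure ν] (h : Integrable id ν) {g : ℝ → ℝ} (hg : L g) (u v : ℝ) :
    Integrable (S s a b g u v) ν :=
  ((T_intg h (hg.min u)).const_mul _).add ((T_intg h (hg.min v)).const_mul _)

lemma S_int [IsProbabilityMeasure ν] (h0 : 0 ≤ s) (h1 : s ≤ 1) (h : Integrable id ν)
    {g : ℝ → ℝ} (hg : L g) (u v : ℝ) :
    s * A ((two s a b).conv ν) g u + (1 - s) * A ((two s a b).conv ν) g v =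
      ∫ z, S s a b g u v z ∂ν := by
  simp only [S, A]
  rw [integral_add ((T_intg h (hg.min u)).const_mul _) ((T_intg h (hg.min v)).const_mul _),
    integral_const_mul, integral_const_mul, conv_int h0 h1 h (hg.min u),
    conv_int h0 h1 h (hg.min v)]

def Good (z w : ℝ) : Prop := w = z ∨ z + 8 ≤ w ∨ w + 8 ≤ z

noncomputable def g2 (z w : ℝ) : ℝ :=
  S (1 / 2) 3 9 (fun x => x) (3 + z) (9 + z) w - S (1 / 4) 0 8 (fun x => x) (0 + z) (8 + z) w

lemma g2_facts (z w : ℝ) : 0 ≤ g2 z w ∧ (g2 z w = 0 → Good z w) := by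
  simp only [g2, S, T, Good]
  rcases le_total (z + 8) w with h1 | h1
  · simp (disch := with_unfolding_all linarith) only [min_eq_left]
    exact ⟨by linarith, fun _ => Or.inr (Or.inl h1)⟩
  rcases le_total (z + 6) w with h2 | h2
  · simp (disch := with_unfolding_all linarith) only [min_eq_left, min_eq_right]
    exact ⟨by linarith, fun _ => Or.inr (Or.inl (by linarith))⟩
  rcases le_total z w with h3 | h3
  · simp (disch := with_unfolding_all linarith) only [min_eq_left, min_eq_right]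
    exact ⟨by linarith, fun _ => Or.inl (by linarith)⟩
  rcases le_total (z - 6) w with h4 | h4
  · simp (disch := with_unfolding_all linarith) only [min_eq_left, min_eq_right]
    exact ⟨by linarith, fun _ => Or.inl (by linarith)⟩
  rcases le_total (z - 8) w with h5 | h5
  · simp (disch := with_unfolding_all linarith) only [min_eq_left, min_eq_right]
    exact ⟨by linarith, fun _ => Or.inr (Or.inr (by linarith))⟩
  · simp (disch := with_unfolding_all linarith) only [min_eq_left, min_eq_right]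
    exact ⟨by linarith, fun _ => Or.inr (Or.inr (by linarith))⟩

noncomputable def g3 (z w t : ℝ) : ℝ :=
  (1 / 2 * S (1 / 2) 3 9 (fun x => x) (min (3 + z) (3 + w)) (min (3 + z) (9 + w)) t +
    (1 - 1 / 2) * S (1 / 2) 3 9 (fun x => x) (min (9 + z) (3 + w)) (min (9 + z) (9 + w)) t) -
  (1 / 4 * S (1 / 4) 0 8 (fun x => x) (min (0 + z) (0 + w)) (min (0 + z) (8 + w)) t +
    (1 - 1 / 4) * S (1 / 4) 0 8 (fun x => x) (min (8 + z) (0 + w)) (min (8 + z) (8 + w)) t)

lemma g3_nonneg {z w t : ℝ} (h1 : Good z w) (h2 : Good z t) (h3 : Good w t) : 0 ≤ g3 z w t := by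
  simp only [g3, S, T]
  rcases h1 with h1 | h1 | h1 <;> rcases h2 with h2 | h2 | h2 <;> rcases h3 with h3 | h3 | h3 <;>
  first
    | (exfalso; linarith)
    | (simp (disch := with_unfolding_all linarith) only [min_eq_left, min_eq_right]; linarith)

lemma g3_pos (z : ℝ) : 0 < g3 z z z := by
  simp only [g3, S, T]
  simp (disch := with_unfolding_all linarith) only [min_eq_left, min_eq_right]
  linarith

lemma at_atom {p : ℝ → Prop} {z : ℝ} (hz : ν {z} ≠ 0) (h : ∀ᵐ x ∂ν, p x) : p z := by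
  by_contra hc
  exact hz (measure_mono_null (by simpa using hc) (ae_iff.1 h))

lemma pos_of_atom {f : ℝ → ℝ} {z : ℝ} (hz : ν {z} ≠ 0) (hf : Integrable f ν)
    (h0 : ∀ᵐ x ∂ν, 0 ≤ f x) (h1 : 0 < f z) : 0 < ∫ x, f x ∂ν :=
  (integral_pos_iff_support_of_nonneg_ae h0 hf).2
    ((pos_iff_ne_zero.2 hz).trans_le (measure_mono (by simpa using h1.ne')))

lemma exists_atom [IsProbabilityMeasure ν] (h : ∀ᵐ z ∂ν, ∀ᵐ w ∂ν, Good z w) :
    ∃ z, ν {z} ≠ 0 := by
  obtain ⟨n, hn⟩ : ∃ n : ℤ, ν (Ico (n : ℝ) (n + 1)) ≠ 0 := by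
    by_contra hc
    push Not at hc
    have := measure_iUnion_null hc
    rw [iUnion_Ico_intCast] at this
    simp at this
  obtain ⟨z, hz, hg⟩ : ∃ z ∈ Ico (n : ℝ) (n + 1), ∀ᵐ w ∂ν, Good z w :=
    Measure.exists_mem_of_measure_ne_zero_of_ae hn (ae_restrict_of_ae h)
  refine ⟨z, fun h0 => hn ?_⟩
  refine measure_mono_null (t := {z} ∪ {w | ¬Good z w}) (fun w hw => ?_)
    (measure_union_null h0 (ae_iff.1 hg))
  by_cases e : w = z
  · exact Or.inl e
  · right
    rintro (k | k | k)
    · exact e k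
    · linarith [hw.2, hz.1]
    · linarith [hw.1, hz.2]

theorem main [IsProbabilityMeasure ν] (h : Integrable id ν)
    (h2 : min2 ((two (1 / 2) 3 9).conv ν) ≤ min2 ((two (1 / 4) 0 8).conv ν)) :
    min3 ((two (1 / 4) 0 8).conv ν) < min3 ((two (1 / 2) 3 9).conv ν) := by
  haveI := two_prob (s := 1 / 2) (a := 3) (b := 9) (by norm_num) (by norm_num)
  haveI := two_prob (s := 1 / 4) (a := 0) (b := 8) (by norm_num) (by norm_num)
  have x0 : (0 : ℝ) ≤ 1 / 2 := by norm_num
  have x1 : (1 / 2 : ℝ) ≤ 1 := by norm_num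
  have y0 : (0 : ℝ) ≤ 1 / 4 := by norm_num
  have y1 : (1 / 4 : ℝ) ≤ 1 := by norm_num
  have LX := L_id.A (conv_intg (s := 1 / 2) (a := 3) (b := 9) h)
  have LY := L_id.A (conv_intg (s := 1 / 4) (a := 0) (b := 8) h)
  have LXX := LX.A (conv_intg (s := 1 / 2) (a := 3) (b := 9) h)
  have LYY := LY.A (conv_intg (s := 1 / 4) (a := 0) (b := 8) h)
  have i2 : ∀ z, Integrable (g2 z) ν := fun z => (S_intg h L_id _ _).sub (S_intg h L_id _ _)
  have e2 : ∀ z, T (1 / 2) 3 9 (A ((two (1 / 2) 3 9).conv ν) fun x => x) z -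
      T (1 / 4) 0 8 (A ((two (1 / 4) 0 8).conv ν) fun x => x) z = ∫ w, g2 z w ∂ν := fun z => by
    simp only [T, g2]
    rw [S_int x0 x1 h L_id, S_int y0 y1 h L_id,
      integral_sub (S_intg h L_id _ _) (S_intg h L_id _ _)]
  have good : ∀ᵐ z ∂ν, ∀ᵐ w ∂ν, Good z w := by
    have k1 : ∫ z, (T (1 / 2) 3 9 (A ((two (1 / 2) 3 9).conv ν) fun x => x) z -
        T (1 / 4) 0 8 (A ((two (1 / 4) 0 8).conv ν) fun x => x) z) ∂ν ≤ 0 := by
      rw [integral_sub (T_intg h LX) (T_intg h LY), ← conv_int x0 x1 h LX, ← conv_int y0 y1 h LY]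
      exact sub_nonpos.2 h2
    have k2 : ∀ z, 0 ≤ T (1 / 2) 3 9 (A ((two (1 / 2) 3 9).conv ν) fun x => x) z -
        T (1 / 4) 0 8 (A ((two (1 / 4) 0 8).conv ν) fun x => x) z := fun z => by
      rw [e2]; exact integral_nonneg fun w => (g2_facts z w).1
    have k3 := (integral_eq_zero_iff_of_nonneg k2 ((T_intg h LX).sub (T_intg h LY))).1
      (le_antisymm k1 (integral_nonneg k2))
    filter_upwards [k3] with z hz
    rw [e2] at hz
    filter_upwards [(integral_eq_zero_iff_of_nonneg (fun w => (g2_facts z w).1) (i2 z)).1 hz]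
      with w hw using (g2_facts z w).2 hw
  obtain ⟨z0, hz0⟩ := exists_atom good
  have i3 : ∀ z w, Integrable (g3 z w) ν := fun z w =>
    (((S_intg h L_id _ _).const_mul _).add ((S_intg h L_id _ _).const_mul _)).sub
      (((S_intg h L_id _ _).const_mul _).add ((S_intg h L_id _ _).const_mul _))
  have e3 : ∀ z w, S (1 / 2) 3 9 (A ((two (1 / 2) 3 9).conv ν) fun x => x) (3 + z) (9 + z) w -
      S (1 / 4) 0 8 (A ((two (1 / 4) 0 8).conv ν) fun x => x) (0 + z) (8 + z) w =
      ∫ t, g3 z w t ∂ν := fun z w => by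
    simp only [g3]
    rw [integral_sub (by exact ((S_intg h L_id _ _).const_mul _).add ((S_intg h L_id _ _).const_mul _))
      (by exact ((S_intg h L_id _ _).const_mul _).add ((S_intg h L_id _ _).const_mul _)),
      integral_add ((S_intg h L_id _ _).const_mul _) ((S_intg h L_id _ _).const_mul _),
      integral_add ((S_intg h L_id _ _).const_mul _) ((S_intg h L_id _ _).const_mul _),
      integral_const_mul, integral_const_mul, integral_const_mul, integral_const_mul,
      ← S_int x0 x1 h L_id, ← S_int x0 x1 h L_id, ← S_int y0 y1 h L_id, ← S_int y0 y1 h L_id]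
    rfl
  have e4 : ∀ z, T (1 / 2) 3 9 (A ((two (1 / 2) 3 9).conv ν)
        (A ((two (1 / 2) 3 9).conv ν) fun x => x)) z -
      T (1 / 4) 0 8 (A ((two (1 / 4) 0 8).conv ν) (A ((two (1 / 4) 0 8).conv ν) fun x => x)) z =
      ∫ w, ∫ t, g3 z w t ∂ν ∂ν := fun z => by
    simp only [T, ← e3]
    rw [S_int x0 x1 h LX, S_int y0 y1 h LY, integral_sub (S_intg h LX _ _) (S_intg h LY _ _)]
  have n3 : ∀ z, (∀ᵐ w ∂ν, Good z w) → ∀ᵐ w ∂ν, 0 ≤ ∫ t, g3 z w t ∂ν := fun z hz => by
    filter_upwards [hz, good] with w hw hw'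
    apply integral_nonneg_of_ae
    filter_upwards [hz, hw'] with t a1 a2 using g3_nonneg hw a1 a2
  have g0 := at_atom hz0 good
  have p1 : 0 < ∫ t, g3 z0 z0 t ∂ν := pos_of_atom hz0 (i3 _ _)
    (by filter_upwards [g0] with t a1 using g3_nonneg (Or.inl rfl) a1 a1) (g3_pos z0)
  have p2 : 0 < ∫ w, ∫ t, g3 z0 w t ∂ν ∂ν := pos_of_atom hz0
    (by simp only [← e3]; exact (S_intg h LX _ _).sub (S_intg h LY _ _)) (n3 z0 g0) p1
  have p3 : 0 < ∫ z, ∫ w, ∫ t, g3 z w t ∂ν ∂ν ∂ν := pos_of_atom hz0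
    (by simp only [← e4]; exact (T_intg h LXX).sub (T_intg h LYY))
    (by filter_upwards [good] with z hz using integral_nonneg_of_ae (n3 z hz)) p2
  simp only [← e4] at p3
  rw [integral_sub (T_intg h LXX) (T_intg h LYY), ← conv_int x0 x1 h LXX,
    ← conv_int y0 y1 h LYY] at p3
  exact sub_pos.1 p3

end Pool.Agent.H29.IsdB
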