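import Mathlib

set_option autoImplicit false

namespace Pool.Agent.H29.James

open Set Filter Topology RCLike

variable {𝕜 E : Type} [RCLike 𝕜] [NormedAddCommGroup E] [NormedSpace 𝕜 E]

lemma rot (g : StrongDual 𝕜 E) (x : E) : ∃ y, ‖y‖ = ‖x‖ ∧ re (g y) = ‖g x‖ := by
  obtain ⟨c, hc, e⟩ := exists_norm_eq_mul_self (g x)
  exact ⟨c • x, by rw [norm_smul, hc, one_mul], by rw [map_smul, smul_eq_mul, ← e, ofReal_re]⟩

lemma norm_le {g : StrongDual 𝕜 E} {c : ℝ} (h : ∀ x, ‖x‖ ≤ 1 → re (g x) ≤ c) : ‖g‖ ≤ c :=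
  g.opNorm_le_of_unit_norm (by simpa using h 0 (by simp)) fun x hx => by
    obtain ⟨y, a, b⟩ := rot g x
    exact b ▸ h y (a.trans hx).le

lemma re_le (g : StrongDual 𝕜 E) {x : E} (h : ‖x‖ ≤ 1) : |re (g x)| ≤ ‖g‖ :=
  (abs_re_le_norm _).trans (g.unit_le_opNorm x h)

lemma ulim (s : ℕ → StrongDual 𝕜 E) (h : ∀ n, ‖s n‖ ≤ 1) : ∃ w : StrongDual 𝕜 E,
    ∀ x, Tendsto (fun n => re (s n x)) (hyperfilter ℕ) (𝓝 (re (w x))) := by
  obtain ⟨w, -, hw⟩ := (WeakDual.isCompact_closedBall (0 : StrongDual 𝕜 E) 1).ultrafilter_le_nhds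
    ((hyperfilter ℕ).map fun n => StrongDual.toWeakDual (s n))
    (le_principal_iff.2 (mem_map.2 (univ_mem' fun n => by simpa using h n)))
  exact ⟨WeakDual.toStrongDual w, fun x => (continuous_re.tendsto _).comp
    (((WeakDual.eval_continuous x).tendsto w).comp hw)⟩

def C (s : ℕ → StrongDual 𝕜 E) (i : ℕ) : Set (StrongDual 𝕜 E) := convexHull ℝ (s '' Ici i)

def Ref (φ s : ℕ → StrongDual 𝕜 E) : Prop := ∀ i, φ i ∈ C s i

def Bd (G : StrongDual 𝕜 E) (φ : ℕ → StrongDual 𝕜 E) (c : ℝ) : Prop :=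
  ∀ x, ‖x‖ ≤ 1 → ∀ η > 0, ∀ᶠ i in atTop, re (G x) - re (φ i x) ≤ c + η

lemma Cmin {s : ℕ → StrongDual 𝕜 E} {i : ℕ} {K : Set (StrongDual 𝕜 E)} (hK : Convex ℝ K)
    (h : ∀ j, i ≤ j → s j ∈ K) : C s i ⊆ K :=
  convexHull_min (image_subset_iff.2 h) hK

lemma Canti (s : ℕ → StrongDual 𝕜 E) {i j : ℕ} (h : i ≤ j) : C s j ⊆ C s i :=
  convexHull_mono (image_mono (Ici_subset_Ici.2 h))

lemma Cself (s : ℕ → StrongDual 𝕜 E) (i : ℕ) : s i ∈ C s i :=
  subset_convexHull _ _ ⟨i, self_mem_Ici, rfl⟩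

lemma Ref.sub {φ s : ℕ → StrongDual 𝕜 E} (h : Ref φ s) (i : ℕ) : C φ i ⊆ C s i :=
  Cmin (convex_convexHull _ _) fun j hj => Canti s hj (h j)

lemma Cre {s : ℕ → StrongDual 𝕜 E} {i : ℕ} {x : E} {P : Set ℝ} (hP : Convex ℝ P)
    (h : ∀ j, i ≤ j → re (s j x) ∈ P) : ∀ g ∈ C s i, re (g x) ∈ P :=
  Cmin (K := (fun g : StrongDual 𝕜 E => re (g x)) ⁻¹' P)
    (hP.is_linear_preimage ⟨fun a b => by simp, fun a b => by simp [real_smul_eq_coe_mul]⟩) h

lemma Cnorm {s : ℕ → StrongDual 𝕜 E} (h : ∀ i, ‖s i‖ ≤ 1) {i : ℕ} {g : StrongDual 𝕜 E}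
    (hg : g ∈ C s i) : ‖g‖ ≤ 1 :=
  mem_closedBall_zero_iff.1 (Cmin (convex_closedBall 0 1)
    (fun j _ => mem_closedBall_zero_iff.2 (h j)) hg)

def A (q : ℝ) (n : ℕ) (v : StrongDual 𝕜 E) (s : ℕ → StrongDual 𝕜 E) : Set ℝ :=
  {c | ∃ g ∈ C s n, ∃ φ, Ref φ s ∧ Bd (v + q ^ n • g) φ c}

lemma Abdd (q : ℝ) (n : ℕ) (v : StrongDual 𝕜 E) (s : ℕ → StrongDual 𝕜 E) : BddBelow (A q n v s) :=
  ⟨0, fun _ ⟨_, _, _, _, h⟩ => le_of_forall_pos_le_add fun η hη => by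
    simpa using (h 0 (by simp) η hη).exists⟩

lemma Ane (q : ℝ) (n : ℕ) (v : StrongDual 𝕜 E) {s : ℕ → StrongDual 𝕜 E} (h : ∀ i, ‖s i‖ ≤ 1) :
    (A q n v s).Nonempty :=
  ⟨‖v + q ^ n • s n‖ + 1, s n, Cself s n, s, Cself s, fun x hx η hη => .of_forall fun i => by
    linarith [(abs_le.1 (re_le (v + q ^ n • s n) hx)).2, (abs_le.1 (re_le (s i) hx)).1, h i]⟩

lemma step (q : ℝ) (ε : ℕ → ℝ) (hε : ∀ n, 0 < ε n) (n : ℕ) (v : StrongDual 𝕜 E)
    (s : ℕ → StrongDual 𝕜 E) : ∃ z s', (∀ i, ‖s i‖ ≤ 1) → z ∈ C s n ∧ Ref s' s ∧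
      Bd (v + q ^ n • z) s' (sInf (A q n v s) + ε n) ∧ ∃ x, ‖x‖ ≤ 1 ∧
        ∀ i, re (s' i x) ≤ re ((v + q ^ n • z) x) - (sInf (A q n v s) - ε n) := by
  by_cases h : ∀ i, ‖s i‖ ≤ 1
  swap
  · exact ⟨0, s, fun h' => absurd h' h⟩
  obtain ⟨c, ⟨g, hg, φ, hφ, hB⟩, hc⟩ := exists_lt_of_csInf_lt (Ane q n v h)
    (lt_add_of_pos_right _ (hε n))
  have : ¬ Bd (v + q ^ n • g) φ (sInf (A q n v s) - ε n) := fun b => by
    linarith [csInf_le (Abdd q n v s) ⟨g, hg, φ, hφ, b⟩, hε n]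
  simp only [Bd, not_forall, not_eventually, not_le] at this
  obtain ⟨x, hx, η, hη, fr⟩ := this
  obtain ⟨k, mk, hk⟩ := extraction_of_frequently_atTop fr
  exact ⟨g, φ ∘ k, fun _ => ⟨hg, fun i => Canti s (mk.le_apply) (hφ _), fun y hy δ hδ =>
    (mk.tendsto_atTop.eventually (hB y hy δ hδ)).mono fun i hi => hi.trans (by linarith),
    x, hx, fun i => by linarith [hk i, show re ((φ ∘ k) i x) = re (φ (k i) x) from rfl]⟩⟩

/-- James' lemma. -/
theorem james (NA : ∀ g : StrongDual 𝕜 E, ∃ t, ‖t‖ ≤ 1 ∧ re (g t) = ‖g‖) (f : ℕ → StrongDual 𝕜 E)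
    (hf : ∀ i, ‖f i‖ ≤ 1) {θ : ℝ} (θ0 : 0 < θ) (θ1 : θ ≤ 1)
    (H : ∀ g ∈ C f 0, ∀ φ, Ref φ f → ∀ c, Bd g φ c → θ ≤ c) : False := by
  set q := θ / 8 with hq
  have q0 : 0 < q := by positivity
  have q1 : q < 1 := by linarith
  let ε : ℕ → ℝ := fun n => θ / 4 * q ^ (n + 1) * (1 / 2) ^ (n + 1)
  choose Z S hS using step (𝕜 := 𝕜) (E := E) q ε fun n => by positivity
  let p : ℕ → StrongDual 𝕜 E × (ℕ → StrongDual 𝕜 E) := fun n => Nat.rec (0, f)
    (fun n p => (p.1 + ((1 - q) * q ^ n) • Z n p.1 p.2, S n p.1 p.2)) n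
  obtain ⟨v, s, z, v0, s0, vs, hs⟩ : ∃ (v : ℕ → StrongDual 𝕜 E) (s : ℕ → ℕ → StrongDual 𝕜 E)
      (z : ℕ → StrongDual 𝕜 E), v 0 = 0 ∧ s 0 = f ∧ (∀ n, v (n + 1) = v n + ((1 - q) * q ^ n) • z n) ∧
      ∀ n, (∀ i, ‖s n i‖ ≤ 1) → z n ∈ C (s n) n ∧ Ref (s (n + 1)) (s n) ∧
      Bd (v n + q ^ n • z n) (s (n + 1)) (sInf (A q n (v n) (s n)) + ε n) ∧ ∃ x, ‖x‖ ≤ 1 ∧ ∀ i,
        re (s (n + 1) i x) ≤ re ((v n + q ^ n • z n) x) - (sInf (A q n (v n) (s n)) - ε n) :=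
    ⟨fun n => (p n).1, fun n => (p n).2, fun n => Z n (p n).1 (p n).2, rfl, rfl, fun _ => rfl,
      fun n => hS n _ _⟩
  have b : ∀ n i, ‖s n i‖ ≤ 1 := fun n => by
    induction n with
    | zero => exact s0 ▸ hf
    | succ n ih => exact fun i => Cnorm ih ((hs n ih).2.1 i)
  simp only [b, implies_true, forall_const] at hs
  have zb : ∀ n, ‖z n‖ ≤ 1 := fun n => Cnorm (b n) (hs n).1
  have an : ∀ i, Antitone fun n => C (s n) i := fun i =>
    antitone_nat_of_succ_le fun n => (hs n).2.1.sub i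
  obtain ⟨w, hw⟩ := ulim z zb
  have wP : ∀ n x (P : Set ℝ), Convex ℝ P → IsClosed P → (∀ᶠ i in atTop, re (s n i x) ∈ P) →
      re (w x) ∈ P := fun n x P c1 c2 h => by
    obtain ⟨i, hi⟩ := eventually_atTop.1 h
    refine c2.mem_of_tendsto (hw x) (((eventually_ge_atTop (max n i)).mono fun m hm =>
      Cre c1 hi _ (Canti _ (le_of_max_le_right hm) (an m (le_of_max_le_left hm)
        (hs m).1))).filter_mono Nat.hyperfilter_le_atTop)
  set α : ℕ → ℝ := fun n => sInf (A q n (v n) (s n)) with hα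
  have up : ∀ n, ‖v n + q ^ n • z n - w‖ ≤ α n + ε n := fun n => norm_le fun x hx =>
    le_of_forall_pos_le_add fun η hη => by
      have := wP (n + 1) x (Ici (re ((v n + q ^ n • z n) x) - (α n + ε n + η))) (convex_Ici _)
        isClosed_Ici (((hs n).2.2.1 x hx η hη).mono fun i hi => sub_le_comm.1 hi)
      rw [ContinuousLinearMap.sub_apply, map_sub]
      exact sub_le_comm.1 this
  have lo : ∀ n, α n - ε n ≤ ‖v n + q ^ n • z n - w‖ := fun n => by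
    obtain ⟨x, hx, h⟩ := (hs n).2.2.2
    have := wP (n + 1) x (Iic _) (convex_Iic _) isClosed_Iic (.of_forall h)
    refine le_trans ?_ (abs_le.1 (re_le _ hx)).2
    rw [ContinuousLinearMap.sub_apply, map_sub]
    exact le_sub_comm.1 this
  have mo : Monotone α := monotone_nat_of_le_succ fun n =>
    csInf_le_csInf (Abdd ..) (Ane _ _ _ (b _)) fun c ⟨g, hg, φ, hφ, hB⟩ =>
      ⟨(1 - q) • z n + q • g, convex_convexHull ℝ _ (hs n).1 (Canti _ n.le_succ ((hs n).2.1.sub _ hg))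
        (by linarith) q0.le (by ring), φ, fun i => (hs n).2.1.sub _ (hφ i), by
          convert hB using 1
          rw [vs]
          module⟩
  have a0 : θ ≤ α 0 := le_csInf (Ane _ _ _ (b _)) fun c ⟨g, hg, φ, hφ, hB⟩ =>
    H g (s0 ▸ hg) φ (s0 ▸ hφ) c (by simpa [v0] using hB)
  have dv : ∀ n, dist (v n) (v (n + 1)) ≤ (1 - q) * q ^ n := fun n => by
    rw [vs, dist_self_add_right, norm_smul, Real.norm_of_nonneg (by bound)]
    exact mul_le_of_le_one_right (by bound) (zb n)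
  obtain ⟨V, hV⟩ := cauchySeq_tendsto_of_complete (cauchySeq_of_le_geometric q _ q1 dv)
  have dV : ∀ n, ‖V - v n‖ ≤ q ^ n := fun n => by
    have := dist_le_of_le_geometric_of_tendsto q _ q1 dv hV n
    rwa [mul_div_cancel_left₀ _ (by linarith), dist_comm, dist_eq_norm] at this
  have tq := tendsto_pow_atTop_nhds_zero_of_lt_one q0.le q1
  have e1 : ∀ n, ε n ≤ q ^ n := fun n => by
    have : θ / 4 * q * (1 / 2) ^ (n + 1) ≤ 1 := by bound
    calc _ = q ^ n * (θ / 4 * q * (1 / 2) ^ (n + 1)) := by simp only [ε]; ring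
      _ ≤ _ := mul_le_of_le_one_right (by positivity) this
  have al : ∀ n, α n ≤ ‖V - w‖ := fun n => by
    refine ge_of_tendsto (by simpa using (tq.const_mul 3).const_add ‖V - w‖)
      ((eventually_ge_atTop n).mono fun m hm => (mo hm).trans ?_)
    have h1 : ‖q ^ m • z m‖ ≤ q ^ m := by
      rw [norm_smul, Real.norm_of_nonneg (by positivity)]
      exact mul_le_of_le_one_right (by positivity) (zb m)
    have h2 := norm_add_le (V - w - (V - v m)) (q ^ m • z m)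
    rw [show V - w - (V - v m) + q ^ m • z m = v m + q ^ m • z m - w by abel] at h2
    linarith [lo m, e1 m, dV m, norm_sub_le (V - w) (V - v m)]
  obtain ⟨t, ht, hN⟩ := NA (V - w)
  have wt := wP 0 t (Ici (-1)) (convex_Ici _) isClosed_Ici (.of_forall fun i =>
    (neg_le_neg (b 0 i)).trans (abs_le.1 (re_le _ ht)).1)
  have vt : ∀ n, re (v (n + 1) t) = re (v n t) + (1 - q) * q ^ n * re (z n t) := fun n => by
    simp [vs, real_smul_eq_coe_mul]
  have lb : ∀ n, q ^ n * (‖V - w‖ - θ / 4 * (1 - (1 / 2) ^ n)) ≤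
      ‖V - w‖ - (re (v n t) - (1 - q ^ n) * re (w t)) := fun n => by
    induction n with
    | zero => simp [v0]
    | succ n ih =>
      have h1 := ((abs_le.1 (re_le _ ht)).2.trans (up n)).trans (add_le_add_left (al n) _)
      have h2 : re ((v n + q ^ n • z n - w) t) = re (v n t) + q ^ n * re (z n t) - re (w t) := by
        simp [real_smul_eq_coe_mul]
      have h3 : 0 ≤ q * ε n := by positivity
      have h4 := mul_le_mul_of_nonneg_left ih q0.le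
      have h5 := mul_le_mul_of_nonneg_left h1 (sub_nonneg.2 q1.le)
      rw [h2] at h5
      rw [vt]
      simp only [ε, pow_succ] at *
      linarith
  have fin : ∀ n, re (w t) + θ / 2 ≤ re (z n t) := fun n => by
    have h1 := (abs_le.1 (re_le (V - v (n + 1)) ht)).2.trans (dV _)
    have h2 := lb n
    have h3 : 0 < q ^ n := by positivity
    have h4 := mul_le_mul_of_nonneg_left (show -1 ≤ re (w t) from wt) (mul_pos h3 q0).le
    have h5 := mul_le_mul_of_nonneg_left (a0.trans (al 0)) h3.le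
    have h6 : 0 ≤ q ^ n * (θ / 4 * (1 / 2) ^ n) := by positivity
    rw [ContinuousLinearMap.sub_apply, map_sub] at h1 hN
    rw [vt, pow_succ] at h1
    have h7 : q ^ n * (θ / 2) ≤ q ^ n * ((1 - q) * (re (z n t) - re (w t))) := by
      have : q ^ n * q = q ^ n * (θ / 8) := rfl
      linarith
    have h8 := le_of_mul_le_mul_left h7 h3
    nlinarith
  linarith [ge_of_tendsto' (hw t) fin]

end Pool.Agent.H29.James
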