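import Pool.Agent.H29.Laguerre

set_option autoImplicit false

namespace Pool.Agent.H29.Karp

open Polynomial Pool.Agent.H29.Laguerre

theorem term3 (f : ℕ → ℝ) (z : ℂ) (a b c : ℕ) :
    (Nat.multinomial Finset.univ ![a, b, c] : ℂ) * (∏ i, (f (![a, b, c] i) : ℂ)) *
      Matrix.det (Matrix.of (fun i j : Fin 3 =>
        (ascPochhammer ℂ (![a, b, c] i)).eval (z + ((j : ℕ) : ℂ) - ((i : ℕ) : ℂ)))) =
    (((a + b + c).factorial / (a.factorial * b.factorial * c.factorial) : ℕ) : ℂ) *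
      (f a * f b * f c) *
      ((∏ i ∈ Finset.range a, (z + i)) * (∏ i ∈ Finset.range b, (z + i)) *
          (∏ i ∈ Finset.range c, (z + i))
        - (∏ i ∈ Finset.range a, (z + i)) * (∏ i ∈ Finset.range b, (z + 1 + i)) *
          (∏ i ∈ Finset.range c, (z - 1 + i))
        - (∏ i ∈ Finset.range a, (z + 1 + i)) * (∏ i ∈ Finset.range b, (z - 1 + i)) *
          (∏ i ∈ Finset.range c, (z + i))
        + (∏ i ∈ Finset.range a, (z + 1 + i)) * (∏ i ∈ Finset.range b, (z + 1 + i)) *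
          (∏ i ∈ Finset.range c, (z - 2 + i))
        + (∏ i ∈ Finset.range a, (z + 2 + i)) * (∏ i ∈ Finset.range b, (z - 1 + i)) *
          (∏ i ∈ Finset.range c, (z - 1 + i))
        - (∏ i ∈ Finset.range a, (z + 2 + i)) * (∏ i ∈ Finset.range b, (z + i)) *
          (∏ i ∈ Finset.range c, (z - 2 + i))) := by
  rw [Matrix.det_fin_three]
  simp only [Nat.multinomial, Fin.sum_univ_three, Fin.prod_univ_three, Matrix.of_apply, poch_eval,
    Matrix.cons_val_zero, Matrix.cons_val_one, Matrix.cons_val_two, Matrix.head_cons,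
    Matrix.tail_cons, Fin.val_zero, Fin.val_one, Fin.val_two, Nat.cast_zero, Nat.cast_one,
    Nat.cast_ofNat, add_zero, sub_zero, add_sub_cancel_right, zero_add]
  have e1 : z + 2 - 1 = z + 1 := by ring
  have e2 : z + 1 - 2 = z - 1 := by ring
  rw [e1, e2]

theorem P11 (z : ℂ) :
    ∑ k ∈ Finset.Nat.antidiagonalTuple 3 11,
      (Nat.multinomial Finset.univ k : ℂ) * (∏ i, (((Nat.choose 11 (k i) : ℕ) : ℝ) : ℂ)) *
        Matrix.det (Matrix.of (fun i j : Fin 3 =>
          (ascPochhammer ℂ (k i)).eval (z + ((j : ℕ) : ℂ) - ((i : ℕ) : ℂ)))) =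
      15697281600 * ((z + 2) * (z + 3) * (883 * z ^ 3 + 5349 * z ^ 2 + 9926 * z + 5880)) := by
  rw [sum_tuple3]
  simp only [term3 (fun k => (Nat.choose 11 k : ℝ))]
  simp only [Finset.sum_range_succ, Finset.sum_range_zero, Finset.prod_range_succ,
    Finset.prod_range_zero, Nat.reduceAdd, Nat.reduceSub]
  norm_num [Nat.factorial, Nat.choose]
  ring

end Pool.Agent.H29.Karp
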