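import Mathlib

set_option autoImplicit false
open Filter Topology

namespace Pool.Agent.H29.Lac

noncomputable def bb (M : ℕ → ℝ) : ℕ → ℝ
  | 0 => 1
  | k + 1 => bb M k + 2 ^ (k + 4) * (k + 1) *
      ((k + 1) * (bb M k) ^ (2 * k + 4) + 1 + |M (2 * k + 3)| + |M (2 * k + 4)|)

theorem bb_one (M : ℕ → ℝ) (k : ℕ) : 1 ≤ bb M k := by
  induction k with
  | zero => simp [bb]
  | succ k ih =>
    have : 0 ≤ bb M k := by linarith
    have h2 : 0 ≤ 2 ^ (k + 4) * ((k : ℝ) + 1) *
      ((k + 1) * (bb M k) ^ (2 * k + 4) + 1 + |M (2 * k + 3)| + |M (2 * k + 4)|) := by positivity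
    rw [bb]; linarith

theorem bb_pos (M : ℕ → ℝ) (k : ℕ) : 0 < bb M k := lt_of_lt_of_le one_pos (bb_one M k)

theorem bb_mono (M : ℕ → ℝ) : Monotone (bb M) := by
  refine monotone_nat_of_le_succ fun k => ?_
  have := bb_pos M k
  have h2 : 0 ≤ 2 ^ (k + 4) * ((k : ℝ) + 1) *
    ((k + 1) * (bb M k) ^ (2 * k + 4) + 1 + |M (2 * k + 3)| + |M (2 * k + 4)|) := by positivity
  rw [bb]; linarith

noncomputable def w (M : ℕ → ℝ) (n j : ℕ) : ℝ := (1 / 2) ^ (j + 2) * (bb M j ^ n / bb M j ^ (2 * j))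

theorem w_pos (M : ℕ → ℝ) (n j : ℕ) : 0 < w M n j := by
  have := bb_pos M j
  unfold w; positivity

theorem w_le (M : ℕ → ℝ) (n j : ℕ) (h : n ≤ 2 * j) : w M n j ≤ (1 / 2) ^ (j + 2) := by
  have := bb_pos M j
  unfold w
  refine mul_le_of_le_one_right (by positivity) ?_
  rw [div_le_one (by positivity)]
  exact pow_le_pow_right₀ (bb_one M j) h

theorem w_le' (M : ℕ → ℝ) (n j : ℕ) : w M n j ≤ bb M j ^ n := by
  have := bb_pos M j
  unfold w
  have h1 : ((1 : ℝ) / 2) ^ (j + 2) ≤ 1 := pow_le_one₀ (by norm_num) (by norm_num)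
  have h2 : bb M j ^ n / bb M j ^ (2 * j) ≤ bb M j ^ n :=
    div_le_self (by positivity) (one_le_pow₀ (bb_one M j))
  calc _ ≤ 1 * (bb M j ^ n / bb M j ^ (2 * j)) := by gcongr
    _ ≤ _ := by linarith

theorem geo : HasSum (fun j : ℕ => ((1 : ℝ) / 2) ^ (j + 2)) (1 / 2) := by
  have := hasSum_geometric_two.mul_left (1 / 4 : ℝ)
  have e : (fun j : ℕ => ((1 : ℝ) / 2) ^ (j + 2)) = fun i => 1 / 4 * (1 / 2) ^ i := by
    ext j; ring
  rw [show (1 / 4 * 2 : ℝ) = 1 / 2 by norm_num] at this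
  rw [e]
  exact this

theorem w_summ (M : ℕ → ℝ) (n : ℕ) : Summable (w M n) := by
  refine Summable.of_norm_bounded_eventually_nat geo.summable ?_
  filter_upwards [eventually_ge_atTop n] with j hj
  rw [Real.norm_of_nonneg (w_pos M n j).le]
  exact w_le M n j (by omega)

noncomputable def T (M : ℕ → ℝ) (c : ℕ → ℝ) (n : ℕ) (x : ℝ) : ℝ :=
  ∑' j, c j * w M n j * iteratedDeriv n Real.cos (bb M j * x)

theorem term_bd (M : ℕ → ℝ) (c : ℕ → ℝ) (B : ℝ) (hc : ∀ k, |c k| ≤ B) (n j : ℕ) (x : ℝ) :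
    ‖c j * w M n j * iteratedDeriv n Real.cos (bb M j * x)‖ ≤ B * w M n j := by
  rw [Real.norm_eq_abs, abs_mul, abs_mul, abs_of_pos (w_pos M n j)]
  have h1 := Real.abs_iteratedDeriv_cos_le_one n (bb M j * x)
  have h2 := hc j
  have h3 := w_pos M n j
  have h4 : 0 ≤ B := (abs_nonneg _).trans h2
  calc _ ≤ B * w M n j * 1 := by gcongr
    _ = _ := by ring

theorem term_summ (M : ℕ → ℝ) (c : ℕ → ℝ) (B : ℝ) (hc : ∀ k, |c k| ≤ B) (n : ℕ) (x : ℝ) :
    Summable fun j => c j * w M n j * iteratedDeriv n Real.cos (bb M j * x) :=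
  Summable.of_norm_bounded ((w_summ M n).mul_left B) (fun j => term_bd M c B hc n j x)

theorem T_deriv (M : ℕ → ℝ) (c : ℕ → ℝ) (B : ℝ) (hc : ∀ k, |c k| ≤ B) (n : ℕ) (x : ℝ) :
    HasDerivAt (T M c n) (T M c (n + 1) x) x := by
  refine hasDerivAt_tsum (u := fun j => B * w M (n + 1) j)
    (g := fun j x => c j * w M n j * iteratedDeriv n Real.cos (bb M j * x))
    (g' := fun j x => c j * w M (n + 1) j * iteratedDeriv (n + 1) Real.cos (bb M j * x))
    ((w_summ M (n + 1)).mul_left B) (fun j y => ?_) (fun j y => term_bd M c B hc (n + 1) j y)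
    (term_summ M c B hc n 0) x
  have h1 : HasDerivAt (iteratedDeriv n Real.cos) (iteratedDeriv (n + 1) Real.cos (bb M j * y))
      (bb M j * y) := by
    rw [iteratedDeriv_succ]
    exact (Real.differentiable_iteratedDeriv_cos n _).hasDerivAt
  have h2 := (h1.comp y ((hasDerivAt_id y).const_mul (bb M j))).const_mul (c j * w M n j)
  refine HasDerivAt.congr_deriv h2 ?_
  simp only [w, pow_succ]; ring

theorem T_iter (M : ℕ → ℝ) (c : ℕ → ℝ) (B : ℝ) (hc : ∀ k, |c k| ≤ B) (n : ℕ) :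
    iteratedDeriv n (T M c 0) = T M c n := by
  induction n with
  | zero => simp
  | succ n ih =>
    rw [iteratedDeriv_succ, ih]
    ext x; exact (T_deriv M c B hc n x).deriv

theorem T_smooth (M : ℕ → ℝ) (c : ℕ → ℝ) (B : ℝ) (hc : ∀ k, |c k| ≤ B) :
    ContDiff ℝ (⊤ : ℕ∞) (T M c 0) := by
  refine contDiff_of_differentiable_iteratedDeriv fun n _ => ?_
  rw [T_iter M c B hc]
  exact fun x => (T_deriv M c B hc n x).differentiableAt

theorem T_bd (M : ℕ → ℝ) (c : ℕ → ℝ) (B : ℝ) (hc : ∀ k, |c k| ≤ B) (n : ℕ) (x : ℝ) :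
    |T M c n x| ≤ B * ∑' j, w M n j := by
  rw [← tsum_mul_left]
  exact tsum_of_norm_bounded ((w_summ M n).mul_left B).hasSum (fun j => term_bd M c B hc n j x)

theorem w_zero (M : ℕ → ℝ) : ∑' j, w M 0 j ≤ 1 / 2 :=
  hasSum_le (fun j => w_le M 0 j (by omega)) (w_summ M 0).hasSum geo

theorem rest (M : ℕ → ℝ) (k n : ℕ) (hn : n ≤ 2 * k + 4) :
    ∑' j, (if j = k + 1 then 0 else w M n j) ≤ (k + 1) * (bb M k) ^ (2 * k + 4) + 1 := by
  have hs : Summable fun j => if j < k + 1 then (bb M k) ^ (2 * k + 4) else 0 :=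
    summable_of_ne_finset_zero (s := Finset.range (k + 1)) (fun j hj => by
      simp only [Finset.mem_range] at hj; simp [hj])
  have he : ∑' j, (if j < k + 1 then (bb M k) ^ (2 * k + 4) else 0)
      = (k + 1) * (bb M k) ^ (2 * k + 4) := by
    rw [tsum_eq_sum (s := Finset.range (k + 1)) (fun j hj => by
      simp only [Finset.mem_range] at hj; simp [hj])]
    rw [Finset.sum_congr rfl (g := fun _ => (bb M k) ^ (2 * k + 4)) (fun j hj => by
      simp only [Finset.mem_range] at hj; simp [hj])]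
    simp
  have h1 : ∑' j, (if j = k + 1 then 0 else w M n j) ≤ (k + 1) * (bb M k) ^ (2 * k + 4) + 1 / 2 := by
    rw [← he]
    refine hasSum_le (fun j => ?_) (Summable.hasSum ?_) (hs.hasSum.add geo)
    · have hp : (0 : ℝ) ≤ (1 / 2) ^ (j + 2) := by positivity
      have hb := bb_pos M k
      rcases lt_trichotomy j (k + 1) with h | h | h
      · rw [if_neg h.ne, if_pos h]
        have h2 : bb M j ^ n ≤ bb M k ^ (2 * k + 4) :=
          (pow_le_pow_left₀ (bb_pos M j).le (bb_mono M (by omega)) n).trans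
            (pow_le_pow_right₀ (bb_one M k) hn)
        linarith [w_le' M n j]
      · rw [if_pos h, if_neg (by omega)]; linarith
      · rw [if_neg h.ne', if_neg (by omega)]
        linarith [w_le M n j (by omega)]
    · refine Summable.of_norm_bounded (w_summ M n) fun j => ?_
      split_ifs
      · simpa using (w_pos M n j).le
      · rw [Real.norm_of_nonneg (w_pos M n j).le]
  linarith

theorem big (M : ℕ → ℝ) (c : ℕ → ℝ) (B : ℝ) (hc : ∀ k, |c k| ≤ B) (k : ℕ) (x : ℝ)
    (hk : B + 1 ≤ |c k| * k) : ∃ n, k ≤ n ∧ (B + 1) * |M n| ≤ |T M c n x| := by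
  have hB : 0 ≤ B := (abs_nonneg _).trans (hc 0)
  obtain rfl | ⟨k, rfl⟩ : k = 0 ∨ ∃ j, k = j + 1 := by
    rcases k with _ | k
    · exact Or.inl rfl
    · exact Or.inr ⟨k, rfl⟩
  · simp at hk; linarith
  obtain ⟨n, hn, hcos⟩ : ∃ n, (n = 2 * k + 3 ∨ n = 2 * k + 4) ∧
      1 / 2 ≤ |iteratedDeriv n Real.cos (bb M (k + 1) * x)| := by
    by_cases h : 1 / 2 ≤ |Real.cos (bb M (k + 1) * x)|
    · refine ⟨2 * (k + 2), Or.inr (by ring), ?_⟩
      rw [Real.iteratedDeriv_even_cos]
      simpa [abs_mul, abs_pow] using h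
    · refine ⟨2 * (k + 1) + 1, Or.inl (by ring), ?_⟩
      rw [Real.iteratedDeriv_odd_cos]
      have h1 := Real.sin_sq_add_cos_sq (bb M (k + 1) * x)
      rw [← sq_abs (Real.sin _), ← sq_abs (Real.cos _)] at h1
      have h2 : 1 / 2 ≤ |Real.sin (bb M (k + 1) * x)| := by
        by_contra h3
        nlinarith [abs_nonneg (Real.sin (bb M (k + 1) * x)), abs_nonneg (Real.cos (bb M (k + 1) * x))]
      simpa [abs_mul, abs_pow] using h2
  refine ⟨n, by omega, ?_⟩
  set S : ℝ := (k + 1) * (bb M k) ^ (2 * k + 4) + 1 with hS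
  have hS0 : 0 ≤ S := by have := bb_pos M k; positivity
  have h1 : |∑' j, (if j = k + 1 then 0 else
      c j * w M n j * iteratedDeriv n Real.cos (bb M j * x))| ≤ B * S := by
    have hs : Summable fun j => (if j = k + 1 then 0 else w M n j) := by
      refine Summable.of_norm_bounded (w_summ M n) fun j => ?_
      split_ifs
      · simpa using (w_pos M n j).le
      · rw [Real.norm_of_nonneg (w_pos M n j).le]
    refine le_trans ?_ (mul_le_mul_of_nonneg_left (rest M k n (by omega)) hB)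
    rw [← tsum_mul_left]
    rw [← Real.norm_eq_abs]
    refine tsum_of_norm_bounded (hs.mul_left B).hasSum fun j => ?_
    split_ifs
    · simp
    · exact term_bd M c B hc n j x
  have h2 : T M c n x = c (k + 1) * w M n (k + 1) * iteratedDeriv n Real.cos (bb M (k + 1) * x)
      + ∑' j, (if j = k + 1 then 0 else c j * w M n j * iteratedDeriv n Real.cos (bb M j * x)) :=
    (term_summ M c B hc n x).tsum_eq_add_tsum_ite (k + 1)
  have h3 : 2 * ((k + 1) * (S + |M n|)) ≤ w M n (k + 1) := by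
    have hb := bb_pos M (k + 1)
    have h4 : bb M (k + 1) ≤ bb M (k + 1) ^ n / bb M (k + 1) ^ (2 * (k + 1)) := by
      rw [le_div_iff₀ (by positivity), ← pow_succ']
      exact pow_le_pow_right₀ (bb_one M _) (by omega)
    have h5 : 2 ^ (k + 4) * (k + 1) * (S + |M n|) ≤ bb M (k + 1) := by
      have h6 : S + |M n| ≤ S + |M (2 * k + 3)| + |M (2 * k + 4)| := by
        rcases hn with rfl | rfl
        · linarith [abs_nonneg (M (2 * k + 4))]
        · linarith [abs_nonneg (M (2 * k + 3))]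
      have h7 := bb_pos M k
      rw [bb, ← hS]
      have : 2 ^ (k + 4) * ((k : ℝ) + 1) * (S + |M n|) ≤
        2 ^ (k + 4) * (k + 1) * (S + |M (2 * k + 3)| + |M (2 * k + 4)|) := by gcongr
      linarith
    unfold w
    calc _ = (1 / 2) ^ (k + 1 + 2) * (2 ^ (k + 4) * (k + 1) * (S + |M n|)) := by
          rw [one_div, inv_pow]; field_simp; ring
      _ ≤ _ := by gcongr; exact h5.trans h4
  have h8 : (B + 1) * (S + |M n|) ≤
      |c (k + 1) * w M n (k + 1) * iteratedDeriv n Real.cos (bb M (k + 1) * x)| := by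
    rw [abs_mul, abs_mul, abs_of_pos (w_pos M n _)]
    push_cast at hk
    calc _ ≤ (|c (k + 1)| * (k + 1)) * (S + |M n|) := by gcongr
      _ = |c (k + 1)| * (2 * ((k + 1) * (S + |M n|))) * (1 / 2) := by ring
      _ ≤ _ := by gcongr; exact mul_nonneg (abs_nonneg _) (w_pos M n _).le
  rw [h2]
  have h9 := abs_add_le (c (k + 1) * w M n (k + 1) * iteratedDeriv n Real.cos (bb M (k + 1) * x)
      + ∑' j, (if j = k + 1 then 0 else c j * w M n j * iteratedDeriv n Real.cos (bb M j * x)))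
      (-∑' j, (if j = k + 1 then 0 else c j * w M n j * iteratedDeriv n Real.cos (bb M j * x)))
  rw [add_neg_cancel_right, abs_neg] at h9
  nlinarith

end Pool.Agent.H29.Lac
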