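import Mathlib

set_option autoImplicit false

namespace Pool.Agent.H29.Laguerre

open Polynomial

theorem laguerre_aux (n : ℕ) : ∀ p : ℝ[X], p.natDegree = n →
    (∀ z : ℂ, aeval z p = 0 → z.im = 0) → ∀ x : ℝ,
    p.eval x * (derivative (derivative p)).eval x ≤ ((derivative p).eval x) ^ 2 := by
  induction n with
  | zero =>
    intro p hp _ x
    rw [eq_C_of_natDegree_eq_zero hp]
    simp
  | succ n ih =>
    intro p hp hr x
    have hp0 : p ≠ 0 := by
      rintro rfl
      simp at hp
    have hdeg : (p.map (algebraMap ℝ ℂ)).degree ≠ 0 := by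
      rw [degree_map, degree_eq_natDegree hp0, hp]
      exact_mod_cast Nat.succ_ne_zero n
    obtain ⟨z, hz⟩ := IsAlgClosed.exists_root _ hdeg
    have hz' : aeval z p = 0 := by
      rwa [IsRoot.def, eval_map_algebraMap] at hz
    have him := hr z hz'
    have hzr : z = ((z.re : ℝ) : ℂ) := by
      apply Complex.ext <;> simp [him]
    have hroot : p.IsRoot z.re := by
      rw [hzr] at hz'
      have : aeval ((algebraMap ℝ ℂ) z.re) p = algebraMap ℝ ℂ (aeval z.re p) :=
        aeval_algebraMap_apply ℂ z.re p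
      rw [show ((z.re : ℝ) : ℂ) = algebraMap ℝ ℂ z.re from rfl, this] at hz'
      simpa using hz'
    obtain ⟨q, hq⟩ := dvd_iff_isRoot.mpr hroot
    have hq0 : q ≠ 0 := by
      rintro rfl
      simp at hq
      exact hp0 hq
    have hqd : q.natDegree = n := by
      rw [hq, natDegree_mul (X_sub_C_ne_zero _) hq0, natDegree_X_sub_C] at hp
      omega
    have := ih q hqd (fun w hw => hr w (by rw [hq, map_mul, hw, mul_zero])) x
    rw [hq]
    simp only [derivative_mul, derivative_sub, derivative_X, derivative_C, sub_zero, one_mul,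
      derivative_add, eval_mul, eval_add, eval_sub, eval_X, eval_C]
    nlinarith [sq_nonneg (q.eval x), mul_le_mul_of_nonneg_left this (sq_nonneg (x - z.re))]

theorem exists_nonreal (p : ℝ[X]) (x : ℝ)
    (h : ((derivative p).eval x) ^ 2 < p.eval x * (derivative (derivative p)).eval x) :
    ∃ z : ℂ, aeval z p = 0 ∧ z.im ≠ 0 := by
  by_contra hc
  push Not at hc
  exact absurd (laguerre_aux _ p rfl hc x) (not_le.mpr h)

theorem poch_eval {R : Type} [CommRing R] (k : ℕ) (x : R) :
    (ascPochhammer R k).eval x = ∏ i ∈ Finset.range k, (x + i) := by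
  induction k with
  | zero => simp
  | succ k ih => rw [ascPochhammer_succ_eval, ih, Finset.prod_range_succ]

theorem sum_tuple3 {M : Type} [AddCommMonoid M] (n : ℕ) (F : (Fin 3 → ℕ) → M) :
    ∑ k ∈ Finset.Nat.antidiagonalTuple 3 n, F k =
      ∑ a ∈ Finset.range (n + 1), ∑ b ∈ Finset.range (n + 1 - a), F ![a, b, n - a - b] := by
  rw [Finset.sum_sigma']
  symm
  refine Finset.sum_nbij' (fun p => ![p.1, p.2, n - p.1 - p.2]) (fun k => ⟨k 0, k 1⟩)
    ?_ ?_ ?_ ?_ ?_
  · rintro ⟨a, b⟩ h
    simp only [Finset.mem_sigma, Finset.mem_range] at h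
    simp only [Finset.Nat.mem_antidiagonalTuple, Fin.sum_univ_three]
    simp
    omega
  · intro k h
    simp only [Finset.Nat.mem_antidiagonalTuple, Fin.sum_univ_three] at h
    simp only [Finset.mem_sigma, Finset.mem_range]
    omega
  · rintro ⟨a, b⟩ _
    simp
  · intro k h
    simp only [Finset.Nat.mem_antidiagonalTuple, Fin.sum_univ_three] at h
    funext i
    fin_cases i <;> simp
    omega
  · intro _ _
    rfl

end Pool.Agent.H29.Laguerre
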