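import Pool.Agent.H29.Lip1

namespace H29.Lip

open Filter Topology Metric

variable {M : Type*} [MetricSpace M]

noncomputable def cf {o : M} {f : M → M} {K : NNReal} (hf : LipschitzWith K f) (h0 : f o = o)
    (g : L0 o) : L0 o :=
  mk o (fun x => fn g (f x)) (by rw [h0, fn_base]) (‖g‖ * K) (by positivity) (fun x y => by
    have h1 := le_norm g (f x) (f y)
    have h2 := hf.dist_le_mul x y
    rw [mul_assoc]
    exact h1.trans (mul_le_mul_of_nonneg_left h2 (norm_nonneg _)))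

lemma fn_cf {o : M} {f : M → M} {K : NNReal} (hf : LipschitzWith K f) (h0 : f o = o)
    (g : L0 o) (x : M) : fn (cf hf h0 g) x = fn g (f x) := rfl

lemma cont_ev {o : M} (g : L0 o) : Continuous fun γ : Free o => val γ g :=
  (ContinuousLinearMap.apply ℂ ℂ g).continuous.comp continuous_subtype_val

lemma ev_le {o : M} (γ : Free o) (g : L0 o) : ‖val γ g‖ ≤ ‖γ‖ * ‖g‖ :=
  (val γ).le_opNorm g

lemma T_eval {o : M} {f : M → M} {K : NNReal} (hf : LipschitzWith K f) (h0 : f o = o)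
    (T : Free o →L[ℂ] Free o) (hT : ∀ x, T (dl o x) = dl o (f x)) (g : L0 o) (γ : Free o) :
    val (T γ) g = val γ (cf hf h0 g) := by
  refine free_induction (p := fun γ => val (T γ) g = val γ (cf hf h0 g))
    (isClosed_eq ((cont_ev g).comp T.continuous) (cont_ev _)) (fun x => ?_) ?_ ?_ ?_ γ
  · rw [hT]; rfl
  · simp only [map_zero, val_zero]
  · intro a b ha hb
    simp only [map_add, val_add, ha, hb]
  · intro c a ha
    simp only [map_smul, val_smul, ha]

lemma sum_mono_union {o : M} [DecidableEq M] (S S' : Finset M) (g : L0 o) :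
    ∑ s ∈ S, ‖fn g s‖ ≤ ∑ s ∈ S ∪ S', ‖fn g s‖ ∧ ∑ s ∈ S', ‖fn g s‖ ≤ ∑ s ∈ S ∪ S', ‖fn g s‖ :=
  ⟨Finset.sum_le_sum_of_subset_of_nonneg Finset.subset_union_left fun _ _ _ => norm_nonneg _,
   Finset.sum_le_sum_of_subset_of_nonneg Finset.subset_union_right fun _ _ _ => norm_nonneg _⟩

def good (o : M) : Submodule ℂ (Free o) where
  carrier := {c | ∃ S : Finset M, ∃ C : ℝ, 0 ≤ C ∧
    ∀ g, ‖val c g‖ ≤ C * ∑ s ∈ S, ‖fn g s‖}
  add_mem' := by
    classical
    rintro a b ⟨S, C, hC, h⟩ ⟨S', C', hC', h'⟩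
    refine ⟨S ∪ S', C + C', by positivity, fun g => ?_⟩
    obtain ⟨h1, h2⟩ := sum_mono_union S S' g
    have e : val (a + b) g
        = val a g + val b g := rfl
    rw [e]
    have := norm_add_le (val a g) (val b g)
    have := h g
    have := h' g
    have := mul_le_mul_of_nonneg_left h1 hC
    have := mul_le_mul_of_nonneg_left h2 hC'
    linarith
  zero_mem' := ⟨∅, 0, le_rfl, fun g => by simp [val_zero]⟩
  smul_mem' := by
    rintro c a ⟨S, C, hC, h⟩
    refine ⟨S, ‖c‖ * C, by positivity, fun g => ?_⟩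
    have e : val (c • a) g = c * val a g := rfl
    rw [e, norm_mul, mul_assoc]
    exact mul_le_mul_of_nonneg_left (h g) (norm_nonneg _)

lemma good_dense {o : M} (γ : Free o) : γ ∈ (good o).topologicalClosure := by
  refine free_induction (p := fun γ => γ ∈ (good o).topologicalClosure)
    (Submodule.isClosed_topologicalClosure _) (fun x => ?_) (zero_mem _)
    (fun a b => add_mem) (fun c a => Submodule.smul_mem _ c) γ
  refine Submodule.le_topologicalClosure _ ⟨{x}, 1, zero_le_one, fun g => ?_⟩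
  simp [val_dl]

lemma compact_est {o : M} {A : Set (Free o)} (hA : IsCompact A) {ε : ℝ} (hε : 0 < ε) :
    ∃ S : Finset M, ∃ C : ℝ, 0 ≤ C ∧ ∀ k ∈ A, ∀ g,
      ‖val k g‖ ≤ ε * ‖g‖ + C * ∑ s ∈ S, ‖fn g s‖ := by
  classical
  refine hA.induction_on (p := fun A => ∃ S : Finset M, ∃ C : ℝ, 0 ≤ C ∧ ∀ k ∈ A, ∀ g,
      ‖val k g‖ ≤ ε * ‖g‖ + C * ∑ s ∈ S, ‖fn g s‖) ?_ ?_ ?_ ?_
  · exact ⟨∅, 0, le_rfl, fun k hk => hk.elim⟩
  · rintro s t hst ⟨S, C, hC, h⟩
    exact ⟨S, C, hC, fun k hk => h k (hst hk)⟩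
  · rintro s t ⟨S, C, hC, h⟩ ⟨S', C', hC', h'⟩
    refine ⟨S ∪ S', C + C', by positivity, fun k hk g => ?_⟩
    obtain ⟨h1, h2⟩ := sum_mono_union S S' g
    have a1 := mul_le_mul_of_nonneg_left h1 hC
    have a2 := mul_le_mul_of_nonneg_left h2 hC'
    have hn : 0 ≤ ∑ s ∈ S ∪ S', ‖fn g s‖ := Finset.sum_nonneg fun _ _ => norm_nonneg _
    have a3 := mul_nonneg hC hn
    have a4 := mul_nonneg hC' hn
    rcases hk with hk | hk
    · have := h k hk g; linarith
    · have := h' k hk g; linarith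
  · intro x _
    have hx : x ∈ closure (good o : Set (Free o)) := good_dense x
    obtain ⟨c, ⟨S, C, hC, h⟩, hc⟩ := Metric.mem_closure_iff.1 hx ε hε
    refine ⟨ball c ε, mem_nhdsWithin_of_mem_nhds (isOpen_ball.mem_nhds hc), S, C, hC,
      fun k hk g => ?_⟩
    have e : val k g = val (k - c) g + val c g := by
      rw [val_sub]; ring
    rw [e]
    have a1 := norm_add_le (val (k - c) g) (val c g)
    have a2 := ev_le (k - c) g
    have a3 : ‖k - c‖ ≤ ε := by rw [← dist_eq_norm]; exact le_of_lt hk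
    have a4 := mul_le_mul_of_nonneg_right a3 (norm_nonneg g)
    have := h g
    linarith

/-- The estimate that encodes compactness. -/
def HU (o : M) (f : M → M) : Prop :=
  ∀ ε : ℝ, 0 < ε → ∃ S : Finset M, ∃ C : ℝ, 0 ≤ C ∧ ∀ (g : L0 o) (x y : M),
    ‖fn g (f x) - fn g (f y)‖ ≤ (ε * ‖g‖ + C * ∑ s ∈ S, ‖fn g s‖) * dist x y

lemma hu_of_compact {o : M} {f : M → M}
    (T : Free o →L[ℂ] Free o) (hT : ∀ x, T (dl o x) = dl o (f x)) (hc : IsCompactOperator T) :
    HU o f := by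
  intro ε hε
  obtain ⟨A, hA, hA'⟩ := hc.image_closedBall_subset_compact (1 : ℝ)
  obtain ⟨S, C, hC, h⟩ := compact_est hA hε
  refine ⟨S, C, hC, fun g x y => ?_⟩
  rcases eq_or_ne x y with rfl | hxy
  · simp
  have hd := dist_pos.2 hxy
  set m : Free o := ((dist x y : ℂ)⁻¹) • (dl o x - dl o y) with hm
  have hm1 : ‖m‖ ≤ 1 := by
    change ‖val m‖ ≤ 1
    refine ContinuousLinearMap.opNorm_le_bound _ zero_le_one fun g => ?_
    have e : val m g = ((dist x y : ℂ)⁻¹) * (fn g x - fn g y) := rfl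
    rw [e, norm_mul, norm_inv, Complex.norm_real, Real.norm_eq_abs, abs_of_pos hd,
      inv_mul_le_iff₀ hd]
    have := le_norm g x y
    linarith
  have h1 := h (T m) (hA' ⟨m, by simpa using hm1, rfl⟩) g
  have e : val (T m) g = ((dist x y : ℂ)⁻¹) * (fn g (f x) - fn g (f y)) := by
    rw [hm, map_smul, map_sub, hT, hT]; rfl
  rw [e, norm_mul, norm_inv, Complex.norm_real, Real.norm_eq_abs, abs_of_pos hd,
      inv_mul_le_iff₀ hd] at h1
  linarith

end H29.Lip
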