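import Pool.Agent.H29.Lip2

namespace H29.Lip

open Filter Topology Metric Function

variable {M : Type*} [MetricSpace M]

/-- a real 1-Lipschitz function vanishing on the finite set gives an estimate -/
lemma hu_real {o : M} {f : M → M} (H : HU o f) {ε : ℝ} (hε : 0 < ε) :
    ∃ S : Finset M, o ∈ S ∧ ∀ u : M → ℝ, (∀ x y, |u x - u y| ≤ dist x y) → (∀ s ∈ S, u s = 0) →
      ∀ x y, |u (f x) - u (f y)| ≤ ε * dist x y := by
  classical
  obtain ⟨S, C, hC, h⟩ := H ε hε
  refine ⟨insert o S, Finset.mem_insert_self _ _, fun u hu h0 x y => ?_⟩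
  have hl : ∀ x y, ‖(u x : ℂ) - (u y : ℂ)‖ ≤ 1 * dist x y := fun x y => by
    rw [← Complex.ofReal_sub, Complex.norm_real, Real.norm_eq_abs, one_mul]; exact hu x y
  set g : L0 o := mk o (fun x => (u x : ℂ)) (by simp [h0 o (Finset.mem_insert_self _ _)]) 1
    zero_le_one hl with hg
  have h1 : ‖g‖ ≤ 1 := norm_le g zero_le_one hl
  have h2 : ∑ s ∈ S, ‖fn g s‖ = 0 := Finset.sum_eq_zero fun s hs => by
    change ‖(u s : ℂ)‖ = 0
    simp [h0 s (Finset.mem_insert_of_mem hs)]
  have h3 := h g x y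
  rw [h2] at h3
  change ‖(u (f x) : ℂ) - (u (f y) : ℂ)‖ ≤ _ at h3
  rw [← Complex.ofReal_sub, Complex.norm_real, Real.norm_eq_abs] at h3
  refine h3.trans (mul_le_mul_of_nonneg_right ?_ dist_nonneg)
  nlinarith

lemma inf_lip (S : Set M) (x y : M) : |infDist x S - infDist y S| ≤ dist x y := by
  have := (lipschitz_infDist_pt S).dist_le_mul x y
  simpa [Real.dist_eq] using this

lemma exists_near (S : Finset M) {o : M} (ho : o ∈ S) (x : M) :
    ∃ s ∈ S, dist x s = infDist x (S : Set M) := by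
  obtain ⟨s, hs, e⟩ := S.finite_toSet.isCompact.exists_infDist_eq_dist ⟨o, ho⟩ x
  exact ⟨s, hs, e.symm⟩

lemma near {o : M} {f : M → M} (H : HU o f) (h0 : f o = o) {ε : ℝ} (hε : 0 < ε) :
    ∃ S : Finset M, ∀ x, ∃ s ∈ S, dist (f x) s ≤ ε * dist x o := by
  obtain ⟨S, ho, h⟩ := hu_real H hε
  refine ⟨S, fun x => ?_⟩
  obtain ⟨s, hs, e⟩ := exists_near S ho (f x)
  refine ⟨s, hs, ?_⟩
  have := h (fun z => infDist z (S : Set M)) (inf_lip _) (fun s hs => infDist_zero_of_mem hs) x o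
  rw [h0, infDist_zero_of_mem (show o ∈ (S : Set M) from ho), sub_zero] at this
  rw [e]; exact (le_abs_self _).trans this

lemma pos_lb {ι : Type*} (A : Finset ι) (φ : ι → ℝ) (h : ∀ a ∈ A, 0 < φ a) :
    ∃ r > 0, ∀ a ∈ A, r ≤ φ a := by
  classical
  induction A using Finset.induction_on with
  | empty => exact ⟨1, one_pos, fun a ha => by simp at ha⟩
  | insert b A hb ih =>
    obtain ⟨r, hr, hr'⟩ := ih fun a ha => h a (Finset.mem_insert_of_mem ha)
    refine ⟨min r (φ b), lt_min hr (h b (Finset.mem_insert_self _ _)), fun a ha => ?_⟩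
    rcases Finset.mem_insert.1 ha with rfl | ha
    · exact min_le_right _ _
    · exact (min_le_left _ _).trans (hr' a ha)

lemma flat {o : M} {f : M → M} {K : NNReal} (hf : LipschitzWith K f) (H : HU o f)
    {ε : ℝ} (hε : 0 < ε) :
    ∃ η > 0, ∀ x y, dist x y < η → dist (f x) (f y) ≤ ε * dist x y := by
  classical
  obtain ⟨S, ho, h⟩ := hu_real H (half_pos hε)
  obtain ⟨r, hr, hr'⟩ := pos_lb ((S ×ˢ S).filter fun p => p.1 ≠ p.2) (fun p => dist p.1 p.2)
    (fun a ha => dist_pos.2 (Finset.mem_filter.1 ha).2)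
  have key : ∀ x y, min (dist (f x) (f y)) (infDist (f x) (S : Set M)) ≤ ε / 2 * dist x y := by
    intro x y
    have := h (fun z => min (dist z (f y)) (infDist z (S : Set M))) (fun a b => by
        refine (abs_min_sub_min_le_max _ _ _ _).trans (max_le ?_ (inf_lip _ a b))
        exact abs_dist_sub_le a b (f y))
      (fun s hs => by
        rw [infDist_zero_of_mem (show s ∈ (S : Set M) from hs)]
        exact min_eq_right dist_nonneg) x y
    rw [dist_self, min_eq_left infDist_nonneg, sub_zero] at this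
    exact (le_abs_self _).trans this
  refine ⟨r / (ε + K + 1), by positivity, fun x y hxy => ?_⟩
  have hd : 0 ≤ dist x y := dist_nonneg
  by_contra hn
  push Not at hn
  have a1 : infDist (f x) (S : Set M) ≤ ε / 2 * dist x y := by
    rcases min_le_iff.1 (key x y) with a | a
    · nlinarith
    · exact a
  have a2 : infDist (f y) (S : Set M) ≤ ε / 2 * dist x y := by
    rcases min_le_iff.1 (key y x) with a | a
    · rw [dist_comm (f y), dist_comm y] at a; nlinarith
    · rwa [dist_comm y] at a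
  obtain ⟨s, hs, e⟩ := exists_near S ho (f x)
  obtain ⟨t, ht, e'⟩ := exists_near S ho (f y)
  rw [← e] at a1; rw [← e'] at a2
  by_cases hst : s = t
  · subst hst
    have := dist_triangle_right (f x) (f y) s
    linarith
  · have b1 := hr' (s, t) (Finset.mem_filter.2 ⟨Finset.mem_product.2 ⟨hs, ht⟩, hst⟩)
    have b2 := dist_triangle4 s (f x) (f y) t
    have b3 := hf.dist_le_mul x y
    rw [dist_comm s (f x)] at b2
    rw [lt_div_iff₀ (by positivity)] at hxy
    simp only at b1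
    nlinarith

lemma radial {o : M} {f : M → M} (H : HU o f) (h0 : f o = o) :
    ∃ R, 0 ≤ R ∧ ∀ x, dist (f x) o ≤ R + dist x o / 2 := by
  obtain ⟨S, h⟩ := near H h0 (by norm_num : (0:ℝ) < 1 / 2)
  refine ⟨∑ s ∈ S, dist s o, Finset.sum_nonneg fun _ _ => dist_nonneg, fun x => ?_⟩
  obtain ⟨s, hs, h1⟩ := h x
  have h2 : dist s o ≤ ∑ s ∈ S, dist s o :=
    Finset.single_le_sum (f := fun s => dist s o) (fun _ _ => dist_nonneg) hs
  have := dist_triangle (f x) s o
  linarith

lemma orbit_bd {o : M} {f : M → M} {R : ℝ} (hR : 0 ≤ R) (h : ∀ x, dist (f x) o ≤ R + dist x o / 2)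
    (x : M) (k : ℕ) : dist (f^[k] x) o ≤ 2 * R + dist x o ∧
      dist (f^[k + 1] x) o ≤ 2 * R + dist x o / 2 := by
  induction k with
  | zero =>
    have := h x
    simp only [iterate_zero, id, zero_add, iterate_one]
    constructor <;> linarith
  | succ k ih =>
    have := h (f^[k + 1] x)
    rw [iterate_succ_apply' f (k + 1)]
    have : 0 ≤ dist x o := dist_nonneg
    constructor <;> linarith [ih.2]

lemma tb {o : M} {f : M → M} (H : HU o f) (h0 : f o = o) {ρ η : ℝ} (hρ : 0 ≤ ρ) (hη : 0 < η) :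
    ∃ S : Finset M, ∀ x, dist x o ≤ ρ → ∃ s ∈ S, dist (f x) s < η := by
  obtain ⟨S, h⟩ := near H h0 (show 0 < η / (ρ + 1) by positivity)
  refine ⟨S, fun x hx => ?_⟩
  obtain ⟨s, hs, h1⟩ := h x
  refine ⟨s, hs, h1.trans_lt ?_⟩
  rw [div_mul_eq_mul_div, div_lt_iff₀ (by positivity)]
  nlinarith

lemma contr {f : M → M} {θ η : ℝ} (hθ : 0 ≤ θ) (hθ1 : θ ≤ 1)
    (h : ∀ x y, dist x y < η → dist (f x) (f y) ≤ θ * dist x y) {x y : M} (hxy : dist x y < η)
    (k : ℕ) : dist (f^[k] x) (f^[k] y) ≤ θ ^ k * dist x y := by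
  induction k with
  | zero => simp
  | succ k ih =>
    rw [iterate_succ_apply', iterate_succ_apply', pow_succ']
    have h1 : θ ^ k * dist x y ≤ dist x y :=
      mul_le_of_le_one_left dist_nonneg (pow_le_one₀ hθ hθ1)
    refine (h _ _ (by linarith)).trans ?_
    rw [mul_assoc]
    exact mul_le_mul_of_nonneg_left ih hθ

lemma per_finite {o : M} {f : M → M} {K : NNReal} (hf : LipschitzWith K f) (H : HU o f)
    (h0 : f o = o) : (periodicPts f).Finite := by
  obtain ⟨R, hR, hr⟩ := radial H h0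
  obtain ⟨η, hη, hfl⟩ := flat hf H (by norm_num : (0:ℝ) < 1 / 2)
  obtain ⟨S, hS⟩ := tb H h0 (show 0 ≤ 6 * R by positivity) (half_pos hη)
  have h1 : ∀ p ∈ periodicPts f, ∃ s ∈ S, dist p s < η / 2 := by
    rintro p ⟨n, hn, hp⟩
    obtain ⟨k, rfl⟩ : ∃ k, n = k + 1 := ⟨n - 1, by omega⟩
    have a := orbit_bd hR hr p k
    have e : f^[k + 1] p = p := hp
    rw [e] at a
    obtain ⟨s, hs, h2⟩ := hS (f^[k] p) (by linarith [a.1, a.2])
    rw [← iterate_succ_apply' f k, e] at h2
    exact ⟨s, hs, h2⟩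
  choose! σ hσ hσ' using h1
  refine Set.Finite.of_injOn (f := σ) (t := (S : Set M)) (fun p hp => hσ p hp) ?_ S.finite_toSet
  intro p hp q hq e
  have hd : dist p q < η := by
    have := dist_triangle_right p q (σ p)
    have a := hσ' p hp
    have b := hσ' q hq
    rw [← e] at b
    linarith
  obtain ⟨n, hn, hp'⟩ := hp
  obtain ⟨m, hm, hq'⟩ := hq
  have a := contr (by norm_num) (by norm_num) hfl hd (n * m)
  have e1 : f^[n * m] p = p := hp'.mul_const m
  have e2 : f^[n * m] q = q := hq'.const_mul n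
  rw [e1, e2] at a
  have b : (1 / 2 : ℝ) ^ (n * m) ≤ 1 / 2 :=
    pow_le_of_le_one (by norm_num) (by norm_num) (Nat.mul_pos hn hm).ne'
  have c : 0 ≤ dist p q := dist_nonneg
  exact dist_le_zero.1 (by nlinarith)

lemma asym [CompleteSpace M] {o : M} {f : M → M} {K : NNReal} (hf : LipschitzWith K f)
    (H : HU o f) (h0 : f o = o) {ε : ℝ} (hε : 0 < ε) (hε1 : ε ≤ 1 / 2) (x : M) :
    ∃ C, 0 ≤ C ∧ ∀ k, ∃ p ∈ periodicPts f, dist (f^[k] x) p ≤ C * ε ^ k := by
  obtain ⟨R, hR, hr⟩ := radial H h0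
  obtain ⟨η, hη, hfl⟩ := flat hf H hε
  set ρ := 2 * R + dist x o with hρ
  have hρ0 : 0 ≤ ρ := by positivity
  obtain ⟨S, hS⟩ := tb H h0 hρ0 (show 0 < η / 4 by positivity)
  have h1 : ∀ k : ℕ, ∃ s ∈ S, dist (f^[k + 1] x) s < η / 4 := fun k => by
    rw [iterate_succ_apply']; exact hS _ (orbit_bd hR hr x k).1
  choose σ hσ hσ' using h1
  obtain ⟨i, j, hij, e⟩ := Set.Finite.exists_lt_map_eq_of_forall_mem (f := σ) (t := (S : Set M))
    hσ S.finite_toSet
  obtain ⟨m, rfl⟩ : ∃ m, j = i + (m + 1) := ⟨j - i - 1, by omega⟩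
  obtain ⟨y, hy⟩ : ∃ y, y = f^[i + 1] x := ⟨_, rfl⟩
  have hd : dist y (f^[m + 1] y) < η / 2 := by
    have a := hσ' i
    have b := hσ' (i + (m + 1))
    rw [← e] at b
    have e2 : f^[m + 1] y = f^[i + (m + 1) + 1] x := by
      rw [hy, ← iterate_add_apply]; congr 1; ring
    rw [e2, hy]
    have := dist_triangle_right (f^[i + 1] x) (f^[i + (m + 1) + 1] x) (σ i)
    linarith
  have hu : ∀ n, dist ((f^[m + 1])^[n] y) ((f^[m + 1])^[n + 1] y)
      ≤ 2 * dist y (f^[m + 1] y) / 2 / 2 ^ n := by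
    intro n
    rw [iterate_succ_apply, ← iterate_mul]
    have a := contr hε.le (by linarith) hfl (show dist y (f^[m + 1] y) < η by linarith) ((m + 1) * n)
    have b : ε ^ ((m + 1) * n) ≤ (1 / 2) ^ n :=
      (pow_le_pow_left₀ hε.le hε1 _).trans
        (pow_le_pow_of_le_one (by norm_num) (by norm_num) (by nlinarith))
    have c := mul_le_mul_of_nonneg_right b (dist_nonneg (x := y) (y := f^[m + 1] y))
    have e3 : (1 / 2 : ℝ) ^ n * dist y (f^[m + 1] y) = 2 * dist y (f^[m + 1] y) / 2 / 2 ^ n := by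
      rw [one_div, inv_pow]; field_simp
    linarith
  obtain ⟨p, hp⟩ := cauchySeq_tendsto_of_complete (cauchySeq_of_le_geometric_two hu)
  have hdp := dist_le_of_le_geometric_two_of_tendsto₀ hu hp
  have hfix : IsFixedPt (f^[m + 1]) p :=
    isFixedPt_of_tendsto_iterate hp (hf.continuous.iterate _).continuousAt
  have hper : p ∈ periodicPts f := ⟨m + 1, Nat.succ_pos _, hfix⟩
  simp only [iterate_zero, id] at hdp
  have hεi : 0 < ε ^ (i + 1) := by positivity
  refine ⟨(η + ρ) / ε ^ (i + 1), by positivity, fun k => ?_⟩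
  rcases le_or_gt (i + 1) k with hk | hk
  · obtain ⟨l, rfl⟩ : ∃ l, k = l + (i + 1) := ⟨k - (i + 1), by omega⟩
    refine ⟨f^[l] p, ?_, ?_⟩
    · exact ⟨m + 1, Nat.succ_pos _, IsPeriodicPt.apply_iterate hfix l⟩
    · rw [iterate_add_apply, ← hy]
      have a := contr hε.le (by linarith) hfl (show dist y p < η by linarith) l
      have e4 : (η + ρ) / ε ^ (i + 1) * ε ^ (l + (i + 1)) = ε ^ l * (η + ρ) := by
        rw [pow_add ε l]; field_simp
      rw [e4]
      exact a.trans (mul_le_mul_of_nonneg_left (by linarith) (by positivity))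
  · refine ⟨o, ⟨1, one_pos, h0⟩, (orbit_bd hR hr x k).1.trans ?_⟩
    have a : ε ^ (i + 1) ≤ ε ^ k := pow_le_pow_of_le_one hε.le (by linarith) hk.le
    rw [div_mul_eq_mul_div, le_div_iff₀ hεi]
    have : 0 < ε ^ k := by positivity
    nlinarith

end H29.Lip
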