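import Mathlib

namespace H29.LipR

open Filter Topology Metric

variable {M : Type*} [MetricSpace M]

/-- Real Lipschitz functions on `M` vanishing at the base point `o`. -/
def lipSub (o : M) : Submodule ℝ (M → ℝ) where
  carrier := {g | g o = 0 ∧ ∃ c : ℝ, 0 ≤ c ∧ ∀ x y, |g x - g y| ≤ c * dist x y}
  add_mem' := by
    rintro g h ⟨g0, c, hc, hg⟩ ⟨h0, d, hd, hh⟩
    refine ⟨by simp [g0, h0], c + d, by positivity, fun x y => ?_⟩
    have e : (g + h) x - (g + h) y = (g x - g y) + (h x - h y) := by simp; ring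
    rw [e]
    have := abs_add_le (g x - g y) (h x - h y)
    have := hg x y
    have := hh x y
    linarith
  zero_mem' := ⟨rfl, 0, le_rfl, fun x y => by simp⟩
  smul_mem' := by
    rintro a g ⟨g0, c, hc, hg⟩
    refine ⟨by simp [g0], |a| * c, by positivity, fun x y => ?_⟩
    have e : (a • g) x - (a • g) y = a * (g x - g y) := by simp; ring
    rw [e, abs_mul, mul_assoc]
    exact mul_le_mul_of_nonneg_left (hg x y) (abs_nonneg _)

/-- The space `Lip₀(M)`. -/
def L0 (o : M) : Type _ := lipSub o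

noncomputable instance (o : M) : AddCommGroup (L0 o) := (lipSub o).addCommGroup
noncomputable instance (o : M) : Module ℝ (L0 o) := (lipSub o).module

/-- The underlying function of an element of `Lip₀(M)`. -/
def fn {o : M} (g : L0 o) : M → ℝ := Subtype.val (p := fun g => g ∈ lipSub o) g

/-- The best Lipschitz constant. -/
noncomputable def lipConst (g : M → ℝ) : ℝ :=
  sInf {c : ℝ | 0 ≤ c ∧ ∀ x y, |g x - g y| ≤ c * dist x y}

lemma fn_mem {o : M} (g : L0 o) : fn g ∈ lipSub o := Subtype.property (p := fun g => g ∈ lipSub o) g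
lemma fn_add {o : M} (g h : L0 o) : fn (g + h) = fn g + fn h := rfl
lemma fn_neg {o : M} (g : L0 o) : fn (-g) = - fn g := rfl
lemma fn_sub {o : M} (g h : L0 o) : fn (g - h) = fn g - fn h := rfl
lemma fn_zero {o : M} : fn (0 : L0 o) = 0 := rfl
lemma fn_smul {o : M} (a : ℝ) (g : L0 o) : fn (a • g) = a • fn g := rfl
lemma fn_base {o : M} (g : L0 o) : fn g o = 0 := (fn_mem g).1
lemma fn_ext {o : M} {g h : L0 o} (e : fn g = fn h) : g = h := Subtype.ext e

lemma lipConst_nonneg (g : M → ℝ) : 0 ≤ lipConst g :=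
  Real.sInf_nonneg fun _ h => h.1

lemma lipConst_le {g : M → ℝ} {c : ℝ} (hc : 0 ≤ c) (h : ∀ x y, |g x - g y| ≤ c * dist x y) :
    lipConst g ≤ c := csInf_le ⟨0, fun _ h => h.1⟩ ⟨hc, h⟩

lemma le_lipConst {o : M} (g : L0 o) (x y : M) :
    |fn g x - fn g y| ≤ lipConst (fn g) * dist x y := by
  obtain ⟨-, c, hc, hg⟩ := fn_mem g
  rcases eq_or_ne x y with rfl | hxy
  · simp
  · have hd := dist_pos.2 hxy
    rw [← div_le_iff₀ hd]
    refine le_csInf ⟨c, hc, hg⟩ fun d hd' => ?_
    rw [div_le_iff₀ hd]; exact hd'.2 x y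

/-- The norm of `Lip₀(M)`: the best Lipschitz constant. -/
noncomputable def lipNorm (o : M) : AddGroupNorm (L0 o) where
  toFun g := lipConst (fn g)
  map_zero' := le_antisymm (lipConst_le le_rfl fun x y => by simp [fn_zero]) (lipConst_nonneg _)
  add_le' g h := lipConst_le (add_nonneg (lipConst_nonneg _) (lipConst_nonneg _)) fun x y => by
    have e : fn (g + h) x - fn (g + h) y = (fn g x - fn g y) + (fn h x - fn h y) := by
      simp [fn_add]; ring
    rw [e]
    have := abs_add_le (fn g x - fn g y) (fn h x - fn h y)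
    have := le_lipConst g x y
    have := le_lipConst h x y
    linarith
  neg' g := by
    unfold lipConst
    congr 1
    ext c
    simp only [fn_neg, Pi.neg_apply, Set.mem_ofPred_eq]
    have : ∀ x y, |-fn g x - -fn g y| = |fn g x - fn g y| := fun x y => by
      rw [← abs_neg]; congr 1; ring
    simp only [this]
  eq_zero_of_map_eq_zero' g hg := by
    apply fn_ext
    funext x
    have := le_lipConst g x o
    have hg' : lipConst (fn g) = 0 := hg
    rw [hg', fn_base] at this
    simpa [fn_zero] using this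

noncomputable instance (o : M) : NormedAddCommGroup (L0 o) := (lipNorm o).toNormedAddCommGroup

lemma norm_def {o : M} (g : L0 o) : ‖g‖ = lipConst (fn g) := rfl

lemma le_norm {o : M} (g : L0 o) (x y : M) : |fn g x - fn g y| ≤ ‖g‖ * dist x y :=
  le_lipConst g x y

lemma norm_le {o : M} (g : L0 o) {c : ℝ} (hc : 0 ≤ c)
    (h : ∀ x y, |fn g x - fn g y| ≤ c * dist x y) : ‖g‖ ≤ c := lipConst_le hc h

noncomputable instance (o : M) : NormedSpace ℝ (L0 o) where
  norm_smul_le a g := norm_le _ (by positivity) fun x y => by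
    have e : fn (a • g) x - fn (a • g) y = a * (fn g x - fn g y) := by simp [fn_smul]; ring
    rw [e, abs_mul, mul_assoc]
    exact mul_le_mul_of_nonneg_left (le_norm g x y) (abs_nonneg _)

def mk (o : M) (g : M → ℝ) (h0 : g o = 0) (c : ℝ) (hc : 0 ≤ c)
    (h : ∀ x y, |g x - g y| ≤ c * dist x y) : L0 o := (⟨g, h0, c, hc, h⟩ : lipSub o)

lemma fn_mk (o : M) (g : M → ℝ) (h0 : g o = 0) (c : ℝ) (hc : 0 ≤ c)
    (h : ∀ x y, |g x - g y| ≤ c * dist x y) : fn (mk o g h0 c hc h) = g := rfl

end H29.LipR
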