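import Mathlib
import Pool.Agent.H26.BFP

open Set Filter Topology Metric

namespace Pool.Agent.H29.Mono

/-- finite alternative for convex functions -/
lemma fgh {V ι : Type*} [AddCommGroup V] [Module ℝ V] {E : Set V} (t : Finset ι) (f : ι → V → ℝ)
    (hf : ∀ i ∈ t, ConvexOn ℝ E (f i)) (hE : Convex ℝ E) (hne : E.Nonempty)
    (h : ∀ l : t → ℝ, (∀ i, 0 ≤ l i) → ∑ i, l i = 1 → ∃ e ∈ E, ∑ i, l i * f i e ≤ 0)
    {δ : ℝ} (hδ : 0 < δ) : ∃ e ∈ E, ∀ i ∈ t, f i e < δ := by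
  classical
  by_contra hc
  push Not at hc
  have hO : Convex ℝ {r : t → ℝ | ∀ i, r i < δ} := by
    have := convex_pi (𝕜 := ℝ) (s := univ) (t := fun _ : t => Iio δ) fun _ _ => convex_Iio δ
    simpa [Set.pi] using this
  have hO2 : IsOpen {r : t → ℝ | ∀ i, r i < δ} := by
    rw [setOf_forall]
    exact isOpen_iInter_of_finite fun i => isOpen_lt (continuous_apply i) continuous_const
  have hC : Convex ℝ {r : t → ℝ | ∃ e ∈ E, ∀ i : t, f i e ≤ r i} := by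
    rintro r ⟨e, he, hr⟩ r' ⟨e', he', hr'⟩ a b ha hb hab
    refine ⟨a • e + b • e', hE he he' ha hb hab, fun i => ((hf i i.2).2 he he' ha hb hab).trans ?_⟩
    simp only [smul_eq_mul, Pi.add_apply, Pi.smul_apply]
    gcongr
    exacts [hr i, hr' i]
  obtain ⟨L, u, h1, h2⟩ := geometric_hahn_banach_open hO hO2 hC (by
    rw [disjoint_left]
    rintro r hr ⟨e, he, hr'⟩
    obtain ⟨i, hi, hi2⟩ := hc e he
    exact absurd ((hr' ⟨i, hi⟩).trans_lt (hr _)) (not_lt.2 hi2))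
  let l : t → ℝ := fun i => L (Pi.single i 1)
  have hL : ∀ r : t → ℝ, L r = ∑ i, l i * r i := fun r => by
    conv_lhs => rw [pi_eq_sum_univ' r]
    simp only [map_sum, map_smul, smul_eq_mul, l, mul_comm]
  have u0 : 0 < u := by simpa using h1 0 fun _ => hδ
  have l0 : ∀ i, 0 ≤ l i := fun i => by
    by_contra hl
    push Not at hl
    have := h1 ((u / l i) • Pi.single i 1) fun j => by
      refine lt_of_le_of_lt ?_ hδ
      simp only [Pi.smul_apply, smul_eq_mul]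
      exact mul_nonpos_of_nonpos_of_nonneg (div_nonpos_of_nonneg_of_nonpos u0.le hl.le)
        (by by_cases hj : j = i <;> simp [hj])
    rw [map_smul, smul_eq_mul, div_mul_cancel₀ _ hl.ne] at this
    exact lt_irrefl _ this
  obtain ⟨e0, he0⟩ := hne
  have s0 : 0 < ∑ i, l i := by
    refine (Finset.sum_nonneg fun i _ => l0 i).lt_of_ne fun h0 => ?_
    have h3 := h2 (fun i => f i e0) ⟨e0, he0, fun _ => le_rfl⟩
    have h4 := (Finset.sum_eq_zero_iff_of_nonneg fun i _ => l0 i).1 h0.symm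
    rw [hL, Finset.sum_eq_zero fun i hi => by rw [h4 i hi, zero_mul]] at h3
    linarith
  obtain ⟨e, he, h5⟩ := h (fun i => l i / ∑ j, l j) (fun i => div_nonneg (l0 i) s0.le)
    (by rw [← Finset.sum_div, div_self s0.ne'])
  have h3 := h2 (fun i => f i e) ⟨e, he, fun _ => le_rfl⟩
  simp only [div_mul_eq_mul_div, ← Finset.sum_div] at h5
  rw [hL] at h3
  have := div_pos (u0.trans_le h3) s0
  linarith

variable {X : Type} [NormedAddCommGroup X] [NormedSpace ℝ X]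

lemma dult {ι : Type*} (U : Ultrafilter ι) (p : ι → X →L[ℝ] ℝ) {B : ℝ}
    (hB : ∀ᶠ i in U, ‖p i‖ ≤ B) : ∃ q : X →L[ℝ] ℝ, ∀ v, Tendsto (fun i => p i v) U (𝓝 (q v)) := by
  obtain ⟨q, -, hq⟩ := (WeakDual.isCompact_closedBall (𝕜 := ℝ) (E := X) 0 B).ultrafilter_le_nhds
    (U.map fun i => StrongDual.toWeakDual (p i)) (by
      rw [le_principal_iff]
      exact hB.mono fun i hi => by simpa using hi)
  exact ⟨WeakDual.toStrongDual q, fun v => ((WeakDual.eval_continuous v).tendsto q).comp hq⟩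

/-- reflexivity -/
def Refl (X : Type*) [NormedAddCommGroup X] [NormedSpace ℝ X] : Prop :=
  ∀ φ : (X →L[ℝ] ℝ) →L[ℝ] ℝ, ∃ x : X, ∀ f : X →L[ℝ] ℝ, φ f = f x

lemma xult (hX : Refl X) {ι : Type*} (U : Ultrafilter ι) (x : ι → X) {B : ℝ}
    (hB : ∀ᶠ i in U, ‖x i‖ ≤ B) :
    ∃ v : X, ∀ f : X →L[ℝ] ℝ, Tendsto (fun i => f (x i)) U (𝓝 (f v)) := by
  obtain ⟨q, hq⟩ := dult U (fun i => NormedSpace.inclusionInDoubleDual ℝ X (x i)) (B := B)
    (hB.mono fun i hi => (NormedSpace.double_dual_bound ℝ X _).trans hi)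
  obtain ⟨v, hv⟩ := hX q
  exact ⟨v, fun f => hv f ▸ hq f⟩

lemma memc {ι : Type*} {L : Filter ι} [L.NeBot] {C : Set X} (h1 : Convex ℝ C) (h2 : IsClosed C)
    {x : ι → X} {v : X} (hx : ∀ᶠ i in L, x i ∈ C)
    (hv : ∀ f : X →L[ℝ] ℝ, Tendsto (fun i => f (x i)) L (𝓝 (f v))) : v ∈ C := by
  by_contra hc
  obtain ⟨f, u, h3, h4⟩ := geometric_hahn_banach_closed_point h1 h2 hc
  exact absurd (le_of_tendsto (hv f) (hx.mono fun i hi => (h3 _ hi).le)) (not_le.2 h4)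

lemma memd (hX : Refl X) {ι : Type*} {L : Filter ι} [L.NeBot] {C : Set (X →L[ℝ] ℝ)}
    (h1 : Convex ℝ C) (h2 : IsClosed C) {p : ι → X →L[ℝ] ℝ} {q : X →L[ℝ] ℝ}
    (hp : ∀ᶠ i in L, p i ∈ C) (hq : ∀ v, Tendsto (fun i => p i v) L (𝓝 (q v))) : q ∈ C :=
  memc h1 h2 hp fun φ => by
    obtain ⟨v, hv⟩ := hX φ
    simpa only [hv] using hq v

lemma subg {φ : X → ℝ} (h1 : ConvexOn ℝ univ φ) (h2 : Continuous φ) (d : X) :
    ∃ q : X →L[ℝ] ℝ, ∀ v, φ d + q (v - d) ≤ φ v := by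
  obtain ⟨f, hf⟩ := geometric_hahn_banach_open_point (s := {p : X × ℝ | φ p.1 < p.2})
    (x := (d, φ d)) (by simpa using h1.convex_strict_epigraph)
    (isOpen_lt (h2.comp continuous_fst) continuous_snd) (by simp)
  have e : ∀ v t, f (v, t) = f (v, 0) + t * f (0, 1) := fun v t => by
    rw [← smul_eq_mul, ← map_smul, ← map_add]; simp
  have k : f (0, 1) < 0 := by
    have := hf (d, φ d + 1) (by simp)
    rw [e, e d (φ d)] at this
    linarith
  refine ⟨(-f (0, 1))⁻¹ • f.comp (.inl ℝ X ℝ), fun v => le_of_forall_gt_imp_ge_of_dense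
    fun t ht => ?_⟩
  have := hf (v, t) ht
  rw [e, e d (φ d)] at this
  simp only [map_sub, ContinuousLinearMap.smul_apply, ContinuousLinearMap.comp_apply,
    ContinuousLinearMap.inl_apply, smul_eq_mul]
  rw [← mul_sub, ← le_sub_iff_add_le', inv_mul_le_iff₀ (by linarith)]
  linarith

lemma lim {ι : Type*} {L : Filter ι} {p : ι → X →L[ℝ] ℝ} {x : ι → X} {v : X} {a B : ℝ}
    (hB : ∀ i, ‖p i‖ ≤ B) (hx : Tendsto x L (𝓝 v)) (hp : Tendsto (fun i => p i v) L (𝓝 a)) :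
    Tendsto (fun i => p i (x i)) L (𝓝 a) := by
  have h1 : Tendsto (fun i => p i (x i - v)) L (𝓝 0) := by
    refine squeeze_zero_norm (fun i => (p i).le_of_opNorm_le (hB i) _) ?_
    simpa using (tendsto_iff_norm_sub_tendsto_zero.1 hx).const_mul B
  simpa using h1.add hp

lemma dlim {ι : Type*} {L : Filter ι} {p : ι → X →L[ℝ] ℝ} {S : Set X} {B : ℝ}
    (hB : ∀ i, ‖p i‖ ≤ B) (h : ∀ s ∈ S, Tendsto (fun i => p i s) L (𝓝 0)) :
    ∀ v ∈ closure S, Tendsto (fun i => p i v) L (𝓝 0) := by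
  intro v hv
  rw [Metric.tendsto_nhds]
  intro ε hε
  obtain ⟨s, hs, h1⟩ := Metric.mem_closure_iff.1 hv (ε / 2 / (|B| + 1)) (by positivity)
  filter_upwards [Metric.tendsto_nhds.1 (h s hs) (ε / 2) (by positivity)] with i hi
  rw [dist_eq_norm, lt_div_iff₀ (by positivity)] at h1
  have h2 := (p i).le_of_opNorm_le ((hB i).trans (le_abs_self B)) (v - s)
  rw [dist_zero_right] at hi ⊢
  have h3 := norm_add_le (p i (v - s)) (p i s)
  rw [← map_add, sub_add_cancel] at h3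
  nlinarith [norm_nonneg (v - s)]

lemma gen {C : Set X} (h1 : IsCompact C) (h2 : Convex ℝ C) (h3 : C.Nonempty)
    (a : X → X →L[ℝ] ℝ) : ∃ u ∈ C, ∀ v ∈ C, u ∈ closure {w | w ∈ C ∧ a w (w - v) ≤ 0} := by
  classical
  by_contra hc
  push Not at hc
  obtain ⟨K, hK⟩ : ∃ K : X → Set X, ∀ v, K v = {w | w ∈ C ∧ a w (w - v) ≤ 0} := ⟨_, fun _ => rfl⟩
  simp only [← hK] at hc
  obtain ⟨t, ht⟩ := h1.elim_finite_subcover
    (fun v : C => (closure (K v))ᶜ) (fun v => isClosed_closure.isOpen_compl)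
    fun u hu => by
      obtain ⟨v, hv, h⟩ := hc u hu
      exact mem_iUnion.2 ⟨⟨v, hv⟩, h⟩
  obtain ⟨c, hc1⟩ : ∃ c : (t → ℝ) → X, ∀ q, c q = ∑ i, q i • ((i : C) : X) := ⟨_, fun _ => rfl⟩
  have cc : Continuous c := by
    rw [funext hc1]
    exact continuous_finset_sum _ fun i _ => (continuous_apply i).smul continuous_const
  have cC : ∀ q ∈ stdSimplex ℝ t, c q ∈ C := fun q hq =>
    hc1 q ▸ h2.sum_mem (fun i _ => hq.1 i) hq.2 fun i _ => i.1.2
  obtain ⟨ψ, hψ⟩ : ∃ ψ : (t → ℝ) → t → ℝ, ∀ q i, ψ q i = infDist (c q) (K i.1.1) :=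
    ⟨_, fun _ _ => rfl⟩
  have ψ0 : ∀ q i, 0 ≤ ψ q i := fun q i => hψ q i ▸ infDist_nonneg
  have hne : ∀ v : C, (K v).Nonempty := fun v => ⟨v, by rw [hK]; exact ⟨v.2, by simp⟩⟩
  have hpos : ∀ q ∈ stdSimplex ℝ t, 0 < ∑ i, ψ q i := fun q hq => by
    obtain ⟨v, hv, h⟩ := mem_iUnion₂.1 (ht (cC q hq))
    exact Finset.sum_pos' (fun i _ => ψ0 q i) ⟨⟨v, hv⟩, Finset.mem_univ _,
      hψ q _ ▸ (infDist_pos_iff_notMem_closure (hne v)).1 h⟩
  have : Nonempty t := by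
    obtain ⟨u, hu⟩ := h3
    obtain ⟨v, hv, -⟩ := mem_iUnion₂.1 (ht hu)
    exact ⟨⟨v, hv⟩⟩
  have cψ : ∀ i, Continuous fun q => ψ q i := fun i => by
    simp only [hψ]; exact (continuous_infDist_pt _).comp cc
  obtain ⟨q, hq, e⟩ := H26.BFP.brouwer_simplex (ι := ↥t) (fun q i => ψ q i / ∑ j, ψ q j)
    (continuousOn_pi.2 fun i => (cψ i).continuousOn.div
      (continuous_finset_sum _ fun j _ => cψ j).continuousOn fun q hq => (hpos q hq).ne')
    fun q hq => ⟨fun i => div_nonneg (ψ0 q i) (hpos q hq).le, by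
      simp only
      rw [← Finset.sum_div, div_self (hpos q hq).ne']⟩
  have k : ∀ i, 0 < q i → 0 < a (c q) (c q - i.1.1) := fun i hi => by
    by_contra h
    have : ψ q i = 0 := hψ q i ▸ infDist_zero_of_mem (by rw [hK]; exact ⟨cC q hq, not_lt.1 h⟩)
    rw [← congrFun e i, this, zero_div] at hi
    exact lt_irrefl _ hi
  have k2 : ∑ i, q i * a (c q) (c q - i.1.1) = 0 := by
    simp only [map_sub, mul_sub, Finset.sum_sub_distrib, ← Finset.sum_mul, hq.2]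
    rw [one_mul, sub_eq_zero]
    refine (congrArg (a (c q)) (hc1 q)).trans ?_
    simp only [map_sum, map_smul, smul_eq_mul]
  obtain ⟨j, -, hj⟩ := Finset.exists_ne_zero_of_sum_ne_zero (hq.2.trans_ne one_ne_zero)
  have hj' := (hq.1 j).lt_of_ne' hj
  refine absurd k2 (Finset.sum_pos' (fun i _ => ?_) ⟨j, Finset.mem_univ _,
    mul_pos hj' (k j hj')⟩).ne'
  rcases (hq.1 i).eq_or_lt with h | h
  · rw [← h, zero_mul]
  · exact (mul_pos h (k i h)).le

lemma clos {α : Type*} (Φ : α → α → Set α) (h : ∀ p q, (Φ p q).Countable) (a : α) :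
    ∃ S : Set α, S.Countable ∧ a ∈ S ∧ ∀ p ∈ S, ∀ q ∈ S, Φ p q ⊆ S := by
  let S : ℕ → Set α := fun n => Nat.rec {a} (fun _ T => T ∪ ⋃ p ∈ T, ⋃ q ∈ T, Φ p q) n
  have h1 : ∀ n, (S n).Countable := fun n => by
    induction n with
    | zero => exact countable_singleton a
    | succ n ih => exact ih.union (ih.biUnion fun p _ => ih.biUnion fun q _ => h p q)
  have h2 : Monotone S := monotone_nat_of_le_succ fun n => subset_union_left
  refine ⟨⋃ n, S n, countable_iUnion h1, mem_iUnion.2 ⟨0, rfl⟩, fun p hp q hq r hr => ?_⟩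
  obtain ⟨n, hn⟩ := mem_iUnion.1 hp
  obtain ⟨m, hm⟩ := mem_iUnion.1 hq
  exact mem_iUnion.2 ⟨max n m + 1, Or.inr (mem_iUnion₂.2 ⟨p, h2 (le_max_left _ _) hn,
    mem_iUnion₂.2 ⟨q, h2 (le_max_right _ _) hm, hr⟩⟩)⟩

lemma subm {S : Set X} (h0 : 0 ∈ S) (h1 : ∀ x ∈ S, ∀ y ∈ S, x + y ∈ S)
    (h2 : ∀ r : ℚ, ∀ x ∈ S, (r:ℝ) • x ∈ S) : ∃ Y : Submodule ℝ X, (Y : Set X) = closure S :=
  ⟨{ carrier := closure S
     zero_mem' := subset_closure h0
     add_mem' := fun hx hy => map_mem_closure₂ continuous_add hx hy h1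
     smul_mem' := fun r _ hx => map_mem_closure₂ continuous_smul
       (Rat.denseRange_cast (𝕜 := ℝ) r) hx (by rintro _ ⟨r, rfl⟩; exact h2 r) }, rfl⟩

lemma quad {D a b : ℝ} (ha : 0 ≤ a) (hb : 0 ≤ b) (h : D ^ 2 ≤ a * D + b) : D ≤ a + b + 1 := by
  by_contra hc
  nlinarith

lemma cvx (s : X) : ConvexOn ℝ univ fun x : X => ‖x - s‖ ^ 2 := by
  have h : ConvexOn ℝ univ fun x : X => ‖x - s‖ := by
    simpa [dist_eq_norm] using convexOn_univ_dist s
  exact h.pow (fun x _ => norm_nonneg _) 2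

lemma phi (s : ℕ → X) : ∃ φ : X → ℝ, ConvexOn ℝ univ φ ∧ Continuous φ ∧
    (∀ x, ‖x‖ ^ 2 ≤ φ x ∧ φ x ≤ 3 * ‖x‖ ^ 2 + 2) ∧ ∀ k, ∃ c > 0, ∀ a b,
      c * (‖a - s k‖ - ‖b - s k‖) ^ 2 ≤ (φ a + φ b) / 2 - φ ((1 / 2 : ℝ) • a + (1 / 2 : ℝ) • b) := by
  let c : ℕ → ℝ := fun k => 1 / 2 / 2 ^ k / (1 + ‖s k‖ ^ 2)
  have c0 : ∀ k, 0 < c k := fun k => by positivity
  have hb : ∀ x k, c k * ‖x - s k‖ ^ 2 ≤ (2 * ‖x‖ ^ 2 + 2) / 2 / 2 ^ k := fun x k => by
    have h1 := pow_le_pow_left₀ (norm_nonneg _) (norm_sub_le x (s k)) 2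
    have h2 : ‖x - s k‖ ^ 2 ≤ (2 * ‖x‖ ^ 2 + 2) * (1 + ‖s k‖ ^ 2) := by
      nlinarith [sq_nonneg (‖x‖ - ‖s k‖), mul_nonneg (sq_nonneg ‖x‖) (sq_nonneg ‖s k‖)]
    refine (mul_le_mul_of_nonneg_left h2 (c0 k).le).trans (le_of_eq ?_)
    simp only [c]; field_simp
  have hs : ∀ x, Summable fun k => c k * ‖x - s k‖ ^ 2 := fun x =>
    Summable.of_nonneg_of_le (fun k => by have := c0 k; positivity) (hb x)
      (summable_geometric_two' _)
  have hc : ConvexOn ℝ univ fun x => ∑' k, c k * ‖x - s k‖ ^ 2 := by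
    refine ⟨convex_univ, fun x _ y _ a b ha hb hab => ?_⟩
    simp only [smul_eq_mul]
    rw [← tsum_mul_left, ← tsum_mul_left, ← ((hs x).mul_left a).tsum_add ((hs y).mul_left b)]
    refine (hs _).tsum_le_tsum (fun k => ?_) (((hs x).mul_left a).add ((hs y).mul_left b))
    have := mul_le_mul_of_nonneg_left ((cvx (s k)).2 trivial trivial ha hb hab
      (x := x) (y := y)) (c0 k).le
    simp only [smul_eq_mul] at this
    linarith
  have h0 : ConvexOn ℝ univ fun x : X => ‖x‖ ^ 2 := by simpa using cvx (0 : X)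
  have hu : ∀ x, ∑' k, c k * ‖x - s k‖ ^ 2 ≤ 2 * ‖x‖ ^ 2 + 2 := fun x =>
    ((hs x).tsum_le_tsum (hb x) (summable_geometric_two' _)).trans (tsum_geometric_two' _).le
  have hl : ∀ x, 0 ≤ ∑' k, c k * ‖x - s k‖ ^ 2 := fun x =>
    tsum_nonneg fun k => by have := c0 k; positivity
  refine ⟨fun x => ‖x‖ ^ 2 + ∑' k, c k * ‖x - s k‖ ^ 2, h0.add hc, Continuous.add (by fun_prop) ?_,
    fun x => ⟨by linarith [hl x], by linarith [hu x]⟩, fun k => ⟨c k / 4, by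
      have := c0 k; positivity, fun a b => ?_⟩⟩
  · rw [← continuousOn_univ]
    have := (hc.continuousOn_tfae isOpen_univ univ_nonempty).out 1 3
    refine this.2 ⟨0, trivial, 4, ?_⟩
    rw [eventually_map]
    filter_upwards [ball_mem_nhds (0:X) one_pos] with x hx
    rw [mem_ball_zero_iff] at hx
    nlinarith [hu x, norm_nonneg x]
  · set m := (1 / 2 : ℝ) • a + (1 / 2 : ℝ) • b with hm
    have k1 : ∀ j, c j / 4 * (‖a - s j‖ - ‖b - s j‖) ^ 2 ≤
        (c j * ‖a - s j‖ ^ 2 + c j * ‖b - s j‖ ^ 2) / 2 - c j * ‖m - s j‖ ^ 2 := fun j => by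
      have h1 : ‖m - s j‖ ≤ (‖a - s j‖ + ‖b - s j‖) / 2 := by
        rw [show m - s j = (1 / 2 : ℝ) • (a - s j) + (1 / 2 : ℝ) • (b - s j) by rw [hm]; module]
        refine (norm_add_le _ _).trans (le_of_eq ?_)
        simp only [norm_smul, Real.norm_eq_abs, abs_of_pos (one_half_pos (α := ℝ))]; ring
      have := mul_le_mul_of_nonneg_left (pow_le_pow_left₀ (norm_nonneg _) h1 2) (c0 j).le
      linarith
    have k2 := h0.2 trivial trivial one_half_pos.le one_half_pos.le (add_halves 1) (x := a) (y := b)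
    have k3 := ((((hs a).hasSum.add (hs b).hasSum).div_const 2).sub (hs m).hasSum)
    have k4 := le_hasSum k3 k fun j _ => le_trans (by have := c0 j; positivity) (k1 j)
    simp only [smul_eq_mul, ← hm] at k2
    linarith [k1 k]

end Pool.Agent.H29.Mono
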