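import Mathlib
import Pool.Agent.H29.Mono1

open Set Filter Topology Metric

namespace Pool.Agent.H29.Mono

variable {X : Type} [NormedAddCommGroup X] [NormedSpace ℝ X]

/-- a norming pair of subspaces on which the trace of `T` is maximal monotone -/
structure Pair (T : X → Set (X →L[ℝ] ℝ)) (Y : Submodule ℝ X) (Z : Submodule ℝ (X →L[ℝ] ℝ)) :
    Prop where
  yc : IsClosed (Y : Set X)
  zc : IsClosed (Z : Set (X →L[ℝ] ℝ))
  ext : ∀ f : X →L[ℝ] ℝ, ∃ z ∈ Z, ∀ v ∈ Y, z v = f v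
  nrm : ∀ z ∈ Z, ∀ c, (∀ v ∈ Y, ‖v‖ ≤ 1 → z v ≤ c) → ‖z‖ ≤ c
  max : ∀ x ∈ Y, ∀ z ∈ Z, (∀ a ∈ Y, ∀ b ∈ Z, b ∈ T a → 0 ≤ (z - b) (x - a)) → z ∈ T x
  ne : ∃ a ∈ Y, ∃ b ∈ Z, b ∈ T a

variable {T : X → Set (X →L[ℝ] ℝ)} {Y : Submodule ℝ X} {Z : Submodule ℝ (X →L[ℝ] ℝ)}

lemma Pair.nrm' (P : Pair T Y Z) {z : X →L[ℝ] ℝ} (hz : z ∈ Z) {r c : ℝ} (hr : 0 < r)
    (h : ∀ v ∈ Y, ‖v‖ ≤ r → z v ≤ c) : r * ‖z‖ ≤ c := by
  have := P.nrm (r • z) (Z.smul_mem r hz) c fun v hv h1 => by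
    have := h (r • v) (Y.smul_mem r hv) (by
      rw [norm_smul, Real.norm_of_nonneg hr.le]; nlinarith)
    simpa using this
  rwa [norm_smul, Real.norm_of_nonneg hr.le] at this

lemma msum {ι : Type*} [Fintype ι] (l : ι → ℝ) (h0 : ∀ i, 0 ≤ l i) (h1 : ∑ i, l i = 1)
    (M : ι → ι → ℝ) (h : ∀ i j, M i j + M j i ≤ M i i + M j j) :
    ∑ i, l i * ∑ j, l j * M i j ≤ ∑ i, l i * M i i := by
  have k : ∑ i, ∑ j, l i * l j * (M i j + M j i) ≤ ∑ i, ∑ j, l i * l j * (M i i + M j j) :=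
    Finset.sum_le_sum fun i _ => Finset.sum_le_sum fun j _ =>
      mul_le_mul_of_nonneg_left (h i j) (mul_nonneg (h0 i) (h0 j))
  simp only [mul_add, Finset.sum_add_distrib] at k
  have e1 : ∑ i, ∑ j, l i * l j * M j i = ∑ i, ∑ j, l i * l j * M i j := by
    rw [Finset.sum_comm]; simp only [mul_comm (l _) (l _)]
  have e2 : ∑ i, ∑ j, l i * l j * M j j = ∑ i, l i * M i i := by
    rw [Finset.sum_comm]; simp only [mul_assoc, ← Finset.sum_mul, h1, one_mul]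
  have e3 : ∑ i, ∑ j, l i * l j * M i i = ∑ i, l i * M i i := by
    simp only [mul_right_comm (l _) (l _), ← Finset.mul_sum, h1, mul_one]
  simp only [Finset.mul_sum, ← mul_assoc]
  linarith

lemma res (hX : Refl X) (hm : ∀ x y, ∀ f ∈ T x, ∀ g ∈ T y, 0 ≤ (f - g) (x - y)) (P : Pair T Y Z)
    {φ : X → ℝ} (h1 : ConvexOn ℝ univ φ) (h2 : Continuous φ)
    (h3 : ∀ x, ‖x‖ ^ 2 ≤ φ x ∧ φ x ≤ 3 * ‖x‖ ^ 2 + 2) {u : X} (hu : u ∈ Y) {w : X →L[ℝ] ℝ}
    (hw : w ∈ Z) {ε : ℝ} (hε : 0 < ε) :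
    ∃ d ∈ Y, ∃ p ∈ Z, w + p ∈ T (u - ε • d) ∧ ∀ v ∈ Y, φ d + p (v - d) ≤ φ v := by
  classical
  let ι := {g : X × (X →L[ℝ] ℝ) // g.1 ∈ Y ∧ g.2 ∈ Z ∧ g.2 ∈ T g.1}
  let E : Set (X × (X →L[ℝ] ℝ) × ℝ) := {e | e.1 ∈ Y ∧ e.2.1 ∈ Z ∧ ∀ v ∈ Y, e.2.1 v - φ v ≤ e.2.2}
  obtain ⟨f, hf⟩ : ∃ f : ι → X × (X →L[ℝ] ℝ) × ℝ → ℝ, ∀ g e, f g e = ε * (φ e.1 + e.2.2) -
    (w - g.1.2) (u - g.1.1) + ε * (w - g.1.2) e.1 - e.2.1 (u - g.1.1) := ⟨_, fun _ _ => rfl⟩
  have hE : Convex ℝ E := by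
    rintro e ⟨a1, a2, a3⟩ e' ⟨b1, b2, b3⟩ a b ha hb hab
    refine ⟨Y.add_mem (Y.smul_mem a a1) (Y.smul_mem b b1),
      Z.add_mem (Z.smul_mem a a2) (Z.smul_mem b b2), fun v hv => ?_⟩
    have k1 := mul_le_mul_of_nonneg_left (a3 v hv) ha
    have k2 := mul_le_mul_of_nonneg_left (b3 v hv) hb
    show a * e.2.1 v + b * e'.2.1 v - φ v ≤ a * e.2.2 + b * e'.2.2
    obtain rfl : b = 1 - a := by linarith
    linarith
  have hne : E.Nonempty := ⟨(0, 0, 0), Y.zero_mem, Z.zero_mem, fun v _ => by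
    simpa using (sq_nonneg _).trans (h3 v).1⟩
  have key : ∀ k : Finset ι × ℕ, ∃ e ∈ E, ∀ g ∈ k.1, f g e < 1 / (k.2 + 1) := by
    intro k
    refine fgh k.1 f (fun g _ => ⟨hE, fun e _ e' _ a b ha hb hab => ?_⟩) hE hne
      (fun l l0 l1 => ?_) (by positivity)
    · have := mul_le_mul_of_nonneg_left (h1.2 trivial trivial ha hb hab (x := e.1) (y := e'.1)) hε.le
      simp only [hf, Prod.fst_add, Prod.smul_fst, Prod.snd_add, Prod.smul_snd, map_add, map_smul,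
        smul_eq_mul, ContinuousLinearMap.add_apply, ContinuousLinearMap.smul_apply] at this ⊢
      obtain rfl : b = 1 - a := by linarith
      linarith
    · obtain ⟨A, hA⟩ : ∃ A, A = ∑ i, l i • i.1.1.1 := ⟨_, rfl⟩
      have hAY : A ∈ Y := hA ▸ Y.sum_mem fun i _ => Y.smul_mem _ i.1.2.1
      have hd : ε⁻¹ • (u - A) ∈ Y := Y.smul_mem _ (Y.sub_mem hu hAY)
      obtain ⟨q, hq⟩ := subg h1 h2 (ε⁻¹ • (u - A))
      obtain ⟨p, hp, hpq⟩ := P.ext q
      refine ⟨(ε⁻¹ • (u - A), p, p (ε⁻¹ • (u - A)) - φ (ε⁻¹ • (u - A))), ⟨hd, hp, fun v hv => ?_⟩, ?_⟩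
      · have := hq v
        rw [← hpq _ (Y.sub_mem hv hd), map_sub] at this
        simp only; linarith
      · have e1 : ∀ i : k.1, f i (ε⁻¹ • (u - A), p, p (ε⁻¹ • (u - A)) - φ (ε⁻¹ • (u - A))) =
            (w + p) i.1.1.1 - (w + p) A - i.1.1.2 i.1.1.1 + i.1.1.2 A := fun i => by
          simp only [hf, map_smul, map_sub, smul_eq_mul, ContinuousLinearMap.add_apply,
            ContinuousLinearMap.sub_apply]
          field_simp; ring
        have e2 : ∀ g : X →L[ℝ] ℝ, g A = ∑ j, l j * g j.1.1.1 := fun g => by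
          simp only [hA, map_sum, map_smul, smul_eq_mul]
        have := msum l l0 l1 (fun i j => i.1.1.2 j.1.1.1) fun i j => by
          have := hm _ _ _ i.1.2.2.2 _ j.1.2.2.2
          simp only [map_sub, ContinuousLinearMap.sub_apply] at this
          linarith
        simp only [← e2] at this
        simp only [e1, mul_add, mul_sub, Finset.sum_add_distrib, Finset.sum_sub_distrib, ← e2,
          ← Finset.sum_mul, l1]
        linarith
  choose e he hk using key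
  obtain ⟨a0, ha0, b0, hb0, h0⟩ := P.ne
  let g0 : ι := ⟨(a0, b0), ha0, hb0, h0⟩
  let U : Ultrafilter (Finset ι × ℕ) := .of atTop
  have hU : ∀ (g : ι) (n : ℕ), ∀ᶠ k in U, f g (e k) ≤ 1 / (n + 1) := fun g n => by
    refine (eventually_ge_atTop ({g}, n)).filter_mono (Ultrafilter.of_le _) |>.mono fun k h => ?_
    refine (hk k g (h.1 (Finset.mem_singleton_self g))).le.trans ?_
    exact Nat.one_div_le_one_div h.2
  obtain ⟨B, hB⟩ : ∃ B, ∀ x ∈ E, f g0 x ≤ 1 → ‖x.1‖ ≤ B ∧ ‖x.2.1‖ ≤ B ∧ |x.2.2| ≤ B := by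
    obtain ⟨r, hr⟩ : ∃ r, r = ‖u - a0‖ / ε + 1 := ⟨_, rfl⟩
    obtain ⟨K, hK⟩ : ∃ K, K = (1 + |(w - b0) (u - a0)|) / ε + (3 * r ^ 2 + 2) := ⟨_, rfl⟩
    obtain ⟨L, hL⟩ : ∃ L, L = ‖w - b0‖ + K + 1 := ⟨_, rfl⟩
    have r0 : 0 < r := by rw [hr]; positivity
    have K0 : 0 ≤ K := by rw [hK]; positivity
    refine ⟨L + (K + ‖w - b0‖ * L) * (r + 1) + 2, fun ⟨d, p, c⟩ ⟨_, a2, a3⟩ h => ?_⟩
    have k1 : r * ‖p‖ ≤ c + (3 * r ^ 2 + 2) := P.nrm' a2 r0 fun v hv h => by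
      have := a3 v hv
      nlinarith [(h3 v).2, norm_nonneg v]
    have k2 : -2 ≤ c := by
      have := a3 0 Y.zero_mem
      have h5 := (h3 0).2
      simp only [map_zero, norm_zero] at this h5
      linarith
    have k3 := (w - b0).le_opNorm d
    have k4 := p.le_opNorm (u - a0)
    have k5 : φ d + c ≤ (1 + |(w - b0) (u - a0)|) / ε + ‖w - b0‖ * ‖d‖ + (r - 1) * ‖p‖ := by
      rw [hf] at h
      rw [hr, add_sub_cancel_right, ← mul_le_mul_iff_right₀ hε]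
      have := mul_le_mul_of_nonneg_left (neg_le_of_abs_le k3) hε.le
      simp only [g0] at h
      rw [mul_add ε (_ + _), mul_add ε (_ / _), mul_div_cancel₀ _ hε.ne', ← mul_assoc ε (_ / _),
        mul_div_cancel₀ _ hε.ne']
      linarith [le_abs_self ((w - b0) (u - a0)), le_of_abs_le k4]
    have k6 : ‖d‖ ^ 2 + ‖p‖ ≤ ‖w - b0‖ * ‖d‖ + K := by linarith [(h3 d).1]
    have k7 : ‖d‖ ≤ L := hL ▸ quad (norm_nonneg _) K0 (by linarith [norm_nonneg p])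
    have k8 := mul_le_mul_of_nonneg_left k7 (norm_nonneg (w - b0))
    have k9 : ‖p‖ ≤ K + ‖w - b0‖ * L := by nlinarith
    have k10 := mul_le_mul_of_nonneg_left k9 r0.le
    have L0 := (norm_nonneg d).trans k7
    have := norm_nonneg p
    have := (sq_nonneg _).trans (h3 d).1
    refine ⟨by nlinarith, by nlinarith, abs_le.2 ⟨by nlinarith, by nlinarith⟩⟩
  have hB' := (hU g0 0).mono fun k h => hB _ (he k) (by simpa using h)
  obtain ⟨d, hd⟩ := xult hX U (fun k => (e k).1) (hB'.mono fun k h => h.1)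
  obtain ⟨p, hp⟩ := dult U (fun k => (e k).2.1) (hB'.mono fun k h => h.2.1)
  obtain ⟨c, -, hc⟩ := (isCompact_Icc (a := -B) (b := B)).ultrafilter_le_nhds
    (U.map fun k => (e k).2.2) (le_principal_iff.2 (hB'.mono fun k h => abs_le.1 h.2.2))
  have hc' : Tendsto (fun k => (e k).2.2) U (𝓝 c) := hc
  have dY : d ∈ Y := memc Y.convex P.yc (Eventually.of_forall fun k => (he k).1) hd
  have pZ : p ∈ Z := memd hX Z.convex P.zc (Eventually.of_forall fun k => (he k).2.1) hp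
  have k1 : ∀ v ∈ Y, p v - φ v ≤ c := fun v hv =>
    le_of_tendsto_of_tendsto' ((hp v).sub_const _) hc' fun k => (he k).2.2 v hv
  have k2 : ∀ g, f g (d, p, c) ≤ 0 := fun g => by
    obtain ⟨q, hq⟩ := subg h1 h2 d
    refine ge_of_tendsto' tendsto_one_div_add_atTop_nhds_zero_nat fun n => ?_
    have := (((((((hd q).sub_const (q d)).const_add (φ d)).add hc').const_mul ε).sub_const
      ((w - g.1.2) (u - g.1.1))).add ((hd (w - g.1.2)).const_mul ε)).sub (hp (u - g.1.1))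
    rw [sub_self, add_zero] at this
    rw [hf]
    refine le_of_tendsto this ((hU g n).mono fun k h => le_trans ?_ h)
    have := mul_le_mul_of_nonneg_left (hq (e k).1) hε.le
    rw [hf]
    rw [map_sub] at this
    linarith
  have xY : u - ε • d ∈ Y := Y.sub_mem hu (Y.smul_mem _ dY)
  have k3 : w + p ∈ T (u - ε • d) := P.max _ xY _ (Z.add_mem hw pZ) fun a ha b hb h => by
    have h4 := k2 ⟨(a, b), ha, hb, h⟩
    have h5 := mul_le_mul_of_nonneg_left (k1 d dY) hε.le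
    simp only [hf, map_sub, map_smul, smul_eq_mul, ContinuousLinearMap.add_apply,
      ContinuousLinearMap.sub_apply] at h4 ⊢
    linarith
  refine ⟨d, dY, p, pZ, k3, fun v hv => ?_⟩
  have h4 := k2 ⟨(_, _), xY, Z.add_mem hw pZ, k3⟩
  simp only [hf, map_sub, map_smul, smul_eq_mul, ContinuousLinearMap.add_apply,
      ContinuousLinearMap.sub_apply] at h4 ⊢
  have h5 : φ d + c - p d ≤ 0 := by
    by_contra h
    nlinarith
  linarith [k1 v hv]

end Pool.Agent.H29.Mono
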