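import Mathlib
import Pool.Agent.H29.Mono2

open Set Filter Topology Metric

namespace Pool.Agent.H29.Mono

variable {X : Type} [NormedAddCommGroup X] [NormedSpace ℝ X]

/-- pseudomonotonicity relative to `T` -/
def Pseudo (T : X → Set (X →L[ℝ] ℝ)) (T0 : X → X →L[ℝ] ℝ) : Prop :=
  ∀ (u : ℕ → X) (v : X) (y : ℕ → (X →L[ℝ] ℝ)),
    (∀ f : X →L[ℝ] ℝ, Tendsto (fun j => f (u j)) atTop (𝓝 (f v))) → (∀ j, y j ∈ T (u j)) →
    (∃ C : ℝ, ∀ j, ‖y j‖ ≤ C) →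
    (∀ ε : ℝ, 0 < ε → ∀ᶠ j in atTop, (T0 (u j)) (u j - v) ≤ ε) →
    ((∀ φ : (X →L[ℝ] ℝ) →L[ℝ] ℝ, Tendsto (fun j => φ (T0 (u j))) atTop (𝓝 (φ (T0 v)))) ∧
      Tendsto (fun j => (T0 (u j)) (u j - v)) atTop (𝓝 0))

variable {T : X → Set (X →L[ℝ] ℝ)} {T0 : X → X →L[ℝ] ℝ}

lemma demi (hb : ∀ R : ℝ, ∃ M : ℝ, ∀ x, ‖x‖ ≤ R → ‖T0 x‖ ≤ M) (hp : Pseudo T T0) {u : ℕ → X}
    {v : X} {y : ℕ → X →L[ℝ] ℝ} (hu : Tendsto u atTop (𝓝 v)) (hy : ∀ j, y j ∈ T (u j)) {C : ℝ}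
    (hC : ∀ j, ‖y j‖ ≤ C) (φ : (X →L[ℝ] ℝ) →L[ℝ] ℝ) :
    Tendsto (fun j => φ (T0 (u j))) atTop (𝓝 (φ (T0 v))) := by
  obtain ⟨R, hR⟩ := (isBounded_range_of_tendsto u hu).exists_norm_le
  obtain ⟨M, hM⟩ := hb R
  refine (hp u v y (fun f => (f.continuous.tendsto v).comp hu) hy ⟨C, hC⟩ fun ε hε => ?_).1 φ
  have := lim (p := fun j => T0 (u j)) (a := 0) (fun j => hM _ (hR _ ⟨j, rfl⟩))
    (tendsto_sub_nhds_zero_iff.2 hu) (by simp)
  exact (this.eventually (gt_mem_nhds hε)).mono fun j h => h.le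

lemma top (hM : ∀ x f, (∀ y, ∀ g ∈ T y, 0 ≤ (f - g) (x - y)) → f ∈ T x) : Pair T ⊤ ⊤ where
  yc := isClosed_univ
  zc := isClosed_univ
  ext f := ⟨f, trivial, fun _ _ => rfl⟩
  nrm z _ c h := by
    refine z.opNorm_le_of_unit_norm (by simpa using h 0) fun v hv => abs_le.2 ⟨?_, h v trivial hv.le⟩
    have := h (-v) trivial (by simp [hv])
    rw [map_neg] at this
    linarith
  max x _ z _ h := hM x z fun a b hb => h a trivial b trivial hb
  ne := by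
    by_contra h
    push Not at h
    exact h 0 trivial 0 trivial (hM 0 0 fun a b hb => (h a trivial b trivial hb).elim)

lemma sep (hX : Refl X) (hm : ∀ x y, ∀ f ∈ T x, ∀ g ∈ T y, 0 ≤ (f - g) (x - y))
    (hM : ∀ x f, (∀ y, ∀ g ∈ T y, 0 ≤ (f - g) (x - y)) → f ∈ T x)
    (hb : ∀ R : ℝ, ∃ M : ℝ, ∀ x, ‖x‖ ≤ R → ‖T0 x‖ ≤ M) (hp : Pseudo T T0) :
    ∃ (Y : Submodule ℝ X) (Z : Submodule ℝ (X →L[ℝ] ℝ)) (s : ℕ → X) (g : ℕ → X →L[ℝ] ℝ),
      Pair T Y Z ∧ (Y : Set X) = closure (range s) ∧ (Z : Set (X →L[ℝ] ℝ)) = closure (range g) ∧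
      ∀ x ∈ Y, ∀ z ∈ Z, z ∈ T x → T0 x ∈ Z := by
  choose ng ng1 ng2 using fun x : X => exists_dual_vector'' ℝ x
  have hnv : ∀ z : X →L[ℝ] ℝ, ∃ v : X, ‖v‖ ≤ 1 ∧ z v = ‖z‖ := fun z => by
    obtain ⟨ψ, h1, h2⟩ := exists_dual_vector'' ℝ z
    obtain ⟨v, hv⟩ := hX ψ
    refine ⟨v, ?_, (hv z).symm.trans h2⟩
    have := ψ.le_of_opNorm_le_of_le h1 (ng1 v)
    rw [hv, ng2] at this
    simpa using this
  choose nv nv1 nv2 using hnv
  choose d hd0 p hp0 hT hs using fun e : X × (X →L[ℝ] ℝ) => res hX hm (top hM)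
    (φ := fun x => ‖x‖ ^ 2) (by simpa using cvx (0:X)) (by fun_prop)
    (fun x => ⟨le_rfl, by nlinarith⟩) (u := e.1) trivial (w := e.2) trivial one_pos
  simp only [one_smul] at hT
  obtain ⟨S, hS, h0, hc⟩ := clos (fun e e' : X × (X →L[ℝ] ℝ) => {e + e', (e.1, e'.2), (0, ng e.1),
    (nv e.2, 0), (e.1 - d e, e.2 + p e), (0, T0 (e.1 - d e))} ∪ range fun r : ℚ => (r:ℝ) • e)
    (fun e e' => (toFinite _).countable.union (countable_range _)) 0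
  have c1 : ∀ e ∈ S, ∀ e' ∈ S, e + e' ∈ S := fun e he e' he' => hc e he e' he' (by simp)
  have c2 : ∀ r : ℚ, ∀ e ∈ S, (r:ℝ) • e ∈ S := fun r e he => hc e he e he (Or.inr ⟨r, rfl⟩)
  obtain ⟨Y, hY⟩ := subm (S := Prod.fst '' S) ⟨0, h0, rfl⟩
    (by rintro _ ⟨e, he, rfl⟩ _ ⟨e', he', rfl⟩; exact ⟨_, c1 e he e' he', rfl⟩)
    (by rintro r _ ⟨e, he, rfl⟩; exact ⟨_, c2 r e he, rfl⟩)
  obtain ⟨Z, hZ⟩ := subm (S := Prod.snd '' S) ⟨0, h0, rfl⟩
    (by rintro _ ⟨e, he, rfl⟩ _ ⟨e', he', rfl⟩; exact ⟨_, c1 e he e' he', rfl⟩)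
    (by rintro r _ ⟨e, he, rfl⟩; exact ⟨_, c2 r e he, rfl⟩)
  obtain ⟨s, hs'⟩ := (hS.image Prod.fst).exists_eq_range ⟨_, 0, h0, rfl⟩
  obtain ⟨g, hg'⟩ := (hS.image Prod.snd).exists_eq_range ⟨_, 0, h0, rfl⟩
  have mY : ∀ e ∈ S, e.1 ∈ Y := fun e he => by
    rw [← SetLike.mem_coe, hY]; exact subset_closure ⟨e, he, rfl⟩
  have mZ : ∀ e ∈ S, e.2 ∈ Z := fun e he => by
    rw [← SetLike.mem_coe, hZ]; exact subset_closure ⟨e, he, rfl⟩
  have yc : IsClosed (Y : Set X) := hY ▸ isClosed_closure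
  have zc : IsClosed (Z : Set (X →L[ℝ] ℝ)) := hZ ▸ isClosed_closure
  have ap : ∀ x ∈ Y, ∀ z ∈ Z, ∀ η > 0, ∃ e ∈ S, ‖x - e.1‖ < η ∧ ‖z - e.2‖ < η := by
    intro x hx z hz η hη
    rw [← SetLike.mem_coe, hY] at hx
    rw [← SetLike.mem_coe, hZ] at hz
    obtain ⟨_, ⟨e, he, rfl⟩, h1⟩ := Metric.mem_closure_iff.1 hx η hη
    obtain ⟨_, ⟨e', he', rfl⟩, h2⟩ := Metric.mem_closure_iff.1 hz η hη
    exact ⟨(e.1, e'.2), hc e he e' he' (by simp), by rwa [← dist_eq_norm], by rwa [← dist_eq_norm]⟩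
  have nrm : ∀ z ∈ Z, ∀ c, (∀ v ∈ Y, ‖v‖ ≤ 1 → z v ≤ c) → ‖z‖ ≤ c := by
    intro z hz c h
    refine le_of_forall_pos_le_add fun η hη => ?_
    obtain ⟨e, he, -, h1⟩ := ap 0 Y.zero_mem z hz (η / 2) (by positivity)
    have h2 := h _ (mY (nv e.2, 0) (hc e he e he (by simp))) (nv1 _)
    have h3 := (z - e.2).le_of_opNorm_le_of_le h1.le (nv1 e.2)
    have h4 := norm_sub_norm_le z e.2
    rw [ContinuousLinearMap.sub_apply, nv2] at h3
    linarith [neg_le_of_abs_le h3]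
  have sp : ∀ x ∈ Y, (∀ z ∈ Z, z x = 0) → x = 0 := by
    intro x hx h
    refine norm_le_zero_iff.1 (le_of_forall_pos_le_add fun η hη => ?_)
    obtain ⟨e, he, h1, -⟩ := ap x hx 0 Z.zero_mem (η / 2) (by positivity)
    have h2 := h _ (mZ (0, ng e.1) (hc e he e he (by simp)))
    have h3 := (ng e.1).le_of_opNorm_le_of_le (ng1 _) h1.le
    have h4 := norm_sub_norm_le x e.1
    rw [map_sub, ng2, h2] at h3
    simp only [RCLike.ofReal_real_eq_id, id] at h3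
    linarith [neg_le_of_abs_le h3]
  have dn : ∀ x ∈ Y, ∀ z ∈ Z, (∀ a ∈ Y, ∀ b ∈ Z, b ∈ T a → 0 ≤ (z - b) (x - a)) →
      z ∈ T x ∧ T0 x ∈ Z := by
    intro x hx z hz h
    have k : ∀ n : ℕ, ∃ a b, b ∈ T a ∧ T0 a ∈ Z ∧ ‖a - x‖ ≤ 10 * (1 / (n + 1)) ∧
        ‖b - z‖ ≤ 10 * (1 / (n + 1)) := by
      intro n
      have hη : (0:ℝ) < 1 / (n + 1) := by positivity
      generalize (1:ℝ) / (n + 1) = η at hη
      obtain ⟨e, he, h1, h2⟩ := ap x hx z hz η hη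
      have m1 : (e.1 - d e, e.2 + p e) ∈ S := hc e he e he (by simp)
      have h3 := h _ (mY _ m1) _ (mZ _ m1) (hT e)
      have h4 : η * ‖p e‖ ≤ η * (2 * ‖d e‖ + η) := (top hM).nrm' trivial hη fun v _ hv => by
        have := hs e (d e + v) trivial
        have h5 := pow_le_pow_left₀ (norm_nonneg _) ((norm_add_le (d e) v).trans
          (add_le_add_right hv _)) 2
        rw [add_sub_cancel_left] at this
        linarith
      have h5 := le_of_mul_le_mul_left h4 hη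
      have h6 := hs e 0 trivial
      have h7 := (z - e.2).le_of_opNorm_le_of_le h2.le h1.le
      have h8 := (z - e.2).le_of_opNorm_le h2.le (d e)
      have h9 := (p e).le_of_opNorm_le_of_le h5 h1.le
      simp only [map_sub, map_zero, norm_zero, ContinuousLinearMap.sub_apply,
        ContinuousLinearMap.add_apply] at h3 h6 h7 h8 h9
      have h10 : ‖d e‖ ≤ 4 * η := by
        by_contra hh
        nlinarith [le_of_abs_le h7, le_of_abs_le h8, neg_le_of_abs_le h9]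
      refine ⟨_, _, hT e, mZ (0, _) (hc e he e he (by simp)), ?_, ?_⟩
      · rw [show e.1 - d e - x = -(x - e.1) - d e by abel]
        linarith [norm_sub_le (-(x - e.1)) (d e), norm_neg (x - e.1)]
      · rw [show e.2 + p e - z = p e - (z - e.2) by abel]
        linarith [norm_sub_le (p e) (z - e.2)]
    choose a b k1 k2 k3 k4 using k
    have t0 := tendsto_one_div_add_atTop_nhds_zero_nat (𝕜 := ℝ).const_mul 10
    rw [mul_zero] at t0
    have ta : Tendsto a atTop (𝓝 x) :=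
      tendsto_iff_norm_sub_tendsto_zero.2 (squeeze_zero (fun _ => norm_nonneg _) k3 t0)
    have tb : Tendsto b atTop (𝓝 z) :=
      tendsto_iff_norm_sub_tendsto_zero.2 (squeeze_zero (fun _ => norm_nonneg _) k4 t0)
    obtain ⟨C, hC⟩ := (isBounded_range_of_tendsto b tb).exists_norm_le
    refine ⟨hM x z fun y f hf => ge_of_tendsto' ((isBoundedBilinearMap_apply.continuous.tendsto
      (z - f, x - y)).comp ((tb.sub_const f).prodMk_nhds (ta.sub_const y))) fun n =>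
        hm _ _ _ (k1 n) _ hf, memc Z.convex zc (Eventually.of_forall k2)
          (demi hb hp ta k1 fun j => hC _ ⟨j, rfl⟩)⟩
  have m0 : ∀ e ∈ S, (e.1 - d e, e.2 + p e) ∈ S := fun e he => hc e he e he (by simp)
  refine ⟨Y, Z, s, g, ⟨yc, zc, fun f => ?_, nrm, fun x hx z hz h => (dn x hx z hz h).1,
    _, mY _ (m0 0 h0), _, mZ _ (m0 0 h0), hT 0⟩,
    hs' ▸ hY, hg' ▸ hZ, fun x hx z hz h => (dn x hx z hz fun a _ b _ hb => hm _ _ _ h _ hb).2⟩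
  let W : Submodule ℝ (X →L[ℝ] ℝ) :=
    { carrier := {f | ∃ z ∈ Z, ∀ v ∈ Y, z v = f v}
      zero_mem' := ⟨0, Z.zero_mem, fun _ _ => rfl⟩
      add_mem' := fun ⟨z, hz, h⟩ ⟨z', hz', h'⟩ => ⟨z + z', Z.add_mem hz hz', fun v hv => by
        simp [h v hv, h' v hv]⟩
      smul_mem' := fun r _ ⟨z, hz, h⟩ => ⟨r • z, Z.smul_mem r hz, fun v hv => by simp [h v hv]⟩ }
  have wc : IsClosed (W : Set (X →L[ℝ] ℝ)) := by
    refine IsSeqClosed.isClosed fun q f hq hf => ?_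
    choose z hz h using hq
    obtain ⟨C, hC⟩ := (isBounded_range_of_tendsto q hf).exists_norm_le
    obtain ⟨z', hz'⟩ := dult (hyperfilter ℕ) z (B := C) (Eventually.of_forall fun n =>
      nrm _ (hz n) _ fun v hv h1 => by
        have := (q n).le_of_opNorm_le_of_le (hC _ ⟨n, rfl⟩) h1
        rw [h n v hv]
        linarith [le_of_abs_le this])
    refine ⟨z', memd hX Z.convex zc (Eventually.of_forall hz) hz', fun v hv =>
      tendsto_nhds_unique (hz' v) ?_⟩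
    simp only [h _ v hv]
    exact (((ContinuousLinearMap.apply ℝ ℝ v).continuous.tendsto f).comp hf).mono_left
      Nat.hyperfilter_le_atTop
  by_contra hf
  obtain ⟨ψ, u, h1, h2⟩ := geometric_hahn_banach_closed_point W.convex wc hf
  obtain ⟨x, hx⟩ := hX ψ
  have van : ∀ {V : Type} [NormedAddCommGroup V] [NormedSpace ℝ V] (A : Submodule ℝ V)
      (l : V →L[ℝ] ℝ) (u : ℝ), (∀ a ∈ (A : Set V), l a < u) → ∀ a ∈ A, l a = 0 := by
    intro V _ _ A l u h a ha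
    by_contra h0
    have := h _ (A.smul_mem (u / l a) ha)
    rw [map_smul, smul_eq_mul, div_mul_cancel₀ _ h0] at this
    exact lt_irrefl _ this
  have h3 := van W ψ u h1
  have xY : x ∈ Y := by
    by_contra hxY
    obtain ⟨l, u', h4, h5⟩ := geometric_hahn_banach_closed_point Y.convex yc hxY
    have h6 := h3 l ⟨0, Z.zero_mem, fun v hv => (van Y l u' h4 v hv).symm⟩
    have h7 := h4 0 Y.zero_mem
    rw [hx] at h6
    rw [map_zero] at h7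
    linarith
  have x0 := sp x xY fun z hz => hx z ▸ h3 z ⟨z, hz, fun _ _ => rfl⟩
  have h7 := h1 0 W.zero_mem
  rw [hx, x0, map_zero] at h2 h7
  linarith

end Pool.Agent.H29.Mono
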