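import Mathlib
import Pool.Agent.H29.Mono3

open Set Filter Topology Metric

namespace Pool.Agent.H29.Mono

variable {X : Type} [NormedAddCommGroup X] [NormedSpace ℝ X]

/-- resolvent data -/
def Rz (T : X → Set (X →L[ℝ] ℝ)) (Y : Submodule ℝ X) (Z : Submodule ℝ (X →L[ℝ] ℝ)) (φ : X → ℝ)
    (ε : ℝ) (u d : X) (z : X →L[ℝ] ℝ) : Prop :=
  d ∈ Y ∧ z ∈ Z ∧ z ∈ T (u - ε • d) ∧ ∀ v ∈ Y, φ d + z (v - d) ≤ φ v

variable {T : X → Set (X →L[ℝ] ℝ)} {T0 : X → X →L[ℝ] ℝ} {Y : Submodule ℝ X}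
  {Z : Submodule ℝ (X →L[ℝ] ℝ)} {φ : X → ℝ}

lemma Rz.bd (P : Pair T Y Z) (h3 : ∀ x, ‖x‖ ^ 2 ≤ φ x ∧ φ x ≤ 3 * ‖x‖ ^ 2 + 2) {ε : ℝ} {u d : X}
    {z : X →L[ℝ] ℝ} (h : Rz T Y Z φ ε u d z) : ‖d‖ ^ 2 - 2 ≤ z d ∧ ‖z‖ ≤ 14 * (‖d‖ + 1) := by
  constructor
  · have h1 := h.2.2.2 0 Y.zero_mem
    have h2 := (h3 0).2
    simp only [zero_sub, map_neg, norm_zero] at h1 h2
    linarith [(h3 d).1]
  · have r0 : 0 < ‖d‖ + 1 := by positivity
    refine le_of_mul_le_mul_left (P.nrm' h.2.1 r0 fun v hv h1 => ?_) r0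
    have h2 := h.2.2.2 (d + v) (Y.add_mem h.1 hv)
    have h4 := pow_le_pow_left₀ (norm_nonneg _) ((norm_add_le d v).trans (add_le_add_right h1 _)) 2
    rw [add_sub_cancel_left] at h2
    nlinarith [(h3 d).1, (h3 (d + v)).2, norm_nonneg d]

lemma app (hX : Refl X) (hm : ∀ x y, ∀ f ∈ T x, ∀ g ∈ T y, 0 ≤ (f - g) (x - y))
    (hM : ∀ x f, (∀ y, ∀ g ∈ T y, 0 ≤ (f - g) (x - y)) → f ∈ T x)
    (hb : ∀ R : ℝ, ∃ M : ℝ, ∀ x, ‖x‖ ≤ R → ‖T0 x‖ ≤ M) (hp : Pseudo T T0) (P : Pair T Y Z)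
    (h1 : ConvexOn ℝ univ φ) (h2 : Continuous φ)
    (h3 : ∀ x, ‖x‖ ^ 2 ≤ φ x ∧ φ x ≤ 3 * ‖x‖ ^ 2 + 2)
    (h4 : ∀ d ∈ Y, ∀ η > 0, ∃ δ > 0, ∀ z : X →L[ℝ] ℝ, (∀ v ∈ Y, φ d + z (v - d) ≤ φ v) →
      ∀ e ∈ Y, φ e - φ d - z (e - d) ≤ δ → ‖e - d‖ < η)
    {R0 : ℝ} (hR : 1 ≤ R0) (hco : ∀ x, ∀ y ∈ T x, R0 ≤ ‖x‖ → ‖x‖ ≤ (y + T0 x) x) :
    ∃ ε0 > 0, ∀ ε, 0 < ε → ε ≤ ε0 → ∃ C, ∀ t : Finset X, (∀ h ∈ t, h ∈ Y) → ∀ δ > 0,
      ∃ u ∈ Y, ∃ d z, Rz T Y Z φ ε u d z ∧ ‖u - ε • d‖ ≤ R0 ∧ ‖d‖ ≤ C ∧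
        (∀ h ∈ t, |(z + T0 (u - ε • d)) h| ≤ δ) ∧ (z + T0 (u - ε • d)) u ≤ δ := by
  classical
  obtain ⟨a0, ha0, b0, hb0, h0⟩ := P.ne
  obtain ⟨B0, hB0⟩ := hb R0
  have B00 : 0 ≤ B0 := (norm_nonneg _).trans (hB0 0 (by simp; linarith))
  obtain ⟨C3, hC3⟩ : ∃ C3, C3 = (14 * ‖a0‖ + B0) +
    (2 + ‖b0‖ * (R0 + ‖a0‖) + 14 * ‖a0‖ + B0 * R0) + 1 := ⟨_, rfl⟩
  have C30 : 0 ≤ C3 := by rw [hC3]; positivity
  obtain ⟨R, hRR⟩ : ∃ R, R = R0 + C3 + 1 := ⟨_, rfl⟩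
  have Rp : 0 ≤ R := by linarith
  obtain ⟨C1, hC1⟩ : ∃ C1, C1 = (14 * (R + ‖a0‖) + ‖b0‖) +
    (2 + 14 * (R + ‖a0‖) + ‖b0‖ * (R + ‖a0‖)) + 1 := ⟨_, rfl⟩
  obtain ⟨B, hB⟩ := hb (R + C1)
  refine ⟨1 / (3 + B ^ 2), by positivity, fun ε ε0 ε1 => ⟨C1 / ε, fun t ht δ hδ => ?_⟩⟩
  rw [le_div_iff₀ (by positivity)] at ε1
  have ε2 : ε ≤ 1 := by nlinarith
  have bd1 : ∀ u d z, Rz T Y Z φ ε u d z → ‖u‖ ≤ R → ε * ‖d‖ ≤ C1 := by
    intro u d z h hu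
    obtain ⟨k1, k2⟩ := h.bd P h3
    have k3 := hm _ _ _ h.2.2.1 _ h0
    have k4 := (norm_sub_le u a0).trans (add_le_add_left hu _)
    have k5 := z.le_of_opNorm_le_of_le k2 k4
    have k6 := b0.le_of_opNorm_le_of_le le_rfl k4
    have k7 := b0.le_opNorm d
    simp only [map_sub, map_smul, smul_eq_mul, ContinuousLinearMap.sub_apply] at k3 k5 k6
    have k8 : ε * (‖d‖ ^ 2 - 2) ≤ 14 * (‖d‖ + 1) * (R + ‖a0‖) + ‖b0‖ * (R + ‖a0‖) +
        ε * (‖b0‖ * ‖d‖) := by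
      nlinarith [le_of_abs_le k5, neg_le_of_abs_le k6, le_of_abs_le k7]
    rw [hC1]
    refine quad (by positivity) (by positivity) ?_
    have k9 := mul_le_mul_of_nonneg_left k8 ε0.le
    have : 0 ≤ (1 - ε) * (14 * (R + ‖a0‖) + ‖b0‖ * (R + ‖a0‖) + ε * (‖b0‖ * ‖d‖) + 2 * (1 + ε)) :=
      mul_nonneg (by linarith) (by positivity)
    nlinarith
  have bd2 : ∀ u d z, Rz T Y Z φ ε u d z → ‖u‖ ≤ R →
      ‖z‖ ≤ 14 * (C1 / ε + 1) ∧ ‖T0 (u - ε • d)‖ ≤ B := fun u d z h hu => by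
    have k := bd1 u d z h hu
    refine ⟨(h.bd P h3).2.trans ?_, hB _ ((norm_sub_le _ _).trans ?_)⟩
    · have := (le_div_iff₀' ε0).2 k
      linarith
    · rw [norm_smul, Real.norm_of_nonneg ε0.le]; linarith
  choose! d hd z hz hT hs using fun u (hu : u ∈ Y) => res hX hm P h1 h2 h3 hu Z.zero_mem ε0
  have hRz : ∀ u ∈ Y, Rz T Y Z φ ε u (d u) (z u) := fun u hu =>
    ⟨hd u hu, hz u hu, by simpa using hT u hu, hs u hu⟩
  let F := Submodule.span ℝ (t : Set X)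
  have FY : F ≤ Y := Submodule.span_le.2 ht
  have : FiniteDimensional ℝ F := FiniteDimensional.span_finset ℝ t
  obtain ⟨C, hC, cC, vC⟩ : ∃ C : Set X, (∀ v, v ∈ C ↔ v ∈ F ∧ ‖v‖ ≤ R) ∧ IsCompact C ∧ Convex ℝ C :=
    ⟨Subtype.val '' closedBall (0 : F) R, fun v => ⟨fun ⟨w, hw, e⟩ => e ▸ ⟨w.2, by simpa using hw⟩,
      fun h => ⟨⟨v, h.1⟩, by simpa using h.2, rfl⟩⟩,
      (isCompact_closedBall _ _).image continuous_subtype_val,
      (convex_closedBall _ _).linear_image F.subtype⟩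
  have C0 : (0:X) ∈ C := (hC 0).2 ⟨F.zero_mem, by simpa using Rp⟩
  obtain ⟨u, hu, hk⟩ := gen cC vC ⟨0, C0⟩ fun u => z u + T0 (u - ε • d u)
  obtain ⟨uF, uR⟩ := (hC u).1 hu
  have uY := FY uF
  have st : ∀ v ∈ C, ∃ q, Rz T Y Z φ ε u (d u) q ∧ (q + T0 (u - ε • d u)) (u - v) ≤ 0 := by
    intro v hv
    obtain ⟨w, hw, tw⟩ := mem_closure_iff_seq_limit.1 (hk v hv)
    have wY : ∀ j, w j ∈ Y := fun j => FY ((hC _).1 (hw j).1).1
    have wb := fun j => bd2 _ _ _ (hRz _ (wY j)) ((hC _).1 (hw j).1).2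
    have td : Tendsto (fun j => d (w j)) atTop (𝓝 (d u)) := by
      rw [Metric.tendsto_nhds]
      intro η hη
      obtain ⟨δ, hδ, k⟩ := h4 _ (hd u uY) η hη
      have k1 := lim (p := fun j => z (w j) - z u) (a := 0) (fun j => (norm_sub_le _ _).trans
        (add_le_add_left (wb j).1 _)) (tendsto_sub_nhds_zero_iff.2 tw) (by simp)
      filter_upwards [k1.eventually (gt_mem_nhds (mul_pos ε0 hδ))] with j hj
      rw [dist_eq_norm]
      refine k _ (hs u uY) _ (hd _ (wY j)) (le_of_mul_le_mul_left ?_ ε0)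
      have k2 := hm _ _ _ (hRz _ (wY j)).2.2.1 _ (hRz _ uY).2.2.1
      have k3 := mul_le_mul_of_nonneg_left (hs _ (wY j) _ (hd u uY)) ε0.le
      simp only [map_sub, map_smul, smul_eq_mul, ContinuousLinearMap.sub_apply] at k2 k3 hj ⊢
      linarith
    have tx : Tendsto (fun j => w j - ε • d (w j)) atTop (𝓝 (u - ε • d u)) :=
      tw.sub (td.const_smul ε)
    obtain ⟨q, hq⟩ := dult (hyperfilter ℕ) (fun j => z (w j)) (Eventually.of_forall fun j => (wb j).1)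
    have hU := Nat.hyperfilter_le_atTop
    refine ⟨q, ⟨hd u uY, memd hX Z.convex P.zc (Eventually.of_forall fun j => hz _ (wY j)) hq,
      hM _ _ fun a b hb => ?_, fun v hv => ?_⟩, ?_⟩
    · exact ge_of_tendsto' (lim (p := fun j => z (w j) - b) (fun j => (norm_sub_le _ _).trans
        (add_le_add_left (wb j).1 _)) ((tx.sub_const a).mono_left hU) ((hq _).sub_const _))
        fun j => hm _ _ _ (hRz _ (wY j)).2.2.1 _ hb
    · exact le_of_tendsto' ((((h2.tendsto _).comp td).mono_left hU).add (lim (fun j => (wb j).1)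
        ((td.const_sub v).mono_left hU) (hq _))) fun j => hs _ (wY j) v hv
    · refine le_of_tendsto' (lim (p := fun j => z (w j) + T0 (w j - ε • d (w j)))
        (fun j => (norm_add_le _ _).trans (add_le_add (wb j).1 (wb j).2))
        ((tw.sub_const v).mono_left hU) ((hq _).add ?_)) fun j => (hw j).2
      exact (demi hb hp tx (fun j => (hRz _ (wY j)).2.2.1) (fun j => (wb j).1)
        (ContinuousLinearMap.apply ℝ ℝ (u - v))).mono_left hU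
  obtain ⟨q0, hq0, k0⟩ := st 0 C0
  have e0 : (q0 + T0 (u - ε • d u)) (u - 0) = (q0 + T0 (u - ε • d u)) (u - ε • d u) +
      ε * q0 (d u) + ε * T0 (u - ε • d u) (d u) := by
    simp only [map_sub, map_smul, smul_eq_mul, ContinuousLinearMap.add_apply, map_zero]; ring
  obtain ⟨k1, k2⟩ := hq0.bd P h3
  have xR : ‖u - ε • d u‖ ≤ R0 := by
    by_contra hh
    have k3 := hco _ _ hq0.2.2.1 (not_le.1 hh).le
    have k4 := (T0 _).le_of_opNorm_le (bd2 _ _ _ hq0 uR).2 (d u)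
    have k5 : -(2 + B ^ 2 / 4) ≤ q0 (d u) + T0 (u - ε • d u) (d u) := by
      nlinarith [neg_le_of_abs_le k4, sq_nonneg (‖d u‖ - B / 2)]
    nlinarith [mul_le_mul_of_nonneg_left k5 ε0.le, not_le.1 hh, mul_nonneg ε0.le (sq_nonneg B)]
  have dR : ε * ‖d u‖ ≤ C3 := by
    have k3 := hm _ _ _ hq0.2.2.1 _ h0
    have k4 := (T0 _).le_of_opNorm_le (hB0 _ xR) (d u)
    have k5 := (T0 _).le_of_opNorm_le_of_le (hB0 _ xR) xR
    have k6 := b0.le_of_opNorm_le_of_le le_rfl ((norm_sub_le _ a0).trans (add_le_add_left xR _))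
    have k7 := q0.le_of_opNorm_le k2 a0
    rw [e0] at k0
    generalize u - ε • d u = x at *
    simp only [map_sub, ContinuousLinearMap.sub_apply, ContinuousLinearMap.add_apply] at k0 k3 k6
    have k8 : ε * (‖d u‖ ^ 2 - 2) ≤ ‖b0‖ * (R0 + ‖a0‖) + 14 * (‖d u‖ + 1) * ‖a0‖ + B0 * R0 +
        ε * (B0 * ‖d u‖) := by
      nlinarith [neg_le_of_abs_le k4, neg_le_of_abs_le k5, neg_le_of_abs_le k6, neg_le_of_abs_le k7]
    rw [hC3]
    refine quad (by positivity) (by positivity) ?_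
    have k9 := mul_le_mul_of_nonneg_left k8 ε0.le
    have : 0 ≤ (1 - ε) * (‖b0‖ * (R0 + ‖a0‖) + 14 * ‖a0‖ + B0 * R0 + ε * (B0 * ‖d u‖) +
      2 * (1 + ε)) := mul_nonneg (by linarith) (by positivity)
    nlinarith
  have uR' : ‖u‖ ≤ R - 1 := by
    have := norm_add_le (u - ε • d u) (ε • d u)
    rw [sub_add_cancel, norm_smul, Real.norm_of_nonneg ε0.le] at this
    linarith
  have hE : Convex ℝ {q | Rz T Y Z φ ε u (d u) q} := by
    intro q hq q' hq' a b ha hb hab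
    refine ⟨hq.1, Z.convex hq.2.1 hq'.2.1 ha hb hab, hM _ _ fun y g hg => ?_, fun v hv => ?_⟩
    · have k1 := mul_nonneg ha (hm _ _ _ hq.2.2.1 _ hg)
      have k2 := mul_nonneg hb (hm _ _ _ hq'.2.2.1 _ hg)
      simp only [ContinuousLinearMap.sub_apply, ContinuousLinearMap.add_apply,
        ContinuousLinearMap.smul_apply, smul_eq_mul] at k1 k2 ⊢
      obtain rfl : b = 1 - a := by linarith
      linarith
    · have k1 := mul_le_mul_of_nonneg_left (hq.2.2.2 v hv) ha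
      have k2 := mul_le_mul_of_nonneg_left (hq'.2.2.2 v hv) hb
      simp only [ContinuousLinearMap.add_apply, ContinuousLinearMap.smul_apply, smul_eq_mul]
      obtain rfl : b = 1 - a := by linarith
      linarith
  obtain ⟨q, hq, k⟩ := fgh (insert u (t ∪ t.image Neg.neg)) (fun h q => (q + T0 (u - ε • d u)) h)
    (fun h _ => ⟨hE, fun q _ q' _ a b ha hb hab => by
      simp only [ContinuousLinearMap.add_apply, ContinuousLinearMap.smul_apply, smul_eq_mul]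
      obtain rfl : b = 1 - a := by linarith
      linarith⟩) hE ⟨q0, hq0⟩ (fun l _ _ => by
      obtain ⟨h, hh⟩ : ∃ h, h = ∑ i, l i • (i : X) := ⟨_, rfl⟩
      have hF : h ∈ F := hh ▸ F.sum_mem fun i _ => F.smul_mem _ (by
        have := i.2
        simp only [Finset.mem_insert, Finset.mem_union, Finset.mem_image] at this
        rcases this with h | h | ⟨a, h, e⟩
        exacts [by rw [h]; exact uF, Submodule.subset_span h, by
          rw [← e]; exact F.neg_mem (Submodule.subset_span h)])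
      have r0 : 0 < (‖h‖ + 1)⁻¹ := by positivity
      obtain ⟨q, hq, k⟩ := st (u - (‖h‖ + 1)⁻¹ • h) ((hC _).2 ⟨F.sub_mem uF (F.smul_mem _ hF),
        (norm_sub_le _ _).trans (by
          have : (‖h‖ + 1)⁻¹ * ‖h‖ ≤ 1 := by
            rw [inv_mul_le_iff₀ (by positivity)]; linarith
          rw [norm_smul, Real.norm_of_nonneg r0.le]; linarith)⟩)
      rw [sub_sub_cancel, map_smul, smul_eq_mul] at k
      refine ⟨q, hq, le_trans (le_of_eq ?_) (nonpos_of_mul_nonpos_right k r0)⟩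
      simp only [hh, map_sum, map_smul, smul_eq_mul]) hδ
  refine ⟨u, uY, d u, q, hq, xR, (le_div_iff₀' ε0).2 (bd1 _ _ _ hq uR), fun h hh => abs_le.2
    ⟨?_, (k h (by simp [hh])).le⟩, (k u (by simp)).le⟩
  have := k (-h) (Finset.mem_insert_of_mem (Finset.mem_union_right _ (Finset.mem_image_of_mem _ hh)))
  rw [map_neg] at this
  linarith

end Pool.Agent.H29.Mono
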