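import Mathlib
import Pool.Agent.H29.Mono4

open Set Filter Topology Metric

namespace Pool.Agent.H29.Mono

variable {X : Type} [NormedAddCommGroup X] [NormedSpace ℝ X]
variable {T : X → Set (X →L[ℝ] ℝ)} {T0 : X → X →L[ℝ] ℝ} {Y : Submodule ℝ X}
  {Z : Submodule ℝ (X →L[ℝ] ℝ)} {φ : X → ℝ}

lemma seq (hX : Refl X) (P : Pair T Y Z) {g : ℕ → X →L[ℝ] ℝ}
    (hg : (Z : Set (X →L[ℝ] ℝ)) = closure (range g)) {x : ℕ → X} (hx : ∀ n, x n ∈ Y) {B : ℝ}
    (hB : ∀ n, ‖x n‖ ≤ B) : ∃ ψ : ℕ → ℕ, StrictMono ψ ∧ ∃ v ∈ Y,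
      ∀ f : X →L[ℝ] ℝ, Tendsto (fun n => f (x (ψ n))) atTop (𝓝 (f v)) := by
  obtain ⟨v, hv⟩ := xult hX (hyperfilter ℕ) x (Eventually.of_forall hB)
  have vY : v ∈ Y := memc Y.convex P.yc (Eventually.of_forall hx) hv
  obtain ⟨ψ, h1, h2⟩ := extraction_forall_of_frequently
    (P := fun k n => ∀ i ∈ Finset.range (k + 1), dist (g i (x n)) (g i v) < 1 / ((k:ℝ) + 1))
    fun k => (Eventually.frequently ((eventually_all_finset _).2 fun i _ =>
      Metric.tendsto_nhds.1 (hv (g i)) _ (by positivity))).filter_mono Nat.hyperfilter_le_atTop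
  refine ⟨ψ, h1, v, vY, fun f => ?_⟩
  obtain ⟨z, hz, e⟩ := P.ext f
  have := dlim (L := atTop) (p := fun n => NormedSpace.inclusionInDoubleDual ℝ X (x (ψ n) - v))
    (S := range g) (fun n => (NormedSpace.double_dual_bound ℝ X _).trans
      ((norm_sub_le _ _).trans (add_le_add_left (hB _) _))) (by
      rintro _ ⟨i, rfl⟩
      refine squeeze_zero_norm' ((eventually_ge_atTop i).mono fun k hk => ?_)
        tendsto_one_div_add_atTop_nhds_zero_nat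
      have := h2 k i (Finset.mem_range.2 (by omega))
      rw [dist_eq_norm, ← map_sub] at this
      exact this.le) z (hg ▸ hz)
  rw [← tendsto_sub_nhds_zero_iff]
  refine this.congr fun n => ?_
  rw [← map_sub, ← e _ (Y.sub_mem (hx _) vY)]; rfl

lemma cl (hm : ∀ x y, ∀ f ∈ T x, ∀ g ∈ T y, 0 ≤ (f - g) (x - y)) {L : Filter ℕ} [L.NeBot]
    {x : ℕ → X} {v : X} {z : ℕ → X →L[ℝ] ℝ} {q : X →L[ℝ] ℝ} (hz : ∀ n, z n ∈ T (x n))
    (hx : ∀ f : X →L[ℝ] ℝ, Tendsto (fun n => f (x n)) L (𝓝 (f v)))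
    (hq : ∀ v, Tendsto (fun n => z n v) L (𝓝 (q v))) {η : ℝ} (h : ∀ᶠ n in L, z n (x n - v) ≤ η) :
    ∀ a, ∀ b ∈ T a, -η ≤ (q - b) (v - a) := by
  intro a b hb
  have := ge_of_tendsto ((((hq (v - a)).sub (hx b)).add_const (b a)).const_add η)
    (h.mono fun n hn => (by
      have := hm _ _ _ (hz n) _ hb
      simp only [map_sub, ContinuousLinearMap.sub_apply] at this hn ⊢
      linarith : (0:ℝ) ≤ η + (z n (v - a) - b (x n) + b a)))
  simp only [map_sub, ContinuousLinearMap.sub_apply] at this ⊢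
  linarith

lemma lm (hm : ∀ x y, ∀ f ∈ T x, ∀ g ∈ T y, 0 ≤ (f - g) (x - y))
    (hM : ∀ x f, (∀ y, ∀ g ∈ T y, 0 ≤ (f - g) (x - y)) → f ∈ T x)
    {x : ℕ → X} {v : X} {z : ℕ → X →L[ℝ] ℝ} (hz : ∀ n, z n ∈ T (x n))
    (hx : ∀ f : X →L[ℝ] ℝ, Tendsto (fun n => f (x n)) atTop (𝓝 (f v))) {B : ℝ}
    (hB : ∀ n, ‖z n‖ ≤ B) {η : ℝ} (hη : 0 < η) : ∀ᶠ n in atTop, -η ≤ z n (x n - v) := by
  by_contra hc
  rw [not_eventually, frequently_iff_neBot] at hc
  obtain ⟨q, hq⟩ := dult (.of (atTop ⊓ 𝓟 {n | ¬ -η ≤ z n (x n - v)})) z (Eventually.of_forall hB)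
  have hU := Ultrafilter.of_le (atTop ⊓ 𝓟 {n | ¬ -η ≤ z n (x n - v)})
  have k := cl hm hz (fun f => (hx f).mono_left (hU.trans inf_le_left)) hq (η := -η)
    (Eventually.mono (le_principal_iff.1 (hU.trans inf_le_right)) fun n hn => (not_le.1 hn).le)
  have := k v q (hM _ _ fun a b hb => by linarith [k a b hb])
  simp only [sub_self, map_zero] at this
  linarith

lemma lp' (hp : Pseudo T T0) {x : ℕ → X} {v : X} {z : ℕ → X →L[ℝ] ℝ} (hz : ∀ n, z n ∈ T (x n))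
    (hx : ∀ f : X →L[ℝ] ℝ, Tendsto (fun n => f (x n)) atTop (𝓝 (f v))) {B : ℝ}
    (hB : ∀ n, ‖z n‖ ≤ B) {η : ℝ} (hη : 0 < η) : ∀ᶠ n in atTop, -η ≤ T0 (x n) (x n - v) := by
  by_contra hc
  obtain ⟨ψ, h1, h2⟩ := extraction_of_frequently_atTop (not_eventually.1 hc)
  have := (hp (fun n => x (ψ n)) v (fun n => z (ψ n)) (fun f => (hx f).comp h1.tendsto_atTop)
    (fun n => hz _) ⟨B, fun n => hB _⟩ fun ε hε => Eventually.of_forall fun n => by
      linarith [not_le.1 (h2 n)]).2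
  linarith [le_of_tendsto' this fun n => (not_le.1 (h2 n)).le]

theorem main (hX : Refl X) (hm : ∀ x y, ∀ f ∈ T x, ∀ g ∈ T y, 0 ≤ (f - g) (x - y))
    (hM : ∀ x f, (∀ y, ∀ g ∈ T y, 0 ≤ (f - g) (x - y)) → f ∈ T x)
    (hb : ∀ R : ℝ, ∃ M : ℝ, ∀ x, ‖x‖ ≤ R → ‖T0 x‖ ≤ M) (hp : Pseudo T T0)
    {R0 : ℝ} (hR : 1 ≤ R0) (hco : ∀ x, ∀ y ∈ T x, R0 ≤ ‖x‖ → ‖x‖ ≤ (y + T0 x) x) :
    ∃ x, ∃ y ∈ T x, y + T0 x = 0 := by
  classical
  obtain ⟨Y, Z, s, g, P, hs, hg, hT0⟩ := sep hX hm hM hb hp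
  obtain ⟨φ, h1, h2, h3, h4⟩ := phi s
  have sY : ∀ i, s i ∈ Y := fun i => by
    rw [← SetLike.mem_coe, hs]; exact subset_closure ⟨i, rfl⟩
  obtain ⟨ε0, ε00, H⟩ := app hX hm hM hb hp P h1 h2 h3 (fun d hd η hη => by
    rw [← SetLike.mem_coe, hs] at hd
    obtain ⟨_, ⟨k, rfl⟩, hk⟩ := Metric.mem_closure_iff.1 hd (η / 4) (by positivity)
    rw [← hs] at hd
    obtain ⟨c, c0, hc⟩ := h4 k
    refine ⟨c * (η / 4) ^ 2, by positivity, fun z hz e he h => ?_⟩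
    have k1 := hz _ (Y.add_mem (Y.smul_mem (1 / 2 : ℝ) he) (Y.smul_mem (1 / 2 : ℝ) hd))
    have k2 := hc e d
    simp only [map_sub, map_add, map_smul, smul_eq_mul] at k1 h
    have k3 : (‖e - s k‖ - ‖d - s k‖) ^ 2 ≤ (η / 4) ^ 2 := by
      refine le_of_mul_le_mul_left ?_ c0
      have : 0 ≤ c * (η / 4) ^ 2 := by positivity
      linarith
    have k4 := (abs_le_of_sq_le_sq' k3 (by positivity)).2
    have k5 := norm_sub_le_norm_sub_add_norm_sub e (s k) d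
    rw [dist_eq_norm] at hk
    rw [norm_sub_rev (s k)] at k5
    linarith) hR hco
  obtain ⟨B0, hB0⟩ := hb R0
  have B00 : 0 ≤ B0 := (norm_nonneg _).trans (hB0 0 (by simp; linarith))
  have t0 := tendsto_one_div_add_atTop_nhds_zero_nat (𝕜 := ℝ)
  have van : ∀ (A : ℕ → X →L[ℝ] ℝ) (B : ℝ), (∀ n, ‖A n‖ ≤ B) →
      (∀ n, ∀ i ≤ n, |A n (s i)| ≤ 1 / ((n:ℝ) + 1)) →
      ∀ v ∈ Y, Tendsto (fun n => A n v) atTop (𝓝 0) := fun A B hB h v hv =>
    dlim (S := range s) hB (by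
      rintro _ ⟨i, rfl⟩
      exact squeeze_zero_norm' ((eventually_ge_atTop i).mono fun k hk => h k i hk) t0) v (hs ▸ hv)
  have s2 : ∀ k : ℕ, ∃ x ∈ Y, ∃ z ∈ Z, z ∈ T x ∧ ‖x‖ ≤ R0 ∧ ‖z‖ ≤ 14 * (B0 + 5) ∧
      (∀ i ≤ k, |(z + T0 x) (s i)| ≤ 1 / ((k:ℝ) + 1)) ∧
      (z + T0 x) x ≤ (1 + ε0 * (2 + B0 * (B0 + 4))) * (1 / ((k:ℝ) + 1)) := by
    intro k
    have p0 : (0:ℝ) < 1 / (k + 1) := by positivity
    have p1 : (1:ℝ) / (k + 1) ≤ 1 := by
      rw [div_le_one (by positivity)]; linarith [(Nat.cast_nonneg k : (0:ℝ) ≤ k)]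
    obtain ⟨ε, hε⟩ : ∃ ε, ε = ε0 * (1 / ((k:ℝ) + 1)) := ⟨_, rfl⟩
    have ε1 : 0 < ε := by rw [hε]; positivity
    obtain ⟨C, hC⟩ := H ε ε1 (by nlinarith)
    choose u hu d z hz xb db hA hA' using fun n : ℕ => hC ((Finset.range (n + 1)).image s)
      (fun h hh => by obtain ⟨i, -, rfl⟩ := Finset.mem_image.1 hh; exact sY i) (1 / ((n:ℝ) + 1))
      (by positivity)
    have xY : ∀ n, u n - ε • d n ∈ Y := fun n => Y.sub_mem (hu n) (Y.smul_mem _ (hz n).1)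
    have zb : ∀ n, ‖z n‖ ≤ 14 * (C + 1) := fun n => by linarith [((hz n).bd P h3).2, db n]
    have hA2 : ∀ n, ∀ i ≤ n, |(z n + T0 (u n - ε • d n)) (s i)| ≤ 1 / ((n:ℝ) + 1) := fun n i hi =>
      hA n _ (Finset.mem_image_of_mem _ (Finset.mem_range.2 (by omega)))
    obtain ⟨ψ, hψ, v, vY, hv⟩ := seq hX P hg xY xb
    have k1 := (van _ _ (fun n => (norm_add_le _ _).trans (add_le_add (zb n) (hB0 _ (xb n))))
      hA2 v vY).comp hψ.tendsto_atTop
    have η0 : 0 < ε / 4 := by positivity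
    obtain ⟨n, n1, n2, n3, n4, n5⟩ := ((lm hm hM (fun n => (hz (ψ n)).2.2.1) hv (fun n => zb _) η0).and
      ((lp' hp (fun n => (hz (ψ n)).2.2.1) hv (fun n => zb _) η0).and
      ((k1.eventually (lt_mem_nhds (neg_lt_zero.2 η0))).and
      (((t0.comp hψ.tendsto_atTop).eventually (gt_mem_nhds η0)).and
      (hψ.tendsto_atTop.eventually (eventually_ge_atTop k)))))).exists
    simp only [Function.comp] at n3 n4
    generalize ψ n = m at *
    have k2 := hA' m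
    have k3 := (T0 _).le_of_opNorm_le (hB0 _ (xb m)) (d m)
    obtain ⟨k4, k5⟩ := (hz m).bd P h3
    have e0 : (z m + T0 (u m - ε • d m)) (u m) = (z m + T0 (u m - ε • d m)) (u m - ε • d m) +
        ε * (z m (d m) + T0 (u m - ε • d m) (d m)) := by
      simp only [map_sub, map_smul, smul_eq_mul, ContinuousLinearMap.add_apply]; ring
    have e1 : (z m + T0 (u m - ε • d m)) (u m - ε • d m) = z m (u m - ε • d m - v) +
        T0 (u m - ε • d m) (u m - ε • d m - v) + (z m + T0 (u m - ε • d m)) v := by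
      simp only [map_sub, ContinuousLinearMap.add_apply]; ring
    have k6 : z m (d m) + T0 (u m - ε • d m) (d m) ≤ 1 := by
      refine le_of_mul_le_mul_left ?_ ε1
      linarith
    have k7 : ‖d m‖ ≤ B0 + 3 + 1 := quad B00 (by norm_num) (by linarith [neg_le_of_abs_le k3])
    have k8 : (1:ℝ) / (m + 1) ≤ 1 / (k + 1) := Nat.one_div_le_one_div n5
    refine ⟨_, xY m, _, (hz m).2.1, (hz m).2.2.1, xb m, by linarith, fun i hi =>
      (hA2 m i (hi.trans n5)).trans k8, ?_⟩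
    have k9 : -(2 + B0 * (B0 + 4)) ≤ z m (d m) + T0 (u m - ε • d m) (d m) := by
      nlinarith [neg_le_of_abs_le k3, mul_le_mul_of_nonneg_left k7 B00]
    have := mul_le_mul_of_nonneg_left k9 ε1.le
    rw [add_mul, one_mul, mul_right_comm, ← hε]
    linarith
  choose x xY z zZ hz xb zb hA hA' using s2
  obtain ⟨ψ, hψ, v, vY, hv⟩ := seq hX P hg xY xb
  have k1 := fun w hw => (van _ _ (fun n => (norm_add_le _ _).trans (add_le_add (zb n)
    (hB0 _ (xb n)))) hA w hw).comp hψ.tendsto_atTop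
  have k2 : ∀ η > 0, ∀ᶠ n in atTop, z (ψ n) (x (ψ n) - v) + T0 (x (ψ n)) (x (ψ n) - v) ≤ η := by
    intro η hη
    have := ((t0.const_mul (1 + ε0 * (2 + B0 * (B0 + 4)))).comp hψ.tendsto_atTop).sub (k1 v vY)
    rw [mul_zero, sub_zero] at this
    filter_upwards [this.eventually (gt_mem_nhds hη)] with n hn
    have := hA' (ψ n)
    simp only [map_sub, ContinuousLinearMap.add_apply, Function.comp] at this hn ⊢
    linarith
  obtain ⟨k3, k4⟩ := hp (fun n => x (ψ n)) v (fun n => z (ψ n)) hv (fun n => hz _)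
    ⟨_, fun n => zb _⟩ fun η hη => by
      filter_upwards [k2 (η / 2) (by positivity), lm hm hM (fun n => hz (ψ n)) hv (fun n => zb _)
        (half_pos hη)] with n h h'
      linarith
  have hU := Nat.hyperfilter_le_atTop
  obtain ⟨q, hq⟩ := dult (hyperfilter ℕ) (fun n => z (ψ n)) (Eventually.of_forall fun n => zb _)
  have k5 : ∀ w, Tendsto (fun n => (z (ψ n) + T0 (x (ψ n))) w) (hyperfilter ℕ)
      (𝓝 ((q + T0 v) w)) := fun w =>
    (hq w).add ((k3 (ContinuousLinearMap.apply ℝ ℝ w)).mono_left hU)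
  refine ⟨v, q, hM _ _ fun a b hb => le_of_forall_pos_le_add fun η hη => ?_, norm_le_zero_iff.1
    (P.nrm _ (memd hX Z.convex P.zc (Eventually.of_forall fun n => Z.add_mem (zZ _)
      (hT0 _ (xY _) _ (zZ _) (hz _))) k5) 0 fun w hw _ =>
        (tendsto_nhds_unique (k5 w) ((k1 w hw).mono_left hU)).le)⟩
  have := cl hm (fun n => hz (ψ n)) (fun f => (hv f).mono_left hU) hq (η := η)
    (Eventually.filter_mono hU (by
      filter_upwards [k2 (η / 2) (by positivity),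
        k4.eventually (lt_mem_nhds (neg_lt_zero.2 (half_pos hη)))] with n h h'
      linarith)) a b hb
  linarith

end Pool.Agent.H29.Mono
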