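import Mathlib

set_option autoImplicit false

namespace Pool.Agent.H29.Mu

open scoped InnerProductSpace Classical

abbrev Cn (n : ℕ) : Type := EuclideanSpace ℂ (Fin n)

abbrev Op (n : ℕ) : Type := Cn n →L[ℂ] Cn n

def InSector (θ : ℝ) (z : ℂ) : Prop := z = 0 ∨ |Complex.arg z| ≤ θ

def PhaseClass (n : ℕ) (θ : ℝ) : Set (Op n) :=
  {Γ | ∀ x : Cn n, ‖x‖ = 1 → InSector θ ⟪x, Γ x⟫_ℂ}

def Destab {n : ℕ} (θ : ℝ) (M : Op n) : Set (Op n) :=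
  {Γ | Γ ∈ PhaseClass n θ ∧ ¬ IsUnit (1 + Γ * M)}

noncomputable def mu {n : ℕ} (θ : ℝ) (M : Op n) : ℝ :=
  if (Destab θ M).Nonempty then 1 / sInf ((fun Γ : Op n => ‖Γ‖) '' Destab θ M) else 0

def NegDef {n : ℕ} (L : Op n) : Prop := ∀ x : Cn n, x ≠ 0 → (⟪x, L x⟫_ℂ).re < 0

noncomputable def muHat {n : ℕ} (θ : ℝ) (M : Op n) : ℝ :=
  sInf {γ : ℝ | 0 < γ ∧ ∃ r β : ℝ, 0 < r ∧ (θ = 0 ∨ |β| ≤ Real.cot θ) ∧
    NegDef ((r : ℂ) • (star M * M - ((γ : ℂ) ^ 2) • (1 : Op n)) -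
      ((1 + Complex.I * β) • M + star ((1 + Complex.I * β) • M)))}

end Pool.Agent.H29.Mu
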