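import Mathlib
import Pool.Agent.H29.MuDefs

set_option autoImplicit false

namespace Pool.Agent.H29.Mu

open scoped InnerProductSpace
open Real

lemma sec_iff {θ : ℝ} (h0 : 0 ≤ θ) (h1 : θ ≤ π / 2) (z : ℂ) :
    InSector θ z ↔ ‖z‖ * cos θ ≤ z.re := by
  unfold InSector
  by_cases hz : z = 0
  · simp [hz]
  · have hn : 0 < ‖z‖ := norm_pos_iff.mpr hz
    have hc : cos |z.arg| = z.re / ‖z‖ := by rw [cos_abs, Complex.cos_arg hz]
    have ha : |z.arg| ≤ π := Complex.abs_arg_le_pi z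
    rw [or_iff_right hz, ← (strictAntiOn_cos.le_iff_ge (a := θ) (b := |z.arg|)
      ⟨h0, by linarith [pi_pos]⟩ ⟨abs_nonneg _, ha⟩), hc, le_div_iff₀ hn, mul_comm]

lemma sec_iff' {θ : ℝ} (h0 : 0 ≤ θ) (h1 : θ ≤ π / 2) (z : ℂ) :
    InSector θ z ↔ 0 ≤ z.re ∧ cos θ * |z.im| ≤ sin θ * z.re := by
  rw [sec_iff h0 h1]
  have hc : 0 ≤ cos θ := cos_nonneg_of_mem_Icc ⟨by linarith [pi_pos], h1⟩
  have hs : 0 ≤ sin θ := sin_nonneg_of_mem_Icc ⟨h0, by linarith [pi_pos]⟩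
  have e1 : ‖z‖ ^ 2 = z.re ^ 2 + z.im ^ 2 := by rw [Complex.sq_norm, Complex.normSq_apply]; ring
  have e2 := sin_sq_add_cos_sq θ
  have e3 : |z.im| ^ 2 = z.im ^ 2 := sq_abs _
  constructor
  · intro h
    have h2 : 0 ≤ z.re := le_trans (by positivity) h
    refine ⟨h2, ?_⟩
    have h3 := pow_le_pow_left₀ (by positivity) h 2
    refine (pow_le_pow_iff_left₀ (n := 2) (by positivity) (by positivity) (by norm_num)).mp ?_
    rw [mul_pow, e1] at h3
    rw [mul_pow, mul_pow, e3]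
    nlinarith
  · rintro ⟨h2, h⟩
    have h3 := pow_le_pow_left₀ (by positivity) h 2
    refine (pow_le_pow_iff_left₀ (n := 2) (by positivity) h2 (by norm_num)).mp ?_
    rw [mul_pow, mul_pow, e3] at h3
    rw [mul_pow, e1]
    nlinarith

lemma phase_all {n : ℕ} {θ : ℝ} (h0 : 0 ≤ θ) (h1 : θ ≤ π / 2) {Γ : Op n} :
    Γ ∈ PhaseClass n θ ↔ ∀ x : Cn n, ‖⟪x, Γ x⟫_ℂ‖ * cos θ ≤ (⟪x, Γ x⟫_ℂ).re := by
  constructor
  · intro h x
    by_cases hx : x = 0
    · simp [hx]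
    · have hn : 0 < ‖x‖ := norm_pos_iff.mpr hx
      have h2 := (sec_iff h0 h1 _).mp (h (((‖x‖⁻¹ : ℝ) : ℂ) • x) (by
        rw [norm_smul]; simp [hn.ne']))
      rw [map_smul, inner_smul_left, inner_smul_right, Complex.conj_ofReal, ← mul_assoc,
        ← Complex.ofReal_mul, norm_mul, Complex.re_ofReal_mul, Complex.norm_real,
        Real.norm_of_nonneg (by positivity), mul_assoc] at h2
      exact le_of_mul_le_mul_left h2 (by positivity)
  · exact fun h x _ => (sec_iff h0 h1 _).mpr (h x)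

lemma sing_iff {n : ℕ} (L : Op n) : ¬ IsUnit L ↔ ∃ x : Cn n, ‖x‖ = 1 ∧ L x = 0 := by
  rw [ContinuousLinearMap.isUnit_iff_bijective]
  constructor
  · intro h
    have h2 : ¬ Function.Injective L := fun hi =>
      h ⟨hi, (LinearMap.injective_iff_surjective (f := (L : Cn n →ₗ[ℂ] Cn n))).mp hi⟩
    rw [injective_iff_map_eq_zero] at h2
    push Not at h2
    obtain ⟨x, hx, hx0⟩ := h2
    have hn : 0 < ‖x‖ := norm_pos_iff.mpr hx0
    refine ⟨((‖x‖⁻¹ : ℝ) : ℂ) • x, ?_, by rw [map_smul, hx, smul_zero]⟩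
    rw [norm_smul]; simp [hn.ne']
  · rintro ⟨x, hx, h0⟩ h
    have := (injective_iff_map_eq_zero L).mp h.1 x h0
    rw [this] at hx
    simp at hx

lemma key_ineq {n : ℕ} {θ : ℝ} (h0 : 0 ≤ θ) (h1 : θ ≤ π / 2) {Γ : Op n}
    (hΓ : Γ ∈ PhaseClass n θ) (hn : ‖Γ‖ ≤ 1) {w v : Cn n} (hw : ‖w‖ = 1) (hv : ‖v‖ = 1)
    (hwv : Γ w = v) : cos θ ≤ (⟪w, v⟫_ℂ).re := by
  have hvv : ⟪v, v⟫_ℂ = 1 := by rw [inner_self_eq_norm_sq_to_K, hv]; simp
  have ha : ContinuousLinearMap.adjoint Γ v = w := by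
    have e1 : ‖ContinuousLinearMap.adjoint Γ v‖ ≤ 1 := by
      refine ((ContinuousLinearMap.adjoint Γ).le_opNorm v).trans ?_
      rw [LinearIsometryEquiv.norm_map, hv, mul_one]; exact hn
    have e2 : ⟪ContinuousLinearMap.adjoint Γ v, w⟫_ℂ = 1 := by
      rw [ContinuousLinearMap.adjoint_inner_left, hwv, hvv]
    have e3 := norm_sub_sq (𝕜 := ℂ) (ContinuousLinearMap.adjoint Γ v) w
    rw [e2, hw] at e3
    have e4 : ‖ContinuousLinearMap.adjoint Γ v - w‖ ^ 2 ≤ 0 := by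
      rw [e3]
      have := norm_nonneg (ContinuousLinearMap.adjoint Γ v)
      simp
      nlinarith
    have e5 : ‖ContinuousLinearMap.adjoint Γ v - w‖ = 0 :=
      pow_eq_zero_iff (n := 2) (by norm_num) |>.mp (le_antisymm e4 (by positivity))
    exact sub_eq_zero.mp (norm_eq_zero.mp e5)
  have hb : ⟪v, Γ v⟫_ℂ = ⟪w, v⟫_ℂ := by rw [← ContinuousLinearMap.adjoint_inner_left, ha]
  set α := ⟪w, v⟫_ℂ with hα
  set κ := ⟪w, Γ v⟫_ℂ with hκ
  have hq : ∀ p q : ℝ, p ^ 2 + q ^ 2 = 1 → InSector θ (2 * α + (p + q * Complex.I) +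
      (p - q * Complex.I) * κ) := by
    intro p q hpq
    rw [sec_iff h0 h1]
    have := (phase_all h0 h1).mp hΓ ((p + q * Complex.I : ℂ) • w + v)
    have e : ⟪(p + q * Complex.I : ℂ) • w + v, Γ ((p + q * Complex.I : ℂ) • w + v)⟫_ℂ
        = 2 * α + (p + q * Complex.I) + (p - q * Complex.I) * κ := by
      rw [map_add, map_smul, hwv, inner_add_left, inner_add_right, inner_add_right,
        inner_smul_left, inner_smul_left, inner_smul_right, inner_smul_right, hb, hvv, ← hα, ← hκ]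
      have e5 : (starRingEnd ℂ) (p + q * Complex.I : ℂ) = p - q * Complex.I := by
        simp [sub_eq_add_neg]
      have e6 : (p : ℂ) ^ 2 + q ^ 2 = 1 := by exact_mod_cast hpq
      rw [e5]
      linear_combination α * e6 - α * (q : ℂ) ^ 2 * Complex.I_sq
    rwa [e] at this
  have e2 := sin_sq_add_cos_sq θ
  have hs : 0 ≤ sin θ := sin_nonneg_of_mem_Icc ⟨h0, by linarith [pi_pos]⟩
  have hc : 0 ≤ cos θ := cos_nonneg_of_mem_Icc ⟨by linarith [pi_pos], h1⟩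
  rcases hs.eq_or_lt with h | h
  · have hc1 : cos θ = 1 := by nlinarith
    have a1 := ((sec_iff' h0 h1 _).mp (hq 0 1 (by norm_num))).2
    have a2 := ((sec_iff' h0 h1 _).mp (hq 0 (-1) (by norm_num))).2
    have a3 := ((sec_iff' h0 h1 _).mp (hq (-1) 0 (by norm_num))).1
    rw [← h, hc1, zero_mul, one_mul, abs_nonpos_iff] at a1 a2
    simp at a1 a2 a3
    rw [hc1]
    linarith
  · have a1 := ((sec_iff' h0 h1 _).mp (hq (-cos θ) (sin θ) (by nlinarith))).2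
    have a2 := ((sec_iff' h0 h1 _).mp (hq (-cos θ) (-sin θ) (by nlinarith))).2
    have b1 := le_trans (mul_le_mul_of_nonneg_left (le_abs_self _) hc) a1
    have b2 := le_trans (mul_le_mul_of_nonneg_left (neg_le_abs _) hc) a2
    generalize cos θ = c at *
    generalize sin θ = s at *
    simp at b1 b2
    refine le_of_mul_le_mul_left ?_ h
    nlinarith

lemma construct {n : ℕ} {θ : ℝ} (h0 : 0 ≤ θ) (h1 : θ ≤ π / 2) {w v : Cn n} (hw : ‖w‖ = 1)
    (hv : ‖v‖ = 1) (h : cos θ ≤ (⟪w, v⟫_ℂ).re) :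
    ∃ Γ : Op n, Γ ∈ PhaseClass n θ ∧ ‖Γ‖ ≤ 1 ∧ Γ w = v := by
  set a := (⟪w, v⟫_ℂ).re with ha
  have hww : ⟪w, w⟫_ℂ = 1 := by rw [inner_self_eq_norm_sq_to_K, hw]; simp
  have hp : ‖v - (a : ℂ) • w‖ ^ 2 = 1 - a ^ 2 := by
    rw [norm_sub_sq (𝕜 := ℂ), hv, norm_smul, hw, inner_smul_right]
    have : (⟪v, w⟫_ℂ).re = a := by rw [ha, ← inner_conj_symm, Complex.conj_re]
    simp [this]
    ring
  obtain ⟨ρ, e, hρ, he, hre, hpe⟩ : ∃ (ρ : ℝ) (e : Cn n), ρ ^ 2 = 1 - a ^ 2 ∧ ‖e‖ = 1 ∧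
      (⟪w, e⟫_ℂ).im = 0 ∧ v = (a : ℂ) • w + (Complex.I * ρ) • e := by
    by_cases hz : v - (a : ℂ) • w = 0
    · refine ⟨0, w, by rw [← hp, hz]; simp, hw, by rw [hww]; simp, by simpa [sub_eq_zero] using hz⟩
    · have hn : 0 < ‖v - (a : ℂ) • w‖ := norm_pos_iff.mpr hz
      refine ⟨_, (-Complex.I * ((‖v - (a : ℂ) • w‖⁻¹ : ℝ) : ℂ)) • (v - (a : ℂ) • w), hp, ?_, ?_, ?_⟩
      · rw [norm_smul, norm_mul, norm_neg, Complex.norm_I, one_mul, Complex.norm_real, norm_inv,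
          norm_norm, inv_mul_cancel₀ hn.ne']
      · rw [inner_smul_right, inner_sub_right, inner_smul_right, hww]
        simp [ha]
      · rw [smul_smul]
        have : Complex.I * (‖v - (a : ℂ) • w‖ : ℝ) *
            (-Complex.I * ((‖v - (a : ℂ) • w‖⁻¹ : ℝ) : ℂ)) = 1 := by
          have : ((‖v - (a : ℂ) • w‖ : ℝ) : ℂ) ≠ 0 := by exact_mod_cast hn.ne'
          push_cast
          field_simp
          simp
        rw [this]; simp
  let R := Submodule.reflection (ℂ ∙ (w - e))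
  have hR : R w = -e := by
    simp only [R]
    rw [Submodule.reflection_singleton_apply]
    by_cases hd : w - e = 0
    · rw [hd, sub_eq_zero.mp hd]; simp
    · have hn : ((‖w - e‖ : ℝ) : ℂ) ≠ 0 := by exact_mod_cast (norm_pos_iff.mpr hd).ne'
      have e1 : ‖w - e‖ ^ 2 = 2 - 2 * (⟪w, e⟫_ℂ).re := by
        rw [norm_sub_sq (𝕜 := ℂ), hw, he]; simp; ring
      have e2 : ⟪w - e, w⟫_ℂ = 1 - (⟪w, e⟫_ℂ).re := by
        rw [inner_sub_left, hww, ← inner_conj_symm e w]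
        congr 1
        apply Complex.ext
        · rw [Complex.conj_re, Complex.ofReal_re]
        · rw [Complex.conj_im, Complex.ofReal_im, hre, neg_zero]
      have e3 : ⟪w - e, w⟫_ℂ / ((‖w - e‖ : ℝ) : ℂ) ^ 2 = 1 / 2 := by
        rw [div_eq_iff (pow_ne_zero 2 hn), e2, ← Complex.ofReal_pow, e1]
        push_cast; ring
      erw [e3]
      rw [two_smul, ← add_smul]
      norm_num
  have hreal : ∀ x, (⟪x, R x⟫_ℂ).im = 0 := by
    intro x
    have e1 : ⟪R x, R (R x)⟫_ℂ = ⟪x, R x⟫_ℂ := R.inner_map_map _ _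
    simp only [R] at e1
    rw [Submodule.reflection_reflection, ← inner_conj_symm] at e1
    exact Complex.conj_eq_iff_im.mp e1
  let Γ : Op n := (a : ℂ) • (1 : Op n) - (Complex.I * ρ) • (R.toContinuousLinearEquiv : Op n)
  have hΓ : ∀ x, Γ x = (a : ℂ) • x - (Complex.I * ρ) • R x := fun x => rfl
  have hnorm : ∀ x, ‖Γ x‖ = ‖x‖ := by
    intro x
    refine (pow_left_inj₀ (norm_nonneg _) (norm_nonneg _) two_ne_zero).mp ?_
    rw [hΓ, norm_sub_sq (𝕜 := ℂ), norm_smul, norm_smul, R.norm_map, inner_smul_left,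
      inner_smul_right]
    simp [hreal x, mul_pow, hρ]
    ring
  refine ⟨Γ, (phase_all h0 h1).mpr fun x => ?_,
    Γ.opNorm_le_bound zero_le_one fun x => by rw [hnorm, one_mul], ?_⟩
  · have e1 : (⟪x, Γ x⟫_ℂ).re = a * ‖x‖ ^ 2 := by
      rw [hΓ, inner_sub_right, inner_smul_right, inner_smul_right, inner_self_eq_norm_sq_to_K]
      simp [hreal x, ← Complex.ofReal_pow]
    have e2 : ‖⟪x, Γ x⟫_ℂ‖ ≤ ‖x‖ ^ 2 := by
      have := norm_inner_le_norm (𝕜 := ℂ) x (Γ x)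
      rwa [hnorm, ← sq] at this
    have hc : 0 ≤ cos θ := cos_nonneg_of_mem_Icc ⟨by linarith [pi_pos], h1⟩
    rw [e1]
    nlinarith [sq_nonneg ‖x‖]
  · rw [hΓ, hR, smul_neg, sub_neg_eq_add, ← hpe]

lemma scal_aux (k0 k1 s : ℝ) (hs : 0 ≤ s) (h : k0 < 0 ∨ k1 < 0) :
    ∃ t : ℝ, 0 ≤ 1 + t * k0 ∧ 0 ≤ 1 + t * k1 ∧ (1 + t * k0) * (1 + t * k1) = t ^ 2 * s := by
  have hm : min k0 k1 < 0 := by simpa using h
  set m := min k0 k1 with hmd
  have ht : 0 < -1 / m := div_pos_of_neg_of_neg (by norm_num) hm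
  have hc : ContinuousOn (fun t : ℝ => (1 + t * k0) * (1 + t * k1) - t ^ 2 * s)
      (Set.Icc 0 (-1 / m)) := by fun_prop
  have h1 := intermediate_value_Icc' ht.le hc
  have h2 : (1 + -1 / m * k0) * (1 + -1 / m * k1) = 0 := by
    rcases min_choice k0 k1 with h | h
    · rw [← h, ← hmd, div_mul_cancel₀ _ hm.ne]; simp
    · rw [← h, ← hmd, div_mul_cancel₀ _ hm.ne]; simp
  obtain ⟨t, ⟨t0, t1⟩, h3⟩ := h1 (show (0 : ℝ) ∈ _ from ⟨by
    simp only [h2]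
    have : 0 ≤ (-1 / m) ^ 2 * s := by positivity
    linarith, by simp⟩)
  have h4 : -1 ≤ t * m := by
    have := mul_le_mul_of_nonpos_right t1 hm.le
    rwa [div_mul_cancel₀ _ hm.ne] at this
  have h5 := mul_le_mul_of_nonneg_left (min_le_left k0 k1) t0
  have h6 := mul_le_mul_of_nonneg_left (min_le_right k0 k1) t0
  exact ⟨t, by linarith, by linarith, by linarith⟩

lemma scal (k0 k1 k2 k3 : ℝ) (h : k0 ≠ 0 ∨ k1 ≠ 0 ∨ k2 ≠ 0 ∨ k3 ≠ 0) :
    ∃ (t : ℝ) (a b : ℂ), ‖a‖ ^ 2 = 1 + t * k0 ∧ ‖b‖ ^ 2 = 1 + t * k1 ∧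
      (starRingEnd ℂ a * b).re = t * k2 ∧ (starRingEnd ℂ a * b).im = t * k3 := by
  obtain ⟨t, h1, h2, h3⟩ : ∃ t : ℝ, 0 ≤ 1 + t * k0 ∧ 0 ≤ 1 + t * k1 ∧
      (1 + t * k0) * (1 + t * k1) = t ^ 2 * (k2 ^ 2 + k3 ^ 2) := by
    by_cases c1 : k0 < 0 ∨ k1 < 0
    · exact scal_aux _ _ _ (by positivity) c1
    by_cases c2 : -k0 < 0 ∨ -k1 < 0
    · obtain ⟨t, a1, a2, a3⟩ := scal_aux _ _ (k2 ^ 2 + k3 ^ 2) (by positivity) c2
      exact ⟨-t, by linarith, by linarith, by linarith⟩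
    push Not at c1 c2
    have e0 : k0 = 0 := by linarith
    have e1 : k1 = 0 := by linarith
    have hp : 0 < k2 ^ 2 + k3 ^ 2 := by
      rcases h with h | h | h | h
      · exact absurd e0 h
      · exact absurd e1 h
      · positivity
      · positivity
    refine ⟨(√(k2 ^ 2 + k3 ^ 2))⁻¹, by simp [e0], by simp [e1], ?_⟩
    rw [inv_pow, Real.sq_sqrt hp.le, inv_mul_cancel₀ hp.ne', e0, e1]
    simp
  rcases h1.eq_or_lt with h4 | h4
  · rw [← h4, zero_mul] at h3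
    have e2 : t * k2 = 0 := by nlinarith [sq_nonneg (t * k2), sq_nonneg (t * k3)]
    have e3 : t * k3 = 0 := by nlinarith [sq_nonneg (t * k2), sq_nonneg (t * k3)]
    refine ⟨t, 0, (√(1 + t * k1) : ℝ), by simp [← h4], ?_, by simp [e2], by simp [e3]⟩
    rw [Complex.norm_real, Real.norm_of_nonneg (Real.sqrt_nonneg _), Real.sq_sqrt h2]
  · have hs : 0 < √(1 + t * k0) := Real.sqrt_pos.mpr h4
    refine ⟨t, (√(1 + t * k0) : ℝ), ⟨t * k2 / √(1 + t * k0), t * k3 / √(1 + t * k0)⟩, ?_, ?_, ?_, ?_⟩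
    · rw [Complex.norm_real, Real.norm_of_nonneg (Real.sqrt_nonneg _), Real.sq_sqrt h1]
    · rw [Complex.sq_norm, Complex.normSq_mk, ← sq, ← sq, div_pow, div_pow, Real.sq_sqrt h1]
      field_simp
      linarith
    · simp; field_simp
    · simp; field_simp

noncomputable def qf {n : ℕ} (T : Op n) (x : Cn n) : ℝ := (⟪x, T x⟫_ℂ).re

lemma qf_pol {n : ℕ} (T : Op n) (x y : Cn n) (a b : ℂ) :
    qf T (a • x + b • y) = ‖a‖ ^ 2 * qf T x + ‖b‖ ^ 2 * qf T y +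
      (starRingEnd ℂ a * b).re * ((⟪x, T y⟫_ℂ).re + (⟪y, T x⟫_ℂ).re) +
      (starRingEnd ℂ a * b).im * ((⟪y, T x⟫_ℂ).im - (⟪x, T y⟫_ℂ).im) := by
  unfold qf
  simp only [map_add, map_smul, inner_add_left, inner_add_right, inner_smul_left, inner_smul_right,
    Complex.sq_norm, Complex.normSq_apply]
  simp
  ring

lemma three {n : ℕ} (T : Fin 3 → Op n) (x y : Cn n) :
    ∃ u, ∀ k, qf (T k) u = qf (T k) x + qf (T k) y := by
  let V : Fin 4 → (Fin 3 → ℝ) := ![fun k => qf (T k) x, fun k => qf (T k) y,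
    fun k => (⟪x, T k y⟫_ℂ).re + (⟪y, T k x⟫_ℂ).re, fun k => (⟪y, T k x⟫_ℂ).im - (⟪x, T k y⟫_ℂ).im]
  have hV : ¬ LinearIndependent ℝ V := fun h => by
    have := h.fintype_card_le_finrank
    simp at this
  obtain ⟨g, hg, i, hi⟩ := Fintype.not_linearIndependent_iff.mp hV
  obtain ⟨t, a, b, h1, h2, h3, h4⟩ := scal (g 0) (g 1) (g 2) (g 3) (by
    fin_cases i
    · exact Or.inl hi
    · exact Or.inr (Or.inl hi)
    · exact Or.inr (Or.inr (Or.inl hi))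
    · exact Or.inr (Or.inr (Or.inr hi)))
  refine ⟨a • x + b • y, fun k => ?_⟩
  have := congrFun hg k
  simp [Fin.sum_univ_four, V] at this
  rw [qf_pol, h1, h2, h3, h4]
  linear_combination t * this

lemma qf_smul {n : ℕ} (T : Op n) (x : Cn n) (t : ℝ) (ht : 0 ≤ t) :
    qf T (((√t : ℝ) : ℂ) • x) = t * qf T x := by
  have := qf_pol T x x ((√t : ℝ) : ℂ) 0
  rw [zero_smul, add_zero] at this
  rw [this, Complex.norm_real, Real.norm_of_nonneg (Real.sqrt_nonneg _), Real.sq_sqrt ht]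
  simp

end Pool.Agent.H29.Mu
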