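import Mathlib
import Pool.Agent.H29.Mu1

set_option autoImplicit false

namespace Pool.Agent.H29.Mu

open scoped InnerProductSpace
open Real

lemma separ {n : ℕ} (T : Fin 3 → Op n) (c s : ℝ) (hc : 0 ≤ c)
    (h : ∀ y, ¬ (0 < qf (T 0) y ∧ 0 < qf (T 1) y ∧ c * |qf (T 2) y| < s * qf (T 1) y))
    (hs : 0 < s) : ∃ r σ τ : ℝ,
      (∀ a p q, 0 < a → 0 < p → c * |q| < s * p → 0 < r * a + σ * p + τ * q) ∧
      ∀ y, r * qf (T 0) y + σ * qf (T 1) y + τ * qf (T 2) y ≤ 0 := by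
  let O : Set (ℝ × ℝ × ℝ) := {P | 0 < P.1 ∧ 0 < P.2.1 ∧ c * |P.2.2| < s * P.2.1}
  let Q : Set (ℝ × ℝ × ℝ) := Set.range fun y => (qf (T 0) y, qf (T 1) y, qf (T 2) y)
  have hO : IsOpen O := by
    refine IsOpen.and ?_ (IsOpen.and ?_ ?_) <;> exact isOpen_lt (by fun_prop) (by fun_prop)
  have hOc : Convex ℝ O := by
    rintro ⟨a, p, q⟩ ⟨h1, h2, h3⟩ ⟨a', p', q'⟩ ⟨h1', h2', h3'⟩ u v hu hv huv
    simp only [O, Set.mem_setOf_eq, Prod.smul_mk, Prod.mk_add_mk, smul_eq_mul] at *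
    have e : |u * q + v * q'| ≤ u * |q| + v * |q'| := by
      refine (abs_add_le _ _).trans ?_
      rw [abs_mul, abs_mul, abs_of_nonneg hu, abs_of_nonneg hv]
    have e' := mul_le_mul_of_nonneg_left e hc
    rcases hu.eq_or_lt with h | h
    · have : v = 1 := by linarith
      subst this
      subst h
      simpa using ⟨h1', h2', h3'⟩
    · refine ⟨by positivity, by positivity, ?_⟩
      have := mul_lt_mul_of_pos_left h3 h
      have := mul_le_mul_of_nonneg_left h3'.le hv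
      nlinarith
  have hQc : Convex ℝ Q := by
    rintro _ ⟨x, rfl⟩ _ ⟨y, rfl⟩ u v hu hv huv
    obtain ⟨z, hz⟩ := three T (((√u : ℝ) : ℂ) • x) (((√v : ℝ) : ℂ) • y)
    refine ⟨z, ?_⟩
    simp only [hz, qf_smul _ _ _ hu, qf_smul _ _ _ hv, Prod.smul_mk, Prod.mk_add_mk, smul_eq_mul]
  have hd : Disjoint O Q := by
    rw [Set.disjoint_right]
    rintro _ ⟨y, rfl⟩ hy
    exact h y hy
  obtain ⟨f, u, h1, h2⟩ := geometric_hahn_banach_open hOc hO hQc hd
  have hf : ∀ a p q : ℝ, f (a, p, q) = a * f (1, 0, 0) + p * f (0, 1, 0) + q * f (0, 0, 1) := by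
    intro a p q
    rw [← smul_eq_mul, ← smul_eq_mul, ← smul_eq_mul, ← map_smul, ← map_smul, ← map_smul, ← map_add,
      ← map_add]
    simp
  have hu : u ≤ 0 := by
    have := h2 _ ⟨0, rfl⟩
    rw [hf] at this
    simpa [qf] using this
  refine ⟨-f (1, 0, 0), -f (0, 1, 0), -f (0, 0, 1), fun a p q ha hp hq => ?_, fun y => ?_⟩
  · have := h1 (a, p, q) ⟨ha, hp, hq⟩
    rw [hf] at this
    linarith
  · by_contra hcon
    push Not at hcon
    set κ := -f (1, 0, 0) * qf (T 0) y + -f (0, 1, 0) * qf (T 1) y + -f (0, 0, 1) * qf (T 2) y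
      with hκ
    have ht : 0 ≤ (1 - u) / κ := div_nonneg (by linarith) hcon.le
    have := h2 _ ⟨((√((1 - u) / κ) : ℝ) : ℂ) • y, rfl⟩
    simp only [qf_smul _ _ _ ht] at this
    rw [hf] at this
    have e : (1 - u) / κ * κ = 1 - u := div_mul_cancel₀ _ hcon.ne'
    have e2 : (1 - u) / κ * qf (T 0) y * f (1, 0, 0) + (1 - u) / κ * qf (T 1) y * f (0, 1, 0) +
      (1 - u) / κ * qf (T 2) y * f (0, 0, 1) = -((1 - u) / κ * κ) := by rw [hκ]; ring
    linarith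

lemma lmi_form {n : ℕ} (M : Op n) (γ r β : ℝ) (x : Cn n) :
    (⟪x, ((r : ℂ) • (star M * M - ((γ : ℂ) ^ 2) • (1 : Op n)) -
      ((1 + Complex.I * β) • M + star ((1 + Complex.I * β) • M))) x⟫_ℂ).re
      = r * (‖M x‖ ^ 2 - γ ^ 2 * ‖x‖ ^ 2) + 2 * ((-⟪x, M x⟫_ℂ).re - β * (-⟪x, M x⟫_ℂ).im) := by
  have e1 : ⟪x, (star M * M) x⟫_ℂ = ((‖M x‖ ^ 2 : ℝ) : ℂ) := by
    rw [ContinuousLinearMap.mul_apply, ContinuousLinearMap.star_eq_adjoint,
      ContinuousLinearMap.adjoint_inner_right, inner_self_eq_norm_sq_to_K]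
    simp
  have e2 : ⟪x, (star ((1 + Complex.I * β) • M)) x⟫_ℂ =
      starRingEnd ℂ ((1 + Complex.I * β) * ⟪x, M x⟫_ℂ) := by
    rw [ContinuousLinearMap.star_eq_adjoint, ContinuousLinearMap.adjoint_inner_right,
      ← inner_conj_symm, ContinuousLinearMap.smul_apply, inner_smul_right]
  have e3 : ⟪x, x⟫_ℂ = ((‖x‖ ^ 2 : ℝ) : ℂ) := by rw [inner_self_eq_norm_sq_to_K]; simp
  rw [ContinuousLinearMap.sub_apply, ContinuousLinearMap.add_apply, inner_sub_right,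
    inner_add_right, e2, ContinuousLinearMap.smul_apply, ContinuousLinearMap.smul_apply,
    inner_smul_right, inner_smul_right, ContinuousLinearMap.sub_apply, inner_sub_right, e1,
    ContinuousLinearMap.smul_apply, inner_smul_right, ContinuousLinearMap.one_apply, e3,
    ← Complex.ofReal_pow, ← Complex.ofReal_mul, ← Complex.ofReal_sub, ← Complex.ofReal_mul]
  generalize r * (‖M x‖ ^ 2 - γ ^ 2 * ‖x‖ ^ 2) = A
  generalize ⟪x, M x⟫_ℂ = z
  simp
  ring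

def Feas {n : ℕ} (θ : ℝ) (M : Op n) : Set ℝ :=
  {γ : ℝ | 0 < γ ∧ ∃ r β : ℝ, 0 < r ∧ (θ = 0 ∨ |β| ≤ Real.cot θ) ∧
    NegDef ((r : ℂ) • (star M * M - ((γ : ℂ) ^ 2) • (1 : Op n)) -
      ((1 + Complex.I * β) • M + star ((1 + Complex.I * β) • M)))}

lemma feas_bound {n : ℕ} {θ : ℝ} (h0 : 0 ≤ θ) (h1 : θ ≤ π / 2) {M : Op n} {γ : ℝ}
    (h : γ ∈ Feas θ M) {y : Cn n} (hy : ‖y‖ = 1) (hs : InSector θ (-⟪y, M y⟫_ℂ)) : ‖M y‖ < γ := by
  obtain ⟨hγ, r, β, hr, hβ, h⟩ := h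
  have := h y (by rintro rfl; simp at hy)
  rw [lmi_form, hy] at this
  obtain ⟨a1, a2⟩ := (sec_iff' h0 h1 _).mp hs
  generalize -⟪y, M y⟫_ℂ = z at *
  have h2 : β * z.im ≤ z.re := by
    rcases h0.eq_or_lt with h3 | h3
    · rw [← h3] at a2
      have : z.im = 0 := by simpa using a2
      rw [this, mul_zero]; exact a1
    · have hsn : 0 < sin θ := sin_pos_of_pos_of_lt_pi h3 (by linarith [pi_pos])
      have hβ' : |β| * sin θ ≤ cos θ := by
        have := hβ.resolve_left h3.ne'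
        rwa [Real.cot_eq_cos_div_sin, le_div_iff₀ hsn] at this
      refine le_of_mul_le_mul_left ?_ hsn
      have b1 : β * z.im ≤ |β| * |z.im| := by rw [← abs_mul]; exact le_abs_self _
      have b2 := mul_le_mul_of_nonneg_right hβ' (abs_nonneg z.im)
      nlinarith
  have h3 : ‖M y‖ ^ 2 < γ ^ 2 := by
    by_contra hc
    push Not at hc
    nlinarith
  exact lt_of_pow_lt_pow_left₀ 2 hγ.le h3

lemma compact_step {n : ℕ} {θ : ℝ} (h0 : 0 ≤ θ) (h1 : θ ≤ π / 2) (M : Op n) (g : ℝ)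
    (h : ∀ y : Cn n, ‖y‖ = 1 → InSector θ (-⟪y, M y⟫_ℂ) → ‖M y‖ < g) :
    ∃ η : ℝ, 0 < η ∧ ∀ y : Cn n, ‖y‖ = 1 → g ≤ ‖M y‖ → ¬ (0 < (-⟪y, M y⟫_ℂ).re + η ∧
      cos θ * |(-⟪y, M y⟫_ℂ).im| < (sin θ + η) * ((-⟪y, M y⟫_ℂ).re + η)) := by
  let B : Set (Cn n) := Metric.sphere 0 1 ∩ {y | g ≤ ‖M y‖}
  have hB : IsCompact B := (isCompact_sphere 0 1).inter_right
    (isClosed_le continuous_const (by fun_prop))
  let φ : Cn n → ℝ := fun y => min (-⟪y, M y⟫_ℂ).re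
    (sin θ * (-⟪y, M y⟫_ℂ).re - cos θ * |(-⟪y, M y⟫_ℂ).im|)
  have hφ : Continuous φ := by
    simp only [φ]
    fun_prop
  rcases B.eq_empty_or_nonempty with he | hne
  · refine ⟨1, one_pos, fun y hy hg _ => ?_⟩
    have : y ∈ B := ⟨by simpa using hy, hg⟩
    rw [he] at this
    exact this
  obtain ⟨y0, hy0, hmax⟩ := hB.exists_isMaxOn hne hφ.continuousOn
  have hneg : φ y0 < 0 := by
    by_contra hc
    push Not at hc
    obtain ⟨a1, a2⟩ := le_min_iff.mp hc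
    have := h y0 (by simpa using hy0.1) ((sec_iff' h0 h1 _).mpr ⟨a1, by linarith⟩)
    exact absurd hy0.2 (not_le.mpr this)
  have hM := norm_nonneg M
  refine ⟨min 1 (-φ y0 / (‖M‖ + 2)), lt_min one_pos (div_pos (by linarith) (by positivity)),
    fun y hy hg ⟨a1, a2⟩ => ?_⟩
  set η := min 1 (-φ y0 / (‖M‖ + 2)) with hη
  have b0 : 0 < η := lt_min one_pos (div_pos (by linarith) (by positivity))
  have b1 : η ≤ 1 := min_le_left _ _
  have b2 : η * (‖M‖ + 2) ≤ -φ y0 := (le_div_iff₀ (by positivity)).mp (min_le_right _ _)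
  have b3 : φ y ≤ φ y0 := hmax ⟨by simpa using hy, hg⟩
  have b4 : (-⟪y, M y⟫_ℂ).re ≤ ‖M‖ := by
    refine (Complex.re_le_norm _).trans ?_
    rw [norm_neg]
    refine (norm_inner_le_norm _ _).trans ?_
    rw [hy, one_mul]
    simpa [hy] using M.le_opNorm y
  have b5 := sin_le_one θ
  have b6 : -(η * (‖M‖ + 2)) < φ y := by
    refine lt_min (by nlinarith) ?_
    nlinarith
  linarith

lemma feas_of {n : ℕ} {θ : ℝ} (h0 : 0 ≤ θ) (h1 : θ ≤ π / 2) (M : Op n) (g γ : ℝ) (hg : 0 ≤ g)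
    (hγ : g < γ) (h : ∀ y : Cn n, ‖y‖ = 1 → InSector θ (-⟪y, M y⟫_ℂ) → ‖M y‖ < g) :
    γ ∈ Feas θ M := by
  obtain ⟨η, hη, hc⟩ := compact_step h0 h1 M g h
  have hs : 0 ≤ sin θ := sin_nonneg_of_mem_Icc ⟨h0, by linarith [pi_pos]⟩
  have hcs : 0 ≤ cos θ := cos_nonneg_of_mem_Icc ⟨by linarith [pi_pos], h1⟩
  let T : Fin 3 → Op n := ![star M * M - ((g : ℂ) ^ 2) • (1 : Op n), (η : ℂ) • (1 : Op n) - M,
    Complex.I • M]
  have e3 : ∀ x : Cn n, ⟪x, x⟫_ℂ = ((‖x‖ ^ 2 : ℝ) : ℂ) := fun x => by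
    rw [inner_self_eq_norm_sq_to_K]; simp
  have t0 : ∀ y, qf (T 0) y = ‖M y‖ ^ 2 - g ^ 2 * ‖y‖ ^ 2 := by
    intro y
    show (⟪y, (star M * M - ((g : ℂ) ^ 2) • (1 : Op n)) y⟫_ℂ).re = _
    rw [ContinuousLinearMap.sub_apply, inner_sub_right, ContinuousLinearMap.mul_apply,
      ContinuousLinearMap.star_eq_adjoint, ContinuousLinearMap.adjoint_inner_right,
      ContinuousLinearMap.smul_apply, inner_smul_right, ContinuousLinearMap.one_apply, e3, e3,
      ← Complex.ofReal_pow, ← Complex.ofReal_mul, ← Complex.ofReal_sub, Complex.ofReal_re]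
  have t1 : ∀ y, qf (T 1) y = (-⟪y, M y⟫_ℂ).re + η * ‖y‖ ^ 2 := by
    intro y
    show (⟪y, ((η : ℂ) • (1 : Op n) - M) y⟫_ℂ).re = _
    rw [ContinuousLinearMap.sub_apply, inner_sub_right, ContinuousLinearMap.smul_apply,
      inner_smul_right, ContinuousLinearMap.one_apply, e3, ← Complex.ofReal_mul, Complex.sub_re,
      Complex.ofReal_re, Complex.neg_re]
    ring
  have t2 : ∀ y, qf (T 2) y = (-⟪y, M y⟫_ℂ).im := by
    intro y
    show (⟪y, (Complex.I • M) y⟫_ℂ).re = _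
    rw [ContinuousLinearMap.smul_apply, inner_smul_right]
    simp
  obtain ⟨r, σ, τ, hO, hQ⟩ := separ T (cos θ) (sin θ + η) hcs (by
    rintro y ⟨a1, a2, a3⟩
    have hy : y ≠ 0 := by
      rintro rfl
      simp [qf] at a1
    have hn : 0 < ‖y‖ := norm_pos_iff.mpr hy
    have ht : 0 < (‖y‖ ^ 2)⁻¹ := by positivity
    have hu : ‖((√(‖y‖ ^ 2)⁻¹ : ℝ) : ℂ) • y‖ = 1 := by
      rw [norm_smul, Real.sqrt_inv, Real.sqrt_sq hn.le, Complex.norm_real, norm_inv, norm_norm,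
        inv_mul_cancel₀ hn.ne']
    have c0 := qf_smul (T 0) y _ ht.le
    have c1 := qf_smul (T 1) y _ ht.le
    have c2 := qf_smul (T 2) y _ ht.le
    generalize ((√(‖y‖ ^ 2)⁻¹ : ℝ) : ℂ) • y = u at *
    rw [t0 u, hu] at c0
    rw [t1 u, hu, one_pow, mul_one] at c1
    rw [t2 u] at c2
    refine hc u hu ?_ ⟨by rw [c1]; positivity, ?_⟩
    · have : 0 < (‖y‖ ^ 2)⁻¹ * qf (T 0) y := by positivity
      exact le_of_lt (lt_of_pow_lt_pow_left₀ 2 (norm_nonneg _) (by nlinarith))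
    · rw [c1, c2, abs_mul, abs_of_pos ht]
      have := mul_lt_mul_of_pos_left a3 ht
      linarith) (by positivity)
  have hsum : ∀ a p, 0 < a → 0 < p → 0 < r * a + σ * p := fun a p ha hp => by
    simpa using hO a p 0 ha hp (by simp; positivity)
  have hr : 0 ≤ r := by
    by_contra hc
    push Not at hc
    have := hsum ((|σ| + 1) / (-r)) 1 (div_pos (by positivity) (by linarith)) one_pos
    rw [show r * ((|σ| + 1) / -r) = -(|σ| + 1) by have := hc.ne; field_simp] at this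
    linarith [le_abs_self σ]
  have hσ : 0 ≤ σ := by
    by_contra hc
    push Not at hc
    have := hsum 1 ((|r| + 1) / (-σ)) one_pos (div_pos (by positivity) (by linarith))
    rw [show σ * ((|r| + 1) / -σ) = -(|r| + 1) by have := hc.ne; field_simp] at this
    linarith [le_abs_self r]
  have hrs : 0 < r + σ := by simpa using hsum 1 1 one_pos one_pos
  have hτ : |τ| * sin θ ≤ σ * cos θ := by
    refine le_of_forall_pos_le_add fun ε hε => ?_
    have ht : 0 < ε / (r + σ) := by positivity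
    have e : r * (ε / (r + σ)) + σ * (ε / (r + σ)) = ε := by field_simp
    have a1 := hO (ε / (r + σ)) (cos θ + ε / (r + σ)) (sin θ) ht (by positivity) (by
      rw [abs_of_nonneg hs]; nlinarith [mul_pos hη ht])
    have a2 := hO (ε / (r + σ)) (cos θ + ε / (r + σ)) (-sin θ) ht (by positivity) (by
      rw [abs_neg, abs_of_nonneg hs]; nlinarith [mul_pos hη ht])
    rcases abs_choice τ with h | h <;> rw [h] <;> nlinarith
  have hδ : 0 < γ ^ 2 - g ^ 2 := by nlinarith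
  have hM := norm_nonneg M
  have hκ : 0 < r * (γ ^ 2 - g ^ 2) + σ * η := by
    rcases hr.eq_or_lt with h | h
    · have : 0 < σ := by linarith
      positivity
    · positivity
  set m := (r * (γ ^ 2 - g ^ 2) + σ * η) / (‖M‖ ^ 2 + ‖M‖ + 1) with hm
  have hm0 : 0 < m := by positivity
  have hm1 : m * (‖M‖ ^ 2 + ‖M‖ + 1) = r * (γ ^ 2 - g ^ 2) + σ * η := by
    rw [hm]; field_simp
  refine ⟨by linarith, 2 * (r + m) / (σ + m), -τ / (σ + m), by positivity, ?_, fun x hx => ?_⟩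
  · rcases h0.eq_or_lt with h3 | h3
    · exact Or.inl h3.symm
    · right
      have hsn : 0 < sin θ := sin_pos_of_pos_of_lt_pi h3 (by linarith [pi_pos])
      rw [Real.cot_eq_cos_div_sin, le_div_iff₀ hsn, abs_div, abs_neg,
        abs_of_pos (a := σ + m) (by positivity), div_mul_eq_mul_div, div_le_iff₀ (by positivity)]
      nlinarith
  · rw [lmi_form]
    have a1 := hQ x
    rw [t0, t1, t2] at a1
    have hn : 0 < ‖x‖ := norm_pos_iff.mpr hx
    have b1 : ‖M x‖ ≤ ‖M‖ * ‖x‖ := M.le_opNorm x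
    have b2 : ‖M x‖ ^ 2 ≤ ‖M‖ ^ 2 * ‖x‖ ^ 2 := by
      rw [← mul_pow]; exact pow_le_pow_left₀ (norm_nonneg _) b1 2
    have b3 : (-⟪x, M x⟫_ℂ).re ≤ ‖M‖ * ‖x‖ ^ 2 := by
      refine (Complex.re_le_norm _).trans ?_
      rw [norm_neg]
      refine (norm_inner_le_norm _ _).trans ?_
      nlinarith
    generalize -⟪x, M x⟫_ℂ = z at *
    have e : 2 * (r + m) / (σ + m) * (‖M x‖ ^ 2 - γ ^ 2 * ‖x‖ ^ 2) +
        2 * (z.re - -τ / (σ + m) * z.im) = 2 / (σ + m) *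
        ((r + m) * (‖M x‖ ^ 2 - γ ^ 2 * ‖x‖ ^ 2) + (σ + m) * z.re + τ * z.im) := by
      field_simp
      ring
    rw [e]
    refine mul_neg_of_pos_of_neg (by positivity) ?_
    have c1 : 0 < ‖x‖ ^ 2 := by positivity
    have c2 := congrArg (· * ‖x‖ ^ 2) hm1
    have c3 := mul_le_mul_of_nonneg_left b2 hm0.le
    have c4 := mul_le_mul_of_nonneg_left b3 hm0.le
    have c5 : 0 ≤ m * (γ ^ 2 * ‖x‖ ^ 2) := by positivity
    have c6 : 0 < m * ‖x‖ ^ 2 := by positivity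
    nlinarith

lemma muHat_eq {n : ℕ} (θ : ℝ) (M : Op n) : muHat θ M = sInf (Feas θ M) := rfl

lemma feas_ne {n : ℕ} {θ : ℝ} (h0 : 0 ≤ θ) (h1 : θ ≤ π / 2) (M : Op n) : (Feas θ M).Nonempty :=
  ⟨‖M‖ + 2, feas_of h0 h1 M (‖M‖ + 1) _ (by positivity) (by linarith) fun y hy _ => by
    have := M.le_opNorm y
    rw [hy] at this
    linarith⟩

lemma le_muHat {n : ℕ} {θ : ℝ} (h0 : 0 ≤ θ) (h1 : θ ≤ π / 2) (M : Op n) {y : Cn n}
    (hy : ‖y‖ = 1) (hs : InSector θ (-⟪y, M y⟫_ℂ)) : ‖M y‖ ≤ muHat θ M :=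
  le_csInf (feas_ne h0 h1 M) fun _ hγ => (feas_bound h0 h1 hγ hy hs).le

lemma muHat_nonneg {n : ℕ} (θ : ℝ) (M : Op n) : 0 ≤ muHat θ M :=
  Real.sInf_nonneg fun _ h => h.1.le

lemma muHat_le {n : ℕ} {θ : ℝ} (h0 : 0 ≤ θ) (h1 : θ ≤ π / 2) (M : Op n) (m : ℝ) (hm : 0 ≤ m)
    (h : ∀ y : Cn n, ‖y‖ = 1 → InSector θ (-⟪y, M y⟫_ℂ) → ‖M y‖ ≤ m) : muHat θ M ≤ m := by
  refine le_of_forall_pos_le_add fun ε hε => ?_
  refine csInf_le ⟨0, fun _ h => h.1.le⟩ ?_
  exact feas_of h0 h1 M (m + ε / 2) _ (by positivity) (by linarith) fun y hy hs => by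
    linarith [h y hy hs]

lemma destab_iff {n : ℕ} {θ : ℝ} {M Γ : Op n} :
    Γ ∈ Destab θ M ↔ Γ ∈ PhaseClass n θ ∧ ∃ x : Cn n, ‖x‖ = 1 ∧ Γ (M x) = -x := by
  unfold Destab
  rw [Set.mem_setOf_eq, sing_iff]
  refine and_congr_right fun _ => exists_congr fun x => and_congr_right fun _ => ?_
  rw [ContinuousLinearMap.add_apply, ContinuousLinearMap.one_apply, ContinuousLinearMap.mul_apply,
    eq_neg_iff_add_eq_zero, add_comm]

lemma destab_sec {n : ℕ} {θ : ℝ} (h0 : 0 ≤ θ) (h1 : θ ≤ π / 2) {M Γ : Op n}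
    (hΓ : Γ ∈ PhaseClass n θ) {x : Cn n} (hx : Γ (M x) = -x) : InSector θ (-⟪x, M x⟫_ℂ) := by
  have := (phase_all h0 h1).mp hΓ (M x)
  rw [hx, inner_neg_right, ← inner_conj_symm, norm_neg, Complex.norm_conj, Complex.neg_re,
    Complex.conj_re] at this
  rw [sec_iff h0 h1, norm_neg, Complex.neg_re]
  exact this

lemma attain {n : ℕ} {θ : ℝ} (h0 : 0 ≤ θ) (h1 : θ ≤ π / 2) {M : Op n}
    (hne : (Destab θ M).Nonempty) : ∃ Γ ∈ Destab θ M, mu θ M = 1 / ‖Γ‖ ∧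
      ∀ Γ' ∈ Destab θ M, ‖Γ‖ ≤ ‖Γ'‖ := by
  obtain ⟨Γ0, hΓ0⟩ := id hne
  let K : Set (Op n × Cn n) := (Metric.closedBall 0 ‖Γ0‖ ×ˢ Metric.sphere 0 1) ∩
    {p | (∀ x : Cn n, ‖⟪x, p.1 x⟫_ℂ‖ * cos θ ≤ (⟪x, p.1 x⟫_ℂ).re) ∧ p.1 (M p.2) = -p.2}
  haveI : ProperSpace (Op n) := FiniteDimensional.proper ℂ _
  have hK : IsCompact K := by
    refine ((isCompact_closedBall _ _).prod (isCompact_sphere _ _)).inter_right ?_
    refine IsClosed.and ?_ (isClosed_eq (by fun_prop) (by fun_prop))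
    rw [Set.setOf_forall]
    exact isClosed_iInter fun x => isClosed_le (by fun_prop) (by fun_prop)
  have hmem : ∀ Γ ∈ Destab θ M, ‖Γ‖ ≤ ‖Γ0‖ → ∃ x, (Γ, x) ∈ K := by
    intro Γ hΓ hle
    obtain ⟨a, x, hx, hx'⟩ := destab_iff.mp hΓ
    exact ⟨x, ⟨by simpa using hle, by simpa using hx⟩, (phase_all h0 h1).mp a, hx'⟩
  obtain ⟨x0, hx0⟩ := hmem Γ0 hΓ0 le_rfl
  obtain ⟨⟨Γ, x⟩, hp, hmin⟩ := hK.exists_isMinOn ⟨_, hx0⟩
    (f := fun p : Op n × Cn n => ‖p.1‖) continuous_fst.norm.continuousOn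
  have hΓ : Γ ∈ Destab θ M :=
    destab_iff.mpr ⟨(phase_all h0 h1).mpr hp.2.1, x, by simpa using hp.1.2, hp.2.2⟩
  have hle : ∀ Γ' ∈ Destab θ M, ‖Γ‖ ≤ ‖Γ'‖ := by
    intro Γ' h'
    rcases le_total ‖Γ'‖ ‖Γ0‖ with h | h
    · obtain ⟨x', hx'⟩ := hmem Γ' h' h
      exact isMinOn_iff.mp hmin (Γ', x') hx'
    · exact le_trans (isMinOn_iff.mp hmin (Γ0, x0) hx0) h
  refine ⟨Γ, hΓ, ?_, hle⟩
  unfold mu
  rw [if_pos hne]
  congr 1
  refine IsLeast.csInf_eq ⟨⟨Γ, hΓ, rfl⟩, ?_⟩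
  rintro _ ⟨Γ', h', rfl⟩
  exact hle Γ' h'

lemma one_le {n : ℕ} {M Γ : Op n} {x : Cn n} (hx : ‖x‖ = 1) (h : Γ (M x) = -x) :
    1 ≤ ‖Γ‖ * ‖M x‖ := by
  have := Γ.le_opNorm (M x)
  rwa [h, norm_neg, hx] at this

lemma mu_le {n : ℕ} {θ : ℝ} (h0 : 0 ≤ θ) (h1 : θ ≤ π / 2) (M : Op n) : mu θ M ≤ muHat θ M := by
  by_cases hne : (Destab θ M).Nonempty
  · obtain ⟨Γ, hΓ, he, -⟩ := attain h0 h1 hne
    obtain ⟨a, x, hx, hx'⟩ := destab_iff.mp hΓ
    have b1 := one_le hx hx'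
    have b2 := le_muHat h0 h1 M hx (destab_sec h0 h1 a hx')
    have b3 : 0 < ‖Γ‖ := by
      rcases (norm_nonneg Γ).eq_or_lt with h | h
      · rw [← h] at b1; linarith
      · exact h
    rw [he, div_le_iff₀ b3]
    nlinarith
  · unfold mu
    rw [if_neg hne]
    exact muHat_nonneg θ M

lemma mu_nonneg {n : ℕ} {θ : ℝ} (h0 : 0 ≤ θ) (h1 : θ ≤ π / 2) (M : Op n) : 0 ≤ mu θ M := by
  by_cases hne : (Destab θ M).Nonempty
  · obtain ⟨Γ, hΓ, he, -⟩ := attain h0 h1 hne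
    rw [he]; positivity
  · unfold mu
    rw [if_neg hne]

theorem charac {n : ℕ} {θ : ℝ} (h0 : 0 ≤ θ) (h1 : θ ≤ π / 2) (M : Op n) :
    mu θ M = muHat θ M ↔
      (∀ y : Cn n, ‖y‖ = 1 → InSector θ (-⟪y, M y⟫_ℂ) → M y = 0) ∨
      ∃ x : Cn n, ‖x‖ = 1 ∧ cos θ * ‖M x‖ ≤ -(⟪x, M x⟫_ℂ).re ∧
        ∀ y : Cn n, ‖y‖ = 1 → InSector θ (-⟪y, M y⟫_ℂ) → ‖M y‖ ≤ ‖M x‖ := by
  have hc : 0 ≤ cos θ := cos_nonneg_of_mem_Icc ⟨by linarith [pi_pos], h1⟩
  have hz : muHat θ M ≤ 0 → mu θ M = muHat θ M := fun h =>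
    le_antisymm (mu_le h0 h1 M) (h.trans (mu_nonneg h0 h1 M))
  constructor
  · intro he
    rcases (muHat_nonneg θ M).eq_or_lt with h | h
    · left
      intro y hy hs
      have := le_muHat h0 h1 M hy hs
      rw [← h] at this
      exact norm_le_zero_iff.mp this
    · right
      have hne : (Destab θ M).Nonempty := by
        by_contra hne
        unfold mu at he
        rw [if_neg hne] at he
        linarith
      obtain ⟨Γ, hΓ, he', -⟩ := attain h0 h1 hne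
      obtain ⟨a, x, hx, hx'⟩ := destab_iff.mp hΓ
      have b1 := one_le hx hx'
      have b2 := le_muHat h0 h1 M hx (destab_sec h0 h1 a hx')
      have b3 : 0 < ‖Γ‖ := by
        rcases (norm_nonneg Γ).eq_or_lt with h | h
        · rw [← h] at b1; linarith
        · exact h
      rw [he', div_eq_iff b3.ne'] at he
      set m := muHat θ M with hm
      have b4 : ‖M x‖ = m := le_antisymm b2 (by nlinarith)
      refine ⟨x, hx, ?_, fun y hy hs => b4 ▸ le_muHat h0 h1 M hy hs⟩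
      have hmc : (m : ℂ) ≠ 0 := by exact_mod_cast h.ne'
      have := key_ineq h0 h1 (Γ := (m : ℂ) • Γ) (w := ((m⁻¹ : ℝ) : ℂ) • M x) (v := -x)
        ((phase_all h0 h1).mpr fun z => by
          have := (phase_all h0 h1).mp a z
          rw [ContinuousLinearMap.smul_apply, inner_smul_right, norm_mul, Complex.re_ofReal_mul,
            Complex.norm_real, Real.norm_of_nonneg h.le, mul_assoc]
          exact mul_le_mul_of_nonneg_left this h.le)
        (by rw [norm_smul, Complex.norm_real, Real.norm_of_nonneg h.le, ← he])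
        (by rw [norm_smul, Complex.norm_real, b4, norm_inv, Real.norm_of_nonneg h.le,
          inv_mul_cancel₀ h.ne'])
        (by rw [norm_neg, hx])
        (by rw [ContinuousLinearMap.smul_apply, map_smul, hx', smul_smul]; simp [hmc])
      rw [inner_smul_left, Complex.conj_ofReal, Complex.re_ofReal_mul, inner_neg_right,
        ← inner_conj_symm, Complex.neg_re, Complex.conj_re, le_inv_mul_iff₀ h] at this
      rw [b4, mul_comm]
      exact this
  · rintro (h | ⟨x, hx, hx1, hx2⟩)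
    · exact hz (muHat_le h0 h1 M 0 le_rfl fun y hy hs => by rw [h y hy hs, norm_zero])
    · have a1 := muHat_le h0 h1 M _ (norm_nonneg _) hx2
      rcases (norm_nonneg (M x)).eq_or_lt with h | h
      · exact hz (h ▸ a1)
      refine le_antisymm (mu_le h0 h1 M) (a1.trans ?_)
      set m := ‖M x‖ with hm
      have hmc : (m : ℂ) ≠ 0 := by exact_mod_cast h.ne'
      obtain ⟨Γ, g1, g2, g3⟩ := construct h0 h1 (w := ((m⁻¹ : ℝ) : ℂ) • M x) (v := -x)
        (by rw [norm_smul, Complex.norm_real, norm_inv, Real.norm_of_nonneg h.le,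
          inv_mul_cancel₀ h.ne'])
        (by rw [norm_neg, hx])
        (by
          rw [inner_smul_left, Complex.conj_ofReal, Complex.re_ofReal_mul, inner_neg_right,
            ← inner_conj_symm, Complex.neg_re, Complex.conj_re, le_inv_mul_iff₀ h, mul_comm]
          exact hx1)
      have hD : ((m⁻¹ : ℝ) : ℂ) • Γ ∈ Destab θ M := by
        refine destab_iff.mpr ⟨(phase_all h0 h1).mpr fun z => ?_, x, hx, ?_⟩
        · have := (phase_all h0 h1).mp g1 z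
          rw [ContinuousLinearMap.smul_apply, inner_smul_right, norm_mul, Complex.re_ofReal_mul,
            Complex.norm_real, Real.norm_of_nonneg (inv_nonneg.mpr h.le), mul_assoc]
          exact mul_le_mul_of_nonneg_left this (inv_nonneg.mpr h.le)
        · rw [ContinuousLinearMap.smul_apply, ← map_smul, g3]
      obtain ⟨Γ', hΓ', he', hmin⟩ := attain h0 h1 ⟨_, hD⟩
      obtain ⟨a, x', hx', hx''⟩ := destab_iff.mp hΓ'
      have b1 := one_le hx' hx''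
      have b3 : 0 < ‖Γ'‖ := by
        rcases (norm_nonneg Γ').eq_or_lt with h | h
        · rw [← h] at b1; linarith
        · exact h
      have b4 := hmin _ hD
      rw [norm_smul, Complex.norm_real, norm_inv, Real.norm_of_nonneg h.le,
        le_inv_mul_iff₀ h] at b4
      rw [he', le_div_iff₀ b3]
      linarith

theorem counter {θ : ℝ} (h0 : 0 ≤ θ) (h1 : θ < π / 2) : ∃ M : Op 2, mu θ M < muHat θ M := by
  let e0 : Cn 2 := EuclideanSpace.single 0 1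
  let M : Op 2 := (EuclideanSpace.proj (1 : Fin 2) : Cn 2 →L[ℂ] ℂ).smulRight e0
  have hM : ∀ x, M x = x 1 • e0 := fun x => rfl
  have hn : ∀ x, ‖M x‖ = ‖x 1‖ := fun x => by rw [hM, norm_smul]; simp [e0]
  have hi : ∀ x, ⟪x, M x⟫_ℂ = x 1 * starRingEnd ℂ (x 0) := fun x => by
    rw [hM, inner_smul_right]; simp [e0, EuclideanSpace.inner_single_right]
  refine ⟨M, lt_of_le_of_ne (mu_le h0 h1.le M) fun h => ?_⟩
  have hc : 0 < cos θ := cos_pos_of_mem_Ioo ⟨by linarith [pi_pos], h1⟩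
  have hy : ‖(EuclideanSpace.single 1 1 : Cn 2)‖ = 1 := by simp
  have hs : InSector θ (-⟪(EuclideanSpace.single 1 1 : Cn 2), M (EuclideanSpace.single 1 1)⟫_ℂ) := by
    left
    rw [hi]; simp
  rcases (charac h0 h1.le M).mp h with h | ⟨x, hx, a1, a2⟩
  · have := hn (EuclideanSpace.single 1 1)
    rw [h _ hy hs] at this
    simp at this
  · have b1 := a2 _ hy hs
    rw [hn, hn] at b1
    simp at b1
    have b2 := EuclideanSpace.norm_sq_eq x
    rw [hx, Fin.sum_univ_two] at b2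
    have b3 : ‖x 0‖ ^ 2 ≤ 0 := by nlinarith
    have b4 : x 0 = 0 := by simpa using b3
    rw [hi, b4, hn] at a1
    simp at a1
    nlinarith

theorem right_angle {n : ℕ} (M : Op n) : mu (π / 2) M = muHat (π / 2) M := by
  have h0 : 0 ≤ π / 2 := by positivity
  rw [charac h0 le_rfl]
  let B : Set (Cn n) := Metric.sphere 0 1 ∩ {y | 0 ≤ -(⟪y, M y⟫_ℂ).re}
  have hB : IsCompact B := (isCompact_sphere 0 1).inter_right
    (isClosed_le continuous_const (by fun_prop))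
  have hm : ∀ y : Cn n, ‖y‖ = 1 → InSector (π / 2) (-⟪y, M y⟫_ℂ) → y ∈ B := fun y hy hs =>
    ⟨by simpa using hy, by simpa using (sec_iff h0 le_rfl _).mp hs⟩
  rcases B.eq_empty_or_nonempty with he | hne
  · left
    intro y hy hs
    have := hm y hy hs
    rw [he] at this
    exact this.elim
  · right
    obtain ⟨x, hx, hmax⟩ := hB.exists_isMaxOn hne
      (show Continuous fun y : Cn n => ‖M y‖ by fun_prop).continuousOn
    exact ⟨x, by simpa using hx.1, by simpa using hx.2, fun y hy hs => hmax (hm y hy hs)⟩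

end Pool.Agent.H29.Mu
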