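import Mathlib

open Set Metric Finset

namespace Pool.Agent.H29.Nev

lemma coef {A : Type*} [NormedRing A] [NormedAlgebra ℂ A] [CompleteSpace A] (T : A) (M : ℝ)
    (hs : ∀ w : ℂ, ‖w‖ ≤ 1 → IsUnit (1 - w • T))
    (hM : ∀ w : ℂ, ‖w‖ = 1 → ‖Ring.inverse (1 - w • T)‖ ≤ M) (j k : ℕ) :
    ((j + k).choose j : ℝ) * ‖T ^ j‖ ≤ M ^ (k + 1) := by
  set F : ℂ → A := fun w => Ring.inverse (1 - w • T) with hF
  set U : Set ℂ := {w | IsUnit (1 - w • T)} with hU
  have hUo : IsOpen U := Units.isOpen.preimage (f := fun w : ℂ => 1 - w • T) (by fun_prop)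
  have hc : ∀ w, Commute T (F w) := fun w => by
      by_cases h : IsUnit (1 - w • T)
      · have h1 : Commute T (h.unit : A) :=
          (Commute.one_right T).sub_right ((Commute.refl T).smul_right w)
        have := h1.units_inv_right
        rwa [← Ring.inverse_unit] at this
      · simp [hF, Ring.inverse_non_unit _ h]
  have d1 : ∀ w ∈ U, HasDerivAt F (T * F w ^ 2) w := by
    intro w hw
    have h1 := hasFDerivAt_ringInverse (𝕜 := ℂ) hw.unit
    have h2 : HasDerivAt (fun w : ℂ => 1 - w • T) (-T) w := by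
      simpa using ((hasDerivAt_id w).smul_const T).const_sub 1
    have h3 := HasFDerivAt.comp_hasDerivAt w (f := fun w : ℂ => 1 - w • T) h1 h2
    refine h3.congr_deriv ?_
    have e : (↑hw.unit⁻¹ : A) = F w := (Ring.inverse_unit hw.unit).symm
    simp only [ContinuousLinearMap.neg_apply, ContinuousLinearMap.mulLeftRight_apply, e]
    rw [mul_neg, neg_mul, neg_neg, ← (hc w).eq, pow_two, mul_assoc]
  have d2 : ∀ n : ℕ, ∀ w ∈ U, HasDerivAt (fun w => F w ^ n) ((n:ℂ) • (T * F w ^ (n + 1))) w := by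
    intro n w hw
    induction n with
    | zero => simpa using hasDerivAt_const w (1 : A)
    | succ n ih =>
      have := ih.mul (d1 w hw)
      simp only [pow_succ _ n]
      refine this.congr_deriv ?_
      rw [← mul_assoc, ← ((hc w).pow_right n).eq]
      simp only [smul_mul_assoc, mul_assoc, ← pow_succ, ← pow_add, Nat.cast_add, Nat.cast_one,
        add_smul, one_smul]
  have d3 : ∀ i : ℕ, ∀ w ∈ U, iteratedDeriv i (fun w => F w ^ (k + 1)) w
      = (((k + 1).ascFactorial i : ℕ) : ℂ) • (T ^ i * F w ^ (k + 1 + i)) := by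
    intro i
    induction i with
    | zero => intro w _; simp
    | succ i ih =>
      intro w hw
      rw [iteratedDeriv_succ, Filter.EventuallyEq.deriv_eq
        (Filter.eventually_of_mem (hUo.mem_nhds hw) ih)]
      have := (((d2 (k + 1 + i) w hw).const_mul (T ^ i)).const_smul
        ((((k + 1).ascFactorial i : ℕ) : ℂ))).deriv
      refine Eq.trans this ?_
      rw [mul_smul_comm, smul_smul, Nat.ascFactorial_succ, ← mul_assoc, ← pow_succ]
      push_cast
      rw [mul_comm]; rfl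
  have hd : DiffContOnCl ℂ (fun w => F w ^ (k + 1)) (ball 0 1) := by
    refine DifferentiableOn.diffContOnCl fun w hw => ?_
    rw [closure_ball _ one_ne_zero] at hw
    exact (d2 _ w (hs w (by simpa using hw))).differentiableAt.differentiableWithinAt
  have h := Complex.norm_iteratedDeriv_le_of_forall_mem_sphere_norm_le j one_pos hd
    (C := M ^ (k + 1)) fun z hz => (norm_pow_le' _ (Nat.succ_pos k)).trans
      (pow_le_pow_left₀ (norm_nonneg _) (hM z (by simpa using hz)) _)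
  rw [d3 j 0 (hs 0 (by simp)), Nat.ascFactorial_eq_factorial_mul_choose] at h
  simp only [hF, zero_smul, sub_zero, Ring.inverse_one, one_pow, mul_one, div_one, norm_smul,
    Complex.norm_natCast, Nat.cast_mul, mul_assoc, norm_mul] at h
  have hj : (0:ℝ) < j.factorial := by exact_mod_cast j.factorial_pos
  rw [add_comm j k]
  exact le_of_mul_le_mul_left h hj

/-- telescoped tail weight -/
noncomputable def tau (K J : ℕ) : ℝ := (K + 2) / ((K + 1) * ((J + K + 1).choose J : ℝ))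

lemma tau_step (K J : ℕ) : tau K J - tau K (J + 1) = 1 / ((J + (K + 2)).choose J : ℝ) := by
  have h1 : ((J + 1 + K + 1).choose (J + 1) : ℝ) * (J + 1) =
      ((J + K + 1).choose J : ℝ) * (J + K + 2) := by
    have := Nat.add_one_mul_choose_eq (J + K + 1) J
    rw [show J + 1 + K + 1 = J + K + 1 + 1 by ring]
    have h := congrArg (Nat.cast : ℕ → ℝ) this
    push_cast at h
    linarith
  have h2 : ((J + (K + 2)).choose J : ℝ) * (K + 2) = ((J + K + 1).choose J : ℝ) * (J + K + 2) := by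
    have := Nat.choose_mul_succ_eq (J + K + 1) J
    rw [show J + K + 1 + 1 - J = K + 2 by omega] at this
    have h := congrArg (Nat.cast : ℕ → ℝ) this
    push_cast at h
    rw [show J + (K + 2) = J + K + 1 + 1 by ring]
    linarith
  have p : (0:ℝ) < (J + K + 1).choose J := by exact_mod_cast Nat.choose_pos (by omega)
  have e1 : ((J + 1 + K + 1).choose (J + 1) : ℝ) =
      ((J + K + 1).choose J : ℝ) * (J + K + 2) / (J + 1) := by rw [← h1]; field_simp
  have e2 : ((J + (K + 2)).choose J : ℝ) =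
      ((J + K + 1).choose J : ℝ) * (J + K + 2) / (K + 2) := by rw [← h2]; field_simp
  unfold tau
  rw [e1, e2]
  field_simp
  ring

lemma tau_nonneg (K J : ℕ) : 0 ≤ tau K J := by unfold tau; positivity

/-- the majorant divided by `M` -/
noncomputable def PP (kf : ℕ → ℕ) (J K : ℕ) (M : ℝ) : ℝ :=
  ∑ j ∈ range J, M ^ kf j / ((j + 1 + kf j).choose (j + 1) : ℝ) + M ^ (K + 2) * tau K (J + 1)

section
variable {a : ℕ → ℝ} {M : ℝ} (ha : ∀ j, 0 ≤ a j)
  (h : ∀ j k, ((j + k).choose j : ℝ) * a j ≤ M ^ (k + 1)) (hM : 0 ≤ M)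
include ha h hM

omit ha hM in
lemma one (j k : ℕ) : a j ≤ M ^ (k + 1) / ((j + k).choose j : ℝ) := by
  have p : (0:ℝ) < (j + k).choose j := by exact_mod_cast Nat.choose_pos (by omega)
  rw [le_div_iff₀ p, mul_comm]; exact h j k

lemma maj (kf : ℕ → ℕ) (J K N : ℕ) : ∑ j ∈ range N, a (j + 1) ≤ M * PP kf J K M := by
  have t : ∀ N, ∑ i ∈ range N, a (J + i + 1) ≤ M ^ (K + 3) * (tau K (J + 1) - tau K (J + 1 + N)) := by
    intro N
    induction N with
    | zero => simp
    | succ N ih =>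
      rw [sum_range_succ]
      have h1 := one h (J + N + 1) (K + 2)
      have h2 := tau_step K (J + N + 1)
      rw [show J + 1 + (N + 1) = J + N + 1 + 1 by ring]
      rw [show J + 1 + N = J + N + 1 by ring] at ih
      rw [div_eq_mul_one_div, ← h2] at h1
      rw [show K + 2 + 1 = K + 3 by ring] at h1
      linarith
  calc ∑ j ∈ range N, a (j + 1) ≤ ∑ j ∈ range (J + N), a (j + 1) :=
        sum_le_sum_of_subset_of_nonneg (range_mono (by omega)) fun _ _ _ => ha _
    _ = ∑ j ∈ range J, a (j + 1) + ∑ i ∈ range N, a (J + i + 1) := sum_range_add _ _ _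
    _ ≤ _ := by
      rw [PP, mul_add, mul_sum]
      refine add_le_add (sum_le_sum fun j _ => ?_) ((t N).trans ?_)
      · rw [← mul_div_assoc, ← pow_succ']; exact one h _ _
      · have := mul_nonneg (pow_nonneg hM (K + 3)) (tau_nonneg K (J + 1 + N))
        rw [← mul_assoc, ← pow_succ']
        linarith
end

lemma conv (kf : ℕ → ℕ) (J K : ℕ) {lo hi M c : ℝ} (h0 : 0 ≤ lo) (h1 : lo ≤ M) (h2 : M ≤ hi)
    (e1 : PP kf J K lo ≤ c * (lo - 1)) (e2 : PP kf J K hi ≤ c * (hi - 1)) :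
    PP kf J K M ≤ c * (M - 1) := by
  have c1 : ∀ (n : ℕ) (t : ℝ), 0 ≤ t → ConvexOn ℝ (Ici 0) fun x : ℝ => x ^ n * t := by
    intro n t ht
    simpa [mul_comm] using (convexOn_pow n).smul ht
  have c2 : ∀ J, ConvexOn ℝ (Ici 0) fun x : ℝ =>
      ∑ j ∈ range J, x ^ kf j / ((j + 1 + kf j).choose (j + 1) : ℝ) := by
    intro J
    induction J with
    | zero => simpa using convexOn_const (0:ℝ) (convex_Ici 0)
    | succ J ih =>
      simp only [sum_range_succ, div_eq_mul_inv] at ih ⊢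
      exact ih.add (c1 _ _ (by positivity))
  have c3 : ConcaveOn ℝ (Ici 0) fun x : ℝ => c * (x - 1) :=
    ⟨convex_Ici 0, fun x _ y _ s t _ _ hst => by
      simp only [smul_eq_mul]
      have : t = 1 - s := by linarith
      rw [this]; apply le_of_eq; ring⟩
  have c4 := ((c2 J).add (c1 (K + 2) _ (tau_nonneg K (J + 1)))).sub c3
  have := c4.le_max_of_mem_Icc (x := lo) (y := hi) (z := M) h0
    (show (0:ℝ) ≤ hi by linarith) ⟨h1, h2⟩
  have h3 : PP kf J K M - c * (M - 1) ≤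
      max (PP kf J K lo - c * (lo - 1)) (PP kf J K hi - c * (hi - 1)) := this
  have := max_le (sub_nonpos.2 e1) (sub_nonpos.2 e2)
  linarith

lemma En {n : ℕ} (hn : 1 ≤ n) :
    (1 + 1 / (n:ℝ)) ^ n ≤ Real.exp 1 * ((2 * n + 2) / (2 * n + 3)) := by
  have hn' : (1:ℝ) ≤ n := by exact_mod_cast hn
  have h1 := Real.log_div_le_sum_range_add (x := 1 / (2 * n + 1)) (by positivity)
    (by rw [div_lt_one (by positivity)]; linarith) 1
  have e : (1 + 1 / (2 * (n:ℝ) + 1)) / (1 - 1 / (2 * n + 1)) = 1 + 1 / n := by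
    field_simp; ring
  rw [e] at h1
  simp only [sum_range_one] at h1
  have e2 : (n:ℝ) * (2 * ((1 / (2 * (n:ℝ) + 1)) ^ (2 * 0 + 1) / (2 * (0:ℕ) + 1) +
      (1 / (2 * (n:ℝ) + 1)) ^ (2 * 1 + 1) / (1 - (1 / (2 * (n:ℝ) + 1)) ^ 2)))
      = 1 - 1 / (2 * n + 2) := by
    have : 1 - (1 / (2 * (n:ℝ) + 1)) ^ 2 = 4 * n * (n + 1) / (2 * n + 1) ^ 2 := by
      field_simp; ring
    rw [this]
    simp only [mul_zero, zero_add, pow_one, Nat.cast_zero, mul_one, div_pow, one_pow]
    have h1 : (2 * (n:ℝ) + 1) ≠ 0 := by positivity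
    field_simp
    ring
  have h2 : (n:ℝ) * Real.log (1 + 1 / n) ≤ 1 - 1 / (2 * n + 2) := by
    rw [← e2]; nlinarith
  have h3 : (1 + 1 / (n:ℝ)) ^ n = Real.exp (n * Real.log (1 + 1 / n)) := by
    rw [Real.exp_nat_mul, Real.exp_log (by positivity)]
  rw [h3]
  refine (Real.exp_le_exp.2 h2).trans ?_
  rw [Real.exp_sub, div_eq_mul_inv]
  refine mul_le_mul_of_nonneg_left ?_ (Real.exp_pos 1).le
  have := Real.add_one_le_exp (1 / (2 * (n:ℝ) + 2))
  rw [inv_le_comm₀ (Real.exp_pos _) (by positivity)]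
  refine le_trans (le_of_eq ?_) this
  field_simp; ring

lemma An {n : ℕ} (hn : 7 ≤ n) :
    (1 + 1 / (n:ℝ)) ^ n + ((1 + 1 / (n:ℝ)) ^ n) ^ 2 / (2 * (n - 1)) ≤
      Real.exp 1 * (1 + 1 / n) := by
  have hn' : (7:ℝ) ≤ n := by exact_mod_cast hn
  have h1 := En (n := n) (by omega)
  have he := Real.exp_one_lt_d9
  have hp := Real.exp_pos 1
  have h0 : (0:ℝ) < n - 1 := by linarith
  have h2 : ((1 + 1 / (n:ℝ)) ^ n) ^ 2 / (2 * (n - 1)) ≤
      Real.exp 1 * (2.7183 * ((2 * n + 2) / (2 * n + 3)) ^ 2 / (2 * (n - 1))) := by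
    rw [← mul_div_assoc]
    refine div_le_div_of_nonneg_right ?_ (by positivity)
    refine (pow_le_pow_left₀ (by positivity) h1 2).trans ?_
    rw [mul_pow, pow_two (Real.exp 1), mul_assoc]
    gcongr; linarith
  have h3 : (2 * (n:ℝ) + 2) / (2 * n + 3) +
      2.7183 * ((2 * n + 2) / (2 * n + 3)) ^ 2 / (2 * (n - 1)) ≤ 1 + 1 / n := by
    rw [← sub_nonneg]
    have : 1 + 1 / (n:ℝ) - ((2 * (n:ℝ) + 2) / (2 * n + 3) +
      2.7183 * ((2 * n + 2) / (2 * n + 3)) ^ 2 / (2 * (n - 1)))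
      = (n + 1) * (0.5634 * n ^ 2 - 2.4366 * n - 9) / (n * (2 * n + 3) ^ 2 * (n - 1)) := by
      field_simp; ring
    rw [this]
    have : 0 ≤ 0.5634 * (n:ℝ) ^ 2 - 2.4366 * n - 9 := by nlinarith
    positivity
  nlinarith [mul_le_mul_of_nonneg_left h3 hp.le]

lemma PPsmall (p : ℕ) (M : ℝ) : PP (fun _ => p + 1) 1 (2 * p + 1) M
    = M ^ (p + 1) / (p + 2) + M ^ (2 * p + 3) / (2 * (p + 2) * (p + 1)) := by
  have e1 : (0 + 1 + (p + 1)).choose (0 + 1) = p + 2 := by simp; ring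
  have e2 : ((1 + 1 + (2 * p + 1) + 1).choose (1 + 1) : ℝ) = (p + 2) * (2 * p + 3) := by
    rw [show 1 + 1 = 2 from rfl, Nat.cast_choose_two]; push_cast; ring
  simp only [PP, tau, sum_range_one, e1, e2]
  push_cast
  field_simp
  ring

lemma harm (m : ℕ) : ∑ i ∈ range (m + 3), 1 / ((m:ℝ) + 3 + i + 1) ≤ 7 / 10 - 1 / (4 * (m + 3)) := by
  induction m with
  | zero => norm_num [sum_range_succ]
  | succ m ih =>
    rw [sum_range_succ'] at ih
    rw [show m + 1 + 3 = m + 2 + 1 + 1 by ring, sum_range_succ, sum_range_succ]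
    have e : ∑ i ∈ range (m + 2), 1 / (((m + 1 : ℕ):ℝ) + 3 + i + 1)
        = ∑ i ∈ range (m + 2), 1 / ((m:ℝ) + 3 + (i + 1 : ℕ) + 1) :=
      sum_congr rfl fun i _ => by push_cast; ring
    rw [e]
    push_cast at ih ⊢
    have : 1 / ((m:ℝ) + 1 + 3 + (m + 2) + 1) + 1 / ((m:ℝ) + 1 + 3 + (m + 2 + 1) + 1)
        - 1 / ((m:ℝ) + 3 + 0 + 1) ≤ 1 / (4 * ((m:ℝ) + 3)) - 1 / (4 * ((m:ℝ) + 1 + 3)) := by
      rw [← sub_nonneg]
      have : 1 / (4 * ((m:ℝ) + 3)) - 1 / (4 * ((m:ℝ) + 1 + 3)) -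
        (1 / ((m:ℝ) + 1 + 3 + (m + 2) + 1) + 1 / ((m:ℝ) + 1 + 3 + (m + 2 + 1) + 1)
        - 1 / ((m:ℝ) + 3 + 0 + 1)) = 1 / (4 * (m + 3) * (m + 4) * (2 * m + 7)) := by
        field_simp; ring
      rw [this]; positivity
    rw [show (m:ℝ) + 2 + 1 = m + 3 by ring] at this
    linarith

lemma PPbig (m : ℕ) {M : ℝ} (hM : 0 ≤ M) :
    PP (fun j => if j < m + 2 then 0 else 1) (m + 2 + (m + 3)) 1 M ≤
      (m + 2) + M * (7 / 10 - 1 / (4 * (m + 3))) + 3 * M ^ 3 / ((2 * m + 7) * (2 * m + 8)) := by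
  have e2 : ((m + 2 + (m + 3) + 1 + 1 + 1).choose (m + 2 + (m + 3) + 1) : ℝ)
      = (m + 4) * (2 * m + 7) := by
    rw [show m + 2 + (m + 3) + 1 + 1 + 1 = (m + 2 + (m + 3) + 1) + 2 by ring,
      Nat.choose_symm_add, Nat.cast_choose_two]
    push_cast; ring
  rw [PP, tau, e2, sum_range_add]
  refine add_le_add (add_le_add (le_of_eq ?_) ?_) (le_of_eq ?_)
  · rw [sum_congr rfl (g := fun _ => (1:ℝ)) fun j hj => by simp [mem_range.1 hj]]
    simp
  · refine le_trans (le_of_eq ?_) (mul_le_mul_of_nonneg_left (harm m) hM)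
    rw [mul_sum]
    refine sum_congr rfl fun i _ => ?_
    rw [if_neg (by omega), Nat.choose_succ_self_right]
    push_cast; ring
  · push_cast; field_simp; ring

lemma exPP {M : ℝ} (hM : 1 < M) : ∃ kf J K, PP kf J K M ≤ Real.exp 1 * (M - 1) := by
  have he := Real.exp_one_gt_d9
  have fin : ∀ (l : List ℕ) (K : ℕ) (lo hi : ℝ), 1 ≤ lo → lo ≤ M → M ≤ hi →
      PP (fun j => l.getD j 0) l.length K lo ≤ 2.718 * (lo - 1) →
      PP (fun j => l.getD j 0) l.length K hi ≤ 2.718 * (hi - 1) →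
      ∃ kf J K, PP kf J K M ≤ Real.exp 1 * (M - 1) := by
    intro l K lo hi h0 h1 h2 e1 e2
    refine ⟨_, _, _, (conv _ _ _ (by linarith) h1 h2 e1 e2).trans ?_⟩
    gcongr; linarith
  rcases lt_or_ge M (8 / 7) with h1 | h1
  · have hε : 0 < M - 1 := by linarith
    obtain ⟨p, hp⟩ : ∃ p : ℕ, ⌈1 / (M - 1)⌉₊ = p + 2 ∧ 6 ≤ p := by
      have : 7 < ⌈1 / (M - 1)⌉₊ := by
        rw [Nat.lt_ceil, lt_div_iff₀ hε]; push_cast; linarith
      exact ⟨⌈1 / (M - 1)⌉₊ - 2, by omega, by omega⟩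
    have k1 := Nat.le_ceil (1 / (M - 1))
    have k2 := Nat.ceil_lt_add_one (show 0 ≤ 1 / (M - 1) by positivity)
    rw [hp.1] at k1 k2
    push_cast at k1 k2
    have p6 : (6:ℝ) ≤ p := by exact_mod_cast hp.2
    refine ⟨fun _ => p + 1, 1, 2 * p + 1, conv _ _ _ (lo := 1 + 1 / (p + 2))
      (hi := 1 + 1 / (p + 1)) (by positivity) ?_ ?_ ?_ ?_⟩
    · rw [div_le_iff₀ hε] at k1
      have : 1 / ((p:ℝ) + 2) ≤ M - 1 := by rw [div_le_iff₀ (by positivity)]; linarith
      linarith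
    · have k3 : (p:ℝ) + 1 < 1 / (M - 1) := by linarith
      rw [lt_div_iff₀ hε] at k3
      have : M - 1 ≤ 1 / ((p:ℝ) + 1) := by rw [le_div_iff₀ (by positivity)]; linarith
      linarith
    · have := An (n := p + 2) (by omega)
      push_cast at this
      rw [PPsmall]
      have hx : (0:ℝ) < 1 + 1 / ((p:ℝ) + 2) := by positivity
      have e : ∀ x : ℝ, 0 < x → x ^ (p + 1) / (p + 2) + x ^ (2 * p + 3) / (2 * (p + 2) * (p + 1))
          = (x ^ (p + 2) + (x ^ (p + 2)) ^ 2 / (2 * (p + 2 - 1))) / (x * (p + 2)) := by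
        intro x hx
        rw [show (p:ℝ) + 2 - 1 = p + 1 by ring]
        field_simp; ring
      rw [e _ hx, div_le_iff₀ (by positivity)]
      refine this.trans (le_of_eq ?_)
      field_simp; ring
    · have := An (n := p + 1) (by omega)
      push_cast at this
      rw [PPsmall]
      have e : (1 + 1 / ((p:ℝ) + 1)) ^ (2 * p + 3) / (2 * (p + 2) * (p + 1))
          = ((1 + 1 / ((p:ℝ) + 1)) ^ (p + 1)) ^ 2 / (2 * (p + 1) ^ 2) := by
        rw [← pow_mul, show 2 * p + 3 = (p + 1) * 2 + 1 by ring, pow_succ]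
        field_simp; ring
      rw [e]
      generalize (1 + 1 / ((p:ℝ) + 1)) ^ (p + 1) = E at *
      have e3 : Real.exp 1 * (1 + 1 / ((p:ℝ) + 1) - 1) =
          Real.exp 1 * (1 + 1 / ((p:ℝ) + 1)) / (p + 2) := by field_simp; ring
      rw [e3, le_div_iff₀ (by positivity)]
      refine le_trans ?_ this
      rw [add_mul, div_mul_cancel₀ _ (by positivity), show (p:ℝ) + 1 - 1 = p by ring]
      refine add_le_add le_rfl ?_
      rw [div_mul_eq_mul_div, div_le_div_iff₀ (by positivity) (by positivity)]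
      nlinarith [sq_nonneg E]
  rcases le_total M (7 / 6) with h2 | h2
  · exact fin [6] 11 (8 / 7) (7 / 6) (by norm_num) h1 h2
      (by norm_num [PP, tau, sum_range_succ, Nat.choose])
      (by norm_num [PP, tau, sum_range_succ, Nat.choose])
  rcases le_total M (6 / 5) with h3 | h3
  · exact fin [5] 9 (7 / 6) (6 / 5) (by norm_num) h2 h3
      (by norm_num [PP, tau, sum_range_succ, Nat.choose])
      (by norm_num [PP, tau, sum_range_succ, Nat.choose])
  rcases le_total M (9 / 7) with h4 | h4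
  · exact fin [4, 7] 10 (6 / 5) (9 / 7) (by norm_num) h3 h4
      (by norm_num [PP, tau, sum_range_succ, Nat.choose])
      (by norm_num [PP, tau, sum_range_succ, Nat.choose])
  rcases le_total M (7 / 5) with h5 | h5
  · exact fin [3, 5, 8] 10 (9 / 7) (7 / 5) (by norm_num) h4 h5
      (by norm_num [PP, tau, sum_range_succ, Nat.choose])
      (by norm_num [PP, tau, sum_range_succ, Nat.choose])
  rcases le_total M (5 / 3) with h6 | h6
  · exact fin [2, 3, 5, 7, 8] 9 (7 / 5) (5 / 3) (by norm_num) h5 h6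
      (by norm_num [PP, tau, sum_range_succ, Nat.choose])
      (by norm_num [PP, tau, sum_range_succ, Nat.choose])
  rcases le_total M 2 with h7 | h7
  · exact fin [1, 2, 3] 3 (5 / 3) 2 (by norm_num) h6 h7
      (by norm_num [PP, tau, sum_range_succ, Nat.choose])
      (by norm_num [PP, tau, sum_range_succ, Nat.choose])
  rcases le_total M 3 with h8 | h8
  · exact fin [0, 1, 2, 2] 2 2 3 (by norm_num) h7 h8
      (by norm_num [PP, tau, sum_range_succ, Nat.choose])
      (by norm_num [PP, tau, sum_range_succ, Nat.choose])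
  obtain ⟨m, hm⟩ : ∃ m : ℕ, ⌊M⌋₊ = m + 3 := by
    have : 3 ≤ ⌊M⌋₊ := Nat.le_floor (by exact_mod_cast h8)
    exact ⟨⌊M⌋₊ - 3, by omega⟩
  have k1 := Nat.floor_le (show 0 ≤ M by linarith)
  have k2 := Nat.lt_floor_add_one M
  rw [hm] at k1 k2
  push_cast at k1 k2
  have m0 : (0:ℝ) ≤ m := by positivity
  refine ⟨_, _, _, (conv (fun j => if j < m + 2 then 0 else 1) (m + 2 + (m + 3)) 1 (c := 2.7)
    (by positivity) k1 k2.le ((PPbig m (by positivity)).trans ?_)
    ((PPbig m (by positivity)).trans ?_)).trans ?_⟩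
  · have a1 : 3 * ((m:ℝ) + 3) ^ 3 / ((2 * m + 7) * (2 * m + 8)) ≤ 3 / 4 * m + 31 / 20 := by
      rw [div_le_iff₀ (by positivity)]
      nlinarith [pow_nonneg m0 2, pow_nonneg m0 3]
    have a2 : ((m:ℝ) + 3) * (7 / 10 - 1 / (4 * (m + 3))) = 7 / 10 * (m + 3) - 1 / 4 := by
      field_simp
    rw [a2]; linarith
  · have a1 : 3 * ((m:ℝ) + 3 + 1) ^ 3 / ((2 * m + 7) * (2 * m + 8)) ≤ 3 / 4 * m + 7 / 2 := by
      rw [div_le_iff₀ (by positivity)]
      nlinarith [pow_nonneg m0 2, pow_nonneg m0 3]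
    have a2 : ((m:ℝ) + 3 + 1) * (7 / 10 - 1 / (4 * (m + 3))) ≤ 7 / 10 * (m + 4) - 1 / 4 := by
      have : 1 / 4 ≤ ((m:ℝ) + 3 + 1) * (1 / (4 * (m + 3))) := by
        rw [mul_one_div, le_div_iff₀ (by positivity)]; linarith
      nlinarith
    linarith
  · gcongr; linarith

lemma numeric {a : ℕ → ℝ} {M : ℝ} (ha : ∀ j, 0 ≤ a j)
    (h : ∀ j k, ((j + k).choose j : ℝ) * a j ≤ M ^ (k + 1)) (hM : 1 ≤ M) (N : ℕ) :
    ∑ j ∈ range N, a (j + 1) ≤ Real.exp 1 * (M * (M - 1)) := by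
  rcases hM.eq_or_lt with rfl | hM'
  · simp only [sub_self, mul_zero]
    refine le_of_forall_pos_le_add fun ε hε => ?_
    obtain ⟨K, hK⟩ := exists_nat_one_div_lt hε
    refine (maj ha h zero_le_one (fun _ => 0) 0 K N).trans ?_
    have : tau K 1 = 1 / (K + 1) := by
      simp only [tau, Nat.choose_one_right]; push_cast; field_simp; ring
    simp only [PP, sum_range_zero, this, one_pow, zero_add, one_mul]
    exact hK.le
  · obtain ⟨kf, J, K, hP⟩ := exPP hM'
    refine (maj ha h (by linarith) kf J K N).trans ?_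
    nlinarith

end Pool.Agent.H29.Nev
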