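import Mathlib

namespace Pool.Agent.H29.Nev

/-- The plane with an adapted norm. -/
def XX (_n : ℕ) : Type := ℂ × ℂ

instance (n : ℕ) : AddCommGroup (XX n) := inferInstanceAs (AddCommGroup (ℂ × ℂ))
noncomputable instance (n : ℕ) : Module ℂ (XX n) := inferInstanceAs (Module ℂ (ℂ × ℂ))
instance (n : ℕ) : FiniteDimensional ℂ (XX n) := inferInstanceAs (FiniteDimensional ℂ (ℂ × ℂ))
instance (n : ℕ) : Nontrivial (XX n) := inferInstanceAs (Nontrivial (ℂ × ℂ))

/-- The growth factor. -/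
noncomputable def mm (n : ℕ) : ℝ := 1 + 1 / ((n:ℝ) + 1)

/-- The embedding defining the norm. -/
noncomputable def emb (n : ℕ) : XX n →ₗ[ℂ] (Fin (n + 2) → WithLp 1 (ℂ × ℂ)) where
  toFun v := fun k => WithLp.toLp 1 (((k:ℕ):ℂ) * v.1 / (mm n : ℂ) ^ (k:ℕ), v.2 / (mm n : ℂ) ^ (k:ℕ))
  map_add' x y := by
    ext k
    rw [Pi.add_apply, ← WithLp.toLp_add]
    congr 1
    refine Prod.ext ?_ ?_
    · show _ * (x.1 + y.1) / _ = _ + _; ring
    · show (x.2 + y.2) / _ = _ + _; ring
  map_smul' c x := by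
    ext k
    rw [Pi.smul_apply, ← WithLp.toLp_smul]
    congr 1
    refine Prod.ext ?_ ?_
    · show _ * (c * x.1) / _ = c * _; ring
    · show (c * x.2) / _ = c * _; ring

lemma mm_pos (n : ℕ) : 0 < mm n := by unfold mm; positivity

lemma emb_norm (n : ℕ) (v : XX n) (k : Fin (n + 2)) :
    ‖emb n v k‖ = ((k:ℕ) * ‖v.1‖ + ‖v.2‖) / mm n ^ (k:ℕ) := by
  rw [WithLp.prod_norm_eq_of_L1]
  simp [emb, abs_of_pos (mm_pos n), add_div]

lemma emb_inj (n : ℕ) : Function.Injective (emb n) := by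
  rw [injective_iff_map_eq_zero]
  intro v hv
  have h := emb_norm n v 1
  rw [hv] at h
  have hp := mm_pos n
  simp only [Pi.zero_apply, norm_zero, Fin.val_one, Nat.cast_one, one_mul, pow_one] at h
  rw [eq_comm, div_eq_zero_iff] at h
  have h2 := h.resolve_right hp.ne'
  have h3 := norm_nonneg v.1
  have h4 := norm_nonneg v.2
  exact Prod.ext (norm_eq_zero.1 (by linarith)) (norm_eq_zero.1 (by linarith))

noncomputable instance (n : ℕ) : NormedAddCommGroup (XX n) :=
  NormedAddCommGroup.induced _ _ (emb n) (emb_inj n)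
noncomputable instance (n : ℕ) : NormedSpace ℂ (XX n) := NormedSpace.induced ℂ _ _ (emb n)
instance (n : ℕ) : CompleteSpace (XX n) := FiniteDimensional.complete ℂ _

lemma norm_le (n : ℕ) (v : XX n) {c : ℝ} (hc : 0 ≤ c) :
    ‖v‖ ≤ c ↔ ∀ k : Fin (n + 2), ((k:ℕ) * ‖v.1‖ + ‖v.2‖) / mm n ^ (k:ℕ) ≤ c := by
  simp only [← emb_norm]
  exact pi_norm_le_iff_of_nonneg hc

/-- The nilpotent operator. -/
noncomputable def TT (n : ℕ) : XX n →L[ℂ] XX n :=
  LinearMap.toContinuousLinearMap ((LinearMap.inr ℂ ℂ ℂ).comp (LinearMap.fst ℂ ℂ ℂ))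

lemma TT_sq (n : ℕ) : TT n * TT n = 0 := by
  ext v; rfl

lemma step (n : ℕ) {w : ℂ} (hw : ‖w‖ ≤ 1) : ‖1 + w • TT n‖ ≤ mm n := by
  have hp := mm_pos n
  refine ContinuousLinearMap.opNorm_le_bound _ hp.le fun v => ?_
  rw [norm_le n _ (by positivity)]
  intro k
  have e1 : ((1 + w • TT n) v).1 = v.1 := by
    show v.1 + w * 0 = _; simp
  have e2 : ((1 + w • TT n) v).2 = v.2 + w * v.1 := rfl
  have h := (norm_le n v (norm_nonneg _)).1 le_rfl
  have h1 : ‖v.2 + w * v.1‖ ≤ ‖v.2‖ + ‖v.1‖ := by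
    refine (norm_add_le _ _).trans ?_
    rw [norm_mul]; nlinarith [norm_nonneg v.1]
  have a := norm_nonneg v.1
  have b := norm_nonneg v.2
  rw [e1, e2, div_le_iff₀ (by positivity)]
  by_cases hk : (k:ℕ) + 1 < n + 2
  · have := h ⟨k + 1, hk⟩
    rw [div_le_iff₀ (by positivity)] at this
    push_cast at this
    rw [pow_succ] at this
    nlinarith
  · have := h k
    rw [div_le_iff₀ (by positivity)] at this
    have hk' : ((k:ℕ):ℝ) = n + 1 := by
      have : (k:ℕ) = n + 1 := by omega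
      exact_mod_cast this
    have e : mm n * ((n:ℝ) + 1) = n + 2 := by unfold mm; field_simp; ring
    have h5 : 1 ≤ mm n := by unfold mm; have : (0:ℝ) ≤ 1 / ((n:ℝ) + 1) := by positivity
                             linarith
    have h6 := mul_le_mul_of_nonneg_left this hp.le
    rw [hk'] at h6 ⊢
    have : mm n * (((n:ℝ) + 1) * ‖v.1‖ + ‖v.2‖) = (n + 2) * ‖v.1‖ + mm n * ‖v.2‖ := by
      rw [← e]; ring
    nlinarith

lemma res (n : ℕ) {z : ℂ} (hz : z ≠ 0) : IsUnit (algebraMap ℂ _ z - TT n) ∧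
    resolvent (TT n) z = z⁻¹ • (1 + z⁻¹ • TT n) := by
  have k1 : (algebraMap ℂ _ z - TT n) * (z⁻¹ • (1 + z⁻¹ • TT n)) = 1 := by
    simp only [Algebra.algebraMap_eq_smul_one, sub_mul, mul_add, mul_smul_comm, smul_mul_assoc,
      one_mul, mul_one, TT_sq, smul_zero, add_zero, smul_add, smul_smul, smul_sub]
    match_scalars <;> field_simp <;> ring
  have k2 : (z⁻¹ • (1 + z⁻¹ • TT n)) * (algebraMap ℂ _ z - TT n) = 1 := by
    simp only [Algebra.algebraMap_eq_smul_one, mul_sub, add_mul, mul_smul_comm, smul_mul_assoc,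
      one_mul, mul_one, TT_sq, smul_zero, add_zero, smul_add, smul_smul, smul_sub]
    match_scalars <;> field_simp <;> ring
  exact ⟨⟨⟨_, _, k1, k2⟩, rfl⟩, Ring.inverse_unit (⟨_, _, k1, k2⟩ : (XX n →L[ℂ] XX n)ˣ)⟩

lemma lower (n : ℕ) : mm n ^ (n + 1) / (n + 1) ≤ ‖TT n‖ := by
  have hp := mm_pos n
  have h5 : 1 ≤ mm n := by unfold mm; have : (0:ℝ) ≤ 1 / ((n:ℝ) + 1) := by positivity
                           linarith
  let v : XX n := ((1:ℂ), (0:ℂ))
  have h1 : ‖v‖ ≤ (n + 1) / mm n ^ (n + 1) := by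
    rw [norm_le n v (by positivity)]
    intro k
    simp only [v, norm_one, norm_zero, mul_one, add_zero]
    have key : ∀ d j : ℕ, j + d = n + 1 → (j:ℝ) / mm n ^ j ≤ (n + 1) / mm n ^ (n + 1) := by
      intro d
      induction d with
      | zero => intro j hj; rw [add_zero] at hj; subst hj; simp
      | succ d ih =>
        intro j hj
        refine le_trans ?_ (ih (j + 1) (by omega))
        rw [div_le_div_iff₀ (by positivity) (by positivity), pow_succ]
        have hj' : (j:ℝ) ≤ n + 1 := by exact_mod_cast (show j ≤ n + 1 by omega)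
        have : (j:ℝ) * mm n ≤ j + 1 := by
          unfold mm
          have : (j:ℝ) * (1 / (n + 1)) ≤ 1 := by
            rw [mul_one_div, div_le_one (by positivity)]; exact hj'
          linarith
        push_cast
        nlinarith [pow_pos hp j]
    exact key (n + 1 - k) k (by omega)
  have h2 : 1 ≤ ‖TT n v‖ := by
    have := (norm_le n (TT n v) (norm_nonneg _)).1 le_rfl 0
    have e2 : (TT n v).2 = 1 := rfl
    simpa [e2] using this
  have h3 := (TT n).le_opNorm v
  rw [div_le_iff₀ (by positivity)]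
  rw [le_div_iff₀ (by positivity)] at h1
  nlinarith [norm_nonneg (TT n), pow_pos hp (n + 1), mul_le_mul_of_nonneg_left h1 (norm_nonneg (TT n))]

end Pool.Agent.H29.Nev
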