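import Mathlib

set_option autoImplicit false
open MeasureTheory Filter Topology

namespace Pool.Agent.H29.Nitecki

def kk : Fin 4 → ℕ := ![1, 8, 16, 16]

noncomputable def dig (s : Fin 4 → Bool) : ℝ := ∑ i, if s i then (kk i : ℝ) else 0

theorem dig_nonneg (s : Fin 4 → Bool) : 0 ≤ dig s :=
  Finset.sum_nonneg fun i _ => by split_ifs <;> positivity

theorem dig_le (s : Fin 4 → Bool) : dig s ≤ 41 := by
  have : dig s ≤ ∑ i, (kk i : ℝ) := Finset.sum_le_sum fun i _ => by split_ifs <;> simp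
  refine this.trans ?_
  simp [kk, Fin.sum_univ_four]; norm_num

noncomputable def f (a : ℕ → Fin 4 → Bool) : ℝ := ∑' j, dig (a j) / 12 ^ (j + 1)

theorem sum_u : Summable fun j : ℕ => (41 : ℝ) / 12 ^ (j + 1) := by
  have h : Summable fun j : ℕ => (41 / 12 : ℝ) * (1 / 12) ^ j :=
    (summable_geometric_of_lt_one (by norm_num) (by norm_num)).mul_left _
  refine h.congr fun j => ?_
  rw [pow_succ, one_div, inv_pow]; field_simp

theorem bd (a : ℕ → Fin 4 → Bool) (j : ℕ) : ‖dig (a j) / 12 ^ (j + 1)‖ ≤ (41 : ℝ) / 12 ^ (j + 1) := by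
  rw [Real.norm_of_nonneg (div_nonneg (dig_nonneg _) (by positivity))]
  gcongr; exact dig_le _

theorem summ (a : ℕ → Fin 4 → Bool) : Summable fun j => dig (a j) / 12 ^ (j + 1) :=
  Summable.of_norm_bounded sum_u (bd a)

theorem cont : Continuous f := by
  refine continuous_tsum (fun j => ?_) sum_u (fun j a => bd a j)
  exact ((continuous_of_discreteTopology (f := dig)).comp (continuous_apply j)).div_const _

theorem shift (s : Fin 4 → Bool) (y : ℝ) (hy : y ∈ Set.range f) : (dig s + y) / 12 ∈ Set.range f := by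
  obtain ⟨a, rfl⟩ := hy
  refine ⟨fun j => Nat.casesOn j s a, ?_⟩
  unfold f
  rw [(summ _).tsum_eq_zero_add, add_div, ← tsum_div_const]
  congr 1
  · simp
  · refine tsum_congr fun j => ?_
    simp only [pow_succ]; field_simp

theorem zero_mem : (0 : ℝ) ∈ Set.range f := ⟨fun _ _ => false, by simp [f, dig]⟩

theorem f_bd (y : ℝ) (hy : y ∈ Set.range f) : 0 ≤ y ∧ y ≤ 41 := by
  obtain ⟨a, rfl⟩ := hy
  refine ⟨tsum_nonneg fun j => div_nonneg (dig_nonneg _) (by positivity), ?_⟩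
  have h : HasSum (fun j : ℕ => (41 / 12 : ℝ) * (1 / 12) ^ j) (41 / 12 * (1 - 1 / 12)⁻¹) :=
    (hasSum_geometric_of_lt_one (by norm_num) (by norm_num)).mul_left _
  refine le_trans (hasSum_le (fun j => ?_) (summ a).hasSum h) (by norm_num)
  have := dig_le (a j)
  rw [pow_succ, one_div, inv_pow, div_le_iff₀ (by positivity)]
  field_simp
  exact this

theorem digs (d : ℕ) (hd : d ∈ ({0, 1, 8, 9, 16, 17, 24, 25, 32, 33, 40, 41} : Finset ℕ)) :
    ∃ s, dig s = d := by
  have h : ∀ d ∈ ({0, 1, 8, 9, 16, 17, 24, 25, 32, 33, 40, 41} : Finset ℕ),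
      ∃ s : Fin 4 → Bool, (∑ i, if s i then kk i else 0) = d := by decide
  obtain ⟨s, hs⟩ := h d hd
  refine ⟨s, ?_⟩
  rw [← hs, dig]; push_cast; rfl

theorem step (k : ℕ) (a : ℤ) : ∃ (N : ℤ) (y : ℝ), y ∈ Set.range f ∧ y + 2 ∈ Set.range f ∧
    (a : ℝ) / 12 ^ k = N + y := by
  induction k with
  | zero =>
    refine ⟨a, 0, zero_mem, ?_, by simp⟩
    obtain ⟨s, hs⟩ := digs 24 (by decide)
    have := shift s 0 zero_mem
    rw [hs] at this
    convert this using 1; norm_num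
  | succ k ih =>
    obtain ⟨N, y, h1, h2, h3⟩ := ih
    have h : ∀ r ∈ Finset.range 12, ∃ d ∈ ({0, 1, 8, 9, 16, 17} : Finset ℕ), ∃ e ∈ ({0, 2} : Finset ℕ),
        (d + e) % 12 = r ∧ d ∈ ({0, 1, 8, 9, 16, 17, 24, 25, 32, 33, 40, 41} : Finset ℕ) ∧
        d + 24 ∈ ({0, 1, 8, 9, 16, 17, 24, 25, 32, 33, 40, 41} : Finset ℕ) := by decide
    obtain ⟨d, -, e, he, hr, hd1, hd2⟩ := h (N % 12).toNat (by simp; omega)
    obtain ⟨s1, hs1⟩ := digs d hd1
    obtain ⟨s2, hs2⟩ := digs (d + 24) hd2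
    have hy : y + e ∈ Set.range f := by
      simp only [Finset.mem_insert, Finset.mem_singleton] at he
      rcases he with rfl | rfl
      · simpa using h1
      · simpa using h2
    have hN : N = 12 * ((N - d - e) / 12) + d + e := by omega
    refine ⟨(N - d - e) / 12, (d + (y + e)) / 12, ?_, ?_, ?_⟩
    · simpa [hs1] using shift s1 _ hy
    · have := shift s2 _ hy
      rw [hs2] at this
      convert this using 1; push_cast; ring
    · rw [pow_succ, ← div_div, h3]
      generalize (N - d - e) / 12 = M at hN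
      rw [hN]; push_cast; ring

theorem vol_pos : 0 < volume (Set.range f) := by
  by_contra h0
  have h0 : volume (Set.range f) = 0 := by simpa using h0
  have hK : IsCompact (Set.range f) := isCompact_range cont
  let C : Set ℝ := ⋃ N ∈ Set.Icc (-50 : ℤ) 50, (fun y => y - (N : ℝ)) ⁻¹' Set.range f
  have hC : IsClosed C := (Set.finite_Icc _ _).isClosed_biUnion fun N _ =>
    hK.isClosed.preimage (by fun_prop)
  have hv : volume C = 0 := by
    refine (measure_biUnion_null_iff (Set.to_countable _)).2 fun N _ => ?_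
    simpa [sub_eq_add_neg] using h0
  have hsub : Set.Icc (0 : ℝ) 1 ⊆ C := by
    intro x hx
    rw [← hC.closure_eq, Metric.mem_closure_iff]
    intro ε hε
    obtain ⟨k, hk⟩ := exists_pow_lt_of_lt_one hε (by norm_num : (1 / 12 : ℝ) < 1)
    obtain ⟨N, y, h1, -, h3⟩ := step k ⌊x * 12 ^ k⌋
    have hp : (0 : ℝ) < 12 ^ k := by positivity
    have l1 : (⌊x * 12 ^ k⌋ : ℝ) / 12 ^ k ≤ x := by
      rw [div_le_iff₀ hp]; exact Int.floor_le _
    have l2 : x - (1 / 12) ^ k < (⌊x * 12 ^ k⌋ : ℝ) / 12 ^ k := by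
      rw [lt_div_iff₀ hp, sub_mul, ← mul_pow]
      simpa using Int.sub_one_lt_floor (x * 12 ^ k)
    have l3 : (1 / 12 : ℝ) ^ k ≤ 1 := pow_le_one₀ (by norm_num) (by norm_num)
    have hb := f_bd y h1
    refine ⟨N + y, ?_, ?_⟩
    · simp only [C, Set.mem_iUnion]
      refine ⟨N, ⟨?_, ?_⟩, by simpa using h1⟩
      · have : (-50 : ℝ) ≤ N := by linarith [hx.1, hb.2]
        exact_mod_cast this
      · have : (N : ℝ) ≤ 50 := by linarith [hx.2, hb.1]
        exact_mod_cast this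
    · rw [Real.dist_eq, abs_lt]; constructor <;> linarith
  have := measure_mono_null hsub hv
  simp at this

theorem sub (y : ℝ) (hy : y ∈ Set.range f) : ∃ A : Set (ℕ × Fin 4),
    y = ∑' p : ℕ × Fin 4, A.indicator (fun p => (kk p.2 : ℝ) / ((12 : ℕ) : ℝ) ^ (p.1 + 1)) p := by
  obtain ⟨a, rfl⟩ := hy
  refine ⟨{p | a p.1 p.2}, ?_⟩
  have he : ∀ j, ∑ i, Set.indicator {p : ℕ × Fin 4 | a p.1 p.2}
      (fun p => (kk p.2 : ℝ) / ((12 : ℕ) : ℝ) ^ (p.1 + 1)) (j, i) = dig (a j) / 12 ^ (j + 1) := by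
    intro j
    rw [dig, Finset.sum_div]
    refine Finset.sum_congr rfl fun i _ => ?_
    by_cases h : a j i <;> simp [Set.indicator, h]
  have hs : Summable fun p : ℕ × Fin 4 => Set.indicator {p : ℕ × Fin 4 | a p.1 p.2}
      (fun p => (kk p.2 : ℝ) / ((12 : ℕ) : ℝ) ^ (p.1 + 1)) p := by
    rw [summable_prod_of_nonneg (fun p => Set.indicator_nonneg (fun _ _ => by positivity) _)]
    refine ⟨fun j => (hasSum_fintype _).summable, ?_⟩
    simp only [tsum_fintype, he]
    exact summ a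
  rw [hs.tsum_prod]
  simp only [tsum_fintype, he, f]

end Pool.Agent.H29.Nitecki
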