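import Mathlib

set_option autoImplicit false

namespace Pool.Agent.H29.NoBasic

open Cardinal Filter Topology Finsupp

inductive Tr (K : Type) [Zero K] : Type
  | leaf : ℕ → Tr K
  | node : (ℕ → Tr K) → (ℕ → ℕ →₀ K) → Tr K

variable {K : Type} [Field K]

def enc : Tr K → List ℕ → ℕ ⊕ (ℕ → ℕ →₀ K)
  | .leaf n, _ => Sum.inl n
  | .node _ c, [] => Sum.inr c
  | .node t _, m :: l => enc (t m) l

lemma enc_inj : Function.Injective (enc : Tr K → _) := by
  intro a
  induction a with
  | leaf n =>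
    intro b h
    cases b with
    | leaf m => have := congrFun h []; simp [enc] at this; rw [this]
    | node t c => have := congrFun h []; simp [enc] at this
  | node t c ih =>
    intro b h
    cases b with
    | leaf m => have := congrFun h []; simp [enc] at this
    | node t' c' =>
      have h1 := congrFun h []
      simp [enc] at h1
      have h2 : t = t' := by
        funext m
        apply ih m
        funext l
        have := congrFun h (m :: l)
        simpa [enc] using this
      rw [h1, h2]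

lemma card_Tr (hK : #K = 𝔠) : #(Tr K) ≤ 𝔠 := by
  refine (mk_le_of_injective enc_inj).trans ?_
  have h1 : #(ℕ →₀ K) ≤ 𝔠 := by
    refine (mk_le_of_injective (f := fun (c : ℕ →₀ K) => (c : ℕ → K)) DFunLike.coe_injective).trans ?_
    simp [hK]
  have h2 : #(ℕ → ℕ →₀ K) ≤ 𝔠 := by
    rw [← Cardinal.power_def, mk_nat]
    exact (power_le_power_right h1).trans (by simp)
  have h3 : #(ℕ ⊕ (ℕ → ℕ →₀ K)) ≤ 𝔠 := by
    rw [mk_sum, lift_id, lift_id, mk_nat]
    exact (add_le_add aleph0_le_continuum h2).trans (by simp)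
  rw [← Cardinal.power_def, mk_list_eq_mk ℕ, mk_nat]
  exact (power_le_power_right h3).trans (by simp)

noncomputable def y : Tr K → ℕ → (Tr K →₀ K)
  | .leaf _, _ => 0
  | .node t c, n => mapDomain t (c n)

lemma y_surj (x : ℕ → (Tr K →₀ K)) : ∃ a, y a = x := by
  classical
  have hc : (insert (Tr.leaf 0) (⋃ n, ((x n).support : Set (Tr K)))).Countable :=
    (Set.countable_iUnion fun n => (x n).support.countable_toSet).insert _
  obtain ⟨t, ht⟩ := hc.exists_eq_range ⟨_, Set.mem_insert _ _⟩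
  have h1 : ∀ n, ∃ c : ℕ →₀ K, mapDomain t c = x n := by
    intro n
    refine ⟨mapDomain (Function.invFun t) (x n), ?_⟩
    rw [← mapDomain_comp]
    conv_rhs => rw [← mapDomain_id (v := x n)]
    refine mapDomain_congr fun b hb => ?_
    have : b ∈ Set.range t := by
      rw [← ht]
      exact Or.inr (Set.mem_iUnion.mpr ⟨n, hb⟩)
    exact Function.invFun_eq this
  choose c hc using h1
  exact ⟨Tr.node t c, funext hc⟩

def child (g b : Tr K) : Prop := ∃ n, g ∈ (y b n).support

lemma child_node {g : Tr K} {t : ℕ → Tr K} {c : ℕ → ℕ →₀ K} (h : child g (.node t c)) :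
    ∃ m, t m = g := by
  classical
  obtain ⟨n, hn⟩ := h
  have := mapDomain_support hn
  obtain ⟨m, -, hm⟩ := Finset.mem_image.mp this
  exact ⟨m, hm⟩

lemma child_wf : WellFounded (child : Tr K → Tr K → Prop) := by
  refine ⟨fun a => ?_⟩
  induction a with
  | leaf n => exact ⟨_, fun g ⟨m, hm⟩ => by simp [y] at hm⟩
  | node t c ih =>
    refine ⟨_, fun g hg => ?_⟩
    obtain ⟨m, rfl⟩ := child_node hg
    exact ih m

def Dn (a : Tr K) : Set (Tr K) := {g | Relation.ReflTransGen child g a}

lemma Dn_self (a : Tr K) : a ∈ Dn a := Relation.ReflTransGen.refl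

lemma Dn_child {a b g : Tr K} (hb : b ∈ Dn a) (h : child g b) : g ∈ Dn a :=
  Relation.ReflTransGen.head h hb

lemma Dn_ne {a b g : Tr K} (hb : b ∈ Dn a) (h : child g b) : g ≠ a := by
  rintro rfl
  have h1 : Relation.TransGen child g g := Relation.TransGen.head' h hb
  exact (child_wf.transGen.irrefl).irrefl g h1

lemma Dn_count (a : Tr K) : (Dn a).Countable := by
  refine child_wf.induction (C := fun a => (Dn a).Countable) a fun a ih => ?_
  have h1 : {g | child g a}.Countable := by
    have : {g | child g a} = ⋃ n, ((y a n).support : Set (Tr K)) := by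
      ext g; simp [child]
    rw [this]
    exact Set.countable_iUnion fun n => (y a n).support.countable_toSet
  refine ((h1.biUnion fun g hg => ih g hg).insert a).mono fun g hg => ?_
  rcases Relation.ReflTransGen.cases_tail hg with h | ⟨c, h1, h2⟩
  · exact Or.inl h.symm
  · exact Or.inr (Set.mem_biUnion h2 h1)

noncomputable def pr (u : Tr K →₀ K) (f : Tr K → K) : K := linearCombination K f u

lemma pr_congr {u : Tr K →₀ K} {f g : Tr K → K} (h : ∀ a ∈ u.support, f a = g a) :
    pr u f = pr u g := by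
  unfold pr
  rw [linearCombination_apply, linearCombination_apply]
  exact Finsupp.sum_congr fun a ha => by rw [h a ha]

lemma generic (hK : #K = 𝔠) (D : Set (Tr K)) (hD : D.Countable) {J : Type} (hJ : #J < 𝔠)
    (u : J → (Tr K →₀ K)) (hu : ∀ j, u j ≠ 0) (hs : ∀ j, ∀ a ∈ (u j).support, a ∈ D) :
    ∃ w : Tr K → K, ∀ j, pr (u j) w ≠ 0 := by
  classical
  obtain ⟨g, hg⟩ := Set.countable_iff_exists_injOn.mp hD
  let p : J → Polynomial K := fun j => (u j).sum fun a x => Polynomial.monomial (g a) x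
  have hp : ∀ j, p j ≠ 0 := by
    intro j h0
    obtain ⟨a, ha⟩ := Finsupp.support_nonempty_iff.mpr (hu j)
    have h1 : (p j).coeff (g a) = u j a := by
      simp only [p, Finsupp.sum, Polynomial.finset_sum_coeff, Polynomial.coeff_monomial]
      rw [Finset.sum_eq_single a]
      · simp
      · intro b hb hba
        rw [if_neg]
        exact fun h => hba (hg (hs j b hb) (hs j a ha) h)
      · exact fun h => absurd ha h
    rw [h0] at h1
    exact (Finsupp.mem_support_iff.mp ha) (by simpa using h1.symm)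
  have hlt : #(⋃ j, {t | (p j).IsRoot t} : Set K) < #K := by
    refine lt_of_le_of_lt mk_iUnion_le_sum_mk ?_
    refine lt_of_le_of_lt (sum_le_sum _ (fun _ => ℵ₀) fun j =>
      (Polynomial.finite_setOf_isRoot (hp j)).lt_aleph0.le) ?_
    rw [sum_const', hK]
    exact mul_lt_of_lt aleph0_le_continuum hJ aleph0_lt_continuum
  obtain ⟨t, ht⟩ : ∃ t, t ∉ (⋃ j, {t | (p j).IsRoot t} : Set K) := by
    by_contra hc
    push Not at hc
    rw [Set.eq_univ_of_forall hc, mk_univ] at hlt
    exact lt_irrefl _ hlt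
  refine ⟨fun a => t ^ g a, fun j h0 => ht (Set.mem_iUnion.mpr ⟨j, ?_⟩)⟩
  simp only [Set.mem_setOf_eq, Polynomial.IsRoot, p, Finsupp.sum, Polynomial.eval_finset_sum,
    Polynomial.eval_monomial]
  simpa [pr, linearCombination_apply, Finsupp.sum] using h0

lemma pr_lc (v : ℕ → (Tr K →₀ K)) (c : ℕ →₀ K) (f : Tr K → K) :
    pr (linearCombination K v c) f = linearCombination K (fun n => pr (v n) f) c := by
  unfold pr
  rw [apply_linearCombination]
  rfl

lemma exists_kill (v : ℕ → (Tr K →₀ K)) (F : Finset (Tr K → K)) :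
    ∃ c : ℕ →₀ K, c ≠ 0 ∧ ∀ f ∈ F, linearCombination K (fun n => pr (v n) f) c = 0 := by
  by_contra hc
  push Not at hc
  let L : (ℕ →₀ K) →ₗ[K] (F → K) :=
    LinearMap.pi fun f : F => linearCombination K (fun n => pr (v n) f.1)
  have hL : Function.Injective L := by
    rw [← LinearMap.ker_eq_bot, LinearMap.ker_eq_bot']
    intro c h0
    by_contra hne
    obtain ⟨f, hf, h⟩ := hc c hne
    exact h (congrFun h0 ⟨f, hf⟩)
  haveI : Module.Finite K (ℕ →₀ K) := Module.Finite.of_injective L hL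
  have := Module.Finite.finite_basis (Finsupp.basisSingleOne (ι := ℕ) (R := K))
  exact not_finite ℕ

def Q [TopologicalSpace K] (a : Tr K) (s : ℕ → K) (S : Set (Tr K → K)) (x : Tr K → K) : Prop :=
  (∀ b ∈ Dn a, LinearIndependent K (y b) → ∀ F : Finset (Tr K → K), (F : Set _) ⊆ S →
    ∃ c : ℕ →₀ K, (∀ f ∈ F, linearCombination K (fun n => pr (y b n) f) c = 0) ∧
      linearCombination K (fun n => pr (y b n) x) c ≠ 0) ∧
  (y a 0 ≠ 0 → pr (y a 0) x ≠ 0) ∧
  ¬ Tendsto (fun N => ∑ n ∈ Finset.range N, s n * pr (y a n) x) atTop (𝓝 (x a))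

lemma supp_lc {b g : Tr K} {c : ℕ →₀ K} (h : g ∈ (linearCombination K (y b) c).support) :
    child g b := by
  classical
  by_contra hc
  apply Finsupp.mem_support_iff.mp h
  rw [linearCombination_apply, Finsupp.sum, Finsupp.finset_sum_apply]
  refine Finset.sum_eq_zero fun n _ => ?_
  have : y b n g = 0 := by
    by_contra h0
    exact hc ⟨n, Finsupp.mem_support_iff.mpr h0⟩
  simp [this]

lemma stage [TopologicalSpace K] [T2Space K] (hK : #K = 𝔠) (a : Tr K) (s : ℕ → K)
    (S : Set (Tr K → K)) (hS : #S < 𝔠) : ∃ x, Q a s S x := by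
  classical
  choose c hc0 hc using fun (b : Tr K) (F : Finset (Tr K → K)) => exists_kill (y b) F
  let J1 := {p : Tr K × Finset (Tr K → K) //
    p.1 ∈ Dn a ∧ LinearIndependent K (y p.1) ∧ (p.2 : Set _) ⊆ S}
  have hJ1 : #J1 < 𝔠 := by
    have h1 : #J1 ≤ #(Dn a × Finset S) := by
      refine mk_le_of_injective (f := fun p => (⟨p.1.1, p.2.1⟩, p.1.2.subtype (· ∈ S))) ?_
      rintro ⟨⟨b, F⟩, h1, h2, h3⟩ ⟨⟨b', F'⟩, h1', h2', h3'⟩ h
      simp only [Prod.mk.injEq, Subtype.mk.injEq] at h
      obtain ⟨rfl, h⟩ := h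
      have : F = F' := by
        ext f
        constructor
        · intro hf
          have : (⟨f, h3 hf⟩ : S) ∈ F.subtype (· ∈ S) := Finset.mem_subtype.mpr hf
          rw [h] at this
          exact Finset.mem_subtype.mp this
        · intro hf
          have : (⟨f, h3' hf⟩ : S) ∈ F'.subtype (· ∈ S) := Finset.mem_subtype.mpr hf
          rw [← h] at this
          exact Finset.mem_subtype.mp this
      subst this
      rfl
    refine lt_of_le_of_lt h1 ?_
    rw [mk_prod, lift_id, lift_id]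
    refine mul_lt_of_lt aleph0_le_continuum
      (lt_of_le_of_lt (Cardinal.mk_le_aleph0_iff.mpr (Dn_count a).to_subtype) aleph0_lt_continuum) ?_
    rcases finite_or_infinite S with h | h
    · exact lt_trans (lt_aleph0_of_finite _) aleph0_lt_continuum
    · rwa [mk_finset_of_infinite]
  let J2 := {_u : Unit // y a 0 ≠ 0}
  have hJ : #(J1 ⊕ J2) < 𝔠 := by
    rw [mk_sum, lift_id, lift_id]
    exact add_lt_of_lt aleph0_le_continuum hJ1
      (lt_trans (lt_aleph0_of_finite _) aleph0_lt_continuum)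
  let u : J1 ⊕ J2 → (Tr K →₀ K) := fun j => match j with
    | Sum.inl p => linearCombination K (y p.1.1) (c p.1.1 p.1.2)
    | Sum.inr _ => y a 0
  have hu : ∀ j, u j ≠ 0 := by
    rintro (p | p)
    · intro h0
      exact hc0 _ _ (linearIndependent_iff.mp p.2.2.1 _ h0)
    · exact p.2
  have hs : ∀ j, ∀ g ∈ (u j).support, g ∈ Dn a ∧ g ≠ a := by
    rintro (p | p) g hg
    · exact ⟨Dn_child p.2.1 (supp_lc hg), Dn_ne p.2.1 (supp_lc hg)⟩
    · exact ⟨Dn_child (Dn_self a) ⟨0, hg⟩, Dn_ne (Dn_self a) ⟨0, hg⟩⟩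
  obtain ⟨w, hw⟩ := generic hK (Dn a) (Dn_count a) hJ u hu fun j g hg => (hs j g hg).1
  obtain ⟨r, hr⟩ : ∃ r : K, ¬ Tendsto (fun N => ∑ n ∈ Finset.range N, s n * pr (y a n) w)
      atTop (𝓝 r) := by
    by_contra hc
    push Not at hc
    exact zero_ne_one (tendsto_nhds_unique (hc 0) (hc 1))
  have hx : ∀ j, pr (u j) (Function.update w a r) ≠ 0 := by
    intro j
    rw [pr_congr (g := w) fun g hg => Function.update_of_ne (hs j g hg).2 _ _]
    exact hw j
  refine ⟨Function.update w a r, ?_, ?_, ?_⟩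
  · intro b hb hli F hF
    refine ⟨c b F, hc b F, ?_⟩
    rw [← pr_lc]
    exact hx (Sum.inl ⟨(b, F), hb, hli, hF⟩)
  · intro h
    exact hx (Sum.inr ⟨(), h⟩)
  · have : ∀ n, pr (y a n) (Function.update w a r) = pr (y a n) w := fun n =>
      pr_congr fun g hg => Function.update_of_ne (Dn_ne (Dn_self a) ⟨n, hg⟩) _ _
    simp only [this, Function.update_self]
    exact hr

lemma recur {I X : Type} [LinearOrder I] [WellFoundedLT I] (P : I → Set X → X → Prop)
    (h : ∀ i S, ∃ x, P i S x) : ∃ w : I → X, ∀ i, P i (w '' Set.Iio i) (w i) := by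
  choose g hg using h
  let w : I → X := (wellFounded_lt (α := I)).fix fun i rec =>
    g i (Set.range fun j : Set.Iio i => rec j.1 j.2)
  refine ⟨w, fun i => ?_⟩
  have h1 : w i = g i (Set.range fun j : Set.Iio i => w j.1) := WellFounded.fix_eq _ _ _
  have h2 : (Set.range fun j : Set.Iio i => w j.1) = w '' Set.Iio i := by
    ext x; simp
  rw [h1, h2]
  exact hg _ _

lemma family [TopologicalSpace K] [T2Space K] (hK : #K = 𝔠) :
    ∃ w : Tr K × (ℕ → K) → (Tr K → K),
      (∀ b, LinearIndependent K (y b) → LinearIndependent K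
        (fun i : {i : Tr K × (ℕ → K) // b ∈ Dn i.1} => fun n => pr (y b n) (w i.1))) ∧
      (∀ i, y i.1 0 ≠ 0 → pr (y i.1 0) (w i) ≠ 0) ∧
      ∀ i, ¬ Tendsto (fun N => ∑ n ∈ Finset.range N, i.2 n * pr (y i.1 n) (w i)) atTop
        (𝓝 (w i i.1)) := by
  classical
  obtain ⟨_, _, hord⟩ := exists_ord_eq_type_lt (Tr K × (ℕ → K))
  have hI : #(Tr K × (ℕ → K)) ≤ 𝔠 := by
    rw [mk_prod, lift_id, lift_id, ← Cardinal.power_def, mk_nat, hK]
    exact (mul_le_mul' (card_Tr hK) le_rfl).trans (by simp)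
  obtain ⟨w, hw⟩ := recur (I := Tr K × (ℕ → K)) (fun i S x => #S < 𝔠 → Q i.1 i.2 S x) (by
    intro i S
    by_cases hS : #S < 𝔠
    · obtain ⟨x, hx⟩ := stage hK i.1 i.2 S hS
      exact ⟨x, fun _ => hx⟩
    · exact ⟨0, fun h => absurd h hS⟩)
  have hw' : ∀ i, Q i.1 i.2 (w '' Set.Iio i) (w i) := fun i =>
    hw i (lt_of_le_of_lt mk_image_le (lt_of_lt_of_le (mk_Iio_lt i hord) hI))
  refine ⟨w, fun b hb => ?_, fun i => (hw' i).2.1, fun i => (hw' i).2.2⟩
  rw [linearIndependent_iff']
  intro s g hg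
  by_contra hc
  push Not at hc
  obtain ⟨i1, hi1, hg1⟩ := hc
  obtain ⟨i0, hi0, hmax⟩ := (s.filter fun i => g i ≠ 0).exists_max_image (fun i => i.1)
    ⟨i1, Finset.mem_filter.mpr ⟨hi1, hg1⟩⟩
  obtain ⟨c, hc1, hc2⟩ := (hw' i0.1).1 b i0.2 hb
    (((s.filter fun i => g i ≠ 0).erase i0).image fun i => w i.1) (by
      intro f hf
      obtain ⟨i, hi, rfl⟩ := Finset.mem_image.mp hf
      obtain ⟨h1, h2⟩ := Finset.mem_erase.mp hi
      exact ⟨i.1, lt_of_le_of_ne (hmax i h2) fun h => h1 (Subtype.ext h), rfl⟩)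
  let M : (ℕ → K) →ₗ[K] K :=
    { toFun := fun r => linearCombination K r c
      map_add' := fun r r' => by simp [linearCombination_apply, Finsupp.sum, mul_add,
        Finset.sum_add_distrib]
      map_smul' := fun k r => by simp [linearCombination_apply, Finsupp.sum, Finset.mul_sum,
        mul_left_comm] }
  have h1 := congrArg M hg
  rw [map_sum, map_zero, Finset.sum_eq_single i0] at h1
  · rw [map_smul, smul_eq_mul, mul_eq_zero] at h1
    rcases h1 with h1 | h1
    · exact (Finset.mem_filter.mp hi0).2 h1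
    · exact hc2 h1
  · intro i hi hne
    rw [map_smul, smul_eq_mul, mul_eq_zero]
    by_cases h0 : g i = 0
    · exact Or.inl h0
    · exact Or.inr (hc1 _ (Finset.mem_image.mpr
        ⟨i, Finset.mem_erase.mpr ⟨hne, Finset.mem_filter.mpr ⟨hi, h0⟩⟩, rfl⟩))
  · exact fun h => absurd (Finset.mem_filter.mp hi0).1 h

open Classical in
noncomputable def ex (τ : Tr K → (ℕ → K) →ₗ[K] K) (w : Tr K → K) : Tr K → K
  | .leaf n => if LinearIndependent K (y (.leaf n : Tr K)) then τ (.leaf n) 0 else w (.leaf n)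
  | .node t c => if LinearIndependent K (y (.node t c)) then
      τ (.node t c) (fun n => linearCombination K (fun m => ex τ w (t m)) (c n))
    else w (.node t c)

open Classical in
lemma ex_eq (τ : Tr K → (ℕ → K) →ₗ[K] K) (w : Tr K → K) (b : Tr K) :
    ex τ w b = if LinearIndependent K (y b) then τ b (fun n => pr (y b n) (ex τ w)) else w b := by
  cases b with
  | leaf n =>
    rw [ex]
    congr 2
  | node t c =>
    rw [ex]
    congr 2
    funext n
    simp only [y, pr]
    rw [linearCombination_mapDomain]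
    rfl

theorem dual_pair [TopologicalSpace K] [T2Space K] (hK : #K = 𝔠) :
    ∃ Y : Submodule K (Tr K → K),
      (∀ u : Tr K →₀ K, u ≠ 0 → ∃ f ∈ Y, pr u f ≠ 0) ∧
      ∀ x : ℕ → (Tr K →₀ K), LinearIndependent K x → ∃ a : Tr K,
        (∀ f ∈ Y, (∀ n, pr (x n) f = 0) → f a = 0) ∧
        ∀ s : ℕ → K, ∃ f ∈ Y,
          ¬ Tendsto (fun N => ∑ n ∈ Finset.range N, s n * pr (x n) f) atTop (𝓝 (f a)) := by
  classical
  obtain ⟨w, h1, h2, h3⟩ := family hK
  have hτ : ∀ b, ∃ τ : (ℕ → K) →ₗ[K] K, LinearIndependent K (y b) →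
      ∀ i : Tr K × (ℕ → K), b ∈ Dn i.1 → τ (fun n => pr (y b n) (w i)) = w i b := by
    intro b
    by_cases hb : LinearIndependent K (y b)
    · obtain ⟨g, hg⟩ := LinearMap.exists_leftInverse_of_injective _
        (LinearMap.ker_eq_bot.mpr (h1 b hb))
      refine ⟨(linearCombination K fun i : {i : Tr K × (ℕ → K) // b ∈ Dn i.1} => w i.1 b) ∘ₗ g,
        fun _ i hi => ?_⟩
      have := LinearMap.congr_fun hg (Finsupp.single ⟨i, hi⟩ 1)
      simp only [LinearMap.comp_apply, linearCombination_single, one_smul, LinearMap.id_apply]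
        at this
      rw [LinearMap.comp_apply, this]
      simp
    · exact ⟨0, fun h => absurd h hb⟩
  choose τ hτ using hτ
  let Y : Submodule K (Tr K → K) :=
    { carrier := {f | ∀ b, LinearIndependent K (y b) → f b = τ b (fun n => pr (y b n) f)}
      zero_mem' := fun b _ => by
        have : (fun n => pr (y b n) (0 : Tr K → K)) = 0 := by
          funext n; simp [pr, linearCombination_apply]
        rw [this]; simp
      add_mem' := fun {f g} hf hg b hb => by
        rw [Pi.add_apply, hf b hb, hg b hb, ← map_add]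
        congr 1
        funext n
        simp [pr, linearCombination_apply, Finsupp.sum, mul_add, Finset.sum_add_distrib]
      smul_mem' := fun k f hf b hb => by
        rw [Pi.smul_apply, hf b hb, ← map_smul]
        congr 1
        funext n
        simp [pr, linearCombination_apply, Finsupp.sum, Finset.mul_sum, mul_left_comm] }
  have hY : ∀ i, ex τ (w i) ∈ Y := by
    intro i b hb
    rw [ex_eq, if_pos hb]
  have hag : ∀ i b, b ∈ Dn i.1 → ex τ (w i) b = w i b := by
    intro i b
    refine child_wf.induction (C := fun b => b ∈ Dn i.1 → ex τ (w i) b = w i b) b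
      fun b ih hb => ?_
    rw [ex_eq]
    split_ifs with hli
    · rw [← hτ b hli i hb]
      congr 1
      funext n
      exact pr_congr fun g hg => ih g ⟨n, hg⟩ (Dn_child hb ⟨n, hg⟩)
    · rfl
  have hpr : ∀ (i : Tr K × (ℕ → K)) n, pr (y i.1 n) (ex τ (w i)) = pr (y i.1 n) (w i) :=
    fun i n => pr_congr fun g hg => hag i g (Dn_child (Dn_self _) ⟨n, hg⟩)
  refine ⟨Y, fun u hu => ?_, fun x hx => ?_⟩
  · obtain ⟨a, ha⟩ := y_surj fun _ => u
    have ha0 : y a 0 = u := congrFun ha 0
    refine ⟨_, hY (a, 0), ?_⟩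
    rw [← ha0, hpr (a, 0) 0]
    exact h2 (a, 0) (by rwa [ha0])
  · obtain ⟨a, rfl⟩ := y_surj x
    refine ⟨a, fun f hf h0 => ?_, fun s => ⟨_, hY (a, s), ?_⟩⟩
    · rw [hf a hx]
      have : (fun n => pr (y a n) f) = 0 := funext h0
      rw [this, map_zero]
    · have := h3 (a, s)
      simp only [← hpr (a, s)] at this
      rwa [hag (a, s) a (Dn_self a)]

noncomputable def bil (Y : Submodule K (Tr K → K)) : (Tr K →₀ K) →ₗ[K] Y →ₗ[K] K :=
  LinearMap.mk₂ K (fun u f => pr u f.1)
    (fun u v f => by simp [pr])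
    (fun k u f => by simp [pr])
    (fun u f g => by simp [pr, linearCombination_apply, Finsupp.sum, mul_add,
      Finset.sum_add_distrib])
    (fun k u f => by simp [pr, linearCombination_apply, Finsupp.sum, Finset.mul_sum,
      mul_left_comm])

lemma bil_apply (Y : Submodule K (Tr K → K)) (u : Tr K →₀ K) (f : Y) : bil Y u f = pr u f.1 := rfl

lemma interp {E F : Type} [AddCommGroup E] [Module K E] [AddCommGroup F] [Module K F]
    (B : E →ₗ[K] F →ₗ[K] K) (W : Submodule K E) (v : E)
    (h : ∀ f, (∀ u ∈ W, B u f = 0) → B v f = 0) (G : Set F) (hG : G.Finite) :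
    ∃ u ∈ W, ∀ f ∈ G, B u f = B v f := by
  classical
  haveI := hG.fintype
  let L : E →ₗ[K] (G → K) := LinearMap.pi fun f : G => B.flip f.1
  by_cases hm : L v ∈ W.map L
  · obtain ⟨u, hu, h1⟩ := hm
    exact ⟨u, hu, fun f hf => congrFun h1 ⟨f, hf⟩⟩
  · exfalso
    obtain ⟨φ, h1, h2⟩ := Submodule.exists_dual_map_eq_bot_of_notMem hm inferInstance
    have h3 : ∀ u, φ (L u) = B u (∑ f : G, φ (fun j => if f = j then 1 else 0) • f.1) := by
      intro u
      rw [LinearMap.pi_apply_eq_sum_univ φ (L u), map_sum]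
      refine Finset.sum_congr rfl fun f _ => ?_
      simp [L, mul_comm]
    apply h1
    rw [h3]
    refine h _ fun u hu => ?_
    rw [← h3]
    have : φ (L u) ∈ Submodule.map φ (W.map L) := ⟨L u, ⟨u, hu, rfl⟩, rfl⟩
    rw [h2] at this
    exact this

lemma mem_clos {k E F : Type} [NormedField k] [AddCommGroup E] [Module k E] [AddCommGroup F]
    [Module k F] (B : E →ₗ[k] F →ₗ[k] k) (W : Submodule k (WeakBilin B)) (v : WeakBilin B)
    (h : ∀ f, (∀ u ∈ W, B u f = 0) → B v f = 0) : v ∈ W.topologicalClosure := by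
  rw [← SetLike.mem_coe, Submodule.topologicalClosure_coe, mem_closure_iff_nhds]
  intro t ht
  rw [nhds_induced, nhds_pi] at ht
  obtain ⟨t', ht', hsub⟩ := ht
  obtain ⟨G, hG, V, hV, hsub'⟩ := Filter.mem_pi.mp ht'
  obtain ⟨u, hu, hu'⟩ := interp B W v h G hG
  refine ⟨u, hsub (hsub' fun f hf => ?_), hu⟩
  have := mem_of_mem_nhds (hV f)
  show B u f ∈ V f
  rw [hu' f hf]
  exact this

lemma card_rc (k : Type) [RCLike k] : #k = 𝔠 := by
  apply le_antisymm
  · refine (mk_le_of_injective (f := fun z : k => (RCLike.re z, RCLike.im z)) ?_).trans ?_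
    · intro z w h
      simp only [Prod.mk.injEq] at h
      exact RCLike.ext h.1 h.2
    · simp [Cardinal.mk_real]
  · rw [← Cardinal.mk_real]
    exact mk_le_of_injective (RCLike.ofReal_injective (K := k))

lemma li_of {k U : Type} [Field k] [AddCommGroup U] [Module k U] [TopologicalSpace U] (x : ℕ → U)
    (hx : ∃! s : ℕ → k, Tendsto (fun N => ∑ n ∈ Finset.range N, s n • x n) atTop (𝓝 0)) :
    LinearIndependent k x := by
  rw [linearIndependent_iff]
  intro c hc
  obtain ⟨s, -, hs⟩ := hx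
  have e1 : (c : ℕ → k) = s := by
    apply hs
    refine tendsto_const_nhds.congr' ?_
    filter_upwards [eventually_gt_atTop (c.support.sup id)] with N hN
    rw [← hc, linearCombination_apply, Finsupp.sum]
    refine Finset.sum_subset (fun n hn => Finset.mem_range.mpr
      (lt_of_le_of_lt (Finset.le_sup (f := id) hn) hN)) fun n _ hn => ?_
    rw [Finsupp.notMem_support_iff.mp hn, zero_smul]
  have e2 : (0 : ℕ → k) = s := by
    apply hs
    simpa using tendsto_const_nhds
  ext n
  rw [e1, ← e2]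
  rfl

theorem main (k : Type) [RCLike k] : ∃ Y : Submodule k (Tr k → k),
    Function.Injective (bil Y) ∧ ∀ x : ℕ → WeakBilin (bil Y),
      ¬ ∀ v ∈ (Submodule.span k (Set.range x)).topologicalClosure,
        ∃! s : ℕ → k, Tendsto (fun N => ∑ n ∈ Finset.range N, s n • x n) atTop (𝓝 v) := by
  classical
  obtain ⟨Y, h1, h2⟩ := dual_pair (card_rc k)
  have hinj : Function.Injective (bil Y) := by
    rw [← LinearMap.ker_eq_bot, LinearMap.ker_eq_bot']
    intro u hu
    by_contra hne
    obtain ⟨f, hf, h⟩ := h1 u hne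
    exact h (LinearMap.congr_fun hu ⟨f, hf⟩)
  refine ⟨Y, hinj, fun x hx => ?_⟩
  have hli : LinearIndependent k (show ℕ → (Tr k →₀ k) from x) :=
    li_of (U := WeakBilin (bil Y)) x (hx 0 (Submodule.zero_mem _))
  obtain ⟨a, ha1, ha2⟩ := h2 x hli
  have hp : ∀ f : Tr k → k, pr (Finsupp.single a 1) f = f a := fun f => by simp [pr]
  have hmem : (show WeakBilin (bil Y) from Finsupp.single a 1) ∈
      (Submodule.span k (Set.range x)).topologicalClosure := by
    refine mem_clos _ _ _ fun f hf => ?_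
    refine (hp f.1).trans (ha1 f.1 f.2 fun n => ?_)
    exact hf (x n) (Submodule.subset_span ⟨n, rfl⟩)
  obtain ⟨s, hs, -⟩ := hx _ hmem
  obtain ⟨f, hf, hn⟩ := ha2 s
  apply hn
  have := (WeakBilin.tendsto_iff_forall_eval_tendsto _ hinj).mp hs ⟨f, hf⟩
  rw [← hp f]
  refine Tendsto.congr (fun N => ?_) this
  let M : WeakBilin (bil Y) →ₗ[k] k := (bil Y).flip ⟨f, hf⟩
  show M (∑ n ∈ Finset.range N, s n • x n) = _
  rw [map_sum]
  refine Finset.sum_congr rfl fun n _ => ?_
  rw [map_smul]
  rfl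

lemma not_fin (k : Type) [Field k] : ¬ Module.Finite k (Tr k →₀ k) := by
  intro h
  have := Module.Finite.finite_basis (Finsupp.basisSingleOne (ι := Tr k) (R := k))
  have h2 : Finite ℕ := Finite.of_injective (Tr.leaf : ℕ → Tr k) fun a b h => by
    simpa using h
  exact not_finite ℕ

end Pool.Agent.H29.NoBasic
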