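import Mathlib

set_option autoImplicit false

namespace Pool.Agent.H29.NoDiff

open Set Filter Topology

variable {K : Type*} [MetricSpace K] [CompactSpace K]

def O (l : C(K, ℝ)) (m : ℕ) : Set C(K, ℝ) :=
  {f | ∃ r > (0 : ℝ), r * m ≤ 1 ∧ ∃ η > 0, ∀ S : Set K, IsPreconnected S →
    (∀ a ∈ S, ∀ b ∈ S, dist a b ≤ m * r) → (∃ p ∈ S, ∃ q ∈ S, l p + r ≤ l q) →
    ∃ a ∈ S, ∃ b ∈ S, m * r + η ≤ f a - f b}

lemma O_open (l : C(K, ℝ)) (m : ℕ) : IsOpen (O l m) := by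
  rw [Metric.isOpen_iff]
  rintro f ⟨r, r0, r1, η, η0, h⟩
  refine ⟨η / 4, by positivity, fun g hg => ⟨r, r0, r1, η / 2, by positivity, ?_⟩⟩
  intro S s1 s2 s3
  obtain ⟨a, ha, b, hb, hab⟩ := h S s1 s2 s3
  refine ⟨a, ha, b, hb, ?_⟩
  have h1 := abs_le.1 ((ContinuousMap.dist_apply_le_dist (f := g) (g := f) a).trans
    (Metric.mem_ball.1 hg).le)
  have h2 := abs_le.1 ((ContinuousMap.dist_apply_le_dist (f := g) (g := f) b).trans
    (Metric.mem_ball.1 hg).le)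
  linarith [h1.1, h2.2]

lemma O_dense (l : C(K, ℝ)) (m : ℕ) : Dense (O l m) := by
  rw [Metric.dense_iff]
  intro f ε ε0
  obtain ⟨δ, δ0, hδ⟩ := Metric.uniformContinuous_iff.1
    (CompactSpace.uniformContinuous_of_continuous f.continuous) (ε / 4) (by positivity)
  obtain ⟨r, r0, r1, r2, r3⟩ : ∃ r : ℝ, 0 < r ∧ r * m ≤ 1 ∧ m * r < δ ∧ m * r ≤ ε / 4 := by
    set u := min 1 (min (δ / 2) (ε / 4)) with hu
    have u0 : 0 < u := by positivity
    have u1 : u ≤ 1 := min_le_left _ _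
    have u2 : u ≤ δ / 2 := (min_le_right _ _).trans (min_le_left _ _)
    have u3 : u ≤ ε / 4 := (min_le_right _ _).trans (min_le_right _ _)
    have : (m : ℝ) * (u / (m + 1)) ≤ u := by
      rw [← mul_div_assoc, div_le_iff₀ (by positivity)]
      nlinarith
    exact ⟨u / (m + 1), by positivity, by linarith, by linarith, by linarith⟩
  let g : C(K, ℝ) := ⟨fun x => f x + ε / 2 * Real.cos (2 * Real.pi * (l x / r)), by fun_prop⟩
  refine ⟨g, ?_, r, r0, r1, ε / 4, by positivity, ?_⟩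
  · refine lt_of_le_of_lt ((ContinuousMap.dist_le (C := ε / 2) (by positivity)).2 fun x => ?_)
      (by linarith)
    simp only [g, ContinuousMap.coe_mk, Real.dist_eq, add_sub_cancel_left, abs_mul]
    rw [abs_of_pos (by positivity : 0 < ε / 2)]
    exact mul_le_of_le_one_right (by positivity) (Real.abs_cos_le_one _)
  · rintro S s1 s2 ⟨p, hp, q, hq, hpq⟩
    have iv := s1.intermediate_value hp hq l.continuous.continuousOn
    have key : ∀ c : ℝ, ∃ a ∈ S, ∃ n : ℤ, l a / r = n + c := by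
      intro c
      have h1 := Int.le_ceil (l p / r - c)
      have h2 := Int.ceil_lt_add_one (l p / r - c)
      have e : l p = l p / r * r := by field_simp
      obtain ⟨a, ha, hl⟩ := iv (show (⌈l p / r - c⌉ + c) * r ∈ Icc (l p) (l q) from
        ⟨by nlinarith, by nlinarith⟩)
      exact ⟨a, ha, ⌈l p / r - c⌉, by rw [hl]; field_simp⟩
    obtain ⟨a, ha, n, hn⟩ := key 0
    obtain ⟨b, hb, k, hk⟩ := key (1 / 2)
    refine ⟨a, ha, b, hb, ?_⟩
    have c1 : Real.cos (2 * Real.pi * (l a / r)) = 1 := by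
      rw [hn, add_zero, mul_comm, Real.cos_int_mul_two_pi]
    have c2 : Real.cos (2 * Real.pi * (l b / r)) = -1 := by
      rw [hk, show 2 * Real.pi * (k + 1 / 2) = k * (2 * Real.pi) + Real.pi by ring,
        Real.cos_int_mul_two_pi_add_pi]
    have := abs_lt.1 (hδ (lt_of_le_of_lt (s2 a ha b hb) r2))
    simp only [g, ContinuousMap.coe_mk, c1, c2]
    linarith [this.1]

lemma notdiff {l f : C(K, ℝ)} (hf : ∀ m, f ∈ O l m) {c : ℝ → K} {I : Set ℝ} {t : ℝ}
    (hI : I.OrdConnected) (hne : (interior I).Nonempty) (ht : t ∈ I) (hc : ContinuousOn c I)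
    {A : ℝ} (hA : ∀ᶠ s in 𝓝[I] t, dist (c s) (c t) ≤ A * |s - t|)
    {v : ℝ} (hv : v ≠ 0) (hl : HasDerivWithinAt (l ∘ c) v I t) :
    ¬ DifferentiableWithinAt ℝ (f ∘ c) I t := by
  intro hd
  obtain ⟨B, hB⟩ := hd.hasFDerivWithinAt.isBigO_sub.bound
  have κ0 : 0 < |v| / 2 := by positivity
  have hκ : ∀ᶠ s in 𝓝[I] t, |v| / 2 * |s - t| ≤ |l (c s) - l (c t)| := by
    filter_upwards [hl.isLittleO.bound κ0] with s hs
    simp only [Function.comp, Real.norm_eq_abs, smul_eq_mul] at hs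
    have := abs_sub_abs_le_abs_sub ((s - t) * v) (l (c s) - l (c t))
    rw [abs_sub_comm ((s - t) * v), abs_mul] at this
    linarith
  generalize |v| / 2 = κ at κ0 hκ
  obtain ⟨δ, δ0, hδ⟩ := Metric.mem_nhdsWithin_iff.1 ((hA.and hB).and hκ)
  obtain ⟨u, uI, ut, uδ⟩ : ∃ u ∈ I, u ≠ t ∧ |u - t| < δ := by
    obtain ⟨u, ⟨h1, h2⟩, h3⟩ := accPt_iff_nhds.1 (uniqueDiffOn_convex hI.convex hne t ht).accPt _
      (Metric.ball_mem_nhds t δ0)
    exact ⟨u, h2, h3, h1⟩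
  set w := |u - t| with hw
  have w0 : 0 < w := abs_pos.2 (sub_ne_zero.2 ut)
  obtain ⟨m, hm⟩ := exists_nat_gt (max (1 / (κ * w)) (2 * max |A| |B| / κ))
  have m1 := (le_max_left _ _).trans_lt hm
  have m2 := (le_max_right _ _).trans_lt hm
  rw [div_lt_iff₀ (by positivity)] at m1 m2
  obtain ⟨r, r0, r1, η, η0, h⟩ := hf m
  have m0 : (0 : ℝ) < m := by
    by_contra h
    nlinarith [mul_pos κ0 w0]
  have rw' : r / κ ≤ w := by
    rw [div_le_iff₀ κ0]
    nlinarith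
  set θ := r / κ / w with hθ
  have θ0 : 0 ≤ θ := by positivity
  have θ1 : θ ≤ 1 := by rwa [hθ, div_le_one w0]
  set s := t + θ * (u - t) with hs
  have st : |s - t| = r / κ := by
    rw [hs, add_sub_cancel_left, abs_mul, abs_of_nonneg θ0, hθ, ← hw]
    field_simp
  have sI : s ∈ I := by
    have := hI.convex ht uI (sub_nonneg.2 θ1) θ0 (by ring)
    convert this using 1
    simp only [smul_eq_mul]
    ring
  have sub : uIcc t s ⊆ I := hI.uIcc_subset ht sI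
  have near : ∀ x ∈ uIcc t s, |x - t| ≤ r / κ := fun x hx => st ▸ abs_sub_left_of_mem_uIcc hx
  have P := fun x (hx : x ∈ uIcc t s) => hδ (show x ∈ Metric.ball t δ ∩ I from
    ⟨((near x hx).trans rw').trans_lt uδ, sub hx⟩)
  have bd : ∀ C : ℝ, |C| ≤ max |A| |B| → ∀ x ∈ uIcc t s, C * |x - t| ≤ m * r / 2 := by
    intro C hC x hx
    have h1 := near x hx
    have h2 : C * |x - t| ≤ max |A| |B| * (r / κ) :=
      mul_le_mul ((le_abs_self C).trans hC) h1 (abs_nonneg _) (by positivity)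
    refine h2.trans ?_
    rw [← mul_div_assoc, div_le_iff₀ κ0]
    nlinarith
  obtain ⟨_, ⟨a, ha, rfl⟩, _, ⟨b, hb, rfl⟩, hab⟩ := h (c '' uIcc t s)
    (isPreconnected_uIcc.image c (hc.mono sub)) (by
      rintro _ ⟨a, ha, rfl⟩ _ ⟨b, hb, rfl⟩
      have h1 := (P a ha).1.1.trans (bd A (le_max_left _ _) a ha)
      have h2 := (P b hb).1.1.trans (bd A (le_max_left _ _) b hb)
      linarith [dist_triangle_right (c a) (c b) (c t)]) (by
      have h1 := (P s right_mem_uIcc).2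
      rw [st, mul_div_cancel₀ _ κ0.ne'] at h1
      rcases le_abs'.1 h1 with h | h
      · exact ⟨_, ⟨s, right_mem_uIcc, rfl⟩, _, ⟨t, left_mem_uIcc, rfl⟩, by linarith⟩
      · exact ⟨_, ⟨t, left_mem_uIcc, rfl⟩, _, ⟨s, right_mem_uIcc, rfl⟩, by linarith⟩)
  have h1 := abs_le.1 ((P a ha).1.2.trans (bd B (le_max_right _ _) a ha))
  have h2 := abs_le.1 ((P b hb).1.2.trans (bd B (le_max_right _ _) b hb))
  simp only [Function.comp] at h1 h2
  linarith [h1.2, h2.1]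

lemma gen {ι : Type*} [Countable ι] (l : ι → C(K, ℝ)) :
    IsGδ (⋂ p : ι × ℕ, O (l p.1) p.2) ∧ Dense (⋂ p : ι × ℕ, O (l p.1) p.2) :=
  ⟨IsGδ.iInter fun _ => (O_open _ _).isGδ,
    dense_iInter_of_isOpen (fun _ => O_open _ _) fun _ => O_dense _ _⟩

lemma curve {d : ℕ} {c : ℝ → EuclideanSpace ℝ (Fin d)} {I : Set ℝ} {t : ℝ}
    (hc : DifferentiableWithinAt ℝ c I t) (h1 : ‖derivWithin c I t‖ = 1) :
    ∃ i v, v ≠ 0 ∧ HasDerivWithinAt (fun s => c s i) v I t := by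
  obtain ⟨i, hi⟩ : ∃ i, derivWithin c I t i ≠ 0 := by
    by_contra h
    push Not at h
    have : derivWithin c I t = 0 := by ext i; exact h i
    simp [this] at h1
  exact ⟨i, _, hi, (EuclideanSpace.proj (𝕜 := ℝ) i).hasFDerivAt.comp_hasDerivWithinAt t
    hc.hasDerivWithinAt⟩

end Pool.Agent.H29.NoDiff
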