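import Mathlib

namespace Pool.Agent.H29.PExt

open Filter Topology
open scoped ENNReal

/-- `N` is a complete `p`-norm on the `K`-vector space `Z`. -/
def IsPBanach (K : Type) [RCLike K] (p : ℝ) {Z : Type} [AddCommGroup Z] [Module K Z]
    (N : Z → ℝ) : Prop :=
  (∀ x, 0 ≤ N x) ∧ (∀ x, x ≠ 0 → 0 < N x) ∧ (∀ (a : K) (x : Z), N (a • x) = ‖a‖ * N x) ∧
  (∀ x y, N (x + y) ^ p ≤ N x ^ p + N y ^ p) ∧
  ∀ u : ℕ → Z, (∀ ε : ℝ, 0 < ε → ∃ k, ∀ i j, k ≤ i → k ≤ j → N (u i - u j) ^ p < ε) →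
    ∃ z, Tendsto (fun i => N (u i - z) ^ p) atTop (𝓝 0)

/-- The Lipschitz constant of `f` for the `p`-norm `N`. -/
noncomputable def lip {A Z : Type} [MetricSpace A] [AddCommGroup Z] (N : Z → ℝ) (f : A → Z) :
    ℝ≥0∞ :=
  ⨆ (x : A) (y : A) (_ : x ≠ y), ENNReal.ofReal (N (f x - f y) / dist x y)

/-- The `p`-trace of `A` in `M`, where `A` sits in `M` through `ι`. -/
noncomputable def tr (K : Type) [RCLike K] (p : ℝ) {A M : Type} [MetricSpace A] [MetricSpace M]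
    (ι : A → M) : ℝ≥0∞ :=
  sInf {C | 0 < C ∧ ∀ (Z : Type) [AddCommGroup Z] [Module K Z] (N : Z → ℝ), IsPBanach K p N →
    ∀ f : A → Z, lip N f < ⊤ → ∃ g : M → Z, (∀ a, g (ι a) = f a) ∧ lip N g ≤ C * lip N f}

/-- The absolute `p`-extendability constant. -/
noncomputable def ae (K : Type) [RCLike K] (p : ℝ) (A : Type) [MetricSpace A] : ℝ≥0∞ :=
  ⨆ (M : Type) (_ : MetricSpace M) (ι : A → M) (_ : Isometry ι), tr K p ι

section lip
variable {A Z : Type} [MetricSpace A] [AddCommGroup Z] {N : Z → ℝ} {f : A → Z}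

lemma lip_le {C : ℝ} (h : ∀ x y, x ≠ y → N (f x - f y) ≤ C * dist x y) :
    lip N f ≤ ENNReal.ofReal C :=
  iSup_le fun x => iSup_le fun y => iSup_le fun hxy =>
    ENNReal.ofReal_le_ofReal ((div_le_iff₀ (dist_pos.2 hxy)).2 (h x y hxy))

lemma le_lip {x y : A} (hxy : x ≠ y) : ENNReal.ofReal (N (f x - f y) / dist x y) ≤ lip N f :=
  le_iSup_of_le x (le_iSup_of_le y (le_iSup_of_le hxy le_rfl))

lemma le_of_lip {C : ℝ} (hC : 0 ≤ C) (h : lip N f ≤ ENNReal.ofReal C) {x y : A} (hxy : x ≠ y) :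
    N (f x - f y) ≤ C * dist x y :=
  (div_le_iff₀ (dist_pos.2 hxy)).1 ((ENNReal.ofReal_le_ofReal_iff hC).1 ((le_lip hxy).trans h))

end lip

section norm
variable {K : Type} [RCLike K] {p : ℝ}

noncomputable def hh (p : ℝ) (z : K × K) (t : K) : ℝ := ‖t‖ ^ p + ‖z.1 - t‖ ^ p + ‖z.2 + t‖ ^ p

noncomputable def qq (p : ℝ) (z : K × K) : ℝ := ⨅ t, hh p z t

noncomputable def Np (p : ℝ) (z : K × K) : ℝ := qq p z ^ p⁻¹

lemma hh_nonneg (z : K × K) (t : K) : 0 ≤ hh p z t := by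
  unfold hh
  positivity

lemma qq_le (z : K × K) (t : K) : qq p z ≤ hh p z t :=
  ciInf_le ⟨0, by rintro _ ⟨t, rfl⟩; exact hh_nonneg z t⟩ t

lemma qq_nonneg (z : K × K) : 0 ≤ qq p z := le_ciInf (hh_nonneg z)

lemma Np_nonneg (z : K × K) : 0 ≤ Np p z := Real.rpow_nonneg (qq_nonneg z) _

lemma Np_pow (hp : 0 < p) (z : K × K) : Np p z ^ p = qq p z :=
  Real.rpow_inv_rpow (qq_nonneg z) hp.ne'

lemma sub_pow (hp : 0 < p) (hp1 : p ≤ 1) {w : K} (u v : K) (h : w = u + v) :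
    ‖w‖ ^ p ≤ ‖u‖ ^ p + ‖v‖ ^ p := by
  subst h
  exact (Real.rpow_le_rpow (norm_nonneg _) (norm_add_le u v) hp.le).trans
    (Real.rpow_add_le_add_rpow (norm_nonneg _) (norm_nonneg _) hp.le hp1)

lemma qq_add (hp : 0 < p) (hp1 : p ≤ 1) (x y : K × K) : qq p (x + y) ≤ qq p x + qq p y := by
  have h : ∀ s t, qq p (x + y) ≤ hh p x s + hh p y t := by
    intro s t
    refine (qq_le _ (s + t)).trans ?_
    have h1 := sub_pow hp hp1 s t rfl
    have h2 := sub_pow hp hp1 (w := (x + y).1 - (s + t)) (x.1 - s) (y.1 - t) (by simp; ring)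
    have h3 := sub_pow hp hp1 (w := (x + y).2 + (s + t)) (x.2 + s) (y.2 + t) (by simp; ring)
    unfold hh
    linarith
  have h1 : ∀ s, qq p (x + y) - hh p x s ≤ qq p y := fun s =>
    le_ciInf fun t => by linarith [h s t]
  have h2 : qq p (x + y) - qq p y ≤ qq p x := le_ciInf fun s => by linarith [h1 s]
  linarith

lemma norm_le_qq (hp : 0 < p) (hp1 : p ≤ 1) (z : K × K) : ‖z‖ ^ p ≤ qq p z := by
  refine le_ciInf fun t => ?_
  have h1 := sub_pow hp hp1 (w := z.1) t (z.1 - t) (by ring)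
  have h2 := sub_pow hp hp1 (w := z.2) (-t) (z.2 + t) (by ring)
  rw [norm_neg] at h2
  have h3 : 0 ≤ ‖z.1 - t‖ ^ p := by positivity
  have h4 : 0 ≤ ‖z.2 + t‖ ^ p := by positivity
  unfold hh
  rw [Prod.norm_def]
  rcases le_total ‖z.1‖ ‖z.2‖ with h | h
  · rw [max_eq_right h]; linarith
  · rw [max_eq_left h]; linarith

lemma norm_le_Np (hp : 0 < p) (hp1 : p ≤ 1) (z : K × K) : ‖z‖ ≤ Np p z := by
  rw [← Real.rpow_le_rpow_iff (norm_nonneg _) (Np_nonneg _) hp, Np_pow hp]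
  exact norm_le_qq hp hp1 z

lemma qq_le_norm (hp : 0 < p) (z : K × K) : qq p z ≤ 2 * ‖z‖ ^ p := by
  refine (qq_le z 0).trans ?_
  have h1 := Real.rpow_le_rpow (norm_nonneg _) (norm_fst_le z) hp.le
  have h2 := Real.rpow_le_rpow (norm_nonneg _) (norm_snd_le z) hp.le
  simp only [hh, norm_zero, Real.zero_rpow hp.ne', sub_zero, add_zero]
  linarith

lemma qq_smul_le (a : K) (z : K × K) (ha : a ≠ 0) : qq p (a • z) ≤ ‖a‖ ^ p * qq p z := by
  have hpos : 0 < ‖a‖ ^ p := Real.rpow_pos_of_pos (norm_pos_iff.2 ha) _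
  rw [← div_le_iff₀' hpos]
  refine le_ciInf fun t => ?_
  rw [div_le_iff₀' hpos]
  refine (qq_le _ (a * t)).trans (le_of_eq ?_)
  simp only [hh, Prod.smul_fst, Prod.smul_snd, smul_eq_mul, ← mul_sub, ← mul_add, norm_mul,
    Real.mul_rpow (norm_nonneg _) (norm_nonneg _)]

lemma qq_smul (hp : 0 < p) (a : K) (z : K × K) : qq p (a • z) = ‖a‖ ^ p * qq p z := by
  by_cases ha : a = 0
  · subst ha
    have := qq_le_norm hp (0 : K × K)
    simp only [norm_zero, Real.zero_rpow hp.ne', mul_zero] at this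
    simp only [zero_smul, norm_zero, Real.zero_rpow hp.ne', zero_mul]
    exact le_antisymm this (qq_nonneg _)
  · refine le_antisymm (qq_smul_le a z ha) ?_
    have h := qq_smul_le (p := p) a⁻¹ (a • z) (inv_ne_zero ha)
    have hpos : 0 < ‖a‖ ^ p := Real.rpow_pos_of_pos (norm_pos_iff.2 ha) _
    rw [smul_smul, inv_mul_cancel₀ ha, one_smul, norm_inv, Real.inv_rpow (norm_nonneg _),
      ← div_eq_inv_mul, le_div_iff₀' hpos] at h
    exact h

lemma isPBanach (hp : 0 < p) (hp1 : p ≤ 1) : IsPBanach K p (Np p : K × K → ℝ) := by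
  refine ⟨Np_nonneg, fun x hx => (norm_pos_iff.2 hx).trans_le (norm_le_Np hp hp1 x),
    fun a x => ?_, fun x y => ?_, fun u hu => ?_⟩
  · rw [Np, qq_smul hp, Real.mul_rpow (by positivity) (qq_nonneg _),
      Real.rpow_rpow_inv (norm_nonneg _) hp.ne', Np]
  · simp only [Np_pow hp]
    exact qq_add hp hp1 x y
  · have hc : CauchySeq u := by
      refine Metric.cauchySeq_iff.2 fun ε hε => ?_
      obtain ⟨k, hk⟩ := hu (ε ^ p) (Real.rpow_pos_of_pos hε _)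
      refine ⟨k, fun i hi j hj => ?_⟩
      have := hk i j hi hj
      rw [Real.rpow_lt_rpow_iff (Np_nonneg _) hε.le hp] at this
      rw [dist_eq_norm]
      exact (norm_le_Np hp hp1 _).trans_lt this
    obtain ⟨z, hz⟩ := cauchySeq_tendsto_of_complete hc
    refine ⟨z, squeeze_zero (g := fun i => 2 * ‖u i - z‖ ^ p)
      (fun i => Real.rpow_nonneg (Np_nonneg _) _) (fun i => ?_) ?_⟩
    · rw [Np_pow hp]
      exact qq_le_norm hp _
    · have h1 := (tendsto_iff_norm_sub_tendsto_zero.1 hz).rpow_const (p := p) (Or.inr hp.le)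
      rw [Real.zero_rpow hp.ne'] at h1
      simpa using h1.const_mul 2

lemma Np_le (hp : 0 < p) (z : K × K) (t : K) {R : ℝ} (hR : 0 ≤ R) (h : hh p z t ≤ R ^ p) :
    Np p z ≤ R := by
  rw [← Real.rpow_le_rpow_iff (Np_nonneg _) hR hp, Np_pow hp]
  exact (qq_le z t).trans h

lemma Np_dir (hp : 0 < p) (z : K × K) (h : z.1 = 0 ∨ z.2 = 0 ∨ z.1 + z.2 = 0) :
    Np p z ≤ ‖z‖ := by
  have h1 := Real.rpow_le_rpow (norm_nonneg _) (norm_fst_le z) hp.le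
  have h2 := Real.rpow_le_rpow (norm_nonneg _) (norm_snd_le z) hp.le
  rcases h with h | h | h
  · refine Np_le hp z 0 (norm_nonneg _) ?_
    simpa [hh, h, Real.zero_rpow hp.ne'] using h2
  · refine Np_le hp z 0 (norm_nonneg _) ?_
    simpa [hh, h, Real.zero_rpow hp.ne'] using h1
  · refine Np_le hp z z.1 (norm_nonneg _) ?_
    simpa [hh, add_comm z.2 z.1, h, Real.zero_rpow hp.ne'] using h1

lemma spike (hp : 0 < p) {z : K × K} {R η : ℝ} (hη : 0 < η) (hz : Np p z ≤ R)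
    (h : R ^ p < 2 * η ^ p) : ‖z.1‖ ≤ 2 * η ∨ ‖z.2‖ ≤ 2 * η ∨ ‖z.1 + z.2‖ ≤ 2 * η := by
  have h1 : qq p z < 2 * η ^ p := by
    rw [← Np_pow hp]
    exact (Real.rpow_le_rpow (Np_nonneg _) hz hp.le).trans_lt h
  obtain ⟨t, ht⟩ := exists_lt_of_ciInf_lt h1
  have key : ∀ w : K, η ≤ ‖w‖ → η ^ p ≤ ‖w‖ ^ p := fun w hw =>
    Real.rpow_le_rpow hη.le hw hp.le
  have n1 : 0 ≤ ‖t‖ ^ p := by positivity
  have n2 : 0 ≤ ‖z.1 - t‖ ^ p := by positivity
  have n3 : 0 ≤ ‖z.2 + t‖ ^ p := by positivity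
  have e1 : ‖z.1‖ ≤ ‖t‖ + ‖z.1 - t‖ := by simpa using norm_add_le t (z.1 - t)
  have e2 : ‖z.2‖ ≤ ‖z.2 + t‖ + ‖t‖ := by simpa using norm_sub_le (z.2 + t) t
  have e3 : ‖z.1 + z.2‖ ≤ ‖z.1 - t‖ + ‖z.2 + t‖ := by
    have := norm_add_le (z.1 - t) (z.2 + t)
    rwa [show z.1 - t + (z.2 + t) = z.1 + z.2 by ring] at this
  unfold hh at ht
  rcases le_or_gt η ‖t‖ with a | a <;> rcases le_or_gt η ‖z.1 - t‖ with b | b <;>
    rcases le_or_gt η ‖z.2 + t‖ with c | c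
  · linarith [key _ a, key _ b]
  · linarith [key _ a, key _ b]
  · linarith [key _ a, key _ c]
  · right; right; linarith
  · linarith [key _ b, key _ c]
  · right; left; linarith
  · left; linarith
  · left; linarith

lemma near {u v : K} {ε : ℝ} (hε : 0 < ε) (hε' : 2 * ε < 1)
    (h1 : ‖u‖ ≤ ε ∨ ‖v‖ ≤ ε ∨ ‖u + v‖ ≤ ε)
    (h2 : ‖u - 1‖ ≤ ε ∨ ‖v‖ ≤ ε ∨ ‖u - 1 + v‖ ≤ ε)
    (h3 : ‖u‖ ≤ ε ∨ ‖v - 1‖ ≤ ε ∨ ‖u + (v - 1)‖ ≤ ε) :
    (‖u‖ ≤ 2 * ε ∧ ‖v‖ ≤ 2 * ε) ∨ ‖u - 1‖ ≤ 2 * ε ∨ ‖v - 1‖ ≤ 2 * ε := by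
  rw [show u + (v - 1) = u - 1 + v by ring] at h3
  have e1 : ‖u - 1‖ ≤ ‖u - 1 + v‖ + ‖v‖ := by simpa using norm_sub_le (u - 1 + v) v
  have e2 : ‖v - 1‖ ≤ ‖u - 1 + v‖ + ‖u‖ := by
    have := norm_sub_le (u - 1 + v) u
    rwa [show u - 1 + v - u = v - 1 by ring] at this
  have e3 : 1 ≤ ‖u + v‖ + ‖u - 1 + v‖ := by
    have := norm_sub_le (u + v) (u - 1 + v)
    rwa [show u + v - (u - 1 + v) = 1 by ring, norm_one] at this
  rcases h2 with h2 | h2 | h2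
  · right; left; linarith
  · rcases h3 with h3 | h3 | h3
    · left; constructor <;> linarith
    · right; right; linarith
    · right; left; linarith
  · rcases h1 with h1 | h1 | h1
    · right; right; linarith
    · right; left; linarith
    · linarith

end norm

end Pool.Agent.H29.PExt
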