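import Pool.Agent.H29.PExt1

namespace Pool.Agent.H29.PExt

open Filter Topology
open scoped ENNReal

noncomputable def pc : ℝ × ℝ := (1 / 2, 3)

def A3 : Set (ℝ × ℝ) := {(0, 0), (1, 0), pc}

noncomputable def pt (m i : ℕ) : ℝ × ℝ := ((i : ℝ) / (m + 1), 0)

def Mm (m : ℕ) : Set (ℝ × ℝ) := A3 ∪ pt m '' Set.Icc 1 m

def inc (m : ℕ) : A3 → Mm m := Set.inclusion Set.subset_union_left

lemma inc_iso (m : ℕ) : Isometry (inc m) := Isometry.of_dist_eq fun _ _ => rfl

def va : A3 := ⟨(0, 0), by simp [A3]⟩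
def vb : A3 := ⟨(1, 0), by simp [A3]⟩
noncomputable def vc : A3 := ⟨pc, by simp [A3]⟩

lemma A3_cases (x : A3) : x = va ∨ x = vb ∨ x = vc := by
  obtain ⟨x, hx⟩ := x
  rcases hx with rfl | rfl | rfl
  · exact Or.inl rfl
  · exact Or.inr (Or.inl rfl)
  · exact Or.inr (Or.inr rfl)

lemma d_ab : dist va vb = 1 := by
  simp [va, vb, Subtype.dist_eq, Prod.dist_eq]

lemma d_pc (x : ℝ) (h0 : 0 ≤ x) (h1 : x ≤ 1) : dist ((x, 0) : ℝ × ℝ) pc = 3 := by
  rw [pc, Prod.dist_eq, Real.dist_eq, Real.dist_eq, max_eq_right]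
  · norm_num
  · rw [show |(0 : ℝ) - 3| = 3 by norm_num, abs_le]
    constructor <;> linarith

lemma d_ac : dist va vc = 3 := d_pc 0 le_rfl zero_le_one
lemma d_bc : dist vb vc = 3 := d_pc 1 zero_le_one le_rfl

lemma card_A3 : ENat.card A3 ≤ 3 := by
  rw [ENat.card_coe_set_eq, A3]
  refine (Set.encard_insert_le _ _).trans ?_
  have := Set.encard_insert_le {pc} ((1, 0) : ℝ × ℝ)
  rw [Set.encard_singleton] at this
  calc _ ≤ (1 + 1 : ℕ∞) + 1 := by gcongr
    _ = 3 := by norm_num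

lemma card_compl (m : ℕ) : (Set.range (inc m))ᶜ.encard ≤ m := by
  rw [← Subtype.val_injective.encard_image]
  have h : Subtype.val '' (Set.range (inc m))ᶜ ⊆ pt m '' Set.Icc 1 m := by
    rintro _ ⟨⟨x, hx⟩, hx', rfl⟩
    rcases hx with hx | hx
    · exact absurd ⟨⟨x, hx⟩, rfl⟩ hx'
    · exact hx
  refine (Set.encard_le_encard h).trans ((Set.encard_image_le _ _).trans ?_)
  rw [← Finset.coe_Icc, Set.encard_coe_eq_coe_finsetCard]
  simp

lemma pt_mem (m i : ℕ) (hi : i ≤ m + 1) : pt m i ∈ Mm m := by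
  rcases Nat.eq_zero_or_pos i with rfl | h0
  · left; simp [pt, A3]
  · rcases hi.eq_or_lt with rfl | h1
    · left
      have : ((m + 1 : ℕ) : ℝ) / (m + 1) = 1 := by push_cast; field_simp
      simp only [pt, this, A3]
      simp
    · exact Or.inr ⟨i, ⟨h0, by omega⟩, rfl⟩

variable (K : Type) [RCLike K]

noncomputable def ff (x : A3) : K × K :=
  (((x.1.1 - x.1.2 / 6 : ℝ) : K), ((x.1.2 / 3 : ℝ) : K))

lemma ff_a : ff K va = (0, 0) := by simp [ff, va]
lemma ff_b : ff K vb = (1, 0) := by simp [ff, vb]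
lemma ff_c : ff K vc = (0, 1) := by
  have : (1 / 2 - 3 / 6 : ℝ) = 0 := by norm_num
  simp only [ff, vc, pc, this]
  simp

lemma ff_lip {p : ℝ} (hp : 0 < p) : lip (Np p) (ff K) ≤ 1 := by
  rw [← ENNReal.ofReal_one]
  refine lip_le fun x y hxy => ?_
  have h1 := d_ab
  have h2 := d_ac
  have h3 := d_bc
  have h4 := dist_comm va vb
  have h5 := dist_comm va vc
  have h6 := dist_comm vb vc
  rcases A3_cases x with rfl | rfl | rfl <;> rcases A3_cases y with rfl | rfl | rfl <;>
    first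
    | exact absurd rfl hxy
    | refine (Np_dir hp _ (by simp [ff_a, ff_b, ff_c])).trans ?_
      simp only [ff_a, ff_b, ff_c, Prod.mk_sub_mk, Prod.norm_def]
      simp
      linarith

lemma ff_lip' {p : ℝ} (hp : 0 < p) (hp1 : p ≤ 1) : 1 ≤ lip (Np p) (ff K) := by
  have hne : va ≠ vb := by
    intro h
    have := d_ab
    rw [h, dist_self] at this
    norm_num at this
  refine le_trans ?_ (le_lip hne)
  rw [d_ab, div_one, ← ENNReal.ofReal_one]
  refine ENNReal.ofReal_le_ofReal (le_trans ?_ (norm_le_Np hp hp1 _))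
  simp [ff_a, ff_b, Prod.norm_def]

lemma no_ext {p C η : ℝ} (m : ℕ) (hp : 0 < p) (hp1 : p ≤ 1) (hC : 0 ≤ C) (hη : 0 < η)
    (h1 : (3 * C) ^ p < 2 * η ^ p) (h2 : 8 * η + C / (m + 1) < 1) (g : Mm m → K × K)
    (hg : ∀ a, g (inc m a) = ff K a) : ¬ lip (Np p) g ≤ ENNReal.ofReal C := by
  intro hl
  have hL : ∀ x y, Np p (g x - g y) ≤ C * dist x y := by
    intro x y
    by_cases hxy : x = y
    · subst hxy
      simpa using Np_dir hp (0 : K × K) (Or.inl rfl)
    · exact le_of_lip hC hl hxy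
  have hm : (0 : ℝ) < m + 1 := by positivity
  have hCm : 0 ≤ C / (m + 1) := by positivity
  have hsp : ∀ (x : Mm m) (a : A3), dist x (inc m a) ≤ 3 →
      ‖(g x - ff K a).1‖ ≤ 2 * η ∨ ‖(g x - ff K a).2‖ ≤ 2 * η ∨
        ‖(g x - ff K a).1 + (g x - ff K a).2‖ ≤ 2 * η := by
    intro x a hx
    refine spike hp hη ?_ h1
    rw [← hg]
    exact (hL _ _).trans (by nlinarith)
  have main : ∀ i (hi : i ≤ m + 1), ‖(g ⟨pt m i, pt_mem m i hi⟩).1‖ ≤ 2 * (2 * η) ∧
      ‖(g ⟨pt m i, pt_mem m i hi⟩).2‖ ≤ 2 * (2 * η) := by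
    intro i
    induction i with
    | zero =>
      intro hi
      have : (⟨pt m 0, pt_mem m 0 hi⟩ : Mm m) = inc m va := Subtype.ext (by simp [pt, inc, va])
      rw [this, hg, ff_a]
      simp only [norm_zero]
      constructor <;> positivity
    | succ i ih =>
      intro hi
      obtain ⟨i1, i2⟩ := ih (by omega)
      set y := (⟨pt m (i + 1), pt_mem m (i + 1) hi⟩ : Mm m)
      set x := (⟨pt m i, pt_mem m i (by omega)⟩ : Mm m)
      have t0 : (0 : ℝ) ≤ ((i + 1 : ℕ) : ℝ) / (m + 1) := by positivity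
      have t1 : ((i + 1 : ℕ) : ℝ) / (m + 1) ≤ 1 := by
        rw [div_le_one hm]
        exact_mod_cast hi
      have da : dist y (inc m va) ≤ 3 := by
        show dist (pt m (i + 1)) ((0, 0) : ℝ × ℝ) ≤ 3
        rw [pt, Prod.dist_eq, dist_self, Real.dist_eq, max_le_iff, abs_le]
        refine ⟨⟨by linarith, by linarith⟩, by norm_num⟩
      have db : dist y (inc m vb) ≤ 3 := by
        show dist (pt m (i + 1)) ((1, 0) : ℝ × ℝ) ≤ 3
        rw [pt, Prod.dist_eq, dist_self, Real.dist_eq, max_le_iff, abs_le]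
        refine ⟨⟨by linarith, by linarith⟩, by norm_num⟩
      have dc : dist y (inc m vc) ≤ 3 := (d_pc _ t0 t1).le
      have s1 := hsp y va da
      have s2 := hsp y vb db
      have s3 := hsp y vc dc
      simp only [ff_a, ff_b, ff_c, Prod.fst_sub, Prod.snd_sub, sub_zero] at s1 s2 s3
      have dxy : dist y x = 1 / (m + 1) := by
        show dist (pt m (i + 1)) (pt m i) = _
        rw [pt, pt, Prod.dist_eq, dist_self, Real.dist_eq, ← sub_div, max_eq_left (abs_nonneg _)]
        push_cast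
        rw [add_sub_cancel_left, abs_of_pos (by positivity)]
      have hn : ‖g y - g x‖ ≤ C / (m + 1) := by
        refine (norm_le_Np hp hp1 _).trans ((hL y x).trans ?_)
        rw [dxy, mul_one_div]
      have n1 := (norm_fst_le _).trans hn
      have n2 := (norm_snd_le _).trans hn
      rw [Prod.fst_sub] at n1
      rw [Prod.snd_sub] at n2
      have tri : ∀ u v : K, 1 ≤ ‖u - 1‖ + ‖u - v‖ + ‖v‖ := by
        intro u v
        have a1 := norm_sub_le (u - v) (u - 1)
        have a2 := norm_add_le (u - v - (u - 1)) v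
        rw [show u - v - (u - 1) + v = 1 by ring, norm_one] at a2
        linarith
      rcases near (by positivity) (by linarith) s1 s2 s3 with h | h | h
      · exact h
      · linarith [tri (g y).1 (g x).1]
      · linarith [tri (g y).2 (g x).2]
  have h3 := (main (m + 1) le_rfl).1
  have : (⟨pt m (m + 1), pt_mem m (m + 1) le_rfl⟩ : Mm m) = inc m vb := by
    refine Subtype.ext ?_
    have : ((m + 1 : ℕ) : ℝ) / (m + 1) = 1 := by push_cast; field_simp
    show pt m (m + 1) = (1, 0)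
    rw [pt, this]
  rw [this, hg, ff_b] at h3
  simp only [norm_one] at h3
  linarith

lemma lower (m : ℕ) {C : ℝ} (hC : 0 < C) (hCm : C < m + 1) :
    ∀ᶠ p in 𝓝[>] (0 : ℝ), ENNReal.ofReal C ≤ tr K p (inc m) := by
  have hm : (0 : ℝ) < m + 1 := by positivity
  have h0 : C / (m + 1) < 1 := (div_lt_one hm).2 hCm
  set η := (1 - C / (m + 1)) / 16 with hη
  have hη0 : 0 < η := by rw [hη]; linarith
  have hc : ContinuousAt (fun p : ℝ => (3 * C / η) ^ p) 0 :=
    Real.continuousAt_const_rpow (by positivity)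
  have h1 : ∀ᶠ p in 𝓝 (0 : ℝ), (3 * C / η) ^ p < 2 :=
    hc.eventually (gt_mem_nhds (by simp))
  have h2 : ∀ᶠ p in 𝓝 (0 : ℝ), p < 1 := gt_mem_nhds one_pos
  filter_upwards [self_mem_nhdsWithin, nhdsWithin_le_nhds h1, nhdsWithin_le_nhds h2]
    with p hp hp2 hp1
  have hp : 0 < p := hp
  rw [Real.div_rpow (by positivity) hη0.le, div_lt_iff₀ (Real.rpow_pos_of_pos hη0 _)] at hp2
  refine le_sInf fun D hD => ?_
  by_contra hlt
  obtain ⟨g, hg, hl⟩ := hD.2 (K × K) (Np p) (isPBanach hp hp1.le) (ff K)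
    ((ff_lip K hp).trans_lt ENNReal.one_lt_top)
  refine no_ext K m hp hp1.le hC.le hη0 hp2 (by rw [hη]; linarith) g hg (hl.trans ?_)
  calc D * lip (Np p) (ff K) ≤ D * 1 := by gcongr; exact ff_lip K hp
    _ ≤ _ := by rw [mul_one]; exact (not_le.1 hlt).le

lemma tr_le_ae {p : ℝ} {A M : Type} [MetricSpace A] [MetricSpace M] {ι : A → M}
    (h : Isometry ι) : tr K p ι ≤ ae K p A :=
  le_iSup_of_le M (le_iSup_of_le inferInstance (le_iSup_of_le ι (le_iSup_of_le h le_rfl)))

lemma ae_tendsto : Tendsto (fun p => ae K p A3) (𝓝[>] 0) (𝓝 ⊤) := by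
  refine ENNReal.tendsto_nhds_top fun n => ?_
  filter_upwards [lower K (n + 1) (C := n + 1) (by positivity) (by push_cast; linarith)]
    with p hp
  refine lt_of_lt_of_le ?_ (hp.trans (tr_le_ae K (inc_iso _)))
  rw [← ENNReal.ofReal_natCast]
  exact (ENNReal.ofReal_lt_ofReal_iff (by positivity)).2 (by linarith)

lemma one_le_ae {p : ℝ} (hp : 0 < p) (hp1 : p ≤ 1) : 1 ≤ ae K p A3 := by
  refine le_trans ?_ (tr_le_ae K (isometry_id (α := A3)))
  refine le_sInf fun D hD => ?_
  have hf := (ff_lip K hp).trans_lt ENNReal.one_lt_top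
  obtain ⟨g, hg, hl⟩ := hD.2 (K × K) (Np p) (isPBanach hp hp1) (ff K) hf
  have : g = ff K := funext hg
  rw [this, le_antisymm (ff_lip K hp) (ff_lip' K hp hp1), mul_one] at hl
  exact hl

lemma ae_one_le : ae K 1 A3 ≤ 4 := by
  refine iSup_le fun M => iSup_le fun _ => iSup_le fun ι => iSup_le fun hι => ?_
  refine sInf_le ⟨by norm_num, fun Z _ _ N hN f hf => ?_⟩
  obtain ⟨h0, -, hs, ht, -⟩ := hN
  simp only [Real.rpow_one] at ht
  set L := (lip N f).toReal
  have hL0 : 0 ≤ L := ENNReal.toReal_nonneg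
  have hL : lip N f = ENNReal.ofReal L := (ENNReal.ofReal_toReal hf.ne).symm
  let φ : A3 → M → ℝ := fun a x => max 0 (1 - dist x (ι a))
  have hφ : ∀ a x y, |φ a x - φ a y| ≤ dist x y := by
    intro a x y
    refine (abs_max_sub_max_le_max _ _ _ _).trans (max_le (by simp) ?_)
    rw [show 1 - dist x (ι a) - (1 - dist y (ι a)) = dist y (ι a) - dist x (ι a) by ring,
      dist_comm x y]
    exact abs_dist_sub_le _ _ _
  have h1 := d_ab
  have h2 := d_ac
  have h3 := d_bc
  have h4 := dist_comm va vb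
  have h5 := dist_comm va vc
  have h6 := dist_comm vb vc
  have nb : N (f vb - f va) ≤ L * 1 := by
    have := le_of_lip hL0 hL.le (x := vb) (y := va) (dist_pos.1 (by linarith))
    rwa [← h4, h1] at this
  have nc : N (f vc - f va) ≤ L * 3 := by
    have := le_of_lip hL0 hL.le (x := vc) (y := va) (dist_pos.1 (by linarith))
    rwa [← h5, h2] at this
  refine ⟨fun x => f va + ((φ vb x : ℝ) : K) • (f vb - f va) + ((φ vc x : ℝ) : K) • (f vc - f va),
    fun a => ?_, ?_⟩
  · simp only [φ, hι.dist_eq]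
    rcases A3_cases a with rfl | rfl | rfl
    · rw [h1, h2, max_eq_left (by norm_num), max_eq_left (by norm_num)]
      simp
    · rw [dist_self, h3, max_eq_right (by norm_num), max_eq_left (by norm_num)]
      simp
    · rw [dist_self, ← h6, h3, max_eq_left (by norm_num), max_eq_right (by norm_num)]
      simp
  · rw [hL, ← ENNReal.ofReal_ofNat 4, ← ENNReal.ofReal_mul (by norm_num)]
    refine lip_le fun x y _ => ?_
    have e : f va + ((φ vb x : ℝ) : K) • (f vb - f va) + ((φ vc x : ℝ) : K) • (f vc - f va) -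
        (f va + ((φ vb y : ℝ) : K) • (f vb - f va) + ((φ vc y : ℝ) : K) • (f vc - f va)) =
        ((φ vb x - φ vb y : ℝ) : K) • (f vb - f va) +
          ((φ vc x - φ vc y : ℝ) : K) • (f vc - f va) := by
      push_cast
      module
    rw [e]
    refine (ht _ _).trans ?_
    rw [hs, hs, RCLike.norm_ofReal, RCLike.norm_ofReal]
    have b1 := mul_le_mul (hφ vb x y) nb (h0 _) dist_nonneg
    have b2 := mul_le_mul (hφ vc x y) nc (h0 _) dist_nonneg
    linarith

end Pool.Agent.H29.PExt
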