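import Pool.Agent.H29.PExt2

namespace Pool.Agent.H29.PExt

open Filter Topology Finset
open scoped ENNReal

section retr
variable {M : Type} [MetricSpace M] [Fintype M] [DecidableEq M]

/-- The cluster with label `z`. -/
def cl (l : M → M) (z : M) : Finset M := univ.filter fun x => l x = z

/-- The invariant of the clustering procedure. -/
def Inv (S : Finset M) (l : M → M) (t : ℝ) : Prop :=
  0 ≤ t ∧ (∀ s ∈ S, l s = s) ∧ (∀ x y, l x = l y → dist x y + t ≤ (cl l (l x)).card * t) ∧
  (∀ x y, l x ≠ l y → l x ∉ S → t ≤ dist x y) ∧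
  ∀ x y, l x ∈ S → l y ∈ S → dist (l x) (l y) ≤ (Sᶜ.card + 1) * dist x y

lemma far {S : Finset M} {l : M → M} {t : ℝ} (ht : 0 ≤ t) (ha : ∀ s ∈ S, l s = s)
    (hb : ∀ x y, l x = l y → dist x y + t ≤ (cl l (l x)).card * t) {x y : M} (hx : l x ∈ S)
    (hy : l y ∈ S) (hne : l x ≠ l y) (hd : t ≤ dist x y) :
    dist (l x) (l y) ≤ (Sᶜ.card + 1) * dist x y := by
  have h1 := hb x (l x) (ha _ hx).symm
  have h2 := hb y (l y) (ha _ hy).symm
  have hc : (cl l (l x)).card + (cl l (l y)).card ≤ Sᶜ.card + 2 := by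
    rw [← card_union_of_disjoint]
    · have : cl l (l x) ∪ cl l (l y) ⊆ Sᶜ ∪ {l x, l y} := by
        intro w hw
        by_cases hS : w ∈ S
        · have := ha w hS
          simp only [cl, mem_union, mem_filter, mem_univ, true_and, this] at hw
          rcases hw with hw | hw <;> simp [← hw]
        · simp [hS]
      exact (card_le_card this).trans ((card_union_le _ _).trans (by
        have := card_le_two (a := l x) (b := l y)
        omega))
    · rw [disjoint_left]
      intro w h1 h2
      simp only [cl, mem_filter, mem_univ, true_and] at h1 h2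
      exact hne (h1.symm.trans h2)
  have hc' : ((cl l (l x)).card : ℝ) + (cl l (l y)).card ≤ Sᶜ.card + 2 := by exact_mod_cast hc
  have h3 := dist_triangle4 (l x) x y (l y)
  rw [dist_comm (l x) x] at h3
  have h4 : (Sᶜ.card : ℝ) * t ≤ Sᶜ.card * dist x y := by gcongr
  nlinarith

lemma step {S : Finset M} (hS : S.Nonempty) {l : M → M} {t : ℝ} (h : Inv S l t) {w : M}
    (hw : l w ∉ S) : ∃ l' t', Inv S l' t' ∧ (univ.image l').card < (univ.image l).card := by
  obtain ⟨ht, ha, hb, hc, hd⟩ := h
  obtain ⟨s, hs⟩ := hS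
  have hne : (univ.filter fun q : M × M => l q.1 ≠ l q.2 ∧ l q.1 ∉ S).Nonempty := by
    refine ⟨(w, s), ?_⟩
    simp only [mem_filter, mem_univ, true_and, ha s hs]
    exact ⟨fun h => hw (h ▸ hs), hw⟩
  obtain ⟨⟨u, v⟩, huv, hmin⟩ := exists_min_image _ (fun q : M × M => dist q.1 q.2) hne
  simp only [mem_filter, mem_univ, true_and] at huv hmin
  obtain ⟨h1, h2⟩ := huv
  have hmin' : ∀ x y, l x ≠ l y → l x ∉ S → dist u v ≤ dist x y := fun x y a b =>
    hmin (x, y) ⟨a, b⟩
  have htd : t ≤ dist u v := hc u v h1 h2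
  set δ := dist u v
  set l' : M → M := fun x => if l x = l u then l v else l x with hl'
  have e1 : ∀ x, l x = l u → l' x = l v := fun x hx => if_pos hx
  have e2 : ∀ x, l x ≠ l u → l' x = l x := fun x hx => if_neg hx
  have hδ : 0 ≤ δ := dist_nonneg
  have ha' : ∀ s ∈ S, l' s = s := fun s hs => by
    rw [e2 s (by rw [ha s hs]; exact fun h => h2 (h ▸ hs)), ha s hs]
  have hb0 : ∀ x y, l x = l y → dist x y + δ ≤ (cl l (l x)).card * δ := by
    intro x y hxy
    have := hb x y hxy
    have h3 : (1 : ℝ) ≤ (cl l (l x)).card := by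
      exact_mod_cast card_pos.2 ⟨x, by simp [cl]⟩
    nlinarith
  have hcard : (cl l (l u)).card + (cl l (l v)).card ≤ (cl l' (l v)).card := by
    rw [← card_union_of_disjoint]
    · refine card_le_card fun x hx => ?_
      simp only [cl, mem_union, mem_filter, mem_univ, true_and] at hx ⊢
      rcases hx with hx | hx
      · exact e1 x hx
      · rw [e2 x (by rw [hx]; exact h1.symm), hx]
    · rw [disjoint_left]
      intro w a b
      simp only [cl, mem_filter, mem_univ, true_and] at a b
      exact h1 (a.symm.trans b)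
  have hcard' : ((cl l (l u)).card : ℝ) * δ + (cl l (l v)).card * δ ≤ (cl l' (l v)).card * δ := by
    rw [← add_mul]
    exact mul_le_mul_of_nonneg_right (by exact_mod_cast hcard) hδ
  have mix : ∀ x y, l x = l u → l y = l v → dist x y + δ ≤ (cl l' (l v)).card * δ := by
    intro x y hx hy
    have a := hb0 u x hx.symm
    have b := hb0 v y hy.symm
    have c := dist_triangle4 x u v y
    rw [dist_comm x u] at c
    linarith
  have hb' : ∀ x y, l' x = l' y → dist x y + δ ≤ (cl l' (l' x)).card * δ := by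
    intro x y hxy
    by_cases hx : l x = l u <;> by_cases hy : l y = l u
    · have a := hb0 x y (hx.trans hy.symm)
      rw [hx] at a
      rw [e1 x hx]
      have : (0 : ℝ) ≤ (cl l (l v)).card * δ := by positivity
      linarith
    · rw [e1 x hx, e2 y hy] at hxy
      rw [e1 x hx]
      exact mix x y hx hxy.symm
    · rw [e2 x hx, e1 y hy] at hxy
      rw [e2 x hx, hxy, dist_comm]
      exact mix y x hy hxy
    · rw [e2 x hx, e2 y hy] at hxy
      refine (hb0 x y hxy).trans (mul_le_mul_of_nonneg_right ?_ hδ)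
      rw [e2 x hx]
      refine Nat.cast_le.2 (card_le_card fun z hz => ?_)
      simp only [cl, mem_filter, mem_univ, true_and] at hz ⊢
      rw [e2 z (hz ▸ hx), hz]
  have hne' : ∀ x y, l' x ≠ l' y → l x ≠ l y := fun x y h hxy => h (by simp only [hl', hxy])
  refine ⟨l', δ, ⟨hδ, ha', hb', fun x y hxy hx => hmin' x y (hne' x y hxy) ?_,
    fun x y hx hy => ?_⟩, ?_⟩
  · by_cases h : l x = l u
    · exact h ▸ h2
    · exact e2 x h ▸ hx
  · by_cases hxy : l' x = l' y
    · rw [hxy, dist_self]
      positivity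
    · by_cases a : l x ∈ S
      · by_cases b : l y ∈ S
        · rw [e2 x fun h => h2 (h ▸ a), e2 y fun h => h2 (h ▸ b)]
          exact hd x y a b
        · refine far hδ ha' hb' hx hy hxy ?_
          rw [dist_comm]
          exact hmin' y x (hne' x y hxy).symm b
      · exact far hδ ha' hb' hx hy hxy (hmin' x y (hne' x y hxy) a)
  · refine card_lt_card ⟨fun z hz => ?_, fun h => ?_⟩
    · obtain ⟨x, -, rfl⟩ := mem_image.1 hz
      by_cases h : l x = l u
      · rw [e1 x h]; simp
      · rw [e2 x h]; simp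
    · obtain ⟨x, -, hx⟩ := mem_image.1 (h (mem_image_of_mem l (mem_univ u)))
      by_cases h : l x = l u
      · exact h1 ((e1 x h).symm.trans hx).symm
      · exact h ((e2 x h).symm.trans hx)

lemma retract {S : Finset M} (hS : S.Nonempty) : ∃ l : M → M, (∀ x, l x ∈ S) ∧
    (∀ s ∈ S, l s = s) ∧ ∀ x y, dist (l x) (l y) ≤ (Sᶜ.card + 1) * dist x y := by
  have key : ∀ (k : ℕ) (l : M → M) (t : ℝ), Inv S l t → (univ.image l).card ≤ k →
      ∃ l : M → M, (∀ x, l x ∈ S) ∧ (∀ s ∈ S, l s = s) ∧
        ∀ x y, dist (l x) (l y) ≤ (Sᶜ.card + 1) * dist x y := by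
    intro k
    induction k using Nat.strong_induction_on with
    | _ k ih =>
      intro l t h hk
      by_cases hw : ∀ x, l x ∈ S
      · exact ⟨l, hw, h.2.1, fun x y => h.2.2.2.2 x y (hw x) (hw y)⟩
      · push Not at hw
        obtain ⟨w, hw⟩ := hw
        obtain ⟨l', t', h', hlt⟩ := step hS h hw
        exact ih _ (hlt.trans_le hk) l' t' h' le_rfl
  refine key _ id 0 ⟨le_rfl, fun _ _ => rfl, fun x y h => ?_, fun _ _ _ _ => dist_nonneg,
    fun x y _ _ => ?_⟩ le_rfl
  · have : x = y := h
    simp [this]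
  · have := dist_nonneg (x := x) (y := y)
    have h2 : (0 : ℝ) ≤ Sᶜ.card * dist x y := by positivity
    simp only [id]
    linarith

end retr

lemma tr_le (K : Type) [RCLike K] (p : ℝ) {A M : Type} [MetricSpace A] [MetricSpace M]
    [Nonempty A] {ι : A → M} (hι : Isometry ι) {n m : ℕ} (hA : ENat.card A ≤ n)
    (hm : (Set.range ι)ᶜ.encard ≤ m) : tr K p ι ≤ m + 1 := by
  classical
  have : Finite A := ENat.card_lt_top.1 (hA.trans_lt (ENat.coe_lt_top n))
  have hfin : (Set.range ι)ᶜ.Finite := Set.finite_of_encard_le_coe hm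
  have : Finite M := by
    rw [← Set.finite_univ_iff, ← Set.union_compl_self (Set.range ι)]
    exact (Set.finite_range ι).union hfin
  have := Fintype.ofFinite M
  obtain ⟨l, h1, h2, h3⟩ := retract (S := (Set.range ι).toFinset)
    (by simpa using Set.range_nonempty ι)
  simp only [Set.mem_toFinset] at h1 h2
  choose r hr using h1
  have hc : ((Set.range ι).toFinsetᶜ.card : ℝ) ≤ m := by
    rw [← Set.toFinset_compl]
    rw [Set.encard_eq_coe_toFinset_card] at hm
    exact_mod_cast hm
  refine sInf_le ⟨by positivity, fun Z _ _ N hN f hf => ?_⟩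
  set L := (lip N f).toReal
  have hL0 : 0 ≤ L := ENNReal.toReal_nonneg
  have hL : lip N f = ENNReal.ofReal L := (ENNReal.ofReal_toReal hf.ne).symm
  refine ⟨fun x => f (r x), fun a => ?_, ?_⟩
  · have : r (ι a) = a := hι.injective (by rw [hr, h2 _ ⟨a, rfl⟩])
    simp only [this]
  · have e : ((m : ℝ≥0∞) + 1) = ENNReal.ofReal (m + 1) := by
      rw [ENNReal.ofReal_add (by positivity) zero_le_one]
      simp
    rw [hL, e, ← ENNReal.ofReal_mul (by positivity)]
    refine lip_le fun x y _ => ?_
    by_cases hxy : r x = r y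
    · have h0 := hN.2.2.1 (0 : K) (0 : Z)
      simp only [smul_zero, norm_zero, zero_mul] at h0
      simp only [hxy, sub_self, h0]
      positivity
    · refine (le_of_lip hL0 hL.le hxy).trans ?_
      rw [← hι.dist_eq, hr, hr]
      have := h3 x y
      have h4 : dist (l x) (l y) ≤ (m + 1) * dist x y :=
        this.trans (by gcongr)
      calc L * dist (l x) (l y) ≤ L * ((m + 1) * dist x y) := by gcongr
        _ = _ := by ring

end Pool.Agent.H29.PExt
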