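import Mathlib

set_option autoImplicit false

namespace Pool.Agent.H29.PJ

open Function Set Polynomial

theorem code (G : Type) [AddCommGroup G] [Module (ZMod 2) G] [Finite G] (n t : ℕ) (hn : n ≠ 0)
    (I : Type) [Finite I] (hI : Nat.card I ≤ 2 ^ n) :
    ∃ C : AddSubgroup (I → G), Nat.card C ≤ 2 ^ (n * t * Nat.card G) ∧
      ∀ B : Finset I, B.card ≤ t → ∀ v : I → G, ∃ c ∈ C, ∀ i ∈ B, c i = v i := by
  classical
  haveI : Fact (Nat.Prime 2) := ⟨Nat.prime_two⟩
  let F := GaloisField 2 n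
  have hF : Nat.card F = 2 ^ n := GaloisField.card 2 n hn
  haveI := Fintype.ofFinite G
  haveI := Fintype.ofFinite I
  haveI := Fintype.ofFinite F
  obtain ⟨x⟩ : Nonempty (I ↪ F) := Function.Embedding.nonempty_of_card_le (by
    rw [← Nat.card_eq_fintype_card, ← Nat.card_eq_fintype_card, hF]; exact hI)
  obtain ⟨lam, hlam⟩ := Module.Projective.exists_dual_eq_one (ZMod 2) (one_ne_zero (α := F))
  let Φ : (G → degreeLT F t) →+ (I → G) :=
    { toFun := fun u i => ∑ g, lam ((u g : F[X]).eval (x i)) • g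
      map_zero' := by funext i; simp
      map_add' := by
        intro u w
        funext i
        simp [add_smul, Finset.sum_add_distrib] }
  haveI : Finite (degreeLT F t) := Finite.of_equiv _ (degreeLTEquiv F t).toEquiv.symm
  refine ⟨Φ.range, ?_, fun B hB v => ?_⟩
  · refine (Nat.card_le_card_of_surjective _ Φ.rangeRestrict_surjective).trans (le_of_eq ?_)
    rw [Nat.card_fun, Nat.card_congr (degreeLTEquiv F t).toEquiv, Nat.card_fun, hF]
    simp [pow_mul]
  · have hinj : InjOn x B := x.injective.injOn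
    refine ⟨Φ fun g => ⟨Lagrange.interpolate B x fun i => if v i = g then 1 else 0, ?_⟩,
      ⟨_, rfl⟩, fun i hi => ?_⟩
    · rw [mem_degreeLT]
      exact (Lagrange.degree_interpolate_lt _ hinj).trans_le (by exact_mod_cast hB)
    · simp only [Φ, AddMonoidHom.coe_mk, ZeroHom.coe_mk, Lagrange.eval_interpolate_at_node _ hinj hi]
      rw [Finset.sum_eq_single (v i)]
      · simp [hlam]
      · intro g _ hg
        simp [hg.symm]
      · simp

theorem coset (G I : Type) [AddCommGroup G] [Finite G] [Finite I] (C : AddSubgroup (I → G))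
    (h : Nat.card C * Nat.card G * (Nat.card G - 1) ^ Nat.card I < Nat.card G ^ Nat.card I) :
    ∃ a : I → G, ∀ c ∈ C, ∀ u, ∃ i, a i + c i = u := by
  classical
  haveI := Fintype.ofFinite G
  haveI := Fintype.ofFinite I
  haveI := Fintype.ofFinite C
  simp only [Nat.card_eq_fintype_card] at h
  let bad : C × G → Finset (I → G) := fun p =>
    Fintype.piFinset fun i => Finset.univ.erase (p.2 - p.1.1 i)
  have hb : ∀ p, (bad p).card = (Fintype.card G - 1) ^ Fintype.card I := by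
    intro p
    simp [bad, Fintype.card_piFinset, Finset.card_erase_of_mem]
  have : (Finset.univ.biUnion bad).card < (Finset.univ : Finset (I → G)).card := by
    refine Finset.card_biUnion_le.trans_lt ?_
    simpa [hb] using h
  obtain ⟨a, -, ha⟩ := Finset.exists_mem_notMem_of_card_lt_card this
  refine ⟨a, fun c hc u => ?_⟩
  by_contra hne
  push Not at hne
  refine ha (Finset.mem_biUnion.2 ⟨(⟨c, hc⟩, u), Finset.mem_univ _, ?_⟩)
  simp only [bad, Fintype.mem_piFinset, Finset.mem_erase, Finset.mem_univ, and_true]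
  intro i e
  exact hne i (by rw [e]; simp)

lemma two_mul_pow_le (p : ℕ) : 2 * p ^ (p + 1) ≤ (p + 1) ^ (p + 1) := by
  have key : ∀ k : ℕ, p ^ (k + 1) + (k + 1) * p ^ k ≤ (p + 1) ^ (k + 1) := by
    intro k
    induction k with
    | zero => simp
    | succ k ih =>
      calc p ^ (k + 1 + 1) + (k + 1 + 1) * p ^ (k + 1)
          ≤ (p ^ (k + 1) + (k + 1) * p ^ k) * (p + 1) := by
            simp only [pow_succ]
            nlinarith [Nat.zero_le ((k + 1) * p ^ k)]
        _ ≤ (p + 1) ^ (k + 1) * (p + 1) := Nat.mul_le_mul_right _ ih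
        _ = _ := by ring
  have := key p
  rw [pow_succ] at this ⊢
  nlinarith [Nat.zero_le (p ^ p)]

lemma numer (q N b : ℕ) (hq : 0 < q) (hb : q * (N + q) ≤ b) : 2 ^ N * q * (q - 1) ^ b < q ^ b := by
  obtain ⟨p, rfl⟩ : ∃ p, q = p + 1 := ⟨q - 1, by omega⟩
  obtain ⟨r, rfl⟩ := Nat.exists_eq_add_of_le hb
  simp only [Nat.add_sub_cancel]
  rcases Nat.eq_zero_or_pos p with rfl | hp
  · rw [zero_pow (by positivity)]
    simp
  have h1 : 2 ^ N * (p + 1) < 2 ^ (N + (p + 1)) := by
    rw [pow_add]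
    exact Nat.mul_lt_mul_of_pos_left Nat.lt_two_pow_self (by positivity)
  calc 2 ^ N * (p + 1) * p ^ ((p + 1) * (N + (p + 1)) + r)
      < 2 ^ (N + (p + 1)) * p ^ ((p + 1) * (N + (p + 1)) + r) :=
        Nat.mul_lt_mul_of_pos_right h1 (by positivity)
    _ = (2 * p ^ (p + 1)) ^ (N + (p + 1)) * p ^ r := by
        rw [mul_pow, ← pow_mul, pow_add p, mul_assoc]
    _ ≤ ((p + 1) ^ (p + 1)) ^ (N + (p + 1)) * (p + 1) ^ r :=
        Nat.mul_le_mul (Nat.pow_le_pow_left (two_mul_pow_le p) _)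
          (Nat.pow_le_pow_left (Nat.le_succ p) _)
    _ = _ := by rw [← pow_mul, ← pow_add]

lemma exists_m (D : ℕ) : ∃ m, 1 ≤ m ∧ D * (m + 1) ≤ 2 ^ m := by
  refine ⟨2 * (2 * D + 1), by omega, ?_⟩
  have : 2 * D + 1 < 2 ^ (2 * D + 1) := Nat.lt_two_pow_self
  rw [mul_comm 2 (2 * D + 1), pow_mul]
  nlinarith

theorem oa (G : Type) [AddCommGroup G] [Module (ZMod 2) G] [Finite G] (c : ℕ) :
    ∃ m : ℕ, 1 ≤ m ∧ ∃ (C : AddSubgroup (Fin (4 ^ m) → G)) (a : Fin (4 ^ m) → G),
      (∀ w ∈ C, ∀ u, ∃ i, a i + w i = u) ∧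
      ∀ B : Finset (Fin (4 ^ m)), B.card ≤ c * 2 ^ m → ∀ v : Fin (4 ^ m) → G,
        ∃ w ∈ C, ∀ i ∈ B, w i = v i := by
  set q := Nat.card G with hq
  have hq0 : 0 < q := Nat.card_pos
  obtain ⟨m, hm, hD⟩ := exists_m (q * q * (2 * c + 1))
  obtain ⟨C, h1, h2⟩ := code G (2 * m) (c * 2 ^ m) (by omega) (Fin (4 ^ m))
    (by simp [pow_mul])
  obtain ⟨a, ha⟩ := coset G _ C (by
    rw [← hq] at h1 ⊢
    refine lt_of_le_of_lt (Nat.mul_le_mul_right _ (Nat.mul_le_mul_right _ h1)) (numer _ _ _ hq0 ?_)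
    have e : Nat.card (Fin (4 ^ m)) = 2 ^ m * 2 ^ m := by
      rw [← mul_pow]; simp
    rw [e]
    have h3 : 1 ≤ 2 ^ m := Nat.one_le_two_pow
    refine le_trans ?_ (Nat.mul_le_mul_right _ hD)
    have : q * (2 * m * (c * 2 ^ m) * q + q) = q * q * (2 * c * m * 2 ^ m + 1) := by ring
    rw [this, mul_assoc (q * q), mul_assoc (q * q)]
    refine Nat.mul_le_mul_left _ ?_
    nlinarith [Nat.zero_le (c * 2 ^ m), Nat.zero_le (m * 2 ^ m)])
  exact ⟨m, hm, C, a, ha, h2⟩

open Filter in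
lemma poly_aux (d : ℕ) : ∀ p : ℤ[X], p.natDegree = d → 0 < p.leadingCoeff →
    (∀ᶠ n : ℤ in atTop, 1 ≤ p.eval n) ∧ (∀ᶠ n : ℤ in atTop, 0 ≤ p.eval (n + 1) - p.eval n) ∧
    (1 ≤ d → ∀ᶠ n : ℤ in atTop, 1 ≤ p.eval (n + 1) - p.eval n) ∧
    (2 ≤ d → ∀ᶠ n : ℤ in atTop, n + 1 ≤ p.eval (n + 1) - p.eval n) := by
  induction d with
  | zero =>
    intro p hp hl
    rw [eq_C_of_natDegree_eq_zero hp] at hl ⊢
    simp only [leadingCoeff_C] at hl
    simp only [eval_C]
    exact ⟨Eventually.of_forall fun _ => hl, by simp, by simp, by simp⟩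
  | succ d ih =>
    intro p hp hl
    have h1 : p.divX.natDegree = d := by rw [natDegree_divX_eq_natDegree_tsub_one, hp]; simp
    have h2 : 0 < p.divX.leadingCoeff := by
      rw [leadingCoeff, h1, coeff_divX, ← hp]; exact hl
    obtain ⟨a1, a2, a3, -⟩ := ih _ h1 h2
    have he : ∀ n : ℤ, p.eval n = n * p.divX.eval n + p.coeff 0 := by
      intro n
      conv_lhs => rw [← X_mul_divX_add p]
      simp
    have a1' : ∀ᶠ n : ℤ in atTop, 1 ≤ p.divX.eval (n + 1) :=
      (tendsto_atTop_add_const_right _ 1 tendsto_id).eventually a1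
    have b : ∀ᶠ n : ℤ in atTop, 1 ≤ p.eval (n + 1) - p.eval n := by
      filter_upwards [a1', a2, eventually_ge_atTop 0] with n c1 c2 c3
      rw [he, he]
      nlinarith
    refine ⟨?_, b.mono fun n h => by omega, fun _ => b, fun hd => ?_⟩
    · filter_upwards [a1, eventually_ge_atTop (1 - p.coeff 0), eventually_ge_atTop 0] with n c1 c2 c3
      rw [he]
      nlinarith
    · filter_upwards [a1', a3 (by omega), eventually_ge_atTop 0] with n c1 c2 c3
      rw [he, he]
      nlinarith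

def Sparse (f : ℕ → ℤ) : Prop :=
  (∀ n, f n ≠ 0) ∧ ∀ n h : ℕ, (h : ℤ) ^ 2 ≤ 2 * |f (n + h) - f n|

open Filter in
lemma poly_sparse (p : ℤ[X]) (hp : 2 ≤ p.natDegree) :
    ∀ᶠ N : ℕ in atTop, Sparse fun n => p.eval ((N : ℤ) + n) := by
  wlog hl : 0 < p.leadingCoeff generalizing p
  · have h0 : p ≠ 0 := by rintro rfl; simp at hp
    have := this (-p) (by simpa using hp) (by
      have := leadingCoeff_ne_zero.2 h0
      simp only [leadingCoeff_neg]
      omega)
    refine this.mono fun N h => ⟨fun n => by simpa using h.1 n, fun n k => ?_⟩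
    have := h.2 n k
    simp only [eval_neg] at this
    rwa [← neg_sub', abs_neg] at this
  obtain ⟨a1, -, -, a2⟩ := poly_aux _ p rfl hl
  obtain ⟨M, hM⟩ := eventually_atTop.1 (a1.and (a2 hp))
  filter_upwards [eventually_ge_atTop M.toNat] with N hN
  have hN' : M ≤ N := by omega
  refine ⟨fun n => by have := (hM (N + n) (by omega)).1; simp only; omega, fun n h => ?_⟩
  have key : ∀ h : ℕ, (h : ℤ) ^ 2 + h ≤ 2 * (p.eval ((N : ℤ) + (n + h : ℕ)) - p.eval ((N : ℤ) + n)) := by
    intro h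
    induction h with
    | zero => simp
    | succ h ih =>
      have := (hM (N + (n + h : ℕ)) (by omega)).2
      push_cast at *
      rw [← add_assoc (n : ℤ), ← add_assoc (N : ℤ)]
      nlinarith [Int.natCast_nonneg N, Int.natCast_nonneg n]
  have := key h
  have := le_abs_self (p.eval ((N : ℤ) + (n + h : ℕ)) - p.eval ((N : ℤ) + n))
  have := Int.natCast_nonneg h
  simp only
  omega

lemma Sparse.inj {f : ℕ → ℤ} (hf : Sparse f) : Injective f := by
  intro a b h
  wlog hab : a ≤ b generalizing a b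
  · exact (this h.symm (by omega)).symm
  obtain ⟨k, rfl⟩ := Nat.exists_eq_add_of_le hab
  have := hf.2 a k
  rw [← h] at this
  simp only [sub_self, abs_zero, mul_zero] at this
  have : (k : ℤ) = 0 := by nlinarith
  omega

open Classical in
lemma Sparse.count {f : ℕ → ℤ} (hf : Sparse f) (s : ℤ) (r : ℕ) :
    ((Finset.Ico s (s + r ^ 2)).filter (· ∈ range f)).card ≤ 2 * r := by
  by_cases h : ∃ n, f n ∈ Finset.Ico s (s + r ^ 2)
  · let n := Nat.find h
    have hn : f n ∈ Finset.Ico s (s + r ^ 2) := Nat.find_spec h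
    refine le_trans (Finset.card_le_card (t := (Finset.range (2 * r)).image fun k => f (n + k)) ?_)
      (Finset.card_image_le.trans (by simp))
    intro j hj
    obtain ⟨h1, n', rfl⟩ := Finset.mem_filter.1 hj
    obtain ⟨k, rfl⟩ := Nat.exists_eq_add_of_le (Nat.find_min' h h1 : n ≤ n')
    refine Finset.mem_image.2 ⟨k, Finset.mem_range.2 ?_, rfl⟩
    have := hf.2 n k
    change f (n + k) ∈ _ at h1
    simp only [Finset.mem_Ico] at hn h1
    have h3 : |f (n + k) - f n| < r ^ 2 := by rw [abs_lt]; constructor <;> omega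
    have h4 : (k : ℤ) < 2 * r := by
      by_contra hc
      push Not at hc
      nlinarith [Int.natCast_nonneg r]
    exact_mod_cast h4
  · rw [Finset.filter_eq_empty_iff.2]
    · simp
    · rintro j hj ⟨n, rfl⟩
      exact h ⟨n, hj⟩

end Pool.Agent.H29.PJ
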