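import Pool.Agent.H29.PJ1

set_option autoImplicit false

namespace Pool.Agent.H29.PJ

open Function Set

abbrev A := Bool × Bool → ZMod 2
abbrev Om := ℤ → A

def blk (L : ℤ) (x : Om) (s : ℤ) : Om := fun j => x (s + j % L)

lemma blk_add (L : ℤ) (x y : Om) (s : ℤ) : blk L (x + y) s = blk L x s + blk L y s := rfl

structure Lev where
  L : ℤ
  C : AddSubgroup Om
  a : Om
  pos : 0 < L
  perC : ∀ c ∈ C, ∀ j, c j = c (j % L)
  pera : ∀ j, a j = a (j % L)

lemma Lev.fin (l : Lev) : (l.C : Set Om).Finite := by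
  have hf : (Set.Ico (0 : ℤ) l.L).Finite := Set.finite_Ico _ _
  haveI := hf.to_subtype
  refine Set.Finite.of_injOn (f := fun (w : Om) (j : Set.Ico (0 : ℤ) l.L) => w j) (t := univ)
    (mapsTo_univ _ _) (fun u hu v hv h => ?_) finite_univ
  funext j
  rw [l.perC u hu, l.perC v hv]
  exact congrFun h ⟨j % l.L, Int.emod_nonneg _ l.pos.ne', Int.emod_lt_of_pos _ l.pos⟩

def Rel (E : Set ℤ) (l l' : Lev) : Prop := ∃ b : ℤ, 3 ≤ b ∧ l'.L = b * l.L ∧
  (∀ c ∈ l'.C, ∀ i, blk l.L c (i * l.L) ∈ l.C) ∧ (∀ i, blk l.L l'.a (i * l.L) - l.a ∈ l.C) ∧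
  (∀ c ∈ l'.C, ∀ u ∈ l.C, ∃ i, 0 ≤ i ∧ i < b ∧ blk l.L (l'.a + c) (i * l.L) = l.a + u) ∧
  (∀ v : ℤ → Om, (∀ i, v i ∈ l.C) → ∃ c ∈ l'.C, ∀ i, 0 ≤ i → i ≤ 2 →
    blk l.L c (i * l.L) = v i) ∧
  (∀ s, ∀ v : ℤ → Om, (∀ i, v i ∈ l.C) → ∃ c ∈ l'.C, ∀ j, s ≤ j → j < s + l'.L →
    (j ∈ E ∨ |j| ≤ l.L) → blk l.L c ((j - s) / l.L * l.L) = v ((j - s) / l.L))

open Classical in
def Thin (E : Set ℤ) : Prop :=
  ∀ (s : ℤ) (r : ℕ), ((Finset.Ico s (s + r ^ 2)).filter (· ∈ E)).card ≤ 8 * r + 1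

lemma two_smul_zero (x : Om) : x + x = 0 := by
  funext j e
  exact CharTwo.add_self_eq_zero _

lemma step {E : Set ℤ} (hE : Thin E) (l : Lev) : ∃ l', Rel E l l' := by
  classical
  haveI : Finite l.C := l.fin.to_subtype
  letI : Module (ZMod 2) l.C := AddCommGroup.zmodModule (n := 2) fun x => by
    apply Subtype.ext
    rw [two_nsmul]
    exact two_smul_zero _
  obtain ⟨L, hL⟩ := Int.eq_ofNat_of_zero_le l.pos.le
  have hL0 : 0 < L := by have := l.pos; omega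
  obtain ⟨m, hm, C, a, h1, h2⟩ := oa l.C (12 * L)
  have hb : (4 : ℕ) ≤ 4 ^ m := by simpa using Nat.pow_le_pow_right (n := 4) (by norm_num) hm
  have hb0 : (0 : ℤ) < (4 ^ m : ℕ) := by omega
  let idx : ℤ → Fin (4 ^ m) := fun i => ⟨(i % (4 ^ m : ℕ)).toNat, by
    have := Int.emod_lt_of_pos i hb0
    have := Int.emod_nonneg i hb0.ne'
    omega⟩
  have hidx : ∀ i : ℤ, 0 ≤ i → i < (4 ^ m : ℕ) → ((idx i : ℕ) : ℤ) = i := by
    intro i a b
    simp only [idx]
    rw [Int.emod_eq_of_lt a b]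
    omega
  have hidx' : ∀ i : Fin (4 ^ m), idx (i : ℕ) = i := by
    intro i
    apply Fin.ext
    have := hidx (i : ℕ) (by positivity) (by exact_mod_cast i.2)
    exact_mod_cast this
  let asm : (Fin (4 ^ m) → l.C) →+ Om :=
    { toFun := fun w j => (w (idx (j / l.L)) : Om) j
      map_zero' := rfl
      map_add' := fun _ _ => rfl }
  have hper : ∀ w j, asm w j = asm w (j % ((4 ^ m : ℕ) * l.L)) := by
    intro w j
    have e : idx (j % ((4 ^ m : ℕ) * l.L) / l.L) = idx (j / l.L) := by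
      apply Fin.ext
      simp only [idx]
      congr 1
      rw [Int.emod_def j, sub_eq_add_neg, show -(((4 ^ m : ℕ) : ℤ) * l.L * (j / ((4 ^ m : ℕ) * l.L)))
        = (4 ^ m : ℕ) * (-(j / ((4 ^ m : ℕ) * l.L))) * l.L by ring,
        Int.add_mul_ediv_right _ _ l.pos.ne', Int.add_mul_emod_self_left]
    change (w _ : Om) j = (w _ : Om) _
    rw [e, l.perC _ (w _).2 j, l.perC _ (w _).2 (j % (_ * _)),
      Int.emod_emod_of_dvd _ (dvd_mul_left _ _)]
  have hblk : ∀ w i, blk l.L (asm w) (i * l.L) = w (idx i) := by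
    intro w i
    funext j
    have e : (i * l.L + j % l.L) / l.L = i := by
      rw [add_comm, Int.add_mul_ediv_right _ _ l.pos.ne', Int.ediv_eq_zero_of_lt
        (Int.emod_nonneg j l.pos.ne') (Int.emod_lt_of_pos j l.pos), zero_add]
    change (w (idx _) : Om) _ = _
    rw [e, l.perC _ (w _).2 j, l.perC _ (w _).2 (_ + _), add_comm, Int.add_mul_emod_self_right,
      Int.emod_emod_of_dvd _ dvd_rfl]
  have hblka : ∀ i, blk l.L l.a (i * l.L) = l.a := by
    intro i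
    funext j
    simp only [blk]
    rw [l.pera j, l.pera (_ + _), add_comm, Int.add_mul_emod_self_right,
      Int.emod_emod_of_dvd _ dvd_rfl]
  refine ⟨⟨(4 ^ m : ℕ) * l.L, C.map asm, l.a + asm a, mul_pos hb0 l.pos, ?_, fun j => ?_⟩,
    (4 ^ m : ℕ), by omega, rfl, ?_, fun i => ?_, ?_, fun v hv => ?_, fun s v hv => ?_⟩
  · rintro _ ⟨w, -, rfl⟩ j
    exact hper w j
  · simp only [Pi.add_apply]
    rw [← hper, l.pera j, l.pera (j % (_ * _)), Int.emod_emod_of_dvd _ (dvd_mul_left _ _)]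
  · rintro _ ⟨w, -, rfl⟩ i
    rw [hblk]
    exact (w _).2
  · simp only [blk_add, hblk, hblka, add_sub_cancel_left]
    exact (a _).2
  · rintro _ ⟨w, hw, rfl⟩ u hu
    obtain ⟨i, hi⟩ := h1 w hw ⟨u, hu⟩
    refine ⟨(i : ℕ), by positivity, by exact_mod_cast i.2, ?_⟩
    simp only [blk_add, hblk, hblka, hidx', add_assoc]
    congr 1
    exact congrArg Subtype.val hi
  · obtain ⟨w, hw, e⟩ := h2 ((Finset.Icc (0 : ℤ) 2).image idx) (by
      refine Finset.card_image_le.trans ?_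
      have : 1 ≤ 2 ^ m := Nat.one_le_two_pow
      simp only [Int.card_Icc]
      norm_num
      nlinarith) fun i => ⟨v (i : ℕ), hv _⟩
    refine ⟨_, ⟨w, hw, rfl⟩, fun i i0 i1 => ?_⟩
    rw [hblk, e _ (Finset.mem_image_of_mem _ (Finset.mem_Icc.2 ⟨i0, i1⟩)), hidx i i0 (by omega)]
  · let M := (Finset.Ico s (s + (2 ^ m * L : ℕ) ^ 2)).filter (· ∈ E) ∪ Finset.Icc (-l.L) l.L
    obtain ⟨w, hw, e⟩ := h2 (M.image fun j => idx ((j - s) / l.L)) (by
      refine Finset.card_image_le.trans ((Finset.card_union_le _ _).trans ?_)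
      have := hE s (2 ^ m * L)
      have h3 : 1 ≤ 2 ^ m := Nat.one_le_two_pow
      have h4 : L ≤ 2 ^ m * L := Nat.le_mul_of_pos_left _ h3
      have h5 : (Finset.Icc (-l.L) l.L).card = 2 * L + 1 := by
        simp only [Int.card_Icc, hL]
        omega
      rw [h5, mul_assoc, mul_comm L]
      omega) fun i => ⟨v (i : ℕ), hv _⟩
    refine ⟨_, ⟨w, hw, rfl⟩, fun j j0 j1 hj => ?_⟩
    change j < s + _ * l.L at j1
    rw [hblk, e _ (Finset.mem_image_of_mem _ ?_), hidx _ (Int.ediv_nonneg (by omega) l.pos.le)]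
    · rw [Int.ediv_lt_iff_lt_mul l.pos]
      omega
    · rcases hj with hj | hj
      · refine Finset.mem_union_left _ (Finset.mem_filter.2 ⟨Finset.mem_Ico.2 ⟨j0, j1.trans_le ?_⟩, hj⟩)
        rw [hL]
        push_cast
        have : (4 : ℤ) ^ m = (2 ^ m) ^ 2 := by rw [← pow_mul, mul_comm, pow_mul]; norm_num
        rw [this, mul_pow]
        have h6 : (L : ℤ) ≤ L ^ 2 := by nlinarith
        nlinarith [sq_nonneg ((2 : ℤ) ^ m)]
      · exact Finset.mem_union_right _ (Finset.mem_Icc.2 (abs_le.1 hj))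

def lev0 : Lev where
  L := 1
  C := { carrier := {c | ∀ j, c j = c (j % 1)}
         add_mem' := fun {a b} ha hb j => by simp only [Pi.add_apply]; rw [ha j, hb j]
         zero_mem' := fun _ => rfl
         neg_mem' := fun {a} ha j => by simp only [Pi.neg_apply]; rw [ha j] }
  a := 0
  pos := one_pos
  perC := fun _ h => h
  pera := fun _ => rfl

structure Hier (E : Set ℤ) where
  lev : ℕ → Lev
  zero : lev 0 = lev0
  rel : ∀ k, Rel E (lev k) (lev (k + 1))

lemma hier_ex {E : Set ℤ} (hE : Thin E) : Nonempty (Hier E) := by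
  choose f hf using step hE
  exact ⟨⟨fun k => f^[k] lev0, rfl, fun k => by rw [Function.iterate_succ_apply']; exact hf _⟩⟩

end Pool.Agent.H29.PJ
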