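import Pool.Agent.H29.PJ2

set_option autoImplicit false

namespace Pool.Agent.H29.PJ

open Function Set Filter Topology

variable {E : Set ℤ} (H : Hier E)

namespace Hier

def L (k : ℕ) : ℤ := (H.lev k).L
def C (k : ℕ) : Set Om := (H.lev k).C
def W (k : ℕ) : Set Om := {w | w - (H.lev k).a ∈ (H.lev k).C}

lemma L_pos (k : ℕ) : 0 < H.L k := (H.lev k).pos
lemma L_zero : H.L 0 = 1 := by rw [L, H.zero]; rfl

lemma L_dvd_succ (k : ℕ) : H.L k ∣ H.L (k + 1) := by
  obtain ⟨b, -, h, -⟩ := H.rel k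
  exact Dvd.intro_left _ h.symm

lemma L_three (k : ℕ) : 3 * H.L k ≤ H.L (k + 1) := by
  obtain ⟨b, hb, h, -⟩ := H.rel k
  change H.L (k + 1) = b * H.L k at h
  rw [h]
  exact mul_le_mul_of_nonneg_right hb (H.L_pos k).le

lemma L_dvd {k K : ℕ} (h : k ≤ K) : H.L k ∣ H.L K := by
  induction h with
  | refl => exact dvd_rfl
  | step _ ih => exact ih.trans (H.L_dvd_succ _)

lemma L_gt (k : ℕ) : (k : ℤ) < H.L k := by
  induction k with
  | zero => simp [L_zero]
  | succ k ih =>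
    have := H.L_three k
    have := H.L_pos k
    push_cast
    omega

lemma W_fin (k : ℕ) : (H.W k).Finite :=
  (H.lev k).fin.preimage (f := fun w => w - (H.lev k).a) (sub_left_injective.injOn)

lemma W_per {k : ℕ} {w : Om} (h : w ∈ H.W k) (j : ℤ) : w j = w (j % H.L k) := by
  have h1 := (H.lev k).perC _ h j
  have h2 := (H.lev k).pera j
  simp only [Pi.sub_apply] at h1
  rw [← h2] at h1
  exact sub_left_injective h1

lemma blk_blk {k K : ℕ} (h : k ≤ K) (x : Om) (s t : ℤ) (ht : H.L k ∣ t) :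
    blk (H.L k) (blk (H.L K) x s) t = blk (H.L k) x (s + t % H.L K) := by
  funext j
  simp only [blk]
  congr 1
  obtain ⟨c, hc⟩ := H.L_dvd h
  have a1 := Int.emod_nonneg j (H.L_pos k).ne'
  have a2 := Int.emod_lt_of_pos j (H.L_pos k)
  have a3 := Int.emod_nonneg t (H.L_pos K).ne'
  have a4 := Int.emod_lt_of_pos t (H.L_pos K)
  obtain ⟨d, hd⟩ : H.L k ∣ t % H.L K := by
    rw [Int.emod_def]
    exact dvd_sub ht ((H.L_dvd h).mul_right _)
  have a5 : d < c := by
    rw [hd, hc] at a4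
    exact lt_of_mul_lt_mul_left a4 (H.L_pos k).le
  rw [add_assoc, ← Int.emod_add_emod t, Int.emod_eq_of_lt (by omega)]
  have := H.L_pos k
  rw [hd, hc]
  nlinarith

lemma sub_gen (P : ℕ → Set Om) (hper : ∀ k, ∀ w ∈ P k, ∀ j, w j = w (j % H.L k))
    (hst : ∀ k, ∀ w ∈ P (k + 1), ∀ i, blk (H.L k) w (i * H.L k) ∈ P k)
    {k K : ℕ} (h : k ≤ K) {w : Om} (hw : w ∈ P K) {s : ℤ} (hs : H.L k ∣ s) :
    blk (H.L k) w s ∈ P k := by
  induction h generalizing w s with
  | refl =>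
    have : blk (H.L k) w s = w := by
      funext j
      obtain ⟨c, rfl⟩ := hs
      simp only [blk]
      rw [hper k w hw j, hper k w hw (_ + _), add_comm, Int.add_mul_emod_self_left,
        Int.emod_emod_of_dvd _ dvd_rfl]
    rwa [this]
  | @step K h ih =>
    have h2 := ih (hst K w hw (s / H.L K)) hs
    rwa [H.blk_blk h _ _ _ hs, mul_comm, Int.mul_ediv_add_emod] at h2

lemma sub_C {k K : ℕ} (h : k ≤ K) {w : Om} (hw : w ∈ H.C K) {s : ℤ} (hs : H.L k ∣ s) :
    blk (H.L k) w s ∈ H.C k :=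
  H.sub_gen H.C (fun k => (H.lev k).perC) (fun k => by
    obtain ⟨b, -, -, h, -⟩ := H.rel k
    exact h) h hw hs

lemma sub_W {k K : ℕ} (h : k ≤ K) {w : Om} (hw : w ∈ H.W K) {s : ℤ} (hs : H.L k ∣ s) :
    blk (H.L k) w s ∈ H.W k :=
  H.sub_gen H.W (fun k w hw => H.W_per hw) (fun k w hw i => by
    obtain ⟨b, -, -, h1, h2, -⟩ := H.rel k
    have := add_mem (h1 _ hw i) (h2 i)
    rw [← add_sub_assoc, ← blk_add, sub_add_cancel] at this
    exact this) h hw hs

lemma triple {k : ℕ} {u0 u1 u2 : Om} (h0 : u0 ∈ H.W k) (h1 : u1 ∈ H.W k) (h2 : u2 ∈ H.W k) :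
    ∃ w ∈ H.W (k + 1), blk (H.L k) w (0 * H.L k) = u0 ∧ blk (H.L k) w (1 * H.L k) = u1 ∧
      blk (H.L k) w (2 * H.L k) = u2 := by
  obtain ⟨b, -, -, -, a2, -, a4, -⟩ := H.rel k
  let u : ℤ → Om := fun i => if i = 0 then u0 else if i = 1 then u1 else u2
  have hu : ∀ i, u i ∈ H.W k := by
    intro i
    simp only [u]
    split_ifs <;> assumption
  obtain ⟨c, hc, e⟩ := a4 (fun i => u i - blk (H.L k) (H.lev (k + 1)).a (i * H.L k)) fun i => by
    have := sub_mem (hu i) (a2 i)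
    rwa [sub_sub_sub_cancel_right] at this
  have key : ∀ i, 0 ≤ i → i ≤ 2 → blk (H.L k) ((H.lev (k + 1)).a + c) (i * H.L k) = u i := by
    intro i i0 i1
    rw [blk_add]
    erw [e i i0 i1]
    simp
  refine ⟨(H.lev (k + 1)).a + c, by simpa [W] using hc, ?_, ?_, ?_⟩
  · rw [key 0 le_rfl (by norm_num)]; simp [u]
  · rw [key 1 (by norm_num) (by norm_num)]; simp [u]
  · rw [key 2 (by norm_num) le_rfl]; simp [u]

lemma surj {k : ℕ} {w u : Om} (hw : w ∈ H.W (k + 1)) (hu : u ∈ H.W k) :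
    ∃ i, 0 ≤ i * H.L k ∧ i * H.L k < H.L (k + 1) ∧ blk (H.L k) w (i * H.L k) = u := by
  obtain ⟨b, -, a0, -, -, a3, -⟩ := H.rel k
  obtain ⟨i, i0, i1, e⟩ := a3 _ hw _ hu
  refine ⟨i, mul_nonneg i0 (H.L_pos k).le, ?_, by simpa [L] using e⟩
  change H.L (k + 1) = b * H.L k at a0
  rw [a0]
  exact mul_lt_mul_of_pos_right i1 (H.L_pos k)

abbrev Amb := Om × (ℕ → ℤ)

def Sk (o : ℕ → ℤ) : Prop := ∀ k, 0 ≤ o k ∧ o k < H.L k ∧ o k = o (k + 1) % H.L k

def XK (K : ℕ) : Set Amb :=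
  {p | H.Sk p.2 ∧ ∀ k ≤ K, ∀ s, H.L k ∣ s + p.2 k → blk (H.L k) p.1 s ∈ H.W k}

def XX : Set Amb := {p | H.Sk p.2 ∧ ∀ k, ∀ s, H.L k ∣ s + p.2 k → blk (H.L k) p.1 s ∈ H.W k}

lemma blk_cont (l s : ℤ) : Continuous fun p : Amb => blk l p.1 s := by
  unfold blk
  fun_prop

lemma cl1 (k : ℕ) (Q : ℤ → Prop) : IsClosed {p : Amb | Q (p.2 k)} :=
  (isClosed_discrete {z | Q z}).preimage (show Continuous fun p : Amb => p.2 k by fun_prop)

lemma Sk_closed : IsClosed {p : Amb | H.Sk p.2} := by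
  unfold Sk
  rw [setOf_forall]
  refine isClosed_iInter fun k => ?_
  exact (isClosed_discrete {z : ℤ × ℤ | 0 ≤ z.1 ∧ z.1 < H.L k ∧ z.1 = z.2 % H.L k}).preimage
    (show Continuous fun p : Amb => (p.2 k, p.2 (k + 1)) by fun_prop)

lemma cond_closed (k : ℕ) (s : ℤ) :
    IsClosed {p : Amb | H.L k ∣ s + p.2 k → blk (H.L k) p.1 s ∈ H.W k} := by
  have : {p : Amb | H.L k ∣ s + p.2 k → blk (H.L k) p.1 s ∈ H.W k} =
      {p : Amb | ¬ H.L k ∣ s + p.2 k} ∪ (fun p : Amb => blk (H.L k) p.1 s) ⁻¹' H.W k := by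
    ext p
    simp only [mem_setOf_eq, mem_union, mem_preimage]
    tauto
  rw [this]
  exact (cl1 k fun z => ¬ H.L k ∣ s + z).union ((H.W_fin k).isClosed.preimage (blk_cont _ _))

lemma XK_closed (K : ℕ) : IsClosed (H.XK K) := by
  refine H.Sk_closed.and ?_
  simp only [setOf_forall]
  exact isClosed_iInter fun k => isClosed_iInter fun _ => isClosed_iInter fun s => by
    simpa only [setOf_forall] using H.cond_closed k s

lemma XK_compact (K : ℕ) : IsCompact (H.XK K) := by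
  have h : IsCompact ((univ : Set Om) ×ˢ (univ.pi fun k : ℕ => Set.Ico (0 : ℤ) (H.L k))) :=
    isCompact_univ.prod (isCompact_univ_pi fun k => (Set.finite_Ico _ _).isCompact)
  exact h.of_isClosed_subset (H.XK_closed K) fun p hp =>
    ⟨trivial, fun k _ => ⟨(hp.1 k).1, (hp.1 k).2.1⟩⟩

lemma XX_eq : H.XX = ⋂ K, H.XK K := by
  ext p
  simp only [mem_iInter]
  exact ⟨fun h K => ⟨h.1, fun k _ => h.2 k⟩, fun h => ⟨(h 0).1, fun k => (h k).2 k le_rfl⟩⟩

lemma XX_compact : IsCompact H.XX := by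
  rw [XX_eq]
  exact (H.XK_compact 0).of_isClosed_subset (isClosed_iInter H.XK_closed) (iInter_subset _ 0)

lemma XX_ne : H.XX.Nonempty := by
  rw [XX_eq]
  refine IsCompact.nonempty_iInter_of_sequence_nonempty_isCompact_isClosed _
    (fun K p hp => ⟨hp.1, fun k hk => hp.2 k (by omega)⟩) (fun K => ?_) (H.XK_compact 0)
    H.XK_closed
  have hw : (H.lev K).a ∈ H.W K := by simp [W]
  exact ⟨(_, 0), fun k => ⟨le_rfl, H.L_pos k, by simp⟩, fun k hk s hs =>
    H.sub_W hk hw (by simpa using hs)⟩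

variable {H}

lemma Sk.mod {o : ℕ → ℤ} (h : H.Sk o) {k K : ℕ} (hk : k ≤ K) : o k = o K % H.L k := by
  induction hk with
  | refl => rw [Int.emod_eq_of_lt (h k).1 (h k).2.1]
  | @step K hk ih => rw [ih, (h K).2.2, Int.emod_emod_of_dvd _ (H.L_dvd hk)]

lemma Sk.dvd {o : ℕ → ℤ} (h : H.Sk o) {k K : ℕ} (hk : k ≤ K) : H.L k ∣ o K - o k := by
  rw [h.mod hk]
  exact Int.dvd_self_sub_emod

variable (H)

def sh (n : ℤ) (p : Amb) : Amb := (fun j => p.1 (j + n), fun k => (p.2 k + n) % H.L k)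

lemma sh_mem (n : ℤ) {p : Amb} (h : p ∈ H.XX) : H.sh n p ∈ H.XX := by
  refine ⟨fun k => ⟨Int.emod_nonneg _ (H.L_pos k).ne', Int.emod_lt_of_pos _ (H.L_pos k), ?_⟩,
    fun k s hs => ?_⟩
  · simp only [sh]
    rw [Int.emod_emod_of_dvd _ (H.L_dvd_succ k), (h.1 k).2.2, Int.emod_add_emod]
  · have : blk (H.L k) (H.sh n p).1 s = blk (H.L k) p.1 (s + n) := by
      funext j
      simp only [blk, sh]
      congr 1
      ring
    rw [this]
    refine h.2 k _ ?_
    simp only [sh] at hs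
    have e : s + n + p.2 k = s + (p.2 k + n) % H.L k + (p.2 k + n - (p.2 k + n) % H.L k) := by ring
    rw [e]
    exact dvd_add hs Int.dvd_self_sub_emod

lemma sh_sh (n n' : ℤ) (p : Amb) : H.sh n (H.sh n' p) = H.sh (n + n') p := by
  simp only [sh, Int.emod_add_emod]
  congr 1
  · funext j; rw [add_assoc]
  · funext k; congr 1; ring

lemma sh_zero {p : Amb} (h : p ∈ H.XX) : H.sh 0 p = p := by
  simp only [sh, add_zero]
  refine Prod.ext rfl (funext fun k => Int.emod_eq_of_lt (h.1 k).1 (h.1 k).2.1)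

lemma sh_cont (n : ℤ) : Continuous (H.sh n) := by
  unfold sh
  refine Continuous.prodMk (by fun_prop) (continuous_pi fun k => ?_)
  exact (continuous_of_discreteTopology (f := fun z : ℤ => (z + n) % H.L k)).comp
    (show Continuous fun p : Amb => p.2 k by fun_prop)

def Tn (n : ℤ) : H.XX ≃ₜ H.XX where
  toFun p := ⟨H.sh n p.1, H.sh_mem _ p.2⟩
  invFun p := ⟨H.sh (-n) p.1, H.sh_mem _ p.2⟩
  left_inv p := Subtype.ext (by simp [sh_sh, H.sh_zero p.2])
  right_inv p := Subtype.ext (by simp [sh_sh, H.sh_zero p.2])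
  continuous_toFun := ((H.sh_cont _).comp continuous_subtype_val).subtype_mk _
  continuous_invFun := ((H.sh_cont _).comp continuous_subtype_val).subtype_mk _

def Th : Multiplicative ℤ →* (H.XX ≃ₜ H.XX) where
  toFun n := H.Tn n.toAdd
  map_one' := by
    ext1 p
    exact Subtype.ext (H.sh_zero p.2)
  map_mul' n n' := by
    ext1 p
    exact Subtype.ext (H.sh_sh _ _ _).symm

lemma T_zpow (n : ℤ) (p : H.XX) : ((H.Tn 1 ^ n) p).1 = H.sh n p.1 := by
  have : H.Tn 1 ^ n = H.Tn n := by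
    change H.Th (Multiplicative.ofAdd 1) ^ n = H.Th (Multiplicative.ofAdd n)
    rw [← map_zpow, ← ofAdd_zsmul]
    simp
  rw [this]
  rfl

lemma approx (x y : H.XX) (K : ℕ) : ∃ n : ℤ, (∀ t : ℤ, |t| ≤ K → (H.sh n x.1).1 t = y.1.1 t) ∧
    ∀ k ≤ K, (H.sh n x.1).2 k = y.1.2 k := by
  obtain ⟨⟨x, o⟩, hx1, hx2⟩ := x
  obtain ⟨⟨y, q⟩, hy1, hy2⟩ := y
  simp only at hx1 hx2 hy1 hy2
  obtain ⟨w, hw, e0, e1, e2⟩ := H.triple (hy2 K (-q K - H.L K) ⟨-1, by ring⟩)
    (hy2 K (-q K) (by simp)) (hy2 K (-q K + H.L K) (by simp))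
  have hB := hx2 (K + 2) (H.L (K + 2) - o (K + 2)) (by simp)
  obtain ⟨i, i0, i1, hiw⟩ := H.surj hB hw
  have l0 := H.L_pos K
  have l1 := H.L_pos (K + 1)
  have l2 := (hx1 (K + 2)).2.1
  have q0 := (hy1 K).1
  have q1 := (hy1 K).2.1
  rw [H.blk_blk (by omega) _ _ _ (dvd_mul_left _ _), Int.emod_eq_of_lt i0 i1] at hiw
  set s := H.L (K + 2) - o (K + 2) + i * H.L (K + 1) with hs
  have h3 := H.L_three K
  refine ⟨s + H.L K + q K, fun t ht => ?_, fun k hk => ?_⟩
  · have hK := H.L_gt K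
    rw [abs_le] at ht
    simp only [sh]
    have key : ∀ a : ℤ, 0 ≤ a → a ≤ 2 → a * H.L K ≤ t + H.L K + q K →
        t + H.L K + q K < (a + 1) * H.L K →
        blk (H.L K) w (a * H.L K) = blk (H.L K) y (-q K + (a - 1) * H.L K) →
        x (t + (s + H.L K + q K)) = y t := by
      intro a a0 a1 a2 a3 e
      have := congrFun e (t + H.L K + q K - a * H.L K)
      rw [← hiw] at this
      simp only [blk] at this
      rw [Int.emod_eq_of_lt (a := t + H.L K + q K - a * H.L K) (by omega) (by linarith),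
        Int.emod_eq_of_lt (by omega) (by nlinarith)] at this
      convert this using 2 <;> ring_nf
    rcases lt_or_ge (t + H.L K + q K) (H.L K) with c1 | c1
    · exact key 0 le_rfl (by norm_num) (by omega) (by omega) (by rw [e0]; congr 1; ring)
    rcases lt_or_ge (t + H.L K + q K) (2 * H.L K) with c2 | c2
    · exact key 1 (by norm_num) (by norm_num) (by omega) (by omega) (by rw [e1]; congr 1; ring)
    · exact key 2 (by norm_num) le_rfl (by omega) (by omega) (by rw [e2]; congr 1; ring)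
  · simp only [sh]
    rw [hy1.mod hk]
    rw [Int.emod_eq_emod_iff_emod_sub_eq_zero]
    refine Int.emod_eq_zero_of_dvd ?_
    have e : o k + (s + H.L K + q K) - q K =
        H.L (K + 2) - (o (K + 2) - o k) + i * H.L (K + 1) + H.L K := by rw [hs]; ring
    rw [e]
    exact dvd_add (dvd_add (dvd_sub (H.L_dvd (by omega)) (hx1.dvd (by omega)))
      ((H.L_dvd (by omega)).mul_left _)) (H.L_dvd hk)

lemma T_min (x : H.XX) : Dense (Set.range fun n : ℤ => (H.Tn 1 ^ n) x) := by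
  intro y
  choose n hn using H.approx x y
  refine mem_closure_of_tendsto (f := fun K => (H.Tn 1 ^ n K) x) (b := atTop) ?_
    (Eventually.of_forall fun K => ⟨_, rfl⟩)
  rw [tendsto_subtype_rng]
  simp only [T_zpow]
  refine (Prod.tendsto_iff _ _).mpr ⟨tendsto_pi_nhds.mpr fun t => ?_, tendsto_pi_nhds.mpr fun k => ?_⟩
  · refine tendsto_const_nhds.congr' ?_
    filter_upwards [eventually_ge_atTop t.natAbs] with K hK
    exact ((hn K).1 t (by rw [Int.abs_eq_natAbs]; exact_mod_cast hK)).symm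
  · refine tendsto_const_nhds.congr' ?_
    filter_upwards [eventually_ge_atTop k] with K hK
    exact ((hn K).2 k hK).symm

lemma sec_ex (k : ℕ) (s : ℤ) (v : ℤ → Om) : ∃ c ∈ H.C (k + 1), (∀ i, v i ∈ H.C k) →
    ∀ j, s ≤ j → j < s + H.L (k + 1) → (j ∈ E ∨ |j| ≤ H.L k) →
      blk (H.L k) c ((j - s) / H.L k * H.L k) = v ((j - s) / H.L k) := by
  by_cases hv : ∀ i, v i ∈ H.C k
  · obtain ⟨b, -, -, -, -, -, -, h⟩ := H.rel k
    obtain ⟨c, hc, e⟩ := h s v hv
    exact ⟨c, hc, fun _ => e⟩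
  · exact ⟨0, (H.lev (k + 1)).C.zero_mem, fun h => absurd h hv⟩

noncomputable def sec (k : ℕ) (s : ℤ) (v : ℤ → Om) : Om := (H.sec_ex k s v).choose

noncomputable def tau : ℕ → ℤ → Om → Om
  | 0, s, c => fun _ => c s
  | k + 1, s, c => H.sec k s fun i => tau k (s + (i * H.L k) % H.L (k + 1)) c

lemma tau_mem (k : ℕ) (s : ℤ) (c : Om) : H.tau k s c ∈ H.C k := by
  cases k with
  | zero => rw [C, H.zero]; exact fun _ => rfl
  | succ k => exact (H.sec_ex k s _).choose_spec.1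

lemma tau_loc (k : ℕ) : ∀ (s : ℤ) (c c' : Om), (∀ j, s ≤ j → j < s + H.L k → c j = c' j) →
    H.tau k s c = H.tau k s c' := by
  induction k with
  | zero =>
    intro s c c' h
    simp only [tau]
    rw [h s le_rfl (by have := H.L_pos 0; omega)]
  | succ k ih =>
    intro s c c' h
    have : (fun i => H.tau k (s + (i * H.L k) % H.L (k + 1)) c) =
        fun i => H.tau k (s + (i * H.L k) % H.L (k + 1)) c' := by
      funext i
      refine ih _ _ _ fun j j0 j1 => h j ?_ ?_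
      · have := Int.emod_nonneg (i * H.L k) (H.L_pos (k + 1)).ne'
        omega
      · obtain ⟨b, hb⟩ := H.L_dvd_succ k
        have h1 := Int.emod_lt_of_pos (i * H.L k) (H.L_pos (k + 1))
        obtain ⟨d, hd⟩ : H.L k ∣ (i * H.L k) % H.L (k + 1) := by
          rw [Int.emod_def]
          exact dvd_sub (dvd_mul_left _ _) ((H.L_dvd_succ k).mul_right _)
        rw [hd] at j1 h1
        rw [hb] at h1 ⊢
        have := lt_of_mul_lt_mul_left h1 (H.L_pos k).le
        have := H.L_pos k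
        nlinarith
    simp only [tau, this]

noncomputable def val (K : ℕ) (z : ℤ) (c : Om) (j : ℤ) : A :=
  H.tau K (j - (j + z) % H.L K) c ((j + z) % H.L K)

lemma val_succ {o : ℕ → ℤ} (ho : H.Sk o) (K : ℕ) (c : Om) {j : ℤ} (hj : j ∈ E ∨ |j| ≤ H.L K) :
    H.val (K + 1) (o (K + 1)) c j = H.val K (o K) c j := by
  have a0 := Int.emod_nonneg (j + o (K + 1)) (H.L_pos (K + 1)).ne'
  have a1 := Int.emod_lt_of_pos (j + o (K + 1)) (H.L_pos (K + 1))
  set r := (j + o (K + 1)) % H.L (K + 1) with hr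
  have e := (H.sec_ex K (j - r) fun i => H.tau K (j - r + (i * H.L K) % H.L (K + 1)) c).choose_spec.2
    (fun i => H.tau_mem _ _ _) j (by omega) (by omega) hj
  have e1 := congrFun e r
  have hm : r % H.L K = (j + o K) % H.L K := by
    rw [hr, Int.emod_emod_of_dvd _ (H.L_dvd_succ K), (ho K).2.2, Int.add_emod_emod]
  have e2 : r / H.L K * H.L K = r - r % H.L K := by
    rw [Int.emod_def]; ring
  have a2 := Int.emod_nonneg r (H.L_pos K).ne'
  have a3 : 0 ≤ r / H.L K * H.L K :=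
    mul_nonneg (Int.ediv_nonneg a0 (H.L_pos K).le) (H.L_pos K).le
  simp only [sub_sub_cancel, blk] at e1
  rw [Int.emod_eq_of_lt a3 (by omega), (H.lev K).perC _ (H.tau_mem _ _ _) r, e2, sub_add_cancel]
    at e1
  simp only [val, tau, sec]
  rw [← hr, e1, ← hm]
  congr 1
  ring

lemma val_stab {o : ℕ → ℤ} (ho : H.Sk o) (c : Om) {j : ℤ} {k K : ℕ} (hj : j ∈ E ∨ |j| ≤ k)
    (hk : k ≤ K) : H.val K (o K) c j = H.val k (o k) c j := by
  induction hk with
  | refl => rfl
  | @step K hk ih =>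
    rw [H.val_succ ho K c (hj.imp_right fun h => ?_), ih]
    have := H.L_gt K
    have : (k : ℤ) ≤ K := by exact_mod_cast hk
    omega

noncomputable def sect (o : ℕ → ℤ) (c : Om) : Om := fun j => H.val j.natAbs (o j.natAbs) c j

lemma sect_E {o : ℕ → ℤ} (ho : H.Sk o) (c : Om) {j : ℤ} (hj : j ∈ E) : H.sect o c j = c j := by
  rw [sect, H.val_stab ho c (Or.inl hj) (Nat.zero_le _)]
  simp [val, tau, L_zero]

lemma sect_eq {o : ℕ → ℤ} (ho : H.Sk o) (c : Om) {j : ℤ} {K : ℕ} (hj : |j| ≤ K) :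
    H.sect o c j = H.val K (o K) c j := by
  rw [sect, H.val_stab ho c (k := j.natAbs) (K := K) (Or.inr (by simp)) (by
    rw [Int.abs_eq_natAbs] at hj; exact_mod_cast hj)]

lemma sect_mem {o : ℕ → ℤ} (ho : H.Sk o) (c : Om) (k : ℕ) (s : ℤ) (hs : H.L k ∣ s + o k) :
    blk (H.L k) (H.sect o c) s ∈ H.C k := by
  obtain ⟨K, hk, hK⟩ : ∃ K : ℕ, k ≤ K ∧ |s| + H.L k ≤ K :=
    ⟨max k (|s| + H.L k).toNat, le_max_left _ _, by push_cast; omega⟩
  have hd : H.L k ∣ s + o K := by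
    have := dvd_add hs (ho.dvd hk)
    rwa [show s + o k + (o K - o k) = s + o K by ring] at this
  have h1 := H.sub_C hk (H.tau_mem K (s - (s + o K) % H.L K) c) hd
  convert h1 using 1
  funext j
  have a1 := Int.emod_nonneg j (H.L_pos k).ne'
  have a2 := Int.emod_lt_of_pos j (H.L_pos k)
  simp only [blk]
  rw [H.sect_eq ho c (K := K) (by
    have := abs_add_le s (j % H.L k)
    rw [abs_of_nonneg a1] at this
    omega), val, (H.lev K).perC _ (H.tau_mem _ _ _) (s + o K + j % H.L k)]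
  have e : (s + j % H.L k + o K) % H.L K = (s + o K) % H.L K + j % H.L k := by
    obtain ⟨b, hb⟩ := H.L_dvd hk
    have a3 := Int.emod_nonneg (s + o K) (H.L_pos K).ne'
    have a4 := Int.emod_lt_of_pos (s + o K) (H.L_pos K)
    obtain ⟨d, hd'⟩ : H.L k ∣ (s + o K) % H.L K := by
      rw [Int.emod_def]
      exact dvd_sub hd ((H.L_dvd hk).mul_right _)
    have a5 : d < b := by
      rw [hd', hb] at a4
      exact lt_of_mul_lt_mul_left a4 (H.L_pos k).le
    rw [add_right_comm, ← Int.emod_add_emod, Int.emod_eq_of_lt (by omega)]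
    have := H.L_pos k
    rw [hd', hb]
    nlinarith
  change _ = H.tau K _ c ((s + o K + j % H.L k) % H.L K)
  rw [add_right_comm s (o K), e]
  congr 1
  ring

lemma sect_cont {Z : Type} [TopologicalSpace Z] {o : Z → ℕ → ℤ} {c : Z → Om} (ho : Continuous o)
    (hc : Continuous c) : Continuous fun z => H.sect (o z) (c z) := by
  refine continuous_pi fun j => continuous_iff_continuousAt.2 fun z => ?_
  set K := j.natAbs
  have h1 : ∀ᶠ q in 𝓝 z, o q K = o z K :=
    (show Continuous fun q => o q K by fun_prop).continuousAt.eventually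
      (p := fun t => t = o z K) (by simp [nhds_discrete])
  have h2 : ∀ᶠ q in 𝓝 z, ∀ i ∈ Set.Ico (j - (j + o z K) % H.L K) (j - (j + o z K) % H.L K + H.L K),
      c q i = c z i := by
    refine (eventually_all_finite (Set.finite_Ico _ _)).2 fun i _ => ?_
    exact (show Continuous fun q => c q i by fun_prop).continuousAt.eventually
      (p := fun t => t = c z i) (by simp [nhds_discrete])
  refine ContinuousAt.congr (f := fun _ => H.sect (o z) (c z) j) continuousAt_const ?_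
  filter_upwards [h1, h2] with q a1 a2
  change H.val K _ _ _ = H.val K _ _ _
  rw [a1, val, val, H.tau_loc K _ (c q) (c z) fun i i0 i1 => a2 i ⟨i0, i1⟩]

lemma add_mem_XX {p : Amb} (hp : p ∈ H.XX) (c : Om) : (p.1 + H.sect p.2 c, p.2) ∈ H.XX := by
  refine ⟨hp.1, fun k s hs => ?_⟩
  have := add_mem (hp.2 k s hs) (H.sect_mem hp.1 c k s hs)
  rw [sub_add_eq_add_sub] at this
  exact this

end Hier

end Pool.Agent.H29.PJ
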