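import Pool.Agent.H29.PJ3

set_option autoImplicit false

namespace Pool.Agent.H29.PJ

open Function Set Filter Topology

def EE (f : Bool × Bool → ℕ → ℤ) : Set ℤ := {j | j = 0 ∨ ∃ e, j ∈ range (f e)}

lemma EE_thin {f : Bool × Bool → ℕ → ℤ} (hf : ∀ e, Sparse (f e)) : Thin (EE f) := by
  classical
  intro s r
  refine le_trans (Finset.card_le_card (t := insert 0 (Finset.univ.biUnion fun e =>
    (Finset.Ico s (s + r ^ 2)).filter (· ∈ range (f e)))) ?_) ?_
  · intro j hj
    obtain ⟨h1, h2 | ⟨e, h2⟩⟩ := Finset.mem_filter.1 hj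
    · simp [h2]
    · exact Finset.mem_insert_of_mem (Finset.mem_biUnion.2
        ⟨e, Finset.mem_univ _, Finset.mem_filter.2 ⟨h1, h2⟩⟩)
  · refine (Finset.card_insert_le _ _).trans (Nat.add_le_add_right ?_ _)
    refine Finset.card_biUnion_le.trans ((Finset.sum_le_card_nsmul _ _ (2 * r) fun e _ => ?_).trans ?_)
    · convert (hf e).count s r
    · simp
      omega

def be (f : Bool × Bool → ℕ → ℤ) (ε : Bool) (n : ℕ) (x : Om) : ZMod 2 :=
  x (f (ε, false) n) (ε, false) + x (f (ε, true) n) (ε, true) + x 0 (ε, false) + x 0 (ε, true) + 1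

open Classical in
noncomputable def de (f : Bool × Bool → ℕ → ℤ) (x : Om) : Om := fun j e =>
  if h : ∃ n, f e n = j then be f e.1 h.choose x else 0

lemma de_cont (f : Bool × Bool → ℕ → ℤ) : Continuous (de f) := by
  refine continuous_pi fun j => continuous_pi fun e => ?_
  unfold de
  split_ifs
  · unfold be
    fun_prop
  · exact continuous_const

lemma de_f {f : Bool × Bool → ℕ → ℤ} (hf : ∀ e, Sparse (f e)) (x : Om) (e : Bool × Bool) (n : ℕ) :
    de f x (f e n) e = be f e.1 n x := by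
  have h : ∃ m, f e m = f e n := ⟨n, rfl⟩
  rw [de, dif_pos h, (hf e).inj h.choose_spec]

lemma de_zero {f : Bool × Bool → ℕ → ℤ} (hf : ∀ e, Sparse (f e)) (x : Om) : de f x 0 = 0 := by
  funext e
  rw [de, dif_neg]
  · rfl
  · rintro ⟨n, h⟩
    exact (hf e).1 n h

variable {f : Bool × Bool → ℕ → ℤ} (H : Hier (EE f))

noncomputable def ph (p : H.XX) : H.XX :=
  ⟨(p.1.1 + H.sect p.1.2 (de f p.1.1), p.1.2), H.add_mem_XX p.2 _⟩

lemma ph_zero (hf : ∀ e, Sparse (f e)) (p : H.XX) : (ph H p).1.1 0 = p.1.1 0 := by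
  simp only [ph, Pi.add_apply]
  rw [H.sect_E p.2.1 _ (Or.inl rfl), de_zero hf, add_zero]

lemma ph_f (hf : ∀ e, Sparse (f e)) (p : H.XX) (e : Bool × Bool) (n : ℕ) :
    (ph H p).1.1 (f e n) e = p.1.1 (f e n) e + be f e.1 n p.1.1 := by
  simp only [ph, Pi.add_apply]
  rw [H.sect_E p.2.1 _ (Or.inr ⟨e, n, rfl⟩), de_f hf]

lemma de_ph (hf : ∀ e, Sparse (f e)) (p : H.XX) : de f (ph H p).1.1 = de f p.1.1 := by
  funext j e
  unfold de
  split_ifs with h
  · rw [be, ph_f H hf, ph_f H hf, ph_zero H hf]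
    simp only
    generalize hb : be f e.1 h.choose p.1.1 = b
    rw [be] at hb
    have := CharTwo.add_self_eq_zero b
    linear_combination hb + this
  · rfl

lemma ph_ph (hf : ∀ e, Sparse (f e)) (p : H.XX) : ph H (ph H p) = p := by
  apply Subtype.ext
  refine Prod.ext ?_ rfl
  change (ph H p).1.1 + H.sect p.1.2 (de f (ph H p).1.1) = _
  rw [de_ph H hf]
  simp only [ph]
  rw [add_assoc, two_smul_zero, add_zero]

lemma ph_cont : Continuous (ph H) := by
  refine Continuous.subtype_mk (Continuous.prodMk (Continuous.add (by fun_prop) ?_) (by fun_prop)) _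
  exact H.sect_cont (by fun_prop) ((de_cont f).comp (by fun_prop))

noncomputable def Ph (hf : ∀ e, Sparse (f e)) : H.XX ≃ₜ H.XX where
  toFun := ph H
  invFun := ph H
  left_inv := ph_ph H hf
  right_inv := ph_ph H hf
  continuous_toFun := ph_cont H
  continuous_invFun := ph_cont H

theorem main (hf : ∀ e, Sparse (f e)) : ∃ (X : Type) (_ : MetricSpace X) (_ : CompactSpace X)
    (_ : Nonempty X) (T S : X ≃ₜ X), (∀ x : X, Dense (range fun n : ℤ => (T ^ n) x)) ∧
      (∀ x : X, Dense (range fun n : ℤ => (S ^ n) x)) ∧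
      ∀ x : X, ∃ U ∈ 𝓝 x, ∀ ε n, ¬ ((T ^ f (ε, false) n) x ∈ U ∧ (S ^ f (ε, true) n) x ∈ U) := by
  obtain ⟨H⟩ := hier_ex (EE_thin hf)
  letI : MetricSpace H.XX := TopologicalSpace.metrizableSpaceMetric H.XX
  let φ := Ph H hf
  have hS : ∀ (n : ℤ) x, ((φ⁻¹ * H.Tn 1 * φ) ^ n) x = φ.symm ((H.Tn 1 ^ n) (φ x)) := by
    intro n x
    have := conj_zpow (a := φ⁻¹) (b := H.Tn 1) (i := n)
    rw [inv_inv] at this
    rw [this]
    rfl
  refine ⟨H.XX, inferInstance, isCompact_iff_compactSpace.mp H.XX_compact, H.XX_ne.to_subtype,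
    H.Tn 1, φ⁻¹ * H.Tn 1 * φ, H.T_min, fun x => ?_, fun x => ?_⟩
  · have h1 : (range fun n : ℤ => ((φ⁻¹ * H.Tn 1 * φ) ^ n) x) =
        φ.symm '' (range fun n : ℤ => (H.Tn 1 ^ n) (φ x)) := by
      rw [← range_comp]
      congr 1
      funext n
      exact hS n x
    rw [h1]
    exact φ.symm.surjective.denseRange.dense_image φ.symm.continuous (H.T_min _)
  · have h0 : ∀ g : H.XX → A, Continuous g → ∀ᶠ q in 𝓝 x, g q = g x := fun g hg =>
      hg.continuousAt.eventually (p := fun z => z = g x) (by simp [nhds_discrete])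
    have h1 := (h0 (fun q => q.1.1 0) (by fun_prop)).and
      (h0 (fun q => (φ q).1.1 0)
        ((show Continuous fun q : H.XX => q.1.1 0 by fun_prop).comp φ.continuous))
    refine ⟨_, h1, fun ε n ⟨⟨e1, _⟩, _, e2⟩ => ?_⟩
    simp only [hS, Homeomorph.apply_symm_apply, Hier.T_zpow, Hier.sh, zero_add] at e1 e2
    have a1 := ph_f H hf x (ε, true) n
    change (ph H x).1.1 _ = (ph H x).1.1 0 at e2
    rw [e2, ph_zero H hf, be, e1] at a1
    have a2 := CharTwo.add_self_eq_zero (x.1.1 0 (ε, false))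
    have a3 := CharTwo.add_self_eq_zero (x.1.1 (f (ε, true) n) (ε, true))
    have : (1 : ZMod 2) = 0 := by linear_combination -a1 - a2 - a3
    exact one_ne_zero this

end Pool.Agent.H29.PJ
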