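import Mathlib

open Set

namespace Pool.Agent.H29.PS

/-- the ambient space -/
abbrev W : Type := WithLp 2 (ℂ × WithLp 1 (ℝ × ℝ))

/-- the embedding defining the norm -/
noncomputable def G (s : ℝ) : ℂ →ₗ[ℝ] W where
  toFun a := WithLp.toLp 2 (a, WithLp.toLp 1 (s * a.re, s * a.im))
  map_add' a b := by
    rw [← WithLp.toLp_add, Prod.mk_add_mk, ← WithLp.toLp_add]; simp [mul_add]
  map_smul' c a := by
    rw [← WithLp.toLp_smul, Prod.smul_mk, ← WithLp.toLp_smul]; simp [mul_left_comm]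

/-- the plane with the norm `(|a|² + s² (|re a| + |im a|)²)^(1/2)` -/
def P (_ : ℝ) : Type := ℂ

variable {s : ℝ}

noncomputable instance : AddCommGroup (P s) := inferInstanceAs (AddCommGroup ℂ)
noncomputable instance : Module ℝ (P s) := inferInstanceAs (Module ℝ ℂ)
instance : Module.Finite ℝ (P s) := inferInstanceAs (Module.Finite ℝ ℂ)
noncomputable instance : NormedAddCommGroup (P s) :=
  NormedAddCommGroup.induced (P s) W (G s : P s →ₗ[ℝ] W) fun _ _ h => congrArg (·.fst) h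
noncomputable instance : NormedSpace ℝ (P s) := NormedSpace.induced ℝ (P s) W (G s : P s →ₗ[ℝ] W)
instance : CompleteSpace (P s) := FiniteDimensional.complete ℝ _

/-- a point from its coordinates -/
def pt (s x y : ℝ) : P s := (⟨x, y⟩ : ℂ)

lemma nsq (a : P s) : ‖a‖ ^ 2 = a.re ^ 2 + a.im ^ 2 + s ^ 2 * (|a.re| + |a.im|) ^ 2 := by
  show ‖G s a‖ ^ 2 = _
  rw [WithLp.prod_norm_sq_eq_of_L2]
  show ‖(show ℂ from a)‖ ^ 2 + ‖WithLp.toLp 1 (s * a.re, s * a.im)‖ ^ 2 = _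
  rw [WithLp.prod_norm_eq_of_L1, Complex.sq_norm, Complex.normSq_apply]
  show _ + (|s * a.re| + |s * a.im|) ^ 2 = _
  rw [abs_mul, abs_mul, ← mul_add, mul_pow, sq_abs]
  ring

lemma add_re (a b : P s) : (a + b).re = a.re + b.re := rfl
lemma add_im (a b : P s) : (a + b).im = a.im + b.im := rfl
lemma sub_re (a b : P s) : (a - b).re = a.re - b.re := rfl
lemma sub_im (a b : P s) : (a - b).im = a.im - b.im := rfl

lemma nu_le (x y : ℝ) : (|x| + |y|) ^ 2 ≤ 2 * (x ^ 2 + y ^ 2) := by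
  nlinarith [sq_abs x, sq_abs y, sq_nonneg (|x| - |y|)]

lemma le_nu (x y : ℝ) : x ^ 2 + y ^ 2 ≤ (|x| + |y|) ^ 2 := by
  nlinarith [sq_abs x, sq_abs y, mul_nonneg (abs_nonneg x) (abs_nonneg y)]

lemma nu_add (x y z w : ℝ) :
    (|x + z| + |y + w|) ^ 2 ≤ 2 * (|x| + |y|) ^ 2 + 2 * (|z| + |w|) ^ 2 := by
  have := pow_le_pow_left₀ (by positivity) (add_le_add (abs_add_le x z) (abs_add_le y w)) 2
  nlinarith [sq_nonneg (|x| + |y| - (|z| + |w|))]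

lemma sc (a b : P s) :
    ‖a + b‖ ^ 2 + ((a - b).re ^ 2 + (a - b).im ^ 2) ≤ 2 * ‖a‖ ^ 2 + 2 * ‖b‖ ^ 2 := by
  simp only [nsq, add_re, add_im, sub_re, sub_im]
  nlinarith [mul_le_mul_of_nonneg_left (nu_add a.re a.im b.re b.im) (sq_nonneg s)]

lemma uc (h : s ^ 2 ≤ 1) (a b : P s) :
    ‖a + b‖ ^ 2 + 1 / 3 * ‖a - b‖ ^ 2 ≤ 2 * ‖a‖ ^ 2 + 2 * ‖b‖ ^ 2 := by
  have h1 := sc a b
  have h2 := mul_le_mul h (nu_le (a - b).re (a - b).im) (sq_nonneg _) zero_le_one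
  rw [nsq (a - b)]
  linarith

lemma strict (a b : P s) : ‖a + b‖ ^ 2 + ‖a - b‖ ^ 2 + (1 - s ^ 2) * (a.re ^ 2 + a.im ^ 2) +
    (1 - s ^ 2) * (b.re ^ 2 + b.im ^ 2) ≤ 3 * ‖a‖ ^ 2 + 3 * ‖b‖ ^ 2 := by
  simp only [nsq, add_re, add_im, sub_re, sub_im]
  nlinarith [mul_le_mul_of_nonneg_left (nu_le (a.re + b.re) (a.im + b.im)) (sq_nonneg s),
    mul_le_mul_of_nonneg_left (nu_le (a.re - b.re) (a.im - b.im)) (sq_nonneg s),
    mul_le_mul_of_nonneg_left (le_nu a.re a.im) (sq_nonneg s),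
    mul_le_mul_of_nonneg_left (le_nu b.re b.im) (sq_nonneg s)]

lemma zero_of (a : P s) (h : a.re ^ 2 + a.im ^ 2 ≤ 0) : a = 0 :=
  Complex.ext (by show a.re = 0; nlinarith [sq_nonneg a.re, sq_nonneg a.im])
    (by show a.im = 0; nlinarith [sq_nonneg a.re, sq_nonneg a.im])

/-- the `ℓ²`-sum of the planes -/
abbrev X (s : ℕ → ℝ) : Type := lp (fun n => P (s n)) 2

lemma hs {s : ℕ → ℝ} (f : X s) : HasSum (fun n => ‖f n‖ ^ 2) (‖f‖ ^ 2) := by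
  simpa using lp.hasSum_norm (p := 2) (by norm_num) f

lemma Xuc {s : ℕ → ℝ} (h : ∀ n, s n ^ 2 ≤ 1) (x y : X s) :
    ‖x + y‖ ^ 2 + 1 / 3 * ‖x - y‖ ^ 2 ≤ 2 * ‖x‖ ^ 2 + 2 * ‖y‖ ^ 2 :=
  hasSum_le (fun n => uc (h n) (x n) (y n)) ((hs (x + y)).add ((hs (x - y)).mul_left _))
    (((hs x).mul_left 2).add ((hs y).mul_left 2))

lemma Xsc {s : ℕ → ℝ} (x y : X s) (h : 2 * ‖x‖ ^ 2 + 2 * ‖y‖ ^ 2 ≤ ‖x + y‖ ^ 2) : x = y := by
  refine lp.ext (funext fun n => sub_eq_zero.1 (zero_of _ ?_))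
  have := le_hasSum ((((hs x).mul_left 2).add ((hs y).mul_left 2)).sub (hs (x + y))) n
    fun k _ => sub_nonneg.2 ((le_add_of_nonneg_right (by positivity)).trans (sc (x k) (y k)))
  have h2 := sc (x n) (y n)
  have h3 : (x + y) n = x n + y n := rfl
  rw [h3] at this
  linarith

lemma Xstrict {s : ℕ → ℝ} (h : ∀ n, s n ^ 2 < 1) (x y : X s)
    (e : 3 * ‖x‖ ^ 2 + 3 * ‖y‖ ^ 2 ≤ ‖x + y‖ ^ 2 + ‖x - y‖ ^ 2) : x = 0 := by
  refine lp.ext (funext fun n => zero_of _ ?_)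
  have p : ∀ k (a : P (s k)), 0 ≤ (1 - s k ^ 2) * (a.re ^ 2 + a.im ^ 2) := fun k a =>
    mul_nonneg (sub_pos.2 (h k)).le (by positivity)
  have := le_hasSum ((((hs x).mul_left 3).add ((hs y).mul_left 3)).sub
    ((hs (x + y)).add (hs (x - y)))) n fun k _ => sub_nonneg.2 (by
      have := strict (x k) (y k)
      show ‖x k + y k‖ ^ 2 + ‖x k - y k‖ ^ 2 ≤ _
      linarith [p k (x k), p k (y k)])
  have h2 := strict (x n) (y n)
  have h3 : (x + y) n = x n + y n := rfl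
  have h4 : (x - y) n = x n - y n := rfl
  rw [h3, h4] at this
  exact nonpos_of_mul_nonpos_right (a := 1 - s n ^ 2) (by linarith [p n (y n)]) (sub_pos.2 (h n))

end Pool.Agent.H29.PS
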