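import Pool.Agent.H29.PS1

open Set Filter Topology

namespace Pool.Agent.H29.PS

/-- the predual plane -/
abbrev Z : Type := P (3 / 4)

/-- the domain space -/
abbrev D : Type := Z →L[ℝ] ℝ

/-- first coordinate -/
noncomputable def cre : D := LinearMap.toContinuousLinearMap (Complex.reLm : Z →ₗ[ℝ] ℝ)

/-- second coordinate -/
noncomputable def cim : D := LinearMap.toContinuousLinearMap (Complex.imLm : Z →ₗ[ℝ] ℝ)

lemma dec (φ : D) (a : Z) : φ a = a.re * φ (pt _ 1 0) + a.im * φ (pt _ 0 1) := by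
  rw [← smul_eq_mul, ← smul_eq_mul, ← map_smul, ← map_smul, ← map_add]
  exact congrArg φ (Complex.ext (by show a.re = a.re * 1 - 0 * 0 + (a.im * 0 - 0 * 1); ring)
    (by show a.im = a.re * 0 + 0 * 1 + (a.im * 1 + 0 * 0); ring))

lemma n10 : ‖(pt _ 1 0 : Z)‖ = 5 / 4 := by
  rw [← sq_eq_sq₀ (norm_nonneg _) (by norm_num), nsq]; norm_num [pt]

lemma n01 : ‖(pt _ 0 1 : Z)‖ = 5 / 4 := by
  rw [← sq_eq_sq₀ (norm_nonneg _) (by norm_num), nsq]; norm_num [pt]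

lemma F2 (φ : D) {b : ℝ} (h : |φ (pt _ 1 0)| ≤ 9 / 20 * b) (h' : |φ (pt _ 0 1)| ≤ 5 / 4 * b) :
    ‖φ‖ ≤ b := by
  have b0 : 0 ≤ b := by linarith [abs_nonneg (φ (pt _ 1 0))]
  refine φ.opNorm_le_bound b0 fun a => ?_
  have h1 : 9 / 20 * |a.re| + 5 / 4 * |a.im| ≤ ‖a‖ := by
    rw [← sq_le_sq₀ (by positivity) (norm_nonneg _), nsq, ← sq_abs a.re, ← sq_abs a.im]
    nlinarith [sq_nonneg (3 / 5 * |a.im| - 3 / 5 * (|a.re| + |a.im|)), sq_nonneg |a.re|]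
  rw [dec]
  refine (abs_add_le _ _).trans ?_
  rw [abs_mul, abs_mul]
  nlinarith [mul_le_mul_of_nonneg_left h (abs_nonneg a.re),
    mul_le_mul_of_nonneg_left h' (abs_nonneg a.im), mul_le_mul_of_nonneg_left h1 b0]

lemma rep (f : D →L[ℝ] ℝ) : ∃ z : Z, ‖z‖ ≤ ‖f‖ ∧ ∀ φ, f φ = φ z := by
  have e : ∀ φ : D, f φ = φ (pt _ (f cre) (f cim)) := fun φ => by
    have : φ = φ (pt _ 1 0) • cre + φ (pt _ 0 1) • cim := ContinuousLinearMap.ext fun a => by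
      rw [dec, mul_comm, mul_comm a.im]; rfl
    rw [dec, mul_comm, mul_comm _ (φ _)]
    conv_lhs => rw [this, map_add, map_smul, map_smul]
    rfl
  obtain ⟨g, g1, g2⟩ := exists_dual_vector'' ℝ (pt _ (f cre) (f cim) : Z)
  refine ⟨_, ?_, e⟩
  have := le_of_abs_le (f.le_of_opNorm_le_of_le le_rfl g1)
  rwa [e, g2, mul_one] at this

lemma SM {ε : ℝ} (hε : 0 < ε) (x : D) (hx : ‖x‖ = 1) (f : D →L[ℝ] ℝ) (hf : ‖f‖ ≤ 1)
    (h : 1 - ε ^ 2 / 12 < |f x|) : ∃ g : D →L[ℝ] ℝ, ‖g‖ ≤ 1 ∧ |g x| = 1 ∧ ‖g - f‖ < ε := by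
  have k : ∀ f : D →L[ℝ] ℝ, ‖f‖ ≤ 1 → 1 - ε ^ 2 / 12 < f x →
      ∃ g : D →L[ℝ] ℝ, ‖g‖ ≤ 1 ∧ |g x| = 1 ∧ ‖g - f‖ < ε := fun f hf h => by
    obtain ⟨g, g1, g2⟩ := exists_dual_vector'' ℝ x
    have g2 : g x = 1 := g2.trans hx
    obtain ⟨z, z1, z2⟩ := rep f
    obtain ⟨w, w1, w2⟩ := rep g
    have h1 := uc (by norm_num) w z
    have h2 := le_of_abs_le (x.le_of_opNorm_le hx.le (w + z))
    rw [map_add, ← z2, ← w2, g2] at h2
    have h3 := pow_le_one₀ (norm_nonneg _) (z1.trans hf) (n := 2)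
    have h4 := pow_le_one₀ (norm_nonneg _) (w1.trans g1) (n := 2)
    refine ⟨g, g1, by rw [g2, abs_one], lt_of_le_of_lt (b := ‖w - z‖)
      (ContinuousLinearMap.opNorm_le_bound _ (norm_nonneg _) fun φ => ?_)
      (lt_of_pow_lt_pow_left₀ 2 hε.le ?_)⟩
    · rw [ContinuousLinearMap.sub_apply, z2, w2, ← map_sub, mul_comm]
      exact φ.le_opNorm _
    · nlinarith [sq_nonneg (‖w + z‖ - 2)]
  rcases abs_cases (f x) with ⟨e, -⟩ | ⟨e, -⟩ <;> rw [e] at h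
  · exact k f hf h
  · obtain ⟨g, g1, g2, g3⟩ := k (-f) ((ContinuousLinearMap.opNorm_neg f).trans_le hf) h
    refine ⟨-g, (ContinuousLinearMap.opNorm_neg g).trans_le g1, (abs_neg _).trans g2, ?_⟩
    rwa [show -g - f = -(g - -f) by abel, ContinuousLinearMap.opNorm_neg]

lemma nrm {V A : Type} [NormedAddCommGroup V] [NormedSpace ℝ V] [NormedAddCommGroup A]
    [NormedSpace ℝ A] (T : V →L[ℝ] A) (h : 0 < ‖T‖) : ‖‖T‖⁻¹ • T‖ = 1 := by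
  rw [norm_smul, norm_inv, norm_norm, inv_mul_cancel₀ h.ne']

lemma fail {A : Type} [NormedAddCommGroup A] [NormedSpace ℝ A]
    (sc : ∀ u v : A, ‖u + v‖ ≤ 1 → ‖u - v‖ ≤ 1 → ‖u‖ = 1 → v = 0)
    (nu : ∀ η > 0, ∃ u v : A, ‖u + v‖ ≤ 1 ∧ ‖u - v‖ ≤ 1 ∧ 1 - η < ‖u‖ ∧ 1 / 2 ≤ ‖v‖) {η : ℝ}
    (hη : 0 < η) : ∃ (T : D →L[ℝ] A) (x₀ : D), ‖T‖ = 1 ∧ ‖x₀‖ = 1 ∧ 1 - η < ‖T x₀‖ ∧
      ∀ (x : D) (S : D →L[ℝ] A), ‖x‖ = 1 → ‖S‖ = 1 → ‖S x‖ = 1 → ‖x - x₀‖ < 1 / 10 →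
        1 / 10 ≤ ‖S - T‖ := by
  obtain ⟨u, v, h1, h2, h3, h4⟩ := nu η hη
  have F1 : ∀ φ : D, |φ (pt _ 1 0)| ≤ ‖φ‖ * (5 / 4) ∧ |φ (pt _ 0 1)| ≤ ‖φ‖ * (5 / 4) := fun φ =>
    ⟨n10 ▸ φ.le_opNorm _, n01 ▸ φ.le_opNorm _⟩
  obtain ⟨T, hT⟩ : ∃ T : D →L[ℝ] A, ∀ φ, T φ = (4 / 5 * φ (pt _ 0 1)) • u +
      (4 / 5 * φ (pt _ 1 0)) • v :=
    ⟨((4 / 5 : ℝ) • ContinuousLinearMap.apply ℝ ℝ (pt _ 0 1)).smulRight u +
      ((4 / 5 : ℝ) • ContinuousLinearMap.apply ℝ ℝ (pt _ 1 0)).smulRight v, fun _ => rfl⟩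
  have T1 : ‖T‖ ≤ 1 := T.opNorm_le_bound zero_le_one fun φ => by
    obtain ⟨a, ha⟩ : ∃ a, a = φ (pt _ 1 0) := ⟨_, rfl⟩
    obtain ⟨b, hb⟩ : ∃ a, a = φ (pt _ 0 1) := ⟨_, rfl⟩
    have := F1 φ
    rw [hT, ← ha, ← hb] at *
    rw [show (4 / 5 * b) • u + (4 / 5 * a) • v = (2 / 5 * (b + a)) • (u + v) +
      (2 / 5 * (b - a)) • (u - v) by module]
    refine (norm_add_le _ _).trans ?_
    rw [norm_smul, norm_smul]
    refine (add_le_add (mul_le_of_le_one_right (norm_nonneg _) h1)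
      (mul_le_of_le_one_right (norm_nonneg _) h2)).trans ?_
    obtain ⟨p1, p2⟩ := abs_le.1 this.1
    obtain ⟨p3, p4⟩ := abs_le.1 this.2
    rcases abs_cases (2 / 5 * (b + a)) with ⟨e, -⟩ | ⟨e, -⟩ <;>
      rcases abs_cases (2 / 5 * (b - a)) with ⟨e', -⟩ | ⟨e', -⟩ <;>
      rw [Real.norm_eq_abs, Real.norm_eq_abs, e, e'] <;> linarith
  have c1 : cre (pt _ 1 0) = 1 := rfl
  have c2 : cre (pt _ 0 1) = 0 := rfl
  have c3 : ((5 / 4 : ℝ) • cim) (pt _ 1 0) = 0 := mul_zero _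
  have c4 : ((5 / 4 : ℝ) • cim) (pt _ 0 1) = 5 / 4 := mul_one _
  have ne : ‖cre‖ ≤ 1 := cre.opNorm_le_bound zero_le_one fun a => by
    rw [one_mul, ← sq_le_sq₀ (norm_nonneg _) (norm_nonneg _), nsq, Real.norm_eq_abs, sq_abs,
      add_assoc]
    exact le_add_of_nonneg_right (by positivity)
  have Te : 2 / 5 ≤ ‖T cre‖ := by
    rw [hT, c1, c2, mul_zero, zero_smul, zero_add, norm_smul, Real.norm_of_nonneg (by norm_num)]
    linarith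
  have T0 : 0 < ‖T‖ := by linarith [T.le_of_opNorm_le_of_le le_rfl ne]
  have big : ∀ φ, ‖T φ‖ ≤ ‖(‖T‖⁻¹ • T) φ‖ := fun φ => by
    rw [ContinuousLinearMap.smul_apply, norm_smul, Real.norm_of_nonneg (inv_pos.2 T0).le]
    exact le_mul_of_one_le_left (norm_nonneg _) ((one_le_inv₀ T0).2 T1)
  refine ⟨‖T‖⁻¹ • T, (5 / 4 : ℝ) • cim, nrm T T0, le_antisymm
    (F2 _ (by rw [c3]; norm_num) (by rw [c4]; norm_num)) ?_, h3.trans_le (le_trans ?_ (big _)),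
    fun x S x1 S1 Sx hx => ?_⟩
  · have := (F1 ((5 / 4 : ℝ) • cim)).2
    rw [c4, abs_of_pos (by norm_num)] at this
    linarith
  · rw [hT, c3, c4]; norm_num
  · have p := (F1 (x - (5 / 4 : ℝ) • cim)).1
    have q := (F1 x).2
    rw [ContinuousLinearMap.sub_apply, c3, sub_zero] at p
    obtain ⟨p1, p2⟩ := abs_le.1 p
    have k : ∀ t : ℝ, |t| ≤ 1 / 4 → ‖S (x + t • cre)‖ ≤ 1 := fun t ht =>
      (S.le_of_opNorm_le_of_le S1.le (F2 (x + t • cre) (b := 1) (by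
        obtain ⟨t1, t2⟩ := abs_le.1 ht
        show |x _ + t * 1| ≤ _
        exact abs_le.2 ⟨by linarith, by linarith⟩) (by
        show |x _ + t * 0| ≤ _
        rw [mul_zero, add_zero]; linarith))).trans_eq (mul_one 1)
    have k1 := k (1 / 4) (by norm_num [abs_le])
    have k2 := k (-(1 / 4)) (by norm_num [abs_le])
    rw [map_add, map_smul] at k1 k2
    rw [neg_smul, ← sub_eq_add_neg] at k2
    have z := sc _ _ k1 k2 Sx
    rw [smul_eq_zero_iff_right (by norm_num)] at z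
    have := (S - ‖T‖⁻¹ • T).le_of_opNorm_le_of_le le_rfl ne
    rw [ContinuousLinearMap.sub_apply, z, zero_sub, norm_neg] at this
    linarith [big cre]

lemma Asc (u v : X fun n => n) (h1 : ‖u + v‖ ≤ 1) (h2 : ‖u - v‖ ≤ 1) (h3 : ‖u‖ = 1) : v = 0 := by
  have := Xsc (u + v) (u - v) (by
    rw [add_add_sub_cancel, ← two_smul ℝ u, norm_smul, h3]
    norm_num
    nlinarith [norm_nonneg (u + v), norm_nonneg (u - v)])
  have h : (2 : ℝ) • v = 0 := by rw [two_smul, ← add_sub_sub_cancel u, this, sub_self]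
  exact (smul_eq_zero_iff_right two_ne_zero).1 h

lemma Anu (η : ℝ) (hη : η > 0) : ∃ u v : X fun n => n, ‖u + v‖ ≤ 1 ∧ ‖u - v‖ ≤ 1 ∧
    1 - η < ‖u‖ ∧ 1 / 2 ≤ ‖v‖ := by
  obtain ⟨n, hn⟩ := exists_nat_one_div_lt (lt_min hη one_half_pos)
  obtain ⟨c, hc⟩ : ∃ c : ℝ, c = 1 / (n + 1) := ⟨_, rfl⟩
  have c0 : 0 < c := by rw [hc]; positivity
  have e : n * c = 1 - c := by rw [hc]; field_simp; ring
  rw [← hc, lt_min_iff] at hn
  refine ⟨lp.single 2 n (pt _ (c / 2) (c / 2)), lp.single 2 n (pt _ (c / 2) (-(c / 2))), ?_, ?_,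
    ?_, ?_⟩
  · rw [← lp.single_add, lp.norm_single (by norm_num), ← sq_le_one_iff₀ (norm_nonneg _), nsq,
      add_re, add_im]
    simp only [pt, add_halves, add_neg_cancel, abs_zero, add_zero, sq_abs, ← mul_pow, e]
    nlinarith
  · rw [← lp.single_sub, lp.norm_single (by norm_num), ← sq_le_one_iff₀ (norm_nonneg _), nsq,
      sub_re, sub_im]
    simp only [pt, add_halves, sub_neg_eq_add, sub_self, abs_zero, zero_add, sq_abs, ← mul_pow, e]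
    nlinarith
  · refine lt_of_lt_of_le (b := 1 - c) (by linarith) ?_
    rw [lp.norm_single (by norm_num), ← sq_le_sq₀ (by linarith) (norm_nonneg _), nsq]
    simp only [pt, abs_of_pos (half_pos c0), add_halves, ← mul_pow, e]
    exact le_add_of_nonneg_left (by positivity)
  · refine le_trans (b := 1 - c) (by linarith) ?_
    rw [lp.norm_single (by norm_num), ← sq_le_sq₀ (by linarith) (norm_nonneg _), nsq]
    simp only [pt, abs_neg, abs_of_pos (half_pos c0), add_halves, ← mul_pow, e]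
    exact le_add_of_nonneg_left (by positivity)

end Pool.Agent.H29.PS
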