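import Mathlib

namespace Pool.Agent.H29.PonDef

/-- the Euclidean plane -/
abbrev Plane := EuclideanSpace ℝ (Fin 2)

/-- an ellipse `(p - z)ᵀ M (p - z) = 1` with centre `z = (x, y)` and positive definite matrix
`M = [[a, b], [b, c]]` -/
structure Ellipse where
  x : ℝ
  y : ℝ
  a : ℝ
  b : ℝ
  c : ℝ
  ha : 0 < a
  hd : b ^ 2 < a * c

/-- the quadratic form of the ellipse; the curve is `form = 1`, its inside is `form < 1` -/
def Ellipse.form (E : Ellipse) (p : Plane) : ℝ :=
  E.a * (p 0 - E.x) ^ 2 + 2 * E.b * (p 0 - E.x) * (p 1 - E.y) + E.c * (p 1 - E.y) ^ 2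

/-- the side `[A, B]` touches the ellipse: some point of the segment is on the ellipse and is the
only point of the line `AB` on it -/
def Touches (E : Ellipse) (A B : Plane) : Prop :=
  ∃ p ∈ segment ℝ A B, E.form p = 1 ∧
    ∀ t : ℝ, E.form (A + t • (B - A)) = 1 → A + t • (B - A) = p

/-- a non-degenerate triangle with vertices on `E` and sides tangent to `F` -/
def Periodic (E F : Ellipse) (A B C : Plane) : Prop :=
  (B 0 - A 0) * (C 1 - A 1) ≠ (B 1 - A 1) * (C 0 - A 0) ∧
    E.form A = 1 ∧ E.form B = 1 ∧ E.form C = 1 ∧ Touches F A B ∧ Touches F B C ∧ Touches F C A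

/-- the circle with centre `O` and radius `r` passes through `A`, `B`, `C` -/
def Through (O : Plane) (r : ℝ) (A B C : Plane) : Prop :=
  dist A O = r ∧ dist B O = r ∧ dist C O = r

/-- power of `P` with respect to the circle with centre `O` and radius `r` -/
noncomputable def power (P O : Plane) (r : ℝ) : ℝ := dist P O ^ 2 - r ^ 2

end Pool.Agent.H29.PonDef
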