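import Mathlib
import Pool.Agent.H29.PonDef

namespace Pool.Agent.H29.Pon
open Matrix PonDef

lemma zd (P K E : Matrix (Fin 3) (Fin 3) ℝ) (hP : P.IsSymm) (hK : K.IsSymm) (hE : E.IsSymm)
    (p : ∀ i, P i i = 0) (k : ∀ i, K i i = 0) (e : ∀ i, E i i = 0) :
    trace (P * K) * trace (P * E) = 2 * trace (P * K * (P * E)) := by
  simp only [trace, diag_apply, Fin.sum_univ_three, mul_apply, p, k, e, hP.apply 0 1,
    hP.apply 0 2, hP.apply 1 2, hK.apply 0 1, hK.apply 0 2, hK.apply 1 2, hE.apply 0 1,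
    hE.apply 0 2, hE.apply 1 2]
  ring

lemma polar (V C K E : Matrix (Fin 3) (Fin 3) ℝ) (hV : V.det ≠ 0) (hC : C.IsSymm)
    (hK : K.IsSymm) (hE : E.IsSymm) (p : ∀ i, (V.adjugate * C * V.adjugateᵀ) i i = 0)
    (k : ∀ i, (Vᵀ * K * V) i i = 0) (e : ∀ i, (Vᵀ * E * V) i i = 0) :
    trace (C * K) * trace (C * E) = 2 * trace (C * K * (C * E)) := by
  have s1 : (V.adjugate * C * V.adjugateᵀ).IsSymm := by
    simp [IsSymm, transpose_mul, hC.eq, Matrix.mul_assoc]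
  have s2 : ∀ {X : Matrix (Fin 3) (Fin 3) ℝ}, X.IsSymm → (Vᵀ * X * V).IsSymm := fun h => by
    simp [IsSymm, transpose_mul, h.eq, Matrix.mul_assoc]
  have h := zd _ _ _ s1 (s2 hK) (s2 hE) p k e
  have a1 : V.adjugateᵀ * Vᵀ = V.det • (1 : Matrix (Fin 3) (Fin 3) ℝ) := by
    rw [← transpose_mul, mul_adjugate]; simp
  have a2 : ∀ X : Matrix (Fin 3) (Fin 3) ℝ, V.adjugate * C * V.adjugateᵀ * (Vᵀ * X * V) =
      V.det • (V.adjugate * (C * X) * V) := fun X => by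
    calc _ = V.adjugate * C * (V.adjugateᵀ * Vᵀ) * X * V := by simp only [Matrix.mul_assoc]
      _ = _ := by rw [a1]; simp [Matrix.mul_assoc]
  have a3 : ∀ X : Matrix (Fin 3) (Fin 3) ℝ, trace (V.adjugate * X * V) = V.det * trace X :=
    fun X => by rw [trace_mul_comm, ← Matrix.mul_assoc, mul_adjugate]; simp
  have a4 : ∀ X Y : Matrix (Fin 3) (Fin 3) ℝ, V.adjugate * X * V * (V.adjugate * Y * V) =
      V.det • (V.adjugate * (X * Y) * V) := fun X Y => by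
    calc _ = V.adjugate * X * (V * V.adjugate) * Y * V := by simp only [Matrix.mul_assoc]
      _ = _ := by rw [mul_adjugate]; simp [Matrix.mul_assoc]
  rw [a2, a2, smul_mul_smul_comm, a4, trace_smul, trace_smul, trace_smul, trace_smul, a3, a3,
    a3] at h
  simp only [smul_eq_mul] at h
  apply mul_left_cancel₀ (pow_ne_zero 4 hV)
  linear_combination h

/-- scalar form: coordinates centred at the inner ellipse, with matrix `[[a, b], [b, c]]` -/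
lemma scal {a b c x1 y1 x2 y2 x3 y3 k11 k12 k22 k1 k2 k0 e11 e12 e22 e1 e2 e0 : ℝ}
    (hV : (x2 - x1) * (y3 - y1) ≠ (y2 - y1) * (x3 - x1))
    (t12 : (a * c - b ^ 2) * (x1 * y2 - x2 * y1) ^ 2 =
      a * (x2 - x1) ^ 2 + 2 * b * (x2 - x1) * (y2 - y1) + c * (y2 - y1) ^ 2)
    (t23 : (a * c - b ^ 2) * (x2 * y3 - x3 * y2) ^ 2 =
      a * (x3 - x2) ^ 2 + 2 * b * (x3 - x2) * (y3 - y2) + c * (y3 - y2) ^ 2)
    (t31 : (a * c - b ^ 2) * (x3 * y1 - x1 * y3) ^ 2 =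
      a * (x1 - x3) ^ 2 + 2 * b * (x1 - x3) * (y1 - y3) + c * (y1 - y3) ^ 2)
    (K1 : k11 * x1 ^ 2 + 2 * k12 * x1 * y1 + k22 * y1 ^ 2 + 2 * k1 * x1 + 2 * k2 * y1 + k0 = 0)
    (K2 : k11 * x2 ^ 2 + 2 * k12 * x2 * y2 + k22 * y2 ^ 2 + 2 * k1 * x2 + 2 * k2 * y2 + k0 = 0)
    (K3 : k11 * x3 ^ 2 + 2 * k12 * x3 * y3 + k22 * y3 ^ 2 + 2 * k1 * x3 + 2 * k2 * y3 + k0 = 0)
    (E1 : e11 * x1 ^ 2 + 2 * e12 * x1 * y1 + e22 * y1 ^ 2 + 2 * e1 * x1 + 2 * e2 * y1 + e0 = 0)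
    (E2 : e11 * x2 ^ 2 + 2 * e12 * x2 * y2 + e22 * y2 ^ 2 + 2 * e1 * x2 + 2 * e2 * y2 + e0 = 0)
    (E3 : e11 * x3 ^ 2 + 2 * e12 * x3 * y3 + e22 * y3 ^ 2 + 2 * e1 * x3 + 2 * e2 * y3 + e0 = 0) :
    (c * k11 - 2 * b * k12 + a * k22 - (a * c - b ^ 2) * k0) *
      (c * e11 - 2 * b * e12 + a * e22 - (a * c - b ^ 2) * e0) =
    2 * ((c * k11 - b * k12) * (c * e11 - b * e12) + (c * k12 - b * k22) * (a * e12 - b * e11) +
      (a * k12 - b * k11) * (c * e12 - b * e22) + (a * k22 - b * k12) * (a * e22 - b * e12) -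
      2 * (a * c - b ^ 2) * (k1 * (c * e1 - b * e2) + k2 * (a * e2 - b * e1)) +
      (a * c - b ^ 2) ^ 2 * k0 * e0) := by
  have h := polar !![x1, x2, x3; y1, y2, y3; 1, 1, 1] !![c, -b, 0; -b, a, 0; 0, 0, -(a * c - b ^ 2)]
    !![k11, k12, k1; k12, k22, k2; k1, k2, k0] !![e11, e12, e1; e12, e22, e2; e1, e2, e0]
    (by
      rw [det_fin_three]
      simp
      intro h; apply hV; linarith)
    (by ext i j; fin_cases i <;> fin_cases j <;> simp)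
    (by ext i j; fin_cases i <;> fin_cases j <;> simp)
    (by ext i j; fin_cases i <;> fin_cases j <;> simp)
    (by
      intro i
      rw [adjugate_fin_three]
      fin_cases i <;> simp [mul_apply, Fin.sum_univ_three]
      · linarith
      · linarith
      · linarith)
    (by
      intro i
      fin_cases i <;> simp [mul_apply, Fin.sum_univ_three]
      · linarith
      · linarith
      · linarith)
    (by
      intro i
      fin_cases i <;> simp [mul_apply, Fin.sum_univ_three]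
      · linarith
      · linarith
      · linarith)
  simp [trace, Fin.sum_univ_three] at h
  linarith

lemma touch {F : Ellipse} {A B : Plane} (h : Touches F A B) (hAB : A ≠ B) :
    (F.a * F.c - F.b ^ 2) * ((A 0 - F.x) * (B 1 - F.y) - (B 0 - F.x) * (A 1 - F.y)) ^ 2 =
      F.a * ((B 0 - F.x) - (A 0 - F.x)) ^ 2 +
        2 * F.b * ((B 0 - F.x) - (A 0 - F.x)) * ((B 1 - F.y) - (A 1 - F.y)) +
        F.c * ((B 1 - F.y) - (A 1 - F.y)) ^ 2 := by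
  obtain ⟨p, hp, h1, h2⟩ := h
  rw [segment_eq_image'] at hp
  obtain ⟨s, -, rfl⟩ := hp
  obtain ⟨α, hα⟩ : ∃ α, α = F.a * (B 0 - A 0) ^ 2 + 2 * F.b * (B 0 - A 0) * (B 1 - A 1) +
    F.c * (B 1 - A 1) ^ 2 := ⟨_, rfl⟩
  obtain ⟨β, hβ⟩ : ∃ β, β = F.a * (B 0 - A 0) * (A 0 - F.x) +
    F.b * ((B 0 - A 0) * (A 1 - F.y) + (B 1 - A 1) * (A 0 - F.x)) +
    F.c * (B 1 - A 1) * (A 1 - F.y) := ⟨_, rfl⟩
  have ev : ∀ t : ℝ, F.form (A + t • (B - A)) = α * t ^ 2 + 2 * β * t + F.form A := fun t => by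
    simp only [Ellipse.form, PiLp.add_apply, PiLp.smul_apply, PiLp.sub_apply, smul_eq_mul, hα, hβ]
    ring
  have αp : 0 < α := by
    have k : F.a * α = (F.a * (B 0 - A 0) + F.b * (B 1 - A 1)) ^ 2 +
        (F.a * F.c - F.b ^ 2) * (B 1 - A 1) ^ 2 := by rw [hα]; ring
    have hd : 0 < F.a * F.c - F.b ^ 2 := sub_pos.2 F.hd
    have ha := F.ha
    refine (pos_iff_pos_of_mul_pos (a := F.a) ?_).1 ha
    rw [k]
    by_cases e1 : B 1 - A 1 = 0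
    · have e0 : B 0 - A 0 ≠ 0 := fun e0 => hAB (by
        ext i; fin_cases i
        · exact (sub_eq_zero.1 e0).symm
        · exact (sub_eq_zero.1 e1).symm)
      rw [e1]
      have : 0 < (F.a * (B 0 - A 0)) ^ 2 := by positivity
      nlinarith
    · positivity
  have h3 := h2 (-2 * β / α - s) (by
    rw [ev] at h1 ⊢
    rw [← h1]; field_simp; ring)
  have h4 : -2 * β / α - s = s :=
    smul_left_injective ℝ (sub_ne_zero.2 hAB.symm) (add_left_cancel h3)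
  have h5 : α * s = -β := by
    field_simp at h4
    linarith
  rw [ev] at h1
  have h6 : β ^ 2 = α * (F.form A - 1) := by
    linear_combination (-α) * h1 + (α * s + β) * h5
  simp only [Ellipse.form] at h6
  rw [hα, hβ] at h6
  linear_combination (-1 : ℝ) * h6

theorem q1 (E F : Ellipse) : ∃ (P : Plane) (k : ℝ), ∀ A B C, Periodic E F A B C →
    ∀ O r, Through O r A B C → power P O r = k := by
  obtain ⟨e1, he1⟩ : ∃ e, e = E.a * (F.x - E.x) + E.b * (F.y - E.y) := ⟨_, rfl⟩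
  obtain ⟨e2, he2⟩ : ∃ e, e = E.b * (F.x - E.x) + E.c * (F.y - E.y) := ⟨_, rfl⟩
  obtain ⟨e0, he0⟩ : ∃ e, e = E.a * (F.x - E.x) ^ 2 + 2 * E.b * (F.x - E.x) * (F.y - E.y) +
    E.c * (F.y - E.y) ^ 2 - 1 := ⟨_, rfl⟩
  obtain ⟨δ, hδ⟩ : ∃ δ, δ = F.a * F.c - F.b ^ 2 := ⟨_, rfl⟩
  obtain ⟨τ, hτ⟩ : ∃ τ, τ = F.c * E.a - 2 * F.b * E.b + F.a * E.c := ⟨_, rfl⟩
  obtain ⟨μ, hμ⟩ : ∃ μ, μ = (F.c + F.a) * (τ - δ * e0) -
    2 * (F.c * (F.c * E.a - F.b * E.b) - F.b * (F.a * E.b - F.b * E.a) -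
      F.b * (F.c * E.b - F.b * E.c) + F.a * (F.a * E.c - F.b * E.b)) := ⟨_, rfl⟩
  obtain ⟨ρ1, hρ1⟩ : ∃ ρ, ρ = -2 * (F.c * e1 - F.b * e2) / (τ + δ * e0) := ⟨_, rfl⟩
  obtain ⟨ρ2, hρ2⟩ : ∃ ρ, ρ = -2 * (F.a * e2 - F.b * e1) / (τ + δ * e0) := ⟨_, rfl⟩
  refine ⟨!₂[F.x + ρ1, F.y + ρ2], ρ1 ^ 2 + ρ2 ^ 2 + μ / (δ * (τ + δ * e0)), ?_⟩
  rintro A B C ⟨hV, hA, hB, hC, tAB, tBC, tCA⟩ O r ⟨dA, dB, dC⟩
  have nAB : A ≠ B := by rintro rfl; simp at hV
  have nBC : B ≠ C := by rintro rfl; exact hV (mul_comm _ _)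
  have nCA : C ≠ A := by rintro rfl; simp at hV
  have on : ∀ p : Plane, E.form p = 1 → E.a * (p 0 - F.x) ^ 2 + 2 * E.b * (p 0 - F.x) * (p 1 - F.y)
      + E.c * (p 1 - F.y) ^ 2 + 2 * e1 * (p 0 - F.x) + 2 * e2 * (p 1 - F.y) + e0 = 0 := by
    intro p hp
    simp only [Ellipse.form] at hp
    rw [he1, he2, he0]
    linear_combination hp
  have sq : ∀ p q : Plane, dist p q ^ 2 = (p 0 - q 0) ^ 2 + (p 1 - q 1) ^ 2 := fun p q => by
    rw [EuclideanSpace.dist_sq_eq, Fin.sum_univ_two, Real.dist_eq, Real.dist_eq, sq_abs, sq_abs]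
  have oc : ∀ p : Plane, dist p O = r → 1 * (p 0 - F.x) ^ 2 + 2 * 0 * (p 0 - F.x) * (p 1 - F.y)
      + 1 * (p 1 - F.y) ^ 2 + 2 * (F.x - O 0) * (p 0 - F.x) + 2 * (F.y - O 1) * (p 1 - F.y) +
      ((F.x - O 0) ^ 2 + (F.y - O 1) ^ 2 - r ^ 2) = 0 := by
    intro p hp
    have := sq p O
    rw [hp] at this
    linear_combination (-1 : ℝ) * this
  have hV' : ((B 0 - F.x) - (A 0 - F.x)) * ((C 1 - F.y) - (A 1 - F.y)) ≠
      ((B 1 - F.y) - (A 1 - F.y)) * ((C 0 - F.x) - (A 0 - F.x)) := by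
    simpa using hV
  have L1 := scal hV' (touch tAB nAB) (touch tBC nBC) (touch tCA nCA) (oc A dA) (oc B dB)
    (oc C dC) (on A hA) (on B hB) (on C hC)
  have L2 := scal hV' (touch tAB nAB) (touch tBC nBC) (touch tCA nCA) (on A hA) (on B hB)
    (on C hC) (on A hA) (on B hB) (on C hC)
  rw [← hδ, ← hτ] at L1 L2
  have δp : 0 < δ := by rw [hδ]; exact sub_pos.2 F.hd
  have ne : τ + δ * e0 ≠ 0 := by
    intro h0
    have h1 : δ * e0 = -τ := by linarith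
    have h2 : 0 < E.a * E.c - E.b ^ 2 := sub_pos.2 E.hd
    have h3 : 0 ≤ F.c * e1 ^ 2 - 2 * F.b * e1 * e2 + F.a * e2 ^ 2 := by
      apply nonneg_of_mul_nonneg_right _ F.ha
      have : F.a * (F.c * e1 ^ 2 - 2 * F.b * e1 * e2 + F.a * e2 ^ 2) =
          (F.a * e2 - F.b * e1) ^ 2 + δ * e1 ^ 2 := by rw [hδ]; ring
      rw [this]; positivity
    have h4 : (F.c * E.a - F.b * E.b) * (F.c * E.a - F.b * E.b) +
        (F.c * E.b - F.b * E.c) * (F.a * E.b - F.b * E.a) +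
        (F.a * E.b - F.b * E.a) * (F.c * E.b - F.b * E.c) +
        (F.a * E.c - F.b * E.b) * (F.a * E.c - F.b * E.b) =
        τ ^ 2 - 2 * δ * (E.a * E.c - E.b ^ 2) := by rw [hτ, hδ]; ring
    have h5 : δ ^ 2 * e0 * e0 = τ ^ 2 := by
      linear_combination (δ * e0 - τ) * h1
    rw [h4, h1, h5] at L2
    nlinarith [mul_pos δp h2, mul_nonneg δp.le h3]
  simp only [power, sq]
  simp only [PiLp.toLp_apply, Matrix.cons_val_zero, Matrix.cons_val_one]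
  rw [hρ1, hρ2, hμ]
  field_simp
  linear_combination (-(τ + δ * e0)) * L1

end Pool.Agent.H29.Pon
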