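import Mathlib
import Pool.Agent.H29.PonDef

namespace Pool.Agent.H29.Pon2
open PonDef

noncomputable def E : Ellipse := ⟨0, 0, 1 / 9, 0, 1 / 25, by norm_num, by norm_num⟩
noncomputable def F : Ellipse :=
  ⟨13 / 70, 2, 7 / 12, -13 / 240, 8569 / 33600, by norm_num, by norm_num⟩

lemma touch {A B : Plane} {s α : ℝ} (h0 : 0 ≤ s) (h1 : s ≤ 1) (hα : α ≠ 0)
    (h : ∀ t : ℝ, F.form (A + t • (B - A)) = 1 + α * (t - s) ^ 2) : Touches F A B := by
  refine ⟨A + s • (B - A), ?_, by rw [h]; ring, fun t ht => ?_⟩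
  · rw [segment_eq_image']; exact ⟨s, ⟨h0, h1⟩, rfl⟩
  · rw [h] at ht
    have : (t - s) ^ 2 = 0 := by
      apply mul_left_cancel₀ hα; linarith
    rw [sub_eq_zero.1 (pow_eq_zero_iff two_ne_zero |>.1 this)]

lemma per1 : Periodic E F !₂[39 / 85, 84 / 17] !₂[3, 0] !₂[-3, 0] := by
  refine ⟨by norm_num, by norm_num [Ellipse.form, E], by norm_num [Ellipse.form, E],
    by norm_num [Ellipse.form, E],
    touch (s := 8 / 25) (α := 13125 / 1156) (by norm_num) (by norm_num) (by norm_num) fun t => ?_,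
    touch (s := 1 / 2) (α := 21) (by norm_num) (by norm_num) (by norm_num) fun t => ?_,
    touch (s := 17 / 25) (α := 13125 / 1156) (by norm_num) (by norm_num) (by norm_num)
      fun t => ?_⟩ <;>
  · simp [Ellipse.form, F]
    ring

lemma per2 : Periodic E F !₂[39 / 85, -84 / 17] !₂[9 / 5, 4] !₂[-9 / 5, 4] := by
  refine ⟨by norm_num, by norm_num [Ellipse.form, E], by norm_num [Ellipse.form, E],
    by norm_num [Ellipse.form, E],
    touch (s := 1323 / 1748) (α := 3055504 / 151725) (by norm_num) (by norm_num) (by norm_num)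
      fun t => ?_,
    touch (s := 25 / 63) (α := 189 / 25) (by norm_num) (by norm_num) (by norm_num) fun t => ?_,
    touch (s := 646 / 1969) (α := 3876961 / 151725) (by norm_num) (by norm_num) (by norm_num)
      fun t => ?_⟩ <;>
  · simp [Ellipse.form, F]
    ring

lemma dist_of {p q : Plane} {v : ℝ} (h : (p 0 - q 0) ^ 2 + (p 1 - q 1) ^ 2 = v) :
    dist p q = Real.sqrt v := by
  rw [EuclideanSpace.dist_eq, Fin.sum_univ_two, Real.dist_eq, Real.dist_eq, sq_abs, sq_abs, h]

lemma mid (p q : Plane) (i : Fin 2) : midpoint ℝ p q i = (p i + q i) / 2 := by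
  rw [midpoint_eq_smul_add]
  simp
  ring

lemma inside (p : Plane) (h : F.form p = 1) : E.form p < 1 := by
  simp only [Ellipse.form, E, F] at h ⊢
  nlinarith [sq_nonneg (p 0 - 13 / 70), sq_nonneg (p 1 - 2), sq_nonneg (p 1 - 2 - 7 / 10),
    sq_nonneg (p 0 - 13 / 70 - (p 1 - 2) / 5), sq_nonneg (p 0 - 13 / 70 - 1 / 5)]

end Pool.Agent.H29.Pon2
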