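import Mathlib

namespace Pool.Agent.H29.Prism

/-- The 23 linear functionals defining the norm. -/
noncomputable def ph (x y z t : ℝ) : Fin 23 → ℝ :=
  ![t,
    2/3*(y-x-z),
    2/3*(z-x-y),
    (99999/100000:ℝ)*(2/3*(x+y+z))+(1/100000:ℝ)*(x),
    (99999/100000:ℝ)*(2/3*(x+y+z))+(1/100000:ℝ)*(y),
    (99999/100000:ℝ)*(2/3*(x+y+z))+(1/100000:ℝ)*(5/8*(2/3*(x+y+z))+t/4),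
    (99999/100000:ℝ)*(2/3*(x+y+z))+(1/100000:ℝ)*(3/4*(2/3*(x+y+z))-t/4),
    (99999/100000:ℝ)*(2/3*(x-y-z))+(1/100000:ℝ)*(x),
    (99999/100000:ℝ)*(2/3*(x-y-z))+(1/100000:ℝ)*(-y),
    (99999/100000:ℝ)*(2/3*(x-y-z))+(1/100000:ℝ)*(5/8*(2/3*(x-y-z))-t/4),
    (99999/100000:ℝ)*(2/3*(x-y-z))+(1/100000:ℝ)*(3/4*(2/3*(x-y-z))+t/4),
    (99999/100000:ℝ)*x+(1/100000:ℝ)*(2/3*(x+y)),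
    (99999/100000:ℝ)*x+(1/100000:ℝ)*(2/3*(x-y)),
    (99999/100000:ℝ)*x+(1/100000:ℝ)*((x+t)/2),
    (99999/100000:ℝ)*x+(1/100000:ℝ)*((x-t)/2),
    (99999/100000:ℝ)*y+(1/100000:ℝ)*(2/3*(y+z)),
    (99999/100000:ℝ)*y+(1/100000:ℝ)*(2/3*(y-z)),
    (99999/100000:ℝ)*y+(1/100000:ℝ)*((y+t)/2),
    (99999/100000:ℝ)*y+(1/100000:ℝ)*((y-t)/2),
    (99999/100000:ℝ)*z+(1/100000:ℝ)*(2/3*(z+x)),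
    (99999/100000:ℝ)*z+(1/100000:ℝ)*(2/3*(z-x)),
    (99999/100000:ℝ)*z+(1/100000:ℝ)*((z+t)/2),
    (99999/100000:ℝ)*z+(1/100000:ℝ)*((z-t)/2)]

def Flt (r x y z t : ℝ) : Prop :=
  |t| < r ∧
  |2/3*(y-x-z)| < r ∧
  |2/3*(z-x-y)| < r ∧
  |(99999/100000:ℝ)*(2/3*(x+y+z))+(1/100000:ℝ)*(x)| < r ∧
  |(99999/100000:ℝ)*(2/3*(x+y+z))+(1/100000:ℝ)*(y)| < r ∧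
  |(99999/100000:ℝ)*(2/3*(x+y+z))+(1/100000:ℝ)*(5/8*(2/3*(x+y+z))+t/4)| < r ∧
  |(99999/100000:ℝ)*(2/3*(x+y+z))+(1/100000:ℝ)*(3/4*(2/3*(x+y+z))-t/4)| < r ∧
  |(99999/100000:ℝ)*(2/3*(x-y-z))+(1/100000:ℝ)*(x)| < r ∧
  |(99999/100000:ℝ)*(2/3*(x-y-z))+(1/100000:ℝ)*(-y)| < r ∧
  |(99999/100000:ℝ)*(2/3*(x-y-z))+(1/100000:ℝ)*(5/8*(2/3*(x-y-z))-t/4)| < r ∧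
  |(99999/100000:ℝ)*(2/3*(x-y-z))+(1/100000:ℝ)*(3/4*(2/3*(x-y-z))+t/4)| < r ∧
  |(99999/100000:ℝ)*x+(1/100000:ℝ)*(2/3*(x+y))| < r ∧
  |(99999/100000:ℝ)*x+(1/100000:ℝ)*(2/3*(x-y))| < r ∧
  |(99999/100000:ℝ)*x+(1/100000:ℝ)*((x+t)/2)| < r ∧
  |(99999/100000:ℝ)*x+(1/100000:ℝ)*((x-t)/2)| < r ∧
  |(99999/100000:ℝ)*y+(1/100000:ℝ)*(2/3*(y+z))| < r ∧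
  |(99999/100000:ℝ)*y+(1/100000:ℝ)*(2/3*(y-z))| < r ∧
  |(99999/100000:ℝ)*y+(1/100000:ℝ)*((y+t)/2)| < r ∧
  |(99999/100000:ℝ)*y+(1/100000:ℝ)*((y-t)/2)| < r ∧
  |(99999/100000:ℝ)*z+(1/100000:ℝ)*(2/3*(z+x))| < r ∧
  |(99999/100000:ℝ)*z+(1/100000:ℝ)*(2/3*(z-x))| < r ∧
  |(99999/100000:ℝ)*z+(1/100000:ℝ)*((z+t)/2)| < r ∧
  |(99999/100000:ℝ)*z+(1/100000:ℝ)*((z-t)/2)| < r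

def Fle (r x y z t : ℝ) : Prop :=
  |t| ≤ r ∧
  |2/3*(y-x-z)| ≤ r ∧
  |2/3*(z-x-y)| ≤ r ∧
  |(99999/100000:ℝ)*(2/3*(x+y+z))+(1/100000:ℝ)*(x)| ≤ r ∧
  |(99999/100000:ℝ)*(2/3*(x+y+z))+(1/100000:ℝ)*(y)| ≤ r ∧
  |(99999/100000:ℝ)*(2/3*(x+y+z))+(1/100000:ℝ)*(5/8*(2/3*(x+y+z))+t/4)| ≤ r ∧
  |(99999/100000:ℝ)*(2/3*(x+y+z))+(1/100000:ℝ)*(3/4*(2/3*(x+y+z))-t/4)| ≤ r ∧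
  |(99999/100000:ℝ)*(2/3*(x-y-z))+(1/100000:ℝ)*(x)| ≤ r ∧
  |(99999/100000:ℝ)*(2/3*(x-y-z))+(1/100000:ℝ)*(-y)| ≤ r ∧
  |(99999/100000:ℝ)*(2/3*(x-y-z))+(1/100000:ℝ)*(5/8*(2/3*(x-y-z))-t/4)| ≤ r ∧
  |(99999/100000:ℝ)*(2/3*(x-y-z))+(1/100000:ℝ)*(3/4*(2/3*(x-y-z))+t/4)| ≤ r ∧
  |(99999/100000:ℝ)*x+(1/100000:ℝ)*(2/3*(x+y))| ≤ r ∧
  |(99999/100000:ℝ)*x+(1/100000:ℝ)*(2/3*(x-y))| ≤ r ∧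
  |(99999/100000:ℝ)*x+(1/100000:ℝ)*((x+t)/2)| ≤ r ∧
  |(99999/100000:ℝ)*x+(1/100000:ℝ)*((x-t)/2)| ≤ r ∧
  |(99999/100000:ℝ)*y+(1/100000:ℝ)*(2/3*(y+z))| ≤ r ∧
  |(99999/100000:ℝ)*y+(1/100000:ℝ)*(2/3*(y-z))| ≤ r ∧
  |(99999/100000:ℝ)*y+(1/100000:ℝ)*((y+t)/2)| ≤ r ∧
  |(99999/100000:ℝ)*y+(1/100000:ℝ)*((y-t)/2)| ≤ r ∧
  |(99999/100000:ℝ)*z+(1/100000:ℝ)*(2/3*(z+x))| ≤ r ∧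
  |(99999/100000:ℝ)*z+(1/100000:ℝ)*(2/3*(z-x))| ≤ r ∧
  |(99999/100000:ℝ)*z+(1/100000:ℝ)*((z+t)/2)| ≤ r ∧
  |(99999/100000:ℝ)*z+(1/100000:ℝ)*((z-t)/2)| ≤ r

lemma lt_iff {r : ℝ} (hr : 0 < r) (x y z t : ℝ) : ‖ph x y z t‖ < r ↔ Flt r x y z t := by
  rw [pi_norm_lt_iff hr]
  simp only [Fin.forall_fin_succ, ph, Flt, Real.norm_eq_abs, Matrix.cons_val_zero,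
    Matrix.cons_val_succ, IsEmpty.forall_iff, and_true]

lemma le_iff {r : ℝ} (hr : 0 ≤ r) (x y z t : ℝ) : ‖ph x y z t‖ ≤ r ↔ Fle r x y z t := by
  rw [pi_norm_le_iff_of_nonneg hr]
  simp only [Fin.forall_fin_succ, ph, Fle, Real.norm_eq_abs, Matrix.cons_val_zero,
    Matrix.cons_val_succ, IsEmpty.forall_iff, and_true]

noncomputable def L : (ℝ × ℝ × ℝ × ℝ) →ₗ[ℝ] (Fin 23 → ℝ) where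
  toFun v := ph v.1 v.2.1 v.2.2.1 v.2.2.2
  map_add' v w := by
    ext i
    fin_cases i <;> simp [ph] <;> ring
  map_smul' c v := by
    ext i
    fin_cases i <;> simp [ph] <;> ring

/-- strict unperturbed ball -/
def Bs (r x y z t : ℝ) : Prop :=
  |x| < r ∧ |y| < r ∧ |z| < r ∧ |t| < r ∧ |x+y+z| < 3/2*r ∧ |x-y-z| < 3/2*r ∧
    |y-x-z| < 3/2*r ∧ |z-x-y| < 3/2*r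

/-- closed unperturbed ball -/
def Bc (r x y z t : ℝ) : Prop :=
  |x| ≤ r ∧ |y| ≤ r ∧ |z| ≤ r ∧ |t| ≤ r ∧ |x+y+z| ≤ 3/2*r ∧ |x-y-z| ≤ 3/2*r ∧
    |y-x-z| ≤ 3/2*r ∧ |z-x-y| ≤ 3/2*r

lemma Flt_of_Bs {r x y z t : ℝ} (h : Bs r x y z t) : Flt r x y z t := by
  simp only [Bs, abs_lt] at h
  obtain ⟨⟨h1, h2⟩, ⟨h3, h4⟩, ⟨h5, h6⟩, ⟨h7, h8⟩, ⟨h9, h10⟩, ⟨h11, h12⟩, ⟨h13, h14⟩,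
    ⟨h15, h16⟩⟩ := h
  simp only [Flt, abs_lt]
  refine ⟨⟨?_, ?_⟩, ⟨?_, ?_⟩, ⟨?_, ?_⟩, ⟨?_, ?_⟩, ⟨?_, ?_⟩, ⟨?_, ?_⟩, ⟨?_, ?_⟩, ⟨?_, ?_⟩, ⟨?_, ?_⟩, ⟨?_, ?_⟩, ⟨?_, ?_⟩, ⟨?_, ?_⟩, ⟨?_, ?_⟩, ⟨?_, ?_⟩, ⟨?_, ?_⟩, ⟨?_, ?_⟩, ⟨?_, ?_⟩, ⟨?_, ?_⟩, ⟨?_, ?_⟩, ⟨?_, ?_⟩, ⟨?_, ?_⟩, ⟨?_, ?_⟩, ⟨?_, ?_⟩⟩ <;> linarith

lemma Fle_of_Bc {r x y z t : ℝ} (h : Bc r x y z t) : Fle r x y z t := by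
  simp only [Bc, abs_le] at h
  obtain ⟨⟨h1, h2⟩, ⟨h3, h4⟩, ⟨h5, h6⟩, ⟨h7, h8⟩, ⟨h9, h10⟩, ⟨h11, h12⟩, ⟨h13, h14⟩,
    ⟨h15, h16⟩⟩ := h
  simp only [Fle, abs_le]
  refine ⟨⟨?_, ?_⟩, ⟨?_, ?_⟩, ⟨?_, ?_⟩, ⟨?_, ?_⟩, ⟨?_, ?_⟩, ⟨?_, ?_⟩, ⟨?_, ?_⟩, ⟨?_, ?_⟩, ⟨?_, ?_⟩, ⟨?_, ?_⟩, ⟨?_, ?_⟩, ⟨?_, ?_⟩, ⟨?_, ?_⟩, ⟨?_, ?_⟩, ⟨?_, ?_⟩, ⟨?_, ?_⟩, ⟨?_, ?_⟩, ⟨?_, ?_⟩, ⟨?_, ?_⟩, ⟨?_, ?_⟩, ⟨?_, ?_⟩, ⟨?_, ?_⟩, ⟨?_, ?_⟩⟩ <;> linarith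

lemma Bc_of_Fle {x y z t : ℝ} (h : Fle (1 + 17/6400000) x y z t) :
    Bc (1 + 1/100000) x y z t := by
  simp only [Fle, abs_le] at h
  obtain ⟨⟨a0, b0⟩, ⟨a1, b1⟩, ⟨a2, b2⟩, ⟨a3, b3⟩, ⟨a4, b4⟩, ⟨a5, b5⟩, ⟨a6, b6⟩, ⟨a7, b7⟩, ⟨a8, b8⟩, ⟨a9, b9⟩, ⟨a10, b10⟩, ⟨a11, b11⟩, ⟨a12, b12⟩, ⟨a13, b13⟩, ⟨a14, b14⟩, ⟨a15, b15⟩, ⟨a16, b16⟩, ⟨a17, b17⟩, ⟨a18, b18⟩, ⟨a19, b19⟩, ⟨a20, b20⟩, ⟨a21, b21⟩, ⟨a22, b22⟩⟩ := h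
  simp only [Bc, abs_le]
  refine ⟨⟨?_, ?_⟩, ⟨?_, ?_⟩, ⟨?_, ?_⟩, ⟨?_, ?_⟩, ⟨?_, ?_⟩, ⟨?_, ?_⟩, ⟨?_, ?_⟩, ⟨?_, ?_⟩⟩ <;>
    linarith

end Pool.Agent.H29.Prism
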