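import Pool.Agent.H29.Prism

namespace Pool.Agent.H29.Prism

/-- hypotheses on a near lattice tiling, unperturbed norm -/
structure Good (Q : ℝ → ℝ → ℝ → ℝ → Prop) : Prop where
  sub : ∀ {a b c d a' b' c' d' : ℝ}, Q a b c d → Q a' b' c' d' →
    Q (a - a') (b - b') (c - c') (d - d')
  add : ∀ {a b c d a' b' c' d' : ℝ}, Q a b c d → Q a' b' c' d' →
    Q (a + a') (b + b') (c + c') (d + d')
  sep : ∀ {a b c d : ℝ}, Q a b c d → Bs 2 a b c d → a = 0 ∧ b = 0 ∧ c = 0 ∧ d = 0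
  cov : ∀ x y z t : ℝ, ∃ a b c d, Q a b c d ∧
    Bc (1 + 1/100000) (x - a) (y - b) (z - c) (t - d)

lemma near {Q : ℝ → ℝ → ℝ → ℝ → Prop} (hQ : Good Q) (u v w s : ℝ) (h0 : u + v + w = 0)
    (hu : |u| ≤ 1/2 - 6/100000) (hv : |v| ≤ 1/2 - 6/100000) (hw : |w| ≤ 1/2 - 6/100000)
    (hs : |s| ≤ 1 - 2/100000) :
    ∃ a b c d, Q a b c d ∧ 3 ≤ a + b + c ∧
      Bc (1 + 1/100000) (1/2 + u + 1/100000 - a) (1/2 + v + 1/100000 - b)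
        (1/2 + w + 1/100000 - c) (s - d) := by
  obtain ⟨a, b, c, d, hq, hB⟩ :=
    hQ.cov (1/2 + u + 1/100000) (1/2 + v + 1/100000) (1/2 + w + 1/100000) s
  refine ⟨a, b, c, d, hq, ?_, hB⟩
  by_contra hlt
  push Not at hlt
  simp only [Bc, abs_le] at hB
  obtain ⟨⟨h1, h2⟩, ⟨h3, h4⟩, ⟨h5, h6⟩, ⟨h7, h8⟩, ⟨h9, h10⟩, ⟨h11, h12⟩, ⟨h13, h14⟩,
    ⟨h15, h16⟩⟩ := hB
  rw [abs_le] at hu hv hw hs
  obtain ⟨hu1, hu2⟩ := hu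
  obtain ⟨hv1, hv2⟩ := hv
  obtain ⟨hw1, hw2⟩ := hw
  obtain ⟨hs1, hs2⟩ := hs
  have : Bs 2 a b c d := by
    simp only [Bs, abs_lt]
    refine ⟨⟨?_, ?_⟩, ⟨?_, ?_⟩, ⟨?_, ?_⟩, ⟨?_, ?_⟩, ⟨?_, ?_⟩, ⟨?_, ?_⟩, ⟨?_, ?_⟩, ⟨?_, ?_⟩⟩ <;>
      linarith
  obtain ⟨e1, e2, e3, e4⟩ := hQ.sep hq this
  linarith

lemma same {Q : ℝ → ℝ → ℝ → ℝ → Prop} (hQ : Good Q) {a b c d s s' : ℝ} (hq : Q a b c d)
    (h3 : 3 ≤ a + b + c)
    (hB : Bc (1 + 1/100000) (1/2 + 0 + 1/100000 - a) (1/2 + 0 + 1/100000 - b)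
        (1/2 + 0 + 1/100000 - c) (s - d))
    (hd : |d - s'| ≤ 1 - 2/100000) (hs : |s'| ≤ 1 - 2/100000)
    (u v w : ℝ) (h0 : u + v + w = 0)
    (hu : |u| ≤ 1/2 - 6/100000) (hv : |v| ≤ 1/2 - 6/100000) (hw : |w| ≤ 1/2 - 6/100000) :
    1/2 + u - 2/100000 ≤ a ∧ 1/2 + v - 2/100000 ≤ b ∧ 1/2 + w - 2/100000 ≤ c := by
  obtain ⟨a', b', c', d', hq', h3', hB'⟩ := near hQ u v w s' h0 hu hv hw hs
  simp only [Bc, abs_le] at hB hB'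
  obtain ⟨⟨h1, h2⟩, ⟨h3, h4⟩, ⟨h5, h6⟩, ⟨h7, h8⟩, ⟨h9, h10⟩, ⟨h11, h12⟩, ⟨h13, h14⟩,
    ⟨h15, h16⟩⟩ := hB
  obtain ⟨⟨k1, k2⟩, ⟨k3, k4⟩, ⟨k5, k6⟩, ⟨k7, k8⟩, ⟨k9, k10⟩, ⟨k11, k12⟩, ⟨k13, k14⟩,
    ⟨k15, k16⟩⟩ := hB'
  rw [abs_le] at hu hv hw hs hd
  obtain ⟨hu1, hu2⟩ := hu
  obtain ⟨hv1, hv2⟩ := hv
  obtain ⟨hw1, hw2⟩ := hw
  obtain ⟨hs1, hs2⟩ := hs
  obtain ⟨hd1, hd2⟩ := hd
  have : Bs 2 (a - a') (b - b') (c - c') (d - d') := by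
    simp only [Bs, abs_lt]
    refine ⟨⟨?_, ?_⟩, ⟨?_, ?_⟩, ⟨?_, ?_⟩, ⟨?_, ?_⟩, ⟨?_, ?_⟩, ⟨?_, ?_⟩, ⟨?_, ?_⟩, ⟨?_, ?_⟩⟩ <;>
      linarith
  obtain ⟨e1, e2, e3, e4⟩ := hQ.sep (hQ.sub hq hq') this
  refine ⟨?_, ?_, ?_⟩ <;> linarith

/-- a column over `(p, q, r)` -/
def Col (Q : ℝ → ℝ → ℝ → ℝ → Prop) (p q r : ℝ) : Prop :=
  ∀ s : ℝ, |s| ≤ 1 - 5/100000 → ∃ a b c d, Q a b c d ∧ |a - p| ≤ 21/100000 ∧
    |b - q| ≤ 21/100000 ∧ |c - r| ≤ 21/100000 ∧ |d - s| ≤ 1 + 1/100000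

lemma rigid {Q : ℝ → ℝ → ℝ → ℝ → Prop} (hQ : Good Q) : Col Q 1 1 1 := by
  intro s hs
  obtain ⟨a, b, c, d, hq, h3, hB⟩ := near hQ 0 0 0 s (by norm_num) (by norm_num) (by norm_num)
    (by norm_num) (by linarith)
  have hB2 := hB
  simp only [Bc, abs_le] at hB2
  obtain ⟨⟨h1, h2⟩, ⟨h3', h4⟩, ⟨h5, h6⟩, ⟨h7, h8⟩, ⟨h9, h10⟩, ⟨h11, h12⟩, ⟨h13, h14⟩,
    ⟨h15, h16⟩⟩ := hB2
  rw [abs_le] at hs
  obtain ⟨s', hd, hs'⟩ : ∃ s' : ℝ, |d - s'| ≤ 1 - 2/100000 ∧ |s'| ≤ 1 - 2/100000 := by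
    rcases le_total s d with h | h
    · exact ⟨s + 3/100000, by rw [abs_le]; constructor <;> linarith,
        by rw [abs_le]; constructor <;> linarith⟩
    · exact ⟨s - 3/100000, by rw [abs_le]; constructor <;> linarith,
        by rw [abs_le]; constructor <;> linarith⟩
  have p1 : |(1/2 - 6/100000 : ℝ)| ≤ 1/2 - 6/100000 := by rw [abs_le]; constructor <;> norm_num
  have p2 : |(-1/4 + 3/100000 : ℝ)| ≤ 1/2 - 6/100000 := by rw [abs_le]; constructor <;> norm_num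
  have q1 := (same hQ hq h3 hB hd hs' _ _ _ (by norm_num) p1 p2 p2).1
  have q2 := (same hQ hq h3 hB hd hs' _ _ _ (by norm_num) p2 p1 p2).2.1
  have q3 := (same hQ hq h3 hB hd hs' _ _ _ (by norm_num) p2 p2 p1).2.2
  refine ⟨a, b, c, d, hq, ?_, ?_, ?_, ?_⟩ <;> rw [abs_le] <;> constructor <;> linarith

lemma Bs_flip1 {r x y z t : ℝ} (h : Bs r x y z t) : Bs r x (-y) (-z) t := by
  simp only [Bs, abs_lt] at h ⊢
  obtain ⟨⟨h1, h2⟩, ⟨h3, h4⟩, ⟨h5, h6⟩, ⟨h7, h8⟩, ⟨h9, h10⟩, ⟨h11, h12⟩, ⟨h13, h14⟩,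
    ⟨h15, h16⟩⟩ := h
  refine ⟨⟨?_, ?_⟩, ⟨?_, ?_⟩, ⟨?_, ?_⟩, ⟨?_, ?_⟩, ⟨?_, ?_⟩, ⟨?_, ?_⟩, ⟨?_, ?_⟩, ⟨?_, ?_⟩⟩ <;>
    linarith

lemma Bc_flip1 {r x y z t : ℝ} (h : Bc r x y z t) : Bc r x (-y) (-z) t := by
  simp only [Bc, abs_le] at h ⊢
  obtain ⟨⟨h1, h2⟩, ⟨h3, h4⟩, ⟨h5, h6⟩, ⟨h7, h8⟩, ⟨h9, h10⟩, ⟨h11, h12⟩, ⟨h13, h14⟩,
    ⟨h15, h16⟩⟩ := h
  refine ⟨⟨?_, ?_⟩, ⟨?_, ?_⟩, ⟨?_, ?_⟩, ⟨?_, ?_⟩, ⟨?_, ?_⟩, ⟨?_, ?_⟩, ⟨?_, ?_⟩, ⟨?_, ?_⟩⟩ <;>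
    linarith

lemma Bs_rot {r x y z t : ℝ} (h : Bs r x y z t) : Bs r y z x t := by
  simp only [Bs, abs_lt] at h ⊢
  obtain ⟨⟨h1, h2⟩, ⟨h3, h4⟩, ⟨h5, h6⟩, ⟨h7, h8⟩, ⟨h9, h10⟩, ⟨h11, h12⟩, ⟨h13, h14⟩,
    ⟨h15, h16⟩⟩ := h
  refine ⟨⟨?_, ?_⟩, ⟨?_, ?_⟩, ⟨?_, ?_⟩, ⟨?_, ?_⟩, ⟨?_, ?_⟩, ⟨?_, ?_⟩, ⟨?_, ?_⟩, ⟨?_, ?_⟩⟩ <;>
    linarith

lemma Bc_rot {r x y z t : ℝ} (h : Bc r x y z t) : Bc r y z x t := by
  simp only [Bc, abs_le] at h ⊢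
  obtain ⟨⟨h1, h2⟩, ⟨h3, h4⟩, ⟨h5, h6⟩, ⟨h7, h8⟩, ⟨h9, h10⟩, ⟨h11, h12⟩, ⟨h13, h14⟩,
    ⟨h15, h16⟩⟩ := h
  refine ⟨⟨?_, ?_⟩, ⟨?_, ?_⟩, ⟨?_, ?_⟩, ⟨?_, ?_⟩, ⟨?_, ?_⟩, ⟨?_, ?_⟩, ⟨?_, ?_⟩, ⟨?_, ?_⟩⟩ <;>
    linarith

lemma Good.flip1 {Q : ℝ → ℝ → ℝ → ℝ → Prop} (hQ : Good Q) :
    Good (fun a b c d => Q a (-b) (-c) d) where
  sub := by
    intro a b c d a' b' c' d' h h'
    have := hQ.sub h h'
    convert this using 1 <;> ring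
  add := by
    intro a b c d a' b' c' d' h h'
    have := hQ.add h h'
    convert this using 1 <;> ring
  sep := by
    intro a b c d h hb
    obtain ⟨e1, e2, e3, e4⟩ := hQ.sep h (Bs_flip1 hb)
    exact ⟨e1, by linarith, by linarith, e4⟩
  cov := by
    intro x y z t
    obtain ⟨a, b, c, d, hq, hb⟩ := hQ.cov x (-y) (-z) t
    refine ⟨a, -b, -c, d, by simpa using hq, ?_⟩
    have := Bc_flip1 hb
    convert this using 1 <;> ring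

lemma Good.rot {Q : ℝ → ℝ → ℝ → ℝ → Prop} (hQ : Good Q) :
    Good (fun a b c d => Q b c a d) where
  sub := fun h h' => hQ.sub h h'
  add := fun h h' => hQ.add h h'
  sep := by
    intro a b c d h hb
    obtain ⟨e1, e2, e3, e4⟩ := hQ.sep h (Bs_rot hb)
    exact ⟨e3, e1, e2, e4⟩
  cov := by
    intro x y z t
    obtain ⟨a, b, c, d, hq, hb⟩ := hQ.cov y z x t
    exact ⟨c, a, b, d, hq, Bc_rot (Bc_rot hb)⟩

lemma rigid1 {Q : ℝ → ℝ → ℝ → ℝ → Prop} (hQ : Good Q) : Col Q 1 (-1) (-1) := by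
  intro s hs
  obtain ⟨a, b, c, d, hq, h1, h2, h3, h4⟩ := rigid hQ.flip1 s hs
  refine ⟨a, -b, -c, d, hq, h1, ?_, ?_, h4⟩
  · rw [abs_le] at h2 ⊢; constructor <;> linarith [h2.1, h2.2]
  · rw [abs_le] at h3 ⊢; constructor <;> linarith [h3.1, h3.2]

lemma rigid3 {Q : ℝ → ℝ → ℝ → ℝ → Prop} (hQ : Good Q) : Col Q (-1) (-1) 1 := by
  intro s hs
  obtain ⟨a, b, c, d, hq, h1, h2, h3, h4⟩ := rigid1 hQ.rot s hs
  exact ⟨b, c, a, d, hq, h2, h3, h1, h4⟩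

lemma rigid2 {Q : ℝ → ℝ → ℝ → ℝ → Prop} (hQ : Good Q) : Col Q (-1) 1 (-1) := by
  intro s hs
  obtain ⟨a, b, c, d, hq, h1, h2, h3, h4⟩ := rigid3 hQ.rot s hs
  exact ⟨b, c, a, d, hq, h2, h3, h1, h4⟩

lemma close_eq {Q : ℝ → ℝ → ℝ → ℝ → Prop} (hQ : Good Q) {a b c d : ℝ} (hq : Q a b c d)
    (ha : |a| ≤ 1/2) (hb : |b| ≤ 1/2) (hc : |c| ≤ 1/2) (hd : |d| < 2) : d = 0 := by
  rw [abs_le] at ha hb hc
  rw [abs_lt] at hd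
  obtain ⟨h1, h2⟩ := ha
  obtain ⟨h3, h4⟩ := hb
  obtain ⟨h5, h6⟩ := hc
  obtain ⟨h7, h8⟩ := hd
  have : Bs 2 a b c d := by
    simp only [Bs, abs_lt]
    refine ⟨⟨?_, ?_⟩, ⟨?_, ?_⟩, ⟨?_, ?_⟩, ⟨?_, ?_⟩, ⟨?_, ?_⟩, ⟨?_, ?_⟩, ⟨?_, ?_⟩, ⟨?_, ?_⟩⟩ <;>
      linarith
  exact (hQ.sep hq this).2.2.2

lemma fiber {Q : ℝ → ℝ → ℝ → ℝ → Prop} (hQ : Good Q) {p q r : ℝ} (hC : Col Q p q r) :
    (∃ a b c d, Q a b c d ∧ |a - p| ≤ 21/100000 ∧ |b - q| ≤ 21/100000 ∧ |c - r| ≤ 21/100000 ∧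
      |d| ≤ 6/100000) ∨
    (∃ a b c d, Q a b c d ∧ |a| ≤ 42/100000 ∧ |b| ≤ 42/100000 ∧ |c| ≤ 42/100000 ∧
      2 ≤ d ∧ d ≤ 2 + 6/100000) := by
  obtain ⟨a, b, c, d, hq, h1, h2, h3, h4⟩ := hC (1 - 5/100000)
    (by rw [abs_le]; constructor <;> norm_num)
  obtain ⟨a', b', c', d', hq', k1, k2, k3, k4⟩ := hC (-1 + 5/100000)
    (by rw [abs_le]; constructor <;> norm_num)
  have h1' := abs_le.1 h1
  have h2' := abs_le.1 h2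
  have h3' := abs_le.1 h3
  have h4' := abs_le.1 h4
  have k1' := abs_le.1 k1
  have k2' := abs_le.1 k2
  have k3' := abs_le.1 k3
  have k4' := abs_le.1 k4
  by_cases hlt : d - d' < 2
  · left
    have := close_eq hQ (hQ.sub hq hq') (by rw [abs_le]; constructor <;> linarith)
      (by rw [abs_le]; constructor <;> linarith) (by rw [abs_le]; constructor <;> linarith)
      (by rw [abs_lt]; constructor <;> linarith)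
    exact ⟨a, b, c, d, hq, h1, h2, h3, by rw [abs_le]; constructor <;> linarith⟩
  · right
    push Not at hlt
    refine ⟨a - a', b - b', c - c', d - d', hQ.sub hq hq', by rw [abs_le]; constructor <;> linarith,
      by rw [abs_le]; constructor <;> linarith, by rw [abs_le]; constructor <;> linarith, hlt, ?_⟩
    obtain ⟨a'', b'', c'', d'', hq'', l1, l2, l3, l4⟩ := hC ((d + d') / 2 * (1 - 2/100000))
      (by rw [abs_le]; constructor <;> linarith)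
    have l1' := abs_le.1 l1
    have l2' := abs_le.1 l2
    have l3' := abs_le.1 l3
    have l4' := abs_le.1 l4
    rcases le_total d'' ((d + d') / 2) with h | h
    · have := close_eq hQ (hQ.sub hq'' hq') (by rw [abs_le]; constructor <;> linarith)
        (by rw [abs_le]; constructor <;> linarith) (by rw [abs_le]; constructor <;> linarith)
        (by rw [abs_lt]; constructor <;> linarith)
      linarith
    · have := close_eq hQ (hQ.sub hq'' hq) (by rw [abs_le]; constructor <;> linarith)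
        (by rw [abs_le]; constructor <;> linarith) (by rw [abs_le]; constructor <;> linarith)
        (by rw [abs_lt]; constructor <;> linarith)
      linarith

/-- a vector of `Q` near `(p, q, r)` with last coordinate within `w` of `m` -/
def Bad (Q : ℝ → ℝ → ℝ → ℝ → Prop) (p q r m w : ℝ) : Prop :=
  ∃ a b c d, Q a b c d ∧ |a - p| ≤ 84/100000 ∧ |b - q| ≤ 84/100000 ∧ |c - r| ≤ 84/100000 ∧
    |d - m| ≤ w

lemma pair {Q : ℝ → ℝ → ℝ → ℝ → Prop} (hQ : Good Q) {p q r a b c d a' b' c' d' : ℝ}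
    (hq : Q a b c d) (h1 : |a - p| ≤ 42/100000) (h2 : |b - q| ≤ 42/100000)
    (h3 : |c - r| ≤ 42/100000) (h4 : |d| ≤ 2 + 2/100000)
    (hw : Q a' b' c' d') (k1 : |a'| ≤ 42/100000) (k2 : |b'| ≤ 42/100000)
    (k3 : |c'| ≤ 42/100000) (k4 : 2 ≤ d') (k5 : d' ≤ 2 + 6/100000) (hn : ¬ Bad Q p q r 0 (7/8)) :
    (7/8 ≤ d ∧ d ≤ 9/8 + 6/100000) ∨ (-9/8 - 6/100000 ≤ d ∧ d ≤ -7/8) := by
  have h1' := abs_le.1 h1
  have h2' := abs_le.1 h2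
  have h3' := abs_le.1 h3
  have h4' := abs_le.1 h4
  have k1' := abs_le.1 k1
  have k2' := abs_le.1 k2
  have k3' := abs_le.1 k3
  by_contra hc
  apply hn
  push Not at hc
  by_cases c1 : 7/8 ≤ d
  · have := hc.1 c1
    refine ⟨_, _, _, _, hQ.sub hq hw, ?_, ?_, ?_, ?_⟩ <;> rw [abs_le] <;> constructor <;> linarith
  · by_cases c2 : -9/8 - 6/100000 ≤ d
    · have := hc.2 c2
      refine ⟨_, _, _, _, hq, ?_, ?_, ?_, ?_⟩ <;> rw [abs_le] <;> constructor <;> linarith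
    · refine ⟨_, _, _, _, hQ.add hq hw, ?_, ?_, ?_, ?_⟩ <;> rw [abs_le] <;> constructor <;> linarith

lemma exists_bad {Q : ℝ → ℝ → ℝ → ℝ → Prop} (hQ : Good Q) :
    Bad Q 2 0 0 0 (7/8) ∨ Bad Q 0 2 0 0 (7/8) ∨ Bad Q 0 0 2 0 (7/8) ∨
      Bad Q 1 1 1 (1/2) (1/4) ∨ Bad Q 1 (-1) (-1) (-1/2) (1/4) := by
  by_contra hc
  push Not at hc
  obtain ⟨n1, n2, n3, n4, n5⟩ := hc
  have hw : ∃ a b c d, Q a b c d ∧ |a| ≤ 42/100000 ∧ |b| ≤ 42/100000 ∧ |c| ≤ 42/100000 ∧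
      2 ≤ d ∧ d ≤ 2 + 6/100000 := by
    rcases fiber hQ (rigid hQ) with ⟨a, b, c, d, hq, h1, h2, h3, h4⟩ | h
    · rcases fiber hQ (rigid1 hQ) with ⟨a', b', c', d', hq', k1, k2, k3, k4⟩ | h
      · exfalso
        apply n1
        rw [abs_le] at h1 h2 h3 h4 k1 k2 k3 k4
        refine ⟨_, _, _, _, hQ.add hq hq', ?_, ?_, ?_, ?_⟩ <;> rw [abs_le] <;> constructor <;>
          linarith [h1.1, h1.2, h2.1, h2.2, h3.1, h3.2, h4.1, h4.2, k1.1, k1.2, k2.1, k2.2,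
            k3.1, k3.2, k4.1, k4.2]
      · exact h
    · exact h
  obtain ⟨wa, wb, wc, wd, hw, w1, w2, w3, w4, w5⟩ := hw
  have z0 : |(0:ℝ)| ≤ 1 - 5/100000 := by norm_num
  obtain ⟨a0, b0, c0, s0, q0, x0, y0, u0, v0⟩ := rigid hQ 0 z0
  obtain ⟨a1, b1, c1, s1, q1, x1, y1, u1, v1⟩ := rigid1 hQ 0 z0
  obtain ⟨a2, b2, c2, s2, q2, x2, y2, u2, v2⟩ := rigid2 hQ 0 z0
  obtain ⟨a3, b3, c3, s3, q3, x3, y3, u3, v3⟩ := rigid3 hQ 0 z0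
  obtain ⟨x0l, x0r⟩ := abs_le.1 x0
  obtain ⟨y0l, y0r⟩ := abs_le.1 y0
  obtain ⟨u0l, u0r⟩ := abs_le.1 u0
  obtain ⟨v0l, v0r⟩ := abs_le.1 v0
  obtain ⟨x1l, x1r⟩ := abs_le.1 x1
  obtain ⟨y1l, y1r⟩ := abs_le.1 y1
  obtain ⟨u1l, u1r⟩ := abs_le.1 u1
  obtain ⟨v1l, v1r⟩ := abs_le.1 v1
  obtain ⟨x2l, x2r⟩ := abs_le.1 x2
  obtain ⟨y2l, y2r⟩ := abs_le.1 y2
  obtain ⟨u2l, u2r⟩ := abs_le.1 u2
  obtain ⟨v2l, v2r⟩ := abs_le.1 v2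
  obtain ⟨x3l, x3r⟩ := abs_le.1 x3
  obtain ⟨y3l, y3r⟩ := abs_le.1 y3
  obtain ⟨u3l, u3r⟩ := abs_le.1 u3
  obtain ⟨v3l, v3r⟩ := abs_le.1 v3
  have p1 := pair hQ (p := 2) (q := 0) (r := 0) (hQ.add q0 q1)
    (by rw [abs_le]; constructor <;> linarith) (by rw [abs_le]; constructor <;> linarith)
    (by rw [abs_le]; constructor <;> linarith) (by rw [abs_le]; constructor <;> linarith)
    hw w1 w2 w3 w4 w5 n1
  have p2 := pair hQ (p := 0) (q := 2) (r := 0) (hQ.add q0 q2)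
    (by rw [abs_le]; constructor <;> linarith) (by rw [abs_le]; constructor <;> linarith)
    (by rw [abs_le]; constructor <;> linarith) (by rw [abs_le]; constructor <;> linarith)
    hw w1 w2 w3 w4 w5 n2
  have p3 := pair hQ (p := 0) (q := 0) (r := 2) (hQ.add q0 q3)
    (by rw [abs_le]; constructor <;> linarith) (by rw [abs_le]; constructor <;> linarith)
    (by rw [abs_le]; constructor <;> linarith) (by rw [abs_le]; constructor <;> linarith)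
    hw w1 w2 w3 w4 w5 n3
  obtain ⟨w1l, w1r⟩ := abs_le.1 w1
  obtain ⟨w2l, w2r⟩ := abs_le.1 w2
  obtain ⟨w3l, w3r⟩ := abs_le.1 w3
  have qs := hQ.add (hQ.add (hQ.add q0 q1) q2) q3
  have hS : s0 + s1 + s2 + s3 + wd + wd = 0 ∨ s0 + s1 + s2 + s3 + wd = 0 ∨
      s0 + s1 + s2 + s3 = 0 ∨ s0 + s1 + s2 + s3 - wd = 0 ∨ s0 + s1 + s2 + s3 - wd - wd = 0 := by
    by_cases d1 : s0 + s1 + s2 + s3 < -3
    · left
      exact close_eq hQ (hQ.add (hQ.add qs hw) hw) (by rw [abs_le]; constructor <;> linarith)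
        (by rw [abs_le]; constructor <;> linarith) (by rw [abs_le]; constructor <;> linarith)
        (by rw [abs_lt]; constructor <;> linarith)
    by_cases d2 : s0 + s1 + s2 + s3 < -1
    · right; left
      exact close_eq hQ (hQ.add qs hw) (by rw [abs_le]; constructor <;> linarith)
        (by rw [abs_le]; constructor <;> linarith) (by rw [abs_le]; constructor <;> linarith)
        (by rw [abs_lt]; constructor <;> linarith)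
    by_cases d3 : s0 + s1 + s2 + s3 < 1
    · right; right; left
      exact close_eq hQ qs (by rw [abs_le]; constructor <;> linarith)
        (by rw [abs_le]; constructor <;> linarith) (by rw [abs_le]; constructor <;> linarith)
        (by rw [abs_lt]; constructor <;> linarith)
    by_cases d4 : s0 + s1 + s2 + s3 < 3
    · right; right; right; left
      exact close_eq hQ (hQ.sub qs hw) (by rw [abs_le]; constructor <;> linarith)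
        (by rw [abs_le]; constructor <;> linarith) (by rw [abs_le]; constructor <;> linarith)
        (by rw [abs_lt]; constructor <;> linarith)
    · right; right; right; right
      exact close_eq hQ (hQ.sub (hQ.sub qs hw) hw) (by rw [abs_le]; constructor <;> linarith)
        (by rw [abs_le]; constructor <;> linarith) (by rw [abs_le]; constructor <;> linarith)
        (by rw [abs_lt]; constructor <;> linarith)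
  have m4 : s0 < 1/4 ∨ 3/4 < s0 := by
    by_contra h
    push Not at h
    apply n4
    refine ⟨_, _, _, _, q0, ?_, ?_, ?_, ?_⟩ <;> rw [abs_le] <;> constructor <;>
      linarith [h.1, h.2]
  have m5 : s1 < -3/4 ∨ -1/4 < s1 := by
    by_contra h
    push Not at h
    apply n5
    refine ⟨_, _, _, _, q1, ?_, ?_, ?_, ?_⟩ <;> rw [abs_le] <;> constructor <;>
      linarith [h.1, h.2]
  clear x0 y0 u0 v0 x1 y1 u1 v1 x2 y2 u2 v2 x3 y3 u3 v3 x0l x0r y0l y0r u0l u0r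
    x1l x1r y1l y1r u1l u1r x2l x2r y2l y2r u2l u2r x3l x3r y3l y3r u3l u3r
    w1 w2 w3 w1l w1r w2l w2r w3l w3r qs q0 q1 q2 q3 hw n1 n2 n3 n4 n5 z0
  have m0 : (-11/16 - 15/100000 ≤ s0 ∧ s0 ≤ -5/16 + 15/100000) := by
    rcases p1 with ⟨p1, p1'⟩ | ⟨p1, p1'⟩ <;> rcases p2 with ⟨p2, p2'⟩ | ⟨p2, p2'⟩ <;>
      rcases p3 with ⟨p3, p3'⟩ | ⟨p3, p3'⟩ <;> rcases hS with hS | hS | hS | hS | hS <;>
      rcases m4 with m4 | m4 <;> constructor <;> linarith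
  obtain ⟨m0, m0'⟩ := m0
  rcases p1 with ⟨p1, p1'⟩ | ⟨p1, p1'⟩ <;> rcases p2 with ⟨p2, p2'⟩ | ⟨p2, p2'⟩ <;>
    rcases p3 with ⟨p3, p3'⟩ | ⟨p3, p3'⟩ <;> rcases hS with hS | hS | hS | hS | hS <;>
    rcases m5 with m5 | m5 <;> linarith

end Pool.Agent.H29.Prism
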