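import Pool.Agent.H29.Prism2

namespace Pool.Agent.H29.Prism

/-- hypotheses in the perturbed norm -/
structure GoodN (Q : ℝ → ℝ → ℝ → ℝ → Prop) : Prop where
  sub : ∀ {a b c d a' b' c' d' : ℝ}, Q a b c d → Q a' b' c' d' →
    Q (a - a') (b - b') (c - c') (d - d')
  add : ∀ {a b c d a' b' c' d' : ℝ}, Q a b c d → Q a' b' c' d' →
    Q (a + a') (b + b') (c + c') (d + d')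
  sep : ∀ {a b c d : ℝ}, Q a b c d → Flt 2 a b c d → a = 0 ∧ b = 0 ∧ c = 0 ∧ d = 0
  cov : ∀ x y z t : ℝ, ∃ a b c d, Q a b c d ∧
    Fle (1 + 17/6400000) (x - a) (y - b) (z - c) (t - d)

lemma GoodN.good {Q : ℝ → ℝ → ℝ → ℝ → Prop} (hQ : GoodN Q) : Good Q where
  sub := hQ.sub
  add := hQ.add
  sep := fun h hb => hQ.sep h (Flt_of_Bs hb)
  cov := fun x y z t => by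
    obtain ⟨a, b, c, d, h, hb⟩ := hQ.cov x y z t
    exact ⟨a, b, c, d, h, Bc_of_Fle hb⟩

lemma holeX {Q : ℝ → ℝ → ℝ → ℝ → Prop} (hQ : GoodN Q) : ¬ Bad Q 2 0 0 0 (7/8) := by
  rintro ⟨a, b, c, d, hq, h1, h2, h3, h4⟩
  obtain ⟨h1l, h1r⟩ := abs_le.1 h1
  obtain ⟨h2l, h2r⟩ := abs_le.1 h2
  obtain ⟨h3l, h3r⟩ := abs_le.1 h3
  obtain ⟨h4l, h4r⟩ := abs_le.1 h4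
  clear h1 h2 h3 h4
  obtain ⟨a', b', c', d', hq', hF⟩ := hQ.cov (a/2) (b/2 + (1/2 - 168/100000)) (c/2) (d/2)
  have hB := Bc_of_Fle hF
  simp only [Bc, abs_le] at hB
  obtain ⟨⟨m0, n0⟩, ⟨m1, n1⟩, ⟨m2, n2⟩, ⟨m3, n3⟩, ⟨m4, n4⟩, ⟨m5, n5⟩, ⟨m6, n6⟩, ⟨m7, n7⟩⟩ := hB
  have hf : Flt 2 a b c d := by
    by_cases hc : a' < 2
    · have hb : Bs 2 a' b' c' d' := by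
        simp only [Bs, abs_lt]
        refine ⟨⟨?_, ?_⟩, ⟨?_, ?_⟩, ⟨?_, ?_⟩, ⟨?_, ?_⟩, ⟨?_, ?_⟩, ⟨?_, ?_⟩, ⟨?_, ?_⟩, ⟨?_, ?_⟩⟩ <;> linarith
      obtain ⟨e1, e2, e3, e4⟩ := hQ.good.sep hq' hb
      subst e1 e2 e3 e4
      obtain ⟨-, -, -, -, -, -, -, -, -, -, -, k, -, -, -, -, -, -, -, -, -, -, -⟩ := hF
      have k' := (abs_le.1 k).2
      clear k m0 n0 m1 n1 m2 n2 m3 n3 m4 n4 m5 n5 m6 n6 m7 n7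
      simp only [Flt, abs_lt]
      refine ⟨⟨?_, ?_⟩, ⟨?_, ?_⟩, ⟨?_, ?_⟩, ⟨?_, ?_⟩, ⟨?_, ?_⟩, ⟨?_, ?_⟩, ⟨?_, ?_⟩, ⟨?_, ?_⟩, ⟨?_, ?_⟩, ⟨?_, ?_⟩, ⟨?_, ?_⟩, ⟨?_, ?_⟩, ⟨?_, ?_⟩, ⟨?_, ?_⟩, ⟨?_, ?_⟩, ⟨?_, ?_⟩, ⟨?_, ?_⟩, ⟨?_, ?_⟩, ⟨?_, ?_⟩, ⟨?_, ?_⟩, ⟨?_, ?_⟩, ⟨?_, ?_⟩, ⟨?_, ?_⟩⟩ <;> linarith
    · push Not at hc
      have hb : Bs 2 (a' - a) (b' - b) (c' - c) (d' - d) := by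
        simp only [Bs, abs_lt]
        refine ⟨⟨?_, ?_⟩, ⟨?_, ?_⟩, ⟨?_, ?_⟩, ⟨?_, ?_⟩, ⟨?_, ?_⟩, ⟨?_, ?_⟩, ⟨?_, ?_⟩, ⟨?_, ?_⟩⟩ <;> linarith
      obtain ⟨e1, e2, e3, e4⟩ := hQ.good.sep (hQ.sub hq' hq) hb
      have e1' : a' = a := by linarith
      have e2' : b' = b := by linarith
      have e3' : c' = c := by linarith
      have e4' : d' = d := by linarith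
      subst e1' e2' e3' e4'
      obtain ⟨-, -, -, -, -, -, -, -, -, -, -, -, k, -, -, -, -, -, -, -, -, -, -⟩ := hF
      have k' := (abs_le.1 k).1
      clear k m0 n0 m1 n1 m2 n2 m3 n3 m4 n4 m5 n5 m6 n6 m7 n7
      simp only [Flt, abs_lt]
      refine ⟨⟨?_, ?_⟩, ⟨?_, ?_⟩, ⟨?_, ?_⟩, ⟨?_, ?_⟩, ⟨?_, ?_⟩, ⟨?_, ?_⟩, ⟨?_, ?_⟩, ⟨?_, ?_⟩, ⟨?_, ?_⟩, ⟨?_, ?_⟩, ⟨?_, ?_⟩, ⟨?_, ?_⟩, ⟨?_, ?_⟩, ⟨?_, ?_⟩, ⟨?_, ?_⟩, ⟨?_, ?_⟩, ⟨?_, ?_⟩, ⟨?_, ?_⟩, ⟨?_, ?_⟩, ⟨?_, ?_⟩, ⟨?_, ?_⟩, ⟨?_, ?_⟩, ⟨?_, ?_⟩⟩ <;> linarith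
  obtain ⟨e1, e2, e3, e4⟩ := hQ.sep hq hf
  linarith

lemma holeY {Q : ℝ → ℝ → ℝ → ℝ → Prop} (hQ : GoodN Q) : ¬ Bad Q 0 2 0 0 (7/8) := by
  rintro ⟨a, b, c, d, hq, h1, h2, h3, h4⟩
  obtain ⟨h1l, h1r⟩ := abs_le.1 h1
  obtain ⟨h2l, h2r⟩ := abs_le.1 h2
  obtain ⟨h3l, h3r⟩ := abs_le.1 h3
  obtain ⟨h4l, h4r⟩ := abs_le.1 h4
  clear h1 h2 h3 h4
  obtain ⟨a', b', c', d', hq', hF⟩ := hQ.cov (a/2) (b/2) (c/2 + (1/2 - 168/100000)) (d/2)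
  have hB := Bc_of_Fle hF
  simp only [Bc, abs_le] at hB
  obtain ⟨⟨m0, n0⟩, ⟨m1, n1⟩, ⟨m2, n2⟩, ⟨m3, n3⟩, ⟨m4, n4⟩, ⟨m5, n5⟩, ⟨m6, n6⟩, ⟨m7, n7⟩⟩ := hB
  have hf : Flt 2 a b c d := by
    by_cases hc : b' < 2
    · have hb : Bs 2 a' b' c' d' := by
        simp only [Bs, abs_lt]
        refine ⟨⟨?_, ?_⟩, ⟨?_, ?_⟩, ⟨?_, ?_⟩, ⟨?_, ?_⟩, ⟨?_, ?_⟩, ⟨?_, ?_⟩, ⟨?_, ?_⟩, ⟨?_, ?_⟩⟩ <;> linarith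
      obtain ⟨e1, e2, e3, e4⟩ := hQ.good.sep hq' hb
      subst e1 e2 e3 e4
      obtain ⟨-, -, -, -, -, -, -, -, -, -, -, -, -, -, -, k, -, -, -, -, -, -, -⟩ := hF
      have k' := (abs_le.1 k).2
      clear k m0 n0 m1 n1 m2 n2 m3 n3 m4 n4 m5 n5 m6 n6 m7 n7
      simp only [Flt, abs_lt]
      refine ⟨⟨?_, ?_⟩, ⟨?_, ?_⟩, ⟨?_, ?_⟩, ⟨?_, ?_⟩, ⟨?_, ?_⟩, ⟨?_, ?_⟩, ⟨?_, ?_⟩, ⟨?_, ?_⟩, ⟨?_, ?_⟩, ⟨?_, ?_⟩, ⟨?_, ?_⟩, ⟨?_, ?_⟩, ⟨?_, ?_⟩, ⟨?_, ?_⟩, ⟨?_, ?_⟩, ⟨?_, ?_⟩, ⟨?_, ?_⟩, ⟨?_, ?_⟩, ⟨?_, ?_⟩, ⟨?_, ?_⟩, ⟨?_, ?_⟩, ⟨?_, ?_⟩, ⟨?_, ?_⟩⟩ <;> linarith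
    · push Not at hc
      have hb : Bs 2 (a' - a) (b' - b) (c' - c) (d' - d) := by
        simp only [Bs, abs_lt]
        refine ⟨⟨?_, ?_⟩, ⟨?_, ?_⟩, ⟨?_, ?_⟩, ⟨?_, ?_⟩, ⟨?_, ?_⟩, ⟨?_, ?_⟩, ⟨?_, ?_⟩, ⟨?_, ?_⟩⟩ <;> linarith
      obtain ⟨e1, e2, e3, e4⟩ := hQ.good.sep (hQ.sub hq' hq) hb
      have e1' : a' = a := by linarith
      have e2' : b' = b := by linarith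
      have e3' : c' = c := by linarith
      have e4' : d' = d := by linarith
      subst e1' e2' e3' e4'
      obtain ⟨-, -, -, -, -, -, -, -, -, -, -, -, -, -, -, -, k, -, -, -, -, -, -⟩ := hF
      have k' := (abs_le.1 k).1
      clear k m0 n0 m1 n1 m2 n2 m3 n3 m4 n4 m5 n5 m6 n6 m7 n7
      simp only [Flt, abs_lt]
      refine ⟨⟨?_, ?_⟩, ⟨?_, ?_⟩, ⟨?_, ?_⟩, ⟨?_, ?_⟩, ⟨?_, ?_⟩, ⟨?_, ?_⟩, ⟨?_, ?_⟩, ⟨?_, ?_⟩, ⟨?_, ?_⟩, ⟨?_, ?_⟩, ⟨?_, ?_⟩, ⟨?_, ?_⟩, ⟨?_, ?_⟩, ⟨?_, ?_⟩, ⟨?_, ?_⟩, ⟨?_, ?_⟩, ⟨?_, ?_⟩, ⟨?_, ?_⟩, ⟨?_, ?_⟩, ⟨?_, ?_⟩, ⟨?_, ?_⟩, ⟨?_, ?_⟩, ⟨?_, ?_⟩⟩ <;> linarith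
  obtain ⟨e1, e2, e3, e4⟩ := hQ.sep hq hf
  linarith

lemma holeZ {Q : ℝ → ℝ → ℝ → ℝ → Prop} (hQ : GoodN Q) : ¬ Bad Q 0 0 2 0 (7/8) := by
  rintro ⟨a, b, c, d, hq, h1, h2, h3, h4⟩
  obtain ⟨h1l, h1r⟩ := abs_le.1 h1
  obtain ⟨h2l, h2r⟩ := abs_le.1 h2
  obtain ⟨h3l, h3r⟩ := abs_le.1 h3
  obtain ⟨h4l, h4r⟩ := abs_le.1 h4
  clear h1 h2 h3 h4
  obtain ⟨a', b', c', d', hq', hF⟩ := hQ.cov (a/2 + (1/2 - 168/100000)) (b/2) (c/2) (d/2)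
  have hB := Bc_of_Fle hF
  simp only [Bc, abs_le] at hB
  obtain ⟨⟨m0, n0⟩, ⟨m1, n1⟩, ⟨m2, n2⟩, ⟨m3, n3⟩, ⟨m4, n4⟩, ⟨m5, n5⟩, ⟨m6, n6⟩, ⟨m7, n7⟩⟩ := hB
  have hf : Flt 2 a b c d := by
    by_cases hc : c' < 2
    · have hb : Bs 2 a' b' c' d' := by
        simp only [Bs, abs_lt]
        refine ⟨⟨?_, ?_⟩, ⟨?_, ?_⟩, ⟨?_, ?_⟩, ⟨?_, ?_⟩, ⟨?_, ?_⟩, ⟨?_, ?_⟩, ⟨?_, ?_⟩, ⟨?_, ?_⟩⟩ <;> linarith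
      obtain ⟨e1, e2, e3, e4⟩ := hQ.good.sep hq' hb
      subst e1 e2 e3 e4
      obtain ⟨-, -, -, -, -, -, -, -, -, -, -, -, -, -, -, -, -, -, -, k, -, -, -⟩ := hF
      have k' := (abs_le.1 k).2
      clear k m0 n0 m1 n1 m2 n2 m3 n3 m4 n4 m5 n5 m6 n6 m7 n7
      simp only [Flt, abs_lt]
      refine ⟨⟨?_, ?_⟩, ⟨?_, ?_⟩, ⟨?_, ?_⟩, ⟨?_, ?_⟩, ⟨?_, ?_⟩, ⟨?_, ?_⟩, ⟨?_, ?_⟩, ⟨?_, ?_⟩, ⟨?_, ?_⟩, ⟨?_, ?_⟩, ⟨?_, ?_⟩, ⟨?_, ?_⟩, ⟨?_, ?_⟩, ⟨?_, ?_⟩, ⟨?_, ?_⟩, ⟨?_, ?_⟩, ⟨?_, ?_⟩, ⟨?_, ?_⟩, ⟨?_, ?_⟩, ⟨?_, ?_⟩, ⟨?_, ?_⟩, ⟨?_, ?_⟩, ⟨?_, ?_⟩⟩ <;> linarith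
    · push Not at hc
      have hb : Bs 2 (a' - a) (b' - b) (c' - c) (d' - d) := by
        simp only [Bs, abs_lt]
        refine ⟨⟨?_, ?_⟩, ⟨?_, ?_⟩, ⟨?_, ?_⟩, ⟨?_, ?_⟩, ⟨?_, ?_⟩, ⟨?_, ?_⟩, ⟨?_, ?_⟩, ⟨?_, ?_⟩⟩ <;> linarith
      obtain ⟨e1, e2, e3, e4⟩ := hQ.good.sep (hQ.sub hq' hq) hb
      have e1' : a' = a := by linarith
      have e2' : b' = b := by linarith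
      have e3' : c' = c := by linarith
      have e4' : d' = d := by linarith
      subst e1' e2' e3' e4'
      obtain ⟨-, -, -, -, -, -, -, -, -, -, -, -, -, -, -, -, -, -, -, -, k, -, -⟩ := hF
      have k' := (abs_le.1 k).1
      clear k m0 n0 m1 n1 m2 n2 m3 n3 m4 n4 m5 n5 m6 n6 m7 n7
      simp only [Flt, abs_lt]
      refine ⟨⟨?_, ?_⟩, ⟨?_, ?_⟩, ⟨?_, ?_⟩, ⟨?_, ?_⟩, ⟨?_, ?_⟩, ⟨?_, ?_⟩, ⟨?_, ?_⟩, ⟨?_, ?_⟩, ⟨?_, ?_⟩, ⟨?_, ?_⟩, ⟨?_, ?_⟩, ⟨?_, ?_⟩, ⟨?_, ?_⟩, ⟨?_, ?_⟩, ⟨?_, ?_⟩, ⟨?_, ?_⟩, ⟨?_, ?_⟩, ⟨?_, ?_⟩, ⟨?_, ?_⟩, ⟨?_, ?_⟩, ⟨?_, ?_⟩, ⟨?_, ?_⟩, ⟨?_, ?_⟩⟩ <;> linarith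
  obtain ⟨e1, e2, e3, e4⟩ := hQ.sep hq hf
  linarith

lemma holeA {Q : ℝ → ℝ → ℝ → ℝ → Prop} (hQ : GoodN Q) : ¬ Bad Q 1 1 1 (1/2) (1/4) := by
  rintro ⟨a, b, c, d, hq, h1, h2, h3, h4⟩
  obtain ⟨h1l, h1r⟩ := abs_le.1 h1
  obtain ⟨h2l, h2r⟩ := abs_le.1 h2
  obtain ⟨h3l, h3r⟩ := abs_le.1 h3
  obtain ⟨h4l, h4r⟩ := abs_le.1 h4
  clear h1 h2 h3 h4
  obtain ⟨a', b', c', d', hq', hF⟩ := hQ.cov (a/2 + (1/2 - 168/100000)) (b/2 - (1/2 - 168/100000)) (c/2) (d/2)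
  have hB := Bc_of_Fle hF
  simp only [Bc, abs_le] at hB
  obtain ⟨⟨m0, n0⟩, ⟨m1, n1⟩, ⟨m2, n2⟩, ⟨m3, n3⟩, ⟨m4, n4⟩, ⟨m5, n5⟩, ⟨m6, n6⟩, ⟨m7, n7⟩⟩ := hB
  have hf : Flt 2 a b c d := by
    by_cases hc : a' + b' + c' < 3
    · have hb : Bs 2 a' b' c' d' := by
        simp only [Bs, abs_lt]
        refine ⟨⟨?_, ?_⟩, ⟨?_, ?_⟩, ⟨?_, ?_⟩, ⟨?_, ?_⟩, ⟨?_, ?_⟩, ⟨?_, ?_⟩, ⟨?_, ?_⟩, ⟨?_, ?_⟩⟩ <;> linarith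
      obtain ⟨e1, e2, e3, e4⟩ := hQ.good.sep hq' hb
      subst e1 e2 e3 e4
      obtain ⟨-, -, -, k, -, -, -, -, -, -, -, -, -, -, -, -, -, -, -, -, -, -, -⟩ := hF
      have k' := (abs_le.1 k).2
      clear k m0 n0 m1 n1 m2 n2 m3 n3 m4 n4 m5 n5 m6 n6 m7 n7
      simp only [Flt, abs_lt]
      refine ⟨⟨?_, ?_⟩, ⟨?_, ?_⟩, ⟨?_, ?_⟩, ⟨?_, ?_⟩, ⟨?_, ?_⟩, ⟨?_, ?_⟩, ⟨?_, ?_⟩, ⟨?_, ?_⟩, ⟨?_, ?_⟩, ⟨?_, ?_⟩, ⟨?_, ?_⟩, ⟨?_, ?_⟩, ⟨?_, ?_⟩, ⟨?_, ?_⟩, ⟨?_, ?_⟩, ⟨?_, ?_⟩, ⟨?_, ?_⟩, ⟨?_, ?_⟩, ⟨?_, ?_⟩, ⟨?_, ?_⟩, ⟨?_, ?_⟩, ⟨?_, ?_⟩, ⟨?_, ?_⟩⟩ <;> linarith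
    · push Not at hc
      have hb : Bs 2 (a' - a) (b' - b) (c' - c) (d' - d) := by
        simp only [Bs, abs_lt]
        refine ⟨⟨?_, ?_⟩, ⟨?_, ?_⟩, ⟨?_, ?_⟩, ⟨?_, ?_⟩, ⟨?_, ?_⟩, ⟨?_, ?_⟩, ⟨?_, ?_⟩, ⟨?_, ?_⟩⟩ <;> linarith
      obtain ⟨e1, e2, e3, e4⟩ := hQ.good.sep (hQ.sub hq' hq) hb
      have e1' : a' = a := by linarith
      have e2' : b' = b := by linarith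
      have e3' : c' = c := by linarith
      have e4' : d' = d := by linarith
      subst e1' e2' e3' e4'
      obtain ⟨-, -, -, -, k, -, -, -, -, -, -, -, -, -, -, -, -, -, -, -, -, -, -⟩ := hF
      have k' := (abs_le.1 k).1
      clear k m0 n0 m1 n1 m2 n2 m3 n3 m4 n4 m5 n5 m6 n6 m7 n7
      simp only [Flt, abs_lt]
      refine ⟨⟨?_, ?_⟩, ⟨?_, ?_⟩, ⟨?_, ?_⟩, ⟨?_, ?_⟩, ⟨?_, ?_⟩, ⟨?_, ?_⟩, ⟨?_, ?_⟩, ⟨?_, ?_⟩, ⟨?_, ?_⟩, ⟨?_, ?_⟩, ⟨?_, ?_⟩, ⟨?_, ?_⟩, ⟨?_, ?_⟩, ⟨?_, ?_⟩, ⟨?_, ?_⟩, ⟨?_, ?_⟩, ⟨?_, ?_⟩, ⟨?_, ?_⟩, ⟨?_, ?_⟩, ⟨?_, ?_⟩, ⟨?_, ?_⟩, ⟨?_, ?_⟩, ⟨?_, ?_⟩⟩ <;> linarith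
  obtain ⟨e1, e2, e3, e4⟩ := hQ.sep hq hf
  linarith

lemma holeB {Q : ℝ → ℝ → ℝ → ℝ → Prop} (hQ : GoodN Q) : ¬ Bad Q 1 (-1) (-1) (-1/2) (1/4) := by
  rintro ⟨a, b, c, d, hq, h1, h2, h3, h4⟩
  obtain ⟨h1l, h1r⟩ := abs_le.1 h1
  obtain ⟨h2l, h2r⟩ := abs_le.1 h2
  obtain ⟨h3l, h3r⟩ := abs_le.1 h3
  obtain ⟨h4l, h4r⟩ := abs_le.1 h4
  clear h1 h2 h3 h4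
  obtain ⟨a', b', c', d', hq', hF⟩ := hQ.cov (a/2 + (1/2 - 168/100000)) (b/2 + (1/2 - 168/100000)) (c/2) (d/2)
  have hB := Bc_of_Fle hF
  simp only [Bc, abs_le] at hB
  obtain ⟨⟨m0, n0⟩, ⟨m1, n1⟩, ⟨m2, n2⟩, ⟨m3, n3⟩, ⟨m4, n4⟩, ⟨m5, n5⟩, ⟨m6, n6⟩, ⟨m7, n7⟩⟩ := hB
  have hf : Flt 2 a b c d := by
    by_cases hc : a' - b' - c' < 3
    · have hb : Bs 2 a' b' c' d' := by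
        simp only [Bs, abs_lt]
        refine ⟨⟨?_, ?_⟩, ⟨?_, ?_⟩, ⟨?_, ?_⟩, ⟨?_, ?_⟩, ⟨?_, ?_⟩, ⟨?_, ?_⟩, ⟨?_, ?_⟩, ⟨?_, ?_⟩⟩ <;> linarith
      obtain ⟨e1, e2, e3, e4⟩ := hQ.good.sep hq' hb
      subst e1 e2 e3 e4
      obtain ⟨-, -, -, -, -, -, -, k, -, -, -, -, -, -, -, -, -, -, -, -, -, -, -⟩ := hF
      have k' := (abs_le.1 k).2
      clear k m0 n0 m1 n1 m2 n2 m3 n3 m4 n4 m5 n5 m6 n6 m7 n7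
      simp only [Flt, abs_lt]
      refine ⟨⟨?_, ?_⟩, ⟨?_, ?_⟩, ⟨?_, ?_⟩, ⟨?_, ?_⟩, ⟨?_, ?_⟩, ⟨?_, ?_⟩, ⟨?_, ?_⟩, ⟨?_, ?_⟩, ⟨?_, ?_⟩, ⟨?_, ?_⟩, ⟨?_, ?_⟩, ⟨?_, ?_⟩, ⟨?_, ?_⟩, ⟨?_, ?_⟩, ⟨?_, ?_⟩, ⟨?_, ?_⟩, ⟨?_, ?_⟩, ⟨?_, ?_⟩, ⟨?_, ?_⟩, ⟨?_, ?_⟩, ⟨?_, ?_⟩, ⟨?_, ?_⟩, ⟨?_, ?_⟩⟩ <;> linarith
    · push Not at hc
      have hb : Bs 2 (a' - a) (b' - b) (c' - c) (d' - d) := by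
        simp only [Bs, abs_lt]
        refine ⟨⟨?_, ?_⟩, ⟨?_, ?_⟩, ⟨?_, ?_⟩, ⟨?_, ?_⟩, ⟨?_, ?_⟩, ⟨?_, ?_⟩, ⟨?_, ?_⟩, ⟨?_, ?_⟩⟩ <;> linarith
      obtain ⟨e1, e2, e3, e4⟩ := hQ.good.sep (hQ.sub hq' hq) hb
      have e1' : a' = a := by linarith
      have e2' : b' = b := by linarith
      have e3' : c' = c := by linarith
      have e4' : d' = d := by linarith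
      subst e1' e2' e3' e4'
      obtain ⟨-, -, -, -, -, -, -, -, k, -, -, -, -, -, -, -, -, -, -, -, -, -, -⟩ := hF
      have k' := (abs_le.1 k).1
      clear k m0 n0 m1 n1 m2 n2 m3 n3 m4 n4 m5 n5 m6 n6 m7 n7
      simp only [Flt, abs_lt]
      refine ⟨⟨?_, ?_⟩, ⟨?_, ?_⟩, ⟨?_, ?_⟩, ⟨?_, ?_⟩, ⟨?_, ?_⟩, ⟨?_, ?_⟩, ⟨?_, ?_⟩, ⟨?_, ?_⟩, ⟨?_, ?_⟩, ⟨?_, ?_⟩, ⟨?_, ?_⟩, ⟨?_, ?_⟩, ⟨?_, ?_⟩, ⟨?_, ?_⟩, ⟨?_, ?_⟩, ⟨?_, ?_⟩, ⟨?_, ?_⟩, ⟨?_, ?_⟩, ⟨?_, ?_⟩, ⟨?_, ?_⟩, ⟨?_, ?_⟩, ⟨?_, ?_⟩, ⟨?_, ?_⟩⟩ <;> linarith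
  obtain ⟨e1, e2, e3, e4⟩ := hQ.sep hq hf
  linarith

lemma not_goodN {Q : ℝ → ℝ → ℝ → ℝ → Prop} (hQ : GoodN Q) : False := by
  rcases exists_bad hQ.good with h | h | h | h | h
  · exact holeX hQ h
  · exact holeY hQ h
  · exact holeZ hQ h
  · exact holeA hQ h
  · exact holeB hQ h

end Pool.Agent.H29.Prism
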