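import Pool.Agent.H29.Prism3

namespace Pool.Agent.H29.Prism

/-- centres of the non-lattice tiling -/
def Hs (a b c d : ℤ) : Prop :=
  a % 2 = b % 2 ∧ b % 2 = c % 2 ∧ d % 2 = ((a + b + c) % 4) / 2

lemma sepD (a b c d : ℤ) (h1 : a % 2 = b % 2) (h2 : b % 2 = c % 2)
    (h3 : (a + b + c) % 4 = 0 → d % 2 = 0) (h4 : (a + b + c) % 4 = 2 → d % 2 = 1)
    (h : Flt (2 - 1/200000) (a : ℝ) b c d) : a = 0 ∧ b = 0 ∧ c = 0 ∧ d = 0 := by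
  simp only [Flt, abs_lt] at h
  obtain ⟨⟨p0, q0⟩, ⟨p1, q1⟩, ⟨p2, q2⟩, ⟨p3, q3⟩, ⟨p4, q4⟩, ⟨p5, q5⟩, ⟨p6, q6⟩, ⟨p7, q7⟩, ⟨p8, q8⟩, ⟨p9, q9⟩, ⟨p10, q10⟩, ⟨p11, q11⟩, ⟨p12, q12⟩, ⟨p13, q13⟩, ⟨p14, q14⟩, ⟨p15, q15⟩, ⟨p16, q16⟩, ⟨p17, q17⟩, ⟨p18, q18⟩, ⟨p19, q19⟩, ⟨p20, q20⟩, ⟨p21, q21⟩, ⟨p22, q22⟩⟩ := h
  have i1 : a < 3 := by exact_mod_cast (show (a : ℝ) < 3 by linarith)
  have i2 : -3 < a := by exact_mod_cast (show (-3 : ℝ) < a by linarith)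
  have i3 : b < 3 := by exact_mod_cast (show (b : ℝ) < 3 by linarith)
  have i4 : -3 < b := by exact_mod_cast (show (-3 : ℝ) < b by linarith)
  have i5 : c < 3 := by exact_mod_cast (show (c : ℝ) < 3 by linarith)
  have i6 : -3 < c := by exact_mod_cast (show (-3 : ℝ) < c by linarith)
  have i7 : d < 2 := by exact_mod_cast (show (d : ℝ) < 2 by linarith)
  have i8 : -2 < d := by exact_mod_cast (show (-2 : ℝ) < d by linarith)
  have j1 : a + b + c < 4 := by exact_mod_cast (show (a : ℝ) + b + c < 4 by linarith)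
  have j2 : -4 < a + b + c := by exact_mod_cast (show (-4 : ℝ) < a + b + c by linarith)
  have j3 : a - b - c < 4 := by exact_mod_cast (show (a : ℝ) - b - c < 4 by linarith)
  have j4 : -4 < a - b - c := by exact_mod_cast (show (-4 : ℝ) < a - b - c by linarith)
  have j5 : b - a - c < 3 := by exact_mod_cast (show (b : ℝ) - a - c < 3 by linarith)
  have j6 : -3 < b - a - c := by exact_mod_cast (show (-3 : ℝ) < b - a - c by linarith)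
  have j7 : c - a - b < 3 := by exact_mod_cast (show (c : ℝ) - a - b < 3 by linarith)
  have j8 : -3 < c - a - b := by exact_mod_cast (show (-3 : ℝ) < c - a - b by linarith)
  have hd : d = -1 ∨ d = 0 ∨ d = 1 := by omega
  have key : (a = 0 ∧ b = 0 ∧ c = 0 ∧ d = 0) ∨
      (d ≠ 0 ∧ ((a = 2 ∧ b = 0 ∧ c = 0) ∨ (a = -2 ∧ b = 0 ∧ c = 0) ∨ (a = 0 ∧ b = 2 ∧ c = 0) ∨
        (a = 0 ∧ b = -2 ∧ c = 0) ∨ (a = 0 ∧ b = 0 ∧ c = 2) ∨ (a = 0 ∧ b = 0 ∧ c = -2))) ∨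
      ((a = 1 ∧ b = 1 ∧ c = 1) ∨ (a = -1 ∧ b = -1 ∧ c = -1) ∨ (a = 1 ∧ b = -1 ∧ c = -1) ∨
        (a = -1 ∧ b = 1 ∧ c = 1)) := by
    clear * - h1 h2 h3 h4 i1 i2 i3 i4 i5 i6 hd j1 j2 j3 j4 j5 j6 j7 j8
    interval_cases a <;> interval_cases b <;> interval_cases c <;> omega
  rcases key with h | ⟨h0, h⟩ | h
  · exact h
  · exfalso
    rcases hd with hd | hd | hd
    · rcases h with ⟨e1, e2, e3⟩ | ⟨e1, e2, e3⟩ | ⟨e1, e2, e3⟩ | ⟨e1, e2, e3⟩ | ⟨e1, e2, e3⟩ |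
        ⟨e1, e2, e3⟩ <;> subst e1 e2 e3 hd <;> push_cast at * <;> linarith
    · exact h0 hd
    · rcases h with ⟨e1, e2, e3⟩ | ⟨e1, e2, e3⟩ | ⟨e1, e2, e3⟩ | ⟨e1, e2, e3⟩ | ⟨e1, e2, e3⟩ |
        ⟨e1, e2, e3⟩ <;> subst e1 e2 e3 hd <;> push_cast at * <;> linarith
  · exfalso
    rcases hd with hd | hd | hd <;>
      rcases h with ⟨e1, e2, e3⟩ | ⟨e1, e2, e3⟩ | ⟨e1, e2, e3⟩ | ⟨e1, e2, e3⟩ <;>
      subst e1 e2 e3 hd <;> push_cast at * <;> linarith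

lemma sepH {a b c d a' b' c' d' : ℤ} (h : Hs a b c d) (h' : Hs a' b' c' d')
    (hF : Flt (2 - 1/200000) ((a : ℝ) - a') (b - b') (c - c') (d - d')) :
    a = a' ∧ b = b' ∧ c = c' ∧ d = d' := by
  obtain ⟨h1, h2, h3⟩ := h
  obtain ⟨k1, k2, k3⟩ := h'
  have aux : ∀ S S' : ℤ, d % 2 = (S % 4) / 2 → d' % 2 = (S' % 4) / 2 →
      ((S - S') % 4 = 0 → (d - d') % 2 = 0) ∧ ((S - S') % 4 = 2 → (d - d') % 2 = 1) := by
    intro S S' e1 e2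
    have r1 : S % 4 = 0 ∨ S % 4 = 1 ∨ S % 4 = 2 ∨ S % 4 = 3 := by omega
    have r2 : S' % 4 = 0 ∨ S' % 4 = 1 ∨ S' % 4 = 2 ∨ S' % 4 = 3 := by omega
    clear h1 h2 h3 k1 k2 k3 hF
    rcases r1 with r1 | r1 | r1 | r1 <;> rcases r2 with r2 | r2 | r2 | r2 <;>
      rw [r1] at e1 <;> rw [r2] at e2 <;> constructor <;> omega
  have e : a - a' + (b - b') + (c - c') = (a + b + c) - (a' + b' + c') := by ring
  have := sepD (a - a') (b - b') (c - c') (d - d') (by omega) (by omega)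
    (by rw [e]; exact (aux _ _ h3 k3).1) (by rw [e]; exact (aux _ _ h3 k3).2)
    (by push_cast; exact hF)
  omega

lemma near_par (x : ℝ) (j : ℤ) : ∃ a : ℤ, a % 2 = j % 2 ∧ |x - a| ≤ 1 := by
  refine ⟨2 * ⌊(x - j + 1) / 2⌋ + j, by omega, ?_⟩
  have h1 := Int.floor_le ((x - j + 1) / 2)
  have h2 := Int.lt_floor_add_one ((x - j + 1) / 2)
  push_cast
  rw [abs_le]
  constructor <;> linarith

lemma flip_par (x : ℝ) (a : ℤ) (h : |x - a| ≤ 1) :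
    ∃ b : ℤ, b % 2 = (a + 1) % 2 ∧ |x - b| = 1 - |x - a| := by
  rcases le_total 0 (x - a) with h0 | h0
  · refine ⟨a + 1, rfl, ?_⟩
    rw [abs_of_nonneg h0] at h ⊢
    push_cast
    rw [abs_of_nonpos (by linarith)]
    ring
  · refine ⟨a - 1, by omega, ?_⟩
    rw [abs_of_nonpos h0] at h ⊢
    push_cast
    rw [abs_of_nonneg (by linarith)]
    ring

lemma Bc_of_abs {x y z t : ℝ} (h1 : |x| ≤ 1) (h2 : |y| ≤ 1) (h3 : |z| ≤ 1) (h4 : |t| ≤ 1)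
    (h : |x| + |y| + |z| ≤ 3/2) : Bc 1 x y z t := by
  have a1 := le_abs_self x
  have a2 := neg_abs_le x
  have a3 := le_abs_self y
  have a4 := neg_abs_le y
  have a5 := le_abs_self z
  have a6 := neg_abs_le z
  refine ⟨h1, h2, h3, h4, ?_, ?_, ?_, ?_⟩ <;> rw [abs_le] <;> constructor <;> linarith

lemma covH (x y z t : ℝ) : ∃ a b c d : ℤ, Hs a b c d ∧
    Bc 1 (x - a) (y - b) (z - c) (t - d) := by
  obtain ⟨a, b, c, h1, h2, k1, k2, k3, k4⟩ : ∃ a b c : ℤ, a % 2 = b % 2 ∧ b % 2 = c % 2 ∧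
      |x - a| ≤ 1 ∧ |y - b| ≤ 1 ∧ |z - c| ≤ 1 ∧ |x - a| + |y - b| + |z - c| ≤ 3/2 := by
    obtain ⟨a, ha, ha'⟩ := near_par x 0
    obtain ⟨b, hb, hb'⟩ := near_par y 0
    obtain ⟨c, hc, hc'⟩ := near_par z 0
    by_cases h : |x - a| + |y - b| + |z - c| ≤ 3/2
    · exact ⟨a, b, c, by omega, by omega, ha', hb', hc', h⟩
    · obtain ⟨a', ea, ea'⟩ := flip_par x a ha'
      obtain ⟨b', eb, eb'⟩ := flip_par y b hb'
      obtain ⟨c', ec, ec'⟩ := flip_par z c hc'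
      have := abs_nonneg (x - a)
      have := abs_nonneg (y - b)
      have := abs_nonneg (z - c)
      exact ⟨a', b', c', by omega, by omega, by linarith, by linarith, by linarith, by linarith⟩
  obtain ⟨d, hd, hd'⟩ := near_par t (((a + b + c) % 4) / 2)
  exact ⟨a, b, c, d, ⟨h1, h2, by omega⟩, Bc_of_abs k1 k2 k3 hd' k4⟩

end Pool.Agent.H29.Prism
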