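import Mathlib

open Complex Real Set Metric intervalIntegral
open scoped ComplexConjugate

namespace Pool.Agent.H29.Ptak

/-- The factor attached to a root. -/
noncomputable def Aa (a w : ℂ) : ℂ := (w - a) * (w⁻¹ - conj a)

lemma Aa_ne {r ρ : ℝ} (hr : 0 < r) (h1 : r < ρ) (h2 : ρ < 1) {a w : ℂ} (ha : ‖a‖ ≤ r)
    (hw : ‖w‖ = ρ) : Aa a w ≠ 0 := by
  have hρ : 0 < ρ := hr.trans h1
  refine mul_ne_zero (sub_ne_zero.2 ?_) (sub_ne_zero.2 ?_)
  · rintro rfl; linarith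
  · intro h
    have := congrArg norm h
    rw [norm_inv, hw, Complex.norm_conj] at this
    have h3 : 1 < ρ⁻¹ := one_lt_inv_iff₀.2 ⟨hρ, h2⟩
    linarith

lemma Aa_eq {a w : ℂ} (hw : w ≠ 0) :
    Aa a w = (1 + (‖a‖ : ℂ) ^ 2) - conj a * w - a * w⁻¹ := by
  have : a * conj a = (‖a‖ : ℂ) ^ 2 := by
    rw [Complex.mul_conj, Complex.normSq_eq_norm_sq]; push_cast; ring
  rw [← this, Aa]; field_simp; ring

lemma cone {r : ℝ} (hr : 0 < r) (hr1 : r < 1) {a b : ℂ} (ha : ‖a‖ ≤ r) (hb : ‖b‖ ≤ r)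
    {t : ℝ} (ht : t ∈ Icc (0:ℝ) 1) :
    ∃ l : ℝ, 0 < l ∧ ∃ c : ℂ, ‖c‖ ≤ r ∧ ∀ w : ℂ, w ≠ 0 →
      (t : ℂ) * Aa a w + (1 - t) * Aa b w = l * Aa c w := by
  obtain ⟨ht0, ht1⟩ := ht
  set s : ℝ := t * (1 + ‖a‖ ^ 2) + (1 - t) * (1 + ‖b‖ ^ 2) with hs
  set β : ℂ := t * a + (1 - t) * b with hβ
  have hs1 : 1 ≤ s := by
    have h1 : 0 ≤ t * ‖a‖ ^ 2 := by positivity
    have h2 : 0 ≤ (1 - t) * ‖b‖ ^ 2 := mul_nonneg (by linarith) (by positivity)
    nlinarith
  have hβn : ‖β‖ ≤ t * ‖a‖ + (1 - t) * ‖b‖ := by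
    refine (norm_add_le _ _).trans (le_of_eq ?_)
    have e : (1 - (t:ℂ)) = ((1 - t : ℝ) : ℂ) := by push_cast; ring
    rw [norm_mul, norm_mul, e, Complex.norm_real, Complex.norm_real, Real.norm_of_nonneg ht0,
      Real.norm_of_nonneg (by linarith)]
  have key : ∀ x : ℝ, 0 ≤ x → x ≤ r → x * (1 + r ^ 2) ≤ r * (1 + x ^ 2) := by
    intro x h0 h1
    have : 0 ≤ (r - x) * (1 - r * x) := mul_nonneg (by linarith) (by nlinarith)
    nlinarith
  have hle : ‖β‖ * (1 + r ^ 2) ≤ r * s := by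
    have k1 := mul_le_mul_of_nonneg_left (key _ (norm_nonneg a) ha) ht0
    have k2 := mul_le_mul_of_nonneg_left (key _ (norm_nonneg b) hb) (sub_nonneg.2 ht1)
    have k3 := mul_le_mul_of_nonneg_right hβn (by positivity : (0:ℝ) ≤ 1 + r ^ 2)
    rw [hs]; nlinarith
  have hc : ContinuousOn (fun x : ℝ => x * s - ‖β‖ * (1 + x ^ 2)) (Icc 0 r) := by fun_prop
  obtain ⟨x, ⟨hx0, hxr⟩, hx⟩ := intermediate_value_Icc hr.le hc
    (show (0:ℝ) ∈ Icc (0 * s - ‖β‖ * (1 + 0 ^ 2)) (r * s - ‖β‖ * (1 + r ^ 2)) from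
      ⟨by simp, by linarith⟩)
  simp only at hx
  have hx2 : 0 < 1 + x ^ 2 := by positivity
  have hl : 0 < s / (1 + x ^ 2) := by positivity
  have hcn : ‖β / ((s / (1 + x ^ 2) : ℝ) : ℂ)‖ = x := by
    rw [norm_div, Complex.norm_real, Real.norm_of_nonneg hl.le]
    field_simp
    linarith
  refine ⟨s / (1 + x ^ 2), hl, β / ((s / (1 + x ^ 2) : ℝ) : ℂ), by rw [hcn]; exact hxr, ?_⟩
  intro w hw
  rw [Aa_eq hw, Aa_eq hw, Aa_eq hw, hcn]
  have hl' : ((s / (1 + x ^ 2) : ℝ) : ℂ) ≠ 0 := by exact_mod_cast hl.ne'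
  have e1 : ((s / (1 + x ^ 2) : ℝ) : ℂ) * (1 + (x:ℂ) ^ 2) = s := by
    have : (s / (1 + x ^ 2)) * (1 + x ^ 2) = s := by field_simp
    exact_mod_cast this
  generalize (s / (1 + x ^ 2) : ℝ) = l at *
  have e2 : (s : ℂ) = t * (1 + (‖a‖:ℂ) ^ 2) + (1 - t) * (1 + (‖b‖:ℂ) ^ 2) := by
    rw [hs]; push_cast; ring
  have e3 : conj β = t * conj a + (1 - t) * conj b := by simp [hβ]
  rw [map_div₀, Complex.conj_ofReal, e3]
  have e4 : (l:ℂ) * (1 + (x:ℂ) ^ 2 - (t * conj a + (1 - t) * conj b) / l * w - β / l * w⁻¹)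
      = l * (1 + (x:ℂ) ^ 2) - (t * conj a + (1 - t) * conj b) * w - β * w⁻¹ := by
    field_simp
  rw [e4, e1, e2, hβ]; ring

lemma swapRe (F : ℝ → ℝ → ℂ) {α β : ℝ} (hαβ : α ≤ β)
    (hF : ContinuousOn F.uncurry (Icc 0 (2 * π) ×ˢ Icc α β))
    (h : ∀ t ∈ Icc α β, (∫ θ in (0:ℝ)..2 * π, F θ t).re ≤ 0) :
    (∫ θ in (0:ℝ)..2 * π, ∫ t in α..β, F θ t).re ≤ 0 := by
  have h2 : (0:ℝ) ≤ 2 * π := by positivity
  rw [MeasureTheory.intervalIntegral_intervalIntegral_swap]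
  · by_cases hi : IntervalIntegrable (fun t => ∫ θ in (0:ℝ)..2 * π, F θ t)
        MeasureTheory.volume α β
    · have := (Complex.reCLM.intervalIntegral_comp_comm hi).symm
      simp only [Complex.reCLM_apply] at this
      rw [this]
      have h3 := intervalIntegral.integral_nonneg (μ := MeasureTheory.volume) hαβ
        (f := fun t => -(∫ θ in (0:ℝ)..2 * π, F θ t).re) (fun t ht => by linarith [h t ht])
      rw [intervalIntegral.integral_neg] at h3
      linarith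
    · rw [intervalIntegral.integral_undef hi]; simp
  · refine (hF.integrableOn_compact (isCompact_Icc.prod isCompact_Icc)).mono_set ?_
    rw [uIoc_of_le h2, uIoc_of_le hαβ]
    exact prod_mono Ioc_subset_Icc_self Ioc_subset_Icc_self

lemma intConj (f : ℝ → ℂ) (a b : ℝ) :
    ∫ t in a..b, conj (f t) = conj (∫ t in a..b, f t) := by
  simp only [intervalIntegral, integral_conj, map_sub]

lemma feyn (A B : ℂ) (j : ℕ) (h : ∀ t ∈ Icc (0:ℝ) 1, (t:ℂ) * A + (1 - t) * B ≠ 0) :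
    ∫ t in (0:ℝ)..1, ((j:ℂ) + 1) * (t:ℂ) ^ j / ((t:ℂ) * A + (1 - t) * B) ^ (j + 2)
      = 1 / (A ^ (j + 1) * B) := by
  have hB : B ≠ 0 := by simpa using h 0 ⟨le_rfl, zero_le_one⟩
  have hd : ∀ t ∈ uIcc (0:ℝ) 1, HasDerivAt
      (fun t : ℝ => ((t:ℂ) / ((t:ℂ) * A + (1 - t) * B)) ^ (j + 1) / B)
      (((j:ℂ) + 1) * (t:ℂ) ^ j / ((t:ℂ) * A + (1 - t) * B) ^ (j + 2)) t := by
    intro t ht
    rw [uIcc_of_le zero_le_one] at ht
    have hne := h t ht
    have h1 : HasDerivAt (fun z : ℂ => z * A + (1 - z) * B) (1 * A + (0 - 1) * B) t :=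
      ((hasDerivAt_id _).mul_const A).add
        (((hasDerivAt_const _ (1:ℂ)).sub (hasDerivAt_id _)).mul_const B)
    have h2 := ((((hasDerivAt_id (t:ℂ)).div h1 hne).pow (j + 1)).div_const B).comp_ofReal
    refine HasDerivAt.congr_deriv (f' := _) h2 ?_
    simp only [id, Pi.div_apply, Nat.add_sub_cancel, div_pow]
    push_cast
    have e : 1 * ((t:ℂ) * A + (1 - t) * B) - t * (1 * A + (0 - 1) * B) = B := by ring
    rw [e]
    generalize (t:ℂ) * A + (1 - t) * B = D at hne ⊢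
    field_simp
    ring
  rw [intervalIntegral.integral_eq_sub_of_hasDerivAt hd]
  · simp [div_pow]; ring
  · refine ContinuousOn.intervalIntegrable ?_
    rw [uIcc_of_le zero_le_one]
    refine ContinuousOn.div (by fun_prop) (by fun_prop) (fun t ht => pow_ne_zero _ (h t ht))

lemma normW {ρ : ℝ} (hρ : 0 < ρ) (θ : ℝ) : ‖circleMap 0 ρ θ‖ = ρ := by
  simp [abs_of_pos hρ]

lemma W_ne {ρ : ℝ} (hρ : 0 < ρ) (θ : ℝ) : circleMap 0 ρ θ ≠ 0 := by
  intro h
  have := normW hρ θ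
  rw [h, norm_zero] at this
  linarith

lemma contA {ρ : ℝ} (hρ : 0 < ρ) (a : ℂ) : Continuous fun θ => Aa a (circleMap 0 ρ θ) := by
  unfold Aa
  have h := (continuous_circleMap 0 ρ).inv₀ (W_ne hρ)
  have h2 := continuous_circleMap 0 ρ
  fun_prop (disch := exact W_ne hρ)

lemma step1 {r ρ : ℝ} (hr : 0 < r) (h1 : r < ρ) (h2 : ρ < 1) (Ψ : ℝ → ℂ) (hΨ : Continuous Ψ)
    (j : ℕ) (h : ∀ c : ℂ, ‖c‖ ≤ r →
      (∫ θ in (0:ℝ)..2 * π, Ψ θ / Aa c (circleMap 0 ρ θ) ^ (j + 2)).re ≤ 0)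
    {a b : ℂ} (ha : ‖a‖ ≤ r) (hb : ‖b‖ ≤ r) :
    (∫ θ in (0:ℝ)..2 * π,
      Ψ θ / (Aa a (circleMap 0 ρ θ) ^ (j + 1) * Aa b (circleMap 0 ρ θ))).re ≤ 0 := by
  have hρ : 0 < ρ := hr.trans h1
  have hne : ∀ θ, ∀ t ∈ Icc (0:ℝ) 1,
      (t:ℂ) * Aa a (circleMap 0 ρ θ) + (1 - t) * Aa b (circleMap 0 ρ θ) ≠ 0 := by
    intro θ t ht
    obtain ⟨l, hl, c, hc, hw⟩ := cone hr (h1.trans h2) ha hb ht
    rw [hw _ (W_ne hρ θ)]
    exact mul_ne_zero (by exact_mod_cast hl.ne') (Aa_ne hr h1 h2 hc (normW hρ θ))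
  have := swapRe (fun θ t => Ψ θ * (((j:ℂ) + 1) * (t:ℂ) ^ j /
    ((t:ℂ) * Aa a (circleMap 0 ρ θ) + (1 - t) * Aa b (circleMap 0 ρ θ)) ^ (j + 2))) zero_le_one
    ?_ ?_
  · convert this using 4 with θ
    rw [intervalIntegral.integral_const_mul, feyn _ _ _ (hne θ)]; ring
  · have ca := contA hρ a
    have cb := contA hρ b
    have c3 : Continuous fun x : ℝ × ℝ => ((x.2:ℂ) * Aa a (circleMap 0 ρ x.1) +
        (1 - x.2) * Aa b (circleMap 0 ρ x.1)) ^ (j + 2) :=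
      (((Complex.continuous_ofReal.comp continuous_snd).mul (ca.comp continuous_fst)).add
        ((continuous_const.sub (Complex.continuous_ofReal.comp continuous_snd)).mul
          (cb.comp continuous_fst))).pow _
    refine ContinuousOn.mul (by fun_prop) (ContinuousOn.div (by fun_prop) c3.continuousOn ?_)
    rintro ⟨θ, t⟩ ⟨-, ht⟩
    exact pow_ne_zero _ (hne θ t ht)
  · intro t ht
    obtain ⟨l, hl, c, hc, hw⟩ := cone hr (h1.trans h2) ha hb ht
    have e : ∀ θ, Ψ θ * (((j:ℂ) + 1) * (t:ℂ) ^ j /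
        ((t:ℂ) * Aa a (circleMap 0 ρ θ) + (1 - t) * Aa b (circleMap 0 ρ θ)) ^ (j + 2))
        = ((((j:ℝ) + 1) * t ^ j / l ^ (j + 2) : ℝ) : ℂ) *
          (Ψ θ / Aa c (circleMap 0 ρ θ) ^ (j + 2)) := by
      intro θ
      rw [hw _ (W_ne hρ θ), mul_pow]; push_cast; ring
    simp only [e]
    rw [intervalIntegral.integral_const_mul, Complex.re_ofReal_mul]
    have : 0 ≤ ((j:ℝ) + 1) * t ^ j / l ^ (j + 2) := by have := ht.1; positivity
    exact mul_nonpos_of_nonneg_of_nonpos this (h c hc)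

lemma contP {r ρ : ℝ} (hr : 0 < r) (h1 : r < ρ) (h2 : ρ < 1) (Φ : ℝ → ℂ) (hΦ : Continuous Φ)
    {m : ℕ} (a : Fin m → ℂ) (ha : ∀ i, ‖a i‖ ≤ r) :
    Continuous fun θ => Φ θ / ∏ i, Aa (a i) (circleMap 0 ρ θ) := by
  have hρ : 0 < ρ := hr.trans h1
  refine hΦ.div (continuous_finsetProd _ fun i _ => contA hρ _) fun θ => ?_
  exact Finset.prod_ne_zero_iff.2 fun i _ => Aa_ne hr h1 h2 (ha i) (normW hρ θ)

lemma core1 {r ρ : ℝ} (hr : 0 < r) (h1 : r < ρ) (h2 : ρ < 1) (Φ : ℝ → ℂ) (hΦ : Continuous Φ)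
    (m : ℕ) : ∀ j : ℕ, (∀ c : ℂ, ‖c‖ ≤ r →
      (∫ θ in (0:ℝ)..2 * π, Φ θ / Aa c (circleMap 0 ρ θ) ^ (j + 1 + m)).re ≤ 0) →
    ∀ a₀ : ℂ, ‖a₀‖ ≤ r → ∀ a : Fin m → ℂ, (∀ i, ‖a i‖ ≤ r) →
    (∫ θ in (0:ℝ)..2 * π, Φ θ /
      (Aa a₀ (circleMap 0 ρ θ) ^ (j + 1) * ∏ i, Aa (a i) (circleMap 0 ρ θ))).re ≤ 0 := by
  induction m with
  | zero => intro j h a₀ h0 a _; simpa using h a₀ h0
  | succ m ih =>
    intro j h a₀ h0 a ha
    have := step1 hr h1 h2 _ (contP hr h1 h2 Φ hΦ (fun i => a i.succ) fun i => ha _) j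
      (fun c hc => ?_) h0 (ha 0)
    · convert this using 4 with θ
      rw [Fin.prod_univ_succ, div_div]; ring
    · have h3 := ih (j + 1) (fun c hc => by
        have := h c hc
        rwa [show j + 1 + (m + 1) = j + 1 + 1 + m by ring] at this) c hc
        (fun i => a i.succ) fun i => ha _
      convert h3 using 4 with θ
      rw [div_div]; ring

lemma poisson {r ρ : ℝ} (hr : 0 < r) (h1 : r < ρ) (h2 : ρ < 1) {a w : ℂ} (ha : ‖a‖ < r)
    (hw : ‖w‖ = ρ) :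
    ∫ t in (0:ℝ)..2 * π, ((poissonKernel 0 a (circleMap 0 r t) : ℝ) : ℂ) *
      ((1 - (r:ℂ) ^ 2) / Aa (circleMap 0 r t) w) = 2 * π * ((1 - (‖a‖:ℂ) ^ 2) / Aa a w) := by
  have hρ : 0 < ρ := hr.trans h1
  have hw0 : w ≠ 0 := by rintro rfl; rw [norm_zero] at hw; linarith
  have n1 : ∀ c : ℂ, ‖c‖ ≤ r → 1 - c * w⁻¹ ≠ 0 := by
    intro c hc h
    have : c = w := by field_simp at h; linear_combination -h
    rw [this] at hc; linarith
  have n2 : ∀ c : ℂ, ‖c‖ ≤ r → 1 - c * conj w ≠ 0 := by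
    intro c hc h
    have h3 : ‖c * conj w‖ = 1 := by rw [← sub_eq_zero.1 h]; simp
    rw [norm_mul, Complex.norm_conj, hw] at h3
    nlinarith [norm_nonneg c]
  have dec : ∀ c : ℂ, ‖c‖ ≤ r → (1 - (‖c‖:ℂ) ^ 2) / Aa c w
      = ((1 - c * w⁻¹)⁻¹ - 1) + conj (1 - c * conj w)⁻¹ := by
    intro c hc
    have e : c * conj c = (‖c‖ : ℂ) ^ 2 := by
      rw [Complex.mul_conj, Complex.normSq_eq_norm_sq]; push_cast; ring
    have m2 : 1 - conj c * w ≠ 0 := by
      intro h; apply n2 c hc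
      have := congrArg conj h
      simpa using this
    have m1 := n1 c hc
    have e2 : Aa c w = (1 - c * w⁻¹) * (1 - conj c * w) := by unfold Aa; field_simp
    rw [← e, e2]
    simp only [map_inv₀, map_sub, map_one, map_mul, Complex.conj_conj]
    have e3 : c * conj c = (c * w⁻¹) * (conj c * w) := by field_simp
    rw [e3]
    generalize c * w⁻¹ = x at *
    generalize conj c * w = y at *
    field_simp; ring
  have gen : ∀ y : ℂ, (∀ c : ℂ, ‖c‖ ≤ r → 1 - c * y ≠ 0) → ∀ k : ℂ,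
      ∫ t in (0:ℝ)..2 * π, ((poissonKernel 0 a (circleMap 0 r t) : ℝ) : ℂ) *
        ((1 - circleMap 0 r t * y)⁻¹ - k) = 2 * π * ((1 - a * y)⁻¹ - k) := by
    intro y hy k
    have hd : DiffContOnCl ℂ (fun c : ℂ => (1 - c * y)⁻¹ - k) (ball 0 r) := by
      refine DifferentiableOn.diffContOnCl ?_
      rw [closure_ball _ hr.ne']
      refine DifferentiableOn.sub (DifferentiableOn.inv (by fun_prop) fun c hc => hy c ?_)
        (by fun_prop)
      simpa using hc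
    have := hd.circleAverage_poissonKernel_smul (w := a) (by simpa using ha)
    rw [circleAverage_def] at this
    rw [← this]
    have hπ : (π:ℂ) ≠ 0 := by exact_mod_cast Real.pi_ne_zero
    simp only [Pi.smul_apply', Complex.real_smul]
    push_cast
    rw [mul_inv_cancel_left₀ (mul_ne_zero two_ne_zero hπ)]
  have cK : Continuous fun t => ((poissonKernel 0 a (circleMap 0 r t) : ℝ) : ℂ) := by
    simp only [poissonKernel_def]
    have := continuous_circleMap 0 r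
    refine Complex.continuous_ofReal.comp (Continuous.div (by fun_prop) (by fun_prop) fun t => ?_)
    refine pow_ne_zero _ (norm_ne_zero_iff.2 (sub_ne_zero.2 fun h => ?_))
    have := normW hr t
    simp only [sub_zero] at h
    rw [h] at this; linarith
  have cg : ∀ y : ℂ, (∀ c : ℂ, ‖c‖ ≤ r → 1 - c * y ≠ 0) →
      Continuous fun t => (1 - circleMap 0 r t * y)⁻¹ := by
    intro y hy
    have := continuous_circleMap 0 r
    exact Continuous.inv₀ (by fun_prop) fun t => hy _ (normW hr t).le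
  have g1 := gen _ n1 1
  have g2 := congrArg conj (gen _ n2 0)
  rw [← intConj] at g2
  rw [dec a ha.le, mul_add, ← g1]
  simp only [sub_zero, map_mul, Complex.conj_ofReal, map_ofNat] at g2
  rw [← g2, ← intervalIntegral.integral_add]
  · refine intervalIntegral.integral_congr fun t _ => ?_
    have := dec _ (normW hr t).le
    rw [normW hr t] at this
    simp only [this]; ring
  · exact (cK.mul ((cg _ n1).sub continuous_const)).intervalIntegrable _ _
  · exact (cK.mul (Complex.continuous_conj.comp (cg _ n2))).intervalIntegrable _ _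

lemma step2 {r ρ : ℝ} (hr : 0 < r) (h1 : r < ρ) (h2 : ρ < 1) (Ψ : ℝ → ℂ) (hΨ : Continuous Ψ)
    (h : ∀ c : ℂ, ‖c‖ = r → (∫ θ in (0:ℝ)..2 * π, Ψ θ / Aa c (circleMap 0 ρ θ)).re ≤ 0)
    {a : ℂ} (ha : ‖a‖ ≤ r) :
    (∫ θ in (0:ℝ)..2 * π, Ψ θ / Aa a (circleMap 0 ρ θ)).re ≤ 0 := by
  have hρ : 0 < ρ := hr.trans h1
  rcases ha.eq_or_lt with ha | ha
  · exact h a ha
  have hK : ∀ t, 0 ≤ poissonKernel 0 a (circleMap 0 r t) := by
    intro t
    simp only [poissonKernel_def, sub_zero, normW hr t]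
    refine div_nonneg ?_ (by positivity)
    nlinarith [norm_nonneg a]
  have := swapRe (fun θ t => Ψ θ * (((poissonKernel 0 a (circleMap 0 r t) : ℝ) : ℂ) *
      ((1 - (r:ℂ) ^ 2) / Aa (circleMap 0 r t) (circleMap 0 ρ θ)))) (α := 0) (β := 2 * π)
      (by positivity) ?_ ?_
  · have e : ∀ θ, ∫ t in (0:ℝ)..2 * π, Ψ θ * (((poissonKernel 0 a (circleMap 0 r t) : ℝ) : ℂ) *
        ((1 - (r:ℂ) ^ 2) / Aa (circleMap 0 r t) (circleMap 0 ρ θ)))
        = ((2 * π * (1 - ‖a‖ ^ 2) : ℝ) : ℂ) * (Ψ θ / Aa a (circleMap 0 ρ θ)) := by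
      intro θ
      rw [intervalIntegral.integral_const_mul, poisson hr h1 h2 ha (normW hρ θ)]
      push_cast; ring
    simp only [e] at this
    rw [intervalIntegral.integral_const_mul, Complex.re_ofReal_mul] at this
    have hp : 0 < 2 * π * (1 - ‖a‖ ^ 2) := by
      have : 0 < 1 - ‖a‖ ^ 2 := by nlinarith [norm_nonneg a]
      positivity
    by_contra hc
    push Not at hc
    linarith [mul_pos hp hc]
  · refine Continuous.continuousOn ?_
    have c1 := continuous_circleMap 0 r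
    have c2 := continuous_circleMap 0 ρ
    have c3 := c2.inv₀ (W_ne hρ)
    have cK : Continuous fun t => ((poissonKernel 0 a (circleMap 0 r t) : ℝ) : ℂ) := by
      simp only [poissonKernel_def]
      refine Complex.continuous_ofReal.comp
        (Continuous.div (by fun_prop) (by fun_prop) fun t => ?_)
      refine pow_ne_zero _ (norm_ne_zero_iff.2 (sub_ne_zero.2 fun h => ?_))
      have := normW hr t
      simp only [sub_zero] at h
      rw [h] at this; linarith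
    refine (hΨ.comp continuous_fst).mul ((cK.comp continuous_snd).mul
      (continuous_const.div ?_ fun x => Aa_ne hr h1 h2 (normW hr _).le (normW hρ _)))
    unfold Aa
    exact ((c2.comp continuous_fst).sub (c1.comp continuous_snd)).mul
      ((c3.comp continuous_fst).sub (Complex.continuous_conj.comp (c1.comp continuous_snd)))
  · intro t _
    have e : ∀ θ, Ψ θ * (((poissonKernel 0 a (circleMap 0 r t) : ℝ) : ℂ) *
        ((1 - (r:ℂ) ^ 2) / Aa (circleMap 0 r t) (circleMap 0 ρ θ)))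
        = ((poissonKernel 0 a (circleMap 0 r t) * (1 - r ^ 2) : ℝ) : ℂ) *
          (Ψ θ / Aa (circleMap 0 r t) (circleMap 0 ρ θ)) := by
      intro θ; push_cast; ring
    simp only [e]
    rw [intervalIntegral.integral_const_mul, Complex.re_ofReal_mul]
    exact mul_nonpos_of_nonneg_of_nonpos (mul_nonneg (hK t) (by nlinarith))
      (h _ (normW hr t))

lemma core2 {r ρ : ℝ} (hr : 0 < r) (h1 : r < ρ) (h2 : ρ < 1) (m : ℕ) :
    ∀ (Φ : ℝ → ℂ), Continuous Φ → (∀ c : Fin m → ℂ, (∀ i, ‖c i‖ = r) →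
      (∫ θ in (0:ℝ)..2 * π, Φ θ / ∏ i, Aa (c i) (circleMap 0 ρ θ)).re ≤ 0) →
    ∀ a : Fin m → ℂ, (∀ i, ‖a i‖ ≤ r) →
    (∫ θ in (0:ℝ)..2 * π, Φ θ / ∏ i, Aa (a i) (circleMap 0 ρ θ)).re ≤ 0 := by
  have hρ : 0 < ρ := hr.trans h1
  induction m with
  | zero => intro Φ _ h a _; simpa using h a (fun i => i.elim0)
  | succ m ih =>
    intro Φ hΦ h a ha
    have := step2 hr h1 h2 _ (contP hr h1 h2 Φ hΦ (fun i => a i.succ) fun i => ha _)
      (fun c hc => ?_) (ha 0)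
    · convert this using 4 with θ
      rw [Fin.prod_univ_succ, div_div]; ring
    · have h3 := ih (fun θ => Φ θ / Aa c (circleMap 0 ρ θ))
        (hΦ.div (contA hρ c) fun θ => Aa_ne hr h1 h2 hc.le (normW hρ θ)) (fun d hd => by
          have := h (Fin.cons c d) (fun i => by
            refine Fin.cases ?_ (fun k => ?_) i
            · simpa using hc
            · simpa using hd k)
          convert this using 4 with θ
          rw [Fin.prod_univ_succ, div_div]; simp) (fun i => a i.succ) fun i => ha _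
      convert h3 using 4 with θ
      rw [div_div, div_div, mul_comm]

end Pool.Agent.H29.Ptak
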