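import Mathlib
import Pool.Agent.H29.Ptak1

open Complex Real Set Metric intervalIntegral Polynomial
open scoped ComplexConjugate InnerProductSpace

namespace Pool.Agent.H29.Ptak

variable {H : Type*} [NormedAddCommGroup H] [InnerProductSpace ℂ H] [CompleteSpace H]

/-- Holomorphic functional calculus on the circle of radius `ρ`. -/
noncomputable def fc (ρ : ℝ) (f : ℂ → ℂ) (T : H →L[ℂ] H) : H →L[ℂ] H :=
  (2 * π * I : ℂ)⁻¹ • ∮ w in C(0, ρ), f w • resolvent T w

/-- Numerator of the resolvent. -/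
noncomputable def Qn (p : ℂ[X]) (T : H →L[ℂ] H) (w : ℂ) : H →L[ℂ] H :=
  ∑ k ∈ Finset.range (p.natDegree + 1), p.coeff k •
    ∑ i ∈ Finset.range k, w ^ i • T ^ (k - 1 - i)

omit [CompleteSpace H] in
lemma Qn_mul (p : ℂ[X]) (T : H →L[ℂ] H) (hp : aeval T p = 0) (w : ℂ) :
    (algebraMap ℂ _ w - T) * Qn p T w = algebraMap ℂ _ (p.eval w) ∧
    Qn p T w * (algebraMap ℂ _ w - T) = algebraMap ℂ _ (p.eval w) := by
  have hc : Commute (algebraMap ℂ (H →L[ℂ] H) w) T := Algebra.commutes w T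
  have e : ∀ k, ∑ i ∈ Finset.range k, w ^ i • T ^ (k - 1 - i)
      = ∑ i ∈ Finset.range k, (algebraMap ℂ (H →L[ℂ] H) w) ^ i * T ^ (k - 1 - i) := by
    intro k
    refine Finset.sum_congr rfl fun i _ => ?_
    rw [← map_pow, Algebra.smul_def]
  have e2 : algebraMap ℂ (H →L[ℂ] H) (p.eval w) = ∑ k ∈ Finset.range (p.natDegree + 1),
      p.coeff k • ((algebraMap ℂ (H →L[ℂ] H) w) ^ k - T ^ k) := by
    simp only [smul_sub, Finset.sum_sub_distrib]
    rw [← aeval_eq_sum_range, ← aeval_eq_sum_range, hp, sub_zero, aeval_algebraMap_apply,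
      coe_aeval_eq_eval]
  rw [e2]
  unfold Qn
  constructor
  · rw [Finset.mul_sum]
    refine Finset.sum_congr rfl fun k _ => ?_
    rw [mul_smul_comm, e, hc.mul_geom_sum₂]
  · rw [Finset.sum_mul]
    refine Finset.sum_congr rfl fun k _ => ?_
    rw [smul_mul_assoc, e, hc.geom_sum₂_mul]

omit [CompleteSpace H] in
lemma res_eq (p : ℂ[X]) (T : H →L[ℂ] H) (hp : aeval T p = 0) {w : ℂ} (hw : p.eval w ≠ 0) :
    IsUnit (algebraMap ℂ _ w - T) ∧ resolvent T w = (p.eval w)⁻¹ • Qn p T w := by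
  obtain ⟨h1, h2⟩ := Qn_mul p T hp w
  have k1 : (algebraMap ℂ _ w - T) * ((p.eval w)⁻¹ • Qn p T w) = 1 := by
    rw [mul_smul_comm, h1, Algebra.smul_def, ← map_mul, inv_mul_cancel₀ hw, map_one]
  have k2 : ((p.eval w)⁻¹ • Qn p T w) * (algebraMap ℂ _ w - T) = 1 := by
    rw [smul_mul_assoc, h2, Algebra.smul_def, ← map_mul, inv_mul_cancel₀ hw, map_one]
  exact ⟨⟨⟨_, _, k1, k2⟩, rfl⟩, Ring.inverse_unit (⟨_, _, k1, k2⟩ : (H →L[ℂ] H)ˣ)⟩

lemma mv {h : ℂ → ℂ} {R : ℝ} (hR : 0 < R) (hd : DifferentiableOn ℂ h (closedBall 0 R)) :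
    ∫ θ in (0:ℝ)..2 * π, h (circleMap 0 R θ) = 2 * π * h 0 := by
  have hd' : DiffContOnCl ℂ h (ball 0 |R|) := by
    refine DifferentiableOn.diffContOnCl ?_
    rwa [abs_of_pos hR, closure_ball _ hR.ne']
  have := hd'.circleAverage
  rw [circleAverage_def] at this
  rw [← this]
  have hπ : (π:ℂ) ≠ 0 := by exact_mod_cast Real.pi_ne_zero
  simp only [Complex.real_smul]
  push_cast
  rw [mul_inv_cancel_left₀ (mul_ne_zero two_ne_zero hπ)]

omit [CompleteSpace H] in
lemma res_apply {T : H →L[ℂ] H} {z : ℂ} (hz : IsUnit (algebraMap ℂ _ z - T)) (u : H) :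
    z • resolvent T z u - T (resolvent T z u) = u := by
  have := congrArg (fun S : H →L[ℂ] H => S u) (Ring.mul_inverse_cancel _ hz)
  simpa [resolvent, Algebra.algebraMap_eq_smul_one] using this

lemma contR {T : H →L[ℂ] H} {X : Type*} [TopologicalSpace X] {c : X → ℂ} (hc : Continuous c)
    (h : ∀ x, IsUnit (algebraMap ℂ _ (c x) - T)) : Continuous fun x => resolvent T (c x) := by
  refine continuous_iff_continuousAt.2 fun x => ?_
  have h1 : ContinuousAt Ring.inverse (algebraMap ℂ _ (c x) - T) :=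
    NormedRing.inverse_continuousAt (h x).unit
  have h2 : Continuous fun x => algebraMap ℂ (H →L[ℂ] H) (c x) - T := by fun_prop
  exact ContinuousAt.comp (f := fun x => algebraMap ℂ (H →L[ℂ] H) (c x) - T) h1 h2.continuousAt

/-- existence of the holomorphic function at infinity -/
lemma atInf {r : ℝ} (hr : 0 < r) {T : H →L[ℂ] H}
    (hT : ∀ z : ℂ, r < ‖z‖ → IsUnit (algebraMap ℂ _ z - T)) (x y : H) :
    ∃ g : ℂ → ℂ, (∀ ζ : ℂ, ‖ζ‖ < r⁻¹ → DifferentiableAt ℂ g ζ) ∧ g 0 = 0 ∧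
      ∀ z : ℂ, r < ‖z‖ → ⟪T (resolvent T z y), x⟫_ℂ = g (conj z)⁻¹ := by
  have hz : ∀ z : ℂ, z ≠ 0 → algebraMap ℂ (H →L[ℂ] H) z - T = z • (1 - z⁻¹ • T) := by
    intro z h0
    rw [smul_sub, smul_smul, mul_inv_cancel₀ h0, one_smul, Algebra.algebraMap_eq_smul_one]
  have hu : ∀ ζ : ℂ, ‖ζ‖ < r⁻¹ → IsUnit (1 - ζ • T) := by
    intro ζ h
    by_cases h0 : ζ = 0
    · simp [h0]
    · have h1 := hT ζ⁻¹ (by
        rw [norm_inv]; exact (lt_inv_comm₀ hr (norm_pos_iff.2 h0)).2 h)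
      rw [hz _ (inv_ne_zero h0), inv_inv] at h1
      have h2 := h1.smul (Units.mk0 ζ h0)
      rwa [Units.smul_def, Units.val_mk0, smul_smul, mul_inv_cancel₀ h0, one_smul] at h2
  let g₀ : ℂ → ℂ := fun ζ => ⟪x, T ((ζ • Ring.inverse (1 - ζ • T)) y)⟫_ℂ
  have hg : ∀ ζ : ℂ, ‖ζ‖ < r⁻¹ → DifferentiableAt ℂ g₀ ζ := by
    intro ζ h
    have d1 : DifferentiableAt ℂ (fun ζ : ℂ => ζ • Ring.inverse (1 - ζ • T)) ζ :=
      differentiableAt_id.smul (DifferentiableAt.inverse (h := fun ζ : ℂ => 1 - ζ • T)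
        (by fun_prop) (hu ζ h))
    have d2 := (((innerSL ℂ x).comp T).comp
      (ContinuousLinearMap.apply ℂ H y)).differentiableAt.comp ζ d1
    exact d2
  refine ⟨conj ∘ g₀ ∘ conj, fun ζ h => ?_, by simp [g₀], fun z h => ?_⟩
  · have := (hg (conj ζ) (by simpa using h)).conj_conj
    simpa using this
  · have h0 : z ≠ 0 := by rintro rfl; simp at h; linarith
    have hi : ‖z⁻¹‖ < r⁻¹ := by rw [norm_inv]; exact inv_strictAnti₀ hr h
    have e : resolvent T z = z⁻¹ • Ring.inverse (1 - z⁻¹ • T) := by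
      have k1 : (algebraMap ℂ _ z - T) * (z⁻¹ • Ring.inverse (1 - z⁻¹ • T)) = 1 := by
        rw [hz z h0, smul_mul_smul_comm, mul_inv_cancel₀ h0, one_smul,
          Ring.mul_inverse_cancel _ (hu _ hi)]
      have k2 := Ring.inverse_mul_cancel _ (hT z h)
      calc resolvent T z = resolvent T z * ((algebraMap ℂ _ z - T) *
            (z⁻¹ • Ring.inverse (1 - z⁻¹ • T))) := by rw [k1, mul_one]
        _ = _ := by rw [← mul_assoc, resolvent, k2, one_mul]
    simp only [Function.comp_apply, g₀, map_inv₀, Complex.conj_conj, inner_conj_symm, e]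

lemma conjinv {ρ : ℝ} (θ : ℝ) : (conj (circleMap 0 ρ θ))⁻¹ = circleMap 0 ρ⁻¹ θ := by
  simp only [circleMap, zero_add, map_mul, Complex.conj_ofReal, ← Complex.exp_conj,
    Complex.conj_I, mul_inv, ← Complex.exp_neg]
  push_cast; ring_nf

lemma KI {r ρ : ℝ} (hr : 0 < r) (h1 : r < ρ) (h2 : ρ < 1) {T : H →L[ℂ] H}
    (hT : ∀ z : ℂ, r < ‖z‖ → IsUnit (algebraMap ℂ _ z - T)) {f : ℂ → ℂ}
    (hf : DifferentiableOn ℂ f (ball 0 1)) (u v : H) :
    ∫ θ in (0:ℝ)..2 * π, f (circleMap 0 ρ θ) *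
      (⟪resolvent T (circleMap 0 ρ⁻¹ θ) v, resolvent T (circleMap 0 ρ θ) u⟫_ℂ -
        ⟪T (resolvent T (circleMap 0 ρ⁻¹ θ) v), T (resolvent T (circleMap 0 ρ θ) u)⟫_ℂ)
      = 2 * π * ⟪v, fc ρ f T u⟫_ℂ := by
  have hρ : 0 < ρ := hr.trans h1
  have hρ' : 0 < ρ⁻¹ := inv_pos.2 hρ
  have h3 : 1 < ρ⁻¹ := one_lt_inv_iff₀.2 ⟨hρ, h2⟩
  have u1 : ∀ θ, IsUnit (algebraMap ℂ _ (circleMap 0 ρ θ) - T) := fun θ =>
    hT _ (by rw [normW hρ]; exact h1)
  have u2 : ∀ θ, IsUnit (algebraMap ℂ _ (circleMap 0 ρ⁻¹ θ) - T) := fun θ =>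
    hT _ (by rw [normW hρ']; linarith)
  have c1 := contR (continuous_circleMap 0 ρ) u1
  have c2 := contR (continuous_circleMap 0 ρ⁻¹) u2
  have c0 := continuous_circleMap 0 ρ
  have cf : Continuous fun θ => f (circleMap 0 ρ θ) :=
    hf.continuousOn.comp_continuous c0 fun θ => by simp [abs_of_pos hρ, h2]
  obtain ⟨g, hg, g0, hgz⟩ := atInf hr hT u v
  have e : ∀ θ, f (circleMap 0 ρ θ) *
      (⟪resolvent T (circleMap 0 ρ⁻¹ θ) v, resolvent T (circleMap 0 ρ θ) u⟫_ℂ -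
        ⟪T (resolvent T (circleMap 0 ρ⁻¹ θ) v), T (resolvent T (circleMap 0 ρ θ) u)⟫_ℂ)
      = f (circleMap 0 ρ θ) * (circleMap 0 ρ θ * ⟪v, resolvent T (circleMap 0 ρ θ) u⟫_ℂ)
        + f (circleMap 0 ρ θ) * g (circleMap 0 ρ θ) := by
    intro θ
    have k := hgz (circleMap 0 ρ⁻¹ θ) (by rw [normW hρ']; linarith)
    rw [conjinv, inv_inv] at k
    rw [← k]
    have a1 := res_apply (u1 θ) u
    have a2 := res_apply (u2 θ) v
    have a3 : conj (circleMap 0 ρ⁻¹ θ) = (circleMap 0 ρ θ)⁻¹ := by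
      rw [← conjinv, map_inv₀, Complex.conj_conj]
    have a4 := W_ne hρ θ
    generalize resolvent T (circleMap 0 ρ θ) u = x at *
    generalize resolvent T (circleMap 0 ρ⁻¹ θ) v = y at *
    rw [← a1, ← a2]
    simp only [inner_sub_left, inner_sub_right, inner_smul_left, inner_smul_right, a3]
    field_simp; ring
  simp only [e]
  have hd : DifferentiableOn ℂ (fun w => f w * g w) (closedBall 0 ρ) := by
    refine (hf.mono (closedBall_subset_ball h2)).mul fun w hw => (hg w ?_).differentiableWithinAt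
    have : 1 < r⁻¹ := one_lt_inv_iff₀.2 ⟨hr, by linarith⟩
    have : ‖w‖ ≤ ρ := by simpa using hw
    linarith
  have cg : Continuous fun θ => f (circleMap 0 ρ θ) * g (circleMap 0 ρ θ) :=
    hd.continuousOn.comp_continuous c0 fun θ => by simp [abs_of_pos hρ]
  have ck : Continuous fun θ => f (circleMap 0 ρ θ) *
      (circleMap 0 ρ θ * ⟪v, resolvent T (circleMap 0 ρ θ) u⟫_ℂ) :=
    cf.mul (c0.mul (continuous_const.inner (c1.clm_apply continuous_const)))
  rw [intervalIntegral.integral_add (ck.intervalIntegrable _ _)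
    (cg.intervalIntegrable _ _), mv hρ hd, g0, mul_zero, mul_zero, add_zero]
  have cI : Continuous fun θ => deriv (circleMap 0 ρ) θ • f (circleMap 0 ρ θ) •
      resolvent T (circleMap 0 ρ θ) := by
    simp only [deriv_circleMap]
    exact (c0.mul continuous_const).smul (cf.smul c1)
  have L := (((innerSL ℂ v).comp (ContinuousLinearMap.apply ℂ H u)).intervalIntegral_comp_comm
    (cI.intervalIntegrable (μ := MeasureTheory.volume) 0 (2 * π))).symm
  simp only [ContinuousLinearMap.comp_apply, ContinuousLinearMap.apply_apply,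
    innerSL_apply_apply] at L
  rw [fc, circleIntegral, ContinuousLinearMap.smul_apply, inner_smul_right, L, ← mul_assoc,
    ← intervalIntegral.integral_const_mul]
  refine intervalIntegral.integral_congr fun θ _ => ?_
  have hπ : (π:ℂ) ≠ 0 := by exact_mod_cast Real.pi_ne_zero
  simp only [deriv_circleMap, ContinuousLinearMap.smul_apply, inner_smul_right]
  field_simp

lemma fc_one {r ρ : ℝ} (hr : 0 < r) (h1 : r < ρ) {T : H →L[ℂ] H}
    (hT : ∀ z : ℂ, r < ‖z‖ → IsUnit (algebraMap ℂ _ z - T)) (u v : H) :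
    ⟪v, fc ρ (fun _ => 1) T u⟫_ℂ = ⟪v, u⟫_ℂ := by
  have hρ : 0 < ρ := hr.trans h1
  have hρ' : 0 < ρ⁻¹ := inv_pos.2 hρ
  have u1 : ∀ θ, IsUnit (algebraMap ℂ _ (circleMap 0 ρ θ) - T) := fun θ =>
    hT _ (by rw [normW hρ]; exact h1)
  have c1 := contR (continuous_circleMap 0 ρ) u1
  have c0 := continuous_circleMap 0 ρ
  obtain ⟨g, hg, g0, hgz⟩ := atInf hr hT v u
  have cI : Continuous fun θ => deriv (circleMap 0 ρ) θ • (1:ℂ) •
      resolvent T (circleMap 0 ρ θ) := by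
    simp only [deriv_circleMap]; fun_prop
  have L := (((innerSL ℂ v).comp (ContinuousLinearMap.apply ℂ H u)).intervalIntegral_comp_comm
    (cI.intervalIntegrable (μ := MeasureTheory.volume) 0 (2 * π))).symm
  simp only [ContinuousLinearMap.comp_apply, ContinuousLinearMap.apply_apply,
    innerSL_apply_apply] at L
  have hd : DifferentiableOn ℂ g (closedBall 0 ρ⁻¹) := by
    refine fun w hw => (hg w ?_).differentiableWithinAt
    have : ρ⁻¹ < r⁻¹ := inv_strictAnti₀ hr h1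
    have : ‖w‖ ≤ ρ⁻¹ := by simpa using hw
    linarith
  have cg : Continuous fun θ => g (circleMap 0 ρ⁻¹ θ) :=
    hd.continuousOn.comp_continuous (continuous_circleMap 0 ρ⁻¹) fun θ => by
      simp [abs_of_pos hρ]
  have e : ∀ θ, ⟪v, (deriv (circleMap 0 ρ) θ • (1:ℂ) • resolvent T (circleMap 0 ρ θ)) u⟫_ℂ
      = I * ⟪v, u⟫_ℂ + I * conj (g (circleMap 0 ρ⁻¹ θ)) := by
    intro θ
    have k := hgz (circleMap 0 ρ θ) (by rw [normW hρ]; linarith)
    rw [conjinv] at k
    rw [← k, inner_conj_symm]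
    have a1 := res_apply (u1 θ) u
    simp only [deriv_circleMap, ContinuousLinearMap.smul_apply, inner_smul_right]
    generalize resolvent T (circleMap 0 ρ θ) u = x at *
    rw [← a1]
    simp only [inner_sub_right, inner_smul_right]
    ring
  rw [fc, circleIntegral, ContinuousLinearMap.smul_apply, inner_smul_right, L]
  simp only [e]
  have cc : Continuous fun θ => I * conj (g (circleMap 0 ρ⁻¹ θ)) :=
    continuous_const.mul (Complex.continuous_conj.comp cg)
  rw [intervalIntegral.integral_add (Continuous.intervalIntegrable continuous_const _ _)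
    (cc.intervalIntegrable _ _), intervalIntegral.integral_const_mul I (fun θ => conj _), intConj,
    mv hρ' hd, g0]
  have hπ : (π:ℂ) ≠ 0 := by exact_mod_cast Real.pi_ne_zero
  simp
  field_simp
  simp

end Pool.Agent.H29.Ptak
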