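import Mathlib
import Pool.Agent.H29.Ptak2

open Complex Real Set Metric intervalIntegral Polynomial
open scoped ComplexConjugate InnerProductSpace

namespace Pool.Agent.H29.Ptak

/-- The monic polynomial with given roots. -/
noncomputable def PP {n : ℕ} (a : Fin n → ℂ) : ℂ[X] := ∏ i, (X - C (a i))

lemma PP_deg {n : ℕ} (a : Fin n → ℂ) : (PP a).natDegree = n := by
  rw [PP, natDegree_prod_of_monic _ _ fun i _ => monic_X_sub_C _]; simp

lemma PP_eval {n : ℕ} (a : Fin n → ℂ) (w : ℂ) : (PP a).eval w = ∏ i, (w - a i) := by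
  simp [PP, eval_prod]

lemma PP_ne {n : ℕ} {r : ℝ} {a : Fin n → ℂ} (ha : ∀ i, ‖a i‖ ≤ r) {z : ℂ} (hz : r < ‖z‖) :
    (PP a).eval z ≠ 0 := by
  rw [PP_eval]
  refine Finset.prod_ne_zero_iff.2 fun i _ => sub_ne_zero.2 fun h => ?_
  have := ha i
  rw [← h] at this; linarith

/-- Polynomial functions of degree less than `n`. -/
noncomputable def VV (n : ℕ) : Submodule ℂ (ℂ → ℂ) :=
  Submodule.span ℂ (range fun i : Fin n => fun w : ℂ => w ^ (i : ℕ))

lemma VV_cont {n : ℕ} {q : ℂ → ℂ} (hq : q ∈ VV n) : Continuous q := by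
  induction hq using Submodule.span_induction with
  | mem x hx => obtain ⟨i, rfl⟩ := hx; fun_prop
  | zero => exact continuous_zero
  | add x y _ _ hx hy => exact hx.add hy
  | smul c x _ hx => exact hx.const_smul c

/-- The basic bilinear expression. -/
noncomputable def BB (ρ : ℝ) {n : ℕ} (a : Fin n → ℂ) (f q q' : ℂ → ℂ) : ℂ :=
  ∫ θ in (0:ℝ)..2 * π, f (circleMap 0 ρ θ) * q (circleMap 0 ρ θ) *
    conj (q' (circleMap 0 ρ⁻¹ θ)) / ∏ i, Aa (a i) (circleMap 0 ρ θ)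

variable {H : Type*} [NormedAddCommGroup H] [InnerProductSpace ℂ H] [CompleteSpace H]

/-- The model map. -/
noncomputable def Lm (p : ℂ[X]) (T : H →L[ℂ] H) (φ : H →ₗ[ℂ] ℂ) : H →ₗ[ℂ] (ℂ → ℂ) where
  toFun u := fun w => φ (Qn p T w u)
  map_add' x y := by ext; simp
  map_smul' c x := by ext; simp

omit [CompleteSpace H] in
lemma Lm_mem {n : ℕ} (a : Fin n → ℂ) (T : H →L[ℂ] H) (φ : H →ₗ[ℂ] ℂ) (u : H) :
    Lm (PP a) T φ u ∈ VV n := by
  have : Lm (PP a) T φ u = ∑ k ∈ Finset.range (n + 1), ∑ i ∈ Finset.range k,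
      ((PP a).coeff k * φ ((T ^ (k - 1 - i)) u)) • fun w : ℂ => w ^ i := by
    ext w
    simp only [Lm, Qn, PP_deg, LinearMap.coe_mk, AddHom.coe_mk, ContinuousLinearMap.sum_apply,
      ContinuousLinearMap.smul_apply, map_sum, map_smul, smul_eq_mul, Finset.sum_apply,
      Pi.smul_apply, Finset.mul_sum]
    refine Finset.sum_congr rfl fun k _ => Finset.sum_congr rfl fun i _ => by ring
  rw [this]
  refine Submodule.sum_mem _ fun k hk => Submodule.sum_mem _ fun i hi =>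
    Submodule.smul_mem _ _ (Submodule.subset_span ⟨⟨i, ?_⟩, rfl⟩)
  simp only [Finset.mem_range] at hk hi
  omega

lemma sumB {r ρ : ℝ} (hr : 0 < r) (h1 : r < ρ) (h2 : ρ < 1) {n : ℕ} {a : Fin n → ℂ}
    (ha : ∀ i, ‖a i‖ ≤ r) {T : H →L[ℂ] H} (hp : aeval T (PP a) = 0) {ι : Type*} [Fintype ι]
    (φ : ι → H →ₗ[ℂ] ℂ)
    (hφ : ∀ x y, ⟪y, x⟫_ℂ - ⟪T y, T x⟫_ℂ = ∑ j, conj (φ j y) * φ j x) {f : ℂ → ℂ}
    (hf : DifferentiableOn ℂ f (ball 0 1)) (u v : H) :
    ∑ j, BB ρ a f (Lm (PP a) T (φ j) u) (Lm (PP a) T (φ j) v) = 2 * π * ⟪v, fc ρ f T u⟫_ℂ := by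
  have hρ : 0 < ρ := hr.trans h1
  have hρ' : 0 < ρ⁻¹ := inv_pos.2 hρ
  have h3 : 1 < ρ⁻¹ := one_lt_inv_iff₀.2 ⟨hρ, h2⟩
  have c0 := continuous_circleMap 0 ρ
  have c1 := continuous_circleMap 0 ρ⁻¹
  have cf : Continuous fun θ => f (circleMap 0 ρ θ) :=
    hf.continuousOn.comp_continuous c0 fun θ => by simp [abs_of_pos hρ, h2]
  rw [← KI hr h1 h2 (fun z hz => (res_eq _ T hp (PP_ne ha hz)).1) hf u v]
  unfold BB
  rw [← intervalIntegral.integral_finsetSum]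
  · refine intervalIntegral.integral_congr fun θ _ => ?_
    have n1 := PP_ne ha (z := circleMap 0 ρ θ) (by rw [normW hρ]; exact h1)
    have n2 := PP_ne ha (z := circleMap 0 ρ⁻¹ θ) (by rw [normW hρ']; linarith)
    have a3 : conj (circleMap 0 ρ⁻¹ θ) = (circleMap 0 ρ θ)⁻¹ := by
      rw [← conjinv, map_inv₀, Complex.conj_conj]
    have e : ∏ i, Aa (a i) (circleMap 0 ρ θ)
        = (PP a).eval (circleMap 0 ρ θ) * conj ((PP a).eval (circleMap 0 ρ⁻¹ θ)) := by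
      simp only [PP_eval, map_prod, map_sub, a3, Aa, Finset.prod_mul_distrib]
    simp only [hφ, (res_eq _ T hp n1).2, (res_eq _ T hp n2).2, e, Finset.mul_sum]
    refine Finset.sum_congr rfl fun j _ => ?_
    simp only [Lm, LinearMap.coe_mk, AddHom.coe_mk, ContinuousLinearMap.smul_apply, map_smul,
      smul_eq_mul, map_mul, map_inv₀]
    ring
  · intro j _
    refine (contP hr h1 h2 _ ?_ a ha).intervalIntegrable _ _
    exact (cf.mul ((VV_cont (Lm_mem a T _ u)).comp c0)).mul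
      (Complex.continuous_conj.comp ((VV_cont (Lm_mem a T _ v)).comp c1))

/-- The basic inequality. -/
def Ineq (ρ M : ℝ) (f : ℂ → ℂ) {n : ℕ} (a : Fin n → ℂ) : Prop :=
  ∀ q ∈ VV n, ∀ q' ∈ VV n,
    (BB ρ a f q q').re ≤ M / 2 * ((BB ρ a (fun _ => 1) q q).re + (BB ρ a (fun _ => 1) q' q').re)

lemma stepA [FiniteDimensional ℂ H] {r ρ M : ℝ} (hr : 0 < r) (h1 : r < ρ) (h2 : ρ < 1)
    (hM : 0 ≤ M) {n : ℕ} {a : Fin n → ℂ}
    (ha : ∀ i, ‖a i‖ ≤ r) {T : H →L[ℂ] H} (hT : ‖T‖ ≤ 1) (hp : aeval T (PP a) = 0) {f : ℂ → ℂ}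
    (hf : DifferentiableOn ℂ f (ball 0 1)) (hI : Ineq ρ M f a) : ‖fc ρ f T‖ ≤ M := by
  have hpos : 0 ≤ 1 - star T * T := by
    rw [sub_nonneg, ← CStarAlgebra.norm_le_one_iff_of_nonneg _ (star_mul_self_nonneg T),
      CStarRing.norm_star_mul_self]
    nlinarith [norm_nonneg T]
  obtain ⟨D, hD⟩ := CStarAlgebra.nonneg_iff_eq_star_mul_self.1 hpos
  let b := stdOrthonormalBasis ℂ H
  let φ : _ → H →ₗ[ℂ] ℂ := fun j => ((innerSL ℂ (b j)).comp D).toLinearMap
  have hφ : ∀ x y, ⟪y, x⟫_ℂ - ⟪T y, T x⟫_ℂ = ∑ j, conj (φ j y) * φ j x := by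
    intro x y
    have := congrArg (fun S : H →L[ℂ] H => ⟪y, S x⟫_ℂ) hD
    simp only [ContinuousLinearMap.star_eq_adjoint, ContinuousLinearMap.sub_apply,
      ContinuousLinearMap.one_apply, ContinuousLinearMap.mul_apply, inner_sub_right,
      ContinuousLinearMap.adjoint_inner_right] at this
    rw [this, ← b.sum_inner_mul_inner]
    simp [φ]
  have hU := fun z hz => (res_eq _ T hp (PP_ne ha (z := z) hz)).1
  have key : ∀ u v, (⟪v, fc ρ f T u⟫_ℂ).re ≤ M / 2 * (‖u‖ ^ 2 + ‖v‖ ^ 2) := by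
    intro u v
    have s1 := congrArg Complex.re (sumB hr h1 h2 ha hp φ hφ hf u v)
    have s2 := congrArg Complex.re
      (sumB hr h1 h2 ha hp φ hφ (f := fun _ => 1) (by fun_prop) u u)
    have s3 := congrArg Complex.re
      (sumB hr h1 h2 ha hp φ hφ (f := fun _ => 1) (by fun_prop) v v)
    rw [fc_one hr h1 hU, inner_self_eq_norm_sq_to_K] at s2 s3
    have s4 := Finset.sum_le_sum (s := Finset.univ) fun j _ =>
      hI _ (Lm_mem a T (φ j) u) _ (Lm_mem a T (φ j) v)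
    rw [← Finset.mul_sum, Finset.sum_add_distrib] at s4
    rw [Complex.re_sum] at s1 s2 s3
    rw [s1, s2, s3] at s4
    have e : ∀ z : ℂ, (2 * π * z).re = 2 * π * z.re := by intro z; simp
    have e' : ∀ x : ℝ, ((x : ℂ) ^ 2).re = x ^ 2 := by intro x; norm_cast
    simp only [e, coe_algebraMap, e'] at s4
    have := Real.pi_pos
    nlinarith
  refine ContinuousLinearMap.opNorm_le_of_unit_norm hM fun u hu => ?_
  by_cases h0 : fc ρ f T u = 0
  · simpa [h0] using hM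
  · have hn : 0 < ‖fc ρ f T u‖ := norm_pos_iff.2 h0
    have := key u (((‖fc ρ f T u‖⁻¹ : ℝ) : ℂ) • fc ρ f T u)
    rw [inner_smul_left, inner_self_eq_norm_sq_to_K, norm_smul, hu] at this
    simp only [Complex.conj_ofReal, coe_algebraMap, Complex.norm_real, norm_inv, norm_norm,
      inv_mul_cancel₀ hn.ne'] at this
    have e : (((‖fc ρ f T u‖⁻¹ : ℝ) : ℂ) * (‖fc ρ f T u‖ : ℂ) ^ 2).re = ‖fc ρ f T u‖ := by
      norm_cast; field_simp
    rw [e] at this
    linarith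

lemma stepB [FiniteDimensional ℂ H] {r ρ M : ℝ} (hr : 0 < r) (h1 : r < ρ) (h2 : ρ < 1)
    {n : ℕ} (hn : Module.finrank ℂ H = n) {a : Fin n → ℂ}
    (ha : ∀ i, ‖a i‖ ≤ r) {T : H →L[ℂ] H} (hp : aeval T (PP a) = 0) (φ : H →ₗ[ℂ] ℂ)
    (hφ : ∀ x y, ⟪y, x⟫_ℂ - ⟪T y, T x⟫_ℂ = conj (φ y) * φ x) {f : ℂ → ℂ}
    (hf : DifferentiableOn ℂ f (ball 0 1)) (hM : ‖fc ρ f T‖ ≤ M) : Ineq ρ M f a := by
  have hU := fun z hz => (res_eq _ T hp (PP_ne ha (z := z) hz)).1
  have s := fun (g : ℂ → ℂ) (hg : DifferentiableOn ℂ g (ball 0 1)) u v =>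
    sumB hr h1 h2 ha hp (ι := Unit) (fun _ => φ) (by simpa using hφ) hg u v
  simp only [Finset.univ_unique, Finset.sum_singleton] at s
  have s1 := s (fun _ => 1) (by fun_prop)
  simp only [fc_one hr h1 hU] at s1
  have hπ : (π:ℂ) ≠ 0 := by exact_mod_cast Real.pi_ne_zero
  have inj : Function.Injective (Lm (PP a) T φ) := by
    rw [injective_iff_map_eq_zero]
    intro u hu
    have := s1 u u
    rw [hu] at this
    simp only [BB, Pi.zero_apply, mul_zero, zero_mul, zero_div, intervalIntegral.integral_zero]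
      at this
    have h3 := (mul_eq_zero.1 this.symm).resolve_left (mul_ne_zero two_ne_zero hπ)
    exact inner_self_eq_zero.1 h3
  haveI : FiniteDimensional ℂ (VV n) := FiniteDimensional.span_of_finite ℂ (finite_range _)
  have hrange : LinearMap.range (Lm (PP a) T φ) = VV n := by
    refine Submodule.eq_of_le_of_finrank_le ?_ ?_
    · rintro _ ⟨u, rfl⟩; exact Lm_mem a T φ u
    · rw [LinearMap.finrank_range_of_inj inj, hn]
      have := finrank_range_le_card (R := ℂ) fun i : Fin n => fun w : ℂ => w ^ (i : ℕ)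
      rw [Fintype.card_fin] at this
      exact this
  intro q hq q' hq'
  rw [← hrange] at hq hq'
  obtain ⟨u, rfl⟩ := hq
  obtain ⟨v, rfl⟩ := hq'
  rw [s f hf, s1, s1, inner_self_eq_norm_sq_to_K, inner_self_eq_norm_sq_to_K]
  have e : ∀ z : ℂ, (2 * π * z).re = 2 * π * z.re := by intro z; simp
  have e' : ∀ x : ℝ, ((x : ℂ) ^ 2).re = x ^ 2 := by intro x; norm_cast
  simp only [e, coe_algebraMap, e']
  have k1 : (⟪v, fc ρ f T u⟫_ℂ).re ≤ ‖v‖ * (M * ‖u‖) := by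
    refine (Complex.re_le_norm _).trans ((norm_inner_le_norm _ _).trans ?_)
    gcongr
    exact (fc ρ f T).le_of_opNorm_le hM u
  have hM0 : 0 ≤ M := (norm_nonneg _).trans hM
  have k2 : ‖v‖ * (M * ‖u‖) ≤ M / 2 * (‖u‖ ^ 2 + ‖v‖ ^ 2) := by
    nlinarith [mul_nonneg hM0 (sq_nonneg (‖u‖ - ‖v‖))]
  have := Real.pi_pos
  nlinarith

lemma Ineq_iff {r ρ M : ℝ} (hr : 0 < r) (h1 : r < ρ) (h2 : ρ < 1) {n : ℕ} {f : ℂ → ℂ}
    (hf : DifferentiableOn ℂ f (ball 0 1)) {q q' : ℂ → ℂ} (hq : q ∈ VV n) (hq' : q' ∈ VV n) :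
    ∃ Φ : ℝ → ℂ, Continuous Φ ∧ ∀ a : Fin n → ℂ, (∀ i, ‖a i‖ ≤ r) →
      (∫ θ in (0:ℝ)..2 * π, Φ θ / ∏ i, Aa (a i) (circleMap 0 ρ θ)).re = (BB ρ a f q q').re -
        M / 2 * ((BB ρ a (fun _ => 1) q q).re + (BB ρ a (fun _ => 1) q' q').re) := by
  have hρ : 0 < ρ := hr.trans h1
  have c0 := continuous_circleMap 0 ρ
  have c1 := continuous_circleMap 0 ρ⁻¹
  have cf : Continuous fun θ => f (circleMap 0 ρ θ) :=
    hf.continuousOn.comp_continuous c0 fun θ => by simp [abs_of_pos hρ, h2]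
  have d1 : Continuous fun θ => f (circleMap 0 ρ θ) * q (circleMap 0 ρ θ) *
      conj (q' (circleMap 0 ρ⁻¹ θ)) := (cf.mul ((VV_cont hq).comp c0)).mul
      (Complex.continuous_conj.comp ((VV_cont hq').comp c1))
  have d2 : Continuous fun θ => (1:ℂ) * q (circleMap 0 ρ θ) *
      conj (q (circleMap 0 ρ⁻¹ θ)) := (continuous_const.mul ((VV_cont hq).comp c0)).mul
      (Complex.continuous_conj.comp ((VV_cont hq).comp c1))
  have d3 : Continuous fun θ => (1:ℂ) * q' (circleMap 0 ρ θ) *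
      conj (q' (circleMap 0 ρ⁻¹ θ)) := (continuous_const.mul ((VV_cont hq').comp c0)).mul
      (Complex.continuous_conj.comp ((VV_cont hq').comp c1))
  refine ⟨_, d1.sub ((continuous_const (y := ((M / 2 : ℝ) : ℂ))).mul (d2.add d3)), fun a ha => ?_⟩
  have i1 := (contP hr h1 h2 _ d1 a ha).intervalIntegrable (μ := MeasureTheory.volume) 0 (2 * π)
  have i2 := (contP hr h1 h2 _ d2 a ha).intervalIntegrable (μ := MeasureTheory.volume) 0 (2 * π)
  have i3 := (contP hr h1 h2 _ d3 a ha).intervalIntegrable (μ := MeasureTheory.volume) 0 (2 * π)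
  rw [← Complex.add_re, ← Complex.re_ofReal_mul, ← Complex.sub_re]
  congr 1
  unfold BB
  rw [← intervalIntegral.integral_add i2 i3, ← intervalIntegral.integral_const_mul,
    ← intervalIntegral.integral_sub i1 ((i2.add i3).const_mul _)]
  refine intervalIntegral.integral_congr fun θ _ => ?_
  simp only [Pi.sub_apply, Pi.mul_apply, Pi.add_apply]
  ring

lemma cascade (n : ℕ) : ∀ a : Fin n → ℂ, (∀ i, ‖a i‖ ≤ 1) →
    ∃ (T : (Fin n → ℂ) →ₗ[ℂ] (Fin n → ℂ)) (φ : (Fin n → ℂ) →ₗ[ℂ] ℂ), aeval T (PP a) = 0 ∧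
      ∀ x y, ∑ i, conj (y i) * x i - ∑ i, conj (T y i) * T x i = conj (φ y) * φ x := by
  induction n with
  | zero => intro a _; exact ⟨0, 0, Subsingleton.elim _ _, by simp⟩
  | succ n ih =>
    intro a ha
    obtain ⟨T, φ, hp, hφ⟩ := ih (fun i => a i.succ) fun i => ha _
    let s : ℝ := √(1 - ‖a 0‖ ^ 2)
    have hs : (s:ℂ) ^ 2 = 1 - a 0 * conj (a 0) := by
      have : s ^ 2 = 1 - ‖a 0‖ ^ 2 := Real.sq_sqrt (by nlinarith [ha 0, norm_nonneg (a 0)])
      rw [Complex.mul_conj, Complex.normSq_eq_norm_sq]; exact_mod_cast this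
    let tl : (Fin (n + 1) → ℂ) →ₗ[ℂ] (Fin n → ℂ) := LinearMap.funLeft ℂ ℂ Fin.succ
    let T' : (Fin (n + 1) → ℂ) →ₗ[ℂ] (Fin (n + 1) → ℂ) :=
      LinearMap.pi (Fin.cons (a 0 • LinearMap.proj 0 + (s:ℂ) • φ ∘ₗ tl)
        fun i => LinearMap.proj i ∘ₗ T ∘ₗ tl)
    have t0 : ∀ x, T' x 0 = a 0 * x 0 + s * φ (tl x) := by intro x; simp [T']
    have t1 : ∀ x i, T' x (Fin.succ i) = T (tl x) i := by intro x i; simp [T']
    have t2 : ∀ x i, tl x i = x (Fin.succ i) := by intro x i; rfl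
    refine ⟨T', (s:ℂ) • LinearMap.proj 0 - conj (a 0) • φ ∘ₗ tl, ?_, fun x y => ?_⟩
    · have hc : ∀ (p : ℂ[X]) x, tl (aeval T' p x) = aeval T p (tl x) := by
        intro p
        induction p using Polynomial.induction_on' with
        | add p q hp hq => intro x; simp [hp, hq]
        | monomial k c =>
          intro x
          simp only [aeval_monomial, Module.End.mul_apply, Module.algebraMap_end_apply, map_smul]
          congr 1
          induction k generalizing x with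
          | zero => simp
          | succ k ihk =>
            rw [pow_succ, pow_succ, Module.End.mul_apply, Module.End.mul_apply, ihk]
            congr 1
      have e : PP a = (X - C (a 0)) * PP fun i => a i.succ := by simp [PP, Fin.prod_univ_succ]
      rw [e, map_mul]
      refine LinearMap.ext fun x => ?_
      have h0 := hc (PP fun i => a i.succ) x
      rw [hp] at h0
      rw [Module.End.mul_apply]
      generalize aeval T' (PP fun i => a i.succ) x = y at h0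
      simp only [LinearMap.zero_apply] at h0
      funext i
      refine Fin.cases ?_ (fun k => ?_) i
      · simp [t0, h0]
      · have h1 : y k.succ = 0 := by rw [← t2 y k, h0]; rfl
        simp [t1, h0, h1]
    · have := hφ (tl x) (tl y)
      simp only [t2] at this
      simp only [Fin.sum_univ_succ, t0, t1, LinearMap.sub_apply, LinearMap.smul_apply,
        LinearMap.proj_apply, LinearMap.comp_apply, smul_eq_mul, map_add, map_sub, map_mul,
        Complex.conj_ofReal, Complex.conj_conj]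
      linear_combination this - (conj (y 0) * x 0 + conj (φ (tl y)) * φ (tl x)) * hs

lemma model (n : ℕ) (a : Fin n → ℂ) (ha : ∀ i, ‖a i‖ ≤ 1) :
    ∃ (T : EuclideanSpace ℂ (Fin n) →L[ℂ] EuclideanSpace ℂ (Fin n))
      (φ : EuclideanSpace ℂ (Fin n) →ₗ[ℂ] ℂ), ‖T‖ ≤ 1 ∧ aeval T (PP a) = 0 ∧
      ∀ x y, ⟪y, x⟫_ℂ - ⟪T y, T x⟫_ℂ = conj (φ y) * φ x := by
  obtain ⟨T, φ, hp, hφ⟩ := cascade n a ha
  let e := WithLp.linearEquiv 2 ℂ (Fin n → ℂ)
  let F : ((Fin n → ℂ) →ₗ[ℂ] (Fin n → ℂ)) →ₐ[ℂ]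
      (EuclideanSpace ℂ (Fin n) →L[ℂ] EuclideanSpace ℂ (Fin n)) :=
    (Module.End.toContinuousLinearMap (EuclideanSpace ℂ (Fin n))).toAlgHom.comp
      (e.symm.conjAlgEquiv ℂ).toAlgHom
  have hF : ∀ x i, (F T x) i = T (e x) i := fun x i => rfl
  have key : ∀ x y, ⟪y, x⟫_ℂ - ⟪F T y, F T x⟫_ℂ = conj (φ (e y)) * φ (e x) := by
    intro x y
    rw [← hφ]
    simp only [PiLp.inner_apply, hF, RCLike.inner_apply, mul_comm]
    rfl
  refine ⟨F T, φ ∘ₗ e.toLinearMap, ?_, by rw [aeval_algHom_apply, hp, map_zero], key⟩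
  refine ContinuousLinearMap.opNorm_le_bound _ zero_le_one fun x => ?_
  have := key x x
  rw [inner_self_eq_norm_sq_to_K, inner_self_eq_norm_sq_to_K, Complex.conj_mul'] at this
  have h2 : ‖x‖ ^ 2 - ‖F T x‖ ^ 2 = ‖φ (e x)‖ ^ 2 := by
    simp only [coe_algebraMap] at this
    exact_mod_cast this
  rw [one_mul]
  exact abs_le_of_sq_le_sq' (by nlinarith [sq_nonneg ‖φ (e x)‖]) (norm_nonneg _) |>.2

lemma exmax {r ρ : ℝ} (hr : 0 < r) (h1 : r < ρ) (h2 : ρ < 1) {n : ℕ} {f : ℂ → ℂ}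
    (hf : DifferentiableOn ℂ f (ball 0 1)) (S : Set (Fin n → ℂ)) (hS : IsClosed S)
    (hSr : ∀ a ∈ S, ∀ i, ‖a i‖ ≤ r) (hne : S.Nonempty)
    (hcore : ∀ Φ : ℝ → ℂ, Continuous Φ → (∀ c ∈ S,
      (∫ θ in (0:ℝ)..2 * π, Φ θ / ∏ i, Aa (c i) (circleMap 0 ρ θ)).re ≤ 0) →
      ∀ a : Fin n → ℂ, (∀ i, ‖a i‖ ≤ r) →
      (∫ θ in (0:ℝ)..2 * π, Φ θ / ∏ i, Aa (a i) (circleMap 0 ρ θ)).re ≤ 0) :
    ∃ a ∈ S, ∃ T₀ : EuclideanSpace ℂ (Fin n) →L[ℂ] EuclideanSpace ℂ (Fin n),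
      ‖T₀‖ ≤ 1 ∧ aeval T₀ (PP a) = 0 ∧ ∀ b : Fin n → ℂ, (∀ i, ‖b i‖ ≤ r) →
      ∀ T : EuclideanSpace ℂ (Fin n) →L[ℂ] EuclideanSpace ℂ (Fin n),
        ‖T‖ ≤ 1 → aeval T (PP b) = 0 → ‖fc ρ f T‖ ≤ ‖fc ρ f T₀‖ := by
  have hρ : 0 < ρ := hr.trans h1
  let K : Set ((Fin n → ℂ) × (EuclideanSpace ℂ (Fin n) →L[ℂ] EuclideanSpace ℂ (Fin n))) :=
    (S ×ˢ closedBall 0 1) ∩ {x | aeval x.2 (PP x.1) = 0}
  have cP : Continuous fun x : (Fin n → ℂ) ×
      (EuclideanSpace ℂ (Fin n) →L[ℂ] EuclideanSpace ℂ (Fin n)) => aeval x.2 (PP x.1) := by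
    unfold PP
    induction (Finset.univ : Finset (Fin n)) using Finset.induction_on with
    | empty => simpa using continuous_const
    | insert i s hi ih =>
      simp only [Finset.prod_insert hi, map_mul, map_sub, aeval_X, aeval_C]
      refine Continuous.mul ?_ ih
      fun_prop
  have hSc : IsCompact S := (isCompact_closedBall (0 : Fin n → ℂ) r).of_isClosed_subset hS
    fun a ha => by
      rw [mem_closedBall_zero_iff, pi_norm_le_iff_of_nonneg hr.le]; exact hSr a ha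
  have hK : IsCompact K :=
    (hSc.prod (isCompact_closedBall _ _)).inter_right (isClosed_eq cP continuous_const)
  have hmod : ∀ a ∈ S, _ := fun a ha => model n a fun i => (hSr a ha i).trans (by linarith)
  have hKne : K.Nonempty := by
    obtain ⟨a, ha⟩ := hne
    obtain ⟨T, φ, k1, k2, -⟩ := hmod a ha
    exact ⟨(a, T), ⟨ha, by simpa using k1⟩, k2⟩
  have c0 := continuous_circleMap 0 ρ
  have cf : Continuous fun θ => f (circleMap 0 ρ θ) :=
    hf.continuousOn.comp_continuous c0 fun θ => by simp [abs_of_pos hρ, h2]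
  have cF : ContinuousOn (fun x => ‖fc ρ f x.2‖) K := by
    rw [continuousOn_iff_continuous_restrict]
    suffices h : Continuous fun x : K => ∮ w in C(0, ρ), f w • resolvent x.1.2 w from
      (h.const_smul (2 * π * I : ℂ)⁻¹).norm
    refine intervalIntegral.continuous_parametric_intervalIntegral_of_continuous' ?_ _ _
    simp only [deriv_circleMap]
    refine ((c0.comp continuous_snd).mul continuous_const).smul
      ((cf.comp continuous_snd).smul ?_)
    refine continuous_iff_continuousAt.2 fun x => ?_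
    have hu := (res_eq _ x.1.1.2 x.1.2.2 (PP_ne (hSr _ x.1.2.1.1) (z := circleMap 0 ρ x.2)
      (by rw [normW hρ]; exact h1))).1
    have k1 : ContinuousAt Ring.inverse (algebraMap ℂ _ (circleMap 0 ρ x.2) - x.1.1.2) :=
      NormedRing.inverse_continuousAt hu.unit
    have k2 : Continuous fun x : K × ℝ => algebraMap ℂ _ (circleMap 0 ρ x.2) - x.1.1.2 := by
      fun_prop
    exact ContinuousAt.comp (f := fun x : K × ℝ => algebraMap ℂ _ (circleMap 0 ρ x.2) - x.1.1.2)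
      k1 k2.continuousAt
  obtain ⟨⟨a, T₀⟩, ⟨⟨ha, hT₀⟩, hp⟩, hmax⟩ := hK.exists_isMaxOn hKne cF
  refine ⟨a, ha, T₀, by simpa using hT₀, hp, fun b hb T hT hpT => ?_⟩
  refine stepA hr h1 h2 (norm_nonneg _) hb hT hpT hf fun q hq q' hq' => ?_
  obtain ⟨Φ, hΦ, hI⟩ := Ineq_iff (M := ‖fc ρ f T₀‖) hr h1 h2 hf hq hq'
  rw [← sub_nonpos, ← hI b hb]
  refine hcore Φ hΦ (fun c hc => ?_) b hb
  rw [hI c (hSr c hc), sub_nonpos]
  obtain ⟨Tc, φ, k1, k2, k3⟩ := hmod c hc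
  exact stepB hr h1 h2 (by simp) (hSr c hc) k2 φ k3 hf
    (hmax (a := (c, Tc)) ⟨⟨hc, by simpa using k1⟩, k2⟩) q hq q' hq'

lemma roots_fin (n : ℕ) : ∀ s : Multiset ℂ, s.card = n →
    ∃ a : Fin n → ℂ, (∀ i, a i ∈ s) ∧ (s.map fun z => X - C z).prod = PP a := by
  induction n with
  | zero =>
    intro s hs
    rw [Multiset.card_eq_zero.1 hs]
    exact ⟨fun i => i.elim0, fun i => i.elim0, by simp [PP]⟩
  | succ n ih =>
    intro s hs
    obtain ⟨z, hz⟩ := Multiset.card_pos_iff_exists_mem.1 (show 0 < s.card by omega)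
    obtain ⟨t, rfl⟩ := Multiset.exists_cons_of_mem hz
    obtain ⟨a, h1, h2⟩ := ih t (by simpa using hs)
    refine ⟨Fin.cons z a, fun i => Fin.cases (by simp) (fun k => by simp [h1 k]) i, ?_⟩
    rw [Multiset.map_cons, Multiset.prod_cons, h2]
    simp [PP, Fin.prod_univ_succ]

end Pool.Agent.H29.Ptak
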