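import Mathlib

namespace Pool.Agent.H29.Quat
open Quaternion MulOpposite

variable {V : Type*} [AddCommGroup V] [Module ℍ[ℝ]ᵐᵒᵖ V]

lemma exists_eig [Module.Finite ℍ[ℝ]ᵐᵒᵖ V] [Nontrivial V] (f : V →ₗ[ℍ[ℝ]ᵐᵒᵖ] V) :
    ∃ x : V, x ≠ 0 ∧ ∃ l : ℍ[ℝ], f x = op l • x := by
  let φ : ℂ →+* ℍ[ℝ]ᵐᵒᵖ := RingHom.toOpposite (Quaternion.ofComplex : ℂ →ₐ[ℝ] ℍ[ℝ]).toRingHom
    (fun a b => (Commute.all a b).map _)
  have hφ : ∀ z : ℂ, φ z = op (z : ℍ[ℝ]) := fun z => rfl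
  letI : Module ℂ V := Module.compHom V φ
  have hs : ∀ (z : ℂ) (v : V), z • v = op (z : ℍ[ℝ]) • v := fun z v => rfl
  haveI : Module.Finite ℂ V := by
    classical
    obtain ⟨s, hs'⟩ := (Module.Finite.fg_top : (⊤ : Submodule ℍ[ℝ]ᵐᵒᵖ V).FG)
    let j : ℍ[ℝ] := ⟨0, 0, 1, 0⟩
    refine ⟨⟨s ∪ s.image (fun v => op j • v), ?_⟩⟩
    rw [eq_top_iff]
    rintro v -
    have hv : v ∈ Submodule.span ℍ[ℝ]ᵐᵒᵖ (s : Set V) := hs' ▸ Submodule.mem_top
    obtain ⟨c, -, rfl⟩ := Submodule.mem_span_finset.1 hv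
    refine Submodule.sum_mem _ fun w hw => ?_
    have : c w • w = (⟨(unop (c w)).re, (unop (c w)).imI⟩ : ℂ) • w +
        (⟨(unop (c w)).imJ, -(unop (c w)).imK⟩ : ℂ) • (op j • w) := by
      rw [hs, hs, ← mul_smul, ← add_smul, ← op_mul, ← op_add]
      congr 1
      rw [← op_unop (c w)]
      congr 1
      ext <;> simp [j]
    rw [this]
    refine Submodule.add_mem _ (Submodule.smul_mem _ _ (Submodule.subset_span ?_))
      (Submodule.smul_mem _ _ (Submodule.subset_span ?_))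
    · simp [hw]
    · simp only [Finset.coe_union, Finset.coe_image, Set.mem_union, Set.mem_image]
      exact Or.inr ⟨w, hw, rfl⟩
  let f' : Module.End ℂ V :=
    { toFun := f, map_add' := f.map_add, map_smul' := fun z v => by
        simp only [hs, RingHom.id_apply]; exact f.map_smul _ _ }
  obtain ⟨μ, hμ⟩ := Module.End.exists_eigenvalue f'
  obtain ⟨x, hx⟩ := hμ.exists_hasEigenvector
  exact ⟨x, hx.2, μ, hx.apply_eq_smul⟩

lemma exists_eig_mod [Module.Finite ℍ[ℝ]ᵐᵒᵖ V] (A : V →ₗ[ℍ[ℝ]ᵐᵒᵖ] V) (U N : Submodule ℍ[ℝ]ᵐᵒᵖ V)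
    (hU : ∀ x ∈ U, A x ∈ U) (hN : ∀ x ∈ N, A x ∈ N) (h : ¬ U ≤ N) :
    ∃ v ∈ U, v ∉ N ∧ ∃ l : ℍ[ℝ], A v - op l • v ∈ N := by
  let N' : Submodule ℍ[ℝ]ᵐᵒᵖ U := N.comap U.subtype
  let A' : U →ₗ[ℍ[ℝ]ᵐᵒᵖ] U := A.restrict hU
  have hN' : N' ≠ ⊤ := by
    intro h'
    apply h
    intro x hx
    have : (⟨x, hx⟩ : U) ∈ N' := h' ▸ Submodule.mem_top
    exact this
  haveI : Nontrivial (U ⧸ N') := Submodule.Quotient.nontrivial_iff.2 hN'
  obtain ⟨x, hx, l, hl⟩ := exists_eig (N'.mapQ N' A' (fun y hy => hN _ hy))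
  obtain ⟨v, rfl⟩ := N'.mkQ_surjective x
  refine ⟨v, v.2, fun hv => hx ((Submodule.Quotient.mk_eq_zero _).2 hv), l, ?_⟩
  have : N'.mkQ (A' v - op l • v) = 0 := by
    rw [map_sub, map_smul, ← hl]
    simp
  exact (Submodule.Quotient.mk_eq_zero N').1 this

lemma nsq_pos {a : ℍ[ℝ]} (h : a ≠ 0) : 0 < normSq a :=
  lt_of_le_of_ne normSq_nonneg (normSq_ne_zero.2 h).symm

lemma star_sim (l : ℍ[ℝ]) : ∃ a : ℍ[ℝ], a ≠ 0 ∧ star l * a = a * l := by
  by_cases h : l.imI = 0 ∧ l.imJ = 0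
  · refine ⟨⟨0, 1, 0, 0⟩, fun h => by simpa using congrArg QuaternionAlgebra.imI h, ?_⟩
    ext <;> simp [h.1, h.2]
  · refine ⟨⟨0, -l.imJ, l.imI, 0⟩, fun h' => h ⟨?_, ?_⟩, ?_⟩
    · simpa using congrArg QuaternionAlgebra.imJ h'
    · simpa using congrArg QuaternionAlgebra.imI h'
    · ext <;> simp <;> ring

/-- hermitian forms on a right quaternion space -/
structure Herm (g : V → V → ℍ[ℝ]) : Prop where
  add : ∀ x y z, g x (y + z) = g x y + g x z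
  smul : ∀ x y (a : ℍ[ℝ]), g x (op a • y) = g x y * a
  conj : ∀ x y, star (g x y) = g y x

namespace Herm
variable {g : V → V → ℍ[ℝ]} (hg : Herm g)
include hg

lemma zero (x) : g x 0 = 0 := by simpa using hg.smul x 0 0
lemma sub (x y z) : g x (y - z) = g x y - g x z := by
  have := hg.add x (y - z) z
  rw [sub_add_cancel] at this
  rw [this]; abel
lemma add' (x y z) : g (y + z) x = g y x + g z x := by
  rw [← hg.conj, hg.add, star_add, hg.conj, hg.conj]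
lemma sub' (x y z) : g (y - z) x = g y x - g z x := by
  rw [← hg.conj, hg.sub, star_sub, hg.conj, hg.conj]
lemma smul' (x y) (a : ℍ[ℝ]) : g (op a • y) x = star a * g y x := by
  rw [← hg.conj, hg.smul, star_mul, hg.conj]
lemma symm {x y} (h : g x y = 0) : g y x = 0 := by rw [← hg.conj, h, star_zero]
lemma real (x) : g x x = ((g x x).re : ℍ[ℝ]) := by
  have := hg.conj x x
  exact star_eq_self.1 this
lemma quad (x) (a : ℍ[ℝ]) : (g (op a • x) (op a • x)).re = normSq a * (g x x).re := by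
  rw [hg.smul, hg.smul', hg.real x]
  simp [normSq_def']
  ring

/-- orthogonal complement -/
def perp (L : Submodule ℍ[ℝ]ᵐᵒᵖ V) : Submodule ℍ[ℝ]ᵐᵒᵖ V where
  carrier := {x | ∀ y ∈ L, g y x = 0}
  add_mem' := fun {a b} ha hb y hy => by rw [hg.add, ha y hy, hb y hy, add_zero]
  zero_mem' := fun y _ => hg.zero y
  smul_mem' := fun c x hx y hy => by rw [← op_unop c, hg.smul, hx y hy, zero_mul]

lemma mem_perp {L : Submodule ℍ[ℝ]ᵐᵒᵖ V} {x} : x ∈ hg.perp L ↔ ∀ y ∈ L, g y x = 0 := Iff.rfl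

lemma polar (x y) (hx : (g x x).re = 0)
    (h : ∀ a : ℍ[ℝ], 0 ≤ (g (op a • x + y) (op a • x + y)).re) : g x y = 0 := by
  by_contra hne
  have hpos : 0 < normSq (g x y) := nsq_pos hne
  have key : ∀ t : ℝ, 0 ≤ (g y y).re - 2 * t * normSq (g x y) := by
    intro t
    have h1 := h (-(t : ℍ[ℝ]) * g x y)
    rw [hg.add, hg.add', hg.add'] at h1
    simp only [re_add] at h1
    rw [hg.quad, hx, hg.smul, hg.smul', ← hg.conj x y] at h1
    simp [normSq_def'] at h1 ⊢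
    nlinarith
  have := key (((g y y).re + 1) / normSq (g x y))
  have h2 := h 0
  simp only [op_zero, zero_smul, zero_add] at h2
  rw [mul_assoc, div_mul_cancel₀ _ hpos.ne'] at this
  linarith

lemma proj_step (v x) (hv : (g v v).re ≠ 0) :
    ∃ c : ℍ[ℝ], g v (x - op c • v) = 0 := by
  have h0 : g v v ≠ 0 := fun h => hv (by simp [h])
  exact ⟨(g v v)⁻¹ * g v x, by rw [hg.sub, hg.smul, mul_inv_cancel_left₀ h0, sub_self]⟩

lemma lt_step (U : Submodule ℍ[ℝ]ᵐᵒᵖ V) (v) (hvU : v ∈ U) (hv : (g v v).re ≠ 0) :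
    U ⊓ hg.perp (Submodule.span _ {v}) < U :=
  lt_of_le_of_ne inf_le_left fun h => hv (by
    have : v ∈ U ⊓ hg.perp (Submodule.span _ {v}) := h.symm ▸ hvU
    rw [this.2 v (Submodule.mem_span_singleton_self v)]
    rfl)

lemma mem_perp_span {v x} (h : g v x = 0) : x ∈ hg.perp (Submodule.span _ {v}) := by
  intro y hy
  obtain ⟨a, rfl⟩ := Submodule.mem_span_singleton.1 hy
  rw [← op_unop a, hg.smul', h, mul_zero]

lemma proj [Module.Finite ℍ[ℝ]ᵐᵒᵖ V] (L : Submodule ℍ[ℝ]ᵐᵒᵖ V) :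
    ∀ x, (∀ y ∈ L, y ∈ hg.perp L → g y x = 0) → ∃ l ∈ L, x - l ∈ hg.perp L := by
  induction L using WellFoundedLT.induction with
  | ind L ih =>
  intro x hx
  by_cases h : ∀ v ∈ L, (g v v).re = 0
  · refine ⟨0, L.zero_mem, fun y hy => ?_⟩
    rw [sub_zero]
    refine hx y hy fun z hz => hg.polar z y (h z hz) fun a => ?_
    exact (h _ (L.add_mem (L.smul_mem _ hz) hy)).ge
  push Not at h
  obtain ⟨v, hvL, hv⟩ := h
  obtain ⟨c, hc⟩ := hg.proj_step v x hv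
  have hdec : ∀ u, g v u = 0 → u ∈ hg.perp (L ⊓ hg.perp (Submodule.span _ {v})) →
      u ∈ hg.perp L := by
    intro u h1 h2 y hy
    obtain ⟨d, hd⟩ := hg.proj_step v y hv
    have := h2 _ ⟨L.sub_mem hy (L.smul_mem _ hvL), hg.mem_perp_span hd⟩
    rwa [hg.sub', hg.smul', h1, mul_zero, sub_zero] at this
  obtain ⟨l, hl, hl'⟩ := ih _ (hg.lt_step L v hvL hv) (x - op c • v) (by
    intro y hy hy'
    have h1 : g v y = 0 := hy.2 v (Submodule.mem_span_singleton_self v)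
    rw [hg.sub, hg.smul, hg.symm h1, zero_mul, sub_zero]
    exact hx y hy.1 (hdec y h1 hy'))
  refine ⟨op c • v + l, L.add_mem (L.smul_mem _ hvL) hl.1, ?_⟩
  rw [← sub_sub]
  refine hdec _ ?_ hl'
  rw [hg.sub, hc, hl.2 v (Submodule.mem_span_singleton_self v), sub_zero]

lemma neg_def [Module.Finite ℍ[ℝ]ᵐᵒᵖ V] (A : V →ₗ[ℍ[ℝ]ᵐᵒᵖ] V)
    (hA : ∀ x y, g (A x) y = - g x (A y)) (N : Submodule ℍ[ℝ]ᵐᵒᵖ V) (hN : ∀ x ∈ N, A x ∈ N)
    (U : Submodule ℍ[ℝ]ᵐᵒᵖ V) : (∀ x ∈ U, A x ∈ U) → N ≤ U → U ≤ hg.perp N →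
    (∀ v ∈ U, v ∉ N → ∀ l : ℍ[ℝ], A v - op l • v ∈ N → (g v v).re < 0) →
    ∀ x ∈ U, x ∉ N → (g x x).re < 0 := by
  induction U using WellFoundedLT.induction with
  | ind U ih =>
  intro hU hNU hUN h x hx hxN
  obtain ⟨v, hvU, hvN, l, hl⟩ := exists_eig_mod A U N hU hN (fun h' => hxN (h' hx))
  have hv := h v hvU hvN l hl
  have ih' := ih _ (hg.lt_step U v hvU hv.ne) (by
      intro u hu
      refine ⟨hU u hu.1, hg.mem_perp_span ?_⟩
      have h1 : g v u = 0 := hu.2 v (Submodule.mem_span_singleton_self v)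
      have h2 := hUN hu.1 _ hl
      rw [hg.sub', hg.smul', h1, mul_zero, sub_zero, hA] at h2
      exact neg_eq_zero.1 h2)
    (fun u hu => ⟨hNU hu, hg.mem_perp_span (hg.symm (hUN hvU u hu))⟩)
    (fun u hu => hUN hu.1) (fun u hu => h u hu.1)
  obtain ⟨c, hc⟩ := hg.proj_step v x hv.ne
  have hx' : x - op c • v ∈ U ⊓ hg.perp (Submodule.span _ {v}) :=
    ⟨U.sub_mem hx (U.smul_mem _ hvU), hg.mem_perp_span hc⟩
  have e : (g x x).re = normSq c * (g v v).re + (g (x - op c • v) (x - op c • v)).re := by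
    have : x = op c • v + (x - op c • v) := by abel
    conv_lhs => rw [this]
    rw [hg.add, hg.add', hg.add', hg.smul (x - op c • v), hg.smul' (x - op c • v), hc,
      hg.symm hc]
    simp [hg.quad]
  by_cases h' : x - op c • v ∈ N
  · have hc0 : c ≠ 0 := by
      rintro rfl
      exact hxN (by simpa using h')
    rw [e, hUN hx'.1 _ h']
    simpa using mul_neg_of_pos_of_neg (nsq_pos hc0) hv
  · have := ih' _ hx' h'
    rw [e]
    nlinarith [normSq_nonneg (a := c)]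

end Herm

/-- multiplication by a real scalar -/
noncomputable def rs (r : ℝ) : V →ₗ[ℍ[ℝ]ᵐᵒᵖ] V where
  toFun x := op (r : ℍ[ℝ]) • x
  map_add' := smul_add _
  map_smul' c x := by
    rw [RingHom.id_apply, ← mul_smul, ← mul_smul, ← op_unop c, ← op_mul, ← op_mul,
      coe_commutes]

/-- the real quadratic polynomial of `l` evaluated at `A` -/
noncomputable def P (A : V →ₗ[ℍ[ℝ]ᵐᵒᵖ] V) (l : ℍ[ℝ]) : V →ₗ[ℍ[ℝ]ᵐᵒᵖ] V :=
  A ∘ₗ A - rs (2 * l.re) ∘ₗ A + rs (normSq l)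

lemma P_apply (A : V →ₗ[ℍ[ℝ]ᵐᵒᵖ] V) (l : ℍ[ℝ]) (x : V) :
    P A l x = A (A x) - op ((2 * l.re : ℝ) : ℍ[ℝ]) • A x + op ((normSq l : ℝ) : ℍ[ℝ]) • x := rfl

lemma P_fac (A : V →ₗ[ℍ[ℝ]ᵐᵒᵖ] V) (l : ℍ[ℝ]) (x : V) :
    P A l x = A (A x - op (star l) • x) - op l • (A x - op (star l) • x) := by
  rw [P_apply, map_sub, map_smul, smul_sub, ← mul_smul, ← op_mul, star_mul_self]
  have : ((2 * l.re : ℝ) : ℍ[ℝ]) = star l + l := by rw [star_add_self']
  rw [this, op_add, add_smul]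
  abel

lemma P_fac' (A : V →ₗ[ℍ[ℝ]ᵐᵒᵖ] V) (l : ℍ[ℝ]) (x : V) :
    P A l x = A (A x - op l • x) - op (star l) • (A x - op l • x) := by
  have := P_fac A (star l) x
  rw [star_star] at this
  rw [← this, P_apply, P_apply]
  simp

lemma P_mem (A : V →ₗ[ℍ[ℝ]ᵐᵒᵖ] V) (l : ℍ[ℝ]) (L : Submodule ℍ[ℝ]ᵐᵒᵖ V) (hL : ∀ x ∈ L, A x ∈ L)
    (x : V) (hx : x ∈ L) : P A l x ∈ L := by
  rw [P_apply]
  exact L.add_mem (L.sub_mem (hL _ (hL _ hx)) (L.smul_mem _ (hL _ hx))) (L.smul_mem _ hx)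

lemma P_step (A : V →ₗ[ℍ[ℝ]ᵐᵒᵖ] V) (l : ℍ[ℝ]) (L U : Submodule ℍ[ℝ]ᵐᵒᵖ V)
    (hU : ∀ x ∈ U, A x ∈ U) (h : ∀ v ∈ U, A v - op l • v ∈ L → v ∈ L)
    (y : V) (hy : y ∈ U) (hP : P A l y ∈ L) : y ∈ L := by
  rw [P_fac] at hP
  have h1 := h _ (U.sub_mem (hU y hy) (U.smul_mem _ hy)) hP
  obtain ⟨a, ha, hal⟩ := star_sim l
  have h2 := h (op a • y) (U.smul_mem _ hy) (by
    rw [map_smul, ← mul_smul, ← op_mul, ← hal, op_mul, mul_smul, ← smul_sub]
    exact L.smul_mem _ h1)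
  have := L.smul_mem (op a⁻¹) h2
  rwa [← mul_smul, ← op_mul, mul_inv_cancel₀ ha, op_one, one_smul] at this

lemma P_surj [Module.Finite ℍ[ℝ]ᵐᵒᵖ V] (A : V →ₗ[ℍ[ℝ]ᵐᵒᵖ] V) (l : ℍ[ℝ])
    (U : Submodule ℍ[ℝ]ᵐᵒᵖ V) (hU : ∀ x ∈ U, A x ∈ U)
    (h : ∀ v ∈ U, A v = op l • v → v = 0) : ∀ y ∈ U, ∃ x ∈ U, P A l x = y := by
  intro y hy
  have hinj : Function.Injective ((P A l).restrict (P_mem A l U hU)) := by
    rw [← LinearMap.ker_eq_bot, eq_bot_iff]
    intro x hx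
    have h1 : P A l x = 0 := congrArg Subtype.val hx
    have := P_step A l ⊥ U hU (fun v hv hv' => h v hv (sub_eq_zero.1 hv')) x x.2 h1
    exact Subtype.ext this
  obtain ⟨x, hx⟩ := LinearMap.surjective_of_injective hinj ⟨y, hy⟩
  exact ⟨x, x.2, congrArg Subtype.val hx⟩

lemma Herm.P_adj {g : V → V → ℍ[ℝ]} (hg : Herm g) (A : V →ₗ[ℍ[ℝ]ᵐᵒᵖ] V)
    (hA : ∀ x y, g (A x) y = - g x (A y)) (l : ℍ[ℝ]) (x y : V) :
    g (P A (-l) x) y = g x (P A l y) := by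
  rw [P_apply, P_apply, hg.add', hg.sub', hg.smul', hg.smul', hg.add, hg.sub, hg.smul, hg.smul,
    hA, hA, hA]
  simp only [star_coe, re_neg, normSq_neg, mul_neg, coe_neg, neg_mul, neg_neg, star_neg]
  rw [coe_commutes, coe_commutes]

theorem main [Module.Finite ℍ[ℝ]ᵐᵒᵖ V] {g : V → V → ℍ[ℝ]} (hg : Herm g) (A : V →ₗ[ℍ[ℝ]ᵐᵒᵖ] V)
    (hA : ∀ x y, g (A x) y = - g x (A y)) (hrad : ∀ x, (∀ y, g y x = 0) → A x = 0)
    (S : Set ℍ[ℝ]) (hsim : ∀ l ∈ S, ∀ a : ℍ[ℝ], a ≠ 0 → a⁻¹ * l * a ∈ S)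
    (hdich : ∀ l : ℍ[ℝ], l.re ≠ 0 → l ∉ S → (∃ x, x ≠ 0 ∧ A x = op l • x) → -l ∈ S)
    (N : Submodule ℍ[ℝ]ᵐᵒᵖ V) (hN : ∀ x ∈ N, A x ∈ N) (hN0 : ∀ x ∈ N, ∀ y ∈ N, g x y = 0)
    (hNS : ∀ x ∈ N, x ≠ 0 → ∀ l : ℍ[ℝ], A x = op l • x → l.re ≠ 0 → l ∈ S) :
    ∃ L : Submodule ℍ[ℝ]ᵐᵒᵖ V, N ≤ L ∧ (∀ x ∈ L, A x ∈ L) ∧ (∀ x ∈ L, 0 ≤ (g x x).re) ∧
      (∀ M : Submodule ℍ[ℝ]ᵐᵒᵖ V, L ≤ M → (∀ x ∈ M, 0 ≤ (g x x).re) → M = L) ∧
      (∀ x ∈ L, x ≠ 0 → ∀ l : ℍ[ℝ], A x = op l • x → l.re ≠ 0 → l ∈ S) ∧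
      (∀ l ∈ S, -l ∉ S → l.re ≠ 0 → ∀ x, A x = op l • x → x ∈ L) := by
  obtain ⟨L, ⟨h1, h2, h3, h4⟩, hmax⟩ := set_has_maximal_iff_noetherian.2
    (inferInstance : IsNoetherian ℍ[ℝ]ᵐᵒᵖ V)
    {L | N ≤ L ∧ (∀ x ∈ L, A x ∈ L) ∧ (∀ x ∈ L, 0 ≤ (g x x).re) ∧
      (∀ x ∈ L, x ≠ 0 → ∀ l : ℍ[ℝ], A x = op l • x → l.re ≠ 0 → l ∈ S)}
    ⟨N, le_rfl, hN, fun x hx => by simp [hN0 x hx x hx], hNS⟩
  have hperp : ∀ x ∈ hg.perp L, A x ∈ hg.perp L := fun x hx y hy => by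
    have := hx _ (h2 y hy)
    rw [hA] at this
    exact neg_eq_zero.1 this
  have K : ∀ v ∈ hg.perp L, ∀ l : ℍ[ℝ], A v - op l • v ∈ L → 0 ≤ (g v v).re →
      (l.re = 0 ∨ l ∈ S) → v ∈ L := by
    intro v hv l hl hpos hS
    by_contra hvL
    refine hmax (L ⊔ Submodule.span _ {v}) ⟨h1.trans le_sup_left, ?_, ?_, ?_⟩
      (lt_of_le_of_ne le_sup_left fun h => hvL (h ▸ Submodule.mem_sup_right
        (Submodule.mem_span_singleton_self v)))
    · intro x hx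
      obtain ⟨y, hy, z, hz, rfl⟩ := Submodule.mem_sup.1 hx
      obtain ⟨c, rfl⟩ := Submodule.mem_span_singleton.1 hz
      have : A (y + c • v) = (A y + c • (A v - op l • v)) + (c * op l) • v := by
        rw [map_add, map_smul, smul_sub, mul_smul]; abel
      rw [this]
      exact Submodule.add_mem_sup (L.add_mem (h2 y hy) (L.smul_mem _ hl))
        (Submodule.smul_mem _ _ (Submodule.mem_span_singleton_self v))
    · intro x hx
      obtain ⟨y, hy, z, hz, rfl⟩ := Submodule.mem_sup.1 hx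
      obtain ⟨c, rfl⟩ := Submodule.mem_span_singleton.1 hz
      rw [← op_unop c, hg.add, hg.add', hg.add', hg.smul y, hg.smul' y, hv y hy,
        hg.symm (hv y hy)]
      simp only [zero_mul, mul_zero, add_zero, zero_add, re_add, hg.quad]
      exact add_nonneg (h3 y hy) (mul_nonneg normSq_nonneg hpos)
    · intro x hx hx0 m hm hre
      obtain ⟨y, hy, z, hz, rfl⟩ := Submodule.mem_sup.1 hx
      obtain ⟨c, rfl⟩ := Submodule.mem_span_singleton.1 hz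
      obtain ⟨c, rfl⟩ : ∃ d, c = op d := ⟨unop c, rfl⟩
      by_cases hc : c = 0
      · subst hc
        simp only [op_zero, zero_smul, add_zero] at hx0 hm
        exact h4 y hy hx0 m hm hre
      have e : op (l * c - c * m) • v = op m • y - A y - op c • (A v - op l • v) := by
        rw [map_add, map_smul, smul_add] at hm
        rw [op_sub, op_mul, op_mul, sub_smul, mul_smul, mul_smul, smul_sub,
          eq_sub_of_add_eq' hm.symm]
        abel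
      have e2 : l * c - c * m = 0 := by
        by_contra hne
        apply hvL
        have := L.smul_mem (op (l * c - c * m)⁻¹) (e ▸ L.sub_mem (L.sub_mem (L.smul_mem _ hy)
          (h2 y hy)) (L.smul_mem _ hl) : op (l * c - c * m) • v ∈ L)
        rwa [← mul_smul, ← op_mul, mul_inv_cancel₀ hne, op_one, one_smul] at this
      have e3 : m = c⁻¹ * l * c := by
        rw [mul_assoc, sub_eq_zero.1 e2, inv_mul_cancel_left₀ hc]
      rcases hS with hS | hS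
      · exfalso
        apply hre
        have e4 : (c * (m * star c)).re = (l * (c * star c)).re := by
          rw [← mul_assoc, ← mul_assoc, sub_eq_zero.1 e2]
        have e5 : (c * (m * star c)).re = normSq c * m.re := by
          simp [normSq_def']; ring
        rw [e5, self_mul_star] at e4
        simp [hS, hc] at e4
        exact e4
      · exact e3 ▸ hsim l hS c hc
  have neu : ∀ v ∈ hg.perp L, ∀ l : ℍ[ℝ], A v - op l • v ∈ L → l.re ≠ 0 → (g v v).re = 0 := by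
    intro v hv l hl hre
    have e1 := hv _ hl
    have e2 := hg.symm e1
    rw [hg.sub', hg.smul', hA, sub_eq_zero] at e1
    rw [hg.sub, hg.smul, sub_eq_zero] at e2
    rw [e2, hg.real v] at e1
    have := congrArg QuaternionAlgebra.re e1
    simp at this
    have h5 : l.re * (g v v).re = 0 := by linarith
    exact (mul_eq_zero.1 h5).resolve_left hre
  have gen : ∀ l ∈ S, -l ∉ S → l.re ≠ 0 → ∀ k : ℕ, ∀ x, (P A l ^ k) x = 0 →
      x ∈ hg.perp L ∧ x ∈ L := by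
    intro l hl hnl hre k
    induction k with
    | zero => intro x hx; obtain rfl : x = 0 := hx; simp
    | succ k ih =>
      intro x hx
      rw [pow_succ, Module.End.mul_apply] at hx
      obtain ⟨i1, i2⟩ := ih _ hx
      have hxp : x ∈ hg.perp L := by
        intro y hy
        obtain ⟨z, hz, rfl⟩ := P_surj A (-l) L h2 (fun v hv hv' => by
          by_contra h0
          exact hnl (h4 v hv h0 _ hv' (by simpa using hre))) y hy
        rw [hg.P_adj A hA]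
        exact i1 z hz
      exact ⟨hxp, P_step A l L _ hperp
        (fun v hv hv' => K v hv l hv' (neu v hv l hv' hre).ge (Or.inr hl)) x hxp i2⟩
  have hneg := hg.neg_def A hA (L ⊓ hg.perp L) (fun x hx => ⟨h2 x hx.1, hperp x hx.2⟩)
    (hg.perp L) hperp inf_le_right (fun x hx y hy => hx y hy.1) (by
      intro v hv hvL l hl
      by_contra hge
      have hcase : ¬ (l.re = 0 ∨ l ∈ S) := fun h =>
        hvL ⟨K v hv l hl.1 (not_lt.1 hge) h, hv⟩
      push Not at hcase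
      obtain ⟨hre, hlS⟩ := hcase
      have hPv : P A l v ∈ L ⊓ hg.perp L := by
        rw [P_fac']
        exact Submodule.sub_mem _ ⟨h2 _ hl.1, hperp _ hl.2⟩ (Submodule.smul_mem _ _ hl)
      obtain ⟨z, hz, hz'⟩ := P_surj A l (L ⊓ hg.perp L) (fun x hx => ⟨h2 x hx.1, hperp x hx.2⟩)
        (fun w hw hw' => by
          by_contra h0
          exact hlS (h4 w hw.1 h0 _ hw' hre)) _ hPv
      have hx0 : P A l (v - z) = 0 := by rw [map_sub, hz', sub_self]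
      have hxne : v - z ≠ 0 := fun h => hvL (sub_eq_zero.1 h ▸ hz)
      have hxp : v - z ∈ hg.perp L := Submodule.sub_mem _ hv hz.2
      have hnl : -l ∈ S := by
        refine hdich l hre hlS ?_
        by_contra hno
        push Not at hno
        refine hxne (P_step A l ⊥ ⊤ (fun _ _ => trivial) (fun w _ hw => ?_) _ trivial hx0)
        by_contra h0
        exact hno w h0 (sub_eq_zero.1 hw)
      obtain ⟨k, hk, hk1⟩ := ((P A (-l)).eventually_isCompl_ker_pow_range_pow.and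
        (Filter.eventually_ge_atTop 1)).exists
      obtain ⟨k, rfl⟩ : ∃ j, k = j + 1 := ⟨k - 1, by omega⟩
      have hA0 : A (v - z) = 0 := by
        refine hrad _ fun y => ?_
        have hy : y ∈ LinearMap.ker (P A (-l) ^ (k + 1)) ⊔ LinearMap.range (P A (-l) ^ (k + 1)) :=
          hk.sup_eq_top ▸ Submodule.mem_top
        obtain ⟨a, ha, b, ⟨c, rfl⟩, rfl⟩ := Submodule.mem_sup.1 hy
        rw [hg.add', hxp a (gen (-l) hnl (by simpa using hlS) (by simpa using hre) _ a ha).2,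
          pow_succ', Module.End.mul_apply, hg.P_adj A hA, hx0, hg.zero, add_zero]
      rw [P_apply, hA0] at hx0
      simp only [map_zero, smul_zero, sub_self, zero_add, smul_eq_zero, op_eq_zero_iff] at hx0
      rcases hx0 with h | h
      · have : normSq l = 0 := by simpa using congrArg QuaternionAlgebra.re h
        rw [normSq_eq_zero] at this
        exact hre (by simp [this])
      · exact hxne h)
  refine ⟨L, h1, h2, h3, fun M hLM hM => le_antisymm (fun x hx => ?_) hLM, h4,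
    fun l hl hnl hre x hx => (gen l hl hnl hre 1 x ?_).2⟩
  · obtain ⟨y, hy, hy'⟩ := hg.proj L x fun z hz hz' => hg.polar z x (by rw [hz' z hz]; rfl)
      fun a => hM _ (M.add_mem (M.smul_mem _ (hLM hz)) hx)
    by_contra hxL
    have := hneg _ hy' fun h => hxL (by simpa using L.add_mem h.1 hy)
    exact absurd (hM _ (M.sub_mem hx (hLM hy))) (not_le.2 this)
  · rw [pow_one, P_fac', hx]
    simp

end Pool.Agent.H29.Quat
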