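import Mathlib
import Pool.Agent.H29.Quat

namespace Pool.Agent.H29.QuatM
open Quaternion MulOpposite Matrix

variable {n : ℕ}

/-- right quaternion subspaces of column vectors -/
abbrev Sub (n : ℕ) := Submodule ℍ[ℝ]ᵐᵒᵖ (Fin n → ℍ[ℝ])

/-- square quaternion matrices -/
abbrev Mat (n : ℕ) := Matrix (Fin n) (Fin n) ℍ[ℝ]

/-- `x_φ G y` -/
noncomputable def form (φ : ℍ[ℝ] → ℍ[ℝ]) (G : Mat n) (x y : Fin n → ℍ[ℝ]) : ℍ[ℝ] :=
  (fun i => φ (x i)) ⬝ᵥ (G *ᵥ y)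

/-- `X_φ`: transpose with `φ` applied to each entry -/
def tr (φ : ℍ[ℝ] → ℍ[ℝ]) (X : Mat n) : Mat n := (X.map φ)ᵀ

/-- `A`-invariance -/
def Inv (A : Mat n) (M : Sub n) : Prop := ∀ x ∈ M, A *ᵥ x ∈ M

/-- neutrality for the form `x_φ G y` -/
def Neutral (φ : ℍ[ℝ] → ℍ[ℝ]) (G : Mat n) (M : Sub n) : Prop :=
  ∀ x ∈ M, ∀ y ∈ M, form φ G y x = 0

/-- `q` is a nonnegative real number on `M` -/
def Nonneg (q : (Fin n → ℍ[ℝ]) → ℍ[ℝ]) (M : Sub n) : Prop :=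
  ∀ x ∈ M, ∃ r : ℝ, 0 ≤ r ∧ q x = (r : ℍ[ℝ])

/-- `q` is a nonpositive real number on `M` -/
def Nonpos (q : (Fin n → ℍ[ℝ]) → ℍ[ℝ]) (M : Sub n) : Prop :=
  ∀ x ∈ M, ∃ r : ℝ, r ≤ 0 ∧ q x = (r : ℍ[ℝ])

/-- eigenvalues of the restriction of `A` to `M` -/
def Eig (A : Mat n) (M : Sub n) : Set ℍ[ℝ] :=
  {l | ∃ x ∈ M, x ≠ 0 ∧ A *ᵥ x = fun i => x i * l}

/-- eigenvalues of the restriction of `A` to `M` with nonzero real part -/
def Eig0 (A : Mat n) (M : Sub n) : Set ℍ[ℝ] := {l ∈ Eig A M | l.re ≠ 0}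

/-- the first three properties of a c-set -/
def Adm (A : Mat n) (S : Set ℍ[ℝ]) : Prop :=
  S ⊆ Eig A ⊤ ∧ (∀ l ∈ S, l.re ≠ 0) ∧ (∀ l ∈ S, ∀ a : ℍ[ℝ], a ≠ 0 → a⁻¹ * l * a ∈ S) ∧
    ∀ l ∈ S, -l ∉ S

/-- c-sets of `A` -/
def CSet (A : Mat n) (S : Set ℍ[ℝ]) : Prop := Maximal (Adm A) S

/-- nonstandard involutions -/
def NonStd (φ : ℍ[ℝ] →ₗ[ℝ] ℍ[ℝ]) : Prop :=
  (∀ x y, φ (x * y) = φ y * φ x) ∧ (∀ x, φ (φ x) = x) ∧ ¬ ∀ x, φ x = star x

lemma finH : Module.Finite ℍ[ℝ]ᵐᵒᵖ ℍ[ℝ] :=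
  ⟨⟨{1}, by
    rw [eq_top_iff]
    intro x _
    rw [Finset.coe_singleton]
    exact Submodule.mem_span_singleton.2 ⟨op x, by simp⟩⟩⟩

noncomputable def lin (A : Mat n) : (Fin n → ℍ[ℝ]) →ₗ[ℍ[ℝ]ᵐᵒᵖ] (Fin n → ℍ[ℝ]) where
  toFun x := A *ᵥ x
  map_add' := mulVec_add A
  map_smul' c x := by
    funext i
    simp [mulVec, dotProduct, Finset.sum_mul, mul_assoc, MulOpposite.smul_eq_mul_unop]

lemma re_conj (l a : ℍ[ℝ]) (ha : a ≠ 0) : (a⁻¹ * l * a).re = l.re := by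
  have : ∀ x y : ℍ[ℝ], (x * y).re = (y * x).re := fun x y => by simp; ring
  rw [this, mul_inv_cancel_left₀ ha]

lemma dich {A : Mat n} {S : Set ℍ[ℝ]} (hS : CSet A S) (l : ℍ[ℝ]) (hre : l.re ≠ 0) (hl : l ∉ S)
    (he : l ∈ Eig A ⊤) : -l ∈ S := by
  obtain ⟨⟨h1, h2, h3, h4⟩, hmax⟩ := hS
  by_contra hn
  have back : ∀ a : ℍ[ℝ], a ≠ 0 → -(a⁻¹ * l * a) ∉ S := fun a ha h => hn (by
    have := h3 _ h a⁻¹ (inv_ne_zero ha)
    simpa [mul_assoc, ha] using this)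
  refine hl (hmax (y := S ∪ {m | ∃ a : ℍ[ℝ], a ≠ 0 ∧ m = a⁻¹ * l * a}) ⟨?_, ?_, ?_, ?_⟩
    Set.subset_union_left (Or.inr ⟨1, one_ne_zero, by simp⟩))
  · rintro m (hm | ⟨a, ha, rfl⟩)
    · exact h1 hm
    · obtain ⟨x, -, hx, hx'⟩ := he
      refine ⟨op a • x, trivial, smul_ne_zero (by simpa using ha) hx, ?_⟩
      have := (lin A).map_smul (op a) x
      change A *ᵥ _ = op a • (A *ᵥ x) at this
      rw [this, hx']
      funext i
      simp [mul_assoc, ha]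
  · rintro m (hm | ⟨a, ha, rfl⟩)
    · exact h2 m hm
    · rwa [re_conj l a ha]
  · rintro m (hm | ⟨a, ha, rfl⟩) b hb
    · exact Or.inl (h3 m hm b hb)
    · exact Or.inr ⟨a * b, mul_ne_zero ha hb, by simp [mul_assoc]⟩
  · rintro m (hm | ⟨a, ha, rfl⟩) (hm' | ⟨b, hb, hm'⟩)
    · exact h4 m hm hm'
    · exact back b hb (by rw [← hm', neg_neg]; exact hm)
    · exact back a ha hm'
    · have := congrArg QuaternionAlgebra.re hm'
      rw [re_neg, re_conj l a ha, re_conj l b hb] at this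
      exact hre (by linarith)

section
variable (φ : ℍ[ℝ] →+ ℍ[ℝ]) (hm : ∀ x y, φ (x * y) = φ y * φ x) (hi : ∀ x, φ (φ x) = x)
include hm

lemma tr_mul (X Y : Mat n) : tr φ (X * Y) = tr φ Y * tr φ X := by
  refine Matrix.ext fun i j => ?_
  simp [tr, mul_apply, map_sum, hm]

lemma form_left (G A : Mat n) (x y) : form φ G (A *ᵥ x) y = form φ (tr φ A * G) x y := by
  rw [form, form, ← mulVec_mulVec]
  generalize G *ᵥ y = w
  simp only [mulVec, dotProduct, tr, map_sum, hm, Finset.sum_mul, Finset.mul_sum,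
    transpose_apply, map_apply, mul_assoc]
  exact Finset.sum_comm

include hi
lemma form_conj (G : Mat n) (x y) : φ (form φ G x y) = form φ (tr φ G) y x := by
  simp only [form, mulVec, dotProduct, tr, map_sum, hm, hi, Finset.mul_sum,
    transpose_apply, map_apply, mul_assoc]
  exact Finset.sum_comm

lemma phi_one : φ 1 = 1 := by
  have := hm (φ 1) 1
  rw [mul_one, hi, mul_one] at this
  exact this.symm

theorem core (H A : Mat n) (hH : IsUnit H) (hA : H * A = -(tr φ A * H)) (u : ℍ[ℝ]) (hu0 : u ≠ 0)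
    (hu : ∀ x y, star (u * form φ (H * A) x y) = u * form φ (H * A) y x)
    (S : Set ℍ[ℝ]) (hsim : ∀ l ∈ S, ∀ a : ℍ[ℝ], a ≠ 0 → a⁻¹ * l * a ∈ S)
    (hdich : ∀ l : ℍ[ℝ], l.re ≠ 0 → l ∉ S → l ∈ Eig A ⊤ → -l ∈ S)
    (N : Sub n) (hN : Inv A N) (hN0 : Neutral φ (H * A) N) (hNS : Eig0 A N ⊆ S) :
    ∃ L : Sub n, N ≤ L ∧ Inv A L ∧ Maximal (Nonneg fun x => u * form φ (H * A) x x) L ∧
      Eig0 A L ⊆ S ∧ ∀ l ∈ S, -l ∉ S → l.re ≠ 0 → l ∈ Eig A ⊤ → l ∈ Eig0 A L := by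
  have hg : Quat.Herm fun x y => u * form φ (H * A) x y :=
    ⟨fun x y z => by simp [form, mulVec_add, dotProduct_add, mul_add], fun x y a => by
      have := (lin (H * A)).map_smul (op a) y
      change (H * A) *ᵥ _ = op a • ((H * A) *ᵥ y) at this
      simp only [form, this, dotProduct, mul_assoc, Finset.sum_mul]
      simp, hu⟩
  have hnn : ∀ M : Sub n, Nonneg (fun x => u * form φ (H * A) x x) M ↔
      ∀ x ∈ M, 0 ≤ (u * form φ (H * A) x x).re := fun M =>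
    ⟨fun h x hx => by obtain ⟨r, hr, e⟩ := h x hx; simpa [e] using hr,
      fun h x hx => ⟨_, h x hx, hg.real x⟩⟩
  have := finH
  obtain ⟨L, h1, h2, h3, h4, h5, h6⟩ := Quat.main hg (lin A) (fun x y => by
      change u * form φ (H * A) (A *ᵥ x) y = -(u * form φ (H * A) x (A *ᵥ y))
      rw [form_left φ hm, ← Matrix.mul_assoc, ← neg_neg (tr φ A * H), ← hA]
      simp [form, neg_mulVec, mulVec_mulVec])
    (fun x hx => by
      change A *ᵥ x = 0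
      have h0 : H *ᵥ (A *ᵥ x) = 0 := by
        funext i
        have := (mul_eq_zero.1 (hx (Pi.single i 1))).resolve_left hu0
        rw [form, dotProduct, Finset.sum_eq_single i (fun j _ hj => by simp [hj])
          (by simp)] at this
        simpa [phi_one φ hm hi, mulVec_mulVec] using this
      obtain ⟨H', rfl⟩ := hH
      have := congrArg (fun v => (↑H'⁻¹ : Mat n) *ᵥ v) h0
      simpa only [mulVec_mulVec, ← Matrix.mul_assoc, Units.inv_mul, Matrix.one_mul,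
        mulVec_zero] using this)
    S hsim (fun l h1 h2 ⟨x, hx, hx'⟩ => hdich l h1 h2 ⟨x, trivial, hx, hx'⟩) N hN
    (fun x hx y hy => by simp [hN0 y hy x hx])
    (fun x hx h0 l hl hre => hNS ⟨⟨x, hx, h0, hl⟩, hre⟩)
  refine ⟨L, h1, h2, ⟨(hnn L).2 h3, fun M hM hLM => (h4 M hLM ((hnn M).1 hM)).le⟩, ?_, ?_⟩
  · rintro l ⟨⟨x, hx, h0, hl⟩, hre⟩
    exact h5 x hx h0 l hl hre
  · rintro l hl hnl hre ⟨x, -, h0, hx⟩
    exact ⟨⟨x, h6 l hl hnl hre x hx, h0, hx⟩, hre⟩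

theorem both (H A : Mat n) (hH : IsUnit H) (hA : H * A = -(tr φ A * H)) (u : ℍ[ℝ]) (hu0 : u ≠ 0)
    (hu : ∀ x y, star (u * form φ (H * A) x y) = u * form φ (H * A) y x)
    (S : Set ℍ[ℝ]) (hsim : ∀ l ∈ S, ∀ a : ℍ[ℝ], a ≠ 0 → a⁻¹ * l * a ∈ S)
    (hdich : ∀ l : ℍ[ℝ], l.re ≠ 0 → l ∉ S → l ∈ Eig A ⊤ → -l ∈ S)
    (N : Sub n) (hN : Inv A N) (hN0 : Neutral φ (H * A) N) (hNS : Eig0 A N ⊆ S) :
    (∃ L : Sub n, N ≤ L ∧ Inv A L ∧ Maximal (Nonneg fun x => u * form φ (H * A) x x) L ∧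
      Eig0 A L ⊆ S ∧ ∀ l ∈ S, -l ∉ S → l.re ≠ 0 → l ∈ Eig A ⊤ → l ∈ Eig0 A L) ∧
    (∃ L : Sub n, N ≤ L ∧ Inv A L ∧ Maximal (Nonpos fun x => u * form φ (H * A) x x) L ∧
      Eig0 A L ⊆ S ∧ ∀ l ∈ S, -l ∉ S → l.re ≠ 0 → l ∈ Eig A ⊤ → l ∈ Eig0 A L) := by
  refine ⟨core φ hm hi H A hH hA u hu0 hu S hsim hdich N hN hN0 hNS, ?_⟩
  have := core φ hm hi H A hH hA (-u) (neg_ne_zero.2 hu0)
    (fun x y => by rw [neg_mul, star_neg, hu, neg_mul]) S hsim hdich N hN hN0 hNS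
  have e : (Nonneg fun x => -u * form φ (H * A) x x) =
      (Nonpos fun x => u * form φ (H * A) x x) := by
    funext M
    apply propext
    refine forall₂_congr fun x _ => ⟨?_, ?_⟩
    · rintro ⟨r, hr, e⟩
      exact ⟨-r, by linarith, by simp only [neg_mul] at e; simp [← e]⟩
    · rintro ⟨r, hr, e⟩
      exact ⟨-r, by linarith, by simp only at e; simp [e]⟩
  rwa [e] at this

end

lemma nonstd {φ : ℍ[ℝ] →ₗ[ℝ] ℍ[ℝ]} (h : NonStd φ) {β : ℍ[ℝ]} (hβ : φ β = -β) (hn : ‖β‖ = 1)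
    (q : ℍ[ℝ]) : star q = -β * φ q * β := by
  obtain ⟨hm, hi, hne⟩ := h
  have h1 : φ 1 = 1 := phi_one φ.toAddMonoidHom hm hi
  have hr : ∀ r : ℝ, φ (r : ℍ[ℝ]) = r := fun r => by
    rw [← mul_one (r : ℍ[ℝ]), coe_mul_eq_smul, map_smul, h1]
  have hns : normSq β = 1 := by rw [normSq_eq_norm_mul_self, hn, one_mul]
  have hre : β.re = 0 := by
    have e1 : β * β = ((2 * β.re : ℝ) : ℍ[ℝ]) * β - 1 := by
      rw [← star_add_self', add_mul, star_mul_self, hns]; simp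
    have e2 := congrArg φ e1
    rw [hm, hβ, map_sub, hm, hr, hβ, h1, neg_mul_neg, e1, ← coe_commutes] at e2
    have e3 : ((4 * β.re : ℝ) : ℍ[ℝ]) * β = 0 := by
      have : ((4 * β.re : ℝ) : ℍ[ℝ]) = ((2 * β.re : ℝ) : ℍ[ℝ]) + ((2 * β.re : ℝ) : ℍ[ℝ]) := by
        rw [← coe_add]; congr 1; ring
      rw [this, add_mul]
      rw [mul_neg, sub_left_inj] at e2
      exact add_eq_zero_iff_eq_neg.2 e2
    rcases mul_eq_zero.1 e3 with h | h
    · have := congrArg QuaternionAlgebra.re h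
      simpa using this
    · simp [h]
  have hs : star β = -β := star_eq_neg.2 hre
  have hbb : β * β = -1 := by
    have := star_mul_self β
    rw [hs, hns, neg_mul] at this
    rw [← neg_neg (β * β), this]; simp
  have hnorm : β.imI ^ 2 + β.imJ ^ 2 + β.imK ^ 2 = 1 := by
    rw [normSq_def', hre] at hns; linarith
  have dec : ∀ x : ℍ[ℝ], ∃ a c : ℝ, ∃ y : ℍ[ℝ], y * β = -(β * y) ∧
      x = (a : ℍ[ℝ]) + (c : ℍ[ℝ]) * β + y := by
    intro x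
    refine ⟨x.re, -(x * β).re, x - x.re + ((x * β).re : ℍ[ℝ]) * β, ?_,
      by simp only [coe_neg, neg_mul]; abel⟩
    ext <;> simp [hre]
    · linear_combination (2 * (x.imI * β.imI + x.imJ * β.imJ + x.imK * β.imK)) * hnorm
    all_goals ring
  have pure : ∀ y : ℍ[ℝ], y * β = -(β * y) → star y = -y := by
    intro y hy
    have eI := congrArg QuaternionAlgebra.imI hy
    have eJ := congrArg QuaternionAlgebra.imJ hy
    have eK := congrArg QuaternionAlgebra.imK hy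
    simp [hre] at eI eJ eK
    rw [star_eq_neg]
    linear_combination (β.imI / 2) * eI + (β.imJ / 2) * eJ + (β.imK / 2) * eK - y.re * hnorm
  have fix : ∀ y : ℍ[ℝ], y * β = -(β * y) → φ y = y := by
    intro y hy
    by_contra hy'
    set w := y - φ y with hw
    have hw0 : w ≠ 0 := sub_ne_zero.2 (Ne.symm hy')
    have hφw : φ w = -w := by rw [hw, map_sub, hi]; abel
    have hwβ : w * β = -(β * w) := by
      have := congrArg φ hy
      rw [hm, map_neg, hm, hβ] at this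
      rw [hw, sub_mul, mul_sub, hy]
      rw [neg_mul, mul_neg, neg_neg] at this
      rw [← this]; abel
    have base : ∀ a c : ℝ, φ ((a : ℍ[ℝ]) + (c : ℍ[ℝ]) * β) = star ((a : ℍ[ℝ]) + (c : ℍ[ℝ]) * β) := by
      intro a c
      rw [map_add, hm, hr, hr, hβ, star_add, star_mul, hs, star_coe, star_coe]
    apply hne
    intro x
    obtain ⟨a, c, z, hz, rfl⟩ := dec x
    rw [map_add, base, star_add (_ + _)]
    congr 1
    obtain ⟨a', c', z', hz', e⟩ := dec (z * w⁻¹)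
    have hc : z * w⁻¹ * β = β * (z * w⁻¹) := by
      have : w⁻¹ * β = -(β * w⁻¹) := by
        rw [inv_mul_eq_iff_eq_mul₀ hw0, mul_neg, ← mul_assoc, hwβ]
        simp [mul_assoc, hw0]
      rw [mul_assoc, this, mul_neg, ← mul_assoc, hz]
      simp [mul_assoc]
    have hz0 : z' = 0 := by
      rw [e, add_mul, mul_add β, hz', add_mul, mul_add, coe_commutes, ← mul_assoc β,
        ← coe_commutes c', add_right_inj] at hc
      have : (2 : ℝ) • (β * z') = 0 := by rw [two_smul]; nth_rewrite 1 [← hc]; simp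
      have h2 := (smul_eq_zero.1 this).resolve_left two_ne_zero
      exact (mul_eq_zero.1 h2).resolve_left (fun h => by simp [h] at hn)
    rw [hz0, add_zero, mul_inv_eq_iff_eq_mul₀ hw0] at e
    rw [e, hm, base, star_mul, hφw, pure w hwβ]
  obtain ⟨a, c, y, hy, rfl⟩ := dec q
  rw [map_add, map_add, hm, hr, hr, hβ, fix y hy, star_add, star_add, star_mul, hs, star_coe,
    star_coe, pure y hy]
  have e1 : -β * (a : ℍ[ℝ]) * β = a := by
    rw [← coe_commutes, mul_assoc, neg_mul, hbb]; simp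
  have e2 : -β * (-β * (c : ℍ[ℝ])) * β = -β * c := by
    rw [← mul_assoc, neg_mul_neg, hbb, neg_mul, neg_mul, one_mul, coe_commutes, neg_mul]
  have e3 : -β * y * β = -y := by
    rw [mul_assoc, hy, neg_mul_neg, ← mul_assoc, hbb]; simp
  rw [mul_add, mul_add, add_mul, add_mul, e1, e2, e3]

theorem std (H A : Mat n) (hH : IsUnit H) (hs : Hᴴ = -H) (hA : H * A = -(Aᴴ * H))
    (S : Set ℍ[ℝ]) (hsim : ∀ l ∈ S, ∀ a : ℍ[ℝ], a ≠ 0 → a⁻¹ * l * a ∈ S)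
    (hdich : ∀ l : ℍ[ℝ], l.re ≠ 0 → l ∉ S → l ∈ Eig A ⊤ → -l ∈ S)
    (N : Sub n) (hN : Inv A N) (hN0 : Neutral star (H * A) N) (hNS : Eig0 A N ⊆ S) :
    (∃ L : Sub n, N ≤ L ∧ Inv A L ∧ Maximal (Nonneg fun x => form star (H * A) x x) L ∧
      Eig0 A L ⊆ S ∧ ∀ l ∈ S, -l ∉ S → l.re ≠ 0 → l ∈ Eig A ⊤ → l ∈ Eig0 A L) ∧
    (∃ L : Sub n, N ≤ L ∧ Inv A L ∧ Maximal (Nonpos fun x => form star (H * A) x x) L ∧
      Eig0 A L ⊆ S ∧ ∀ l ∈ S, -l ∉ S → l.re ≠ 0 → l ∈ Eig A ⊤ → l ∈ Eig0 A L) := by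
  let φ : ℍ[ℝ] →+ ℍ[ℝ] := (starAddEquiv : ℍ[ℝ] ≃+ ℍ[ℝ]).toAddMonoidHom
  have hm : ∀ x y, φ (x * y) = φ y * φ x := fun x y => star_mul x y
  have hi : ∀ x, φ (φ x) = x := fun x => star_star x
  have := both φ hm hi H A hH hA 1 one_ne_zero (fun x y => by
    have h := form_conj φ hm hi (H * A) x y
    have e : tr φ (H * A) = H * A := by
      change (H * A)ᴴ = _
      rw [conjTranspose_mul, hs, Matrix.mul_neg, ← hA]
    rw [e] at h
    rw [one_mul, one_mul]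
    exact h) S hsim hdich N hN hN0 hNS
  simp only [one_mul] at this
  exact this

theorem nstd {φ : ℍ[ℝ] →ₗ[ℝ] ℍ[ℝ]} (h : NonStd φ) {β : ℍ[ℝ]} (hβ : φ β = -β) (hn : ‖β‖ = 1)
    (H A : Mat n) (hH : IsUnit H) (hs : tr φ H = H) (hA : H * A = -(tr φ A * H))
    (S : Set ℍ[ℝ]) (hsim : ∀ l ∈ S, ∀ a : ℍ[ℝ], a ≠ 0 → a⁻¹ * l * a ∈ S)
    (hdich : ∀ l : ℍ[ℝ], l.re ≠ 0 → l ∉ S → l ∈ Eig A ⊤ → -l ∈ S)
    (N : Sub n) (hN : Inv A N) (hN0 : Neutral φ (H * A) N) (hNS : Eig0 A N ⊆ S) :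
    (∃ L : Sub n, N ≤ L ∧ Inv A L ∧ Maximal (Nonneg fun x => β⁻¹ * form φ (H * A) x x) L ∧
      Eig0 A L ⊆ S ∧ ∀ l ∈ S, -l ∉ S → l.re ≠ 0 → l ∈ Eig A ⊤ → l ∈ Eig0 A L) ∧
    (∃ L : Sub n, N ≤ L ∧ Inv A L ∧ Maximal (Nonpos fun x => β⁻¹ * form φ (H * A) x x) L ∧
      Eig0 A L ⊆ S ∧ ∀ l ∈ S, -l ∉ S → l.re ≠ 0 → l ∈ Eig A ⊤ → l ∈ Eig0 A L) := by
  have hβ0 : β ≠ 0 := fun h => by simp [h] at hn
  have hbb : β * β = -1 := by
    have := nonstd h hβ hn 1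
    rw [phi_one φ.toAddMonoidHom h.1 h.2.1 |> (fun e => (e : φ 1 = 1)), star_one, mul_one,
      neg_mul] at this
    exact neg_eq_iff_eq_neg.1 this.symm
  have hinv : β⁻¹ = -β := inv_eq_of_mul_eq_one_right (by rw [mul_neg, hbb, neg_neg])
  refine both φ.toAddMonoidHom h.1 h.2.1 H A hH hA β⁻¹ (inv_ne_zero hβ0) (fun x y => ?_)
    S hsim hdich N hN hN0 hNS
  have h1 := form_conj φ.toAddMonoidHom h.1 h.2.1 (H * A) x y
  have e : tr φ.toAddMonoidHom (H * A) = -(H * A) := by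
    rw [tr_mul φ.toAddMonoidHom h.1]
    change tr φ A * tr φ H = _
    rw [hs, hA, neg_neg]
  rw [e] at h1
  change φ (form φ (H * A) x y) = form φ (-(H * A)) y x at h1
  change star (β⁻¹ * form φ (H * A) x y) = β⁻¹ * form φ (H * A) y x
  rw [nonstd h hβ hn, h.1, h1, hinv, map_neg, hβ, neg_neg, mul_assoc, mul_assoc, hbb]
  simp [form, neg_mulVec]

end Pool.Agent.H29.QuatM
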