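import Mathlib

set_option autoImplicit false

namespace Pool.Agent.H29.Rec

open Set Relation

section abstract

variable {V ι : Type} (r : V → V → Prop) (O : ι → Prop)

def Valid (f : ι → V) : Prop := Function.Bijective (fun j : {i // O i} => f j)

def St (f g : ι → V) : Prop := Valid O f ∧ Valid O g ∧ ∀ i, r (f i) (g i)

open Classical in
noncomputable def act (σ : Equiv.Perm V) (f : ι → V) : ι → V := fun i => if O i then σ (f i) else f i

lemma act_valid {σ : Equiv.Perm V} {f : ι → V} (h : Valid O f) : Valid O (act O σ f) := by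
  have : (fun j : {i // O i} => act O σ f j) = σ ∘ (fun j : {i // O i} => f j) := by
    funext j; simp [act, j.2]
  unfold Valid
  rw [this]
  exact σ.bijective.comp h

lemma act_mul (σ τ : Equiv.Perm V) (f : ι → V) : act O (σ * τ) f = act O σ (act O τ f) := by
  funext i
  by_cases h : O i <;> simp [act, h]

lemma act_one (f : ι → V) : act O 1 f = f := by
  funext i; simp [act]

variable {r}

lemma swap_adj [DecidableEq V] (hr : ∀ a, r a a) (hs : ∀ a b, r a b → r b a) {a b : V} (h : r a b)
    (f : ι → V) (hf : Valid O f) : ReflTransGen (St r O) f (act O (Equiv.swap a b) f) := by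
  refine ReflTransGen.single ⟨hf, act_valid O hf, fun i => ?_⟩
  unfold act
  split_ifs
  · rw [Equiv.swap_apply_def]
    split_ifs with h1 h2
    · rw [h1]; exact h
    · rw [h2]; exact hs _ _ h
    · exact hr _
  · exact hr _

lemma swap_conn [DecidableEq V] (hr : ∀ a, r a a) (hs : ∀ a b, r a b → r b a) {a c : V}
    (h : ReflTransGen r a c) :
    ∀ f : ι → V, Valid O f → ReflTransGen (St r O) f (act O (Equiv.swap a c) f) := by
  induction h using ReflTransGen.head_induction_on with
  | refl => intro f _; rw [Equiv.swap_self, ← Equiv.Perm.one_def, act_one]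
  | @head a b hab _ ih =>
    intro f hf
    by_cases h1 : c = a
    · rw [h1, Equiv.swap_self, ← Equiv.Perm.one_def, act_one]
    by_cases h2 : c = b
    · rw [h2]; exact swap_adj O hr hs hab f hf
    rw [← Equiv.swap_mul_swap_mul_swap h2 h1, act_mul, act_mul, Equiv.swap_comm c b]
    have e1 := swap_adj O hr hs (hs _ _ hab) f hf
    have e2 := ih _ (act_valid O (σ := Equiv.swap b a) hf)
    have e3 := swap_adj O hr hs (hs _ _ hab) _
      (act_valid O (σ := Equiv.swap b c) (act_valid O (σ := Equiv.swap b a) hf))
    exact (e1.trans e2).trans e3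

lemma conn_all [Finite V] [Finite ι] (hr : ∀ a, r a a) (hs : ∀ a b, r a b → r b a)
    (hc : ∀ a b, ReflTransGen r a b) (f g : ι → V) (hf : Valid O f) (hg : Valid O g) :
    ReflTransGen (St r O) f g := by
  classical
  have h1 : ∀ σ : Equiv.Perm V, ReflTransGen (St r O) f (act O σ f) := by
    intro σ
    induction σ using Equiv.Perm.swap_induction_on with
    | one => rw [act_one]
    | swap_mul σ x y _ ih =>
      rw [act_mul]
      exact ih.trans (swap_conn O hr hs (hc x y) _ (act_valid O hf))
  let σ : Equiv.Perm V := (Equiv.ofBijective _ hf).symm.trans (Equiv.ofBijective _ hg)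
  have h2 : ∀ i, O i → act O σ f i = g i := by
    intro i hi
    have : (Equiv.ofBijective _ hf).symm (f i) = ⟨i, hi⟩ :=
      (Equiv.ofBijective _ hf).symm_apply_apply ⟨i, hi⟩
    simp [act, hi, σ, this]
  refine (h1 σ).trans ?_
  generalize act O σ f = f' at h2
  have hv : ∀ f'' : ι → V, (∀ i, O i → f'' i = g i) → Valid O f'' := by
    intro f'' h
    have : (fun j : {i // O i} => f'' j) = fun j : {i // O i} => g j := funext fun j => h j j.2
    unfold Valid
    rw [this]; exact hg
  have h3 : ∀ s : Finset ι, ReflTransGen (St r O) f' (fun i => if i ∈ s then g i else f' i) := by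
    intro s
    induction s using Finset.induction_on with
    | empty => simp; exact ReflTransGen.refl
    | insert j s hj ih =>
      refine ih.trans ?_
      by_cases hO : O j
      · have : (fun i => if i ∈ insert j s then g i else f' i) =
            fun i => if i ∈ s then g i else f' i := by
          funext i
          by_cases h : i = j
          · subst h; simp [h2 i hO]
          · simp [h]
        rw [this]
      · have h4 : ∀ a b, ReflTransGen r a b → ReflTransGen (St r O)
            (Function.update (fun i => if i ∈ s then g i else f' i) j a)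
            (Function.update (fun i => if i ∈ s then g i else f' i) j b) := by
          have hv' : ∀ a, Valid O (Function.update (fun i => if i ∈ s then g i else f' i) j a) := by
            intro a
            refine hv _ fun i hi => ?_
            rw [Function.update_of_ne (by rintro rfl; exact hO hi)]
            split_ifs
            · rfl
            · exact h2 i hi
          intro a b hab
          induction hab with
          | refl => exact ReflTransGen.refl
          | tail _ hbc ih =>
            refine ih.tail ⟨hv' _, hv' _, fun i => ?_⟩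
            by_cases h : i = j
            · subst h; simpa using hbc
            · simp [h, hr]
        have := h4 _ _ (hc (f' j) (g j))
        convert this using 1
        · funext i
          by_cases h : i = j
          · subst h; simp [hj]
          · simp [h]
        · funext i
          by_cases h : i = j
          · subst h; simp
          · simp [h]
  have := Fintype.ofFinite ι
  simpa using h3 Finset.univ

lemma tau_one (W : Set V) (hs : ∀ a b, r a b → r b a) (hr : ∀ a, r a a) {u u' : V}
    (h : ReflTransGen (fun a b => a ∈ W ∧ b ∈ W ∧ r a b) u u') :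
    ∃ τ : Equiv.Perm V, τ u = u' ∧ ∀ v, v ≠ u → (τ v = v ∨ (v ∈ W ∧ τ v ∈ W ∧ r v (τ v))) := by
  classical
  let G : SimpleGraph V := SimpleGraph.fromRel (fun a b => a ∈ W ∧ b ∈ W ∧ r a b)
  have hG : ∀ a b, G.Adj a b → a ∈ W ∧ b ∈ W ∧ r a b := by
    intro a b hab
    rcases ((SimpleGraph.fromRel_adj _ _ _).mp hab).2 with h | h
    · exact h
    · exact ⟨h.2.1, h.1, hs _ _ h.2.2⟩
  have h1 : G.Reachable u u' := by
    induction h with
    | refl => rfl
    | @tail b c _ hbc ih =>
      by_cases e : b = c
      · rwa [← e]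
      · exact ih.trans (SimpleGraph.Adj.reachable ((SimpleGraph.fromRel_adj _ _ _).mpr
          ⟨e, Or.inl hbc⟩))
  obtain ⟨p, hp⟩ := h1.exists_isPath
  have h2 : ∀ {a b : V} (p : G.Walk a b), p.IsPath → ∃ τ : Equiv.Perm V, τ a = b ∧
      (∀ v, v ≠ a → (τ v = v ∨ G.Adj v (τ v))) ∧ ∀ v, v ∉ p.support → τ v = v := by
    intro a b p
    induction p with
    | nil => exact fun _ => ⟨1, rfl, fun v _ => Or.inl rfl, fun _ _ => rfl⟩
    | @cons a a1 b hadj p ih =>
      intro hp
      rw [SimpleGraph.Walk.cons_isPath_iff] at hp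
      obtain ⟨τ, t1, t2, t3⟩ := ih hp.1
      refine ⟨τ * Equiv.swap a a1, by simp [t1], fun v hv => ?_, fun v hv => ?_⟩
      · by_cases e : v = a1
        · right
          rw [e]
          simp [t3 a hp.2, hadj.symm]
        · rw [Equiv.Perm.mul_apply, Equiv.swap_apply_of_ne_of_ne hv e]
          exact t2 v e
      · rw [SimpleGraph.Walk.support_cons, List.mem_cons, not_or] at hv
        have e : v ≠ a1 := by
          rintro rfl
          exact hv.2 p.start_mem_support
        rw [Equiv.Perm.mul_apply, Equiv.swap_apply_of_ne_of_ne hv.1 e]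
        exact t3 v hv.2
  obtain ⟨τ, t1, t2, -⟩ := h2 p hp
  exact ⟨τ, t1, fun v hv => (t2 v hv).imp id (hG _ _)⟩

lemma tau_all (W : Set V) (hs : ∀ a b, r a b → r b a) (hr : ∀ a, r a a)
    (h : ∀ u ∈ W, ∀ u' ∈ W, ReflTransGen (fun a b => a ∈ W ∧ b ∈ W ∧ r a b) u u') :
    ∃ τ : V → V → Equiv.Perm V, ∀ u ∈ W, ∀ u' ∈ W, τ u u' u = u' ∧
      (∀ v ∈ W, τ u u' v ∈ W) ∧ (∀ v, v ≠ u → r v (τ u u' v)) ∧ ∀ v, τ u' u (τ u u' v) = v := by
  classical
  have h1 : ∀ u u', ∃ τ : Equiv.Perm V, u ∈ W → u' ∈ W → τ u = u' ∧
      ∀ v, v ≠ u → (τ v = v ∨ (v ∈ W ∧ τ v ∈ W ∧ r v (τ v))) := by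
    intro u u'
    by_cases hu : u ∈ W ∧ u' ∈ W
    · obtain ⟨τ, ht⟩ := tau_one W hs hr (h u hu.1 u' hu.2)
      exact ⟨τ, fun _ _ => ht⟩
    · exact ⟨1, fun a b => absurd ⟨a, b⟩ hu⟩
  choose t ht using h1
  obtain ⟨_, -⟩ := exists_wellOrder V
  refine ⟨fun u u' => if u < u' then t u u' else if u' < u then (t u' u)⁻¹ else 1,
    fun u hu u' hu' => ?_⟩
  rcases lt_trichotomy u u' with e | e | e
  · simp only [e, if_true, not_lt.mpr e.le, if_false]
    obtain ⟨a1, a2⟩ := ht u u' hu hu'
    refine ⟨a1, fun v hv => ?_, fun v hv => ?_, fun v => by simp⟩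
    · by_cases e : v = u
      · rwa [e, a1]
      · rcases a2 v e with h | h
        · rwa [h]
        · exact h.2.1
    · rcases a2 v hv with h | h
      · rw [h]; exact hr _
      · exact h.2.2
  · subst e
    simp only [lt_irrefl, if_false]
    exact ⟨rfl, fun v hv => hv, fun v _ => hr _, fun v => rfl⟩
  · simp only [e, if_true, not_lt.mpr e.le, if_false]
    obtain ⟨a1, a2⟩ := ht u' u hu' hu
    have b1 : (t u' u)⁻¹ u = u' := by rw [Equiv.Perm.inv_eq_iff_eq, a1]
    have b2 : ∀ v, v ≠ u → (t u' u)⁻¹ v = v ∨ ((t u' u)⁻¹ v ∈ W ∧ r ((t u' u)⁻¹ v) v) := by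
      intro v hv
      have := a2 ((t u' u)⁻¹ v) (by
        intro h
        apply hv
        rw [Equiv.Perm.inv_eq_iff_eq] at h
        rw [h, a1])
      simp only [Equiv.Perm.coe_inv, Equiv.apply_symm_apply] at this
      rcases this with h | h
      · exact Or.inl h.symm
      · exact Or.inr ⟨h.1, h.2.2⟩
    refine ⟨b1, fun v hv => ?_, fun v hv => ?_, fun v => by simp⟩
    · by_cases e : v = u
      · rwa [e, b1]
      · rcases b2 v e with h | h
        · rwa [h]
        · exact h.1
    · rcases b2 v hv with h | h
      · rw [h]; exact hr _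
      · exact hs _ _ h.2

end abstract

end Pool.Agent.H29.Rec
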