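import Mathlib
import Pool.Agent.H29.Rec1

set_option autoImplicit false

namespace Pool.Agent.H29.Rec

open Set Relation

abbrev A := Bool × Bool
abbrev Om := ℤ → A

def pi (a : A) : A := (!a.1, a.2)

lemma pi_pi (a : A) : pi (pi a) = a := by simp [pi]
lemma ne_pi (a : A) : a ≠ pi a := by revert a; decide

def ap (u v : Om) : Prop := ∀ j, v j ≠ pi (u j)

lemma ap_refl (u : Om) : ap u u := fun j => ne_pi _
lemma ap_symm (u v : Om) (h : ap u v) : ap v u := fun j e => h j (by rw [e, pi_pi])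

def blk (L : ℤ) (x : Om) (s : ℤ) : Om := fun j => x (s + j % L)

def Od (m : ℕ) : Set ℤ := {i | 0 ≤ i ∧ i < 2 * m + 1 ∧ i % 2 = 1}

noncomputable def P : ℕ → ℤ × Set Om
  | 0 => (1, {w | ∀ j, w j = w (j % 1)})
  | k + 1 => ((2 * ((P k).2.ncard : ℤ) + 1) * (P k).1,
      {w | (∀ j, w j = w (j % ((2 * ((P k).2.ncard : ℤ) + 1) * (P k).1))) ∧
        (∀ i : ℤ, 0 ≤ i → i < 2 * ((P k).2.ncard : ℤ) + 1 → blk (P k).1 w (i * (P k).1) ∈ (P k).2) ∧
        BijOn (fun i => blk (P k).1 w (i * (P k).1)) (Od (P k).2.ncard) (P k).2})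

noncomputable def L (k : ℕ) : ℤ := (P k).1
noncomputable def W (k : ℕ) : Set Om := (P k).2
noncomputable def m (k : ℕ) : ℕ := (W k).ncard
noncomputable def b (k : ℕ) : ℤ := 2 * (m k : ℤ) + 1
noncomputable def sl (k : ℕ) (w : Om) (i : ℤ) : Om := blk (L k) w (i * L k)

lemma L_zero : L 0 = 1 := rfl
lemma L_succ (k : ℕ) : L (k + 1) = b k * L k := rfl
lemma mem_zero {w : Om} : w ∈ W 0 ↔ ∀ j, w j = w (j % 1) := Iff.rfl
lemma mem_succ {k : ℕ} {w : Om} : w ∈ W (k + 1) ↔ (∀ j, w j = w (j % L (k + 1))) ∧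
    (∀ i, 0 ≤ i → i < b k → sl k w i ∈ W k) ∧ BijOn (sl k w) (Od (m k)) (W k) := Iff.rfl

lemma b_pos (k : ℕ) : 0 < b k := by unfold b; positivity

lemma L_pos (k : ℕ) : 0 < L k := by
  induction k with
  | zero => simp [L_zero]
  | succ k ih => rw [L_succ]; exact mul_pos (b_pos k) ih

lemma L_dvd_succ (k : ℕ) : L k ∣ L (k + 1) := Dvd.intro_left _ (L_succ k).symm

lemma L_dvd {k K : ℕ} (h : k ≤ K) : L k ∣ L K := by
  induction h with
  | refl => exact dvd_rfl
  | step _ ih => exact ih.trans (L_dvd_succ _)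

lemma per {k : ℕ} {w : Om} (h : w ∈ W k) (j : ℤ) : w j = w (j % L k) := by
  cases k with
  | zero => exact h j
  | succ k => exact h.1 j

lemma per' {k : ℕ} {w : Om} (h : w ∈ W k) {i j : ℤ} (e : i % L k = j % L k) : w i = w j := by
  rw [per h i, per h j, e]

lemma W_fin (k : ℕ) : (W k).Finite := by
  have hf : (Set.Ico (0 : ℤ) (L k)).Finite := Set.finite_Ico _ _
  haveI := hf.to_subtype
  refine Set.Finite.of_injOn (f := fun (w : Om) (j : Set.Ico (0 : ℤ) (L k)) => w j) (t := univ)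
    (mapsTo_univ _ _) (fun u hu v hv h => ?_) finite_univ
  funext j
  rw [per hu, per hv]
  exact congrFun h ⟨j % L k, Int.emod_nonneg _ (L_pos k).ne', Int.emod_lt_of_pos _ (L_pos k)⟩

noncomputable def asm (k : ℕ) (f : ℤ → Om) : Om := fun j => f ((j % L (k + 1)) / L k) j

lemma idx_range (k : ℕ) (j : ℤ) : 0 ≤ (j % L (k + 1)) / L k ∧ (j % L (k + 1)) / L k < b k := by
  constructor
  · exact Int.ediv_nonneg (Int.emod_nonneg _ (L_pos _).ne') (L_pos _).le
  · rw [Int.ediv_lt_iff_lt_mul (L_pos k), ← L_succ]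
    exact Int.emod_lt_of_pos _ (L_pos _)

lemma slot_pos {k : ℕ} {i : ℤ} (h0 : 0 ≤ i) (h1 : i < b k) (j : ℤ) :
    0 ≤ i * L k + j % L k ∧ i * L k + j % L k < L (k + 1) := by
  have a1 := Int.emod_nonneg j (L_pos k).ne'
  have a2 := Int.emod_lt_of_pos j (L_pos k)
  have a3 := L_pos k
  rw [L_succ]
  constructor
  · positivity
  · nlinarith

lemma sl_asm {k : ℕ} {f : ℤ → Om} {i : ℤ} (h0 : 0 ≤ i) (h1 : i < b k) (hf : f i ∈ W k) :
    sl k (asm k f) i = f i := by
  funext j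
  obtain ⟨a1, a2⟩ := slot_pos h0 h1 j
  have e : (i * L k + j % L k) / L k = i := by
    rw [add_comm, Int.add_mul_ediv_right _ _ (L_pos k).ne', Int.ediv_eq_zero_of_lt
      (Int.emod_nonneg j (L_pos k).ne') (Int.emod_lt_of_pos j (L_pos k)), zero_add]
  simp only [sl, blk, asm]
  rw [Int.emod_eq_of_lt a1 a2, e]
  refine per' hf ?_
  rw [add_comm, Int.add_mul_emod_self_right, Int.emod_emod_of_dvd _ dvd_rfl]

lemma sl_apply (k : ℕ) (w : Om) (j : ℤ) (hw : ∀ j, w j = w (j % L (k + 1))) :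
    sl k w ((j % L (k + 1)) / L k) j = w j := by
  simp only [sl, blk]
  rw [hw j, ← Int.emod_emod_of_dvd j (L_dvd_succ k), mul_comm, Int.mul_ediv_add_emod]

lemma asm_mem {k : ℕ} {f : ℤ → Om} (h1 : ∀ i, 0 ≤ i → i < b k → f i ∈ W k)
    (h2 : BijOn f (Od (m k)) (W k)) : asm k f ∈ W (k + 1) := by
  refine mem_succ.mpr ⟨fun j => ?_, fun i a1 a2 => ?_, ?_⟩
  · simp only [asm]
    rw [Int.emod_emod_of_dvd _ dvd_rfl]
    refine per' (h1 _ (idx_range k j).1 (idx_range k j).2) ?_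
    rw [Int.emod_emod_of_dvd j (L_dvd_succ k)]
  · rw [sl_asm a1 a2 (h1 i a1 a2)]; exact h1 i a1 a2
  · exact h2.congr fun i hi => (sl_asm hi.1 hi.2.1 (h1 i hi.1 hi.2.1)).symm

lemma Od_card (n : ℕ) : (Od n).ncard = n := by
  have : Od n = (fun j : ℕ => 2 * (j : ℤ) + 1) '' (Finset.range n : Set ℕ) := by
    ext i
    simp only [Od, mem_setOf_eq, mem_image, Finset.coe_range, mem_Iio]
    constructor
    · rintro ⟨a, b, c⟩
      exact ⟨(i / 2).toNat, by omega, by omega⟩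
    · rintro ⟨j, a, rfl⟩
      omega
  rw [this, ncard_image_of_injective _ (fun a b h => by simpa using h), ncard_coe_finset,
    Finset.card_range]

lemma Od_fin (n : ℕ) : (Od n).Finite :=
  (Set.finite_Ico (0 : ℤ) (2 * n + 1)).subset fun _ h => ⟨h.1, h.2.1⟩

lemma triple {k : ℕ} {u0 u1 u2 : Om} (h0 : u0 ∈ W k) (h1 : u1 ∈ W k) (h2 : u2 ∈ W k) :
    ∃ w ∈ W (k + 1), sl k w 0 = u0 ∧ sl k w 1 = u1 ∧ sl k w 2 = u2 := by
  classical
  have hm : 0 < m k := (ncard_pos (W_fin k)).mpr ⟨_, h0⟩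
  have hb : 3 ≤ b k := by unfold b; omega
  have h1O : (1 : ℤ) ∈ Od (m k) := ⟨by norm_num, by omega, by norm_num⟩
  haveI := (Od_fin (m k)).fintype
  haveI := (W_fin k).fintype
  have e0 : Od (m k) ≃ W k := Fintype.equivOfCardEq (by
    rw [← Nat.card_eq_fintype_card, ← Nat.card_eq_fintype_card, Nat.card_coe_set_eq,
      Nat.card_coe_set_eq, Od_card]; rfl)
  let e : Od (m k) ≃ W k := e0.trans (Equiv.swap (e0 ⟨1, h1O⟩) ⟨u1, h1⟩)
  let f : ℤ → Om := fun i => if h : i ∈ Od (m k) then (e ⟨i, h⟩ : Om) else if i = 2 then u2 else u0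
  have hf : ∀ i, f i ∈ W k := by
    intro i
    simp only [f]
    split_ifs
    · exact (e _).2
    · exact h2
    · exact h0
  have hbij : BijOn f (Od (m k)) (W k) := by
    refine ⟨fun i _ => hf i, fun i hi j hj h => ?_, fun w hw => ?_⟩
    · simp only [f, dif_pos hi, dif_pos hj] at h
      exact congrArg Subtype.val (e.injective (Subtype.ext h))
    · refine ⟨(e.symm ⟨w, hw⟩).1, (e.symm ⟨w, hw⟩).2, ?_⟩
      simp only [f, dif_pos (e.symm ⟨w, hw⟩).2]
      simp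
  refine ⟨asm k f, asm_mem (fun i _ _ => hf i) hbij, ?_, ?_, ?_⟩
  · rw [sl_asm le_rfl (by omega) (hf _)]
    simp [f, Od]
  · rw [sl_asm (by norm_num) (by omega) (hf _)]
    simp [f, h1O, e]
  · rw [sl_asm (by norm_num) (by omega) (hf _)]
    simp [f, Od]

lemma W_ne (k : ℕ) : (W k).Nonempty := by
  induction k with
  | zero => exact ⟨fun _ => (true, true), fun _ => rfl⟩
  | succ k ih =>
    obtain ⟨u, hu⟩ := ih
    obtain ⟨w, hw, -⟩ := triple hu hu hu
    exact ⟨w, hw⟩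

lemma b_ge (k : ℕ) : 3 ≤ b k := by
  have hm : 0 < m k := (ncard_pos (W_fin k)).mpr (W_ne k)
  unfold b; omega

lemma L_gt (k : ℕ) : (k : ℤ) < L k := by
  induction k with
  | zero => simp [L_zero]
  | succ k ih =>
    rw [L_succ]
    have := b_ge k
    have := L_pos k
    push_cast
    nlinarith

lemma blk_blk {k K : ℕ} (h : k ≤ K) (x : Om) (s t : ℤ) (ht : L k ∣ t) :
    blk (L k) (blk (L K) x s) t = blk (L k) x (s + t % L K) := by
  funext j
  simp only [blk]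
  congr 1
  obtain ⟨c, hc⟩ := L_dvd h
  have a1 := Int.emod_nonneg j (L_pos k).ne'
  have a2 := Int.emod_lt_of_pos j (L_pos k)
  have a3 := Int.emod_nonneg t (L_pos K).ne'
  have a4 := Int.emod_lt_of_pos t (L_pos K)
  obtain ⟨d, hd⟩ : L k ∣ t % L K := by
    rw [Int.emod_def]
    exact dvd_sub ht ((L_dvd h).mul_right _)
  have a5 : d < c := by
    rw [hd, hc] at a4
    exact lt_of_mul_lt_mul_left a4 (L_pos k).le
  rw [add_assoc, ← Int.emod_add_emod t, Int.emod_eq_of_lt (by omega)]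
  have := L_pos k
  rw [hd, hc]
  nlinarith

lemma blk_self {k : ℕ} {w : Om} (h : w ∈ W k) {s : ℤ} (hs : L k ∣ s) : blk (L k) w s = w := by
  funext j
  refine per' h ?_
  obtain ⟨c, rfl⟩ := hs
  rw [add_comm, Int.add_mul_emod_self_left, Int.emod_emod_of_dvd _ dvd_rfl]

lemma sub_blk {k K : ℕ} (h : k ≤ K) {w : Om} (hw : w ∈ W K) {s : ℤ} (hs : L k ∣ s) :
    blk (L k) w s ∈ W k := by
  induction h generalizing w s with
  | refl => rwa [blk_self hw hs]
  | @step K h ih =>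
    have h1 := (mem_succ.mp hw).2.1 _ (idx_range K s).1 (idx_range K s).2
    have h2 := ih h1 hs
    rw [sl, blk_blk h _ _ _ hs, ← Int.emod_emod_of_dvd s (L_dvd_succ K), mul_comm,
      Int.mul_ediv_add_emod] at h2
    rw [← blk_self hw (dvd_zero _), blk_blk (Nat.le.step h) _ _ _ hs, zero_add]
    exact h2

lemma conn (k : ℕ) : ∀ u ∈ W k, ∀ u' ∈ W k,
    ReflTransGen (fun a b => a ∈ W k ∧ b ∈ W k ∧ ap a b) u u' := by
  induction k with
  | zero =>
    intro u hu u' hu'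
    have hc : ∀ w ∈ W 0, ∀ j, w j = w 0 := fun w hw j => by simpa using hw j
    refine ReflTransGen.tail
      (b := fun _ => ((u 0).1, !(u' 0).2)) (ReflTransGen.single ⟨hu, fun _ => rfl, fun j => ?_⟩)
        ⟨fun _ => rfl, hu', fun j => ?_⟩
    · rw [hc u hu j]; simp [pi]
    · rw [hc u' hu' j]; simp [pi, Prod.ext_iff]
  | succ k ih =>
    intro u hu u' hu'
    haveI := (W_fin k).to_subtype
    haveI : Finite (Set.Ico (0 : ℤ) (b k)) := (Set.finite_Ico _ _).to_subtype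
    let r : W k → W k → Prop := fun a b => ap a.1 b.1
    let O : Set.Ico (0 : ℤ) (b k) → Prop := fun i => i.1 % 2 = 1
    have hc : ∀ a c : W k, ReflTransGen r a c := by
      have : ∀ a c, ReflTransGen (fun a b => a ∈ W k ∧ b ∈ W k ∧ ap a b) a c →
          ∀ (ha : a ∈ W k) (hc : c ∈ W k), ReflTransGen r ⟨a, ha⟩ ⟨c, hc⟩ := by
        intro a c h ha
        induction h with
        | refl => exact fun _ => ReflTransGen.refl
        | tail _ h ih => exact fun hc => (ih h.1).tail h.2.2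
      exact fun a c => this _ _ (ih _ a.2 _ c.2) a.2 c.2
    classical
    let up : (Set.Ico (0 : ℤ) (b k) → W k) → ℤ → Om := fun f i =>
      if h : i ∈ Set.Ico (0 : ℤ) (b k) then (f ⟨i, h⟩ : Om) else u
    have hup : ∀ f i (h0 : 0 ≤ i) (h1 : i < b k), up f i = f ⟨i, h0, h1⟩ :=
      fun f i h0 h1 => dif_pos ⟨h0, h1⟩
    have hval : ∀ f, Valid O f → asm k (up f) ∈ W (k + 1) := by
      intro f hf
      refine asm_mem (fun i h0 h1 => by rw [hup f i h0 h1]; exact (f _).2)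
        ⟨fun i hi => by rw [hup f i hi.1 hi.2.1]; exact (f _).2, fun i hi j hj h => ?_,
          fun w hw => ?_⟩
      · rw [hup f i hi.1 hi.2.1, hup f j hj.1 hj.2.1] at h
        have := hf.1 (a₁ := ⟨⟨i, hi.1, hi.2.1⟩, hi.2.2⟩) (a₂ := ⟨⟨j, hj.1, hj.2.1⟩, hj.2.2⟩)
          (Subtype.ext h)
        simpa using this
      · obtain ⟨i, hi⟩ := hf.2 ⟨w, hw⟩
        refine ⟨i.1.1, ⟨i.1.2.1, i.1.2.2, i.2⟩, ?_⟩
        rw [hup f _ i.1.2.1 i.1.2.2]
        exact congrArg Subtype.val hi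
    let dn : ∀ w ∈ W (k + 1), Set.Ico (0 : ℤ) (b k) → W k := fun w hw i =>
      ⟨sl k w i.1, (mem_succ.mp hw).2.1 _ i.2.1 i.2.2⟩
    have hdn : ∀ w hw, Valid O (dn w hw) := by
      intro w hw
      have hb := (mem_succ.mp hw).2.2
      constructor
      · intro i j h
        have := hb.injOn ⟨i.1.2.1, i.1.2.2, i.2⟩ ⟨j.1.2.1, j.1.2.2, j.2⟩ (congrArg Subtype.val h)
        exact Subtype.ext (Subtype.ext this)
      · intro v
        obtain ⟨i, hi, e⟩ := hb.surjOn v.2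
        exact ⟨⟨⟨i, hi.1, hi.2.1⟩, hi.2.2⟩, Subtype.ext e⟩
    have hud : ∀ w hw, asm k (up (dn w hw)) = w := by
      intro w hw
      funext j
      simp only [asm]
      rw [hup _ _ (idx_range k j).1 (idx_range k j).2]
      exact sl_apply k w j (mem_succ.mp hw).1
    have h1 := conn_all O (r := r) (fun a => ap_refl _) (fun a b => ap_symm _ _) hc _ _
      (hdn u hu) (hdn u' hu')
    have h2 : ∀ f g, ReflTransGen (St r O) f g → ReflTransGen
        (fun a b => a ∈ W (k + 1) ∧ b ∈ W (k + 1) ∧ ap a b) (asm k (up f)) (asm k (up g)) := by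
      intro f g h
      induction h with
      | refl => exact ReflTransGen.refl
      | tail _ h ih =>
        refine ih.tail ⟨hval _ h.1, hval _ h.2.1, fun j => ?_⟩
        simp only [asm]
        rw [hup _ _ (idx_range k j).1 (idx_range k j).2, hup _ _ (idx_range k j).1 (idx_range k j).2]
        exact h.2.2 _ j
    simpa only [hud] using h2 _ _ h1

lemma tau_ex (k : ℕ) : ∃ τ : Om → Om → Equiv.Perm Om, ∀ u ∈ W k, ∀ u' ∈ W k, τ u u' u = u' ∧
      (∀ v ∈ W k, τ u u' v ∈ W k) ∧ (∀ v, v ≠ u → ap v (τ u u' v)) ∧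
        ∀ v, τ u' u (τ u u' v) = v :=
  tau_all (W k) ap_symm ap_refl (conn k)

noncomputable def tau (k : ℕ) : Om → Om → Equiv.Perm Om := (tau_ex k).choose

lemma tau_spec (k : ℕ) : ∀ u ∈ W k, ∀ u' ∈ W k, tau k u u' u = u' ∧
      (∀ v ∈ W k, tau k u u' v ∈ W k) ∧ (∀ v, v ≠ u → ap v (tau k u u' v)) ∧
        ∀ v, tau k u' u (tau k u u' v) = v := (tau_ex k).choose_spec

noncomputable def nw (k : ℕ) (w : Om) (i : ℤ) (u' : Om) : ℤ → Om := fun i' =>
  if i' = i then u' else if i % 2 = 1 ∧ i' % 2 = 1 then tau k (sl k w i) u' (sl k w i')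
    else sl k w i'

noncomputable def c : ℕ → Om → ℤ → Om
  | 0, w, _ => fun j => pi (w j)
  | k + 1, w, o => asm k (nw k w (o / L k) (c k (sl k w (o / L k)) (o % L k)))

lemma div_range {k : ℕ} {o : ℤ} (h0 : 0 ≤ o) (h1 : o < L (k + 1)) :
    0 ≤ o / L k ∧ o / L k < b k := by
  have := idx_range k o
  rwa [Int.emod_eq_of_lt h0 h1] at this

lemma nw_mem {k : ℕ} {w : Om} (hw : w ∈ W (k + 1)) {i : ℤ} (h0 : 0 ≤ i) (h1 : i < b k) {u' : Om}
    (hu : u' ∈ W k) : (∀ i', 0 ≤ i' → i' < b k → nw k w i u' i' ∈ W k) ∧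
      BijOn (nw k w i u') (Od (m k)) (W k) := by
  obtain ⟨-, a2, a3⟩ := mem_succ.mp hw
  obtain ⟨t1, t2, t3, t4⟩ := tau_spec k _ (a2 i h0 h1) _ hu
  refine ⟨fun i' b0 b1 => ?_, ?_⟩
  · unfold nw
    split_ifs
    · exact hu
    · exact t2 _ (a2 _ b0 b1)
    · exact a2 _ b0 b1
  · by_cases hi : i % 2 = 1
    · have hb : BijOn (tau k (sl k w i) u') (W k) (W k) :=
        ((W_fin k).injOn_iff_bijOn_of_mapsTo t2).mp (Equiv.injective _).injOn
      refine (hb.comp a3).congr fun i' hi' => ?_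
      simp only [nw, Function.comp]
      split_ifs with e1 e2
      · rw [e1, t1]
      · rfl
      · exact absurd ⟨hi, hi'.2.2⟩ e2
    · refine a3.congr fun i' hi' => ?_
      simp only [nw]
      rw [if_neg (by rintro rfl; exact hi hi'.2.2), if_neg (fun h => hi h.1)]

lemma c_spec (k : ℕ) : ∀ w ∈ W k, ∀ o, 0 ≤ o → o < L k → c k w o ∈ W k ∧
    c k w o o = pi (w o) ∧ (∀ j, 0 ≤ j → j < L k → j ≠ o → c k w o j ≠ pi (w j)) ∧
    c k (c k w o) o = w := by
  induction k with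
  | zero =>
    intro w hw o h0 h1
    refine ⟨fun j => congrArg pi (hw j), rfl, fun j a1 a2 a3 => ?_, funext fun j => pi_pi _⟩
    rw [L_zero] at h1 a2
    omega
  | succ k ih =>
    intro w hw o h0 h1
    obtain ⟨a1, a2, a3⟩ := mem_succ.mp hw
    obtain ⟨d0, d1⟩ := div_range h0 h1
    have m0 := Int.emod_nonneg o (L_pos k).ne'
    have m1 := Int.emod_lt_of_pos o (L_pos k)
    obtain ⟨i1, i2, i3, i4⟩ := ih _ (a2 _ d0 d1) _ m0 m1
    obtain ⟨n1, n2⟩ := nw_mem hw d0 d1 i1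
    have hsl : ∀ j, 0 ≤ j → j < L (k + 1) → sl k w (j / L k) j = w j := by
      intro j j0 j1
      have := sl_apply k w j a1
      rwa [Int.emod_eq_of_lt j0 j1] at this
    have hc : ∀ j, 0 ≤ j → j < L (k + 1) → c (k + 1) w o j =
        nw k w (o / L k) (c k (sl k w (o / L k)) (o % L k)) (j / L k) j := by
      intro j j0 j1
      simp only [c, asm]
      rw [Int.emod_eq_of_lt j0 j1]
    refine ⟨asm_mem n1 n2, ?_, fun j j0 j1 hj => ?_, ?_⟩
    · rw [hc o h0 h1, nw, if_pos rfl, per i1, i2, ← per (a2 _ d0 d1), hsl o h0 h1]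
    · rw [hc j j0 j1, ← hsl j j0 j1, nw]
      split_ifs with e1 e2
      · rw [per i1, e1, per (a2 _ d0 d1) j]
        refine i3 _ (Int.emod_nonneg _ (L_pos k).ne') (Int.emod_lt_of_pos _ (L_pos k)) fun h => hj ?_
        rw [← Int.mul_ediv_add_emod j (L k), ← Int.mul_ediv_add_emod o (L k), e1, h]
      · obtain ⟨e0, e0'⟩ := div_range j0 j1
        exact (tau_spec k _ (a2 _ d0 d1) _ i1).2.2.1 _
          (fun h => e1 (a3.injOn ⟨e0, e0', e2.2⟩ ⟨d0, d1, e2.1⟩ h)) j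
      · exact ne_pi _
    · have hs : ∀ i, 0 ≤ i → i < b k → sl k (c (k + 1) w o) i =
          nw k w (o / L k) (c k (sl k w (o / L k)) (o % L k)) i :=
        fun i b0 b1 => sl_asm b0 b1 (n1 i b0 b1)
      funext j
      obtain ⟨e0, e1⟩ := idx_range k j
      rw [← sl_apply k w j a1]
      conv_lhs => rw [c, asm]
      generalize (j % L (k + 1)) / L k = i at *
      have hs0 : sl k (c (k + 1) w o) (o / L k) = c k (sl k w (o / L k)) (o % L k) := by
        rw [hs _ d0 d1, nw, if_pos rfl]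
      rw [nw, hs0, i4, hs i e0 e1, nw]
      split_ifs with f1 f2
      · rw [f1]
      · exact congrFun ((tau_spec k _ (a2 _ d0 d1) _ i1).2.2.2 _) j
      · rfl

lemma c_same {k : ℕ} (w : Om) {o j : ℤ} (j0 : 0 ≤ j) (j1 : j < L (k + 1))
    (h : j / L k = o / L k) : c (k + 1) w o j = c k (sl k w (o / L k)) (o % L k) j := by
  simp only [c, asm]
  rw [Int.emod_eq_of_lt j0 j1, nw, if_pos h]

lemma c_adj {k : ℕ} {w : Om} (hw : w ∈ W (k + 1)) {o j : ℤ} (j0 : 0 ≤ j) (j1 : j < L (k + 1))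
    (h : j / L k = o / L k + 1 ∨ j / L k = o / L k - 1) : c (k + 1) w o j = w j := by
  simp only [c, asm]
  rw [Int.emod_eq_of_lt j0 j1, nw, if_neg (by omega), if_neg (by omega)]
  have := sl_apply k w j (mem_succ.mp hw).1
  rwa [Int.emod_eq_of_lt j0 j1] at this

end Pool.Agent.H29.Rec
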