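import Mathlib
import Pool.Agent.H29.Rec2

set_option autoImplicit false

namespace Pool.Agent.H29.Rec

open Set Filter Topology

abbrev Amb := Om × (ℕ → ℤ)

def Sk (o : ℕ → ℤ) : Prop := ∀ k, 0 ≤ o k ∧ o k < L k ∧ o k = o (k + 1) % L k

def XK (K : ℕ) : Set Amb :=
  {p | Sk p.2 ∧ ∀ k ≤ K, ∀ s, L k ∣ s + p.2 k → blk (L k) p.1 s ∈ W k}

def XX : Set Amb := {p | Sk p.2 ∧ ∀ k, ∀ s, L k ∣ s + p.2 k → blk (L k) p.1 s ∈ W k}

lemma blk_cont (l s : ℤ) : Continuous fun p : Amb => blk l p.1 s := by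
  unfold blk
  fun_prop

lemma cl1 (k : ℕ) (Q : ℤ → Prop) : IsClosed {p : Amb | Q (p.2 k)} :=
  (isClosed_discrete {z | Q z}).preimage (show Continuous fun p : Amb => p.2 k by fun_prop)

lemma Sk_closed : IsClosed {p : Amb | Sk p.2} := by
  unfold Sk
  rw [setOf_forall]
  refine isClosed_iInter fun k => ?_
  exact (isClosed_discrete {z : ℤ × ℤ | 0 ≤ z.1 ∧ z.1 < L k ∧ z.1 = z.2 % L k}).preimage
    (show Continuous fun p : Amb => (p.2 k, p.2 (k + 1)) by fun_prop)

lemma cond_closed (k : ℕ) (s : ℤ) :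
    IsClosed {p : Amb | L k ∣ s + p.2 k → blk (L k) p.1 s ∈ W k} := by
  have : {p : Amb | L k ∣ s + p.2 k → blk (L k) p.1 s ∈ W k} =
      {p : Amb | ¬ L k ∣ s + p.2 k} ∪ (fun p : Amb => blk (L k) p.1 s) ⁻¹' W k := by
    ext p
    simp only [mem_setOf_eq, mem_union, mem_preimage]
    tauto
  rw [this]
  exact (cl1 k fun z => ¬ L k ∣ s + z).union ((W_fin k).isClosed.preimage (blk_cont _ _))

lemma XK_closed (K : ℕ) : IsClosed (XK K) := by
  refine Sk_closed.and ?_
  simp only [setOf_forall]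
  exact isClosed_iInter fun k => isClosed_iInter fun _ => isClosed_iInter fun s => by
    simpa only [setOf_forall] using cond_closed k s

lemma XK_compact (K : ℕ) : IsCompact (XK K) := by
  have h : IsCompact ((univ : Set Om) ×ˢ (univ.pi fun k : ℕ => Set.Ico (0 : ℤ) (L k))) :=
    isCompact_univ.prod (isCompact_univ_pi fun k => (Set.finite_Ico _ _).isCompact)
  exact h.of_isClosed_subset (XK_closed K) fun p hp =>
    ⟨trivial, fun k _ => ⟨(hp.1 k).1, (hp.1 k).2.1⟩⟩

lemma XX_eq : XX = ⋂ K, XK K := by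
  ext p
  simp only [mem_iInter]
  exact ⟨fun h K => ⟨h.1, fun k _ => h.2 k⟩, fun h => ⟨(h 0).1, fun k => (h k).2 k le_rfl⟩⟩

lemma XX_compact : IsCompact XX := by
  rw [XX_eq]
  exact (XK_compact 0).of_isClosed_subset (isClosed_iInter XK_closed) (iInter_subset _ 0)

lemma XX_ne : XX.Nonempty := by
  rw [XX_eq]
  refine IsCompact.nonempty_iInter_of_sequence_nonempty_isCompact_isClosed _
    (fun K p hp => ⟨hp.1, fun k hk => hp.2 k (by omega)⟩) (fun K => ?_) (XK_compact 0) XK_closed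
  obtain ⟨w, hw⟩ := W_ne K
  exact ⟨(w, 0), fun k => ⟨le_rfl, L_pos k, by simp⟩, fun k hk s hs =>
    sub_blk hk hw (by simpa using hs)⟩

lemma Sk.mod {o : ℕ → ℤ} (h : Sk o) {k K : ℕ} (hk : k ≤ K) : o k = o K % L k := by
  induction hk with
  | refl => rw [Int.emod_eq_of_lt (h k).1 (h k).2.1]
  | @step K hk ih => rw [ih, (h K).2.2, Int.emod_emod_of_dvd _ (L_dvd hk)]

lemma Sk.dvd {o : ℕ → ℤ} (h : Sk o) {k K : ℕ} (hk : k ≤ K) : L k ∣ o K - o k := by
  rw [h.mod hk]
  exact Int.dvd_self_sub_emod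

noncomputable def sh (n : ℤ) (p : Amb) : Amb := (fun j => p.1 (j + n), fun k => (p.2 k + n) % L k)

lemma sh_mem (n : ℤ) {p : Amb} (h : p ∈ XX) : sh n p ∈ XX := by
  refine ⟨fun k => ⟨Int.emod_nonneg _ (L_pos k).ne', Int.emod_lt_of_pos _ (L_pos k), ?_⟩,
    fun k s hs => ?_⟩
  · simp only [sh]
    rw [Int.emod_emod_of_dvd _ (L_dvd_succ k), (h.1 k).2.2, Int.emod_add_emod]
  · have : blk (L k) (sh n p).1 s = blk (L k) p.1 (s + n) := by
      funext j
      simp only [blk, sh]
      congr 1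
      ring
    rw [this]
    refine h.2 k _ ?_
    simp only [sh] at hs
    have e : s + n + p.2 k = s + (p.2 k + n) % L k + (p.2 k + n - (p.2 k + n) % L k) := by ring
    rw [e]
    exact dvd_add hs Int.dvd_self_sub_emod

lemma sh_sh (n n' : ℤ) (p : Amb) : sh n (sh n' p) = sh (n + n') p := by
  simp only [sh, Int.emod_add_emod]
  congr 1
  · funext j; rw [add_assoc]
  · funext k; congr 1; ring

lemma sh_zero {p : Amb} (h : p ∈ XX) : sh 0 p = p := by
  simp only [sh, add_zero]
  refine Prod.ext rfl (funext fun k => Int.emod_eq_of_lt (h.1 k).1 (h.1 k).2.1)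

lemma sh_cont (n : ℤ) : Continuous (sh n) := by
  unfold sh
  refine Continuous.prodMk (by fun_prop) (continuous_pi fun k => ?_)
  exact (continuous_of_discreteTopology (f := fun z : ℤ => (z + n) % L k)).comp
    (show Continuous fun p : Amb => p.2 k by fun_prop)

noncomputable def T : XX ≃ₜ XX where
  toFun p := ⟨sh 1 p.1, sh_mem _ p.2⟩
  invFun p := ⟨sh (-1) p.1, sh_mem _ p.2⟩
  left_inv p := Subtype.ext (by simp [sh_sh, sh_zero p.2])
  right_inv p := Subtype.ext (by simp [sh_sh, sh_zero p.2])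
  continuous_toFun := ((sh_cont _).comp continuous_subtype_val).subtype_mk _
  continuous_invFun := ((sh_cont _).comp continuous_subtype_val).subtype_mk _

lemma T_iter (n : ℕ) (p : XX) : ((⇑T)^[n] p).1 = sh n p.1 := by
  induction n with
  | zero => simp [sh_zero p.2]
  | succ n ih =>
    rw [Function.iterate_succ_apply']
    show sh 1 _ = _
    rw [ih, sh_sh]
    push_cast
    rw [add_comm]

lemma approx (x y : XX) (K : ℕ) : ∃ n : ℕ, (∀ t : ℤ, |t| ≤ K → (sh n x.1).1 t = y.1.1 t) ∧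
    ∀ k ≤ K, (sh n x.1).2 k = y.1.2 k := by
  obtain ⟨⟨x, o⟩, hx1, hx2⟩ := x
  obtain ⟨⟨y, q⟩, hy1, hy2⟩ := y
  simp only at hx1 hx2 hy1 hy2
  obtain ⟨w, hw, e0, e1, e2⟩ := triple (hy2 K (-q K - L K) ⟨-1, by ring⟩) (hy2 K (-q K) (by simp))
    (hy2 K (-q K + L K) (by simp))
  have hB := hx2 (K + 2) (L (K + 2) - o (K + 2)) (by simp)
  obtain ⟨i, hi, hiw⟩ := (mem_succ.mp hB).2.2.surjOn hw
  have l0 := L_pos K
  have l1 := L_pos (K + 1)
  have l2 := (hx1 (K + 2)).2.1
  have q0 := (hy1 K).1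
  have q1 := (hy1 K).2.1
  have i0 : 0 ≤ i * L (K + 1) := mul_nonneg hi.1 l1.le
  have i1 : i * L (K + 1) < L (K + 2) := by
    rw [L_succ (K + 1)]
    exact mul_lt_mul_of_pos_right hi.2.1 l1
  rw [sl, blk_blk (by omega) _ _ _ (dvd_mul_left _ _), Int.emod_eq_of_lt i0 i1] at hiw
  set s := L (K + 2) - o (K + 2) + i * L (K + 1) with hs
  have h3 : 3 * L K ≤ L (K + 1) := by
    rw [L_succ]
    exact mul_le_mul_of_nonneg_right (b_ge K) l0.le
  refine ⟨(s + L K + q K).toNat, fun t ht => ?_, fun k hk => ?_⟩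
  · have hK := L_gt K
    rw [abs_le] at ht
    simp only [sh]
    rw [Int.toNat_of_nonneg (by omega)]
    have key : ∀ a : ℤ, 0 ≤ a → a ≤ 2 → a * L K ≤ t + L K + q K → t + L K + q K < (a + 1) * L K →
        sl K w a = blk (L K) y (-q K + (a - 1) * L K) → x (t + (s + L K + q K)) = y t := by
      intro a a0 a1 a2 a3 e
      have := congrFun e (t + L K + q K - a * L K)
      rw [← hiw] at this
      simp only [sl, blk] at this
      rw [Int.emod_eq_of_lt (a := t + L K + q K - a * L K) (by omega) (by linarith),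
        Int.emod_eq_of_lt (by omega) (by nlinarith)] at this
      convert this using 2 <;> ring_nf
    rcases lt_or_ge (t + L K + q K) (L K) with c1 | c1
    · exact key 0 le_rfl (by norm_num) (by omega) (by omega) (by rw [e0]; congr 1; ring)
    rcases lt_or_ge (t + L K + q K) (2 * L K) with c2 | c2
    · exact key 1 (by norm_num) (by norm_num) (by omega) (by omega) (by rw [e1]; congr 1; ring)
    · exact key 2 (by norm_num) le_rfl (by omega) (by omega) (by rw [e2]; congr 1; ring)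
  · simp only [sh]
    rw [Int.toNat_of_nonneg (by omega), hy1.mod hk]
    rw [Int.emod_eq_emod_iff_emod_sub_eq_zero]
    refine Int.emod_eq_zero_of_dvd ?_
    have e : o k + (s + L K + q K) - q K =
        L (K + 2) - (o (K + 2) - o k) + i * L (K + 1) + L K := by rw [hs]; ring
    rw [e]
    exact dvd_add (dvd_add (dvd_sub (L_dvd (by omega)) (hx1.dvd (by omega)))
      ((L_dvd (by omega)).mul_left _)) (L_dvd hk)

lemma T_min (x : XX) : Dense (Set.range fun n : ℕ => (⇑T)^[n] x) := by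
  intro y
  choose n hn using approx x y
  refine mem_closure_of_tendsto (f := fun K => (⇑T)^[n K] x) (b := atTop) ?_
    (Eventually.of_forall fun K => ⟨_, rfl⟩)
  rw [tendsto_subtype_rng]
  simp only [T_iter]
  refine (Prod.tendsto_iff _ _).mpr ⟨tendsto_pi_nhds.mpr fun t => ?_, tendsto_pi_nhds.mpr fun k => ?_⟩
  · refine tendsto_const_nhds.congr' ?_
    filter_upwards [eventually_ge_atTop t.natAbs] with K hK
    exact ((hn K).1 t (by rw [Int.abs_eq_natAbs]; exact_mod_cast hK)).symm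
  · refine tendsto_const_nhds.congr' ?_
    filter_upwards [eventually_ge_atTop k] with K hK
    exact ((hn K).2 k hK).symm

noncomputable def F (K : ℕ) (p : Amb) (n : ℤ) : A :=
  if 0 ≤ p.2 K + n ∧ p.2 K + n < L K then c K (blk (L K) p.1 (-p.2 K)) (p.2 K) (p.2 K + n)
  else p.1 n

lemma org_mem {p : Amb} (h : p ∈ XX) (K : ℕ) : blk (L K) p.1 (-p.2 K) ∈ W K := h.2 K _ (by simp)

lemma F_succ {p : Amb} (h : p ∈ XX) (K : ℕ) (n : ℤ) (hn : |n| ≤ K) : F (K + 1) p n = F K p n := by
  obtain ⟨x, o⟩ := p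
  obtain ⟨a0, a1, a2⟩ := h.1 K
  obtain ⟨b0, b1, -⟩ := h.1 (K + 1)
  have hB := org_mem h (K + 1)
  simp only at a0 a1 a2 b0 b1 hB
  obtain ⟨d0, d1⟩ := div_range b0 b1
  have l0 := L_pos K
  have hK := L_gt K
  rw [abs_le] at hn
  have e : o (K + 1) = o K + L K * (o (K + 1) / L K) := by
    rw [a2, Int.emod_add_mul_ediv]
  have hdiv : (o (K + 1) + n) / L K = (o K + n) / L K + o (K + 1) / L K := by
    conv_lhs => rw [e]
    rw [add_right_comm, Int.add_mul_ediv_left _ _ l0.ne']
  simp only [F]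
  by_cases c1 : 0 ≤ o K + n ∧ o K + n < L K
  · have c2 : 0 ≤ o (K + 1) + n ∧ o (K + 1) + n < L (K + 1) := by
      rw [L_succ]
      constructor <;> nlinarith [c1.1, c1.2]
    rw [if_pos c1, if_pos c2, c_same _ c2.1 c2.2 (by
      rw [hdiv, Int.ediv_eq_zero_of_lt c1.1 c1.2, zero_add]), ← a2]
    have e2 : sl K (blk (L (K + 1)) x (-o (K + 1))) (o (K + 1) / L K) = blk (L K) x (-o K) := by
      rw [sl, blk_blk (by omega) _ _ _ (dvd_mul_left _ _), Int.emod_eq_of_lt (by positivity)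
        (by rw [L_succ]; nlinarith)]
      congr 1
      linarith
    rw [e2]
    refine per' (c_spec K _ (org_mem h K) _ a0 a1).1 ?_
    conv_lhs => rw [e]
    rw [add_right_comm, Int.add_mul_emod_self_left]
  · rw [if_neg c1]
    split_ifs with c2
    · rw [c_adj hB c2.1 c2.2]
      · simp only [blk]
        rw [Int.emod_eq_of_lt c2.1 c2.2]
        congr 1
        ring
      · rw [hdiv]
        rcases lt_or_ge (o K + n) 0 with c3 | c3
        · right
          have : (o K + n) / L K = -1 := by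
            rw [Int.ediv_eq_iff_of_pos l0]
            omega
          omega
        · left
          have : (o K + n) / L K = 1 := by
            rw [Int.ediv_eq_iff_of_pos l0]
            omega
          omega
    · rfl

noncomputable def chi (p : Amb) : Amb := (fun n => F n.natAbs p n, p.2)

lemma chi_eq {p : Amb} (h : p ∈ XX) (K : ℕ) (n : ℤ) (hn : |n| ≤ K) : (chi p).1 n = F K p n := by
  have hn' : n.natAbs ≤ K := by rw [Int.abs_eq_natAbs] at hn; exact_mod_cast hn
  show F n.natAbs p n = _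
  clear hn
  induction hn' with
  | refl => rfl
  | @step K hK ih =>
    rw [F_succ h K n (by rw [Int.abs_eq_natAbs]; exact_mod_cast hK), ih]

lemma F_in {p : Amb} (h : p ∈ XX) (K : ℕ) (n : ℤ) (c1 : 0 ≤ p.2 K + n ∧ p.2 K + n < L K)
    {K' : ℕ} (hK : K ≤ K') : F K' p n = F K p n ∧ 0 ≤ p.2 K' + n ∧ p.2 K' + n < L K' := by
  induction hK with
  | refl => exact ⟨rfl, c1⟩
  | @step K' hK ih =>
    obtain ⟨i1, c1⟩ := ih
    rw [← i1]
    clear i1
    obtain ⟨x, o⟩ := p
    obtain ⟨a0, a1, a2⟩ := h.1 K'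
    obtain ⟨b0, b1, -⟩ := h.1 (K' + 1)
    simp only at a0 a1 a2 b0 b1 c1 ⊢
    obtain ⟨d0, d1⟩ := div_range b0 b1
    have l0 := L_pos K'
    have e : o (K' + 1) = o K' + L K' * (o (K' + 1) / L K') := by
      rw [a2, Int.emod_add_mul_ediv]
    have hdiv : (o (K' + 1) + n) / L K' = (o K' + n) / L K' + o (K' + 1) / L K' := by
      conv_lhs => rw [e]
      rw [add_right_comm, Int.add_mul_ediv_left _ _ l0.ne']
    have c2 : 0 ≤ o (K' + 1) + n ∧ o (K' + 1) + n < L (K' + 1) := by
      rw [L_succ]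
      constructor <;> nlinarith [c1.1, c1.2]
    refine ⟨?_, c2⟩
    simp only [F]
    rw [if_pos c1, if_pos c2, c_same _ c2.1 c2.2 (by
      rw [hdiv, Int.ediv_eq_zero_of_lt c1.1 c1.2, zero_add]), ← a2]
    have e2 : sl K' (blk (L (K' + 1)) x (-o (K' + 1))) (o (K' + 1) / L K') =
        blk (L K') x (-o K') := by
      rw [sl, blk_blk (by omega) _ _ _ (dvd_mul_left _ _), Int.emod_eq_of_lt (by positivity)
        (by rw [L_succ]; nlinarith)]
      congr 1
      linarith
    rw [e2]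
    refine per' (c_spec K' _ (org_mem h K') _ a0 a1).1 ?_
    conv_lhs => rw [e]
    rw [add_right_comm, Int.add_mul_emod_self_left]

lemma chi_in {p : Amb} (h : p ∈ XX) (K : ℕ) (n : ℤ) (c1 : 0 ≤ p.2 K + n ∧ p.2 K + n < L K) :
    (chi p).1 n = F K p n := by
  rw [chi_eq h (max K n.natAbs) n (by
    rw [Int.abs_eq_natAbs]; exact_mod_cast le_max_right _ _), (F_in h K n c1 (le_max_left _ _)).1]

lemma chi_org {p : Amb} (h : p ∈ XX) (K : ℕ) :
    blk (L K) (chi p).1 (-p.2 K) = c K (blk (L K) p.1 (-p.2 K)) (p.2 K) := by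
  funext j
  have c1 : 0 ≤ p.2 K + (-p.2 K + j % L K) ∧ p.2 K + (-p.2 K + j % L K) < L K := by
    rw [add_neg_cancel_left]
    exact ⟨Int.emod_nonneg _ (L_pos K).ne', Int.emod_lt_of_pos _ (L_pos K)⟩
  conv_lhs => simp only [blk]
  rw [chi_in h K _ c1, F, if_pos c1, add_neg_cancel_left]
  exact (per (c_spec K _ (org_mem h K) _ (h.1 K).1 (h.1 K).2.1).1 j).symm

lemma chi_mem {p : Amb} (h : p ∈ XX) : chi p ∈ XX := by
  refine ⟨h.1, fun k s hs => ?_⟩
  change L k ∣ s + p.2 k at hs
  by_cases hc : ∃ K, k ≤ K ∧ 0 ≤ p.2 K + s ∧ p.2 K + s < L K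
  · obtain ⟨K, hK, c0, c1⟩ := hc
    have h1 := (c_spec K _ (org_mem h K) _ (h.1 K).1 (h.1 K).2.1).1
    have hd : L k ∣ p.2 K + s := by
      have := dvd_add hs (h.1.dvd hK)
      rwa [show s + p.2 k + (p.2 K - p.2 k) = p.2 K + s by ring] at this
    have h2 := sub_blk hK h1 hd
    rwa [← chi_org h K, blk_blk hK _ _ _ hd, Int.emod_eq_of_lt c0 c1, neg_add_cancel_left] at h2
  · have : blk (L k) (chi p).1 s = blk (L k) p.1 s := by
      funext j
      simp only [blk]
      set n := s + j % L k with hn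
      rw [chi_eq h (max k n.natAbs) n (by
        rw [Int.abs_eq_natAbs]; exact_mod_cast le_max_right _ _), F, if_neg]
      intro ⟨c0, c1⟩
      set K := max k n.natAbs
      have hK : k ≤ K := le_max_left _ _
      refine hc ⟨K, hK, ?_, ?_⟩
      · obtain ⟨d, hd⟩ : L k ∣ p.2 K + s := by
          have := dvd_add hs (h.1.dvd hK)
          rwa [show s + p.2 k + (p.2 K - p.2 k) = p.2 K + s by ring] at this
        have a2 := Int.emod_lt_of_pos j (L_pos k)
        have l0 := L_pos k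
        have : -1 < d := by
          by_contra hd'
          push Not at hd'
          nlinarith
        rw [hd]
        exact mul_nonneg l0.le (by omega)
      · have a1 := Int.emod_nonneg j (L_pos k).ne'
        omega
    rw [this]
    exact h.2 k s hs

lemma chi_chi {p : Amb} (h : p ∈ XX) : chi (chi p) = p := by
  refine Prod.ext (funext fun n => ?_) rfl
  show F n.natAbs (chi p) n = _
  unfold F
  change (if 0 ≤ p.2 n.natAbs + n ∧ p.2 n.natAbs + n < L n.natAbs then
    c n.natAbs (blk (L n.natAbs) (chi p).1 (-p.2 n.natAbs)) (p.2 n.natAbs) (p.2 n.natAbs + n)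
    else F n.natAbs p n) = _
  split_ifs with c1
  · rw [chi_org h, (c_spec _ _ (org_mem h _) _ (h.1 _).1 (h.1 _).2.1).2.2.2]
    simp only [blk]
    rw [Int.emod_eq_of_lt c1.1 c1.2, neg_add_cancel_left]
  · rw [F, if_neg c1]

lemma chi_zero {p : Amb} (h : p ∈ XX) : (chi p).1 0 = pi (p.1 0) := by
  have h0 : p.2 0 = 0 := by
    have := h.1 0
    rw [L_zero] at this
    omega
  show F 0 p 0 = _
  simp [F, h0, L_zero, c, blk]

lemma chi_ne {p : Amb} (h : p ∈ XX) {n : ℤ} (hn : n ≠ 0) : (chi p).1 n ≠ pi (p.1 n) := by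
  show F n.natAbs p n ≠ _
  unfold F
  split_ifs with c1
  · have := (c_spec _ _ (org_mem h n.natAbs) _ (h.1 _).1 (h.1 _).2.1).2.2.1 _ c1.1 c1.2 (by omega)
    simp only [blk] at this ⊢
    rwa [Int.emod_eq_of_lt c1.1 c1.2, neg_add_cancel_left] at this
  · exact ne_pi _

lemma chi_cont : Continuous fun p : XX => chi p.1 := by
  refine Continuous.prodMk (continuous_pi fun n => ?_) (by fun_prop)
  set K := n.natAbs
  haveI := (W_fin K).to_subtype
  let g : XX → W K × ℤ × A := fun p => (⟨_, org_mem p.2 K⟩, p.1.2 K, p.1.1 n)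
  have hg : Continuous g := by
    refine Continuous.prodMk (Continuous.subtype_mk ?_ _) (by fun_prop)
    refine continuous_pi fun j => ?_
    rw [continuous_iff_continuousAt]
    intro p
    have h1 : ∀ᶠ q : XX in 𝓝 p, q.1.2 K = p.1.2 K :=
      (show Continuous fun q : XX => q.1.2 K by fun_prop).continuousAt.eventually
        (p := fun z => z = p.1.2 K) (by simp [nhds_discrete])
    refine ContinuousAt.congr (f := fun q : XX => q.1.1 (-p.1.2 K + j % L K)) (by fun_prop) ?_
    filter_upwards [h1] with q hq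
    simp only [blk, hq]
  exact (continuous_of_discreteTopology (f := fun z : W K × ℤ × A =>
    if 0 ≤ z.2.1 + n ∧ z.2.1 + n < L K then c K z.1.1 z.2.1 (z.2.1 + n) else z.2.2)).comp hg

noncomputable def X : XX ≃ₜ XX where
  toFun p := ⟨chi p.1, chi_mem p.2⟩
  invFun p := ⟨chi p.1, chi_mem p.2⟩
  left_inv p := Subtype.ext (chi_chi p.2)
  right_inv p := Subtype.ext (chi_chi p.2)
  continuous_toFun := chi_cont.subtype_mk _
  continuous_invFun := chi_cont.subtype_mk _

noncomputable def S : XX ≃ₜ XX := (X.trans T).trans X.symm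

lemma S_iter (n : ℕ) (p : XX) : X ((⇑S)^[n] p) = (⇑T)^[n] (X p) := by
  induction n with
  | zero => rfl
  | succ n ih =>
    rw [Function.iterate_succ_apply', Function.iterate_succ_apply', ← ih]
    simp [S]

theorem main : ∃ (X : Type) (_ : MetricSpace X) (_ : CompactSpace X) (_ : Nonempty X) (T S : X ≃ₜ X),
      (∀ x : X, Dense (Set.range (fun n : ℕ => (⇑T)^[n] x))) ∧
      (∀ x : X, Dense (Set.range (fun n : ℕ => (⇑S)^[n] x))) ∧
      ∀ x : X, ¬ (∀ ε : ℝ, 0 < ε →
        ∃ n : ℕ, 0 < n ∧ dist ((⇑T)^[n] x) x < ε ∧ dist ((⇑S)^[n] x) x < ε) := by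
  letI : MetricSpace XX := TopologicalSpace.metrizableSpaceMetric XX
  refine ⟨XX, inferInstance, isCompact_iff_compactSpace.mp XX_compact, XX_ne.to_subtype, T, S,
    T_min, fun x => ?_, fun x hx => ?_⟩
  · have h1 : (Set.range fun n : ℕ => (⇑S)^[n] x) =
        X.symm '' (Set.range fun n : ℕ => (⇑T)^[n] (X x)) := by
      rw [← range_comp]
      congr 1
      funext n
      simp [← S_iter]
    rw [h1]
    exact X.symm.surjective.denseRange.dense_image X.symm.continuous (T_min _)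
  · have h0 : ∀ g : XX → A, Continuous g → ∀ᶠ q in 𝓝 x, g q = g x := fun g hg =>
      hg.continuousAt.eventually (p := fun z => z = g x) (by simp [nhds_discrete])
    have h1 := (h0 (fun q => q.1.1 0) (by fun_prop)).and
      (h0 (fun q => (X q).1.1 0)
        ((show Continuous fun q : XX => q.1.1 0 by fun_prop).comp X.continuous))
    obtain ⟨ε, hε, hb⟩ := Metric.mem_nhds_iff.mp h1
    obtain ⟨n, hn, d1, d2⟩ := hx ε hε
    have e1 := (hb d1).1
    have e2 := (hb d2).2
    rw [S_iter] at e2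
    rw [T_iter] at e1 e2
    simp only [sh, zero_add] at e1 e2
    refine chi_ne x.2 (n := n) (by omega) ?_
    rw [e1, ← chi_zero x.2]
    exact e2

end Pool.Agent.H29.Rec
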