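import Mathlib

open Set Metric Finset Complex

namespace Pool.Agent.H29.Ritt

/-- The scalar resolvent factor. -/
noncomputable def uu (w t : ℂ) : ℂ := (1 - w) / (1 - w * t)

lemma den_ge {w t : ℂ} (hw : ‖w‖ ≤ 1) : 1 - ‖t‖ ≤ ‖1 - w * t‖ := by
  have h1 := norm_sub_norm_le (1:ℂ) (w * t)
  rw [norm_one, norm_mul] at h1
  nlinarith [norm_nonneg t]

lemma den_ne {w t : ℂ} (hw : ‖w‖ ≤ 1) (ht : ‖t‖ < 1) : 1 - w * t ≠ 0 :=
  norm_pos_iff.1 (by linarith [den_ge (t := t) hw])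

lemma model {ι : Type} [Fintype ι] (t ψ : ι → ℂ) {C : ℝ} (hC : 0 < C) (ht : ∀ i, ‖t i‖ < 1)
    (ha : ∀ w : ℂ, ‖w‖ ≤ 1 → ∀ i, ‖uu w (t i)‖ ≤ C) (hb : ‖∑ i, ψ i‖ ≤ 1)
    (hc : ∀ w : ℂ, ‖w‖ ≤ 1 → ‖∑ i, ψ i * uu w (t i)‖ ≤ C)
    (hd : ∀ w : ℂ, ‖w‖ ≤ 1 → ∑ i, ‖ψ i‖ * ‖uu w (t i)‖ ^ 2 ≤ C ^ 2) :
    ∃ (X : Type) (_ : NormedAddCommGroup X) (_ : NormedSpace ℂ X) (_ : CompleteSpace X)
      (_ : FiniteDimensional ℂ X) (T : X →L[ℂ] X), spectrum ℂ T ⊆ closedBall 0 1 ∧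
      (∀ z : ℂ, 1 < ‖z‖ → ‖(z - 1) • resolvent T z‖ ≤ C) ∧ ∀ n, ‖∑ i, ψ i * t i ^ n‖ ≤ ‖T ^ n‖ := by
  have hK : ∀ w : closedBall (0:ℂ) 1, ‖(w:ℂ)‖ ≤ 1 := fun w => mem_closedBall_zero_iff.1 w.2
  let U : ι → C(closedBall (0:ℂ) 1, ℂ) := fun i => ⟨fun w => uu w (t i), by
    unfold uu
    exact Continuous.div (by fun_prop) (by fun_prop) fun w => den_ne (hK w) (ht i)⟩
  let emb : (ι → ℂ) →ₗ[ℂ] ℂ × C(closedBall (0:ℂ) 1, ℂ) × (ι → ℂ) :=
    { toFun := fun a => (∑ i, ψ i * a i, ∑ i, ((C:ℂ)⁻¹ * (ψ i * a i)) • U i, a)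
      map_add' := fun x y => by simp [mul_add, add_smul, sum_add_distrib]
      map_smul' := fun c x => by
        simp only [Pi.smul_apply, smul_eq_mul, RingHom.id_apply, Prod.smul_mk, mul_sum, smul_sum,
          smul_smul]
        refine Prod.ext (sum_congr rfl fun i _ => by ring) (Prod.ext
          (sum_congr rfl fun i _ => by congr 1; ring) rfl) }
  have inj : Function.Injective emb := fun x y h => congrArg (fun p => p.2.2) h
  have nle : ∀ (a : ι → ℂ) (c : ℝ), 0 ≤ c → (‖emb a‖ ≤ c ↔ ‖∑ i, ψ i * a i‖ ≤ c ∧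
      (∀ w : ℂ, ‖w‖ ≤ 1 → ‖∑ i, ψ i * a i * uu w (t i)‖ ≤ C * c) ∧ ∀ i, ‖a i‖ ≤ c) := by
    intro a c h0
    rw [norm_prod_le_iff, norm_prod_le_iff, ContinuousMap.norm_le _ h0,
      pi_norm_le_iff_of_nonneg h0]
    have e : ∀ w : closedBall (0:ℂ) 1,
        ‖(emb a).2.1 w‖ = C⁻¹ * ‖∑ i, ψ i * a i * uu w (t i)‖ := by
      intro w
      have : (emb a).2.1 w = (C:ℂ)⁻¹ * ∑ i, ψ i * a i * uu w (t i) := by
        simp [emb, U, mul_sum, mul_assoc]
      rw [this, norm_mul, norm_inv, Complex.norm_real, Real.norm_of_nonneg hC.le]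
    simp only [e, inv_mul_le_iff₀ hC]
    exact and_congr Iff.rfl (and_congr ⟨fun h w hw => h ⟨w, by simpa using hw⟩,
      fun h w => h w (hK w)⟩ Iff.rfl)
  obtain ⟨X, i1, i2, i3, e, hn⟩ : ∃ (X : Type) (_ : NormedAddCommGroup X) (_ : NormedSpace ℂ X)
      (_ : FiniteDimensional ℂ X) (e : (ι → ℂ) ≃ₗ[ℂ] X), ∀ b, ‖e b‖ = ‖emb b‖ :=
    ⟨LinearMap.range emb, inferInstance, inferInstance, inferInstance,
      LinearEquiv.ofInjective emb inj, fun b => rfl⟩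
  have : CompleteSpace X := FiniteDimensional.complete ℂ _
  let F : (ι → ℂ) →ₐ[ℂ] (X →L[ℂ] X) :=
    (Module.End.toContinuousLinearMap X).toAlgHom.comp
      ((e.conjAlgEquiv ℂ).toAlgHom.comp (Algebra.lmul ℂ (ι → ℂ)))
  have hF : ∀ a b, F a (e b) = e (a * b) := by
    intro a b
    show e (a * e.symm (e b)) = _
    rw [e.symm_apply_apply]
  have res : ∀ z : ℂ, 1 < ‖z‖ → IsUnit (algebraMap ℂ (X →L[ℂ] X) z - F t) ∧
      resolvent (F t) z = F fun i => (z - t i)⁻¹ := by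
    intro z hz
    have hne : ∀ i, z - t i ≠ 0 := fun i => sub_ne_zero.2 fun h => by
      have := ht i
      rw [← h] at this; linarith
    have e1 : algebraMap ℂ (X →L[ℂ] X) z - F t = F fun i => z - t i := by
      rw [← F.commutes, ← map_sub]; rfl
    have k1 : (algebraMap ℂ (X →L[ℂ] X) z - F t) * (F fun i => (z - t i)⁻¹) = 1 := by
      rw [e1, ← map_mul, ← map_one F]; congr 1; ext i; simp [hne i]
    have k2 : (F fun i => (z - t i)⁻¹) * (algebraMap ℂ (X →L[ℂ] X) z - F t) = 1 := by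
      rw [e1, ← map_mul, ← map_one F]; congr 1; ext i; simp [hne i]
    exact ⟨⟨⟨_, _, k1, k2⟩, rfl⟩, Ring.inverse_unit (⟨_, _, k1, k2⟩ : (X →L[ℂ] X)ˣ)⟩
  refine ⟨X, inferInstance, inferInstance, inferInstance, inferInstance, F t,
    fun z hz => ?_, fun z hz => ?_, fun n => ?_⟩
  · by_contra h
    exact spectrum.mem_iff.1 hz (res z (by simpa using h)).1
  · have h0 : z ≠ 0 := by rintro rfl; norm_num at hz
    have hw : ‖z⁻¹‖ ≤ 1 := by rw [norm_inv]; exact inv_le_one_of_one_le₀ hz.le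
    have e2 : (z - 1) • resolvent (F t) z = F fun i => uu z⁻¹ (t i) := by
      rw [(res z hz).2, ← map_smul]; congr 1; ext i
      have hne : z - t i ≠ 0 := sub_ne_zero.2 fun h => by
        have := ht i
        rw [← h] at this; linarith
      simp only [uu, Pi.smul_apply, smul_eq_mul]
      field_simp
    rw [e2]
    generalize z⁻¹ = w at hw
    refine ContinuousLinearMap.opNorm_le_bound _ hC.le fun x => ?_
    obtain ⟨b, rfl⟩ := e.surjective x
    rw [hF, hn, hn, nle _ _ (by positivity)]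
    obtain ⟨h1, h2, h3⟩ := (nle b _ (norm_nonneg _)).1 le_rfl
    refine ⟨?_, fun v hv => ?_, fun i => ?_⟩
    · refine le_trans (le_of_eq ?_) (h2 w hw)
      congr 1
      exact sum_congr rfl fun i _ => by simp only [Pi.mul_apply]; ring
    · refine (norm_sum_le _ _).trans ?_
      have : ∀ i, ‖ψ i * ((fun i => uu w (t i)) * b) i * uu v (t i)‖ ≤
          ‖emb b‖ / 2 * (‖ψ i‖ * ‖uu w (t i)‖ ^ 2 + ‖ψ i‖ * ‖uu v (t i)‖ ^ 2) := by
        intro i
        simp only [Pi.mul_apply, norm_mul]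
        have a1 := h3 i
        have a2 : 0 ≤ ‖ψ i‖ * (‖uu w (t i)‖ * ‖uu v (t i)‖) := by positivity
        have a3 : 0 ≤ ‖emb b‖ * ‖ψ i‖ := by positivity
        nlinarith [mul_le_mul_of_nonneg_left a1 a2,
          mul_nonneg a3 (sq_nonneg (‖uu w (t i)‖ - ‖uu v (t i)‖))]
      refine (sum_le_sum fun i _ => this i).trans ?_
      rw [← mul_sum, sum_add_distrib]
      nlinarith [hd w hw, hd v hv, norm_nonneg (emb b)]
    · simp only [Pi.mul_apply, norm_mul]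
      exact mul_le_mul (ha w hw i) (h3 i) (norm_nonneg _) hC.le
  · have h1 : ‖e 1‖ ≤ 1 := by
      rw [hn, nle _ _ zero_le_one]
      exact ⟨by simpa using hb, fun w hw => by simpa using hc w hw, fun i => by simp⟩
    have h2 := (F t ^ n).le_opNorm (e 1)
    rw [← map_pow, hF, mul_one, hn] at h2
    have h3 := ((nle (t ^ n) _ (norm_nonneg _)).1 le_rfl).1
    rw [← map_pow]
    refine h3.trans (h2.trans ?_)
    exact mul_le_of_le_one_right (norm_nonneg _) h1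

lemma rootsum {N : ℕ} (hN : N ≠ 0) {ω s : ℂ} (hω : IsPrimitiveRoot ω N) (hs : ‖s‖ < 1) :
    ∑ j ∈ range N, 1 / (1 - s * ω ^ j) = N / (1 - s ^ N) := by
  have hn : ‖ω‖ = 1 := hω.norm'_eq_one hN
  have h1 : 1 - s ^ N ≠ 0 := by
    have := den_ne (w := 1) (t := s ^ N) (by simp) (by
      rw [norm_pow]; exact pow_lt_one₀ (norm_nonneg _) hs hN)
    simpa using this
  have e : ∀ j, 1 / (1 - s * ω ^ j) = (∑ k ∈ range N, s ^ k * (ω ^ k) ^ j) / (1 - s ^ N) := by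
    intro j
    have h2 : 1 - s * ω ^ j ≠ 0 := by
      rw [mul_comm]; exact den_ne (by simp [hn]) hs
    have h3 := mul_neg_geom_sum (s * ω ^ j) N
    rw [mul_pow, ← pow_mul, mul_comm j N, pow_mul, hω.pow_eq_one, one_pow, mul_one] at h3
    rw [div_eq_div_iff h2 h1, one_mul, ← h3, mul_comm]
    congr 1
    exact sum_congr rfl fun k _ => by rw [mul_pow, ← pow_mul, ← pow_mul, mul_comm j k]
  simp only [e]
  rw [← sum_div, sum_comm]
  congr 1
  rw [sum_eq_single 0]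
  · simp
  · intro k hk hk0
    rw [← mul_sum]
    have h4 : ω ^ k ≠ 1 := hω.pow_ne_one_of_pos_of_lt hk0 (mem_range.1 hk)
    have h5 := mul_neg_geom_sum (ω ^ k) N
    rw [← pow_mul, mul_comm k N, pow_mul, hω.pow_eq_one, one_pow, sub_self] at h5
    rw [(mul_eq_zero.1 h5).resolve_left (sub_ne_zero.2 h4.symm), mul_zero]
  · intro h; exact absurd (mem_range.2 (Nat.pos_of_ne_zero hN)) h

lemma sqsum {N : ℕ} (hN : N ≠ 0) {ω s : ℂ} (hω : IsPrimitiveRoot ω N) {δ : ℝ} (hδ : 0 < δ)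
    (hs : ‖s‖ ≤ 1 - δ) (hs2 : ‖s‖ ^ N ≤ 1 / 2) :
    ∑ j ∈ range N, 1 / ‖1 - s * ω ^ j‖ ^ 2 ≤ 4 * N / δ := by
  have hn : ‖ω‖ = 1 := hω.norm'_eq_one hN
  have h1 := congrArg Complex.re (rootsum hN hω (s := s) (by linarith))
  rw [Complex.re_sum] at h1
  have h2 : ((N:ℂ) / (1 - s ^ N)).re ≤ 2 * N := by
    refine (Complex.re_le_norm _).trans ?_
    have := den_ge (w := 1) (t := s ^ N) (by simp)
    rw [one_mul, norm_pow] at this
    rw [norm_div, Complex.norm_natCast, div_le_iff₀ (by linarith)]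
    have : (0:ℝ) ≤ N := by positivity
    nlinarith
  have h3 : ∀ j, 1 / ‖1 - s * ω ^ j‖ ^ 2 ≤ 2 / δ * (1 / (1 - s * ω ^ j)).re := by
    intro j
    have hx : ‖s * ω ^ j‖ ≤ 1 - δ := by simpa [hn] using hs
    generalize s * ω ^ j = x at hx
    have h4 := den_ge (w := 1) (t := x) (by simp)
    rw [one_mul] at h4
    have h5 : 0 < ‖1 - x‖ := by linarith
    rw [one_div (1 - x), Complex.inv_re, Complex.normSq_eq_norm_sq, ← mul_div_assoc]
    refine div_le_div_of_nonneg_right ?_ (by positivity)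
    have h6 := (Complex.re_le_norm x).trans hx
    rw [div_mul_eq_mul_div, le_div_iff₀ hδ]
    simp only [Complex.sub_re, Complex.one_re]
    linarith
  refine (sum_le_sum fun j _ => h3 j).trans ?_
  rw [← mul_sum, h1]
  refine (mul_le_mul_of_nonneg_left h2 (by positivity)).trans (le_of_eq ?_)
  ring

lemma altsum (h : ℕ → ℂ) (b : ℕ → ℝ) (hb : ∀ j, ‖h j - h (j + 1)‖ ≤ b j + b (j + 1)) (m : ℕ) :
    ‖∑ j ∈ range (2 * m), (-1) ^ j * h j‖ ≤ ∑ j ∈ range (2 * m), b j := by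
  induction m with
  | zero => simp
  | succ m ih =>
    rw [show 2 * (m + 1) = 2 * m + 1 + 1 by ring, sum_range_succ, sum_range_succ, sum_range_succ,
      sum_range_succ, add_assoc, add_assoc]
    refine (norm_add_le _ _).trans (add_le_add ih ?_)
    have := hb (2 * m)
    simpa [pow_succ, sub_eq_add_neg] using this

end Pool.Agent.H29.Ritt
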