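import Mathlib
import Pool.Agent.H29.Ritt1

open Set Metric Finset Complex
open scoped Real

namespace Pool.Agent.H29.Ritt

lemma conc {m : ℕ} (hm : 1 ≤ m) {C : ℝ} (hC : 20 * m ≤ C) :
    ∃ (X : Type) (_ : NormedAddCommGroup X) (_ : NormedSpace ℂ X) (_ : CompleteSpace X)
      (_ : FiniteDimensional ℂ X) (T : X →L[ℂ] X), spectrum ℂ T ⊆ closedBall 0 1 ∧
      (∀ z : ℂ, 1 < ‖z‖ → ‖(z - 1) • resolvent T z‖ ≤ C) ∧
      (m:ℝ) / 160 * Real.log (2 * m) ≤ ‖T ^ (4 * m)‖ := by
  have m1 : (1:ℝ) ≤ m := by exact_mod_cast hm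
  have m0 : (m:ℂ) ≠ 0 := by exact_mod_cast (show m ≠ 0 by omega)
  have hπ := Real.pi_pos
  have hπ4 := Real.pi_lt_d2
  obtain ⟨δ, hδ⟩ : ∃ δ : ℝ, δ = 1 / (8 * m) := ⟨_, rfl⟩
  have δ0 : 0 < δ := by rw [hδ]; positivity
  have δm : δ * (8 * m) = 1 := by rw [hδ]; field_simp
  have δ1 : δ ≤ 1 / 8 := by nlinarith
  obtain ⟨θ, hθ⟩ : ∃ θ : ℝ, θ = π / (4 * m) := ⟨_, rfl⟩
  have θ0 : 0 < θ := by rw [hθ]; positivity
  have θm : θ * (4 * m) = π := by rw [hθ]; field_simp
  obtain ⟨ω, hωd⟩ : ∃ ω : ℂ, ω = exp (I * θ) := ⟨_, rfl⟩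
  have hω : IsPrimitiveRoot ω (8 * m) := by
    have := Complex.isPrimitiveRoot_exp (8 * m) (by omega)
    convert this using 1
    rw [hωd, hθ]; congr 1; push_cast; field_simp; ring
  have hωn : ‖ω‖ = 1 := hω.norm'_eq_one (by omega)
  have hωj : ∀ j : ℕ, ω ^ j = exp (I * ((j * θ : ℝ) : ℂ)) := by
    intro j; rw [hωd, ← Complex.exp_nat_mul]; congr 1; push_cast; ring
  have hω4 : ω ^ (4 * m) = -1 := by
    rw [hωj, ← Complex.exp_pi_mul_I]; congr 1
    rw [show ((4 * m : ℕ) : ℝ) * θ = π by rw [← θm]; push_cast; ring, mul_comm]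
  obtain ⟨t, ht⟩ : ∃ t : ℕ → ℂ, t = fun j => ((1 - δ : ℝ) : ℂ) * ω ^ j := ⟨_, rfl⟩
  have tn : ∀ j, ‖t j‖ = 1 - δ := by
    intro j
    simp only [ht, norm_mul, norm_pow, hωn, one_pow, mul_one, Complex.norm_real]
    exact Real.norm_of_nonneg (by linarith)
  have dge : ∀ w : ℂ, ‖w‖ ≤ 1 → ∀ j, δ ≤ ‖1 - w * t j‖ := fun w hw j => by
    have := den_ge (t := t j) hw
    rw [tn] at this; linarith
  have dne : ∀ w : ℂ, ‖w‖ ≤ 1 → ∀ j, 1 - w * t j ≠ 0 := fun w hw j =>
    norm_pos_iff.1 (δ0.trans_le (dge w hw j))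
  have d1 : ∀ j, 1 - t j ≠ 0 := fun j => by simpa using dne 1 (by simp) j
  have p1 : (1 - δ) ^ (8 * m) ≤ 1 / 2 := by
    have h1 := one_add_mul_le_pow (a := δ) (by linarith) (8 * m)
    have h2 : (1 - δ) ^ (8 * m) * (1 + δ) ^ (8 * m) ≤ 1 := by
      rw [← mul_pow]; exact pow_le_one₀ (by nlinarith) (by nlinarith)
    have h3 : 0 ≤ (1 - δ) ^ (8 * m) := pow_nonneg (by linarith) _
    push_cast at h1
    nlinarith
  have p2 : 1 / 2 ≤ (1 - δ) ^ (4 * m) := by
    have h1 := one_add_mul_le_pow (a := -δ) (by linarith) (4 * m)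
    push_cast at h1
    rw [← sub_eq_add_neg] at h1
    nlinarith
  have S : ∀ w : ℂ, ‖w‖ ≤ 1 → ∑ j ∈ range (2 * m), 1 / ‖1 - w * t j‖ ^ 2 ≤ 256 * (m:ℝ) ^ 2 := by
    intro w hw
    have hs : ‖w * ((1 - δ : ℝ) : ℂ)‖ ≤ 1 - δ := by
      rw [norm_mul, Complex.norm_real, Real.norm_of_nonneg (by linarith)]; nlinarith
    have := sqsum (by omega) hω δ0 hs ((pow_le_pow_left₀ (norm_nonneg _) hs _).trans p1)
    calc _ ≤ ∑ j ∈ range (8 * m), 1 / ‖1 - w * t j‖ ^ 2 :=
          sum_le_sum_of_subset_of_nonneg (range_mono (by omega)) fun _ _ _ => by positivity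
      _ ≤ 4 * ((8 * m : ℕ) : ℝ) / δ := by simpa only [ht, mul_assoc] using this
      _ = _ := by rw [hδ]; push_cast; field_simp; ring
  have tdiff : ∀ j, ‖t j - t (j + 1)‖ ≤ 1 / m := by
    intro j
    have e : t j - t (j + 1) = -(t j * (exp (I * θ) - 1)) := by
      simp only [ht, ← hωd]; ring
    have h1 := Real.norm_exp_I_mul_ofReal_sub_one_le (x := θ)
    rw [Real.norm_of_nonneg θ0.le] at h1
    rw [e, norm_neg, norm_mul, tn, le_div_iff₀ (by positivity)]
    have h2 : (1 - δ) * ‖exp (I * θ) - 1‖ ≤ θ := by nlinarith [norm_nonneg (exp (I * θ) - 1)]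
    nlinarith
  obtain ⟨g, hg⟩ : ∃ g : ℂ → ℂ,
      g = fun w => ∑ j ∈ range (2 * m), (-1) ^ j * (1 / (1 - w * t j)) := ⟨_, rfl⟩
  have G : ∀ w : ℂ, ‖w‖ ≤ 1 → ‖g w‖ ≤ 128 * m := by
    intro w hw
    rw [hg]
    refine (altsum _ (fun j => 1 / (2 * m) * (1 / ‖1 - w * t j‖ ^ 2)) (fun j => ?_) m).trans ?_
    · have a := dne w hw j
      have b := dne w hw (j + 1)
      have e : 1 / (1 - w * t j) - 1 / (1 - w * t (j + 1))
          = w * (t j - t (j + 1)) * (1 / (1 - w * t j)) * (1 / (1 - w * t (j + 1))) := by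
        field_simp; ring
      rw [e, norm_mul, norm_mul, norm_mul, norm_div, norm_div, norm_one, ← one_div_pow,
        ← one_div_pow]
      have h1 : ‖w‖ * ‖t j - t (j + 1)‖ ≤ 1 / m :=
        (mul_le_of_le_one_left (norm_nonneg _) hw).trans (tdiff j)
      have h2 : (0:ℝ) ≤ 1 / ‖1 - w * t j‖ := by positivity
      have h3 : (0:ℝ) ≤ 1 / ‖1 - w * t (j + 1)‖ := by positivity
      generalize 1 / ‖1 - w * t j‖ = x at *
      generalize 1 / ‖1 - w * t (j + 1)‖ = y at *
      have h4 : 1 / (2 * (m:ℝ)) = 1 / m / 2 := by field_simp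
      have h5 : (0:ℝ) ≤ 1 / m := by positivity
      rw [h4]
      nlinarith [mul_le_mul_of_nonneg_right h1 (mul_nonneg h2 h3),
        mul_nonneg h5 (sq_nonneg (x - y))]
    · rw [← mul_sum]
      refine (mul_le_mul_of_nonneg_left (S w hw) (by positivity)).trans (le_of_eq ?_)
      field_simp; ring
  have n1w : ∀ w : ℂ, ‖w‖ ≤ 1 → ‖1 - w‖ ≤ 2 := fun w hw =>
    (norm_sub_le _ _).trans (by rw [norm_one]; linarith)
  have M := model (ι := Option (Fin (2 * m)))
    (fun i => i.elim 0 fun j => t j)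
    (fun i => i.elim (-(1 / 20 * g 1)) fun j => 1 / 20 * ((-1) ^ (j:ℕ) * (1 / (1 - t j))))
    (C := C) (by linarith) ?_ ?_ ?_ ?_ ?_
  · obtain ⟨X, i1, i2, i3, i4, T, h1, h2, h3⟩ := M
    refine ⟨X, i1, i2, i3, i4, T, h1, h2, le_trans ?_ (h3 _)⟩
    rw [Fintype.sum_option]
    simp only [Option.elim_none, Option.elim_some]
    rw [zero_pow (by omega), mul_zero, zero_add, Fin.sum_univ_eq_sum_range
      (fun j => 1 / 20 * ((-1:ℂ) ^ j * (1 / (1 - t j))) * t j ^ (4 * m))]
    have e : ∀ j : ℕ, 1 / 20 * ((-1:ℂ) ^ j * (1 / (1 - t j))) * t j ^ (4 * m)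
        = ((1 / 20 * (1 - δ) ^ (4 * m) : ℝ) : ℂ) * (1 / (1 - t j)) := by
      intro j
      have : t j ^ (4 * m) = (((1 - δ) ^ (4 * m) : ℝ) : ℂ) * (-1) ^ j := by
        simp only [ht]; rw [mul_pow, ← pow_mul, mul_comm j, pow_mul ω, hω4]; push_cast; ring
      have h6 : ((-1:ℂ) ^ j) * (-1) ^ j = 1 := by rw [← mul_pow]; simp
      rw [this]; push_cast
      linear_combination (1 / 20 * (1 - (δ:ℂ)) ^ (4 * m) * (1 / (1 - t j))) * h6
    simp only [e]
    rw [← mul_sum, norm_mul, Complex.norm_real, Real.norm_of_nonneg (by linarith)]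
    have h4 : (m:ℝ) / 4 * Real.log (2 * m) ≤ ‖∑ j ∈ range (2 * m), 1 / (1 - t j)‖ := by
      refine le_trans ?_ (Complex.im_le_norm _)
      obtain ⟨k, hk⟩ : ∃ k, 2 * m = k + 1 := ⟨2 * m - 1, by omega⟩
      have hl := log_add_one_le_harmonic k
      rw [← hk, harmonic] at hl
      push_cast at hl
      rw [Complex.im_sum, hk, sum_range_succ']
      have z0 : (1 / (1 - t 0)).im = 0 := by
        simp only [ht, pow_zero, mul_one]
        rw [← Complex.ofReal_one, ← Complex.ofReal_sub, ← Complex.ofReal_div, Complex.ofReal_im]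
      rw [z0, add_zero]
      refine (mul_le_mul_of_nonneg_left hl (by positivity)).trans ?_
      rw [mul_sum]
      refine sum_le_sum fun j hj => ?_
      have hj2 : (j:ℝ) + 1 ≤ 2 * m := by
        have := mem_range.1 hj
        exact_mod_cast (show j + 1 ≤ 2 * m by omega)
      have j0 : (0:ℝ) ≤ j := by positivity
      have s1 := Real.mul_le_sin (x := (j + 1) * θ) (by positivity) (by nlinarith)
      have s2 : 2 / π * ((j + 1) * θ) = (j + 1) / (2 * m) := by rw [hθ]; field_simp; ring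
      have s3 : (t (j + 1)).im = (1 - δ) * Real.sin ((j + 1) * θ) := by
        simp only [ht]
        rw [hωj, Complex.im_ofReal_mul, mul_comm I, Complex.exp_ofReal_mul_I_im]
        push_cast; ring
      have s4 : ‖1 - t (j + 1)‖ ≤ (j + 1) / m := by
        have e4 : 1 - t (j + 1) = (δ:ℂ) * ω ^ (j + 1) - (ω ^ (j + 1) - 1) := by
          simp only [ht]; push_cast; ring
        have h5 := Real.norm_exp_I_mul_ofReal_sub_one_le (x := ((j + 1 : ℕ) * θ : ℝ))
        rw [← hωj, Real.norm_of_nonneg (by positivity)] at h5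
        rw [e4]
        refine (norm_sub_le _ _).trans ?_
        rw [norm_mul, norm_pow, hωn, one_pow, mul_one, Complex.norm_real,
          Real.norm_of_nonneg δ0.le, le_div_iff₀ (by positivity)]
        push_cast at h5
        have h7 := mul_le_mul_of_nonneg_right h5 (by positivity : (0:ℝ) ≤ m)
        nlinarith
      have s5 : 0 < ‖1 - t (j + 1)‖ := norm_pos_iff.2 (d1 _)
      rw [one_div (1 - t (j + 1)), Complex.inv_im, Complex.normSq_eq_norm_sq,
        le_div_iff₀ (by positivity)]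
      simp only [Complex.sub_im, Complex.one_im, zero_sub, neg_neg, s3]
      have s6 := pow_le_pow_left₀ s5.le s4 2
      have s7 : (m:ℝ) / 4 * ((j:ℝ) + 1)⁻¹ * ((j + 1) / m) ^ 2 = 1 / 2 * ((j + 1) / (2 * m)) := by
        field_simp; ring
      have s8 : (0:ℝ) ≤ (j + 1) / (2 * m) := by positivity
      refine (mul_le_mul_of_nonneg_left s6 (by positivity)).trans ?_
      rw [s7]
      rw [s2] at s1
      nlinarith
    have h5 : 0 ≤ (m:ℝ) / 4 * Real.log (2 * m) :=
      mul_nonneg (by positivity) (Real.log_nonneg (by linarith))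
    nlinarith
  · rintro (_ | j)
    · simp
    · simp only [Option.elim_some, tn]; linarith
  · rintro w hw (_ | j)
    · simp only [Option.elim_none, uu, mul_zero, sub_zero, div_one]
      linarith [n1w w hw]
    · simp only [Option.elim_some, uu, norm_div]
      rw [div_le_iff₀ (δ0.trans_le (dge w hw j))]
      nlinarith [n1w w hw, dge w hw j]
  · rw [Fintype.sum_option]
    simp only [Option.elim_none, Option.elim_some]
    rw [Fin.sum_univ_eq_sum_range (fun j => 1 / 20 * ((-1:ℂ) ^ j * (1 / (1 - t j)))), ← mul_sum]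
    simp [hg]
  · intro w hw
    rw [Fintype.sum_option]
    simp only [Option.elim_none, Option.elim_some]
    rw [Fin.sum_univ_eq_sum_range
      (fun j => 1 / 20 * ((-1:ℂ) ^ j * (1 / (1 - t j))) * uu w (t j))]
    have e : ∑ j ∈ range (2 * m), 1 / 20 * ((-1:ℂ) ^ j * (1 / (1 - t j))) * uu w (t j)
        = 1 / 20 * (g 1 - w * g w) := by
      simp only [hg, mul_sum, ← sum_sub_distrib]
      refine sum_congr rfl fun j _ => ?_
      have a := dne w hw j
      have b := d1 j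
      have c : t j * w = w * t j := mul_comm _ _
      simp only [uu, one_mul]
      have k : 1 / (1 - t j) * ((1 - w) / (1 - w * t j)) = 1 / (1 - t j) - w * (1 / (1 - w * t j)) := by
        rw [div_mul_div_comm, mul_one_div, div_sub_div _ _ b a]; congr 1; ring
      linear_combination (1 / 20 * (-1) ^ j) * k
    have e2 : -(1 / 20 * g 1) * uu w 0 + 1 / 20 * (g 1 - w * g w) = 1 / 20 * (w * (g 1 - g w)) := by
      simp only [uu, mul_zero, sub_zero, div_one]; ring
    rw [e, e2, norm_mul, norm_mul]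
    have := (norm_sub_le (g 1) (g w)).trans (add_le_add (G 1 (by simp)) (G w hw))
    have h6 := (mul_le_of_le_one_left (norm_nonneg (g 1 - g w)) hw).trans this
    norm_num
    linarith
  · intro w hw
    rw [Fintype.sum_option]
    simp only [Option.elim_none, Option.elim_some]
    rw [Fin.sum_univ_eq_sum_range
      (fun j => ‖1 / 20 * ((-1:ℂ) ^ j * (1 / (1 - t j)))‖ * ‖uu w (t j)‖ ^ 2)]
    have a1 : ‖-(1 / 20 * g 1)‖ * ‖uu w 0‖ ^ 2 ≤ 26 * m := by
      simp only [uu, mul_zero, sub_zero, div_one, norm_neg, norm_mul]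
      have := G 1 (by simp)
      have h7 := pow_le_pow_left₀ (norm_nonneg _) (n1w w hw) 2
      norm_num
      nlinarith [norm_nonneg (g 1), sq_nonneg ‖1 - w‖]
    have a2 : ∀ j : ℕ, ‖1 / 20 * ((-1:ℂ) ^ j * (1 / (1 - t j)))‖ * ‖uu w (t j)‖ ^ 2
        ≤ 4 / 5 * m + 1 / 5 * (1 / ‖1 - w * t j‖ ^ 2) := by
      intro j
      have a := dne w hw j
      have e : uu w (t j) = 1 - w * (1 - t j) * (1 / (1 - w * t j)) := by
        simp only [uu]; field_simp; ring
      have b1 : ‖uu w (t j)‖ ≤ 1 + ‖1 - t j‖ * (1 / ‖1 - w * t j‖) := by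
        rw [e]
        refine (norm_sub_le _ _).trans ?_
        rw [norm_one, norm_mul, norm_mul, norm_div, norm_one]
        gcongr
        exact mul_le_of_le_one_left (norm_nonneg _) hw
      have b2 : δ ≤ ‖1 - t j‖ := by simpa using dge 1 (by simp) j
      have b3 : ‖1 - t j‖ ≤ 2 := n1w _ (by rw [tn]; linarith)
      have b4 := pow_le_pow_left₀ (norm_nonneg _) b1 2
      rw [norm_mul, norm_mul, norm_pow, norm_neg, norm_one, one_pow, one_mul, norm_div, norm_div,
        norm_one, ← one_div_pow]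
      generalize 1 / ‖1 - w * t j‖ = y at *
      generalize ‖1 - t j‖ = x at *
      have x0 : 0 < x := by linarith
      refine (mul_le_mul_of_nonneg_left b4 (by positivity)).trans ?_
      have b5 : 1 / x ≤ 8 * m := by rw [div_le_iff₀ x0]; nlinarith
      have b6 : 1 / x * (1 + x * y) ^ 2 ≤ 2 * (1 / x) + 2 * x * y ^ 2 := by
        have : 2 * (1 / x) + 2 * x * y ^ 2 - 1 / x * (1 + x * y) ^ 2 = 1 / x * (1 - x * y) ^ 2 := by
          field_simp; ring
        have h8 : 0 ≤ 1 / x * (1 - x * y) ^ 2 := by positivity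
        linarith
      have b7 : ‖(20:ℂ)‖ = 20 := by simp
      rw [b7]
      nlinarith [sq_nonneg y]
    have a3 := sum_le_sum (s := range (2 * m)) fun j _ => a2 j
    rw [sum_add_distrib, ← mul_sum _ _ (1 / 5 : ℝ), sum_const, card_range, nsmul_eq_mul] at a3
    push_cast at a3
    nlinarith [S w hw]

end Pool.Agent.H29.Ritt
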