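import Mathlib

open Set Metric Finset Filter Topology
open scoped ENNReal

namespace Pool.Agent.H29.Shad

variable {𝕜 : Type} [RCLike 𝕜]

/-- signed sums -/
def sg {V : Type*} [AddCommGroup V] {n : ℕ} (δ : Fin n → Bool) (a : Fin n → V) : V :=
  ∑ i, if δ i then a i else -a i

lemma sum_succ {n : ℕ} (f : (Fin (n + 1) → Bool) → ℝ) :
    ∑ δ, f δ = ∑ δ : Fin n → Bool, (f (Fin.cons true δ) + f (Fin.cons false δ)) := by
  rw [← (Fin.consEquiv fun _ => Bool).sum_comp, Fintype.sum_prod_type, Fintype.sum_bool,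
    sum_add_distrib]
  rfl

lemma moments (n : ℕ) : ∀ a : Fin n → 𝕜, ∑ δ, ‖sg δ a‖ ^ 2 = 2 ^ n * ∑ i, ‖a i‖ ^ 2 ∧
    ∑ δ, ‖sg δ a‖ ^ 4 ≤ 3 * 2 ^ n * (∑ i, ‖a i‖ ^ 2) ^ 2 := by
  induction n with
  | zero => intro a; simp [sg]
  | succ n ih =>
    intro a
    obtain ⟨h2, h4⟩ := ih fun i => a i.succ
    have e1 : ∀ δ, sg (Fin.cons true δ) a = sg δ (fun i => a i.succ) + a 0 := fun δ => by
      simp [sg, Fin.sum_univ_succ, add_comm]
    have e2 : ∀ δ, sg (Fin.cons false δ) a = sg δ (fun i => a i.succ) - a 0 := fun δ => by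
      simp [sg, Fin.sum_univ_succ, add_comm, sub_eq_add_neg]
    have k : ∀ x y : 𝕜, ‖x + y‖ ^ 2 + ‖x - y‖ ^ 2 = 2 * ‖x‖ ^ 2 + 2 * ‖y‖ ^ 2 ∧
        ‖x + y‖ ^ 4 + ‖x - y‖ ^ 4 ≤ 2 * ‖x‖ ^ 4 + 12 * ‖y‖ ^ 2 * ‖x‖ ^ 2 + 2 * ‖y‖ ^ 4 := by
      intro x y
      have p := norm_add_sq (𝕜 := 𝕜) x y
      have q := norm_sub_sq (𝕜 := 𝕜) x y
      have r := (RCLike.abs_re_le_norm (inner 𝕜 x y)).trans (norm_inner_le_norm x y)
      have r2 := sq_le_sq' (abs_le.1 r).1 (abs_le.1 r).2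
      refine ⟨by linarith, ?_⟩
      rw [show ‖x + y‖ ^ 4 = (‖x + y‖ ^ 2) ^ 2 by ring, show ‖x - y‖ ^ 4 = (‖x - y‖ ^ 2) ^ 2 by ring,
        p, q]
      nlinarith
    rw [sum_succ, sum_succ, Fin.sum_univ_succ]
    simp only [e1, e2, (k _ _).1]
    constructor
    · rw [sum_add_distrib, ← mul_sum, h2]; simp; ring
    · refine (sum_le_sum fun δ _ => (k _ _).2).trans ?_
      rw [sum_add_distrib, sum_add_distrib, ← mul_sum, ← mul_sum, h2]
      simp only [sum_const, card_univ, Fintype.card_fun, Fintype.card_bool, Fintype.card_fin,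
        nsmul_eq_mul, Nat.cast_pow, Nat.cast_ofNat, pow_succ (2:ℝ) n]
      have : (0:ℝ) ≤ 2 ^ n * ‖a 0‖ ^ 4 := by positivity
      nlinarith

lemma khin {n : ℕ} (a : Fin n → 𝕜) : 2 ^ n * ∑ i, ‖a i‖ ≤ 4 * √n * ∑ δ, ‖sg δ a‖ := by
  obtain ⟨h2, h4⟩ := moments n a
  have c := sq_sum_le_card_mul_sum_sq (s := univ) (f := fun i => ‖a i‖)
  rw [card_univ, Fintype.card_fin] at c
  have s0 : 0 ≤ ∑ i, ‖a i‖ ^ 2 := by positivity
  have c2 : ∑ i, ‖a i‖ ≤ √n * √(∑ i, ‖a i‖ ^ 2) := by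
    rw [← Real.sqrt_mul (by positivity)]; exact Real.le_sqrt_of_sq_le c
  rw [← Real.sq_sqrt s0] at h2 h4
  have σ0 := Real.sqrt_nonneg (∑ i, ‖a i‖ ^ 2)
  generalize √(∑ i, ‖a i‖ ^ 2) = σ at *
  have p : (0:ℝ) < 2 ^ n := by positivity
  have h5 : 2 ^ n * σ ≤ 4 * ∑ δ, ‖sg δ a‖ := by
    rcases σ0.eq_or_lt with rfl | hσ
    · simp only [mul_zero]; positivity
    · have h6 : ∑ δ, (σ ^ 2 * ‖sg δ a‖ ^ 2 - ‖sg δ a‖ ^ 4 / 4) ≤ ∑ δ, σ ^ 3 * ‖sg δ a‖ := by
        refine sum_le_sum fun δ _ => ?_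
        have t0 := norm_nonneg (sg δ a)
        generalize ‖sg δ a‖ = t at t0
        have : 0 ≤ σ ^ 3 - σ ^ 2 * t + t ^ 3 / 4 := by
          nlinarith [mul_nonneg t0 (sq_nonneg (t - σ)), mul_nonneg σ0 (sq_nonneg (t - 3 / 2 * σ)),
            mul_pos hσ (mul_pos hσ hσ), mul_nonneg t0 (sq_nonneg σ)]
        nlinarith [mul_nonneg t0 this]
      rw [sum_sub_distrib, ← mul_sum, ← mul_sum, ← sum_div, h2] at h6
      apply le_of_mul_le_mul_left _ (pow_pos hσ 3)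
      nlinarith
  calc _ ≤ 2 ^ n * (√n * σ) := by gcongr
    _ = √n * (2 ^ n * σ) := by ring
    _ ≤ √n * (4 * ∑ δ, ‖sg δ a‖) := by gcongr
    _ = _ := by ring

lemma quot : ∃ (E F : Type) (_ : NormedAddCommGroup E) (_ : NormedSpace 𝕜 E) (_ : CompleteSpace E)
    (_ : NormedAddCommGroup F) (_ : NormedSpace 𝕜 F) (_ : CompleteSpace F) (q : E →L[𝕜] F),
    (∀ f, ∃ e, q e = f ∧ ‖e‖ ≤ ‖f‖) ∧ ∀ s : F →L[𝕜] E, ¬ ∀ f, q (s f) = f := by
  classical
  let F := lp (fun _ : ℕ => 𝕜) ∞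
  let Γ := closedBall (0 : F) 1
  have hΓ : ∀ γ : Γ, ‖ContinuousLinearMap.toSpanSingleton 𝕜 (γ : F)‖ ≤ 1 := fun γ => by
    simpa using mem_closedBall_zero_iff.1 γ.2
  let m := lp.mapCLM 1 (fun γ : Γ => ContinuousLinearMap.toSpanSingleton 𝕜 (γ : F)) zero_le_one hΓ
  let q := (lp.tsumCLM 𝕜 Γ F).comp m
  have hq : ∀ x, ‖q x‖ ≤ ‖x‖ := fun x => (lp.norm_tsum_le (m x)).trans (by
    simpa using m.le_of_opNorm_le (lp.norm_mapCLM_le _ _ _ _) x)
  refine ⟨lp (fun _ : Γ => 𝕜) 1, F, inferInstance, inferInstance, inferInstance, inferInstance,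
    inferInstance, inferInstance, q, fun f => ?_, fun s hs => ?_⟩
  · by_cases h0 : f = 0
    · exact ⟨0, by simp [h0], by rw [norm_zero]; exact norm_nonneg _⟩
    · have hn : (‖f‖ : 𝕜) ≠ 0 := by exact_mod_cast norm_ne_zero_iff.2 h0
      let γ : Γ := ⟨(‖f‖ : 𝕜)⁻¹ • f, by
        simp [Γ, norm_smul, inv_mul_cancel₀ (norm_ne_zero_iff.2 h0)]⟩
      refine ⟨lp.single 1 γ (‖f‖ : 𝕜), ?_, by
        rw [lp.norm_single one_pos, RCLike.norm_ofReal, abs_norm]⟩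
      show ∑' x : Γ, (lp.single (E := fun _ : Γ => 𝕜) 1 γ (‖f‖ : 𝕜)) x • (x : F) = f
      rw [tsum_eq_single γ fun x hx => by rw [lp.single_apply_ne _ _ _ hx, zero_smul],
        lp.single_apply_self, smul_smul, mul_inv_cancel₀ hn, one_smul]
  · have key : ∀ n : ℕ, (n:ℝ) ≤ 4 * √n * ‖s‖ := by
      intro n
      let e : Fin n → F := fun i => lp.single ∞ (i:ℕ) (1:𝕜)
      have h1 : ∀ δ, ‖sg δ fun i => s (e i)‖ ≤ ‖s‖ := by
        intro δ
        have : (sg δ fun i => s (e i)) = s (sg δ e) := by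
          simp only [sg, map_sum]
          exact sum_congr rfl fun i _ => by split_ifs <;> simp
        rw [this]
        refine (s.le_opNorm _).trans (mul_le_of_le_one_right (norm_nonneg _) ?_)
        refine lp.norm_le_of_forall_le zero_le_one fun j => ?_
        have h2 : (sg δ e : F) j = ∑ i, (if δ i then e i else -e i : F) j :=
          map_sum (lp.evalCLM 𝕜 (fun _ : ℕ => 𝕜) ∞ j) _ _
        rw [h2]
        refine (norm_sum_le _ _).trans ?_
        have h3 : ∀ i : Fin n, ‖(if δ i then e i else -e i : F) j‖ = if j = i then 1 else 0 := by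
          intro i
          have : ‖e i j‖ = if j = i then 1 else 0 := by
            simp only [e, lp.single_apply, Pi.single_apply]; split_ifs <;> simp
          split_ifs at this ⊢ <;> simpa using this
        simp only [h3]
        rw [Fin.sum_univ_eq_sum_range (fun i => if j = i then (1:ℝ) else 0), sum_ite_eq]
        split_ifs <;> simp
      have hs1 : ∀ x : lp (fun _ : Γ => 𝕜) 1, HasSum (fun γ => ‖x γ‖) ‖x‖ := fun x => by
        simpa using lp.hasSum_norm (p := 1) (by simp) x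
      have h4 : ∑ i, ‖s (e i)‖ ≤ 4 * √n * ‖s‖ := by
        refine hasSum_le_of_sum_le (hasSum_sum (s := univ) fun i _ => hs1 (s (e i))) fun t => ?_
        have p : (0:ℝ) < 2 ^ n := by positivity
        apply le_of_mul_le_mul_left _ p
        rw [mul_sum]
        refine (sum_le_sum fun γ _ => khin _).trans ?_
        rw [← mul_sum, sum_comm, mul_left_comm]
        refine mul_le_mul_of_nonneg_left ?_ (by positivity)
        refine (sum_le_sum (g := fun _ => ‖s‖) fun δ _ => ?_).trans (by simp)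
        refine le_trans (le_of_eq (sum_congr rfl fun γ _ => ?_))
          ((sum_le_hasSum t (fun _ _ => norm_nonneg _) (hs1 _)).trans (h1 δ))
        congr 1
        refine Eq.trans ?_ (map_sum (lp.evalCLM 𝕜 (fun _ : Γ => 𝕜) 1 γ) _ _).symm
        exact sum_congr rfl fun i _ => by split_ifs <;> rfl
      refine le_trans ?_ h4
      have h5 : ∀ i, 1 ≤ ‖s (e i)‖ := fun i => by
        have := hq (s (e i))
        rwa [hs, lp.norm_single (by simp), norm_one] at this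
      simpa using sum_le_sum (s := univ) fun i _ => h5 i
    obtain ⟨n, hn⟩ := exists_nat_gt ((4 * ‖s‖) ^ 2)
    have h1 := key n
    have h2 : 4 * ‖s‖ < √n := Real.lt_sqrt_of_sq_lt hn
    have h3 := Real.mul_self_sqrt (show (0:ℝ) ≤ n by positivity)
    have h4 : 0 < √(n:ℝ) := lt_of_le_of_lt (by positivity) h2
    nlinarith

lemma fwd {V : Type*} [NormedAddCommGroup V] [NormedSpace 𝕜 V] [CompleteSpace V] (w : ℤ → V)
    (G : ℤ → ℝ) (hw : ∀ n, ‖w n‖ ≤ G n) (hG : ∀ n, G (n + 1) ≤ 2 * G n) :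
    ∃ a : ℤ → V, ∀ n, a n = (4:𝕜)⁻¹ • a (n + 1) + w n ∧ ‖a n‖ ≤ 2 * G n := by
  have h1 : ∀ n (i : ℕ), G (n + i) ≤ 2 ^ i * G n := by
    intro n i
    induction i with
    | zero => simp
    | succ i ih =>
      have := hG (n + i)
      push_cast
      rw [← add_assoc, pow_succ]; linarith
  have h2 : ∀ n (i : ℕ), ‖((4:𝕜)⁻¹) ^ i • w (n + i)‖ ≤ G n * (1 / 2) ^ i := by
    intro n i
    have e : ((4:ℝ)⁻¹) ^ i * 2 ^ i = (1 / 2) ^ i := by rw [← mul_pow]; norm_num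
    rw [norm_smul, norm_pow, norm_inv, RCLike.norm_ofNat, ← e]
    have := mul_le_mul_of_nonneg_left ((hw _).trans (h1 n i))
      (by positivity : (0:ℝ) ≤ (4:ℝ)⁻¹ ^ i)
    linarith
  have h3 : ∀ n, HasSum (fun i : ℕ => G n * (1 / 2) ^ i) (G n * 2) := fun n =>
    hasSum_geometric_two.mul_left _
  have h4 : ∀ n, Summable fun i : ℕ => ((4:𝕜)⁻¹) ^ i • w (n + i) := fun n =>
    Summable.of_norm_bounded (h3 n).summable (h2 n)
  refine ⟨fun n => ∑' i : ℕ, ((4:𝕜)⁻¹) ^ i • w (n + i), fun n => ⟨?_, ?_⟩⟩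
  · simp only
    rw [(h4 n).tsum_eq_zero_add, ← (h4 (n + 1)).tsum_const_smul, add_comm]
    simp only [pow_zero, one_smul, Nat.cast_zero, add_zero, smul_smul, ← pow_succ']
    congr 2; funext i; push_cast; congr 2; ring
  · rw [mul_comm]; exact tsum_of_norm_bounded (h3 n) (h2 n)

lemma bwd {V : Type*} [NormedAddCommGroup V] [NormedSpace 𝕜 V] [CompleteSpace V] (w : ℤ → V)
    (G : ℤ → ℝ) (hw : ∀ n, ‖w n‖ ≤ G n) (hG : ∀ n, G n ≤ 2 * G (n + 1)) :
    ∃ b : ℤ → V, ∀ n, b n = (4:𝕜) • b (n + 1) + w n ∧ ‖b n‖ ≤ 2 * G n := by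
  obtain ⟨a, ha⟩ := fwd (𝕜 := 𝕜) (fun k => -((4:𝕜)⁻¹ • w (-k - 1))) (fun k => G (-k)) (fun k => by
    have h1 := hw (-k - 1)
    have h2 := hG (-k - 1)
    rw [sub_add_cancel] at h2
    rw [norm_neg, norm_smul, norm_inv, RCLike.norm_ofNat]
    linarith [norm_nonneg (w (-k - 1))]) fun k => by
      have := hG (-(k + 1))
      rwa [show -(k + 1) + 1 = -k by ring] at this
  refine ⟨fun n => a (-n), fun n => ⟨?_, by simpa using (ha (-n)).2⟩⟩
  have := (ha (-(n + 1))).1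
  rw [show -(n + 1) + 1 = -n by ring, show - -(n + 1) - 1 = n by ring] at this
  simp only [this, smul_add, smul_neg, smul_smul]
  rw [mul_inv_cancel₀ (by norm_num)]
  simp

end Pool.Agent.H29.Shad
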