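import Mathlib
import Pool.Agent.H29.Shad1

open Set Metric Finset Filter Topology
open scoped ENNReal

namespace Pool.Agent.H29.Shad

/-- The shadowing property of an invertible operator. -/
def Shadowing {𝕜 Y : Type*} [RCLike 𝕜] [NormedAddCommGroup Y] [NormedSpace 𝕜 Y]
    (T : Y →L[𝕜] Y) : Prop :=
  ∃ K : ℝ, 0 < K ∧ ∀ (z : ℤ → Y) (M : ℝ), (∀ n, ‖z n‖ ≤ M) →
    ∃ y : ℤ → Y, (∀ n, y (n + 1) - T (y n) = z n) ∧ ∀ n, ‖y n‖ ≤ K * M

/-- `M` is invariant under `T` and the restriction has spectral radius less than one, in the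
form given by the spectral radius formula. -/
def Contracting {𝕜 Y : Type*} [RCLike 𝕜] [NormedAddCommGroup Y] [NormedSpace 𝕜 Y]
    (T : Y →L[𝕜] Y) (M : Set Y) : Prop :=
  (∀ x ∈ M, T x ∈ M) ∧ ∃ C ρ : ℝ, 0 ≤ ρ ∧ ρ < 1 ∧ ∀ (k : ℕ), ∀ x ∈ M, ‖T^[k] x‖ ≤ C * ρ ^ k * ‖x‖

/-- `T`, with inverse `T'`, is generalized hyperbolic. -/
def GenHyp {𝕜 Y : Type*} [RCLike 𝕜] [NormedAddCommGroup Y] [NormedSpace 𝕜 Y]
    (T T' : Y →L[𝕜] Y) : Prop :=
  ∃ M N : Submodule 𝕜 Y, IsClosed (M : Set Y) ∧ IsClosed (N : Set Y) ∧ IsCompl M N ∧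
    Contracting T (M : Set Y) ∧ Contracting T' (N : Set Y)

variable {𝕜 : Type} [RCLike 𝕜]

lemma geo {Y : Type*} [NormedAddCommGroup Y] [NormedSpace 𝕜 Y] [CompleteSpace Y]
    {T P : Y →L[𝕜] Y} {M : Set Y} (h : Contracting T M) (hP : ∀ x, P x ∈ M) :
    ∃ R : Y →L[𝕜] Y, R = P + T * R := by
  obtain ⟨-, C, ρ, h0, h1, h2⟩ := h
  have hs : Summable fun k : ℕ => T ^ k * P := by
    refine Summable.of_norm_bounded ((summable_geometric_of_lt_one h0 h1).mul_left (|C| * ‖P‖))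
      fun k => ContinuousLinearMap.opNorm_le_bound _ (by positivity) fun x => ?_
    have := h2 k _ (hP x)
    rw [← ContinuousLinearMap.coe_pow'] at this
    refine this.trans ?_
    calc C * ρ ^ k * ‖P x‖ ≤ |C| * ρ ^ k * (‖P‖ * ‖x‖) := by
          gcongr
          exacts [le_abs_self C, P.le_opNorm x]
      _ = _ := by ring
  refine ⟨∑' k, T ^ k * P, ?_⟩
  rw [← hs.tsum_mul_left, hs.tsum_eq_zero_add]
  simp only [pow_zero, one_mul, pow_succ', mul_assoc]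

lemma rightInv {Y : Type*} [NormedAddCommGroup Y] [NormedSpace 𝕜 Y] [CompleteSpace Y]
    {T T' : Y →L[𝕜] Y} (hT : T * T' = 1) (h : GenHyp T T') :
    ∃ R : Y →L[𝕜] Y, ∀ y, T (R y) - R y = y := by
  obtain ⟨M, N, hM, hN, hc, h1, h2⟩ := h
  have ht := Submodule.IsCompl.isTopCompl_of_isClosed hc hM hN
  obtain ⟨R1, e1⟩ := geo h1 (P := M.projectionL N ht) (Submodule.projectionL_apply_mem ht)
  obtain ⟨R2, e2⟩ := geo h2 (P := N.projectionL M ht.symm) (Submodule.projectionL_apply_mem ht.symm)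
  refine ⟨T' * R2 - R1, fun y => ?_⟩
  have k1 := congrArg (fun S : Y →L[𝕜] Y => S y) e1
  have k2 := congrArg (fun S : Y →L[𝕜] Y => S y) e2
  have k3 := congrArg (fun S : Y →L[𝕜] Y => S (R2 y)) hT
  have k4 : M.projectionL N ht y + N.projectionL M ht.symm y = y :=
    Submodule.projection_add_projection_eq_self hc y
  simp only [ContinuousLinearMap.add_apply, ContinuousLinearMap.mul_apply,
    ContinuousLinearMap.one_apply, ContinuousLinearMap.sub_apply, map_sub] at *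
  rw [k3]
  linear_combination (norm := module) k2 + k1 + k4

lemma reindex {X : Type*} [NormedAddCommGroup X] {p : ℝ≥0∞} (x : lp (fun _ : ℤ => X) p)
    (c : ℤ) : ∃ y : lp (fun _ : ℤ => X) p, (∀ n, y n = x (n + c)) ∧ ‖y‖ = ‖x‖ := by
  have hx := lp.memℓp x
  have hm : Memℓp (fun n => x (n + c)) p := by
    obtain (rfl | rfl | hp) := p.trichotomy
    · rw [memℓp_zero_iff] at hx ⊢
      exact hx.preimage (f := fun n => n + c) (add_left_injective c).injOn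
    · rw [memℓp_infty_iff] at hx ⊢
      exact hx.mono (by rintro _ ⟨n, rfl⟩; exact ⟨_, rfl⟩)
    · rw [memℓp_gen_iff hp] at hx ⊢
      exact (Equiv.addRight c).summable_iff.2 hx
  refine ⟨⟨_, hm⟩, fun n => rfl, ?_⟩
  obtain (rfl | rfl | hp) := p.trichotomy
  · rw [lp.norm_eq_card_dsupport, lp.norm_eq_card_dsupport]
    congr 1
    exact Finset.card_bijective (fun n => n + c) (Equiv.addRight c).bijective fun n => by simp
  · rw [lp.norm_eq_ciSup, lp.norm_eq_ciSup]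
    exact (Equiv.addRight c).iSup_comp (g := fun n => ‖x n‖)
  · rw [lp.norm_eq_tsum_rpow hp, lp.norm_eq_tsum_rpow hp]
    congr 1
    exact (Equiv.addRight c).tsum_eq fun n => ‖x n‖ ^ p.toReal

lemma shiftOp {X : Type*} [NormedAddCommGroup X] [NormedSpace 𝕜 X] (p : ℝ≥0∞) [Fact (1 ≤ p)]
    (S : ℤ → X →L[𝕜] X) {C : ℝ} (hS : ∀ n, ‖S n‖ ≤ C) (c : ℤ) :
    ∃ T : lp (fun _ : ℤ => X) p →L[𝕜] lp (fun _ : ℤ => X) p, ∀ x n, T x n = S n (x (n + c)) := by
  choose τ h1 h2 using fun x : lp (fun _ : ℤ => X) p => reindex x c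
  let L : lp (fun _ : ℤ => X) p →ₗ[𝕜] lp (fun _ : ℤ => X) p :=
    { toFun := τ
      map_add' := fun x y => lp.ext (funext fun n => by simp [h1])
      map_smul' := fun a x => lp.ext (funext fun n => by simp [h1]) }
  refine ⟨(lp.mapCLM p S ((norm_nonneg _).trans (hS 0)) hS).comp
    (L.mkContinuous 1 fun x => by simp [L, h2]), fun x n => ?_⟩
  rw [← h1]; rfl

lemma shadow {X : Type*} [NormedAddCommGroup X] [NormedSpace 𝕜 X] (p : ℝ≥0∞) [Fact (1 ≤ p)]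
    (S : ℤ → X →L[𝕜] X) (T : lp (fun _ : ℤ => X) p →L[𝕜] lp (fun _ : ℤ => X) p)
    (hT : ∀ x n, T x n = S (n + 1) (x (n + 1))) {K : ℝ} (hK : 0 < K)
    (h : ∀ (w : ℤ → X) (G : ℤ → ℝ), (∀ n, ‖w n‖ ≤ G n) → (∀ n, G (n + 1) ≤ 2 * G n) →
      (∀ n, G n ≤ 2 * G (n + 1)) →
      ∃ v : ℤ → X, ∀ n, v n = S (n + 1) (v (n + 1)) + w n ∧ ‖v n‖ ≤ K * G n) : Shadowing T := by
  have hp : p ≠ 0 := (zero_lt_one.trans_le Fact.out).ne'
  have g0 : Summable fun j : ℤ => (1 / 2 : ℝ) ^ j.natAbs := by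
    refine Summable.of_nat_of_neg ?_ ?_ <;> simpa using summable_geometric_two
  set σ := ∑' j : ℤ, (1 / 2 : ℝ) ^ j.natAbs with hσ
  have σ0 : 0 ≤ σ := tsum_nonneg fun _ => by positivity
  refine ⟨K * (σ + 1), by positivity, fun z M hM => ?_⟩
  have M0 : 0 ≤ M := (norm_nonneg _).trans (hM 0)
  have zb : ∀ m n, ‖z m n‖ ≤ M := fun m n => (lp.norm_apply_le_norm hp _ _).trans (hM m)
  let G : ℤ → ℤ → ℝ := fun c n => ∑' i : ℤ, (1 / 2 : ℝ) ^ (i - n).natAbs * ‖z (c - i - 1) i‖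
  have sG : ∀ c n, Summable fun i : ℤ => (1 / 2 : ℝ) ^ (i - n).natAbs * ‖z (c - i - 1) i‖ :=
    fun c n => Summable.of_nonneg_of_le (fun _ => by positivity) 
      (fun i => mul_le_mul_of_nonneg_left (zb _ _) (by positivity))
      (((Equiv.subRight n).summable_iff.2 g0).mul_right M)
  have cmp : ∀ c n n', (∀ i, (i - n').natAbs ≤ (i - n).natAbs + 1) → G c n ≤ 2 * G c n' := by
    intro c n n' hn
    rw [← tsum_mul_left]
    refine (sG c n).tsum_le_tsum (fun i => ?_) ((sG c n').mul_left 2)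
    have := pow_le_pow_of_le_one (a := (1 / 2 : ℝ)) (by norm_num) (by norm_num) (hn i)
    rw [pow_succ] at this
    nlinarith [norm_nonneg (z (c - i - 1) i)]
  choose V hV using fun c => h (fun n => z (c - n - 1) n) (G c)
    (fun n => le_trans (by simp) ((sG c n).le_tsum n fun _ _ => by positivity))
    (fun n => cmp c _ _ fun i => by omega) (fun n => cmp c _ _ fun i => by omega)
  have key : ∀ m, ∃ g : lp (fun _ : ℤ => ℝ) p, (∀ n, g n = G (m + n) n) ∧ ‖g‖ ≤ σ * M := by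
    intro m
    choose u u1 u2 using fun j : ℤ => reindex (lp.toNorm (z (m - j - 1))) j
    have hb : ∀ j : ℤ, ‖(1 / 2 : ℝ) ^ j.natAbs • u j‖ ≤ (1 / 2 : ℝ) ^ j.natAbs * M := by
      intro j
      rw [norm_smul, u2, lp.norm_toNorm, Real.norm_of_nonneg (by positivity)]
      gcongr; exact hM _
    have hs := Summable.of_norm_bounded (g0.mul_right M) hb
    refine ⟨∑' j : ℤ, (1 / 2 : ℝ) ^ j.natAbs • u j, fun n => ?_,
      tsum_of_norm_bounded (g0.hasSum.mul_right M) hb⟩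
    refine ((lp.evalCLM ℝ (fun _ : ℤ => ℝ) p n).map_tsum hs).trans ?_
    rw [← (Equiv.subRight n).tsum_eq]
    refine tsum_congr fun i => ?_
    show (1 / 2 : ℝ) ^ (i - n).natAbs * u (i - n) n = _
    rw [u1, show n + (i - n) = i by ring, show m - (i - n) - 1 = m + n - i - 1 by ring]
    rfl
  choose g g1 g2 using key
  have hb : ∀ m n, ‖V (m + n) n‖ ≤ ‖(K • g m) n‖ := fun m n =>
    (hV _ n).2.trans (by rw [← g1]; exact Real.le_norm_self _)
  refine ⟨fun m => ⟨fun n => V (m + n) n, (lp.memℓp (K • g m)).mono' (hb m)⟩, fun m => ?_,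
    fun m => (lp.norm_mono hp (hb m)).trans ?_⟩
  · refine lp.ext (funext fun n => ?_)
    rw [lp.coeFn_sub, Pi.sub_apply, hT]
    show V (m + 1 + n) n - S (n + 1) (V (m + (n + 1)) (n + 1)) = _
    rw [show m + (n + 1) = m + 1 + n by ring, (hV (m + 1 + n) n).1,
      show m + 1 + n - n - 1 = m by ring]
    simp
  · rw [norm_smul, Real.norm_of_nonneg hK.le]
    nlinarith [mul_le_mul_of_nonneg_left (g2 m) hK.le, mul_nonneg hK.le M0]

lemma diag {E F : Type*} [NormedAddCommGroup E] [NormedSpace 𝕜 E] [CompleteSpace E]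
    [NormedAddCommGroup F] [NormedSpace 𝕜 F] [CompleteSpace F] (q : E →L[𝕜] F)
    (hq : ∀ f, ∃ e, q e = f ∧ ‖e‖ ≤ ‖f‖) (S : ℤ → E × F → E × F)
    (h1 : ∀ n x, 1 ≤ n → S (n + 1) x = ((4:𝕜) • x.1, (4:𝕜)⁻¹ • x.2))
    (h2 : ∀ x, S (0 + 1) x = (x.1, x.2 + q x.1))
    (h3 : ∀ n x, n ≤ -1 → S (n + 1) x = ((4:𝕜)⁻¹ • x.1, (4:𝕜) • x.2))
    (w : ℤ → E × F) (G : ℤ → ℝ) (hw : ∀ n, ‖w n‖ ≤ G n) (g1 : ∀ n, G (n + 1) ≤ 2 * G n)
    (g2 : ∀ n, G n ≤ 2 * G (n + 1)) :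
    ∃ v : ℤ → E × F, ∀ n, v n = S (n + 1) (v (n + 1)) + w n ∧ ‖v n‖ ≤ 30 * G n := by
  have w1 : ∀ n, ‖(w n).1‖ ≤ G n := fun n => (norm_fst_le _).trans (hw n)
  have w2 : ∀ n, ‖(w n).2‖ ≤ G n := fun n => (norm_snd_le _).trans (hw n)
  have G0 : ∀ n, 0 ≤ G n := fun n => (norm_nonneg _).trans (hw n)
  obtain ⟨a, ha⟩ := fwd (𝕜 := 𝕜) _ G w1 g1
  obtain ⟨b, hb⟩ := bwd (𝕜 := 𝕜) _ G w1 g2
  obtain ⟨c, hc⟩ := fwd (𝕜 := 𝕜) _ G w2 g1
  obtain ⟨d, hd⟩ := bwd (𝕜 := 𝕜) _ G w2 g2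
  obtain ⟨e, he, hn⟩ := hq (d 0 - c 1 - (w 0).2)
  have g01 : G 1 ≤ 2 * G 0 := g1 0
  have hn2 : ‖e‖ ≤ 7 * G 0 := by
    linarith [norm_sub_le (d 0 - c 1) (w 0).2, norm_sub_le (d 0) (c 1), (hd 0).2, (hc 1).2, w2 0]
  have gu : ∀ i : ℕ, G 0 ≤ 2 ^ i * G i ∧ G 0 ≤ 2 ^ i * G (-i) := by
    intro i
    induction i with
    | zero => simp
    | succ i ih =>
      have k1 := g2 i
      have k2 := g1 (-(i + 1))
      rw [show -((i:ℤ) + 1) + 1 = -i by ring] at k2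
      have p : (0:ℝ) < 2 ^ i := by positivity
      push_cast
      rw [pow_succ]
      constructor <;> nlinarith [ih.1, ih.2]
  have sm : ∀ (i : ℕ) (x : E) (t : ℝ), ‖x‖ ≤ 2 ^ i * t → ‖(4:𝕜)⁻¹ ^ i • x‖ ≤ t := by
    intro i x t hx
    have t0 : 0 ≤ t := nonneg_of_mul_nonneg_right ((norm_nonneg _).trans hx) (by positivity)
    have e : ((4:ℝ)⁻¹) ^ i * 2 ^ i ≤ 1 := by
      rw [← mul_pow]; exact pow_le_one₀ (by norm_num) (by norm_num)
    rw [norm_smul, norm_pow, norm_inv, RCLike.norm_ofNat]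
    have := mul_le_mul_of_nonneg_left hx (by positivity : (0:ℝ) ≤ (4:ℝ)⁻¹ ^ i)
    nlinarith
  have f4 : (4:𝕜) * 4⁻¹ = 1 := mul_inv_cancel₀ (by norm_num)
  refine ⟨fun n => if 1 ≤ n then (b n + (4:𝕜)⁻¹ ^ (n - 1).toNat • (e - b 1), c n)
    else (a n + (4:𝕜)⁻¹ ^ (-n).toNat • (e + (w 0).1 - a 0), d n), fun n => ⟨?_, ?_⟩⟩
  · rcases lt_trichotomy n 0 with h | rfl | h
    · rw [h3 n _ (by omega)]
      simp only [if_neg (show ¬ 1 ≤ n by omega), if_neg (show ¬ 1 ≤ n + 1 by omega)]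
      refine Prod.ext ?_ (hd n).1
      rw [show (-n).toNat = (-(n + 1)).toNat + 1 by omega, pow_succ', mul_smul]
      simp only [Prod.fst_add, smul_add]
      rw [(ha n).1]; abel
    · rw [h2]
      refine Prod.ext (by simp) ?_
      simp only [zero_add, le_refl, if_true, show ¬ (1:ℤ) ≤ 0 by omega, if_false, sub_self,
        Int.toNat_zero, pow_zero, one_smul, add_sub_cancel, he, Prod.snd_add]
      abel
    · rw [h1 n _ (by omega)]
      simp only [if_pos (show 1 ≤ n by omega), if_pos (show 1 ≤ n + 1 by omega)]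
      refine Prod.ext ?_ (hc n).1
      rw [show (n + 1 - 1).toNat = (n - 1).toNat + 1 by omega, pow_succ', mul_smul]
      simp only [Prod.fst_add, smul_add, smul_smul (4:𝕜) 4⁻¹, f4, one_smul]
      rw [(hb n).1]; abel
  · dsimp only
    split_ifs with h
    · refine norm_prod_le_iff.2 ⟨(norm_add_le _ _).trans ?_, by linarith [(hc n).2, G0 n]⟩
      have k := (gu ((n - 1).toNat + 1)).1
      rw [show (((n - 1).toNat + 1 : ℕ) : ℤ) = n by omega, pow_succ] at k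
      have := sm (n - 1).toNat (e - b 1) (22 * G n) (by
        linarith [norm_sub_le e (b 1), (hb 1).2])
      linarith [(hb n).2, G0 n]
    · refine norm_prod_le_iff.2 ⟨(norm_add_le _ _).trans ?_, by linarith [(hd n).2, G0 n]⟩
      have k := (gu (-n).toNat).2
      rw [show -(((-n).toNat : ℕ) : ℤ) = n by omega] at k
      have := sm (-n).toNat (e + (w 0).1 - a 0) (10 * G n) (by
        linarith [norm_sub_le (e + (w 0).1) (a 0), norm_add_le e (w 0).1, (ha 0).2, w1 0])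
      linarith [(ha n).2, G0 n]

lemma van {V : Type*} [NormedAddCommGroup V] [NormedSpace 𝕜 V] (u : ℕ → V) {M : ℝ}
    (hM : ∀ i, ‖u i‖ ≤ M) (h : ∀ i, u (i + 1) = (4:𝕜) • u i) : u 0 = 0 := by
  have h1 : ∀ i, ‖u i‖ = 4 ^ i * ‖u 0‖ := by
    intro i
    induction i with
    | zero => simp
    | succ i ih => rw [h, norm_smul, ih, RCLike.norm_ofNat]; ring
  by_contra h0
  have p := norm_pos_iff.2 h0
  obtain ⟨i, hi⟩ := pow_unbounded_of_one_lt (M / ‖u 0‖) (show (1:ℝ) < 4 by norm_num)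
  rw [div_lt_iff₀ p] at hi
  linarith [hM i, h1 i]

end Pool.Agent.H29.Shad
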