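import Mathlib

namespace Pool.Agent.H29.Sign

open Filter Topology Finset

/-- The sign coded by a Boolean. -/
def sg (b : Bool) : ℝ := if b then 1 else -1

lemma abs_sg (b : Bool) : |sg b| = 1 := by cases b <;> simp [sg]

def σ : ℕ → ℕ
  | 0 => 0
  | k + 1 => σ k + 3 * ((k + 1) ^ 2 * 4 ^ σ k)

def P (k : ℕ) : ℕ := (k + 1) ^ 2 * 4 ^ σ k

lemma σ_succ (k : ℕ) : σ (k + 1) = σ k + 3 * P k := rfl

lemma P_pos (k : ℕ) : 0 < P k := by unfold P; positivity

lemma σ_mono : StrictMono σ := strictMono_nat_of_lt_succ fun k => by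
  have := P_pos k
  rw [σ_succ]; omega

lemma ex_st (p : ℕ) : ∃ k, p < σ (k + 1) := ⟨p, σ_mono.id_le (p + 1)⟩

def st (p : ℕ) : ℕ := Nat.find (ex_st p)

lemma st_eq {p k : ℕ} (h1 : σ k ≤ p) (h2 : p < σ (k + 1)) : st p = k := by
  rw [st, Nat.find_eq_iff]
  exact ⟨h2, fun j hj => not_lt.2 ((σ_mono.monotone hj).trans h1)⟩

lemma st_tendsto : Tendsto st atTop atTop := by
  refine tendsto_atTop.2 fun k => ?_
  filter_upwards [eventually_ge_atTop (σ k)] with p hp
  rw [st, Nat.le_find_iff]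
  exact fun j hj => not_lt.2 ((σ_mono.monotone hj).trans hp)

noncomputable def c (p : ℕ) : ℝ × ℝ :=
  (1 / (st p + 1), if p < σ (st p) + P (st p) then 1 / (4 ^ σ (st p) * (st p + 1)) else 0)

lemma c_u {p k : ℕ} (h1 : σ k ≤ p) (h2 : p < σ k + P k) :
    c p = (1 / (k + 1 : ℝ), 1 / (4 ^ σ k * (k + 1 : ℝ))) := by
  rw [c, st_eq h1 (by rw [σ_succ]; omega), if_pos h2]

lemma c_w {p k : ℕ} (h1 : σ k + P k ≤ p) (h2 : p < σ (k + 1)) : c p = (1 / (k + 1 : ℝ), 0) := by
  rw [c, st_eq (by omega) h2, if_neg (by omega)]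

lemma norm_c (p : ℕ) : ‖c p‖ ≤ 1 / (st p + 1) := by
  rw [c, Prod.norm_def, max_le_iff, Real.norm_of_nonneg (by positivity)]
  refine ⟨le_rfl, ?_⟩
  split_ifs
  · rw [Real.norm_of_nonneg (by positivity)]
    exact one_div_le_one_div_of_le (by positivity)
      (le_mul_of_one_le_left (by positivity) (one_le_pow₀ (by norm_num)))
  · simp only [norm_zero]
    positivity

noncomputable def a (n : ℕ) : ℝ × ℝ :=
  if n % 3 = 0 then (0, (1 / 2) ^ (n / 3)) else
    if n % 3 = 1 then ((1 / 2) ^ (n / 3), 0) else c (n / 3 / 2)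

lemma div_tendsto {q : ℕ} (hq : 0 < q) : Tendsto (fun n : ℕ => n / q) atTop atTop :=
  Nat.tendsto_div_const_atTop hq.ne'

lemma a_tendsto : Tendsto a atTop (𝓝 0) := by
  have h1 : Tendsto (fun n : ℕ => (1 / 2 : ℝ) ^ (n / 3)) atTop (𝓝 0) :=
    (tendsto_pow_atTop_nhds_zero_of_lt_one (by norm_num) (by norm_num)).comp
      (div_tendsto (by norm_num))
  have h2 : Tendsto (fun n : ℕ => 1 / ((st (n / 3 / 2) : ℝ) + 1)) atTop (𝓝 0) :=
    tendsto_one_div_add_atTop_nhds_zero_nat.comp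
      (st_tendsto.comp ((div_tendsto two_pos).comp (div_tendsto (by norm_num))))
  refine squeeze_zero_norm (fun n => ?_) (by simpa using h1.add h2)
  have a1 : (0 : ℝ) ≤ ((st (n / 3 / 2) : ℝ) + 1)⁻¹ := by positivity
  have a2 : (0 : ℝ) ≤ ((2 : ℝ) ^ (n / 3))⁻¹ := by positivity
  unfold a
  split_ifs
  · simpa [Prod.norm_def] using a1
  · simpa [Prod.norm_def] using a1
  · have := norm_c (n / 3 / 2)
    rw [one_div] at this
    linarith

noncomputable def S (e : ℕ → Bool) (N : ℕ) : ℝ × ℝ := ∑ n ∈ range N, sg (e n) • a n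

lemma S_three (e : ℕ → Bool) (M : ℕ) : S e (3 * M) =
    (∑ m ∈ range M, sg (e (3 * m + 1)) * (1 / 2) ^ m, ∑ m ∈ range M, sg (e (3 * m)) * (1 / 2) ^ m)
      + ∑ m ∈ range M, sg (e (3 * m + 2)) • c (m / 2) := by
  induction M with
  | zero => simp [S, Prod.ext_iff]
  | succ M ih =>
    have h0 : a (3 * M) = (0, (1 / 2) ^ M) := by simp [a]
    have h1 : a (3 * M + 1) = ((1 / 2) ^ M, 0) := by
      rw [a, if_neg (by omega), if_pos (by omega), show (3 * M + 1) / 3 = M by omega]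
    have h2 : a (3 * M + 2) = c (M / 2) := by
      rw [a, if_neg (by omega), if_neg (by omega), show (3 * M + 2) / 3 = M by omega]
    unfold S at ih ⊢
    rw [show 3 * (M + 1) = 3 * M + 1 + 1 + 1 by ring]
    simp only [sum_range_succ, ih, h0, h1]
    rw [show 3 * M + 1 + 1 = 3 * M + 2 by ring, h2]
    ext <;> simp <;> ring

lemma tendsto_of_mul {u : ℕ → ℝ × ℝ} (hu : Tendsto u atTop (𝓝 0)) {q : ℕ} (hq : 0 < q) {L : ℝ × ℝ}
    (h : Tendsto (fun M => ∑ n ∈ range (q * M), u n) atTop (𝓝 L)) :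
    Tendsto (fun N => ∑ n ∈ range N, u n) atTop (𝓝 L) := by
  have h1 := h.comp (div_tendsto hq)
  have h2 : Tendsto (fun N => ∑ r ∈ range (N % q), u (q * (N / q) + r)) atTop (𝓝 0) := by
    have h3 : Tendsto (fun N => ∑ r ∈ range q, ‖u (q * (N / q) + r)‖) atTop
        (𝓝 (∑ r ∈ range q, ‖(0 : ℝ × ℝ)‖)) := by
      refine tendsto_finset_sum _ fun r _ => (hu.comp ?_).norm
      exact tendsto_atTop_mono (fun N => by nlinarith [Nat.zero_le (N / q)]) (div_tendsto hq)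
    refine squeeze_zero_norm (fun N => (norm_sum_le _ _).trans ?_) (by simpa using h3)
    exact sum_le_sum_of_subset_of_nonneg (range_subset_range.2 (Nat.mod_lt _ hq).le)
      fun _ _ _ => norm_nonneg _
  have h4 := h1.add h2
  rw [add_zero] at h4
  refine h4.congr fun N => ?_
  simp only [Function.comp]
  rw [← sum_range_add, Nat.div_add_mod]

lemma binary {y : ℝ} (hy : |y| ≤ 2) : ∃ d : ℕ → Bool,
    Tendsto (fun M => ∑ m ∈ range M, sg (d m) * (1 / 2 : ℝ) ^ m) atTop (𝓝 y) := by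
  obtain ⟨r, hr0, hr⟩ : ∃ r : ℕ → ℝ, r 0 = y ∧
      ∀ i, r (i + 1) = r i - sg (decide (0 ≤ r i)) * (1 / 2) ^ i :=
    ⟨fun n => Nat.rec y (fun i (z : ℝ) => z - sg (decide (0 ≤ z)) * (1 / 2) ^ i) n, rfl,
      fun _ => rfl⟩
  have h1 : ∀ i, |r i| ≤ 2 * (1 / 2) ^ i := by
    intro i
    induction i with
    | zero => simpa [hr0] using hy
    | succ i ih =>
      rw [hr, pow_succ]
      rw [abs_le] at ih ⊢
      by_cases h : 0 ≤ r i
      · simp only [h, decide_true, sg, if_true]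
        constructor <;> linarith [ih.1, ih.2]
      · simp only [h, decide_false, sg, Bool.false_eq_true, if_false]
        constructor <;> linarith [ih.1, ih.2]
  have h2 : ∀ M, ∑ m ∈ range M, sg (decide (0 ≤ r m)) * (1 / 2 : ℝ) ^ m = y - r M := by
    intro M
    induction M with
    | zero => simp [hr0]
    | succ M ih => rw [sum_range_succ, ih, hr]; ring
  refine ⟨fun m => decide (0 ≤ r m), ?_⟩
  simp only [h2]
  have h3 : Tendsto r atTop (𝓝 0) := squeeze_zero_norm h1 (by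
    simpa using (tendsto_pow_atTop_nhds_zero_of_lt_one (r := (1 / 2 : ℝ)) (by norm_num)
      (by norm_num)).const_mul 2)
  simpa using h3.const_sub y

lemma sum_pairs (f : ℕ → ℝ × ℝ) (p : ℕ) :
    ∑ m ∈ range (2 * p), f m = ∑ q ∈ range p, (f (2 * q) + f (2 * q + 1)) := by
  induction p with
  | zero => simp
  | succ p ih => rw [show 2 * (p + 1) = 2 * p + 1 + 1 by ring]; simp [sum_range_succ, ih, add_assoc]

lemma natAbs_sg (t : ℤ) : (t.natAbs : ℝ) * sg (decide (0 ≤ t)) = t := by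
  rw [Nat.cast_natAbs]
  by_cases h : 0 ≤ t
  · simp [h, sg, abs_of_nonneg]
  · simp [h, sg, abs_of_neg (not_le.1 h)]

lemma coarse (k : ℕ) (t t' : ℤ) (ht : t.natAbs ≤ P k) (ht' : t'.natAbs ≤ 2 * P k) :
    ∃ g : ℕ → Bool, ∀ p, σ (k + 1) ≤ p → ∑ m ∈ range (2 * p), sg (g m) • c (m / 2) =
      (2 * (t + t') / (k + 1 : ℝ), 2 * t / (4 ^ σ k * (k + 1 : ℝ))) := by
  set A := Ico (σ k) (σ k + t.natAbs)
  set B := Ico (σ k + P k) (σ k + P k + t'.natAbs)
  refine ⟨fun m => if m / 2 ∈ A then decide (0 ≤ t) else if m / 2 ∈ B then decide (0 ≤ t')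
    else decide (m % 2 = 0), fun p hp => ?_⟩
  rw [sum_pairs]
  rw [σ_succ] at hp
  have h : ∀ q ∈ range p, sg (if 2 * q / 2 ∈ A then decide (0 ≤ t) else if 2 * q / 2 ∈ B then
      decide (0 ≤ t') else decide (2 * q % 2 = 0)) • c (2 * q / 2) +
      sg (if (2 * q + 1) / 2 ∈ A then decide (0 ≤ t) else if (2 * q + 1) / 2 ∈ B then
      decide (0 ≤ t') else decide ((2 * q + 1) % 2 = 0)) • c ((2 * q + 1) / 2) =
      (if q ∈ A then (2 * sg (decide (0 ≤ t))) • (1 / (k + 1 : ℝ), 1 / (4 ^ σ k * (k + 1 : ℝ)))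
        else 0) +
      (if q ∈ B then (2 * sg (decide (0 ≤ t'))) • (1 / (k + 1 : ℝ), (0 : ℝ)) else 0) := by
    intro q _
    rw [show 2 * q / 2 = q by omega, show (2 * q + 1) / 2 = q by omega,
      show 2 * q % 2 = 0 by omega, show (2 * q + 1) % 2 = 1 by omega]
    by_cases hA : q ∈ A
    · have hA' := mem_Ico.1 hA
      have hB : q ∉ B := fun hB => by have := mem_Ico.1 hB; omega
      rw [if_pos hA, if_pos hA, if_pos hA, if_neg hB, c_u hA'.1 (by omega), add_zero, two_mul,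
        add_smul]
    · by_cases hB : q ∈ B
      · have hB' := mem_Ico.1 hB
        rw [if_neg hA, if_neg hA, if_neg hA, if_pos hB, if_pos hB, if_pos hB,
          c_w hB'.1 (by rw [σ_succ]; omega), zero_add, two_mul, add_smul]
      · simp [hA, hB, sg]
  rw [sum_congr rfl h, sum_add_distrib, sum_ite_mem, sum_ite_mem, sum_const, sum_const,
    inter_eq_right.2, inter_eq_right.2]
  · simp only [A, B, Nat.card_Ico, Nat.add_sub_cancel_left]
    rw [← natAbs_sg t, ← natAbs_sg t']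
    simp only [Prod.smul_mk, Prod.mk_add_mk, smul_eq_mul, nsmul_eq_mul]
    ext
    · simp only
      ring
    · simp only
      ring
  · intro q hq
    have := mem_Ico.1 hq
    exact mem_range.2 (by omega)
  · intro q hq
    have := mem_Ico.1 hq
    exact mem_range.2 (by omega)

lemma floor_natAbs {x : ℝ} {n : ℕ} (h : |x| ≤ n) : ⌊x⌋.natAbs ≤ n := by
  rw [abs_le] at h
  have h1 : (-(n : ℤ)) ≤ ⌊x⌋ := Int.le_floor.2 (by push_cast; exact h.1)
  have h2 : ⌊x⌋ ≤ (n : ℤ) := by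
    have := (Int.floor_le x).trans h.2
    exact_mod_cast this
  omega

lemma approx (x D : ℝ) (hD : 1 ≤ D) : |x - 2 * ⌊x * D / 2⌋ / D| ≤ 2 := by
  have h1 := Int.floor_le (x * D / 2)
  have h2 := Int.lt_floor_add_one (x * D / 2)
  have hD0 : 0 < D := by linarith
  have : x - 2 * ⌊x * D / 2⌋ / D = 2 * (x * D / 2 - ⌊x * D / 2⌋) / D := by field_simp
  rw [this, abs_div, abs_of_pos hD0, div_le_iff₀ hD0, abs_le]
  constructor <;> linarith

lemma exists_sign (L : ℝ × ℝ) : ∃ e : ℕ → Bool, Tendsto (S e) atTop (𝓝 L) := by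
  obtain ⟨k, hk⟩ := exists_nat_ge ‖L‖
  have h4 : (1 : ℝ) ≤ 4 ^ σ k := one_le_pow₀ (by norm_num)
  have hk0 : (0 : ℝ) ≤ k := Nat.cast_nonneg k
  have l1 : |L.1| ≤ k := (norm_fst_le L).trans hk
  have l2 : |L.2| ≤ k := (norm_snd_le L).trans hk
  have hP : (P k : ℝ) = (k + 1) ^ 2 * 4 ^ σ k := by simp [P]
  have b1 : ⌊L.1 * (k + 1) / 2⌋.natAbs ≤ P k := floor_natAbs (by
    rw [abs_div, abs_mul, abs_of_pos (by positivity : (0 : ℝ) < k + 1), hP, abs_two]
    nlinarith [mul_le_mul_of_nonneg_right l1 (by positivity : (0 : ℝ) ≤ k + 1), sq_nonneg (k + 1 : ℝ)])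
  have b2 : ⌊L.2 * (4 ^ σ k * (k + 1)) / 2⌋.natAbs ≤ P k := floor_natAbs (by
    rw [abs_div, abs_mul, abs_of_pos (by positivity : (0 : ℝ) < 4 ^ σ k * (k + 1)), hP, abs_two]
    have := mul_le_mul_of_nonneg_right l2 (by positivity : (0 : ℝ) ≤ 4 ^ σ k * (k + 1))
    have h5 : (0 : ℝ) ≤ 4 ^ σ k * (k + 1) := by positivity
    nlinarith)
  obtain ⟨g, hg⟩ := coarse k ⌊L.2 * (4 ^ σ k * (k + 1)) / 2⌋
    (⌊L.1 * (k + 1) / 2⌋ - ⌊L.2 * (4 ^ σ k * (k + 1)) / 2⌋) b2 (by omega)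
  obtain ⟨dx, hx⟩ := binary (approx L.1 (k + 1) (by linarith))
  obtain ⟨dy, hy⟩ := binary (approx L.2 (4 ^ σ k * (k + 1)) (by nlinarith))
  set e : ℕ → Bool := fun n => if n % 3 = 0 then dy (n / 3) else if n % 3 = 1 then dx (n / 3)
    else g (n / 3) with he
  have e0 : ∀ m, e (3 * m) = dy m := fun m => by simp [he]
  have e1 : ∀ m, e (3 * m + 1) = dx m := fun m => by
    simp only [he]
    rw [if_neg (by omega), if_pos (by omega), show (3 * m + 1) / 3 = m by omega]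
  have e2 : ∀ m, e (3 * m + 2) = g m := fun m => by
    simp only [he]
    rw [if_neg (by omega), if_neg (by omega), show (3 * m + 2) / 3 = m by omega]
  refine ⟨e, tendsto_of_mul (q := 6) ?_ (by norm_num) ?_⟩
  · refine squeeze_zero_norm (fun n => ?_) (by simpa using a_tendsto.norm)
    rw [norm_smul, Real.norm_eq_abs, abs_sg, one_mul]
  · have h2 : Tendsto (fun p : ℕ => 2 * p) atTop atTop := tendsto_id.const_mul_atTop' two_pos
    have h := ((hx.comp h2).prodMk_nhds (hy.comp h2)).add_const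
      ((2 * ⌊L.1 * (k + 1) / 2⌋ / (k + 1 : ℝ),
        2 * ⌊L.2 * (4 ^ σ k * (k + 1)) / 2⌋ / (4 ^ σ k * (k + 1 : ℝ))) : ℝ × ℝ)
    simp only [Prod.mk_add_mk, sub_add_cancel] at h
    refine h.congr' ?_
    filter_upwards [eventually_ge_atTop (σ (k + 1))] with p hp
    have := S_three e (2 * p)
    rw [show 3 * (2 * p) = 6 * p by ring] at this
    unfold S at this
    rw [this]
    simp only [e0, e1, e2, hg p hp, Function.comp, Prod.mk_add_mk]
    push_cast
    simp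

end Pool.Agent.H29.Sign
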