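import Mathlib

set_option autoImplicit false

namespace Pool.Agent.H29.Snoha

open Set Filter Topology

abbrev Pt := ℤ × ℤ

def Near (D : ℕ) (p q : Pt) : Prop := |q.1 - p.1| ≤ D ∧ |q.2 - p.2| ≤ D

def RowLin (D : ℕ) (Z : Set Pt) (p : Pt) : Prop := ∃ r, ∀ q ∈ Z, Near D p q → q.2 = r
def ColLin (D : ℕ) (Z : Set Pt) (p : Pt) : Prop := ∃ r, ∀ q ∈ Z, Near D p q → q.1 = r
def Lin (D : ℕ) (Z : Set Pt) : Prop := ∀ p, RowLin D Z p ∨ ColLin D Z p

def GR (l R : ℕ) (Z : Set Pt) (c : Pt → Bool) (p : Pt) : Prop :=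
  ∀ s, ∃ i, |i - p.1| ≤ R ∧ ∀ u : ℤ, 0 ≤ u → u < l → (i + u, p.2) ∈ Z ∧ c (i + u, p.2) = s
def GC (l R : ℕ) (Z : Set Pt) (c : Pt → Bool) (p : Pt) : Prop :=
  ∀ s, ∃ i, |i - p.2| ≤ R ∧ ∀ u : ℤ, 0 ≤ u → u < l → (p.1, i + u) ∈ Z ∧ c (p.1, i + u) = s

lemma stepH (D l : ℕ) : ∃ D' R : ℕ, ∀ (Z : Set Pt) (c : Pt → Bool), Lin D' Z →
    ∃ (Z' : Set Pt) (c' : Pt → Bool), Z ⊆ Z' ∧ (∀ q ∈ Z, c' q = c q) ∧ Lin D Z' ∧
      (∀ p, RowLin D' Z p → RowLin D Z' p) ∧ ∀ p, ColLin D' Z p → GR l R Z' c' p := by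
  classical
  obtain ⟨K, hK⟩ : ∃ K : ℤ, K = 2 * D + 1 := ⟨_, rfl⟩
  obtain ⟨E, hE⟩ : ∃ E : ℤ, E = 2 * D + l + 1 := ⟨_, rfl⟩
  have K0 : 0 < K := by omega
  have E0 : 0 < E := by omega
  refine ⟨(4 * K * E + E).toNat + 2 * D + l, (4 * K * E).toNat, fun Z c hZ => ?_⟩
  have KE : 0 < K * E := mul_pos K0 E0
  let Ac : Set Pt := {q | q.1 % E < l ∧ (q.1 / E) % (2 * K) / 2 = q.2 % K ∧
    ∀ z ∈ Z, ¬ (q.1 / E * E - 2 * D ≤ z.1 ∧ z.1 ≤ q.1 / E * E + l + 2 * D ∧ |z.2 - q.2| ≤ 2 * D)}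
  have hdec : ∀ i : ℤ, i = i / E * E + i % E ∧ 0 ≤ i % E := fun i =>
    ⟨(Int.ediv_mul_add_emod i E).symm, Int.emod_nonneg _ E0.ne'⟩
  have hsep : ∀ p q, q ∈ Ac → Near D p q → ∀ q' ∈ Z ∪ Ac, Near D p q' → q'.2 = q.2 := by
    rintro p q ⟨a1, a2, a3⟩ ⟨n1, n2⟩ q' hq' ⟨m1, m2⟩
    rw [abs_le] at n1 n2 m1 m2
    obtain ⟨d1, d2⟩ := hdec q.1
    rcases hq' with h | ⟨b1, b2, -⟩
    · exact absurd ⟨by omega, by omega, by rw [abs_le]; omega⟩ (a3 q' h)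
    · obtain ⟨e1, e2⟩ := hdec q'.1
      have ht : q'.1 / E = q.1 / E := by
        by_contra hne
        rcases lt_or_gt_of_ne hne with h | h
        · have : (q'.1 / E + 1) * E ≤ q.1 / E * E := mul_le_mul_of_nonneg_right h E0.le
          rw [add_mul] at this
          omega
        · have : (q.1 / E + 1) * E ≤ q'.1 / E * E := mul_le_mul_of_nonneg_right h E0.le
          rw [add_mul] at this
          omega
      rw [ht, a2, Int.emod_eq_emod_iff_emod_sub_eq_zero] at b2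
      have := Int.eq_zero_of_abs_lt_dvd (Int.dvd_of_emod_eq_zero b2) (by rw [abs_lt]; omega)
      omega
  have hmono : ∀ p q, Near D p q → Near ((4 * K * E + E).toNat + 2 * D + l) p q :=
    fun p q h => ⟨h.1.trans (by omega), h.2.trans (by omega)⟩
  have hrow : ∀ p, (∃ q ∈ Ac, Near D p q) → RowLin D (Z ∪ Ac) p := by
    rintro p ⟨q, h1, h2⟩
    exact ⟨q.2, hsep p q h1 h2⟩
  refine ⟨Z ∪ Ac, fun q => if q ∈ Z then c q else decide ((q.1 / E) % 2 = 1), subset_union_left,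
    fun q hq => if_pos hq, fun p => ?_, fun p hp => ?_, fun p hp s => ?_⟩
  · by_cases h : ∃ q ∈ Ac, Near D p q
    · exact Or.inl (hrow p h)
    · push Not at h
      rcases hZ p with ⟨r, hr⟩ | ⟨r, hr⟩
      · exact Or.inl ⟨r, fun q hq hn => hr q (hq.resolve_right fun h' => h q h' hn) (hmono _ _ hn)⟩
      · exact Or.inr ⟨r, fun q hq hn => hr q (hq.resolve_right fun h' => h q h' hn) (hmono _ _ hn)⟩
  · by_cases h : ∃ q ∈ Ac, Near D p q
    · exact hrow p h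
    · push Not at h
      obtain ⟨r, hr⟩ := hp
      exact ⟨r, fun q hq hn => hr q (hq.resolve_right fun h' => h q h' hn) (hmono _ _ hn)⟩
  · obtain ⟨r, hr⟩ := hp
    obtain ⟨v, hv⟩ : ∃ v : ℤ, v = 2 * (p.2 % K) + (if s then 1 else 0) := ⟨_, rfl⟩
    have k0 := Int.emod_nonneg p.2 K0.ne'
    have k1 := Int.emod_lt_of_pos p.2 K0
    have v0 : 0 ≤ v ∧ v < 2 * K := by split_ifs at hv <;> omega
    obtain ⟨t, t0, t1, t2, t3⟩ : ∃ t, p.1 / E ≤ t ∧ t < p.1 / E + 4 * K ∧ t % (2 * K) = v ∧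
        ¬ (t * E - 2 * D ≤ r ∧ r ≤ t * E + l + 2 * D) := by
      have w0 := Int.emod_nonneg (v - p.1 / E) (show 2 * K ≠ 0 by omega)
      have w1 := Int.emod_lt_of_pos (v - p.1 / E) (show 0 < 2 * K by omega)
      have w2 : (p.1 / E + (v - p.1 / E) % (2 * K)) % (2 * K) = v := by
        rw [Int.add_emod_emod, add_sub_cancel, Int.emod_eq_of_lt v0.1 v0.2]
      by_cases h : (p.1 / E + (v - p.1 / E) % (2 * K)) * E - 2 * D ≤ r ∧
          r ≤ (p.1 / E + (v - p.1 / E) % (2 * K)) * E + l + 2 * D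
      · refine ⟨p.1 / E + (v - p.1 / E) % (2 * K) + 2 * K, by omega, by omega,
          by rw [Int.add_emod_right, w2], fun h' => ?_⟩
        have : E ≤ K * E := le_mul_of_one_le_left E0.le K0
        have := h'.1
        have := h.2
        nlinarith
      · exact ⟨_, by omega, by omega, w2, h⟩
    obtain ⟨d1, d2⟩ := hdec p.1
    have d3 := Int.emod_lt_of_pos p.1 E0
    have f1 : p.1 / E * E ≤ t * E := mul_le_mul_of_nonneg_right t0 E0.le
    have f2 : (t + 1) * E ≤ (p.1 / E + 4 * K) * E := mul_le_mul_of_nonneg_right t1 E0.le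
    have f3 : E ≤ K * E := le_mul_of_one_le_left E0.le K0
    rw [add_mul, add_mul, mul_assoc] at f2
    refine ⟨t * E, by rw [abs_le, mul_assoc]; omega, fun u u0 u1 => ?_⟩
    have g1 : (t * E + u) / E = t := by
      rw [add_comm, Int.add_mul_ediv_right _ _ E0.ne', Int.ediv_eq_zero_of_lt u0 (by omega),
        zero_add]
    have g2 : (t * E + u) % E = u := by
      rw [add_comm, Int.add_mul_emod_self_right, Int.emod_eq_of_lt u0 (by omega)]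
    have hfar : ∀ z ∈ Z, ¬ (t * E - 2 * D ≤ z.1 ∧ z.1 ≤ t * E + l + 2 * D ∧
        |z.2 - p.2| ≤ 2 * D) := by
      rintro z hz ⟨z1, z2, z3⟩
      have := hr z hz ⟨by rw [abs_le, mul_assoc]; omega, z3.trans (by omega)⟩
      exact t3 ⟨by omega, by omega⟩
    have hA : (t * E + u, p.2) ∈ Ac := by
      refine ⟨by simpa only [g2] using u1, ?_, by simpa only [g1] using hfar⟩
      simp only [g1, t2]
      split_ifs at hv <;> omega
    refine ⟨Or.inr hA, ?_⟩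
    have hnZ : (t * E + u, p.2) ∉ Z := fun h => hfar _ h ⟨by simp only; omega,
      by simp only; omega, by simp⟩
    simp only [if_neg hnZ, g1]
    have : t % 2 = v % 2 := by rw [← t2, Int.emod_emod_of_dvd _ (dvd_mul_right _ _)]
    cases s <;> simp at hv ⊢ <;> omega

lemma stepV (D l : ℕ) : ∃ D' R : ℕ, ∀ (Z : Set Pt) (c : Pt → Bool), Lin D' Z →
    ∃ (Z' : Set Pt) (c' : Pt → Bool), Z ⊆ Z' ∧ (∀ q ∈ Z, c' q = c q) ∧ Lin D Z' ∧
      ∀ p, RowLin D' Z p → GC l R Z' c' p := by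
  obtain ⟨D', R, h⟩ := stepH D l
  have r1 : ∀ (D : ℕ) (Z : Set Pt) (p : Pt), RowLin D Z p.swap → ColLin D (Prod.swap ⁻¹' Z) p :=
    fun D Z p ⟨r, hr⟩ => ⟨r, fun q hq hn => hr q.swap hq ⟨hn.2, hn.1⟩⟩
  have r2 : ∀ (D : ℕ) (Z : Set Pt) (p : Pt), ColLin D Z p.swap → RowLin D (Prod.swap ⁻¹' Z) p :=
    fun D Z p ⟨r, hr⟩ => ⟨r, fun q hq hn => hr q.swap hq ⟨hn.2, hn.1⟩⟩
  have r3 : ∀ (D : ℕ) (Z : Set Pt), Lin D Z → Lin D (Prod.swap ⁻¹' Z) :=
    fun D Z h p => ((h p.swap).imp (r1 D Z p) (r2 D Z p)).symm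
  refine ⟨D', R, fun Z c hZ => ?_⟩
  obtain ⟨Z', c', a1, a2, a3, -, a5⟩ := h (Prod.swap ⁻¹' Z) (c ∘ Prod.swap) (r3 _ _ hZ)
  exact ⟨Prod.swap ⁻¹' Z', c' ∘ Prod.swap, fun q hq => a1 (show q.swap.swap ∈ Z from hq),
    fun q hq => a2 q.swap hq, r3 _ _ a3, fun p hp => a5 p.swap (r1 _ _ _ hp)⟩

lemma step (D l : ℕ) : ∃ D' R : ℕ, ∀ (Z : Set Pt) (c : Pt → Bool), Lin D' Z →
    ∃ (Z' : Set Pt) (c' : Pt → Bool), Z ⊆ Z' ∧ (∀ q ∈ Z, c' q = c q) ∧ Lin D Z' ∧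
      ∀ p, GR l R Z' c' p ∨ GC l R Z' c' p := by
  obtain ⟨D1, R1, h1⟩ := stepV D l
  obtain ⟨D2, R2, h2⟩ := stepH D1 l
  refine ⟨D2, R1 + R2, fun Z c hZ => ?_⟩
  obtain ⟨Z1, c1, a1, a2, a3, a4, a5⟩ := h2 Z c hZ
  obtain ⟨Z2, c2, b1, b2, b3, b4⟩ := h1 Z1 c1 a3
  refine ⟨Z2, c2, a1.trans b1, fun q hq => (b2 q (a1 hq)).trans (a2 q hq), b3, fun p => ?_⟩
  rcases hZ p with h | h
  · refine Or.inr fun s => ?_
    obtain ⟨i, hi, hu⟩ := b4 p (a4 p h) s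
    exact ⟨i, hi.trans (by omega), hu⟩
  · refine Or.inl fun s => ?_
    obtain ⟨i, hi, hu⟩ := a5 p h s
    exact ⟨i, hi.trans (by omega), fun u u0 u1 =>
      ⟨b1 (hu u u0 u1).1, (b2 _ (hu u u0 u1).1).trans (hu u u0 u1).2⟩⟩

def Good (l R : ℕ) (x : Pt → Bool) : Prop := ∀ p, GR l R univ x p ∨ GC l R univ x p

lemma finite_level : ∃ R : ℕ → ℕ, ∀ N, ∃ x, ∀ l < N, Good l (R l) x := by
  choose D' R h using step
  let D : ℕ → ℕ := fun n => Nat.rec 0 (fun l d => D' d l) n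
  have key : ∀ N, ∀ (Z : Set Pt) (c : Pt → Bool), Lin (D N) Z →
      ∃ x : Pt → Bool, (∀ q ∈ Z, x q = c q) ∧ ∀ l < N, Good l (R (D l) l) x := by
    intro N
    induction N with
    | zero => exact fun Z c _ => ⟨c, fun _ _ => rfl, fun l hl => absurd hl (by omega)⟩
    | succ N ih =>
      intro Z c hZ
      obtain ⟨Z', c', a1, a2, a3, a4⟩ := h (D N) N Z c hZ
      obtain ⟨x, b1, b2⟩ := ih Z' c' a3
      refine ⟨x, fun q hq => (b1 q (a1 hq)).trans (a2 q hq), fun l hl => ?_⟩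
      rcases Nat.lt_succ_iff_lt_or_eq.mp hl with h | rfl
      · exact b2 l h
      · intro p
        refine (a4 p).imp (fun h s => ?_) (fun h s => ?_)
        · obtain ⟨i, hi, hu⟩ := h s
          exact ⟨i, hi, fun u u0 u1 => ⟨trivial, (b1 _ (hu u u0 u1).1).trans (hu u u0 u1).2⟩⟩
        · obtain ⟨i, hi, hu⟩ := h s
          exact ⟨i, hi, fun u u0 u1 => ⟨trivial, (b1 _ (hu u u0 u1).1).trans (hu u u0 u1).2⟩⟩
  refine ⟨fun l => R (D l) l, fun N => ?_⟩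
  obtain ⟨x, -, hx⟩ := key N ∅ (fun _ => true) fun p => Or.inl ⟨0, fun q hq => hq.elim⟩
  exact ⟨x, hx⟩

lemma closed_aux (l R : ℕ) (a : ℤ) (e : ℤ → Pt) : IsClosed {x : Pt → Bool | ∀ s, ∃ i, |i - a| ≤ R ∧
    ∀ u : ℤ, 0 ≤ u → u < l → e (i + u) ∈ (univ : Set Pt) ∧ x (e (i + u)) = s} := by
  rw [setOf_forall]
  refine isClosed_iInter fun s => ?_
  have : {x : Pt → Bool | ∃ i, |i - a| ≤ R ∧
      ∀ u : ℤ, 0 ≤ u → u < l → e (i + u) ∈ (univ : Set Pt) ∧ x (e (i + u)) = s} =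
      ⋃ i ∈ Set.Icc (a - R) (a + R), ⋂ u : ℤ, ⋂ _ : 0 ≤ u, ⋂ _ : u < l,
        {x : Pt → Bool | x (e (i + u)) = s} := by
    ext x
    simp only [mem_setOf_eq, mem_univ, true_and, mem_iUnion, mem_iInter, mem_Icc, exists_prop,
      abs_le]
    exact exists_congr fun i => and_congr_left fun _ => by omega
  rw [this]
  exact (Set.finite_Icc _ _).isClosed_biUnion fun i _ => isClosed_iInter fun u =>
    isClosed_iInter fun _ => isClosed_iInter fun _ => isClosed_eq (by fun_prop) continuous_const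

lemma good_closed (l R : ℕ) : IsClosed {x | Good l R x} := by
  unfold Good
  rw [setOf_forall]
  exact isClosed_iInter fun p => (closed_aux l R p.1 fun i => (i, p.2)).union
    (closed_aux l R p.2 fun i => (p.1, i))

lemma exists_good : ∃ R : ℕ → ℕ, ∃ x, ∀ l, Good l (R l) x := by
  obtain ⟨R, h⟩ := finite_level
  have hc : ∀ N, IsClosed {x | ∀ l < N, Good l (R l) x} := fun N => by
    simp only [setOf_forall]
    exact isClosed_iInter fun l => isClosed_iInter fun _ => good_closed l (R l)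
  obtain ⟨x, hx⟩ := IsCompact.nonempty_iInter_of_sequence_nonempty_isCompact_isClosed
    (fun N => {x | ∀ l < N, Good l (R l) x}) (fun N x hx l hl => hx l (by omega)) h
    (hc 0).isCompact hc
  exact ⟨R, x, fun l => mem_iInter.mp hx (l + 1) l (by omega)⟩

def sh (v : Pt) (x : Pt → Bool) : Pt → Bool := fun q => x (q + v)

lemma good_sh {l R : ℕ} {x : Pt → Bool} (h : Good l R x) (v : Pt) : Good l R (sh v x) := by
  intro p
  refine (h (p + v)).imp (fun h s => ?_) (fun h s => ?_)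
  · obtain ⟨i, hi, hu⟩ := h s
    refine ⟨i - v.1, by rwa [Prod.fst_add, ← sub_sub, sub_right_comm] at hi,
      fun u u0 u1 => ⟨trivial, ?_⟩⟩
    rw [← (hu u u0 u1).2, sh]
    congr 1
    ext <;> simp
    ring
  · obtain ⟨i, hi, hu⟩ := h s
    refine ⟨i - v.2, by rwa [Prod.snd_add, ← sub_sub, sub_right_comm] at hi,
      fun u u0 u1 => ⟨trivial, ?_⟩⟩
    rw [← (hu u u0 u1).2, sh]
    congr 1
    ext <;> simp
    ring

lemma noUR {X : Type} [TopologicalSpace X] (f : X → X) (φ : X → ℤ → Bool)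
    (hφ : ∀ i, Continuous fun x => φ x i) (hf : ∀ x i, φ (f x) i = φ x (i + 1)) (x : X)
    (h : ∀ U ∈ 𝓝 x, ∃ N : ℕ, ∀ m : ℕ, ∃ k : ℕ, m ≤ k ∧ k ≤ m + N ∧ f^[k] x ∈ U) :
    ∃ n : ℕ, ∀ l : ℕ, n ≤ l → ¬ ∀ s, ∃ i : ℤ, ∀ u : ℤ, 0 ≤ u → u < l → φ x (i + u) = s := by
  have hit : ∀ (k : ℕ) i, φ (f^[k] x) i = φ x (i + k) := by
    intro k
    induction k with
    | zero => simp
    | succ k ih => intro i; rw [Function.iterate_succ_apply', hf, ih]; push_cast; ring_nf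
  have h0 : ∀ i, ∀ᶠ y in 𝓝 x, φ y i = φ x i := fun i =>
    (hφ i).continuousAt.eventually (p := fun z => z = φ x i) (by simp [nhds_discrete])
  obtain ⟨N, hN⟩ := h _ (h0 0)
  refine ⟨N + 1, fun l hl hs => ?_⟩
  obtain ⟨i, hi⟩ := hs (!φ x 0)
  have h1 : ∀ᶠ y in 𝓝 x, ∀ u ∈ Finset.range (N + 1), φ y (i + u) = φ x (i + u) :=
    (eventually_all_finset _).mpr fun u _ => h0 _
  obtain ⟨N', hN'⟩ := h _ h1
  obtain ⟨k, k1, -, k2⟩ := hN' i.natAbs
  obtain ⟨j, j1, j2, j3⟩ := hN (i + k).toNat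
  have e1 := k2 (j - (i + k).toNat) (Finset.mem_range.mpr (by omega))
  have e2 : φ (f^[j] x) 0 = φ x 0 := j3
  rw [hit] at e1 e2
  rw [hi _ (by omega) (by omega), show i + ((j - (i + k).toNat : ℕ) : ℤ) + k = 0 + j by omega,
    e2] at e1
  simp at e1

theorem main : ¬ (∀ (X : Type) [MetricSpace X] [CompactSpace X] [Nonempty X]
      (f g : X → X), Continuous f → Continuous g → f ∘ g = g ∘ f →
      ∃ x : X,
        (∀ U ∈ 𝓝 x, ∃ N : ℕ, ∀ m : ℕ, ∃ k : ℕ, m ≤ k ∧ k ≤ m + N ∧ f^[k] x ∈ U) ∧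
        (∀ U ∈ 𝓝 x, ∃ N : ℕ, ∀ m : ℕ, ∃ k : ℕ, m ≤ k ∧ k ≤ m + N ∧ g^[k] x ∈ U)) := by
  intro H
  obtain ⟨R, x0, hx0⟩ := exists_good
  let XX : Set (Pt → Bool) := {x | ∀ l, Good l (R l) x}
  have hc : IsClosed XX := by
    simp only [XX, setOf_forall]
    exact isClosed_iInter fun l => good_closed l (R l)
  have hev : ∀ q, Continuous fun x : XX => x.1 q := fun q =>
    (continuous_apply q).comp continuous_subtype_val
  letI : MetricSpace XX := TopologicalSpace.metrizableSpaceMetric XX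
  haveI : CompactSpace XX := isCompact_iff_compactSpace.mp hc.isCompact
  haveI : Nonempty XX := ⟨⟨x0, hx0⟩⟩
  let F : Pt → XX → XX := fun v x => ⟨sh v x.1, fun l => good_sh (x.2 l) v⟩
  have hF : ∀ v, Continuous (F v) := fun v => by
    refine Continuous.subtype_mk ?_ _
    exact continuous_pi fun q => hev _
  obtain ⟨x, h1, h2⟩ := H XX (F (1, 0)) (F (0, 1)) (hF _) (hF _) (by
    funext x
    refine Subtype.ext (funext fun q => ?_)
    simp [F, sh, add_right_comm])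
  obtain ⟨n1, a1⟩ := noUR (F (1, 0)) (fun x i => x.1 (i, 0)) (fun i => hev _)
    (fun x i => by simp [F, sh]) x h1
  obtain ⟨n2, a2⟩ := noUR (F (0, 1)) (fun x i => x.1 (0, i)) (fun i => hev _)
    (fun x i => by simp [F, sh]) x h2
  rcases x.2 (n1 + n2) (0, 0) with h | h
  · refine a1 (n1 + n2) (by omega) fun s => ?_
    obtain ⟨i, -, hu⟩ := h s
    exact ⟨i, fun u u0 u1 => (hu u u0 u1).2⟩
  · refine a2 (n1 + n2) (by omega) fun s => ?_
    obtain ⟨i, -, hu⟩ := h s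
    exact ⟨i, fun u u0 u1 => (hu u u0 u1).2⟩

end Pool.Agent.H29.Snoha
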