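import Pool.Agent.H29.Lac

set_option autoImplicit false
open Filter Topology Set BoundedContinuousFunction
open Pool.Agent.H29.Lac

namespace Pool.Agent.H29.Space

noncomputable def al (j : ℕ) : ℝ := 1 / ((j : ℝ) + 2)
noncomputable def be (j : ℕ) : ℝ := 1 / ((j : ℝ) + 1)
noncomputable def mid (j : ℕ) : ℝ := (al j + be j) / 2

theorem al_pos (j : ℕ) : 0 < al j := by unfold al; positivity
theorem al_lt (j : ℕ) : al j < be j := by
  unfold al be
  exact one_div_lt_one_div_of_lt (by positivity) (by linarith)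
theorem be_le (j : ℕ) : be j ≤ 1 := by
  unfold be
  rw [div_le_one (by positivity)]
  have : (0 : ℝ) ≤ j := by positivity
  linarith
theorem mid_mem (j : ℕ) : mid j ∈ Ioo (al j) (be j) := by
  have := al_lt j
  unfold mid; constructor <;> linarith

theorem sub_I (j : ℕ) : Ioc (al j) (be j) ⊆ Icc 0 1 :=
  fun _ hx => ⟨((al_pos j).trans hx.1).le, hx.2.trans (be_le j)⟩

noncomputable def idx (x : ℝ) : ℕ := ⌊1 / x⌋₊ - 1

theorem idx_eq (j : ℕ) (x : ℝ) (hx : x ∈ Ioc (al j) (be j)) : idx x = j := by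
  have h0 : 0 < x := (al_pos j).trans hx.1
  have : ⌊1 / x⌋₊ = j + 1 := by
    rw [Nat.floor_eq_iff (by positivity)]
    push_cast
    constructor
    · have := hx.2
      unfold be at this
      rw [le_div_iff₀ (by positivity)] at this
      rw [le_div_iff₀ h0]; linarith
    · have := hx.1
      unfold al at this
      rw [div_lt_iff₀ (by positivity)] at this
      rw [div_lt_iff₀ h0]; linarith
  simp only [idx, this]; rfl

theorem idx_mem (x : ℝ) (h0 : 0 < x) (h1 : x ≤ 1) : x ∈ Ioc (al (idx x)) (be (idx x)) := by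
  have h2 : 1 ≤ ⌊1 / x⌋₊ := by
    apply Nat.le_floor
    rw [Nat.cast_one, le_div_iff₀ h0]; linarith
  have h3 : ((idx x : ℕ) : ℝ) = (⌊1 / x⌋₊ : ℝ) - 1 := by
    rw [idx, Nat.cast_sub h2, Nat.cast_one]
  have h4 := Nat.floor_le (show 0 ≤ 1 / x by positivity)
  have h5 := Nat.lt_floor_add_one (1 / x)
  have h6 : (1 : ℝ) ≤ ⌊1 / x⌋₊ := by exact_mod_cast h2
  unfold al be
  rw [h3]
  constructor
  · rw [div_lt_iff₀ (by linarith)]
    rw [div_lt_iff₀ h0] at h5; linarith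
  · rw [le_div_iff₀ (by linarith)]
    rw [le_div_iff₀ h0] at h4; linarith

theorem ex_g (j : ℕ) : ∃ f : ℝ → ℝ, tsupport f ⊆ Ioo (al j) (be j) ∧ HasCompactSupport f ∧
    ContDiff ℝ (⊤ : ℕ∞) f ∧ range f ⊆ Icc 0 1 ∧ f (mid j) = 1 :=
  exists_contDiff_tsupport_subset (Ioo_mem_nhds (mid_mem j).1 (mid_mem j).2)

noncomputable def g (j : ℕ) : ℝ → ℝ := (ex_g j).choose

theorem g_smooth (j : ℕ) : ContDiff ℝ (⊤ : ℕ∞) (g j) := (ex_g j).choose_spec.2.2.1
theorem g_mid (j : ℕ) : g j (mid j) = 1 := (ex_g j).choose_spec.2.2.2.2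
theorem g_abs (j : ℕ) (x : ℝ) : |g j x| ≤ 1 := by
  have : g j x ∈ Icc (0 : ℝ) 1 := (ex_g j).choose_spec.2.2.2.1 (mem_range_self x)
  exact abs_le.2 ⟨by linarith [this.1], this.2⟩
theorem g_zero (j : ℕ) (x : ℝ) (hx : x ∉ Ioo (al j) (be j)) : g j =ᶠ[𝓝 x] 0 :=
  notMem_tsupport_iff_eventuallyEq.1 fun h => hx ((ex_g j).choose_spec.1 h)

theorem ex_M0 : ∃ M0 : ℕ → ℝ, ∀ n j, j ≤ n → ∀ x ∈ Icc (0 : ℝ) 1, |iteratedDeriv n (g j) x| ≤ M0 n := by
  have h : ∀ n j, ∃ C, ∀ x ∈ Icc (0 : ℝ) 1, ‖iteratedDeriv n (g j) x‖ ≤ C := fun n j =>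
    isCompact_Icc.exists_bound_of_continuousOn
      ((g_smooth j).continuous_iteratedDeriv n (by exact_mod_cast le_top)).continuousOn
  choose C hC using h
  refine ⟨fun n => ∑ j ∈ Finset.range (n + 1), |C n j|, fun n j hj x hx => ?_⟩
  exact ((hC n j x hx).trans (le_abs_self _)).trans
    (Finset.single_le_sum (f := fun j => |C n j|) (fun _ _ => abs_nonneg _)
      (Finset.mem_range.2 (by omega)))

noncomputable def M0 : ℕ → ℝ := ex_M0.choose
noncomputable def MM (n : ℕ) : ℝ := M0 n + (n.factorial : ℝ) * (n : ℝ) ^ n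

noncomputable def H (c : ℕ →ᵇ ℝ) : ℝ → ℝ := T MM (fun k => c k.unpair.1) 0

noncomputable def Ph (c : ℕ →ᵇ ℝ) (x : ℝ) : ℝ := c (idx x) * g (idx x) x + H c x

theorem cb (c : ℕ →ᵇ ℝ) (k : ℕ) : |c k| ≤ ‖c‖ := c.norm_coe_le_norm k

theorem H_smooth (c : ℕ →ᵇ ℝ) : ContDiff ℝ (⊤ : ℕ∞) (H c) := T_smooth _ _ ‖c‖ fun _ => cb c _

theorem H_bd (c : ℕ →ᵇ ℝ) (x : ℝ) : |H c x| ≤ ‖c‖ / 2 := by
  have h1 := T_bd MM (fun k => c k.unpair.1) ‖c‖ (fun _ => cb c _) 0 x
  have h2 := mul_le_mul_of_nonneg_left (w_zero MM) (norm_nonneg c)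
  unfold H; linarith

theorem Ph_add (c d : ℕ →ᵇ ℝ) (x : ℝ) : Ph (c + d) x = Ph c x + Ph d x := by
  have : H (c + d) x = H c x + H d x := by
    unfold H T
    rw [← (term_summ MM _ ‖c‖ (fun _ => cb c _) 0 x).tsum_add (term_summ MM _ ‖d‖ (fun _ => cb d _) 0 x)]
    refine tsum_congr fun j => ?_
    simp only [coe_add, Pi.add_apply]; ring
  simp only [Ph, this, coe_add, Pi.add_apply]; ring

theorem Ph_smul (a : ℝ) (c : ℕ →ᵇ ℝ) (x : ℝ) : Ph (a • c) x = a * Ph c x := by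
  have : H (a • c) x = a * H c x := by
    unfold H T
    rw [← tsum_mul_left]
    refine tsum_congr fun j => ?_
    simp only [coe_smul, smul_eq_mul]; ring
  simp only [Ph, this, coe_smul, smul_eq_mul]; ring

theorem Ph_sub (c d : ℕ →ᵇ ℝ) (x : ℝ) : Ph (c - d) x = Ph c x - Ph d x := by
  have := Ph_add (c - d) d x
  rw [sub_add_cancel] at this; linarith

theorem Ph_bd (c : ℕ →ᵇ ℝ) (x : ℝ) : |Ph c x| ≤ 2 * ‖c‖ := by
  have h1 : |c (idx x) * g (idx x) x| ≤ ‖c‖ := by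
    rw [abs_mul]
    exact (mul_le_of_le_one_right (abs_nonneg _) (g_abs _ _)).trans (cb c _)
  have h2 := H_bd c x
  have h3 := abs_add_le (c (idx x) * g (idx x) x) (H c x)
  have := norm_nonneg c
  unfold Ph; linarith

theorem norm_le_of (c : ℕ →ᵇ ℝ) (ε : ℝ) (h : ∀ x ∈ Icc (0 : ℝ) 1, |Ph c x| ≤ ε) : ‖c‖ ≤ 2 * ε := by
  have h0 : 0 ≤ ε := (abs_nonneg _).trans (h 0 (by simp))
  have : ‖c‖ ≤ ε + ‖c‖ / 2 := by
    rw [BoundedContinuousFunction.norm_le (by positivity)]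
    intro j
    have hm : mid j ∈ Ioc (al j) (be j) := Ioo_subset_Ioc_self (mid_mem j)
    have h1 := h _ (sub_I j hm)
    rw [Ph, idx_eq j _ hm, g_mid, mul_one] at h1
    have h2 := H_bd c (mid j)
    rw [Real.norm_eq_abs]
    have h3 := abs_add_le (c j + H c (mid j)) (-H c (mid j))
    rw [add_neg_cancel_right, abs_neg] at h3
    linarith
  linarith

theorem closed (c : ℕ → ℕ →ᵇ ℝ) (F : ℝ → ℝ)
    (h : TendstoUniformlyOn (fun i => Ph (c i)) F atTop (Icc 0 1)) :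
    ∃ d : ℕ →ᵇ ℝ, ∀ x ∈ Icc (0 : ℝ) 1, F x = Ph d x := by
  have hc : CauchySeq c := by
    rw [Metric.cauchySeq_iff']
    intro ε hε
    obtain ⟨N, hN⟩ := eventually_atTop.1 (Metric.tendstoUniformlyOn_iff.1 h (ε / 8) (by positivity))
    refine ⟨N, fun n hn => ?_⟩
    rw [dist_eq_norm]
    have := norm_le_of (c n - c N) (ε / 4) fun x hx => by
      have h1 := hN n hn x hx
      have h2 := hN N le_rfl x hx
      rw [Real.dist_eq, abs_lt] at h1 h2
      rw [Ph_sub, abs_le]; constructor <;> linarith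
    linarith
  obtain ⟨d, hd⟩ := cauchySeq_tendsto_of_complete hc
  refine ⟨d, fun x hx => tendsto_nhds_unique (h.tendsto_at hx) ?_⟩
  rw [tendsto_iff_norm_sub_tendsto_zero] at hd ⊢
  refine squeeze_zero (fun _ => norm_nonneg _) (fun i => ?_) (by simpa using hd.const_mul 2)
  rw [← Ph_sub]; exact Ph_bd _ _

theorem big (c : ℕ →ᵇ ℝ) (hc : c ≠ 0) (F : ℝ → ℝ) (hF : ContDiffOn ℝ (⊤ : ℕ∞) F (Icc 0 1))
    (h : ∀ x ∈ Icc (0 : ℝ) 1, F x = Ph c x) (x : ℝ) (hx : x ∈ Icc (0 : ℝ) 1) (N : ℕ) :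
    ∃ n, N ≤ n ∧ (n.factorial : ℝ) * (n : ℝ) ^ n ≤ |iteratedDerivWithin n F (Icc 0 1) x| := by
  have hU : UniqueDiffOn ℝ (Icc (0 : ℝ) 1) := uniqueDiffOn_Icc one_pos
  have hG : ContDiffOn ℝ (⊤ : ℕ∞) (F - H c) (Icc 0 1) := hF.sub (H_smooth c).contDiffOn
  have key : ∀ n j, ∀ y ∈ Ioc (al j) (be j),
      iteratedDerivWithin n (F - H c) (Icc 0 1) y = c j * iteratedDeriv n (g j) y := by
    intro n j y hy
    have h1 : iteratedDerivWithin n (F - H c) (Icc 0 1) y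
        = iteratedDerivWithin n (F - H c) (Ioc (al j) (be j)) y := by
      simp only [iteratedDerivWithin]
      rw [iteratedFDerivWithin_subset (sub_I j) (uniqueDiffOn_Ioc _ _) hU
        (hG.of_le (by exact_mod_cast le_top)) hy]
    have h2 : EqOn (F - H c) (fun y => c j * g j y) (Ioc (al j) (be j)) := by
      intro z hz
      simp only [Pi.sub_apply, h z (sub_I j hz), Ph, idx_eq j z hz]; ring
    rw [h1, iteratedDerivWithin_congr h2 hy, iteratedDerivWithin_const_mul_field,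
      iteratedDerivWithin_eq_iteratedDeriv (uniqueDiffOn_Ioc _ _)
        ((g_smooth j).contDiffAt.of_le (by exact_mod_cast le_top)) hy]
  have key0 : ∀ n, iteratedDerivWithin n (F - H c) (Icc 0 1) 0 = 0 := by
    intro n
    have h1 := hG.continuousOn_iteratedDerivWithin (m := n) (by exact_mod_cast le_top) hU 0 (by simp)
    have h2 : Tendsto be atTop (𝓝[Icc 0 1] 0) :=
      tendsto_nhdsWithin_iff.2 ⟨tendsto_one_div_add_atTop_nhds_zero_nat,
        Eventually.of_forall fun j => sub_I j ⟨al_lt j, le_rfl⟩⟩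
    have h3 := h1.tendsto.comp h2
    have h4 : (iteratedDerivWithin n (F - H c) (Icc 0 1)) ∘ be = fun _ => 0 := by
      ext j
      rw [Function.comp, key n j _ ⟨al_lt j, le_rfl⟩,
        (g_zero j (be j) (by simp)).iteratedDeriv_eq n]
      simp
    rw [h4] at h3
    exact tendsto_nhds_unique h3 tendsto_const_nhds
  have hM : ∀ n, 0 ≤ M0 n := fun n =>
    (abs_nonneg _).trans (ex_M0.choose_spec n 0 (by omega) 0 (by simp))
  have key2 : ∀ n, idx x ≤ n → |iteratedDerivWithin n (F - H c) (Icc 0 1) x| ≤ ‖c‖ * M0 n := by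
    intro n hn
    rcases hx.1.eq_or_lt with rfl | h0
    · rw [key0, abs_zero]; exact mul_nonneg (norm_nonneg _) (hM n)
    · rw [key n _ x (idx_mem x h0 hx.2), abs_mul]
      exact mul_le_mul (cb c _) (ex_M0.choose_spec n _ hn x hx) (abs_nonneg _) (norm_nonneg _)
  obtain ⟨j, hj⟩ : ∃ j, c j ≠ 0 := by
    by_contra h1
    push Not at h1
    exact hc (BoundedContinuousFunction.ext h1)
  obtain ⟨m, hm⟩ := exists_nat_ge ((‖c‖ + 1) / |c j|)
  have hk := Nat.right_le_pair j (max m (max N (idx x)))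
  obtain ⟨n, hn, hb⟩ := Lac.big MM (fun k => c k.unpair.1) ‖c‖ (fun _ => cb c _)
    (Nat.pair j (max m (max N (idx x)))) x (by
      simp only [Nat.unpair_pair]
      rw [div_le_iff₀ (abs_pos.2 hj), mul_comm] at hm
      refine hm.trans (mul_le_mul_of_nonneg_left ?_ (abs_nonneg _))
      exact_mod_cast (le_max_left _ _).trans hk)
  refine ⟨n, by omega, ?_⟩
  have h5 : iteratedDerivWithin n (F - H c) (Icc 0 1) x
      = iteratedDerivWithin n F (Icc 0 1) x - T MM (fun k => c k.unpair.1) n x := by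
    rw [iteratedDerivWithin_sub hx hU ((hF x hx).of_le (by exact_mod_cast le_top))
      ((H_smooth c).contDiffAt.contDiffWithinAt.of_le (by exact_mod_cast le_top)),
      iteratedDerivWithin_eq_iteratedDeriv hU
        ((H_smooth c).contDiffAt.of_le (by exact_mod_cast le_top)) hx, H,
      T_iter _ _ ‖c‖ (fun _ => cb c _)]
  have h6 := key2 n (by omega)
  rw [h5] at h6
  have h7 : (0 : ℝ) ≤ (n.factorial : ℝ) * (n : ℝ) ^ n := by positivity
  rw [abs_of_nonneg (show 0 ≤ MM n from add_nonneg (hM n) h7), MM] at hb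
  have h8 := abs_sub_abs_le_abs_sub (T MM (fun k => c k.unpair.1) n x)
    (iteratedDerivWithin n F (Icc 0 1) x)
  rw [abs_sub_comm] at h8
  nlinarith [hM n, norm_nonneg c, mul_nonneg (norm_nonneg c) h7]

noncomputable def e (j : ℕ) : ℕ →ᵇ ℝ :=
  BoundedContinuousFunction.ofNormedAddCommGroupDiscrete (fun k => if k = j then 1 else 0) 1
    (fun k => by split_ifs <;> simp)

theorem e_apply (j k : ℕ) : e j k = if k = j then 1 else 0 := rfl

theorem Ph_e (j : ℕ) (x : ℝ) : Ph (e j) x = g j x + H (e j) x := by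
  rw [Ph, e_apply]
  split_ifs with h
  · rw [h, one_mul]
  · have : g j x = 0 := by
      by_contra h1
      have h2 : x ∈ Ioo (al j) (be j) := by
        by_contra h3
        exact h1 (g_zero j x h3).eq_of_nhds
      exact h (idx_eq j x (Ioo_subset_Ioc_self h2))
    rw [this, zero_mul]

theorem radius_zero {𝕜 : Type*} [RCLike 𝕜] (a : ℕ → 𝕜)
    (h : ∀ N : ℕ, ∃ n : ℕ, N ≤ n ∧ (n.factorial : ℝ) * (n : ℝ) ^ n ≤ ‖a n‖) :
    (FormalMultilinearSeries.ofScalars 𝕜 (fun n => a n / (n.factorial : 𝕜))).radius = 0 := by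
  by_contra h0
  obtain ⟨r, hr0, hr⟩ := ENNReal.lt_iff_exists_nnreal_btwn.1 (pos_iff_ne_zero.2 h0)
  obtain ⟨C, -, hC⟩ := FormalMultilinearSeries.norm_mul_pow_le_of_lt_radius _ hr
  have hr1 : (0 : ℝ) < r := by exact_mod_cast hr0
  obtain ⟨m, hm⟩ := exists_nat_ge (2 / (r : ℝ))
  obtain ⟨k, hk⟩ := pow_unbounded_of_one_lt C (by norm_num : (1 : ℝ) < 2)
  obtain ⟨n, hn, hb⟩ := h (max m k)
  have h1 := hC n
  rw [FormalMultilinearSeries.ofScalars_norm, norm_div, RCLike.norm_natCast] at h1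
  have h2 : (n : ℝ) ^ n ≤ ‖a n‖ / n.factorial := by
    rw [le_div_iff₀ (by positivity)]; linarith
  have h3 : (2 : ℝ) ≤ n * r := by
    rw [div_le_iff₀ hr1] at hm
    have : (m : ℝ) ≤ n := by exact_mod_cast (le_max_left _ _).trans hn
    nlinarith
  have h4 : (2 : ℝ) ^ k ≤ (n * r) ^ n :=
    (pow_le_pow_right₀ (by norm_num) ((le_max_right _ _).trans hn)).trans
      (pow_le_pow_left₀ (by norm_num) h3 n)
  have h5 : (n : ℝ) ^ n * r ^ n ≤ ‖a n‖ / n.factorial * r ^ n := by gcongr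
  rw [mul_pow] at h4
  linarith

end Pool.Agent.H29.Space
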