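import Mathlib

namespace Pool.Agent.H29.Supp
open MeasureTheory Set Filter Topology ContinuousLinearMap InnerProductSpace
open scoped ENNReal NNReal InnerProductSpace

variable {X Y Z : Type} [MeasurableSpace X] [MeasurableSpace Y] [MeasurableSpace Z]
  {μ : Measure X} {ν : Measure Y} {κ : Measure Z}

def Ex (a : Lp ℂ 2 μ →L[ℂ] Lp ℂ 2 ν) (l : ℝ≥0) : Prop :=
  ∀ ξ, ν {y | a ξ y ≠ 0} ≤ l * μ {x | ξ x ≠ 0}

lemma Ex.add {a b : Lp ℂ 2 μ →L[ℂ] Lp ℂ 2 ν} {l m} (ha : Ex a l) (hb : Ex b m) :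
    Ex (a + b) (l + m) := fun ξ => by
  have : {y | (a + b) ξ y ≠ 0} ≤ᵐ[ν] ({y | a ξ y ≠ 0} ∪ {y | b ξ y ≠ 0} : Set Y) := by
    filter_upwards [Lp.coeFn_add (a ξ) (b ξ)] with y hy h
    by_contra hc
    have c1 : a ξ y = 0 := by_contra fun h => hc (Or.inl h)
    have c2 : b ξ y = 0 := by_contra fun h => hc (Or.inr h)
    apply h
    rw [ContinuousLinearMap.add_apply, hy, Pi.add_apply, c1, c2, add_zero]
  refine (measure_mono_ae this).trans ((measure_union_le _ _).trans ?_)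
  rw [ENNReal.coe_add, add_mul]
  exact add_le_add (ha ξ) (hb ξ)

lemma Ex.smul {a : Lp ℂ 2 μ →L[ℂ] Lp ℂ 2 ν} {l} (ha : Ex a l) (c : ℂ) : Ex (c • a) l := fun ξ => by
  refine (measure_mono_ae ?_).trans (ha ξ)
  filter_upwards [Lp.coeFn_smul c (a ξ)] with y hy h h0
  apply h
  rw [ContinuousLinearMap.smul_apply, hy, Pi.smul_apply, h0, smul_zero]

lemma Ex.comp {a : Lp ℂ 2 ν →L[ℂ] Lp ℂ 2 κ} {b : Lp ℂ 2 μ →L[ℂ] Lp ℂ 2 ν} {l m} (ha : Ex a l)
    (hb : Ex b m) : Ex (a ∘L b) (l * m) := fun ξ => by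
  refine (ha (b ξ)).trans ?_
  rw [ENNReal.coe_mul, mul_assoc]
  gcongr
  exact hb ξ

lemma Ex.mono {a : Lp ℂ 2 μ →L[ℂ] Lp ℂ 2 ν} {l m} (ha : Ex a l) (h : l ≤ m) : Ex a m :=
  fun ξ => (ha ξ).trans (by gcongr)

def F (a : Lp ℂ 2 μ →L[ℂ] Lp ℂ 2 ν) : Prop := ∃ l, Ex a l ∧ Ex (adjoint a) l

lemma F.add {a b : Lp ℂ 2 μ →L[ℂ] Lp ℂ 2 ν} (ha : F a) (hb : F b) : F (a + b) := by
  obtain ⟨l, h1, h2⟩ := ha
  obtain ⟨m, h3, h4⟩ := hb
  exact ⟨l + m, h1.add h3, by rw [map_add]; exact h2.add h4⟩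

lemma F.smul {a : Lp ℂ 2 μ →L[ℂ] Lp ℂ 2 ν} (ha : F a) (c : ℂ) : F (c • a) := by
  obtain ⟨l, h1, h2⟩ := ha
  exact ⟨l, h1.smul c, by rw [map_smulₛₗ]; exact h2.smul _⟩

lemma F.comp {a : Lp ℂ 2 ν →L[ℂ] Lp ℂ 2 κ} {b : Lp ℂ 2 μ →L[ℂ] Lp ℂ 2 ν} (ha : F a) (hb : F b) :
    F (a ∘L b) := by
  obtain ⟨l, h1, h2⟩ := ha
  obtain ⟨m, h3, h4⟩ := hb
  exact ⟨l * m, h1.comp h3, by rw [adjoint_comp, mul_comm]; exact h4.comp h2⟩

lemma F.adj {a : Lp ℂ 2 μ →L[ℂ] Lp ℂ 2 ν} (ha : F a) : F (adjoint a) := by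
  obtain ⟨l, h1, h2⟩ := ha
  exact ⟨l, h2, by rwa [adjoint_adjoint]⟩

lemma le_sm (I : Set X) (c : ℝ≥0) : c • μ.restrict I ≤ (c : ℝ≥0∞) • μ := fun s => by
  simp only [Measure.smul_apply, Measure.nnreal_smul_coe_apply, smul_eq_mul, ENNReal.smul_def]
  gcongr
  exact Measure.restrict_le_self

lemma ae_sm (I : Set X) (c : ℝ≥0) {p : X → Prop} (h : ∀ᵐ x ∂μ.restrict I, p x) :
    ∀ᵐ x ∂(c • μ.restrict I), p x := Measure.ae_smul_measure h c

noncomputable def J (I : Set X) (c : ℝ≥0) : Lp ℂ 2 μ →L[ℂ] Lp ℂ 2 (c • μ.restrict I) where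
  toFun := Lp.LpToLpOfMeasureLeSMul ENNReal.coe_ne_top (le_sm I c)
  map_add' := map_add _
  map_smul' a f := Lp.ext (by
    filter_upwards [Lp.coeFn_LpToLpOfMeasureLeSMul ENNReal.coe_ne_top (le_sm I c) (a • f),
      Lp.coeFn_LpToLpOfMeasureLeSMul ENNReal.coe_ne_top (le_sm I c) f,
      Lp.coeFn_smul a (Lp.LpToLpOfMeasureLeSMul ENNReal.coe_ne_top (le_sm I c) f),
      ae_sm I c (ae_restrict_of_ae (Lp.coeFn_smul a f))] with x h1 h2 h3 h4
    rw [RingHom.id_apply, h1, h3, h4, Pi.smul_apply, Pi.smul_apply, h2])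
  cont := ContinuousLinearMap.continuous _

noncomputable def W (I : Set X) {c : ℝ≥0} {ρ : Y → X}
    (hρ : MeasurePreserving ρ ν (c • μ.restrict I)) : Lp ℂ 2 μ →L[ℂ] Lp ℂ 2 ν :=
  (Lp.compMeasurePreservingₗᵢ ℂ ρ hρ).toContinuousLinearMap ∘L J I c

lemma W_ae (I : Set X) {c : ℝ≥0} {ρ : Y → X} (hρ : MeasurePreserving ρ ν (c • μ.restrict I))
    (η : Lp ℂ 2 μ) : W I hρ η =ᵐ[ν] fun y => η (ρ y) :=
  (Lp.coeFn_compMeasurePreserving _ hρ).trans (hρ.quasiMeasurePreserving.ae_eq_comp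
    (Lp.coeFn_LpToLpOfMeasureLeSMul ENNReal.coe_ne_top (le_sm I c) η))

lemma msupp (ξ : Lp ℂ 2 μ) : MeasurableSet {x | ξ x ≠ 0} :=
  ((Lp.stronglyMeasurable ξ).measurable (measurableSet_singleton 0)).compl

lemma F_W {I : Set X} (hI : MeasurableSet I) {c : ℝ≥0} (hc0 : c ≠ 0) {ρ : Y → X}
    (hρ : MeasurePreserving ρ ν (c • μ.restrict I)) {π : X → Y}
    (hπ : MeasurePreserving π (c • μ.restrict I) ν) (h : ∀ᵐ y ∂ν, π (ρ y) = y) : F (W I hρ) := by
  refine ⟨c + c⁻¹, Ex.mono (l := c) (fun η => ?_) le_self_add,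
    Ex.mono (l := c⁻¹) (fun ξ => ?_) le_add_self⟩
  · have : {y | W I hρ η y ≠ 0} =ᵐ[ν] (ρ ⁻¹' {x | η x ≠ 0} : Set Y) := by
      filter_upwards [W_ae I hρ η] with y hy
      change (W I hρ η y ≠ 0) = (η (ρ y) ≠ 0)
      rw [hy]
    rw [measure_congr this, hρ.measure_preimage (msupp η).nullMeasurableSet]
    exact le_sm I c _
  · set C : Set X := π ⁻¹' {y | ξ y ≠ 0} ∩ I with hC
    have mC : MeasurableSet C := (hπ.measurable (msupp ξ)).inter hI
    have e : μ C = (c⁻¹ : ℝ≥0) * ν {y | ξ y ≠ 0} := by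
      rw [hC, ← Measure.restrict_apply' hI, ← hπ.measure_preimage (msupp ξ).nullMeasurableSet,
        Measure.coe_nnreal_smul_apply, ← mul_assoc, ← ENNReal.coe_mul, inv_mul_cancel₀ hc0]
      simp
    rw [← e]
    set ζ := adjoint (W I hρ) ξ with hζ
    have hm := (Lp.memLp ζ).indicator mC.compl
    have h1 : ⟪ζ, hm.toLp⟫_ℂ = 0 := by
      refine (adjoint_inner_left (W I hρ) _ ξ).trans ?_
      rw [L2.inner_def]
      apply integral_eq_zero_of_ae
      have a1 : ∀ᵐ y ∂ν, ρ y ∈ I := hρ.quasiMeasurePreserving.ae (ae_sm I c (ae_restrict_mem hI))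
      have a2 : ∀ᵐ y ∂ν, (hm.toLp _ : Lp ℂ 2 μ) (ρ y) = Cᶜ.indicator ζ (ρ y) :=
        hρ.quasiMeasurePreserving.ae (ae_sm I c (ae_restrict_of_ae hm.coeFn_toLp))
      filter_upwards [W_ae I hρ hm.toLp, a1, a2, h] with y b0 b1 b2 b3
      by_cases hy : ξ y = 0
      · simp [hy]
      · have : ρ y ∉ Cᶜ := fun hc => hc ⟨by simpa [b3] using hy, b1⟩
        rw [b0, b2, indicator_of_notMem this]
        simp
    have h2 : hm.toLp = 0 := by
      rw [← inner_self_eq_zero (𝕜 := ℂ), ← h1, L2.inner_def, L2.inner_def]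
      apply integral_congr_ae
      filter_upwards [hm.coeFn_toLp] with x hx
      rw [hx]
      by_cases hc : x ∈ Cᶜ
      · rw [indicator_of_mem hc]
      · rw [indicator_of_notMem hc]; simp
    apply measure_mono_ae
    filter_upwards [hm.coeFn_toLp, Lp.coeFn_zero ℂ 2 μ] with x a1 a2 hx
    by_contra hc
    rw [h2, a2, indicator_of_mem (show x ∈ Cᶜ from hc)] at a1
    exact hx a1.symm

lemma iso (ν : Measure Y) [StandardBorelSpace Y] [IsProbabilityMeasure ν] [NullSingletonClass ν] :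
    ∃ (ρ : Y → ℝ) (π : ℝ → Y), MeasurePreserving ρ ν (volume.restrict (Ioo 0 1)) ∧
      MeasurePreserving π (volume.restrict (Ioo 0 1)) ν ∧ ∀ᵐ y ∂ν, π (ρ y) = y := by
  have hY : ¬Countable Y := fun h => by
    have := (Set.countable_univ (α := Y)).measure_zero ν
    simp at this
  let φ : Y ≃ᵐ ℝ := PolishSpace.measurableEquivOfNotCountable hY not_countable
  let m : Measure ℝ := ν.map φ
  haveI : IsProbabilityMeasure m := Measure.isProbabilityMeasure_map φ.measurable.aemeasurable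
  let f := ProbabilityTheory.cdf m
  have fc : Continuous f := by
    rw [continuous_iff_continuousAt]
    intro a
    have h1 : f.measure {a} = 0 := by
      rw [ProbabilityTheory.measure_cdf, φ.map_apply]
      exact (Set.subsingleton_singleton.preimage φ.injective).measure_zero ν
    rw [StieltjesFunction.measure_singleton, ENNReal.ofReal_eq_zero, sub_nonpos] at h1
    rw [f.mono.continuousAt_iff_leftLim_eq_rightLim, f.rightLim_eq]
    exact le_antisymm (f.mono.leftLim_le le_rfl) h1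
  have sur : ∀ t ∈ Ioo (0 : ℝ) 1, ∃ x, f x = t := fun t ht => by
    obtain ⟨a, ha⟩ := ((ProbabilityTheory.tendsto_cdf_atBot m).eventually_lt_const ht.1).exists
    obtain ⟨b, hb⟩ := ((ProbabilityTheory.tendsto_cdf_atTop m).eventually_const_lt ht.2).exists
    exact intermediate_value_univ a b fc ⟨ha.le, hb.le⟩
  classical
  let G : ℝ → ℝ := fun t => if t ∈ Ioo (0 : ℝ) 1 then sInf {x | t ≤ f x} else 0
  have key : ∀ t ∈ Ioo (0 : ℝ) 1, ∀ x, G t ≤ x ↔ t ≤ f x := fun t ht x => by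
    obtain ⟨a, ha⟩ := ((ProbabilityTheory.tendsto_cdf_atBot m).eventually_lt_const ht.1).exists
    have bd : BddBelow {x | t ≤ f x} := ⟨a, fun y hy => by
      by_contra hc
      exact absurd (ha.trans_le hy) (not_lt.2 (f.mono (not_le.1 hc).le))⟩
    obtain ⟨b, hb⟩ := sur t ht
    simp only [G, if_pos ht]
    exact ⟨fun h => ((isClosed_le continuous_const fc).csInf_mem ⟨b, hb.ge⟩ bd).trans (f.mono h),
      fun h => csInf_le bd h⟩
  have fG : ∀ t ∈ Ioo (0 : ℝ) 1, f (G t) = t := fun t ht => by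
    obtain ⟨b, hb⟩ := sur t ht
    exact le_antisymm ((f.mono ((key t ht b).2 hb.ge)).trans hb.le) ((key t ht _).1 le_rfl)
  have mG : Measurable G := measurable_of_Iic fun x => by
    have : G ⁻¹' Iic x = (Ioo 0 1 ∩ Iic (f x)) ∪ ((Ioo 0 1)ᶜ ∩ {_t | 0 ≤ x}) := by
      ext t
      by_cases ht : t ∈ Ioo (0 : ℝ) 1
      · simp only [mem_preimage, mem_Iic, key t ht, mem_union, mem_inter_iff, ht, mem_compl_iff]
        simp
      · simp only [mem_preimage, mem_Iic, G, if_neg ht, mem_union, mem_inter_iff, ht,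
          mem_compl_iff]
        simp
    rw [this]
    exact (measurableSet_Ioo.inter measurableSet_Iic).union
      (measurableSet_Ioo.compl.inter (MeasurableSet.const _))
  have pG : MeasurePreserving G (volume.restrict (Ioo 0 1)) m := ⟨mG, by
    symm
    refine Measure.ext_of_Iic _ _ fun x => ?_
    have : G ⁻¹' Iic x ∩ Ioo 0 1 = Iic (f x) ∩ Ioo 0 1 := by
      ext t
      exact and_congr_left fun ht => key t ht x
    rw [Measure.map_apply mG measurableSet_Iic, Measure.restrict_apply' measurableSet_Ioo, this,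
      ← Measure.restrict_apply' measurableSet_Ioo, Measure.restrict_congr_set Ioo_ae_eq_Ioc,
      Measure.restrict_apply' measurableSet_Ioc, inter_comm, Ioc_inter_Iic,
      min_eq_right (ProbabilityTheory.cdf_le_one m x), Real.volume_Ioc, sub_zero,
      ProbabilityTheory.ofReal_cdf]⟩
  have pf : MeasurePreserving f m (volume.restrict (Ioo 0 1)) := ⟨fc.measurable, by
    rw [← pG.map_eq, Measure.map_map fc.measurable mG,
      Measure.map_congr (f := f ∘ G) (g := id) ((ae_restrict_mem measurableSet_Ioo).mono fG),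
      Measure.map_id]⟩
  have pφ : MeasurePreserving φ ν m := ⟨φ.measurable, rfl⟩
  refine ⟨f ∘ φ, φ.symm ∘ G, pf.comp pφ, (pφ.symm φ).comp pG, ?_⟩
  have h1 : ∀ᵐ x ∂m, G (f x) = x := by
    rw [← pG.map_eq, ae_map_iff (p := fun x => G (f x) = x) mG.aemeasurable
      (measurableSet_eq_fun (mG.comp fc.measurable) measurable_id)]
    filter_upwards [ae_restrict_mem measurableSet_Ioo] with t ht
    rw [fG t ht]
  filter_upwards [pφ.quasiMeasurePreserving.ae h1] with y hy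
  simp [hy]

lemma approx {H : Type} [NormedAddCommGroup H] [InnerProductSpace ℂ H] [CompleteSpace H]
    (C : Submodule ℂ (H →L[ℂ] H)) (hC : IsClosed (C : Set (H →L[ℂ] H)))
    (h : ∀ x y : H, rankOne ℂ x y ∈ C) (K : H →L[ℂ] H) (hK : IsCompactOperator K) : K ∈ C := by
  rw [← SetLike.mem_coe, ← hC.closure_eq, Metric.mem_closure_iff]
  intro ε hε
  have h1 := (hK.isCompact_closure_image_closedBall (f := K.toLinearMap) 1).totallyBounded.subset
    subset_closure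
  obtain ⟨t, ht, h2⟩ := Metric.totallyBounded_iff.1 h1 (ε / 2) (by positivity)
  let U : Submodule ℂ H := Submodule.span ℂ t
  haveI : FiniteDimensional ℂ U := FiniteDimensional.span_of_finite ℂ ht
  refine ⟨U.starProjection ∘L K, ?_, ?_⟩
  · rw [(stdOrthonormalBasis ℂ U).starProjection_eq_sum_rankOne, finset_sum_comp]
    exact C.sum_mem fun i _ => by rw [rankOne_comp]; exact h _ _
  · rw [dist_eq_norm]
    refine lt_of_le_of_lt (opNorm_le_of_unit_norm (C := ε / 2) (by positivity) fun x hx => ?_)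
      (by linarith)
    obtain ⟨y, hy, h3⟩ := mem_iUnion₂.1 (h2 ⟨x, by simp [hx], rfl⟩)
    have h4 : (K - U.starProjection ∘L K) x = Uᗮ.starProjection (K x - y) := by
      rw [Submodule.starProjection_orthogonal_val, map_sub,
        Submodule.starProjection_eq_self_iff.2 (Submodule.subset_span hy)]
      simp
    rw [h4]
    exact (Submodule.norm_starProjection_apply_le _ _).trans (by
      rw [← dist_eq_norm]; exact (Metric.mem_ball.1 h3).le)

end Pool.Agent.H29.Supp
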