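import Pool.Agent.H29.SuppA

namespace Pool.Agent.H29.Supp
open MeasureTheory Set Filter Topology ContinuousLinearMap InnerProductSpace
open scoped ENNReal NNReal InnerProductSpace

abbrev N2 : Type := Fin 2 → ℤ

def hc (c : ℤ) : N2 ≃ N2 where
  toFun n := ![n 1 - c * n 0, c * (n 1 - c * n 0) - n 0]
  invFun n := ![c * n 0 - n 1, n 0 + c * (c * n 0 - n 1)]
  left_inv n := by ext i; fin_cases i <;> simp
  right_inv n := by ext i; fin_cases i <;> simp

def Bc (c : ℤ) (n : N2) : Prop := n ≠ 0 ∧ |n 1 - c * n 0| ≤ |n 0|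

lemma hc_zero (c : ℤ) : hc c 0 = 0 := by ext i; fin_cases i <;> simp [hc]

lemma hc_eq (c : ℤ) (n : N2) : hc c n = 0 ↔ n = 0 := by
  rw [← hc_zero c, (hc c).apply_eq_iff_eq, hc_zero]

lemma ping (c : ℤ) (n : N2) (h0 : n ≠ 0) (h : ¬ Bc c n) : Bc c (hc c n) := by
  refine ⟨fun e => h0 ((hc_eq c n).1 e), ?_⟩
  have : ¬ |n 1 - c * n 0| ≤ |n 0| := fun e => h ⟨h0, e⟩
  simpa [hc] using (not_le.1 this).le

lemma disj (i j : Fin 5) (n : N2) (hi : Bc (3 * i) n) (hj : Bc (3 * j) n) : i = j := by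
  by_contra hne
  have h1 : (1 : ℤ) ≤ |(i : ℤ) - j| := Int.one_le_abs (by
    intro h; apply hne; ext; omega)
  have h2 : |3 * ((i : ℤ) - j) * n 0| ≤ |n 0| + |n 0| := by
    rw [show 3 * ((i : ℤ) - j) * n 0 = (n 1 - 3 * j * n 0) - (n 1 - 3 * i * n 0) by ring]
    exact (abs_sub _ _).trans (add_le_add hj.2 hi.2)
  rw [abs_mul, abs_mul, show |(3 : ℤ)| = 3 from rfl] at h2
  have h3 : n 0 = 0 := abs_eq_zero.1 (by nlinarith [abs_nonneg (n 0)])
  have h4 := hi.2
  rw [h3] at h4
  apply hi.1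
  ext k
  fin_cases k
  · exact h3
  · simpa using h4

theorem gap {H : Type} [NormedAddCommGroup H] [InnerProductSpace ℂ H] [CompleteSpace H]
    (b : HilbertBasis N2 ℂ H) (u : Fin 5 → H →L[ℂ] H) (hu : ∀ i n, u i (b n) = b (hc (3 * i) n)) :
    Tendsto (fun k : ℕ => ((5⁻¹ : ℂ) • ∑ i, u i) ^ (k + 1)) atTop
      (𝓝 (rankOne ℂ (b 0) (b 0))) := by
  classical
  set p : H →L[ℂ] H := rankOne ℂ (b 0) (b 0) with hp
  have orth := orthonormal_iff_ite.1 b.orthonormal
  have pb : ∀ n, p (b n) = if n = 0 then b 0 else 0 := fun n => by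
    rw [hp, rankOne_apply, orth]
    by_cases h : n = 0
    · simp [h]
    · simp [h, Ne.symm h]
  have ext : ∀ {a a' : H →L[ℂ] H}, (∀ n, a (b n) = a' (b n)) → a = a' := fun h =>
    ContinuousLinearMap.ext_on (s := range b)
      (by rw [Submodule.dense_iff_topologicalClosure_eq_top]; exact b.dense_span)
      (by rintro _ ⟨n, rfl⟩; exact h n)
  have up : ∀ i, u i * p = p := fun i => ext fun n => by
    rw [ContinuousLinearMap.mul_apply, pb]; split_ifs
    · rw [hu, hc_zero]
    · simp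
  have pu : ∀ i, p * u i = p := fun i => ext fun n => by
    rw [ContinuousLinearMap.mul_apply, hu, pb, pb]; simp only [hc_eq]
  have pp : p * p = p := ext fun n => by
    rw [ContinuousLinearMap.mul_apply, pb]; split_ifs
    · rw [pb, if_pos rfl]
    · simp
  have par : ∀ v : H, HasSum (fun n => ‖⟪b n, v⟫_ℂ‖ ^ 2) (‖v‖ ^ 2) := fun v => by
    have := (b.hasSum_inner_mul_inner v v).map Complex.reCLM Complex.continuous_re
    rw [inner_self_eq_norm_sq_to_K] at this
    refine (this.congr_fun fun n => ?_).trans_eq ?_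
    · simp only [Function.comp, Complex.reCLM_apply]
      rw [← inner_conj_symm v, Complex.conj_mul', ← Complex.ofReal_pow, Complex.ofReal_re]
    · simp [← Complex.ofReal_pow]
  let g : Fin 5 → H → N2 → ℝ := fun i v n => if Bc (3 * i) n then ‖⟪b n, v⟫_ℂ‖ ^ 2 else 0
  have gs : ∀ i v, Summable (g i v) := fun i v => (par v).summable.of_nonneg_of_le
    (fun n => by simp only [g]; split_ifs <;> positivity)
    (fun n => by simp only [g]; split_ifs <;> [rfl; positivity])
  have gt : ∀ v, ∑ i, ∑' n, g i v n ≤ ‖v‖ ^ 2 := fun v =>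
    hasSum_le (fun n => by
      by_cases h : ∃ i : Fin 5, Bc (3 * i) n
      · obtain ⟨i, hi⟩ := h
        rw [Finset.sum_eq_single i (fun j _ hj => if_neg fun e => hj (disj j i n e hi)) (by simp)]
        exact (if_pos hi).le
      · rw [Finset.sum_eq_zero fun j _ => if_neg fun e => h ⟨j, e⟩]
        positivity) (hasSum_sum fun i _ => (gs i v).hasSum) (par v)
  have one : ∀ i ξ η, ‖⟪η, (u i - p) ξ⟫_ℂ‖ ≤
      ∑' n, g i ξ n + ‖η‖ ^ 2 / 4 + (∑' n, g i η n + ‖ξ‖ ^ 2 / 4) := fun i ξ η => by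
    have h1 := (b.hasSum_repr ξ).map (innerSL ℂ η ∘L (u i - p)) (ContinuousLinearMap.continuous _)
    refine h1.norm_le_of_bounded ((((gs i ξ).hasSum.add
      (((hc (3 * i)).hasSum_iff.2 (par η)).div_const 4)).add
      (((hc (3 * i)).hasSum_iff.2 (gs i η).hasSum).add ((par ξ).div_const 4)))) fun n => ?_
    simp only [Function.comp, map_smul, comp_apply, sub_apply, hu, pb, b.repr_apply_apply,
      innerSL_apply_apply, g]
    by_cases h0 : n = 0
    · rw [if_pos h0, h0, hc_zero, sub_self, inner_zero_right, smul_zero, norm_zero]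
      split_ifs <;> positivity
    rw [if_neg h0, sub_zero, norm_smul, norm_inner_symm η]
    generalize ‖⟪b n, ξ⟫_ℂ‖ = x
    generalize ‖⟪b (hc (3 * i) n), η⟫_ℂ‖ = y
    by_cases hB : Bc (3 * i) n
    · rw [if_pos hB]
      split_ifs <;> nlinarith [sq_nonneg (x - y / 2), sq_nonneg x, sq_nonneg y]
    · rw [if_neg hB, if_pos (ping _ n h0 hB)]
      nlinarith [sq_nonneg (y - x / 2), sq_nonneg x, sq_nonneg y]
  set D := ∑ i, (u i - p) with hD
  have two : ∀ ξ η, ‖⟪η, D ξ⟫_ℂ‖ ≤ 9 / 4 * (‖ξ‖ ^ 2 + ‖η‖ ^ 2) := fun ξ η => by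
    rw [hD, sum_apply, inner_sum]
    refine (norm_sum_le _ _).trans ((Finset.sum_le_sum fun i _ => one i ξ η).trans ?_)
    simp only [Finset.sum_add_distrib, Finset.sum_const, Finset.card_univ, Fintype.card_fin,
      nsmul_eq_mul, Nat.cast_ofNat]
    linarith [gt ξ, gt η]
  have nD : ‖D‖ ≤ 9 / 2 := opNorm_le_bound _ (by norm_num) fun ξ => by
    have := two ξ (((2 / 9 : ℝ) : ℂ) • D ξ)
    rw [inner_smul_left, norm_mul, norm_smul, inner_self_eq_norm_sq_to_K] at this
    simp only [Complex.conj_ofReal, Complex.norm_real, norm_pow, RCLike.norm_ofReal, abs_norm,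
      Real.norm_eq_abs, show |(2 / 9 : ℝ)| = 2 / 9 by norm_num] at this
    exact abs_le_of_sq_le_sq' (by nlinarith) (by positivity) |>.2
  set a := (5⁻¹ : ℂ) • ∑ i, u i with ha
  have ap : a * p = p := by
    rw [ha, smul_mul_assoc, Finset.sum_mul]
    simp only [up, Finset.sum_const, Finset.card_univ, Fintype.card_fin]
    rw [← Nat.cast_smul_eq_nsmul ℂ, smul_smul]; simp
  have pa : p * a = p := by
    rw [ha, mul_smul_comm, Finset.mul_sum]
    simp only [pu, Finset.sum_const, Finset.card_univ, Fintype.card_fin]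
    rw [← Nat.cast_smul_eq_nsmul ℂ, smul_smul]; simp
  have e : a - p = (5⁻¹ : ℂ) • D := by
    rw [hD, Finset.sum_sub_distrib, smul_sub, ← ha]
    simp only [Finset.sum_const, Finset.card_univ, Fintype.card_fin]
    rw [← Nat.cast_smul_eq_nsmul ℂ, smul_smul]; simp
  have pw : ∀ k : ℕ, a ^ (k + 1) = (a - p) ^ (k + 1) + p ∧ p * a ^ (k + 1) = p := fun k => by
    induction k with
    | zero => simp [pa]
    | succ k ih =>
      refine ⟨?_, by rw [pow_succ, ← mul_assoc, ih.2, pa]⟩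
      rw [pow_succ' (a - p), ← sub_eq_iff_eq_add.2 ih.1, sub_mul, mul_sub, mul_sub, ih.2, ap, pp,
        ← pow_succ']
      abel
  have lim : Tendsto (fun k : ℕ => (a - p) ^ k) atTop (𝓝 0) :=
    tendsto_pow_atTop_nhds_zero_of_norm_lt_one (by
      rw [e, norm_smul]
      simp only [norm_inv, Complex.norm_ofNat]
      linarith)
  simp only [fun k => (pw k).1]
  simpa using (lim.comp (tendsto_add_atTop_nat 1)).add_const p

abbrev Tor : Type := Fin 2 → AddCircle (1 : ℝ)

noncomputable abbrev τ : Measure Tor := Measure.pi fun _ => AddCircle.haarAddCircle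

noncomputable def bas : HilbertBasis N2 ℂ (Lp ℂ 2 τ) := UnitAddTorus.mFourierBasis

lemma bas_ae (n : N2) : bas n =ᵐ[τ] UnitAddTorus.mFourier n := by
  have : bas n = UnitAddTorus.mFourierLp 2 n := congrFun UnitAddTorus.coe_mFourierBasis n
  rw [this]
  exact UnitAddTorus.coeFn_mFourierLp 2 n

def Tc (c : ℤ) : Tor →+ Tor where
  toFun x := ![-c • x 0 - (c ^ 2 + 1) • x 1, x 0 + c • x 1]
  map_zero' := by ext i; fin_cases i <;> simp
  map_add' x y := by ext i; fin_cases i <;> simp <;> abel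

lemma Tc_sq (c : ℤ) (x : Tor) : -Tc c (Tc c x) = x := by
  ext i; fin_cases i <;> simp [Tc] <;> module

lemma Tc_cont (c : ℤ) : Continuous (Tc c) := by
  refine continuous_pi fun i => ?_
  fin_cases i <;> simp [Tc] <;> fun_prop

theorem torus : rankOne ℂ (bas 0) (bas 0) ∈ closure {a : Lp ℂ 2 τ →L[ℂ] Lp ℂ 2 τ | F a} := by
  have m1 : ∀ c, MeasurePreserving (Tc c) τ τ := fun c => AddMonoidHom.measurePreserving
    (Tc_cont c) (fun x => ⟨-Tc c x, by rw [map_neg, Tc_sq]⟩) rfl
  have m2 : ∀ c, MeasurePreserving (-Tc c) τ τ := fun c => AddMonoidHom.measurePreserving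
    (Tc_cont c).neg (fun x => ⟨Tc c x, Tc_sq c x⟩) rfl
  have m3 : ∀ c, MeasurePreserving (Tc c) τ ((1 : ℝ≥0) • τ.restrict univ) := fun c => by
    rw [Measure.restrict_univ, one_smul]; exact m1 c
  have hF : ∀ c, F (W univ (m3 c)) := fun c => F_W MeasurableSet.univ one_ne_zero (m3 c)
    (π := -Tc c) (by rw [Measure.restrict_univ, one_smul]; exact m2 c)
    (Eventually.of_forall (Tc_sq c))
  refine mem_closure_of_tendsto (gap bas (fun i => W univ (m3 (3 * i))) fun i n => ?_)
    (Eventually.of_forall fun k => ?_)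
  · apply Lp.ext
    filter_upwards [W_ae univ (m3 (3 * i)) (bas n), bas_ae (hc (3 * i) n),
      (m1 (3 * i)).quasiMeasurePreserving.ae (bas_ae n)] with x h1 h2 h3
    rw [h1, h2, h3]
    simp only [UnitAddTorus.mFourier, ContinuousMap.coe_mk, Fin.prod_univ_two, fourier_apply,
      ← Circle.coe_mul, ← AddCircle.toCircle_add]
    congr 2
    simp [Tc, hc]
    module
  · have h1 : F ((5⁻¹ : ℂ) • ∑ i : Fin 5, W univ (m3 (3 * i))) := by
      refine F.smul ?_ _
      rw [Fin.sum_univ_five]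
      exact ((((hF _).add (hF _)).add (hF _)).add (hF _)).add (hF _)
    induction k with
    | zero => simpa using h1
    | succ k ih => rw [pow_succ]; exact F.comp ih h1

end Pool.Agent.H29.Supp
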