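import Mathlib

set_option autoImplicit false

namespace Pool.Agent.H29.Surj

open Function

/-- The cellular automaton with memory set `S` and local rule `μ`. -/
def ca {M A : Type} [Monoid M] (S : Finset M) (μ : (↥S → A) → A) (x : M → A) (m : M) : A :=
  μ (fun s => x (s.1 * m))

theorem ca_cont {M A : Type} [Monoid M] [TopologicalSpace A] [DiscreteTopology A]
    (S : Finset M) (μ : (↥S → A) → A) : Continuous (ca S μ) := by
  refine continuous_pi fun m => ?_
  have h1 : Continuous μ := continuous_of_discreteTopology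
  exact h1.comp (continuous_pi fun s => continuous_apply _)

theorem exists_finset_det {M A : Type} [Monoid M] [Finite A]
    (S : Finset M) (μ : (↥S → A) → A) (hinj : Injective (ca S μ)) :
    ∃ T : Finset M, ∀ x y : M → A, (∀ t ∈ T, ca S μ x t = ca S μ y t) → x 1 = y 1 := by
  classical
  let : TopologicalSpace A := ⊥
  have : DiscreteTopology A := ⟨rfl⟩
  have hK : IsCompact {p : (M → A) × (M → A) | p.1 1 ≠ p.2 1} := by
    apply IsClosed.isCompact
    have : Continuous fun p : (M → A) × (M → A) => (p.1 1, p.2 1) := by fun_prop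
    exact (isClosed_discrete {q : A × A | q.1 ≠ q.2}).preimage this
  have hc := ca_cont S μ
  obtain ⟨T, hT⟩ := hK.elim_finite_subfamily_closed
    (fun t : M => {p : (M → A) × (M → A) | ca S μ p.1 t = ca S μ p.2 t})
    (fun t => isClosed_eq ((continuous_apply t).comp (hc.comp continuous_fst))
      ((continuous_apply t).comp (hc.comp continuous_snd)))
    (by
      rw [← Set.disjoint_iff_inter_eq_empty, Set.disjoint_left]
      intro p hp hp2
      simp only [Set.mem_iInter, Set.mem_setOf_eq] at hp hp2
      exact hp (by rw [hinj (funext hp2)]))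
  refine ⟨T, fun x y h => ?_⟩
  by_contra hne
  rw [← Set.disjoint_iff_inter_eq_empty, Set.disjoint_left] at hT
  exact hT (a := (x, y)) hne (by simpa using h)

/-- surjunctivity -/
def Surjunctive (M : Type) [Monoid M] : Prop :=
  ∀ (A : Type) [Fintype A] (S : Finset M) (μ : (↥S → A) → A),
    Injective (ca S μ) → Surjective (ca S μ)

theorem local_global (M : Type) [Monoid M]
    (h : ∀ N : Submonoid M, N.FG → Surjunctive N) : Surjunctive M := by
  classical
  intro A _ S μ hinj
  obtain ⟨T, hT⟩ := exists_finset_det S μ hinj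
  let N : Submonoid M := Submonoid.closure ((S ∪ T : Finset M) : Set M)
  have hN : N.FG := ⟨S ∪ T, rfl⟩
  have hS : ∀ s ∈ S, s ∈ N := fun s hs => Submonoid.subset_closure (by simp [hs])
  have hTN : ∀ t ∈ T, t ∈ N := fun t ht => Submonoid.subset_closure (by simp [ht])
  let S' : Finset N := S.subtype (· ∈ N)
  let μ' : (↥S' → A) → A := fun z => μ (fun s => z ⟨⟨s.1, hS s.1 s.2⟩, by simp [S']⟩)
  have key : ∀ (u : N → A) (n : N),
      ca S' μ' u n = μ (fun s => u (⟨s.1, hS s.1 s.2⟩ * n)) := fun u n => rfl
  have hinj' : Injective (ca S' μ') := by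
    intro u v huv
    funext n
    let x : M → A := fun m => if hm : m ∈ N then u (⟨m, hm⟩ * n) else u 1
    let y : M → A := fun m => if hm : m ∈ N then v (⟨m, hm⟩ * n) else u 1
    have := hT x y (by
      intro t ht
      have h1 := congrFun huv (⟨t, hTN t ht⟩ * n)
      rw [key, key] at h1
      have hx : ca S μ x t = μ (fun s => u (⟨s.1, hS s.1 s.2⟩ * (⟨t, hTN t ht⟩ * n))) := by
        unfold ca
        congr 1
        funext s
        have hm : s.1 * t ∈ N := N.mul_mem (hS s.1 s.2) (hTN t ht)
        simp only [x, dif_pos hm]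
        congr 1
        ext
        simp [mul_assoc]
      have hy : ca S μ y t = μ (fun s => v (⟨s.1, hS s.1 s.2⟩ * (⟨t, hTN t ht⟩ * n))) := by
        unfold ca
        congr 1
        funext s
        have hm : s.1 * t ∈ N := N.mul_mem (hS s.1 s.2) (hTN t ht)
        simp only [y, dif_pos hm]
        congr 1
        ext
        simp [mul_assoc]
      rw [hx, hy, h1])
    simp only [x, y, dif_pos N.one_mem] at this
    have h1 : (⟨1, N.one_mem⟩ : N) * n = n := by ext; simp
    rwa [h1] at this
  have hsurj' := h N hN A S' μ' hinj'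
  intro y
  choose g hg using hsurj'
  refine ⟨fun m => g (fun n => y (n.1 * m)) 1, ?_⟩
  funext m
  have h2 : ∀ s : N, g (fun n => y (n.1 * (s.1 * m))) =
      fun n => g (fun n => y (n.1 * m)) (n * s) := by
    intro s
    apply hinj'
    rw [hg]
    funext n
    have := congrFun (hg (fun n => y (n.1 * m))) (n * s)
    simp only [key] at this ⊢
    simp only [mul_assoc] at this ⊢
    rw [this]
    simp [mul_assoc]
  have h3 := congrFun (hg (fun n => y (n.1 * m))) 1
  rw [key] at h3
  simp only [OneMemClass.coe_one, one_mul, mul_one] at h3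
  rw [← h3]
  unfold ca
  congr 1
  funext s
  have := h2 ⟨s.1, hS s.1 s.2⟩
  simp only at this ⊢
  rw [this]
  simp

theorem finite_surj (M : Type) [Monoid M] [Finite M] : Surjunctive M := by
  intro A _ S μ hinj
  exact Finite.surjective_of_injective hinj

theorem resfin_surj (M : Type) [Monoid M]
    (h : ∀ F : Finset M, ∃ (Q : Type) (_ : Monoid Q) (_ : Finite Q) (φ : M →* Q),
      Surjective φ ∧ Set.InjOn φ F) : Surjunctive M := by
  classical
  intro A _ S μ hinj
  let : TopologicalSpace A := ⊥
  have : DiscreteTopology A := ⟨rfl⟩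
  have hc := ca_cont S μ
  intro y
  by_contra hne
  obtain ⟨F, hF⟩ := (isCompact_univ (X := M → A)).elim_finite_subfamily_closed
    (fun t : M => {x : M → A | ca S μ x t = y t})
    (fun t => isClosed_eq ((continuous_apply t).comp hc) continuous_const)
    (by
      rw [← Set.disjoint_iff_inter_eq_empty, Set.disjoint_left]
      intro p _ hp2
      simp only [Set.mem_iInter, Set.mem_setOf_eq] at hp2
      exact hne ⟨p, funext hp2⟩)
  obtain ⟨Q, _, _, φ, hφ, hφF⟩ := h F
  let τ : (Q → A) → (Q → A) := fun u q => μ (fun s => u (φ s.1 * q))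
  have hτ : ∀ u : Q → A, ca S μ (fun m => u (φ m)) = fun m => τ u (φ m) := by
    intro u
    funext m
    simp [ca, τ]
  have hτinj : Injective τ := by
    intro u v huv
    have : (fun m => u (φ m)) = fun m => v (φ m) := by
      apply hinj
      rw [hτ, hτ, huv]
    funext q
    obtain ⟨m, rfl⟩ := hφ q
    exact congrFun this m
  have hτs := Finite.surjective_of_injective hτinj
  let y' : Q → A := fun q => if hq : ∃ m ∈ F, φ m = q then y hq.choose else y 1
  obtain ⟨u, hu⟩ := hτs y'
  rw [← Set.disjoint_iff_inter_eq_empty, Set.disjoint_left] at hF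
  refine hF (a := fun m => u (φ m)) (Set.mem_univ _) ?_
  simp only [Set.mem_iInter, Set.mem_setOf_eq]
  intro t ht
  rw [hτ, hu]
  have hq : ∃ m ∈ F, φ m = φ t := ⟨t, ht, rfl⟩
  simp only [y', dif_pos hq]
  congr 1
  exact hφF hq.choose_spec.1 ht hq.choose_spec.2

theorem sep_ideal (R : Type) [CommRing R] [Algebra (ZMod 2) R] [Algebra.FiniteType (ZMod 2) R]
    (r : R) (hr : r ≠ 0) : ∃ I : Ideal R, Finite (R ⧸ I) ∧ r ∉ I := by
  have : IsNoetherianRing R := Algebra.FiniteType.isNoetherianRing (ZMod 2) R
  let J : Ideal R := LinearMap.ker (LinearMap.toSpanSingleton R R r)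
  have hJ : J ≠ ⊤ := by
    intro h
    have : (1 : R) ∈ J := h ▸ Submodule.mem_top
    simp [J] at this
    exact hr this
  obtain ⟨P, hP, hJP⟩ := Ideal.exists_le_maximal J hJ
  let := Ideal.Quotient.field P
  have : Module.Finite (ZMod 2) (R ⧸ P) := finite_of_finite_type_of_isJacobsonRing _ _
  have : Finite (R ⧸ P) := Module.finite_of_finite (ZMod 2)
  by_contra hcon
  push Not at hcon
  have hall : r ∈ (⨅ i : ℕ, P ^ i • ⊤ : Submodule R R) := by
    rw [Submodule.mem_iInf]
    intro i
    have := hcon (P ^ i) (Ideal.finite_quotient_pow (IsNoetherian.noetherian _) i)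
    simpa using this
  obtain ⟨c, hc⟩ := (Ideal.mem_iInf_smul_pow_eq_bot_iff P r).mp hall
  have h1 : 1 - c.1 ∈ J := by
    simp only [J, LinearMap.mem_ker, LinearMap.toSpanSingleton_apply, smul_eq_mul]
    have : c.1 * r = r := hc
    rw [sub_mul, this]
    simp
  have h2 : (1 : R) ∈ P := by
    have := P.add_mem (hJP h1) c.2
    simpa using this
  exact hP.ne_top ((Ideal.eq_top_iff_one P).mpr h2)

theorem fg_comm_surj (M : Type) [CommMonoid M] [Monoid.FG M] : Surjunctive M := by
  classical
  apply resfin_surj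
  intro F
  let R := MonoidAlgebra (ZMod 2) M
  have hsep : ∀ p : M × M, ∃ I : Ideal R, Finite (R ⧸ I) ∧
      (p.1 ≠ p.2 → MonoidAlgebra.of (ZMod 2) M p.1 - MonoidAlgebra.of (ZMod 2) M p.2 ∉ I) := by
    intro p
    by_cases hp : p.1 = p.2
    · exact ⟨⊤, inferInstance, fun h => absurd hp h⟩
    · obtain ⟨I, hI, hI2⟩ := sep_ideal R
        (MonoidAlgebra.of (ZMod 2) M p.1 - MonoidAlgebra.of (ZMod 2) M p.2)
        (by
          rw [sub_ne_zero]
          intro h
          exact hp (MonoidAlgebra.of_injective h))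
      exact ⟨I, hI, fun _ => hI2⟩
  choose I hI hI2 using hsep
  let ψ : M →* ((p : ↥(F ×ˢ F)) → R ⧸ I p.1) :=
    MonoidHom.pi fun p => (Ideal.Quotient.mk (I p.1)).toMonoidHom.comp (MonoidAlgebra.of (ZMod 2) M)
  have : ∀ p : ↥(F ×ˢ F), Finite (R ⧸ I p.1) := fun p => hI p.1
  refine ⟨MonoidHom.mrange ψ, inferInstance, inferInstance, ψ.mrangeRestrict,
    ψ.mrangeRestrict_surjective, ?_⟩
  intro a ha b hb hab
  by_contra hne
  have h1 : ψ a = ψ b := congrArg Subtype.val hab
  have h2 := congrFun h1 ⟨(a, b), Finset.mem_product.mpr ⟨ha, hb⟩⟩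
  apply hI2 (a, b) hne
  exact Ideal.Quotient.eq.mp h2

theorem comm_surj (M : Type) [CommMonoid M] : Surjunctive M := by
  apply local_global
  intro N hN
  have : Monoid.FG N := (Monoid.fg_iff_submonoid_fg N).mpr hN
  exact fg_comm_surj N

end Pool.Agent.H29.Surj
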