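import Mathlib

open Set Filter Topology ZeroAtInfty
open scoped RealInnerProductSpace

namespace Pool.Agent.H29.Tail

/-- the space of null sequences -/
def E : Type := C₀(ℕ, ℝ)

noncomputable instance : NormedAddCommGroup E := inferInstanceAs (NormedAddCommGroup C₀(ℕ, ℝ))
noncomputable instance : NormedSpace ℝ E := inferInstanceAs (NormedSpace ℝ C₀(ℕ, ℝ))
instance : CompleteSpace E := inferInstanceAs (CompleteSpace C₀(ℕ, ℝ))
instance : CoeFun E fun _ => ℕ → ℝ := ⟨fun (x : C₀(ℕ, ℝ)) => x⟩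

/-- a finitely supported sequence -/
def mk (f : ℕ → ℝ) (N : ℕ) (h : ∀ j, N < j → f j = 0) : E :=
  ⟨⟨f, continuous_of_discreteTopology⟩, by
    rw [cocompact_eq_cofinite, Nat.cofinite_eq_atTop]
    exact tendsto_const_nhds.congr' ((eventually_gt_atTop N).mono fun j hj => (h j hj).symm)⟩

lemma tend (x : E) : Tendsto x atTop (𝓝 0) := by
  have := ZeroAtInftyContinuousMap.zero_at_infty' x
  rw [cocompact_eq_cofinite, Nat.cofinite_eq_atTop] at this
  exact this

lemma abs_le (x : E) (k : ℕ) : |x k| ≤ ‖x‖ := by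
  exact (ZeroAtInftyContinuousMap.toBCF x).norm_coe_le_norm k

lemma norm_le (x : E) {C : ℝ} (h : ∀ k, |x k| ≤ C) : ‖x‖ ≤ C := by
  exact (BoundedContinuousFunction.norm_le (f := ZeroAtInftyContinuousMap.toBCF x)
    ((abs_nonneg _).trans (h 0))).2 h

/-- coordinate functional -/
noncomputable def ev (j : ℕ) : E →L[ℝ] ℝ :=
  LinearMap.mkContinuous ⟨⟨fun x => x j, fun _ _ => rfl⟩, fun _ _ => rfl⟩ 1 fun x => by
    simpa using abs_le x j

lemma ev_norm (j : ℕ) : ‖ev j‖ ≤ 1 := LinearMap.mkContinuous_norm_le _ zero_le_one _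

/-- unit vector -/
def e (k : ℕ) : E := mk (fun j => if j = k then 1 else 0) k fun _ h => if_neg h.ne'

lemma ev_e (j k : ℕ) : ev j (e k) = if j = k then 1 else 0 := rfl

lemma sum_apply (s : Finset ℕ) (c : ℕ → ℝ) (j : ℕ) :
    (∑ k ∈ s, c k • e k : E) j = if j ∈ s then c j else 0 := by
  show ev j _ = _
  simp [ev_e]

lemma expand (x : E) : HasSum (fun k => x k • e k) x := by
  refine Metric.tendsto_nhds.2 fun ε hε => ?_
  obtain ⟨N, hN⟩ := eventually_atTop.1 (Metric.tendsto_nhds.1 (tend x) (ε / 2) (by positivity))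
  filter_upwards [eventually_ge_atTop (Finset.range N)] with s hs
  rw [dist_eq_norm]
  refine (norm_le _ fun j => ?_).trans_lt (half_lt_self hε)
  show |(∑ k ∈ s, x k • e k : E) j - x j| ≤ _
  rw [sum_apply]
  split_ifs with h
  · simp only [sub_self, abs_zero]; positivity
  · have := hN j (not_lt.1 fun hj => h (hs (Finset.mem_range.2 hj)))
    rw [dist_zero_right] at this
    simpa using this.le

lemma l1 (y : E →L[ℝ] ℝ) (s : Finset ℕ) : ∑ k ∈ s, |y (e k)| ≤ ‖y‖ := by
  have h := y.le_of_opNorm_le_of_le le_rfl (norm_le (∑ k ∈ s, (SignType.sign (y (e k)) : ℝ) • e k)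
    (C := 1) fun j => by
      rw [sum_apply]
      split_ifs
      · rcases lt_trichotomy (y (e j)) 0 with h | h | h <;> simp [h]
      · simp)
  simp only [map_sum, map_smul, smul_eq_mul, sign_mul_self, mul_one] at h
  exact (le_abs_self _).trans h

lemma lam {G : Type*} [NormedAddCommGroup G] [NormedSpace ℝ G] [CompleteSpace G] (g : ℕ → G)
    {C : ℝ} (hg : ∀ k, ‖g k‖ ≤ C) :
    ∃ L : (E →L[ℝ] ℝ) →L[ℝ] G, ∀ y, HasSum (fun k => y (e k) • g k) (L y) := by
  have h1 : ∀ y : E →L[ℝ] ℝ, Summable fun k => |y (e k)| * C := fun y =>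
    (summable_of_sum_le (fun _ => abs_nonneg _) (l1 y)).mul_right C
  have h2 : ∀ (y : E →L[ℝ] ℝ) k, ‖y (e k) • g k‖ ≤ |y (e k)| * C := fun y k => by
    rw [norm_smul]; exact mul_le_mul_of_nonneg_left (hg k) (abs_nonneg _)
  have h3 := fun y => (Summable.of_norm_bounded (h1 y) (h2 y)).hasSum
  let L : (E →L[ℝ] ℝ) →ₗ[ℝ] G :=
    { toFun := fun y => ∑' k, y (e k) • g k
      map_add' := fun y z => by
        simpa only [ContinuousLinearMap.add_apply, add_smul] using ((h3 y).add (h3 z)).tsum_eq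
      map_smul' := fun c y => by
        simpa only [ContinuousLinearMap.smul_apply, smul_eq_mul, mul_smul, RingHom.id_apply] using
          ((h3 y).const_smul c).tsum_eq }
  have hb : ∀ y, ‖L y‖ ≤ C * ‖y‖ := fun y => by
    refine (tsum_of_norm_bounded (h1 y).hasSum (h2 y)).trans ?_
    rw [tsum_mul_right, mul_comm]
    exact mul_le_mul_of_nonneg_left (Real.tsum_le_of_sum_le (fun _ => abs_nonneg _) (l1 y))
      ((norm_nonneg _).trans (hg 0))
  exact ⟨L.mkContinuous C hb, h3⟩

lemma pair (y : E →L[ℝ] ℝ) (x : E) : HasSum (fun k => x k * y (e k)) (y x) := by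
  simpa using (expand x).mapL y

lemma dual (y : E →L[ℝ] ℝ) : HasSum (fun k => y (e k) • ev k) y := by
  obtain ⟨L, hL⟩ := lam ev ev_norm
  have : y = L y := ContinuousLinearMap.ext fun x => (pair y x).unique (by
    have := (hL y).mapL (ContinuousLinearMap.apply ℝ ℝ x)
    simp only [mul_comm (x _)]
    exact this)
  have h := hL y
  rwa [← this] at h

/-- the data of a tail operator -/
structure Data {E H : Type} [NormedAddCommGroup E] [NormedSpace ℝ E] [NormedAddCommGroup H]
    [InnerProductSpace ℝ H] (K : (E →L[ℝ] ℝ) →L[ℝ] E) (σ : (E →L[ℝ] ℝ) →L[ℝ] H) : Prop where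
  sym : ∀ y z, y (K z) + z (K y) = -2 * ⟪σ y, σ z⟫
  ker : ∀ x, (∀ z, σ z = 0 → z x = 0) → x = 0
  inj : ∀ u, K u = 0 → u = 0

theorem tail {H : Type} [NormedAddCommGroup H] [InnerProductSpace ℝ H] [CompleteSpace H]
    (v : ℕ → H) {C : ℝ} (hv : ∀ n, ‖v n‖ ≤ C) (h0 : ∀ n, v n ≠ 0) :
    ∃ (K : (E →L[ℝ] ℝ) →L[ℝ] E) (σ : (E →L[ℝ] ℝ) →L[ℝ] H), Data K σ ∧ (∀ n, ∃ y, σ y = v n) ∧
      ∀ y, ∃ β : ℕ → ℝ, Summable β ∧ HasSum (fun i => β i • v i) (σ y) := by
  let w : ℕ → H := fun j => v (Nat.unpair j).1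
  let κ : ℕ → E := fun k => mk (fun j => (if j < k then -2 else if j = k then -1 else 0) *
    ⟪w j, w k⟫) k fun j h => by rw [if_neg h.le.not_gt, if_neg h.ne', zero_mul]
  have κa : ∀ j k, κ k j = (if j < k then -2 else if j = k then -1 else 0) * ⟪w j, w k⟫ :=
    fun _ _ => rfl
  obtain ⟨K, hK⟩ := lam κ (C := 2 * (C * C)) fun k => norm_le _ fun j => by
    rw [κa, abs_mul]
    refine mul_le_mul ?_ ((abs_real_inner_le_norm _ _).trans (mul_le_mul (hv _) (hv _)
      (norm_nonneg _) ((norm_nonneg _).trans (hv 0)))) (abs_nonneg _) zero_le_two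
    split_ifs <;> norm_num
  obtain ⟨σ, hσ⟩ := lam w fun k => hv _
  have one : ∀ {G : Type} [NormedAddCommGroup G] [NormedSpace ℝ G] (g : ℕ → G) (a : G) (j : ℕ),
      HasSum (fun k => ev j (e k) • g k) a → a = g j := fun g a j h => by
    have := hasSum_single (f := fun k => ev j (e k) • g k) j (fun k hk => by simp [ev_e, hk.symm])
    exact h.unique (by simpa [ev_e] using this)
  have Ke : ∀ j, K (ev j) = κ j := fun j => one _ _ j (hK _)
  have σe : ∀ j, σ (ev j) = w j := fun j => one _ _ j (hσ _)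
  have sym : ∀ y z, y (K z) + z (K y) = -2 * ⟪σ y, σ z⟫ := by
    have lin : ∀ (L : (E →L[ℝ] ℝ) →L[ℝ] ℝ), (∀ k, L (ev k) = 0) → ∀ y, L y = 0 := fun L h y =>
      ((dual y).mapL L).unique (by simp only [map_smul, h, smul_zero]; exact hasSum_zero)
    have s1 : ∀ j z, ev j (K z) + z (K (ev j)) + 2 * ⟪σ (ev j), σ z⟫ = 0 := fun j =>
      lin ((ev j).comp K + ContinuousLinearMap.apply ℝ ℝ (K (ev j)) +
        (2:ℝ) • (innerSL ℝ (σ (ev j))).comp σ) fun k => by
        show ev j (K (ev k)) + ev k (K (ev j)) + 2 * ⟪σ (ev j), σ (ev k)⟫ = 0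
        rw [Ke, Ke, σe, σe]
        show κ k j + κ j k + _ = 0
        rw [κa, κa, real_inner_comm (w j) (w k)]
        rcases lt_trichotomy j k with h | rfl | h
        · rw [if_pos h, if_neg h.le.not_gt, if_neg h.ne']; ring
        · simp only [lt_irrefl, if_false, if_true]; ring
        · rw [if_pos h, if_neg h.le.not_gt, if_neg h.ne']; ring
    intro y z
    have := lin (ContinuousLinearMap.apply ℝ ℝ (K z) + z.comp K +
      (2:ℝ) • (innerSL ℝ (σ z)).comp σ) (fun k => by
        have := s1 k z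
        rw [real_inner_comm] at this
        exact this) y
    change y (K z) + z (K y) + 2 * ⟪σ z, σ y⟫ = 0 at this
    rw [real_inner_comm] at this
    linarith
  refine ⟨K, σ, ⟨sym, fun x hx => ?_, fun u hu => ?_⟩, fun n => ⟨ev (Nat.pair n 0), by
    rw [σe]; simp [w]⟩, fun y => ?_⟩
  · refine ZeroAtInftyContinuousMap.ext fun j => ?_
    have h1 : ∀ m, x (Nat.pair (Nat.unpair j).1 m) = x j := fun m => by
      have := hx (ev (Nat.pair (Nat.unpair j).1 m) - ev j) (by simp [σe, w])
      exact sub_eq_zero.1 this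
    have h2 := (tend x).comp (tendsto_atTop_mono (fun m => Nat.right_le_pair (Nat.unpair j).1 m)
      tendsto_id)
    exact tendsto_nhds_unique tendsto_const_nhds (h2.congr h1)
  · have k : ∀ m, u (e m) = 0 := fun m => by
      induction m using Nat.strong_induction_on with
      | _ m ih =>
        have h1 := sym u u
        have h2 := sym (u - u (e m) • ev m) (u - u (e m) • ev m)
        have h3 : (u - u (e m) • ev m) (κ m) = 0 := (pair _ _).unique (by
          convert hasSum_zero with j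
          rcases lt_trichotomy j m with h | rfl | h
          · simp [ih j h, ev_e, h.ne']
          · simp [ev_e]
          · rw [κa, if_neg h.le.not_gt, if_neg h.ne']; simp)
        rw [hu, map_zero] at h1
        have h4 : σ u = 0 := inner_self_eq_zero.1 (by linarith : ⟪σ u, σ u⟫ = 0)
        rw [map_sub K, hu, map_smul K, Ke, zero_sub, map_neg, map_smul, h3] at h2
        simp only [smul_zero, neg_zero] at h2
        have h5 : σ (u - u (e m) • ev m) = 0 := (inner_self_eq_zero (𝕜 := ℝ)).1 (by linarith)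
        rw [map_sub, h4, map_smul, σe, zero_sub, neg_eq_zero] at h5
        exact (smul_eq_zero.1 h5).resolve_right (h0 _)
    exact (dual u).unique (by simp only [k, zero_smul]; exact hasSum_zero)
  · have h1 : Summable fun k => y (e k) :=
      (summable_of_sum_le (fun _ => abs_nonneg _) (l1 y)).of_abs
    refine ⟨_, (h1.hasSum.tsum_fiberwise fun j => (Nat.unpair j).1).summable, ?_⟩
    convert (hσ y).tsum_fiberwise fun j => (Nat.unpair j).1 with i
    refine ((h1.subtype _).tsum_smul_const _).symm.trans (tsum_congr fun j => ?_)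
    exact congrArg (fun n => y (e j) • v n) (show (Nat.unpair j.1).1 = i from j.2).symm

end Pool.Agent.H29.Tail
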