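import Pool.Agent.H29.Tail1

open Set Filter Topology
open scoped RealInnerProductSpace

namespace Pool.Agent.H29.Tail

section gen

variable {E H : Type} [NormedAddCommGroup E] [NormedSpace ℝ E] [NormedAddCommGroup H]
  [InnerProductSpace ℝ H] {K : (E →L[ℝ] ℝ) →L[ℝ] E} {σ : (E →L[ℝ] ℝ) →L[ℝ] H}

lemma Data.sq (D : Data K σ) (y : E →L[ℝ] ℝ) : y (K y) = -‖σ y‖ ^ 2 := by
  have := D.sym y y
  rw [real_inner_self_eq_norm_sq] at this
  linarith

lemma Data.sq' (D : Data K σ) (y z : E →L[ℝ] ℝ) : (y - z) (K y - K z) = -‖σ y - σ z‖ ^ 2 := by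
  rw [← map_sub K, ← map_sub σ]; exact D.sq _

lemma Data.skew (D : Data K σ) (y : E →L[ℝ] ℝ) {z : E →L[ℝ] ℝ} (hz : σ z = 0) :
    y (K z) = -z (K y) := by
  have := D.sym y z
  rw [hz, inner_zero_right] at this
  linarith

lemma Data.shift (D : Data K σ) (x : E) (y y0 : E →L[ℝ] ℝ) {z : E →L[ℝ] ℝ} (hz : σ z = 0) :
    (y - (y0 + z)) (x - K (y0 + z)) = (y - y0) (x - K y0) - z (x - K y) := by
  have h1 := D.skew y hz
  have h2 := D.skew y0 hz
  have h3 := D.skew z hz
  simp only [map_add, map_sub, ContinuousLinearMap.sub_apply, ContinuousLinearMap.add_apply]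
  linarith

lemma zero_of_le {a b : ℝ} (h : ∀ t : ℝ, t * a ≤ b) : a = 0 := by
  by_contra ha
  have := h ((b + 1) / a)
  rw [div_mul_cancel₀ _ ha] at this
  linarith

/-- the global lemma -/
lemma Data.gl (D : Data K σ) {x : E} {y y0 : E →L[ℝ] ℝ} {C : ℝ}
    (h : ∀ y', σ y' = σ y0 → 0 ≤ (y - y') (x - K y') + C) :
    x = K y ∧ ‖σ y - σ y0‖ ^ 2 ≤ C := by
  have hx : x = K y := sub_eq_zero.1 (D.ker _ fun z hz => zero_of_le
    (b := (y - y0) (x - K y0) + C) fun t => by
      have hz' : σ (t • z) = 0 := by rw [map_smul, hz, smul_zero]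
      have := h (y0 + t • z) (by rw [map_add, hz', add_zero])
      rw [D.shift x y y0 hz', ContinuousLinearMap.smul_apply, smul_eq_mul] at this
      linarith)
  have := h y0 rfl
  rw [hx, D.sq'] at this
  exact ⟨hx, by linarith⟩

lemma fib_convex (y0 : E →L[ℝ] ℝ) : Convex ℝ {y | σ y = σ y0} :=
  (convex_singleton (σ y0)).linear_preimage σ.toLinearMap

lemma Data.dens (D : Data K σ) (y0 : E →L[ℝ] ℝ) {O : Set E} (hO : IsOpen O) (hc : Convex ℝ O)
    (hn : O.Nonempty) : ∃ y, σ y = σ y0 ∧ K y ∈ O := by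
  by_contra h
  push Not at h
  obtain ⟨f, u, h1, h2⟩ := geometric_hahn_banach_open hc hO
    ((fib_convex (σ := σ) y0).linear_image K.toLinearMap)
    (disjoint_right.2 (by rintro _ ⟨y, hy, rfl⟩; exact h y hy))
  have hf : f = 0 := D.inj _ (D.ker _ fun z hz => zero_of_le (b := f (K y0) - u) fun t => by
    have := h2 _ ⟨y0 + t • z, by simp [hz], rfl⟩
    have h3 := D.skew f hz
    simp only [ContinuousLinearMap.coe_coe, map_add, map_smul, smul_eq_mul] at this
    rw [h3] at this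
    linarith)
  obtain ⟨a, ha⟩ := hn
  have := (h1 a ha).trans_le (h2 _ ⟨y0, rfl, rfl⟩)
  simp [hf] at this

lemma Data.ext (D : Data K σ) {x : E} {y y0 : E →L[ℝ] ℝ} {C δ : ℝ} (hδ : 0 < δ)
    (h : ∀ y', σ y' = σ y0 → ‖K y' - x‖ < δ → 0 ≤ (y - y') (x - K y') + C) :
    ∃ u, x = K (y - u) := by
  obtain ⟨y1, e1, b1⟩ := D.dens y0 (Metric.isOpen_ball (x := x) (ε := δ / 2))
    (convex_ball _ _) (Metric.nonempty_ball.2 (by positivity))
  rw [mem_ball_iff_norm] at b1
  obtain ⟨c, hc⟩ : ∃ c, c = (y - y1) (x - K y1) + C := ⟨_, rfl⟩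
  have key : ∀ z, σ z = 0 → ‖K z‖ < δ / 2 → z (x - K y) ≤ c := fun z hz hb => by
    have := h (y1 + z) (by rw [map_add, hz, add_zero, e1]) (by
      rw [map_add, add_sub_right_comm]
      exact (norm_add_le _ _).trans_lt (by linarith))
    rw [D.shift x y y1 hz] at this
    linarith
  have c0 : 0 ≤ c := by simpa using key 0 (map_zero _) (by simpa using hδ)
  obtain ⟨f, u, h1, h2⟩ := geometric_hahn_banach_open
    ((convex_ball (0 : E) (δ / 2)).prod (convex_Ioi c)) (Metric.isOpen_ball.prod isOpen_Ioi)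
    ((fib_convex (σ := σ) 0).linear_image
      (K.prod (ContinuousLinearMap.apply ℝ ℝ (x - K y))).toLinearMap)
    (disjoint_right.2 (by
      rintro _ ⟨z, hz, rfl⟩ ⟨h1, h2⟩
      exact (key z (hz.trans (map_zero _)) (mem_ball_zero_iff.1 h1)).not_gt h2))
  have u0 : u ≤ 0 := by simpa only [map_zero] using h2 _ ⟨0, rfl, rfl⟩
  have sp : ∀ (a : E) (s : ℝ), f (a, s) = f (a, 0) + s * f (0, 1) := fun a s => by
    rw [← smul_eq_mul, ← map_smul, ← map_add]; simp
  have l0 : f (0, 1) < 0 := by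
    have := h1 (0, c + 1) ⟨Metric.mem_ball_self (by positivity), by simp⟩
    rw [sp, Prod.mk_zero_zero, map_zero] at this
    nlinarith
  refine ⟨(-(f (0, 1))⁻¹) • f.comp (ContinuousLinearMap.inl ℝ E ℝ), sub_eq_zero.1 (D.ker _
    fun z hz => ?_)⟩
  have h3 : f (K z, z (x - K y)) = 0 := zero_of_le (b := -u) fun t => by
    have := h2 _ ⟨(-t) • z, by simp [hz], rfl⟩
    rw [map_smul, map_smul] at this
    have h4 : u ≤ -t * f (K z, z (x - K y)) := this
    linarith
  have h4 : f (K z, 0) = _ := D.skew (f.comp (ContinuousLinearMap.inl ℝ E ℝ)) hz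
  rw [sp, h4] at h3
  rw [map_sub K, map_smul K, ← sub_add, map_add, map_smul, smul_eq_mul]
  have := l0.ne
  field_simp
  linarith

end gen

/-- the Hilbert space -/
abbrev H : Type := lp (fun _ : ℕ => ℝ) 2

theorem curve : ∃ (K : (E →L[ℝ] ℝ) →L[ℝ] E) (σ : (E →L[ℝ] ℝ) →L[ℝ] H) (ω : ℝ → H), Data K σ ∧
    (∀ s t, ‖ω s - ω t‖ ≤ |s - t|) ∧ (∀ t, t ≠ 0 → ∃ y, σ y = ω t) ∧ ∀ y, σ y ≠ ω 0 := by
  let b : ℕ → H := fun n => lp.single 2 n 1
  have nb : ∀ n, ‖b n‖ = 1 := fun n => by simp [b]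
  have p : ∀ n : ℕ, (0:ℝ) < (1 / 2) ^ n := fun n => by positivity
  have p1 : ∀ n : ℕ, ((1:ℝ) / 2) ^ n ≤ 1 := fun n => pow_le_one₀ (by norm_num) (by norm_num)
  obtain ⟨a, ha⟩ : ∃ a : ℝ → ℕ → ℝ, ∀ t n, a t n = max ((1 / 2) ^ n - |t|) 0 * (1 / 2 / 2 ^ n) :=
    ⟨_, fun _ _ => rfl⟩
  have a0 : ∀ n, 0 < a 0 n := fun n => by
    rw [ha, abs_zero, sub_zero, max_eq_left (p n).le]; positivity
  have a1 : ∀ t n, ‖a t n • b n‖ ≤ 1 / 2 / 2 ^ n := fun t n => by
    rw [norm_smul, nb, mul_one, ha, Real.norm_of_nonneg (by positivity)]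
    refine mul_le_of_le_one_left (by positivity) (max_le ?_ zero_le_one)
    linarith [p1 n, abs_nonneg t]
  have s : ∀ t, HasSum (fun n => a t n • b n) (∑' n, a t n • b n) := fun t =>
    (Summable.of_norm_bounded (hasSum_geometric_two' 1).summable (a1 t)).hasSum
  obtain ⟨K, σ, D, hv, hβ⟩ := tail (fun n => a 0 n • b n) (C := 1) (fun n => (a1 0 n).trans (by
    rw [div_le_one (by positivity)]
    linarith [one_le_pow₀ (M₀ := ℝ) one_le_two (n := n)])) fun n h => by
      have := congrArg norm h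
      rw [norm_smul, nb, mul_one, norm_zero, norm_eq_zero] at this
      exact (a0 n).ne' this
  refine ⟨K, σ, fun t => ∑' n, a t n • b n, D, fun r t => ?_, fun t ht => ?_, fun y hy => ?_⟩
  · rw [← ((s r).sub (s t)).tsum_eq]
    refine tsum_of_norm_bounded (hasSum_geometric_two' _) fun n => ?_
    rw [← sub_smul, norm_smul, nb, mul_one, ha, ha, ← sub_mul, norm_mul,
      Real.norm_of_nonneg (r := 1 / 2 / 2 ^ n) (by positivity)]
    have : |max ((1 / 2) ^ n - |r|) 0 - max ((1 / 2) ^ n - |t|) 0| ≤ |r - t| :=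
      (abs_max_sub_max_le_abs _ _ _).trans (by
        rw [sub_sub_sub_cancel_left, abs_sub_comm]; exact abs_abs_sub_abs_le _ _)
    calc _ ≤ |r - t| * (1 / 2 / 2 ^ n) := mul_le_mul_of_nonneg_right this (by positivity)
      _ = _ := by ring
  · obtain ⟨N, hN⟩ := exists_pow_lt_of_lt_one (abs_pos.2 ht) (by norm_num : (1:ℝ) / 2 < 1)
    choose y hy using hv
    refine ⟨∑ n ∈ Finset.range N, (a t n / a 0 n) • y n, ?_⟩
    show _ = ∑' n, a t n • b n
    rw [tsum_eq_sum (s := Finset.range N) fun n hn => ?_, map_sum]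
    · exact Finset.sum_congr rfl fun n _ => by
        rw [map_smul, hy, smul_smul, div_mul_cancel₀ _ (a0 n).ne']
    · have := pow_le_pow_of_le_one (by norm_num : (0:ℝ) ≤ 1 / 2) (by norm_num)
        (not_lt.1 (mt Finset.mem_range.2 hn))
      rw [ha, max_eq_right (by linarith), zero_mul, zero_smul]
  · obtain ⟨β, h1, h2⟩ := hβ y
    have co : ∀ (c : ℕ → ℝ) (w : H), HasSum (fun n => c n • b n) w → ∀ k, w k = c k :=
      fun c w h k => by
        have h3 := h.mapL (innerSL ℝ (b k))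
        have h4 := hasSum_single (f := fun n => innerSL ℝ (b k) (c n • b n)) k fun n hn => by
          simp [b, lp.inner_single_left, hn]
        simpa [b, lp.inner_single_left] using h3.unique h4
    have : ∀ k, β k = 1 := fun k => by
      have h3 := co (fun n => β n * a 0 n) _ (by simpa only [mul_smul] using h2) k
      rw [hy, co _ _ (s 0) k] at h3
      exact (mul_eq_right₀ (a0 k).ne').1 h3.symm
    have h3 := h1.tendsto_atTop_zero
    rw [funext this] at h3
    exact one_ne_zero (tendsto_nhds_unique tendsto_const_nhds h3)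

end Pool.Agent.H29.Tail
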