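import Pool.Agent.H29.Tail2

open Set Filter Topology
open scoped RealInnerProductSpace

namespace Pool.Agent.H29.Tail

section gen

variable {E H : Type} [NormedAddCommGroup E] [NormedSpace ℝ E] [NormedAddCommGroup H]
  [InnerProductSpace ℝ H] {K : (E →L[ℝ] ℝ) →L[ℝ] E} {σ : (E →L[ℝ] ℝ) →L[ℝ] H} {ω : ℝ → H}

/-- first component of a functional on a product -/
noncomputable def gl {F : Type} [NormedAddCommGroup F] [NormedSpace ℝ F] (g : E × F →L[ℝ] ℝ) :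
    E →L[ℝ] ℝ := g.comp (ContinuousLinearMap.inl ℝ E F)

/-- a functional on `E × ℝ` from its components -/
noncomputable def mkf (y : E →L[ℝ] ℝ) (s : ℝ) : E × ℝ →L[ℝ] ℝ :=
  y.comp (ContinuousLinearMap.fst ℝ E ℝ) + s • ContinuousLinearMap.snd ℝ E ℝ

lemma gl_mkf (y : E →L[ℝ] ℝ) (s : ℝ) : gl (mkf y s) = y := by ext x; simp [gl, mkf]

lemma gr_mkf (y : E →L[ℝ] ℝ) (s : ℝ) : mkf y s (0, 1) = s := by simp [mkf]

lemma split (g : E × ℝ →L[ℝ] ℝ) (p : E × ℝ) : g p = gl g p.1 + p.2 * g (0, 1) := by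
  rw [← smul_eq_mul, ← map_smul]
  exact (congrArg g (by simp)).trans (map_add g (p.1, 0) _)

lemma rel (g h : E × ℝ →L[ℝ] ℝ) (p q : E × ℝ) :
    (g - h) (p - q) = (gl g - gl h) (p.1 - q.1) + (p.2 - q.2) * (g (0, 1) - h (0, 1)) :=
  split _ _

/-- the reparametrisation -/
def rho (c t : ℝ) : ℝ := min t 0 + max (t - c) 0

lemma rho_neg {c t : ℝ} (hc : 0 ≤ c) (h : t ≤ 0) : rho c t = t := by
  rw [rho, min_eq_left h, max_eq_right (by linarith), add_zero]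

lemma rho_pos {c t : ℝ} (hc : 0 ≤ c) (h : c ≤ t) : rho c t = t - c := by
  rw [rho, min_eq_right (by linarith), max_eq_left (by linarith), zero_add]

lemma rho_mid {c t : ℝ} (h0 : 0 ≤ t) (h : t ≤ c) : rho c t = 0 := by
  rw [rho, min_eq_right h0, max_eq_right (by linarith), zero_add]

lemma rho_zero (t : ℝ) : rho 0 t = t := by rw [rho, sub_zero, min_add_max, add_zero]

lemma rho_cont (c : ℝ) : Continuous (rho c) := by unfold rho; fun_prop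

lemma rho_sq {c : ℝ} (hc : 0 ≤ c) (s t : ℝ) :
    (rho c s - rho c t) ^ 2 ≤ (s - t) * (rho c s - rho c t) := by
  have tri : ∀ t, (t ≤ 0 ∧ rho c t = t) ∨ (0 ≤ t ∧ t ≤ c ∧ rho c t = 0) ∨
      (c ≤ t ∧ rho c t = t - c) := fun t => by
    rcases le_total t 0 with h | h
    · exact .inl ⟨h, rho_neg hc h⟩
    rcases le_total t c with h' | h'
    · exact .inr (.inl ⟨h, h', rho_mid h h'⟩)
    · exact .inr (.inr ⟨h', rho_pos hc h'⟩)
  rcases tri s with ⟨a, e⟩ | ⟨a, a', e⟩ | ⟨a, e⟩ <;> rcases tri t with ⟨b, f⟩ | ⟨b, b', f⟩ | ⟨b, f⟩ <;>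
    rw [e, f] <;> nlinarith

/-- the operator -/
def op (K : (E →L[ℝ] ℝ) →L[ℝ] E) (σ : (E →L[ℝ] ℝ) →L[ℝ] H) (ω : ℝ → H) (c : ℝ) (p : E × ℝ) :
    Set (E × ℝ →L[ℝ] ℝ) :=
  {g | p.1 = K (gl g) ∧ g (0, 1) = rho c p.2 ∧ σ (gl g) = ω (rho c p.2)}

lemma op_mem {y : E →L[ℝ] ℝ} {c t : ℝ} (h : σ y = ω (rho c t)) :
    mkf y (rho c t) ∈ op K σ ω c (K y, t) :=
  ⟨by rw [gl_mkf], gr_mkf _ _, by rw [gl_mkf]; exact h⟩

omit [InnerProductSpace ℝ H] in
lemma lip_sq (L : ∀ s t, ‖ω s - ω t‖ ≤ |s - t|) (s t : ℝ) : ‖ω s - ω t‖ ^ 2 ≤ (s - t) ^ 2 := by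
  rw [← sq_abs (s - t)]; exact pow_le_pow_left₀ (norm_nonneg _) (L s t) 2

omit [InnerProductSpace ℝ H] in
lemma lip_cont (L : ∀ s t, ‖ω s - ω t‖ ≤ |s - t|) : Continuous ω :=
  (LipschitzWith.of_dist_le_mul (K := 1) fun s t => by
    simpa [dist_eq_norm] using L s t).continuous

/-- pairing of a point `(K y, α; y, β)` with a point of the operator -/
lemma op_rel (D : Data K σ) {c : ℝ} {q : E × ℝ} {h : E × ℝ →L[ℝ] ℝ} (hq : h ∈ op K σ ω c q)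
    (y : E →L[ℝ] ℝ) (α β : ℝ) : (mkf y β - h) ((K y, α) - q) =
      (α - q.2) * (β - rho c q.2) - ‖σ y - ω (rho c q.2)‖ ^ 2 := by
  rw [rel, gl_mkf, gr_mkf, hq.1, D.sq', hq.2.1, hq.2.2]; ring

lemma op_mono (D : Data K σ) (L : ∀ s t, ‖ω s - ω t‖ ≤ |s - t|) {c : ℝ} (hc : 0 ≤ c)
    {p q : E × ℝ} {g h : E × ℝ →L[ℝ] ℝ} (hp : g ∈ op K σ ω c p) (hq : h ∈ op K σ ω c q) :
    0 ≤ (g - h) (p - q) := by
  rw [rel, hp.1, hq.1, D.sq', hp.2.1, hq.2.1, hp.2.2, hq.2.2]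
  linarith [lip_sq L (rho c p.2) (rho c q.2), rho_sq hc p.2 q.2]

lemma pin {f : ℝ → ℝ} (hf : Continuous f) {α β δ : ℝ} (hδ : 0 < δ)
    (h : ∀ t, |t - α| < δ → 0 ≤ (α - t) * (β - f t)) : β = f α := by
  have hb : ∀ᶠ t in 𝓝 α, |t - α| < δ := Metric.ball_mem_nhds α hδ
  refine le_antisymm ?_ ?_
  · refine ge_of_tendsto (hf.continuousAt.tendsto.mono_left (nhdsWithin_le_nhds (s := Ioi α))) ?_
    filter_upwards [self_mem_nhdsWithin, nhdsWithin_le_nhds hb] with t h1 h2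
    have := h t h2
    have : α < t := h1
    nlinarith
  · refine le_of_tendsto (hf.continuousAt.tendsto.mono_left (nhdsWithin_le_nhds (s := Iio α))) ?_
    filter_upwards [self_mem_nhdsWithin, nhdsWithin_le_nhds hb] with t h1 h2
    have := h t h2
    have : t < α := h1
    nlinarith

lemma fin (L : ∀ s t, ‖ω s - ω t‖ ≤ |s - t|) {c δ : ℝ} (hδ : 0 < δ) {p : E × ℝ}
    {g : E × ℝ →L[ℝ] ℝ} (h1 : p.1 = K (gl g)) (h2 : ∀ t, |t - p.2| < δ →
      ‖σ (gl g) - ω (rho c t)‖ ^ 2 ≤ (p.2 - t) * (g (0, 1) - rho c t)) : g ∈ op K σ ω c p := by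
  refine ⟨h1, pin (rho_cont c) hδ fun t ht => (sq_nonneg _).trans (h2 t ht), ?_⟩
  have := h2 p.2 (by simpa using hδ)
  rw [sub_self, zero_mul] at this
  exact sub_eq_zero.1 (norm_eq_zero.1 (pow_eq_zero_iff two_ne_zero |>.1
    (le_antisymm this (sq_nonneg _))))

lemma op_max (D : Data K σ) (L : ∀ s t, ‖ω s - ω t‖ ≤ |s - t|) (R : ∀ t, t ≠ 0 → ∃ y, σ y = ω t)
    {c : ℝ} (hc : 0 ≤ c) {p : E × ℝ} {g : E × ℝ →L[ℝ] ℝ}
    (h : ∀ q, ∀ b ∈ op K σ ω c q, 0 ≤ (g - b) (p - q)) : g ∈ op K σ ω c p := by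
  have k : ∀ t, rho c t ≠ 0 → p.1 = K (gl g) ∧
      ‖σ (gl g) - ω (rho c t)‖ ^ 2 ≤ (p.2 - t) * (g (0, 1) - rho c t) := fun t ht => by
    obtain ⟨y, hy⟩ := R _ ht
    rw [← hy]
    refine D.gl fun y' hy' => ?_
    have := h _ _ (op_mem (hy'.trans hy))
    rwa [rel, gl_mkf, gr_mkf] at this
  have cl : IsClosed {t | ‖σ (gl g) - ω (rho c t)‖ ^ 2 ≤ (p.2 - t) * (g (0, 1) - rho c t)} := by
    have := rho_cont c
    have := lip_cont L
    exact isClosed_le (by fun_prop) (by fun_prop)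
  have k1 := cl.closure_subset_iff.2 (show Iio 0 ⊆ _ from fun t ht =>
    (k t (by rw [rho_neg hc (le_of_lt ht)]; exact ne_of_lt ht)).2)
  have k2 := cl.closure_subset_iff.2 (show Ioi c ⊆ _ from fun t ht =>
    (k t (by rw [rho_pos hc (le_of_lt ht)]; exact (sub_pos.2 ht).ne')).2)
  rw [closure_Iio] at k1
  rw [closure_Ioi] at k2
  refine fin L one_pos (k (-1) (by rw [rho_neg hc (by norm_num)]; norm_num)).1 fun t _ => ?_
  rcases le_total t 0 with h0 | h0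
  · exact k1 h0
  rcases le_total c t with h1 | h1
  · exact k2 h1
  have a1 := (k1 (mem_Iic.2 le_rfl)).out
  have a2 := (k2 (mem_Ici.2 le_rfl)).out
  rw [rho_mid le_rfl hc] at a1
  rw [rho_mid hc le_rfl] at a2
  rw [rho_mid h0 h1]
  rcases le_total 0 (g (0, 1)) with h2 | h2 <;> nlinarith

lemma op_gap (N : ∀ y, σ y ≠ ω 0) {c : ℝ} {p : E × ℝ} {g : E × ℝ →L[ℝ] ℝ}
    (h : g ∈ op K σ ω c p) : p.2 < 0 ∨ c < p.2 := by
  by_contra h1
  push Not at h1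
  exact N _ (by rw [h.2.2, rho_mid h1.1 h1.2])

lemma op_fpv (D : Data K σ) (L : ∀ s t, ‖ω s - ω t‖ ≤ |s - t|) (R : ∀ t, t ≠ 0 → ∃ y, σ y = ω t)
    {U : Set (E × ℝ)} (hU : IsOpen U) {p : E × ℝ} (hp : p ∈ U) {g : E × ℝ →L[ℝ] ℝ}
    (h : ∀ q ∈ U, ∀ b ∈ op K σ ω 0 q, 0 ≤ (g - b) (p - q)) : g ∈ op K σ ω 0 p := by
  obtain ⟨δ, hδ, hb⟩ := Metric.isOpen_iff.1 hU p hp
  have k : ∀ t, |t - p.2| < δ → ∀ y, σ y = ω t → ‖K y - p.1‖ < δ →
      0 ≤ (gl g - y) (p.1 - K y) + (p.2 - t) * (g (0, 1) - t) := fun t ht y hy hK => by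
    have := h (K y, t) (hb (by
      rw [mem_ball_iff_norm]; exact max_lt hK ht)) _ (op_mem (by rw [rho_zero]; exact hy))
    rwa [rel, gl_mkf, gr_mkf, rho_zero] at this
  have near : ∀ {O : Set ℝ}, IsOpen O → O.Nonempty → ∃ t ∈ O, t ≠ 0 := fun hO hn => by
    obtain ⟨t, h1, h2⟩ := (dense_compl_singleton (0:ℝ)).exists_mem_open hO hn
    exact ⟨t, h2, h1⟩
  obtain ⟨t0, h0, n0⟩ := near (Metric.isOpen_ball (x := p.2) (ε := δ)) (Metric.nonempty_ball.2 hδ)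
  obtain ⟨y0, e0⟩ := R t0 n0
  obtain ⟨u, hu⟩ := D.ext hδ fun y hy => k t0 h0 y (hy.trans e0)
  have k2 : ∀ t, |t - p.2| < δ → t ≠ 0 → ∀ a, ‖a‖ < δ → u a + ‖σ (gl g - u) - ω t‖ ^ 2 ≤
      (p.2 - t) * (g (0, 1) - t) := fun t ht hn a ha => by
    obtain ⟨y1, e1⟩ := R t hn
    by_contra hlt
    obtain ⟨y, e2, b1, b2⟩ := D.dens y1 (O := Metric.ball p.1 δ ∩ {x | (p.2 - t) * (g (0, 1) - t) -
      ‖σ (gl g - u) - ω t‖ ^ 2 + u p.1 < u x})
      (Metric.isOpen_ball.inter (isOpen_lt continuous_const u.continuous))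
      ((convex_ball _ _).inter (convex_halfSpace_gt u.toLinearMap.isLinear _))
      ⟨p.1 + a, by simpa using ha, by
        show _ < u (p.1 + a)
        rw [map_add]; linarith [not_le.1 hlt]⟩
    have h1 := k t ht y (e2.trans e1) (mem_ball_iff_norm.1 b1)
    have h2 := D.sq' (gl g - u) y
    rw [← hu, e2, e1, sub_right_comm, ContinuousLinearMap.sub_apply, map_sub u] at h2
    have h3 : _ < u (K y) := b2
    linarith
  have u0 : u = 0 := by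
    by_contra hne
    obtain ⟨a, ha, pos⟩ : ∃ a, ‖a‖ < δ ∧ 0 < u a := by
      by_contra hh
      push Not at hh
      refine hne (ContinuousLinearMap.ext fun x => ?_)
      have r : 0 < δ / (‖x‖ + 1) := by positivity
      have n : ‖(δ / (‖x‖ + 1)) • x‖ < δ := by
        rw [norm_smul, Real.norm_of_nonneg r.le, div_mul_eq_mul_div, div_lt_iff₀ (by positivity)]
        linarith
      have h1 := hh _ n
      have h2 := hh _ ((norm_neg _).trans_lt n)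
      rw [map_neg] at h2
      rw [map_smul, smul_eq_mul] at h1 h2
      exact (mul_eq_zero.1 (le_antisymm h1 (by linarith))).resolve_left r.ne'
    obtain ⟨t, ⟨h1, h2⟩, h3⟩ := near (O := Metric.ball p.2 δ ∩
      {t | (p.2 - t) * (g (0, 1) - t) < u a}) (Metric.isOpen_ball.inter
        (isOpen_lt (by fun_prop) continuous_const)) ⟨p.2, Metric.mem_ball_self hδ, by simpa⟩
    have := k2 t h1 h3 a ha
    have h4 : _ < u a := h2
    nlinarith [sq_nonneg ‖σ (gl g - u) - ω t‖]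
  subst u0
  rw [sub_zero] at hu k2
  refine fin L hδ hu fun t ht => ?_
  rw [rho_zero]
  by_contra hlt
  have := lip_cont L
  obtain ⟨s, ⟨h1, h2⟩, h3⟩ := near (O := Metric.ball p.2 δ ∩
    {s | (p.2 - s) * (g (0, 1) - s) < ‖σ (gl g) - ω s‖ ^ 2}) (Metric.isOpen_ball.inter
      (isOpen_lt (by fun_prop) (by fun_prop))) ⟨t, ht, not_le.1 hlt⟩
  have := k2 s h1 h3 0 (by simpa using hδ)
  rw [map_zero, zero_add] at this
  exact this.not_gt h2

end gen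

end Pool.Agent.H29.Tail
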