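import Pool.Agent.H29.Tail3

open Set Filter Topology

namespace Pool.Agent.H29.Tail

/-- the rank one operator -/
noncomputable def ell : E × ℝ →L[ℝ] (E × ℝ →L[ℝ] ℝ) :=
  (ContinuousLinearMap.snd ℝ E ℝ).smulRight (ContinuousLinearMap.snd ℝ E ℝ)

lemma ell_apply (p q : E × ℝ) : ell p q = p.2 * q.2 := rfl

lemma ell_mono (p q : E × ℝ) : 0 ≤ (ell p - ell q) (p - q) := by
  rw [← map_sub ell]; exact mul_self_nonneg _

lemma ell_max {p : E × ℝ} {f : E × ℝ →L[ℝ] ℝ} (h : ∀ q, 0 ≤ (f - ell q) (p - q)) : f = ell p := by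
  have k : ∀ a, 0 ≤ (f - ell p) a := fun a => by
    refine ge_of_tendsto (f := fun t : ℝ => (f - ell p) a + t * ell a a) (x := 𝓝[>] 0) ?_ ?_
    · refine Tendsto.mono_left ?_ nhdsWithin_le_nhds
      exact (by fun_prop : Continuous fun t : ℝ => (f - ell p) a + t * ell a a).tendsto' _ _
        (by simp)
    · filter_upwards [self_mem_nhdsWithin] with t ht
      have := h (p - t • a)
      rw [sub_sub_cancel, map_smul, map_sub ell, map_smul ell, ← sub_add] at this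
      exact nonneg_of_mul_nonneg_right this ht
  refine sub_eq_zero.1 (ContinuousLinearMap.ext fun a => le_antisymm ?_ (k a))
  have := k (-a)
  rwa [map_neg, neg_nonneg] at this

/-- the operator whose domain has a gap -/
theorem gap : ∃ A : E × ℝ → Set (E × ℝ →L[ℝ] ℝ),
    (∀ p q g h, g ∈ A p → h ∈ A q → 0 ≤ (g - h) (p - q)) ∧
    (∀ p g, (∀ q h, h ∈ A q → 0 ≤ (g - h) (p - q)) → g ∈ A p) ∧
    (∀ p g, g ∈ A p → p.2 < 0 ∨ 1 < p.2) ∧ (∃ x g, g ∈ A (x, -1)) ∧ (∃ x g, g ∈ A (x, 2)) ∧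
    (∃ x g, ∀ q h, q.2 < 1 / 2 → h ∈ A q → 0 ≤ (g - h) ((x, 1 / 4) - q)) ∧
    ∃ x g, ∀ q h, h ∈ A q → 0 ≤ (g - (ell q + h)) ((x, 1 / 2) - q) := by
  obtain ⟨K, σ, ω, D, L, R, N⟩ := curve
  refine ⟨op K σ ω 1, fun p q g h => op_mono D L zero_le_one, fun p g h =>
    op_max D L R zero_le_one h, fun p g => op_gap N, ?_, ?_, ?_, ?_⟩
  · obtain ⟨y, hy⟩ := R (rho 1 (-1)) (by rw [rho_neg zero_le_one (by norm_num)]; norm_num)
    exact ⟨_, _, op_mem hy⟩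
  · obtain ⟨y, hy⟩ := R (rho 1 2) (by rw [rho_pos zero_le_one (by norm_num)]; norm_num)
    exact ⟨_, _, op_mem hy⟩
  · obtain ⟨y, hy⟩ := R (1 / 4) (by norm_num)
    refine ⟨K y, mkf y (1 / 4), fun q h h1 h2 => ?_⟩
    have := (op_gap N h2).resolve_right (by linarith)
    rw [op_rel D h2, hy, rho_neg zero_le_one this.le]
    linarith [lip_sq L (1 / 4) q.2]
  · obtain ⟨y, hy⟩ := R (1 / 2) (by norm_num)
    refine ⟨K y, mkf y (1 / 2), fun q h h2 => ?_⟩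
    rw [add_comm, ← sub_sub, ContinuousLinearMap.sub_apply, op_rel D h2, hy, ell_apply]
    have := lip_sq L (1 / 2) (rho 1 q.2)
    show _ ≤ _ - q.2 * (1 / 2 - q.2)
    rcases op_gap N h2 with h | h
    · rw [rho_neg zero_le_one h.le] at this ⊢; nlinarith
    · rw [rho_pos zero_le_one h.le] at this ⊢; nlinarith

/-- the operator of type FPV whose domain misses a hyperplane -/
theorem cut : ∃ A : E × ℝ → Set (E × ℝ →L[ℝ] ℝ),
    (∀ p q g h, g ∈ A p → h ∈ A q → 0 ≤ (g - h) (p - q)) ∧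
    (∀ U : Set (E × ℝ), IsOpen U → ∀ p ∈ U, ∀ g, (∀ q ∈ U, ∀ h ∈ A q, 0 ≤ (g - h) (p - q)) →
      g ∈ A p) ∧
    (∀ p g, g ∈ A p → p.2 ≠ 0) ∧ (∃ x g, g ∈ A (x, -1)) ∧ ∃ x g, g ∈ A (x, 1) := by
  obtain ⟨K, σ, ω, D, L, R, N⟩ := curve
  refine ⟨op K σ ω 0, fun p q g h => op_mono D L le_rfl, fun U hU p hp g h =>
    op_fpv D L R hU hp h, fun p g h => (op_gap N h).elim ne_of_lt ne_of_gt, ?_, ?_⟩
  · obtain ⟨y, hy⟩ := R (rho 0 (-1)) (by rw [rho_zero]; norm_num)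
    exact ⟨_, _, op_mem hy⟩
  · obtain ⟨y, hy⟩ := R (rho 0 1) (by rw [rho_zero]; norm_num)
    exact ⟨_, _, op_mem hy⟩

end Pool.Agent.H29.Tail
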