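import Pool.Agent.H29.Tail3

open Set Filter Topology
open scoped RealInnerProductSpace

namespace Pool.Agent.H29.Tail

lemma nonneg_of_ray {a b : ℝ} (h : ∀ t : ℝ, 0 ≤ t → 0 ≤ b + t * a) : 0 ≤ a := by
  by_contra ha
  have h0 := h 0 le_rfl
  have ha := not_le.1 ha
  have := h ((b + 1) / -a) (div_nonneg (by linarith) (by linarith))
  rw [div_neg, neg_mul, div_mul_cancel₀ _ ha.ne] at this
  linarith

theorem family : ∃ (v : ℕ → H) (φ : H →L[ℝ] ℝ), (∀ n, ‖v n‖ ≤ 5) ∧ (∀ n, 0 < φ (v n)) ∧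
    (∀ (β : ℕ → ℝ) (a : H), Summable β → HasSum (fun i => β i • v i) a →
      (∀ n : H →L[ℝ] ℝ, (∀ i, 0 ≤ n (v i)) → 0 ≤ n a) → ∀ i, 0 ≤ β i) ∧
    ∀ n : H →L[ℝ] ℝ, (∀ i, 0 ≤ n (v i)) → ∀ i, n (v i) = 0 → ∀ k, n (v k) = 0 := by
  let b : ℕ → H := fun n => lp.single 2 n 1
  have nb : ∀ n, ‖b n‖ = 1 := fun n => by simp [b]
  obtain ⟨q, hq⟩ : ∃ q : ℕ → ℝ, ∀ n, q n = (1 / 2) ^ n := ⟨_, fun _ => rfl⟩
  have q0 : ∀ n, 0 < q n := fun n => by rw [hq]; positivity
  have q1 : ∀ n, q n ≤ 1 := fun n => by rw [hq]; exact pow_le_one₀ (by norm_num) (by norm_num)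
  have qt : Tendsto q atTop (𝓝 0) := by
    rw [funext hq]; exact tendsto_pow_atTop_nhds_zero_of_lt_one (by norm_num) (by norm_num)
  obtain ⟨c, hc⟩ : ∃ c : ℕ → ℕ → ℝ, ∀ i j, c i j =
    q j * ((if (Nat.unpair j).1 = i then 1 else 0) + q j) := ⟨_, fun _ _ => rfl⟩
  have c0 : ∀ i j, 0 < c i j := fun i j => by
    rw [hc]; have := q0 j; split_ifs <;> positivity
  have c1 : ∀ i j, ‖c i j • b j‖ ≤ 2 * (1 / 2) ^ j := fun i j => by
    rw [norm_smul, nb, mul_one, Real.norm_of_nonneg (c0 i j).le, hc, ← hq]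
    have := q0 j
    have := q1 j
    split_ifs <;> nlinarith
  have g2 := hasSum_geometric_two.mul_left 2
  obtain ⟨r, hr, rn⟩ : ∃ r : ℕ → H, (∀ i, HasSum (fun j => c i j • b j) (r i)) ∧ ∀ i, ‖r i‖ ≤ 2 * 2 :=
    ⟨_, fun i => (Summable.of_norm_bounded g2.summable (c1 i)).hasSum,
      fun i => tsum_of_norm_bounded g2 (c1 i)⟩
  have bb : ∀ j k, innerSL ℝ (b j) (b k) = if j = k then 1 else 0 := fun j k => by
    split_ifs with h
    · simp [h, nb]
    · simp [b, lp.inner_single_left, h]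
  have br : ∀ j i, innerSL ℝ (b j) (r i) = c i j := fun j i => by
    have h4 := hasSum_single (f := fun n => innerSL ℝ (b j) (c i n • b n)) j fun n hn => by
      rw [map_smul, bb, if_neg hn.symm, smul_zero]
    rw [((hr i).mapL (innerSL ℝ (b j))).unique h4, map_smul, bb, if_pos rfl, smul_eq_mul, mul_one]
  obtain ⟨v, hv⟩ : ∃ v : ℕ → H, ∀ i, v i = (q (Nat.unpair i).1 * q (Nat.unpair i).1) •
    b (Nat.unpair i).1 + q (Nat.unpair i).2 • r i := ⟨_, fun _ => rfl⟩
  have nv : ∀ (n : H →L[ℝ] ℝ) i, n (v i) = q (Nat.unpair i).1 * q (Nat.unpair i).1 *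
      n (b (Nat.unpair i).1) + q (Nat.unpair i).2 * n (r i) := fun n i => by
    rw [hv, map_add, map_smul, map_smul]; rfl
  have bv : ∀ j i, 0 < innerSL ℝ (b j) (v i) := fun j i => by
    rw [nv, bb, br]
    have := q0 (Nat.unpair i).1
    have := q0 (Nat.unpair i).2
    have := c0 i j
    split_ifs <;> positivity
  refine ⟨v, innerSL ℝ (b 0), fun i => ?_, bv 0, fun β a h1 h2 h3 i => ?_, fun n hn i hi k => ?_⟩
  · rw [hv]
    refine (norm_add_le _ _).trans ?_
    rw [norm_smul, norm_smul, nb, Real.norm_of_nonneg (mul_pos (q0 _) (q0 _)).le,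
      Real.norm_of_nonneg (q0 _).le]
    nlinarith [q0 (Nat.unpair i).1, q1 (Nat.unpair i).1, q0 (Nat.unpair i).2, q1 (Nat.unpair i).2,
      rn i, norm_nonneg (r i)]
  · have key : ∀ N, 0 ≤ β i * q (Nat.unpair i).2 + q (Nat.pair i N) * ∑' k, |β k| * 2 := fun N => by
      obtain ⟨j, hj⟩ : ∃ j, j = Nat.pair i N := ⟨_, rfl⟩
      have e1 : (Nat.unpair j).1 = i := by rw [hj, Nat.unpair_pair]
      rw [← hj]
      have h4 := hasSum_le (fun k => ?_) (h2.mapL (innerSL ℝ (b j)))
        (((hasSum_ite_eq i (β i * q (Nat.unpair i).2)).add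
          ((h1.abs.mul_right 2).hasSum.mul_left (q j))).mul_left (q j))
      · exact nonneg_of_mul_nonneg_right ((h3 _ fun k => (bv j k).le).trans h4) (q0 j)
      rw [map_smul, nv, bb, br, hc, e1, smul_eq_mul]
      have t1 : q (Nat.unpair k).1 * q (Nat.unpair k).1 *
          (if j = (Nat.unpair k).1 then 1 else 0) = q j * q j *
          (if j = (Nat.unpair k).1 then 1 else 0) := by
        split_ifs with h
        · rw [← h]
        · simp
      have t2 : β k * q (Nat.unpair k).2 * (if i = k then 1 else 0) =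
          if k = i then β i * q (Nat.unpair i).2 else 0 := by
        by_cases h : k = i
        · simp [h]
        · rw [if_neg h, if_neg (Ne.symm h), mul_zero]
      have t3 : β k * ((if j = (Nat.unpair k).1 then 1 else 0) + q (Nat.unpair k).2) ≤
          |β k| * 2 := by
        have := q0 (Nat.unpair k).2
        have := q1 (Nat.unpair k).2
        have := le_abs_self (β k)
        have := abs_nonneg (β k)
        split_ifs <;> nlinarith
      rw [t1, ← t2]
      nlinarith [mul_le_mul_of_nonneg_left t3 (mul_pos (q0 j) (q0 j)).le]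
    have lim := ((qt.comp (tendsto_atTop_mono (fun m => Nat.right_le_pair i m)
      tendsto_id)).mul_const (∑' k, |β k| * 2)).const_add (β i * q (Nat.unpair i).2)
    have := ge_of_tendsto' lim key
    rw [zero_mul, add_zero] at this
    exact nonneg_of_mul_nonneg_left this (q0 _)
  · have nb0 : ∀ k, 0 ≤ n (b k) := fun k => by
      have lim := (qt.mul_const (‖n‖ * (2 * 2))).const_add (q k * q k * n (b k))
      have := ge_of_tendsto' lim fun m => (hn (Nat.pair k m)).trans (by
        rw [nv, Nat.unpair_pair]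
        have := (le_abs_self _).trans (n.le_of_opNorm_le_of_le le_rfl (rn (Nat.pair k m)))
        nlinarith [q0 m])
      rw [zero_mul, add_zero] at this
      exact nonneg_of_mul_nonneg_right this (mul_pos (q0 k) (q0 k))
    have s : ∀ i, HasSum (fun j => c i j * n (b j)) (n (r i)) := fun i => by
      simpa only [map_smul, smul_eq_mul] using (hr i).mapL n
    have z : ∀ j, n (b j) = 0 := fun j => by
      have h1 := le_hasSum (s i) j fun k _ => mul_nonneg (c0 i k).le (nb0 k)
      rw [nv] at hi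
      have h2 := mul_nonneg (mul_pos (q0 (Nat.unpair i).1) (q0 (Nat.unpair i).1)).le
        (nb0 (Nat.unpair i).1)
      have h3 : n (r i) ≤ 0 := nonpos_of_mul_nonpos_right (by linarith) (q0 (Nat.unpair i).2)
      exact le_antisymm (nonpos_of_mul_nonpos_right (h1.trans h3) (c0 i j)) (nb0 j)
    rw [nv, z, (s k).unique (by simp only [z, mul_zero]; exact hasSum_zero)]
    simp

end Pool.Agent.H29.Tail
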