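import Pool.Agent.H29.Tail5

open Set Filter Topology
open scoped RealInnerProductSpace

namespace Pool.Agent.H29.Tail

section gen

variable {E H : Type} [NormedAddCommGroup E] [NormedSpace ℝ E] [NormedAddCommGroup H]
  [InnerProductSpace ℝ H] {K : (E →L[ℝ] ℝ) →L[ℝ] E} {σ : (E →L[ℝ] ℝ) →L[ℝ] H} {v : ℕ → H}

/-- second component of a functional on a product -/
noncomputable def gr (g : E × H →L[ℝ] ℝ) : H →L[ℝ] ℝ := g.comp (ContinuousLinearMap.inr ℝ E H)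

lemma gl_co (y : E →L[ℝ] ℝ) (B : H →L[ℝ] ℝ) : gl (y.coprod B) = y := by ext x; simp [gl]

lemma gr_co (y : E →L[ℝ] ℝ) (B : H →L[ℝ] ℝ) : gr (y.coprod B) = B := by ext x; simp [gr]

lemma rel2 (g h : E × H →L[ℝ] ℝ) (p q : E × H) :
    (g - h) (p - q) = (gl g - gl h) (p.1 - q.1) + (gr g - gr h) (p.2 - q.2) :=
  (congrArg (g - h) (by ext <;> simp)).trans (map_add (g - h) (p.1 - q.1, 0) (0, p.2 - q.2))

/-- the closed convex cone generated by `v` -/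
def cone (v : ℕ → H) : Set H := {a | ∀ n : H →L[ℝ] ℝ, (∀ i, 0 ≤ n (v i)) → 0 ≤ n a}

/-- the operator with convex domain -/
def op2 (K : (E →L[ℝ] ℝ) →L[ℝ] E) (σ : (E →L[ℝ] ℝ) →L[ℝ] H) (v : ℕ → H) (p : E × H) :
    Set (E × H →L[ℝ] ℝ) :=
  {g | p.1 = K (gl g) ∧ p.2 = σ (gl g) ∧ p.2 ∈ cone v ∧
    (∀ i, 0 ≤ (innerSL ℝ p.2 - gr g) (v i)) ∧ (innerSL ℝ p.2 - gr g) p.2 = 0}

lemma op2_mem {y : E →L[ℝ] ℝ} (h : σ y ∈ cone v) {n : H →L[ℝ] ℝ} (h1 : ∀ i, 0 ≤ n (v i))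
    (h2 : n (σ y) = 0) : y.coprod (innerSL ℝ (σ y) - n) ∈ op2 K σ v (K y, σ y) :=
  ⟨by rw [gl_co], by rw [gl_co], h, by rw [gr_co, sub_sub_cancel]; exact h1,
    by rw [gr_co, sub_sub_cancel]; exact h2⟩

lemma op2_mono (D : Data K σ) {p q : E × H} {g h : E × H →L[ℝ] ℝ} (hp : g ∈ op2 K σ v p)
    (hq : h ∈ op2 K σ v q) : 0 ≤ (g - h) (p - q) := by
  have h1 := hp.2.2.1 _ hq.2.2.2.1
  have h2 := hq.2.2.1 _ hp.2.2.2.1
  have h3 := hp.2.2.2.2
  have h4 := hq.2.2.2.2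
  rw [rel2, hp.1, hq.1, D.sq', ← hp.2.1, ← hq.2.1, norm_sub_sq_real]
  simp only [ContinuousLinearMap.sub_apply, innerSL_apply_apply, map_sub,
    real_inner_self_eq_norm_sq] at *
  rw [real_inner_comm] at h1
  linarith

lemma op2_max (D : Data K σ) (R : ∀ i, ∃ y, σ y = v i) {p : E × H} {g : E × H →L[ℝ] ℝ}
    (h : ∀ q, ∀ b ∈ op2 K σ v q, 0 ≤ (g - b) (p - q)) : g ∈ op2 K σ v p := by
  have k : ∀ y, σ y ∈ cone v → ∀ n : H →L[ℝ] ℝ, (∀ i, 0 ≤ n (v i)) → n (σ y) = 0 →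
      p.1 = K (gl g) ∧ ‖σ (gl g) - σ y‖ ^ 2 ≤ (gr g - (innerSL ℝ (σ y) - n)) (p.2 - σ y) :=
    fun y h1 n h2 h3 => D.gl fun y' hy' => by
      rw [← hy'] at h1 h3 ⊢
      have := h _ _ (op2_mem h1 h2 h3)
      rwa [rel2, gl_co, gr_co] at this
  have k0 : ∀ n : H →L[ℝ] ℝ, (∀ i, 0 ≤ n (v i)) →
      p.1 = K (gl g) ∧ ‖σ (gl g)‖ ^ 2 ≤ gr g p.2 + n p.2 := fun n hn => by
    simpa using k 0 (fun n _ => by simp) n hn (by simp)
  obtain ⟨e1, e2⟩ := k0 0 fun _ => le_rfl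
  have pc : p.2 ∈ cone v := fun n hn => nonneg_of_ray (b := gr g p.2) fun t ht =>
    (sq_nonneg _).trans (k0 (t • n) fun i => mul_nonneg ht (hn i)).2
  have n1 : ∀ i, 0 ≤ ((2:ℝ) • innerSL ℝ (σ (gl g)) - innerSL ℝ p.2 - gr g) (v i) := fun i => by
    obtain ⟨y, hy⟩ := R i
    refine nonneg_of_ray (b := gr g p.2 - ‖σ (gl g)‖ ^ 2) fun t ht => ?_
    have := (k (t • y) (fun n hn => by
      rw [map_smul, hy, map_smul]; exact mul_nonneg ht (hn i)) 0 (fun _ => le_rfl) rfl).2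
    rw [map_smul, hy, ← real_inner_self_eq_norm_sq] at this
    simp only [ContinuousLinearMap.sub_apply, innerSL_apply_apply, map_sub, map_smul, sub_zero,
      inner_sub_left, inner_sub_right, real_inner_smul_left, real_inner_smul_right, smul_eq_mul,
      ContinuousLinearMap.smul_apply, ← real_inner_self_eq_norm_sq] at this ⊢
    rw [real_inner_comm (σ (gl g)) (v i), real_inner_comm p.2 (v i)] at this
    linarith
  have e3 := pc _ n1
  simp only [ContinuousLinearMap.sub_apply, innerSL_apply_apply, ContinuousLinearMap.smul_apply,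
    smul_eq_mul, real_inner_self_eq_norm_sq, ContinuousLinearMap.zero_apply, add_zero] at e2 e3
  have e4 : σ (gl g) = p.2 := sub_eq_zero.1 (norm_eq_zero.1 (pow_eq_zero_iff two_ne_zero |>.1
    (le_antisymm (by rw [norm_sub_sq_real]; linarith) (sq_nonneg _))))
  rw [e4] at e2 e3 n1
  rw [real_inner_self_eq_norm_sq] at e3
  refine ⟨e1, e4.symm, pc, fun i => ?_, ?_⟩
  · have := n1 i
    rwa [two_smul, add_sub_cancel_right] at this
  · rw [ContinuousLinearMap.sub_apply, innerSL_apply_apply, real_inner_self_eq_norm_sq]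
    linarith

lemma op2_convex : Convex ℝ {p | (op2 K σ v p).Nonempty} := by
  have c : Convex ℝ (cone v) := fun a ha b hb s t hs ht _ n hn => by
    rw [map_add, map_smul, map_smul]
    exact add_nonneg (mul_nonneg hs (ha n hn)) (mul_nonneg ht (hb n hn))
  have e : {p | (op2 K σ v p).Nonempty} = (K.prod σ).toLinearMap '' (σ.toLinearMap ⁻¹' cone v) := by
    refine Subset.antisymm ?_ ?_
    · rintro p ⟨g, h1, h2, h3, -⟩
      exact ⟨gl g, by rw [h2] at h3; exact h3, Prod.ext h1.symm h2.symm⟩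
    · rintro _ ⟨y, hy, rfl⟩
      exact ⟨_, op2_mem hy (n := 0) (fun _ => le_rfl) rfl⟩
  rw [e]
  exact (c.linear_preimage σ.toLinearMap).linear_image _

end gen

/-- a maximally monotone operator with convex domain which is not of type FPV -/
theorem conv : ∃ (A : E × H → Set (E × H →L[ℝ] ℝ)) (φ : E × H →L[ℝ] ℝ),
    (∀ p q g h, g ∈ A p → h ∈ A q → 0 ≤ (g - h) (p - q)) ∧
    (∀ p g, (∀ q h, h ∈ A q → 0 ≤ (g - h) (p - q)) → g ∈ A p) ∧
    Convex ℝ {p | (A p).Nonempty} ∧ (∀ p g, g ∈ A p → 0 ≤ φ p) ∧ (∃ p g, g ∈ A p ∧ 0 < φ p) ∧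
    ∃ p g, 0 < φ p ∧ (∀ q h, 0 < φ q → h ∈ A q → 0 ≤ (g - h) (p - q)) ∧ ∀ h, h ∉ A p := by
  obtain ⟨v, φ, nv, pv, F1, F2⟩ := family
  obtain ⟨K, σ, D, R, hβ⟩ := tail v nv fun n h => (pv n).ne' (by rw [h, map_zero])
  obtain ⟨y0, e0⟩ := R 0
  obtain ⟨y1, e1⟩ := R 1
  refine ⟨op2 K σ v, φ.comp (ContinuousLinearMap.snd ℝ E H), fun p q g h => op2_mono D,
    fun p g h => op2_max D R h, op2_convex, fun p g h => h.2.2.1 φ fun i => (pv i).le,
    ⟨_, _, op2_mem (y := y0) (fun n hn => by rw [e0]; exact hn 0) (n := 0) (fun _ => le_rfl) rfl,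
      by show 0 < φ (σ y0); rw [e0]; exact pv 0⟩, ?_⟩
  obtain ⟨t, ht⟩ : ∃ t, t = φ (v 0) / φ (v 1) / 2 := ⟨_, rfl⟩
  have t0 : 0 < t := by rw [ht]; exact half_pos (div_pos (pv 0) (pv 1))
  obtain ⟨y, hy⟩ : ∃ y, σ y = v 0 - t • v 1 := ⟨y0 - t • y1, by rw [map_sub, map_smul, e0, e1]⟩
  refine ⟨(K y, σ y), y.coprod (innerSL ℝ (σ y)), ?_, fun q h h1 h2 => ?_, fun h hh => ?_⟩
  · show 0 < φ (σ y)
    rw [hy, map_sub, map_smul, ht, smul_eq_mul, div_right_comm, div_mul_cancel₀ _ (pv 1).ne']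
    linarith [pv 0]
  · obtain ⟨a1, a2, a3, a4, a5⟩ := h2
    obtain ⟨β, b1, b2⟩ := hβ (gl h)
    rw [← a2] at b2
    have b3 := F1 β _ b1 b2 a3
    obtain ⟨i, hi⟩ : ∃ i, β i ≠ 0 := by
      by_contra hn
      push Not at hn
      have : q.2 = 0 := b2.unique (by simp only [hn, zero_smul]; exact hasSum_zero)
      have h3 : 0 < φ q.2 := h1
      rw [this, map_zero] at h3
      exact lt_irrefl _ h3
    have b4 := le_hasSum (b2.mapL (innerSL ℝ q.2 - gr h)) i fun k _ => by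
      rw [map_smul]; exact mul_nonneg (b3 k) (a4 k)
    rw [a5, map_smul] at b4
    have b5 := F2 _ a4 i (le_antisymm (nonpos_of_mul_nonpos_right b4
      ((b3 i).lt_of_ne hi.symm)) (a4 i))
    have b6 : (innerSL ℝ q.2 - gr h) (σ y) = 0 := by rw [hy, map_sub, map_smul, b5, b5]; simp
    rw [rel2, gl_co, gr_co, a1, D.sq', ← a2, norm_sub_sq_real]
    simp only [ContinuousLinearMap.sub_apply, innerSL_apply_apply, map_sub,
      real_inner_self_eq_norm_sq] at a5 b6 ⊢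
    rw [real_inner_comm] at b6
    linarith
  · have s := (hasSum_ite_eq (0:ℕ) (1:ℝ)).sub (hasSum_ite_eq 1 t)
    have := F1 _ (σ y) s.summable (by
      rw [hy]
      convert (hasSum_ite_eq (0:ℕ) (v 0)).sub (hasSum_ite_eq 1 (t • v 1)) using 2 with i
      rw [sub_smul]
      congr 1 <;> split_ifs with h <;> simp [h]) hh.2.2.1 1
    simp at this
    linarith

end Pool.Agent.H29.Tail
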