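import Mathlib

set_option autoImplicit false

namespace Pool.Agent.H29.Takagi

open Set

noncomputable def ph (x : ℝ) : ℝ := |x - round x|

lemma ph_eq (x : ℝ) : Metric.infDist x (Set.range (Int.cast : ℤ → ℝ)) = ph x := by
  apply le_antisymm
  · exact Metric.infDist_le_dist_of_mem (y := (round x : ℝ)) ⟨_, rfl⟩
  · refine (Metric.le_infDist (Set.range_nonempty _)).mpr ?_
    rintro _ ⟨z, rfl⟩
    exact round_le x z

lemma ph_nonneg (x : ℝ) : 0 ≤ ph x := abs_nonneg _
lemma ph_le (x : ℝ) : ph x ≤ 1 / 2 := abs_sub_round x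
lemma ph_le' (x : ℝ) (z : ℤ) : ph x ≤ |x - z| := round_le x z

lemma ph_cont : Continuous ph := by
  have : ph = fun x => Metric.infDist x (Set.range (Int.cast : ℤ → ℝ)) :=
    funext fun x => (ph_eq x).symm
  rw [this]
  exact Metric.continuous_infDist_pt _

lemma ph_add (x : ℝ) (z : ℤ) : ph (x + z) = ph x := by
  unfold ph
  rw [round_add_intCast]
  push_cast
  ring_nf

lemma ph_neg (x : ℝ) : ph (-x) = ph x := by
  have h : ∀ y : ℝ, ph (-y) ≤ ph y := fun y => by
    have := ph_le' (-y) (-round y)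
    push_cast at this
    rwa [show -y - -(round y : ℝ) = -(y - round y) by ring, abs_neg] at this
  exact le_antisymm (h x) (by simpa using h (-x))

lemma ph_left {x : ℝ} (h0 : 0 ≤ x) (h1 : x ≤ 1 / 2) : ph x = x := by
  apply le_antisymm
  · simpa [abs_of_nonneg h0] using ph_le' x 0
  · unfold ph
    rcases le_or_gt (round x) 0 with h | h
    · have : (round x : ℝ) ≤ 0 := by exact_mod_cast h
      exact le_trans (by linarith) (le_abs_self _)
    · have : (1 : ℝ) ≤ round x := by exact_mod_cast h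
      exact le_trans (by linarith) (neg_le_abs _)

noncomputable def T (x : ℝ) : ℝ := ∑' n : ℕ, ph (2 ^ n * x) / 2 ^ n

lemma bnd (x : ℝ) (n : ℕ) : ‖ph (2 ^ n * x) / 2 ^ n‖ ≤ (1 / 2 : ℝ) ^ n := by
  have := ph_nonneg (2 ^ n * x)
  rw [Real.norm_of_nonneg (by positivity), one_div, inv_pow, div_le_iff₀ (by positivity),
    inv_mul_cancel₀ (by positivity)]
  linarith [ph_le (2 ^ n * x)]

lemma summ (x : ℝ) : Summable fun n : ℕ => ph (2 ^ n * x) / 2 ^ n :=
  Summable.of_norm_bounded summable_geometric_two (bnd x)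

lemma T_cont : Continuous T :=
  continuous_tsum (fun n => (ph_cont.comp (by fun_prop)).div_const _) summable_geometric_two
    fun n x => bnd x n

lemma T_eq (x : ℝ) : T x = ph x + T (2 * x) / 2 := by
  unfold T
  rw [(summ x).tsum_eq_zero_add, ← tsum_div_const]
  simp only [pow_zero, one_mul, div_one]
  congr 1
  refine tsum_congr fun n => ?_
  rw [pow_succ, mul_assoc, div_div]

lemma T_add (x : ℝ) (z : ℤ) : T (x + z) = T x := by
  unfold T
  refine tsum_congr fun n => ?_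
  rw [mul_add, show (2 : ℝ) ^ n * z = ((2 ^ n * z : ℤ) : ℝ) by push_cast; ring, ph_add]

lemma T_neg (x : ℝ) : T (-x) = T x := by
  unfold T
  refine tsum_congr fun n => ?_
  rw [mul_neg, ph_neg]

lemma T_refl (x : ℝ) : T (1 - x) = T x := by
  have := T_add (-x) 1
  rw [T_neg] at this
  rw [← this]
  congr 1
  push_cast
  ring

lemma T_nonneg (x : ℝ) : 0 ≤ T x :=
  tsum_nonneg fun n => div_nonneg (ph_nonneg _) (by positivity)

lemma T_zero : T 0 = 0 := by simp [T, ph]

lemma T_int (z : ℤ) : T z = 0 := by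
  have := T_add 0 z
  rwa [zero_add, T_zero] at this

lemma T_L {v : ℝ} (h0 : 0 ≤ v) (h1 : v ≤ 1) : T (v / 2) = v / 2 + T v / 2 := by
  rw [T_eq, ph_left (by linarith) (by linarith), show 2 * (v / 2) = v by ring]

lemma T_R {v : ℝ} (h0 : 0 ≤ v) (h1 : v ≤ 1) : T ((1 + v) / 2) = (1 - v) / 2 + T v / 2 := by
  rw [← T_refl, show 1 - (1 + v) / 2 = (1 - v) / 2 by ring, T_L (by linarith) (by linarith), T_refl]

lemma T_le (x : ℝ) : T x ≤ 2 / 3 := by
  have h2 : ∀ y, T y ≤ 2 := fun y => by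
    have := (summ y).tsum_le_tsum (fun n => (le_abs_self _).trans (bnd y n)) summable_geometric_two
    rwa [tsum_geometric_two] at this
  have hb : BddAbove (range T) := ⟨2, by rintro _ ⟨y, rfl⟩; exact h2 y⟩
  have h3 : ∀ y, T y ≤ ⨆ y, T y := fun y => le_ciSup hb y
  have h4 : ∀ y, ph y + ph (2 * y) / 2 ≤ 1 / 2 := fun y => by
    have a1 := ph_le' (2 * y) (2 * round y + 1)
    have a2 := ph_le' (2 * y) (2 * round y - 1)
    have a3 := ph_le y
    push_cast at a1 a2
    unfold ph at a3 ⊢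
    unfold ph at a1 a2
    rcases le_total 0 (y - round y) with h | h
    · rw [abs_of_nonneg h] at a3 ⊢
      rw [abs_of_nonpos (a := 2 * y - (2 * round y + 1)) (by linarith)] at a1
      linarith
    · rw [abs_of_nonpos h] at a3 ⊢
      rw [abs_of_nonneg (a := 2 * y - (2 * round y - 1)) (by linarith)] at a2
      linarith
  have h5 : ⨆ y, T y ≤ 1 / 2 + (⨆ y, T y) / 4 := by
    refine ciSup_le fun y => ?_
    have := h3 (2 * (2 * y))
    rw [T_eq, T_eq (2 * y)]
    linarith [h4 y]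
  linarith [h3 x]

lemma halves {u : ℝ} (h0 : 0 ≤ u) (h1 : u ≤ 1) :
    (∃ v, 0 ≤ v ∧ v ≤ 1 ∧ u = v / 2) ∨ (∃ v, 0 ≤ v ∧ v ≤ 1 ∧ u = (1 + v) / 2) := by
  rcases le_total u (1 / 2) with h | h
  · exact Or.inl ⟨2 * u, by linarith, by linarith, by ring⟩
  · exact Or.inr ⟨2 * u - 1, by linarith, by linarith, by ring⟩

lemma M_le (D : ℕ) : ∀ u : ℝ, 0 ≤ u → u ≤ 1 → D * u + T u ≤ D + 2 / 3 / 2 ^ D := by
  induction D with
  | zero => intro u _ _; simpa using T_le u
  | succ D ih =>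
    intro u h0 h1
    push_cast
    rcases halves h0 h1 with ⟨v, a, b, rfl⟩ | ⟨v, a, b, rfl⟩
    · rw [T_L a b]
      have := T_le v
      have hD : (0 : ℝ) ≤ D := Nat.cast_nonneg D
      have h3 : D * v ≤ D := by nlinarith
      rcases Nat.eq_zero_or_pos D with h | h
      · subst h
        norm_num
        linarith
      · have : (1 : ℝ) ≤ D := by exact_mod_cast h
        have : (0 : ℝ) < 2 / 3 / 2 ^ (D + 1) := by positivity
        nlinarith
    · rw [T_R a b]
      have := ih v a b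
      rw [pow_succ, ← div_div]
      nlinarith

def S (D : ℕ) (z : ℝ) : Set ℝ := {u | 0 ≤ u ∧ u ≤ 1 ∧ D * u + T u = z}

lemma memL {D : ℕ} {z v : ℝ} (h : v ∈ S (D + 1) (2 * z)) : v / 2 ∈ S D z := by
  obtain ⟨a, b, c⟩ := h
  refine ⟨by linarith, by linarith, ?_⟩
  rw [T_L a b]; push_cast at c; linarith

lemma memR {D : ℕ} {z v : ℝ} (h : v ∈ S D (2 * z - (D + 2))) : (1 + v) / 2 ∈ S (D + 1) z := by
  obtain ⟨a, b, c⟩ := h
  refine ⟨by linarith, by linarith, ?_⟩
  rw [T_R a b]; push_cast; linarith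

lemma cover (D : ℕ) (z : ℝ) : S (D + 1) z ⊆ (fun v => v / 2) '' S (D + 2) (2 * z) ∪
    (fun v => (1 + v) / 2) '' S D (2 * z - (D + 2)) := by
  rintro u ⟨h0, h1, h⟩
  rcases halves h0 h1 with ⟨v, a, b, rfl⟩ | ⟨v, a, b, rfl⟩
  · refine Or.inl ⟨v, ⟨a, b, ?_⟩, rfl⟩
    rw [T_L a b] at h; push_cast at h ⊢; linarith
  · refine Or.inr ⟨v, ⟨a, b, ?_⟩, rfl⟩
    rw [T_R a b] at h; push_cast at h ⊢; linarith

lemma cover0 (z : ℝ) : S 0 z ⊆ (fun v => v / 2) '' S 1 (2 * z) ∪
    (fun v => 1 - v / 2) '' S 1 (2 * z) := by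
  rintro u ⟨h0, h1, h⟩
  rcases halves h0 h1 with ⟨v, a, b, rfl⟩ | ⟨v, a, b, rfl⟩
  · refine Or.inl ⟨v, ⟨a, b, ?_⟩, rfl⟩
    rw [T_L a b] at h; push_cast at h ⊢; linarith
  · refine Or.inr ⟨1 - v, ⟨by linarith, by linarith, ?_⟩, by ring⟩
    rw [T_R a b] at h; rw [T_refl]; push_cast at h ⊢; linarith

lemma cNeg (D : ℕ) (z : ℝ) (h : z < 0) : (S D z).Countable := by
  have : S D z = ∅ := by
    refine eq_empty_of_forall_notMem ?_
    rintro u ⟨a, b, c⟩
    have := T_nonneg u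
    have : (0 : ℝ) ≤ D * u := by positivity
    linarith
  rw [this]; exact countable_empty

lemma cBig (D : ℕ) (z : ℝ) (h : D + 2 / 3 / 2 ^ D < z) : (S D z).Countable := by
  have : S D z = ∅ := by
    refine eq_empty_of_forall_notMem ?_
    rintro u ⟨a, b, c⟩
    have := M_le D u a b
    linarith
  rw [this]; exact countable_empty

lemma cS (D : ℕ) (z z1 z2 : ℝ) (h1 : (S (D + 2) z1).Countable) (h2 : (S D z2).Countable)
    (e1 : z1 = 2 * z) (e2 : z2 = 2 * z - (D + 2)) : (S (D + 1) z).Countable := by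
  subst e1 e2
  exact ((h1.image _).union (h2.image _)).mono (cover D z)

lemma c0 (z z1 : ℝ) (h1 : (S 1 z1).Countable) (e1 : z1 = 2 * z) : (S 0 z).Countable := by
  subst e1
  exact ((h1.image _).union (h1.image _)).mono (cover0 z)

def R (A B : Set ℝ) : Prop := ∃ f : ℝ → ℝ, (∀ u v, |f u - f v| ≤ |u - v| / 2) ∧
  ∃ E : Set ℝ, E.Countable ∧ A ⊆ f '' B ∪ E

lemma R.trans {A B C : Set ℝ} (h1 : R A B) (h2 : R B C) : R A C := by
  obtain ⟨f, hf, E, hE, h⟩ := h1
  obtain ⟨g, hg, F, hF, h'⟩ := h2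
  refine ⟨f ∘ g, fun u v => ?_, f '' F ∪ E, (hF.image _).union hE, fun a ha => ?_⟩
  · have := hf (g u) (g v)
    have := hg u v
    have := abs_nonneg (u - v)
    simp only [Function.comp]
    linarith
  · rcases h ha with ⟨b, hb, rfl⟩ | h
    · rcases h' hb with ⟨c, hc, rfl⟩ | h
      · exact Or.inl ⟨c, hc, rfl⟩
      · exact Or.inr (Or.inl ⟨b, h, rfl⟩)
    · exact Or.inr (Or.inr h)

lemma rL (D : ℕ) (z z1 z2 : ℝ) (h2 : (S D z2).Countable)
    (e1 : z1 = 2 * z) (e2 : z2 = 2 * z - (D + 2)) : R (S (D + 1) z) (S (D + 2) z1) := by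
  subst e1 e2
  refine ⟨fun v => v / 2, fun u v => ?_, _, h2.image _, cover D z⟩
  rw [← sub_div, abs_div]; simp

lemma rR (D : ℕ) (z z1 z2 : ℝ) (h1 : (S (D + 2) z1).Countable)
    (e1 : z1 = 2 * z) (e2 : z2 = 2 * z - (D + 2)) : R (S (D + 1) z) (S D z2) := by
  subst e1 e2
  refine ⟨fun v => (1 + v) / 2, fun u v => ?_, _, h1.image _, by
    rw [union_comm]; exact cover D z⟩
  rw [← sub_div, abs_div]; simp

lemma R.cnt {A B : Set ℝ} (h : R A B) (hB : B.Countable) : A.Countable := by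
  obtain ⟨f, -, E, hE, h⟩ := h
  exact ((hB.image _).union hE).mono h

lemma R.loop {D : ℕ} {z : ℝ} (h : R (S D z) (S D z)) : (S D z).Countable := by
  obtain ⟨f, hf, E, hE, h⟩ := h
  have hU : (⋃ n : ℕ, f^[n] '' E).Countable := countable_iUnion fun n => hE.image _
  have h1 : ∀ n : ℕ, ∀ a ∈ S D z, a ∉ (⋃ n : ℕ, f^[n] '' E) → ∃ b ∈ S D z, f^[n] b = a := by
    intro n
    induction n with
    | zero => exact fun a ha _ => ⟨a, ha, rfl⟩
    | succ n ih =>
      intro a ha hn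
      obtain ⟨b, hb, rfl⟩ := ih a ha hn
      rcases h hb with ⟨c, hc, rfl⟩ | h
      · exact ⟨c, hc, rfl⟩
      · exact absurd (mem_iUnion.mpr ⟨n, mem_image_of_mem _ h⟩) hn
  have h2 : ∀ n : ℕ, ∀ u v, |f^[n] u - f^[n] v| ≤ |u - v| * (1 / 2) ^ n := by
    intro n
    induction n with
    | zero => simp
    | succ n ih =>
      intro u v
      rw [Function.iterate_succ_apply', Function.iterate_succ_apply', pow_succ]
      have := hf (f^[n] u) (f^[n] v)
      have := ih u v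
      linarith
  have h3 : (S D z \ ⋃ n : ℕ, f^[n] '' E).Subsingleton := by
    rintro a ⟨ha, ha'⟩ b ⟨hb, hb'⟩
    have h4 : ∀ n : ℕ, |a - b| ≤ (1 / 2) ^ n := by
      intro n
      obtain ⟨u, hu, rfl⟩ := h1 n a ha ha'
      obtain ⟨v, hv, rfl⟩ := h1 n b hb hb'
      refine (h2 n u v).trans (mul_le_of_le_one_left (by positivity) ?_)
      rw [abs_le]
      constructor <;> linarith [hu.1, hu.2.1, hv.1, hv.2.1]
    have h5 : |a - b| ≤ 0 :=
      ge_of_tendsto' (tendsto_pow_atTop_nhds_zero_of_lt_one (by norm_num) (by norm_num)) h4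
    exact sub_eq_zero.mp (abs_nonpos_iff.mp h5)
  refine (h3.finite.countable.union hU).mono fun a ha => ?_
  by_cases h : a ∈ ⋃ n : ℕ, f^[n] '' E
  · exact Or.inr h
  · exact Or.inl ⟨ha, h⟩

def P (A B : Set ℝ) : Prop := ∃ a c : ℝ, 0 < c ∧ c ≤ 1 ∧ ∀ v ∈ B, a + c * v ∈ A

lemma P.trans {A B C : Set ℝ} (h1 : P A B) (h2 : P B C) : P A C := by
  obtain ⟨a, c, h0, h1, h⟩ := h1
  obtain ⟨a', c', h0', h1', h'⟩ := h2
  refine ⟨a + c * a', c * c', by positivity, mul_le_one₀ h1 h0'.le h1', fun v hv => ?_⟩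
  have := h _ (h' v hv)
  rwa [show a + c * (a' + c' * v) = a + c * a' + c * c' * v by ring] at this

lemma pL (D : ℕ) (z z1 : ℝ) (e1 : z1 = 2 * z) : P (S D z) (S (D + 1) z1) := by
  subst e1
  refine ⟨0, 1 / 2, by norm_num, by norm_num, fun v hv => ?_⟩
  have := memL hv
  rwa [show v / 2 = 0 + 1 / 2 * v by ring] at this

lemma pR (D : ℕ) (z z2 : ℝ) (e2 : z2 = 2 * z - (D + 2)) : P (S (D + 1) z) (S D z2) := by
  subst e2
  refine ⟨1 / 2, 1 / 2, by norm_num, by norm_num, fun v hv => ?_⟩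
  have := memR hv
  rwa [show (1 + v) / 2 = 1 / 2 + 1 / 2 * v by ring] at this

lemma P.inf {A B : Set ℝ} (h : P A B) (hB : B.Infinite) : A.Infinite := by
  obtain ⟨a, c, h0, -, h⟩ := h
  refine (hB.image (f := fun v => a + c * v) fun u _ v _ huv => ?_).mono ?_
  · exact mul_left_cancel₀ h0.ne' (add_left_cancel huv)
  · rintro _ ⟨v, hv, rfl⟩
    exact h v hv

lemma P.ne {A B : Set ℝ} (h : P A B) (hB : B.Nonempty) : A.Nonempty := by
  obtain ⟨a, c, h0, -, h⟩ := h
  obtain ⟨v, hv⟩ := hB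
  exact ⟨_, h v hv⟩

lemma orbit (B : Set ℝ) (a c p : ℝ) (h0 : 0 < c) (h1 : c < 1) (h : ∀ v ∈ B, a + c * v ∈ B)
    (hp : p ∈ B) (hne : p ≠ a + c * p) : B.Infinite := by
  have hc : 1 - c ≠ 0 := by linarith
  refine infinite_of_injective_forall_mem (f := fun n : ℕ => a / (1 - c) + c ^ n * (p - a / (1 - c)))
    (fun n m hnm => ?_) fun n => ?_
  · have h2 : p - a / (1 - c) ≠ 0 := by
      intro h3
      apply hne
      have : p = a / (1 - c) := by linarith
      rw [eq_div_iff hc] at this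
      linarith
    exact pow_right_injective₀ h0 h1.ne (mul_right_cancel₀ h2 (add_left_cancel hnm))
  · induction n with
    | zero => simpa using hp
    | succ n ih =>
      have := h _ ih
      convert this using 1
      field_simp
      ring

lemma ivt (z : ℝ) (h0 : 0 ≤ z) (h1 : z ≤ 1) : (S 1 z).Nonempty := by
  have hc : ContinuousOn (fun u => u + T u) (Icc 0 1) := (continuous_id.add T_cont).continuousOn
  have := intermediate_value_Icc zero_le_one hc
  have h2 : T 1 = 0 := by simpa using T_int 1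
  simp only [T_zero, h2, add_zero] at this
  obtain ⟨u, hu, hz⟩ := this ⟨h0, h1⟩
  exact ⟨u, hu.1, hu.2, by simpa using hz⟩

lemma dyad (m : ℕ) : ∀ k : ℤ, ∃ n : ℤ, T (k / 2 ^ m) = n / 2 ^ m := by
  induction m with
  | zero => exact fun k => ⟨0, by simpa using T_int k⟩
  | succ m ih =>
    intro k
    obtain ⟨n, hn⟩ := ih k
    refine ⟨|k - round ((k : ℝ) / 2 ^ (m + 1)) * 2 ^ (m + 1)| + n, ?_⟩
    rw [T_eq, show 2 * ((k : ℝ) / 2 ^ (m + 1)) = k / 2 ^ m by rw [pow_succ]; field_simp, hn]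
    unfold ph
    push_cast
    rw [add_div, ← abs_of_pos (a := (2 : ℝ) ^ (m + 1)) (by positivity), ← abs_div,
      abs_of_pos (a := (2 : ℝ) ^ (m + 1)) (by positivity)]
    congr 1
    · congr 1
      field_simp
    · rw [pow_succ, div_div]

lemma not_dyad (m k : ℕ) : T (k / 2 ^ m) ≠ 49 / 2050 := by
  obtain ⟨n, hn⟩ := dyad m k
  push_cast at hn
  rw [hn]
  intro h
  rw [div_eq_div_iff (by positivity) (by norm_num)] at h
  have h1 : n * 2050 = 49 * 2 ^ m := by exact_mod_cast h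
  have h2 : (41 : ℤ) ∣ 49 * 2 ^ m := ⟨n * 50, by rw [← h1]; ring⟩
  have hp : Prime (41 : ℤ) := Int.prime_iff_natAbs_prime.mpr (by norm_num)
  rcases hp.dvd_or_dvd h2 with h | h
  · norm_num at h
  · have := hp.dvd_of_dvd_pow h
    norm_num at this

lemma s8_6248 : (S 8 (6248 / 1025)).Countable :=
  R.loop (R.trans (rR 7 (6248 / 1025) (12496 / 1025) (3271 / 1025) (cBig 9 (12496 / 1025) (by norm_num)) (by norm_num) (by norm_num))
    (R.trans (rL 6 (3271 / 1025) (6542 / 1025) (-1658 / 1025) (cNeg 6 (-1658 / 1025) (by norm_num)) (by norm_num) (by norm_num))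
    (R.trans (rR 7 (6542 / 1025) (13084 / 1025) (3859 / 1025) (cBig 9 (13084 / 1025) (by norm_num)) (by norm_num) (by norm_num))
    (R.trans (rL 6 (3859 / 1025) (7718 / 1025) (-482 / 1025) (cNeg 6 (-482 / 1025) (by norm_num)) (by norm_num) (by norm_num))
    (R.trans (rR 7 (7718 / 1025) (15436 / 1025) (6211 / 1025) (cBig 9 (15436 / 1025) (by norm_num)) (by norm_num) (by norm_num))
    (R.trans (rR 6 (6211 / 1025) (12422 / 1025) (4222 / 1025) (cBig 8 (12422 / 1025) (by norm_num)) (by norm_num) (by norm_num))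
    (R.trans (rR 5 (4222 / 1025) (8444 / 1025) (1269 / 1025) (cBig 7 (8444 / 1025) (by norm_num)) (by norm_num) (by norm_num))
    (R.trans (rL 4 (1269 / 1025) (2538 / 1025) (-3612 / 1025) (cNeg 4 (-3612 / 1025) (by norm_num)) (by norm_num) (by norm_num))
    (R.trans (rL 5 (2538 / 1025) (5076 / 1025) (-2099 / 1025) (cNeg 5 (-2099 / 1025) (by norm_num)) (by norm_num) (by norm_num))
    (R.trans (rR 6 (5076 / 1025) (10152 / 1025) (1952 / 1025) (cBig 8 (10152 / 1025) (by norm_num)) (by norm_num) (by norm_num))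
    (R.trans (rL 5 (1952 / 1025) (3904 / 1025) (-3271 / 1025) (cNeg 5 (-3271 / 1025) (by norm_num)) (by norm_num) (by norm_num))
    (R.trans (rL 6 (3904 / 1025) (7808 / 1025) (-392 / 1025) (cNeg 6 (-392 / 1025) (by norm_num)) (by norm_num) (by norm_num))
    (R.trans (rR 7 (7808 / 1025) (15616 / 1025) (6391 / 1025) (cBig 9 (15616 / 1025) (by norm_num)) (by norm_num) (by norm_num))
    (R.trans (rR 6 (6391 / 1025) (12782 / 1025) (4582 / 1025) (cBig 8 (12782 / 1025) (by norm_num)) (by norm_num) (by norm_num))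
    (R.trans (rR 5 (4582 / 1025) (9164 / 1025) (1989 / 1025) (cBig 7 (9164 / 1025) (by norm_num)) (by norm_num) (by norm_num))
    (R.trans (rL 4 (1989 / 1025) (3978 / 1025) (-2172 / 1025) (cNeg 4 (-2172 / 1025) (by norm_num)) (by norm_num) (by norm_num))
    (R.trans (rR 5 (3978 / 1025) (7956 / 1025) (781 / 1025) (cBig 7 (7956 / 1025) (by norm_num)) (by norm_num) (by norm_num))
    (R.trans (rL 4 (781 / 1025) (1562 / 1025) (-4588 / 1025) (cNeg 4 (-4588 / 1025) (by norm_num)) (by norm_num) (by norm_num))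
    (R.trans (rL 5 (1562 / 1025) (3124 / 1025) (-4051 / 1025) (cNeg 5 (-4051 / 1025) (by norm_num)) (by norm_num) (by norm_num))
    (rL 6 (3124 / 1025) (6248 / 1025) (-1952 / 1025) (cNeg 6 (-1952 / 1025) (by norm_num)) (by norm_num) (by norm_num)))))))))))))))))))))

lemma s9_8249 : (S 9 (8249 / 1025)).Countable :=
  cS 8 _ _ _ (cBig 10 (16498 / 1025) (by norm_num)) s8_6248 (by norm_num) (by norm_num)

lemma s10_9762 : (S 10 (9762 / 1025)).Countable :=
  cS 9 _ _ _ (cBig 11 (19524 / 1025) (by norm_num)) s9_8249 (by norm_num) (by norm_num)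

lemma s11_11031 : (S 11 (11031 / 1025)).Countable :=
  cS 10 _ _ _ (cBig 12 (22062 / 1025) (by norm_num)) s10_9762 (by norm_num) (by norm_num)

lemma s12_12178 : (S 12 (12178 / 1025)).Countable :=
  cS 11 _ _ _ (cBig 13 (24356 / 1025) (by norm_num)) s11_11031 (by norm_num) (by norm_num)

lemma s13_13264 : (S 13 (13264 / 1025)).Countable :=
  cS 12 _ _ _ (cBig 14 (26528 / 1025) (by norm_num)) s12_12178 (by norm_num) (by norm_num)

lemma s12_6632 : (S 12 (6632 / 1025)).Countable :=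
  cS 11 _ _ _ s13_13264 (cNeg 11 (-61 / 1025) (by norm_num)) (by norm_num) (by norm_num)

lemma s11_3316 : (S 11 (3316 / 1025)).Countable :=
  cS 10 _ _ _ s12_6632 (cNeg 10 (-5668 / 1025) (by norm_num)) (by norm_num) (by norm_num)

lemma s10_1658 : (S 10 (1658 / 1025)).Countable :=
  cS 9 _ _ _ s11_3316 (cNeg 9 (-7959 / 1025) (by norm_num)) (by norm_num) (by norm_num)

lemma s11_6979 : (S 11 (6979 / 1025)).Countable :=
  cS 10 _ _ _ (cBig 12 (13958 / 1025) (by norm_num)) s10_1658 (by norm_num) (by norm_num)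

lemma s12_10152 : (S 12 (10152 / 1025)).Countable :=
  cS 11 _ _ _ (cBig 13 (20304 / 1025) (by norm_num)) s11_6979 (by norm_num) (by norm_num)

lemma s11_5076 : (S 11 (5076 / 1025)).Countable :=
  cS 10 _ _ _ s12_10152 (cNeg 10 (-2148 / 1025) (by norm_num)) (by norm_num) (by norm_num)

lemma s10_2538 : (S 10 (2538 / 1025)).Countable :=
  cS 9 _ _ _ s11_5076 (cNeg 9 (-6199 / 1025) (by norm_num)) (by norm_num) (by norm_num)

lemma s9_1269 : (S 9 (1269 / 1025)).Countable :=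
  cS 8 _ _ _ s10_2538 (cNeg 8 (-7712 / 1025) (by norm_num)) (by norm_num) (by norm_num)

lemma s10_6272 : (S 10 (6272 / 1025)).Countable :=
  cS 9 _ _ _ (cBig 11 (12544 / 1025) (by norm_num)) s9_1269 (by norm_num) (by norm_num)

lemma s9_3136 : (S 9 (3136 / 1025)).Countable :=
  cS 8 _ _ _ s10_6272 (cNeg 8 (-3978 / 1025) (by norm_num)) (by norm_num) (by norm_num)

lemma s8_1568 : (S 8 (1568 / 1025)).Countable :=
  cS 7 _ _ _ s9_3136 (cNeg 7 (-6089 / 1025) (by norm_num)) (by norm_num) (by norm_num)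

lemma s7_784 : (S 7 (784 / 1025)).Countable :=
  cS 6 _ _ _ s8_1568 (cNeg 6 (-6632 / 1025) (by norm_num)) (by norm_num) (by norm_num)

lemma s6_392 : (S 6 (392 / 1025)).Countable :=
  cS 5 _ _ _ s7_784 (cNeg 5 (-6391 / 1025) (by norm_num)) (by norm_num) (by norm_num)

lemma s5_196 : (S 5 (196 / 1025)).Countable :=
  cS 4 _ _ _ s6_392 (cNeg 4 (-5758 / 1025) (by norm_num)) (by norm_num) (by norm_num)

lemma s4_98 : (S 4 (98 / 1025)).Countable :=
  cS 3 _ _ _ s5_196 (cNeg 3 (-4929 / 1025) (by norm_num)) (by norm_num) (by norm_num)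

lemma s5_3124 : (S 5 (3124 / 1025)).Countable :=
  cS 4 _ _ _ (cBig 6 (6248 / 1025) (by norm_num)) s4_98 (by norm_num) (by norm_num)

lemma s4_1562 : (S 4 (1562 / 1025)).Countable :=
  cS 3 _ _ _ s5_3124 (cNeg 3 (-2001 / 1025) (by norm_num)) (by norm_num) (by norm_num)

lemma s5_3856 : (S 5 (3856 / 1025)).Countable :=
  cS 4 _ _ _ (cBig 6 (7712 / 1025) (by norm_num)) s4_1562 (by norm_num) (by norm_num)

lemma s4_1928 : (S 4 (1928 / 1025)).Countable :=
  cS 3 _ _ _ s5_3856 (cNeg 3 (-1269 / 1025) (by norm_num)) (by norm_num) (by norm_num)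

lemma s3_964 : (S 3 (964 / 1025)).Countable :=
  cS 2 _ _ _ s4_1928 (cNeg 2 (-2172 / 1025) (by norm_num)) (by norm_num) (by norm_num)

lemma s2_482 : (S 2 (482 / 1025)).Countable :=
  cS 1 _ _ _ s3_964 (cNeg 1 (-2111 / 1025) (by norm_num)) (by norm_num) (by norm_num)

lemma s1_241 : (S 1 (241 / 1025)).Countable :=
  cS 0 _ _ _ s2_482 (cNeg 0 (-1568 / 1025) (by norm_num)) (by norm_num) (by norm_num)

lemma s2_1658 : (S 2 (1658 / 1025)).Countable :=
  cS 1 _ _ _ (cBig 3 (3316 / 1025) (by norm_num)) s1_241 (by norm_num) (by norm_num)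

lemma s1_829 : (S 1 (829 / 1025)).Countable :=
  cS 0 _ _ _ s2_1658 (cNeg 0 (-392 / 1025) (by norm_num)) (by norm_num) (by norm_num)

lemma s2_1952 : (S 2 (1952 / 1025)).Countable :=
  cS 1 _ _ _ (cBig 3 (3904 / 1025) (by norm_num)) s1_829 (by norm_num) (by norm_num)

lemma s1_976 : (S 1 (976 / 1025)).Countable :=
  cS 0 _ _ _ s2_1952 (cNeg 0 (-98 / 1025) (by norm_num)) (by norm_num) (by norm_num)

lemma s0_488 : (S 0 (488 / 1025)).Countable :=
  c0 _ _ s1_976 (by norm_num)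

lemma s1_1269 : (S 1 (1269 / 1025)).Countable :=
  cS 0 _ _ _ (cBig 2 (2538 / 1025) (by norm_num)) s0_488 (by norm_num) (by norm_num)

lemma s2_2172 : (S 2 (2172 / 1025)).Countable :=
  cS 1 _ _ _ (cBig 3 (4344 / 1025) (by norm_num)) s1_1269 (by norm_num) (by norm_num)

lemma s3_3136 : (S 3 (3136 / 1025)).Countable :=
  cS 2 _ _ _ (cBig 4 (6272 / 1025) (by norm_num)) s2_2172 (by norm_num) (by norm_num)

lemma s6_1952 : (S 6 (1952 / 1025)).Countable :=
  R.loop (R.trans (rL 5 (1952 / 1025) (3904 / 1025) (-3271 / 1025) (cNeg 5 (-3271 / 1025) (by norm_num)) (by norm_num) (by norm_num))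
    (R.trans (rL 6 (3904 / 1025) (7808 / 1025) (-392 / 1025) (cNeg 6 (-392 / 1025) (by norm_num)) (by norm_num) (by norm_num))
    (R.trans (rR 7 (7808 / 1025) (15616 / 1025) (6391 / 1025) (cBig 9 (15616 / 1025) (by norm_num)) (by norm_num) (by norm_num))
    (R.trans (rR 6 (6391 / 1025) (12782 / 1025) (4582 / 1025) (cBig 8 (12782 / 1025) (by norm_num)) (by norm_num) (by norm_num))
    (R.trans (rR 5 (4582 / 1025) (9164 / 1025) (1989 / 1025) (cBig 7 (9164 / 1025) (by norm_num)) (by norm_num) (by norm_num))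
    (R.trans (rL 4 (1989 / 1025) (3978 / 1025) (-2172 / 1025) (cNeg 4 (-2172 / 1025) (by norm_num)) (by norm_num) (by norm_num))
    (R.trans (rR 5 (3978 / 1025) (7956 / 1025) (781 / 1025) (cBig 7 (7956 / 1025) (by norm_num)) (by norm_num) (by norm_num))
    (R.trans (rL 4 (781 / 1025) (1562 / 1025) (-4588 / 1025) (cNeg 4 (-4588 / 1025) (by norm_num)) (by norm_num) (by norm_num))
    (R.trans (rL 5 (1562 / 1025) (3124 / 1025) (-4051 / 1025) (cNeg 5 (-4051 / 1025) (by norm_num)) (by norm_num) (by norm_num))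
    (R.trans (rL 6 (3124 / 1025) (6248 / 1025) (-1952 / 1025) (cNeg 6 (-1952 / 1025) (by norm_num)) (by norm_num) (by norm_num))
    (R.trans (rR 7 (6248 / 1025) (12496 / 1025) (3271 / 1025) (cBig 9 (12496 / 1025) (by norm_num)) (by norm_num) (by norm_num))
    (R.trans (rL 6 (3271 / 1025) (6542 / 1025) (-1658 / 1025) (cNeg 6 (-1658 / 1025) (by norm_num)) (by norm_num) (by norm_num))
    (R.trans (rR 7 (6542 / 1025) (13084 / 1025) (3859 / 1025) (cBig 9 (13084 / 1025) (by norm_num)) (by norm_num) (by norm_num))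
    (R.trans (rL 6 (3859 / 1025) (7718 / 1025) (-482 / 1025) (cNeg 6 (-482 / 1025) (by norm_num)) (by norm_num) (by norm_num))
    (R.trans (rR 7 (7718 / 1025) (15436 / 1025) (6211 / 1025) (cBig 9 (15436 / 1025) (by norm_num)) (by norm_num) (by norm_num))
    (R.trans (rR 6 (6211 / 1025) (12422 / 1025) (4222 / 1025) (cBig 8 (12422 / 1025) (by norm_num)) (by norm_num) (by norm_num))
    (R.trans (rR 5 (4222 / 1025) (8444 / 1025) (1269 / 1025) (cBig 7 (8444 / 1025) (by norm_num)) (by norm_num) (by norm_num))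
    (R.trans (rL 4 (1269 / 1025) (2538 / 1025) (-3612 / 1025) (cNeg 4 (-3612 / 1025) (by norm_num)) (by norm_num) (by norm_num))
    (R.trans (rL 5 (2538 / 1025) (5076 / 1025) (-2099 / 1025) (cNeg 5 (-2099 / 1025) (by norm_num)) (by norm_num) (by norm_num))
    (rR 6 (5076 / 1025) (10152 / 1025) (1952 / 1025) (cBig 8 (10152 / 1025) (by norm_num)) (by norm_num) (by norm_num)))))))))))))))))))))

lemma s5_976 : (S 5 (976 / 1025)).Countable :=
  cS 4 _ _ _ s6_1952 (cNeg 4 (-4198 / 1025) (by norm_num)) (by norm_num) (by norm_num)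

lemma s4_488 : (S 4 (488 / 1025)).Countable :=
  cS 3 _ _ _ s5_976 (cNeg 3 (-4149 / 1025) (by norm_num)) (by norm_num) (by norm_num)

lemma s3_244 : (S 3 (244 / 1025)).Countable :=
  cS 2 _ _ _ s4_488 (cNeg 2 (-3612 / 1025) (by norm_num)) (by norm_num) (by norm_num)

lemma s2_122 : (S 2 (122 / 1025)).Countable :=
  cS 1 _ _ _ s3_244 (cNeg 1 (-2831 / 1025) (by norm_num)) (by norm_num) (by norm_num)

lemma s1_61 : (S 1 (61 / 1025)).Countable :=
  cS 0 _ _ _ s2_122 (cNeg 0 (-1928 / 1025) (by norm_num)) (by norm_num) (by norm_num)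

lemma s2_1568 : (S 2 (1568 / 1025)).Countable :=
  cS 1 _ _ _ s3_3136 s1_61 (by norm_num) (by norm_num)

lemma s1_784 : (S 1 (784 / 1025)).Countable :=
  cS 0 _ _ _ s2_1568 (cNeg 0 (-482 / 1025) (by norm_num)) (by norm_num) (by norm_num)

lemma s0_392 : (S 0 (392 / 1025)).Countable :=
  c0 _ _ s1_784 (by norm_num)

lemma s1_1221 : (S 1 (1221 / 1025)).Countable :=
  cS 0 _ _ _ (cBig 2 (2442 / 1025) (by norm_num)) s0_392 (by norm_num) (by norm_num)

lemma s2_2148 : (S 2 (2148 / 1025)).Countable :=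
  cS 1 _ _ _ (cBig 3 (4296 / 1025) (by norm_num)) s1_1221 (by norm_num) (by norm_num)

lemma s3_3124 : (S 3 (3124 / 1025)).Countable :=
  cS 2 _ _ _ (cBig 4 (6248 / 1025) (by norm_num)) s2_2148 (by norm_num) (by norm_num)

lemma s1_49 : (S 1 (49 / 1025)).Countable :=
  R.loop (R.trans (rL 0 (49 / 1025) (98 / 1025) (-1952 / 1025) (cNeg 0 (-1952 / 1025) (by norm_num)) (by norm_num) (by norm_num))
    (R.trans (rL 1 (98 / 1025) (196 / 1025) (-2879 / 1025) (cNeg 1 (-2879 / 1025) (by norm_num)) (by norm_num) (by norm_num))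
    (R.trans (rL 2 (196 / 1025) (392 / 1025) (-3708 / 1025) (cNeg 2 (-3708 / 1025) (by norm_num)) (by norm_num) (by norm_num))
    (R.trans (rL 3 (392 / 1025) (784 / 1025) (-4341 / 1025) (cNeg 3 (-4341 / 1025) (by norm_num)) (by norm_num) (by norm_num))
    (R.trans (rL 4 (784 / 1025) (1568 / 1025) (-4582 / 1025) (cNeg 4 (-4582 / 1025) (by norm_num)) (by norm_num) (by norm_num))
    (R.trans (rL 5 (1568 / 1025) (3136 / 1025) (-4039 / 1025) (cNeg 5 (-4039 / 1025) (by norm_num)) (by norm_num) (by norm_num))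
    (R.trans (rL 6 (3136 / 1025) (6272 / 1025) (-1928 / 1025) (cNeg 6 (-1928 / 1025) (by norm_num)) (by norm_num) (by norm_num))
    (R.trans (rR 7 (6272 / 1025) (12544 / 1025) (3319 / 1025) (cBig 9 (12544 / 1025) (by norm_num)) (by norm_num) (by norm_num))
    (R.trans (rL 6 (3319 / 1025) (6638 / 1025) (-1562 / 1025) (cNeg 6 (-1562 / 1025) (by norm_num)) (by norm_num) (by norm_num))
    (R.trans (rR 7 (6638 / 1025) (13276 / 1025) (4051 / 1025) (cBig 9 (13276 / 1025) (by norm_num)) (by norm_num) (by norm_num))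
    (R.trans (rL 6 (4051 / 1025) (8102 / 1025) (-98 / 1025) (cNeg 6 (-98 / 1025) (by norm_num)) (by norm_num) (by norm_num))
    (R.trans (rR 7 (8102 / 1025) (16204 / 1025) (6979 / 1025) (cBig 9 (16204 / 1025) (by norm_num)) (by norm_num) (by norm_num))
    (R.trans (rR 6 (6979 / 1025) (13958 / 1025) (5758 / 1025) (cBig 8 (13958 / 1025) (by norm_num)) (by norm_num) (by norm_num))
    (R.trans (rR 5 (5758 / 1025) (11516 / 1025) (4341 / 1025) (cBig 7 (11516 / 1025) (by norm_num)) (by norm_num) (by norm_num))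
    (R.trans (rR 4 (4341 / 1025) (8682 / 1025) (2532 / 1025) (cBig 6 (8682 / 1025) (by norm_num)) (by norm_num) (by norm_num))
    (R.trans (rL 3 (2532 / 1025) (5064 / 1025) (-61 / 1025) (cNeg 3 (-61 / 1025) (by norm_num)) (by norm_num) (by norm_num))
    (R.trans (rR 4 (5064 / 1025) (10128 / 1025) (3978 / 1025) (cBig 6 (10128 / 1025) (by norm_num)) (by norm_num) (by norm_num))
    (R.trans (rR 3 (3978 / 1025) (7956 / 1025) (2831 / 1025) (cBig 5 (7956 / 1025) (by norm_num)) (by norm_num) (by norm_num))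
    (R.trans (rR 2 (2831 / 1025) (5662 / 1025) (1562 / 1025) (cBig 4 (5662 / 1025) (by norm_num)) (by norm_num) (by norm_num))
    (rR 1 (1562 / 1025) (3124 / 1025) (49 / 1025) s3_3124 (by norm_num) (by norm_num)))))))))))))))))))))

lemma p1 : P (S 1 (49 / 1025)) (S 2 (1562 / 1025)) :=
  (P.trans (pL 1 (49 / 1025) (98 / 1025) (by norm_num))
    (P.trans (pL 2 (98 / 1025) (196 / 1025) (by norm_num))
    (P.trans (pL 3 (196 / 1025) (392 / 1025) (by norm_num))
    (P.trans (pL 4 (392 / 1025) (784 / 1025) (by norm_num))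
    (P.trans (pL 5 (784 / 1025) (1568 / 1025) (by norm_num))
    (P.trans (pL 6 (1568 / 1025) (3136 / 1025) (by norm_num))
    (P.trans (pL 7 (3136 / 1025) (6272 / 1025) (by norm_num))
    (P.trans (pR 7 (6272 / 1025) (3319 / 1025) (by norm_num))
    (P.trans (pL 7 (3319 / 1025) (6638 / 1025) (by norm_num))
    (P.trans (pR 7 (6638 / 1025) (4051 / 1025) (by norm_num))
    (P.trans (pL 7 (4051 / 1025) (8102 / 1025) (by norm_num))
    (P.trans (pR 7 (8102 / 1025) (6979 / 1025) (by norm_num))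
    (P.trans (pR 6 (6979 / 1025) (5758 / 1025) (by norm_num))
    (P.trans (pR 5 (5758 / 1025) (4341 / 1025) (by norm_num))
    (P.trans (pR 4 (4341 / 1025) (2532 / 1025) (by norm_num))
    (P.trans (pL 4 (2532 / 1025) (5064 / 1025) (by norm_num))
    (P.trans (pR 4 (5064 / 1025) (3978 / 1025) (by norm_num))
    (P.trans (pR 3 (3978 / 1025) (2831 / 1025) (by norm_num))
    (pR 2 (2831 / 1025) (1562 / 1025) (by norm_num))))))))))))))))))))

lemma p2 : P (S 3 (3124 / 1025)) (S 1 (784 / 1025)) :=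
  (P.trans (pR 2 (3124 / 1025) (2148 / 1025) (by norm_num))
    (P.trans (pR 1 (2148 / 1025) (1221 / 1025) (by norm_num))
    (P.trans (pR 0 (1221 / 1025) (392 / 1025) (by norm_num))
    (pL 0 (392 / 1025) (784 / 1025) (by norm_num)))))

lemma infB : (S 2 (1562 / 1025)).Infinite := by
  obtain ⟨v, hv⟩ := p2.ne (ivt _ (by norm_num) (by norm_num))
  obtain ⟨a, c, h0, h1, h⟩ := p1
  have hv1 : v < 1 := by
    refine lt_of_le_of_ne hv.2.1 fun h => ?_
    have h2 : T 1 = 0 := by simpa using T_int 1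
    have := hv.2.2
    rw [h, h2] at this
    norm_num at this
  have hp : v / 2 ∈ S 2 (1562 / 1025) := memL (D := 2) (by
    rw [show 2 * (1562 / 1025 : ℝ) = 3124 / 1025 by norm_num]; exact hv)
  refine orbit _ ((1 + a) / 2) (c / 2) (v / 2) (by positivity) (by linarith) (fun u hu => ?_) hp ?_
  · have := memR (D := 1) (z := 1562 / 1025) (v := a + c * u) (by
      rw [show 2 * (1562 / 1025 : ℝ) - (((1 : ℕ) : ℝ) + 2) = 49 / 1025 by norm_num]; exact h u hu)
    rwa [show (1 + (a + c * u)) / 2 = (1 + a) / 2 + c / 2 * u by ring] at this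
  · have := (h _ hp).1
    intro h3
    linarith

theorem main : (S 0 (49 / 2050)).Countable ∧ (S 0 (49 / 2050)).Infinite :=
  ⟨c0 _ _ s1_49 (by norm_num),
    (pL 0 (49 / 2050) (49 / 1025) (by norm_num)).inf (p1.inf infB)⟩

end Pool.Agent.H29.Takagi
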