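import Mathlib

namespace Pool.Agent.H29.Trap

lemma exit_of {α : Type*} (f : α → α) (U S : Set α) (hS : S.Finite) (hU : Set.InjOn f U)
    (y : α) (hy : y ∉ Set.range f) (hyS : ∀ k, f^[k] y ∈ S) : ∃ k, f^[k] y ∉ U := by
  by_contra hcon
  push Not at hcon
  obtain ⟨i, j, hij, h⟩ := hS.exists_lt_map_eq_of_forall_mem hyS
  induction i generalizing j with
  | zero =>
    obtain ⟨j, rfl⟩ : ∃ l, j = l + 1 := ⟨j - 1, by omega⟩
    rw [Function.iterate_succ_apply'] at h
    exact hy ⟨_, h.symm⟩
  | succ i ih =>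
    obtain ⟨j, rfl⟩ : ∃ l, j = l + 1 := ⟨j - 1, by omega⟩
    rw [Function.iterate_succ_apply', Function.iterate_succ_apply'] at h
    exact ih j (by omega) (hU (hcon _) (hcon _) h)

lemma fin_sub {F : Type} [Field F] [Finite F] (u : AlgebraicClosure F) :
    ∃ L : Subring (AlgebraicClosure F), (L : Set (AlgebraicClosure F)).Finite ∧ u ∈ L := by
  have hu : IsIntegral F u := Algebra.IsIntegral.isIntegral u
  let L := IntermediateField.adjoin F {u}
  haveI : FiniteDimensional F L := IntermediateField.adjoin.finiteDimensional hu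
  haveI : Finite L := Module.finite_of_finite F
  exact ⟨L.toSubalgebra.toSubring, Set.toFinite (L : Set (AlgebraicClosure F)),
    IntermediateField.mem_adjoin_simple_self F u⟩

end Pool.Agent.H29.Trap
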