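import Mathlib

set_option autoImplicit false

namespace Pool.Agent.H29.Trop

open Polynomial Finset

/-- number of positive roots with multiplicity -/
noncomputable def Zp (f : ℝ[X]) : ℕ := (f.roots.filter (0 < ·)).card

theorem rolle_pt (f : ℝ[X]) (α x y : ℝ) (hx : 0 < x) (hxy : x < y) (h1 : f.eval x = 0)
    (h2 : f.eval y = 0) :
    ∃ z, x < z ∧ z < y ∧ (X * derivative f - C α * f).eval z = 0 := by
  have hd : ∀ z ∈ Set.Icc x y, HasDerivAt (fun z => f.eval z * Real.exp (-α * Real.log z))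
      ((derivative f).eval z * Real.exp (-α * Real.log z) +
        f.eval z * (Real.exp (-α * Real.log z) * (-α * z⁻¹))) z := by
    intro z hz
    have hz0 : z ≠ 0 := (hx.trans_le hz.1).ne'
    exact (f.hasDerivAt z).mul (((Real.hasDerivAt_log hz0).const_mul (-α)).exp)
  obtain ⟨z, hz, hz2⟩ := exists_hasDerivAt_eq_zero hxy
    (fun z hz => (hd z hz).continuousAt.continuousWithinAt) (by simp [h1, h2])
    (fun z hz => hd z (Set.Ioo_subset_Icc_self hz))
  refine ⟨z, hz.1, hz.2, ?_⟩
  have hz0 : z ≠ 0 := (hx.trans hz.1).ne'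
  have he := Real.exp_pos (-α * Real.log z)
  simp only [eval_sub, eval_mul, eval_X, eval_C]
  have : Real.exp (-α * Real.log z) * (z * (derivative f).eval z - α * f.eval z) = 0 := by
    have h3 := congrArg (· * z) hz2
    simp only [zero_mul] at h3
    rw [← h3]
    field_simp
    ring
  exact (mul_eq_zero.mp this).resolve_left he.ne'

theorem Zp_eq_sum (f : ℝ[X]) (s : Finset ℝ) (hs : ∀ x ∈ s, 0 < x)
    (hs2 : ∀ x ∈ f.roots, 0 < x → x ∈ s) : Zp f = ∑ x ∈ s, f.rootMultiplicity x := by
  classical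
  unfold Zp
  rw [← Multiset.sum_count_eq_card (s := s)]
  · refine Finset.sum_congr rfl fun x hx => ?_
    rw [Multiset.count_filter_of_pos (hs x hx), count_roots]
  · intro x hx
    rw [Multiset.mem_filter] at hx
    exact hs2 x hx.1 hx.2

theorem Zp_rolle (f : ℝ[X]) (α : ℝ) (hf : f ≠ 0) (hG : X * derivative f - C α * f ≠ 0) :
    Zp f ≤ Zp (X * derivative f - C α * f) + 1 := by
  classical
  set G := X * derivative f - C α * f with hGdef
  let s := f.roots.toFinset.filter (0 < ·)
  let t := G.roots.toFinset.filter (0 < ·)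
  have h1 : s.card ≤ (t \ s).card + 1 := by
    refine Finset.card_le_sdiff_of_interleaved fun x hx y hy hxy _ => ?_
    simp only [s, mem_filter, Multiset.mem_toFinset, mem_roots hf] at hx hy
    obtain ⟨z, hz1, hz2, hz3⟩ := rolle_pt f α x y hx.2 hxy hx.1 hy.1
    refine ⟨z, ?_, hz1, hz2⟩
    simp only [t, mem_filter, Multiset.mem_toFinset, mem_roots hG]
    exact ⟨hz3, hx.2.trans hz1⟩
  have h2 : ∀ x ∈ s, f.rootMultiplicity x ≤ G.rootMultiplicity x + 1 := by
    intro x _
    have h3 := pow_rootMultiplicity_dvd f x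
    have h4 : (X - C x) ^ (f.rootMultiplicity x - 1) ∣ G :=
      dvd_sub (Dvd.dvd.mul_left (pow_sub_one_dvd_derivative_of_pow_dvd h3) _)
        (Dvd.dvd.mul_left ((pow_dvd_pow _ (Nat.sub_le _ _)).trans h3) _)
    have := (le_rootMultiplicity_iff hG).mpr h4
    omega
  have h5 : ∀ x ∈ t \ s, 1 ≤ G.rootMultiplicity x := by
    intro x hx
    have := (mem_sdiff.mp hx).1
    simp only [t, mem_filter, Multiset.mem_toFinset, mem_roots hG] at this
    exact (rootMultiplicity_pos hG).mpr this.1
  rw [Zp_eq_sum f s (fun x hx => (mem_filter.mp hx).2)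
    (fun x hx h => mem_filter.mpr ⟨Multiset.mem_toFinset.mpr hx, h⟩),
    Zp_eq_sum G (s ∪ t \ s) (fun x hx => by
      rcases mem_union.mp hx with h | h
      · exact (mem_filter.mp h).2
      · exact (mem_filter.mp (mem_sdiff.mp h).1).2)
    (fun x hx h => by
      rw [union_sdiff_self_eq_union]
      exact mem_union_right _ (mem_filter.mpr ⟨Multiset.mem_toFinset.mpr hx, h⟩)),
    sum_union disjoint_sdiff]
  have h6 := Finset.sum_le_sum h5
  by_cases hs : s = ∅
  · simp [hs]
  have h7 : ∑ x ∈ s, f.rootMultiplicity x ≤ ∑ x ∈ s, G.rootMultiplicity x + s.card := by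
    calc _ ≤ ∑ x ∈ s, (G.rootMultiplicity x + 1) := Finset.sum_le_sum h2
      _ = _ := by rw [sum_add_distrib]; simp
  simp only [sum_const, smul_eq_mul, mul_one] at h6
  omega

/-- the weight polynomial at `k` -/
noncomputable def pw (A : Finset ℕ) (k : ℕ) : ℝ := ∏ i ∈ A, ((k : ℝ) - i - 1 / 2)

theorem fac_ne (k i : ℕ) : (k : ℝ) - i - 1 / 2 ≠ 0 := by
  intro h
  have : ((2 * k : ℕ) : ℝ) = ((2 * i + 1 : ℕ) : ℝ) := by push_cast; linarith
  have := Nat.cast_injective this
  omega

theorem pw_ne (A : Finset ℕ) (k : ℕ) : pw A k ≠ 0 :=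
  Finset.prod_ne_zero_iff.mpr fun i _ => fac_ne k i

theorem exists_mul (f : ℝ[X]) (c : ℕ → ℝ) : ∃ g : ℝ[X], ∀ k, g.coeff k = c k * f.coeff k := by
  refine ⟨∑ k ∈ f.support, monomial k (c k * f.coeff k), fun k => ?_⟩
  simp only [finset_sum_coeff, coeff_monomial, Finset.sum_ite_eq', mem_support_iff]
  split_ifs with h
  · rfl
  · simp [not_not.mp h]

theorem ne_zero_of_coeff {f g : ℝ[X]} {c : ℕ → ℝ} (hf : f ≠ 0) (hc : ∀ k, c k ≠ 0)
    (h : ∀ k, g.coeff k = c k * f.coeff k) : g ≠ 0 := by
  intro hg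
  apply hf
  ext k
  have := h k
  rw [hg, coeff_zero] at this
  simpa [hc k] using this

theorem Zp_iter (f : ℝ[X]) (hf : f ≠ 0) (A : Finset ℕ) :
    ∀ g : ℝ[X], (∀ k, g.coeff k = pw A k * f.coeff k) → Zp f ≤ Zp g + A.card := by
  classical
  induction A using Finset.induction_on with
  | empty =>
    intro g hg
    have : g = f := by
      ext k
      simp [hg, pw]
    simp [this]
  | insert i A hi ih =>
    intro g hg
    obtain ⟨g0, hg0⟩ := exists_mul f (pw A)
    have h1 := ih g0 hg0
    have h2 : g = X * derivative g0 - C ((i : ℝ) + 1 / 2) * g0 := by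
      ext k
      rw [hg, coeff_sub, coeff_C_mul, pw, Finset.prod_insert hi, ← pw]
      cases k with
      | zero =>
        rw [coeff_X_mul_zero, hg0]
        simp only [Nat.cast_zero]
        ring
      | succ k =>
        rw [coeff_X_mul, coeff_derivative, hg0]
        push_cast
        ring
    have h3 := Zp_rolle g0 ((i : ℝ) + 1 / 2) (ne_zero_of_coeff hf (pw_ne A) hg0)
      (h2 ▸ ne_zero_of_coeff hf (pw_ne _) hg)
    rw [← h2] at h3
    rw [Finset.card_insert_of_notMem hi]
    omega

theorem tele (n : ℕ) : (1 / 3 : ℝ) * ((n + 3 / 2) / (n + 1 / 2)) =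
    ∏ j ∈ range n, (1 - 1 / ((j : ℝ) + 3 / 2) ^ 2) := by
  induction n with
  | zero => norm_num
  | succ n ih =>
    rw [prod_range_succ, ← ih]
    push_cast
    field_simp
    ring

theorem prod_ge (S : Finset ℕ) : (1 / 3 : ℝ) ≤ ∏ j ∈ S, (1 - 1 / ((j : ℝ) + 3 / 2) ^ 2) := by
  obtain ⟨n, hn⟩ := S.exists_nat_subset_range
  have h0 : ∀ j : ℕ, 0 ≤ 1 / ((j : ℝ) + 3 / 2) ^ 2 ∧ 1 / ((j : ℝ) + 3 / 2) ^ 2 ≤ 1 := by
    intro j
    refine ⟨by positivity, ?_⟩
    rw [div_le_one (by positivity)]
    have : (0 : ℝ) ≤ j := Nat.cast_nonneg j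
    nlinarith
  refine le_trans ?_ (Finset.prod_le_prod_of_subset_of_le_one hn
    (fun j _ => by linarith [(h0 j).2]) (fun j _ _ => by linarith [(h0 j).1]))
  rw [← tele]
  have : (1 : ℝ) ≤ (n + 3 / 2) / (n + 1 / 2) := by
    rw [one_le_div (by positivity)]
    linarith
  linarith

theorem pw_ratio (A : Finset ℕ) (k : ℕ) :
    pw A (k + 1) ^ 2 ≤ 9 * (|pw A k| * |pw A (k + 2)|) := by
  classical
  let φ : ℕ → ℝ := fun i => |1 - 1 / ((k : ℝ) - i + 1 / 2) ^ 2|
  have hne : ∀ i : ℕ, (k : ℝ) - i + 1 / 2 ≠ 0 := by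
    intro i h
    apply fac_ne (k + 1) i
    push_cast
    linarith
  have h1 : |pw A k| * |pw A (k + 2)| = pw A (k + 1) ^ 2 * ∏ i ∈ A, φ i := by
    simp only [pw, Finset.abs_prod, ← Finset.prod_pow, ← Finset.prod_mul_distrib, φ]
    refine Finset.prod_congr rfl fun i _ => ?_
    rw [← abs_mul, ← abs_of_nonneg (sq_nonneg (((k + 1 : ℕ) : ℝ) - i - 1 / 2)), ← abs_mul]
    congr 1
    have := hne i
    push_cast
    have e : (k : ℝ) + 1 - i - 1 / 2 = k - i + 1 / 2 := by ring
    rw [e, mul_sub _ (1 : ℝ), mul_one_div_cancel (pow_ne_zero 2 this)]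
    ring
  have h2 : (1 / 9 : ℝ) ≤ ∏ i ∈ A, φ i := by
    rw [← Finset.prod_filter_mul_prod_filter_not A (fun i => i < k),
      ← Finset.prod_filter_mul_prod_filter_not (A.filter fun i => ¬ i < k) (fun i => k + 1 < i)]
    have hpos : ∀ j : ℕ, 0 ≤ 1 - 1 / ((j : ℝ) + 3 / 2) ^ 2 := by
      intro j
      have := prod_ge {j}
      rw [prod_singleton] at this
      linarith
    have a1 : (1 / 3 : ℝ) ≤ ∏ i ∈ A.filter (fun i => i < k), φ i := by
      refine (prod_ge ((A.filter (fun i => i < k)).image fun i => k - 1 - i)).trans_eq ?_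
      rw [Finset.prod_image]
      · refine Finset.prod_congr rfl fun i hi => ?_
        have hi' := (mem_filter.mp hi).2
        have e : ((k - 1 - i : ℕ) : ℝ) + 3 / 2 = k - i + 1 / 2 := by
          obtain ⟨j, rfl⟩ : ∃ j, k = j + 1 + i := ⟨k - 1 - i, by omega⟩
          have : j + 1 + i - 1 - i = j := by omega
          rw [this]
          push_cast
          ring
        simp only [φ]
        rw [← e, abs_of_nonneg (hpos _)]
      · intro a ha b hb hab
        have := (mem_filter.mp ha).2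
        have := (mem_filter.mp hb).2
        simp only at hab
        omega
    have a2 : (1 / 3 : ℝ) ≤ ∏ i ∈ (A.filter fun i => ¬ i < k).filter (fun i => k + 1 < i), φ i := by
      refine (prod_ge (((A.filter fun i => ¬ i < k).filter (fun i => k + 1 < i)).image
        fun i => i - (k + 2))).trans_eq ?_
      rw [Finset.prod_image]
      · refine Finset.prod_congr rfl fun i hi => ?_
        have hi' := (mem_filter.mp hi).2
        have e : (((i - (k + 2) : ℕ) : ℝ) + 3 / 2) ^ 2 = (k - i + 1 / 2) ^ 2 := by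
          obtain ⟨j, rfl⟩ : ∃ j, i = j + (k + 2) := ⟨i - (k + 2), by omega⟩
          rw [Nat.add_sub_cancel]
          push_cast
          ring
        simp only [φ]
        rw [← e, abs_of_nonneg (hpos _)]
      · intro a ha b hb hab
        have := (mem_filter.mp ha).2
        have := (mem_filter.mp hb).2
        simp only at hab
        omega
    have a3 : (1 : ℝ) ≤ ∏ i ∈ (A.filter fun i => ¬ i < k).filter (fun i => ¬ k + 1 < i), φ i := by
      refine Finset.prod_induction _ (fun x => 1 ≤ x) (fun a b ha hb => by nlinarith) le_rfl ?_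
      intro i hi
      have h3 := (mem_filter.mp hi).2
      have h4 := (mem_filter.mp (mem_filter.mp hi).1).2
      have : i = k ∨ i = k + 1 := by omega
      rcases this with rfl | rfl
      · simp only [φ]
        norm_num
      · simp only [φ]
        push_cast
        norm_num
    have := mul_le_mul a2 a3 zero_le_one (by linarith)
    have := mul_le_mul a1 this (by norm_num) (by linarith)
    linarith
  rw [h1]
  nlinarith [sq_nonneg (pw A (k + 1))]

theorem exists_scale (w : ℕ → ℝ) (hw : ∀ k, 0 < w k)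
    (hr : ∀ k, 36 * (w k * w (k + 2)) ≤ w (k + 1) ^ 2) (k : ℕ) :
    ∃ s : ℝ, 0 < s ∧ ∀ j, w j * s ^ j ≤ w k * s ^ k * (1 / 6) ^ (Nat.dist j k) := by
  let ρ : ℕ → ℝ := fun j => w (j + 1) / w j
  have hρ : ∀ j, 0 < ρ j := fun j => div_pos (hw _) (hw _)
  have hρ1 : ∀ j, 36 * ρ (j + 1) ≤ ρ j := by
    intro j
    simp only [ρ]
    rw [← mul_div_assoc, div_le_div_iff₀ (hw _) (hw _)]
    nlinarith [hr j]
  have hanti : Antitone ρ := antitone_nat_of_succ_le fun j => by linarith [hρ1 j, hρ (j + 1)]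
  have hwρ : ∀ j, w (j + 1) = ρ j * w j := fun j => (div_mul_cancel₀ _ (hw j).ne').symm
  set s := 1 / (6 * ρ k) with hs
  have hspos : 0 < s := by
    have := hρ k
    positivity
  have hsρ : ρ k * s = 1 / 6 := by
    rw [hs]
    have := hρ k
    field_simp
  have up : ∀ d, w (k + d) * s ^ (k + d) ≤ w k * s ^ k * (1 / 6) ^ d := by
    intro d
    induction d with
    | zero => simp
    | succ d ih =>
      rw [← add_assoc, hwρ, pow_succ, pow_succ]
      have h1 : ρ (k + d) * s ≤ 1 / 6 := by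
        rw [← hsρ]
        exact mul_le_mul_of_nonneg_right (hanti (Nat.le_add_right _ _)) hspos.le
      have h2 : 0 < w (k + d) * s ^ (k + d) := mul_pos (hw _) (pow_pos hspos _)
      calc ρ (k + d) * w (k + d) * (s ^ (k + d) * s)
          = (w (k + d) * s ^ (k + d)) * (ρ (k + d) * s) := by ring
        _ ≤ (w k * s ^ k * (1 / 6) ^ d) * (1 / 6) :=
          mul_le_mul ih h1 (mul_pos (hρ _) hspos).le (h2.le.trans ih)
        _ = _ := by ring
  have down : ∀ d j, j + d = k → w j * s ^ j ≤ w k * s ^ k * (1 / 6) ^ d := by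
    intro d
    induction d with
    | zero =>
      intro j hj
      simp [← hj]
    | succ d ih =>
      intro j hj
      have h0 := ih (j + 1) (by omega)
      rw [hwρ, pow_succ] at h0
      have h1 : 6 ≤ ρ j * s := by
        have a1 : ρ (j + d) ≤ ρ j := hanti (Nat.le_add_right _ _)
        have a2 := hρ1 (j + d)
        rw [add_assoc, hj] at a2
        nlinarith
      have h2 : 0 < w j * s ^ j := mul_pos (hw _) (pow_pos hspos _)
      rw [pow_succ]
      nlinarith
  refine ⟨s, hspos, fun j => ?_⟩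
  rcases le_total j k with h | h
  · rw [Nat.dist_eq_sub_of_le h]
    exact down _ _ (by omega)
  · rw [Nat.dist_eq_sub_of_le_right h]
    have := up (j - k)
    rwa [Nat.add_sub_cancel' h] at this

theorem geo_sum (j N : ℕ) :
    ∑ k ∈ (range N).erase j, ((1 : ℝ) / 6) ^ (Nat.dist j k) ≤ 2 / 5 := by
  have h1 : ∀ n, ∑ k ∈ range n, ((1 : ℝ) / 6) ^ (k + 1) ≤ 1 / 5 := by
    intro n
    have : ∑ k ∈ range n, ((1 : ℝ) / 6) ^ (k + 1) = 1 / 5 - 1 / 5 * (1 / 6) ^ n := by
      induction n with
      | zero => simp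
      | succ n ih => rw [sum_range_succ, ih]; ring
    rw [this]
    have : 0 ≤ ((1 : ℝ) / 6) ^ n := by positivity
    linarith
  have hsub : (range N).erase j ⊆
      (range j).image (fun i => j - 1 - i) ∪ (range N).image (fun i => j + 1 + i) := by
    intro k hk
    simp only [mem_erase, mem_range, mem_union, mem_image] at hk ⊢
    rcases lt_or_gt_of_ne hk.1 with h | h
    · exact Or.inl ⟨j - 1 - k, by omega, by omega⟩
    · exact Or.inr ⟨k - (j + 1), by omega, by omega⟩
  refine (Finset.sum_le_sum_of_subset_of_nonneg hsub fun _ _ _ => by positivity).trans ?_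
  rw [sum_union, sum_image, sum_image]
  · have a1 : ∑ i ∈ range j, ((1 : ℝ) / 6) ^ (Nat.dist j (j - 1 - i)) =
        ∑ i ∈ range j, ((1 : ℝ) / 6) ^ (i + 1) := by
      refine Finset.sum_congr rfl fun i hi => ?_
      rw [mem_range] at hi
      congr 1
      unfold Nat.dist
      omega
    have a2 : ∑ i ∈ range N, ((1 : ℝ) / 6) ^ (Nat.dist j (j + 1 + i)) =
        ∑ i ∈ range N, ((1 : ℝ) / 6) ^ (i + 1) := by
      refine Finset.sum_congr rfl fun i _ => ?_
      congr 1
      unfold Nat.dist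
      omega
    rw [a1, a2]
    linarith [h1 j, h1 N]
  · intro a _ b _ h
    simp only at h
    omega
  · intro a ha b hb h
    simp only [coe_range, Set.mem_Iio] at ha hb h
    omega
  · rw [Finset.disjoint_left]
    intro k h1 h2
    simp only [mem_image, mem_range] at h1 h2
    omega

theorem sign_changes (q : ℝ[X]) (a y : ℕ → ℝ) (D : Finset ℕ) :
    (∀ k ∈ D, 0 < y k) → (∀ k ∈ D, 0 < a k * q.eval (y k)) →
    (∀ k ∈ D, ∀ l ∈ D, k < l → y k < y l) →
    ∃ (A : Finset ℕ) (Z : Finset ℝ) (ε : ℝ), A.card = Z.card ∧ (ε = 1 ∨ ε = -1) ∧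
      (∀ z ∈ Z, 0 < z ∧ q.eval z = 0) ∧ (∀ k ∈ D, 0 < ε * (pw A k * a k)) ∧
      (∀ i ∈ A, ∃ k ∈ D, i < k) ∧ (∀ z ∈ Z, ∃ k ∈ D, z < y k) := by
  classical
  induction D using Finset.induction_on_max with
  | empty => intro _ _ _; exact ⟨∅, ∅, 1, rfl, Or.inl rfl, by simp, by simp, by simp, by simp⟩
  | insert m D hm ih =>
    intro h1 h2 h3
    have hmm := mem_insert_self m D
    have ham : a m ≠ 0 := by
      intro h
      have := h2 m hmm
      simp [h] at this
    rcases D.eq_empty_or_nonempty with rfl | hne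
    · rcases lt_or_gt_of_ne ham with h | h
      · exact ⟨∅, ∅, -1, rfl, Or.inr rfl, by simp, by simpa [pw] using h, by simp, by simp⟩
      · exact ⟨∅, ∅, 1, rfl, Or.inl rfl, by simp, by simpa [pw] using h, by simp, by simp⟩
    obtain ⟨A, Z, ε, c1, c2, c3, c4, c5, c6⟩ := ih (fun k hk => h1 k (mem_insert_of_mem hk))
      (fun k hk => h2 k (mem_insert_of_mem hk))
      (fun k hk l hl => h3 k (mem_insert_of_mem hk) l (mem_insert_of_mem hl))
    let k0 := D.max' hne
    have hk0 : k0 ∈ D := D.max'_mem hne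
    have hle : ∀ k ∈ D, k ≤ k0 := fun k hk => D.le_max' k hk
    have hA : ∀ i ∈ A, i < k0 := fun i hi => by
      obtain ⟨k, hk, h⟩ := c5 i hi
      exact h.trans_le (hle k hk)
    have hpw : ∀ k, k0 ≤ k → 0 < pw A k := by
      intro k hk
      refine Finset.prod_pos fun i hi => ?_
      have : i + 1 ≤ k := by have := hA i hi; omega
      have : (i : ℝ) + 1 ≤ k := by exact_mod_cast this
      linarith
    have hε : ε ≠ 0 := by rcases c2 with rfl | rfl <;> norm_num
    have hpm := hpw m (hm k0 hk0).le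
    rcases lt_or_gt_of_ne (mul_ne_zero hε ham) with hs | hs
    · have hy : y k0 < y m := h3 k0 (mem_insert_of_mem hk0) m hmm (hm k0 hk0)
      have s0 : 0 < ε * a k0 := by
        have := c4 k0 hk0
        have h' := hpw k0 le_rfl
        by_contra hc
        nlinarith
      have s1 : 0 < ε * q.eval (y k0) := by
        have := h2 k0 (mem_insert_of_mem hk0)
        rcases c2 with rfl | rfl <;> nlinarith
      have s2 : ε * q.eval (y m) < 0 := by
        have := h2 m hmm
        rcases c2 with rfl | rfl <;> nlinarith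
      obtain ⟨z, hz, hz0⟩ := intermediate_value_Ioo' hy.le
        (f := fun x => ε * q.eval x) (by fun_prop) (show (0 : ℝ) ∈ Set.Ioo _ _ from ⟨s2, s1⟩)
      have hz1 : q.eval z = 0 := (mul_eq_zero.mp hz0).resolve_left hε
      have hkA : k0 ∉ A := fun h => lt_irrefl _ (hA k0 h)
      have hzZ : z ∉ Z := by
        intro h
        obtain ⟨k, hk, h'⟩ := c6 z h
        rcases (hle k hk).eq_or_lt with e | e
        · rw [e] at h'
          linarith [hz.1]
        · have := h3 k (mem_insert_of_mem hk) k0 (mem_insert_of_mem hk0) e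
          linarith [hz.1]
      refine ⟨insert k0 A, insert z Z, -ε, ?_, ?_, ?_, ?_, ?_, ?_⟩
      · rw [card_insert_of_notMem hkA, card_insert_of_notMem hzZ, c1]
      · rcases c2 with rfl | rfl <;> simp
      · intro x hx
        rcases mem_insert.mp hx with rfl | hx
        · exact ⟨(h1 k0 (mem_insert_of_mem hk0)).trans hz.1, hz1⟩
        · exact c3 x hx
      · intro k hk
        rw [pw, prod_insert hkA, ← pw]
        rcases mem_insert.mp hk with rfl | hk
        · have : k0 + 1 ≤ k := hm k0 hk0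
          have : (k0 : ℝ) + 1 ≤ k := by exact_mod_cast this
          have e : -ε * ((k - k0 - 1 / 2) * pw A k * a k) =
            ((k - k0 - 1 / 2) * pw A k) * (-(ε * a k)) := by ring
          rw [e]
          exact mul_pos (mul_pos (by linarith) hpm) (by linarith)
        · have : (k : ℝ) ≤ k0 := by exact_mod_cast hle k hk
          have e : -ε * ((k - k0 - 1 / 2) * pw A k * a k) =
            (-(k - k0 - 1 / 2)) * (ε * (pw A k * a k)) := by ring
          rw [e]
          exact mul_pos (by linarith) (c4 k hk)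
      · intro i hi
        refine ⟨m, hmm, ?_⟩
        rcases mem_insert.mp hi with rfl | hi
        · exact hm _ hk0
        · exact (hA i hi).trans (hm _ hk0)
      · intro x hx
        rcases mem_insert.mp hx with rfl | hx
        · exact ⟨m, hmm, hz.2⟩
        · obtain ⟨k, hk, h⟩ := c6 x hx
          exact ⟨k, mem_insert_of_mem hk, h⟩
    · refine ⟨A, Z, ε, c1, c2, c3, ?_, ?_, ?_⟩
      · intro k hk
        rcases mem_insert.mp hk with rfl | hk
        · have e : ε * (pw A k * a k) = pw A k * (ε * a k) := by ring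
          rw [e]
          exact mul_pos hpm hs
        · exact c4 k hk
      · intro i hi
        obtain ⟨k, hk, h⟩ := c5 i hi
        exact ⟨k, mem_insert_of_mem hk, h⟩
      · intro x hx
        obtain ⟨k, hk, h⟩ := c6 x hx
        exact ⟨k, mem_insert_of_mem hk, h⟩

theorem card_le_Zp (q : ℝ[X]) (hq : q ≠ 0) (Z : Finset ℝ) (h : ∀ z ∈ Z, 0 < z ∧ q.eval z = 0) :
    Z.card ≤ Zp q := by
  classical
  unfold Zp
  refine le_trans (Finset.card_le_card ?_) (Multiset.toFinset_card_le _)
  intro z hz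
  rw [Multiset.mem_toFinset, Multiset.mem_filter, mem_roots hq]
  exact ⟨(h z hz).2, (h z hz).1⟩

theorem Zp_le (γ : ℕ → ℝ) (hγ : ∀ k, 0 < γ k)
    (hr : ∀ k, 324 * (γ k * γ (k + 2)) ≤ γ (k + 1) ^ 2) (f q : ℝ[X]) (hf : f ≠ 0)
    (hq : ∀ k, q.coeff k = γ k * f.coeff k) : Zp f ≤ Zp q := by
  classical
  have hq0 : q ≠ 0 := ne_zero_of_coeff hf (fun k => (hγ k).ne') hq
  set N := f.natDegree + 1 with hN
  have hev : ∀ (g : ℝ[X]) (c : ℕ → ℝ), (∀ k, g.coeff k = c k * f.coeff k) → ∀ x,
      g.eval x = ∑ k ∈ range N, c k * f.coeff k * x ^ k := by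
    intro g c hg x
    have : g.natDegree < N := by
      rw [hN, Nat.lt_succ_iff, natDegree_le_iff_coeff_eq_zero]
      intro k hk
      rw [hg, coeff_eq_zero_of_natDegree_lt hk, mul_zero]
    rw [eval_eq_sum_range' this]
    simp only [hg]
  let T : ℕ → ℝ → ℝ := fun k y => |γ k * f.coeff k| * y ^ k
  have hT : ∀ k y, 0 < y → 0 ≤ T k y := fun k y hy => by positivity
  let D := (range N).filter fun k => ∃ y, 0 < y ∧ ∑ j ∈ (range N).erase k, T j y < T k y
  have hD : ∀ k, ∃ y, k ∈ D → 0 < y ∧ ∑ j ∈ (range N).erase k, T j y < T k y := by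
    intro k
    by_cases hk : k ∈ D
    · obtain ⟨y, hy⟩ := (mem_filter.mp hk).2
      exact ⟨y, fun _ => hy⟩
    · exact ⟨0, fun h => absurd h hk⟩
  choose y hy using hD
  have hDN : ∀ k ∈ D, k ∈ range N := fun k hk => (mem_filter.mp hk).1
  have hdom : ∀ k ∈ D, ∀ l ∈ D, k ≠ l → T l (y k) < T k (y k) := by
    intro k hk l hl hkl
    refine lt_of_le_of_lt ?_ (hy k hk).2
    exact Finset.single_le_sum (f := fun j => T j (y k)) (fun j _ => hT j _ (hy k hk).1)
      (mem_erase.mpr ⟨hkl.symm, hDN l hl⟩)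
  obtain ⟨A, Z, ε, c1, c2, c3, c4, -, -⟩ := sign_changes q f.coeff y D (fun k hk => (hy k hk).1)
    (by
      intro k hk
      obtain ⟨h1, h2⟩ := hy k hk
      rw [hev q γ hq, ← Finset.add_sum_erase _ _ (hDN k hk)]
      have h3 : |∑ j ∈ (range N).erase k, γ j * f.coeff j * y k ^ j| ≤
          ∑ j ∈ (range N).erase k, T j (y k) := by
        refine (Finset.abs_sum_le_sum_abs _ _).trans_eq (Finset.sum_congr rfl fun j _ => ?_)
        simp only [T]
        rw [abs_mul (γ j * f.coeff j), abs_of_pos (pow_pos h1 j)]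
      have h4 := h3.trans_lt h2
      generalize ∑ j ∈ (range N).erase k, γ j * f.coeff j * y k ^ j = R at *
      simp only [T] at h4
      have h5 := pow_pos h1 k
      have h6 := hγ k
      rw [abs_mul, abs_of_pos h6, abs_lt] at h4
      rcases lt_trichotomy (f.coeff k) 0 with h | h | h
      · rw [abs_of_neg h] at h4
        nlinarith [h4.2]
      · rw [h] at h4
        simp only [abs_zero, mul_zero, zero_mul, neg_zero] at h4
        linarith [h4.1, h4.2]
      · rw [abs_of_pos h] at h4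
        nlinarith [h4.1])
    (by
      intro k hk l hl hkl
      have h1 := hdom k hk l hl hkl.ne
      have h2 := hdom l hl k hk hkl.ne'
      simp only [T] at h1 h2
      obtain ⟨d, rfl⟩ := Nat.exists_eq_add_of_lt hkl
      have p1 := (hy k hk).1
      have p2 := (hy _ hl).1
      by_contra hc
      have h3 : y (k + d + 1) ^ (d + 1) ≤ y k ^ (d + 1) :=
        pow_le_pow_left₀ p2.le (not_lt.mp hc) _
      rw [add_assoc, pow_add] at h1 h2
      rw [add_assoc] at h3 p2
      have q1 := pow_pos p1 k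
      have q2 := pow_pos p2 k
      have u1 : |γ (k + (d + 1)) * f.coeff (k + (d + 1))| * y k ^ (d + 1) <
          |γ k * f.coeff k| := by
        by_contra h
        nlinarith
      have u2 : |γ k * f.coeff k| <
          |γ (k + (d + 1)) * f.coeff (k + (d + 1))| * y (k + (d + 1)) ^ (d + 1) := by
        by_contra h
        nlinarith
      have := mul_le_mul_of_nonneg_left h3 (abs_nonneg (γ (k + (d + 1)) * f.coeff (k + (d + 1))))
      linarith)
  obtain ⟨g, hg⟩ := exists_mul f (pw A)
  have hZ := card_le_Zp q hq0 Z c3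
  have hit := Zp_iter f hf A g hg
  suffices h : Zp g = 0 by omega
  unfold Zp
  rw [Multiset.card_eq_zero, Multiset.filter_eq_nil]
  intro x hx hx0
  have hx1 : g.eval x = 0 := (mem_roots'.mp hx).2
  let B : ℕ → ℝ := fun k => |pw A k * f.coeff k| * x ^ k
  have hB : ∀ k, 0 ≤ B k := fun k => by positivity
  let w : ℕ → ℝ := fun k => γ k / |pw A k|
  have hw : ∀ k, 0 < w k := fun k => div_pos (hγ k) (abs_pos.mpr (pw_ne A k))
  have hwr : ∀ k, 36 * (w k * w (k + 2)) ≤ w (k + 1) ^ 2 := by
    intro k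
    have a0 := abs_pos.mpr (pw_ne A k)
    have a2 := abs_pos.mpr (pw_ne A (k + 2))
    have a1 : 0 < pw A (k + 1) ^ 2 := by
      have := pw_ne A (k + 1)
      positivity
    simp only [w]
    rw [div_pow, sq_abs, div_mul_div_comm, ← mul_div_assoc, div_le_div_iff₀ (mul_pos a0 a2) a1]
    have b1 := pw_ratio A k
    have b2 := hr k
    have b3 := mul_pos (hγ k) (hγ (k + 2))
    have b4 := mul_pos a0 a2
    nlinarith
  have hnon : ∀ k ∈ range N \ D,
      B k ≤ ∑ j ∈ (range N).erase k, B j * (1 / 6) ^ (Nat.dist j k) := by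
    intro k hk
    obtain ⟨s, hs, hsj⟩ := exists_scale w hw hwr k
    have h1 : T k (x * s) ≤ ∑ j ∈ (range N).erase k, T j (x * s) := by
      by_contra hc
      exact (mem_sdiff.mp hk).2 (mem_filter.mpr ⟨(mem_sdiff.mp hk).1, x * s, mul_pos hx0 hs,
        not_le.mp hc⟩)
    have h2 : ∀ j, T j (x * s) = B j * (w j * s ^ j) := by
      intro j
      have := abs_pos.mpr (pw_ne A j)
      simp only [T, B, w, abs_mul, abs_of_pos (hγ j), mul_pow]
      field_simp
    simp only [h2] at h1
    have h3 : 0 < w k * s ^ k := mul_pos (hw k) (pow_pos hs k)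
    have h4 : ∑ j ∈ (range N).erase k, B j * (w j * s ^ j) ≤
        (∑ j ∈ (range N).erase k, B j * (1 / 6) ^ (Nat.dist j k)) * (w k * s ^ k) := by
      rw [Finset.sum_mul]
      refine Finset.sum_le_sum fun j _ => ?_
      have := mul_le_mul_of_nonneg_left (hsj j) (hB j)
      linarith
    exact le_of_mul_le_mul_right (h1.trans h4) h3
  have hsum : ∑ k ∈ range N \ D, B k ≤ 2 / 5 * ∑ j ∈ range N, B j := by
    calc ∑ k ∈ range N \ D, B k
        ≤ ∑ k ∈ range N \ D, ∑ j ∈ (range N).erase k, B j * (1 / 6) ^ (Nat.dist j k) :=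
          Finset.sum_le_sum hnon
      _ ≤ ∑ k ∈ range N, ∑ j ∈ (range N).erase k, B j * (1 / 6) ^ (Nat.dist j k) :=
          Finset.sum_le_sum_of_subset_of_nonneg sdiff_subset fun k _ _ =>
            Finset.sum_nonneg fun j _ => mul_nonneg (hB j) (by positivity)
      _ = ∑ j ∈ range N, ∑ k ∈ (range N).erase j, B j * (1 / 6) ^ (Nat.dist j k) := by
          refine Finset.sum_comm' ?_
          intro a b
          simp only [mem_erase]
          tauto
      _ ≤ ∑ j ∈ range N, 2 / 5 * B j := by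
          refine Finset.sum_le_sum fun j _ => ?_
          rw [← Finset.mul_sum, mul_comm]
          exact mul_le_mul_of_nonneg_right (geo_sum j N) (hB j)
      _ = _ := by rw [Finset.mul_sum]
  have hpos : 0 < ∑ j ∈ range N, B j := by
    refine Finset.sum_pos' (fun j _ => hB j) ⟨f.natDegree, by simp [hN], ?_⟩
    have h1 : f.coeff f.natDegree ≠ 0 := leadingCoeff_ne_zero.mpr hf
    have h2 := abs_pos.mpr (mul_ne_zero (pw_ne A f.natDegree) h1)
    exact mul_pos h2 (pow_pos hx0 _)
  have hDs : D ⊆ range N := fun k hk => hDN k hk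
  have habs : ∀ r : ℝ, |ε * r| = |r| := by
    intro r
    rcases c2 with rfl | rfl <;> simp
  have e1 : ε * g.eval x = ∑ k ∈ range N \ D, ε * (pw A k * f.coeff k) * x ^ k +
      ∑ k ∈ D, ε * (pw A k * f.coeff k) * x ^ k := by
    rw [Finset.sum_sdiff hDs, hev g _ hg, Finset.mul_sum]
    exact Finset.sum_congr rfl fun k _ => by ring
  have e2 : ∑ k ∈ D, ε * (pw A k * f.coeff k) * x ^ k = ∑ k ∈ D, B k := by
    refine Finset.sum_congr rfl fun k hk => ?_
    simp only [B]
    rw [← habs, abs_of_pos (c4 k hk)]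
  have e3 : -∑ k ∈ range N \ D, B k ≤ ∑ k ∈ range N \ D, ε * (pw A k * f.coeff k) * x ^ k := by
    rw [← Finset.sum_neg_distrib]
    refine Finset.sum_le_sum fun k _ => ?_
    simp only [B]
    rw [← habs, ← neg_mul]
    exact mul_le_mul_of_nonneg_right (neg_abs_le _) (pow_pos hx0 k).le
  have e4 := Finset.sum_sdiff (f := B) hDs
  rw [hx1, mul_zero, e2] at e1
  linarith

theorem card_roots_split (f : ℝ[X]) :
    f.roots.card = Zp f + Zp (f.comp (-X)) + f.natTrailingDegree := by
  classical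
  rw [← rootMultiplicity_eq_natTrailingDegree', ← count_roots, Zp, Zp, roots_comp_neg_X]
  induction f.roots using Multiset.induction_on with
  | empty => simp
  | cons a s ih =>
    rw [Multiset.card_cons, ih, Multiset.map_cons, Multiset.filter_cons, Multiset.filter_cons,
      Multiset.count_cons]
    rcases lt_trichotomy a 0 with h | h | h
    · simp [h, h.le, h.ne', not_lt.mpr h.le]
      omega
    · simp [h]
      omega
    · simp [h, h.le, h.ne, not_lt.mpr h.le]
      omega

theorem coeff_comp_neg (f : ℝ[X]) (k : ℕ) : (f.comp (-X)).coeff k = (-1) ^ k * f.coeff k := by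
  have : (-X : ℝ[X]) = C (-1) * X := by simp
  rw [this, comp_C_mul_X_coeff, mul_comm]

theorem card_roots_le (γ : ℕ → ℝ) (hγ : ∀ k, 0 < γ k)
    (hr : ∀ k, 324 * (γ k * γ (k + 2)) ≤ γ (k + 1) ^ 2) (f q : ℝ[X])
    (hq : ∀ k, q.coeff k = γ k * f.coeff k) :
    f.roots.card ≤ q.roots.card ∧ q.natDegree = f.natDegree := by
  have hs : q.support = f.support := by
    ext k
    simp [mem_support_iff, hq, (hγ k).ne']
  refine ⟨?_, ?_⟩
  · by_cases hf : f = 0
    · simp [hf]
    rw [card_roots_split, card_roots_split]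
    have h1 := Zp_le γ hγ hr f q hf hq
    have h2 := Zp_le γ hγ hr (f.comp (-X)) (q.comp (-X))
      (ne_zero_of_coeff hf (fun k => by positivity) (coeff_comp_neg f))
      (fun k => by rw [coeff_comp_neg, coeff_comp_neg, hq]; ring)
    have h3 : q.natTrailingDegree = f.natTrailingDegree := by
      simp only [natTrailingDegree, trailingDegree, hs]
    omega
  · simp only [natDegree, degree, hs]

theorem nonreal_card (f : ℝ[X]) :
    ((f.map (algebraMap ℝ ℂ)).roots.filter (fun z : ℂ => z.im ≠ 0)).card + f.roots.card =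
      f.natDegree := by
  classical
  have h1 : (f.map (algebraMap ℝ ℂ)).roots.filter (fun z : ℂ => ¬ z.im ≠ 0) =
      f.roots.map (algebraMap ℝ ℂ) := by
    ext z
    by_cases hz : z.im = 0
    · have e : z = algebraMap ℝ ℂ z.re := by
        apply Complex.ext <;> simp [hz]
      rw [Multiset.count_filter_of_pos (by simpa using hz), e,
        Multiset.count_map_eq_count' _ _ (algebraMap ℝ ℂ).injective, count_roots, count_roots,
        ← eq_rootMultiplicity_map (algebraMap ℝ ℂ).injective]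
    · rw [Multiset.count_filter_of_neg (by simpa using hz), eq_comm, Multiset.count_eq_zero]
      intro h
      obtain ⟨x, _, rfl⟩ := Multiset.mem_map.mp h
      simp at hz
  have h2 := congrArg Multiset.card
    (Multiset.filter_add_not (fun z : ℂ => z.im ≠ 0) (f.map (algebraMap ℝ ℂ)).roots)
  rw [Multiset.card_add, h1, Multiset.card_map,
    IsAlgClosed.card_roots_eq_natDegree (p := f.map (algebraMap ℝ ℂ)), natDegree_map] at h2
  exact h2

theorem second_diff (p : ℕ) (hp : 3 ≤ p) (k : ℕ) :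
    2 * ((k : ℝ) + 1) ^ p + 6 ≤ (k : ℝ) ^ p + ((k : ℝ) + 2) ^ p := by
  have hk : (0 : ℝ) ≤ k := Nat.cast_nonneg k
  induction p, hp using Nat.le_induction with
  | base => nlinarith
  | succ p _ ih =>
    have h1 : (k : ℝ) ^ p ≤ ((k : ℝ) + 2) ^ p := pow_le_pow_left₀ hk (by linarith) p
    rw [pow_succ, pow_succ, pow_succ]
    nlinarith

theorem exp_ratio (p : ℕ) (hp : 3 ≤ p) (k : ℕ) :
    324 * (Real.exp (-((k : ℝ) ^ p)) * Real.exp (-(((k + 2 : ℕ) : ℝ) ^ p))) ≤
      Real.exp (-(((k + 1 : ℕ) : ℝ) ^ p)) ^ 2 := by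
  have h1 : (324 : ℝ) ≤ Real.exp 6 := by
    have h := Real.exp_one_gt_d9
    have e : Real.exp 6 = Real.exp 1 ^ 6 := by
      rw [← Real.exp_nat_mul]
      norm_num
    rw [e]
    calc (324 : ℝ) ≤ 2.7 ^ 6 := by norm_num
      _ ≤ _ := pow_le_pow_left₀ (by norm_num) (by linarith) 6
  calc _ ≤ Real.exp 6 * (Real.exp (-((k : ℝ) ^ p)) * Real.exp (-(((k + 2 : ℕ) : ℝ) ^ p))) :=
        mul_le_mul_of_nonneg_right h1 (by positivity)
    _ ≤ _ := by
      rw [sq, ← Real.exp_add, ← Real.exp_add, ← Real.exp_add]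
      apply Real.exp_le_exp.mpr
      have := second_diff p hp k
      push_cast
      linarith

theorem czds (γ : ℕ → ℝ) (hγ : ∀ k, 0 < γ k)
    (hr : ∀ k, 324 * (γ k * γ (k + 2)) ≤ γ (k + 1) ^ 2) (f q : ℝ[X])
    (hq : ∀ k, q.coeff k = γ k * f.coeff k) :
    ((q.map (algebraMap ℝ ℂ)).roots.filter (fun z : ℂ => z.im ≠ 0)).card ≤
      ((f.map (algebraMap ℝ ℂ)).roots.filter (fun z : ℂ => z.im ≠ 0)).card := by
  have h1 := nonreal_card f
  have h2 := nonreal_card q
  have h3 := card_roots_le γ hγ hr f q hq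
  omega

end Pool.Agent.H29.Trop
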