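import Mathlib

namespace Pool.Agent.H29.UngA

/-- the facts one boundary arc of length `l` from `(p,0)` to `(0,q)` gives -/
structure Arc (l p q A B : ℝ) : Prop where
  hp : 0 < p
  hq : 0 < q
  hA : 0 < A
  hB : 0 < B
  hl : 0 ≤ l
  ch : p ^ 2 + q ^ 2 ≤ l ^ 2
  J : A * (l - p - q) + (l + p - q) ≤ B * ((l + p + q) - A * (l - p + q))
  Jf : 0 ≤ (l + p + q) - A * (l - p + q)
  Jg : l + p - q ≤ B * (l + p + q)
  Ka : q * (A ^ 2 - 1) ≤ 2 * A * p
  Kb : p * (1 - B ^ 2) ≤ 2 * B * q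

lemma Arc.lp {l p q A B : ℝ} (h : Arc l p q A B) : p < l := by
  have := h.ch; have := h.hq; have := h.hl; have := h.hp
  by_contra hc
  push Not at hc
  nlinarith

lemma Arc.lq {l p q A B : ℝ} (h : Arc l p q A B) : q < l := by
  have := h.ch; have := h.hq; have := h.hl; have := h.hp
  by_contra hc
  push Not at hc
  nlinarith

lemma chi_of {l p q B : ℝ} (hq : 0 < q) (hB : 0 < B) (hl : 0 ≤ l) (ch : p ^ 2 + q ^ 2 ≤ l ^ 2)
    (Kb : p * (1 - B ^ 2) ≤ 2 * B * q) : 0 ≤ B * (l - p + q) + (l - p - q) := by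
  have h1 : (p * (1 + B) + q * (1 - B)) ^ 2 ≤ (l * (1 + B)) ^ 2 := by
    have : 0 ≤ q * (2 * B * q - p * (1 - B ^ 2)) := mul_nonneg hq.le (by linarith)
    have : 0 ≤ (l ^ 2 - p ^ 2 - q ^ 2) * (1 + B) ^ 2 := mul_nonneg (by linarith) (sq_nonneg _)
    nlinarith
  have h2 := abs_le_of_sq_le_sq' h1 (by positivity)
  nlinarith [h2.2]

lemma Arc.chi {l p q A B : ℝ} (h : Arc l p q A B) : 0 ≤ B * (l - p + q) + (l - p - q) :=
  chi_of h.hq h.hB h.hl h.ch h.Kb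

/-- elimination of the middle direction -/
lemma elim {B f g x w : ℝ} (h1 : g ≤ B * f) (h2 : B * x ≤ w) (hf : 0 ≤ f) (hx : 0 ≤ x) :
    g * x ≤ f * w := by
  nlinarith [mul_le_mul_of_nonneg_right h1 hx, mul_le_mul_of_nonneg_left h2 hf]

lemma two {l p q r A B C : ℝ} (h1 : Arc l p q A B) (h2 : Arc l q r B C) :
    ((l + p) * (l - r) + q ^ 2) - A * (q * (2 * l - p - r)) ≤
      C * (q * (2 * l + p + r) - A * ((l - p) * (l + r) + q ^ 2)) := by
  have := elim (B := B) (x := C * (l - q + r) + (l - q - r)) (w := C * (l + q + r) - (l + q - r))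
    h1.J (by have := h2.J; linarith) h1.Jf h2.chi
  linarith

lemma twof {l p q r A B C : ℝ} (h1 : Arc l p q A B) (h2 : Arc l q r B C) :
    0 ≤ q * (2 * l + p + r) - A * ((l - p) * (l + r) + q ^ 2) := by
  have := elim (B := B) (x := l - q + r) (w := l + q + r)
    h1.J (by have := h2.Jf; linarith) h1.Jf (by have := h1.lq; have := h2.hq; linarith)
  linarith

lemma twog {l p q r A B C : ℝ} (h1 : Arc l p q A B) (h2 : Arc l q r B C) :
    0 ≤ C * (q * (2 * l + p + r)) - ((l + p) * (l - r) + q ^ 2) := by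
  have := elim (B := B) (x := C * (l - q + r) + (l - q - r)) (w := C * (l + q + r) - (l + q - r))
    h1.Jg (by have := h2.J; linarith) (by have := h1.hl; have := h1.hp; have := h1.hq; linarith)
    h2.chi
  linarith

lemma core {j1 k1 j2 k2 q s m n A C δ : ℝ} (hq : 0 < q) (hs : 0 < s) (hm : 0 ≤ m) (hn : 0 < n)
    (hk1 : 0 < k1) (hk2 : 0 < k2) (hC : 0 < C)
    (hD1 : 0 < j1 * k1 - q ^ 2 * m * n) (hD2 : 0 < j2 * k2 - s ^ 2 * m * n)
    (hδ : 0 ≤ δ) (hδ2 : δ ^ 2 = (j1 * k1 - q ^ 2 * m * n) * (j2 * k2 - s ^ 2 * m * n))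
    (hf : 0 ≤ q * n - A * k1) (hg : 0 ≤ A * (s * n) - j2)
    (I1 : j1 - A * (q * m) ≤ C * (q * n - A * k1))
    (I2 : C * (A * k2 - s * m) ≤ A * (s * n) - j2)
    (htr : 0 < j1 * k2 - q * s * m ^ 2 - (q * s * n ^ 2 - k1 * j2) + 2 * δ) : False := by
  obtain ⟨f1, hf1⟩ : ∃ x, x = q * n - A * k1 := ⟨_, rfl⟩
  obtain ⟨g2, hg2⟩ : ∃ x, x = A * (s * n) - j2 := ⟨_, rfl⟩
  obtain ⟨g1, hg1⟩ : ∃ x, x = j1 - A * (q * m) := ⟨_, rfl⟩
  obtain ⟨f2, hf2⟩ : ∃ x, x = A * k2 - s * m := ⟨_, rfl⟩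
  obtain ⟨D1, hD1'⟩ : ∃ x, x = j1 * k1 - q ^ 2 * m * n := ⟨_, rfl⟩
  obtain ⟨D2, hD2'⟩ : ∃ x, x = j2 * k2 - s ^ 2 * m * n := ⟨_, rfl⟩
  obtain ⟨W, hW⟩ : ∃ x, x = q * s * n ^ 2 - k1 * j2 := ⟨_, rfl⟩
  obtain ⟨T, hT⟩ : ∃ x, x = j1 * k2 - q * s * m ^ 2 - W := ⟨_, rfl⟩
  obtain ⟨U, hU⟩ : ∃ x, x = k2 * f1 + k1 * f2 := ⟨_, rfl⟩
  obtain ⟨V, hV⟩ : ∃ x, x = s * n * g1 + q * m * g2 := ⟨_, rfl⟩
  have e1 : k1 * g1 = D1 + q * m * f1 := by subst hf1 hg1 hD1'; ring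
  have e2 : s * n * f2 = D2 + k2 * g2 := by subst hf2 hg2 hD2'; ring
  have e3 : W = s * n * f1 + k1 * g2 := by subst hf1 hg2 hW; ring
  have e4 : U * V = D1 * D2 + (T + W) * W := by
    subst hU hV hT hW hD1' hD2' hf1 hf2 hg1 hg2; ring
  have e5 : W ^ 2 * (g1 * f2 - g2 * f1) =
      V * D2 * f1 ^ 2 + U * D1 * g2 ^ 2 + (2 * (D1 * D2) + W * T) * (f1 * g2) := by
    subst hU hV hT hW hD1' hD2' hf1 hf2 hg1 hg2; ring
  rw [← hf1] at hf I1
  rw [← hg2] at hg I2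
  rw [← hg1] at I1
  rw [← hf2] at I2
  rw [← hD1'] at hD1 hδ2
  rw [← hD2'] at hD2 hδ2
  rw [← hW, ← hT] at htr
  clear hf1 hg2 hg1 hf2 hD1' hD2' hW hT
  have hsn : 0 < s * n := mul_pos hs hn
  have hqm : 0 ≤ q * m := mul_nonneg hq.le hm
  have g1p : 0 < g1 := by
    have : 0 < k1 * g1 := by rw [e1]; have := mul_nonneg hqm hf; linarith
    exact (pos_iff_pos_of_mul_pos this).1 hk1
  have f2p : 0 < f2 := by
    have : 0 < s * n * f2 := by rw [e2]; have := mul_nonneg hk2.le hg; linarith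
    exact (pos_iff_pos_of_mul_pos this).1 hsn
  have f1p : 0 < f1 := (pos_iff_pos_of_mul_pos (g1p.trans_le I1)).1 hC
  have g2p : 0 < g2 := (mul_pos hC f2p).trans_le I2
  have Wp : 0 < W := by rw [e3]; positivity
  have Up : 0 ≤ U := by rw [hU]; positivity
  have Vp : 0 ≤ V := by rw [hV]; positivity
  have hΘ : g1 * f2 - g2 * f1 ≤ 0 := by
    have := elim I1 I2 f1p.le f2p.le
    linarith
  have hfg : 0 < f1 * g2 := mul_pos f1p g2p
  have hS : 0 ≤ V * D2 * f1 ^ 2 + U * D1 * g2 ^ 2 := by positivity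
  have hZ : V * D2 * f1 ^ 2 + U * D1 * g2 ^ 2 + (2 * δ ^ 2 + W * T) * (f1 * g2) ≤ 0 := by
    rw [hδ2, ← e5]; exact mul_nonpos_of_nonneg_of_nonpos (sq_nonneg _) hΘ
  have hWT : 0 < W * (T + 2 * δ) := mul_pos Wp htr
  rcases le_or_gt W δ with h | h
  · have : 0 < 2 * δ ^ 2 + W * T := by nlinarith [mul_nonneg hδ (sub_nonneg.2 h)]
    have := mul_pos this hfg
    linarith
  · have hUV : (W - δ) ^ 2 ≤ U * V := by rw [e4, ← hδ2]; nlinarith
    have h1 : (2 * δ * (W - δ) * (f1 * g2)) ^ 2 ≤ (V * D2 * f1 ^ 2 + U * D1 * g2 ^ 2) ^ 2 := by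
      have a1 : (2 * δ * (W - δ) * (f1 * g2)) ^ 2 = 4 * (δ * (f1 * g2)) ^ 2 * (W - δ) ^ 2 := by ring
      have a2 : (V * D2 * f1 ^ 2 + U * D1 * g2 ^ 2) ^ 2 =
          (V * D2 * f1 ^ 2 - U * D1 * g2 ^ 2) ^ 2 + 4 * (δ * (f1 * g2)) ^ 2 * (U * V) := by
        rw [mul_pow δ, hδ2]; ring
      rw [a1, a2]
      have := mul_le_mul_of_nonneg_left hUV (by positivity : 0 ≤ 4 * (δ * (f1 * g2)) ^ 2)
      nlinarith [sq_nonneg (V * D2 * f1 ^ 2 - U * D1 * g2 ^ 2)]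
    have h2 := (abs_le_of_sq_le_sq' h1 hS).2
    have := mul_pos hWT hfg
    nlinarith

/-- the trace bound -/
lemma trace {l p q r s μ : ℝ} (hp : 0 < p) (hq : 0 < q) (hr : 0 < r) (hs : 0 < s)
    (hμ : μ = (l ^ 2 - p ^ 2 - q ^ 2) * (l ^ 2 - r ^ 2 - s ^ 2) ∨
      μ = (l ^ 2 - q ^ 2 - r ^ 2) * (l ^ 2 - s ^ 2 - p ^ 2))
    (H : (p + q + r + s) ^ 2 < 4 * l ^ 2 + (p - r) ^ 2 + (q - s) ^ 2) :
    (p + r) ^ 2 * (q + s) ^ 2 < 4 * μ + 4 * l ^ 2 * ((p - r) ^ 2 + (q - s) ^ 2) := by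
  have h0 : 0 < 2 * ((p + r) * (q + s)) := by positivity
  have h1 : 2 * ((p + r) * (q + s)) <
      4 * l ^ 2 - (p + r) ^ 2 - (q + s) ^ 2 + (p - r) ^ 2 + (q - s) ^ 2 := by nlinarith
  have h2 := pow_lt_pow_left₀ h1 h0.le (two_ne_zero)
  rcases hμ with h | h
  · rw [h]; nlinarith [sq_nonneg ((p + r) * (q - s) - (q + s) * (p - r))]
  · rw [h]; nlinarith [sq_nonneg ((p + r) * (q - s) + (q + s) * (p - r))]

lemma nondeg {l p q r s A B C D : ℝ} (h1 : Arc l p q A B) (h2 : Arc l q r B C)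
    (h3 : Arc l r s C D) (h4 : Arc l s p D A)
    (d1 : p ^ 2 + q ^ 2 < l ^ 2) (d2 : q ^ 2 + r ^ 2 < l ^ 2) (d3 : r ^ 2 + s ^ 2 < l ^ 2)
    (d4 : s ^ 2 + p ^ 2 < l ^ 2)
    (H : (p + q + r + s) ^ 2 < 4 * l ^ 2 + (p - r) ^ 2 + (q - s) ^ 2) : False := by
  have hp := h1.hp; have hq := h1.hq; have hr := h3.hp; have hs := h3.hq
  have lp := h1.lp; have lr := h3.lp
  have e1 : ((l + p) * (l - r) + q ^ 2) * ((l - p) * (l + r) + q ^ 2) -
      q ^ 2 * (2 * l - p - r) * (2 * l + p + r) =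
      (l ^ 2 - p ^ 2 - q ^ 2) * (l ^ 2 - q ^ 2 - r ^ 2) := by ring
  have e2 : ((l + r) * (l - p) + s ^ 2) * ((l - r) * (l + p) + s ^ 2) -
      s ^ 2 * (2 * l - p - r) * (2 * l + p + r) =
      (l ^ 2 - r ^ 2 - s ^ 2) * (l ^ 2 - s ^ 2 - p ^ 2) := by ring
  have a1 : 0 < l ^ 2 - p ^ 2 - q ^ 2 := by linarith
  have a2 : 0 < l ^ 2 - q ^ 2 - r ^ 2 := by linarith
  have a3 : 0 < l ^ 2 - r ^ 2 - s ^ 2 := by linarith
  have a4 : 0 < l ^ 2 - s ^ 2 - p ^ 2 := by linarith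
  obtain ⟨x, hx⟩ : ∃ x, x = (l ^ 2 - p ^ 2 - q ^ 2) * (l ^ 2 - r ^ 2 - s ^ 2) := ⟨_, rfl⟩
  obtain ⟨y, hy⟩ : ∃ y, y = (l ^ 2 - q ^ 2 - r ^ 2) * (l ^ 2 - s ^ 2 - p ^ 2) := ⟨_, rfl⟩
  have xp : 0 < x := by rw [hx]; positivity
  have yp : 0 < y := by rw [hy]; positivity
  have hl1 : 0 < l - p := by linarith
  have hl2 : 0 < l - r := by linarith
  have hl3 : 0 < l := by linarith
  refine core (j1 := (l + p) * (l - r) + q ^ 2) (k1 := (l - p) * (l + r) + q ^ 2)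
    (j2 := (l + r) * (l - p) + s ^ 2) (k2 := (l - r) * (l + p) + s ^ 2) (q := q) (s := s)
    (m := 2 * l - p - r) (n := 2 * l + p + r) (A := A) (C := C) (δ := Real.sqrt (x * y))
    hq hs (by linarith) (by linarith) (by positivity) (by positivity) h2.hB
    (by rw [e1]; positivity) (by rw [e2]; positivity) (Real.sqrt_nonneg _) ?_ (twof h1 h2) ?_
    (two h1 h2) ?_ ?_
  · rw [e1, e2, Real.sq_sqrt (by positivity), hx, hy]; ring
  · have := twog h3 h4; linarith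
  · have := two h3 h4; linarith
  · have e3 : ((l + p) * (l - r) + q ^ 2) * ((l - r) * (l + p) + s ^ 2) -
        q * s * (2 * l - p - r) ^ 2 - (q * s * (2 * l + p + r) ^ 2 -
        ((l - p) * (l + r) + q ^ 2) * ((l + r) * (l - p) + s ^ 2)) =
        x + y + 4 * l ^ 2 * ((p - r) ^ 2 + (q - s) ^ 2) - (p + r) ^ 2 * (q + s) ^ 2 := by
      rw [hx, hy]; ring
    rw [e3]
    rcases le_total x y with h | h
    · have := trace hp hq hr hs (Or.inl hx) H
      have : x ≤ Real.sqrt (x * y) := Real.le_sqrt_of_sq_le (by nlinarith)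
      linarith
    · have := trace hp hq hr hs (Or.inr hy) H
      have : y ≤ Real.sqrt (x * y) := Real.le_sqrt_of_sq_le (by nlinarith)
      linarith

lemma deg {l p q r s A B C D : ℝ} (h1 : Arc l p q A B) (h2 : Arc l q r B C)
    (h3 : Arc l r s C D) (h4 : Arc l s p D A) (d1 : p ^ 2 + q ^ 2 = l ^ 2)
    (H : (p + q + r + s) ^ 2 < 4 * l ^ 2 + (p - r) ^ 2 + (q - s) ^ 2) : False := by
  have hp := h1.hp; have hq := h1.hq; have hr := h3.hp; have hs := h3.hq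
  have lp := h1.lp; have lr := h3.lp; have lq := h1.lq; have ls := h3.lq
  have hA := h1.hA; have hB := h1.hB
  have hA' : q * A ≤ p + l := by
    have k := h1.Ka
    have : (q * A - p) ^ 2 ≤ l ^ 2 := by nlinarith [mul_le_mul_of_nonneg_left k hq.le]
    have := (abs_le_of_sq_le_sq' this h1.hl).2
    linarith
  have hB' : l - q ≤ p * B := by
    have k := h1.Kb
    have : l ^ 2 ≤ (p * B + q) ^ 2 := by nlinarith [mul_le_mul_of_nonneg_left k hp.le]
    have := (abs_le_of_sq_le_sq' this (by positivity)).2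
    linarith
  -- arc 2 with the direction of the chord
  have c2 := h2.chi
  have j2 : (l - q) * (C * (l - q + r) + (l - q - r)) ≤ p * (C * (l + q + r) - (l + q - r)) := by
    have := mul_le_mul_of_nonneg_right hB' c2
    have k := h2.J
    nlinarith [mul_le_mul_of_nonneg_left k hp.le]
  have f2 : 0 ≤ p * (l + q + r) - (l - q) * (l - q + r) := by
    have := mul_le_mul_of_nonneg_right hB' (by linarith : 0 ≤ l - q + r)
    have k := h2.Jf
    nlinarith [mul_le_mul_of_nonneg_left k hp.le]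
  have j2' : (l - q) * (l - q - r) + p * (l + q - r) ≤
      C * (p * (l + q + r) - (l - q) * (l - q + r)) := by linarith
  have k23 := elim (B := C) (x := D * (l - r + s) + (l - r - s))
    (w := D * (l + r + s) - (l + r - s)) j2' (by have := h3.J; linarith) f2 h3.chi
  have k23f := elim (B := C) (x := l - r + s) (w := l + r + s) j2'
    (by have := h3.Jf; linarith) f2 (by linarith)
  -- arc 4 with the direction of the chord
  have j4 : D * ((p + l) * (l - s + p) + q * (l - s - p)) ≤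
      (p + l) * (l + s + p) - q * (l + s - p) := by
    have := mul_le_mul_of_nonneg_right hA' h4.Jf
    have k := h4.J
    nlinarith [mul_le_mul_of_nonneg_left k hq.le]
  have c4 : 0 ≤ (p + l) * (l - s + p) + q * (l - s - p) := by
    have := mul_le_mul_of_nonneg_right hA' (by linarith : 0 ≤ l - s + p)
    have k := h4.chi
    nlinarith [mul_le_mul_of_nonneg_left k hq.le]
  have fin := elim (B := D)
    (f := (p * (l + q + r) - (l - q) * (l - q + r)) * (l + r + s) -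
      ((l - q) * (l - q - r) + p * (l + q - r)) * (l - r + s))
    (g := (p * (l + q + r) - (l - q) * (l - q + r)) * (l + r - s) +
      ((l - q) * (l - q - r) + p * (l + q - r)) * (l - r - s)) (by linarith) j4 (by linarith) c4
  have t := trace (l := l) (μ := 0) hp hq hr hs (Or.inl (by rw [← d1]; ring)) H
  have yp : 0 ≤ (l ^ 2 - q ^ 2 - r ^ 2) * (l ^ 2 - s ^ 2 - p ^ 2) :=
    mul_nonneg (by have := h2.ch; linarith) (by have := h4.ch; linarith)
  have e : ((p * (l + q + r) - (l - q) * (l - q + r)) * (l + r - s) +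
      ((l - q) * (l - q - r) + p * (l + q - r)) * (l - r - s)) *
      ((p + l) * (l - s + p) + q * (l - s - p)) -
      ((p * (l + q + r) - (l - q) * (l - q + r)) * (l + r + s) -
      ((l - q) * (l - q - r) + p * (l + q - r)) * (l - r + s)) *
      ((p + l) * (l + s + p) - q * (l + s - p)) =
      2 * (l + p - q) * ((l ^ 2 - q ^ 2 - r ^ 2) * (l ^ 2 - s ^ 2 - p ^ 2) +
        4 * l ^ 2 * ((p - r) ^ 2 + (q - s) ^ 2) - (p + r) ^ 2 * (q + s) ^ 2) := by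
    linear_combination (-((4)*l^2*p + (-4)*l^2*q + (-4)*l^2*r + (4)*l^2*s + (-2)*l*p*q +
      (4)*l*p*r + (2)*l*p*s + (2)*l*q*r + (4)*l*q*s + (-4)*l*r^2 + (6)*l*r*s + (-4)*l*s^2 +
      (2)*p*q*r + (-2)*p*q*s + (2)*p*r*s + (-2)*p*s^2 + (2)*q*r^2 + (-2)*q*r*s + (2)*r^2*s +
      (-2)*r*s^2)) * d1
  have : 0 < 2 * (l + p - q) * ((l ^ 2 - q ^ 2 - r ^ 2) * (l ^ 2 - s ^ 2 - p ^ 2) +
        4 * l ^ 2 * ((p - r) ^ 2 + (q - s) ^ 2) - (p + r) ^ 2 * (q + s) ^ 2) :=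
    mul_pos (by linarith) (by linarith)
  linarith

theorem main {l p q r s A B C D : ℝ} (h1 : Arc l p q A B) (h2 : Arc l q r B C)
    (h3 : Arc l r s C D) (h4 : Arc l s p D A) :
    4 * l ^ 2 + (p - r) ^ 2 + (q - s) ^ 2 ≤ (p + q + r + s) ^ 2 := by
  by_contra H
  push Not at H
  rcases h1.ch.eq_or_lt with d1 | d1
  · exact deg h1 h2 h3 h4 d1 H
  rcases h2.ch.eq_or_lt with d2 | d2
  · exact deg h2 h3 h4 h1 d2 (by linarith)
  rcases h3.ch.eq_or_lt with d3 | d3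
  · exact deg h3 h4 h1 h2 d3 (by linarith)
  rcases h4.ch.eq_or_lt with d4 | d4
  · exact deg h4 h1 h2 h3 d4 (by linarith)
  exact nondeg h1 h2 h3 h4 d1 d2 d3 d4 H

theorem eqA {l p q A B C D : ℝ} (h1 : Arc l p q A B) (h2 : Arc l q p B C)
    (h3 : Arc l p q C D) (h4 : Arc l q p D A) (hl : l = p + q) : A = 1 := by
  have hp := h1.hp; have hq := h1.hq; have hA := h1.hA; have hC := h2.hB
  have I1 := two h1 h2
  have I2 := two h3 h4
  have f1 := twof h1 h2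
  have g2 := twog h3 h4
  subst hl
  have i1 : (p + q) - A * q ≤ C * ((2 * p + q) - A * (p + q)) := by
    apply le_of_mul_le_mul_left _ (by positivity : 0 < 2 * q); linarith
  have i2 : C * (A * (p + q) - q) ≤ A * (2 * p + q) - (p + q) := by
    apply le_of_mul_le_mul_left _ (by positivity : 0 < 2 * q); linarith
  have f1' : 0 ≤ (2 * p + q) - A * (p + q) := by
    apply le_of_mul_le_mul_left _ (by positivity : 0 < 2 * q); linarith
  have g2' : 0 ≤ A * (2 * p + q) - (p + q) := by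
    apply le_of_mul_le_mul_left _ (by positivity : 0 < 2 * q); linarith
  have f2' : 0 ≤ A * (p + q) - q := by
    apply le_of_mul_le_mul_left _ (by positivity : 0 < 2 * p + q)
    nlinarith [mul_nonneg (by positivity : 0 ≤ p + q) g2', mul_pos hp hp]
  have k := elim i1 i2 f1' f2'
  have : p * (p + q) * (A - 1) ^ 2 ≤ 0 := by nlinarith
  have h0 : (A - 1) ^ 2 ≤ 0 := by
    by_contra hc
    push Not at hc
    have : 0 < p * (p + q) * (A - 1) ^ 2 := by positivity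
    linarith
  have : A - 1 = 0 := pow_eq_zero_iff (two_ne_zero) |>.1 (le_antisymm h0 (sq_nonneg _))
  linarith

end Pool.Agent.H29.UngA
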