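import Mathlib
import Pool.Agent.H29.UngA

namespace Pool.Agent.H29.UngB
open Set

lemma evar_le {E : Type*} [PseudoMetricSpace E] {γ : ℝ → E} {φ : ℝ → ℝ} {a b : ℝ} (hab : a ≤ b)
    (h : ∀ s ∈ Icc a b, ∀ t ∈ Icc a b, s ≤ t → dist (γ s) (γ t) ≤ φ t - φ s) :
    eVariationOn γ (Icc a b) ≤ ENNReal.ofReal (φ b - φ a) := by
  have mono : ∀ s ∈ Icc a b, ∀ t ∈ Icc a b, s ≤ t → φ s ≤ φ t := fun s hs t ht hst => by
    have := h s hs t ht hst
    have := dist_nonneg (x := γ s) (y := γ t)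
    linarith
  apply iSup_le
  rintro ⟨n, ⟨u, hu, us⟩⟩
  calc ∑ i ∈ Finset.range n, edist (γ (u (i + 1))) (γ (u i))
      ≤ ∑ i ∈ Finset.range n, ENNReal.ofReal (φ (u (i + 1)) - φ (u i)) := by
        refine Finset.sum_le_sum fun i _ => ?_
        rw [edist_dist, dist_comm]
        exact ENNReal.ofReal_le_ofReal (h _ (us i) _ (us _) (hu (Nat.le_succ i)))
    _ = ENNReal.ofReal (∑ i ∈ Finset.range n, (φ (u (i + 1)) - φ (u i))) := by
        rw [ENNReal.ofReal_sum_of_nonneg]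
        intro i _
        exact sub_nonneg.2 (mono _ (us i) _ (us _) (hu (Nat.le_succ i)))
    _ = ENNReal.ofReal (φ (u n) - φ (u 0)) := by rw [Finset.sum_range_sub fun i => φ (u i)]
    _ ≤ ENNReal.ofReal (φ b - φ a) := by
        apply ENNReal.ofReal_le_ofReal
        have := mono _ (us n) b ⟨hab, le_rfl⟩ (us n).2
        have := mono a ⟨le_rfl, hab⟩ _ (us 0) (us 0).1
        linarith

lemma chord_le {E : Type*} [PseudoMetricSpace E] {γ : ℝ → E} {a b l : ℝ} (hab : a ≤ b)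
    (hl : 0 ≤ l) (hv : eVariationOn γ (Icc a b) = ENNReal.ofReal l) : dist (γ a) (γ b) ≤ l := by
  have := eVariationOn.edist_le γ (s := Icc a b) ⟨le_rfl, hab⟩ ⟨hab, le_rfl⟩
  rw [hv, edist_dist] at this
  exact (ENNReal.ofReal_le_ofReal_iff hl).1 this

lemma var_le {E : Type*} [PseudoMetricSpace E] {γ : ℝ → E} {φ : ℝ → ℝ} {a b l μ : ℝ}
    (hab : a ≤ b) (hl : 0 ≤ l) (hv : eVariationOn γ (Icc a b) = ENNReal.ofReal l)
    (h : ∀ s ∈ Icc a b, ∀ t ∈ Icc a b, s ≤ t → μ * dist (γ s) (γ t) ≤ φ t - φ s) :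
    μ * l ≤ φ b - φ a := by
  have h0 := h a ⟨le_rfl, hab⟩ b ⟨hab, le_rfl⟩ hab
  rcases le_or_gt μ 0 with hμ | hμ
  · have := mul_le_mul_of_nonpos_left (chord_le hab hl hv) hμ
    linarith
  · have := evar_le (γ := γ) (φ := fun t => φ t / μ) hab (fun s hs t ht hst => by
      rw [← sub_div, le_div_iff₀ hμ, mul_comm]; exact h s hs t ht hst)
    have hd := mul_nonneg hμ.le (dist_nonneg (x := γ a) (y := γ b))
    rw [hv, ENNReal.ofReal_le_ofReal_iff
      (by rw [← sub_div]; exact div_nonneg (by linarith) hμ.le), ← sub_div, le_div_iff₀ hμ] at this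
    linarith

lemma incr {e1 e2 ρ A B : ℝ} (hA : 0 < A) (hB : 0 < B) (hρ : 0 ≤ ρ) (h : ρ ^ 2 = e1 ^ 2 + e2 ^ 2)
    (ha : 0 ≤ e2 → 2 * A * e1 + (A ^ 2 - 1) * e2 ≤ 0)
    (hb : e1 ≤ 0 → 0 ≤ 2 * B * e2 - (B ^ 2 - 1) * e1) (hc : 0 < e1 → 0 ≤ e2) :
    (A * B + 1 + A - B) * ρ ≤ -e1 * (A * B + A + B - 1) + e2 * (A + B + 1 - A * B) ∧
    (A - 1) * ρ ≤ -e1 * (A + 1) + e2 * (1 - A) ∧
    (1 - B) * ρ ≤ -e1 * (B - 1) + e2 * (B + 1) := by
  have x0 : e1 ≤ ρ := (abs_le_of_sq_le_sq' (by nlinarith [sq_nonneg e2]) hρ).2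
  have y0 := abs_le_of_sq_le_sq' (a := e2) (by nlinarith [sq_nonneg e1]) hρ
  rcases x0.eq_or_lt with hx | hx
  · have h2 : e2 = 0 := by
      have : e2 ^ 2 = 0 := by rw [hx] at h; linarith
      exact pow_eq_zero_iff (two_ne_zero) |>.1 this
    have := ha h2.ge
    rw [h2] at this
    have h1 : e1 = 0 := by
      have : e1 ≤ 0 := by nlinarith
      linarith
    have h3 : ρ = 0 := by linarith
    simp [h1, h2, h3]
  have P1 : 0 ≤ ρ - e1 - A * e2 := by
    rcases le_total e2 0 with h2 | h2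
    · nlinarith [mul_nonneg hA.le (neg_nonneg.2 h2)]
    · have : (A * e2 + e1) ^ 2 ≤ ρ ^ 2 := by nlinarith [mul_nonneg h2 (neg_nonneg.2 (ha h2))]
      have := (abs_le_of_sq_le_sq' this hρ).2
      linarith
  have P3 : 0 ≤ ρ - e1 + e2 := by
    rcases le_or_gt e1 0 with h1 | h1
    · linarith [y0.1]
    · linarith [hc h1]
  have P2 : 0 ≤ B * (ρ - e1 + e2) - (ρ - e1 - e2) := by
    rcases lt_trichotomy e1 0 with h1 | h1 | h1
    · have k := hb h1.le
      have k0 : 0 ≤ e2 - B * e1 := by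
        rcases le_total 0 e2 with h2 | h2
        · nlinarith [mul_pos hB (neg_pos.2 h1)]
        · have : 0 ≤ B * (2 * e2 - B * e1) := by nlinarith
          have h5 : 0 ≤ 2 * e2 - B * e1 := by
            by_contra hh
            push Not at hh
            nlinarith [mul_pos hB (neg_pos.2 hh)]
          linarith
      have k1 : ρ ^ 2 ≤ (e2 - B * e1) ^ 2 := by nlinarith [mul_nonneg (neg_pos.2 h1).le k]
      have k2 := (abs_le_of_sq_le_sq' k1 k0).2
      have k3 : 0 ≤ -e1 * (B * (ρ - e1 + e2) - (ρ - e1 - e2)) := by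
        nlinarith [mul_nonneg P3 (sub_nonneg.2 k2)]
      exact nonneg_of_mul_nonneg_right k3 (neg_pos.2 h1)
    · have k := hb h1.le
      rw [h1] at k h
      have h2 : 0 ≤ e2 := by nlinarith
      have : ρ ≤ e2 := (abs_le_of_sq_le_sq' (by nlinarith) h2).2
      nlinarith [mul_nonneg hB.le P3]
    · have h2 := hc h1
      have : ρ ≤ e1 + e2 :=
        (abs_le_of_sq_le_sq' (by nlinarith [mul_nonneg h1.le h2]) (by linarith)).2
      nlinarith [mul_nonneg hB.le P3]
  have hξ : 0 < ρ - e1 := by linarith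
  refine ⟨?_, ?_, ?_⟩
  · apply le_of_mul_le_mul_left _ hξ
    have e : (ρ - e1) * (-e1 * (A * B + A + B - 1) + e2 * (A + B + 1 - A * B)) -
        (ρ - e1) * ((A * B + 1 + A - B) * ρ) =
        (ρ - e1 - A * e2) * (B * (ρ - e1 + e2) - (ρ - e1 - e2)) := by
      linear_combination (-(A * (B + 1))) * h
    nlinarith [mul_nonneg P1 P2]
  · apply le_of_mul_le_mul_left _ hξ
    nlinarith [mul_nonneg P1 P3]
  · linarith

/-- one boundary arc in the first quadrant, in coordinates -/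
structure Q {E : Type*} [PseudoMetricSpace E] (γ : ℝ → E) (x y : ℝ → ℝ) (a b p q A B : ℝ) :
    Prop where
  hab : a < b
  hd : ∀ s t, dist (γ s) (γ t) ^ 2 = (x t - x s) ^ 2 + (y t - y s) ^ 2
  cx : ContinuousOn x (Icc a b)
  cy : ContinuousOn y (Icc a b)
  xa : x a = p
  ya : y a = 0
  xb : x b = 0
  yb : y b = q
  hp : 0 < p
  hq : 0 < q
  hA : 0 < A
  hB : 0 < B
  x0 : ∀ t ∈ Icc a b, 0 ≤ x t
  y0 : ∀ t ∈ Icc a b, 0 ≤ y t
  inj : ∀ s ∈ Icc a b, ∀ t ∈ Icc a b, x s = x t → y s = y t → s = t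
  sup : ∀ t ∈ Icc a b, ∃ n1 n2 : ℝ, 0 < n1 * x t + n2 * y t ∧
    ∀ u ∈ Icc a b, n1 * (x u - x t) + n2 * (y u - y t) ≤ 0
  sa : ∀ t ∈ Icc a b, 2 * A * (x t - p) + (A ^ 2 - 1) * y t ≤ 0
  sb : ∀ t ∈ Icc a b, 2 * B * (y t - q) - (B ^ 2 - 1) * x t ≤ 0

variable {E : Type*} [PseudoMetricSpace E] {γ : ℝ → E} {x y : ℝ → ℝ} {a b p q A B : ℝ}

lemma Q.pos (h : Q γ x y a b p q A B) {t : ℝ} (ht : t ∈ Icc a b) : 0 < x t + y t := by
  obtain ⟨n1, n2, h1, -⟩ := h.sup t ht
  have hx := h.x0 t ht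
  have hy := h.y0 t ht
  by_contra hc
  have e1 : x t = 0 := by linarith
  have e2 : y t = 0 := by linarith
  simp [e1, e2] at h1

lemma Q.ray (h : Q γ x y a b p q A B) {s t : ℝ} (hs : s ∈ Icc a b) (ht : t ∈ Icc a b)
    (e : x s * y t = y s * x t) : s = t := by
  have key : ∀ {s t : ℝ}, s ∈ Icc a b → t ∈ Icc a b → x s * y t = y s * x t →
      x t + y t ≤ x s + y s := by
    intro s t hs ht e
    obtain ⟨n1, n2, h1, h2⟩ := h.sup s hs
    have h3 := mul_nonpos_of_nonneg_of_nonpos (h.pos hs).le (h2 t ht)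
    have e2 : (x s + y s) * (n1 * (x t - x s) + n2 * (y t - y s)) =
        (n1 * x s + n2 * y s) * ((x t + y t) - (x s + y s)) := by
      linear_combination (n2 - n1) * e
    rw [e2] at h3
    by_contra hc
    push Not at hc
    have := mul_pos h1 (sub_pos.2 hc)
    linarith
  have e1 := le_antisymm (key hs ht e) (key ht hs (by linarith))
  have hp := h.pos hs
  apply h.inj s hs t ht
  · apply mul_left_cancel₀ hp.ne'
    linear_combination (-(x s)) * e1 + e
  · apply mul_left_cancel₀ hp.ne'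
    linear_combination (-(y s)) * e1 - e

lemma Q.det (h : Q γ x y a b p q A B) {s t : ℝ} (hs : s ∈ Icc a b) (ht : t ∈ Icc a b)
    (hst : s ≤ t) : y s * x t ≤ x s * y t := by
  have hm : StrictMonoOn (fun t => y t / (x t + y t)) (Icc a b) := by
    apply ContinuousOn.strictMonoOn_of_injOn_Icc h.hab.le
    · simp only [h.ya, h.xb, h.yb]
      have := h.hq
      rw [zero_div]; positivity
    · exact h.cy.div (h.cx.add h.cy) fun t ht => (h.pos ht).ne'
    · intro s hs t ht e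
      simp only at e
      rw [div_eq_div_iff (h.pos hs).ne' (h.pos ht).ne'] at e
      exact h.ray hs ht (by linarith)
  have := hm.monotoneOn hs ht hst
  rw [div_le_div_iff₀ (h.pos hs) (h.pos ht)] at this
  linarith

lemma Q.cvx (h : Q γ x y a b p q A B) {u s t : ℝ} (hu : u ∈ Icc a b) (hs : s ∈ Icc a b)
    (ht : t ∈ Icc a b) (hus : u ≤ s) (hst : s ≤ t) :
    (y s - y u) * (x t - x s) ≤ (x s - x u) * (y t - y s) := by
  obtain ⟨n1, n2, h1, h2⟩ := h.sup s hs
  have k1 := mul_nonneg (neg_nonneg.2 (h2 t ht)) (sub_nonneg.2 (h.det hu hs hus))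
  have k2 := mul_nonneg (neg_nonneg.2 (h2 u hu)) (sub_nonneg.2 (h.det hs ht hst))
  apply le_of_mul_le_mul_left _ h1
  nlinarith

lemma Q.inc (h : Q γ x y a b p q A B) {s t : ℝ} (hs : s ∈ Icc a b) (ht : t ∈ Icc a b)
    (hst : s ≤ t) :
    (0 ≤ y t - y s → 2 * A * (x t - x s) + (A ^ 2 - 1) * (y t - y s) ≤ 0) ∧
    (x t - x s ≤ 0 → 0 ≤ 2 * B * (y t - y s) - (B ^ 2 - 1) * (x t - x s)) ∧
    (0 < x t - x s → 0 ≤ y t - y s) := by
  have ha : a ∈ Icc a b := ⟨le_rfl, h.hab.le⟩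
  have hb : b ∈ Icc a b := ⟨h.hab.le, le_rfl⟩
  refine ⟨fun h2 => ?_, fun h1 => ?_, fun h1 => ?_⟩
  · rcases (h.y0 s hs).eq_or_lt with h0 | h0
    · have : s = a := h.ray hs ha (by rw [h.ya, ← h0]; ring)
      have k := h.sa t ht
      rw [this, h.xa, h.ya]; linarith
    · have k := h.cvx ha hs ht hs.1 hst
      rw [h.xa, h.ya] at k
      have k2 := mul_nonneg h2 (neg_nonneg.2 (h.sa s hs))
      have k3 := mul_le_mul_of_nonneg_left k h.hA.le
      apply le_of_mul_le_mul_left _ h0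
      nlinarith
  · rcases (h.x0 t ht).eq_or_lt with h0 | h0
    · have : t = b := h.ray ht hb (by rw [h.xb, ← h0]; ring)
      have k := h.sb s hs
      rw [this, h.xb, h.yb]; linarith
    · have k := h.cvx hs ht hb hst ht.2
      rw [h.xb, h.yb] at k
      have k2 := mul_nonneg (neg_nonneg.2 h1) (neg_nonneg.2 (h.sb t ht))
      have k3 := mul_le_mul_of_nonneg_left k h.hB.le
      apply le_of_mul_le_mul_left _ h0
      nlinarith
  · by_contra hc
    push Not at hc
    have k := h.det hs ht hst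
    have hx := h.x0 s hs
    have hy := h.y0 s hs
    have hp := h.pos hs
    have k1 := mul_nonneg hx (neg_pos.2 hc).le
    have k2 := mul_nonneg hy h1.le
    rcases hx.eq_or_lt with h0 | h0
    · have : 0 < y s := by linarith
      nlinarith [mul_pos this h1]
    · nlinarith [mul_pos h0 (neg_pos.2 hc)]

theorem Q.arc (h : Q γ x y a b p q A B) {l : ℝ} (hl : 0 ≤ l)
    (hv : eVariationOn γ (Icc a b) = ENNReal.ofReal l) : UngA.Arc l p q A B := by
  have ha : a ∈ Icc a b := ⟨le_rfl, h.hab.le⟩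
  have hb : b ∈ Icc a b := ⟨h.hab.le, le_rfl⟩
  have I := fun s (hs : s ∈ Icc a b) t (ht : t ∈ Icc a b) (hst : s ≤ t) =>
    incr h.hA h.hB dist_nonneg (h.hd s t) (h.inc hs ht hst).1 (h.inc hs ht hst).2.1
      (h.inc hs ht hst).2.2
  have J := var_le (φ := fun t => -x t * (A * B + A + B - 1) + y t * (A + B + 1 - A * B))
    (μ := A * B + 1 + A - B) h.hab.le hl hv fun s hs t ht hst => by
      have := (I s hs t ht hst).1; linarith
  have Jf := var_le (φ := fun t => -x t * (A + 1) + y t * (1 - A))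
    (μ := A - 1) h.hab.le hl hv fun s hs t ht hst => by
      have := (I s hs t ht hst).2.1; linarith
  have Jg := var_le (φ := fun t => -x t * (B - 1) + y t * (B + 1))
    (μ := 1 - B) h.hab.le hl hv fun s hs t ht hst => by
      have := (I s hs t ht hst).2.2; linarith
  have c := chord_le h.hab.le hl hv
  have c2 := pow_le_pow_left₀ dist_nonneg c 2
  have sa := h.sa b hb
  have sb := h.sb a ha
  rw [h.hd] at c2
  simp only [h.xa, h.ya, h.xb, h.yb] at J Jf Jg c2 sa sb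
  exact ⟨h.hp, h.hq, h.hA, h.hB, hl, by linarith, by linarith, by linarith, by linarith,
    by linarith, by linarith⟩

theorem Q.corner (h : Q γ x y a b p q 1 1)
    (hv : eVariationOn γ (Icc a b) = ENNReal.ofReal (p + q)) :
    ∃ t ∈ Icc a b, x t = p ∧ y t = q := by
  have ha : a ∈ Icc a b := ⟨le_rfl, h.hab.le⟩
  have hb : b ∈ Icc a b := ⟨h.hab.le, le_rfl⟩
  have hp := h.hp
  have hq := h.hq
  have mono : ∀ s ∈ Icc a b, ∀ t ∈ Icc a b, s ≤ t → x t - x s ≤ 0 ∧ 0 ≤ y t - y s := by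
    intro s hs t ht hst
    obtain ⟨k1, k2, k3⟩ := h.inc hs ht hst
    have : 0 ≤ y t - y s := by
      rcases le_or_gt (x t - x s) 0 with h1 | h1
      · have := k2 h1; linarith
      · exact k3 h1
    exact ⟨by have := k1 this; linarith, this⟩
  obtain ⟨t, ht, e⟩ : ∃ t ∈ Icc a b, p * y t - q * x t = 0 := by
    have hc : ContinuousOn (fun t => p * y t - q * x t) (Icc a b) :=
      (h.cy.const_smul p).sub (h.cx.const_smul q)
    apply intermediate_value_Icc h.hab.le hc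
    simp only [h.xa, h.ya, h.xb, h.yb]
    have := mul_pos hp hq
    constructor <;> nlinarith
  have xp : x t ≤ p := by have := (mono a ha t ht ht.1).1; rw [h.xa] at this; linarith
  rcases xp.eq_or_lt with h0 | h0
  · refine ⟨t, ht, h0, ?_⟩
    rw [h0] at e
    apply mul_left_cancel₀ hp.ne'
    linarith
  exfalso
  have yq : y t < q := by
    apply lt_of_mul_lt_mul_left _ hp.le
    nlinarith [mul_lt_mul_of_pos_left h0 hq]
  have y0 := h.y0 t ht
  have x0 := h.x0 t ht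
  obtain ⟨κ, hκ⟩ : ∃ κ, κ = y t / (p - x t + y t) := ⟨_, rfl⟩
  have hden : 0 < p - x t + y t := by linarith
  have κ0 : 0 ≤ κ := by rw [hκ]; positivity
  have κ1 : κ < 1 := by rw [hκ, div_lt_one hden]; linarith
  have κe : κ * (p - x t + y t) = y t := by rw [hκ]; field_simp
  have v1 := evar_le (γ := γ) (φ := fun t => y t - x t) ht.1 fun s hs u hu hsu => by
    obtain ⟨m1, m2⟩ := mono s ⟨hs.1, hs.2.trans ht.2⟩ u ⟨hu.1, hu.2.trans ht.2⟩ hsu
    refine (abs_le_of_sq_le_sq' ?_ (by linarith)).2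
    rw [h.hd]
    nlinarith [mul_nonneg (neg_nonneg.2 m1) m2]
  have v2 := evar_le (γ := γ) (φ := fun t => κ * y t - x t) ht.2 fun s hs u hu hsu => by
    have hs' : s ∈ Icc a b := ⟨ht.1.trans hs.1, hs.2⟩
    have hu' : u ∈ Icc a b := ⟨ht.1.trans hu.1, hu.2⟩
    obtain ⟨m1, m2⟩ := mono s hs' u hu' hsu
    obtain ⟨m3, m4⟩ := mono t ht s hs' hs.1
    have c1 := h.cvx ha ht hs' ht.1 hs.1
    have c2 := h.cvx ha hs' hu' hs'.1 hsu
    rw [h.xa, h.ya] at c1 c2
    have w1 : 0 < p - x s := by linarith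
    have sl : (p - x t) * (y u - y s) ≤ y t * (x s - x u) := by
      apply le_of_mul_le_mul_left _ w1
      have a1 := mul_le_mul_of_nonneg_left c1 (neg_nonneg.2 m1)
      have a2 := mul_le_mul_of_nonneg_left c2 (sub_pos.2 h0).le
      nlinarith
    have sl2 : (1 - κ) * (y u - y s) ≤ κ * (x s - x u) := by
      apply le_of_mul_le_mul_left _ hden
      have b1 : (p - x t + y t) * ((1 - κ) * (y u - y s)) = (p - x t) * (y u - y s) := by
        linear_combination (-(y u - y s)) * κe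
      have b2 : (p - x t + y t) * (κ * (x s - x u)) = y t * (x s - x u) := by
        linear_combination (x s - x u) * κe
      rw [b1, b2]; exact sl
    have m5 := mul_nonneg κ0 m2
    refine (abs_le_of_sq_le_sq' ?_ (by linarith)).2
    rw [h.hd]
    have b3 := mul_le_mul_of_nonneg_left sl2 m2
    have b4 := mul_nonneg (mul_nonneg m2 m2) (mul_nonneg (sub_pos.2 κ1).le (sub_pos.2 κ1).le)
    nlinarith
  have sp := eVariationOn.Icc_add_Icc γ (s := univ) ht.1 ht.2 (mem_univ t)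
  simp only [univ_inter] at sp
  rw [← sp] at hv
  have := add_le_add v1 v2
  simp only [h.xa, h.ya, h.xb, h.yb] at this
  have m6 := mul_nonneg κ0 (sub_pos.2 yq).le
  rw [hv, ← ENNReal.ofReal_add (by linarith) (by linarith),
    ENNReal.ofReal_le_ofReal_iff (by linarith)] at this
  nlinarith [mul_pos (sub_pos.2 κ1) (sub_pos.2 yq)]

end Pool.Agent.H29.UngB
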