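import Mathlib
import Pool.Agent.H29.UngB

namespace Pool.Agent.H29.UngC
open Set

abbrev E := EuclideanSpace ℝ (Fin 2)

/-- orthonormal coordinates `X, Y` with origin `O` -/
structure Fr (O e1 e2 : E) (X Y : E → ℝ) : Prop where
  dec : ∀ w, w = O + X w • e1 + Y w • e2
  cX : Continuous X
  cY : Continuous Y
  hd : ∀ w z, dist w z ^ 2 = (X z - X w) ^ 2 + (Y z - Y w) ^ 2
  cx : ∀ u v : ℝ, X (O + u • e1 + v • e2) = u
  cy : ∀ u v : ℝ, Y (O + u • e1 + v • e2) = v
  n1 : e1 ≠ 0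
  n2 : e2 ≠ 0
  orth : inner ℝ e1 e2 = 0

variable {O e1 e2 : E} {X Y : E → ℝ} {F : Set E}

lemma Fr.rot (h : Fr O e1 e2 X Y) : Fr O e2 (-e1) Y (fun w => -X w) where
  dec w := by
    conv_lhs => rw [h.dec w]
    module
  cX := h.cY
  cY := h.cX.neg
  hd w z := by rw [h.hd]; ring
  cx u v := by
    have : O + u • e2 + v • -e1 = O + (-v) • e1 + u • e2 := by module
    rw [this, h.cy]
  cy u v := by
    have : O + u • e2 + v • -e1 = O + (-v) • e1 + u • e2 := by module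
    rw [this, h.cx, neg_neg]
  n1 := h.n2
  n2 := neg_ne_zero.2 h.n1
  orth := by rw [inner_neg_right, real_inner_comm, h.orth, neg_zero]

lemma Fr.ext (h : Fr O e1 e2 X Y) {w z : E} (hx : X w = X z) (hy : Y w = Y z) : w = z := by
  rw [h.dec w, hx, hy, ← h.dec z]

lemma Fr.XO (h : Fr O e1 e2 X Y) : X O = 0 := by simpa using h.cx 0 0
lemma Fr.YO (h : Fr O e1 e2 X Y) : Y O = 0 := by simpa using h.cy 0 0

lemma Fr.comb (h : Fr O e1 e2 X Y) (w z : E) {a b : ℝ} (hab : a + b = 1) :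
    X (a • w + b • z) = a * X w + b * X z ∧ Y (a • w + b • z) = a * Y w + b * Y z := by
  have : a • w + b • z = O + (a * X w + b * X z) • e1 + (a * Y w + b * Y z) • e2 := by
    conv_lhs => rw [h.dec w, h.dec z]
    have hb : b = 1 - a := by linarith
    subst hb
    module
  rw [this, h.cx, h.cy]
  exact ⟨rfl, rfl⟩

lemma exists_frame (a b : E) {e1 e2 : E} (h1 : inner ℝ e1 e1 = 1) (h2 : inner ℝ e2 e2 = 1)
    (h12 : inner ℝ e1 e2 = 0) :
    Fr (a - (inner ℝ (a - b) e1 : ℝ) • e1) e1 e2 (fun w => inner ℝ (w - b) e1)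
      (fun w => inner ℝ (w - a) e2) := by
  have h21 : inner ℝ e2 e1 = 0 := by rw [real_inner_comm, h12]
  have key : ∀ v : E, v = (inner ℝ v e1 : ℝ) • e1 + (inner ℝ v e2 : ℝ) • e2 := by
    intro v
    simp only [PiLp.inner_apply, Fin.sum_univ_two, RCLike.inner_apply, conj_trivial] at h1 h2 h12
    have d1 : e2 0 = -(e1 0 * e2 1 - e1 1 * e2 0) * e1 1 := by
      linear_combination (-(e2 0)) * h1 + e1 0 * h12
    have d2 : e2 1 = (e1 0 * e2 1 - e1 1 * e2 0) * e1 0 := by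
      linear_combination (-(e2 1)) * h1 + e1 1 * h12
    have d3 : (e1 0 * e2 1 - e1 1 * e2 0) ^ 2 = 1 := by
      linear_combination (e2 0 * e2 0 + e2 1 * e2 1) * h1 + h2 -
        (e2 0 * e1 0 + e2 1 * e1 1) * h12
    obtain ⟨δ, hδ⟩ : ∃ δ, δ = e1 0 * e2 1 - e1 1 * e2 0 := ⟨_, rfl⟩
    rw [← hδ] at d1 d2 d3
    ext i
    fin_cases i
    · simp only [PiLp.inner_apply, Fin.sum_univ_two, RCLike.inner_apply, conj_trivial,
        PiLp.add_apply, PiLp.smul_apply, smul_eq_mul, Fin.zero_eta]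
      rw [d1, d2]
      linear_combination (-(v 0)) * h1 + (-(v 0) * e1 1 ^ 2 + v 1 * e1 0 * e1 1) * d3
    · simp only [PiLp.inner_apply, Fin.sum_univ_two, RCLike.inner_apply, conj_trivial,
        PiLp.add_apply, PiLp.smul_apply, smul_eq_mul, Fin.mk_one]
      rw [d1, d2]
      linear_combination (-(v 1)) * h1 + (-(v 1) * e1 0 ^ 2 + v 0 * e1 0 * e1 1) * d3
  refine ⟨fun w => ?_, by fun_prop, by fun_prop, fun w z => ?_, fun u v => ?_, fun u v => ?_,
    ?_, ?_, h12⟩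
  · have k := key (w - a)
    have : inner ℝ (w - a) e1 = inner ℝ (w - b) e1 - inner ℝ (a - b) e1 := by
      rw [← inner_sub_left]; congr 1; abel
    rw [this] at k
    calc w = a + (w - a) := by abel
      _ = _ := by conv_lhs => rw [k]
                  module
  · have k := key (z - w)
    have a1 : inner ℝ (z - b) e1 - inner ℝ (w - b) e1 = inner ℝ (z - w) e1 := by
      rw [← inner_sub_left]; congr 1; abel
    have a2 : inner ℝ (z - a) e2 - inner ℝ (w - a) e2 = inner ℝ (z - w) e2 := by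
      rw [← inner_sub_left]; congr 1; abel
    rw [a1, a2, dist_comm, dist_eq_norm, ← real_inner_self_eq_norm_sq]
    conv_lhs => enter [3]; rw [k]
    rw [inner_add_right, real_inner_smul_right, real_inner_smul_right]
    ring
  · have : a - (inner ℝ (a - b) e1 : ℝ) • e1 + u • e1 + v • e2 - b =
        (a - b) + (u - inner ℝ (a - b) e1) • e1 + v • e2 := by module
    simp only [this, inner_add_left, real_inner_smul_left, h1, h21]
    ring
  · have : a - (inner ℝ (a - b) e1 : ℝ) • e1 + u • e1 + v • e2 - a =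
        (u - inner ℝ (a - b) e1) • e1 + v • e2 := by module
    simp only [this, inner_add_left, real_inner_smul_left, h2, h12]
    ring
  · rintro rfl; simp at h1
  · rintro rfl; simp at h2

lemma Fr.sup (h : Fr O e1 e2 X Y) (hv : Convex ℝ F) {z w : E} (hz : z ∈ interior F)
    (hw : w ∈ frontier F) : ∃ n1 n2 : ℝ, 0 < n1 * (X w - X z) + n2 * (Y w - Y z) ∧
      ∀ u ∈ F, n1 * (X u - X w) + n2 * (Y u - Y w) ≤ 0 := by
  obtain ⟨f, hf⟩ := geometric_hahn_banach_open_point hv.interior isOpen_interior hw.2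
  have e : ∀ u, f u = f O + X u * f e1 + Y u * f e2 := fun u => by
    conv_lhs => rw [h.dec u]
    simp
  refine ⟨f e1, f e2, ?_, fun u hu => ?_⟩
  · have := hf z hz
    rw [e z, e w] at this
    linarith
  · have h1 : u ∈ closure (interior F) := by
      rw [hv.closure_interior_eq_closure_of_nonempty_interior ⟨z, hz⟩]
      exact subset_closure hu
    have h2 : f u ≤ f w :=
      closure_minimal (t := {u | f u ≤ f w}) (fun a ha => (hf a ha).le)
        (isClosed_le f.continuous continuous_const) h1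
    rw [e u, e w] at h2
    linarith

lemma Fr.slope (h : Fr O e1 e2 X Y) (hv : Convex ℝ F) (hO : O ∈ interior F) {w : E}
    (hw : w ∈ frontier F) (hx : 0 < X w) (hy : Y w = 0) :
    ∃ A : ℝ, 0 < A ∧ ∀ u ∈ F, 2 * A * (X u - X w) + (A ^ 2 - 1) * Y u ≤ 0 := by
  obtain ⟨n1, n2, h1, h2⟩ := h.sup hv hO hw
  rw [h.XO, h.YO, hy] at h1
  have n0 : 0 < n1 := (pos_iff_pos_of_mul_pos (a := n1) (b := X w) (by linarith)).2 hx
  obtain ⟨ρ, hρ⟩ : ∃ ρ, ρ = Real.sqrt (n1 ^ 2 + n2 ^ 2) := ⟨_, rfl⟩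
  have ρ2 : ρ ^ 2 = n1 ^ 2 + n2 ^ 2 := by rw [hρ, Real.sq_sqrt (by positivity)]
  have ρ0 : 0 ≤ ρ := by rw [hρ]; positivity
  have ρ1 : 0 < n2 + ρ := by
    by_contra hc
    push Not at hc
    have : ρ ^ 2 ≤ (-n2) ^ 2 := pow_le_pow_left₀ ρ0 (by linarith) 2
    nlinarith [mul_pos n0 n0]
  refine ⟨(n2 + ρ) / n1, div_pos ρ1 n0, fun u hu => ?_⟩
  have k := h2 u hu
  rw [hy] at k
  have e : 2 * ((n2 + ρ) / n1) * (X u - X w) + (((n2 + ρ) / n1) ^ 2 - 1) * Y u =
      2 * (n2 + ρ) / n1 ^ 2 * (n1 * (X u - X w) + n2 * (Y u - 0)) := by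
    field_simp
    linear_combination (Y u) * ρ2
  rw [e]
  exact mul_nonpos_of_nonneg_of_nonpos (by positivity) k

lemma Fr.neg (h : Fr O e1 e2 X Y) (hc : IsCompact F) {z : E} (hz : z ∈ interior F) :
    ∃ w ∈ frontier F, Y w < Y z := by
  have down : ∀ u ∈ interior F, ∃ v ∈ F, Y v < Y u := by
    intro u hu
    have hc : Continuous fun t : ℝ => O + X u • e1 + t • e2 := by fun_prop
    have h1 : (fun t : ℝ => O + X u • e1 + t • e2) ⁻¹' interior F ∈ nhds (Y u) :=
      (isOpen_interior.preimage hc).mem_nhds (by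
        simp only [mem_preimage]; rw [← h.dec u]; exact hu)
    obtain ⟨ε, hε, h2⟩ := Metric.mem_nhds_iff.1 h1
    have h3 : Y u - ε / 2 ∈ Metric.ball (Y u) ε := by
      rw [Metric.mem_ball, Real.dist_eq, abs_lt]; constructor <;> linarith
    exact ⟨_, interior_subset (h2 h3), by rw [h.cy]; linarith⟩
  obtain ⟨w, hw, hmin⟩ := hc.exists_isMinOn ⟨z, interior_subset hz⟩ h.cY.continuousOn
  obtain ⟨v, hv, hv2⟩ := down z hz
  refine ⟨w, ⟨subset_closure hw, fun hi => ?_⟩, (hmin hv).trans_lt hv2⟩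
  obtain ⟨v', hv', hv2'⟩ := down w hi
  exact absurd (hmin hv') (not_le.2 hv2')

end Pool.Agent.H29.UngC
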