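import Mathlib
import Pool.Agent.H29.UngC

namespace Pool.Agent.H29.UngD
open Set UngC

structure Loop (F : Set E) (γ : ℝ → E) (T : ℝ) : Prop where
  cpt : IsCompact F
  cvx : Convex ℝ F
  hT : 0 < T
  cont : Continuous γ
  per : ∀ s t, γ s = γ t ↔ ∃ k : ℤ, t = s + k * T
  ran : range γ = frontier F

variable {O e1 e2 : E} {X Y : E → ℝ} {F : Set E} {γ : ℝ → E} {T : ℝ}

lemma Loop.shift (h : Loop F γ T) (t : ℝ) : γ (t + T) = γ t :=
  ((h.per t (t + T)).2 ⟨1, by simp⟩).symm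

lemma Loop.inj (h : Loop F γ T) {s t : ℝ} (e : γ s = γ t) (h1 : s - t < T) (h2 : t - s < T) :
    s = t := by
  obtain ⟨k, hk⟩ := (h.per s t).1 e
  have hT := h.hT
  have a1 : (k : ℝ) < 1 := by
    apply lt_of_mul_lt_mul_right _ hT.le; linarith
  have a2 : (-1 : ℝ) < k := by
    apply lt_of_mul_lt_mul_right _ hT.le; linarith
  have a3 : k = 0 := by
    have : k < 1 := by exact_mod_cast a1
    have : -1 < k := by exact_mod_cast a2
    omega
  simp [hk, a3]

lemma Loop.fr (h : Loop F γ T) (t : ℝ) : γ t ∈ frontier F := h.ran ▸ mem_range_self t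

lemma Loop.mem (h : Loop F γ T) (t : ℝ) : γ t ∈ F := h.cpt.isClosed.frontier_subset (h.fr t)

lemma Loop.surj (h : Loop F γ T) (c : ℝ) {w : E} (hw : w ∈ frontier F) :
    ∃ t ∈ Ico c (c + T), γ t = w := by
  rw [← h.ran] at hw
  obtain ⟨s, rfl⟩ := hw
  obtain ⟨m, hm, -⟩ := existsUnique_add_zsmul_mem_Ico h.hT s c
  exact ⟨_, hm, ((h.per _ _).2 ⟨m, by simp⟩).symm⟩

lemma Loop.var_shift (h : Loop F γ T) (s t : ℝ) :
    eVariationOn γ (Icc (s + T) (t + T)) = eVariationOn γ (Icc s t) := by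
  have := eVariationOn.comp_eq_of_monotoneOn γ (t := Icc s t) (fun x => x + T)
    (fun _ _ _ _ hx => by simpa using hx)
  rw [image_add_const_Icc] at this
  rw [← this]
  congr 1
  funext x
  exact h.shift x

lemma Loop.straight (h : Loop F γ T) (fr : Fr O e1 e2 X Y) {s u l : ℝ} (hsu : s ≤ u)
    (hT : u - s < T) (hY : ∀ t ∈ Icc s u, Y (γ t) = 0) (hl : 0 ≤ l)
    (hv : eVariationOn γ (Icc s u) = ENNReal.ofReal l) : l ≤ dist (γ s) (γ u) := by
  have hd : ∀ a ∈ Icc s u, ∀ b ∈ Icc s u, dist (γ a) (γ b) = |X (γ b) - X (γ a)| := by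
    intro a ha b hb
    rw [← sq_eq_sq₀ dist_nonneg (abs_nonneg _), fr.hd, hY a ha, hY b hb, sq_abs]; ring
  have hi : InjOn (fun t => X (γ t)) (Icc s u) := fun a ha b hb e =>
    h.inj (fr.ext e (by rw [hY a ha, hY b hb])) (by linarith [ha.1, ha.2, hb.1, hb.2])
      (by linarith [ha.1, ha.2, hb.1, hb.2])
  rw [hd s ⟨le_rfl, hsu⟩ u ⟨hsu, le_rfl⟩]
  rcases ContinuousOn.strictMonoOn_of_injOn_Icc' hsu (fr.cX.comp h.cont).continuousOn hi with
    m | m
  · have := UngB.var_le (μ := 1) (φ := fun t => X (γ t)) hsu hl hv fun a ha b hb hab => by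
      have k : X (γ a) ≤ X (γ b) := m.monotoneOn ha hb hab
      rw [hd a ha b hb, abs_of_nonneg (sub_nonneg.2 k), one_mul]
    linarith [le_abs_self (X (γ u) - X (γ s))]
  · have := UngB.var_le (μ := 1) (φ := fun t => -X (γ t)) hsu hl hv fun a ha b hb hab => by
      have k : X (γ b) ≤ X (γ a) := m.antitoneOn ha hb hab
      rw [hd a ha b hb, abs_of_nonpos (sub_nonpos.2 k), one_mul]
      linarith
    linarith [neg_abs_le (X (γ u) - X (γ s))]

lemma sign_const {f : ℝ → ℝ} (hf : Continuous f) {a b : ℝ} (h0 : ∀ t ∈ Ioo a b, f t ≠ 0) :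
    (∀ t ∈ Ioo a b, 0 < f t) ∨ ∀ t ∈ Ioo a b, f t < 0 := by
  by_contra hc
  push Not at hc
  obtain ⟨⟨s, hs, h1⟩, t, ht, h2⟩ := hc
  obtain ⟨u, hu, e⟩ := isPreconnected_Ioo.intermediate_value hs ht hf.continuousOn ⟨h1, h2⟩
  exact h0 u hu e

lemma Loop.half (h : Loop F γ T) (fr : Fr O e1 e2 X Y) {t0 t1 t2 t3 l : ℝ} (h01 : t0 < t1)
    (h12 : t1 < t2) (h23 : t2 < t3) (h30 : t3 < t0 + T) (hl : 0 ≤ l)
    (v1 : eVariationOn γ (Icc t0 t1) = ENNReal.ofReal l)
    (v2 : eVariationOn γ (Icc t1 t2) = ENNReal.ofReal l)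
    (v3 : eVariationOn γ (Icc t2 t3) = ENNReal.ofReal l)
    (v4 : eVariationOn γ (Icc t3 (t0 + T)) = ENNReal.ofReal l)
    (ya : Y (γ t0) = 0) (yc : Y (γ t2) = 0) (hx : X (γ t2) < X (γ t0))
    (hy : Y (γ t3) < Y (γ t1)) :
    2 * l ≤ dist (γ t0) (γ t2) ∨
      ((∀ t ∈ Ioo t0 t2, 0 < Y (γ t)) ∧ ∀ t ∈ Ioo t2 (t0 + T), Y (γ t) < 0) := by
  by_cases hz : ∃ z ∈ interior F, Y z = 0
  · right
    obtain ⟨z, hz, yz⟩ := hz
    have ty : ∀ t, Y (γ t) = 0 → (∀ u, Y (γ u) = 0 → X (γ u) ≤ X (γ t)) ∨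
        ∀ u, Y (γ u) = 0 → X (γ t) ≤ X (γ u) := by
      intro t ht
      obtain ⟨n1, n2, k1, k2⟩ := fr.sup h.cvx hz (h.fr t)
      rw [ht, yz] at k1
      rcases lt_trichotomy n1 0 with n | n | n
      · right
        intro u hu
        have := k2 _ (h.mem u)
        rw [hu, ht] at this
        nlinarith
      · simp [n] at k1
      · left
        intro u hu
        have := k2 _ (h.mem u)
        rw [hu, ht] at this
        nlinarith
    have amax : ∀ u, Y (γ u) = 0 → X (γ u) ≤ X (γ t0) :=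
      (ty t0 ya).resolve_right fun k => absurd (k t2 yc) (not_le.2 hx)
    have cmin : ∀ u, Y (γ u) = 0 → X (γ t2) ≤ X (γ u) :=
      (ty t2 yc).resolve_left fun k => absurd (k t0 ya) (not_le.2 hx)
    have two : ∀ t, Y (γ t) = 0 → γ t = γ t0 ∨ γ t = γ t2 := by
      intro t ht
      rcases ty t ht with k | k
      · exact Or.inl (fr.ext (le_antisymm (amax t ht) (k t0 ya)) (by rw [ht, ya]))
      · exact Or.inr (fr.ext (le_antisymm (k t2 yc) (cmin t ht)) (by rw [ht, yc]))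
    have ne : ∀ t, t0 < t → t < t0 + T → t ≠ t2 → Y (γ t) ≠ 0 := by
      intro t a1 a2 a3 ht
      rcases two t ht with k | k
      · exact absurd (h.inj k (by linarith) (by linarith)) a1.ne'
      · exact a3 (h.inj k (by linarith) (by linarith))
    have cY : Continuous fun t => Y (γ t) := fr.cY.comp h.cont
    have s1 := sign_const cY (a := t0) (b := t2) fun t ht =>
      ne t ht.1 (by linarith [ht.2]) ht.2.ne
    have s2 := sign_const cY (a := t2) (b := t0 + T) fun t ht =>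
      ne t (by linarith [ht.1]) ht.2 ht.1.ne'
    have loc : ∀ w ∈ frontier F, Y w ≠ 0 →
        ∃ t, γ t = w ∧ (t ∈ Ioo t0 t2 ∨ t ∈ Ioo t2 (t0 + T)) := by
      intro w hw hw0
      obtain ⟨t, ht, rfl⟩ := h.surj t0 hw
      refine ⟨t, rfl, ?_⟩
      have a1 : t0 < t := lt_of_le_of_ne ht.1 (by rintro rfl; exact hw0 ya)
      rcases lt_trichotomy t t2 with k | k | k
      · exact Or.inl ⟨a1, k⟩
      · exact absurd (k ▸ yc) hw0
      · exact Or.inr ⟨k, ht.2⟩
    obtain ⟨w1, hw1, y1⟩ := fr.neg h.cpt hz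
    obtain ⟨w2, hw2, y2⟩ := fr.rot.rot.neg h.cpt hz
    simp only [yz, neg_zero] at y1 y2
    obtain ⟨u1, rfl, k1⟩ := loc w1 hw1 y1.ne
    obtain ⟨u2, rfl, k2⟩ := loc w2 hw2 (by linarith [y2] : 0 < Y w2).ne'
    rcases s1 with s1 | s1 <;> rcases s2 with s2 | s2
    · rcases k1 with k | k
      · linarith [s1 _ k]
      · linarith [s2 _ k]
    · exact ⟨s1, s2⟩
    · linarith [s1 t1 ⟨h01, h12⟩, s2 t3 ⟨h23, h30⟩]
    · rcases k2 with k | k
      · linarith [s1 _ k]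
      · linarith [s2 _ k]
  · left
    push Not at hz
    have sy : ∀ w ∈ segment ℝ (γ t0) (γ t2), Y w = 0 := by
      rintro w ⟨a, b, -, -, hab, rfl⟩
      rw [(fr.comb _ _ hab).2, ya, yc]; ring
    have sf : ∀ w ∈ segment ℝ (γ t0) (γ t2), w ∈ frontier F := fun w hw =>
      ⟨subset_closure (h.cvx.segment_subset (h.mem _) (h.mem _) hw), fun hi => hz w hi (sy w hw)⟩
    have alt : (∀ t ∈ Icc t0 t2, γ t ∈ segment ℝ (γ t0) (γ t2)) ∨
        ∀ t ∈ Icc t2 (t0 + T), γ t ∈ segment ℝ (γ t0) (γ t2) := by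
      by_contra hc
      push Not at hc
      obtain ⟨⟨u, hu, nu⟩, v, hv, nv⟩ := hc
      have u0 : t0 < u := lt_of_le_of_ne hu.1 (by rintro rfl; exact nu (left_mem_segment _ _ _))
      have u2 : u < t2 := lt_of_le_of_ne hu.2 (by rintro rfl; exact nu (right_mem_segment _ _ _))
      have v2 : t2 < v := lt_of_le_of_ne hv.1 (by rintro rfl; exact nv (right_mem_segment _ _ _))
      have v0 : v < t0 + T := lt_of_le_of_ne hv.2 (by
        rintro rfl; rw [h.shift] at nv; exact nv (left_mem_segment _ _ _))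
      obtain ⟨w, hw, ⟨a, ha, e1⟩, b, hb, e2⟩ := isPreconnected_closed_iff.1
        (convex_segment (𝕜 := ℝ) (γ t0) (γ t2)).isPreconnected (γ '' Icc u v)
        (γ '' Icc v (u + T)) (isCompact_Icc.image h.cont).isClosed
        (isCompact_Icc.image h.cont).isClosed
        (fun w hw => by
          obtain ⟨t, ht, rfl⟩ := h.surj u (sf w hw)
          rcases le_total t v with k | k
          · exact Or.inl ⟨t, ⟨ht.1, k⟩, rfl⟩
          · exact Or.inr ⟨t, ⟨k, ht.2.le⟩, rfl⟩)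
        ⟨γ t2, right_mem_segment _ _ _, t2, ⟨u2.le, v2.le⟩, rfl⟩
        ⟨γ t0, left_mem_segment _ _ _, t0 + T, ⟨v0.le, by linarith⟩, h.shift _⟩
      rcases hb.2.eq_or_lt with k | k
      · rw [k, h.shift] at e2
        exact nu (e2 ▸ hw)
      · have : a = b := h.inj (e1.trans e2.symm) (by linarith [ha.2, hb.1, h.hT])
          (by linarith [ha.1])
        have : a = v := le_antisymm ha.2 (this ▸ hb.1)
        rw [this] at e1
        exact nv (e1 ▸ hw)
    rcases alt with k | k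
    · have a1 := h.straight fr h01.le (by linarith)
        (fun t ht => sy _ (k t ⟨ht.1, by linarith [ht.2]⟩)) hl v1
      have a2 := h.straight fr h12.le (by linarith)
        (fun t ht => sy _ (k t ⟨by linarith [ht.1], ht.2⟩)) hl v2
      have a3 := dist_add_dist_of_mem_segment (k t1 ⟨h01.le, h12.le⟩)
      linarith
    · have a1 := h.straight fr h23.le (by linarith)
        (fun t ht => sy _ (k t ⟨ht.1, by linarith [ht.2]⟩)) hl v3
      have a2 := h.straight fr h30.le (by linarith)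
        (fun t ht => sy _ (k t ⟨by linarith [ht.1], ht.2⟩)) hl v4
      have a3 := dist_add_dist_of_mem_segment (k t3 ⟨h23.le, h30.le⟩)
      rw [h.shift] at a2
      rw [dist_comm] at a1 a2
      linarith

lemma Loop.q (h : Loop F γ T) (fr : Fr O e1 e2 X Y) (hO : O ∈ interior F) {a b A B : ℝ}
    (hab : a < b) (hT : b - a < T) (ya : Y (γ a) = 0) (xb : X (γ b) = 0) (hp : 0 < X (γ a))
    (hq : 0 < Y (γ b)) (x0 : ∀ t ∈ Icc a b, 0 ≤ X (γ t)) (y0 : ∀ t ∈ Icc a b, 0 ≤ Y (γ t))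
    (hA : 0 < A) (hB : 0 < B)
    (sa : ∀ u ∈ F, 2 * A * (X u - X (γ a)) + (A ^ 2 - 1) * Y u ≤ 0)
    (sb : ∀ u ∈ F, 2 * B * (Y u - Y (γ b)) + (B ^ 2 - 1) * -X u ≤ 0) :
    UngB.Q γ (fun t => X (γ t)) (fun t => Y (γ t)) a b (X (γ a)) (Y (γ b)) A B where
  hab := hab
  hd s t := fr.hd _ _
  cx := (fr.cX.comp h.cont).continuousOn
  cy := (fr.cY.comp h.cont).continuousOn
  xa := rfl
  ya := ya
  xb := xb
  yb := rfl
  hp := hp
  hq := hq
  hA := hA
  hB := hB
  x0 := x0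
  y0 := y0
  inj s hs t ht e1 e2 := h.inj (fr.ext e1 e2) (by linarith [hs.1, hs.2, ht.1, ht.2])
    (by linarith [hs.1, hs.2, ht.1, ht.2])
  sup t _ := by
    obtain ⟨n1, n2, k1, k2⟩ := fr.sup h.cvx hO (h.fr t)
    rw [fr.XO, fr.YO, sub_zero, sub_zero] at k1
    exact ⟨n1, n2, k1, fun u _ => k2 _ (h.mem u)⟩
  sa t _ := sa _ (h.mem t)
  sb t _ := by have := sb _ (h.mem t); linarith

lemma closedI {f : ℝ → ℝ} {a b : ℝ} (ha : f a = 0) (hb : f b = 0) (h : ∀ t ∈ Ioo a b, 0 < f t) :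
    ∀ t ∈ Icc a b, 0 ≤ f t := by
  intro t ht
  rcases ht.1.eq_or_lt with k | k
  · rw [← k, ha]
  rcases ht.2.eq_or_lt with k' | k'
  · rw [k', hb]
  exact (h t ⟨k, k'⟩).le

theorem Loop.framed (h : Loop F γ T) (fr : Fr O e1 e2 X Y) {t0 t1 t2 t3 l : ℝ} (h01 : t0 < t1)
    (h12 : t1 < t2) (h23 : t2 < t3) (h30 : t3 < t0 + T) (hl : 0 ≤ l)
    (v1 : eVariationOn γ (Icc t0 t1) = ENNReal.ofReal l)
    (v2 : eVariationOn γ (Icc t1 t2) = ENNReal.ofReal l)
    (v3 : eVariationOn γ (Icc t2 t3) = ENNReal.ofReal l)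
    (v4 : eVariationOn γ (Icc t3 (t0 + T)) = ENNReal.ofReal l)
    (ya : Y (γ t0) = 0) (yc : Y (γ t2) = 0) (xb : X (γ t1) = 0) (xd : X (γ t3) = 0)
    (hx : X (γ t2) < X (γ t0)) (hy : Y (γ t3) < Y (γ t1)) :
    2 * l ≤ dist (γ t0) (γ t2) + dist (γ t1) (γ t3) ∧
      (2 * l = dist (γ t0) (γ t2) + dist (γ t1) (γ t3) →
        ∃ o u v : E, u ≠ 0 ∧ v ≠ 0 ∧ inner ℝ u v = 0 ∧
          F = {z | ∃ s ∈ Icc (0 : ℝ) 1, ∃ t ∈ Icc (0 : ℝ) 1, z = o + s • u + t • v}) := by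
  have d1 : dist (γ t0) (γ t2) = X (γ t0) - X (γ t2) := by
    rw [← sq_eq_sq₀ dist_nonneg (by linarith), fr.hd, ya, yc]; ring
  have d2 : dist (γ t1) (γ t3) = Y (γ t1) - Y (γ t3) := by
    rw [← sq_eq_sq₀ dist_nonneg (by linarith), fr.hd, xb, xd]; ring
  have sh := h.shift
  rcases h.half fr h01 h12 h23 h30 hl v1 v2 v3 v4 ya yc hx hy with k | ⟨s1, s2⟩
  · exact ⟨by linarith, fun e => by linarith⟩
  rcases h.half fr.rot h12 h23 h30 (by linarith : t0 + T < t1 + T) hl v2 v3 v4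
    (by rw [h.var_shift, v1]) (by simp [xb]) (by simp [xd]) hy
    (by simp only [sh]; linarith) with k | ⟨s3, s4⟩
  · exact ⟨by linarith, fun e => by linarith⟩
  have hp : 0 < X (γ t0) := by
    have := s4 (t0 + T) ⟨h30, by linarith⟩
    simp only [sh] at this
    linarith
  have hq : 0 < Y (γ t1) := s1 t1 ⟨h01, h12⟩
  have hr : 0 < -X (γ t2) := s3 t2 ⟨h12, h23⟩
  have hs : 0 < -Y (γ t3) := neg_pos.2 (s2 t3 ⟨h23, h30⟩)
  have hO : O ∈ interior F := by
    have hF : O ∈ F := by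
      have hd : 0 < X (γ t0) - X (γ t2) := by linarith
      have hab : -X (γ t2) / (X (γ t0) - X (γ t2)) + X (γ t0) / (X (γ t0) - X (γ t2)) = 1 := by
        field_simp; ring
      have := h.cvx (h.mem t0) (h.mem t2) (div_pos hr hd).le (div_pos hp hd).le hab
      convert this
      apply fr.ext
      · rw [(fr.comb _ _ hab).1, fr.XO]; ring
      · rw [(fr.comb _ _ hab).2, fr.YO, ya, yc]; ring
    by_contra hi
    obtain ⟨t, ht, e⟩ := h.surj t0 (w := O) ⟨subset_closure hF, hi⟩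
    have ex : X (γ t) = 0 := by rw [e, fr.XO]
    have ey : Y (γ t) = 0 := by rw [e, fr.YO]
    rcases ht.1.eq_or_lt with k | k
    · rw [← k] at ex; linarith
    rcases lt_trichotomy t t2 with k' | k' | k'
    · linarith [s1 t ⟨k, k'⟩]
    · rw [k'] at ex; linarith
    · linarith [s2 t ⟨k', ht.2⟩]
  have c1 := closedI (f := fun t => Y (γ t)) ya yc s1
  have c2 := closedI (f := fun t => -Y (γ t)) (a := t2) (b := t0 + T) (by simp [yc])
    (by simp [sh, ya]) fun t ht => neg_pos.2 (s2 t ht)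
  have c3 := closedI (f := fun t => -X (γ t)) (by simp [xb]) (by simp [xd]) s3
  have c4 := closedI (f := fun t => X (γ t)) (a := t3) (b := t1 + T) xd
    (by simp [sh, xb]) fun t ht => by have := s4 t ht; linarith
  obtain ⟨A, hA, sA⟩ := fr.slope h.cvx hO (h.fr t0) hp ya
  obtain ⟨B, hB, sB⟩ := fr.rot.slope h.cvx hO (h.fr t1) hq (by simp [xb])
  obtain ⟨C, hC, sC⟩ := fr.rot.rot.slope h.cvx hO (h.fr t2) hr (by simp [yc])
  obtain ⟨D, hD, sD⟩ := fr.rot.rot.rot.slope h.cvx hO (h.fr t3) hs (by simp [xd])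
  have q1 := h.q fr hO h01 (by linarith) ya xb hp hq
    (fun t ht => by
      have := c4 (t + T) ⟨by linarith [ht.1], by linarith [ht.2]⟩
      simpa only [sh] using this)
    (fun t ht => c1 t ⟨ht.1, by linarith [ht.2]⟩) hA hB sA sB
  have q2 := h.q fr.rot hO h12 (by linarith) (by simp [xb]) yc hq hr
    (fun t ht => c1 t ⟨by linarith [ht.1], ht.2⟩)
    (fun t ht => c3 t ⟨ht.1, by linarith [ht.2]⟩) hB hC sB sC
  have q3 := h.q fr.rot.rot hO h23 (by linarith) (by simp [yc]) (by simp [xd]) hr hs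
    (fun t ht => c3 t ⟨by linarith [ht.1], ht.2⟩)
    (fun t ht => c2 t ⟨ht.1, by linarith [ht.2]⟩) hC hD sC sD
  have q4 := h.q fr.rot.rot.rot hO h30 (by linarith) (by simp [xd]) (by simp [sh, ya]) hs
    (by simpa [sh] using hp)
    (fun t ht => c2 t ⟨by linarith [ht.1], ht.2⟩)
    (fun t ht => by simpa using c4 t ⟨ht.1, by linarith [ht.2]⟩) hD hA sD
    (by simpa only [sh, neg_neg] using sA)
  simp only [sh t0, neg_neg] at q4
  obtain ⟨p, ep⟩ : ∃ p, p = X (γ t0) := ⟨_, rfl⟩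
  obtain ⟨q, eq⟩ : ∃ p, p = Y (γ t1) := ⟨_, rfl⟩
  obtain ⟨r, er⟩ : ∃ p, p = -X (γ t2) := ⟨_, rfl⟩
  obtain ⟨s, es⟩ : ∃ p, p = -Y (γ t3) := ⟨_, rfl⟩
  have d3 : dist (γ t0) (γ t2) + dist (γ t1) (γ t3) = p + q + r + s := by
    rw [d1, d2, ep, eq, er, es]; ring
  simp only [← ep, ← eq, ← er, ← es] at q1 q2 q3 q4 hp hq hr hs sA sB sC sD
  have a1 := q1.arc hl v1
  have a2 := q2.arc hl v2
  have a3 := q3.arc hl v3
  have a4 := q4.arc hl v4
  have M := UngA.main a1 a2 a3 a4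
  rw [d3]
  refine ⟨(abs_le_of_sq_le_sq' (by nlinarith [sq_nonneg (p - r), sq_nonneg (q - s)])
    (by linarith)).2, fun e => ?_⟩
  rw [← e] at M
  have pr : r = p := by nlinarith [sq_nonneg (p - r), sq_nonneg (q - s)]
  have qs : s = q := by nlinarith [sq_nonneg (p - r), sq_nonneg (q - s)]
  subst pr qs
  have el : l = r + s := by linarith
  have eA := UngA.eqA a1 a2 a3 a4 el
  have eB := UngA.eqA a2 a3 a4 a1 (by linarith)
  have eC := UngA.eqA a3 a4 a1 a2 el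
  have eD := UngA.eqA a4 a1 a2 a3 (by linarith)
  subst eA eB eC eD
  obtain ⟨u1, -, x1, y1⟩ := q1.corner (by rw [v1, el])
  obtain ⟨u2, -, y2, x2⟩ := q2.corner (by rw [v2, el, add_comm])
  obtain ⟨u3, -, x3, y3⟩ := q3.corner (by rw [v3, el])
  obtain ⟨u4, -, y4, x4⟩ := q4.corner (by rw [v4, el, add_comm])
  refine ⟨O + (-r) • e1 + (-s) • e2, (2 * r) • e1, (2 * s) • e2,
    smul_ne_zero (by positivity) fr.n1, smul_ne_zero (by positivity) fr.n2, by
      rw [real_inner_smul_left, real_inner_smul_right, fr.orth]; ring, ?_⟩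
  ext z
  constructor
  · intro hz
    have b1 := sA z hz
    have b2 := sB z hz
    have b3 := sC z hz
    have b4 := sD z hz
    refine ⟨(X z + r) / (2 * r), ⟨div_nonneg (by linarith) (by linarith),
      (div_le_one (by linarith)).2 (by linarith)⟩, (Y z + s) / (2 * s),
      ⟨div_nonneg (by linarith) (by linarith), (div_le_one (by linarith)).2 (by linarith)⟩, ?_⟩
    rw [smul_smul, smul_smul, div_mul_cancel₀ _ (by positivity), div_mul_cancel₀ _ (by positivity)]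
    conv_lhs => rw [fr.dec z]
    module
  · rintro ⟨a, ha, b, hb, rfl⟩
    have m1 := h.cvx (h.mem u3) (h.mem u4) (sub_nonneg.2 ha.2) ha.1 (by ring)
    have m2 := h.cvx (h.mem u2) (h.mem u1) (sub_nonneg.2 ha.2) ha.1 (by ring)
    have m3 := h.cvx m1 m2 (sub_nonneg.2 hb.2) hb.1 (by ring)
    convert m3 using 1
    rw [fr.dec (γ u1), fr.dec (γ u2), fr.dec (γ u3), fr.dec (γ u4), x1, y1, y2, x4,
      neg_eq_iff_eq_neg.1 x2, neg_eq_iff_eq_neg.1 x3, neg_eq_iff_eq_neg.1 y3,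
      neg_eq_iff_eq_neg.1 y4]
    module

theorem Loop.ungar (h : Loop F γ T) {t0 t1 t2 t3 L : ℝ} (h01 : t0 < t1)
    (h12 : t1 < t2) (h23 : t2 < t3) (h30 : t3 < t0 + T)
    (v1 : eVariationOn γ (Icc t0 t1) = ENNReal.ofReal (L / 4))
    (v2 : eVariationOn γ (Icc t1 t2) = ENNReal.ofReal (L / 4))
    (v3 : eVariationOn γ (Icc t2 t3) = ENNReal.ofReal (L / 4))
    (v4 : eVariationOn γ (Icc t3 (t0 + T)) = ENNReal.ofReal (L / 4))
    (perp : inner ℝ (γ t0 - γ t2) (γ t1 - γ t3) = 0) :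
    L ≤ 2 * (dist (γ t0) (γ t2) + dist (γ t1) (γ t3)) ∧
      (2 * (dist (γ t0) (γ t2) + dist (γ t1) (γ t3)) = L →
        ∃ o u v : E, u ≠ 0 ∧ v ≠ 0 ∧ inner ℝ u v = 0 ∧
          F = {z | ∃ s ∈ Icc (0 : ℝ) 1, ∃ t ∈ Icc (0 : ℝ) 1, z = o + s • u + t • v}) := by
  rcases lt_or_ge L 0 with hL | hL
  · have := dist_nonneg (x := γ t0) (y := γ t2)
    have := dist_nonneg (x := γ t1) (y := γ t3)
    exact ⟨by linarith, fun e => by linarith⟩
  have n1 : 0 < ‖γ t0 - γ t2‖ := norm_pos_iff.2 (sub_ne_zero.2 fun e => by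
    linarith [h.inj e (by linarith) (by linarith)])
  have n2 : 0 < ‖γ t1 - γ t3‖ := norm_pos_iff.2 (sub_ne_zero.2 fun e => by
    linarith [h.inj e (by linarith) (by linarith)])
  have perp' : inner ℝ (γ t1 - γ t3) (γ t0 - γ t2) = 0 := by rw [real_inner_comm, perp]
  have fr := exists_frame (γ t0) (γ t1) (e1 := ‖γ t0 - γ t2‖⁻¹ • (γ t0 - γ t2))
    (e2 := ‖γ t1 - γ t3‖⁻¹ • (γ t1 - γ t3))
    (by rw [real_inner_smul_left, real_inner_smul_right, real_inner_self_eq_norm_sq]; field_simp)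
    (by rw [real_inner_smul_left, real_inner_smul_right, real_inner_self_eq_norm_sq]; field_simp)
    (by rw [real_inner_smul_left, real_inner_smul_right, perp]; ring)
  have := h.framed fr h01 h12 h23 h30 (by linarith) v1 v2 v3 v4 (by simp)
    (by
      rw [← neg_sub, inner_neg_left, real_inner_smul_right, perp]; ring)
    (by simp)
    (by
      rw [← neg_sub, inner_neg_left, real_inner_smul_right, perp']; ring)
    (by
      rw [← sub_pos, ← inner_sub_left, sub_sub_sub_cancel_right, real_inner_smul_right,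
        real_inner_self_eq_norm_sq]
      positivity)
    (by
      rw [← sub_pos, ← inner_sub_left, sub_sub_sub_cancel_right, real_inner_smul_right,
        real_inner_self_eq_norm_sq]
      positivity)
  exact ⟨by linarith [this.1], fun e => this.2 (by linarith)⟩

end Pool.Agent.H29.UngD
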