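import Mathlib
import Pool.Agent.H29.UngD

namespace Pool.Agent.H29.UngE
open Set UngC UngD

variable {F : Set E} {γ : ℝ → E} {T : ℝ}

lemma far (hc : IsCompact F) {x : E} (hx : x ∈ F) (y : E) :
    ∃ w ∈ frontier F, dist x y ≤ dist w y := by
  obtain ⟨w, hw, hmax⟩ := hc.exists_isMaxOn ⟨x, hx⟩
    (f := fun z => dist z y) (by fun_prop)
  refine ⟨w, ⟨subset_closure hw, fun hi => ?_⟩, hmax hx⟩
  obtain ⟨v, hv⟩ : ∃ v : E, ∀ ε : ℝ, 0 < ε → dist w y < dist (w + ε • v) y := by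
    by_cases e : w = y
    · obtain ⟨v, hv⟩ := exists_ne (0 : E)
      refine ⟨v, fun ε hε => ?_⟩
      rw [e, dist_self, dist_pos]
      simp [hε.ne', hv]
    · refine ⟨w - y, fun ε hε => ?_⟩
      have : w + ε • (w - y) - y = (1 + ε) • (w - y) := by module
      have hn : 0 < ‖w - y‖ := norm_pos_iff.2 (sub_ne_zero.2 e)
      rw [dist_eq_norm, dist_eq_norm, this, norm_smul, Real.norm_of_nonneg (by linarith)]
      nlinarith
  have hc : Continuous fun t : ℝ => w + t • v := by fun_prop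
  have h1 : (fun t : ℝ => w + t • v) ⁻¹' interior F ∈ nhds (0 : ℝ) :=
    (isOpen_interior.preimage hc).mem_nhds (by simpa using hi)
  obtain ⟨ε, hε, h2⟩ := Metric.mem_nhds_iff.1 h1
  have h3 : ε / 2 ∈ Metric.ball (0 : ℝ) ε := by
    rw [Metric.mem_ball, Real.dist_eq, abs_lt]; constructor <;> linarith
  exact absurd (hmax (interior_subset (h2 h3))) (not_le.2 (hv _ (by linarith)))

lemma two_dist (h : Loop F γ T) {t0 L : ℝ} (hL : 0 ≤ L)
    (hv : eVariationOn γ (Icc t0 (t0 + T)) = ENNReal.ofReal L) {s t : ℝ} (hs : t0 ≤ s)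
    (hst : s ≤ t) (ht : t ≤ t0 + T) : 2 * dist (γ s) (γ t) ≤ L := by
  have a1 := eVariationOn.Icc_add_Icc γ (s := univ) hs (hst.trans ht) (mem_univ s)
  have a2 := eVariationOn.Icc_add_Icc γ (s := univ) hst ht (mem_univ t)
  simp only [univ_inter] at a1 a2
  have b1 := eVariationOn.edist_le γ (s := Icc t0 s) ⟨le_rfl, hs⟩ ⟨hs, le_rfl⟩
  have b2 := eVariationOn.edist_le γ (s := Icc s t) ⟨le_rfl, hst⟩ ⟨hst, le_rfl⟩
  have b3 := eVariationOn.edist_le γ (s := Icc t (t0 + T)) ⟨le_rfl, ht⟩ ⟨ht, le_rfl⟩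
  have := add_le_add b1 (add_le_add b2 b3)
  rw [a2, a1, hv, h.shift, edist_dist, edist_dist, edist_dist,
    ← ENNReal.ofReal_add dist_nonneg dist_nonneg,
    ← ENNReal.ofReal_add dist_nonneg (by positivity), ENNReal.ofReal_le_ofReal_iff hL] at this
  have tri := dist_triangle (γ s) (γ t0) (γ t)
  rw [dist_comm (γ s) (γ t0), dist_comm (γ t0) (γ t)] at tri
  linarith

theorem diam_le (h : Loop F γ T) {t0 L : ℝ} (hL : 0 ≤ L)
    (hv : eVariationOn γ (Icc t0 (t0 + T)) = ENNReal.ofReal L) : Metric.diam F ≤ L / 2 := by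
  refine Metric.diam_le_of_forall_dist_le (by linarith) fun x hx y hy => ?_
  obtain ⟨x', hx', k1⟩ := far h.cpt hx y
  obtain ⟨y', hy', k2⟩ := far h.cpt hy x'
  obtain ⟨s, hs, rfl⟩ := h.surj t0 hx'
  obtain ⟨t, ht, rfl⟩ := h.surj t0 hy'
  rw [dist_comm y] at k2
  rcases le_total s t with k | k
  · have := two_dist h hL hv hs.1 k ht.2.le
    rw [dist_comm] at this
    linarith
  · have := two_dist h hL hv ht.1 k hs.2.le
    linarith

lemma len_nonneg (h : Loop F γ T) {s t l : ℝ} (hst : s < t) (hT : t < s + T)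
    (hv : eVariationOn γ (Icc s t) = ENNReal.ofReal l) : 0 ≤ l := by
  by_contra hc
  push Not at hc
  have b := eVariationOn.edist_le γ (s := Icc s t) ⟨le_rfl, hst.le⟩ ⟨hst.le, le_rfl⟩
  rw [hv, ENNReal.ofReal_of_nonpos hc.le, nonpos_iff_eq_zero, edist_eq_zero] at b
  exact hst.ne (h.inj b (by linarith) (by linarith))

end Pool.Agent.H29.UngE
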