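import Mathlib

namespace Pool.Agent.H29.Weyl2
open Set Topology

abbrev C := AddCircle (1 : ℝ)

lemma dense_irr (β : ℝ) (hβ : Irrational β) : DenseRange (fun n : ℤ => n • (β : C)) :=
  AddCircle.denseRange_zsmul_coe_iff.2 (by simpa using hβ)

noncomputable def ph (α : C) (j : ℤ) (x : C × C) : C × C :=
  (x.1 + j • α, x.2 + (2 * j) • x.1 + (j * j) • α)

lemma ph_add (α : C) (i j : ℤ) (x : C × C) : ph α i (ph α j x) = ph α (i + j) x := by
  simp only [ph, Prod.mk.injEq]; constructor <;> module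

lemma ph_shift (α : C) (i : ℤ) (x : C × C) (s : C) : ph α i (x + (0, s)) = ph α i x + (0, s) := by
  simp only [ph, Prod.ext_iff, Prod.fst_add, Prod.snd_add]; constructor <;> module

lemma ph_cont (α : C) (i : ℤ) : Continuous (ph α i) := by unfold ph; fun_prop

lemma fst_all (β : ℝ) (hβ : Irrational β) (W : Set (C × C)) (hW : IsClosed W) (u : C × C)
    (hu : ∀ n : ℤ, ph (β : C) n u ∈ W) (a : C) : ∃ w ∈ W, w.1 = a := by
  have h1 : IsClosed (Prod.fst '' W) := (hW.isCompact.image continuous_fst).isClosed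
  have h2 : IsClosed {b : C | u.1 + b ∈ Prod.fst '' W} := h1.preimage (by fun_prop)
  have h3 := (dense_irr β hβ).induction_on (p := fun b => u.1 + b ∈ Prod.fst '' W) (a - u.1) h2
    (fun n => ⟨_, hu n, rfl⟩)
  simpa using h3

theorem dense_orbit (β : ℝ) (hβ : Irrational β) (x : C × C) :
    DenseRange (fun j : ℤ => ph (β : C) j x) := by
  set Y := closure (range fun j : ℤ => ph (β : C) j x) with hY
  have hYc : IsClosed Y := isClosed_closure
  have hO : ∀ j, ph (β : C) j x ∈ Y := fun j => subset_closure ⟨j, rfl⟩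
  have hx : x ∈ Y := by simpa [ph] using hO 0
  have hinv : ∀ j, ∀ y ∈ Y, ph (β : C) j y ∈ Y := by
    intro j y hy
    refine closure_minimal (t := {y | ph (β : C) j y ∈ Y}) ?_ (hYc.preimage (ph_cont _ j)) hy
    rintro _ ⟨i, rfl⟩
    simp only [mem_setOf_eq, ph_add]; exact hO _
  have hP : ∀ s : C, x + (0, s) ∈ Y → ∀ y ∈ Y, y + (0, s) ∈ Y := by
    intro s hs y hy
    refine closure_minimal (t := {y | y + (0, s) ∈ Y}) ?_ (hYc.preimage (by fun_prop)) hy
    rintro _ ⟨i, rfl⟩
    simp only [mem_setOf_eq, ← ph_shift]; exact hinv _ _ hs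
  have hneg : ∀ s : C, x + (0, s) ∈ Y → x + (0, -s) ∈ Y := by
    intro s hs
    have h1 : ∀ n : ℕ, x + (0, n • s) ∈ Y := by
      intro n
      induction n with
      | zero =>
        have e : x + (0, (0 : ℕ) • s) = x := by ext <;> simp
        rwa [e]
      | succ n ih =>
        have := hP s hs _ ih
        have e : x + (0, n • s) + (0, s) = x + (0, (n + 1) • s) := by
          ext
          · simp
          · simp only [Prod.snd_add, succ_nsmul]; abel
        rwa [e] at this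
    have h2 : -s ∈ closure (range fun n : ℕ => n • s) := by
      rw [← closure_range_zsmul_eq_nsmul]
      exact subset_closure ⟨-1, by simp⟩
    refine closure_minimal (t := {b : C | x + (0, b) ∈ Y}) ?_ (hYc.preimage (by fun_prop)) h2
    rintro _ ⟨n, rfl⟩; exact h1 n
  have hdif : ∀ t : C, ∃ u ∈ Y, u + (0, t) ∈ Y := by
    intro t
    have hZ : IsClosed ((fun p : (C × C) × (C × C) => p.2 - p.1) '' (Y ×ˢ Y)) :=
      ((hYc.isCompact.prod hYc.isCompact).image (by fun_prop)).isClosed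
    have h1 : ∀ m : ℤ, m ≠ 0 → (m • (β : C), t) ∈
        ((fun p : (C × C) × (C × C) => p.2 - p.1) '' (Y ×ˢ Y)) := by
      intro m hm
      have hirr : Irrational (((2 * m : ℤ) : ℝ) * β) := hβ.intCast_mul (by omega)
      have h2 := (dense_irr _ hirr).induction_on
        (p := fun b => (m • (β : C), (2 * m) • x.1 + (m * m) • (β : C) + b) ∈
          ((fun p : (C × C) × (C × C) => p.2 - p.1) '' (Y ×ˢ Y)))
        (t - ((2 * m) • x.1 + (m * m) • (β : C))) (hZ.preimage (by fun_prop))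
        (fun n => ⟨(ph β n x, ph β (n + m) x), ⟨hO _, hO _⟩, by
          have : ((((2 * m : ℤ) : ℝ) * β : ℝ) : C) = (2 * m) • (β : C) := by
            rw [← zsmul_eq_mul, AddCircle.coe_zsmul]
          simp only [ph, this, Prod.ext_iff, Prod.fst_sub, Prod.snd_sub]
          constructor <;> module⟩)
      simpa using h2
    have h3 : IsClosed {b : C | b = 0 ∨ (b, t) ∈
        ((fun p : (C × C) × (C × C) => p.2 - p.1) '' (Y ×ˢ Y))} :=
      isClosed_singleton.union (hZ.preimage (by fun_prop))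
    have h4 : ∀ b : C, b = 0 ∨ (b, t) ∈
        ((fun p : (C × C) × (C × C) => p.2 - p.1) '' (Y ×ˢ Y)) := fun b =>
      (dense_irr β hβ).induction_on b h3 (fun m => by
        by_cases hm : m = 0
        · left; simp [hm]
        · right; exact h1 m hm)
    have h5 : IsClosed {r : ℝ | ((r : C), t) ∈
        ((fun p : (C × C) × (C × C) => p.2 - p.1) '' (Y ×ˢ Y))} :=
      hZ.preimage (((AddCircle.continuous_mk' (1 : ℝ))).prodMk continuous_const)
    have h6 : (0 : ℝ) ∈ closure (Ioo (0 : ℝ) 1) := by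
      rw [closure_Ioo zero_ne_one]; simp
    have h7 := closure_minimal (t := {r : ℝ | ((r : C), t) ∈
        ((fun p : (C × C) × (C × C) => p.2 - p.1) '' (Y ×ˢ Y))}) (fun r hr => by
          refine (h4 r).resolve_left fun h0 => ?_
          obtain ⟨n, hn⟩ := (AddCircle.coe_eq_zero_iff (1 : ℝ)).1 h0
          simp only [zsmul_eq_mul, mul_one] at hn
          obtain ⟨h8, h9⟩ := hr
          rw [← hn] at h8 h9
          have : (0 : ℤ) < n := by exact_mod_cast h8
          have : n < (1 : ℤ) := by exact_mod_cast h9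
          omega) h5 h6
    obtain ⟨⟨u, v⟩, ⟨hu, hv⟩, huv⟩ := h7
    refine ⟨u, hu, ?_⟩
    have : u + (0, t) = v := by
      simp only [AddCircle.coe_zero] at huv
      rw [← huv]; abel
    rwa [this]
  have hall : ∀ t : C, x + (0, t) ∈ Y := by
    intro t
    obtain ⟨u, hu1, hu2⟩ := hdif t
    obtain ⟨w, ⟨hw1, hw2⟩, hw⟩ := fst_all β hβ (Y ∩ {w | w + (0, t) ∈ Y})
      (hYc.inter (hYc.preimage (by fun_prop))) u
      (fun n => ⟨hinv _ _ hu1, by simp only [mem_setOf_eq, ← ph_shift]; exact hinv _ _ hu2⟩) x.1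
    have e1 : w = x + (0, w.2 - x.2) := by ext <;> simp [hw]
    have h1 := hP _ (hneg _ (e1 ▸ hw1)) _ hw2
    have e2 : w + (0, t) + (0, -(w.2 - x.2)) = x + (0, t) := by
      ext
      · simp [hw]
      · simp only [Prod.snd_add]; abel
    rwa [e2] at h1
  intro y
  obtain ⟨w, hw1, hw⟩ := fst_all β hβ Y hYc x hO y.1
  have h1 := hP _ (hall (y.2 - w.2)) w hw1
  have e : w + (0, y.2 - w.2) = y := by ext <;> simp [hw]
  rwa [e] at h1

theorem real_dense (β : ℝ) (hβ : Irrational β) (a c a' c' δ : ℝ) (hδ : 0 < δ) :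
    ∃ j m p : ℤ, |a + j * β + m - a'| < δ ∧ |c + 2 * j * a + j * j * β + p - c'| < δ := by
  obtain ⟨j, hj⟩ := (dense_orbit β hβ ((a : C), (c : C))).exists_dist_lt ((a' : C), (c' : C)) hδ
  rw [dist_comm, Prod.dist_eq, max_lt_iff, dist_eq_norm, dist_eq_norm] at hj
  obtain ⟨h1, h2⟩ := hj
  simp only [ph, ← AddCircle.coe_zsmul, ← AddCircle.coe_add, ← AddCircle.coe_sub,
    UnitAddCircle.norm_eq, zsmul_eq_mul] at h1 h2
  refine ⟨j, -round (a + j * β - a'), -round (c + ((2 * j : ℤ) : ℝ) * a + ((j * j : ℤ) : ℝ) * β - c'),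
    ?_, ?_⟩
  · refine lt_of_eq_of_lt (congrArg _ ?_) h1; push_cast; ring
  · refine lt_of_eq_of_lt (congrArg _ ?_) h2; push_cast; ring

lemma shift_int (b : ℝ) (h : ∀ x : ℝ, ‖(x : C)‖ < 1 / 4 → ‖((x + b : ℝ) : C)‖ ≤ 1 / 4) :
    ∃ n : ℤ, b = n := by
  refine ⟨round b, ?_⟩
  have hr := abs_le.1 (abs_sub_round b)
  have key : ∀ x : ℝ, |x| < 1 / 4 → |x + (b - round b)| ≤ 1 / 2 →
      |x + (b - round b)| ≤ 1 / 4 := by
    intro x h1 h2
    have e1 : ‖(x : C)‖ = |x| := (AddCircle.norm_coe_eq_abs_iff (1 : ℝ) one_ne_zero).2 (by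
      rw [abs_one]; linarith)
    have e2 : ‖((x + (b - round b) : ℝ) : C)‖ = |x + (b - round b)| :=
      (AddCircle.norm_coe_eq_abs_iff (1 : ℝ) one_ne_zero).2 (by rw [abs_one]; linarith)
    have e3 : ((x + (b - round b) : ℝ) : C) = ((x + b : ℝ) : C) := by
      have : ((round b : ℝ) : C) = 0 := (AddCircle.coe_eq_zero_iff (1 : ℝ)).2 ⟨round b, by simp⟩
      rw [← add_sub_assoc, AddCircle.coe_sub, this, sub_zero]
    rw [← e2, e3]; exact h x (by rw [e1]; exact h1)
  by_contra hne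
  rcases lt_or_gt_of_ne (sub_ne_zero.2 hne) with hlt | hgt
  · have := abs_le.1 (key (-(1 / 4) - (b - round b) / 2) (abs_lt.2 ⟨by linarith, by linarith⟩)
      (abs_le.2 ⟨by linarith, by linarith⟩))
    linarith
  · have := abs_le.1 (key (1 / 4 - (b - round b) / 2) (abs_lt.2 ⟨by linarith, by linarith⟩)
      (abs_le.2 ⟨by linarith, by linarith⟩))
    linarith

end Pool.Agent.H29.Weyl2
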