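import Mathlib

set_option autoImplicit false
open Polynomial

namespace Pool.Agent.H29.Width

noncomputable def P (a b c : ℂ) : ℂ[X] :=
  C (1 / 8) * X ^ 8 + C (a / 6) * X ^ 6 + C (b / 4) * X ^ 4 + C (c / 2) * X ^ 2

theorem evD (a b c l z : ℂ) (hl : l ≠ 0) :
    eval z (((P a b c).comp (X + C l) - (P a b c).comp (X - C l)) * C (1 / (2 * l))) =
      z * ((z ^ 2) ^ 3 + (7 * l ^ 2 + a) * (z ^ 2) ^ 2 + (7 * l ^ 4 + 10 / 3 * l ^ 2 * a + b) * z ^ 2
        + (l ^ 6 + l ^ 4 * a + l ^ 2 * b + c)) := by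
  simp only [P, eval_mul, eval_sub, eval_comp, eval_add, eval_X, eval_C, eval_pow]
  field_simp
  ring

theorem evd (a b c z : ℂ) :
    eval z (derivative (P a b c)) = z * (z ^ 6 + a * z ^ 4 + b * z ^ 2 + c) := by
  simp only [P, derivative_add, derivative_mul, derivative_C, derivative_X_pow, eval_add, eval_mul,
    eval_C, eval_pow, eval_X, zero_mul, zero_add, eval_zero]
  push_cast
  ring

def S (q : ℂ[X]) : Set ℝ := {x : ℝ | ∃ z ∈ q.roots, ∃ w ∈ q.roots, x = z.re - w.re}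

theorem upper (q : ℂ[X]) (r : ℝ) (hr : 0 ≤ r) (h : ∀ z, eval z q = 0 → |z.re| ≤ r) :
    sSup (S q) ≤ 2 * r := by
  apply Real.sSup_le _ (by linarith)
  rintro x ⟨z, hz, w, hw, rfl⟩
  have h1 := abs_le.1 (h z (isRoot_of_mem_roots hz))
  have h2 := abs_le.1 (h w (isRoot_of_mem_roots hw))
  linarith [h1.2, h2.1]

theorem lower (q : ℂ[X]) (hq : q ≠ 0) (z w : ℂ) (hz : eval z q = 0) (hw : eval w q = 0) :
    z.re - w.re ≤ sSup (S q) := by
  classical
  apply le_csSup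
  · apply Set.Finite.bddAbove
    apply Set.Finite.subset (Set.Finite.image2 (fun z w : ℂ => z.re - w.re)
      q.roots.toFinset.finite_toSet q.roots.toFinset.finite_toSet)
    rintro x ⟨z, hz, w, hw, rfl⟩
    exact ⟨z, by simpa using hz, w, by simpa using hw, rfl⟩
  · exact ⟨z, (mem_roots hq).2 hz, w, (mem_roots hq).2 hw, rfl⟩

theorem sq_strip (z u : ℂ) (w : ℝ) (hw : 0 < w) (hz : z ^ 2 = u) (hu : u.re ≤ 0)
    (h : u.im ^ 2 ≤ 4 * w ^ 2 * (w ^ 2 - u.re)) : |z.re| ≤ w := by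
  have h1 : u.re = z.re ^ 2 - z.im ^ 2 := by rw [← hz]; simp [pow_two]
  have h2 : u.im = 2 * z.re * z.im := by rw [← hz]; simp [pow_two]; ring
  by_contra hc
  push Not at hc
  have h3 : w ^ 2 < z.re ^ 2 := by
    rw [← sq_abs z.re]; exact pow_lt_pow_left₀ hc hw.le (by norm_num)
  have h4 : w ^ 2 - u.re < z.im ^ 2 := by linarith
  have h5 : 0 < w ^ 2 - u.re := by nlinarith
  have h6 : w ^ 2 * (w ^ 2 - u.re) < z.re ^ 2 * z.im ^ 2 :=
    mul_lt_mul'' h3 h4 (by positivity) h5.le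
  rw [h2] at h
  nlinarith

noncomputable def u1 : ℂ := ⟨(-1457 / 250), (2 / 625)⟩
noncomputable def u2 : ℂ := ⟨(-1 / 1), (-1 / 750)⟩
noncomputable def u3 : ℂ := ⟨(-146332099137827067573197103995689389079 / 852584821298312735736041668545804500000), (-45696452608548905464378731969885235491 / 85258482129831273573604166854580450000000)⟩
noncomputable def z0 : ℂ := ⟨(7 / 10000), (-4557 / 10000)⟩
noncomputable def a0 : ℂ := ⟨(-312490125482722973402062994188984921 / 852584821298312735736041668545804500000), (-340358142101408415619047138475994813527 / 255775446389493820720812500563741350000000)⟩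
noncomputable def b0 : ℂ := ⟨(364607549533500024648878515611296621877937 / 319719307986867275901015625704676687500000000), (2368268705263955322747070773697649711052553 / 191831584792120365540609375422806012500000000)⟩
noncomputable def c0 : ℂ := ⟨(-2641302991046477239133369183125427904370439 / 5328655133114454598350260428411278125000000000), (-106507355171305532446610839666762080413024663 / 14986842561884403557860107454906719726562500000)⟩

theorem ha : a0 = -(u1 + u2 + u3) - 7 := by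
  apply Complex.ext <;> simp [a0, u1, u2, u3] <;> norm_num

theorem hb : b0 = u1 * u2 + u1 * u3 + u2 * u3 - 7 - 10 / 3 * a0 := by
  have : (10 / 3 : ℂ) = ((10 / 3 : ℝ) : ℂ) := by push_cast; ring
  rw [this]
  apply Complex.ext <;> simp only [a0, b0, u1, u2, u3, Complex.add_re, Complex.sub_re, Complex.mul_re,
    Complex.add_im, Complex.sub_im, Complex.mul_im, Complex.ofReal_re, Complex.ofReal_im,
    Complex.re_ofNat, Complex.im_ofNat] <;> norm_num

theorem hc : c0 = -(u1 * u2 * u3) - 1 - a0 - b0 := by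
  apply Complex.ext <;> simp only [a0, b0, c0, u1, u2, u3, Complex.add_re, Complex.sub_re,
    Complex.mul_re, Complex.neg_re, Complex.neg_im,
    Complex.add_im, Complex.sub_im, Complex.mul_im, Complex.ofReal_re, Complex.ofReal_im,
    Complex.one_re, Complex.one_im] <;> norm_num

theorem hroot : (z0 ^ 2) ^ 3 + (7 * ((11 / 10 : ℝ) : ℂ) ^ 2 + a0) * (z0 ^ 2) ^ 2
    + (7 * ((11 / 10 : ℝ) : ℂ) ^ 4 + 10 / 3 * ((11 / 10 : ℝ) : ℂ) ^ 2 * a0 + b0) * z0 ^ 2
    + (((11 / 10 : ℝ) : ℂ) ^ 6 + ((11 / 10 : ℝ) : ℂ) ^ 4 * a0 + ((11 / 10 : ℝ) : ℂ) ^ 2 * b0 + c0) = 0 := by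
  have : (10 / 3 : ℂ) = ((10 / 3 : ℝ) : ℂ) := by push_cast; ring
  rw [this]
  apply Complex.ext <;> simp only [a0, b0, c0, z0, pow_succ, pow_zero, Complex.add_re, Complex.sub_re,
    Complex.mul_re, Complex.neg_re, Complex.neg_im, Complex.re_ofNat, Complex.im_ofNat,
    Complex.add_im, Complex.sub_im, Complex.mul_im, Complex.ofReal_re, Complex.ofReal_im,
    Complex.one_re, Complex.one_im, Complex.zero_re, Complex.zero_im] <;> norm_num

theorem hone : (1 : ℂ) * ((1 ^ 2) ^ 3 + (7 * ((11 / 10 : ℝ) : ℂ) ^ 2 + a0) * (1 ^ 2) ^ 2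
    + (7 * ((11 / 10 : ℝ) : ℂ) ^ 4 + 10 / 3 * ((11 / 10 : ℝ) : ℂ) ^ 2 * a0 + b0) * 1 ^ 2
    + (((11 / 10 : ℝ) : ℂ) ^ 6 + ((11 / 10 : ℝ) : ℂ) ^ 4 * a0 + ((11 / 10 : ℝ) : ℂ) ^ 2 * b0 + c0)) ≠ 0 := by
  have : (10 / 3 : ℂ) = ((10 / 3 : ℝ) : ℂ) := by push_cast; ring
  rw [this]
  intro h
  have h2 := congrArg Complex.re h
  simp only [a0, b0, c0, pow_succ, pow_zero, Complex.add_re, Complex.sub_re,
    Complex.mul_re, Complex.neg_re, Complex.neg_im, Complex.re_ofNat, Complex.im_ofNat,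
    Complex.add_im, Complex.sub_im, Complex.mul_im, Complex.ofReal_re, Complex.ofReal_im,
    Complex.one_re, Complex.one_im, Complex.zero_re, Complex.zero_im] at h2
  norm_num at h2

theorem na : ‖a0‖ ≤ 1 / 100 := by
  refine (Complex.norm_le_abs_re_add_abs_im _).trans ?_
  simp only [a0]; norm_num [abs_le, abs_of_neg, abs_of_pos]

theorem nb : ‖b0‖ ≤ 1 / 50 := by
  refine (Complex.norm_le_abs_re_add_abs_im _).trans ?_
  simp only [b0]; norm_num [abs_le, abs_of_neg, abs_of_pos]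

theorem nc : ‖c0‖ ≤ 1 / 130 := by
  refine (Complex.norm_le_abs_re_add_abs_im _).trans ?_
  simp only [c0]; norm_num [abs_le, abs_of_neg, abs_of_pos]

theorem Wd : sSup (S (derivative (P a0 b0 c0))) ≤ 2 * (49 / 100) := by
  apply upper _ _ (by norm_num)
  intro z hz
  rw [evd] at hz
  rcases mul_eq_zero.1 hz with h | h
  · rw [h]; norm_num
  · refine (Complex.abs_re_le_norm z).trans ?_
    by_contra hc
    push Not at hc
    have h1 : z ^ 6 = -(a0 * z ^ 4 + b0 * z ^ 2 + c0) := by linear_combination h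
    have h2 : ‖z‖ ^ 6 ≤ ‖a0‖ * ‖z‖ ^ 4 + ‖b0‖ * ‖z‖ ^ 2 + ‖c0‖ := by
      rw [← norm_pow, h1, norm_neg, ← norm_pow, ← norm_pow, ← norm_mul, ← norm_mul]
      exact norm_add₃_le
    have h3 : (24 / 100 : ℝ) < ‖z‖ ^ 2 := by nlinarith
    have h4 : ‖a0‖ * ‖z‖ ^ 4 ≤ 1 / 100 * ‖z‖ ^ 4 := by gcongr; exact na
    have h5 : ‖b0‖ * ‖z‖ ^ 2 ≤ 1 / 50 * ‖z‖ ^ 2 := by gcongr; exact nb
    have h6 := nc
    set t := ‖z‖ ^ 2 with ht
    have h7 : ‖z‖ ^ 6 = t ^ 3 := by rw [ht]; ring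
    have h8 : ‖z‖ ^ 4 = t ^ 2 := by rw [ht]; ring
    rw [h7] at h2
    rw [h8] at h2 h4
    nlinarith [mul_pos (sub_pos.2 h3) (sub_pos.2 h3), mul_pos (mul_pos (sub_pos.2 h3) (sub_pos.2 h3)) (sub_pos.2 h3)]

theorem W1 : sSup (S (((P a0 b0 c0).comp (X + C ((1 : ℝ) : ℂ)) - (P a0 b0 c0).comp (X - C ((1 : ℝ) : ℂ)))
    * C (1 / (2 * ((1 : ℝ) : ℂ))))) ≤ 2 * (1 / 1500) := by
  apply upper _ _ (by norm_num)
  intro z hz
  rw [evD _ _ _ _ _ (by norm_num)] at hz
  have h0 : z * ((z ^ 2 - u1) * (z ^ 2 - u2) * (z ^ 2 - u3)) = 0 := by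
    rw [← hz, hc, hb, ha]; push_cast; ring
  rcases mul_eq_zero.1 h0 with h | h
  · rw [h]; norm_num
  rcases mul_eq_zero.1 h with h | h
  rcases mul_eq_zero.1 h with h | h
  · exact sq_strip z u1 _ (by norm_num) (sub_eq_zero.1 h) (by norm_num [u1]) (by norm_num [u1])
  · exact sq_strip z u2 _ (by norm_num) (sub_eq_zero.1 h) (by norm_num [u2]) (by norm_num [u2])
  · exact sq_strip z u3 _ (by norm_num) (sub_eq_zero.1 h) (by norm_num [u3]) (by norm_num [u3])

theorem W2 : 14 / 10000 ≤ sSup (S (((P a0 b0 c0).comp (X + C ((11 / 10 : ℝ) : ℂ))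
    - (P a0 b0 c0).comp (X - C ((11 / 10 : ℝ) : ℂ))) * C (1 / (2 * ((11 / 10 : ℝ) : ℂ))))) := by
  have hl : ((11 / 10 : ℝ) : ℂ) ≠ 0 := by norm_num
  refine le_trans ?_ (lower _ ?_ z0 (-z0) ?_ ?_)
  · norm_num [z0]
  · intro h
    have h1 := evD a0 b0 c0 _ 1 hl
    rw [h, eval_zero] at h1
    exact hone h1.symm
  · rw [evD _ _ _ _ _ hl, hroot, mul_zero]
  · rw [evD _ _ _ _ _ hl, neg_sq, hroot, mul_zero]

end Pool.Agent.H29.Width
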